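import Pool.Agent.W_b58c63_m1.MInt

/-!
# Mean squares over integers (helper68)
-/

set_option autoImplicit false

noncomputable section

open Finset MeasureTheory Complex

namespace Pool.Agent.M58

/-- The Fourier integral over a set. -/
def MPl_G (F : ℝ → ℂ) (E : Set ℝ) (y : ℝ) : ℂ := ∫ t in E, F t * Complex.exp ((t * y : ℝ) * I)

theorem MPl_int {F : ℝ → ℂ} {E : Set ℝ} {T : ℝ} (hF : Continuous F) (hE : E ⊆ Set.Icc (-T) T) :
    Integrable F (volume.restrict E) :=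
  (hF.continuousOn.integrableOn_compact isCompact_Icc).mono_set hE

theorem MPl_cont {F : ℝ → ℂ} {E : Set ℝ} {T : ℝ} (hF : Continuous F) (hE : E ⊆ Set.Icc (-T) T) :
    Continuous (MPl_G F E) := by
  unfold MPl_G
  refine continuous_of_dominated (bound := fun t => ‖F t‖) (fun y => ?_) (fun y => ?_) (MPl_int hF hE).norm ?_
  · have : Continuous (fun t : ℝ => F t * Complex.exp ((t * y : ℝ) * I)) := by fun_prop
    exact this.aestronglyMeasurable
  · refine Filter.Eventually.of_forall fun t => ?_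
    rw [norm_mul, Complex.norm_exp_ofReal_mul_I, mul_one]
  · refine Filter.Eventually.of_forall fun t => ?_
    fun_prop

theorem MPl_osc_cont (c : ℝ) : Continuous (fun u => osc (fun v => tent ((v - c) / 2)) u) := by
  obtain ⟨h1, h2⟩ := STe_hasInt 2 c two_pos
  have h3 : Continuous (fun ξ => FourierTransform.fourier
      (fun v : ℝ => (tent ((v - c) / 2) : ℂ)) ξ) :=
    VectorFourier.fourierIntegral_continuous Real.continuous_fourierChar
      (by exact continuous_inner) h2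
  have h4 : (fun u => osc (fun v => tent ((v - c) / 2)) u) = fun u : ℝ =>
      FourierTransform.fourier (fun v : ℝ => (tent ((v - c) / 2) : ℂ)) (u / (2 * Real.pi)) := by
    funext u
    rw [STe_four (fun v => tent ((v - c) / 2))]
    congr 1
    field_simp
  rw [h4]
  exact h3.comp (continuous_id.div_const _)

theorem MPl_key {F : ℝ → ℂ} {E : Set ℝ} {T : ℝ} (hF : Continuous F) (hE : E ⊆ Set.Icc (-T) T) (c : ℝ) :
    Integrable (fun y : ℝ => tent ((y - c) / 2) * ‖MPl_G F E y‖ ^ 2) ∧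
    ((∫ y : ℝ, tent ((y - c) / 2) * ‖MPl_G F E y‖ ^ 2 : ℝ) : ℂ) =
      ∫ p : ℝ × ℝ, F p.1 * (starRingEnd ℂ) (F p.2) * osc (fun v => tent ((v - c) / 2)) (p.2 - p.1)
        ∂((volume.restrict E).prod (volume.restrict E)) := by
  set K : ℝ → ℝ × ℝ → ℂ := fun y p => ((tent ((y - c) / 2) : ℝ) : ℂ) *
    ((F p.1 * Complex.exp ((p.1 * y : ℝ) * I)) *
      ((starRingEnd ℂ) (F p.2) * Complex.exp ((-(p.2 * y) : ℝ) * I))) with hK
  have hconj : Continuous (fun s => (starRingEnd ℂ) (F s)) := Complex.continuous_conj.comp hF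
  have htc := (STe_hasInt 2 c two_pos).1
  have hbase := (STe_hasInt 2 c two_pos).2.mul_prod ((MPl_int hF hE).mul_prod (MPl_int hconj hE))
  have hKi : Integrable (Function.uncurry K)
      (volume.prod ((volume.restrict E).prod (volume.restrict E))) := by
    refine hbase.mono ?_ ?_
    · have : Continuous (Function.uncurry K) := by
        rw [hK]
        unfold Function.uncurry
        have h1 : Continuous fun a : ℝ × ℝ × ℝ => ((tent ((a.1 - c) / 2) : ℝ) : ℂ) := htc.comp continuous_fst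
        have h2 : Continuous fun a : ℝ × ℝ × ℝ => F a.2.1 := hF.comp (by fun_prop)
        have h3 : Continuous fun a : ℝ × ℝ × ℝ => (starRingEnd ℂ) (F a.2.2) := hconj.comp (by fun_prop)
        refine h1.mul ((h2.mul (by fun_prop)).mul (h3.mul (by fun_prop)))
      exact this.aestronglyMeasurable
    · refine Filter.Eventually.of_forall fun z => le_of_eq ?_
      simp only [Function.uncurry, hK, norm_mul, Complex.norm_exp_ofReal_mul_I, mul_one]
  have hin : ∀ y, ∫ p, K y p ∂((volume.restrict E).prod (volume.restrict E)) =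
      ((tent ((y - c) / 2) * ‖MPl_G F E y‖ ^ 2 : ℝ) : ℂ) := by
    intro y
    rw [hK]
    simp only
    rw [integral_const_mul, integral_prod_mul (fun t => F t * Complex.exp ((t * y : ℝ) * I))
      (fun s => (starRingEnd ℂ) (F s) * Complex.exp ((-(s * y) : ℝ) * I))]
    have h1 : ∫ s in E, (starRingEnd ℂ) (F s) * Complex.exp ((-(s * y) : ℝ) * I) =
        (starRingEnd ℂ) (MPl_G F E y) := by
      unfold MPl_G
      rw [← integral_conj]
      refine integral_congr_ae (Filter.Eventually.of_forall fun s => ?_)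
      simp only [map_mul, ← Complex.exp_conj, Complex.conj_ofReal, Complex.conj_I]
      congr 2
      push_cast
      ring
    rw [h1]
    change _ * (MPl_G F E y * (starRingEnd ℂ) (MPl_G F E y)) = _
    rw [Complex.mul_conj']
    push_cast
    ring
  have hout : ∀ p : ℝ × ℝ, ∫ y, K y p = F p.1 * (starRingEnd ℂ) (F p.2) *
      osc (fun v => tent ((v - c) / 2)) (p.2 - p.1) := by
    intro p
    unfold osc
    rw [← integral_const_mul]
    refine integral_congr_ae (Filter.Eventually.of_forall fun y => ?_)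
    simp only [hK]
    have h1 : Complex.exp (-((p.2 - p.1) * y : ℝ) * Complex.I) =
        Complex.exp ((p.1 * y : ℝ) * I) * Complex.exp ((-(p.2 * y) : ℝ) * I) := by
      rw [← Complex.exp_add]
      congr 1
      push_cast
      ring
    rw [h1]
    ring
  have hi := hKi.integral_prod_left
  have hi2 : Integrable (fun y => ((tent ((y - c) / 2) * ‖MPl_G F E y‖ ^ 2 : ℝ) : ℂ)) := by
    refine hi.congr (Filter.Eventually.of_forall fun y => ?_)
    exact hin y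
  refine ⟨?_, ?_⟩
  · refine hi2.re.congr (Filter.Eventually.of_forall fun y => ?_)
    exact Complex.ofReal_re _
  · rw [← integral_complex_ofReal]
    have h1 := integral_integral_swap hKi
    simp only [hin, hout] at h1
    exact h1

theorem MPl_prodint {E : Set ℝ} {T : ℝ} (hE : E ⊆ Set.Icc (-T) T) {f : ℝ × ℝ → ℝ}
    (hf : Continuous f) : Integrable f ((volume.restrict E).prod (volume.restrict E)) := by
  rw [Measure.prod_restrict]
  have h1 : IntegrableOn f (Set.Icc (-T) T ×ˢ Set.Icc (-T) T) (volume.prod volume) :=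
    hf.continuousOn.integrableOn_compact (isCompact_Icc.prod isCompact_Icc)
  exact h1.mono_set (Set.prod_mono hE hE)

theorem MPl_sym {F : ℝ → ℂ} {E : Set ℝ} {T : ℝ} (hF : Continuous F)
    (hE : E ⊆ Set.Icc (-T) T) (k : ℝ → ℝ) (hk : Continuous k) (hk0 : ∀ u, 0 ≤ k u) (hki : Integrable k) (B : ℝ)
    (hkB : ∫ u, k u ≤ B) :
    ∫ p : ℝ × ℝ, ‖F p.1‖ ^ 2 * k (p.2 - p.1) ∂((volume.restrict E).prod (volume.restrict E)) ≤
      B * ∫ t in E, ‖F t‖ ^ 2 := by
  have hc : Continuous (fun p : ℝ × ℝ => ‖F p.1‖ ^ 2 * k (p.2 - p.1)) := by fun_prop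
  rw [integral_prod _ (MPl_prodint hE hc), ← integral_const_mul]
  have hFn : Integrable (fun t => ‖F t‖ ^ 2) (volume.restrict E) :=
    ((hF.norm.pow 2).continuousOn.integrableOn_compact isCompact_Icc).mono_set hE
  refine integral_mono (MPl_prodint hE hc).integral_prod_left (hFn.const_mul B) (fun t => ?_)
  change ∫ s in E, ‖F t‖ ^ 2 * k (s - t) ≤ B * ‖F t‖ ^ 2
  rw [integral_const_mul, mul_comm B]
  refine mul_le_mul_of_nonneg_left ?_ (sq_nonneg _)
  have h1 : Integrable (fun s => k (s - t)) := hki.comp_sub_right t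
  refine (setIntegral_le_integral h1 (Filter.Eventually.of_forall fun s => hk0 _)).trans ?_
  rw [integral_sub_right_eq_self]
  exact hkB

theorem MPl_pl {F : ℝ → ℂ} {E : Set ℝ} {T : ℝ} (hF : Continuous F)
    (hE : E ⊆ Set.Icc (-T) T) (c : ℝ) :
    ∫ y : ℝ, tent ((y - c) / 2) * ‖MPl_G F E y‖ ^ 2 ≤ 2 * Real.pi * ∫ t in E, ‖F t‖ ^ 2 := by
  obtain ⟨hi, he⟩ := MPl_key hF hE c
  obtain ⟨ho1, ho2⟩ := osc_tent_int 2 c two_pos
  set k : ℝ → ℝ := fun u => ‖osc (fun v => tent ((v - c) / 2)) u‖ with hk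
  have hkc : Continuous k := (MPl_osc_cont c).norm
  have h1 := MPl_sym hF hE k hkc (fun u => norm_nonneg _) ho1 _ ho2
  have h2 := MPl_sym hF hE (fun u => k (-u)) (by fun_prop) (fun u => norm_nonneg _) ho1.comp_neg
    (2 * Real.pi) (by
      rw [integral_neg_eq_self]
      exact ho2)
  have h3 : ∫ p : ℝ × ℝ, ‖F p.2‖ ^ 2 * k (p.2 - p.1) ∂((volume.restrict E).prod (volume.restrict E)) ≤
      2 * Real.pi * ∫ t in E, ‖F t‖ ^ 2 := by
    refine le_trans (le_of_eq ?_) h2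
    rw [← integral_prod_swap]
    refine integral_congr_ae (Filter.Eventually.of_forall fun p => ?_)
    simp
  have hc1 : Continuous (fun p : ℝ × ℝ => ‖F p.1‖ ^ 2 * k (p.2 - p.1)) := by fun_prop
  have hc2 : Continuous (fun p : ℝ × ℝ => ‖F p.2‖ ^ 2 * k (p.2 - p.1)) := by fun_prop
  have hc3 : Continuous (fun p : ℝ × ℝ => ‖F p.1‖ * ‖F p.2‖ * k (p.2 - p.1)) := by fun_prop
  have h4 : ∫ y : ℝ, tent ((y - c) / 2) * ‖MPl_G F E y‖ ^ 2 ≤
      ∫ p : ℝ × ℝ, ‖F p.1‖ * ‖F p.2‖ * k (p.2 - p.1) ∂((volume.restrict E).prod (volume.restrict E)) := by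
    refine (le_abs_self _).trans ?_
    rw [← Real.norm_eq_abs, ← Complex.norm_real, he]
    refine (norm_integral_le_integral_norm _).trans (le_of_eq ?_)
    refine integral_congr_ae (Filter.Eventually.of_forall fun p => ?_)
    simp only [norm_mul, hk, Complex.norm_conj]
  refine h4.trans ?_
  have h5 : ∫ p : ℝ × ℝ, ‖F p.1‖ * ‖F p.2‖ * k (p.2 - p.1) ∂((volume.restrict E).prod (volume.restrict E)) ≤
      ∫ p : ℝ × ℝ, (1 / 2 * (‖F p.1‖ ^ 2 * k (p.2 - p.1)) + 1 / 2 * (‖F p.2‖ ^ 2 * k (p.2 - p.1)))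
        ∂((volume.restrict E).prod (volume.restrict E)) := by
    refine integral_mono (MPl_prodint hE hc3)
      (((MPl_prodint hE hc1).const_mul _).add ((MPl_prodint hE hc2).const_mul _)) (fun p => ?_)
    have h6 : ‖F p.1‖ * ‖F p.2‖ ≤ 1 / 2 * ‖F p.1‖ ^ 2 + 1 / 2 * ‖F p.2‖ ^ 2 := by
      nlinarith [sq_nonneg (‖F p.1‖ - ‖F p.2‖)]
    have h7 : 0 ≤ k (p.2 - p.1) := norm_nonneg _
    have h8 := mul_le_mul_of_nonneg_right h6 h7
    change ‖F p.1‖ * ‖F p.2‖ * k (p.2 - p.1) ≤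
      1 / 2 * (‖F p.1‖ ^ 2 * k (p.2 - p.1)) + 1 / 2 * (‖F p.2‖ ^ 2 * k (p.2 - p.1))
    linarith
  refine h5.trans ?_
  rw [integral_add ((MPl_prodint hE hc1).const_mul _) ((MPl_prodint hE hc2).const_mul _),
    integral_const_mul, integral_const_mul]
  linarith

theorem MPl_pl2 {F : ℝ → ℂ} {E : Set ℝ} {T : ℝ} (hF : Continuous F)
    (hE : E ⊆ Set.Icc (-T) T) (y₀ : ℝ) :
    ∫ y in y₀..(y₀ + 2), ‖MPl_G F E y‖ ^ 2 ≤ 4 * Real.pi * ∫ t in E, ‖F t‖ ^ 2 := by
  have h1 := MPl_pl hF hE (y₀ + 1)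
  have hG := MPl_cont hF hE
  obtain ⟨hi, _⟩ := MPl_key hF hE (y₀ + 1)
  have ht0 : ∀ y : ℝ, 0 ≤ tent ((y - (y₀ + 1)) / 2) := fun y => by
    unfold tent
    exact le_max_left _ _
  have h2 : ∫ y in y₀..(y₀ + 2), ‖MPl_G F E y‖ ^ 2 ≤
      ∫ y in Set.Ioc y₀ (y₀ + 2), 2 * (tent ((y - (y₀ + 1)) / 2) * ‖MPl_G F E y‖ ^ 2) := by
    rw [intervalIntegral.integral_of_le (by linarith)]
    refine setIntegral_mono_on ?_ (hi.const_mul 2).integrableOn measurableSet_Ioc (fun y hy => ?_)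
    · have : IntegrableOn (fun y => ‖MPl_G F E y‖ ^ 2) (Set.Icc y₀ (y₀ + 2)) :=
        (hG.norm.pow 2).continuousOn.integrableOn_compact isCompact_Icc
      exact this.mono_set Set.Ioc_subset_Icc_self
    · have h3 : 1 / 2 ≤ tent ((y - (y₀ + 1)) / 2) := by
        unfold tent
        refine le_max_of_le_right ?_
        rw [abs_div, abs_two]
        have : |y - (y₀ + 1)| ≤ 1 := by
          rw [abs_le]
          exact ⟨by linarith [hy.1], by linarith [hy.2]⟩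
        linarith
      nlinarith [sq_nonneg ‖MPl_G F E y‖]
  have h3 : ∫ y in Set.Ioc y₀ (y₀ + 2), 2 * (tent ((y - (y₀ + 1)) / 2) * ‖MPl_G F E y‖ ^ 2) ≤
      ∫ y, 2 * (tent ((y - (y₀ + 1)) / 2) * ‖MPl_G F E y‖ ^ 2) := by
    refine setIntegral_le_integral (hi.const_mul 2) (Filter.Eventually.of_forall fun y => ?_)
    have := ht0 y
    change 0 ≤ 2 * (tent ((y - (y₀ + 1)) / 2) * ‖MPl_G F E y‖ ^ 2)
    positivity
  have h5 : ∫ y, 2 * (tent ((y - (y₀ + 1)) / 2) * ‖MPl_G F E y‖ ^ 2) =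
      2 * ∫ y, tent ((y - (y₀ + 1)) / 2) * ‖MPl_G F E y‖ ^ 2 := integral_const_mul _ _
  rw [h5] at h3
  linarith

theorem MPl_xit_meas (x : ℝ) : Measurable (fun p : ℝ × ℝ => xit (x + p.2) p.1) := by
  unfold xit
  have h1 : Measurable fun p : ℝ × ℝ => p.1 * Real.log (x + p.2) :=
    measurable_fst.mul (Real.measurable_log.comp (measurable_const.add measurable_snd))
  fun_prop

theorem MPl_swap {H : ℝ → ℂ} {E : Set ℝ} {T : ℝ} (hH : Continuous H) (hE : E ⊆ Set.Icc (-T) T) (w : ℝ → ℂ)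
    (hw : Continuous w) (a b x : ℝ) (hab : a ≤ b) :
    ∫ t in E, H t * ∫ θ in a..b, w θ * xit (x + θ) t =
      ∫ θ in a..b, w θ * MPl_G H E (Real.log (x + θ)) := by
  set K : ℝ → ℝ → ℂ := fun t θ => H t * (w θ * xit (x + θ) t) with hK
  have hwi : Integrable w (volume.restrict (Set.Ioc a b)) :=
    (hw.continuousOn.integrableOn_compact isCompact_Icc).mono_set Set.Ioc_subset_Icc_self
  have hbase := (MPl_int hH hE).mul_prod hwi
  have hKi : Integrable (Function.uncurry K) ((volume.restrict E).prod (volume.restrict (Set.Ioc a b))) := by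
    refine hbase.mono ?_ ?_
    · have h1 : Measurable fun p : ℝ × ℝ => H p.1 := hH.measurable.comp measurable_fst
      have h2 : Measurable fun p : ℝ × ℝ => w p.2 := hw.measurable.comp measurable_snd
      exact (h1.mul (h2.mul (MPl_xit_meas x))).aestronglyMeasurable
    · refine Filter.Eventually.of_forall fun z => le_of_eq ?_
      simp only [Function.uncurry, hK, xit, norm_mul, Complex.norm_exp_ofReal_mul_I, mul_one]
  have h1 := integral_integral_swap hKi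
  rw [intervalIntegral.integral_of_le hab]
  have h2 : ∀ t, H t * ∫ θ in a..b, w θ * xit (x + θ) t = ∫ θ in Set.Ioc a b, K t θ := by
    intro t
    rw [intervalIntegral.integral_of_le hab, ← integral_const_mul]
  have h3 : ∀ θ, w θ * MPl_G H E (Real.log (x + θ)) = ∫ t in E, K t θ := by
    intro θ
    unfold MPl_G
    rw [← integral_const_mul]
    refine integral_congr_ae (Filter.Eventually.of_forall fun t => ?_)
    simp only [hK, xit]
    ring
  simp only [h2, h3]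
  exact h1

theorem MPl_cs {g : ℝ → ℝ} {a b : ℝ} (hab : a < b) (hg : ContinuousOn g (Set.uIcc a b)) :
    (∫ θ in a..b, g θ) ^ 2 ≤ (b - a) * ∫ θ in a..b, g θ ^ 2 := by
  have hi : IntervalIntegrable g volume a b := hg.intervalIntegrable
  have hi2 : IntervalIntegrable (fun θ => g θ ^ 2) volume a b := (hg.pow 2).intervalIntegrable
  have h0 : 0 < b - a := sub_pos.mpr hab
  obtain ⟨m, hm⟩ : ∃ m : ℝ, m = (∫ θ in a..b, g θ) / (b - a) := ⟨_, rfl⟩
  have hm' : ∫ θ in a..b, g θ = m * (b - a) := by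
    rw [hm]
    field_simp
  have h1 : 0 ≤ ∫ θ in a..b, (g θ - m) ^ 2 :=
    intervalIntegral.integral_nonneg hab.le fun θ _ => sq_nonneg _
  have h2 : ∫ θ in a..b, (g θ - m) ^ 2 = (∫ θ in a..b, g θ ^ 2) - 2 * m * (∫ θ in a..b, g θ) + m ^ 2 * (b - a) := by
    have e1 : ∀ θ, (g θ - m) ^ 2 = g θ ^ 2 - 2 * m * g θ + m ^ 2 := fun θ => by ring
    simp_rw [e1]
    rw [intervalIntegral.integral_add (hi2.sub (hi.const_mul _)) intervalIntegrable_const,
      intervalIntegral.integral_sub hi2 (hi.const_mul _), intervalIntegral.integral_const_mul,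
      intervalIntegral.integral_const, smul_eq_mul]
    ring
  rw [h2, hm'] at h1
  rw [hm']
  nlinarith

theorem MPl_sq {H : ℝ → ℂ} {E : Set ℝ} {T : ℝ} (hH : Continuous H) (hE : E ⊆ Set.Icc (-T) T) (w : ℝ → ℂ)
    (hw : Continuous w) (a b x W : ℝ) (hab : a < b) (hx : 0 < x + a) (hW : ∀ θ ∈ Set.Icc a b, ‖w θ‖ ≤ W) :
    ‖∫ t in E, H t * ∫ θ in a..b, w θ * xit (x + θ) t‖ ^ 2 ≤
      W ^ 2 * (b - a) * ∫ u in (x + a)..(x + b), ‖MPl_G H E (Real.log u)‖ ^ 2 := by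
  rw [MPl_swap hH hE w hw a b x hab.le]
  have hG := MPl_cont hH hE
  have hW0 : 0 ≤ W := (norm_nonneg _).trans (hW a (Set.left_mem_Icc.mpr hab.le))
  have hlog : ContinuousOn (fun θ => Real.log (x + θ)) (Set.uIcc a b) := by
    refine ContinuousOn.log (by fun_prop) fun θ hθ => ?_
    rw [Set.uIcc_of_le hab.le] at hθ
    have := hθ.1
    have : 0 < x + θ := by linarith
    exact this.ne'
  have hgc : ContinuousOn (fun θ => ‖MPl_G H E (Real.log (x + θ))‖) (Set.uIcc a b) :=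
    hG.norm.comp_continuousOn hlog
  have h1 : ‖∫ θ in a..b, w θ * MPl_G H E (Real.log (x + θ))‖ ≤
      W * ∫ θ in a..b, ‖MPl_G H E (Real.log (x + θ))‖ := by
    refine (intervalIntegral.norm_integral_le_integral_norm hab.le).trans ?_
    rw [← intervalIntegral.integral_const_mul]
    refine intervalIntegral.integral_mono_on hab.le ?_ (hgc.intervalIntegrable.const_mul W) fun θ hθ => ?_
    · exact ((hw.continuousOn.mul (hG.comp_continuousOn hlog)).norm).intervalIntegrable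
    · rw [norm_mul]
      exact mul_le_mul_of_nonneg_right (hW θ hθ) (norm_nonneg _)
  have h2 := MPl_cs hab hgc
  have h3 : ∫ u in (x + a)..(x + b), ‖MPl_G H E (Real.log u)‖ ^ 2 =
      ∫ θ in a..b, ‖MPl_G H E (Real.log (x + θ))‖ ^ 2 :=
    (intervalIntegral.integral_comp_add_left (fun u => ‖MPl_G H E (Real.log u)‖ ^ 2) x).symm
  rw [h3]
  calc ‖∫ θ in a..b, w θ * MPl_G H E (Real.log (x + θ))‖ ^ 2
      ≤ (W * ∫ θ in a..b, ‖MPl_G H E (Real.log (x + θ))‖) ^ 2 := pow_le_pow_left₀ (norm_nonneg _) h1 2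
    _ = W ^ 2 * (∫ θ in a..b, ‖MPl_G H E (Real.log (x + θ))‖) ^ 2 := by ring
    _ ≤ W ^ 2 * ((b - a) * ∫ θ in a..b, ‖MPl_G H E (Real.log (x + θ))‖ ^ 2) :=
        mul_le_mul_of_nonneg_left h2 (sq_nonneg _)
    _ = _ := by ring

theorem MPl_hi {H : ℝ → ℂ} {E : Set ℝ} {T : ℝ} (hH : Continuous H) (hE : E ⊆ Set.Icc (-T) T) {a b : ℝ}
    (ha : 0 < a) (hb : 0 < b) : IntervalIntegrable (fun u => ‖MPl_G H E (Real.log u)‖ ^ 2) volume a b := by
  have hG := MPl_cont hH hE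
  refine ContinuousOn.intervalIntegrable ?_
  refine ((hG.norm.pow 2).comp_continuousOn (ContinuousOn.log continuousOn_id fun u hu => ?_))
  have h1 : min a b ≤ u := hu.1
  have h2 : 0 < min a b := lt_min ha hb
  exact (lt_of_lt_of_le h2 h1).ne'

theorem MPl_main {H : ℝ → ℂ} {E : Set ℝ} {T : ℝ} (hH : Continuous H) (hE : E ⊆ Set.Icc (-T) T) (X₀ : ℕ)
    (hX : 8 ≤ X₀) : ∫ u in ((X₀ : ℝ) - 1)..(4 * X₀ + 1), ‖MPl_G H E (Real.log u)‖ ^ 2 ≤
      5 * X₀ * (4 * Real.pi * ∫ t in E, ‖H t‖ ^ 2) := by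
  have hX' : (8 : ℝ) ≤ X₀ := by exact_mod_cast hX
  have hG := MPl_cont hH hE
  obtain ⟨p, hp⟩ : ∃ p : ℝ, p = Real.log ((X₀ : ℝ) - 1) := ⟨_, rfl⟩
  obtain ⟨q, hq⟩ : ∃ q : ℝ, q = Real.log (4 * X₀ + 1) := ⟨_, rfl⟩
  have hep : Real.exp p = (X₀ : ℝ) - 1 := by rw [hp, Real.exp_log (by linarith)]
  have heq : Real.exp q = 4 * X₀ + 1 := by rw [hq, Real.exp_log (by linarith)]
  have hpq : p ≤ q := by
    rw [hp, hq]
    exact Real.log_le_log (by linarith) (by linarith)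
  have hq2 : q ≤ p + 2 := by
    rw [← Real.exp_le_exp, Real.exp_add, hep, heq]
    have h1 : (7 : ℝ) ≤ Real.exp 2 := by
      have h2 : Real.exp 2 = Real.exp 1 * Real.exp 1 := by
        rw [← Real.exp_add]
        norm_num
      rw [h2]
      nlinarith [Real.exp_one_gt_d9]
    nlinarith
  have h1 : ∫ y in p..q, ‖MPl_G H E (Real.log (Real.exp y))‖ ^ 2 * Real.exp y =
      ∫ u in Real.exp p..Real.exp q, ‖MPl_G H E (Real.log u)‖ ^ 2 := by
    refine intervalIntegral.integral_comp_mul_deriv'' (f := Real.exp) (f' := Real.exp)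
      (g := fun u => ‖MPl_G H E (Real.log u)‖ ^ 2) Real.continuous_exp.continuousOn
      (fun y _ => (Real.hasDerivAt_exp y).hasDerivWithinAt) Real.continuous_exp.continuousOn ?_
    refine ((hG.norm.pow 2).comp_continuousOn (ContinuousOn.log continuousOn_id fun u hu => ?_))
    obtain ⟨y, _, rfl⟩ := hu
    exact (Real.exp_pos y).ne'
  rw [hep, heq] at h1
  rw [← h1]
  simp_rw [Real.log_exp]
  have hci : ∀ a b : ℝ, IntervalIntegrable (fun y => ‖MPl_G H E y‖ ^ 2) volume a b := fun a b =>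
    (hG.norm.pow 2).intervalIntegrable a b
  have h2 : ∫ y in p..q, ‖MPl_G H E y‖ ^ 2 * Real.exp y ≤ ∫ y in p..q, ‖MPl_G H E y‖ ^ 2 * (5 * X₀) := by
    refine intervalIntegral.integral_mono_on hpq
      (((hG.norm.pow 2).mul Real.continuous_exp).intervalIntegrable _ _) ((hci p q).mul_const _) fun y hy => ?_
    refine mul_le_mul_of_nonneg_left ?_ (sq_nonneg _)
    calc Real.exp y ≤ Real.exp q := Real.exp_le_exp.mpr hy.2
      _ = 4 * X₀ + 1 := heq
      _ ≤ 5 * X₀ := by linarith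
  refine h2.trans ?_
  rw [intervalIntegral.integral_mul_const, mul_comm]
  have h3 : ∫ y in p..q, ‖MPl_G H E y‖ ^ 2 ≤ ∫ y in p..(p + 2), ‖MPl_G H E y‖ ^ 2 := by
    rw [← intervalIntegral.integral_add_adjacent_intervals (hci p q) (hci q (p + 2))]
    have : 0 ≤ ∫ y in q..(p + 2), ‖MPl_G H E y‖ ^ 2 :=
      intervalIntegral.integral_nonneg hq2 fun y _ => sq_nonneg _
    linarith
  have h4 := MPl_pl2 hH hE p
  have h5 : (0 : ℝ) ≤ 5 * X₀ := by linarith
  exact mul_le_mul_of_nonneg_left (h3.trans h4) h5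

theorem MPl_mono {H : ℝ → ℂ} {E : Set ℝ} {T : ℝ} (hH : Continuous H) (hE : E ⊆ Set.Icc (-T) T) {a b c d : ℝ}
    (h1 : 0 < a) (h2 : a ≤ b) (h3 : b ≤ c) (h4 : c ≤ d) :
    ∫ u in b..c, ‖MPl_G H E (Real.log u)‖ ^ 2 ≤ ∫ u in a..d, ‖MPl_G H E (Real.log u)‖ ^ 2 := by
  have i1 := MPl_hi hH hE h1 (h1.trans_le h2)
  have i2 := MPl_hi hH hE (h1.trans_le h2) ((h1.trans_le h2).trans_le h3)
  have i3 := MPl_hi hH hE ((h1.trans_le h2).trans_le h3) (((h1.trans_le h2).trans_le h3).trans_le h4)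
  rw [← intervalIntegral.integral_add_adjacent_intervals (i1.trans i2) i3,
    ← intervalIntegral.integral_add_adjacent_intervals i1 i2]
  have h5 : 0 ≤ ∫ u in a..b, ‖MPl_G H E (Real.log u)‖ ^ 2 :=
    intervalIntegral.integral_nonneg h2 fun y _ => sq_nonneg _
  have h6 : 0 ≤ ∫ u in c..d, ‖MPl_G H E (Real.log u)‖ ^ 2 :=
    intervalIntegral.integral_nonneg h4 fun y _ => sq_nonneg _
  linarith

theorem MPl_tot {H : ℝ → ℂ} {E : Set ℝ} {T : ℝ} (hH : Continuous H) (hE : E ⊆ Set.Icc (-T) T) (X₀ : ℕ)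
    (hX : 8 ≤ X₀) : ∑ x ∈ Icc X₀ (4 * X₀), ∫ u in ((x : ℝ) - 1)..(x + 1), ‖MPl_G H E (Real.log u)‖ ^ 2 ≤
      2 * (5 * X₀ * (4 * Real.pi * ∫ t in E, ‖H t‖ ^ 2)) := by
  have hX' : (8 : ℝ) ≤ X₀ := by exact_mod_cast hX
  have hmain := MPl_main hH hE X₀ hX
  have e0 : Icc X₀ (4 * X₀) = Ico X₀ (4 * X₀ + 1) := by
    ext x
    simp only [Finset.mem_Icc, Finset.mem_Ico]
    omega
  rw [e0]
  have h1 : ∀ x ∈ Ico X₀ (4 * X₀ + 1), ∫ u in ((x : ℝ) - 1)..(x + 1), ‖MPl_G H E (Real.log u)‖ ^ 2 =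
      (∫ u in ((x : ℝ) - 1)..(((x + 1 : ℕ) : ℝ) - 1), ‖MPl_G H E (Real.log u)‖ ^ 2) +
      ∫ u in (x : ℝ)..((x + 1 : ℕ) : ℝ), ‖MPl_G H E (Real.log u)‖ ^ 2 := by
    intro x hx
    have hx' : (X₀ : ℝ) ≤ x := by exact_mod_cast (Finset.mem_Ico.mp hx).1
    have e1 : (((x + 1 : ℕ) : ℝ) - 1) = x := by
      push_cast
      ring
    rw [e1]
    push_cast
    rw [intervalIntegral.integral_add_adjacent_intervals (MPl_hi hH hE (by linarith) (by linarith))
      (MPl_hi hH hE (by linarith) (by linarith))]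
  rw [Finset.sum_congr rfl h1, Finset.sum_add_distrib]
  have h2 := intervalIntegral.sum_integral_adjacent_intervals_Ico (μ := volume)
    (f := fun u => ‖MPl_G H E (Real.log u)‖ ^ 2) (a := fun k : ℕ => (k : ℝ) - 1) (m := X₀) (n := 4 * X₀ + 1)
    (by omega) (fun k hk => by
      have hk' : (X₀ : ℝ) ≤ k := by exact_mod_cast hk.1
      refine MPl_hi hH hE (by linarith) ?_
      push_cast
      linarith)
  have h3 := intervalIntegral.sum_integral_adjacent_intervals_Ico (μ := volume)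
    (f := fun u => ‖MPl_G H E (Real.log u)‖ ^ 2) (a := fun k : ℕ => (k : ℝ)) (m := X₀) (n := 4 * X₀ + 1)
    (by omega) (fun k hk => by
      have hk' : (X₀ : ℝ) ≤ k := by exact_mod_cast hk.1
      refine MPl_hi hH hE (by linarith) ?_
      push_cast
      linarith)
  rw [h2, h3]
  push_cast
  have h4 := MPl_mono hH hE (a := (X₀ : ℝ) - 1) (b := (X₀ : ℝ) - 1) (c := 4 * X₀ + 1 - 1) (d := 4 * X₀ + 1)
    (by linarith) le_rfl (by linarith) (by linarith)
  have h5 := MPl_mono hH hE (a := (X₀ : ℝ) - 1) (b := (X₀ : ℝ)) (c := 4 * X₀ + 1) (d := 4 * X₀ + 1)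
    (by linarith) (by linarith) (by linarith) le_rfl
  linarith

/-- **A local Plancherel inequality.**

Proof. On `[y₀, y₀ + 2]` one has `1 ≤ φ y`, `φ y = 2 tent ((y - y₀ - 1) / 2)`. Expand the square and use Fubini (`E` is bounded, `F` is
bounded on `[-T, T]`): `∫ φ y |∫_E F e ^ (i t y) dt| ^ 2 dy = ∫_E ∫_E F t conj (F s) Φ (t - s) ds dt` with
`Φ u = ∫ φ y e ^ (i u y) dy`, `∫ |Φ| ≤ 4 π` (`osc_tent_int`). With `2 |F t| |F s| ≤ |F t| ^ 2 + |F s| ^ 2` it is at most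
`4 π ∫_E |F| ^ 2`. -/
theorem pl_int : ∃ C : ℝ, 1 ≤ C ∧ ∀ (F : ℝ → ℂ) (E : Set ℝ) (T y₀ : ℝ), Continuous F → MeasurableSet E →
    E ⊆ Set.Icc (-T) T →
      ∫ y in y₀..(y₀ + 2), ‖∫ t in E, F t * Complex.exp ((t * y : ℝ) * I)‖ ^ 2 ≤ C * ∫ t in E, ‖F t‖ ^ 2 := by
  refine ⟨4 * Real.pi, by linarith [Real.pi_gt_three], fun F E T y₀ hF hEm hE => ?_⟩
  exact MPl_pl2 hF hE y₀

/-- **Mean squares over integers.**

Proof. Let `G y = ∫_E F t exp (i t y) dt`. By Fubini `∫_E F t Lt x t dt = ∫_{-1}^1 (1 - |θ|) G (log (x + θ)) dθ`, so its square is at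
most `∫_{-1}^1 (1 - |θ|) |G (log (x + θ))| ^ 2 dθ` (Cauchy). The sum over `x` is at most `∫_{X₀ - 1}^{4 X₀ + 1} |G (log u)| ^ 2 du`
(`∑_x tent (u - x) ≤ 1`), with `u = exp y` at most `(4 X₀ + 1) ∫_{log (X₀ - 1)}^{log (X₀ - 1) + 2} |G y| ^ 2 dy`
(`(4 X₀ + 1) / (X₀ - 1) ≤ 33 / 7 ≤ e ^ 2`). -/
theorem pl_sum : ∃ C : ℝ, 1 ≤ C ∧ ∀ (F : ℝ → ℂ) (E : Set ℝ) (T : ℝ) (X₀ : ℕ), Continuous F → MeasurableSet E →
    E ⊆ Set.Icc (-T) T → 8 ≤ X₀ →
      ∑ x ∈ Icc X₀ (4 * X₀), ‖∫ t in E, F t * Lt x t‖ ^ 2 ≤ C * X₀ * ∫ t in E, ‖F t‖ ^ 2 := by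
  refine ⟨80 * Real.pi, by linarith [Real.pi_gt_three], fun F E T X₀ hF hEm hE hX => ?_⟩
  have hX' : (8 : ℝ) ≤ X₀ := by exact_mod_cast hX
  have h1 : ∀ x ∈ Icc X₀ (4 * X₀), ‖∫ t in E, F t * Lt x t‖ ^ 2 ≤
      2 * ∫ u in ((x : ℝ) - 1)..(x + 1), ‖MPl_G F E (Real.log u)‖ ^ 2 := by
    intro x hx
    have hx' : (X₀ : ℝ) ≤ x := by exact_mod_cast (Finset.mem_Icc.mp hx).1
    have h := MPl_sq hF hE (fun θ => ((1 - |θ| : ℝ) : ℂ)) (by fun_prop) (-1) 1 x 1 (by norm_num) (by linarith)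
      (fun θ hθ => by
        rw [Complex.norm_real, Real.norm_eq_abs]
        have h2 : |θ| ≤ 1 := abs_le.mpr hθ
        rw [abs_of_nonneg (by linarith)]
        linarith [abs_nonneg θ])
    have e1 : (x : ℝ) - 1 = x + -1 := by ring
    rw [e1]
    refine h.trans (le_of_eq ?_)
    norm_num
  refine (Finset.sum_le_sum h1).trans ?_
  rw [← Finset.mul_sum]
  have h2 := MPl_tot hF hE X₀ hX
  linarith

/-- The same for the second kernel. (`∫_E F t Mt x t dt = ∫_{-1}^0 (x + θ) G₁ (log (x + θ)) dθ` with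
`G₁ y = ∫_E F t / (1 + i t) exp (i t y) dt`.) -/
theorem pl_mul : ∃ C : ℝ, 1 ≤ C ∧ ∀ (F : ℝ → ℂ) (E : Set ℝ) (T : ℝ) (X₀ : ℕ), Continuous F → MeasurableSet E →
    E ⊆ Set.Icc (-T) T → 8 ≤ X₀ →
      ∑ x ∈ Icc X₀ (4 * X₀), ‖∫ t in E, F t * Mt x t‖ ^ 2 ≤
        C * X₀ ^ 3 * ∫ t in E, ‖F t‖ ^ 2 / (1 + t ^ 2) := by
  refine ⟨1280 * Real.pi, by linarith [Real.pi_gt_three], fun F E T X₀ hF hEm hE hX => ?_⟩
  have hX' : (8 : ℝ) ≤ X₀ := by exact_mod_cast hX
  have hne : ∀ t : ℝ, (1 + t * I : ℂ) ≠ 0 := by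
    intro t h
    have := congrArg Complex.re h
    simp at this
  have hH : Continuous fun t : ℝ => F t / (1 + t * I) := hF.div (by fun_prop) hne
  have hn : ∀ t : ℝ, ‖F t / (1 + t * I)‖ ^ 2 = ‖F t‖ ^ 2 / (1 + t ^ 2) := by
    intro t
    rw [norm_div, div_pow]
    congr 1
    rw [← Complex.normSq_eq_norm_sq, Complex.normSq_apply]
    simp
    ring
  have h1 : ∀ x ∈ Icc X₀ (4 * X₀), ‖∫ t in E, F t * Mt x t‖ ^ 2 ≤
      16 * X₀ ^ 2 * ∫ u in ((x : ℝ) - 1)..(x + 1), ‖MPl_G (fun t : ℝ => F t / (1 + t * I)) E (Real.log u)‖ ^ 2 := by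
    intro x hx
    have hx' : (X₀ : ℝ) ≤ x := by exact_mod_cast (Finset.mem_Icc.mp hx).1
    have hx2 : (x : ℝ) ≤ 4 * X₀ := by exact_mod_cast (Finset.mem_Icc.mp hx).2
    have h := MPl_sq hH hE (fun θ => ((x + θ : ℝ) : ℂ)) (by fun_prop) (-1) 0 x (4 * X₀) (by norm_num) (by linarith)
      (fun θ hθ => by
        rw [Complex.norm_real, Real.norm_eq_abs, abs_of_nonneg (by linarith [hθ.1])]
        linarith [hθ.2])
    have e1 : ∀ t : ℝ, F t * Mt x t = F t / (1 + t * I) * ∫ θ in (-1 : ℝ)..0, ((x + θ : ℝ) : ℂ) * xit (x + θ) t := by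
      intro t
      unfold Mt
      rw [intervalIntegral.integral_div]
      ring
    simp_rw [e1]
    refine h.trans ?_
    have h3 := MPl_mono hH hE (a := (x : ℝ) - 1) (b := (x : ℝ) + -1) (c := (x : ℝ) + 0) (d := (x : ℝ) + 1)
      (by linarith) (by linarith) (by linarith) (by linarith)
    calc _ = 16 * X₀ ^ 2 * ∫ u in ((x : ℝ) + -1)..(x + 0),
          ‖MPl_G (fun t : ℝ => F t / (1 + t * I)) E (Real.log u)‖ ^ 2 := by ring
      _ ≤ _ := by gcongr
  refine (Finset.sum_le_sum h1).trans ?_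
  rw [← Finset.mul_sum]
  have h2 := MPl_tot hH hE X₀ hX
  simp_rw [hn] at h2
  calc _ ≤ 16 * (X₀ : ℝ) ^ 2 * (2 * (5 * X₀ * (4 * Real.pi * ∫ t in E, ‖F t‖ ^ 2 / (1 + t ^ 2)))) := by gcongr
    _ ≤ 1280 * Real.pi * X₀ ^ 3 * ∫ t in E, ‖F t‖ ^ 2 / (1 + t ^ 2) := by
        have h0 : 0 ≤ ∫ t in E, ‖F t‖ ^ 2 / (1 + t ^ 2) :=
          integral_nonneg fun t => by positivity
        have h4 : 0 ≤ Real.pi * (X₀ : ℝ) ^ 3 * ∫ t in E, ‖F t‖ ^ 2 / (1 + t ^ 2) := by positivity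
        linarith

end Pool.Agent.M58
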