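import Pool.Agent.W_b58c63_m1.BGo
import Pool.Agent.W_b58c63_m1.MPl

/-!
# Short sums of `fX χ` (helper68)
-/

set_option autoImplicit false

noncomputable section

open Finset MeasureTheory Complex

namespace Pool.Agent.M58

theorem BDe_conv (h : ℕ → ℝ) (a : ℕ → ℂ) (S L U M : ℕ) (hSL : S ≤ L) (hUM : U ≤ M) :
    ∑ x ∈ Icc L U, ‖∑ s ∈ range (S + 1), (h s : ℂ) * a (x - s)‖ ^ 2 ≤
      (∑ s ∈ range (S + 1), |h s|) ^ 2 * ∑ n ∈ Icc (L - S) M, ‖a n‖ ^ 2 := by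
  have h1 : ∀ x, ‖∑ s ∈ range (S + 1), (h s : ℂ) * a (x - s)‖ ^ 2 ≤
      (∑ s ∈ range (S + 1), |h s|) * ∑ s ∈ range (S + 1), |h s| * ‖a (x - s)‖ ^ 2 := by
    intro x
    have h2 : ‖∑ s ∈ range (S + 1), (h s : ℂ) * a (x - s)‖ ≤ ∑ s ∈ range (S + 1), |h s| * ‖a (x - s)‖ := by
      refine (norm_sum_le _ _).trans (le_of_eq (Finset.sum_congr rfl fun s _ => ?_))
      rw [norm_mul, Complex.norm_real, Real.norm_eq_abs]
    refine (pow_le_pow_left₀ (norm_nonneg _) h2 2).trans ?_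
    apply Finset.sum_sq_le_sum_mul_sum_of_sq_le_mul
    · intro s _; exact abs_nonneg _
    · intro s _; positivity
    · intro s _; exact le_of_eq (by ring)
  refine (Finset.sum_le_sum fun x _ => h1 x).trans ?_
  rw [← Finset.mul_sum, Finset.sum_comm, pow_two, mul_assoc]
  apply mul_le_mul_of_nonneg_left _ (Finset.sum_nonneg fun s _ => abs_nonneg _)
  rw [Finset.sum_mul]
  apply Finset.sum_le_sum
  intro s hs
  rw [Finset.mem_range] at hs
  rw [← Finset.mul_sum]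
  apply mul_le_mul_of_nonneg_left _ (abs_nonneg _)
  have hinj : Set.InjOn (fun x => x - s) (Icc L U : Finset ℕ) := by
    intro x hx y hy hxy
    rw [Finset.mem_coe, Finset.mem_Icc] at hx hy
    simp only at hxy
    omega
  have h3 : ∑ x ∈ Icc L U, ‖a (x - s)‖ ^ 2 = ∑ n ∈ (Icc L U).image (fun x => x - s), ‖a n‖ ^ 2 := by
    rw [Finset.sum_image hinj]
  rw [h3]
  apply Finset.sum_le_sum_of_subset_of_nonneg
  · intro n hn
    rw [Finset.mem_image] at hn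
    obtain ⟨x, hx, rfl⟩ := hn
    rw [Finset.mem_Icc] at hx ⊢
    omega
  · intro n _ _; positivity

theorem BDe_parts (g : ℕ → ℝ) (b : ℕ → ℂ) (S x : ℕ) (hS : g (S + 1) = 0) (hx : S ≤ x) :
    ∑ s ∈ range (S + 1), (g s : ℂ) * (b (x - s + 1) - b (x - s)) =
      ∑ s ∈ range (S + 2), (((fun s : ℕ => if s = 0 then g 0 else g s - g (s - 1)) s : ℝ) : ℂ) * b (x + 1 - s) := by
  rw [Finset.sum_range_succ' _ (S + 1)]
  simp only [Nat.add_eq_zero_iff, one_ne_zero, and_false, ite_false, ite_true, Nat.add_sub_cancel, Nat.sub_zero]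
  have h1 : ∑ s ∈ range (S + 1), ((g (s + 1) - g s : ℝ) : ℂ) * b (x + 1 - (s + 1)) =
      ∑ s ∈ range (S + 1), (g (s + 1) : ℂ) * b (x - s) - ∑ s ∈ range (S + 1), (g s : ℂ) * b (x - s) := by
    rw [← Finset.sum_sub_distrib]
    apply Finset.sum_congr rfl
    intro s _
    rw [Nat.add_sub_add_right]
    push_cast
    ring
  rw [h1, Finset.sum_range_succ (fun s => (g (s + 1) : ℂ) * b (x - s)), hS]
  have h2 : ∑ s ∈ range (S + 1), (g s : ℂ) * (b (x - s + 1) - b (x - s)) =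
      ∑ s ∈ range (S + 1), (g s : ℂ) * b (x - s + 1) - ∑ s ∈ range (S + 1), (g s : ℂ) * b (x - s) := by
    rw [← Finset.sum_sub_distrib]
    apply Finset.sum_congr rfl
    intro s _
    ring
  rw [h2, Finset.sum_range_succ' (fun s => (g s : ℂ) * b (x - s + 1))]
  have h3 : ∑ s ∈ range S, (g (s + 1) : ℂ) * b (x - (s + 1) + 1) = ∑ s ∈ range S, (g (s + 1) : ℂ) * b (x - s) := by
    apply Finset.sum_congr rfl
    intro s hs
    rw [Finset.mem_range] at hs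
    congr 2
    omega
  rw [h3, Nat.sub_zero, Complex.ofReal_zero]
  ring

theorem BDe_tail (T : ℝ) (hT : 0 < T) : ∫ t in {t : ℝ | T < |t|}, (1 + t ^ 2)⁻¹ ≤ 2 / T := by
  have hsub : {t : ℝ | T < |t|} ⊆ Set.Iic (-T) ∪ Set.Ioi T := by
    intro t ht
    have ht := lt_abs.1 (show T < |t| from ht)
    rcases ht with h | h
    · right; exact h
    · left; rw [Set.mem_Iic]; linarith
  have hint := integrable_inv_one_add_sq
  have h1 : ∫ t in {t : ℝ | T < |t|}, (1 + t ^ 2)⁻¹ ≤ ∫ t in Set.Iic (-T) ∪ Set.Ioi T, (1 + t ^ 2)⁻¹ := by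
    apply setIntegral_mono_set hint.integrableOn
    · exact Filter.Eventually.of_forall fun t => by positivity
    · exact Filter.Eventually.of_forall hsub
  refine h1.trans ?_
  rw [setIntegral_union _ measurableSet_Ioi hint.integrableOn hint.integrableOn,
    integral_Iic_inv_one_add_sq, integral_Ioi_inv_one_add_sq, Real.arctan_neg]
  · have h2 := Real.arctan_inv_of_pos hT
    have h3 : Real.arctan T⁻¹ ≤ T⁻¹ := by
      have h4 : 0 < T⁻¹ := by positivity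
      have h5 : T⁻¹ ≤ Real.tan (T⁻¹) ∨ True := Or.inr trivial
      have h6 := Real.arctan_inv_of_pos hT
      by_contra hc
      push Not at hc
      have h7 : Real.arctan T⁻¹ < Real.tan (Real.arctan T⁻¹) := by
        apply Real.lt_tan
        · exact lt_trans h4 hc
        · exact Real.arctan_lt_pi_div_two _
      rw [Real.tan_arctan] at h7
      linarith
    rw [show 2 / T = T⁻¹ + T⁻¹ by field_simp; norm_num]
    linarith
  · rw [Set.disjoint_left]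
    intro t h2 h3
    rw [Set.mem_Iic] at h2
    rw [Set.mem_Ioi] at h3
    linarith

/-- The general bound of the three parts. -/
theorem BDe_sq (a b c : ℂ) : ‖(1 / (2 * Real.pi) : ℂ) * (a + b + c)‖ ^ 2 ≤ ‖a‖ ^ 2 + ‖b‖ ^ 2 + ‖c‖ ^ 2 := by
  have h1 : ‖(1 / (2 * Real.pi) : ℂ)‖ = 1 / (2 * Real.pi) := by
    rw [show (1 / (2 * Real.pi) : ℂ) = ((1 / (2 * Real.pi) : ℝ) : ℂ) by push_cast; ring, Complex.norm_real,
      Real.norm_eq_abs, abs_of_pos (by positivity)]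
  rw [norm_mul, h1, mul_pow]
  have h2 : (1 / (2 * Real.pi)) ^ 2 ≤ 1 / 3 := by
    rw [div_pow, one_pow]
    apply one_div_le_one_div_of_le (by norm_num)
    have := Real.pi_gt_three
    nlinarith
  have h3 : ‖a + b + c‖ ^ 2 ≤ 3 * (‖a‖ ^ 2 + ‖b‖ ^ 2 + ‖c‖ ^ 2) := by
    have h4 := norm_add₃_le (a := a) (b := b) (c := c)
    have h5 := pow_le_pow_left₀ (norm_nonneg _) h4 2
    nlinarith [sq_nonneg (‖a‖ - ‖b‖), sq_nonneg (‖b‖ - ‖c‖), sq_nonneg (‖a‖ - ‖c‖)]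
  calc (1 / (2 * Real.pi)) ^ 2 * ‖a + b + c‖ ^ 2 ≤ 1 / 3 * (3 * (‖a‖ ^ 2 + ‖b‖ ^ 2 + ‖c‖ ^ 2)) := by
        apply mul_le_mul h2 h3 (by positivity) (by norm_num)
    _ = _ := by ring

/-- **Reduction to the bad set.**

Proof. By `DP_inv` `fX (n) χ (n) = (1 / 2 π) ∫ FF t Lt n t dt` for `n = x - s`. Cut the line into the bad set, the good set
(`|t| ≤ Y ^ (1 + c)`, not bad), the far set `Y ^ (1 + c) < |t| ≤ Y ^ 10`, and `|t| > Y ^ 10`. Good set: by Cauchy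
`|∑_s g s a (x - s)| ^ 2 ≤ G0 ∑_s |g s| |a (x - s)| ^ 2`, so the sum over `x` is at most `G0 ^ 2 ∑_{x'} |a (x')| ^ 2`, `x' ∈ [X₀, 4 X₀]` with
`X₀ = ⌈Y ^ 2 / 2⌉ - S`, and by `pl_sum` and `good_l2` this is `≤ G0 ^ 2 C Y ^ (2 - c)`. Far set:
`∑_s g s Lt (x - s) = ∑_s g s (Mt (x - s + 1) - Mt (x - s)) = g 0 Mt (x + 1) + ∑_s (g (s + 1) - g s) Mt (x - s)`, and in the same way with
`pl_mul` and `far_l2` the sum over `x` is `≤ G1 ^ 2 C Y ^ 6 Y ^ (- 2 - c)`. For `|t| > Y ^ 10` use `|FF| ≤ C` (`QX_le`) and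
`|Lt x t| ≤ 16 x ^ 2 / (1 + t ^ 2)`. -/
theorem dec1 (μ j₀ : ℕ) (hμ : 8 ≤ μ) (hj : 2 ≤ j₀) (hj' : j₀ ≤ μ) (c : ℝ) (hc : 0 < c) (hc1 : c ≤ 1 / 100) :
    ∃ Y₀ : ℝ, 3 ≤ Y₀ ∧ ∀ (Y : ℝ) (i : CC) (g : ℕ → ℝ) (S : ℕ) (G0 G1 : ℝ), Y₀ ≤ Y → (S : ℝ) ≤ 4 * Y →
      (∀ s, S < s → g s = 0) → ∑ s ∈ range (S + 1), |g s| ≤ G0 →
      |g 0| + ∑ s ∈ range (S + 1), |g (s + 1) - g s| ≤ G1 →
        ∑ x ∈ Icc ⌈Y ^ 2 / 2⌉₊ ⌊3 * Y ^ 2 / 2⌋₊,
          ‖∑ s ∈ range (S + 1), ((g s * fX Y μ j₀ (x - s) : ℝ) : ℂ) * i.2 ((x - s : ℕ) : ZMod i.1) -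
            (1 / (2 * Real.pi) : ℂ) * ∫ t in Bad Y μ j₀ c i,
              FF Y μ j₀ i t * ∑ s ∈ range (S + 1), (g s : ℂ) * Lt ((x - s : ℕ) : ℝ) t‖ ^ 2 ≤
          (G0 ^ 2 + G1 ^ 2 * Y ^ 2) * Y ^ (2 - c / 2) := by
  classical
  obtain ⟨C₁, Y₁, hC₁, hY₁, hQ⟩ := QX_le μ j₀ hμ hj hj'
  obtain ⟨Y₂, hY₂, hgood⟩ := good_l2 μ j₀ hμ hj hj' c hc hc1
  obtain ⟨Y₃, hY₃, hfar⟩ := far_l2 μ j₀ hμ hj hj' c hc hc1
  obtain ⟨C₂, hC₂, hpls⟩ := pl_sum
  obtain ⟨C₃, hC₃, hplm⟩ := pl_mul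
  set K : ℝ := C₂ + C₃ + 65536 * C₁ ^ 2 with hK
  have hK0 : 0 < K := by positivity
  refine ⟨max (max (max Y₁ Y₂) (max Y₃ 64)) (K ^ (2 / c)), ?_, ?_⟩
  · exact hY₁.trans ((le_max_left _ _).trans ((le_max_left _ _).trans (le_max_left _ _)))
  intro Y i g S G0 G1 hY hS hg hG0 hG1
  have hYa : max (max Y₁ Y₂) (max Y₃ 64) ≤ Y := (le_max_left _ _).trans hY
  have hY1 : Y₁ ≤ Y := (le_max_left _ _).trans ((le_max_left _ _).trans hYa)
  have hY2 : Y₂ ≤ Y := (le_max_right _ _).trans ((le_max_left _ _).trans hYa)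
  have hY3 : Y₃ ≤ Y := (le_max_left _ _).trans ((le_max_right _ _).trans hYa)
  have hY64 : 64 ≤ Y := (le_max_right _ _).trans ((le_max_right _ _).trans hYa)
  have hYK : K ≤ Y ^ (c / 2) := by
    have h1 : K ^ (2 / c) ≤ Y := (le_max_right _ _).trans hY
    have h2 := Real.rpow_le_rpow (by positivity) h1 (show 0 ≤ c / 2 by positivity)
    rwa [← Real.rpow_mul hK0.le, show 2 / c * (c / 2) = 1 by field_simp, Real.rpow_one] at h2
  have hY0 : 0 < Y := by linarith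
  have hY3' : 3 ≤ Y := by linarith
  set F : ℝ → ℂ := FF Y μ j₀ i with hF
  have hFc : Continuous F := DP_continuous _ _ _
  have hFb : ∀ t, ‖F t‖ ≤ C₁ := fun t => (hQ Y i t hY1).2.1
  obtain ⟨hBm, hBs, -⟩ := Bad_meas Y μ j₀ c i hY3' hc
  -- the sets
  set E1 : Set ℝ := {t : ℝ | |t| ≤ Y ^ (1 + c)} \ Bad Y μ j₀ c i with hE1
  set E2 : Set ℝ := {t : ℝ | Y ^ (1 + c) < |t| ∧ |t| ≤ Y ^ 10} with hE2
  set E3 : Set ℝ := {t : ℝ | Y ^ 10 < |t|} with hE3
  have hmE1 : MeasurableSet E1 := (measurableSet_le (by fun_prop) (by fun_prop)).diff hBm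
  have hmE2 : MeasurableSet E2 := by
    have h1 : MeasurableSet {t : ℝ | Y ^ (1 + c) < |t|} := measurableSet_lt (by fun_prop) (by fun_prop)
    have h2 : MeasurableSet {t : ℝ | |t| ≤ Y ^ 10} := measurableSet_le (by fun_prop) (by fun_prop)
    have h3 : E2 = {t : ℝ | Y ^ (1 + c) < |t|} ∩ {t : ℝ | |t| ≤ Y ^ 10} := by
      ext t
      exact Iff.rfl
    rw [h3]
    exact h1.inter h2
  have hmE3 : MeasurableSet E3 := measurableSet_lt (by fun_prop) (by fun_prop)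
  have hE1s : E1 ⊆ Set.Icc (-Y ^ (1 + c)) (Y ^ (1 + c)) := by
    intro t ht
    exact abs_le.1 ht.1
  have hE2s : E2 ⊆ Set.Icc (-Y ^ 10) (Y ^ 10) := by
    intro t ht
    exact abs_le.1 ht.2
  have hpow : Y ^ (1 + c) ≤ Y ^ 10 := by
    rw [← Real.rpow_natCast]
    apply Real.rpow_le_rpow_of_exponent_le (by linarith)
    push_cast
    linarith
  have hcompl : (Bad Y μ j₀ c i)ᶜ = E1 ∪ (E2 ∪ E3) := by
    ext t
    rw [Set.mem_compl_iff, Set.mem_union, Set.mem_union]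
    constructor
    · intro ht
      by_cases h1 : |t| ≤ Y ^ (1 + c)
      · left; exact ⟨h1, ht⟩
      · right
        push Not at h1
        by_cases h2 : |t| ≤ Y ^ 10
        · left; exact ⟨h1, h2⟩
        · right; exact not_le.1 h2
    · rintro (h | h | h) hb
      · exact h.2 hb
      · have := abs_le.2 (hBs hb)
        linarith [h.1]
      · have := abs_le.2 (hBs hb)
        have h' : Y ^ 10 < |t| := h
        linarith
  have hd1 : Disjoint E1 (E2 ∪ E3) := by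
    rw [Set.disjoint_left]
    rintro t h1 (h2 | h2)
    · have := h1.1
      have h3 : |t| ≤ Y ^ (1 + c) := h1.1
      linarith [h2.1]
    · have h3 : |t| ≤ Y ^ (1 + c) := h1.1
      have h' : Y ^ 10 < |t| := h2
      linarith
  have hd2 : Disjoint E2 E3 := by
    rw [Set.disjoint_left]
    intro t h1 h2
    have h' : Y ^ 10 < |t| := h2
    linarith [h1.2]
  -- sizes
  set L : ℕ := ⌈Y ^ 2 / 2⌉₊ with hL
  set U : ℕ := ⌊3 * Y ^ 2 / 2⌋₊ with hU
  have hL1 : Y ^ 2 / 2 ≤ L := Nat.le_ceil _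
  have hL2 : (L : ℝ) < Y ^ 2 / 2 + 1 := Nat.ceil_lt_add_one (by positivity)
  have hU1 : (U : ℝ) ≤ 3 * Y ^ 2 / 2 := Nat.floor_le (by positivity)
  have hSL : S + 8 ≤ L := by
    have : (S : ℝ) + 8 ≤ L := by nlinarith
    exact_mod_cast this
  set X₀ : ℕ := L - S with hX₀
  have hX8 : 8 ≤ X₀ := by omega
  have hX0c : (X₀ : ℝ) = L - S := by
    rw [hX₀, Nat.cast_sub (by omega)]
  have hX0u : (X₀ : ℝ) ≤ Y ^ 2 := by
    rw [hX0c]
    have : (0 : ℝ) ≤ S := Nat.cast_nonneg _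
    nlinarith
  have hUX : U + 1 ≤ 4 * X₀ := by
    have : (U : ℝ) + 1 ≤ 4 * X₀ := by
      rw [hX0c]
      nlinarith
    exact_mod_cast this
  have hUN : U ≤ NN Y := by
    have h1 : (U : ℝ) ≤ NN Y := by
      refine hU1.trans ?_
      refine le_trans ?_ (Nat.le_ceil (Y ^ 6))
      have h2 : Y ^ 6 = Y ^ 2 * Y ^ 4 := by ring
      rw [h2]
      have h3 : (3 / 2 : ℝ) ≤ Y ^ 4 := by
        have : (1 : ℝ) ≤ Y := by linarith
        have h4 : Y ≤ Y ^ 4 := le_self_pow₀ this (by norm_num)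
        linarith
      have h5 : 0 < Y ^ 2 := by positivity
      nlinarith
    exact_mod_cast h1
  -- integrability
  have hint : ∀ n : ℕ, 2 ≤ n → n ≤ NN Y → Integrable (fun t : ℝ => F t * Lt n t) := fun n h2 hN =>
    (DP_inv (NN Y) n i.1 (fX Y μ j₀) i.2 h2 hN).1
  have hinv : ∀ n : ℕ, 2 ≤ n → n ≤ NN Y → ((fX Y μ j₀ n : ℝ) : ℂ) * i.2 (n : ZMod i.1) =
      (1 / (2 * Real.pi) : ℂ) * ∫ t : ℝ, F t * Lt n t := fun n h2 hN =>
    (DP_inv (NN Y) n i.1 (fX Y μ j₀) i.2 h2 hN).2.symm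
  set A : Set ℝ → ℕ → ℂ := fun E n => ∫ t in E, F t * Lt n t with hA
  have hsplit : ∀ n : ℕ, 2 ≤ n → n ≤ NN Y → ∫ t : ℝ, F t * Lt n t =
      A (Bad Y μ j₀ c i) n + (A E1 n + A E2 n + A E3 n) := by
    intro n h2 hN
    have hi := hint n h2 hN
    rw [← integral_add_compl hBm hi, hcompl, setIntegral_union hd1 (hmE2.union hmE3) hi.integrableOn hi.integrableOn,
      setIntegral_union hd2 hmE3 hi.integrableOn hi.integrableOn, add_assoc (A E1 n)]
  have hxs : ∀ x ∈ Icc L U, ∀ s ∈ range (S + 1), 8 ≤ x - s ∧ x - s ≤ NN Y ∧ s ≤ x := by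
    intro x hx s hs
    rw [Finset.mem_Icc] at hx
    rw [Finset.mem_range] at hs
    omega
  -- the identity
  have hid : ∀ x ∈ Icc L U, ∑ s ∈ range (S + 1), ((g s * fX Y μ j₀ (x - s) : ℝ) : ℂ) * i.2 ((x - s : ℕ) : ZMod i.1) -
      (1 / (2 * Real.pi) : ℂ) * ∫ t in Bad Y μ j₀ c i,
        F t * ∑ s ∈ range (S + 1), (g s : ℂ) * Lt ((x - s : ℕ) : ℝ) t =
      (1 / (2 * Real.pi) : ℂ) * (∑ s ∈ range (S + 1), (g s : ℂ) * A E1 (x - s) +
        ∑ s ∈ range (S + 1), (g s : ℂ) * A E2 (x - s) + ∑ s ∈ range (S + 1), (g s : ℂ) * A E3 (x - s)) := by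
    intro x hx
    have h1 : ∫ t in Bad Y μ j₀ c i, F t * ∑ s ∈ range (S + 1), (g s : ℂ) * Lt ((x - s : ℕ) : ℝ) t =
        ∑ s ∈ range (S + 1), (g s : ℂ) * A (Bad Y μ j₀ c i) (x - s) := by
      simp only [Finset.mul_sum]
      rw [integral_finsetSum]
      · apply Finset.sum_congr rfl
        intro s _
        rw [hA]
        simp only
        rw [← integral_const_mul]
        congr 1
        ext t
        ring
      · intro s hs
        obtain ⟨h8, hN, _⟩ := hxs x hx s hs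
        have := ((hint (x - s) (by omega) hN).const_mul (g s : ℂ)).integrableOn (s := Bad Y μ j₀ c i)
        refine this.congr_fun_ae (Filter.Eventually.of_forall fun t => ?_)
        simp only
        ring
    rw [h1, Finset.mul_sum, ← Finset.sum_sub_distrib, ← Finset.sum_add_distrib, ← Finset.sum_add_distrib, Finset.mul_sum]
    apply Finset.sum_congr rfl
    intro s hs
    obtain ⟨h8, hN, _⟩ := hxs x hx s hs
    have h2 := hinv (x - s) (by omega) hN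
    rw [hsplit (x - s) (by omega) hN] at h2
    rw [Complex.ofReal_mul, mul_assoc, h2]
    ring
  -- the three parts
  have hG00 : 0 ≤ G0 := le_trans (Finset.sum_nonneg fun s _ => abs_nonneg _) hG0
  have hG10 : 0 ≤ G1 := le_trans (add_nonneg (abs_nonneg _) (Finset.sum_nonneg fun s _ => abs_nonneg _)) hG1
  have hI1 : ∑ x ∈ Icc L U, ‖∑ s ∈ range (S + 1), (g s : ℂ) * A E1 (x - s)‖ ^ 2 ≤ G0 ^ 2 * (C₂ * Y ^ (2 - c)) := by
    refine (BDe_conv g (A E1) S L U (4 * X₀) (by omega) (by omega)).trans ?_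
    apply mul_le_mul (pow_le_pow_left₀ (Finset.sum_nonneg fun s _ => abs_nonneg _) hG0 2) _
      (Finset.sum_nonneg fun s _ => by positivity) (by positivity)
    refine (hpls F E1 (Y ^ (1 + c)) X₀ hFc hmE1 hE1s hX8).trans ?_
    have h1 := hgood Y i hY2
    have h2 : Y ^ (2 - c) = Y ^ 2 * Y ^ (-c) := by
      rw [sub_eq_add_neg, Real.rpow_add hY0]
      norm_num
    rw [h2, mul_assoc]
    apply mul_le_mul_of_nonneg_left _ (by linarith)
    exact mul_le_mul hX0u h1 (integral_nonneg fun t => by positivity) (by positivity)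
  have hI2 : ∑ x ∈ Icc L U, ‖∑ s ∈ range (S + 1), (g s : ℂ) * A E2 (x - s)‖ ^ 2 ≤ G1 ^ 2 * (C₃ * Y ^ (4 - c)) := by
    set B : ℕ → ℂ := fun n => ∫ t in E2, F t * Mt n t with hB
    have hAB : ∀ n : ℕ, 2 ≤ n → A E2 n = B (n + 1) - B n := by
      intro n hn
      have hn' : (2 : ℝ) ≤ n := by exact_mod_cast hn
      have hcm : ∀ m : ℕ, 2 ≤ m → IntegrableOn (fun t => F t * Mt m t) E2 := by
        intro m hm
        have hm' : (2 : ℝ) ≤ m := by exact_mod_cast hm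
        have : ContinuousOn (fun t => F t * Mt m t) (Set.Icc (-Y ^ 10) (Y ^ 10)) :=
          (hFc.mul (LtMt_cont m hm').2).continuousOn
        exact (this.integrableOn_compact isCompact_Icc).mono_set hE2s
      rw [hA, hB]
      simp only
      rw [← integral_sub (hcm (n + 1) (by omega)) (hcm n hn)]
      congr 1
      ext t
      rw [(LtMt n t hn').2.2.2]
      push_cast
      ring
    have h1 : ∀ x ∈ Icc L U, ∑ s ∈ range (S + 1), (g s : ℂ) * A E2 (x - s) =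
        ∑ s ∈ range (S + 2), (((fun s : ℕ => if s = 0 then g 0 else g s - g (s - 1)) s : ℝ) : ℂ) * B (x + 1 - s) := by
      intro x hx
      rw [← BDe_parts g B S x (hg (S + 1) (by omega)) (by rw [Finset.mem_Icc] at hx; omega)]
      apply Finset.sum_congr rfl
      intro s hs
      obtain ⟨h8, hN, _⟩ := hxs x hx s hs
      rw [hAB (x - s) (by omega)]
    rw [Finset.sum_congr rfl fun x hx => by rw [h1 x hx]]
    have h2 : ∑ x ∈ Icc L U, ‖∑ s ∈ range (S + 2),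
        (((fun s : ℕ => if s = 0 then g 0 else g s - g (s - 1)) s : ℝ) : ℂ) * B (x + 1 - s)‖ ^ 2 =
        ∑ x ∈ Icc (L + 1) (U + 1), ‖∑ s ∈ range (S + 1 + 1),
        (((fun s : ℕ => if s = 0 then g 0 else g s - g (s - 1)) s : ℝ) : ℂ) * B (x - s)‖ ^ 2 := by
      rw [← Finset.image_add_right_Icc L U 1, Finset.sum_image]
      intro a _ b _ hab
      simpa using hab
    rw [h2]
    refine (BDe_conv _ B (S + 1) (L + 1) (U + 1) (4 * X₀) (by omega) (by omega)).trans ?_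
    have h3 : ∑ s ∈ range (S + 1 + 1), |(fun s : ℕ => if s = 0 then g 0 else g s - g (s - 1)) s| ≤ G1 := by
      refine le_trans (le_of_eq ?_) hG1
      rw [Finset.sum_range_succ', add_comm]
      simp
    apply mul_le_mul (pow_le_pow_left₀ (Finset.sum_nonneg fun s _ => abs_nonneg _) h3 2) _
      (Finset.sum_nonneg fun s _ => by positivity) (by positivity)
    rw [show L + 1 - (S + 1) = X₀ by omega]
    refine (hplm F E2 (Y ^ 10) X₀ hFc hmE2 hE2s hX8).trans ?_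
    have h4 := hfar Y i hY3
    have h5 : Y ^ (4 - c) = (Y ^ 2) ^ 3 * Y ^ (-2 - c) := by
      rw [← pow_mul, show 4 - c = ((6 : ℕ) : ℝ) + (-2 - c) by push_cast; ring, Real.rpow_add hY0, Real.rpow_natCast]
    rw [h5, mul_assoc]
    apply mul_le_mul_of_nonneg_left _ (by linarith)
    exact mul_le_mul (pow_le_pow_left₀ (Nat.cast_nonneg _) hX0u 3) h4 (integral_nonneg fun t => by positivity)
      (by positivity)
  have hI3 : ∑ x ∈ Icc L U, ‖∑ s ∈ range (S + 1), (g s : ℂ) * A E3 (x - s)‖ ^ 2 ≤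
      G0 ^ 2 * (65536 * C₁ ^ 2 * Y ^ (2 - c)) := by
    have h1 : ∀ n : ℕ, 2 ≤ n → (n : ℝ) ≤ 2 * Y ^ 2 → ‖A E3 n‖ ≤ 128 * C₁ / Y ^ 6 := by
      intro n hn hn2
      have hn' : (2 : ℝ) ≤ n := by exact_mod_cast hn
      have h2 : ‖A E3 n‖ ≤ ∫ t in E3, (C₁ * (16 * (n : ℝ) ^ 2)) * (1 + t ^ 2)⁻¹ := by
        apply norm_integral_le_of_norm_le
        · exact (integrable_inv_one_add_sq.const_mul _).integrableOn
        · refine Filter.Eventually.of_forall fun t => ?_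
          rw [norm_mul, mul_assoc]
          apply mul_le_mul (hFb t) _ (norm_nonneg _) (by linarith)
          have h3 := (LtMt n t hn').2.1
          have h4 : 0 < 1 + t ^ 2 := by positivity
          rw [← div_eq_mul_inv, le_div_iff₀ h4]
          exact h3
      refine h2.trans ?_
      rw [integral_const_mul]
      have h3 := BDe_tail (Y ^ 10) (by positivity)
      have h4 : C₁ * (16 * (n : ℝ) ^ 2) ≤ C₁ * (16 * (2 * Y ^ 2) ^ 2) := by
        apply mul_le_mul_of_nonneg_left _ (by linarith)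
        apply mul_le_mul_of_nonneg_left _ (by norm_num)
        exact pow_le_pow_left₀ (by linarith) hn2 2
      refine (mul_le_mul h4 h3 (integral_nonneg fun t => by positivity) (by positivity)).trans (le_of_eq ?_)
      field_simp
      ring
    have h2 : ∀ x ∈ Icc L U, ‖∑ s ∈ range (S + 1), (g s : ℂ) * A E3 (x - s)‖ ^ 2 ≤ (G0 * (128 * C₁ / Y ^ 6)) ^ 2 := by
      intro x hx
      apply pow_le_pow_left₀ (norm_nonneg _)
      refine (norm_sum_le _ _).trans ?_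
      refine le_trans (Finset.sum_le_sum (g := fun s => |g s| * (128 * C₁ / Y ^ 6)) fun s hs => ?_) ?_
      · obtain ⟨h8, hN, _⟩ := hxs x hx s hs
        rw [norm_mul, Complex.norm_real, Real.norm_eq_abs]
        apply mul_le_mul_of_nonneg_left _ (abs_nonneg _)
        apply h1 _ (by omega)
        rw [Finset.mem_Icc] at hx
        have h3 : ((x - s : ℕ) : ℝ) ≤ U := by
          have : x - s ≤ U := by omega
          exact_mod_cast this
        nlinarith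
      · rw [← Finset.sum_mul]
        exact mul_le_mul_of_nonneg_right hG0 (by positivity)
    refine (Finset.sum_le_sum h2).trans ?_
    rw [Finset.sum_const, nsmul_eq_mul]
    have h3 : ((Icc L U).card : ℝ) ≤ 2 * Y ^ 2 := by
      rw [Nat.card_Icc]
      have : ((U + 1 - L : ℕ) : ℝ) ≤ (U : ℝ) + 1 := by
        have : U + 1 - L ≤ U + 1 := by omega
        exact_mod_cast this
      nlinarith
    have h4 : 1 ≤ Y ^ (2 - c) := Real.one_le_rpow (by linarith) (by linarith)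
    have h5 : ((Icc L U).card : ℝ) * (G0 * (128 * C₁ / Y ^ 6)) ^ 2 ≤ 2 * Y ^ 2 * (G0 * (128 * C₁ / Y ^ 6)) ^ 2 :=
      mul_le_mul_of_nonneg_right h3 (by positivity)
    refine h5.trans ?_
    have h6 : 2 * Y ^ 2 * (G0 * (128 * C₁ / Y ^ 6)) ^ 2 = G0 ^ 2 * (32768 * C₁ ^ 2 * (1 / Y ^ 10)) := by
      field_simp
      ring
    rw [h6]
    apply mul_le_mul_of_nonneg_left _ (by positivity)
    have h7 : 1 / Y ^ 10 ≤ 1 := by
      rw [div_le_one (by positivity)]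
      exact one_le_pow₀ (by linarith)
    have h8 : 32768 * C₁ ^ 2 * (1 / Y ^ 10) ≤ 32768 * C₁ ^ 2 * 1 := mul_le_mul_of_nonneg_left h7 (by positivity)
    have h9 : 65536 * C₁ ^ 2 * 1 ≤ 65536 * C₁ ^ 2 * Y ^ (2 - c) := mul_le_mul_of_nonneg_left h4 (by positivity)
    have h10 : 0 ≤ C₁ ^ 2 := by positivity
    linarith
  -- conclusion
  have hsum : ∑ x ∈ Icc L U,
      ‖∑ s ∈ range (S + 1), ((g s * fX Y μ j₀ (x - s) : ℝ) : ℂ) * i.2 ((x - s : ℕ) : ZMod i.1) -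
        (1 / (2 * Real.pi) : ℂ) * ∫ t in Bad Y μ j₀ c i,
          F t * ∑ s ∈ range (S + 1), (g s : ℂ) * Lt ((x - s : ℕ) : ℝ) t‖ ^ 2 ≤
      G0 ^ 2 * (C₂ * Y ^ (2 - c)) + G1 ^ 2 * (C₃ * Y ^ (4 - c)) + G0 ^ 2 * (65536 * C₁ ^ 2 * Y ^ (2 - c)) := by
    refine le_trans (Finset.sum_le_sum (g := fun x => ‖∑ s ∈ range (S + 1), (g s : ℂ) * A E1 (x - s)‖ ^ 2 +
        ‖∑ s ∈ range (S + 1), (g s : ℂ) * A E2 (x - s)‖ ^ 2 +
        ‖∑ s ∈ range (S + 1), (g s : ℂ) * A E3 (x - s)‖ ^ 2) fun x hx => ?_)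
      (le_trans (le_of_eq ?_) (add_le_add (add_le_add hI1 hI2) hI3))
    · rw [hid x hx]
      exact BDe_sq _ _ _
    · rw [← Finset.sum_add_distrib, ← Finset.sum_add_distrib]
  refine hsum.trans ?_
  have h1 : Y ^ (2 - c) * Y ^ (c / 2) = Y ^ (2 - c / 2) := by
    rw [← Real.rpow_add hY0]
    congr 1
    ring
  have h2 : Y ^ (4 - c) = Y ^ 2 * Y ^ (2 - c) := by
    rw [show 4 - c = ((2 : ℕ) : ℝ) + (2 - c) by push_cast; ring, Real.rpow_add hY0, Real.rpow_natCast]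
  rw [h2, ← h1]
  set Z := Y ^ (2 - c) with hZ
  have hZ0 : 0 < Z := by positivity
  have hCa : C₂ + 65536 * C₁ ^ 2 ≤ Y ^ (c / 2) := by linarith
  have hCb : C₃ ≤ Y ^ (c / 2) := by
    have : 0 ≤ 65536 * C₁ ^ 2 := by positivity
    linarith
  have h3 := mul_le_mul_of_nonneg_left hCa (show 0 ≤ G0 ^ 2 * Z by positivity)
  have h4 := mul_le_mul_of_nonneg_left hCb (show 0 ≤ G1 ^ 2 * Y ^ 2 * Z by positivity)
  linarith

end Pool.Agent.M58
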