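import Pool.Agent.W_b58c63_m1.BHi

/-!
# The low part (helper68)
-/

set_option autoImplicit false

noncomputable section

open Finset MeasureTheory Complex

namespace Pool.Agent.M58

/-- The smoothed local mean of `qX χ` at `exp u`. -/
def ql (Y : ℝ) (μ j₀ : ℕ) (w : ℝ) (i : CC) (u : ℝ) : ℂ :=
  ∑ n ∈ Icc 1 (NN Y), ((qX Y μ j₀ n / n * kk w (u - Real.log n) : ℝ) : ℂ) * i.2 (n : ZMod i.1)

theorem BLo_qX_nonneg (Y : ℝ) (μ j₀ n : ℕ) : 0 ≤ qX Y μ j₀ n := by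
  unfold qX
  refine Finset.sum_nonneg fun j _ => Finset.sum_nonneg fun k _ => ?_
  unfold cv
  refine Finset.sum_nonneg fun d _ => mul_nonneg ?_ ?_
  · unfold pbY pb pw
    split_ifs
    · exact HPrC_Gt_nonneg _ _ _ _
    · exact le_rfl
    · exact le_rfl
  · unfold rb
    exact mul_nonneg (HQ_rh_nonneg _ _) (HPrC_Gt_nonneg _ _ _ _)

/-- (`kk ≤ w`, `kk_lip`, `QX_le`.) -/
theorem ql_props (μ j₀ : ℕ) (hμ : 8 ≤ μ) (hj : 2 ≤ j₀) (hj' : j₀ ≤ μ) : ∃ C Y₀ : ℝ, 1 ≤ C ∧ 3 ≤ Y₀ ∧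
    ∀ (Y w u u' : ℝ) (i : CC), Y₀ ≤ Y → 0 < w → ‖ql Y μ j₀ w i u‖ ≤ C * w ∧
      ‖ql Y μ j₀ w i u - ql Y μ j₀ w i u'‖ ≤ C * w ^ 2 * |u - u'| := by
  obtain ⟨C, Y₀, hC, hY₀, H⟩ := QX_le μ j₀ hμ hj hj'
  refine ⟨C, Y₀, hC, hY₀, fun Y w u u' i hY hw => ⟨?_, ?_⟩⟩
  · have h1 := (H Y i 0 hY).2.2
    have h2 : ‖ql Y μ j₀ w i u‖ ≤ ∑ n ∈ Icc 1 (NN Y), qX Y μ j₀ n / n * w := by
      unfold ql
      refine norm_sum_le_of_le _ fun n _ => ?_
      have h3 : 0 ≤ qX Y μ j₀ n / n := div_nonneg (BLo_qX_nonneg _ _ _ _) (Nat.cast_nonneg n)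
      obtain ⟨h4, h5, -⟩ := kk_bounds w (u - Real.log n) hw
      rw [norm_mul, Complex.norm_real, Real.norm_of_nonneg (mul_nonneg h3 h4)]
      calc qX Y μ j₀ n / n * kk w (u - Real.log n) * ‖i.2 (n : ZMod i.1)‖
          ≤ qX Y μ j₀ n / n * w * 1 := by
            gcongr
            exact i.2.norm_le_one _
        _ = _ := mul_one _
    rw [← Finset.sum_mul] at h2
    exact h2.trans (mul_le_mul_of_nonneg_right h1 hw.le)
  · have h1 := (H Y i 0 hY).2.2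
    have h2 : ‖ql Y μ j₀ w i u - ql Y μ j₀ w i u'‖ ≤
        ∑ n ∈ Icc 1 (NN Y), qX Y μ j₀ n / n * (w ^ 2 * |u - u'|) := by
      unfold ql
      rw [← Finset.sum_sub_distrib]
      refine norm_sum_le_of_le _ fun n _ => ?_
      have h3 : 0 ≤ qX Y μ j₀ n / n := div_nonneg (BLo_qX_nonneg _ _ _ _) (Nat.cast_nonneg n)
      have h4 := kk_lip w (u - Real.log n) (u' - Real.log n) hw
      have h5 : u - Real.log n - (u' - Real.log n) = u - u' := by ring
      rw [h5] at h4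
      have h6 : ((qX Y μ j₀ n / n * kk w (u - Real.log n) : ℝ) : ℂ) * i.2 (n : ZMod i.1) -
          ((qX Y μ j₀ n / n * kk w (u' - Real.log n) : ℝ) : ℂ) * i.2 (n : ZMod i.1) =
          ((qX Y μ j₀ n / n * (kk w (u - Real.log n) - kk w (u' - Real.log n)) : ℝ) : ℂ) *
            i.2 (n : ZMod i.1) := by
        push_cast
        ring
      rw [h6, norm_mul, Complex.norm_real, Real.norm_eq_abs, abs_mul, abs_of_nonneg h3]
      calc qX Y μ j₀ n / n * |kk w (u - Real.log n) - kk w (u' - Real.log n)| *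
            ‖i.2 (n : ZMod i.1)‖
          ≤ qX Y μ j₀ n / n * (w ^ 2 * |u - u'|) * 1 := by
            gcongr
            exact i.2.norm_le_one _
        _ = _ := mul_one _
    rw [← Finset.sum_mul] at h2
    refine h2.trans ((mul_le_mul_of_nonneg_right h1 (by positivity)).trans (le_of_eq ?_))
    ring

theorem BLo_QLo {Y : ℝ} {μ j₀ : ℕ} {w : ℝ} {i1 i : CC} (hi : i = i0 ∨ i = i1) (t : ℝ) :
    QLo Y μ j₀ w i1 i t = (tent (t / w) : ℂ) * QX Y μ j₀ i t := by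
  unfold QLo
  rw [if_pos hi]

theorem BLo_QLo_cont {Y : ℝ} {μ j₀ : ℕ} {w : ℝ} {i1 i : CC} (hi : i = i0 ∨ i = i1) :
    Continuous (QLo Y μ j₀ w i1 i) := by
  have h1 : QLo Y μ j₀ w i1 i = fun t => (tent (t / w) : ℂ) * QX Y μ j₀ i t :=
    funext fun t => BLo_QLo hi t
  rw [h1]
  have h2 : Continuous (QX Y μ j₀ i) := DP_continuous _ _ _
  have h3 := STe_cont
  fun_prop

theorem BLo_tent_out {w t : ℝ} (hw : 0 < w) (h : w ≤ |t|) : tent (t / w) = 0 := by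
  apply STe_supp
  rw [abs_div, abs_of_pos hw, le_div_iff₀ hw, one_mul]
  exact h

theorem BLo_compact {w : ℝ} {f : ℝ → ℂ} (hf : Continuous f)
    (h0 : ∀ t, w ≤ |t| → f t = 0) : Integrable f := by
  refine hf.integrable_of_hasCompactSupport ?_
  refine HasCompactSupport.intro (K := Set.Icc (-w) w) isCompact_Icc fun x hx => ?_
  apply h0
  by_contra hc
  rw [not_le, abs_lt] at hc
  exact hx ⟨hc.1.le, hc.2.le⟩

theorem BLo_QLo_out {Y : ℝ} {μ j₀ : ℕ} {w : ℝ} {i1 i : CC} (hw : 0 < w) (hi : i = i0 ∨ i = i1)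
    {t : ℝ} (h : w ≤ |t|) : QLo Y μ j₀ w i1 i t = 0 := by
  rw [BLo_QLo hi, BLo_tent_out hw h, Complex.ofReal_zero, zero_mul]

theorem BLo_QLo_int {Y : ℝ} {μ j₀ : ℕ} {w : ℝ} {i1 i : CC} (hw : 0 < w) (hi : i = i0 ∨ i = i1) :
    Integrable (QLo Y μ j₀ w i1 i) :=
  BLo_compact (BLo_QLo_cont hi) fun _ h => BLo_QLo_out hw hi h

/-- a twist does not change integrability -/
theorem BLo_twist {f : ℝ → ℂ} (hf : Integrable f) (y : ℝ) :
    Integrable (fun t => f t * Complex.exp ((t * y : ℝ) * I)) := by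
  refine hf.mono (hf.aestronglyMeasurable.mul ?_) (Filter.Eventually.of_forall fun t => ?_)
  · have : Continuous (fun t : ℝ => Complex.exp ((t * y : ℝ) * I)) := by fun_prop
    exact this.aestronglyMeasurable
  · rw [norm_mul, Complex.norm_exp_ofReal_mul_I, mul_one]

theorem BLo_four {Y : ℝ} {μ j₀ : ℕ} {w : ℝ} {i1 i : CC} (hw : 0 < w) (hi : i = i0 ∨ i = i1)
    (y : ℝ) : (1 / (2 * Real.pi) : ℂ) * ∫ s : ℝ, QLo Y μ j₀ w i1 i s *
      Complex.exp ((s * y : ℝ) * I) = ql Y μ j₀ w i y := by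
  have h1 : ∀ s : ℝ, QLo Y μ j₀ w i1 i s * Complex.exp ((s * y : ℝ) * I) =
      ∑ n ∈ Icc 1 (NN Y), (((qX Y μ j₀ n / n : ℝ) : ℂ) * i.2 (n : ZMod i.1)) *
        ((tent (s / w) : ℂ) * Complex.exp ((s * (y - Real.log n) : ℝ) * I)) := by
    intro s
    rw [BLo_QLo hi]
    unfold QX DP
    rw [Finset.mul_sum, Finset.sum_mul]
    refine Finset.sum_congr rfl fun n hn => ?_
    rw [DMvB_nit_eq (Finset.mem_Icc.1 hn).1]
    have h2 : Complex.exp ((s * (y - Real.log n) : ℝ) * I) =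
        Complex.exp (I * ((-(Real.log n * s) : ℝ) : ℂ)) * Complex.exp ((s * y : ℝ) * I) := by
      rw [← Complex.exp_add]
      congr 1
      push_cast
      ring
    rw [h2]
    ring
  simp only [h1]
  rw [integral_finsetSum]
  · unfold ql
    rw [Finset.mul_sum]
    refine Finset.sum_congr rfl fun n _ => ?_
    rw [integral_const_mul, Complex.ofReal_mul, kk_four w _ hw]
    ring
  · intro n _
    refine Integrable.const_mul ?_ _
    have h3 : Integrable (fun s : ℝ => (tent (s / w) : ℂ)) := by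
      refine BLo_compact (w := w) ?_ fun t ht => ?_
      · have := STe_cont
        fun_prop
      · rw [BLo_tent_out hw ht, Complex.ofReal_zero]
    exact BLo_twist h3 _

theorem BLo_osc_int (Y : ℝ) : Integrable (osc (locf Y)) := STe_int 2 (2 * Real.log Y) two_pos

theorem BLo_FLo_conv {Y : ℝ} {μ j₀ : ℕ} {w : ℝ} {i1 i : CC} (y t : ℝ) :
    FLo Y μ j₀ w i1 i t * Complex.exp ((t * y : ℝ) * I) = (1 / (2 * Real.pi) : ℂ) *
      convolution (fun v => osc (locf Y) v * Complex.exp ((v * y : ℝ) * I))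
        (fun s => QLo Y μ j₀ w i1 i s * Complex.exp ((s * y : ℝ) * I))
        (ContinuousLinearMap.mul ℝ ℂ) volume t := by
  rw [convolution_def]
  unfold FLo
  rw [mul_assoc, ← integral_mul_const]
  congr 2
  funext v
  rw [ContinuousLinearMap.mul_apply']
  have h1 : Complex.exp ((t * y : ℝ) * I) =
      Complex.exp ((v * y : ℝ) * I) * Complex.exp (((t - v) * y : ℝ) * I) := by
    rw [← Complex.exp_add]
    congr 1
    push_cast
    ring
  rw [h1]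
  ring

theorem BLo_FLo_int {Y : ℝ} {μ j₀ : ℕ} {w : ℝ} {i1 i : CC} (hw : 0 < w) (hi : i = i0 ∨ i = i1) :
    Integrable (FLo Y μ j₀ w i1 i) := by
  have h1 := ((BLo_osc_int Y).integrable_convolution (ContinuousLinearMap.mul ℝ ℂ)
    (BLo_QLo_int (Y := Y) (μ := μ) (j₀ := j₀) hw hi)).const_mul (1 / (2 * Real.pi) : ℂ)
  exact h1

theorem BLo_FLo_four {Y : ℝ} {μ j₀ : ℕ} {w : ℝ} {i1 i : CC} (hw : 0 < w) (hi : i = i0 ∨ i = i1)
    (y : ℝ) : (1 / (2 * Real.pi) : ℂ) * ∫ t : ℝ, FLo Y μ j₀ w i1 i t *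
      Complex.exp ((t * y : ℝ) * I) = (locf Y y : ℂ) * ql Y μ j₀ w i y := by
  have h1 : (fun t : ℝ => FLo Y μ j₀ w i1 i t * Complex.exp ((t * y : ℝ) * I)) = fun t =>
      (1 / (2 * Real.pi) : ℂ) *
      convolution (fun v => osc (locf Y) v * Complex.exp ((v * y : ℝ) * I))
        (fun s => QLo Y μ j₀ w i1 i s * Complex.exp ((s * y : ℝ) * I))
        (ContinuousLinearMap.mul ℝ ℂ) volume t := funext fun t => BLo_FLo_conv y t
  rw [h1, integral_const_mul, integral_convolution _ (BLo_twist (BLo_osc_int Y) y)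
    (BLo_twist (BLo_QLo_int hw hi) y), ContinuousLinearMap.mul_apply', ← BLo_four hw hi y]
  have h2 : (locf Y y : ℂ) = (1 / (2 * Real.pi) : ℂ) * ∫ u : ℝ, osc (locf Y) u *
      Complex.exp ((u * y : ℝ) * I) := tent_inv 2 (2 * Real.log Y) y two_pos
  rw [h2]
  ring

theorem BLo_xit (x t : ℝ) : ‖xit x t‖ = 1 := by
  unfold xit
  exact Complex.norm_exp_ofReal_mul_I _

theorem BLo_fubini {Y : ℝ} {μ j₀ : ℕ} {w : ℝ} {i1 i : CC} (hw : 0 < w) (hi : i = i0 ∨ i = i1)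
    (x : ℝ) : (1 / (2 * Real.pi) : ℂ) * ∫ t : ℝ, FLo Y μ j₀ w i1 i t * Lt x t =
      ∫ θ in (-1 : ℝ)..1, ((1 - |θ| : ℝ) : ℂ) *
        ((locf Y (Real.log (x + θ)) : ℂ) * ql Y μ j₀ w i (Real.log (x + θ))) := by
  have hF := BLo_FLo_int (Y := Y) (μ := μ) (j₀ := j₀) hw hi
  have h1 : ∀ t : ℝ, FLo Y μ j₀ w i1 i t * Lt x t = ∫ θ in Set.Ioc (-1 : ℝ) 1,
      FLo Y μ j₀ w i1 i t * (((1 - |θ| : ℝ) : ℂ) * xit (x + θ) t) := by
    intro t
    unfold Lt
    rw [intervalIntegral.integral_of_le (by norm_num), integral_const_mul]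
  simp only [h1]
  rw [integral_integral_swap, intervalIntegral.integral_of_le (by norm_num), ← integral_const_mul]
  · refine integral_congr_ae (Filter.Eventually.of_forall fun θ => ?_)
    show (1 / (2 * Real.pi) : ℂ) * ∫ t : ℝ, FLo Y μ j₀ w i1 i t *
      (((1 - |θ| : ℝ) : ℂ) * xit (x + θ) t) = ((1 - |θ| : ℝ) : ℂ) *
        ((locf Y (Real.log (x + θ)) : ℂ) * ql Y μ j₀ w i (Real.log (x + θ)))
    rw [← BLo_FLo_four hw hi]
    have h2 : ∀ t : ℝ, FLo Y μ j₀ w i1 i t * (((1 - |θ| : ℝ) : ℂ) * xit (x + θ) t) =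
        ((1 - |θ| : ℝ) : ℂ) * (FLo Y μ j₀ w i1 i t *
          Complex.exp ((t * Real.log (x + θ) : ℝ) * I)) := by
      intro t
      unfold xit
      ring
    simp only [h2]
    rw [integral_const_mul]
    ring
  · have h3 : Integrable (fun z : ℝ × ℝ => ‖FLo Y μ j₀ w i1 i z.1‖ * (1 + |z.2|))
        (volume.prod (volume.restrict (Set.Ioc (-1 : ℝ) 1))) :=
      hF.norm.mul_prod (by fun_prop : Continuous fun θ : ℝ => 1 + |θ|).integrableOn_Ioc
    refine h3.mono' ?_ (Filter.Eventually.of_forall fun z => ?_)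
    · have hc := (FHi_cont Y μ j₀ w i1 i hw).2.measurable
      have h4 : Measurable fun z : ℝ × ℝ => FLo Y μ j₀ w i1 i z.1 := hc.comp measurable_fst
      have h5 : Measurable fun z : ℝ × ℝ => (((1 - |z.2| : ℝ) : ℂ) * xit (x + z.2) z.1) := by
        unfold xit
        fun_prop
      exact (h4.mul h5).aestronglyMeasurable
    · show ‖FLo Y μ j₀ w i1 i z.1 * (((1 - |z.2| : ℝ) : ℂ) * xit (x + z.2) z.1)‖ ≤ _
      rw [norm_mul, norm_mul, BLo_xit, mul_one, Complex.norm_real, Real.norm_eq_abs]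
      refine mul_le_mul_of_nonneg_left ?_ (norm_nonneg _)
      rw [abs_le]
      have := abs_nonneg z.2
      constructor <;> linarith

theorem BLo_tri : ∫ θ in (-1 : ℝ)..1, ((1 - |θ| : ℝ) : ℂ) = 1 := by
  have hc : Continuous fun θ : ℝ => ((1 - |θ| : ℝ) : ℂ) := by fun_prop
  rw [← intervalIntegral.integral_add_adjacent_intervals (b := 0) (hc.intervalIntegrable _ _)
      (hc.intervalIntegrable _ _)]
  have e1 : ∫ x in (-1 : ℝ)..0, ((1 - |x| : ℝ) : ℂ) = ∫ x in (-1 : ℝ)..0, (1 + x : ℂ) := by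
    refine intervalIntegral.integral_congr fun x hx => ?_
    rw [Set.uIcc_of_le (by norm_num)] at hx
    show ((1 - |x| : ℝ) : ℂ) = 1 + x
    rw [abs_of_nonpos hx.2]
    push_cast
    ring
  have e2 : ∫ x in (0 : ℝ)..1, ((1 - |x| : ℝ) : ℂ) = ∫ x in (0 : ℝ)..1, (1 - x : ℂ) := by
    refine intervalIntegral.integral_congr fun x hx => ?_
    rw [Set.uIcc_of_le (by norm_num)] at hx
    show ((1 - |x| : ℝ) : ℂ) = 1 - x
    rw [abs_of_nonneg hx.1]
    push_cast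
    ring
  have d1 : ∀ x : ℝ, HasDerivAt (fun x : ℝ => (x : ℂ) + (x : ℂ) ^ 2 / 2) (1 + x : ℂ) x := by
    intro x
    have h1 : HasDerivAt (fun x : ℝ => (x : ℂ)) 1 x := Complex.ofRealCLM.hasDerivAt
    have h2 := h1.add ((h1.pow 2).div_const 2)
    refine h2.congr_deriv ?_
    push_cast
    ring
  have d2 : ∀ x : ℝ, HasDerivAt (fun x : ℝ => (x : ℂ) - (x : ℂ) ^ 2 / 2) (1 - x : ℂ) x := by
    intro x
    have h1 : HasDerivAt (fun x : ℝ => (x : ℂ)) 1 x := Complex.ofRealCLM.hasDerivAt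
    have h2 := h1.sub ((h1.pow 2).div_const 2)
    refine h2.congr_deriv ?_
    push_cast
    ring
  rw [e1, e2, intervalIntegral.integral_eq_sub_of_hasDerivAt (fun x _ => d1 x)
    ((by fun_prop : Continuous (fun x : ℝ => (1 + x : ℂ))).intervalIntegrable _ _),
    intervalIntegral.integral_eq_sub_of_hasDerivAt (fun x _ => d2 x)
    ((by fun_prop : Continuous (fun x : ℝ => (1 - x : ℂ))).intervalIntegrable _ _)]
  push_cast
  norm_num

theorem BLo_log {x θ : ℝ} (hx : 2 ≤ x) (h1 : -1 ≤ θ) (h2 : θ ≤ 1) :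
    |Real.log (x + θ) - Real.log x| ≤ 2 / x := by
  have hx0 : 0 < x := by linarith
  have hxt : 0 < x + θ := by linarith
  rw [abs_le]
  constructor
  · have h3 := Real.log_le_sub_one_of_pos (div_pos hx0 hxt)
    rw [Real.log_div hx0.ne' hxt.ne'] at h3
    have h4 : x / (x + θ) - 1 = -θ / (x + θ) := by
      field_simp
      ring
    rw [h4] at h3
    have h5 : -θ / (x + θ) ≤ 2 / x := by
      rw [div_le_div_iff₀ hxt hx0]
      nlinarith
    linarith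
  · have h3 := Real.log_le_sub_one_of_pos (div_pos hxt hx0)
    rw [Real.log_div hxt.ne' hx0.ne'] at h3
    have h4 : (x + θ) / x - 1 = θ / x := by
      field_simp
      ring
    rw [h4] at h3
    have h5 : θ / x ≤ 2 / x := by gcongr; linarith
    linarith

theorem BLo_h_lip {Y : ℝ} {μ j₀ : ℕ} {w C : ℝ} {i : CC} (hY : 3 ≤ Y) (hw : 0 < w) (hw1 : w ≤ 1)
    (hC : 0 ≤ C) (H : ∀ u u' : ℝ, ‖ql Y μ j₀ w i u‖ ≤ C * w ∧
      ‖ql Y μ j₀ w i u - ql Y μ j₀ w i u'‖ ≤ C * w ^ 2 * |u - u'|) (u u' : ℝ) :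
    ‖(locf Y u : ℂ) * ql Y μ j₀ w i u - (locf Y u' : ℂ) * ql Y μ j₀ w i u'‖ ≤
      2 * C * |u - u'| := by
  obtain ⟨l1, l2, -⟩ := locf_props Y hY
  have h1 : (locf Y u : ℂ) * ql Y μ j₀ w i u - (locf Y u' : ℂ) * ql Y μ j₀ w i u' =
      ((locf Y u - locf Y u' : ℝ) : ℂ) * ql Y μ j₀ w i u +
        (locf Y u' : ℂ) * (ql Y μ j₀ w i u - ql Y μ j₀ w i u') := by
    push_cast
    ring
  rw [h1]
  refine (norm_add_le _ _).trans ?_
  rw [norm_mul, norm_mul, Complex.norm_real, Complex.norm_real, Real.norm_eq_abs,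
    Real.norm_of_nonneg (l1 u').1]
  have h2 : C * w ≤ C := mul_le_of_le_one_right hC hw1
  have h3 : C * w ^ 2 ≤ C := mul_le_of_le_one_right hC (pow_le_one₀ hw.le hw1)
  calc |locf Y u - locf Y u'| * ‖ql Y μ j₀ w i u‖ +
        locf Y u' * ‖ql Y μ j₀ w i u - ql Y μ j₀ w i u'‖
      ≤ |u - u'| * C + 1 * (C * |u - u'|) := by
        refine add_le_add (mul_le_mul (l2 u u') ((H u u').1.trans h2) (norm_nonneg _)
          (abs_nonneg _)) (mul_le_mul (l1 u').2 ((H u u').2.trans ?_) (norm_nonneg _) zero_le_one)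
        exact mul_le_mul_of_nonneg_right h3 (abs_nonneg _)
    _ = 2 * C * |u - u'| := by ring

/-- The local part of the estimate. -/
theorem BLo_local {Y : ℝ} {μ j₀ : ℕ} {w C : ℝ} {i : CC} (hY : 3 ≤ Y) (hw : 0 < w) (hw1 : w ≤ 1)
    (hC : 0 ≤ C) (H : ∀ u u' : ℝ, ‖ql Y μ j₀ w i u‖ ≤ C * w ∧
      ‖ql Y μ j₀ w i u - ql Y μ j₀ w i u'‖ ≤ C * w ^ 2 * |u - u'|) {x : ℝ} (hx : 2 ≤ x) :
    ‖(∫ θ in (-1 : ℝ)..1, ((1 - |θ| : ℝ) : ℂ) *
        ((locf Y (Real.log (x + θ)) : ℂ) * ql Y μ j₀ w i (Real.log (x + θ)))) -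
      (locf Y (Real.log x) : ℂ) * ql Y μ j₀ w i (Real.log x)‖ ≤ 8 * C / x := by
  have hx0 : 0 < x := by linarith
  set h : ℝ → ℂ := fun u => (locf Y u : ℂ) * ql Y μ j₀ w i u with hh
  have hlip : ∀ u u', ‖h u - h u'‖ ≤ 2 * C * |u - u'| := BLo_h_lip hY hw hw1 hC H
  have hcont : Continuous h := by
    have : LipschitzWith (Real.toNNReal (2 * C)) h := by
      refine LipschitzWith.of_dist_le_mul fun u u' => ?_
      rw [dist_eq_norm, Real.dist_eq, Real.coe_toNNReal _ (by positivity)]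
      exact hlip u u'
    exact this.continuous
  have hci : ∀ v : ℂ, IntervalIntegrable (fun θ : ℝ => ((1 - |θ| : ℝ) : ℂ) * v) volume (-1) 1 :=
    fun v => (by fun_prop : Continuous fun θ : ℝ => ((1 - |θ| : ℝ) : ℂ) * v).intervalIntegrable _ _
  have hlogc : ContinuousOn (fun θ : ℝ => Real.log (x + θ)) (Set.uIcc (-1) 1) := by
    rw [Set.uIcc_of_le (by norm_num)]
    refine ContinuousOn.log (by fun_prop) fun θ hθ => ?_
    have := hθ.1
    linarith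
  have hci2 : IntervalIntegrable (fun θ : ℝ => ((1 - |θ| : ℝ) : ℂ) * h (Real.log (x + θ)))
      volume (-1) 1 := by
    refine ContinuousOn.intervalIntegrable ?_
    refine ContinuousOn.mul (by fun_prop) ?_
    exact hcont.comp_continuousOn hlogc
  have e1 : h (Real.log x) = ∫ θ in (-1 : ℝ)..1, ((1 - |θ| : ℝ) : ℂ) * h (Real.log x) := by
    rw [intervalIntegral.integral_mul_const, BLo_tri, one_mul]
  show ‖(∫ θ in (-1 : ℝ)..1, ((1 - |θ| : ℝ) : ℂ) * h (Real.log (x + θ))) - h (Real.log x)‖ ≤ _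
  rw [e1, ← intervalIntegral.integral_sub hci2 (hci _)]
  refine (intervalIntegral.norm_integral_le_of_norm_le_const (C := 2 * C * (2 / x))
    fun θ hθ => ?_).trans (le_of_eq ?_)
  · rw [Set.uIoc_of_le (by norm_num)] at hθ
    rw [← mul_sub, norm_mul, Complex.norm_real, Real.norm_eq_abs]
    have h1 : |1 - (|θ|)| ≤ 1 := by
      have h2 : |θ| ≤ 1 := abs_le.2 ⟨hθ.1.le, hθ.2⟩
      have h3 := abs_nonneg θ
      rw [abs_le]
      constructor <;> linarith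
    have h4 := hlip (Real.log (x + θ)) (Real.log x)
    have h5 := BLo_log hx hθ.1.le hθ.2
    calc |1 - (|θ|)| * ‖h (Real.log (x + θ)) - h (Real.log x)‖
        ≤ 1 * (2 * C * |Real.log (x + θ) - Real.log x|) :=
          mul_le_mul h1 h4 (norm_nonneg _) zero_le_one
      _ ≤ 1 * (2 * C * (2 / x)) := by gcongr
      _ = 2 * C * (2 / x) := one_mul _
  · have h6 : |(1 : ℝ) - -1| = 2 := by norm_num
    rw [h6]
    ring

theorem BLo_QLo_l1 {Y : ℝ} {μ j₀ : ℕ} {w C : ℝ} {i1 i : CC} (hw : 0 < w) (hw1 : w ≤ 1)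
    (hi : i = i0 ∨ i = i1) (H : ∀ t, ‖QX Y μ j₀ i t‖ ≤ C) :
    ∫ s : ℝ, ‖QLo Y μ j₀ w i1 i s‖ ≤ 2 * C := by
  have hC : 0 ≤ C := (norm_nonneg _).trans (H 0)
  have h1 : ∫ s in Set.Icc (-1 : ℝ) 1, ‖QLo Y μ j₀ w i1 i s‖ = ∫ s : ℝ, ‖QLo Y μ j₀ w i1 i s‖ := by
    refine setIntegral_eq_integral_of_forall_compl_eq_zero fun s hs => ?_
    rw [BLo_QLo_out hw hi, norm_zero]
    by_contra hc
    rw [not_le, abs_lt] at hc
    exact hs ⟨by linarith [hc.1], by linarith [hc.2]⟩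
  rw [← h1]
  have h2 := norm_setIntegral_le_of_norm_le_const (μ := volume) (s := Set.Icc (-1 : ℝ) 1)
    (f := fun s => ‖QLo Y μ j₀ w i1 i s‖) (C := C) (by simp) (fun s _ => by
      rw [norm_norm, BLo_QLo hi, norm_mul, Complex.norm_real,
        Real.norm_of_nonneg (HPrC_tent_nonneg _)]
      calc tent (s / w) * ‖QX Y μ j₀ i s‖ ≤ 1 * C :=
            mul_le_mul (HPrC_tent_le_one _) (H s) (norm_nonneg _) zero_le_one
        _ = C := one_mul C)
  have h3 : volume.real (Set.Icc (-1 : ℝ) 1) = 2 := by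
    rw [Real.volume_real_Icc_of_le (by norm_num)]
    norm_num
  rw [h3, Real.norm_of_nonneg (integral_nonneg fun _ => norm_nonneg _)] at h2
  linarith

theorem BLo_decay {Y : ℝ} {μ j₀ : ℕ} {w C : ℝ} {i1 i : CC} (hw : 0 < w) (hw1 : w ≤ 1)
    (hi : i = i0 ∨ i = i1) (H : ∀ t, ‖QX Y μ j₀ i t‖ ≤ C) {t : ℝ} (ht : 2 ≤ |t|) :
    ‖FLo Y μ j₀ w i1 i t‖ ≤ 4 * C / t ^ 2 := by
  have hC : 0 ≤ C := (norm_nonneg _).trans (H 0)
  have ht2 : 0 < t ^ 2 := by
    have : 0 < |t| := by linarith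
    rw [← sq_abs]
    positivity
  have hQi := (BLo_QLo_int (Y := Y) (μ := μ) (j₀ := j₀) hw hi).norm.comp_sub_left t
  have h1 : ‖∫ v : ℝ, osc (locf Y) v * QLo Y μ j₀ w i1 i (t - v)‖ ≤
      ∫ v : ℝ, 8 / t ^ 2 * ‖QLo Y μ j₀ w i1 i (t - v)‖ := by
    refine norm_integral_le_of_norm_le (hQi.const_mul _) (Filter.Eventually.of_forall fun v => ?_)
    rw [norm_mul]
    by_cases h : w ≤ |t - v|
    · rw [BLo_QLo_out hw hi h, norm_zero, mul_zero, mul_zero]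
    · refine mul_le_mul_of_nonneg_right ?_ (norm_nonneg _)
      rw [not_le] at h
      have h2 : |t| / 2 ≤ |v| := by
        have h3 : |t| ≤ |t - v| + |v| := by
          have := abs_add_le (t - v) v
          rwa [sub_add_cancel] at this
        linarith
      have h4 := (osc_tent 2 (2 * Real.log Y) v two_pos).2
      have h5 : ‖osc (locf Y) v‖ * (2 * v ^ 2) ≤ 4 := h4
      have h6 : t ^ 2 / 4 ≤ v ^ 2 := by
        rw [← sq_abs t, ← sq_abs v]
        have := mul_self_le_mul_self (by positivity) h2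
        nlinarith
      rw [le_div_iff₀ ht2]
      have h7 := mul_le_mul_of_nonneg_left h6 (norm_nonneg (osc (locf Y) v))
      linarith
  rw [integral_const_mul, integral_sub_left_eq_self (fun s => ‖QLo Y μ j₀ w i1 i s‖)] at h1
  have h8 := BLo_QLo_l1 hw hw1 hi H
  have h9 : ‖∫ v : ℝ, osc (locf Y) v * QLo Y μ j₀ w i1 i (t - v)‖ ≤ 8 / t ^ 2 * (2 * C) :=
    h1.trans (mul_le_mul_of_nonneg_left h8 (by positivity))
  unfold FLo
  rw [norm_mul]
  have h10 : ‖(1 / (2 * Real.pi) : ℂ)‖ ≤ 1 / 4 := by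
    have h11 : (1 / (2 * Real.pi) : ℂ) = ((1 / (2 * Real.pi) : ℝ) : ℂ) := by push_cast; ring
    rw [h11, Complex.norm_real, Real.norm_of_nonneg (by positivity)]
    refine one_div_le_one_div_of_le (by norm_num) ?_
    linarith [Real.pi_gt_three]
  calc ‖(1 / (2 * Real.pi) : ℂ)‖ * ‖∫ v : ℝ, osc (locf Y) v * QLo Y μ j₀ w i1 i (t - v)‖
      ≤ 1 / 4 * (8 / t ^ 2 * (2 * C)) := mul_le_mul h10 h9 (norm_nonneg _) (by norm_num)
    _ = 4 * C / t ^ 2 := by ring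

theorem BLo_tail {A : ℝ} (hA : 0 < A) : Integrable (fun t : ℝ => 2 / (A ^ 2 + t ^ 2)) ∧
    ∫ t : ℝ, 2 / (A ^ 2 + t ^ 2) = 2 * Real.pi / A := by
  have h1 : (fun t : ℝ => 2 / (A ^ 2 + t ^ 2)) = fun t : ℝ => 2 / A ^ 2 * (1 + (t / A) ^ 2)⁻¹ := by
    funext t
    field_simp
  rw [h1]
  constructor
  · exact (integrable_inv_one_add_sq.comp_div hA.ne').const_mul _
  · rw [integral_const_mul, Measure.integral_comp_div (fun t : ℝ => (1 + t ^ 2)⁻¹) A,
      integral_univ_inv_one_add_sq, abs_of_pos hA, smul_eq_mul]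
    field_simp

/-- The complement of the bad set. -/
theorem BLo_compl {Y A : ℝ} {μ j₀ : ℕ} {w C : ℝ} {i1 i : CC} (hw : 0 < w) (hw1 : w ≤ 1)
    (hi : i = i0 ∨ i = i1) (H : ∀ t, ‖QX Y μ j₀ i t‖ ≤ C) (hA : 2 ≤ A) {S : Set ℝ}
    (hS : MeasurableSet S) (hSA : ∀ t ∈ S, A ≤ |t|) {L : ℝ → ℂ} (hL : ∀ t, ‖L t‖ ≤ 1) :
    ‖∫ t in S, FLo Y μ j₀ w i1 i t * L t‖ ≤ 8 * Real.pi * C / A := by
  have hC : 0 ≤ C := (norm_nonneg _).trans (H 0)
  obtain ⟨t1, t2⟩ := BLo_tail (A := A) (by linarith)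
  have h1 : ‖∫ t in S, FLo Y μ j₀ w i1 i t * L t‖ ≤
      ∫ t in S, 4 * C * (2 / (A ^ 2 + t ^ 2)) := by
    refine norm_integral_le_of_norm_le (t1.const_mul _).integrableOn ?_
    refine (ae_restrict_iff' hS).2 (Filter.Eventually.of_forall fun t ht => ?_)
    have ht2 := hSA t ht
    have h3 := BLo_decay hw hw1 hi H (hA.trans ht2)
    have h4 : A ^ 2 ≤ t ^ 2 := by
      rw [← sq_abs t]
      exact pow_le_pow_left₀ (by linarith) ht2 2
    have h5 : 0 < A ^ 2 := by positivity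
    rw [norm_mul]
    calc ‖FLo Y μ j₀ w i1 i t‖ * ‖L t‖ ≤ (4 * C / t ^ 2) * 1 :=
          mul_le_mul h3 (hL t) (norm_nonneg _) (by positivity)
      _ = 4 * C * (2 / (2 * t ^ 2)) := by
        have : t ^ 2 ≠ 0 := by linarith
        field_simp
      _ ≤ 4 * C * (2 / (A ^ 2 + t ^ 2)) := by
        refine mul_le_mul_of_nonneg_left ?_ (by positivity)
        exact div_le_div_of_nonneg_left (by norm_num) (by linarith) (by linarith)
  have h2 : ∫ t in S, 4 * C * (2 / (A ^ 2 + t ^ 2)) ≤ ∫ t : ℝ, 4 * C * (2 / (A ^ 2 + t ^ 2)) :=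
    setIntegral_le_integral (t1.const_mul _) (Filter.Eventually.of_forall fun t => by
      show (0 : ℝ) ≤ 4 * C * (2 / (A ^ 2 + t ^ 2))
      positivity)
  have h3 : ∫ t : ℝ, 4 * C * (2 / (A ^ 2 + t ^ 2)) = 4 * C * (2 * Real.pi / A) := by
    rw [integral_const_mul, t2]
  rw [h3] at h2
  refine h1.trans (h2.trans (le_of_eq ?_))
  ring

/-- **The low part in physical space.**

Proof. By Fubini `(1 / 2 π) ∫ FLo t e ^ (i t y) dt = locf Y y * (1 / 2 π) ∫ QLo s e ^ (i s y) ds = locf Y y * ql y` (`tent_inv`, `kk_four`), so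
`(1 / 2 π) ∫ FLo t Lt x t dt = ∫_{-1}^1 (1 - |θ|) (locf Y * ql) (log (x + θ)) dθ`, which is `(locf Y * ql) (log x) + O (1 / x)`. For
`|t| > Y ^ c`: `|FLo t| ≤ C / t ^ 2` (`|osc (locf Y) v| ≤ 2 / v ^ 2`, and `QLo` lives on `|s| ≤ w ≤ 1`), so the integral over the complement of
the bad set is `≤ C Y ^ (- c)`. -/
theorem low_part (μ j₀ : ℕ) (hμ : 8 ≤ μ) (hj : 2 ≤ j₀) (hj' : j₀ ≤ μ) (c K' : ℝ) (hc : 0 < c) (hc1 : c ≤ 1 / 100)
    (hK : 1 ≤ K') : ∃ Y₀ : ℝ, 3 ≤ Y₀ ∧ ∀ (Y : ℝ) (i1 i : CC) (x : ℕ), Y₀ ≤ Y → (i = i0 ∨ i = i1) →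
      Y ^ 2 / 4 ≤ x → (x : ℝ) ≤ 2 * Y ^ 2 →
        ‖(1 / (2 * Real.pi) : ℂ) * (∫ t in Bad Y μ j₀ c i, FLo Y μ j₀ (K' / Real.log Y) i1 i t * Lt x t) -
          (locf Y (Real.log x) : ℂ) * ql Y μ j₀ (K' / Real.log Y) i (Real.log x)‖ ≤ Y ^ (-(c / 2)) := by
  obtain ⟨C, Y₁, hC, hY₁, H⟩ := ql_props μ j₀ hμ hj hj'
  obtain ⟨C', Y₂, hC', hY₂, H'⟩ := QX_le μ j₀ hμ hj hj'
  refine ⟨max (max Y₁ Y₂) (max (Real.exp K') (max ((2 : ℝ) ^ (1 / c))
    ((32 * C + 4 * C') ^ (2 / c)))), ?_, ?_⟩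
  · exact hY₁.trans ((le_max_left _ _).trans (le_max_left _ _))
  intro Y i1 i x hY hi hx1 hx2
  have hYa : Y₁ ≤ Y := ((le_max_left _ _).trans (le_max_left _ _)).trans hY
  have hYb : Y₂ ≤ Y := ((le_max_right _ _).trans (le_max_left _ _)).trans hY
  have hYc : Real.exp K' ≤ Y := ((le_max_left _ _).trans (le_max_right _ _)).trans hY
  have hYd : (2 : ℝ) ^ (1 / c) ≤ Y :=
    (((le_max_left _ _).trans (le_max_right _ _)).trans (le_max_right _ _)).trans hY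
  have hYe : (32 * C + 4 * C') ^ (2 / c) ≤ Y :=
    (((le_max_right _ _).trans (le_max_right _ _)).trans (le_max_right _ _)).trans hY
  have hY3 : 3 ≤ Y := hY₁.trans hYa
  have hY0 : 0 < Y := by linarith
  have hlog : K' ≤ Real.log Y := (Real.le_log_iff_exp_le hY0).2 hYc
  have hlog0 : 0 < Real.log Y := by linarith
  set w : ℝ := K' / Real.log Y with hw
  have hw0 : 0 < w := div_pos (by linarith) hlog0
  have hw1 : w ≤ 1 := (div_le_one hlog0).2 hlog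
  have hx4 : (2 : ℝ) ≤ x := by nlinarith
  have hA2 : 2 ≤ Y ^ c := by
    have h1 := Real.rpow_le_rpow (by positivity) hYd hc.le
    rw [← Real.rpow_mul (by norm_num), one_div, inv_mul_cancel₀ hc.ne', Real.rpow_one] at h1
    exact h1
  have hA0 : 0 < Y ^ c := by linarith
  have hE : 32 * C + 4 * C' ≤ Y ^ (c / 2) := by
    have h1 := Real.rpow_le_rpow (by positivity) hYe (half_pos hc).le
    rw [← Real.rpow_mul (by linarith)] at h1
    have h2 : 2 / c * (c / 2) = 1 := by field_simp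
    rwa [h2, Real.rpow_one] at h1
  obtain ⟨b1, b2, b3⟩ := Bad_meas Y μ j₀ c i hY3 hc
  have hLc := (LtMt_cont x hx4).1
  have hL1 : ∀ t, ‖Lt x t‖ ≤ 1 := fun t => (LtMt x t hx4).1
  have hFL : Integrable (fun t => FLo Y μ j₀ w i1 i t * Lt x t) := by
    have hF := BLo_FLo_int (Y := Y) (μ := μ) (j₀ := j₀) hw0 hi
    refine hF.mono (hF.aestronglyMeasurable.mul hLc.aestronglyMeasurable)
      (Filter.Eventually.of_forall fun t => ?_)
    rw [norm_mul]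
    exact mul_le_of_le_one_right (norm_nonneg _) (hL1 t)
  have hsplit := integral_add_compl b1 hFL
  have hloc := BLo_local (μ := μ) (j₀ := j₀) (i := i) hY3 hw0 hw1 (by linarith)
    (fun u u' => H Y w u u' i hYa hw0) hx4
  rw [← BLo_fubini hw0 hi] at hloc
  have hcomp := BLo_compl (S := (Bad Y μ j₀ c i)ᶜ) (L := Lt x) hw0 hw1 hi
    (fun t => (H' Y i t hYb).1) hA2 b1.compl (fun t ht => by
      by_contra hc2
      rw [not_le, abs_lt] at hc2
      exact ht (b3 ⟨hc2.1.le, hc2.2.le⟩)) hL1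
  have hpi : ‖(1 / (2 * Real.pi) : ℂ)‖ = 1 / (2 * Real.pi) := by
    have h11 : (1 / (2 * Real.pi) : ℂ) = ((1 / (2 * Real.pi) : ℝ) : ℂ) := by push_cast; ring
    rw [h11, Complex.norm_real, Real.norm_of_nonneg (by positivity)]
  have e1 : (1 / (2 * Real.pi) : ℂ) * (∫ t in Bad Y μ j₀ c i, FLo Y μ j₀ w i1 i t * Lt x t) -
      (locf Y (Real.log x) : ℂ) * ql Y μ j₀ w i (Real.log x) =
      ((1 / (2 * Real.pi) : ℂ) * (∫ t : ℝ, FLo Y μ j₀ w i1 i t * Lt x t) -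
        (locf Y (Real.log x) : ℂ) * ql Y μ j₀ w i (Real.log x)) -
      (1 / (2 * Real.pi) : ℂ) * (∫ t in (Bad Y μ j₀ c i)ᶜ, FLo Y μ j₀ w i1 i t * Lt x t) := by
    rw [← hsplit]
    ring
  rw [e1]
  refine (norm_sub_le _ _).trans ?_
  rw [norm_mul, hpi]
  have h5 : 1 / (2 * Real.pi) * ‖∫ t in (Bad Y μ j₀ c i)ᶜ, FLo Y μ j₀ w i1 i t * Lt x t‖ ≤
      4 * C' / Y ^ c := by
    refine (mul_le_mul_of_nonneg_left hcomp (by positivity)).trans (le_of_eq ?_)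
    have := Real.pi_pos
    field_simp
    ring
  have h6 : 8 * C / x ≤ 32 * C / Y ^ c := by
    have h7 : Y ^ c ≤ Y ^ 2 := by
      rw [← Real.rpow_natCast]
      refine Real.rpow_le_rpow_of_exponent_le (by linarith) ?_
      push_cast
      linarith
    rw [div_le_div_iff₀ (by linarith) hA0]
    have h8 : Y ^ c ≤ 4 * x := by linarith
    have h9 := mul_le_mul_of_nonneg_left h8 (by linarith : (0 : ℝ) ≤ 8 * C)
    linarith
  have h7 : (32 * C + 4 * C') / Y ^ c ≤ Y ^ (-(c / 2)) := by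
    rw [div_le_iff₀ hA0, ← Real.rpow_add hY0]
    have h8 : -(c / 2) + c = c / 2 := by ring
    rwa [h8]
  have h8 : 32 * C / Y ^ c + 4 * C' / Y ^ c = (32 * C + 4 * C') / Y ^ c := by ring
  linarith

end Pool.Agent.M58
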