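import Pool.Agent.W_b58c63_m1.BDef

/-!
# The measure of the bad sets (helper68)
-/

set_option autoImplicit false

noncomputable section

open Finset MeasureTheory Complex

namespace Pool.Agent.M58

/-- The neighbourhood of a set of large values of a Lipschitz function.

Proof. Let `A = {t ∈ [-T, T] : λ < |P t|}`. Every point `a ∈ A` has the interval `[a - λ / (2 Λ), a + λ / (2 Λ)]` inside of
`A' = {t ∈ [-T - 1, T + 1] : λ / 2 < |P t|}` (`λ ≤ 2 Λ`). Choose a maximal `λ / Λ`-separated subset of `A`: it has at most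
`vol (A') Λ / λ` points, and the neighbourhood is covered by intervals of length `2 V + 2 λ / Λ` around them. (Or: cut the line
into cells of length `λ / (2 Λ)`.) -/
theorem nbhd_meas (P : ℝ → ℂ) (T V lam Λ : ℝ) (hP : ∀ s t, ‖P s - P t‖ ≤ Λ * |s - t|) (hl : 0 < lam) (hΛ : lam ≤ 2 * Λ)
    (hV : 0 ≤ V) (hT : 0 ≤ T) :
    (volume {t : ℝ | ∃ v : ℝ, |v| ≤ V ∧ |t - v| ≤ T ∧ lam < ‖P (t - v)‖}).toReal ≤
      (4 * Λ / lam * (volume {t : ℝ | |t| ≤ T + 1 ∧ lam / 2 < ‖P t‖}).toReal + 1) * (2 * V + 2) := by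
  classical
  have hΛ0 : 0 < Λ := by linarith
  obtain ⟨l, hl'⟩ : ∃ l : ℝ, l = lam / (2 * Λ) := ⟨_, rfl⟩
  have hl0 : 0 < l := by rw [hl']; positivity
  have hl1 : l ≤ 1 := by
    rw [hl', div_le_one (by positivity)]
    exact hΛ
  have hlΛ : Λ * l = lam / 2 := by
    rw [hl']
    field_simp
  obtain ⟨B, hB⟩ : ∃ B : ℤ, B = ⌈T / l⌉ + 1 := ⟨_, rfl⟩
  have hBT : T / l ≤ B - 1 := by
    rw [hB]
    push_cast
    have := Int.le_ceil (T / l)
    linarith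
  obtain ⟨A', hA'⟩ : ∃ A' : Set ℝ, A' = {t : ℝ | |t| ≤ T + 1 ∧ lam / 2 < ‖P t‖} := ⟨_, rfl⟩
  obtain ⟨M, hM⟩ : ∃ M : Finset ℤ, M = (Finset.Icc (-B) B).filter fun m : ℤ =>
      ∃ a : ℝ, (m : ℝ) * l ≤ a ∧ a < (m + 1) * l ∧ |a| ≤ T ∧ lam < ‖P a‖ := ⟨_, rfl⟩
  -- the cells are inside of `A'`
  have h1 : ∀ m ∈ M, Set.Ico ((m : ℝ) * l) ((m + 1) * l) ⊆ A' := by
    intro m hm s hs
    rw [hM, Finset.mem_filter] at hm
    obtain ⟨-, a, ha1, ha2, ha3, ha4⟩ := hm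
    have hsa : |a - s| ≤ l := by
      rw [abs_le]
      constructor <;> nlinarith [hs.1, hs.2]
    rw [hA']
    refine ⟨?_, ?_⟩
    · have h2 : |s| ≤ |a| + |a - s| := by
        have h3 : s = a - (a - s) := by ring
        calc |s| = |a - (a - s)| := by rw [← h3]
          _ ≤ |a| + |a - s| := abs_sub a (a - s)
      linarith
    · have h2 := hP a s
      have h3 : Λ * |a - s| ≤ lam / 2 := by
        rw [← hlΛ]
        exact mul_le_mul_of_nonneg_left hsa hΛ0.le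
      have h4 : ‖P a‖ - ‖P s‖ ≤ ‖P a - P s‖ := norm_sub_norm_le _ _
      linarith
  have hfin : volume A' ≠ ⊤ := by
    refine ne_top_of_le_ne_top ?_ (measure_mono (show A' ⊆ Set.Icc (-(T + 1)) (T + 1) from ?_))
    · rw [Real.volume_Icc]
      exact ENNReal.ofReal_ne_top
    · intro t ht
      rw [hA'] at ht
      exact abs_le.1 ht.1
  have h2 : (M.card : ℝ) * l ≤ (volume A').toReal := by
    have h3 : volume (⋃ m ∈ M, Set.Ico ((m : ℝ) * l) ((m + 1) * l)) =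
        ∑ m ∈ M, volume (Set.Ico ((m : ℝ) * l) ((m + 1) * l)) := by
      refine measure_biUnion_finset ?_ fun m _ => measurableSet_Ico
      intro m _ m' _ hne
      refine Set.disjoint_left.2 fun s hs hs' => hne ?_
      have h4 : (m : ℝ) < m' + 1 := by
        have := hs.1.trans_lt hs'.2
        exact lt_of_mul_lt_mul_right this hl0.le
      have h5 : (m' : ℝ) < m + 1 := by
        have := hs'.1.trans_lt hs.2
        exact lt_of_mul_lt_mul_right this hl0.le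
      have h6 : m < m' + 1 := by exact_mod_cast h4
      have h7 : m' < m + 1 := by exact_mod_cast h5
      omega
    have h4 : volume (⋃ m ∈ M, Set.Ico ((m : ℝ) * l) ((m + 1) * l)) ≤ volume A' :=
      measure_mono (Set.iUnion₂_subset h1)
    have h5 : ∀ m ∈ M, volume (Set.Ico ((m : ℝ) * l) ((m + 1) * l)) = ENNReal.ofReal l := by
      intro m _
      rw [Real.volume_Ico]
      congr 1
      ring
    rw [h3, Finset.sum_congr rfl h5, Finset.sum_const, nsmul_eq_mul] at h4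
    have h6 := ENNReal.toReal_mono hfin h4
    rwa [ENNReal.toReal_mul, ENNReal.toReal_natCast, ENNReal.toReal_ofReal hl0.le] at h6
  -- the cover
  have h3 : {t : ℝ | ∃ v : ℝ, |v| ≤ V ∧ |t - v| ≤ T ∧ lam < ‖P (t - v)‖} ⊆
      ⋃ m ∈ M, Set.Icc ((m : ℝ) * l - V) ((m + 1) * l + V) := by
    rintro t ⟨v, hv1, hv2, hv3⟩
    obtain ⟨m, hm⟩ : ∃ m : ℤ, m = ⌊(t - v) / l⌋ := ⟨_, rfl⟩
    have hm1 : (m : ℝ) * l ≤ t - v := by
      rw [← le_div_iff₀ hl0, hm]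
      exact Int.floor_le _
    have hm2 : t - v < (m + 1) * l := by
      rw [← div_lt_iff₀ hl0, hm]
      exact Int.lt_floor_add_one _
    have hTl : T ≤ (B - 1) * l := by rwa [div_le_iff₀ hl0] at hBT
    rw [abs_le] at hv2
    have hmB : m ∈ Finset.Icc (-B) B := by
      rw [Finset.mem_Icc]
      constructor
      · have h4 : (-(B : ℝ)) * l ≤ (m + 1) * l - l := by nlinarith [hv2.1]
        have h5 : (-(B : ℝ)) * l ≤ m * l := by linarith
        have h6 : -(B : ℝ) ≤ m := le_of_mul_le_mul_right h5 hl0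
        exact_mod_cast h6
      · have h4 : (m : ℝ) * l ≤ B * l := by nlinarith [hv2.2]
        have h6 : (m : ℝ) ≤ B := le_of_mul_le_mul_right h4 hl0
        exact_mod_cast h6
    have hmM : m ∈ M := by
      rw [hM, Finset.mem_filter]
      exact ⟨hmB, t - v, hm1, hm2, abs_le.2 hv2, hv3⟩
    rw [abs_le] at hv1
    refine Set.mem_iUnion₂.2 ⟨m, hmM, ?_, ?_⟩
    · linarith
    · linarith
  have h4 : volume {t : ℝ | ∃ v : ℝ, |v| ≤ V ∧ |t - v| ≤ T ∧ lam < ‖P (t - v)‖} ≤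
      M.card * ENNReal.ofReal (2 * V + l) := by
    refine (measure_mono h3).trans ((measure_biUnion_finset_le M _).trans ?_)
    have h5 : ∀ m ∈ M, volume (Set.Icc ((m : ℝ) * l - V) ((m + 1) * l + V)) =
        ENNReal.ofReal (2 * V + l) := by
      intro m _
      rw [Real.volume_Icc]
      congr 1
      ring
    rw [Finset.sum_congr rfl h5, Finset.sum_const, nsmul_eq_mul]
  have h5 := ENNReal.toReal_mono (ENNReal.mul_ne_top (ENNReal.natCast_ne_top _)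
    ENNReal.ofReal_ne_top) h4
  rw [ENNReal.toReal_mul, ENNReal.toReal_natCast,
    ENNReal.toReal_ofReal (by positivity)] at h5
  have h6 : (M.card : ℝ) ≤ 2 * Λ / lam * (volume A').toReal := by
    have h7 : (M.card : ℝ) = 2 * Λ / lam * (M.card * l) := by
      rw [hl']
      field_simp
    rw [h7]
    exact mul_le_mul_of_nonneg_left h2 (by positivity)
  have h7 : 0 ≤ (volume A').toReal := ENNReal.toReal_nonneg
  rw [← hA']
  refine h5.trans ?_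
  have h8 : 2 * Λ / lam * (volume A').toReal ≤ 4 * Λ / lam * (volume A').toReal + 1 := by
    have h9 : 4 * Λ / lam * (volume A').toReal = 2 * (2 * Λ / lam * (volume A').toReal) := by ring
    have h10 : 0 ≤ 2 * Λ / lam * (volume A').toReal := by positivity
    linarith
  exact mul_le_mul (h6.trans h8) (by linarith) (by positivity) (by positivity)

/-- The dyadic pieces. -/
theorem BMea_pd (Y : ℝ) (μ j₀ j k : ℕ) (hY : 3 ≤ Y) (hμ : 8 ≤ μ) (hj : j₀ ≤ j) :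
    (∀ n, 0 ≤ pd Y μ j k n ∧ pd Y μ j k n ≤ 1) ∧
    (∀ n, pd Y μ j k n ≠ 0 → n.Prime ∧ Y ^ (((j₀ : ℝ) - 1) / (4 * μ)) ≤ n ∧ (n : ℝ) ≤ Y ∧
      2 ^ k ≤ n ∧ n < 2 ^ (k + 1)) := by
  obtain ⟨g1, -, g3⟩ := Gt_props Y (4 * μ) j hY (by omega)
  have hp : ∀ n, 0 ≤ pb Y (4 * μ) j n ∧ pb Y (4 * μ) j n ≤ 1 := by
    intro n
    unfold pb pw
    split_ifs
    · exact g1 _
    · exact ⟨le_rfl, zero_le_one⟩
  constructor
  · intro n
    unfold pd pbY
    split_ifs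
    · exact hp n
    · exact ⟨le_rfl, zero_le_one⟩
    · exact ⟨le_rfl, zero_le_one⟩
  · intro n hn
    unfold pd pbY at hn
    split_ifs at hn with h1 h2
    · unfold pb pw at hn
      split_ifs at hn with h3
      · refine ⟨h3, ?_, h2, h1.1, h1.2⟩
        have h4 := (g3 _ hn).1
        have hn0 : (0 : ℝ) < n := by exact_mod_cast h3.pos
        have hY0 : 0 < Y := by linarith
        have hL : 0 < Real.log Y := Real.log_pos (by linarith)
        rw [← Real.log_le_log_iff (Real.rpow_pos_of_pos hY0 _) hn0, Real.log_rpow hY0]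
        refine le_trans (mul_le_mul_of_nonneg_right ?_ hL.le) h4.le
        have h5 : (j₀ : ℝ) ≤ j := by exact_mod_cast hj
        push_cast
        exact div_le_div_of_nonneg_right (by linarith) (by positivity)
      · exact absurd rfl hn
    · exact absurd rfl hn
    · exact absurd rfl hn

theorem BMea_sum (Y : ℝ) (μ j k N : ℕ) (h : ∀ n, 0 ≤ pd Y μ j k n ∧ pd Y μ j k n ≤ 1) :
    ∑ n ∈ Icc 1 N, pd Y μ j k n / n ≤ 1 := by
  classical
  have h1 : ∀ n ∈ Icc 1 N, pd Y μ j k n / n ≤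
      if n ∈ Finset.Ico (2 ^ k) (2 ^ (k + 1)) then 1 / (2 : ℝ) ^ k else 0 := by
    intro n hn
    rw [Finset.mem_Icc] at hn
    split_ifs with h2
    · rw [Finset.mem_Ico] at h2
      have h3 : (2 : ℝ) ^ k ≤ n := by exact_mod_cast h2.1
      exact div_le_div₀ zero_le_one (h n).2 (by positivity) h3
    · rw [Finset.mem_Ico] at h2
      have h3 : pd Y μ j k n = 0 := by
        unfold pd
        exact if_neg h2
      rw [h3, zero_div]
  refine (Finset.sum_le_sum h1).trans ?_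
  rw [← Finset.sum_filter, Finset.sum_const, nsmul_eq_mul]
  have h2 : ((Icc 1 N).filter fun n => n ∈ Finset.Ico (2 ^ k) (2 ^ (k + 1))).card ≤ 2 ^ k := by
    have h3 : (Finset.Ico (2 ^ k) (2 ^ (k + 1))).card = 2 ^ k := by
      rw [Nat.card_Ico, pow_succ]
      omega
    refine le_trans (Finset.card_le_card fun n hn => ?_) (le_of_eq h3)
    exact (Finset.mem_filter.1 hn).2
  have h3 : ((((Icc 1 N).filter fun n => n ∈ Finset.Ico (2 ^ k) (2 ^ (k + 1))).card : ℕ) : ℝ) ≤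
      2 ^ k := by exact_mod_cast h2
  calc ((((Icc 1 N).filter fun n => n ∈ Finset.Ico (2 ^ k) (2 ^ (k + 1))).card : ℕ) : ℝ) *
        (1 / (2 : ℝ) ^ k) ≤ 2 ^ k * (1 / (2 : ℝ) ^ k) :=
        mul_le_mul_of_nonneg_right h3 (by positivity)
    _ = 1 := by
        field_simp

theorem BMea_NN (Y : ℝ) (hY : 3 ≤ Y) : 1 ≤ NN Y ∧ Y ≤ NN Y ∧ Real.log (NN Y) ≤ 7 * Real.log Y := by
  unfold NN
  have h1 : Y ^ 6 ≤ (⌈Y ^ 6⌉₊ : ℝ) := Nat.le_ceil _
  have h2 : (1 : ℝ) ≤ Y ^ 6 := one_le_pow₀ (by linarith)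
  have h3 : Y ≤ Y ^ 6 := le_self_pow₀ (by linarith) (by norm_num)
  have h4 : (⌈Y ^ 6⌉₊ : ℝ) < Y ^ 6 + 1 := Nat.ceil_lt_add_one (by positivity)
  refine ⟨?_, h3.trans h1, ?_⟩
  · have : (1 : ℝ) ≤ (⌈Y ^ 6⌉₊ : ℝ) := h2.trans h1
    exact_mod_cast this
  · have h5 : (⌈Y ^ 6⌉₊ : ℝ) ≤ Y ^ 7 := by
      have h6 : Y ^ 7 = Y ^ 6 * Y := by ring
      rw [h6]
      nlinarith
    have h6 := Real.log_le_log (by linarith) h5
    rw [Real.log_pow] at h6
    exact_mod_cast h6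

/-- One dyadic piece. -/
theorem BMea_one (μ j₀ : ℕ) (hμ : 8 ≤ μ) (hj₀ : 2 ≤ j₀) : ∃ C : ℝ, 1 ≤ C ∧
    ∀ (Y c : ℝ) (i : CC) (j k : ℕ), 36 ≤ Y → 0 < c → c ≤ 1 / 100 → j₀ ≤ j →
      (volume {t : ℝ | |t| ≤ Y ^ (1 + c) ∧ ∃ v : ℝ, |v| ≤ Y ^ c ∧
        Y ^ (-(2 * c)) < ‖DP (NN Y) (pd Y μ j k) i.2 (t - v)‖}).toReal ≤
      C * Real.log Y ^ 3 * Y ^ ((32 * μ + 3) * c) := by
  obtain ⟨C, hC, hlv⟩ := large_values (8 * μ) (by omega)
  refine ⟨4 * (1792 * C * 4 ^ (8 * μ) + 1), ?_, ?_⟩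
  · have : 0 ≤ 1792 * C * 4 ^ (8 * μ) := by positivity
    linarith
  intro Y c i j k hY hc hc1 hj
  have hY0 : 0 < Y := by linarith
  have hY3 : 3 ≤ Y := by linarith
  obtain ⟨d1, d2⟩ := BMea_pd Y μ j₀ j k hY3 hμ hj
  obtain ⟨n1, n2, n3⟩ := BMea_NN Y hY3
  have d3 := BMea_sum Y μ j k (NN Y) d1
  have hL : 1 ≤ Real.log Y := by
    rw [Real.le_log_iff_exp_le hY0]
    have := Real.exp_one_lt_d9
    linarith
  obtain ⟨L, hL'⟩ : ∃ L : ℝ, L = Real.log Y := ⟨_, rfl⟩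
  rw [← hL'] at hL n3 ⊢
  obtain ⟨y, hy⟩ : ∃ y : ℝ, y = Y ^ c := ⟨_, rfl⟩
  have hy1 : 1 ≤ y := by rw [hy]; exact Real.one_le_rpow (by linarith) hc.le
  obtain ⟨lam, hlam⟩ : ∃ lam : ℝ, lam = Y ^ (-(2 * c)) := ⟨_, rfl⟩
  have hlam0 : 0 < lam := by rw [hlam]; exact Real.rpow_pos_of_pos hY0 _
  have hlam1 : lam ≤ 1 := by
    rw [hlam]
    exact Real.rpow_le_one_of_one_le_of_nonpos (by linarith) (by linarith)
  obtain ⟨T, hT⟩ : ∃ T : ℝ, T = Y ^ (1 + c) := ⟨_, rfl⟩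
  have hT0 : 0 < T := by rw [hT]; exact Real.rpow_pos_of_pos hY0 _
  have hTy : T = Y * y := by rw [hT, hy, Real.rpow_add hY0, Real.rpow_one]
  have hyT : y ≤ T := by rw [hTy]; nlinarith
  have hT1 : 1 ≤ T := hy1.trans hyT
  have hLip : ∀ s t : ℝ, ‖DP (NN Y) (pd Y μ j k) i.2 s - DP (NN Y) (pd Y μ j k) i.2 t‖ ≤
      7 * L * |s - t| := by
    intro s t
    refine (DP_lip (NN Y) (pd Y μ j k) i.2 s t n1).trans ?_
    refine mul_le_mul_of_nonneg_right ?_ (abs_nonneg _)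
    have e1 : ∑ n ∈ Icc 1 (NN Y), |pd Y μ j k n| / n = ∑ n ∈ Icc 1 (NN Y), pd Y μ j k n / n := by
      refine Finset.sum_congr rfl fun n _ => ?_
      rw [abs_of_nonneg (d1 n).1]
    rw [e1]
    have e2 : 0 ≤ Real.log (NN Y) := Real.log_nonneg (by exact_mod_cast n1)
    nlinarith
  have hn := nbhd_meas (DP (NN Y) (pd Y μ j k) i.2) (2 * T) y lam (7 * L) hLip hlam0
    (by linarith) (by linarith) (by linarith)
  have hK : 2 * (2 * T + 1) ≤ (Y ^ (((j₀ : ℝ) - 1) / (4 * μ))) ^ (8 * μ) := by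
    have hμ0 : (0 : ℝ) < μ := by
      have : 0 < μ := by omega
      exact_mod_cast this
    have e1 : (Y ^ (((j₀ : ℝ) - 1) / (4 * μ))) ^ (8 * μ) = Y ^ (2 * ((j₀ : ℝ) - 1)) := by
      rw [← Real.rpow_natCast, ← Real.rpow_mul hY0.le]
      congr 1
      push_cast
      field_simp
      ring
    have e2 : Y ^ (2 : ℝ) ≤ Y ^ (2 * ((j₀ : ℝ) - 1)) := by
      refine Real.rpow_le_rpow_of_exponent_le (by linarith) ?_
      have : (2 : ℝ) ≤ j₀ := by exact_mod_cast hj₀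
      linarith
    rw [e1]
    refine le_trans ?_ e2
    have e3 : T ≤ Y ^ (3 / 2 : ℝ) := by
      rw [hT]
      exact Real.rpow_le_rpow_of_exponent_le (by linarith) (by linarith)
    have e4 : Y ^ (2 : ℝ) = Y ^ (3 / 2 : ℝ) * Y ^ (1 / 2 : ℝ) := by
      rw [← Real.rpow_add hY0]
      norm_num
    have e5 : 6 ≤ Y ^ (1 / 2 : ℝ) := by
      rw [← Real.sqrt_eq_rpow]
      exact Real.le_sqrt_of_sq_le (by norm_num; exact hY)
    have e6 : 0 < Y ^ (3 / 2 : ℝ) := Real.rpow_pos_of_pos hY0 _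
    rw [e4]
    have e7 : 2 * (2 * T + 1) ≤ Y ^ (3 / 2 : ℝ) * 6 := by linarith
    exact e7.trans (mul_le_mul_of_nonneg_left e5 e6.le)
  have hA0 : 1 ≤ Y ^ (((j₀ : ℝ) - 1) / (4 * μ)) := by
    refine Real.one_le_rpow (by linarith) (div_nonneg ?_ (by positivity))
    have : (2 : ℝ) ≤ j₀ := by exact_mod_cast hj₀
    linarith
  have hl := hlv (NN Y) i.1 (pd Y μ j k) i.2 (-(2 * T + 1)) (2 * (2 * T + 1))
    (Y ^ (((j₀ : ℝ) - 1) / (4 * μ))) 1 (lam / 2) n1 (by linarith) hA0 le_rfl (by linarith)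
    (fun n hn => by
      obtain ⟨f1, f2, f3, -, -⟩ := d2 n hn
      refine ⟨f1, f2, ?_⟩
      have : (n : ℝ) ≤ NN Y := f3.trans n2
      exact_mod_cast this) d1 d3 hK
  have hset : {t : ℝ | -(2 * T + 1) ≤ t ∧ t ≤ -(2 * T + 1) + 2 * (2 * T + 1) ∧
      lam / 2 < ‖DP (NN Y) (pd Y μ j k) i.2 t‖} =
      {t : ℝ | |t| ≤ 2 * T + 1 ∧ lam / 2 < ‖DP (NN Y) (pd Y μ j k) i.2 t‖} := by
    ext t
    simp only [Set.mem_ofPred_eq, abs_le]
    constructor
    · rintro ⟨a1, a2, a3⟩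
      exact ⟨⟨a1, by linarith⟩, a3⟩
    · rintro ⟨⟨a1, a2⟩, a3⟩
      exact ⟨a1, by linarith, a3⟩
  rw [hset] at hl
  have hyl : lam = 1 / y ^ 2 := by
    rw [hlam, hy, ← Real.rpow_natCast, ← Real.rpow_mul hY0.le, Real.rpow_neg hY0.le,
      inv_eq_one_div]
    congr 2
    push_cast
    ring
  have hl2 : C * (1 + Real.log (NN Y)) ^ 2 * 1 ^ (8 * μ) / (lam / 2) ^ (2 * (8 * μ)) ≤
      C * (64 * L ^ 2) * (4 ^ (8 * μ) * y ^ (32 * μ)) := by
    have e1 : (lam / 2) ^ (2 * (8 * μ)) = 1 / (4 ^ (8 * μ) * y ^ (32 * μ)) := by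
      rw [hyl, pow_mul (1 / y ^ 2 / 2) 2 (8 * μ)]
      have : (1 / y ^ 2 / 2) ^ 2 = 1 / (4 * y ^ 4) := by
        field_simp
        norm_num
      rw [this, one_div, inv_pow, mul_pow, ← pow_mul, one_div]
      congr 3
      ring
    rw [e1, one_pow, mul_one, div_div_eq_mul_div, div_one]
    refine mul_le_mul_of_nonneg_right ?_ (by positivity)
    refine mul_le_mul_of_nonneg_left ?_ (by linarith)
    have e2 : 0 ≤ Real.log (NN Y) := Real.log_nonneg (by exact_mod_cast n1)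
    nlinarith
  have hl3 := hl.trans hl2
  have hfin : volume {t : ℝ | ∃ v : ℝ, |v| ≤ y ∧ |t - v| ≤ 2 * T ∧
      lam < ‖DP (NN Y) (pd Y μ j k) i.2 (t - v)‖} ≠ ⊤ := by
    refine ne_top_of_le_ne_top ?_ (measure_mono (t := Set.Icc (-(2 * T + y)) (2 * T + y)) ?_)
    · rw [Real.volume_Icc]
      exact ENNReal.ofReal_ne_top
    · rintro t ⟨v, v1, v2, -⟩
      rw [abs_le] at v1 v2
      constructor <;> linarith [v1.1, v1.2, v2.1, v2.2]
  have hsub : {t : ℝ | |t| ≤ T ∧ ∃ v : ℝ, |v| ≤ y ∧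
      lam < ‖DP (NN Y) (pd Y μ j k) i.2 (t - v)‖} ⊆ {t : ℝ | ∃ v : ℝ, |v| ≤ y ∧ |t - v| ≤ 2 * T ∧
      lam < ‖DP (NN Y) (pd Y μ j k) i.2 (t - v)‖} := by
    rintro t ⟨t1, v, v1, v2⟩
    refine ⟨v, v1, ?_, v2⟩
    have := abs_sub t v
    linarith
  have h6 := (ENNReal.toReal_mono hfin (measure_mono hsub)).trans hn
  have h7 : (4 * (7 * L) / lam * (volume {t : ℝ | |t| ≤ 2 * T + 1 ∧
      lam / 2 < ‖DP (NN Y) (pd Y μ j k) i.2 t‖}).toReal + 1) * (2 * y + 2) ≤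
      4 * (1792 * C * 4 ^ (8 * μ) + 1) * L ^ 3 * y ^ (32 * μ + 3) := by
    have e1 : 4 * (7 * L) / lam = 28 * L * y ^ 2 := by
      rw [hyl]
      field_simp
      norm_num
    rw [e1]
    have e2 : 28 * L * y ^ 2 * (volume {t : ℝ | |t| ≤ 2 * T + 1 ∧
        lam / 2 < ‖DP (NN Y) (pd Y μ j k) i.2 t‖}).toReal ≤
        28 * L * y ^ 2 * (C * (64 * L ^ 2) * (4 ^ (8 * μ) * y ^ (32 * μ))) :=
      mul_le_mul_of_nonneg_left hl3 (by positivity)
    have e3 : 28 * L * y ^ 2 * (C * (64 * L ^ 2) * (4 ^ (8 * μ) * y ^ (32 * μ))) =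
        1792 * C * 4 ^ (8 * μ) * (L ^ 3 * y ^ (32 * μ + 2)) := by ring
    have e4 : 1 ≤ L ^ 3 * y ^ (32 * μ + 2) := by
      have a1 : 1 ≤ L ^ 3 := one_le_pow₀ hL
      have a2 : 1 ≤ y ^ (32 * μ + 2) := one_le_pow₀ hy1
      nlinarith
    have e5 : 28 * L * y ^ 2 * (volume {t : ℝ | |t| ≤ 2 * T + 1 ∧
        lam / 2 < ‖DP (NN Y) (pd Y μ j k) i.2 t‖}).toReal + 1 ≤
        (1792 * C * 4 ^ (8 * μ) + 1) * (L ^ 3 * y ^ (32 * μ + 2)) := by
      rw [e3] at e2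
      linarith
    have e6 : 2 * y + 2 ≤ 4 * y := by linarith
    calc _ ≤ (1792 * C * 4 ^ (8 * μ) + 1) * (L ^ 3 * y ^ (32 * μ + 2)) * (4 * y) :=
          mul_le_mul e5 e6 (by linarith) (by positivity)
      _ = 4 * (1792 * C * 4 ^ (8 * μ) + 1) * L ^ 3 * y ^ (32 * μ + 3) := by ring
  rw [← hT, ← hy, ← hlam]
  refine (h6.trans h7).trans (le_of_eq ?_)
  congr 1
  rw [hy, ← Real.rpow_natCast, ← Real.rpow_mul hY0.le]
  congr 1
  push_cast
  ring

/-- One bad set. -/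
theorem BMea_bad (μ j₀ : ℕ) (hμ : 8 ≤ μ) (hj₀ : 2 ≤ j₀) : ∃ C : ℝ, 1 ≤ C ∧
    ∀ (Y c : ℝ) (i : CC), 36 ≤ Y → 0 < c → c ≤ 1 / 100 →
      (volume (Bad Y μ j₀ c i)).toReal ≤ C * Real.log Y ^ 4 * Y ^ ((32 * μ + 3) * c) := by
  obtain ⟨C, hC, h1⟩ := BMea_one μ j₀ hμ hj₀
  refine ⟨2 + 12 * μ * C, ?_, ?_⟩
  · have : 0 ≤ 12 * μ * C := by positivity
    linarith
  intro Y c i hY hc hc1
  have hY0 : 0 < Y := by linarith
  have hL : 1 ≤ Real.log Y := by
    rw [Real.le_log_iff_exp_le hY0]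
    have := Real.exp_one_lt_d9
    linarith
  obtain ⟨S, hS⟩ : ∃ S : ℕ → ℕ → Set ℝ, S = fun j k => {t : ℝ | |t| ≤ Y ^ (1 + c) ∧ ∃ v : ℝ,
      |v| ≤ Y ^ c ∧ Y ^ (-(2 * c)) < ‖DP (NN Y) (pd Y μ j k) i.2 (t - v)‖} := ⟨_, rfl⟩
  have hS1 : ∀ j k, j₀ ≤ j → volume.real (S j k) ≤ C * Real.log Y ^ 3 * Y ^ ((32 * μ + 3) * c) := by
    intro j k hj
    rw [hS]
    exact h1 Y c i j k hY hc hc1 hj
  obtain ⟨n1, n2, n3⟩ := BMea_NN Y (by linarith)
  have hsub : Bad Y μ j₀ c i ⊆ Set.Icc (-Y ^ c) (Y ^ c) ∪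
      ⋃ j ∈ Icc j₀ (4 * μ), ⋃ k ∈ range (⌊2 * Real.log Y⌋₊ + 1), S j k := by
    rintro t (ht | ⟨ht, v, hv, j, hj, k, hk⟩)
    · exact Or.inl (abs_le.1 ht)
    · refine Or.inr (Set.mem_iUnion₂.2 ⟨j, hj, Set.mem_iUnion₂.2 ⟨k, ?_, ?_⟩⟩)
      · rw [Finset.mem_range]
        by_contra hcon
        push Not at hcon
        have h2 : 2 * Real.log Y < k := by
          have h3 : (⌊2 * Real.log Y⌋₊ : ℝ) + 1 ≤ k := by exact_mod_cast hcon
          have := Nat.lt_floor_add_one (2 * Real.log Y)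
          linarith
        have h3 : pd Y μ j k = fun _ => 0 := by
          funext n
          by_contra hn
          obtain ⟨-, -, d3, d4, -⟩ := (BMea_pd Y μ j₀ j k (by linarith) hμ
            (Finset.mem_Icc.1 hj).1).2 n hn
          have h4 : (2 : ℝ) ^ k ≤ Y := le_trans (by exact_mod_cast d4) d3
          have h5 := Real.log_le_log (by positivity) h4
          rw [Real.log_pow] at h5
          have h6 := Real.log_two_gt_d9
          have h7 : (0 : ℝ) ≤ k := Nat.cast_nonneg _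
          nlinarith
        rw [h3] at hk
        have h4 : DP (NN Y) (fun _ => 0) i.2 (t - v) = 0 := by
          unfold DP
          simp
        rw [h4, norm_zero] at hk
        have h5 : 0 < Y ^ (-(2 * c)) := Real.rpow_pos_of_pos hY0 _
        linarith
      · rw [hS]
        exact ⟨ht, v, hv, hk⟩
  have hbd : ∀ j k, S j k ⊆ Set.Icc (-Y ^ (1 + c)) (Y ^ (1 + c)) := by
    intro j k t ht
    rw [hS] at ht
    exact abs_le.1 ht.1
  have hbd2 : Set.Icc (-Y ^ c) (Y ^ c) ⊆ Set.Icc (-Y ^ (1 + c)) (Y ^ (1 + c)) := by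
    have : Y ^ c ≤ Y ^ (1 + c) := Real.rpow_le_rpow_of_exponent_le (by linarith) (by linarith)
    exact Set.Icc_subset_Icc (by linarith) this
  have hfin : volume (Set.Icc (-Y ^ c) (Y ^ c) ∪
      ⋃ j ∈ Icc j₀ (4 * μ), ⋃ k ∈ range (⌊2 * Real.log Y⌋₊ + 1), S j k) ≠ ⊤ := by
    refine ne_top_of_le_ne_top ?_ (measure_mono (t := Set.Icc (-Y ^ (1 + c)) (Y ^ (1 + c))) ?_)
    · rw [Real.volume_Icc]
      exact ENNReal.ofReal_ne_top
    · exact Set.union_subset hbd2 (Set.iUnion₂_subset fun j _ => Set.iUnion₂_subset fun k _ =>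
        hbd j k)
  obtain ⟨B, hB⟩ : ∃ B : ℝ, B = C * Real.log Y ^ 3 * Y ^ ((32 * μ + 3) * c) := ⟨_, rfl⟩
  have hB0 : 0 ≤ B := by rw [hB]; positivity
  have h2 : volume.real (⋃ j ∈ Icc j₀ (4 * μ), ⋃ k ∈ range (⌊2 * Real.log Y⌋₊ + 1), S j k) ≤
      4 * μ * (3 * Real.log Y * B) := by
    have h3 : ∀ j ∈ Icc j₀ (4 * μ), volume.real (⋃ k ∈ range (⌊2 * Real.log Y⌋₊ + 1), S j k) ≤
        3 * Real.log Y * B := by
      intro j hj
      refine (measureReal_biUnion_finset_le _ _).trans ?_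
      refine (Finset.sum_le_sum fun k _ => hS1 j k (Finset.mem_Icc.1 hj).1).trans ?_
      rw [Finset.sum_const, nsmul_eq_mul, Finset.card_range, ← hB]
      refine mul_le_mul_of_nonneg_right ?_ hB0
      push_cast
      have := Nat.floor_le (show 0 ≤ 2 * Real.log Y by linarith)
      linarith
    refine (measureReal_biUnion_finset_le _ _).trans ((Finset.sum_le_sum h3).trans ?_)
    rw [Finset.sum_const, nsmul_eq_mul]
    refine mul_le_mul_of_nonneg_right ?_ (by positivity)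
    have h4 : (Icc j₀ (4 * μ)).card ≤ 4 * μ := by
      rw [Nat.card_Icc]
      omega
    exact_mod_cast h4
  have h3 : volume.real (Set.Icc (-Y ^ c) (Y ^ c)) = 2 * Y ^ c := by
    rw [Real.volume_real_Icc_of_le]
    · ring
    · have : 0 < Y ^ c := Real.rpow_pos_of_pos hY0 _
      linarith
  have h4 : (volume (Bad Y μ j₀ c i)).toReal ≤ 2 * Y ^ c + 4 * μ * (3 * Real.log Y * B) := by
    refine (ENNReal.toReal_mono hfin (measure_mono hsub)).trans ?_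
    refine (measureReal_union_le _ _).trans ?_
    rw [h3]
    linarith
  refine h4.trans ?_
  have h5 : Y ^ c ≤ Y ^ ((32 * μ + 3) * c) := by
    refine Real.rpow_le_rpow_of_exponent_le (by linarith) ?_
    have : (0 : ℝ) ≤ μ := Nat.cast_nonneg _
    nlinarith
  have h6 : Y ^ ((32 * μ + 3) * c) ≤ Real.log Y ^ 4 * Y ^ ((32 * μ + 3) * c) := by
    have h7 : 1 ≤ Real.log Y ^ 4 := one_le_pow₀ hL
    have h8 : 0 ≤ Y ^ ((32 * μ + 3) * c) := Real.rpow_nonneg hY0.le _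
    nlinarith
  have h7 : 4 * μ * (3 * Real.log Y * B) =
      12 * μ * C * (Real.log Y ^ 4 * Y ^ ((32 * μ + 3) * c)) := by
    rw [hB]
    ring
  rw [h7]
  nlinarith

/-- **The bad sets are small.**

Proof. Let `A₀ = Y ^ ((j₀ - 1) / (4 μ))` (every prime of a block is `≥ A₀`) and `k` a natural number with `k (j₀ - 1) / (4 μ) ≥ 2`, so
`3 Y ^ (1 + c) ≤ Y ^ 2 ≤ A₀ ^ k`. For each pair `(j, k')` (at most `4 μ` times `2 + 2 log Y` pairs with a nonzero polynomial)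
`large_values` with `lam = Y ^ (- 2 c) / 2`, `D = 1` bounds the measure of the large values by `C log (Y) ^ 2 2 ^ (2 k) Y ^ (4 k c)`, and
`nbhd_meas` with `V = Y ^ c`, `Λ = 10 log Y` (`DP_lip`) the measure of the neighbourhood by
`Y ^ (4 k c + 3 c)` times a power of `log Y`. There are at most `Y ^ (2 δ)` characters. Take `c₀ ≤ κ / (8 k + 8)`, `δ₀ ≤ κ / 8`. -/
theorem bad_fam (μ j₀ : ℕ) (hμ : 8 ≤ μ) (hj : 2 ≤ j₀) (hj' : j₀ ≤ μ) (κ : ℝ) (hκ : 0 < κ) :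
    ∃ c₀ : ℝ, 0 < c₀ ∧ c₀ ≤ 1 / 100 ∧ ∀ c : ℝ, 0 < c → c ≤ c₀ → ∃ δ₀ Y₀ : ℝ, 0 < δ₀ ∧ 3 ≤ Y₀ ∧
      ∀ Y δ : ℝ, Y₀ ≤ Y → 0 < δ → δ ≤ δ₀ →
        Fam ⌊Y ^ δ⌋₊ (Y ^ (1 + c)) (Y ^ κ) (Bad Y μ j₀ c) := by
  obtain ⟨C, hC, hbad⟩ := BMea_bad μ j₀ hμ hj
  refine ⟨min (1 / 100) (κ / (64 * μ + 8)), lt_min (by norm_num) (by positivity),
    min_le_left _ _, ?_⟩
  intro c hc hcc
  have hc1 : c ≤ 1 / 100 := hcc.trans (min_le_left _ _)
  have hc2 : (32 * μ + 3) * c ≤ κ / 2 := by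
    have h1 : c ≤ κ / (64 * μ + 8) := hcc.trans (min_le_right _ _)
    rw [le_div_iff₀ (by positivity)] at h1
    nlinarith
  have hev : ∀ᶠ Y : ℝ in Filter.atTop, C * Real.log Y ^ 4 ≤ Y ^ (κ / 4) := by
    have h1 := isLittleO_log_rpow_rpow_atTop (s := κ / 4) 4 (by linarith)
    have h2 := h1.def (show (0 : ℝ) < 1 / C by positivity)
    filter_upwards [h2, Filter.eventually_ge_atTop (3 : ℝ)] with Y h3 h4
    have hL : 0 < Real.log Y := Real.log_pos (by linarith)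
    have h5 : Real.log Y ^ (4 : ℝ) = Real.log Y ^ 4 := by
      rw [← Real.rpow_natCast]
      norm_num
    rw [h5, Real.norm_eq_abs, Real.norm_eq_abs, abs_of_nonneg (by positivity),
      abs_of_nonneg (Real.rpow_nonneg (by linarith) _)] at h3
    calc C * Real.log Y ^ 4 ≤ C * (1 / C * Y ^ (κ / 4)) :=
          mul_le_mul_of_nonneg_left h3 (by linarith)
      _ = Y ^ (κ / 4) := by
          field_simp
  obtain ⟨Y₁, hY₁⟩ := Filter.eventually_atTop.1 hev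
  refine ⟨κ / 8, max Y₁ 36, by linarith, le_trans (by norm_num) (le_max_right _ _), ?_⟩
  intro Y δ hY hδ hδ'
  have hY36 : 36 ≤ Y := (le_max_right _ _).trans hY
  have h1 := hY₁ Y ((le_max_left _ _).trans hY)
  have hY0 : 0 < Y := by linarith
  refine ⟨fun i _ => ?_, ?_⟩
  · obtain ⟨b1, b2, -⟩ := Bad_meas Y μ j₀ c i (by linarith) hc
    exact ⟨b1, b2⟩
  · have h2 : ∀ i ∈ CR ⌊Y ^ δ⌋₊, (volume (Bad Y μ j₀ c i)).toReal ≤ Y ^ (3 * κ / 4) := by
      intro i _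
      refine (hbad Y c i hY36 hc hc1).trans ?_
      have h3 : Y ^ ((32 * μ + 3) * c) ≤ Y ^ (κ / 2) :=
        Real.rpow_le_rpow_of_exponent_le (by linarith) hc2
      have h4 : Y ^ (3 * κ / 4) = Y ^ (κ / 4) * Y ^ (κ / 2) := by
        rw [← Real.rpow_add hY0]
        congr 1
        ring
      rw [h4]
      exact mul_le_mul h1 h3 (Real.rpow_nonneg hY0.le _) (Real.rpow_nonneg hY0.le _)
    refine (Finset.sum_le_sum h2).trans ?_
    rw [Finset.sum_const, nsmul_eq_mul]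
    have h3 : ((CR ⌊Y ^ δ⌋₊).card : ℝ) ≤ Y ^ (κ / 4) := by
      refine (card_CR_le _).trans ?_
      have h4 : (⌊Y ^ δ⌋₊ : ℝ) ≤ Y ^ (κ / 8) :=
        (Nat.floor_le (Real.rpow_nonneg hY0.le _)).trans
          (Real.rpow_le_rpow_of_exponent_le (by linarith) hδ')
      have h5 : Y ^ (κ / 4) = (Y ^ (κ / 8)) ^ 2 := by
        rw [← Real.rpow_natCast, ← Real.rpow_mul hY0.le]
        congr 1
        push_cast
        ring
      rw [h5]
      exact pow_le_pow_left₀ (Nat.cast_nonneg _) h4 2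
    have h6 : Y ^ κ = Y ^ (κ / 4) * Y ^ (3 * κ / 4) := by
      rw [← Real.rpow_add hY0]
      congr 1
      ring
    rw [h6]
    exact mul_le_mul_of_nonneg_right h3 (Real.rpow_nonneg hY0.le _)

end Pool.Agent.M58
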