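import Pool.Agent.W_b58c63_m1.BDe
import Pool.Agent.W_b58c63_m1.BLo
import Pool.Agent.W_b58c63_m1.BMea

/-!
# The decomposition of short sums of `qX χ` (helper68)
-/

set_option autoImplicit false

noncomputable section

open Finset MeasureTheory Complex

namespace Pool.Agent.M58

/-- The short sum of `fX χ` with the weight `g` at `x`. -/
def Sg (Y : ℝ) (μ j₀ : ℕ) (g : ℕ → ℝ) (S : ℕ) (i : CC) (x : ℕ) : ℂ :=
  ∑ s ∈ range (S + 1), ((g s * fX Y μ j₀ (x - s) : ℝ) : ℂ) * i.2 ((x - s : ℕ) : ZMod i.1)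

open Classical in
/-- The main part. -/
def Sm (Y : ℝ) (μ j₀ : ℕ) (w : ℝ) (i1 : CC) (g : ℕ → ℝ) (S : ℕ) (i : CC) (x : ℕ) : ℂ :=
  if i = i0 ∨ i = i1 then (locf Y (Real.log x) : ℂ) * ql Y μ j₀ w i (Real.log x) * ∑ s ∈ range (S + 1), (g s : ℂ) else 0

/-- the product of `locf` and `ql` is Lipschitz -/
theorem BDeco_lip (Y : ℝ) (hY : 3 ≤ Y) (μ j₀ : ℕ) (C w : ℝ) (hC : 1 ≤ C) (hw : 0 < w) (hw1 : w ≤ 1) (i : CC)
    (h : ∀ u u' : ℝ, ‖ql Y μ j₀ w i u‖ ≤ C * w ∧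
      ‖ql Y μ j₀ w i u - ql Y μ j₀ w i u'‖ ≤ C * w ^ 2 * |u - u'|) (u u' : ℝ) :
    ‖(locf Y u : ℂ) * ql Y μ j₀ w i u - (locf Y u' : ℂ) * ql Y μ j₀ w i u'‖ ≤ 2 * C * |u - u'| := by
  obtain ⟨h1, h2, _⟩ := locf_props Y hY
  have e : (locf Y u : ℂ) * ql Y μ j₀ w i u - (locf Y u' : ℂ) * ql Y μ j₀ w i u' =
      (locf Y u : ℂ) * (ql Y μ j₀ w i u - ql Y μ j₀ w i u') +
        ((locf Y u - locf Y u' : ℝ) : ℂ) * ql Y μ j₀ w i u' := by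
    push_cast
    ring
  have hC0 : 0 ≤ C := by linarith
  have hd : 0 ≤ |u - u'| := abs_nonneg _
  have hww : w ^ 2 ≤ 1 := by nlinarith
  rw [e]
  refine (norm_add_le _ _).trans ?_
  rw [norm_mul, norm_mul, Complex.norm_real, Complex.norm_real, Real.norm_eq_abs, Real.norm_eq_abs,
    abs_of_nonneg (h1 u).1]
  have b1 : locf Y u * ‖ql Y μ j₀ w i u - ql Y μ j₀ w i u'‖ ≤ 1 * (C * 1 * |u - u'|) := by
    apply mul_le_mul (h1 u).2 _ (norm_nonneg _) zero_le_one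
    refine (h u u').2.trans ?_
    apply mul_le_mul_of_nonneg_right _ hd
    exact mul_le_mul_of_nonneg_left hww hC0
  have b2 : |locf Y u - locf Y u'| * ‖ql Y μ j₀ w i u'‖ ≤ |u - u'| * (C * 1) := by
    apply mul_le_mul (h2 u u') _ (norm_nonneg _) hd
    refine (h u' u').1.trans ?_
    exact mul_le_mul_of_nonneg_left hw1 hC0
  linarith

theorem BDeco_log (Y : ℝ) (hY : 16 ≤ Y) (x s : ℕ) (hx : Y ^ 2 / 2 ≤ x) (hs : (s : ℝ) ≤ 4 * Y) :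
    ((x - s : ℕ) : ℝ) = (x : ℝ) - s ∧ Y ^ 2 / 4 ≤ ((x - s : ℕ) : ℝ) ∧
      |Real.log ((x - s : ℕ) : ℝ) - Real.log x| ≤ 16 / Y := by
  have hY0 : 0 < Y := by linarith
  have h1 : (s : ℝ) ≤ x := by nlinarith
  have h2 : s ≤ x := by exact_mod_cast h1
  have h3 : ((x - s : ℕ) : ℝ) = (x : ℝ) - s := by
    rw [Nat.cast_sub h2]
  have h4 : Y ^ 2 / 4 ≤ (x : ℝ) - s := by nlinarith
  refine ⟨h3, by rw [h3]; exact h4, ?_⟩
  rw [h3]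
  have hpos : 0 < (x : ℝ) - s := lt_of_lt_of_le (by positivity) h4
  have hx0 : 0 < (x : ℝ) := lt_of_lt_of_le (by positivity) hx
  have h5 : Real.log ((x : ℝ) - s) ≤ Real.log x := Real.log_le_log hpos (by
    have : (0 : ℝ) ≤ s := Nat.cast_nonneg s
    linarith)
  rw [abs_of_nonpos (by linarith), neg_sub, ← Real.log_div hx0.ne' hpos.ne']
  have h6 := Real.log_le_sub_one_of_pos (show 0 < (x : ℝ) / (x - s) by positivity)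
  refine h6.trans ?_
  have h7 : (x : ℝ) / (x - s) - 1 = s / (x - s) := by
    field_simp
    ring
  rw [h7, div_le_div_iff₀ hpos hY0]
  nlinarith

theorem BDeco_low (Y : ℝ) (hY : 16 ≤ Y) (μ j₀ : ℕ) (C w c : ℝ) (hC : 1 ≤ C) (hw : 0 < w) (hw1 : w ≤ 1)
    (_hc : 0 < c) (i1 i : CC) (hi : i = i0 ∨ i = i1)
    (h : ∀ u u' : ℝ, ‖ql Y μ j₀ w i u‖ ≤ C * w ∧
      ‖ql Y μ j₀ w i u - ql Y μ j₀ w i u'‖ ≤ C * w ^ 2 * |u - u'|)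
    (hlow : ∀ x : ℕ, Y ^ 2 / 4 ≤ x → (x : ℝ) ≤ 2 * Y ^ 2 →
      ‖(1 / (2 * Real.pi) : ℂ) * (∫ t in Bad Y μ j₀ c i, FLo Y μ j₀ w i1 i t * Lt x t) -
          (locf Y (Real.log x) : ℂ) * ql Y μ j₀ w i (Real.log x)‖ ≤ Y ^ (-(c / 2)))
    (hYC : 32 * C / Y ≤ Y ^ (-(c / 2)))
    (g : ℕ → ℝ) (S : ℕ) (G0 : ℝ) (hS : (S : ℝ) ≤ 4 * Y) (hg : ∑ s ∈ range (S + 1), |g s| ≤ G0)
    (x : ℕ) (hx1 : Y ^ 2 / 2 ≤ x) (hx2 : (x : ℝ) ≤ 2 * Y ^ 2)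
    (hint : ∀ y : ℕ, 2 ≤ y → IntegrableOn (fun t => FLo Y μ j₀ w i1 i t * Lt y t) (Bad Y μ j₀ c i)) :
    ‖(1 / (2 * Real.pi) : ℂ) * (∫ t in Bad Y μ j₀ c i,
        FLo Y μ j₀ w i1 i t * ∑ s ∈ range (S + 1), (g s : ℂ) * Lt ((x - s : ℕ) : ℝ) t) -
      Sm Y μ j₀ w i1 g S i x‖ ≤ G0 * (2 * Y ^ (-(c / 2))) := by
  have hY0 : 0 < Y := by linarith
  have hsS : ∀ s ∈ range (S + 1), (s : ℝ) ≤ 4 * Y := by
    intro s hs
    rw [Finset.mem_range] at hs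
    have : (s : ℝ) ≤ S := by exact_mod_cast Nat.lt_succ_iff.mp hs
    linarith
  have e1 : (∫ t in Bad Y μ j₀ c i,
        FLo Y μ j₀ w i1 i t * ∑ s ∈ range (S + 1), (g s : ℂ) * Lt ((x - s : ℕ) : ℝ) t) =
      ∑ s ∈ range (S + 1), (g s : ℂ) * ∫ t in Bad Y μ j₀ c i, FLo Y μ j₀ w i1 i t * Lt ((x - s : ℕ) : ℝ) t := by
    have e2 : (fun t => FLo Y μ j₀ w i1 i t * ∑ s ∈ range (S + 1), (g s : ℂ) * Lt ((x - s : ℕ) : ℝ) t) =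
        fun t => ∑ s ∈ range (S + 1), (g s : ℂ) * (FLo Y μ j₀ w i1 i t * Lt ((x - s : ℕ) : ℝ) t) := by
      funext t
      rw [Finset.mul_sum]
      refine Finset.sum_congr rfl fun s _ => ?_
      ring
    rw [e2, integral_finsetSum]
    · refine Finset.sum_congr rfl fun s _ => ?_
      exact integral_const_mul _ _
    · intro s hs
      apply Integrable.const_mul
      apply hint
      have h3 := (BDeco_log Y hY x s hx1 (hsS s hs)).2.1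
      have h4 : (2 : ℝ) ≤ ((x - s : ℕ) : ℝ) := by nlinarith
      exact_mod_cast h4
  have e3 : Sm Y μ j₀ w i1 g S i x = ∑ s ∈ range (S + 1), (g s : ℂ) *
      ((locf Y (Real.log x) : ℂ) * ql Y μ j₀ w i (Real.log x)) := by
    unfold Sm
    rw [if_pos hi, Finset.mul_sum]
    refine Finset.sum_congr rfl fun s _ => ?_
    ring
  rw [e1, e3, Finset.mul_sum, ← Finset.sum_sub_distrib]
  refine (norm_sum_le _ _).trans ?_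
  calc ∑ s ∈ range (S + 1), ‖(1 / (2 * Real.pi) : ℂ) * ((g s : ℂ) *
          ∫ t in Bad Y μ j₀ c i, FLo Y μ j₀ w i1 i t * Lt ((x - s : ℕ) : ℝ) t) -
        (g s : ℂ) * ((locf Y (Real.log x) : ℂ) * ql Y μ j₀ w i (Real.log x))‖
      ≤ ∑ s ∈ range (S + 1), |g s| * (2 * Y ^ (-(c / 2))) := by
        refine Finset.sum_le_sum fun s hs => ?_
        obtain ⟨h3, h4, h5⟩ := BDeco_log Y hY x s hx1 (hsS s hs)
        have h6 := hlow (x - s) h4 (by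
          rw [h3]
          have : (0 : ℝ) ≤ s := Nat.cast_nonneg s
          linarith)
        have h7 := BDeco_lip Y (by linarith) μ j₀ C w hC hw hw1 i h (Real.log ((x - s : ℕ) : ℝ)) (Real.log x)
        have h8 : 2 * C * |Real.log ((x - s : ℕ) : ℝ) - Real.log x| ≤ Y ^ (-(c / 2)) := by
          refine le_trans (mul_le_mul_of_nonneg_left h5 (by linarith)) ?_
          refine le_trans (le_of_eq ?_) hYC
          ring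
        have e4 : (1 / (2 * Real.pi) : ℂ) * ((g s : ℂ) *
            ∫ t in Bad Y μ j₀ c i, FLo Y μ j₀ w i1 i t * Lt ((x - s : ℕ) : ℝ) t) -
            (g s : ℂ) * ((locf Y (Real.log x) : ℂ) * ql Y μ j₀ w i (Real.log x)) =
            (g s : ℂ) * (((1 / (2 * Real.pi) : ℂ) *
            (∫ t in Bad Y μ j₀ c i, FLo Y μ j₀ w i1 i t * Lt ((x - s : ℕ) : ℝ) t) -
            (locf Y (Real.log ((x - s : ℕ) : ℝ)) : ℂ) * ql Y μ j₀ w i (Real.log ((x - s : ℕ) : ℝ))) +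
            ((locf Y (Real.log ((x - s : ℕ) : ℝ)) : ℂ) * ql Y μ j₀ w i (Real.log ((x - s : ℕ) : ℝ)) -
            (locf Y (Real.log x) : ℂ) * ql Y μ j₀ w i (Real.log x))) := by ring
        rw [e4, norm_mul, Complex.norm_real, Real.norm_eq_abs]
        refine mul_le_mul_of_nonneg_left ?_ (abs_nonneg _)
        refine (norm_add_le _ _).trans ?_
        linarith [h7.trans h8]
    _ = (∑ s ∈ range (S + 1), |g s|) * (2 * Y ^ (-(c / 2))) := by rw [Finset.sum_mul]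
    _ ≤ G0 * (2 * Y ^ (-(c / 2))) := mul_le_mul_of_nonneg_right hg (by positivity)

/-- **The decomposition.** `E` and `H` do not depend on `g`.

Proof. `bad_fam` with the `κ` of `high_l1`, `E = Bad`, `H = FHi`; `dec1`; on the bad set `FF = FLo + FHi`; the integral of `FLo` is
`low_part` at the points `x - s` (and `0` for `i ≠ i0, i1`), and `locf * ql` at `log (x - s)` is replaced by its value at `log x`
with an error `O (S / x)` (`locf_props`, `ql_props`): `G0 Y ^ (- c / 2)` in total. -/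
theorem deco (μ j₀ : ℕ) (ε : ℝ) (hμ : 8 ≤ μ) (hj : 2 ≤ j₀) (hj' : j₀ ≤ μ) (hε : 0 < ε) :
    ∃ a' η' ε' K₀ κ : ℝ, 0 < a' ∧ a' ≤ 1 ∧ 0 < η' ∧ η' ≤ 1 ∧ 0 < ε' ∧ 1 ≤ K₀ ∧ 0 < κ ∧ κ ≤ 1 ∧
      ∀ K' : ℝ, K₀ ≤ K' → ∃ c₀ : ℝ, 0 < c₀ ∧ c₀ ≤ 1 / 100 ∧ ∀ c : ℝ, 0 < c → c ≤ c₀ → ∃ δ₀ Y₀ : ℝ, 0 < δ₀ ∧ 3 ≤ Y₀ ∧
      ∀ (Y δ : ℝ) (i1 : CC) (β : ℝ), Y₀ ≤ Y → 0 < δ → δ ≤ δ₀ → β ≤ 1 → PBL Y δ a' η' ε' i1 β →
        ∃ (E : CC → Set ℝ) (H : CC → ℝ → ℂ), Fam ⌊Y ^ δ⌋₊ (Y ^ (1 + c)) (Y ^ κ) E ∧ (∀ i, Continuous (H i)) ∧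
          ∑ i ∈ CR ⌊Y ^ δ⌋₊, ∫ t in E i, ‖H i t‖ ≤ ε / Real.log Y ∧
          ∀ (g : ℕ → ℝ) (S : ℕ) (G0 G1 : ℝ), (S : ℝ) ≤ 4 * Y → (∀ s, S < s → g s = 0) →
            ∑ s ∈ range (S + 1), |g s| ≤ G0 → |g 0| + ∑ s ∈ range (S + 1), |g (s + 1) - g s| ≤ G1 →
            ∀ i ∈ CR ⌊Y ^ δ⌋₊, ∑ x ∈ Icc ⌈Y ^ 2 / 2⌉₊ ⌊3 * Y ^ 2 / 2⌋₊,
              ‖Sg Y μ j₀ g S i x - Sm Y μ j₀ (K' / Real.log Y) i1 g S i x -
                (1 / (2 * Real.pi) : ℂ) * ∫ t in E i,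
                  H i t * ∑ s ∈ range (S + 1), (g s : ℂ) * Lt ((x - s : ℕ) : ℝ) t‖ ^ 2 ≤
              (G0 ^ 2 + G1 ^ 2 * Y ^ 2) * Y ^ (2 - c / 4) := by
  have hμ8 : 8 ≤ μ := hμ
  obtain ⟨a', η', ε', K₀, κ, δ₁, ha', ha1, hη', hη1, hε', hK₀, hκ, hκ1, hδ₁, H2⟩ := high_l1 μ j₀ ε hμ hj hj' hε
  refine ⟨a', η', ε', K₀, κ, ha', ha1, hη', hη1, hε', hK₀, hκ, hκ1, fun K' hK' => ?_⟩
  have hK'1 : 1 ≤ K' := hK₀.trans hK'
  obtain ⟨Y₁, hY₁, H3⟩ := H2 K' hK'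
  obtain ⟨c₀, hc₀, hc₀1, H4⟩ := bad_fam μ j₀ hμ8 hj hj' κ hκ
  refine ⟨c₀, hc₀, hc₀1, fun c hc hcc => ?_⟩
  have hc1 : c ≤ 1 / 100 := hcc.trans hc₀1
  obtain ⟨δ₂, Y₂, hδ₂, hY₂, H5⟩ := H4 c hc hcc
  obtain ⟨Y₃, hY₃, H6⟩ := dec1 μ j₀ hμ8 hj hj' c hc hc1
  obtain ⟨Y₄, hY₄, H7⟩ := low_part μ j₀ hμ8 hj hj' c K' hc hc1 hK'1
  obtain ⟨C, Y₅, hC, hY₅, H8⟩ := ql_props μ j₀ hμ8 hj hj'
  obtain ⟨Ym, hYm⟩ : ∃ Ym : ℝ, Y₁ ≤ Ym ∧ Y₂ ≤ Ym ∧ Y₃ ≤ Ym ∧ Y₄ ≤ Ym ∧ Y₅ ≤ Ym ∧ 16 ≤ Ym ∧ Real.exp K' ≤ Ym ∧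
      (18 : ℝ) ^ (4 / c) ≤ Ym ∧ (32 * C) ^ 2 ≤ Ym := by
    refine ⟨max Y₁ (max Y₂ (max Y₃ (max Y₄ (max Y₅ (max 16 (max (Real.exp K')
      (max ((18 : ℝ) ^ (4 / c)) ((32 * C) ^ 2)))))))), ?_⟩
    simp only [le_max_iff, le_refl, true_or, or_true, and_self]
  obtain ⟨m1, m2, m3, m4, m5, m6, m7, m8, m9⟩ := hYm
  refine ⟨min δ₁ δ₂, Ym, lt_min hδ₁ hδ₂, by linarith, fun Y δ i1 β hY hδ hδ' hβ hP => ?_⟩
  have hY0 : 0 < Y := by linarith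
  have hY1 : 1 ≤ Y := by linarith
  have hY16 : 16 ≤ Y := by linarith
  have hYY : 256 ≤ Y ^ 2 := by nlinarith
  have hfam := H5 Y δ (m2.trans hY) hδ (hδ'.trans (min_le_right _ _))
  have hlog0 : 0 < Real.log Y := Real.log_pos (by linarith)
  have hlogK : K' ≤ Real.log Y := by
    rw [Real.le_log_iff_exp_le hY0]
    linarith
  have hw0 : 0 < K' / Real.log Y := by positivity
  have hw1 : K' / Real.log Y ≤ 1 := (div_le_one hlog0).mpr hlogK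
  obtain ⟨w, hwdef⟩ : ∃ w, w = K' / Real.log Y := ⟨_, rfl⟩
  rw [← hwdef] at hw0 hw1
  have hcont : ∀ i, Continuous (FHi Y μ j₀ w i1 i) ∧ Continuous (FLo Y μ j₀ w i1 i) :=
    fun i => FHi_cont Y μ j₀ w i1 i hw0
  have hfam2 : Fam ⌊Y ^ δ⌋₊ (Y ^ (5 / 4 : ℝ)) (Y ^ κ) (Bad Y μ j₀ c) := by
    refine ⟨fun i hi => ⟨(hfam.1 i hi).1, (hfam.1 i hi).2.trans ?_⟩, hfam.2⟩
    have : Y ^ (1 + c) ≤ Y ^ (5 / 4 : ℝ) := Real.rpow_le_rpow_of_exponent_le hY1 (by linarith)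
    exact Set.Icc_subset_Icc (by linarith) this
  refine ⟨Bad Y μ j₀ c, fun i => FHi Y μ j₀ w i1 i, hfam, fun i => (hcont i).1, ?_, ?_⟩
  · have := H3 Y δ i1 β (m1.trans hY) hδ (hδ'.trans (min_le_left _ _)) hβ hP _ hfam2
    rw [← hwdef] at this
    exact this
  intro g S G0 G1 hS hgS hg0 hg1 i hi
  rw [← hwdef]
  have hG0 : 0 ≤ G0 := (Finset.sum_nonneg fun _ _ => abs_nonneg _).trans hg0
  have hbm := Bad_meas Y μ j₀ c i (by linarith) hc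
  -- integrability on the bad set
  have hio : ∀ F : ℝ → ℂ, Continuous F → IntegrableOn F (Bad Y μ j₀ c i) := by
    intro F hF
    exact (hF.integrableOn_Icc).mono_set hbm.2.1
  have hLt : ∀ y : ℕ, 2 ≤ y → Continuous (Lt (y : ℝ)) := fun y hy =>
    (LtMt_cont (y : ℝ) (by exact_mod_cast hy)).1
  have hd1 := H6 Y i g S G0 G1 (m3.trans hY) hS hgS hg0 hg1
  -- the pointwise estimate
  obtain ⟨A, hA⟩ : ∃ A : ℕ → ℂ, A = fun x => Sg Y μ j₀ g S i x -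
      (1 / (2 * Real.pi) : ℂ) * ∫ t in Bad Y μ j₀ c i,
        FF Y μ j₀ i t * ∑ s ∈ range (S + 1), (g s : ℂ) * Lt ((x - s : ℕ) : ℝ) t := ⟨_, rfl⟩
  have hdA : ∑ x ∈ Icc ⌈Y ^ 2 / 2⌉₊ ⌊3 * Y ^ 2 / 2⌋₊, ‖A x‖ ^ 2 ≤
      (G0 ^ 2 + G1 ^ 2 * Y ^ 2) * Y ^ (2 - c / 2) := by
    rw [hA]
    exact hd1
  have hYpc : (0 : ℝ) < Y ^ (-(c / 2)) := Real.rpow_pos_of_pos hY0 _
  have hYC : 32 * C / Y ≤ Y ^ (-(c / 2)) := by
    have h1 : 32 * C ≤ Y ^ (1 / 2 : ℝ) := by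
      have h2 : ((32 * C) ^ 2) ^ (1 / 2 : ℝ) ≤ Y ^ (1 / 2 : ℝ) :=
        Real.rpow_le_rpow (by positivity) (m9.trans hY) (by norm_num)
      rwa [← Real.rpow_natCast, ← Real.rpow_mul (by linarith), show ((2 : ℕ) : ℝ) * (1 / 2) = 1 by norm_num,
        Real.rpow_one] at h2
    have h3 : Y ^ (1 / 2 : ℝ) ≤ Y ^ (-(c / 2)) * Y := by
      nth_rewrite 3 [← Real.rpow_one Y]
      rw [← Real.rpow_add hY0]
      exact Real.rpow_le_rpow_of_exponent_le hY1 (by linarith)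
    rw [div_le_iff₀ hY0]
    exact h1.trans h3
  have hpt : ∀ x ∈ Icc ⌈Y ^ 2 / 2⌉₊ ⌊3 * Y ^ 2 / 2⌋₊,
      ‖Sg Y μ j₀ g S i x - Sm Y μ j₀ w i1 g S i x -
                (1 / (2 * Real.pi) : ℂ) * ∫ t in Bad Y μ j₀ c i,
                  FHi Y μ j₀ w i1 i t * ∑ s ∈ range (S + 1), (g s : ℂ) * Lt ((x - s : ℕ) : ℝ) t‖ ^ 2 ≤
        2 * ‖A x‖ ^ 2 + 2 * (G0 * (2 * Y ^ (-(c / 2)))) ^ 2 := by
    intro x hx
    rw [Finset.mem_Icc] at hx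
    have hx1 : Y ^ 2 / 2 ≤ x := (Nat.le_ceil _).trans (by exact_mod_cast hx.1)
    have hx2 : (x : ℝ) ≤ 3 * Y ^ 2 / 2 := le_trans (by exact_mod_cast hx.2) (Nat.floor_le (by positivity))
    have hsS : ∀ s ∈ range (S + 1), 2 ≤ x - s := by
      intro s hs
      rw [Finset.mem_range] at hs
      have : (s : ℝ) ≤ S := by exact_mod_cast Nat.lt_succ_iff.mp hs
      have h3 := (BDeco_log Y hY16 x s hx1 (by linarith)).2.1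
      have h4 : (2 : ℝ) ≤ ((x - s : ℕ) : ℝ) := by linarith
      exact_mod_cast h4
    obtain ⟨W, hW⟩ : ∃ W : ℝ → ℂ, W = fun t => ∑ s ∈ range (S + 1), (g s : ℂ) * Lt ((x - s : ℕ) : ℝ) t :=
      ⟨_, rfl⟩
    have hWc : Continuous W := by
      rw [hW]
      refine continuous_finsetSum _ fun s hs => ?_
      exact continuous_const.mul (hLt (x - s) (hsS s hs))
    have hsplit : (∫ t in Bad Y μ j₀ c i, FF Y μ j₀ i t * W t) =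
        (∫ t in Bad Y μ j₀ c i, FHi Y μ j₀ w i1 i t * W t) + ∫ t in Bad Y μ j₀ c i, FLo Y μ j₀ w i1 i t * W t := by
      rw [← integral_add]
      · refine integral_congr_ae (Filter.Eventually.of_forall fun t => ?_)
        show FF Y μ j₀ i t * W t = FHi Y μ j₀ w i1 i t * W t + FLo Y μ j₀ w i1 i t * W t
        unfold FHi
        ring
      · exact hio _ ((hcont i).1.mul hWc)
      · exact hio _ ((hcont i).2.mul hWc)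
    obtain ⟨Bx, hBx⟩ : ∃ Bx : ℂ, Bx = (1 / (2 * Real.pi) : ℂ) * (∫ t in Bad Y μ j₀ c i,
        FLo Y μ j₀ w i1 i t * W t) - Sm Y μ j₀ w i1 g S i x := ⟨_, rfl⟩
    have hBn : ‖Bx‖ ≤ G0 * (2 * Y ^ (-(c / 2))) := by
      by_cases hi1 : i = i0 ∨ i = i1
      · rw [hBx, hW]
        refine BDeco_low Y hY16 μ j₀ C w c hC hw0 hw1 hc i1 i hi1
          (fun u u' => H8 Y w u u' i (m5.trans hY) hw0) ?_ hYC g S G0 hS hg0 x hx1 (by linarith) ?_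
        · intro y hy1 hy2
          have := H7 Y i1 i y (m4.trans hY) hi1 hy1 hy2
          rw [← hwdef] at this
          exact this
        · intro y hy
          exact hio _ ((hcont i).2.mul (hLt y hy))
      · have h1 : ∀ t, FLo Y μ j₀ w i1 i t = 0 := by
          intro t
          unfold FLo QLo
          simp [hi1]
        rw [hBx]
        simp only [h1, zero_mul]
        unfold Sm
        rw [if_neg hi1]
        simp only [integral_zero, mul_zero, sub_zero, norm_zero]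
        positivity
    have e5 : Sg Y μ j₀ g S i x - Sm Y μ j₀ w i1 g S i x -
        (1 / (2 * Real.pi) : ℂ) * (∫ t in Bad Y μ j₀ c i, FHi Y μ j₀ w i1 i t * W t) = A x + Bx := by
      have hAx : A x = Sg Y μ j₀ g S i x - (1 / (2 * Real.pi) : ℂ) * ∫ t in Bad Y μ j₀ c i,
        FF Y μ j₀ i t * W t := by rw [hA, hW]
      rw [hAx, hBx, hsplit]
      ring
    have e6 : (∫ t in Bad Y μ j₀ c i, FHi Y μ j₀ w i1 i t * ∑ s ∈ range (S + 1), (g s : ℂ) * Lt ((x - s : ℕ) : ℝ) t) =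
        ∫ t in Bad Y μ j₀ c i, FHi Y μ j₀ w i1 i t * W t := by rw [hW]
    rw [e6, e5]
    have h9 := norm_add_le (A x) Bx
    have h10 := norm_nonneg (A x + Bx)
    have h11 := norm_nonneg (A x)
    have h12 := norm_nonneg Bx
    have h13 : ‖A x + Bx‖ ^ 2 ≤ (‖A x‖ + ‖Bx‖) ^ 2 := pow_le_pow_left₀ h10 h9 2
    have h14 : ‖Bx‖ ^ 2 ≤ (G0 * (2 * Y ^ (-(c / 2)))) ^ 2 := pow_le_pow_left₀ h12 hBn 2
    have h15 := sq_nonneg (‖A x‖ - ‖Bx‖)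
    have h16 : (‖A x‖ + ‖Bx‖) ^ 2 = 2 * ‖A x‖ ^ 2 + 2 * ‖Bx‖ ^ 2 - (‖A x‖ - ‖Bx‖) ^ 2 := by ring
    linarith
  refine (Finset.sum_le_sum hpt).trans ?_
  rw [Finset.sum_add_distrib, ← Finset.mul_sum, Finset.sum_const, nsmul_eq_mul]
  have hcard : ((Icc ⌈Y ^ 2 / 2⌉₊ ⌊3 * Y ^ 2 / 2⌋₊).card : ℝ) ≤ 2 * Y ^ 2 := by
    rw [Nat.card_Icc]
    have h1 : ((⌊3 * Y ^ 2 / 2⌋₊ + 1 - ⌈Y ^ 2 / 2⌉₊ : ℕ) : ℝ) ≤ (⌊3 * Y ^ 2 / 2⌋₊ : ℝ) + 1 := by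
      have : ⌊3 * Y ^ 2 / 2⌋₊ + 1 - ⌈Y ^ 2 / 2⌉₊ ≤ ⌊3 * Y ^ 2 / 2⌋₊ + 1 := Nat.sub_le _ _
      exact_mod_cast this
    have h2 := Nat.floor_le (show 0 ≤ 3 * Y ^ 2 / 2 by positivity)
    linarith
  have hY2c : Y ^ (2 - c / 2) = Y ^ (2 - c / 4) * Y ^ (-(c / 4)) := by
    rw [← Real.rpow_add hY0]
    congr 1
    ring
  have h18 : 18 * Y ^ (-(c / 4)) ≤ 1 := by
    have h1 : (18 : ℝ) ≤ Y ^ (c / 4) := by
      have h2 : ((18 : ℝ) ^ (4 / c)) ^ (c / 4) ≤ Y ^ (c / 4) :=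
        Real.rpow_le_rpow (by positivity) (m8.trans hY) (by positivity)
      rwa [← Real.rpow_mul (by norm_num), show 4 / c * (c / 4) = 1 by field_simp, Real.rpow_one] at h2
    have h3 : Y ^ (c / 4) * Y ^ (-(c / 4)) = 1 := by
      rw [← Real.rpow_add hY0]
      simp
    have h4 : 0 < Y ^ (-(c / 4)) := Real.rpow_pos_of_pos hY0 _
    calc 18 * Y ^ (-(c / 4)) ≤ Y ^ (c / 4) * Y ^ (-(c / 4)) := mul_le_mul_of_nonneg_right h1 h4.le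
      _ = 1 := h3
      _ ≤ 1 := le_refl _
  have hsq : (Y ^ (-(c / 2))) ^ 2 * Y ^ 2 ≤ Y ^ (2 - c / 2) := by
    have e7 : (Y ^ (-(c / 2))) ^ 2 * Y ^ 2 = Y ^ (2 - c) := by
      rw [← Real.rpow_natCast (Y ^ (-(c / 2))), ← Real.rpow_mul hY0.le, ← Real.rpow_natCast Y 2,
        ← Real.rpow_add hY0]
      congr 1
      push_cast
      ring
    rw [e7]
    exact Real.rpow_le_rpow_of_exponent_le hY1 (by linarith)
  have hR : 0 ≤ G0 ^ 2 + G1 ^ 2 * Y ^ 2 := by positivity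
  have hG : G0 ^ 2 ≤ G0 ^ 2 + G1 ^ 2 * Y ^ 2 := by
    have : 0 ≤ G1 ^ 2 * Y ^ 2 := by positivity
    linarith
  have hZ : 0 < Y ^ (2 - c / 2) := Real.rpow_pos_of_pos hY0 _
  have hZ4 : 0 < Y ^ (2 - c / 4) := Real.rpow_pos_of_pos hY0 _
  calc 2 * ∑ x ∈ Icc ⌈Y ^ 2 / 2⌉₊ ⌊3 * Y ^ 2 / 2⌋₊, ‖A x‖ ^ 2 +
        ((Icc ⌈Y ^ 2 / 2⌉₊ ⌊3 * Y ^ 2 / 2⌋₊).card : ℝ) * (2 * (G0 * (2 * Y ^ (-(c / 2)))) ^ 2)
      ≤ 2 * ((G0 ^ 2 + G1 ^ 2 * Y ^ 2) * Y ^ (2 - c / 2)) +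
        (2 * Y ^ 2) * (2 * (G0 * (2 * Y ^ (-(c / 2)))) ^ 2) := by
        apply add_le_add
        · linarith
        · exact mul_le_mul_of_nonneg_right hcard (by positivity)
    _ = 2 * ((G0 ^ 2 + G1 ^ 2 * Y ^ 2) * Y ^ (2 - c / 2)) +
        16 * (G0 ^ 2 * ((Y ^ (-(c / 2))) ^ 2 * Y ^ 2)) := by ring
    _ ≤ 2 * ((G0 ^ 2 + G1 ^ 2 * Y ^ 2) * Y ^ (2 - c / 2)) +
        16 * ((G0 ^ 2 + G1 ^ 2 * Y ^ 2) * Y ^ (2 - c / 2)) := by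
        have := mul_le_mul hG hsq (by positivity) hR
        linarith
    _ = (G0 ^ 2 + G1 ^ 2 * Y ^ 2) * Y ^ (2 - c / 4) * (18 * Y ^ (-(c / 4))) := by
        rw [hY2c]
        ring
    _ ≤ (G0 ^ 2 + G1 ^ 2 * Y ^ 2) * Y ^ (2 - c / 4) * 1 := by
        apply mul_le_mul_of_nonneg_left h18
        positivity
    _ = _ := mul_one _

end Pool.Agent.M58
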