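import Pool.Agent.W_b58c63_m1.Defs

/-!
# Fourier transforms of tents (helper68)
-/

set_option autoImplicit false

noncomputable section

open Finset MeasureTheory

namespace Pool.Agent.M58

theorem STe_cont : Continuous tent := by
  unfold tent
  fun_prop

theorem STe_supp (x : ℝ) (hx : 1 ≤ |x|) : tent x = 0 := by
  unfold tent
  exact max_eq_left (by linarith)

/-- The Fourier transform of the tent. -/
theorem STe_T (a : ℝ) : ∃ s : ℝ, 0 ≤ s ∧ s ≤ 1 ∧ s * a ^ 2 ≤ 4 ∧
    ∫ x : ℝ, (tent x : ℂ) * Complex.exp (-(a * x : ℝ) * Complex.I) = (s : ℂ) := by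
  have hcont : Continuous (fun x : ℝ => (tent x : ℂ) * Complex.exp (-(a * x : ℝ) * Complex.I)) := by
    have := STe_cont
    fun_prop
  have hsupp : Function.support (fun x : ℝ => (tent x : ℂ) *
      Complex.exp (-(a * x : ℝ) * Complex.I)) ⊆ Set.Ioc (-1) 1 := by
    intro x hx
    by_contra h
    apply hx
    have h1 : 1 ≤ |x| := by
      rw [Set.mem_Ioc, not_and_or, not_lt, not_le] at h
      rcases h with h | h
      · rw [le_abs]
        right
        linarith
      · rw [le_abs]
        left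
        linarith
    show (tent x : ℂ) * Complex.exp (-(a * x : ℝ) * Complex.I) = 0
    rw [STe_supp x h1, Complex.ofReal_zero, zero_mul]
  rw [← intervalIntegral.integral_eq_integral_of_support_subset hsupp,
    ← intervalIntegral.integral_add_adjacent_intervals (b := 0) (hcont.intervalIntegrable _ _)
      (hcont.intervalIntegrable _ _)]
  have e1 : ∫ x in (-1 : ℝ)..0, (tent x : ℂ) * Complex.exp (-(a * x : ℝ) * Complex.I) =
      ∫ x in (-1 : ℝ)..0, (1 + x : ℂ) * Complex.exp (-(a * x : ℝ) * Complex.I) := by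
    refine intervalIntegral.integral_congr fun x hx => ?_
    rw [Set.uIcc_of_le (by norm_num)] at hx
    have : tent x = 1 + x := by
      unfold tent
      rw [abs_of_nonpos hx.2, max_eq_right (by linarith [hx.1])]
      ring
    show (tent x : ℂ) * _ = _
    rw [this]
    push_cast
    rfl
  have e2 : ∫ x in (0 : ℝ)..1, (tent x : ℂ) * Complex.exp (-(a * x : ℝ) * Complex.I) =
      ∫ x in (0 : ℝ)..1, (1 - x : ℂ) * Complex.exp (-(a * x : ℝ) * Complex.I) := by
    refine intervalIntegral.integral_congr fun x hx => ?_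
    rw [Set.uIcc_of_le (by norm_num)] at hx
    have : tent x = 1 - x := by
      unfold tent
      rw [abs_of_nonneg hx.1, max_eq_right (by linarith [hx.2])]
    show (tent x : ℂ) * _ = _
    rw [this]
    push_cast
    rfl
  rw [e1, e2]
  rcases eq_or_ne a 0 with rfl | ha
  · refine ⟨1, zero_le_one, le_rfl, by norm_num, ?_⟩
    have e3 : ∀ x : ℝ, Complex.exp (-(0 * x : ℝ) * Complex.I) = 1 := by
      intro x
      simp
    simp only [e3, mul_one]
    have d1 : ∀ x : ℝ, HasDerivAt (fun x : ℝ => (x : ℂ) + (x : ℂ) ^ 2 / 2) (1 + x : ℂ) x := by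
      intro x
      have h1 : HasDerivAt (fun x : ℝ => (x : ℂ)) 1 x := Complex.ofRealCLM.hasDerivAt
      have h2 := h1.add ((h1.pow 2).div_const 2)
      refine h2.congr_deriv ?_
      push_cast
      ring
    have d2 : ∀ x : ℝ, HasDerivAt (fun x : ℝ => (x : ℂ) - (x : ℂ) ^ 2 / 2) (1 - x : ℂ) x := by
      intro x
      have h1 : HasDerivAt (fun x : ℝ => (x : ℂ)) 1 x := Complex.ofRealCLM.hasDerivAt
      have h2 := h1.sub ((h1.pow 2).div_const 2)
      refine h2.congr_deriv ?_
      push_cast
      ring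
    rw [intervalIntegral.integral_eq_sub_of_hasDerivAt (fun x _ => d1 x)
      ((by fun_prop : Continuous (fun x : ℝ => (1 + x : ℂ))).intervalIntegrable _ _),
      intervalIntegral.integral_eq_sub_of_hasDerivAt (fun x _ => d2 x)
      ((by fun_prop : Continuous (fun x : ℝ => (1 - x : ℂ))).intervalIntegrable _ _)]
    push_cast
    norm_num
  · have ha2 : 0 < a ^ 2 := by positivity
    refine ⟨2 * (1 - Real.cos a) / a ^ 2, ?_, ?_, ?_, ?_⟩
    · have := Real.cos_le_one a
      exact div_nonneg (by linarith) ha2.le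
    · rw [div_le_one ha2]
      have := Real.one_sub_sq_div_two_le_cos (x := a)
      linarith
    · rw [div_mul_cancel₀ _ ha2.ne']
      have := Real.neg_one_le_cos a
      linarith
    · obtain ⟨b, hb⟩ : ∃ b : ℂ, b = -(a : ℂ) * Complex.I := ⟨_, rfl⟩
      have hb0 : b ≠ 0 := by
        rw [hb]
        exact mul_ne_zero (neg_ne_zero.2 (Complex.ofReal_ne_zero.2 ha)) Complex.I_ne_zero
      have e3 : ∀ x : ℝ, -((a * x : ℝ) : ℂ) * Complex.I = b * x := by
        intro x
        rw [hb]
        push_cast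
        ring
      simp only [e3]
      have d0 : ∀ x : ℝ, HasDerivAt (fun x : ℝ => Complex.exp (b * x)) (Complex.exp (b * x) * b) x := by
        intro x
        have h1 : HasDerivAt (fun x : ℝ => (x : ℂ)) 1 x := Complex.ofRealCLM.hasDerivAt
        have h2 : HasDerivAt (fun x : ℝ => b * (x : ℂ)) b x := by
          simpa using h1.const_mul b
        exact h2.cexp
      have d1 : ∀ x : ℝ, HasDerivAt (fun x : ℝ => (1 + (x : ℂ)) * Complex.exp (b * x) / b -
          Complex.exp (b * x) / b ^ 2) ((1 + x : ℂ) * Complex.exp (b * x)) x := by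
        intro x
        have h1 : HasDerivAt (fun x : ℝ => (1 + (x : ℂ))) 1 x :=
          Complex.ofRealCLM.hasDerivAt.const_add 1
        have h2 := ((h1.mul (d0 x)).div_const b).sub ((d0 x).div_const (b ^ 2))
        refine h2.congr_deriv ?_
        field_simp
        ring
      have d2 : ∀ x : ℝ, HasDerivAt (fun x : ℝ => (1 - (x : ℂ)) * Complex.exp (b * x) / b +
          Complex.exp (b * x) / b ^ 2) ((1 - x : ℂ) * Complex.exp (b * x)) x := by
        intro x
        have h1 : HasDerivAt (fun x : ℝ => (1 - (x : ℂ))) (-1) x :=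
          Complex.ofRealCLM.hasDerivAt.const_sub 1
        have h2 := ((h1.mul (d0 x)).div_const b).add ((d0 x).div_const (b ^ 2))
        refine h2.congr_deriv ?_
        field_simp
        ring
      rw [intervalIntegral.integral_eq_sub_of_hasDerivAt (fun x _ => d1 x)
        ((by fun_prop : Continuous (fun x : ℝ => (1 + x : ℂ) * Complex.exp (b * x))).intervalIntegrable
          _ _), intervalIntegral.integral_eq_sub_of_hasDerivAt (fun x _ => d2 x)
        ((by fun_prop : Continuous (fun x : ℝ => (1 - x : ℂ) * Complex.exp (b * x))).intervalIntegrable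
          _ _)]
      have e4 : Complex.exp b + Complex.exp (-b) = 2 * Complex.cos a := by
        rw [Complex.two_cos, hb, neg_mul, neg_neg, add_comm]
      have e5 : b ^ 2 = -(a : ℂ) ^ 2 := by
        rw [hb, mul_pow, Complex.I_sq]
        ring
      have e6 : (a : ℂ) ^ 2 ≠ 0 := pow_ne_zero 2 (Complex.ofReal_ne_zero.2 ha)
      push_cast
      have e7 : (1 + (0 : ℂ)) * Complex.exp (b * 0) / b - Complex.exp (b * 0) / b ^ 2 -
          ((1 + -1) * Complex.exp (b * -1) / b - Complex.exp (b * -1) / b ^ 2) +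
          ((1 - 1) * Complex.exp (b * 1) / b + Complex.exp (b * 1) / b ^ 2 -
          ((1 - 0) * Complex.exp (b * 0) / b + Complex.exp (b * 0) / b ^ 2)) =
          (Complex.exp b + Complex.exp (-b) - 2) / b ^ 2 := by
        rw [mul_zero, Complex.exp_zero, mul_one, mul_neg_one]
        ring
      rw [e7, e4, e5, div_neg, ← neg_div]
      ring

theorem STe_osc (w c u : ℝ) (hw : 0 < w) : ∃ s : ℝ, 0 ≤ s ∧ s ≤ w ∧ s * (w * u ^ 2) ≤ 4 ∧
    osc (fun v => tent ((v - c) / w)) u = (s : ℂ) * Complex.exp (-(u * c : ℝ) * Complex.I) := by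
  obtain ⟨s, hs0, hs1, hs2, hs3⟩ := STe_T (u * w)
  refine ⟨w * s, by positivity, by nlinarith, by nlinarith, ?_⟩
  set g : ℝ → ℂ := fun x => (tent x : ℂ) * Complex.exp (-(u * w * x : ℝ) * Complex.I) *
    Complex.exp (-(u * c : ℝ) * Complex.I) with hg
  have h1 : ∀ v : ℝ, (tent ((v - c) / w) : ℂ) * Complex.exp (-(u * v : ℝ) * Complex.I) =
      g ((v - c) / w) := by
    intro v
    rw [hg]
    show _ = (tent ((v - c) / w) : ℂ) * Complex.exp (-(u * w * ((v - c) / w) : ℝ) * Complex.I) *
      Complex.exp (-(u * c : ℝ) * Complex.I)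
    rw [mul_assoc, ← Complex.exp_add]
    congr 2
    rw [← add_mul, ← neg_add, ← Complex.ofReal_add]
    congr 3
    field_simp
    ring
  unfold osc
  simp only [h1]
  rw [integral_sub_right_eq_self (fun x => g (x / w)) c, Measure.integral_comp_div, abs_of_pos hw, hg,
    integral_mul_const, hs3]
  rw [Complex.real_smul]
  push_cast
  ring

theorem STe_norm (w c u s : ℝ) (hs0 : 0 ≤ s)
    (h : osc (fun v => tent ((v - c) / w)) u = (s : ℂ) * Complex.exp (-(u * c : ℝ) * Complex.I)) :
    ‖osc (fun v => tent ((v - c) / w)) u‖ = s := by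
  rw [h, norm_mul, Complex.norm_real, Real.norm_of_nonneg hs0, ← Complex.ofReal_neg,
    Complex.norm_exp_ofReal_mul_I, mul_one]

/-- `osc` of a tent: `osc (v ↦ tent ((v - c) / w)) u = w (sin (u w / 2) / (u w / 2)) ^ 2 e ^ (- i u c)`; bounds. -/
theorem osc_tent (w c u : ℝ) (hw : 0 < w) : ‖osc (fun v => tent ((v - c) / w)) u‖ ≤ w ∧
    ‖osc (fun v => tent ((v - c) / w)) u‖ * (w * u ^ 2) ≤ 4 := by
  obtain ⟨s, hs0, hs1, hs2, hs3⟩ := STe_osc w c u hw
  rw [STe_norm w c u s hs0 hs3]
  exact ⟨hs1, hs2⟩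

theorem STe_hasInt (w c : ℝ) (hw : 0 < w) :
    Continuous (fun v : ℝ => (tent ((v - c) / w) : ℂ)) ∧
      Integrable (fun v : ℝ => (tent ((v - c) / w) : ℂ)) := by
  have hc : Continuous (fun v : ℝ => (tent ((v - c) / w) : ℂ)) := by
    have := STe_cont
    fun_prop
  refine ⟨hc, hc.integrable_of_hasCompactSupport ?_⟩
  refine HasCompactSupport.intro (K := Set.Icc (c - w) (c + w)) isCompact_Icc fun x hx => ?_
  rw [Set.mem_Icc, not_and_or, not_le, not_le] at hx
  rw [STe_supp, Complex.ofReal_zero]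
  rw [abs_div, abs_of_pos hw, le_div_iff₀ hw, one_mul, le_abs]
  rcases hx with hx | hx
  · right
    linarith
  · left
    linarith

/-- Comparison with the Fourier transform of Mathlib. -/
theorem STe_four (h : ℝ → ℝ) (ξ : ℝ) :
    FourierTransform.fourier (fun v : ℝ => (h v : ℂ)) ξ = osc h (2 * Real.pi * ξ) := by
  rw [Real.fourier_eq', osc]
  refine integral_congr_ae (Filter.Eventually.of_forall fun v => ?_)
  show Complex.exp (↑(-2 * Real.pi * inner ℝ v ξ) * Complex.I) • (h v : ℂ) = _
  rw [smul_eq_mul, mul_comm]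
  congr 2
  rw [← Complex.ofReal_neg]
  congr 2
  show -2 * Real.pi * (ξ * v) = _
  ring

theorem STe_int (w c : ℝ) (hw : 0 < w) :
    Integrable (fun u => osc (fun v => tent ((v - c) / w)) u) := by
  obtain ⟨h1, h2⟩ := STe_hasInt w c hw
  have hcont : Continuous (fun u => osc (fun v => tent ((v - c) / w)) u) := by
    have h3 : Continuous (fun ξ => FourierTransform.fourier
        (fun v : ℝ => (tent ((v - c) / w) : ℂ)) ξ) :=
      VectorFourier.fourierIntegral_continuous Real.continuous_fourierChar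
        (by exact continuous_inner) h2
    have h4 : (fun u => osc (fun v => tent ((v - c) / w)) u) = fun u : ℝ =>
        FourierTransform.fourier (fun v : ℝ => (tent ((v - c) / w) : ℂ)) (u / (2 * Real.pi)) := by
      funext u
      rw [STe_four (fun v => tent ((v - c) / w))]
      congr 1
      field_simp
    rw [h4]
    exact h3.comp (continuous_id.div_const _)
  have hb : Integrable (fun u : ℝ => (w + 4 / w) * (1 + u ^ 2)⁻¹) :=
    integrable_inv_one_add_sq.const_mul _
  refine hb.mono' hcont.aestronglyMeasurable (Filter.Eventually.of_forall fun u => ?_)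
  obtain ⟨s, hs0, hs1, hs2, hs3⟩ := STe_osc w c u hw
  rw [STe_norm w c u s hs0 hs3, ← div_eq_mul_inv, le_div_iff₀ (by positivity)]
  have h5 : s * u ^ 2 ≤ 4 / w := by
    rw [le_div_iff₀ hw]
    linarith
  linarith

theorem STe_inv (w c v : ℝ) (hw : 0 < w) : (tent ((v - c) / w) : ℂ) =
    (1 / (2 * Real.pi) : ℂ) * ∫ u : ℝ, osc (fun y => tent ((y - c) / w)) u *
      Complex.exp ((u * v : ℝ) * Complex.I) := by
  obtain ⟨h1, h2⟩ := STe_hasInt w c hw
  have h3 : Integrable (FourierTransform.fourier (fun v : ℝ => (tent ((v - c) / w) : ℂ))) := by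
    have h4 : FourierTransform.fourier (fun v : ℝ => (tent ((v - c) / w) : ℂ)) =
        fun ξ => osc (fun v => tent ((v - c) / w)) (2 * Real.pi * ξ) := by
      funext ξ
      exact STe_four (fun v => tent ((v - c) / w)) ξ
    rw [h4]
    exact (STe_int w c hw).comp_mul_left' (by positivity)
  have h5 := congrFun (h1.fourierInv_fourier_eq h2 h3) v
  rw [Real.fourierInv_eq'] at h5
  rw [← h5]
  have h6 := Measure.integral_comp_mul_left (fun u : ℝ => osc (fun y => tent ((y - c) / w)) u *
      Complex.exp ((u * v : ℝ) * Complex.I)) (2 * Real.pi)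
  rw [abs_of_pos (by positivity), Complex.real_smul] at h6
  have h7 : ((1 / (2 * Real.pi) : ℂ)) = (((2 * Real.pi)⁻¹ : ℝ) : ℂ) := by
    push_cast
    ring
  rw [h7, ← h6]
  refine integral_congr_ae (Filter.Eventually.of_forall fun ξ => ?_)
  show Complex.exp (↑(2 * Real.pi * inner ℝ ξ v) * Complex.I) •
    FourierTransform.fourier (fun v : ℝ => (tent ((v - c) / w) : ℂ)) ξ =
    osc (fun y => tent ((y - c) / w)) (2 * Real.pi * ξ) *
      Complex.exp (((2 * Real.pi * ξ) * v : ℝ) * Complex.I)
  rw [STe_four (fun v => tent ((v - c) / w)), smul_eq_mul, mul_comm]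
  congr 3
  show ((2 * Real.pi * (v * ξ) : ℝ) : ℂ) = _
  push_cast
  ring

theorem osc_tent_int (w c : ℝ) (hw : 0 < w) :
    Integrable (fun u => ‖osc (fun v => tent ((v - c) / w)) u‖) ∧
      ∫ u : ℝ, ‖osc (fun v => tent ((v - c) / w)) u‖ ≤ 2 * Real.pi := by
  have hi := STe_int w c hw
  refine ⟨hi.norm, le_of_eq ?_⟩
  have h1 := STe_inv w c c hw
  have h2 : ∀ u : ℝ, osc (fun y => tent ((y - c) / w)) u * Complex.exp ((u * c : ℝ) * Complex.I) =
      ((‖osc (fun v => tent ((v - c) / w)) u‖ : ℝ) : ℂ) := by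
    intro u
    obtain ⟨s, hs0, hs1, hs2, hs3⟩ := STe_osc w c u hw
    rw [STe_norm w c u s hs0 hs3, hs3, mul_assoc, ← Complex.exp_add, neg_mul, neg_add_cancel,
      Complex.exp_zero, mul_one]
  simp only [h2] at h1
  rw [integral_complex_ofReal, sub_self, zero_div] at h1
  have h3 : tent 0 = 1 := by
    unfold tent
    rw [abs_zero]
    norm_num
  rw [h3] at h1
  have h4 : (1 : ℝ) = 1 / (2 * Real.pi) * ∫ u : ℝ, ‖osc (fun v => tent ((v - c) / w)) u‖ := by
    exact_mod_cast h1
  have hpi : (0 : ℝ) < 2 * Real.pi := by positivity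
  field_simp at h4
  linarith

/-- Fourier inversion for the tent. -/
theorem tent_inv (w c v : ℝ) (hw : 0 < w) : (tent ((v - c) / w) : ℂ) =
    (1 / (2 * Real.pi) : ℂ) * ∫ u : ℝ, osc (fun y => tent ((y - c) / w)) u * Complex.exp ((u * v : ℝ) * Complex.I) := by
  exact STe_inv w c v hw

end Pool.Agent.M58
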