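import Pool.Agent.W_b58c63_m1.DMvB
import Pool.Agent.W_b58c63_m1.STe

/-!
# Mellin inversion at integers (helper68)
-/

set_option autoImplicit false

noncomputable section

open Finset MeasureTheory Complex

namespace Pool.Agent.M58

/-- `x ^ (i t)` for `x > 0`. -/
def xit (x t : ℝ) : ℂ := Complex.exp ((t * Real.log x : ℝ) * I)

/-- The kernel `∫_{-1}^1 (1 - |θ|) (x + θ) ^ (i t) dθ`. -/
def Lt (x t : ℝ) : ℂ := ∫ θ in (-1 : ℝ)..1, ((1 - |θ| : ℝ) : ℂ) * xit (x + θ) t

/-- The kernel `∫_{-1}^0 (x + θ) ^ (1 + i t) / (1 + i t) dθ`. -/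
def Mt (x t : ℝ) : ℂ := ∫ θ in (-1 : ℝ)..0, ((x + θ : ℝ) : ℂ) * xit (x + θ) t / (1 + t * I)

/-- The antiderivative of `xit`. -/
def MInt_G (t u : ℝ) : ℂ := (u : ℂ) * xit u t / (1 + t * I)

/-- The antiderivative of `MInt_G`. -/
def MInt_F (t u : ℝ) : ℂ := (u : ℂ) ^ 2 * xit u t / ((1 + t * I) * (2 + t * I))

theorem MInt_xit_deriv (t u : ℝ) (hu : 0 < u) :
    HasDerivAt (fun v : ℝ => xit v t) (xit u t * (((t / u : ℝ) : ℂ) * I)) u := by
  have h1 : HasDerivAt (fun v : ℝ => ((t * Real.log v : ℝ) : ℂ) * I) (((t * u⁻¹ : ℝ) : ℂ) * I) u :=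
    (((Real.hasDerivAt_log hu.ne').const_mul t).ofReal_comp).mul_const I
  exact h1.cexp.congr_deriv (by rw [xit, div_eq_mul_inv])

theorem MInt_xit_norm (u t : ℝ) : ‖xit u t‖ = 1 := by
  unfold xit
  exact Complex.norm_exp_ofReal_mul_I _

theorem MInt_n1 (t : ℝ) : ‖(1 + t * I : ℂ)‖ = Real.sqrt (1 + t ^ 2) := by
  have h := Complex.norm_add_mul_I 1 t
  rw [Complex.ofReal_one] at h
  rw [h]
  norm_num

theorem MInt_n2 (t : ℝ) : ‖(2 + t * I : ℂ)‖ = Real.sqrt (4 + t ^ 2) := by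
  have h := Complex.norm_add_mul_I 2 t
  rw [Complex.ofReal_ofNat] at h
  rw [h]
  norm_num

theorem MInt_ne1 (t : ℝ) : (1 + t * I : ℂ) ≠ 0 := by
  rw [← norm_ne_zero_iff, MInt_n1]
  positivity

theorem MInt_ne2 (t : ℝ) : (2 + t * I : ℂ) ≠ 0 := by
  rw [← norm_ne_zero_iff, MInt_n2]
  positivity

theorem MInt_Gd (t u : ℝ) (hu : 0 < u) : HasDerivAt (MInt_G t) (xit u t) u := by
  have h1 : HasDerivAt (fun v : ℝ => (v : ℂ)) 1 u := Complex.ofRealCLM.hasDerivAt
  have h2 := (h1.mul (MInt_xit_deriv t u hu)).div_const (1 + t * I)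
  refine h2.congr_deriv ?_
  have hu' : (u : ℂ) ≠ 0 := Complex.ofReal_ne_zero.2 hu.ne'
  have := MInt_ne1 t
  push_cast
  field_simp
  try ring

theorem MInt_Fd (t u : ℝ) (hu : 0 < u) : HasDerivAt (MInt_F t) (MInt_G t u) u := by
  have h1 : HasDerivAt (fun v : ℝ => (v : ℂ)) 1 u := Complex.ofRealCLM.hasDerivAt
  have h2 := ((h1.pow 2).mul (MInt_xit_deriv t u hu)).div_const ((1 + t * I) * (2 + t * I))
  refine h2.congr_deriv ?_
  have hu' : (u : ℂ) ≠ 0 := Complex.ofReal_ne_zero.2 hu.ne'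
  have h3 := MInt_ne1 t
  have h4 := MInt_ne2 t
  have h5 : ((fun v : ℝ => (v : ℂ)) ^ 2) u = (u : ℂ) ^ 2 := rfl
  rw [h5]
  unfold MInt_G
  push_cast
  field_simp
  try ring

theorem MInt_Mt (x t : ℝ) (hx : 2 ≤ x) : Mt x t = MInt_F t x - MInt_F t (x - 1) := by
  have h1 : ∀ θ ∈ Set.uIcc (-1 : ℝ) 0, HasDerivAt (fun θ => MInt_F t (x + θ)) (MInt_G t (x + θ)) θ := by
    intro θ hθ
    rw [Set.uIcc_of_le (by norm_num)] at hθ
    exact (MInt_Fd t (x + θ) (by linarith [hθ.1])).comp_const_add x θ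
  have h2 : IntervalIntegrable (fun θ => MInt_G t (x + θ)) volume (-1) 0 := by
    refine ContinuousOn.intervalIntegrable fun θ hθ => ?_
    rw [Set.uIcc_of_le (by norm_num)] at hθ
    exact ((MInt_Gd t (x + θ) (by linarith [hθ.1])).comp_const_add x θ).continuousAt.continuousWithinAt
  have h3 := intervalIntegral.integral_eq_sub_of_hasDerivAt h1 h2
  rw [add_zero, ← sub_eq_add_neg] at h3
  exact h3

theorem MInt_Lt (x t : ℝ) (hx : 2 ≤ x) :
    Lt x t = MInt_F t (x + 1) - 2 * MInt_F t x + MInt_F t (x - 1) := by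
  have hxc : ∀ θ ∈ Set.Icc (-1 : ℝ) 1, ContinuousAt (fun θ => xit (x + θ) t) θ := by
    intro θ hθ
    exact ((MInt_xit_deriv t (x + θ) (by linarith [hθ.1])).comp_const_add x θ).continuousAt
  have hc : ContinuousOn (fun θ : ℝ => ((1 - |θ| : ℝ) : ℂ) * xit (x + θ) t) (Set.Icc (-1) 1) := by
    intro θ hθ
    exact (ContinuousAt.mul (by fun_prop) (hxc θ hθ)).continuousWithinAt
  have i1 : IntervalIntegrable (fun θ : ℝ => ((1 - |θ| : ℝ) : ℂ) * xit (x + θ) t) volume (-1) 0 := by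
    refine (hc.mono ?_).intervalIntegrable
    rw [Set.uIcc_of_le (by norm_num)]
    exact Set.Icc_subset_Icc le_rfl (by norm_num)
  have i2 : IntervalIntegrable (fun θ : ℝ => ((1 - |θ| : ℝ) : ℂ) * xit (x + θ) t) volume 0 1 := by
    refine (hc.mono ?_).intervalIntegrable
    rw [Set.uIcc_of_le (by norm_num)]
    exact Set.Icc_subset_Icc (by norm_num) le_rfl
  have e1 : ∫ θ in (-1 : ℝ)..0, ((1 - |θ| : ℝ) : ℂ) * xit (x + θ) t =
      MInt_G t x - MInt_F t x + MInt_F t (x - 1) := by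
    have d1 : ∀ θ ∈ Set.uIcc (-1 : ℝ) 0, HasDerivAt
        (fun θ : ℝ => (1 + (θ : ℂ)) * MInt_G t (x + θ) - MInt_F t (x + θ))
        (((1 - |θ| : ℝ) : ℂ) * xit (x + θ) t) θ := by
      intro θ hθ
      rw [Set.uIcc_of_le (by norm_num)] at hθ
      have h0 : 0 < x + θ := by linarith [hθ.1]
      have h1 : HasDerivAt (fun θ : ℝ => 1 + (θ : ℂ)) 1 θ :=
        Complex.ofRealCLM.hasDerivAt.const_add 1
      have h2 := (h1.mul ((MInt_Gd t (x + θ) h0).comp_const_add x θ)).sub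
        ((MInt_Fd t (x + θ) h0).comp_const_add x θ)
      refine h2.congr_deriv ?_
      rw [abs_of_nonpos hθ.2]
      push_cast
      ring
    have h3 := intervalIntegral.integral_eq_sub_of_hasDerivAt d1 i1
    rw [h3]
    push_cast
    rw [add_zero, add_zero, ← sub_eq_add_neg x 1]
    ring
  have e2 : ∫ θ in (0 : ℝ)..1, ((1 - |θ| : ℝ) : ℂ) * xit (x + θ) t =
      MInt_F t (x + 1) - MInt_G t x - MInt_F t x := by
    have d1 : ∀ θ ∈ Set.uIcc (0 : ℝ) 1, HasDerivAt
        (fun θ : ℝ => (1 - (θ : ℂ)) * MInt_G t (x + θ) + MInt_F t (x + θ))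
        (((1 - |θ| : ℝ) : ℂ) * xit (x + θ) t) θ := by
      intro θ hθ
      rw [Set.uIcc_of_le (by norm_num)] at hθ
      have h0 : 0 < x + θ := by linarith [hθ.1]
      have h1 : HasDerivAt (fun θ : ℝ => 1 - (θ : ℂ)) (-1) θ :=
        Complex.ofRealCLM.hasDerivAt.const_sub 1
      have h2 := (h1.mul ((MInt_Gd t (x + θ) h0).comp_const_add x θ)).add
        ((MInt_Fd t (x + θ) h0).comp_const_add x θ)
      refine h2.congr_deriv ?_
      rw [abs_of_nonneg hθ.1]
      push_cast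
      ring
    have h3 := intervalIntegral.integral_eq_sub_of_hasDerivAt d1 i2
    rw [h3]
    push_cast
    rw [add_zero]
    ring
  unfold Lt
  rw [← intervalIntegral.integral_add_adjacent_intervals i1 i2, e1, e2]
  ring

theorem MInt_F_norm (t u : ℝ) : ‖MInt_F t u‖ * (1 + t ^ 2) ≤ u ^ 2 := by
  unfold MInt_F
  rw [norm_div, norm_mul, norm_mul, norm_pow, Complex.norm_real, Real.norm_eq_abs, sq_abs,
    MInt_xit_norm, mul_one, MInt_n1, MInt_n2]
  have h1 : 0 < 1 + t ^ 2 := by positivity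
  have h2 : 1 + t ^ 2 ≤ Real.sqrt (1 + t ^ 2) * Real.sqrt (4 + t ^ 2) := by
    calc 1 + t ^ 2 = Real.sqrt (1 + t ^ 2) * Real.sqrt (1 + t ^ 2) :=
          (Real.mul_self_sqrt h1.le).symm
      _ ≤ Real.sqrt (1 + t ^ 2) * Real.sqrt (4 + t ^ 2) :=
          mul_le_mul_of_nonneg_left (Real.sqrt_le_sqrt (by linarith)) (Real.sqrt_nonneg _)
  have h3 : 0 < Real.sqrt (1 + t ^ 2) * Real.sqrt (4 + t ^ 2) := lt_of_lt_of_le h1 h2
  rw [div_mul_eq_mul_div, div_le_iff₀ h3]
  exact mul_le_mul_of_nonneg_left h2 (sq_nonneg u)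

theorem MInt_Lt_le (x t : ℝ) : ‖Lt x t‖ ≤ 1 := by
  unfold Lt
  have h1 : ∀ θ : ℝ, θ ∈ Set.Ioc (-1 : ℝ) 1 → ‖((1 - |θ| : ℝ) : ℂ) * xit (x + θ) t‖ ≤ 1 - |θ| := by
    intro θ hθ
    rw [norm_mul, MInt_xit_norm, mul_one, Complex.norm_real, Real.norm_of_nonneg]
    have : |θ| ≤ 1 := abs_le.2 ⟨hθ.1.le, hθ.2⟩
    linarith
  have h2 := intervalIntegral.norm_integral_le_of_norm_le (μ := volume) (by norm_num : (-1 : ℝ) ≤ 1)
    (Filter.Eventually.of_forall h1)
    ((by fun_prop : Continuous fun θ : ℝ => 1 - |θ|).intervalIntegrable (-1) 1)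
  refine h2.trans (le_of_eq ?_)
  have c1 : Continuous fun θ : ℝ => 1 - |θ| := by fun_prop
  rw [← intervalIntegral.integral_add_adjacent_intervals (b := 0) (c1.intervalIntegrable _ _)
    (c1.intervalIntegrable _ _)]
  have e1 : ∫ θ in (-1 : ℝ)..0, (1 - |θ|) = ∫ θ in (-1 : ℝ)..0, (1 + θ) := by
    refine intervalIntegral.integral_congr fun θ hθ => ?_
    rw [Set.uIcc_of_le (by norm_num)] at hθ
    show 1 - |θ| = 1 + θ
    rw [abs_of_nonpos hθ.2]
    ring
  have e2 : ∫ θ in (0 : ℝ)..1, (1 - |θ|) = ∫ θ in (0 : ℝ)..1, (1 - θ) := by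
    refine intervalIntegral.integral_congr fun θ hθ => ?_
    rw [Set.uIcc_of_le (by norm_num)] at hθ
    show 1 - |θ| = 1 - θ
    rw [abs_of_nonneg hθ.1]
  rw [e1, e2, intervalIntegral.integral_add (by simp) (by simp),
    intervalIntegral.integral_sub (by simp) (by simp)]
  simp
  norm_num

theorem MInt_xit_cont (u : ℝ) : Continuous (xit u) := by
  unfold xit
  fun_prop

theorem MInt_F_cont (u : ℝ) : Continuous (fun t => MInt_F t u) := by
  unfold MInt_F
  refine Continuous.div (continuous_const.mul (MInt_xit_cont u)) (by fun_prop) fun t => ?_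
  exact mul_ne_zero (MInt_ne1 t) (MInt_ne2 t)

/-- Fourier inversion for continuous functions. -/
theorem MInt_inv (h : ℝ → ℝ) (h1 : Continuous fun v => (h v : ℂ)) (h2 : Integrable fun v => (h v : ℂ))
    (hi : Integrable (osc h)) (v : ℝ) :
    (h v : ℂ) = (1 / (2 * Real.pi) : ℂ) * ∫ u : ℝ, osc h u * Complex.exp ((u * v : ℝ) * I) := by
  have h3 : Integrable (FourierTransform.fourier (fun v : ℝ => (h v : ℂ))) := by
    have h4 : FourierTransform.fourier (fun v : ℝ => (h v : ℂ)) =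
        fun ξ => osc h (2 * Real.pi * ξ) := by
      funext ξ
      exact STe_four h ξ
    rw [h4]
    exact hi.comp_mul_left' (by positivity)
  have h5 := congrFun (h1.fourierInv_fourier_eq h2 h3) v
  rw [Real.fourierInv_eq'] at h5
  rw [← h5]
  have h6 := Measure.integral_comp_mul_left (fun u : ℝ => osc h u *
      Complex.exp ((u * v : ℝ) * Complex.I)) (2 * Real.pi)
  rw [abs_of_pos (by positivity), Complex.real_smul] at h6
  have h7 : ((1 / (2 * Real.pi) : ℂ)) = (((2 * Real.pi)⁻¹ : ℝ) : ℂ) := by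
    push_cast
    ring
  rw [h7, ← h6]
  refine integral_congr_ae (Filter.Eventually.of_forall fun ξ => ?_)
  show Complex.exp (↑(2 * Real.pi * inner ℝ ξ v) * Complex.I) •
    FourierTransform.fourier (fun v : ℝ => (h v : ℂ)) ξ =
    osc h (2 * Real.pi * ξ) * Complex.exp (((2 * Real.pi * ξ) * v : ℝ) * Complex.I)
  rw [STe_four h, smul_eq_mul, mul_comm]
  congr 3
  show ((2 * Real.pi * (v * ξ) : ℝ) : ℂ) = _
  push_cast
  ring

/-- The function on the logarithmic scale. -/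
def MInt_k (x y : ℝ) : ℝ := tent (Real.exp y - x) * Real.exp y

theorem MInt_k_cont (x : ℝ) : Continuous (MInt_k x) := by
  unfold MInt_k
  exact (STe_cont.comp (Real.continuous_exp.sub continuous_const)).mul Real.continuous_exp

theorem MInt_k_supp (x y : ℝ) (hx : 2 ≤ x) (h : MInt_k x y ≠ 0) :
    Real.log (x - 1) < y ∧ y < Real.log (x + 1) := by
  have h1 : |Real.exp y - x| < 1 := by
    by_contra hc
    apply h
    unfold MInt_k
    rw [STe_supp _ (not_lt.1 hc), zero_mul]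
  obtain ⟨h2, h3⟩ := abs_lt.1 h1
  constructor
  · rw [Real.log_lt_iff_lt_exp (by linarith)]
    linarith
  · rw [Real.lt_log_iff_exp_lt (by linarith)]
    linarith

theorem MInt_osc (x t : ℝ) (hx : 2 ≤ x) : osc (MInt_k x) (-t) = Lt x t := by
  have hlog : Real.log (x - 1) ≤ Real.log (x + 1) := Real.log_le_log (by linarith) (by linarith)
  have hs : Function.support (fun v : ℝ => (MInt_k x v : ℂ) *
      Complex.exp (-((-t) * v : ℝ) * I)) ⊆ Set.Ioc (Real.log (x - 1)) (Real.log (x + 1)) := by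
    intro y hy
    have h1 : MInt_k x y ≠ 0 := by
      intro h0
      apply hy
      show (MInt_k x y : ℂ) * _ = 0
      rw [h0, Complex.ofReal_zero, zero_mul]
    obtain ⟨h2, h3⟩ := MInt_k_supp x y hx h1
    exact ⟨h2, h3.le⟩
  unfold osc
  rw [← intervalIntegral.integral_eq_integral_of_support_subset hs]
  have e1 : ∫ v in Real.log (x - 1)..Real.log (x + 1), (MInt_k x v : ℂ) *
      Complex.exp (-((-t) * v : ℝ) * I) =
      ∫ v in Real.log (x - 1)..Real.log (x + 1), Real.exp v •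
        ((fun u : ℝ => (tent (u - x) : ℂ) * xit u t) ∘ Real.exp) v := by
    refine intervalIntegral.integral_congr fun v _ => ?_
    show (MInt_k x v : ℂ) * Complex.exp (-((-t) * v : ℝ) * I) =
      Real.exp v • ((tent (Real.exp v - x) : ℂ) * xit (Real.exp v) t)
    unfold MInt_k xit
    rw [Real.log_exp, Complex.real_smul]
    push_cast
    have h9 : -(-(t : ℂ) * v) * I = t * v * I := by ring
    rw [h9]
    ring
  have e2 := intervalIntegral.integral_deriv_smul_comp'' (a := Real.log (x - 1))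
    (b := Real.log (x + 1)) (f := Real.exp) (f' := Real.exp)
    (g := fun u : ℝ => (tent (u - x) : ℂ) * xit u t) Real.continuous_exp.continuousOn
    (fun v _ => (Real.hasDerivAt_exp v).hasDerivWithinAt) Real.continuous_exp.continuousOn (by
      rintro _ ⟨y, _, rfl⟩
      have h2 := (MInt_xit_deriv t (Real.exp y) (Real.exp_pos y)).continuousAt
      have h3 : ContinuousAt (fun u : ℝ => (tent (u - x) : ℂ)) (Real.exp y) :=
        (Complex.continuous_ofReal.comp
          (STe_cont.comp (continuous_id.sub continuous_const))).continuousAt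
      exact (h3.mul h2).continuousWithinAt)
  rw [e1, e2, Real.exp_log (by linarith), Real.exp_log (by linarith)]
  unfold Lt
  have e3 := intervalIntegral.integral_comp_add_left (a := -1) (b := 1)
    (fun u : ℝ => (tent (u - x) : ℂ) * xit u t) x
  rw [← sub_eq_add_neg] at e3
  rw [← e3]
  refine intervalIntegral.integral_congr fun θ hθ => ?_
  rw [Set.uIcc_of_le (by norm_num)] at hθ
  show (tent (x + θ - x) : ℂ) * xit (x + θ) t = ((1 - |θ| : ℝ) : ℂ) * xit (x + θ) t
  have h4 : tent (x + θ - x) = 1 - |θ| := by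
    unfold tent
    rw [add_sub_cancel_left]
    have : |θ| ≤ 1 := abs_le.2 hθ
    exact max_eq_right (by linarith)
  rw [h4]

/-- Bounds and the relation between the two kernels.

Proof. `Mt x t = (x ^ (2 + i t) - (x - 1) ^ (2 + i t)) / ((1 + i t) (2 + i t))`, and with `H u = u ^ (1 + i t) / (1 + i t)`,
`H' u = u ^ (i t)`: `Mt (x + 1) t - Mt x t = ∫_{-1}^0 (H (x + 1 + θ) - H (x + θ)) dθ = ∫_{-1}^0 ∫_0^1 (x + θ + u) ^ (i t) du dθ = Lt x t`. -/
theorem LtMt (x t : ℝ) (hx : 2 ≤ x) : ‖Lt x t‖ ≤ 1 ∧ ‖Lt x t‖ * (1 + t ^ 2) ≤ 16 * x ^ 2 ∧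
    ‖Mt x t‖ * (1 + t ^ 2) ≤ 4 * x ^ 2 ∧ Lt x t = Mt (x + 1) t - Mt x t := by
  have hL := MInt_Lt x t hx
  have hM := MInt_Mt x t hx
  have hM1 := MInt_Mt (x + 1) t (by linarith)
  rw [add_sub_cancel_right] at hM1
  have ht : 0 ≤ 1 + t ^ 2 := by positivity
  have f0 := MInt_F_norm t (x - 1)
  have f1 := MInt_F_norm t x
  have f2 := MInt_F_norm t (x + 1)
  have hrel : Lt x t = Mt (x + 1) t - Mt x t := by
    rw [hL, hM, hM1]
    ring
  have n1 : ‖Mt x t‖ * (1 + t ^ 2) ≤ x ^ 2 + (x - 1) ^ 2 := by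
    rw [hM]
    have := mul_le_mul_of_nonneg_right (norm_sub_le (MInt_F t x) (MInt_F t (x - 1))) ht
    linarith
  have n2 : ‖Mt (x + 1) t‖ * (1 + t ^ 2) ≤ (x + 1) ^ 2 + x ^ 2 := by
    rw [hM1]
    have := mul_le_mul_of_nonneg_right (norm_sub_le (MInt_F t (x + 1)) (MInt_F t x)) ht
    linarith
  refine ⟨MInt_Lt_le x t, ?_, ?_, hrel⟩
  · rw [hrel]
    have := mul_le_mul_of_nonneg_right (norm_sub_le (Mt (x + 1) t) (Mt x t)) ht
    nlinarith
  · nlinarith

theorem LtMt_cont (x : ℝ) (hx : 2 ≤ x) : Continuous (Lt x) ∧ Continuous (Mt x) := by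
  constructor
  · have h1 : Lt x = fun t => MInt_F t (x + 1) - 2 * MInt_F t x + MInt_F t (x - 1) := by
      funext t
      exact MInt_Lt x t hx
    rw [h1]
    exact ((MInt_F_cont _).sub (continuous_const.mul (MInt_F_cont _))).add (MInt_F_cont _)
  · have h1 : Mt x = fun t => MInt_F t x - MInt_F t (x - 1) := by
      funext t
      exact MInt_Mt x t hx
    rw [h1]
    exact (MInt_F_cont _).sub (MInt_F_cont _)

/-- **Inversion at integers.**

Proof. Substitute `x + θ = exp y`: `Lt x t = ∫ k (y) exp (i t y) dy` with the continuous function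
`k (y) = tent (exp y - x) exp y` of compact support; `Lt x` is integrable (`LtMt`), so Fourier inversion at `y = log n` gives
`(1 / 2 π) ∫ Lt x t exp (- i t log n) dt = k (log n) = tent (n - x) n`. -/
theorem Lt_inv (n x : ℕ) (hn : 1 ≤ n) (hx : 2 ≤ x) : Integrable (fun t : ℝ => nit n t * Lt x t) ∧
    (1 / (2 * Real.pi) : ℂ) * ∫ t : ℝ, nit n t * Lt x t = if n = x then (n : ℂ) else 0 := by
  have hx' : (2 : ℝ) ≤ x := by exact_mod_cast hx
  have hLc := (LtMt_cont x hx').1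
  have hLi : Integrable (Lt x) := by
    have hb : Integrable (fun t : ℝ => (16 * (x : ℝ) ^ 2) * (1 + t ^ 2)⁻¹) :=
      integrable_inv_one_add_sq.const_mul _
    refine hb.mono' hLc.aestronglyMeasurable (Filter.Eventually.of_forall fun t => ?_)
    rw [← div_eq_mul_inv, le_div_iff₀ (by positivity)]
    exact (LtMt x t hx').2.1
  have hi : Integrable (fun t : ℝ => nit n t * Lt x t) := by
    refine hLi.norm.mono' ((DMvB_nit_cont n hn).mul hLc).aestronglyMeasurable
      (Filter.Eventually.of_forall fun t => ?_)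
    rw [norm_mul, DMvB_nit_norm hn, one_mul]
  refine ⟨hi, ?_⟩
  have hkc : Continuous (fun v => (MInt_k x v : ℂ)) :=
    Complex.continuous_ofReal.comp (MInt_k_cont x)
  have hki : Integrable (fun v => (MInt_k x v : ℂ)) := by
    refine hkc.integrable_of_hasCompactSupport ?_
    refine HasCompactSupport.intro (K := Set.Icc (Real.log (x - 1)) (Real.log (x + 1)))
      isCompact_Icc fun v hv => ?_
    by_contra hne
    obtain ⟨h2, h3⟩ := MInt_k_supp x v hx' (fun h0 => hne (by rw [h0, Complex.ofReal_zero]))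
    exact hv ⟨h2.le, h3.le⟩
  have hosc : osc (MInt_k x) = fun u => Lt x (-u) := by
    funext u
    have := MInt_osc x (-u) hx'
    rwa [neg_neg] at this
  have hoi : Integrable (osc (MInt_k x)) := by
    rw [hosc]
    exact hLi.comp_neg
  have hinv := MInt_inv (MInt_k x) hkc hki hoi (Real.log n)
  have hn0 : (0 : ℝ) < n := by exact_mod_cast hn
  have e1 : (MInt_k x (Real.log n) : ℂ) = if n = x then (n : ℂ) else 0 := by
    unfold MInt_k
    rw [Real.exp_log hn0]
    split_ifs with h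
    · rw [h, sub_self]
      unfold tent
      norm_num
    · rw [STe_supp, zero_mul, Complex.ofReal_zero]
      have h1 : (1 : ℤ) ≤ |(n : ℤ) - (x : ℤ)| := by
        apply Int.one_le_abs
        intro h0
        apply h
        exact_mod_cast (sub_eq_zero.1 h0)
      have h2 : ((1 : ℤ) : ℝ) ≤ ((|(n : ℤ) - (x : ℤ)| : ℤ) : ℝ) := by exact_mod_cast h1
      push_cast at h2
      exact h2
  rw [e1] at hinv
  rw [hinv]
  congr 1
  rw [← integral_neg_eq_self]
  refine integral_congr_ae (Filter.Eventually.of_forall fun u => ?_)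
  show nit n (-u) * Lt x (-u) = osc (MInt_k x) u * Complex.exp ((u * Real.log n : ℝ) * I)
  rw [hosc, DMvB_nit_eq hn, mul_comm]
  congr 2
  push_cast
  ring

/-- The same for a Dirichlet polynomial. -/
theorem DP_inv (N x r : ℕ) (a : ℕ → ℝ) (χ : DirichletCharacter ℂ r) (hx : 2 ≤ x) (hxN : x ≤ N) :
    Integrable (fun t : ℝ => DP N a χ t * Lt x t) ∧
    (1 / (2 * Real.pi) : ℂ) * ∫ t : ℝ, DP N a χ t * Lt x t = (a x : ℂ) * χ (x : ZMod r) := by
  have hi : ∀ n ∈ Icc 1 N, Integrable (fun t : ℝ =>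
      ((a n / n : ℝ) : ℂ) * χ (n : ZMod r) * (nit n t * Lt x t)) := fun n hn =>
    (Lt_inv n x (Finset.mem_Icc.1 hn).1 hx).1.const_mul _
  have e : (fun t : ℝ => DP N a χ t * Lt x t) = fun t => ∑ n ∈ Icc 1 N,
      ((a n / n : ℝ) : ℂ) * χ (n : ZMod r) * (nit n t * Lt x t) := by
    funext t
    unfold DP
    rw [Finset.sum_mul]
    exact Finset.sum_congr rfl fun n _ => by ring
  have e' : (∫ t : ℝ, DP N a χ t * Lt x t) = ∑ n ∈ Icc 1 N, ∫ t : ℝ,
      ((a n / n : ℝ) : ℂ) * χ (n : ZMod r) * (nit n t * Lt x t) := by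
    rw [← integral_finsetSum _ hi]
    exact congrArg (fun f : ℝ → ℂ => ∫ t, f t) e
  refine ⟨?_, ?_⟩
  · rw [e]
    exact integrable_finsetSum _ hi
  · rw [e', Finset.mul_sum]
    have h1 : ∀ n ∈ Icc 1 N, (1 / (2 * Real.pi) : ℂ) * ∫ t : ℝ,
        ((a n / n : ℝ) : ℂ) * χ (n : ZMod r) * (nit n t * Lt x t) =
        if n = x then (a x : ℂ) * χ (x : ZMod r) else 0 := by
      intro n hn
      rw [integral_const_mul, mul_left_comm, (Lt_inv n x (Finset.mem_Icc.1 hn).1 hx).2]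
      split_ifs with h
      · subst h
        have hn0 : (n : ℂ) ≠ 0 := by
          have := (Finset.mem_Icc.1 hn).1
          exact_mod_cast (by omega : n ≠ 0)
        push_cast
        field_simp
      · rw [mul_zero]
    rw [Finset.sum_congr rfl h1, Finset.sum_ite_eq' (Icc 1 N) x, if_pos]
    rw [Finset.mem_Icc]
    omega

end Pool.Agent.M58
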