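import Pool.Agent.W_b58c63_m1.HQ
import Pool.Agent.W_b58c63_m1.MInt

/-!
# The Dirichlet polynomials near `Y ^ 2` and their bad sets: definitions (helper68)
-/

set_option autoImplicit false

noncomputable section

open Finset MeasureTheory Complex

namespace Pool.Agent.M58

/-- The localisation near `Y ^ 2`. -/
def locf (Y v : ℝ) : ℝ := tent ((v - 2 * Real.log Y) / 2)

/-- The length of all polynomials. -/
def NN (Y : ℝ) : ℕ := ⌈Y ^ 6⌉₊

def fX (Y : ℝ) (μ j₀ n : ℕ) : ℝ := qX Y μ j₀ n * locf Y (Real.log n)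

def QX (Y : ℝ) (μ j₀ : ℕ) (i : CC) (t : ℝ) : ℂ := DP (NN Y) (qX Y μ j₀) i.2 t

def FF (Y : ℝ) (μ j₀ : ℕ) (i : CC) (t : ℝ) : ℂ := DP (NN Y) (fX Y μ j₀) i.2 t

/-- The dyadic pieces of the prime blocks. -/
def pd (Y : ℝ) (μ j k n : ℕ) : ℝ := if 2 ^ k ≤ n ∧ n < 2 ^ (k + 1) then pbY Y (4 * μ) j n else 0

/-- The bad set: a neighbourhood of `0`, and the neighbourhoods of the points where a prime block is large. -/
def Bad (Y : ℝ) (μ j₀ : ℕ) (c : ℝ) (i : CC) : Set ℝ := {t | |t| ≤ Y ^ c} ∪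
  {t | |t| ≤ Y ^ (1 + c) ∧ ∃ v : ℝ, |v| ≤ Y ^ c ∧ ∃ j ∈ Icc j₀ (4 * μ), ∃ k : ℕ,
    Y ^ (-(2 * c)) < ‖DP (NN Y) (pd Y μ j k) i.2 (t - v)‖}

/-- (`e ^ 2 ≤ 8`.) -/
theorem fX_props (Y : ℝ) (μ j₀ n : ℕ) (hY : 3 ≤ Y) (hμ : 8 ≤ μ) (hj : 2 ≤ j₀) (hj' : j₀ ≤ μ) :
    0 ≤ fX Y μ j₀ n ∧ fX Y μ j₀ n ≤ 20 * μ ∧ (fX Y μ j₀ n ≠ 0 → Y ^ 2 / 8 ≤ n ∧ (n : ℝ) ≤ 8 * Y ^ 2) := by
  obtain ⟨h1, -, h2, -, h3, -⟩ := q_props Y μ j₀ n hY hμ hj hj'
  have hY0 : (0 : ℝ) < Y := by linarith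
  have g1 : 0 ≤ locf Y (Real.log n) := GFun_tent_nn _
  have g2 : locf Y (Real.log n) ≤ 1 := GFun_tent_le _
  unfold fX
  refine ⟨mul_nonneg h1 g1, ?_, ?_⟩
  · calc qX Y μ j₀ n * locf Y (Real.log n) ≤ qX Y μ j₀ n * 1 := mul_le_mul_of_nonneg_left g2 h1
      _ ≤ 20 * μ := by rw [mul_one]; exact h2
  · intro h
    have hq := left_ne_zero_of_mul h
    have hl := right_ne_zero_of_mul h
    have hn : (0 : ℝ) < n := lt_of_lt_of_le (Real.rpow_pos_of_pos hY0 _) (h3 hq).2.1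
    have h4 : |(Real.log n - 2 * Real.log Y) / 2| < 1 := by
      by_contra hc
      exact hl (STe_supp _ (not_lt.1 hc))
    rw [abs_lt] at h4
    have he : Real.exp 2 ≤ 8 := by
      have h5 : Real.exp 2 = Real.exp 1 * Real.exp 1 := by rw [← Real.exp_add]; norm_num
      have h6 := Real.exp_one_lt_d9
      have h7 := Real.exp_pos 1
      rw [h5]
      nlinarith
    have hY2 : Real.exp (2 * Real.log Y) = Y ^ 2 := by
      rw [two_mul, Real.exp_add, Real.exp_log hY0, pow_two]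
    constructor
    · have h8 : 2 * Real.log Y ≤ Real.log n + 2 := by linarith [h4.1]
      have h9 := Real.exp_le_exp.2 h8
      rw [hY2, Real.exp_add, Real.exp_log hn] at h9
      have : (n : ℝ) * Real.exp 2 ≤ n * 8 := mul_le_mul_of_nonneg_left he hn.le
      linarith
    · have h8 : Real.log n ≤ 2 * Real.log Y + 2 := by linarith [h4.2]
      have h9 := Real.exp_le_exp.2 h8
      rw [Real.exp_add, hY2, Real.exp_log hn] at h9
      have : Y ^ 2 * Real.exp 2 ≤ Y ^ 2 * 8 := mul_le_mul_of_nonneg_left he (by positivity)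
      linarith

/-- `locf` on `[log (Y ^ 2 / 4), log (2 Y ^ 2)]`, and its Lipschitz constant. -/
theorem locf_props (Y : ℝ) (hY : 3 ≤ Y) : (∀ v, 0 ≤ locf Y v ∧ locf Y v ≤ 1) ∧
    (∀ v w, |locf Y v - locf Y w| ≤ |v - w|) ∧
    (∀ x : ℝ, Y ^ 2 / 2 ≤ x → x ≤ Y ^ 2 → 1 / 2 ≤ locf Y (Real.log x)) := by
  have hY0 : (0 : ℝ) < Y := by linarith
  refine ⟨fun v => ⟨GFun_tent_nn _, GFun_tent_le _⟩, fun v w => ?_, fun x hx hx' => ?_⟩
  · refine (GFun_tent_lip _ _).trans ?_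
    have h1 : (v - 2 * Real.log Y) / 2 - (w - 2 * Real.log Y) / 2 = (v - w) / 2 := by ring
    rw [h1, abs_div, abs_of_pos (show (0 : ℝ) < 2 by norm_num)]
    have := abs_nonneg (v - w)
    linarith
  · have hY2 : (0 : ℝ) < Y ^ 2 := by positivity
    have hx0 : 0 < x := by linarith
    have h1 : Real.log x ≤ 2 * Real.log Y := by
      have := Real.log_le_log hx0 hx'
      rw [Real.log_pow] at this
      push_cast at this
      exact this
    have h2 : 2 * Real.log Y - Real.log 2 ≤ Real.log x := by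
      have := Real.log_le_log (by positivity) hx
      rw [Real.log_div hY2.ne' (by norm_num), Real.log_pow] at this
      push_cast at this
      exact this
    have h3 : Real.log 2 ≤ 1 := by
      have := Real.log_two_lt_d9
      linarith
    unfold locf tent
    refine le_trans ?_ (le_max_right _ _)
    rw [abs_of_nonpos (by linarith)]
    linarith

/-- The localisation is an integral over shifts (`tent_inv`). -/
theorem FF_eq (Y : ℝ) (μ j₀ : ℕ) (i : CC) (t : ℝ) :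
    FF Y μ j₀ i t = (1 / (2 * Real.pi) : ℂ) * ∫ v : ℝ, osc (locf Y) v * QX Y μ j₀ i (t - v) := by
  have hloc : locf Y = fun y => tent ((y - 2 * Real.log Y) / 2) := rfl
  have hint : Integrable (fun v => osc (locf Y) v) := by
    rw [hloc]
    exact STe_int 2 _ two_pos
  have hexp : ∀ (n : ℕ), Integrable (fun v : ℝ => osc (locf Y) v *
      Complex.exp ((v * Real.log n : ℝ) * I)) := by
    intro n
    refine hint.mul_bdd (c := 1) (by fun_prop) (Filter.Eventually.of_forall fun v => ?_)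
    rw [Complex.norm_exp_ofReal_mul_I]
  have hterm : ∀ v : ℝ, osc (locf Y) v * QX Y μ j₀ i (t - v) = ∑ n ∈ Icc 1 (NN Y),
      ((qX Y μ j₀ n / n : ℝ) : ℂ) * i.2 (n : ZMod i.1) * nit n t *
        (osc (locf Y) v * Complex.exp ((v * Real.log n : ℝ) * I)) := by
    intro v
    unfold QX DP
    rw [Finset.mul_sum]
    refine Finset.sum_congr rfl fun n hn => ?_
    have hn1 := (Finset.mem_Icc.1 hn).1
    have h1 : nit n (t - v) = nit n t * Complex.exp ((v * Real.log n : ℝ) * I) := by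
      rw [DMvB_nit_eq hn1, DMvB_nit_eq hn1, ← Complex.exp_add]
      congr 1
      push_cast
      ring
    rw [h1]
    ring
  simp only [hterm]
  rw [integral_finsetSum _ fun n _ => (hexp n).const_mul _, Finset.mul_sum]
  unfold FF DP
  refine Finset.sum_congr rfl fun n hn => ?_
  rw [integral_const_mul]
  have h2 := tent_inv 2 (2 * Real.log Y) (Real.log n) two_pos
  rw [← hloc] at h2
  have h3 : ((fX Y μ j₀ n / n : ℝ) : ℂ) = ((qX Y μ j₀ n / n : ℝ) : ℂ) *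
      (tent ((Real.log n - 2 * Real.log Y) / 2) : ℂ) := by
    unfold fX locf
    push_cast
    ring
  rw [h3, h2]
  ring

/-- The trivial bound: `|QX|, |FF| ≤ C` (`qX ≤ 20 μ rh`, `rough_mass`), and the derivative. -/
theorem QX_le (μ j₀ : ℕ) (hμ : 8 ≤ μ) (hj : 2 ≤ j₀) (hj' : j₀ ≤ μ) : ∃ C Y₀ : ℝ, 1 ≤ C ∧ 3 ≤ Y₀ ∧
    ∀ (Y : ℝ) (i : CC) (t : ℝ), Y₀ ≤ Y → ‖QX Y μ j₀ i t‖ ≤ C ∧ ‖FF Y μ j₀ i t‖ ≤ C ∧
      ∑ n ∈ Icc 1 (NN Y), qX Y μ j₀ n / n ≤ C := by
  have hμ0 : (0 : ℝ) < ((4 * μ : ℕ) : ℝ) := by exact_mod_cast (by omega : 0 < 4 * μ)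
  have hj1 : (2 : ℝ) ≤ j₀ := by exact_mod_cast hj
  have hθ : 0 < ((j₀ : ℝ) - 1) / (4 * μ : ℕ) := div_pos (by linarith) hμ0
  obtain ⟨C, Y₀, hC, hY₀, H⟩ := rough_mass 1 (((j₀ : ℝ) - 1) / (4 * μ : ℕ)) one_pos le_rfl hθ
  refine ⟨1 + 20 * μ * C, max Y₀ (Real.exp 2), by
    have : 0 ≤ 20 * (μ : ℝ) * C := by positivity
    linarith, hY₀.trans (le_max_left _ _), ?_⟩
  intro Y i t hY
  have hY1 : Y₀ ≤ Y := (le_max_left _ _).trans hY
  have hY3 : 3 ≤ Y := hY₀.trans hY1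
  have hY0 : (0 : ℝ) < Y := by linarith
  have hL : 2 ≤ Real.log Y := (Real.le_log_iff_exp_le hY0).2 ((le_max_right _ _).trans hY)
  have hsum : ∑ n ∈ Icc 1 (NN Y), qX Y μ j₀ n / n ≤ 1 + 20 * μ * C := by
    have h1 := H Y (2 * Real.log Y) (1 / 2 * Real.log Y) (NN Y) hY1 (by linarith) (by linarith)
      (by linarith)
    have h2 : C * (1 / 2 * Real.log Y) / Real.log Y = C / 2 := by
      field_simp
    rw [h2] at h1
    have h3 : ∑ n ∈ Icc 1 (NN Y), qX Y μ j₀ n / n ≤ ∑ n ∈ (Icc 1 (NN Y)).filter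
        (fun n : ℕ => 2 * Real.log Y - 1 / 2 * Real.log Y ≤ Real.log n ∧
          Real.log n ≤ 2 * Real.log Y + 1 / 2 * Real.log Y),
          20 * μ * (rh (Y ^ (((j₀ : ℝ) - 1) / (4 * μ : ℕ))) n / n) := by
      rw [Finset.sum_filter]
      refine Finset.sum_le_sum fun n _ => ?_
      obtain ⟨g1, -, g2, -, g3, -⟩ := q_props Y μ j₀ n hY3 hμ hj hj'
      by_cases hq : qX Y μ j₀ n = 0
      · rw [hq, zero_div]
        split_ifs
        · have := HQ_rh_nonneg (Y ^ (((j₀ : ℝ) - 1) / (4 * μ : ℕ))) n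
          positivity
        · exact le_rfl
      · obtain ⟨g4, g5, g6⟩ := g3 hq
        have hn : (0 : ℝ) < n := lt_of_lt_of_le (Real.rpow_pos_of_pos hY0 _) g5
        have g7 := Real.log_le_log (Real.rpow_pos_of_pos hY0 _) g5
        have g8 := Real.log_le_log hn g6
        rw [Real.log_rpow hY0] at g7 g8
        rw [if_pos ⟨by linarith, by linarith⟩, g4, mul_one_div]
        exact div_le_div_of_nonneg_right g2 hn.le
    rw [← Finset.mul_sum] at h3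
    have h4 : 20 * (μ : ℝ) * ∑ n ∈ (Icc 1 (NN Y)).filter
        (fun n : ℕ => 2 * Real.log Y - 1 / 2 * Real.log Y ≤ Real.log n ∧
          Real.log n ≤ 2 * Real.log Y + 1 / 2 * Real.log Y),
          rh (Y ^ (((j₀ : ℝ) - 1) / (4 * μ : ℕ))) n / n ≤ 20 * μ * (C / 2) :=
      mul_le_mul_of_nonneg_left h1 (by positivity)
    have h5 : 0 ≤ (μ : ℝ) * C := by positivity
    linarith
  have hq0 : ∀ n, 0 ≤ qX Y μ j₀ n := fun n => (q_props Y μ j₀ n hY3 hμ hj hj').1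
  refine ⟨?_, ?_, hsum⟩
  · refine (DP_le _ _ _ _).trans (le_trans (le_of_eq ?_) hsum)
    exact Finset.sum_congr rfl fun n _ => by rw [abs_of_nonneg (hq0 n)]
  · refine (DP_le _ _ _ _).trans (le_trans (Finset.sum_le_sum fun n _ => ?_) hsum)
    have h6 := fX_props Y μ j₀ n hY3 hμ hj hj'
    rw [abs_of_nonneg h6.1]
    refine div_le_div_of_nonneg_right ?_ (Nat.cast_nonneg n)
    unfold fX
    calc qX Y μ j₀ n * locf Y (Real.log n) ≤ qX Y μ j₀ n * 1 :=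
          mul_le_mul_of_nonneg_left (GFun_tent_le _) (hq0 n)
      _ = _ := mul_one _

/-- The bad set is measurable: the second set is relatively open in `[-Y ^ (1 + c), Y ^ (1 + c)]` (a union over `v` of preimages of
open sets under translations of a continuous function). -/
theorem Bad_meas (Y : ℝ) (μ j₀ : ℕ) (c : ℝ) (i : CC) (hY : 3 ≤ Y) (hc : 0 < c) :
    MeasurableSet (Bad Y μ j₀ c i) ∧ Bad Y μ j₀ c i ⊆ Set.Icc (-Y ^ (1 + c)) (Y ^ (1 + c)) ∧
      Set.Icc (-Y ^ c) (Y ^ c) ⊆ Bad Y μ j₀ c i := by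
  refine ⟨?_, ?_, ?_⟩
  · unfold Bad
    have h1 : MeasurableSet {t : ℝ | |t| ≤ Y ^ c} :=
      (isClosed_le continuous_abs continuous_const).measurableSet
    have h2 : MeasurableSet {t : ℝ | |t| ≤ Y ^ (1 + c)} :=
      (isClosed_le continuous_abs continuous_const).measurableSet
    have h3 : IsOpen (⋃ (v : ℝ) (_ : |v| ≤ Y ^ c) (j : ℕ) (_ : j ∈ Icc j₀ (4 * μ)) (k : ℕ),
        {t : ℝ | Y ^ (-(2 * c)) < ‖DP (NN Y) (pd Y μ j k) i.2 (t - v)‖}) := by
      refine isOpen_iUnion fun v => isOpen_iUnion fun _ => isOpen_iUnion fun j =>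
        isOpen_iUnion fun _ => isOpen_iUnion fun k => ?_
      refine isOpen_lt continuous_const ?_
      exact ((DP_continuous (NN Y) (pd Y μ j k) i.2).comp
        (continuous_id.sub continuous_const)).norm
    refine h1.union ?_
    have h4 : {t : ℝ | |t| ≤ Y ^ (1 + c) ∧ ∃ v : ℝ, |v| ≤ Y ^ c ∧ ∃ j ∈ Icc j₀ (4 * μ), ∃ k : ℕ,
        Y ^ (-(2 * c)) < ‖DP (NN Y) (pd Y μ j k) i.2 (t - v)‖} =
        {t : ℝ | |t| ≤ Y ^ (1 + c)} ∩ (⋃ (v : ℝ) (_ : |v| ≤ Y ^ c) (j : ℕ)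
          (_ : j ∈ Icc j₀ (4 * μ)) (k : ℕ),
          {t : ℝ | Y ^ (-(2 * c)) < ‖DP (NN Y) (pd Y μ j k) i.2 (t - v)‖}) := by
      ext t
      simp only [Set.mem_setOf_eq, Set.mem_inter_iff, Set.mem_iUnion, exists_prop]
    rw [h4]
    exact h2.inter h3.measurableSet
  · rintro t (ht | ht)
    · have h1 : Y ^ c ≤ Y ^ (1 + c) :=
        Real.rpow_le_rpow_of_exponent_le (by linarith) (by linarith)
      exact abs_le.1 (le_trans ht h1)
    · exact abs_le.1 ht.1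
  · intro t ht
    exact Or.inl (abs_le.2 ht)

end Pool.Agent.M58
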