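import Pool.Agent.W_b58c63_m1.BDef

/-!
# The mean square outside of the bad set (helper68)
-/

set_option autoImplicit false

noncomputable section

open Finset MeasureTheory Complex

namespace Pool.Agent.M58

/-- The near diagonal pairs: for `fX` only the dyadic pieces `p ~ 2 ^ k`, `l ~ 2 ^ k'` with `2 ^ (k + k') ≥ Y ^ 2 / 32` matter. Here
`rd` are the dyadic pieces of the rough blocks. -/
def rd (Y : ℝ) (μ j k k' n : ℕ) : ℝ :=
  if 2 ^ k' ≤ n ∧ n < 2 ^ (k' + 1) then rb Y (4 * μ) (Y ^ (((j : ℝ) - 1) / (4 * μ : ℕ))) k n else 0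

def Qn (Y : ℝ) (μ j₀ : ℕ) (i : CC) (t : ℝ) : ℂ :=
  ∑ j ∈ Icc j₀ (4 * μ), ∑ k ∈ Icc (7 * μ - j) (9 * μ - j), ∑ k₁ ∈ range (NN Y), ∑ k₂ ∈ range (NN Y),
    if Y ^ 2 / 32 ≤ (2 : ℝ) ^ (k₁ + k₂) then DP (NN Y) (pd Y μ j k₁) i.2 t * DP (NN Y) (rd Y μ j k k₂) i.2 t else 0

theorem BGo_DP_sum {ι : Type*} (s : Finset ι) (N : ℕ) (a : ι → ℕ → ℝ) {r : ℕ}
    (χ : DirichletCharacter ℂ r) (t : ℝ) :
    DP N (fun n => ∑ i ∈ s, a i n) χ t = ∑ i ∈ s, DP N (a i) χ t := by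
  unfold DP
  rw [Finset.sum_comm]
  refine Finset.sum_congr rfl fun n _ => ?_
  rw [Finset.sum_div]
  push_cast
  rw [Finset.sum_mul, Finset.sum_mul]

theorem BGo_DP_congr (N : ℕ) (a b : ℕ → ℝ) {r : ℕ} (χ : DirichletCharacter ℂ r) (t : ℝ)
    (h : ∀ n ∈ Icc 1 N, a n = b n) : DP N a χ t = DP N b χ t := by
  unfold DP
  exact Finset.sum_congr rfl fun n hn => by rw [h n hn]

theorem BGo_DP_ite (N : ℕ) (a : ℕ → ℝ) {r : ℕ} (χ : DirichletCharacter ℂ r) (t : ℝ) (P : Prop)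
    [Decidable P] : DP N (fun n => if P then a n else 0) χ t = if P then DP N a χ t else 0 := by
  split_ifs with h
  · rfl
  · unfold DP
    exact Finset.sum_eq_zero fun n _ => by simp

theorem BGo_nit_shift {n : ℕ} (hn : 1 ≤ n) (t v : ℝ) :
    nit n (t - v) = nit n t * Complex.exp ((v * Real.log n : ℝ) * I) := by
  rw [DMvB_nit_eq hn, DMvB_nit_eq hn, ← Complex.exp_add]
  congr 1
  push_cast
  ring

theorem BGo_osc_int (Y : ℝ) : Integrable (osc (locf Y)) :=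
  STe_int 2 (2 * Real.log Y) two_pos

theorem BGo_inv (Y : ℝ) (N : ℕ) (g : ℕ → ℝ) {r : ℕ} (χ : DirichletCharacter ℂ r) (t : ℝ) :
    DP N (fun n => g n * locf Y (Real.log n)) χ t =
      (1 / (2 * Real.pi) : ℂ) * ∫ v : ℝ, osc (locf Y) v * DP N g χ (t - v) := by
  have h1 : ∀ v : ℝ, osc (locf Y) v * DP N g χ (t - v) = ∑ n ∈ Icc 1 N,
      (((g n / n : ℝ) : ℂ) * χ (n : ZMod r) * nit n t) *
        (osc (locf Y) v * Complex.exp ((v * Real.log n : ℝ) * I)) := by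
    intro v
    unfold DP
    rw [Finset.mul_sum]
    refine Finset.sum_congr rfl fun n hn => ?_
    rw [BGo_nit_shift (Finset.mem_Icc.1 hn).1]
    ring
  have h2 : ∀ n : ℕ, Integrable (fun v : ℝ =>
      osc (locf Y) v * Complex.exp ((v * Real.log n : ℝ) * I)) := by
    intro n
    have hc : Continuous (fun v : ℝ => Complex.exp ((v * Real.log n : ℝ) * I)) := by fun_prop
    refine Integrable.mono' (BGo_osc_int Y).norm
      ((BGo_osc_int Y).aestronglyMeasurable.mul hc.aestronglyMeasurable)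
      (Filter.Eventually.of_forall fun v => ?_)
    rw [norm_mul, Complex.norm_exp_ofReal_mul_I, mul_one]
  simp_rw [h1]
  rw [integral_finsetSum _ (fun n _ => (h2 n).const_mul _), Finset.mul_sum]
  unfold DP
  refine Finset.sum_congr rfl fun n _ => ?_
  rw [integral_const_mul]
  have h3 : ((locf Y (Real.log n) : ℝ) : ℂ) = (1 / (2 * Real.pi) : ℂ) *
      ∫ u : ℝ, osc (locf Y) u * Complex.exp ((u * Real.log n : ℝ) * I) :=
    tent_inv 2 (2 * Real.log Y) (Real.log n) two_pos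
  have h4 : (((g n * locf Y (Real.log n) / n : ℝ)) : ℂ) =
      ((g n / n : ℝ) : ℂ) * ((locf Y (Real.log n) : ℝ) : ℂ) := by
    push_cast
    ring
  rw [h4, h3]
  ring

/-- The near part of `qX`. -/
def BGo_g (Y : ℝ) (μ j₀ : ℕ) (n : ℕ) : ℝ :=
  ∑ j ∈ Icc j₀ (4 * μ), ∑ k ∈ Icc (7 * μ - j) (9 * μ - j), ∑ k₁ ∈ range (NN Y), ∑ k₂ ∈ range (NN Y),
    if Y ^ 2 / 32 ≤ (2 : ℝ) ^ (k₁ + k₂) then cv (pd Y μ j k₁) (rd Y μ j k k₂) n else 0

theorem BGo_N (Y : ℝ) : Y ^ 6 ≤ (NN Y : ℝ) := Nat.le_ceil _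

theorem BGo_Gt_supp (Y : ℝ) (m k n : ℕ) (hY : 3 ≤ Y) (hm : 1 ≤ m) (hn : n ≠ 0)
    (h : Gt Y m k (Real.log n) ≠ 0) : (n : ℝ) < Y ^ (((k : ℝ) + 1) / m) := by
  have h1 := ((Gt_props Y m k hY hm).2.2 _ h).2
  have hn' : (0 : ℝ) < n := by exact_mod_cast Nat.pos_of_ne_zero hn
  have hY0 : (0 : ℝ) < Y := by linarith
  rw [Real.rpow_def_of_pos hY0, ← Real.log_lt_iff_lt_exp hn', mul_comm]
  exact h1

theorem BGo_pd_supp {Y : ℝ} {μ j k n : ℕ} (h : pd Y μ j k n ≠ 0) :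
    2 ^ k ≤ n ∧ n < 2 ^ (k + 1) ∧ (n : ℝ) ≤ Y := by
  unfold pd at h
  split_ifs at h with h1
  · unfold pbY at h
    split_ifs at h with h2
    · exact ⟨h1.1, h1.2, h2⟩
    · exact absurd rfl h
  · exact absurd rfl h

theorem BGo_rh_supp {z : ℝ} {n : ℕ} (h : rh z n ≠ 0) : n ≠ 0 := by
  classical
  intro h0
  apply h
  unfold rh
  rw [if_neg]
  intro h1
  exact h1.1 h0

theorem BGo_rd_supp {Y : ℝ} {μ j k k' n : ℕ} (hY : 3 ≤ Y) (hμ : 8 ≤ μ) (hk : k ≤ 9 * μ)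
    (h : rd Y μ j k k' n ≠ 0) : 2 ^ k' ≤ n ∧ n < 2 ^ (k' + 1) ∧ (n : ℝ) ≤ Y ^ 3 := by
  unfold rd at h
  split_ifs at h with h1
  · refine ⟨h1.1, h1.2, ?_⟩
    unfold rb at h
    have h2 := BGo_rh_supp (left_ne_zero_of_mul h)
    have h3 := BGo_Gt_supp Y (4 * μ) k n hY (by omega) h2 (right_ne_zero_of_mul h)
    refine h3.le.trans ?_
    rw [← Real.rpow_natCast Y 3]
    refine Real.rpow_le_rpow_of_exponent_le (by linarith) ?_
    have hm : (0 : ℝ) < ((4 * μ : ℕ) : ℝ) := by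
      have : 0 < 4 * μ := by omega
      exact_mod_cast this
    rw [div_le_iff₀ hm]
    have : k + 1 ≤ 3 * (4 * μ) := by omega
    exact_mod_cast this
  · exact absurd rfl h

theorem BGo_Qn_eq (Y : ℝ) (μ j₀ : ℕ) (i : CC) (t : ℝ) (hY : 3 ≤ Y) (hμ : 8 ≤ μ) :
    Qn Y μ j₀ i t = DP (NN Y) (BGo_g Y μ j₀) i.2 t := by
  unfold Qn BGo_g
  rw [BGo_DP_sum]
  refine Finset.sum_congr rfl fun j _ => ?_
  rw [BGo_DP_sum]
  refine Finset.sum_congr rfl fun k hk => ?_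
  rw [BGo_DP_sum]
  refine Finset.sum_congr rfl fun k₁ _ => ?_
  rw [BGo_DP_sum]
  refine Finset.sum_congr rfl fun k₂ _ => ?_
  rw [BGo_DP_ite]
  split_ifs with h
  · have hY0 : (0 : ℝ) < Y := by linarith
    have hk' : k ≤ 9 * μ := by
      have := (Finset.mem_Icc.1 hk).2
      omega
    refine (DP_mul (NN Y) (pd Y μ j k₁) (rd Y μ j k k₂) ⌊Y⌋₊ ⌊Y ^ 3⌋₊ ?_ ?_ ?_ i.2 t).symm
    · intro n hn
      by_contra hc
      have h2 := Nat.le_floor (BGo_pd_supp hc).2.2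
      omega
    · intro n hn
      by_contra hc
      have h2 := Nat.le_floor (BGo_rd_supp hY hμ hk' hc).2.2
      omega
    · have h3 : ((⌊Y⌋₊ * ⌊Y ^ 3⌋₊ : ℕ) : ℝ) ≤ NN Y := by
        push_cast
        calc (⌊Y⌋₊ : ℝ) * ⌊Y ^ 3⌋₊ ≤ Y * Y ^ 3 :=
              mul_le_mul (Nat.floor_le hY0.le) (Nat.floor_le (by positivity)) (Nat.cast_nonneg _)
                hY0.le
          _ = Y ^ 4 := by ring
          _ ≤ Y ^ 6 := pow_le_pow_right₀ (by linarith) (by norm_num)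
          _ ≤ NN Y := BGo_N Y
      exact_mod_cast h3
  · rfl

theorem BGo_dy (N n : ℕ) (hn : 1 ≤ n) (hnN : n ≤ N) (a : ℝ) :
    ∑ k ∈ range N, (if 2 ^ k ≤ n ∧ n < 2 ^ (k + 1) then a else 0) = a := by
  have h0 : n ≠ 0 := by omega
  have h1 : 2 ^ Nat.log 2 n ≤ n := Nat.pow_log_le_self 2 h0
  have h2 : n < 2 ^ (Nat.log 2 n + 1) := Nat.lt_pow_succ_log_self (by norm_num) n
  have h3 : Nat.log 2 n < N := by
    have h4 : Nat.log 2 n < 2 ^ Nat.log 2 n := Nat.lt_two_pow_self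
    omega
  rw [Finset.sum_eq_single_of_mem (Nat.log 2 n) (Finset.mem_range.2 h3)]
  · rw [if_pos ⟨h1, h2⟩]
  · intro k _ hk
    rw [if_neg]
    rintro ⟨h4, h5⟩
    apply hk
    exact (Nat.log_eq_of_pow_le_of_lt_pow h4 h5).symm

theorem BGo_cv_near {Y : ℝ} {μ j k k₁ k₂ n : ℕ} (h : cv (pd Y μ j k₁) (rd Y μ j k k₂) n ≠ 0) :
    2 ^ (k₁ + k₂) ≤ n ∧ n < 4 * 2 ^ (k₁ + k₂) := by
  unfold cv at h
  obtain ⟨d, hd, hd2⟩ := Finset.exists_ne_zero_of_sum_ne_zero h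
  have h1 := BGo_pd_supp (left_ne_zero_of_mul hd2)
  have h2 := right_ne_zero_of_mul hd2
  have h3 : 2 ^ k₂ ≤ n / d ∧ n / d < 2 ^ (k₂ + 1) := by
    unfold rd at h2
    split_ifs at h2 with h4
    · exact h4
    · exact absurd rfl h2
  have hdn : d * (n / d) = n := Nat.mul_div_cancel' (Nat.dvd_of_mem_divisors hd)
  constructor
  · rw [← hdn, pow_add]
    exact Nat.mul_le_mul h1.1 h3.1
  · rw [← hdn, pow_add]
    have h5 : d * (n / d) < 2 ^ (k₁ + 1) * 2 ^ (k₂ + 1) :=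
      Nat.mul_lt_mul'' h1.2.1 h3.2
    calc d * (n / d) < 2 ^ (k₁ + 1) * 2 ^ (k₂ + 1) := h5
      _ = 4 * (2 ^ k₁ * 2 ^ k₂) := by ring

theorem BGo_locf_zero {Y : ℝ} {n : ℕ} (hY : 3 ≤ Y) (hn : 1 ≤ n) (h : (n : ℝ) ≤ Y ^ 2 / 8) :
    locf Y (Real.log n) = 0 := by
  unfold locf
  apply STe_supp
  have hn0 : (0 : ℝ) < n := by exact_mod_cast hn
  have hY0 : (0 : ℝ) < Y := by linarith
  have h1 : Real.log n ≤ 2 * Real.log Y - Real.log 8 := by
    refine (Real.log_le_log hn0 h).trans (le_of_eq ?_)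
    rw [Real.log_div (by positivity) (by norm_num), Real.log_pow]
    push_cast
    ring
  have h2 : (2 : ℝ) ≤ Real.log 8 := by
    have h3 : (8 : ℝ) = 2 ^ 3 := by norm_num
    rw [h3, Real.log_pow]
    have := Real.log_two_gt_d9
    push_cast
    linarith
  rw [le_abs]
  right
  linarith

/-- decomposition of a convolution into dyadic pieces -/
theorem BGo_cv_dec (Y : ℝ) (μ j k n : ℕ) (hn : n ∈ Icc 1 (NN Y)) :
    cv (pbY Y (4 * μ) j) (rb Y (4 * μ) (Y ^ (((j : ℝ) - 1) / (4 * μ : ℕ))) k) n =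
      ∑ k₁ ∈ range (NN Y), ∑ k₂ ∈ range (NN Y), cv (pd Y μ j k₁) (rd Y μ j k k₂) n := by
  obtain ⟨hn1, hn2⟩ := Finset.mem_Icc.1 hn
  unfold cv
  have h1 : ∀ d ∈ n.divisors, pbY Y (4 * μ) j d *
      rb Y (4 * μ) (Y ^ (((j : ℝ) - 1) / (4 * μ : ℕ))) k (n / d) =
        ∑ k₁ ∈ range (NN Y), ∑ k₂ ∈ range (NN Y), pd Y μ j k₁ d * rd Y μ j k k₂ (n / d) := by
    intro d hd
    have hdn := Nat.dvd_of_mem_divisors hd
    have hd1 : 1 ≤ d := Nat.pos_of_mem_divisors hd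
    have hd2 : d ≤ NN Y := (Nat.le_of_dvd (by omega) hdn).trans hn2
    have hd3 : 1 ≤ n / d := Nat.div_pos (Nat.le_of_dvd (by omega) hdn) hd1
    have hd4 : n / d ≤ NN Y := (Nat.div_le_self _ _).trans hn2
    rw [← Finset.sum_mul_sum]
    congr 1
    · exact (BGo_dy (NN Y) d hd1 hd2 _).symm
    · exact (BGo_dy (NN Y) (n / d) hd3 hd4 _).symm
  rw [Finset.sum_congr rfl h1, Finset.sum_comm]
  refine Finset.sum_congr rfl fun k₁ _ => ?_
  rw [Finset.sum_comm]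

theorem BGo_fX (Y : ℝ) (μ j₀ n : ℕ) (hY : 3 ≤ Y) (hn : n ∈ Icc 1 (NN Y)) :
    fX Y μ j₀ n = BGo_g Y μ j₀ n * locf Y (Real.log n) := by
  obtain ⟨hn1, hn2⟩ := Finset.mem_Icc.1 hn
  unfold fX qX BGo_g
  rw [Finset.sum_mul, Finset.sum_mul]
  refine Finset.sum_congr rfl fun j _ => ?_
  rw [Finset.sum_mul, Finset.sum_mul]
  refine Finset.sum_congr rfl fun k _ => ?_
  rw [BGo_cv_dec Y μ j k n hn, Finset.sum_mul, Finset.sum_mul]
  refine Finset.sum_congr rfl fun k₁ _ => ?_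
  rw [Finset.sum_mul, Finset.sum_mul]
  refine Finset.sum_congr rfl fun k₂ _ => ?_
  split_ifs with h
  · rfl
  · rw [zero_mul]
    by_cases hc : cv (pd Y μ j k₁) (rd Y μ j k k₂) n = 0
    · rw [hc, zero_mul]
    · have h1 := (BGo_cv_near hc).2
      have h2 : (n : ℝ) < 4 * 2 ^ (k₁ + k₂) := by exact_mod_cast h1
      rw [not_le] at h
      rw [BGo_locf_zero hY hn1 (by linarith), mul_zero]

/-- (`fX` is `qX` times `locf`; the pairs of pieces with `2 ^ (k₁ + k₂) < Y ^ 2 / 32` have products `n < Y ^ 2 / 8`, where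
`locf (log n) = 0`. The products are expanded with `DP_mul`; `tent_inv` for `locf`.) -/
theorem FF_near (Y : ℝ) (μ j₀ : ℕ) (i : CC) (t : ℝ) (hY : 3 ≤ Y) (hμ : 8 ≤ μ) (hj : 2 ≤ j₀) (hj' : j₀ ≤ μ) :
    FF Y μ j₀ i t = (1 / (2 * Real.pi) : ℂ) * ∫ v : ℝ, osc (locf Y) v * Qn Y μ j₀ i (t - v) := by
  simp_rw [BGo_Qn_eq Y μ j₀ i _ hY hμ]
  rw [← BGo_inv]
  unfold FF
  exact BGo_DP_congr _ _ _ _ _ fun n hn => BGo_fX Y μ j₀ n hY hn
theorem BGo_pb_nonneg (Y : ℝ) (m j n : ℕ) (hY : 3 ≤ Y) (hm : 1 ≤ m) : 0 ≤ pb Y m j n := by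
  unfold pb pw
  split_ifs
  · exact ((Gt_props Y m j hY hm).1 _).1
  · exact le_rfl

theorem BGo_pd_nonneg (Y : ℝ) (μ j k n : ℕ) (hY : 3 ≤ Y) (hμ : 8 ≤ μ) : 0 ≤ pd Y μ j k n := by
  unfold pd pbY
  split_ifs
  · exact BGo_pb_nonneg Y (4 * μ) j n hY (by omega)
  · exact le_rfl
  · exact le_rfl

theorem BGo_rh01 (z : ℝ) (n : ℕ) : 0 ≤ rh z n ∧ rh z n ≤ 1 := by
  unfold rh
  split_ifs
  · exact ⟨zero_le_one, le_rfl⟩
  · exact ⟨le_rfl, zero_le_one⟩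

theorem BGo_rd01 (Y : ℝ) (μ j k k' n : ℕ) (hY : 3 ≤ Y) (hμ : 8 ≤ μ) :
    0 ≤ rd Y μ j k k' n ∧ rd Y μ j k k' n ≤ 1 := by
  unfold rd rb
  have h1 := BGo_rh01 (Y ^ (((j : ℝ) - 1) / (4 * μ : ℕ))) n
  have h2 := (Gt_props Y (4 * μ) k hY (by omega)).1 (Real.log n)
  split_ifs
  · exact ⟨mul_nonneg h1.1 h2.1, mul_le_one₀ h1.2 h2.1 h2.2⟩
  · exact ⟨le_rfl, zero_le_one⟩

theorem BGo_cv_nonneg (a b : ℕ → ℝ) (ha : ∀ n, 0 ≤ a n) (hb : ∀ n, 0 ≤ b n) (n : ℕ) :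
    0 ≤ cv a b n :=
  Finset.sum_nonneg fun _ _ => mul_nonneg (ha _) (hb _)

theorem BGo_g_props (Y : ℝ) (μ j₀ n : ℕ) (hY : 3 ≤ Y) (hμ : 8 ≤ μ) (hj : 2 ≤ j₀) (hj' : j₀ ≤ μ)
    (hn : n ∈ Icc 1 (NN Y)) :
    |BGo_g Y μ j₀ n| ≤ 20 * μ ∧ (BGo_g Y μ j₀ n ≠ 0 → Y ^ 2 / 32 ≤ n) := by
  have h0 : ∀ j k k₁ k₂ : ℕ, 0 ≤ cv (pd Y μ j k₁) (rd Y μ j k k₂) n := fun j k k₁ k₂ =>
    BGo_cv_nonneg _ _ (fun m => BGo_pd_nonneg Y μ j k₁ m hY hμ)
      (fun m => (BGo_rd01 Y μ j k k₂ m hY hμ).1) n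
  constructor
  · have h1 : 0 ≤ BGo_g Y μ j₀ n := by
      unfold BGo_g
      refine Finset.sum_nonneg fun j _ => Finset.sum_nonneg fun k _ => Finset.sum_nonneg fun k₁ _ =>
        Finset.sum_nonneg fun k₂ _ => ?_
      split_ifs
      · exact h0 j k k₁ k₂
      · exact le_rfl
    rw [abs_of_nonneg h1]
    refine le_trans ?_ (q_props Y μ j₀ n hY hμ hj hj').2.2.1
    unfold BGo_g qX
    refine Finset.sum_le_sum fun j _ => Finset.sum_le_sum fun k _ => ?_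
    rw [BGo_cv_dec Y μ j k n hn]
    refine Finset.sum_le_sum fun k₁ _ => Finset.sum_le_sum fun k₂ _ => ?_
    split_ifs
    · exact le_rfl
    · exact h0 j k k₁ k₂
  · intro h
    unfold BGo_g at h
    obtain ⟨j, _, hj⟩ := Finset.exists_ne_zero_of_sum_ne_zero h
    obtain ⟨k, _, hk⟩ := Finset.exists_ne_zero_of_sum_ne_zero hj
    obtain ⟨k₁, _, hk₁⟩ := Finset.exists_ne_zero_of_sum_ne_zero hk
    obtain ⟨k₂, _, hk₂⟩ := Finset.exists_ne_zero_of_sum_ne_zero hk₁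
    split_ifs at hk₂ with h1
    · have h2 := (BGo_cv_near hk₂).1
      have h3 : (2 : ℝ) ^ (k₁ + k₂) ≤ n := by exact_mod_cast h2
      linarith
    · exact absurd rfl hk₂

theorem BGo_harm (N : ℕ) : ∑ n ∈ Icc 1 N, (1 : ℝ) / n ≤ 1 + Real.log N := by
  have h := harmonic_le_one_add_log N
  rw [harmonic_eq_sum_Icc] at h
  push_cast at h
  simpa only [one_div] using h

/-- The mean value theorem with the sup norm. -/
theorem BGo_mv : ∃ C : ℝ, 1 ≤ C ∧ ∀ (N r : ℕ) (a : ℕ → ℝ) (χ : DirichletCharacter ℂ r)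
    (K L t₀ T : ℝ), 1 ≤ N → 0 ≤ T → 0 < L → (∀ n ∈ Icc 1 N, |a n| ≤ K) →
    (∀ n ∈ Icc 1 N, a n ≠ 0 → L ≤ n) →
    ∫ t in t₀..(t₀ + T), ‖DP N a χ t‖ ^ 2 ≤ C * (1 + Real.log N) ^ 3 * K ^ 2 * (T / L + 1) := by
  obtain ⟨C, hC, h⟩ := mv_DP
  refine ⟨C, hC, fun N r a χ K L t₀ T hN hT hL hK ha => (h N r a χ t₀ T hN hT).trans ?_⟩
  have hlog : 0 ≤ 1 + Real.log N := by
    have := Real.log_natCast_nonneg N
    linarith
  have h1 : ∑ n ∈ Icc 1 N, a n ^ 2 * (T / n ^ 2 + 1 / n) ≤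
      ∑ n ∈ Icc 1 N, K ^ 2 * (T / L + 1) * (1 / n) := by
    refine Finset.sum_le_sum fun n hn => ?_
    have hn0 : (0 : ℝ) < n := by exact_mod_cast (Finset.mem_Icc.1 hn).1
    by_cases h0 : a n = 0
    · rw [h0]
      have : 0 ≤ K ^ 2 * (T / L + 1) * (1 / n) := by positivity
      simpa using this
    · have h2 := ha n hn h0
      have h3 : a n ^ 2 ≤ K ^ 2 := by
        rw [← sq_abs (a n)]
        exact pow_le_pow_left₀ (abs_nonneg _) (hK n hn) 2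
      have h4 : T / n ^ 2 + 1 / n ≤ (T / L + 1) * (1 / n) := by
        have h5 : T / n ≤ T / L := div_le_div_of_nonneg_left hT hL h2
        have h6 : T / (n : ℝ) ^ 2 + 1 / n = (T / n + 1) * (1 / n) := by
          field_simp
        rw [h6]
        exact mul_le_mul_of_nonneg_right (by linarith) (by positivity)
      calc a n ^ 2 * (T / n ^ 2 + 1 / n) ≤ K ^ 2 * ((T / L + 1) * (1 / n)) :=
            mul_le_mul h3 h4 (by positivity) (by positivity)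
        _ = _ := by ring
  have h2 : ∑ n ∈ Icc 1 N, K ^ 2 * (T / L + 1) * (1 / (n : ℝ)) ≤
      K ^ 2 * (T / L + 1) * (1 + Real.log N) := by
    rw [← Finset.mul_sum]
    exact mul_le_mul_of_nonneg_left (BGo_harm N) (by positivity)
  calc C * (1 + Real.log N) ^ 2 * ∑ n ∈ Icc 1 N, a n ^ 2 * (T / n ^ 2 + 1 / n)
      ≤ C * (1 + Real.log N) ^ 2 * (K ^ 2 * (T / L + 1) * (1 + Real.log N)) :=
        mul_le_mul_of_nonneg_left (h1.trans h2) (by positivity)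
    _ = _ := by ring

theorem BGo_cs (ν : Measure ℝ) (W h : ℝ → ℝ) (B : ℝ) (hW : ∀ v, 0 ≤ W v) (hWi : Integrable W ν)
    (hm : AEStronglyMeasurable h ν) (hb : ∀ v, |h v| ≤ B) :
    (∫ v, W v * h v ∂ν) ^ 2 ≤ (∫ v, W v ∂ν) * ∫ v, W v * h v ^ 2 ∂ν := by
  have i1 : Integrable (fun v => W v * h v) ν := by
    refine Integrable.mono' (hWi.mul_const B) (hWi.aestronglyMeasurable.mul hm)
      (Filter.Eventually.of_forall fun v => ?_)
    rw [norm_mul, Real.norm_eq_abs, Real.norm_eq_abs, abs_of_nonneg (hW v)]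
    exact mul_le_mul_of_nonneg_left (hb v) (hW v)
  have i2 : Integrable (fun v => W v * h v ^ 2) ν := by
    refine Integrable.mono' (hWi.mul_const (B ^ 2)) (hWi.aestronglyMeasurable.mul (hm.pow 2))
      (Filter.Eventually.of_forall fun v => ?_)
    rw [norm_mul, Real.norm_eq_abs, Real.norm_eq_abs, abs_of_nonneg (hW v), abs_pow]
    exact mul_le_mul_of_nonneg_left (pow_le_pow_left₀ (abs_nonneg _) (hb v) 2) (hW v)
  have key : ∀ x : ℝ, 0 ≤ (∫ v, W v ∂ν) * (x * x) + (-2 * ∫ v, W v * h v ∂ν) * x +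
      ∫ v, W v * h v ^ 2 ∂ν := by
    intro x
    have h1 : ∫ v, W v * (h v - x) ^ 2 ∂ν = (∫ v, W v ∂ν) * (x * x) +
        (-2 * ∫ v, W v * h v ∂ν) * x + ∫ v, W v * h v ^ 2 ∂ν := by
      have h2 : ∀ v, W v * (h v - x) ^ 2 =
          (x * x) * W v + (-2 * x) * (W v * h v) + W v * h v ^ 2 := by
        intro v
        ring
      simp_rw [h2]
      have e1 : ∫ v, (x * x) * W v + (-2 * x) * (W v * h v) + W v * h v ^ 2 ∂ν =
          (∫ v, ((x * x) * W v + (-2 * x) * (W v * h v)) ∂ν) + ∫ v, W v * h v ^ 2 ∂ν :=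
        integral_add ((hWi.const_mul _).add (i1.const_mul _)) i2
      have e2 : ∫ v, ((x * x) * W v + (-2 * x) * (W v * h v)) ∂ν =
          (∫ v, (x * x) * W v ∂ν) + ∫ v, (-2 * x) * (W v * h v) ∂ν :=
        integral_add (hWi.const_mul _) (i1.const_mul _)
      rw [e1, e2, integral_const_mul, integral_const_mul]
      ring
    rw [← h1]
    exact integral_nonneg fun v => mul_nonneg (hW v) (sq_nonneg _)
  have h3 := discrim_le_zero key
  unfold discrim at h3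
  nlinarith

theorem BGo_D (o q : ℝ → ℂ) (S G : Set ℝ) (B M : ℝ) (ho : Integrable o) (hS : MeasurableSet S)
    (hG : volume G < ⊤) (hq : Continuous q) (hqB : ∀ s, ‖q s‖ ≤ B)
    (hM : ∀ v ∈ S, ∫ t in G, ‖q (t - v)‖ ^ 2 ≤ M) :
    ∫ t in G, ‖∫ v in S, o v * q (t - v)‖ ^ 2 ≤ (∫ v in S, ‖o v‖) ^ 2 * M := by
  have hB0 : 0 ≤ B := (norm_nonneg _).trans (hqB 0)
  have hfin : IsFiniteMeasure (volume.restrict G) := ⟨by
    rw [Measure.restrict_apply_univ]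
    exact hG⟩
  have hoS : Integrable (fun v => ‖o v‖) (volume.restrict S) := ho.norm.integrableOn
  have hc : Continuous fun z : ℝ × ℝ => ‖q (z.1 - z.2)‖ ^ 2 := by fun_prop
  have hprod : Integrable (fun z : ℝ × ℝ => ‖o z.2‖ * ‖q (z.1 - z.2)‖ ^ 2)
      ((volume.restrict G).prod (volume.restrict S)) := by
    have h1 : Integrable (fun z : ℝ × ℝ => (1 : ℝ) * ‖o z.2‖)
        ((volume.restrict G).prod (volume.restrict S)) :=
      (integrable_const (1 : ℝ)).mul_prod hoS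
    have h2 : Integrable (fun z : ℝ × ℝ => ‖o z.2‖)
        ((volume.restrict G).prod (volume.restrict S)) := by
      simpa only [one_mul] using h1
    refine Integrable.mono' (h2.mul_const (B ^ 2))
      (h2.aestronglyMeasurable.mul hc.aestronglyMeasurable)
      (Filter.Eventually.of_forall fun z => ?_)
    rw [norm_mul, norm_norm, norm_pow, norm_norm]
    exact mul_le_mul_of_nonneg_left (pow_le_pow_left₀ (norm_nonneg _) (hqB _) 2) (norm_nonneg _)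
  have hpt : ∀ t, ‖∫ v in S, o v * q (t - v)‖ ^ 2 ≤
      (∫ v in S, ‖o v‖) * ∫ v in S, ‖o v‖ * ‖q (t - v)‖ ^ 2 := by
    intro t
    have h1 : ‖∫ v in S, o v * q (t - v)‖ ≤ ∫ v in S, ‖o v‖ * ‖q (t - v)‖ := by
      refine (norm_integral_le_integral_norm _).trans (le_of_eq ?_)
      simp only [norm_mul]
    refine (pow_le_pow_left₀ (norm_nonneg _) h1 2).trans ?_
    refine BGo_cs (volume.restrict S) (fun v => ‖o v‖) (fun v => ‖q (t - v)‖) B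
      (fun v => norm_nonneg _) hoS ?_ ?_
    · have : Continuous fun v : ℝ => ‖q (t - v)‖ := by fun_prop
      exact this.aestronglyMeasurable
    · intro v
      rw [abs_of_nonneg (norm_nonneg _)]
      exact hqB _
  have hI0 : 0 ≤ ∫ v in S, ‖o v‖ := integral_nonneg fun v => norm_nonneg _
  calc ∫ t in G, ‖∫ v in S, o v * q (t - v)‖ ^ 2
      ≤ ∫ t in G, (∫ v in S, ‖o v‖) * ∫ v in S, ‖o v‖ * ‖q (t - v)‖ ^ 2 := by
        refine integral_mono_of_nonneg (Filter.Eventually.of_forall fun t => by positivity) ?_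
          (Filter.Eventually.of_forall hpt)
        exact hprod.integral_prod_left.const_mul _
    _ = (∫ v in S, ‖o v‖) * ∫ t in G, ∫ v in S, ‖o v‖ * ‖q (t - v)‖ ^ 2 := integral_const_mul _ _
    _ = (∫ v in S, ‖o v‖) * ∫ v in S, ∫ t in G, ‖o v‖ * ‖q (t - v)‖ ^ 2 := by
        congr 1
        exact integral_integral_swap hprod
    _ = (∫ v in S, ‖o v‖) * ∫ v in S, ‖o v‖ * ∫ t in G, ‖q (t - v)‖ ^ 2 := by
        congr 1
        refine integral_congr_ae (Filter.Eventually.of_forall fun v => ?_)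
        exact integral_const_mul _ _
    _ ≤ (∫ v in S, ‖o v‖) * ∫ v in S, ‖o v‖ * M := by
        refine mul_le_mul_of_nonneg_left ?_ hI0
        refine integral_mono_of_nonneg (Filter.Eventually.of_forall fun v =>
          mul_nonneg (norm_nonneg _) (integral_nonneg fun t => by positivity)) (hoS.mul_const M) ?_
        filter_upwards [ae_restrict_mem hS] with v hv
        exact mul_le_mul_of_nonneg_left (hM v hv) (norm_nonneg _)
    _ = (∫ v in S, ‖o v‖) ^ 2 * M := by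
        rw [integral_mul_const]
        ring

theorem BGo_tail1 (f : ℝ → ℝ) (hf : Integrable f)
    (h : ∀ v, f v * v ^ 2 ≤ 2) (a : ℝ) (ha : 0 < a) : ∫ v in Set.Ioi a, f v ≤ 2 / a := by
  have h1 : IntegrableOn (fun v : ℝ => 2 * v ^ (-2 : ℝ)) (Set.Ioi a) :=
    (integrableOn_Ioi_rpow_of_lt (by norm_num) ha).const_mul 2
  have h2 : ∫ v in Set.Ioi a, f v ≤ ∫ v in Set.Ioi a, 2 * v ^ (-2 : ℝ) := by
    refine setIntegral_mono_on hf.integrableOn h1 measurableSet_Ioi fun v hv => ?_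
    have hv0 : 0 < v := ha.trans hv
    rw [Real.rpow_neg hv0.le, ← div_eq_mul_inv, le_div_iff₀ (by positivity)]
    have : v ^ (2 : ℝ) = v ^ 2 := by
      rw [← Real.rpow_natCast]
      norm_num
    rw [this]
    exact h v
  refine h2.trans (le_of_eq ?_)
  rw [integral_const_mul, integral_Ioi_rpow_of_lt (by norm_num) ha]
  have : a ^ ((-2 : ℝ) + 1) = a⁻¹ := by
    rw [← Real.rpow_neg_one]
    norm_num
  rw [this]
  field_simp
  norm_num

theorem BGo_tail (Y a : ℝ) (ha : 0 < a) : ∫ v in {v : ℝ | |v| ≤ a}ᶜ, ‖osc (locf Y) v‖ ≤ 4 / a := by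
  have hi := (BGo_osc_int Y).norm
  have hb : ∀ v, ‖osc (locf Y) v‖ * v ^ 2 ≤ 2 := by
    intro v
    have h : ‖osc (locf Y) v‖ * (2 * v ^ 2) ≤ 4 := (osc_tent 2 (2 * Real.log Y) v two_pos).2
    nlinarith
  have hset : {v : ℝ | |v| ≤ a}ᶜ = Set.Iio (-a) ∪ Set.Ioi a := by
    ext v
    simp only [Set.mem_compl_iff, Set.mem_ofPred_eq, Set.mem_union, Set.mem_Iio, Set.mem_Ioi, not_le,
      lt_abs]
    constructor
    · rintro (h | h)
      · exact Or.inr h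
      · exact Or.inl (by linarith)
    · rintro (h | h)
      · exact Or.inr (by linarith)
      · exact Or.inl h
  rw [hset, setIntegral_union (by
    rw [Set.disjoint_left]
    intro v hv hv'
    simp only [Set.mem_Iio, Set.mem_Ioi] at hv hv'
    linarith) measurableSet_Ioi hi.integrableOn hi.integrableOn]
  have h1 := BGo_tail1 _ hi hb a ha
  have h2 := BGo_tail1 (fun v => ‖osc (locf Y) (-v)‖) hi.comp_neg
    (fun v => by simpa using hb (-v)) a ha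
  have h3 := integral_comp_neg_Ioi a (fun v => ‖osc (locf Y) v‖)
  rw [h3, integral_Iic_eq_integral_Iio] at h2
  have h4 : 4 / a = 2 / a + 2 / a := by ring
  linarith

theorem BGo_growth (C : ℝ) (n : ℕ) (c : ℝ) (hc : 0 < c) :
    ∃ Y₀ : ℝ, 3 ≤ Y₀ ∧ ∀ Y, Y₀ ≤ Y → C * Real.log Y ^ n ≤ Y ^ c := by
  have h1 := isLittleO_log_rpow_rpow_atTop (n : ℝ) hc
  have hC : 0 < 1 / (|C| + 1) := by positivity
  have h2 := h1.def hC
  rw [Filter.eventually_atTop] at h2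
  obtain ⟨Y₁, hY₁⟩ := h2
  refine ⟨max 3 Y₁, le_max_left _ _, fun Y hY => ?_⟩
  have hY3 : 3 ≤ Y := (le_max_left _ _).trans hY
  have h3 := hY₁ Y ((le_max_right _ _).trans hY)
  have hlog : 0 ≤ Real.log Y := Real.log_nonneg (by linarith)
  rw [Real.rpow_natCast, Real.norm_eq_abs, Real.norm_eq_abs, abs_of_nonneg (pow_nonneg hlog n),
    abs_of_nonneg (Real.rpow_nonneg (by linarith) c), one_div, ← div_eq_inv_mul,
    le_div_iff₀ (by positivity)] at h3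
  have h4 : C ≤ |C| + 1 := by linarith [le_abs_self C]
  calc C * Real.log Y ^ n ≤ (|C| + 1) * Real.log Y ^ n :=
        mul_le_mul_of_nonneg_right h4 (pow_nonneg hlog n)
    _ = Real.log Y ^ n * (|C| + 1) := mul_comm _ _
    _ ≤ Y ^ c := h3
theorem BGo_shift (F : ℝ → ℂ) (hF : Continuous F) (G : Set ℝ) (T v : ℝ) (hT : 0 ≤ T)
    (hG : G ⊆ Set.Icc (-T) T) :
    ∫ t in G, ‖F (t - v)‖ ^ 2 ≤ ∫ s in (-T - v)..((-T - v) + 2 * T), ‖F s‖ ^ 2 := by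
  have hc : Continuous fun t : ℝ => ‖F (t - v)‖ ^ 2 := by fun_prop
  have h1 : ∫ t in G, ‖F (t - v)‖ ^ 2 ≤ ∫ t in Set.Icc (-T) T, ‖F (t - v)‖ ^ 2 := by
    refine setIntegral_mono_set ?_ (Filter.Eventually.of_forall fun t => by positivity)
      (LE.le.eventuallyLE hG)
    exact hc.continuousOn.integrableOn_compact isCompact_Icc
  refine h1.trans (le_of_eq ?_)
  rw [integral_Icc_eq_integral_Ioc, ← intervalIntegral.integral_of_le (by linarith)]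
  have h2 := intervalIntegral.integral_comp_sub_right (a := -T) (b := T) (fun s => ‖F s‖ ^ 2) v
  rw [h2]
  congr 1
  ring

def BGo_R (Y : ℝ) (μ : ℕ) (i : CC) (j k k₂ : ℕ) (s : ℝ) : ℝ :=
  if Y / 32 ≤ (2 : ℝ) ^ k₂ then ‖DP (NN Y) (rd Y μ j k k₂) i.2 s‖ else 0

theorem BGo_R_nonneg (Y : ℝ) (μ : ℕ) (i : CC) (j k k₂ : ℕ) (s : ℝ) : 0 ≤ BGo_R Y μ i j k k₂ s := by
  unfold BGo_R
  split_ifs
  · exact norm_nonneg _
  · exact le_rfl

theorem BGo_DP_zero (N : ℕ) (a : ℕ → ℝ) {r : ℕ} (χ : DirichletCharacter ℂ r) (t : ℝ)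
    (h : ∀ n, a n = 0) : DP N a χ t = 0 := by
  unfold DP
  exact Finset.sum_eq_zero fun n _ => by simp [h n]

theorem BGo_cut (N K : ℕ) (f : ℕ → ℝ) (hf : ∀ k, 0 ≤ f k) :
    ∑ k ∈ range N, (if k < K then f k else 0) ≤ ∑ k ∈ range K, f k := by
  rw [← Finset.sum_filter]
  refine Finset.sum_le_sum_of_subset_of_nonneg ?_ fun k _ _ => hf k
  intro k hk
  exact Finset.mem_range.2 (Finset.mem_filter.1 hk).2

theorem BGo_Qn_good (Y : ℝ) (μ j₀ : ℕ) (i : CC) (s ε : ℝ) (K : ℕ) (hY : 3 ≤ Y) (hμ : 8 ≤ μ)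
    (hK : Y ^ 3 < 2 ^ K) (hε : 0 ≤ ε)
    (h : ∀ j ∈ Icc j₀ (4 * μ), ∀ k₁ : ℕ, ‖DP (NN Y) (pd Y μ j k₁) i.2 s‖ ≤ ε) :
    ‖Qn Y μ j₀ i s‖ ≤ ε * K * ∑ j ∈ range (4 * μ + 1), ∑ k ∈ range (9 * μ + 1), ∑ k₂ ∈ range K,
      BGo_R Y μ i j k k₂ s := by
  have hY1 : Y ≤ Y ^ 3 := by nlinarith [sq_nonneg Y]
  have hterm : ∀ j ∈ Icc j₀ (4 * μ), ∀ k ≤ 9 * μ, ∀ k₁ k₂ : ℕ,
      ‖(if Y ^ 2 / 32 ≤ (2 : ℝ) ^ (k₁ + k₂) then
        DP (NN Y) (pd Y μ j k₁) i.2 s * DP (NN Y) (rd Y μ j k k₂) i.2 s else 0)‖ ≤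
      if k₁ < K then (if k₂ < K then ε * BGo_R Y μ i j k k₂ s else 0) else 0 := by
    intro j hj k hk k₁ k₂
    by_cases hk₁ : k₁ < K
    · rw [if_pos hk₁]
      by_cases hk₂ : k₂ < K
      · rw [if_pos hk₂]
        split_ifs with h1
        · by_cases hp : ∀ n, pd Y μ j k₁ n = 0
          · rw [BGo_DP_zero _ _ _ _ hp, zero_mul, norm_zero]
            exact mul_nonneg hε (BGo_R_nonneg _ _ _ _ _ _ _)
          · push Not at hp
            obtain ⟨n, hn⟩ := hp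
            have h2 := BGo_pd_supp hn
            have h3 : (2 : ℝ) ^ k₁ ≤ Y := by
              have : (2 : ℝ) ^ k₁ ≤ n := by exact_mod_cast h2.1
              exact this.trans h2.2.2
            have h4 : Y / 32 ≤ (2 : ℝ) ^ k₂ := by
              rw [pow_add] at h1
              have h5 : (2 : ℝ) ^ k₁ * 2 ^ k₂ ≤ Y * 2 ^ k₂ :=
                mul_le_mul_of_nonneg_right h3 (by positivity)
              have h6 : Y * (Y / 32) ≤ Y * 2 ^ k₂ := by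
                calc Y * (Y / 32) = Y ^ 2 / 32 := by ring
                  _ ≤ _ := h1.trans h5
              exact le_of_mul_le_mul_left h6 (by linarith)
            unfold BGo_R
            rw [if_pos h4, norm_mul]
            exact mul_le_mul_of_nonneg_right (h j hj k₁) (norm_nonneg _)
        · rw [norm_zero]
          exact mul_nonneg hε (BGo_R_nonneg _ _ _ _ _ _ _)
      · rw [if_neg hk₂]
        have h0 : DP (NN Y) (rd Y μ j k k₂) i.2 s = 0 := by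
          refine BGo_DP_zero _ _ _ _ fun n => ?_
          by_contra hn
          have h2 := BGo_rd_supp hY hμ hk hn
          have h3 : (2 : ℝ) ^ k₂ ≤ n := by exact_mod_cast h2.1
          have h4 : (2 : ℝ) ^ K ≤ 2 ^ k₂ := pow_le_pow_right₀ (by norm_num) (by omega)
          linarith [h2.2.2]
        rw [h0, mul_zero, ite_self, norm_zero]
    · rw [if_neg hk₁]
      have h0 : DP (NN Y) (pd Y μ j k₁) i.2 s = 0 := by
        refine BGo_DP_zero _ _ _ _ fun n => ?_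
        by_contra hn
        have h2 := BGo_pd_supp hn
        have h3 : (2 : ℝ) ^ k₁ ≤ n := by exact_mod_cast h2.1
        have h4 : (2 : ℝ) ^ K ≤ 2 ^ k₁ := pow_le_pow_right₀ (by norm_num) (by omega)
        linarith [h2.2.2]
      rw [h0, zero_mul, ite_self, norm_zero]
  have hR : ∀ j k k₂ : ℕ, 0 ≤ ε * BGo_R Y μ i j k k₂ s := fun j k k₂ =>
    mul_nonneg hε (BGo_R_nonneg _ _ _ _ _ _ _)
  have hinner : ∀ j ∈ Icc j₀ (4 * μ), ∀ k ∈ Icc (7 * μ - j) (9 * μ - j),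
      ‖∑ k₁ ∈ range (NN Y), ∑ k₂ ∈ range (NN Y), (if Y ^ 2 / 32 ≤ (2 : ℝ) ^ (k₁ + k₂) then
        DP (NN Y) (pd Y μ j k₁) i.2 s * DP (NN Y) (rd Y μ j k k₂) i.2 s else 0)‖ ≤
      ε * K * ∑ k₂ ∈ range K, BGo_R Y μ i j k k₂ s := by
    intro j hj k hk
    have hk' : k ≤ 9 * μ := by
      have := (Finset.mem_Icc.1 hk).2
      omega
    calc ‖∑ k₁ ∈ range (NN Y), ∑ k₂ ∈ range (NN Y), (if Y ^ 2 / 32 ≤ (2 : ℝ) ^ (k₁ + k₂) then
        DP (NN Y) (pd Y μ j k₁) i.2 s * DP (NN Y) (rd Y μ j k k₂) i.2 s else 0)‖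
        ≤ ∑ k₁ ∈ range (NN Y), ∑ k₂ ∈ range (NN Y),
          (if k₁ < K then (if k₂ < K then ε * BGo_R Y μ i j k k₂ s else 0) else 0) :=
          (norm_sum_le _ _).trans (Finset.sum_le_sum fun k₁ _ =>
            (norm_sum_le _ _).trans (Finset.sum_le_sum fun k₂ _ => hterm j hj k hk' k₁ k₂))
      _ = ∑ k₁ ∈ range (NN Y), (if k₁ < K then
          ∑ k₂ ∈ range (NN Y), (if k₂ < K then ε * BGo_R Y μ i j k k₂ s else 0) else 0) := by
          refine Finset.sum_congr rfl fun k₁ _ => ?_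
          split_ifs
          · rfl
          · exact Finset.sum_const_zero
      _ ≤ ∑ k₁ ∈ range K, ∑ k₂ ∈ range (NN Y),
          (if k₂ < K then ε * BGo_R Y μ i j k k₂ s else 0) := by
          refine BGo_cut _ _ _ fun k₁ => Finset.sum_nonneg fun k₂ _ => ?_
          split_ifs
          · exact hR j k k₂
          · exact le_rfl
      _ ≤ ∑ k₁ ∈ range K, ∑ k₂ ∈ range K, ε * BGo_R Y μ i j k k₂ s :=
          Finset.sum_le_sum fun k₁ _ => BGo_cut _ _ _ fun k₂ => hR j k k₂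
      _ = ε * K * ∑ k₂ ∈ range K, BGo_R Y μ i j k k₂ s := by
          rw [Finset.sum_const, Finset.card_range, nsmul_eq_mul, ← Finset.mul_sum]
          ring
  unfold Qn
  refine (norm_sum_le _ _).trans ?_
  rw [Finset.mul_sum]
  have hRR : ∀ j k : ℕ, 0 ≤ ε * K * ∑ k₂ ∈ range K, BGo_R Y μ i j k k₂ s := fun j k =>
    mul_nonneg (by positivity) (Finset.sum_nonneg fun k₂ _ => BGo_R_nonneg _ _ _ _ _ _ _)
  calc ∑ j ∈ Icc j₀ (4 * μ), ‖∑ k ∈ Icc (7 * μ - j) (9 * μ - j), ∑ k₁ ∈ range (NN Y),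
        ∑ k₂ ∈ range (NN Y), (if Y ^ 2 / 32 ≤ (2 : ℝ) ^ (k₁ + k₂) then
        DP (NN Y) (pd Y μ j k₁) i.2 s * DP (NN Y) (rd Y μ j k k₂) i.2 s else 0)‖
      ≤ ∑ j ∈ Icc j₀ (4 * μ), ∑ k ∈ Icc (7 * μ - j) (9 * μ - j),
          ε * K * ∑ k₂ ∈ range K, BGo_R Y μ i j k k₂ s :=
        Finset.sum_le_sum fun j hj => (norm_sum_le _ _).trans
          (Finset.sum_le_sum fun k hk => hinner j hj k hk)
    _ ≤ ∑ j ∈ Icc j₀ (4 * μ), ∑ k ∈ range (9 * μ + 1),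
          ε * K * ∑ k₂ ∈ range K, BGo_R Y μ i j k k₂ s := by
        refine Finset.sum_le_sum fun j _ => Finset.sum_le_sum_of_subset_of_nonneg ?_
          fun k _ _ => hRR j k
        intro k hk
        have := (Finset.mem_Icc.1 hk).2
        exact Finset.mem_range.2 (by omega)
    _ ≤ ∑ j ∈ range (4 * μ + 1), ∑ k ∈ range (9 * μ + 1),
          ε * K * ∑ k₂ ∈ range K, BGo_R Y μ i j k k₂ s := by
        refine Finset.sum_le_sum_of_subset_of_nonneg ?_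
          fun j _ _ => Finset.sum_nonneg fun k _ => hRR j k
        intro j hj
        have := (Finset.mem_Icc.1 hj).2
        exact Finset.mem_range.2 (by omega)
    _ = ∑ j ∈ range (4 * μ + 1), ε * K * ∑ k ∈ range (9 * μ + 1), ∑ k₂ ∈ range K,
          BGo_R Y μ i j k k₂ s := by
        refine Finset.sum_congr rfl fun j _ => ?_
        rw [Finset.mul_sum]

/-- the square of a triple sum -/
theorem BGo_sq (A B K : ℕ) (f : ℕ → ℕ → ℕ → ℝ) :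
    (∑ j ∈ range A, ∑ k ∈ range B, ∑ l ∈ range K, f j k l) ^ 2 ≤
      ((A * B * K : ℕ) : ℝ) * ∑ j ∈ range A, ∑ k ∈ range B, ∑ l ∈ range K, f j k l ^ 2 := by
  have h := sq_sum_le_card_mul_sum_sq (s := range A ×ˢ (range B ×ˢ range K))
    (f := fun x => f x.1 x.2.1 x.2.2)
  simp only [Finset.sum_product, Finset.card_product, Finset.card_range] at h
  rw [← mul_assoc] at h
  exact h

/-- the mean square of `Qn` on a set where the prime polynomials are small -/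
theorem BGo_near_ms (C : ℝ) (hC : ∀ (N r : ℕ) (a : ℕ → ℝ) (χ : DirichletCharacter ℂ r)
    (K L t₀ T : ℝ), 1 ≤ N → 0 ≤ T → 0 < L → (∀ n ∈ Icc 1 N, |a n| ≤ K) →
    (∀ n ∈ Icc 1 N, a n ≠ 0 → L ≤ n) →
    ∫ t in t₀..(t₀ + T), ‖DP N a χ t‖ ^ 2 ≤ C * (1 + Real.log N) ^ 3 * K ^ 2 * (T / L + 1))
    (Y : ℝ) (μ j₀ : ℕ) (i : CC) (ε T v : ℝ) (K : ℕ) (hY : 3 ≤ Y) (hμ : 8 ≤ μ) (hC0 : 0 ≤ C)
    (hK : Y ^ 3 < 2 ^ K) (hε : 0 ≤ ε) (hT : 0 ≤ T) (G : Set ℝ) (hG : G ⊆ Set.Icc (-T) T)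
    (hGm : MeasurableSet G)
    (h : ∀ t ∈ G, ∀ j ∈ Icc j₀ (4 * μ), ∀ k₁ : ℕ, ‖DP (NN Y) (pd Y μ j k₁) i.2 (t - v)‖ ≤ ε) :
    ∫ t in G, ‖Qn Y μ j₀ i (t - v)‖ ^ 2 ≤
      (ε * K) ^ 2 * (((4 * μ + 1) * (9 * μ + 1) * K : ℕ) : ℝ) ^ 2 *
        (C * (1 + Real.log (NN Y)) ^ 3 * (2 * T / (Y / 32) + 1)) := by
  have hN1 : 1 ≤ NN Y := by
    have h1 := BGo_N Y
    have h2 : (1 : ℝ) ≤ Y ^ 6 := one_le_pow₀ (by linarith)
    exact_mod_cast h2.trans h1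
  have hlog : 0 ≤ 1 + Real.log (NN Y) := by
    have := Real.log_natCast_nonneg (NN Y)
    linarith
  set P : ℕ := (4 * μ + 1) * (9 * μ + 1) * K with hP
  set X : ℝ := C * (1 + Real.log (NN Y)) ^ 3 * (2 * T / (Y / 32) + 1) with hX
  have hX0 : 0 ≤ X := by positivity
  have hRint : ∀ j k k₂ : ℕ, IntegrableOn (fun t => BGo_R Y μ i j k k₂ (t - v) ^ 2) G ∧
      ∫ t in G, BGo_R Y μ i j k k₂ (t - v) ^ 2 ≤ X := by
    intro j k k₂
    unfold BGo_R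
    split_ifs with h1
    · have hc : Continuous fun t : ℝ => ‖DP (NN Y) (rd Y μ j k k₂) i.2 (t - v)‖ ^ 2 := by
        have := DP_continuous (NN Y) (rd Y μ j k k₂) i.2
        fun_prop
      refine ⟨(hc.continuousOn.integrableOn_compact isCompact_Icc).mono_set hG, ?_⟩
      refine (BGo_shift _ (DP_continuous (NN Y) (rd Y μ j k k₂) i.2) G T v hT hG).trans ?_
      refine (hC (NN Y) i.1 (rd Y μ j k k₂) i.2 1 (Y / 32) (-T - v) (2 * T) hN1 (by linarith)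
        (by linarith) ?_ ?_).trans (le_of_eq ?_)
      · intro n _
        have := BGo_rd01 Y μ j k k₂ n hY hμ
        rw [abs_of_nonneg this.1]
        exact this.2
      · intro n _ hn
        have h2 : 2 ^ k₂ ≤ n := by
          unfold rd at hn
          split_ifs at hn with h4
          · exact h4.1
          · exact absurd rfl hn
        have h3 : (2 : ℝ) ^ k₂ ≤ n := by exact_mod_cast h2
        linarith
      · rw [hX]
        ring
    · refine ⟨?_, ?_⟩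
      · simp
      · simpa using hX0
  have hQc : Continuous fun t : ℝ => ‖Qn Y μ j₀ i (t - v)‖ ^ 2 := by
    have h1 : (fun t : ℝ => ‖Qn Y μ j₀ i (t - v)‖ ^ 2) =
        fun t : ℝ => ‖DP (NN Y) (BGo_g Y μ j₀) i.2 (t - v)‖ ^ 2 := by
      funext t
      rw [BGo_Qn_eq Y μ j₀ i _ hY hμ]
    rw [h1]
    have := DP_continuous (NN Y) (BGo_g Y μ j₀) i.2
    fun_prop
  have hsum : IntegrableOn (fun t => ∑ j ∈ range (4 * μ + 1), ∑ k ∈ range (9 * μ + 1),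
      ∑ k₂ ∈ range K, BGo_R Y μ i j k k₂ (t - v) ^ 2) G :=
    integrable_finsetSum _ fun j _ => integrable_finsetSum _ fun k _ =>
      integrable_finsetSum _ fun k₂ _ => (hRint j k k₂).1
  calc ∫ t in G, ‖Qn Y μ j₀ i (t - v)‖ ^ 2
      ≤ ∫ t in G, (ε * K) ^ 2 * ((P : ℝ) * ∑ j ∈ range (4 * μ + 1), ∑ k ∈ range (9 * μ + 1),
          ∑ k₂ ∈ range K, BGo_R Y μ i j k k₂ (t - v) ^ 2) := by
        refine setIntegral_mono_on ((hQc.continuousOn.integrableOn_compact isCompact_Icc).mono_set hG)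
          ((hsum.const_mul _).const_mul _) hGm fun t ht => ?_
        have h1 := BGo_Qn_good Y μ j₀ i (t - v) ε K hY hμ hK hε (h t ht)
        refine (pow_le_pow_left₀ (norm_nonneg _) h1 2).trans ?_
        rw [mul_pow]
        exact mul_le_mul_of_nonneg_left (BGo_sq _ _ _ _) (by positivity)
    _ = (ε * K) ^ 2 * ((P : ℝ) * ∑ j ∈ range (4 * μ + 1), ∑ k ∈ range (9 * μ + 1),
          ∑ k₂ ∈ range K, ∫ t in G, BGo_R Y μ i j k k₂ (t - v) ^ 2) := by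
        rw [integral_const_mul, integral_const_mul,
          integral_finsetSum _ fun j _ => integrable_finsetSum _ fun k _ =>
            integrable_finsetSum _ fun k₂ _ => (hRint j k k₂).1]
        congr 2
        refine Finset.sum_congr rfl fun j _ => ?_
        rw [integral_finsetSum _ fun k _ => integrable_finsetSum _ fun k₂ _ => (hRint j k k₂).1]
        refine Finset.sum_congr rfl fun k _ => ?_
        rw [integral_finsetSum _ fun k₂ _ => (hRint j k k₂).1]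
    _ ≤ (ε * K) ^ 2 * ((P : ℝ) * ∑ j ∈ range (4 * μ + 1), ∑ k ∈ range (9 * μ + 1),
          ∑ k₂ ∈ range K, X) := by
        refine mul_le_mul_of_nonneg_left (mul_le_mul_of_nonneg_left ?_ (Nat.cast_nonneg _))
          (by positivity)
        exact Finset.sum_le_sum fun j _ => Finset.sum_le_sum fun k _ =>
          Finset.sum_le_sum fun k₂ _ => (hRint j k k₂).2
    _ = _ := by
        simp only [Finset.sum_const, Finset.card_range, nsmul_eq_mul]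
        rw [hP]
        push_cast
        ring
theorem BGo_Icont (o q : ℝ → ℂ) (S : Set ℝ) (B : ℝ) (ho : Integrable o) (hq : Continuous q)
    (hqB : ∀ s, ‖q s‖ ≤ B) : Continuous fun t : ℝ => ∫ v in S, o v * q (t - v) := by
  refine continuous_of_dominated (bound := fun v => ‖o v‖ * B) ?_ ?_ ?_ ?_
  · intro t
    have h1 : Continuous fun v : ℝ => q (t - v) := by fun_prop
    exact ho.integrableOn.aestronglyMeasurable.mul h1.aestronglyMeasurable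
  · intro t
    refine Filter.Eventually.of_forall fun v => ?_
    rw [norm_mul]
    exact mul_le_mul_of_nonneg_left (hqB _) (norm_nonneg _)
  · exact ho.norm.integrableOn.mul_const B
  · refine Filter.Eventually.of_forall fun v => ?_
    fun_prop

theorem BGo_log (Y : ℝ) (hY : 3 ≤ Y) : 1 ≤ Real.log Y := by
  rw [Real.le_log_iff_exp_le (by linarith)]
  have := Real.exp_one_lt_d9
  linarith

theorem BGo_logN (Y : ℝ) (hY : 3 ≤ Y) :
    0 ≤ 1 + Real.log (NN Y) ∧ 1 + Real.log (NN Y) ≤ 8 * Real.log Y := by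
  have h0 : (1 : ℝ) ≤ Y ^ 6 := one_le_pow₀ (by linarith)
  have h1 : (NN Y : ℝ) ≤ Y ^ 7 := by
    have h2 : (NN Y : ℝ) < Y ^ 6 + 1 := Nat.ceil_lt_add_one (by positivity)
    have h3 : Y ^ 7 = Y * Y ^ 6 := by ring
    nlinarith
  have h4 : (0 : ℝ) < NN Y := lt_of_lt_of_le (by linarith) (BGo_N Y)
  have h5 := Real.log_le_log h4 h1
  rw [Real.log_pow] at h5
  push_cast at h5
  have h6 := BGo_log Y hY
  have h7 := Real.log_natCast_nonneg (NN Y)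
  constructor <;> linarith

theorem BGo_pow (Y : ℝ) (a : ℕ) (hY : 3 ≤ Y) :
    Y ^ a < 2 ^ (⌊2 * a * Real.log Y⌋₊ + 1) ∧
      ((⌊2 * a * Real.log Y⌋₊ + 1 : ℕ) : ℝ) ≤ (2 * a + 1) * Real.log Y := by
  have h1 := BGo_log Y hY
  have hY0 : 0 < Y := by linarith
  constructor
  · have h2 : 2 * a * Real.log Y < (⌊2 * a * Real.log Y⌋₊ + 1 : ℕ) := by
      push_cast
      exact Nat.lt_floor_add_one _
    rw [← Real.log_lt_log_iff (by positivity) (by positivity), Real.log_pow, Real.log_pow]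
    have h3 := Real.log_two_gt_d9
    have h4 : (0 : ℝ) < (⌊2 * a * Real.log Y⌋₊ + 1 : ℕ) := by positivity
    nlinarith
  · push_cast
    have h2 : (⌊2 * a * Real.log Y⌋₊ : ℝ) ≤ 2 * a * Real.log Y := Nat.floor_le (by positivity)
    linarith

theorem BGo_Qn_bdd (Y : ℝ) (μ j₀ : ℕ) (i : CC) (hY : 3 ≤ Y) (hμ : 8 ≤ μ) :
    Continuous (Qn Y μ j₀ i) ∧ ∃ B, ∀ s, ‖Qn Y μ j₀ i s‖ ≤ B := by
  have h1 : Qn Y μ j₀ i = DP (NN Y) (BGo_g Y μ j₀) i.2 := by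
    funext t
    exact BGo_Qn_eq Y μ j₀ i t hY hμ
  rw [h1]
  exact ⟨DP_continuous _ _ _, _, fun s => DP_le _ _ _ s⟩

theorem BGo_final (C : ℝ) (hC1 : 1 ≤ C) (hC : ∀ (N r : ℕ) (a : ℕ → ℝ) (χ : DirichletCharacter ℂ r)
    (K L t₀ T : ℝ), 1 ≤ N → 0 ≤ T → 0 < L → (∀ n ∈ Icc 1 N, |a n| ≤ K) →
    (∀ n ∈ Icc 1 N, a n ≠ 0 → L ≤ n) →
    ∫ t in t₀..(t₀ + T), ‖DP N a χ t‖ ^ 2 ≤ C * (1 + Real.log N) ^ 3 * K ^ 2 * (T / L + 1))
    (Y : ℝ) (μ j₀ : ℕ) (i : CC) (y : ℝ) (hY : 3 ≤ Y) (hμ : 8 ≤ μ) (hj : 2 ≤ j₀) (hj' : j₀ ≤ μ)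
    (hy : 1 ≤ y) (hyY : y ≤ Y)
    (hyC : (40 * (49 * 49 * 512 * 65 * C * (((4 * μ + 1) * (9 * μ + 1) : ℕ) : ℝ) ^ 2) +
      16 * (512 * 400 * 65 * C * (μ : ℝ) ^ 2)) * Real.log Y ^ 7 ≤ y)
    (G : Set ℝ) (hGm : MeasurableSet G) (hG : G ⊆ Set.Icc (-(Y * y)) (Y * y))
    (h : ∀ t ∈ G, ∀ v : ℝ, |v| ≤ y → ∀ j ∈ Icc j₀ (4 * μ), ∀ k₁ : ℕ,
      ‖DP (NN Y) (pd Y μ j k₁) i.2 (t - v)‖ ≤ (y ^ 2)⁻¹) :
    ∫ t in G, ‖FF Y μ j₀ i t‖ ^ 2 ≤ y⁻¹ := by
  obtain ⟨hQc, B, hQB⟩ := BGo_Qn_bdd Y μ j₀ i hY hμ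
  set ℓ := Real.log Y with hℓ
  have hℓ1 : 1 ≤ ℓ := BGo_log Y hY
  obtain ⟨hN0, hN8⟩ := BGo_logN Y hY
  have hY0 : 0 < Y := by linarith
  have hy0 : 0 < y := by linarith
  have hC0 : 0 ≤ C := by linarith
  have hN1 : 1 ≤ NN Y := by
    have h1 := BGo_N Y
    have h2 : (1 : ℝ) ≤ Y ^ 6 := one_le_pow₀ (by linarith)
    exact_mod_cast h2.trans h1
  obtain ⟨hK1, hK2⟩ := BGo_pow Y 3 hY
  set K : ℕ := ⌊2 * ((3 : ℕ) : ℝ) * Real.log Y⌋₊ + 1 with hK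
  have hK7 : (K : ℝ) ≤ 7 * ℓ := by
    refine hK2.trans (le_of_eq ?_)
    push_cast
    ring
  set o := osc (locf Y) with ho
  have hoi : Integrable o := BGo_osc_int Y
  set q := Qn Y μ j₀ i with hq
  set S : Set ℝ := {v : ℝ | |v| ≤ y} with hS
  have hSm : MeasurableSet S := measurableSet_le measurable_id.abs measurable_const
  have hGfin : volume G < ⊤ := (measure_mono hG).trans_lt measure_Icc_lt_top
  set M₁ : ℝ := 49 * 49 * 512 * 65 * C * (((4 * μ + 1) * (9 * μ + 1) : ℕ) : ℝ) ^ 2 * ℓ ^ 7 / y ^ 3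
    with hM₁
  set M₂ : ℝ := 512 * 400 * 65 * C * (μ : ℝ) ^ 2 * ℓ ^ 3 with hM₂
  -- the near part
  have hnear : ∀ v ∈ S, ∫ t in G, ‖q (t - v)‖ ^ 2 ≤ M₁ := by
    intro v hv
    have h1 := BGo_near_ms C hC Y μ j₀ i (y ^ 2)⁻¹ (Y * y) v K hY hμ hC0 hK1 (by positivity)
      (by positivity) G hG hGm (fun t ht j hj k₁ => h t ht v hv j hj k₁)
    refine h1.trans ?_
    have e1 : 2 * (Y * y) / (Y / 32) + 1 ≤ 65 * y := by
      have : 2 * (Y * y) / (Y / 32) = 64 * y := by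
        field_simp
        norm_num
      rw [this]
      linarith
    have e2 : (((4 * μ + 1) * (9 * μ + 1) * K : ℕ) : ℝ) =
        (((4 * μ + 1) * (9 * μ + 1) : ℕ) : ℝ) * K := by push_cast; ring
    rw [e2]
    have e3 : (1 + Real.log (NN Y)) ^ 3 ≤ (8 * ℓ) ^ 3 := pow_le_pow_left₀ hN0 hN8 3
    have e4 : (K : ℝ) ^ 2 ≤ (7 * ℓ) ^ 2 := pow_le_pow_left₀ (Nat.cast_nonneg _) hK7 2
    calc ((y ^ 2)⁻¹ * K) ^ 2 * ((((4 * μ + 1) * (9 * μ + 1) : ℕ) : ℝ) * K) ^ 2 *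
          (C * (1 + Real.log (NN Y)) ^ 3 * (2 * (Y * y) / (Y / 32) + 1))
        = ((y ^ 2)⁻¹) ^ 2 * (((4 * μ + 1) * (9 * μ + 1) : ℕ) : ℝ) ^ 2 * ((K : ℝ) ^ 2 * (K : ℝ) ^ 2) *
          (C * ((1 + Real.log (NN Y)) ^ 3 * (2 * (Y * y) / (Y / 32) + 1))) := by ring
      _ ≤ ((y ^ 2)⁻¹) ^ 2 * (((4 * μ + 1) * (9 * μ + 1) : ℕ) : ℝ) ^ 2 * ((7 * ℓ) ^ 2 * (7 * ℓ) ^ 2) *
          (C * ((8 * ℓ) ^ 3 * (65 * y))) := by
          gcongr
      _ = M₁ := by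
          rw [hM₁]
          field_simp
          ring
  -- the far part
  have hfar : ∀ v ∈ Sᶜ, ∫ t in G, ‖q (t - v)‖ ^ 2 ≤ M₂ := by
    intro v _
    have hqq : q = DP (NN Y) (BGo_g Y μ j₀) i.2 := by
      funext t
      exact BGo_Qn_eq Y μ j₀ i t hY hμ
    rw [hqq]
    refine (BGo_shift _ (DP_continuous _ _ _) G (Y * y) v (by positivity) hG).trans ?_
    refine (hC (NN Y) i.1 (BGo_g Y μ j₀) i.2 (20 * μ) (Y ^ 2 / 32) (-(Y * y) - v) (2 * (Y * y)) hN1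
      (by positivity) (by positivity) (fun n hn => (BGo_g_props Y μ j₀ n hY hμ hj hj' hn).1)
      (fun n hn => (BGo_g_props Y μ j₀ n hY hμ hj hj' hn).2)).trans ?_
    have e1 : 2 * (Y * y) / (Y ^ 2 / 32) + 1 ≤ 65 := by
      have h2 : 2 * (Y * y) / (Y ^ 2 / 32) = 64 * (y / Y) := by
        field_simp
        norm_num
      have h3 : y / Y ≤ 1 := (div_le_one hY0).2 hyY
      rw [h2]
      linarith
    have e3 : (1 + Real.log (NN Y)) ^ 3 ≤ (8 * ℓ) ^ 3 := pow_le_pow_left₀ hN0 hN8 3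
    calc C * (1 + Real.log (NN Y)) ^ 3 * (20 * (μ : ℝ)) ^ 2 * (2 * (Y * y) / (Y ^ 2 / 32) + 1)
        ≤ C * (8 * ℓ) ^ 3 * (20 * (μ : ℝ)) ^ 2 * 65 := by gcongr
      _ = M₂ := by
          rw [hM₂]
          ring
  have hD1 := BGo_D o q S G B M₁ hoi hSm hGfin hQc hQB hnear
  have hD2 := BGo_D o q Sᶜ G B M₂ hoi hSm.compl hGfin hQc hQB hfar
  have hM₁0 : 0 ≤ M₁ := by positivity
  have hM₂0 : 0 ≤ M₂ := by positivity
  have hw1 : ∫ v in S, ‖o v‖ ≤ 2 * Real.pi := by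
    have h1 : ∫ v in S, ‖o v‖ ≤ ∫ v, ‖o v‖ :=
      setIntegral_le_integral hoi.norm (Filter.Eventually.of_forall fun v => norm_nonneg _)
    exact h1.trans (osc_tent_int 2 (2 * Real.log Y) two_pos).2
  have hw2 : ∫ v in Sᶜ, ‖o v‖ ≤ 4 / y := BGo_tail Y y hy0
  have hpi := Real.pi_lt_d2
  have hpi3 := Real.pi_gt_three
  have hb1 : (∫ v in S, ‖o v‖) ^ 2 * M₁ ≤ 40 * M₁ := by
    refine mul_le_mul_of_nonneg_right ?_ hM₁0
    have h0 : 0 ≤ ∫ v in S, ‖o v‖ := integral_nonneg fun v => norm_nonneg _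
    nlinarith
  have hb2 : (∫ v in Sᶜ, ‖o v‖) ^ 2 * M₂ ≤ (4 / y) ^ 2 * M₂ := by
    refine mul_le_mul_of_nonneg_right ?_ hM₂0
    exact pow_le_pow_left₀ (integral_nonneg fun v => norm_nonneg _) hw2 2
  have hpt : ∀ t, ‖FF Y μ j₀ i t‖ ^ 2 ≤
      ‖∫ v in S, o v * q (t - v)‖ ^ 2 + ‖∫ v in Sᶜ, o v * q (t - v)‖ ^ 2 := by
    intro t
    have hint : Integrable fun v => o v * q (t - v) := by
      have h1 : Continuous fun v : ℝ => q (t - v) := by fun_prop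
      refine Integrable.mono' (hoi.norm.mul_const B)
        (hoi.aestronglyMeasurable.mul h1.aestronglyMeasurable)
        (Filter.Eventually.of_forall fun v => ?_)
      rw [norm_mul]
      exact mul_le_mul_of_nonneg_left (hQB _) (norm_nonneg _)
    rw [FF_near Y μ j₀ i t hY hμ hj hj', ← integral_add_compl hSm hint, norm_mul]
    have h1 : ‖(1 / (2 * Real.pi) : ℂ)‖ ≤ 1 / 6 := by
      have : ((1 / (2 * Real.pi) : ℂ)) = ((1 / (2 * Real.pi) : ℝ) : ℂ) := by push_cast; rfl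
      rw [this, Complex.norm_real, Real.norm_of_nonneg (by positivity)]
      exact one_div_le_one_div_of_le (by norm_num) (by linarith)
    have h2 := norm_add_le (∫ v in S, o v * q (t - v)) (∫ v in Sᶜ, o v * q (t - v))
    set a := ‖∫ v in S, o v * q (t - v)‖
    set b := ‖∫ v in Sᶜ, o v * q (t - v)‖
    have h3 : ‖(1 / (2 * Real.pi) : ℂ)‖ * ‖(∫ v in S, o v * q (t - v)) +
        ∫ v in Sᶜ, o v * q (t - v)‖ ≤ 1 / 6 * (a + b) :=
      mul_le_mul h1 h2 (norm_nonneg _) (by norm_num)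
    refine (pow_le_pow_left₀ (by positivity) h3 2).trans ?_
    nlinarith [sq_nonneg (a - b), sq_nonneg a, sq_nonneg b]
  have hc1 := BGo_Icont o q S B hoi hQc hQB
  have hc2 := BGo_Icont o q Sᶜ B hoi hQc hQB
  have hi : ∀ u : ℝ → ℂ, Continuous u → IntegrableOn (fun t => ‖u t‖ ^ 2) G := fun u hu =>
    ((hu.norm.pow 2).continuousOn.integrableOn_compact isCompact_Icc).mono_set hG
  have hadd : Integrable (fun t => ‖∫ v in S, o v * q (t - v)‖ ^ 2 +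
      ‖∫ v in Sᶜ, o v * q (t - v)‖ ^ 2) (volume.restrict G) :=
    Integrable.add (hi _ hc1) (hi _ hc2)
  calc ∫ t in G, ‖FF Y μ j₀ i t‖ ^ 2
      ≤ ∫ t in G, (‖∫ v in S, o v * q (t - v)‖ ^ 2 + ‖∫ v in Sᶜ, o v * q (t - v)‖ ^ 2) :=
        integral_mono_of_nonneg (Filter.Eventually.of_forall fun t => by positivity)
          hadd (Filter.Eventually.of_forall hpt)
    _ = (∫ t in G, ‖∫ v in S, o v * q (t - v)‖ ^ 2) +
          ∫ t in G, ‖∫ v in Sᶜ, o v * q (t - v)‖ ^ 2 := integral_add (hi _ hc1) (hi _ hc2)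
    _ ≤ 40 * M₁ + (4 / y) ^ 2 * M₂ := add_le_add (hD1.trans hb1) (hD2.trans hb2)
    _ ≤ ((40 * (49 * 49 * 512 * 65 * C * (((4 * μ + 1) * (9 * μ + 1) : ℕ) : ℝ) ^ 2) +
      16 * (512 * 400 * 65 * C * (μ : ℝ) ^ 2)) * ℓ ^ 7) / y ^ 2 := by
        rw [add_mul, add_div]
        refine add_le_add ?_ ?_
        · rw [hM₁, mul_div_assoc', ← mul_assoc]
          refine div_le_div_of_nonneg_left (by positivity) (by positivity) ?_
          exact pow_le_pow_right₀ hy (by norm_num)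
        · rw [hM₂, div_pow, div_mul_eq_mul_div]
          refine div_le_div_of_nonneg_right ?_ (by positivity)
          have h7 : ℓ ^ 3 ≤ ℓ ^ 7 := pow_le_pow_right₀ hℓ1 (by norm_num)
          calc (4 : ℝ) ^ 2 * (512 * 400 * 65 * C * (μ : ℝ) ^ 2 * ℓ ^ 3)
              = 16 * (512 * 400 * 65 * C * (μ : ℝ) ^ 2) * ℓ ^ 3 := by ring
            _ ≤ 16 * (512 * 400 * 65 * C * (μ : ℝ) ^ 2) * ℓ ^ 7 :=
                mul_le_mul_of_nonneg_left h7 (by positivity)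
    _ ≤ y / y ^ 2 := div_le_div_of_nonneg_right hyC (by positivity)
    _ = y⁻¹ := by
        field_simp

/-- **The mean square outside of the bad set.**

Proof. `FF_near`; Cauchy with `∫ |osc (locf Y)| ≤ 2 π` (`osc_tent_int`): the integral is at most
`∫ |osc (locf Y) v| ∫_{t good} |Qn (t - v)| ^ 2 dt dv`. For `|v| ≤ Y ^ c` and good `t` all `|DP (pd j k₁) (t - v)| ≤ Y ^ (- 2 c)`; there are at most
`C (log Y) ^ 2` nonzero pairs, `2 ^ k₁ ≤ Y` and so `2 ^ k₂ ≥ Y / 32`, and by `mv_DP`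
`∫_{|s| ≤ 2 Y ^ (1 + c)} |DP (rd j k k₂)| ^ 2 ≤ C (log Y) ^ 2 (Y ^ (1 + c) / 2 ^ k₂ + 1) ≤ C (log Y) ^ 2 Y ^ c`: in total
`≤ (log Y) ^ C Y ^ (- 4 c + c)`. For `|v| > Y ^ c`: `|osc (locf Y) v| ≤ 2 / v ^ 2` and
`∫_{|t| ≤ Y ^ (1 + c)} |Qn (t - v)| ^ 2 dt ≤ C (log Y) ^ C` (`mv_DP`: `Qn` is a Dirichlet polynomial with bounded coefficients on integers
in `[Y ^ 2 / 32, Y ^ 3]`), so this part is `≤ Y ^ (- c) (log Y) ^ C · Y ^ (- c)` after using `∫_{|v| > Y ^ c} |osc| ≤ 4 Y ^ (- c)` twice. -/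
theorem good_l2 (μ j₀ : ℕ) (hμ : 8 ≤ μ) (hj : 2 ≤ j₀) (hj' : j₀ ≤ μ) (c : ℝ) (hc : 0 < c) (hc1 : c ≤ 1 / 100) :
    ∃ Y₀ : ℝ, 3 ≤ Y₀ ∧ ∀ (Y : ℝ) (i : CC), Y₀ ≤ Y →
      ∫ t in {t : ℝ | |t| ≤ Y ^ (1 + c)} \ Bad Y μ j₀ c i, ‖FF Y μ j₀ i t‖ ^ 2 ≤ Y ^ (-c) := by
  obtain ⟨C, hC1, hC⟩ := BGo_mv
  obtain ⟨Y₀, hY₀, hg⟩ := BGo_growth
    (40 * (49 * 49 * 512 * 65 * C * (((4 * μ + 1) * (9 * μ + 1) : ℕ) : ℝ) ^ 2) +
      16 * (512 * 400 * 65 * C * (μ : ℝ) ^ 2)) 7 c hc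
  refine ⟨Y₀, hY₀, fun Y i hY => ?_⟩
  have hY3 : 3 ≤ Y := hY₀.trans hY
  have hY0 : 0 < Y := by linarith
  have e1 : Y ^ (1 + c) = Y * Y ^ c := by rw [Real.rpow_add hY0, Real.rpow_one]
  have e2 : Y ^ (-(2 * c)) = ((Y ^ c) ^ 2)⁻¹ := by
    rw [Real.rpow_neg hY0.le, ← Real.rpow_natCast (Y ^ c) 2, ← Real.rpow_mul hY0.le]
    congr 2
    push_cast
    ring
  have e3 : Y ^ (-c) = (Y ^ c)⁻¹ := Real.rpow_neg hY0.le c
  obtain ⟨hBm, -, -⟩ := Bad_meas Y μ j₀ c i hY3 hc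
  rw [e3]
  refine BGo_final C hC1 hC Y μ j₀ i (Y ^ c) hY3 hμ hj hj' (Real.one_le_rpow (by linarith) hc.le)
    ?_ (hg Y hY) _ ?_ ?_ ?_
  · calc Y ^ c ≤ Y ^ (1 : ℝ) := Real.rpow_le_rpow_of_exponent_le (by linarith) (by linarith)
      _ = Y := Real.rpow_one Y
  · exact (measurableSet_le measurable_id.abs measurable_const).diff hBm
  · rintro t ⟨ht, -⟩
    have ht' : |t| ≤ Y ^ (1 + c) := ht
    rw [e1] at ht'
    exact abs_le.1 ht'
  · rintro t ⟨ht, hnb⟩ v hv j hj k₁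
    by_contra hcon
    rw [not_le] at hcon
    apply hnb
    right
    refine ⟨ht, v, hv, j, hj, k₁, ?_⟩
    rw [e2]
    exact hcon

theorem BGo_dyad (F : ℝ → ℂ) (hF : Continuous F) (D L A : ℝ) (hD : 0 ≤ D) (hL : 0 < L) (hA : 0 < A)
    (H : ∀ t₀ T : ℝ, 0 ≤ T → ∫ t in t₀..(t₀ + T), ‖F t‖ ^ 2 ≤ D * (T / L + 1)) (J : ℕ) :
    ∫ t in A..(2 ^ J * A), ‖F t‖ ^ 2 / (1 + t ^ 2) ≤ J * (D * (1 / (A * L) + 1 / A ^ 2)) := by
  have hc : Continuous fun t : ℝ => ‖F t‖ ^ 2 / (1 + t ^ 2) := by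
    refine (hF.norm.pow 2).div (by fun_prop) fun t => ?_
    positivity
  induction J with
  | zero => simp
  | succ J ih =>
    rw [← intervalIntegral.integral_add_adjacent_intervals (hc.intervalIntegrable A (2 ^ J * A))
      (hc.intervalIntegrable _ _)]
    set P : ℝ := 2 ^ J * A with hP
    have h2 : (1 : ℝ) ≤ 2 ^ J := one_le_pow₀ (by norm_num)
    have hPA : A ≤ P := by
      rw [hP]
      nlinarith
    have hP0 : 0 < P := by positivity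
    have e1 : (2 : ℝ) ^ (J + 1) * A = P + P := by
      rw [hP]
      ring
    rw [e1]
    have h3 : ∫ t in P..(P + P), ‖F t‖ ^ 2 / (1 + t ^ 2) ≤
        ∫ t in P..(P + P), (1 / P ^ 2) * ‖F t‖ ^ 2 := by
      refine intervalIntegral.integral_mono_on (by linarith) (hc.intervalIntegrable _ _) ?_
        fun t ht => ?_
      · exact (continuous_const.mul (hF.norm.pow 2)).intervalIntegrable _ _
      · rw [div_eq_mul_one_div, mul_comm]
        refine mul_le_mul_of_nonneg_right ?_ (by positivity)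
        refine one_div_le_one_div_of_le (by positivity) ?_
        have := ht.1
        nlinarith
    have h4 : ∫ t in P..(P + P), (1 / P ^ 2) * ‖F t‖ ^ 2 ≤ D * (1 / (A * L) + 1 / A ^ 2) := by
      rw [intervalIntegral.integral_const_mul]
      calc 1 / P ^ 2 * ∫ t in P..(P + P), ‖F t‖ ^ 2 ≤ 1 / P ^ 2 * (D * (P / L + 1)) :=
            mul_le_mul_of_nonneg_left (H P P hP0.le) (by positivity)
        _ = D * (1 / (P * L) + 1 / P ^ 2) := by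
            field_simp
        _ ≤ D * (1 / (A * L) + 1 / A ^ 2) := by
            gcongr
    push_cast
    have h5 : ((J : ℝ) + 1) * (D * (1 / (A * L) + 1 / A ^ 2)) =
        J * (D * (1 / (A * L) + 1 / A ^ 2)) + D * (1 / (A * L) + 1 / A ^ 2) := by ring
    rw [h5]
    exact add_le_add ih (h3.trans h4)

/-- **The far part.** (`mv_DP` over the dyadic ranges `T ≤ |t| ≤ 2 T`: `T ^ (- 2) (T / Y ^ 2 + 1) (log Y) ^ C`.) -/
theorem far_l2 (μ j₀ : ℕ) (hμ : 8 ≤ μ) (hj : 2 ≤ j₀) (hj' : j₀ ≤ μ) (c : ℝ) (hc : 0 < c) (hc1 : c ≤ 1 / 100) :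
    ∃ Y₀ : ℝ, 3 ≤ Y₀ ∧ ∀ (Y : ℝ) (i : CC), Y₀ ≤ Y →
      ∫ t in {t : ℝ | Y ^ (1 + c) < |t| ∧ |t| ≤ Y ^ 10}, ‖FF Y μ j₀ i t‖ ^ 2 / (1 + t ^ 2) ≤ Y ^ (-2 - c) := by
  obtain ⟨C, hC1, hC⟩ := BGo_mv
  obtain ⟨Y₀, hY₀, hg⟩ := BGo_growth (2 * 21 * (C * 512 * (20 * μ) ^ 2) * 9) 4 c hc
  refine ⟨Y₀, hY₀, fun Y i hY => ?_⟩
  have hY3 : 3 ≤ Y := hY₀.trans hY
  have hY0 : 0 < Y := by linarith
  set y := Y ^ c with hydef
  have hy1 : 1 ≤ y := Real.one_le_rpow (by linarith) hc.le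
  have hy0 : 0 < y := by linarith
  have hyY : y ≤ Y := by
    calc Y ^ c ≤ Y ^ (1 : ℝ) := Real.rpow_le_rpow_of_exponent_le (by linarith) (by linarith)
      _ = Y := Real.rpow_one Y
  have e1 : Y ^ (1 + c) = Y * y := by rw [Real.rpow_add hY0, Real.rpow_one]
  have e2 : Y ^ (-2 - c) = (Y ^ 2 * y)⁻¹ := by
    rw [show (-2 - c : ℝ) = -(2 + c) by ring, Real.rpow_neg hY0.le, Real.rpow_add hY0]
    congr 2
    exact_mod_cast Real.rpow_natCast Y 2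
  rw [e1, e2]
  set ℓ := Real.log Y with hℓ
  have hℓ1 : 1 ≤ ℓ := BGo_log Y hY3
  obtain ⟨hN0, hN8⟩ := BGo_logN Y hY3
  have hN1 : 1 ≤ NN Y := by
    have h1 := BGo_N Y
    have h2 : (1 : ℝ) ≤ Y ^ 6 := one_le_pow₀ (by linarith)
    exact_mod_cast h2.trans h1
  set D : ℝ := C * (1 + Real.log (NN Y)) ^ 3 * (20 * μ) ^ 2 with hD
  have hC0 : 0 ≤ C := by linarith
  have hD0 : 0 ≤ D := by positivity
  set F := FF Y μ j₀ i with hF
  have hFc : Continuous F := DP_continuous _ _ _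
  have H : ∀ t₀ T : ℝ, 0 ≤ T → ∫ t in t₀..(t₀ + T), ‖F t‖ ^ 2 ≤ D * (T / (Y ^ 2 / 8) + 1) := by
    intro t₀ T hT
    refine (hC (NN Y) i.1 (fX Y μ j₀) i.2 (20 * μ) (Y ^ 2 / 8) t₀ T hN1 hT (by positivity)
      (fun n _ => ?_) (fun n _ hn => ?_))
    · have h1 := fX_props Y μ j₀ n hY3 hμ hj hj'
      rw [abs_of_nonneg h1.1]
      exact h1.2.1
    · exact ((fX_props Y μ j₀ n hY3 hμ hj hj').2.2 hn).1
  have H' : ∀ t₀ T : ℝ, 0 ≤ T →
      ∫ t in t₀..(t₀ + T), ‖F (-t)‖ ^ 2 ≤ D * (T / (Y ^ 2 / 8) + 1) := by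
    intro t₀ T hT
    rw [intervalIntegral.integral_comp_neg (fun t => ‖F t‖ ^ 2)]
    have := H (-(t₀ + T)) T hT
    rwa [show -(t₀ + T) + T = -t₀ by ring] at this
  obtain ⟨hJ1, hJ2⟩ := BGo_pow Y 10 hY3
  set J : ℕ := ⌊2 * ((10 : ℕ) : ℝ) * Real.log Y⌋₊ + 1 with hJ
  have hJ21 : (J : ℝ) ≤ 21 * ℓ := by
    refine hJ2.trans (le_of_eq ?_)
    push_cast
    ring
  set A := Y * y with hA
  have hA0 : 0 < A := by positivity
  have hA1 : 1 ≤ A := by nlinarith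
  set Z := 2 ^ J * A with hZ
  have hZ1 : Y ^ 10 ≤ Z := by
    rw [hZ]
    have h2 : (0 : ℝ) < 2 ^ J := by positivity
    nlinarith
  have hAZ : A ≤ Z := by
    rw [hZ]
    have h2 : (1 : ℝ) ≤ 2 ^ J := one_le_pow₀ (by norm_num)
    nlinarith
  have hc0 : Continuous fun t : ℝ => ‖F t‖ ^ 2 / (1 + t ^ 2) := by
    refine (hFc.norm.pow 2).div (by fun_prop) fun t => ?_
    positivity
  have hd1 := BGo_dyad F hFc D (Y ^ 2 / 8) A hD0 (by positivity) hA0 H J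
  have hd2 := BGo_dyad (fun t => F (-t)) (hFc.comp continuous_neg) D (Y ^ 2 / 8) A hD0
    (by positivity) hA0 H' J
  have hneg : ∫ t in A..Z, ‖F (-t)‖ ^ 2 / (1 + t ^ 2) =
      ∫ t in (-Z)..(-A), ‖F t‖ ^ 2 / (1 + t ^ 2) := by
    rw [← intervalIntegral.integral_comp_neg (fun t => ‖F t‖ ^ 2 / (1 + t ^ 2))]
    refine intervalIntegral.integral_congr fun t _ => ?_
    show ‖F (-t)‖ ^ 2 / (1 + t ^ 2) = ‖F (-t)‖ ^ 2 / (1 + (-t) ^ 2)
    rw [neg_sq]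
  have hd2' : ∫ t in (-Z)..(-A), ‖F t‖ ^ 2 / (1 + t ^ 2) ≤
      J * (D * (1 / (A * (Y ^ 2 / 8)) + 1 / A ^ 2)) := by
    rw [← hneg]
    exact hd2
  have hsub : {t : ℝ | A < |t| ∧ |t| ≤ Y ^ 10} ⊆ Set.Ioc A Z ∪ Set.Icc (-Z) (-A) := by
    rintro t ⟨h1, h2⟩
    rcases le_or_gt 0 t with h | h
    · rw [abs_of_nonneg h] at h1 h2
      exact Or.inl ⟨h1, h2.trans hZ1⟩
    · rw [abs_of_neg h] at h1 h2
      exact Or.inr ⟨by linarith, by linarith⟩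
  have hi1 : IntegrableOn (fun t : ℝ => ‖F t‖ ^ 2 / (1 + t ^ 2)) (Set.Ioc A Z) :=
    (hc0.continuousOn.integrableOn_compact isCompact_Icc).mono_set Set.Ioc_subset_Icc_self
  have hi2 : IntegrableOn (fun t : ℝ => ‖F t‖ ^ 2 / (1 + t ^ 2)) (Set.Icc (-Z) (-A)) :=
    hc0.continuousOn.integrableOn_compact isCompact_Icc
  calc ∫ t in {t : ℝ | A < |t| ∧ |t| ≤ Y ^ 10}, ‖F t‖ ^ 2 / (1 + t ^ 2)
      ≤ ∫ t in Set.Ioc A Z ∪ Set.Icc (-Z) (-A), ‖F t‖ ^ 2 / (1 + t ^ 2) :=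
        setIntegral_mono_set (hi1.union hi2) (Filter.Eventually.of_forall fun t => by positivity)
          (LE.le.eventuallyLE hsub)
    _ = (∫ t in Set.Ioc A Z, ‖F t‖ ^ 2 / (1 + t ^ 2)) +
          ∫ t in Set.Icc (-Z) (-A), ‖F t‖ ^ 2 / (1 + t ^ 2) := by
        refine setIntegral_union ?_ measurableSet_Icc hi1 hi2
        rw [Set.disjoint_left]
        intro t ht ht'
        linarith [ht.1, ht'.2]
    _ ≤ J * (D * (1 / (A * (Y ^ 2 / 8)) + 1 / A ^ 2)) +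
          J * (D * (1 / (A * (Y ^ 2 / 8)) + 1 / A ^ 2)) := by
        refine add_le_add ?_ ?_
        · rw [← intervalIntegral.integral_of_le hAZ]
          exact hd1
        · rw [integral_Icc_eq_integral_Ioc, ← intervalIntegral.integral_of_le (by linarith)]
          exact hd2'
    _ = 2 * J * D * (1 / (A * (Y ^ 2 / 8)) + 1 / A ^ 2) := by ring
    _ ≤ 2 * (21 * ℓ) * (C * (8 * ℓ) ^ 3 * (20 * μ) ^ 2) * (9 / (Y ^ 2 * y ^ 2)) := by
        have e5 : 1 / (A * (Y ^ 2 / 8)) + 1 / A ^ 2 ≤ 9 / (Y ^ 2 * y ^ 2) := by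
          have h1 : 1 / (A * (Y ^ 2 / 8)) ≤ 8 / (Y ^ 2 * y ^ 2) := by
            rw [hA, div_le_div_iff₀ (by positivity) (by positivity)]
            have h2 : Y ^ 2 * y * y ≤ Y ^ 2 * y * Y :=
              mul_le_mul_of_nonneg_left hyY (by positivity)
            nlinarith
          have h2 : 1 / A ^ 2 = 1 / (Y ^ 2 * y ^ 2) := by
            rw [hA]
            ring
          rw [h2]
          calc 1 / (A * (Y ^ 2 / 8)) + 1 / (Y ^ 2 * y ^ 2) ≤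
                8 / (Y ^ 2 * y ^ 2) + 1 / (Y ^ 2 * y ^ 2) := by linarith
            _ = 9 / (Y ^ 2 * y ^ 2) := by ring
        have e3 : (1 + Real.log (NN Y)) ^ 3 ≤ (8 * ℓ) ^ 3 := pow_le_pow_left₀ hN0 hN8 3
        rw [hD]
        gcongr
    _ = (2 * 21 * (C * 512 * (20 * μ) ^ 2) * 9) * ℓ ^ 4 / (Y ^ 2 * y ^ 2) := by ring
    _ ≤ y / (Y ^ 2 * y ^ 2) := div_le_div_of_nonneg_right (hg Y hY) (by positivity)
    _ = (Y ^ 2 * y)⁻¹ := by
        field_simp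

end Pool.Agent.M58
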