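import Pool.Agent.W_b58c63_m1.HQ

/-!
# Total mean values (helper68)
-/

set_option autoImplicit false

noncomputable section

open Finset MeasureTheory Complex

namespace Pool.Agent.M58

theorem HQB_CR_mono {R R' : ℕ} (h : R ≤ R') : CR R ⊆ CR R' := by
  unfold CR
  exact Finset.sigma_mono (Icc_subset_Icc_right h) fun _ => le_rfl

/-- Mean squares of bounded coefficients on rough integers. -/
theorem HQB_l2 (b : ℝ) (hb : 0 < b) (hb1 : b ≤ 1) : ∃ κ δ₀ C Y₀ : ℝ, 0 < κ ∧ 0 < δ₀ ∧ 0 < C ∧ 3 ≤ Y₀ ∧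
    ∀ (Y δ : ℝ) (E : CC → Set ℝ) (N : ℕ) (a : ℕ → ℝ), Y₀ ≤ Y → δ ≤ δ₀ →
      Fam ⌊Y ^ δ⌋₊ (Y ^ 2) (Y ^ κ) E →
      (∀ n, a n ≠ 0 → |a n| ≤ 1 ∧ Y ^ b ≤ n ∧ (n : ℝ) ≤ Y ^ 6 ∧ rh (Y ^ b) n = 1) →
        ∑ i ∈ CR ⌊Y ^ δ⌋₊, ∫ t in E i, ‖DP N a i.2 t‖ ^ 2 ≤ C / Real.log Y := by
  classical
  obtain ⟨κ, δ₀, C, Y₁, hκ, hδ₀, hC, hY₁, H⟩ := l2_rough b hb hb1
  obtain ⟨C', Y₂, hC', hY₂, H'⟩ := rough_mass b b hb hb1 hb
  refine ⟨κ, δ₀, C * (C' * 3), max Y₁ Y₂, hκ, hδ₀, by positivity, hY₁.trans (le_max_left _ _), ?_⟩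
  intro Y δ E N a hY hδ hE ha
  have hY1 : Y₁ ≤ Y := (le_max_left _ _).trans hY
  have hY2 : Y₂ ≤ Y := (le_max_right _ _).trans hY
  have hY3 : 3 ≤ Y := hY₁.trans hY1
  have hY0 : 0 < Y := by linarith
  have hL : 1 ≤ Real.log Y := by
    rw [Real.le_log_iff_exp_le hY0]
    have := Real.exp_one_lt_d9
    linarith
  have hL0 : 0 < Real.log Y := by linarith
  -- extension by the empty set
  obtain ⟨E', hE'⟩ : ∃ E' : CC → Set ℝ, E' = fun i => if i ∈ CR ⌊Y ^ δ⌋₊ then E i else ∅ := ⟨_, rfl⟩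
  have hin : ∀ i ∈ CR ⌊Y ^ δ⌋₊, E' i = E i := by
    intro i hi
    rw [hE']
    exact if_pos hi
  have hout : ∀ i, i ∉ CR ⌊Y ^ δ⌋₊ → E' i = ∅ := by
    intro i hi
    rw [hE']
    exact if_neg hi
  have hsub : CR ⌊Y ^ δ⌋₊ ⊆ CR ⌊Y ^ δ₀⌋₊ :=
    HQB_CR_mono (Nat.floor_le_floor (Real.rpow_le_rpow_of_exponent_le (by linarith) hδ))
  have hF : Fam ⌊Y ^ δ₀⌋₊ (Y ^ 2) (Y ^ κ) E' := by
    refine ⟨fun i _ => ?_, ?_⟩
    · by_cases hi : i ∈ CR ⌊Y ^ δ⌋₊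
      · rw [hin i hi]
        exact hE.1 i hi
      · rw [hout i hi]
        exact ⟨MeasurableSet.empty, Set.empty_subset _⟩
    · rw [← Finset.sum_subset hsub (fun i _ hi => by rw [hout i hi]; simp)]
      rw [Finset.sum_congr rfl fun i hi => by rw [hin i hi]]
      exact hE.2
  have h1 := H Y E' N a hY1 hF (fun n hn => (ha n hn).2)
  have h2 : ∑ i ∈ CR ⌊Y ^ δ⌋₊, ∫ t in E i, ‖DP N a i.2 t‖ ^ 2 =
      ∑ i ∈ CR ⌊Y ^ δ₀⌋₊, ∫ t in E' i, ‖DP N a i.2 t‖ ^ 2 := by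
    rw [← Finset.sum_subset hsub (fun i _ hi => by rw [hout i hi]; simp)]
    exact Finset.sum_congr rfl fun i hi => by rw [hin i hi]
  rw [h2]
  refine h1.trans ?_
  -- the mass
  have h3 := H' Y ((6 + b) / 2 * Real.log Y) ((6 - b) / 2 * Real.log Y) N hY2 (by nlinarith)
    (by nlinarith) (by nlinarith)
  have h4 : ∑ n ∈ Icc 1 N, a n ^ 2 / n ≤ C' * 3 := by
    have h5 : ∑ n ∈ Icc 1 N, a n ^ 2 / n ≤
        ∑ n ∈ (Icc 1 N).filter (fun n : ℕ =>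
          (6 + b) / 2 * Real.log Y - (6 - b) / 2 * Real.log Y ≤ Real.log n ∧
          Real.log n ≤ (6 + b) / 2 * Real.log Y + (6 - b) / 2 * Real.log Y), rh (Y ^ b) n / n := by
      rw [Finset.sum_filter]
      refine Finset.sum_le_sum fun n hn => ?_
      rw [Finset.mem_Icc] at hn
      have hn0 : (0 : ℝ) < n := by exact_mod_cast hn.1
      by_cases h0 : a n = 0
      · rw [h0]
        split_ifs
        · have := (HPrC_rh_bd (Y ^ b) n).1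
          simp only [ne_eq, OfNat.ofNat_ne_zero, not_false_eq_true, zero_pow, zero_div]
          positivity
        · simp
      · obtain ⟨e1, e2, e3, e4⟩ := ha n h0
        rw [HPrC_rpow_le hY0 hn0] at e2
        have e5 : Real.log n ≤ 6 * Real.log Y := by
          have h6 := Real.log_le_log hn0 e3
          rw [Real.log_pow] at h6
          exact_mod_cast h6
        rw [if_pos ⟨by nlinarith, by nlinarith⟩, e4]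
        refine div_le_div_of_nonneg_right ?_ hn0.le
        rw [← sq_abs]
        have := abs_nonneg (a n)
        nlinarith
    refine h5.trans (h3.trans ?_)
    rw [div_le_iff₀ hL0]
    have : C' * ((6 - b) / 2 * Real.log Y) ≤ C' * (3 * Real.log Y) := by
      refine mul_le_mul_of_nonneg_left ?_ hC'.le
      nlinarith
    linarith
  calc C / Real.log Y * ∑ n ∈ Icc 1 N, a n ^ 2 / n ≤ C / Real.log Y * (C' * 3) :=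
        mul_le_mul_of_nonneg_left h4 (by positivity)
    _ = C * (C' * 3) / Real.log Y := by ring

/-- The support of the blocks. -/
theorem HQB_Gt {Y : ℝ} {m j n : ℕ} (hY : 3 ≤ Y) (hm : 1 ≤ m) (hj : 2 ≤ j) (hj' : j + 1 ≤ 6 * m)
    (hn : 1 ≤ n) (h : Gt Y m j (Real.log n) ≠ 0) :
    |Gt Y m j (Real.log n)| ≤ 1 ∧ Y ^ (1 / (m : ℝ)) ≤ n ∧ (n : ℝ) ≤ Y ^ 6 := by
  obtain ⟨h1, _, h3⟩ := Gt_props Y m j hY hm
  have h4 := h3 _ h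
  have h5 := h1 (Real.log n)
  have hY0 : 0 < Y := by linarith
  have hL : 0 < Real.log Y := Real.log_pos (by linarith)
  have hn0 : (0 : ℝ) < n := by exact_mod_cast hn
  have hm0 : (0 : ℝ) < m := by exact_mod_cast hm
  have hj0 : (2 : ℝ) ≤ j := by exact_mod_cast hj
  have hj1 : (j : ℝ) + 1 ≤ 6 * m := by exact_mod_cast hj'
  refine ⟨by rw [abs_of_nonneg h5.1]; exact h5.2, ?_, ?_⟩
  · rw [HPrC_rpow_le hY0 hn0]
    have h6 : 1 / (m : ℝ) ≤ ((j : ℝ) - 1) / m := div_le_div_of_nonneg_right (by linarith) hm0.le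
    have h7 := mul_le_mul_of_nonneg_right h6 hL.le
    linarith [h4.1]
  · have h6 : ((j : ℝ) + 1) / m ≤ 6 := by
      rw [div_le_iff₀ hm0]
      exact hj1
    have h7 := mul_le_mul_of_nonneg_right h6 hL.le
    have h8 : Real.log n ≤ Real.log (Y ^ 6) := by
      rw [Real.log_pow]
      push_cast
      linarith [h4.2]
    exact (Real.log_le_log_iff hn0 (by positivity)).1 h8

theorem HQB_pb {Y : ℝ} {m j n : ℕ} (hY : 3 ≤ Y) (hm : 1 ≤ m) (hj : 2 ≤ j) (hj' : j + 1 ≤ 6 * m)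
    (h : pb Y m j n ≠ 0) :
    |pb Y m j n| ≤ 1 ∧ Y ^ (1 / (m : ℝ)) ≤ n ∧ (n : ℝ) ≤ Y ^ 6 ∧ rh (Y ^ (1 / (m : ℝ))) n = 1 := by
  unfold pb pw at h ⊢
  by_cases hp : n.Prime
  · rw [if_pos hp] at h ⊢
    obtain ⟨h1, h2, h3⟩ := HQB_Gt hY hm hj hj' hp.one_lt.le h
    refine ⟨h1, h2, h3, HPrC_rh_one hp.ne_zero fun q hq hd => ?_⟩
    rw [(Nat.prime_dvd_prime_iff_eq hq hp).1 hd]
    exact h2
  · rw [if_neg hp] at h
    exact absurd rfl h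

theorem HQB_pbY {Y : ℝ} {m j n : ℕ} (hY : 3 ≤ Y) (hm : 1 ≤ m) (hj : 2 ≤ j) (hj' : j + 1 ≤ 6 * m)
    (h : pbY Y m j n ≠ 0) :
    |pbY Y m j n| ≤ 1 ∧ Y ^ (1 / (m : ℝ)) ≤ n ∧ (n : ℝ) ≤ Y ^ 6 ∧ rh (Y ^ (1 / (m : ℝ))) n = 1 := by
  unfold pbY at h ⊢
  by_cases hp : (n : ℝ) ≤ Y
  · rw [if_pos hp] at h ⊢
    exact HQB_pb hY hm hj hj' h
  · rw [if_neg hp] at h
    exact absurd rfl h

theorem HQB_rb {Y x : ℝ} {m k n : ℕ} (hY : 3 ≤ Y) (hm : 1 ≤ m) (hk : 2 ≤ k) (hk' : k + 1 ≤ 6 * m)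
    (hx : 1 / (m : ℝ) ≤ x) (h : rb Y m (Y ^ x) k n ≠ 0) :
    |rb Y m (Y ^ x) k n| ≤ 1 ∧ Y ^ (1 / (m : ℝ)) ≤ n ∧ (n : ℝ) ≤ Y ^ 6 ∧
      rh (Y ^ (1 / (m : ℝ))) n = 1 := by
  unfold rb at h ⊢
  have hr : rh (Y ^ x) n ≠ 0 := left_ne_zero_of_mul h
  have hG : Gt Y m k (Real.log n) ≠ 0 := right_ne_zero_of_mul h
  obtain ⟨h0, h1⟩ := HPrC_rh_ne hr
  obtain ⟨g1, g2, g3⟩ := HQB_Gt hY hm hk hk' (Nat.one_le_iff_ne_zero.2 h0) hG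
  refine ⟨?_, g2, g3, HPrC_rh_one h0 fun q hq hd => ?_⟩
  · rw [abs_mul]
    have h2 := HPrC_rh_bd (Y ^ x) n
    rw [abs_of_nonneg h2.1]
    exact mul_le_one₀ h2.2 (abs_nonneg _) g1
  · exact (Real.rpow_le_rpow_of_exponent_le (by linarith) hx).trans (h1 q hq hd)

/-- The sum over the pairs. -/
theorem HQB_pairs {ι : Type} (P : Finset ι) (A B : ι → ℕ → ℝ) (D : ℕ → ℝ) (Y δ κ b C : ℝ)
    (E : CC → Set ℝ) (N : ℕ) (hE : Fam ⌊Y ^ δ⌋₊ (Y ^ 2) (Y ^ κ) E)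
    (hD : ∀ (i : CC) (t : ℝ), DP N D i.2 t = ∑ p ∈ P, DP N (A p) i.2 t * DP N (B p) i.2 t)
    (H : ∀ a : ℕ → ℝ, (∀ n, a n ≠ 0 → |a n| ≤ 1 ∧ Y ^ b ≤ n ∧ (n : ℝ) ≤ Y ^ 6 ∧ rh (Y ^ b) n = 1) →
        ∑ i ∈ CR ⌊Y ^ δ⌋₊, ∫ t in E i, ‖DP N a i.2 t‖ ^ 2 ≤ C)
    (hA : ∀ p ∈ P, ∀ n, A p n ≠ 0 → |A p n| ≤ 1 ∧ Y ^ b ≤ n ∧ (n : ℝ) ≤ Y ^ 6 ∧ rh (Y ^ b) n = 1)
    (hB : ∀ p ∈ P, ∀ n, B p n ≠ 0 → |B p n| ≤ 1 ∧ Y ^ b ≤ n ∧ (n : ℝ) ≤ Y ^ 6 ∧ rh (Y ^ b) n = 1) :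
    ∑ i ∈ CR ⌊Y ^ δ⌋₊, ∫ t in E i, ‖DP N D i.2 t‖ ≤ P.card * C := by
  have hint : ∀ i ∈ CR ⌊Y ^ δ⌋₊, ∀ a : ℕ → ℝ, IntegrableOn (fun t => ‖DP N a i.2 t‖ ^ 2) (E i) := by
    intro i hi a
    have h1 : Continuous fun t => ‖DP N a i.2 t‖ ^ 2 := ((DP_continuous N a i.2).norm).pow 2
    exact (h1.integrableOn_Icc).mono_set (hE.1 i hi).2
  have hint2 : ∀ i ∈ CR ⌊Y ^ δ⌋₊, ∀ p : ι, IntegrableOn
      (fun t => (1 / 2) * (‖DP N (A p) i.2 t‖ ^ 2 + ‖DP N (B p) i.2 t‖ ^ 2)) (E i) :=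
    fun i hi p => ((hint i hi (A p)).add (hint i hi (B p))).const_mul _
  have h1 : ∀ i ∈ CR ⌊Y ^ δ⌋₊, ∫ t in E i, ‖DP N D i.2 t‖ ≤
      ∑ p ∈ P, (1 / 2) * ((∫ t in E i, ‖DP N (A p) i.2 t‖ ^ 2) +
        ∫ t in E i, ‖DP N (B p) i.2 t‖ ^ 2) := by
    intro i hi
    have h2 : ∫ t in E i, ‖DP N D i.2 t‖ ≤ ∫ t in E i,
        ∑ p ∈ P, (1 / 2) * (‖DP N (A p) i.2 t‖ ^ 2 + ‖DP N (B p) i.2 t‖ ^ 2) := by
      refine setIntegral_mono_on ?_ ?_ (hE.1 i hi).1 fun t _ => ?_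
      · exact ((DP_continuous N D i.2).norm.integrableOn_Icc).mono_set (hE.1 i hi).2
      · exact integrable_finsetSum _ fun p _ => hint2 i hi p
      · rw [hD]
        refine (norm_sum_le _ _).trans (Finset.sum_le_sum fun p _ => ?_)
        rw [norm_mul]
        nlinarith [sq_nonneg (‖DP N (A p) i.2 t‖ - ‖DP N (B p) i.2 t‖)]
    refine h2.trans_eq ?_
    rw [integral_finsetSum _ fun p _ => hint2 i hi p]
    refine Finset.sum_congr rfl fun p _ => ?_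
    rw [integral_const_mul]
    congr 1
    exact integral_add (hint i hi (A p)) (hint i hi (B p))
  refine (Finset.sum_le_sum h1).trans ?_
  rw [Finset.sum_comm]
  have h3 : ∀ p ∈ P, ∑ i ∈ CR ⌊Y ^ δ⌋₊, (1 / 2) * ((∫ t in E i, ‖DP N (A p) i.2 t‖ ^ 2) +
        ∫ t in E i, ‖DP N (B p) i.2 t‖ ^ 2) ≤ C := by
    intro p hp
    rw [← Finset.mul_sum, Finset.sum_add_distrib]
    have h4 := H (A p) (hA p hp)
    have h5 := H (B p) (hB p hp)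
    linarith
  refine (Finset.sum_le_card_nsmul _ _ _ h3).trans ?_
  rw [nsmul_eq_mul]

/-- **Total mean values.** (Cauchy, `l2_rough` with `b = 1 / (4 μ)` for both factors, the number of pairs is `≤ 20 μ ^ 2`.
The sums `∑ a (n) ^ 2 / n` are bounded: `∑ 1 / p` over `[Y ^ b, Y ^ 3]` by Mertens, `∑ rh / n` by `rough_mass`.) -/
theorem l1_total (μ j₀ : ℕ) (hμ : 8 ≤ μ) (hj : 2 ≤ j₀) (hj' : j₀ ≤ μ) : ∃ κ δ₀ C Y₀ : ℝ, 0 < κ ∧ 0 < δ₀ ∧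
    0 < C ∧ 3 ≤ Y₀ ∧ ∀ (Y δ : ℝ) (E : CC → Set ℝ) (N : ℕ), Y₀ ≤ Y → 0 < δ → δ ≤ δ₀ →
      Fam ⌊Y ^ δ⌋₊ (Y ^ 2) (Y ^ κ) E → Y ^ 6 ≤ N →
        ∑ i ∈ CR ⌊Y ^ δ⌋₊, ∫ t in E i, ‖DP N (qX Y μ j₀) i.2 t‖ ≤ C / Real.log Y ∧
        ∑ i ∈ CR ⌊Y ^ δ⌋₊, ∫ t in E i, ‖DP N (qY Y μ j₀) i.2 t‖ ≤ C / Real.log Y := by
  have hm : 1 ≤ 4 * μ := by omega
  have hm0 : (0 : ℝ) < ((4 * μ : ℕ) : ℝ) := by exact_mod_cast hm
  obtain ⟨κ, δ₀, C, Y₀, hκ, hδ₀, hC, hY₀, H⟩ := HQB_l2 (1 / ((4 * μ : ℕ) : ℝ)) (by positivity)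
    (by
      rw [div_le_one hm0]
      exact_mod_cast hm)
  obtain ⟨P, hP⟩ : ∃ P : Finset (Σ _ : ℕ, ℕ),
      P = (Icc j₀ (4 * μ)).sigma fun j => Icc (7 * μ - j) (9 * μ - j) := ⟨_, rfl⟩
  obtain ⟨Q, hQ⟩ : ∃ Q : Finset (Σ _ : ℕ, ℕ),
      Q = (Icc (j₀ + 1) (2 * μ)).sigma fun j => Icc (3 * μ - j) (5 * μ - j) := ⟨_, rfl⟩
  refine ⟨κ, δ₀, (P.card + Q.card + 1) * C, Y₀, hκ, hδ₀, by positivity, hY₀, ?_⟩
  intro Y δ E N hY hδ0 hδ hE hN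
  have hY3 : 3 ≤ Y := hY₀.trans hY
  have hL : 0 < Real.log Y := Real.log_pos (by linarith)
  have H' := fun a ha => H Y δ E N a hY hδ hE ha
  have hx : ∀ j : ℕ, 2 ≤ j → 1 / ((4 * μ : ℕ) : ℝ) ≤ ((j : ℝ) - 1) / ((4 * μ : ℕ) : ℝ) := by
    intro j h
    have : (2 : ℝ) ≤ j := by exact_mod_cast h
    exact div_le_div_of_nonneg_right (by linarith) hm0.le
  have hx' : ∀ j : ℕ, 2 ≤ j → 1 / ((4 * μ : ℕ) : ℝ) ≤ ((j : ℝ) + 1) / ((4 * μ : ℕ) : ℝ) := by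
    intro j h
    have : (2 : ℝ) ≤ j := by exact_mod_cast h
    exact div_le_div_of_nonneg_right (by linarith) hm0.le
  have hfin : ∀ k : ℕ, (k : ℝ) ≤ P.card + Q.card + 1 →
      (k : ℝ) * (C / Real.log Y) ≤ (P.card + Q.card + 1) * C / Real.log Y := by
    intro k hk
    rw [mul_div_assoc]
    exact mul_le_mul_of_nonneg_right hk (by positivity)
  constructor
  · refine (HQB_pairs P (fun p => pbY Y (4 * μ) p.1)
      (fun p => rb Y (4 * μ) (Y ^ (((p.1 : ℝ) - 1) / ((4 * μ : ℕ) : ℝ))) p.2) (qX Y μ j₀) Y δ κ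
      (1 / ((4 * μ : ℕ) : ℝ)) (C / Real.log Y) E N hE ?_ H' ?_ ?_).trans (hfin _ ?_)
    · intro i t
      rw [DP_qX Y t μ j₀ N i.1 i.2 hY3 hμ hj hN, hP, Finset.sum_sigma]
    · intro p hp n hn
      rw [hP, Finset.mem_sigma, Finset.mem_Icc, Finset.mem_Icc] at hp
      exact HQB_pbY hY3 hm (by omega) (by omega) hn
    · intro p hp n hn
      rw [hP, Finset.mem_sigma, Finset.mem_Icc, Finset.mem_Icc] at hp
      exact HQB_rb hY3 hm (by omega) (by omega) (hx p.1 (by omega)) hn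
    · have : (0 : ℝ) ≤ Q.card := Nat.cast_nonneg _
      linarith
  · refine (HQB_pairs Q (fun p => pb Y (4 * μ) p.1)
      (fun p => rb Y (4 * μ) (Y ^ (((p.1 : ℝ) + 1) / ((4 * μ : ℕ) : ℝ))) p.2) (qY Y μ j₀) Y δ κ
      (1 / ((4 * μ : ℕ) : ℝ)) (C / Real.log Y) E N hE ?_ H' ?_ ?_).trans (hfin _ ?_)
    · intro i t
      rw [DP_qY Y t μ j₀ N i.1 i.2 hY3 hμ hj hN, hQ, Finset.sum_sigma]
    · intro p hp n hn
      rw [hQ, Finset.mem_sigma, Finset.mem_Icc, Finset.mem_Icc] at hp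
      exact HQB_pb hY3 hm (by omega) (by omega) hn
    · intro p hp n hn
      rw [hQ, Finset.mem_sigma, Finset.mem_Icc, Finset.mem_Icc] at hp
      exact HQB_rb hY3 hm (by omega) (by omega) (hx' p.1 (by omega)) hn
    · have : (0 : ℝ) ≤ P.card := Nat.cast_nonneg _
      linarith

end Pool.Agent.M58
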