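import Pool.Agent.W_b58c63_m1.HQ

/-!
# Small mean values away from the exceptional points (helper68)
-/

set_option autoImplicit false

noncomputable section

open Finset MeasureTheory Complex

namespace Pool.Agent.M58

theorem HQD_int {T : ℝ} {S : Set ℝ} (hS : S ⊆ Set.Icc (-T) T) {f : ℝ → ℝ} (hf : Continuous f) :
    IntegrableOn f S :=
  (hf.integrableOn_Icc).mono_set hS

theorem HQD_am (I : Finset CC) (E : CC → Set ℝ) (T lam A B : ℝ) (hlam : 0 < lam)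
    (hE : ∀ i ∈ I, MeasurableSet (E i) ∧ E i ⊆ Set.Icc (-T) T) (P R : CC → ℝ → ℂ)
    (hP : ∀ i, Continuous (P i)) (hR : ∀ i, Continuous (R i))
    (hA : ∑ i ∈ I, ∫ t in E i, ‖P i t‖ ^ 2 ≤ A) (hB : ∑ i ∈ I, ∫ t in E i, ‖R i t‖ ^ 2 ≤ B) :
    ∑ i ∈ I, ∫ t in E i, ‖P i t * R i t‖ ≤ lam / 2 * A + 1 / (2 * lam) * B := by
  have h1 : ∀ i ∈ I, ∫ t in E i, ‖P i t * R i t‖ ≤
      lam / 2 * (∫ t in E i, ‖P i t‖ ^ 2) + 1 / (2 * lam) * ∫ t in E i, ‖R i t‖ ^ 2 := by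
    intro i hi
    have c1 : Continuous fun t => ‖P i t‖ ^ 2 := (hP i).norm.pow 2
    have c2 : Continuous fun t => ‖R i t‖ ^ 2 := (hR i).norm.pow 2
    have c3 : Continuous fun t => ‖P i t * R i t‖ := ((hP i).mul (hR i)).norm
    have i1 := HQD_int (hE i hi).2 c1
    have i2 := HQD_int (hE i hi).2 c2
    have i3 := HQD_int (hE i hi).2 c3
    rw [← integral_const_mul, ← integral_const_mul,
      ← integral_add (i1.const_mul _) (i2.const_mul _)]
    refine integral_mono i3 ((i1.const_mul _).add (i2.const_mul _)) fun t => ?_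
    show ‖P i t * R i t‖ ≤ lam / 2 * ‖P i t‖ ^ 2 + 1 / (2 * lam) * ‖R i t‖ ^ 2
    rw [norm_mul]
    have h2 : 0 ≤ (lam * ‖P i t‖ - ‖R i t‖) ^ 2 := sq_nonneg _
    have h3 : lam / 2 * ‖P i t‖ ^ 2 + 1 / (2 * lam) * ‖R i t‖ ^ 2 - ‖P i t‖ * ‖R i t‖ =
        (lam * ‖P i t‖ - ‖R i t‖) ^ 2 / (2 * lam) := by
      field_simp
      ring
    have h4 : 0 ≤ (lam * ‖P i t‖ - ‖R i t‖) ^ 2 / (2 * lam) := by positivity
    linarith
  refine (sum_le_sum h1).trans ?_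
  rw [sum_add_distrib, ← mul_sum, ← mul_sum]
  have h2 := mul_le_mul_of_nonneg_left hA (show 0 ≤ lam / 2 by positivity)
  have h3 := mul_le_mul_of_nonneg_left hB (show 0 ≤ 1 / (2 * lam) by positivity)
  linarith

theorem HQD_sum (I : Finset CC) (E : CC → Set ℝ) (T B : ℝ)
    (hE : ∀ i ∈ I, MeasurableSet (E i) ∧ E i ⊆ Set.Icc (-T) T) (F : CC → ℝ → ℂ)
    (J : Finset ℕ) (Kf : ℕ → Finset ℕ) (P R : ℕ → ℕ → CC → ℝ → ℂ)
    (hF : ∀ i ∈ I, ∀ t, F i t = ∑ j ∈ J, ∑ k ∈ Kf j, P j k i t * R j k i t)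
    (hP : ∀ j k i, Continuous (P j k i)) (hR : ∀ j k i, Continuous (R j k i))
    (hB : ∀ j ∈ J, ∀ k ∈ Kf j, ∑ i ∈ I, ∫ t in E i, ‖P j k i t * R j k i t‖ ≤ B) :
    ∑ i ∈ I, ∫ t in E i, ‖F i t‖ ≤ ∑ j ∈ J, ∑ _k ∈ Kf j, B := by
  have hc : ∀ j k i, Continuous fun t => ‖P j k i t * R j k i t‖ := fun j k i =>
    ((hP j k i).mul (hR j k i)).norm
  have h1 : ∀ i ∈ I, ∫ t in E i, ‖F i t‖ ≤
      ∑ j ∈ J, ∑ k ∈ Kf j, ∫ t in E i, ‖P j k i t * R j k i t‖ := by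
    intro i hi
    have i1 : ∀ j ∈ J, ∀ k ∈ Kf j, IntegrableOn (fun t => ‖P j k i t * R j k i t‖) (E i) :=
      fun j _ k _ => HQD_int (hE i hi).2 (hc j k i)
    have i2 : ∀ j ∈ J, Integrable (fun t => ∑ k ∈ Kf j, ‖P j k i t * R j k i t‖)
        (volume.restrict (E i)) := fun j hj => integrable_finsetSum _ fun k hk => i1 j hj k hk
    have e1 : ∑ j ∈ J, ∑ k ∈ Kf j, ∫ t in E i, ‖P j k i t * R j k i t‖ =
        ∫ t in E i, ∑ j ∈ J, ∑ k ∈ Kf j, ‖P j k i t * R j k i t‖ := by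
      rw [integral_finsetSum J i2]
      exact sum_congr rfl fun j hj => (integral_finsetSum (Kf j) fun k hk => i1 j hj k hk).symm
    rw [e1]
    have hcF : Continuous fun t => ‖F i t‖ := by
      have : F i = fun t => ∑ j ∈ J, ∑ k ∈ Kf j, P j k i t * R j k i t := funext (hF i hi)
      rw [this]
      refine Continuous.norm ?_
      exact continuous_finsetSum _ fun j _ => continuous_finsetSum _ fun k _ =>
        (hP j k i).mul (hR j k i)
    refine integral_mono (HQD_int (hE i hi).2 hcF) (integrable_finsetSum _ i2) fun t => ?_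
    show ‖F i t‖ ≤ ∑ j ∈ J, ∑ k ∈ Kf j, ‖P j k i t * R j k i t‖
    rw [hF i hi t]
    refine (norm_sum_le _ _).trans (sum_le_sum fun j _ => norm_sum_le _ _)
  refine (sum_le_sum h1).trans ?_
  rw [sum_comm]
  refine sum_le_sum fun j hj => ?_
  rw [sum_comm]
  exact sum_le_sum fun k hk => hB j hj k hk

theorem HQD_rh01 (z : ℝ) (n : ℕ) : rh z n = 0 ∨ rh z n = 1 := by
  unfold rh
  split_ifs
  · exact Or.inr rfl
  · exact Or.inl rfl

theorem HQD_rh_mono (z z' : ℝ) (h : z ≤ z') (n : ℕ) (h1 : rh z' n = 1) : rh z n = 1 := by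
  unfold rh at h1 ⊢
  by_cases h2 : n ≠ 0 ∧ ∀ p ∈ n.primeFactors, z' ≤ (p : ℝ)
  · rw [if_pos ⟨h2.1, fun p hp => h.trans (h2.2 p hp)⟩]
  · rw [if_neg h2] at h1
    exact absurd h1 zero_ne_one

theorem HQD_rh_zero (z : ℝ) : rh z 0 = 0 := by
  unfold rh
  rw [if_neg]
  exact fun h => h.1 rfl

/-- restriction of the family of sets to the characters under consideration -/
def HQD_E (R : ℕ) (E : CC → Set ℝ) (i : CC) : Set ℝ := open Classical in if i ∈ CR R then E i else ∅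

theorem HQD_CR (R R' : ℕ) (h : R ≤ R') : CR R ⊆ CR R' := by
  intro i hi
  unfold CR at hi ⊢
  rw [mem_sigma, mem_Icc] at hi ⊢
  exact ⟨⟨hi.1.1, hi.1.2.trans h⟩, hi.2⟩

theorem HQD_Fam (R R' : ℕ) (h : R ≤ R') (T T' V V' : ℝ) (hT : T ≤ T') (hV : V ≤ V') (E : CC → Set ℝ)
    (hE : Fam R T V E) : Fam R' T' V' (HQD_E R E) := by
  classical
  have hs := HQD_CR R R' h
  constructor
  · intro i _
    unfold HQD_E
    split_ifs with h1
    · exact ⟨(hE.1 i h1).1, (hE.1 i h1).2.trans (Set.Icc_subset_Icc (by linarith) hT)⟩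
    · exact ⟨MeasurableSet.empty, Set.empty_subset _⟩
  · have h2 : ∑ i ∈ CR R', (volume (HQD_E R E i)).toReal = ∑ i ∈ CR R, (volume (E i)).toReal := by
      rw [← sum_subset hs]
      · refine sum_congr rfl fun i hi => ?_
        unfold HQD_E
        rw [if_pos hi]
      · intro i _ hi
        unfold HQD_E
        rw [if_neg hi]
        simp
    rw [h2]
    exact hE.2.trans hV

theorem HQD_sumE (R R' : ℕ) (h : R ≤ R') (E : CC → Set ℝ) (f : CC → ℝ → ℝ) :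
    ∑ i ∈ CR R', ∫ t in HQD_E R E i, f i t = ∑ i ∈ CR R, ∫ t in E i, f i t := by
  classical
  rw [← sum_subset (HQD_CR R R' h)]
  · refine sum_congr rfl fun i hi => ?_
    unfold HQD_E
    rw [if_pos hi]
  · intro i _ hi
    unfold HQD_E
    rw [if_neg hi]
    simp

/-- The mean square of the second factors. -/
theorem HQD_rb (m : ℕ) (hm : 1 ≤ m) : ∃ κ δ C Y₀ : ℝ, 0 < κ ∧ 0 < δ ∧ 0 < C ∧ 3 ≤ Y₀ ∧
    ∀ (Y δ' : ℝ) (E : CC → Set ℝ) (N k : ℕ) (θ : ℝ), Y₀ ≤ Y → 0 < δ' → δ' ≤ δ →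
      Fam ⌊Y ^ δ'⌋₊ (Y ^ (3 / 2 : ℝ)) (Y ^ κ) E → 2 ≤ k → (k : ℝ) + 1 ≤ 6 * m → 1 / (m : ℝ) ≤ θ →
        ∑ i ∈ CR ⌊Y ^ δ'⌋₊, ∫ t in E i, ‖DP N (rb Y m (Y ^ θ) k) i.2 t‖ ^ 2 ≤ C / Real.log Y := by
  have hm0 : (0 : ℝ) < m := by exact_mod_cast hm
  have hm1 : (1 : ℝ) ≤ m := by exact_mod_cast hm
  have hb : (0 : ℝ) < 1 / m := by positivity
  have hb1 : (1 : ℝ) / m ≤ 1 := by rw [div_le_one hm0]; exact hm1
  obtain ⟨κ, δ, C, Y₀, hκ, hδ, hC, hY₀, H⟩ := l2_rough (1 / m) hb hb1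
  obtain ⟨C₂, Y₂, hC₂, hY₂, H₂⟩ := rough_mass (1 / m) (1 / m) hb hb1 hb
  refine ⟨κ, δ, C * C₂, max (max Y₀ Y₂) (Real.exp m), hκ, hδ, by positivity,
    hY₀.trans ((le_max_left _ _).trans (le_max_left _ _)), ?_⟩
  intro Y δ' E N k θ hY hδ' hδδ hE hk hk6 hθ
  have hY0 : Y₀ ≤ Y := ((le_max_left _ _).trans (le_max_left _ _)).trans hY
  have hY2 : Y₂ ≤ Y := ((le_max_right _ _).trans (le_max_left _ _)).trans hY
  have hYm : Real.exp m ≤ Y := (le_max_right _ _).trans hY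
  have hY3 : 3 ≤ Y := hY₀.trans hY0
  have hYpos : 0 < Y := by linarith
  have hY1 : 1 ≤ Y := by linarith
  have hL : (m : ℝ) ≤ Real.log Y := (Real.le_log_iff_exp_le hYpos).2 hYm
  have hL0 : 0 < Real.log Y := by linarith
  obtain ⟨g1, g2, g3⟩ := Gt_props Y m k hY3 hm
  have hk2 : (2 : ℝ) ≤ k := by exact_mod_cast hk
  have hR : ⌊Y ^ δ'⌋₊ ≤ ⌊Y ^ δ⌋₊ := Nat.floor_mono (Real.rpow_le_rpow_of_exponent_le hY1 hδδ)
  have hF : Fam ⌊Y ^ δ⌋₊ (Y ^ 2) (Y ^ κ) (HQD_E ⌊Y ^ δ'⌋₊ E) := by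
    refine HQD_Fam _ _ hR _ _ _ _ ?_ le_rfl E hE
    rw [← Real.rpow_natCast Y 2]
    exact Real.rpow_le_rpow_of_exponent_le hY1 (by norm_num)
  have hlow : Y ^ (1 / (m : ℝ)) ≤ Y ^ (((k : ℝ) - 1) / m) := by
    refine Real.rpow_le_rpow_of_exponent_le hY1 ?_
    exact div_le_div_of_nonneg_right (by linarith) hm0.le
  have hsup : ∀ n, rb Y m (Y ^ θ) k n ≠ 0 →
      (rh (Y ^ (1 / (m : ℝ))) n = 1 ∧ n ≠ 0 ∧ ((k : ℝ) - 1) / m * Real.log Y ≤ Real.log n ∧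
        Real.log n ≤ ((k : ℝ) + 1) / m * Real.log Y) := by
    intro n hn
    unfold rb at hn
    have h1 : rh (Y ^ θ) n ≠ 0 := left_ne_zero_of_mul hn
    have h2 : Gt Y m k (Real.log n) ≠ 0 := right_ne_zero_of_mul hn
    have h3 := g3 _ h2
    refine ⟨HQD_rh_mono _ (Y ^ θ) (Real.rpow_le_rpow_of_exponent_le hY1 hθ) n
      ((HQD_rh01 _ n).resolve_left h1), ?_, h3.1.le, h3.2.le⟩
    rintro rfl
    exact h1 (HQD_rh_zero _)
  have key := H Y (HQD_E ⌊Y ^ δ'⌋₊ E) N (rb Y m (Y ^ θ) k) hY0 hF (by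
    intro n hn
    obtain ⟨h1, h0, h2, h3⟩ := hsup n hn
    have hn0 : (0 : ℝ) < n := by exact_mod_cast Nat.pos_of_ne_zero h0
    refine ⟨?_, ?_, h1⟩
    · refine hlow.trans ?_
      rw [← Real.log_le_log_iff (Real.rpow_pos_of_pos hYpos _) hn0, Real.log_rpow hYpos]
      exact h2
    · rw [← Real.log_le_log_iff hn0 (by positivity), Real.log_pow]
      refine h3.trans ?_
      refine mul_le_mul_of_nonneg_right ?_ hL0.le
      rw [div_le_iff₀ hm0]
      push_cast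
      linarith)
  rw [HQD_sumE _ _ hR E] at key
  refine key.trans ?_
  have hsum : ∑ n ∈ Icc 1 N, rb Y m (Y ^ θ) k n ^ 2 / n ≤ C₂ := by
    have h1 := H₂ Y (k / m * Real.log Y) (1 / m * Real.log Y) N hY2 (by
      rw [one_div_mul_eq_div, one_le_div hm0]
      exact hL) (by
      have : (k : ℝ) / m * Real.log Y - 1 / m * Real.log Y = ((k : ℝ) - 1) / m * Real.log Y := by ring
      rw [this]
      refine mul_le_mul_of_nonneg_right ?_ hL0.le
      exact div_le_div_of_nonneg_right (by linarith) hm0.le) (by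
      have : (k : ℝ) / m * Real.log Y + 1 / m * Real.log Y = ((k : ℝ) + 1) / m * Real.log Y := by ring
      rw [this]
      refine mul_le_mul_of_nonneg_right ?_ hL0.le
      rw [div_le_iff₀ hm0]
      linarith)
    have h2 : C₂ * (1 / m * Real.log Y) / Real.log Y ≤ C₂ := by
      rw [← mul_assoc, mul_div_assoc, div_self hL0.ne', mul_one]
      nlinarith
    refine le_trans ?_ (h1.trans h2)
    have h3 : (Icc 1 N).filter (fun n : ℕ => (k : ℝ) / m * Real.log Y - 1 / m * Real.log Y ≤ Real.log n ∧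
        Real.log n ≤ k / m * Real.log Y + 1 / m * Real.log Y) ⊆ Icc 1 N := filter_subset _ _
    rw [← sum_subset h3]
    · refine sum_le_sum fun n _ => ?_
      refine div_le_div_of_nonneg_right ?_ (Nat.cast_nonneg n)
      by_cases hz : rb Y m (Y ^ θ) k n = 0
      · rw [hz]
        rcases HQD_rh01 (Y ^ (1 / (m : ℝ))) n with h | h <;> rw [h] <;> norm_num
      · rw [(hsup n hz).1]
        unfold rb
        have h4 : rh (Y ^ θ) n ≤ 1 ∧ 0 ≤ rh (Y ^ θ) n := by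
          rcases HQD_rh01 (Y ^ θ) n with h | h <;> rw [h] <;> norm_num
        have h5 := g1 (Real.log n)
        have h6 : rh (Y ^ θ) n * Gt Y m k (Real.log n) ≤ 1 := by nlinarith
        have h7 : 0 ≤ rh (Y ^ θ) n * Gt Y m k (Real.log n) := mul_nonneg h4.2 h5.1
        nlinarith
    · intro n hn hn2
      have hz : rb Y m (Y ^ θ) k n = 0 := by
        by_contra hz
        apply hn2
        obtain ⟨h4, h0, h5, h6⟩ := hsup n hz
        rw [mem_filter]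
        refine ⟨hn, ?_, ?_⟩
        · refine le_trans (le_of_eq ?_) h5
          ring
        · refine h6.trans (le_of_eq ?_)
          ring
      rw [hz]
      norm_num
  have : C / Real.log Y * ∑ n ∈ Icc 1 N, rb Y m (Y ^ θ) k n ^ 2 / n ≤ C / Real.log Y * C₂ :=
    mul_le_mul_of_nonneg_left hsum (by positivity)
  refine this.trans (le_of_eq ?_)
  ring

theorem HQD_tent_zero {x : ℝ} (h : 1 ≤ |x|) : tent x = 0 := by
  unfold tent
  exact max_eq_left (by linarith)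

theorem HQD_tent_nonneg (x : ℝ) : 0 ≤ tent x := le_max_left _ _

theorem HQD_tent_le (x : ℝ) : tent x ≤ 1 := max_le zero_le_one (by linarith [abs_nonneg x])

/-- Tents reproduce linear functions. -/
theorem HQD_tent_lin (y : ℝ) (hy : 0 ≤ y) : ∀ J : ℕ, y ≤ J →
    ∑ i ∈ range (J + 1), (i : ℝ) * tent (y - i) = y := by
  intro J
  induction J with
  | zero =>
    intro h
    have h0 : y = 0 := le_antisymm (by simpa using h) hy
    simp [h0]
  | succ J ih =>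
    intro h
    push_cast at h
    rw [sum_range_succ]
    rcases le_or_gt y J with h1 | h1
    · rw [ih h1]
      have h2 : tent (y - ((J + 1 : ℕ) : ℝ)) = 0 := by
        apply HQD_tent_zero
        push_cast
        rw [abs_of_nonpos (by linarith)]
        linarith
      rw [h2, mul_zero, add_zero]
    · rw [sum_range_succ]
      have h2 : ∑ i ∈ range J, (i : ℝ) * tent (y - i) = 0 := by
        refine sum_eq_zero fun i hi => ?_
        have h3 : (i : ℝ) + 1 ≤ J := by exact_mod_cast mem_range.1 hi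
        rw [HQD_tent_zero, mul_zero]
        rw [abs_of_nonneg (by linarith)]
        linarith
      have h3 : tent (y - J) = 1 - (y - J) := by
        unfold tent
        rw [abs_of_nonneg (by linarith), max_eq_right (by linarith)]
      have h4 : tent (y - ((J + 1 : ℕ) : ℝ)) = 1 - (J + 1 - y) := by
        unfold tent
        push_cast
        rw [abs_of_nonpos (by linarith), max_eq_right (by linarith)]
        ring
      rw [h2, h3, h4]
      push_cast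
      ring

/-- The difference between the cut tent and its continuous interpolation. -/
theorem HQD_h2 (y : ℝ) (M : ℕ) (hM : 1 ≤ M) :
    |(if y ≤ M then tent (y / M - 1) else 0) - ∑ i ∈ range M, (i : ℝ) / M * tent (y - i)| ≤ 1 ∧
    ((if y ≤ M then tent (y / M - 1) else 0) - ∑ i ∈ range M, (i : ℝ) / M * tent (y - i) ≠ 0 →
      (M : ℝ) - 1 < y ∧ y ≤ M) := by
  have hM0 : (0 : ℝ) < M := by exact_mod_cast hM
  have hneg : y < 0 → ∑ i ∈ range M, (i : ℝ) / M * tent (y - i) = 0 := by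
    intro hy
    refine sum_eq_zero fun i _ => ?_
    rcases Nat.eq_zero_or_pos i with h0 | h0
    · subst h0
      simp
    · have h1 : (1 : ℝ) ≤ i := by exact_mod_cast h0
      rw [HQD_tent_zero, mul_zero]
      rw [abs_of_nonpos (by linarith)]
      linarith
  have hz : ¬ ((M : ℝ) - 1 < y ∧ y ≤ M) →
      (if y ≤ M then tent (y / M - 1) else 0) - ∑ i ∈ range M, (i : ℝ) / M * tent (y - i) = 0 := by
    intro h
    rcases lt_or_ge (M : ℝ) y with h1 | h1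
    · rw [if_neg (by linarith)]
      have h2 : ∑ i ∈ range M, (i : ℝ) / M * tent (y - i) = 0 := by
        refine sum_eq_zero fun i hi => ?_
        have h3 : (i : ℝ) + 1 ≤ M := by exact_mod_cast mem_range.1 hi
        rw [HQD_tent_zero, mul_zero]
        rw [abs_of_nonneg (by linarith)]
        linarith
      rw [h2, sub_zero]
    · have h2 : y ≤ (M : ℝ) - 1 := by
        by_contra hc
        exact h ⟨by linarith, h1⟩
      rw [if_pos h1]
      rcases lt_or_ge y 0 with h3 | h3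
      · rw [hneg h3, sub_zero]
        apply HQD_tent_zero
        have : y / M < 0 := div_neg_of_neg_of_pos h3 hM0
        rw [abs_of_nonpos (by linarith)]
        linarith
      · obtain ⟨J, rfl⟩ : ∃ J, M = J + 1 := ⟨M - 1, by omega⟩
        have h4 := HQD_tent_lin y h3 J (by push_cast at h2; linarith)
        have h5 : ∑ i ∈ range (J + 1), (i : ℝ) / ((J + 1 : ℕ) : ℝ) * tent (y - i) =
            (∑ i ∈ range (J + 1), (i : ℝ) * tent (y - i)) / ((J + 1 : ℕ) : ℝ) := by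
          rw [Finset.sum_div]
          refine sum_congr rfl fun i _ => ?_
          ring
        have h6 : y / ((J + 1 : ℕ) : ℝ) ≤ 1 := by
          rw [div_le_one hM0]
          exact h1
        have h7 : 0 ≤ y / ((J + 1 : ℕ) : ℝ) := by positivity
        rw [h5, h4]
        unfold tent
        rw [abs_of_nonpos (by linarith), max_eq_right (by linarith)]
        ring
  have h01 : 0 ≤ (if y ≤ M then tent (y / M - 1) else 0) ∧
      (if y ≤ M then tent (y / M - 1) else 0) ≤ 1 := by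
    split_ifs
    · exact ⟨HQD_tent_nonneg _, HQD_tent_le _⟩
    · exact ⟨le_rfl, zero_le_one⟩
  have hs0 : 0 ≤ ∑ i ∈ range M, (i : ℝ) / M * tent (y - i) :=
    sum_nonneg fun i _ => mul_nonneg (by positivity) (HQD_tent_nonneg _)
  have hs1 : ∀ J : ℕ, M ≤ J + 1 → 0 ≤ y → y ≤ J →
      ∑ i ∈ range M, (i : ℝ) / M * tent (y - i) ≤ 1 := by
    intro J hJ hy hyJ
    rw [← HPr_tent_sum y hy J hyJ]
    calc ∑ i ∈ range M, (i : ℝ) / M * tent (y - i) ≤ ∑ i ∈ range M, tent (y - i) := by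
          refine sum_le_sum fun i hi => ?_
          have h3 : (i : ℝ) ≤ M := by exact_mod_cast (mem_range.1 hi).le
          have h4 : (i : ℝ) / M ≤ 1 := by
            rw [div_le_one hM0]
            exact h3
          have := mul_le_mul_of_nonneg_right h4 (HQD_tent_nonneg (y - i))
          linarith
      _ ≤ ∑ i ∈ range (J + 1), tent (y - i) := by
          refine sum_le_sum_of_subset_of_nonneg ?_ fun i _ _ => HQD_tent_nonneg _
          intro i hi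
          rw [mem_range] at hi ⊢
          omega
  refine ⟨?_, fun h => ?_⟩
  · by_cases h : (M : ℝ) - 1 < y ∧ y ≤ M
    · have h1 : (1 : ℝ) ≤ M := by exact_mod_cast hM
      have h2 := hs1 M (by omega) (by linarith [h.1]) h.2
      rw [abs_le]
      constructor <;> linarith [h01.1, h01.2]
    · rw [hz h]
      simp
  · by_contra hc
    exact h (hz hc)

theorem HQD_DP_lin (M : ℕ) (c : ℕ → ℝ) (a : ℕ → ℕ → ℝ) (b : ℕ → ℝ) (d : ℕ → ℝ) (N : ℕ)
    (h : ∀ n, d n = ∑ j ∈ range M, c j * a j n + b n) {r : ℕ}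
    (χ : DirichletCharacter ℂ r) (t : ℝ) :
    DP N d χ t = ∑ j ∈ range M, (c j : ℂ) * DP N (a j) χ t + DP N b χ t := by
  unfold DP
  simp_rw [Finset.mul_sum]
  rw [Finset.sum_comm, ← Finset.sum_add_distrib]
  refine Finset.sum_congr rfl fun n _ => ?_
  rw [h n, add_div, Finset.sum_div]
  push_cast
  rw [add_mul, add_mul, Finset.sum_mul, Finset.sum_mul]
  congr 1
  refine Finset.sum_congr rfl fun j _ => ?_
  ring

theorem HQD_norm_sq (M : ℕ) (c : ℕ → ℝ) (z : ℕ → ℂ) (w : ℂ) (hc : ∀ j ∈ range M, |c j| ≤ 1) :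
    ‖∑ j ∈ range M, (c j : ℂ) * z j + w‖ ^ 2 ≤
      ∑ j ∈ range M, 2 * (M : ℝ) * ‖z j‖ ^ 2 + 2 * ‖w‖ ^ 2 := by
  have h1 : ‖∑ j ∈ range M, (c j : ℂ) * z j‖ ≤ ∑ j ∈ range M, ‖z j‖ := by
    refine (norm_sum_le _ _).trans (sum_le_sum fun j hj => ?_)
    rw [norm_mul, Complex.norm_real, Real.norm_eq_abs]
    have := mul_le_mul_of_nonneg_right (hc j hj) (norm_nonneg (z j))
    linarith
  have h2 : (∑ j ∈ range M, ‖z j‖) ^ 2 ≤ M * ∑ j ∈ range M, ‖z j‖ ^ 2 := by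
    have := sq_sum_le_card_mul_sum_sq (s := range M) (f := fun j => ‖z j‖)
    rwa [card_range] at this
  have h3 := norm_add_le (∑ j ∈ range M, (c j : ℂ) * z j) w
  have h4 : 0 ≤ ∑ j ∈ range M, ‖z j‖ := sum_nonneg fun j _ => norm_nonneg _
  have h5 : ‖∑ j ∈ range M, (c j : ℂ) * z j + w‖ ≤ ∑ j ∈ range M, ‖z j‖ + ‖w‖ := by linarith
  have h6 : ‖∑ j ∈ range M, (c j : ℂ) * z j + w‖ ^ 2 ≤ (∑ j ∈ range M, ‖z j‖ + ‖w‖) ^ 2 :=
    pow_le_pow_left₀ (norm_nonneg _) h5 2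
  have h7 : ∑ j ∈ range M, 2 * (M : ℝ) * ‖z j‖ ^ 2 = 2 * (M * ∑ j ∈ range M, ‖z j‖ ^ 2) := by
    rw [← Finset.mul_sum]
    ring
  rw [h7]
  nlinarith [sq_nonneg (∑ j ∈ range M, ‖z j‖ - ‖w‖)]

/-- Integration of a pointwise bound by sums of squares. -/
theorem HQD_int_sq (I : Finset CC) (E : CC → Set ℝ) (T : ℝ)
    (hE : ∀ i ∈ I, MeasurableSet (E i) ∧ E i ⊆ Set.Icc (-T) T) (F W : CC → ℝ → ℂ) (Z : ℕ → CC → ℝ → ℂ)
    (M : ℕ) (A : ℝ) (hF : ∀ i, Continuous (F i)) (hW : ∀ i, Continuous (W i))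
    (hZ : ∀ j i, Continuous (Z j i))
    (h : ∀ i ∈ I, ∀ t, ‖F i t‖ ^ 2 ≤ ∑ j ∈ range M, A * ‖Z j i t‖ ^ 2 + 2 * ‖W i t‖ ^ 2) :
    ∑ i ∈ I, ∫ t in E i, ‖F i t‖ ^ 2 ≤
      (∑ j ∈ range M, A * ∑ i ∈ I, ∫ t in E i, ‖Z j i t‖ ^ 2) +
        2 * ∑ i ∈ I, ∫ t in E i, ‖W i t‖ ^ 2 := by
  have h1 : ∀ i ∈ I, ∫ t in E i, ‖F i t‖ ^ 2 ≤
      ∑ j ∈ range M, A * (∫ t in E i, ‖Z j i t‖ ^ 2) + 2 * ∫ t in E i, ‖W i t‖ ^ 2 := by
    intro i hi
    have c1 : Continuous fun t => ‖F i t‖ ^ 2 := (hF i).norm.pow 2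
    have c2 : Continuous fun t => ‖W i t‖ ^ 2 := (hW i).norm.pow 2
    have c3 : ∀ j, Continuous fun t => ‖Z j i t‖ ^ 2 := fun j => (hZ j i).norm.pow 2
    have i1 := HQD_int (hE i hi).2 c1
    have i2 := HQD_int (hE i hi).2 c2
    have i3 : ∀ j, IntegrableOn (fun t => ‖Z j i t‖ ^ 2) (E i) := fun j =>
      HQD_int (hE i hi).2 (c3 j)
    have i4 : Integrable (fun t => ∑ j ∈ range M, A * ‖Z j i t‖ ^ 2) (volume.restrict (E i)) :=
      integrable_finsetSum _ fun j _ => (i3 j).const_mul A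
    have e1 : ∑ j ∈ range M, A * (∫ t in E i, ‖Z j i t‖ ^ 2) =
        ∫ t in E i, ∑ j ∈ range M, A * ‖Z j i t‖ ^ 2 := by
      rw [integral_finsetSum _ fun j _ => (i3 j).const_mul A]
      exact sum_congr rfl fun j _ => (integral_const_mul _ _).symm
    rw [e1, ← integral_const_mul, ← integral_add i4 (i2.const_mul 2)]
    exact integral_mono i1 (i4.add (i2.const_mul 2)) fun t => h i hi t
  refine (sum_le_sum h1).trans (le_of_eq ?_)
  rw [sum_add_distrib, sum_comm, Finset.mul_sum]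
  congr 1
  refine sum_congr rfl fun j _ => ?_
  rw [Finset.mul_sum]

/-- The part near to `log Y` has a small mean square. -/
theorem HQD_last (m : ℕ) (hm : 4 ≤ m) (ε : ℝ) (hε : 0 < ε) :
    ∃ M : ℕ, 1 ≤ M ∧ ∃ κ δ Y₀ : ℝ, 0 < κ ∧ 0 < δ ∧ 3 ≤ Y₀ ∧
      ∀ (Y δ' : ℝ) (E : CC → Set ℝ) (N : ℕ) (a : ℕ → ℝ), Y₀ ≤ Y → 0 < δ' → δ' ≤ δ →
        Fam ⌊Y ^ δ'⌋₊ (Y ^ (3 / 2 : ℝ)) (Y ^ κ) E →
        (∀ n, a n ≠ 0 → n.Prime ∧ |a n| ≤ 1 ∧
          (1 - 1 / ((m : ℝ) * M)) * Real.log Y ≤ Real.log n ∧ Real.log n ≤ Real.log Y) →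
        ∑ i ∈ CR ⌊Y ^ δ'⌋₊, ∫ t in E i, ‖DP N a i.2 t‖ ^ 2 ≤ ε / Real.log Y := by
  obtain ⟨κ, δ, C₁, Y₁, hκ, hδ, hC₁, hY₁, H₁⟩ := l2_rough (1 / 2) (by norm_num) (by norm_num)
  obtain ⟨C₂, Y₂, hC₂, hY₂, H₂⟩ := rough_mass (1 / 2) (1 / 2) (by norm_num) (by norm_num)
    (by norm_num)
  have hm0 : (4 : ℝ) ≤ m := by exact_mod_cast hm
  set M : ℕ := ⌈C₁ * C₂ / ε⌉₊ + 1 with hM
  have hM1 : 1 ≤ M := by omega
  have hMr : (1 : ℝ) ≤ M := by exact_mod_cast hM1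
  have hMC : C₁ * C₂ / ε ≤ M := by
    have := Nat.le_ceil (C₁ * C₂ / ε)
    rw [hM]
    push_cast
    linarith
  set τ : ℝ := 1 / ((m : ℝ) * M) with hτ
  have hmM : (4 : ℝ) ≤ (m : ℝ) * M := by nlinarith
  have hτ0 : 0 < τ := by rw [hτ]; positivity
  have hτ4 : τ ≤ 1 / 4 := by
    rw [hτ]
    exact one_div_le_one_div_of_le (by norm_num) hmM
  refine ⟨M, hM1, κ, δ, max (max Y₁ Y₂) (Real.exp (2 / τ)), hκ, hδ,
    hY₁.trans ((le_max_left _ _).trans (le_max_left _ _)), ?_⟩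
  intro Y δ' E N a hY hδ' hδδ hE ha
  have hYY1 : Y₁ ≤ Y := ((le_max_left _ _).trans (le_max_left _ _)).trans hY
  have hYY2 : Y₂ ≤ Y := ((le_max_right _ _).trans (le_max_left _ _)).trans hY
  have hYe : Real.exp (2 / τ) ≤ Y := (le_max_right _ _).trans hY
  have hY3 : 3 ≤ Y := hY₁.trans hYY1
  have hYpos : 0 < Y := by linarith
  have hY1 : 1 ≤ Y := by linarith
  have hL : 2 / τ ≤ Real.log Y := (Real.le_log_iff_exp_le hYpos).2 hYe
  have hL0 : 0 < Real.log Y := lt_of_lt_of_le (by positivity) hL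
  have hτL : 2 ≤ τ * Real.log Y := by
    rw [div_le_iff₀ hτ0] at hL
    linarith
  have hR : ⌊Y ^ δ'⌋₊ ≤ ⌊Y ^ δ⌋₊ := Nat.floor_mono (Real.rpow_le_rpow_of_exponent_le hY1 hδδ)
  have hF : Fam ⌊Y ^ δ⌋₊ (Y ^ 2) (Y ^ κ) (HQD_E ⌊Y ^ δ'⌋₊ E) := by
    refine HQD_Fam _ _ hR _ _ _ _ ?_ le_rfl E hE
    rw [← Real.rpow_natCast Y 2]
    exact Real.rpow_le_rpow_of_exponent_le hY1 (by norm_num)
  have hpt : ∀ n, a n ≠ 0 → Y ^ (1 / 2 : ℝ) ≤ n ∧ (n : ℝ) ≤ Y ^ 6 ∧ rh (Y ^ (1 / 2 : ℝ)) n = 1 := by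
    intro n hn
    obtain ⟨hp, -, h1, h2⟩ := ha n hn
    have hn0 : (0 : ℝ) < n := by exact_mod_cast hp.pos
    have h3 : Y ^ (1 / 2 : ℝ) ≤ n := by
      rw [HPrC_rpow_le hYpos hn0]
      refine le_trans ?_ h1
      refine mul_le_mul_of_nonneg_right ?_ hL0.le
      rw [← hτ]
      linarith
    refine ⟨h3, ?_, ?_⟩
    · rw [← Real.log_le_log_iff hn0 (by positivity), Real.log_pow]
      push_cast
      linarith
    · refine HPrC_rh_one hp.ne_zero fun q hq hd => ?_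
      rw [(Nat.prime_dvd_prime_iff_eq hq hp).1 hd]
      exact h3
  have key := H₁ Y (HQD_E ⌊Y ^ δ'⌋₊ E) N a hYY1 hF hpt
  rw [HQD_sumE _ _ hR E] at key
  refine key.trans ?_
  have hsum : ∑ n ∈ Icc 1 N, a n ^ 2 / n ≤ C₂ * (τ / 2) := by
    have h1 := H₂ Y ((1 - τ / 2) * Real.log Y) (τ / 2 * Real.log Y) N hYY2 (by linarith) (by
      nlinarith) (by nlinarith)
    have h2 : C₂ * (τ / 2 * Real.log Y) / Real.log Y = C₂ * (τ / 2) := by
      field_simp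
    rw [h2] at h1
    refine le_trans ?_ h1
    have h3 : (Icc 1 N).filter (fun n : ℕ => (1 - τ / 2) * Real.log Y - τ / 2 * Real.log Y ≤ Real.log n ∧
        Real.log n ≤ (1 - τ / 2) * Real.log Y + τ / 2 * Real.log Y) ⊆ Icc 1 N := filter_subset _ _
    rw [← sum_subset h3]
    · refine sum_le_sum fun n _ => ?_
      refine div_le_div_of_nonneg_right ?_ (Nat.cast_nonneg n)
      by_cases hz : a n = 0
      · rw [hz]
        have := (HPrC_rh_bd (Y ^ (1 / 2 : ℝ)) n).1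
        simpa using this
      · rw [(hpt n hz).2.2, ← sq_abs]
        have h5 := (ha n hz).2.1
        have h6 := abs_nonneg (a n)
        nlinarith
    · intro n hn hn2
      have hz : a n = 0 := by
        by_contra hz
        apply hn2
        obtain ⟨-, -, h5, h6⟩ := ha n hz
        rw [mem_filter]
        refine ⟨hn, ?_, ?_⟩
        · refine le_trans (le_of_eq ?_) h5
          rw [← hτ]
          ring
        · refine h6.trans (le_of_eq ?_)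
          ring
      rw [hz]
      norm_num
  have h4 : C₁ / Real.log Y * ∑ n ∈ Icc 1 N, a n ^ 2 / n ≤ C₁ / Real.log Y * (C₂ * (τ / 2)) :=
    mul_le_mul_of_nonneg_left hsum (by positivity)
  refine h4.trans ?_
  have h5 : C₁ / Real.log Y * (C₂ * (τ / 2)) = (C₁ * C₂ * (τ / 2)) / Real.log Y := by ring
  rw [h5]
  refine div_le_div_of_nonneg_right ?_ hL0.le
  have h6 : C₁ * C₂ ≤ M * ε := by
    rw [div_le_iff₀ hε] at hMC
    exact hMC
  have h7 : C₁ * C₂ * (τ / 2) ≤ M * ε * (τ / 2) := mul_le_mul_of_nonneg_right h6 (by positivity)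
  have h8 : (M : ℝ) * ε * (τ / 2) = ε / (2 * m) := by
    rw [hτ]
    have : (M : ℝ) ≠ 0 := by positivity
    have : (m : ℝ) ≠ 0 := by positivity
    field_simp
  rw [h8] at h7
  refine h7.trans ?_
  rw [div_le_iff₀ (by positivity)]
  nlinarith

/-- Membership in the class of tents at scale `τ`. -/
theorem HQD_decomp (Y : ℝ) (m M n : ℕ) (hY : 3 ≤ Y) (hm : 1 ≤ m) (hM : 1 ≤ M) :
    ∃ b : ℝ, pbY Y m m n = ∑ j ∈ range M, (j : ℝ) / M *
        pw (fun v => tent ((v - (((m : ℝ) - 1) / m + j / ((m : ℝ) * M)) * Real.log Y) /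
          (1 / ((m : ℝ) * M) * Real.log Y))) n + b ∧
      (b ≠ 0 → n.Prime ∧ |b| ≤ 1 ∧ (1 - 1 / ((m : ℝ) * M)) * Real.log Y ≤ Real.log n ∧
        Real.log n ≤ Real.log Y) := by
  have hL : 0 < Real.log Y := Real.log_pos (by linarith)
  have hm0 : (0 : ℝ) < m := by exact_mod_cast hm
  have hM0 : (0 : ℝ) < M := by exact_mod_cast hM
  have hY0 : 0 < Y := by linarith
  by_cases hp : n.Prime
  · have hn0 : (0 : ℝ) < n := by exact_mod_cast hp.pos
    set y : ℝ := m * M * Real.log n / Real.log Y - (m - 1) * M with hy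
    have h1 : ∀ j : ℕ, pw (fun v => tent ((v - (((m : ℝ) - 1) / m + j / ((m : ℝ) * M)) * Real.log Y) /
          (1 / ((m : ℝ) * M) * Real.log Y))) n = tent (y - j) := by
      intro j
      unfold pw
      rw [if_pos hp]
      congr 1
      rw [hy]
      field_simp
      ring_nf
    have h2 : pbY Y m m n = if y ≤ M then tent (y / M - 1) else 0 := by
      unfold pbY pb pw Gt
      rw [if_pos hp]
      have h3 : ((n : ℝ) ≤ Y) ↔ y ≤ M := by
        rw [← Real.log_le_log_iff hn0 hY0, hy, sub_le_iff_le_add, div_le_iff₀ hL]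
        constructor
        · intro h
          have := mul_le_mul_of_nonneg_left h (by positivity : (0 : ℝ) ≤ m * M)
          linarith
        · intro h
          have h4 : (m : ℝ) * M * Real.log n ≤ m * M * Real.log Y := by linarith
          exact le_of_mul_le_mul_left h4 (by positivity)
      by_cases h4 : (n : ℝ) ≤ Y
      · rw [if_pos h4, if_pos (h3.1 h4)]
        congr 1
        rw [hy]
        field_simp
        ring
      · rw [if_neg h4, if_neg (fun h => h4 (h3.2 h))]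
    obtain ⟨h3, h4⟩ := HQD_h2 y M hM
    refine ⟨(if y ≤ M then tent (y / M - 1) else 0) - ∑ i ∈ range M, (i : ℝ) / M * tent (y - i),
      ?_, fun h => ⟨hp, h3, ?_, ?_⟩⟩
    · rw [h2]
      simp_rw [h1]
      ring
    · have h5 := (h4 h).1
      rw [hy, lt_sub_iff_add_lt, lt_div_iff₀ hL] at h5
      have h6 : (1 - 1 / ((m : ℝ) * M)) * Real.log Y = (((M : ℝ) - 1 + (m - 1) * M) * Real.log Y) / (m * M) := by
        field_simp
        ring
      rw [h6, div_le_iff₀ (by positivity)]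
      linarith
    · have h5 := (h4 h).2
      rw [hy, sub_le_iff_le_add, div_le_iff₀ hL] at h5
      have h7 : (m : ℝ) * M * Real.log n ≤ m * M * Real.log Y := by linarith
      exact le_of_mul_le_mul_left h7 (by positivity)
  · refine ⟨0, ?_, fun h => absurd rfl h⟩
    simp [pbY, pb, pw, hp]

/-- The mean squares of the first factors. -/
theorem HQD_sq (m : ℕ) (hm : 4 ≤ m) (ε : ℝ) (hε : 0 < ε) :
    ∃ a' η' ε' K κ δ₀ Y₀ : ℝ, 0 < a' ∧ a' ≤ 1 ∧ 0 < η' ∧ η' ≤ 1 ∧ 0 < ε' ∧ 0 < K ∧ 0 < κ ∧ 0 < δ₀ ∧ 3 ≤ Y₀ ∧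
      ∀ (Y δ : ℝ) (i1 : CC) (β : ℝ), Y₀ ≤ Y → 0 < δ → δ ≤ δ₀ → β ≤ 1 → PBL Y δ a' η' ε' i1 β →
        ∀ (E : CC → Set ℝ) (N : ℕ), Fam ⌊Y ^ δ⌋₊ (Y ^ (3 / 2 : ℝ)) (Y ^ κ) E →
          (∀ t ∈ E i0, K / Real.log Y ≤ |t|) → (∀ t ∈ E i1, K / Real.log Y ≤ |t|) → Y ^ 6 ≤ N →
          (∀ j : ℕ, 2 ≤ j → (j : ℝ) + 1 ≤ 6 * m →
            ∑ i ∈ CR ⌊Y ^ δ⌋₊, ∫ t in E i, ‖DP N (pb Y m j) i.2 t‖ ^ 2 ≤ ε / Real.log Y) ∧
          (∀ j : ℕ, 2 ≤ j → j ≤ m →
            ∑ i ∈ CR ⌊Y ^ δ⌋₊, ∫ t in E i, ‖DP N (pbY Y m j) i.2 t‖ ^ 2 ≤ ε / Real.log Y) := by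
  have hm1 : 1 ≤ m := by omega
  have hm0 : (0 : ℝ) < m := by exact_mod_cast hm1
  have hm4 : (4 : ℝ) ≤ m := by exact_mod_cast hm
  have hb : (0 : ℝ) < 1 / m := by positivity
  have hb1 : (1 : ℝ) / m ≤ 1 := by rw [div_le_one hm0]; linarith
  obtain ⟨M, hM, κ₃, δ₃, Y₃, hκ₃, hδ₃, hY₃, H₃⟩ := HQD_last m hm (ε / 4) (by positivity)
  have hMr : (1 : ℝ) ≤ M := by exact_mod_cast hM
  have hM0 : (0 : ℝ) < M := by linarith
  have hmM : (4 : ℝ) ≤ (m : ℝ) * M := by nlinarith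
  have hτ0 : (0 : ℝ) < 1 / ((m : ℝ) * M) := by positivity
  have hτ1 : 1 / ((m : ℝ) * M) ≤ 1 := by
    rw [div_le_one (by positivity)]
    linarith
  have hτm : 1 / ((m : ℝ) * M) ≤ 1 / m := by
    refine one_div_le_one_div_of_le hm0 ?_
    nlinarith
  obtain ⟨a₁, η₁, ε₁, K₁, κ₁, δ₁, Y₁, p1, p2, p3, p4, p5, p6, p7, p8, p9, H₁⟩ :=
    l2_prime (1 / m) (1 / m) ε hb hb1 hb hb1 hε
  obtain ⟨a₂, η₂, ε₂, K₂, κ₂, δ₂, Y₂, q1, q2, q3, q4, q5, q6, q7, q8, q9, H₂⟩ :=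
    l2_prime (1 / 2) (1 / ((m : ℝ) * M)) (ε / (4 * M ^ 2)) (by norm_num) (by norm_num) hτ0 hτ1
      (by positivity)
  refine ⟨min a₁ a₂, min η₁ η₂, min ε₁ ε₂, max K₁ K₂, min κ₁ (min κ₂ κ₃), min δ₁ (min δ₂ δ₃),
    max Y₁ (max Y₂ Y₃), lt_min p1 q1, (min_le_left _ _).trans p2, lt_min p3 q3,
    (min_le_left _ _).trans p4, lt_min p5 q5, lt_max_of_lt_left p6, lt_min p7 (lt_min q7 hκ₃),
    lt_min p8 (lt_min q8 hδ₃), p9.trans (le_max_left _ _), ?_⟩
  intro Y δ i1 β hY hδ hδδ hβ hP E N hE hE0 hE1 hN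
  have hYY1 : Y₁ ≤ Y := (le_max_left _ _).trans hY
  have hYY2 : Y₂ ≤ Y := ((le_max_left _ _).trans (le_max_right _ _)).trans hY
  have hYY3 : Y₃ ≤ Y := ((le_max_right _ _).trans (le_max_right _ _)).trans hY
  have hY3 : 3 ≤ Y := p9.trans hYY1
  have hY1 : 1 ≤ Y := by linarith
  have hL0 : 0 < Real.log Y := Real.log_pos (by linarith)
  have hδ1 : δ ≤ δ₁ := hδδ.trans (min_le_left _ _)
  have hδ2 : δ ≤ δ₂ := hδδ.trans ((min_le_right _ _).trans (min_le_left _ _))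
  have hδ3 : δ ≤ δ₃ := hδδ.trans ((min_le_right _ _).trans (min_le_right _ _))
  have hη0 : 0 < min η₁ η₂ := lt_min p3 q3
  have hP1 : PBL Y δ a₁ η₁ ε₁ i1 β :=
    PBL_mono hY1 hP le_rfl (min_le_left _ _) (min_le_left _ _) hη0 (min_le_left _ _)
  have hP2 : PBL Y δ a₂ η₂ ε₂ i1 β :=
    PBL_mono hY1 hP le_rfl (min_le_right _ _) (min_le_right _ _) hη0 (min_le_right _ _)
  have hFm : ∀ κ' : ℝ, min κ₁ (min κ₂ κ₃) ≤ κ' → Fam ⌊Y ^ δ⌋₊ (Y ^ (3 / 2 : ℝ)) (Y ^ κ') E := fun κ' h =>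
    ⟨hE.1, hE.2.trans (Real.rpow_le_rpow_of_exponent_le hY1 h)⟩
  have hF1 := hFm κ₁ (min_le_left _ _)
  have hF2 := hFm κ₂ ((min_le_right _ _).trans (min_le_left _ _))
  have hF3 := hFm κ₃ ((min_le_right _ _).trans (min_le_right _ _))
  have hK1 : ∀ x : ℝ, max K₁ K₂ / Real.log Y ≤ x → K₁ / Real.log Y ≤ x := fun x h =>
    (div_le_div_of_nonneg_right (le_max_left _ _) hL0.le).trans h
  have hK2 : ∀ x : ℝ, max K₁ K₂ / Real.log Y ≤ x → K₂ / Real.log Y ≤ x := fun x h =>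
    (div_le_div_of_nonneg_right (le_max_right _ _) hL0.le).trans h
  have part1 : ∀ j : ℕ, 2 ≤ j → (j : ℝ) + 1 ≤ 6 * m →
      ∑ i ∈ CR ⌊Y ^ δ⌋₊, ∫ t in E i, ‖DP N (pb Y m j) i.2 t‖ ^ 2 ≤ ε / Real.log Y := by
    intro j hj hj6
    have hj2 : (2 : ℝ) ≤ j := by exact_mod_cast hj
    have k1 := H₁ Y δ i1 β hYY1 hδ hδ1 hβ hP1 E (j / m * Real.log Y) N hF1
      (fun t ht => hK1 _ (hE0 t ht)) (fun t ht => hK1 _ (hE1 t ht)) (by
        have : (j : ℝ) / m * Real.log Y - 1 / m * Real.log Y = ((j : ℝ) - 1) / m * Real.log Y := by ring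
        rw [this]
        refine mul_le_mul_of_nonneg_right ?_ hL0.le
        exact div_le_div_of_nonneg_right (by linarith) hm0.le) (by
        have : (j : ℝ) / m * Real.log Y + 1 / m * Real.log Y = ((j : ℝ) + 1) / m * Real.log Y := by ring
        rw [this]
        refine mul_le_mul_of_nonneg_right ?_ hL0.le
        rw [div_le_iff₀ hm0]
        linarith) hN
    have hpb : (pw fun v => tent ((v - j / m * Real.log Y) / (1 / m * Real.log Y))) = pb Y m j := by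
      unfold pb
      congr 1
      funext v
      unfold Gt
      congr 1
      field_simp
    rw [hpb] at k1
    exact k1
  refine ⟨part1, fun j hj hjm => ?_⟩
  rcases Nat.lt_or_ge j m with hlt | hge
  · -- the supports are in `[1, Y]`
    have h1 : pbY Y m j = pb Y m j := by
      funext n
      unfold pbY
      split_ifs with h
      · rfl
      · by_contra hc
        have h2 := (HQ_pb_supp Y m j hY3 hm1 n (Ne.symm hc)).2.2
        apply h
        refine h2.le.trans ?_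
        calc Y ^ (((j : ℝ) + 1) / m) ≤ Y ^ (1 : ℝ) := by
              refine Real.rpow_le_rpow_of_exponent_le hY1 ?_
              rw [div_le_one hm0]
              exact_mod_cast hlt
          _ = Y := Real.rpow_one Y
    rw [h1]
    refine part1 j hj ?_
    have : (j : ℝ) + 1 ≤ m := by exact_mod_cast hlt
    linarith
  · have hjm' : j = m := le_antisymm hjm hge
    subst hjm'
    choose b hb2 hb3 using fun n => HQD_decomp Y j M n hY3 hm1 hM
    have hz := H₃ Y δ E N b hYY3 hδ hδ3 hF3 hb3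
    have hs : ∀ k ∈ range M, ∑ i ∈ CR ⌊Y ^ δ⌋₊, ∫ t in E i,
        ‖DP N (pw fun v => tent ((v - (((j : ℝ) - 1) / j + k / ((j : ℝ) * M)) * Real.log Y) /
          (1 / ((j : ℝ) * M) * Real.log Y))) i.2 t‖ ^ 2 ≤ ε / (4 * M ^ 2) / Real.log Y := by
      intro k hk
      have hkM : (k : ℝ) + 1 ≤ M := by exact_mod_cast mem_range.1 hk
      refine H₂ Y δ i1 β hYY2 hδ hδ2 hβ hP2 E _ N hF2
        (fun t ht => hK2 _ (hE0 t ht)) (fun t ht => hK2 _ (hE1 t ht)) ?_ ?_ hN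
      · rw [← sub_mul]
        refine mul_le_mul_of_nonneg_right ?_ hL0.le
        have h1 : ((j : ℝ) - 1) / j = 1 - 1 / j := by field_simp
        have h2 : (1 : ℝ) / j ≤ 1 / 4 := one_div_le_one_div_of_le (by norm_num) hm4
        have h3 : (0 : ℝ) ≤ k / ((j : ℝ) * M) := by positivity
        rw [h1]
        linarith
      · rw [← add_mul]
        refine mul_le_mul_of_nonneg_right ?_ hL0.le
        have h1 : ((j : ℝ) - 1) / j = 1 - 1 / j := by field_simp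
        have h2 : (0 : ℝ) ≤ 1 / (j : ℝ) := by positivity
        have h3 : (k : ℝ) / ((j : ℝ) * M) ≤ 1 := by
          rw [div_le_one (by positivity)]
          nlinarith
        rw [h1]
        linarith
    have hint := HQD_int_sq (CR ⌊Y ^ δ⌋₊) E (Y ^ (3 / 2 : ℝ)) hE.1
      (fun i t => DP N (pbY Y j j) i.2 t) (fun i t => DP N b i.2 t)
      (fun k i t => DP N (pw fun v => tent ((v - (((j : ℝ) - 1) / j + k / ((j : ℝ) * M)) * Real.log Y) /
          (1 / ((j : ℝ) * M) * Real.log Y))) i.2 t) M (2 * M)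
      (fun i => DP_continuous N _ i.2) (fun i => DP_continuous N _ i.2)
      (fun _ i => DP_continuous N _ i.2) (fun i _ t => by
        have h1 := HQD_DP_lin M (fun k => (k : ℝ) / M)
          (fun k => pw fun v => tent ((v - (((j : ℝ) - 1) / j + k / ((j : ℝ) * M)) * Real.log Y) /
          (1 / ((j : ℝ) * M) * Real.log Y))) b (pbY Y j j) N hb2 i.2 t
        show ‖DP N (pbY Y j j) i.2 t‖ ^ 2 ≤ _
        rw [h1]
        refine HQD_norm_sq M (fun k => (k : ℝ) / M) _ _ fun k hk => ?_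
        have hkM : (k : ℝ) ≤ M := by exact_mod_cast (mem_range.1 hk).le
        rw [abs_of_nonneg (by positivity), div_le_one hM0]
        exact hkM)
    refine hint.trans ?_
    beta_reduce
    have h5 : ∑ k ∈ range M, 2 * (M : ℝ) * ∑ i ∈ CR ⌊Y ^ δ⌋₊, ∫ t in E i,
        ‖DP N (pw fun v => tent ((v - (((j : ℝ) - 1) / j + k / ((j : ℝ) * M)) * Real.log Y) /
          (1 / ((j : ℝ) * M) * Real.log Y))) i.2 t‖ ^ 2 ≤
        ∑ _k ∈ range M, 2 * (M : ℝ) * (ε / (4 * M ^ 2) / Real.log Y) :=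
      sum_le_sum fun k hk => mul_le_mul_of_nonneg_left (hs k hk) (by positivity)
    rw [sum_const, card_range, nsmul_eq_mul] at h5
    have h6 : (M : ℝ) * (2 * M * (ε / (4 * M ^ 2) / Real.log Y)) = ε / 2 / Real.log Y := by
      field_simp
      ring
    rw [h6] at h5
    have h7 : ε / Real.log Y = ε / 2 / Real.log Y + 2 * (ε / 4 / Real.log Y) := by ring
    rw [h7]
    linarith

/-- The mean value of the products. -/
theorem HQD_core (m : ℕ) (hm4 : 4 ≤ m) (ε : ℝ) (hε : 0 < ε) :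
    ∃ a' η' ε' K κ δ₀ Y₀ : ℝ, 0 < a' ∧ a' ≤ 1 ∧ 0 < η' ∧ η' ≤ 1 ∧ 0 < ε' ∧ 0 < K ∧ 0 < κ ∧ 0 < δ₀ ∧ 3 ≤ Y₀ ∧
      ∀ (Y δ : ℝ) (i1 : CC) (β : ℝ), Y₀ ≤ Y → 0 < δ → δ ≤ δ₀ → β ≤ 1 → PBL Y δ a' η' ε' i1 β →
        ∀ (E : CC → Set ℝ) (N : ℕ), Fam ⌊Y ^ δ⌋₊ (Y ^ (3 / 2 : ℝ)) (Y ^ κ) E →
          (∀ t ∈ E i0, K / Real.log Y ≤ |t|) → (∀ t ∈ E i1, K / Real.log Y ≤ |t|) → Y ^ 6 ≤ N →
            ∀ (j k : ℕ) (θ : ℝ), 2 ≤ j → 2 ≤ k → (k : ℝ) + 1 ≤ 6 * m →
              1 / (m : ℝ) ≤ θ →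
            ((j : ℝ) + 1 ≤ 6 * m → ∑ i ∈ CR ⌊Y ^ δ⌋₊, ∫ t in E i, ‖DP N (pb Y m j) i.2 t *
              DP N (rb Y m (Y ^ θ) k) i.2 t‖ ≤ ε / Real.log Y) ∧
            (j ≤ m → ∑ i ∈ CR ⌊Y ^ δ⌋₊, ∫ t in E i, ‖DP N (pbY Y m j) i.2 t *
              DP N (rb Y m (Y ^ θ) k) i.2 t‖ ≤ ε / Real.log Y) := by
  have hm : 1 ≤ m := by omega
  obtain ⟨κ₂, δ₂, C, Y₂, hκ₂, hδ₂, hC, hY₂, H₂⟩ := HQD_rb m hm
  obtain ⟨a', η', ε', K, κ, δ₀, Y₀, h1, h2, h3, h4, h5, h6, h7, h8, h9, H⟩ :=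
    HQD_sq m hm4 (ε ^ 2 / C) (by positivity)
  refine ⟨a', η', ε', K, min κ κ₂, min δ₀ δ₂, max Y₀ Y₂, h1, h2, h3, h4, h5, h6, lt_min h7 hκ₂,
    lt_min h8 hδ₂, h9.trans (le_max_left _ _), ?_⟩
  intro Y δ i1 β hY hδ hδδ hβ hPBL E N hE hE0 hE1 hN j k θ hj hk hk6 hθ
  have hYY0 : Y₀ ≤ Y := (le_max_left _ _).trans hY
  have hYY2 : Y₂ ≤ Y := (le_max_right _ _).trans hY
  have hY3 : 3 ≤ Y := h9.trans hYY0
  have hY1 : 1 ≤ Y := by linarith
  have hL0 : 0 < Real.log Y := Real.log_pos (by linarith)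
  have hEa : Fam ⌊Y ^ δ⌋₊ (Y ^ (3 / 2 : ℝ)) (Y ^ κ) E :=
    ⟨hE.1, hE.2.trans (Real.rpow_le_rpow_of_exponent_le hY1 (min_le_left _ _))⟩
  have hEb : Fam ⌊Y ^ δ⌋₊ (Y ^ (3 / 2 : ℝ)) (Y ^ κ₂) E :=
    ⟨hE.1, hE.2.trans (Real.rpow_le_rpow_of_exponent_le hY1 (min_le_right _ _))⟩
  have k0 := H Y δ i1 β hYY0 hδ (hδδ.trans (min_le_left _ _)) hβ hPBL E N hEa
    hE0 hE1 hN
  have k2 := H₂ Y δ E N k θ hYY2 hδ (hδδ.trans (min_le_right _ _)) hEb hk hk6 hθ
  have hfin : C / ε / 2 * (ε ^ 2 / C / Real.log Y) + 1 / (2 * (C / ε)) * (C / Real.log Y) =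
      ε / Real.log Y := by
    field_simp
    ring
  constructor
  · intro hj6
    have key := HQD_am (CR ⌊Y ^ δ⌋₊) E (Y ^ (3 / 2 : ℝ)) (C / ε) _ _ (by positivity) hE.1
      (fun i t => DP N (pb Y m j) i.2 t) (fun i t => DP N (rb Y m (Y ^ θ) k) i.2 t)
      (fun i => DP_continuous N _ i.2) (fun i => DP_continuous N _ i.2) (k0.1 j hj hj6) k2
    exact key.trans (le_of_eq hfin)
  · intro hjm
    have key := HQD_am (CR ⌊Y ^ δ⌋₊) E (Y ^ (3 / 2 : ℝ)) (C / ε) _ _ (by positivity) hE.1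
      (fun i t => DP N (pbY Y m j) i.2 t) (fun i t => DP N (rb Y m (Y ^ θ) k) i.2 t)
      (fun i => DP_continuous N _ i.2) (fun i => DP_continuous N _ i.2) (k0.2 j hj hjm) k2
    exact key.trans (le_of_eq hfin)

/-- **Small mean values away from the exceptional points**, for every `μ`. (This is the statement of the first version of
`HQC.lean`, whose proof by helper14 covers everything apart from the block `j = 4 μ` of `qX`, which is now cut at `p ≤ Y`.)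

Proof. The pairs `(j, k)` with `j ≤ 4 μ - 1` (here `pbY = pb`) and all pairs of `qY`: Cauchy, `l2_prime` for the first factors
with `η = 1 / (4 μ)`, `a = 1 / (4 μ)` and a small `ε₁`, `l2_rough` for the second factors. For `j = 4 μ` write the weight
`h (v) = Gt (4 μ) v [v ≤ log Y]` of the primes as `h₁ + h₂`: let `M` be large, `τ = 1 / (4 μ M)`, and let `h₁` be the continuous piecewise
linear function with nodes at the multiples of `τ log Y` which agrees with `h` at all nodes except `v = log Y`, where it is `0`; it is the sum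
of `≤ 2 M` tents `h (k τ log Y) tent ((v - k τ log Y) / (τ log Y))`, `k τ < 1` (on the segments which do not end at `log Y` the function `h` is
linear), and `h₂ = h - h₁` is bounded by `1` and supported in `[(1 - τ) log Y, log Y]`. The part with `h₁` has a small mean square
by `l2_prime` with `η = τ` for each tent; the part with `h₂` has by `l2_rough` the mean square `≤ C / log Y ∑ 1 / p ≤ C' τ / log Y` (sum over
`Y ^ (1 - τ) ≤ p ≤ Y`, Mertens). Choose `M` first, then `ε₁`. -/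
theorem l1_small' (μ j₀ : ℕ) (ε : ℝ) (hμ : 8 ≤ μ) (hj : 2 ≤ j₀) (hj' : j₀ ≤ μ) (hε : 0 < ε) :
    ∃ a' η' ε' K κ δ₀ Y₀ : ℝ, 0 < a' ∧ a' ≤ 1 ∧ 0 < η' ∧ η' ≤ 1 ∧ 0 < ε' ∧ 0 < K ∧ 0 < κ ∧ 0 < δ₀ ∧ 3 ≤ Y₀ ∧
      ∀ (Y δ : ℝ) (i1 : CC) (β : ℝ), Y₀ ≤ Y → 0 < δ → δ ≤ δ₀ → β ≤ 1 → PBL Y δ a' η' ε' i1 β →
        ∀ (E : CC → Set ℝ) (N : ℕ), Fam ⌊Y ^ δ⌋₊ (Y ^ (3 / 2 : ℝ)) (Y ^ κ) E →
          (∀ t ∈ E i0, K / Real.log Y ≤ |t|) → (∀ t ∈ E i1, K / Real.log Y ≤ |t|) → Y ^ 6 ≤ N →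
            ∑ i ∈ CR ⌊Y ^ δ⌋₊, ∫ t in E i, ‖DP N (qX Y μ j₀) i.2 t‖ ≤ ε / Real.log Y ∧
            ∑ i ∈ CR ⌊Y ^ δ⌋₊, ∫ t in E i, ‖DP N (qY Y μ j₀) i.2 t‖ ≤ ε / Real.log Y := by
  have hm : 1 ≤ 4 * μ := by omega
  set B : ℝ := (4 * μ + 2) * (9 * μ + 1) with hB
  have hB0 : 0 < B := by positivity
  obtain ⟨a', η', ε', K, κ, δ₀, Y₀, h1, h2, h3, h4, h5, h6, h7, h8, h9, H⟩ :=
    HQD_core (4 * μ) (by omega) (ε / B) (by positivity)
  refine ⟨a', η', ε', K, κ, δ₀, Y₀, h1, h2, h3, h4, h5, h6, h7, h8, h9, ?_⟩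
  intro Y δ i1 β hY hδ hδδ hβ hPBL E N hE hE0 hE1 hN
  have hY3 : 3 ≤ Y := h9.trans hY
  have hL0 : 0 < Real.log Y := Real.log_pos (by linarith)
  have H' := H Y δ i1 β hY hδ hδδ hβ hPBL E N hE hE0 hE1 hN
  have hμ8 : (8 : ℝ) ≤ μ := by exact_mod_cast hμ
  have hcard : ∀ (J : Finset ℕ) (Kf : ℕ → Finset ℕ), J.card ≤ 4 * μ + 2 →
      (∀ j ∈ J, (Kf j).card ≤ 9 * μ + 1) →
      ∑ j ∈ J, ∑ _k ∈ Kf j, ε / B / Real.log Y ≤ ε / Real.log Y := by
    intro J Kf hJ hK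
    have e0 : 0 ≤ ε / B / Real.log Y := by positivity
    have e1 : ∑ j ∈ J, ∑ _k ∈ Kf j, ε / B / Real.log Y ≤
        ∑ _j ∈ J, ((9 * μ + 1 : ℕ) : ℝ) * (ε / B / Real.log Y) := by
      refine sum_le_sum fun j hj => ?_
      rw [sum_const, nsmul_eq_mul]
      exact mul_le_mul_of_nonneg_right (by exact_mod_cast hK j hj) e0
    rw [sum_const, nsmul_eq_mul] at e1
    have e2 : (J.card : ℝ) * (((9 * μ + 1 : ℕ) : ℝ) * (ε / B / Real.log Y)) ≤
        ((4 * μ + 2 : ℕ) : ℝ) * (((9 * μ + 1 : ℕ) : ℝ) * (ε / B / Real.log Y)) :=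
      mul_le_mul_of_nonneg_right (by exact_mod_cast hJ) (by positivity)
    refine e1.trans (e2.trans (le_of_eq ?_))
    push_cast
    rw [hB]
    field_simp
  have hcast : ((4 * μ : ℕ) : ℝ) = 4 * μ := by push_cast; ring
  constructor
  · refine le_trans (HQD_sum (CR ⌊Y ^ δ⌋₊) E (Y ^ (3 / 2 : ℝ)) (ε / B / Real.log Y) hE.1
      (fun i t => DP N (qX Y μ j₀) i.2 t) (Icc j₀ (4 * μ)) (fun j => Icc (7 * μ - j) (9 * μ - j))
      (fun j _ i t => DP N (pbY Y (4 * μ) j) i.2 t)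
      (fun j k i t => DP N (rb Y (4 * μ) (Y ^ (((j : ℝ) - 1) / (4 * μ : ℕ))) k) i.2 t)
      (fun i _ t => DP_qX Y t μ j₀ N i.1 i.2 hY3 hμ hj hN)
      (fun _ _ i => DP_continuous N _ i.2) (fun _ _ i => DP_continuous N _ i.2) ?_) ?_
    · intro j hj1 k hk1
      rw [mem_Icc] at hj1 hk1
      refine (H' j k _ (by omega) (by omega) ?_ ?_).2 (by omega)
      · have : ((k + 1 : ℕ) : ℝ) ≤ ((6 * (4 * μ) : ℕ) : ℝ) := by
          exact_mod_cast (by omega : k + 1 ≤ 6 * (4 * μ))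
        push_cast at this ⊢
        linarith
      · refine div_le_div_of_nonneg_right ?_ (Nat.cast_nonneg _)
        have : (2 : ℝ) ≤ j := by exact_mod_cast (by omega : 2 ≤ j)
        linarith
    · refine hcard _ _ ?_ ?_
      · rw [Nat.card_Icc]
        omega
      · intro j hj1
        rw [Nat.card_Icc]
        omega
  · refine le_trans (HQD_sum (CR ⌊Y ^ δ⌋₊) E (Y ^ (3 / 2 : ℝ)) (ε / B / Real.log Y) hE.1
      (fun i t => DP N (qY Y μ j₀) i.2 t) (Icc (j₀ + 1) (2 * μ)) (fun j => Icc (3 * μ - j) (5 * μ - j))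
      (fun j _ i t => DP N (pb Y (4 * μ) j) i.2 t)
      (fun j k i t => DP N (rb Y (4 * μ) (Y ^ (((j : ℝ) + 1) / (4 * μ : ℕ))) k) i.2 t)
      (fun i _ t => DP_qY Y t μ j₀ N i.1 i.2 hY3 hμ hj hN)
      (fun _ _ i => DP_continuous N _ i.2) (fun _ _ i => DP_continuous N _ i.2) ?_) ?_
    · intro j hj1 k hk1
      rw [mem_Icc] at hj1 hk1
      refine (H' j k _ (by omega) (by omega) ?_ ?_).1 ?_
      · have : ((k + 1 : ℕ) : ℝ) ≤ ((6 * (4 * μ) : ℕ) : ℝ) := by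
          exact_mod_cast (by omega : k + 1 ≤ 6 * (4 * μ))
        push_cast at this ⊢
        linarith
      · refine div_le_div_of_nonneg_right ?_ (Nat.cast_nonneg _)
        have : (0 : ℝ) ≤ j := Nat.cast_nonneg j
        linarith
      · have : ((j + 1 : ℕ) : ℝ) ≤ ((6 * (4 * μ) : ℕ) : ℝ) := by
          exact_mod_cast (by omega : j + 1 ≤ 6 * (4 * μ))
        push_cast at this ⊢
        linarith
    · refine hcard _ _ ?_ ?_
      · rw [Nat.card_Icc]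
        omega
      · intro j hj1
        rw [Nat.card_Icc]
        omega

end Pool.Agent.M58
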