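import Pool.Agent.W_b58c63_m1.STe

/-!
# The Fejér kernel (helper68)
-/

set_option autoImplicit false

noncomputable section

open Finset MeasureTheory Complex

namespace Pool.Agent.M58

/-- `(1 / 2 π) ∫ tent (t / w) exp (i t v) dt`. -/
def kk (w v : ℝ) : ℝ := if v = 0 then w / (2 * Real.pi) else 2 / (Real.pi * w) * (Real.sin (w * v / 2) / v) ^ 2

theorem MK_T (a : ℝ) : ∫ x : ℝ, (tent x : ℂ) * Complex.exp (-(a * x : ℝ) * Complex.I) =
    ((if a = 0 then 1 else 2 * (1 - Real.cos a) / a ^ 2 : ℝ) : ℂ) := by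
  have hcont : Continuous (fun x : ℝ => (tent x : ℂ) * Complex.exp (-(a * x : ℝ) * Complex.I)) := by
    have := STe_cont
    fun_prop
  have hsupp : Function.support (fun x : ℝ => (tent x : ℂ) *
      Complex.exp (-(a * x : ℝ) * Complex.I)) ⊆ Set.Ioc (-1) 1 := by
    intro x hx
    by_contra h
    apply hx
    have h1 : 1 ≤ |x| := by
      rw [Set.mem_Ioc, not_and_or, not_lt, not_le] at h
      rcases h with h | h
      · rw [le_abs]
        right
        linarith
      · rw [le_abs]
        left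
        linarith
    show (tent x : ℂ) * Complex.exp (-(a * x : ℝ) * Complex.I) = 0
    rw [STe_supp x h1, Complex.ofReal_zero, zero_mul]
  rw [← intervalIntegral.integral_eq_integral_of_support_subset hsupp,
    ← intervalIntegral.integral_add_adjacent_intervals (b := 0) (hcont.intervalIntegrable _ _)
      (hcont.intervalIntegrable _ _)]
  have e1 : ∫ x in (-1 : ℝ)..0, (tent x : ℂ) * Complex.exp (-(a * x : ℝ) * Complex.I) =
      ∫ x in (-1 : ℝ)..0, (1 + x : ℂ) * Complex.exp (-(a * x : ℝ) * Complex.I) := by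
    refine intervalIntegral.integral_congr fun x hx => ?_
    rw [Set.uIcc_of_le (by norm_num)] at hx
    have : tent x = 1 + x := by
      unfold tent
      rw [abs_of_nonpos hx.2, max_eq_right (by linarith [hx.1])]
      ring
    show (tent x : ℂ) * _ = _
    rw [this]
    push_cast
    rfl
  have e2 : ∫ x in (0 : ℝ)..1, (tent x : ℂ) * Complex.exp (-(a * x : ℝ) * Complex.I) =
      ∫ x in (0 : ℝ)..1, (1 - x : ℂ) * Complex.exp (-(a * x : ℝ) * Complex.I) := by
    refine intervalIntegral.integral_congr fun x hx => ?_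
    rw [Set.uIcc_of_le (by norm_num)] at hx
    have : tent x = 1 - x := by
      unfold tent
      rw [abs_of_nonneg hx.1, max_eq_right (by linarith [hx.2])]
    show (tent x : ℂ) * _ = _
    rw [this]
    push_cast
    rfl
  rw [e1, e2]
  rcases eq_or_ne a 0 with rfl | ha
  · rw [if_pos rfl]
    have e3 : ∀ x : ℝ, Complex.exp (-(0 * x : ℝ) * Complex.I) = 1 := by
      intro x
      simp
    simp only [e3, mul_one]
    have d1 : ∀ x : ℝ, HasDerivAt (fun x : ℝ => (x : ℂ) + (x : ℂ) ^ 2 / 2) (1 + x : ℂ) x := by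
      intro x
      have h1 : HasDerivAt (fun x : ℝ => (x : ℂ)) 1 x := Complex.ofRealCLM.hasDerivAt
      have h2 := h1.add ((h1.pow 2).div_const 2)
      refine h2.congr_deriv ?_
      push_cast
      ring
    have d2 : ∀ x : ℝ, HasDerivAt (fun x : ℝ => (x : ℂ) - (x : ℂ) ^ 2 / 2) (1 - x : ℂ) x := by
      intro x
      have h1 : HasDerivAt (fun x : ℝ => (x : ℂ)) 1 x := Complex.ofRealCLM.hasDerivAt
      have h2 := h1.sub ((h1.pow 2).div_const 2)
      refine h2.congr_deriv ?_
      push_cast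
      ring
    rw [intervalIntegral.integral_eq_sub_of_hasDerivAt (fun x _ => d1 x)
      ((by fun_prop : Continuous (fun x : ℝ => (1 + x : ℂ))).intervalIntegrable _ _),
      intervalIntegral.integral_eq_sub_of_hasDerivAt (fun x _ => d2 x)
      ((by fun_prop : Continuous (fun x : ℝ => (1 - x : ℂ))).intervalIntegrable _ _)]
    push_cast
    norm_num
  · have ha2 : 0 < a ^ 2 := by positivity
    rw [if_neg ha]
    · obtain ⟨b, hb⟩ : ∃ b : ℂ, b = -(a : ℂ) * Complex.I := ⟨_, rfl⟩
      have hb0 : b ≠ 0 := by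
        rw [hb]
        exact mul_ne_zero (neg_ne_zero.2 (Complex.ofReal_ne_zero.2 ha)) Complex.I_ne_zero
      have e3 : ∀ x : ℝ, -((a * x : ℝ) : ℂ) * Complex.I = b * x := by
        intro x
        rw [hb]
        push_cast
        ring
      simp only [e3]
      have d0 : ∀ x : ℝ, HasDerivAt (fun x : ℝ => Complex.exp (b * x)) (Complex.exp (b * x) * b) x := by
        intro x
        have h1 : HasDerivAt (fun x : ℝ => (x : ℂ)) 1 x := Complex.ofRealCLM.hasDerivAt
        have h2 : HasDerivAt (fun x : ℝ => b * (x : ℂ)) b x := by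
          simpa using h1.const_mul b
        exact h2.cexp
      have d1 : ∀ x : ℝ, HasDerivAt (fun x : ℝ => (1 + (x : ℂ)) * Complex.exp (b * x) / b -
          Complex.exp (b * x) / b ^ 2) ((1 + x : ℂ) * Complex.exp (b * x)) x := by
        intro x
        have h1 : HasDerivAt (fun x : ℝ => (1 + (x : ℂ))) 1 x :=
          Complex.ofRealCLM.hasDerivAt.const_add 1
        have h2 := ((h1.mul (d0 x)).div_const b).sub ((d0 x).div_const (b ^ 2))
        refine h2.congr_deriv ?_
        field_simp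
        ring
      have d2 : ∀ x : ℝ, HasDerivAt (fun x : ℝ => (1 - (x : ℂ)) * Complex.exp (b * x) / b +
          Complex.exp (b * x) / b ^ 2) ((1 - x : ℂ) * Complex.exp (b * x)) x := by
        intro x
        have h1 : HasDerivAt (fun x : ℝ => (1 - (x : ℂ))) (-1) x :=
          Complex.ofRealCLM.hasDerivAt.const_sub 1
        have h2 := ((h1.mul (d0 x)).div_const b).add ((d0 x).div_const (b ^ 2))
        refine h2.congr_deriv ?_
        field_simp
        ring
      rw [intervalIntegral.integral_eq_sub_of_hasDerivAt (fun x _ => d1 x)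
        ((by fun_prop : Continuous (fun x : ℝ => (1 + x : ℂ) * Complex.exp (b * x))).intervalIntegrable
          _ _), intervalIntegral.integral_eq_sub_of_hasDerivAt (fun x _ => d2 x)
        ((by fun_prop : Continuous (fun x : ℝ => (1 - x : ℂ) * Complex.exp (b * x))).intervalIntegrable
          _ _)]
      have e4 : Complex.exp b + Complex.exp (-b) = 2 * Complex.cos a := by
        rw [Complex.two_cos, hb, neg_mul, neg_neg, add_comm]
      have e5 : b ^ 2 = -(a : ℂ) ^ 2 := by
        rw [hb, mul_pow, Complex.I_sq]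
        ring
      have e6 : (a : ℂ) ^ 2 ≠ 0 := pow_ne_zero 2 (Complex.ofReal_ne_zero.2 ha)
      push_cast
      have e7 : (1 + (0 : ℂ)) * Complex.exp (b * 0) / b - Complex.exp (b * 0) / b ^ 2 -
          ((1 + -1) * Complex.exp (b * -1) / b - Complex.exp (b * -1) / b ^ 2) +
          ((1 - 1) * Complex.exp (b * 1) / b + Complex.exp (b * 1) / b ^ 2 -
          ((1 - 0) * Complex.exp (b * 0) / b + Complex.exp (b * 0) / b ^ 2)) =
          (Complex.exp b + Complex.exp (-b) - 2) / b ^ 2 := by
        rw [mul_zero, Complex.exp_zero, mul_one, mul_neg_one]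
        ring
      rw [e7, e4, e5, div_neg, ← neg_div]
      ring


theorem kk_four (w v : ℝ) (hw : 0 < w) : (kk w v : ℂ) =
    (1 / (2 * Real.pi) : ℂ) * ∫ t : ℝ, (tent (t / w) : ℂ) * Complex.exp ((t * v : ℝ) * I) := by
  have h1 : ∀ t : ℝ, (tent (t / w) : ℂ) * Complex.exp ((t * v : ℝ) * I) =
      (fun x : ℝ => (tent x : ℂ) * Complex.exp (-((-(w * v)) * x : ℝ) * Complex.I)) (t / w) := by
    intro t
    show _ = (tent (t / w) : ℂ) * Complex.exp (-((-(w * v)) * (t / w) : ℝ) * Complex.I)
    congr 2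
    rw [← Complex.ofReal_neg]
    congr 2
    field_simp
  have h1' := Measure.integral_comp_div
    (fun x : ℝ => (tent x : ℂ) * Complex.exp (-((-(w * v)) * x : ℝ) * Complex.I)) w
  rw [integral_congr_ae (Filter.Eventually.of_forall h1), h1', MK_T, abs_of_pos hw,
    Complex.real_smul]
  have hpi := Real.pi_pos
  unfold kk
  by_cases hv : v = 0
  · rw [if_pos hv, if_pos (by rw [hv]; ring)]
    push_cast
    ring
  · rw [if_neg hv, if_neg (by
      intro h
      rw [neg_eq_zero, mul_eq_zero] at h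
      rcases h with h | h
      · exact hw.ne' h
      · exact hv h)]
    have h2 : Real.cos (-(w * v)) = 1 - 2 * Real.sin (w * v / 2) ^ 2 := by
      rw [Real.cos_neg, show w * v = 2 * (w * v / 2) by ring, Real.cos_two_mul]
      have := Real.sin_sq_add_cos_sq (w * v / 2)
      rw [show 2 * (w * v / 2) / 2 = w * v / 2 by ring]
      linarith
    rw [h2]
    have h3 : (1 / (2 * Real.pi) : ℂ) = ((1 / (2 * Real.pi) : ℝ) : ℂ) := by
      push_cast
      rfl
    rw [h3, ← Complex.ofReal_mul, ← Complex.ofReal_mul]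
    congr 1
    field_simp
    ring

theorem MK_nn (w v : ℝ) (hw : 0 < w) : 0 ≤ kk w v := by
  have hpi := Real.pi_pos
  unfold kk
  split_ifs
  · positivity
  · positivity

theorem MK_sq (w v : ℝ) (hw : 0 < w) : kk w v * v ^ 2 ≤ 1 / w := by
  have hpi := Real.pi_gt_three
  have hpi0 := Real.pi_pos
  unfold kk
  split_ifs with h
  · rw [h]
    have : 0 ≤ 1 / w := by positivity
    simpa using this
  · have h1 : 2 / (Real.pi * w) * (Real.sin (w * v / 2) / v) ^ 2 * v ^ 2 =
        2 / (Real.pi * w) * Real.sin (w * v / 2) ^ 2 := by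
      field_simp
    rw [h1]
    have h2 : Real.sin (w * v / 2) ^ 2 ≤ 1 := Real.sin_sq_le_one _
    have h3 : 0 ≤ 2 / (Real.pi * w) := by positivity
    have h4 : 2 / (Real.pi * w) ≤ 1 / w := by
      rw [div_le_div_iff₀ (by positivity) hw]
      nlinarith
    calc 2 / (Real.pi * w) * Real.sin (w * v / 2) ^ 2 ≤ 2 / (Real.pi * w) * 1 := by gcongr
      _ = 2 / (Real.pi * w) := mul_one _
      _ ≤ 1 / w := h4

theorem kk_bounds (w v : ℝ) (hw : 0 < w) : 0 ≤ kk w v ∧ kk w v ≤ w ∧ kk w v * v ^ 2 ≤ 1 / w := by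
  refine ⟨MK_nn w v hw, ?_, MK_sq w v hw⟩
  have hpi := Real.pi_gt_three
  have hpi0 := Real.pi_pos
  unfold kk
  split_ifs with h
  · rw [div_le_iff₀ (by positivity)]
    nlinarith
  · have h1 : (Real.sin (w * v / 2) / v) ^ 2 ≤ (w / 2) ^ 2 := by
      rw [div_pow, div_le_iff₀ (by positivity), ← mul_pow]
      have h2 : |Real.sin (w * v / 2)| ≤ |w * v / 2| := Real.abs_sin_le_abs
      have h3 := sq_le_sq.2 h2
      calc Real.sin (w * v / 2) ^ 2 ≤ (w * v / 2) ^ 2 := h3
        _ = (w / 2 * v) ^ 2 := by ring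
    have h3 : 0 ≤ 2 / (Real.pi * w) := by positivity
    calc 2 / (Real.pi * w) * (Real.sin (w * v / 2) / v) ^ 2 ≤
        2 / (Real.pi * w) * (w / 2) ^ 2 := by gcongr
      _ = w / (2 * Real.pi) := by field_simp
      _ ≤ w := by
        rw [div_le_iff₀ (by positivity)]
        nlinarith

theorem MK_cont (w : ℝ) : Continuous (fun t : ℝ => tent (t / w)) := by
  have := STe_cont
  fun_prop

theorem MK_tint (w : ℝ) (hw : 0 < w) : Integrable (fun t : ℝ => tent (t / w)) ∧
    ∫ t : ℝ, tent (t / w) = w := by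
  have h0 := (STe_hasInt w 0 hw).2
  have h1 : Integrable (fun t : ℝ => tent (t / w)) := by
    have h2 := h0.re
    simpa using h2
  refine ⟨h1, ?_⟩
  have h3 := MK_T 0
  rw [if_pos rfl] at h3
  simp only [zero_mul, Complex.ofReal_zero, neg_zero, Complex.exp_zero, mul_one] at h3
  rw [integral_complex_ofReal] at h3
  have h4 : ∫ x : ℝ, tent x = 1 := by exact_mod_cast h3
  rw [Measure.integral_comp_div (fun t => tent t), h4, abs_of_pos hw]
  simp

/-- (From `kk_four`: `|e ^ (i t v) - e ^ (i t v')| ≤ |t| |v - v'|`, `∫ |t| tent (t / w) dt = w ^ 2 / 3`.) -/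
theorem kk_lip (w v v' : ℝ) (hw : 0 < w) : |kk w v - kk w v'| ≤ w ^ 2 * |v - v'| := by
  obtain ⟨ht1, ht2⟩ := MK_tint w hw
  have hI : ∀ v : ℝ, Integrable (fun t : ℝ => (tent (t / w) : ℂ) * Complex.exp ((t * v : ℝ) * I)) := by
    intro v
    have hc : Continuous (fun t : ℝ => (tent (t / w) : ℂ) * Complex.exp ((t * v : ℝ) * I)) := by
      have := MK_cont w
      fun_prop
    refine ht1.norm.mono' hc.aestronglyMeasurable (Filter.Eventually.of_forall fun t => ?_)
    rw [norm_mul, Complex.norm_real, Complex.norm_exp_ofReal_mul_I, mul_one]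
  have h1 : ((kk w v - kk w v' : ℝ) : ℂ) = (1 / (2 * Real.pi) : ℂ) *
      ∫ t : ℝ, (tent (t / w) : ℂ) * (Complex.exp ((t * v : ℝ) * I) -
        Complex.exp ((t * v' : ℝ) * I)) := by
    rw [Complex.ofReal_sub, kk_four w v hw, kk_four w v' hw, ← mul_sub,
      ← integral_sub (hI v) (hI v')]
    congr 2
    funext t
    ring
  have h2 : ‖∫ t : ℝ, (tent (t / w) : ℂ) * (Complex.exp ((t * v : ℝ) * I) -
        Complex.exp ((t * v' : ℝ) * I))‖ ≤ ∫ t : ℝ, tent (t / w) * (w * |v - v'|) := by
    refine norm_integral_le_of_norm_le (ht1.mul_const _) (Filter.Eventually.of_forall fun t => ?_)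
    have htn : 0 ≤ tent (t / w) := le_max_left _ _
    rw [norm_mul, Complex.norm_real, Real.norm_of_nonneg htn]
    by_cases ht : 1 ≤ |t / w|
    · rw [STe_supp _ ht]
      simp
    · push Not at ht
      rw [abs_div, abs_of_pos hw, div_lt_one hw] at ht
      refine mul_le_mul_of_nonneg_left ?_ htn
      have h3 : Complex.exp ((t * v : ℝ) * I) - Complex.exp ((t * v' : ℝ) * I) =
          Complex.exp ((t * v' : ℝ) * I) * (Complex.exp (I * (t * (v - v') : ℝ)) - 1) := by
        rw [mul_sub, mul_one, ← Complex.exp_add]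
        congr 2
        push_cast
        ring
      rw [h3, norm_mul, Complex.norm_exp_ofReal_mul_I, one_mul]
      refine (Real.norm_exp_I_mul_ofReal_sub_one_le).trans ?_
      rw [Real.norm_eq_abs, abs_mul]
      gcongr
  have h3 : ‖((kk w v - kk w v' : ℝ) : ℂ)‖ = |kk w v - kk w v'| := by
    rw [Complex.norm_real, Real.norm_eq_abs]
  have hpi := Real.pi_gt_three
  rw [← h3, h1, norm_mul]
  have h4 : ‖(1 / (2 * Real.pi) : ℂ)‖ = 1 / (2 * Real.pi) := by
    have : (1 / (2 * Real.pi) : ℂ) = ((1 / (2 * Real.pi) : ℝ) : ℂ) := by push_cast; rfl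
    rw [this, Complex.norm_real, Real.norm_of_nonneg (by positivity)]
  rw [h4]
  rw [integral_mul_const, ht2] at h2
  have h5 : 1 / (2 * Real.pi) ≤ 1 := by
    rw [div_le_one (by positivity)]
    linarith
  calc 1 / (2 * Real.pi) * _ ≤ 1 * (w * (w * |v - v'|)) := by gcongr
    _ = w ^ 2 * |v - v'| := by ring

theorem MK_kcont (w : ℝ) (hw : 0 < w) : Continuous (kk w) := by
  have h : LipschitzWith (Real.toNNReal (w ^ 2)) (kk w) := by
    refine LipschitzWith.of_dist_le_mul fun x y => ?_
    rw [Real.dist_eq, Real.dist_eq, Real.coe_toNNReal _ (sq_nonneg w)]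
    exact kk_lip w x y hw
  exact h.continuous

theorem MK_kint (w : ℝ) (hw : 0 < w) : Integrable (kk w) := by
  have hb : Integrable (fun u : ℝ => (w + 1 / w) * (1 + u ^ 2)⁻¹) :=
    integrable_inv_one_add_sq.const_mul _
  refine hb.mono' (MK_kcont w hw).aestronglyMeasurable (Filter.Eventually.of_forall fun u => ?_)
  obtain ⟨h1, h2, h3⟩ := kk_bounds w u hw
  rw [Real.norm_of_nonneg h1, ← div_eq_mul_inv, le_div_iff₀ (by positivity)]
  linarith

theorem MK_even (w v : ℝ) : kk w (-v) = kk w v := by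
  unfold kk
  by_cases h : v = 0
  · rw [if_pos h, if_pos (by rw [h, neg_zero])]
  · rw [if_neg h, if_neg (by rwa [neg_eq_zero]), show w * -v / 2 = -(w * v / 2) by ring,
      Real.sin_neg, neg_div_neg_eq]

theorem MK_tot (w : ℝ) (hw : 0 < w) : ∫ v : ℝ, kk w v = 1 := by
  have h1 := tent_inv w 0 0 hw
  have h2 : ∀ u : ℝ, osc (fun y => tent ((y - 0) / w)) u * Complex.exp ((u * 0 : ℝ) * Complex.I) =
      ((2 * Real.pi * kk w u : ℝ) : ℂ) := by
    intro u
    rw [← MK_even w u, Complex.ofReal_mul (2 * Real.pi) (kk w (-u)), kk_four w (-u) hw]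
    unfold osc
    simp only [sub_zero, mul_zero, Complex.ofReal_zero, zero_mul, Complex.exp_zero, mul_one]
    have h3 : ∀ t : ℝ, Complex.exp ((t * -u : ℝ) * I) = Complex.exp (-(u * t : ℝ) * I) := by
      intro t
      congr 2
      push_cast
      ring
    simp only [h3]
    have hpi : (Real.pi : ℂ) ≠ 0 := Complex.ofReal_ne_zero.2 Real.pi_ne_zero
    rw [Complex.ofReal_mul, Complex.ofReal_ofNat, ← mul_assoc, mul_one_div_cancel (by
      exact mul_ne_zero two_ne_zero hpi), one_mul]
  simp only [h2] at h1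
  rw [integral_complex_ofReal, sub_self, zero_div] at h1
  have h3 : tent 0 = 1 := by
    unfold tent
    rw [abs_zero]
    norm_num
  rw [h3] at h1
  have h4 : (1 : ℝ) = 1 / (2 * Real.pi) * ∫ u : ℝ, 2 * Real.pi * kk w u := by
    exact_mod_cast h1
  rw [integral_const_mul] at h4
  have hpi : (0 : ℝ) < 2 * Real.pi := by positivity
  field_simp at h4
  linarith

/-- The total mass is `1` (Fourier inversion at `0`, `kk w` is the Fourier transform of a tent), and
`kk w v ≤ 2 / (π w v ^ 2)`. -/
theorem kk_int (w V : ℝ) (hw : 0 < w) (hV : 0 < V) : Integrable (kk w) ∧ (∫ v : ℝ, kk w v = 1) ∧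
    1 - 2 / (w * V) ≤ ∫ v in (-V)..V, kk w v ∧ ∫ v in (-V)..V, kk w v ≤ 1 := by
  have hint := MK_kint w hw
  have htot := MK_tot w hw
  refine ⟨hint, htot, ?_⟩
  have h1 := intervalIntegral.integral_Iic_sub_Iic (a := -V) (b := V) hint.integrableOn
    hint.integrableOn
  have h2 := intervalIntegral.integral_Iic_add_Ioi (b := V) hint.integrableOn hint.integrableOn
  have h3 : ∫ v in Set.Iic (-V), kk w v = ∫ v in Set.Ioi V, kk w v := by
    rw [← integral_comp_neg_Ioi]
    simp only [MK_even]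
  have h4 : 0 ≤ ∫ v in Set.Ioi V, kk w v :=
    setIntegral_nonneg measurableSet_Ioi (fun v _ => MK_nn w v hw)
  have h5 : ∫ v in Set.Ioi V, kk w v ≤ 1 / (w * V) := by
    have h6 : ∫ v in Set.Ioi V, (1 / w) * v ^ (-2 : ℝ) = 1 / (w * V) := by
      rw [integral_const_mul, integral_Ioi_rpow_of_lt (by norm_num) hV]
      rw [show (-2 : ℝ) + 1 = -1 by norm_num, Real.rpow_neg_one]
      field_simp
    rw [← h6]
    refine setIntegral_mono_on hint.integrableOn
      ((integrableOn_Ioi_rpow_of_lt (by norm_num) hV).const_mul _) measurableSet_Ioi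
      (fun v hv => ?_)
    have hv0 : 0 < v := hV.trans hv
    have h7 := MK_sq w v hw
    rw [Real.rpow_neg hv0.le, ← div_eq_mul_inv, le_div_iff₀ (by positivity)]
    have h8 : v ^ (2 : ℝ) = v ^ 2 := by
      rw [← Real.rpow_natCast]
      norm_num
    rw [h8]
    exact h7
  have h6 : 2 / (w * V) = 2 * (1 / (w * V)) := by ring
  constructor
  · rw [h6]
    linarith
  · linarith

end Pool.Agent.M58
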