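import Pool.Agent.W_b58c63_m1.BDef
import Pool.Agent.W_b58c63_m1.HQB
import Pool.Agent.W_b58c63_m1.HQD
import Pool.Agent.W_b58c63_m1.MK

/-!
# Low and high parts (helper68)
-/

set_option autoImplicit false

noncomputable section

open Finset MeasureTheory Complex

namespace Pool.Agent.M58

open Classical in
/-- The low part (only for the trivial and for the exceptional character). -/
def QLo (Y : ℝ) (μ j₀ : ℕ) (w : ℝ) (i1 i : CC) (t : ℝ) : ℂ :=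
  if i = i0 ∨ i = i1 then (tent (t / w) : ℂ) * QX Y μ j₀ i t else 0

def FLo (Y : ℝ) (μ j₀ : ℕ) (w : ℝ) (i1 i : CC) (t : ℝ) : ℂ :=
  (1 / (2 * Real.pi) : ℂ) * ∫ v : ℝ, osc (locf Y) v * QLo Y μ j₀ w i1 i (t - v)

def FHi (Y : ℝ) (μ j₀ : ℕ) (w : ℝ) (i1 i : CC) (t : ℝ) : ℂ := FF Y μ j₀ i t - FLo Y μ j₀ w i1 i t

theorem BHi_osc (Y : ℝ) : Integrable (osc (locf Y)) ∧ (∫ v : ℝ, ‖osc (locf Y) v‖) ≤ 2 * Real.pi ∧
    ∀ v, ‖osc (locf Y) v‖ * v ^ 2 ≤ 2 := by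
  have h0 : locf Y = fun v => tent ((v - 2 * Real.log Y) / 2) := rfl
  rw [h0]
  refine ⟨STe_int 2 _ (by norm_num), (osc_tent_int 2 _ (by norm_num)).2, fun v => ?_⟩
  have := (osc_tent 2 (2 * Real.log Y) v (by norm_num)).2
  linarith

theorem BHi_QX_cont (Y : ℝ) (μ j₀ : ℕ) (i : CC) : Continuous (QX Y μ j₀ i) :=
  DP_continuous _ _ _

theorem BHi_QX_bd (Y : ℝ) (μ j₀ : ℕ) (i : CC) : ∃ B : ℝ, ∀ t, ‖QX Y μ j₀ i t‖ ≤ B :=
  ⟨_, fun t => DP_le _ _ _ t⟩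

theorem BHi_QLo_cont (Y : ℝ) (μ j₀ : ℕ) (w : ℝ) (i1 i : CC) : Continuous (QLo Y μ j₀ w i1 i) := by
  classical
  by_cases h : i = i0 ∨ i = i1
  · have h1 : QLo Y μ j₀ w i1 i = fun t => (tent (t / w) : ℂ) * QX Y μ j₀ i t := by
      funext t
      unfold QLo
      rw [if_pos h]
    rw [h1]
    exact (Complex.continuous_ofReal.comp (MK_cont w)).mul (BHi_QX_cont Y μ j₀ i)
  · have h1 : QLo Y μ j₀ w i1 i = fun _ => 0 := by
      funext t
      unfold QLo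
      rw [if_neg h]
    rw [h1]
    exact continuous_const

theorem BHi_tent (x : ℝ) : 0 ≤ tent x ∧ tent x ≤ 1 ∧ 1 - tent x ≤ |x| := by
  unfold tent
  refine ⟨le_max_left _ _, max_le zero_le_one (by linarith [abs_nonneg x]), ?_⟩
  have := le_max_right 0 (1 - |x|)
  linarith

theorem BHi_QLo_le (Y : ℝ) (μ j₀ : ℕ) (w : ℝ) (i1 i : CC) (t : ℝ) :
    ‖QLo Y μ j₀ w i1 i t‖ ≤ ‖QX Y μ j₀ i t‖ := by
  classical
  obtain ⟨h1, h2, _⟩ := BHi_tent (t / w)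
  unfold QLo
  split_ifs
  · rw [norm_mul, Complex.norm_real, Real.norm_of_nonneg h1]
    exact mul_le_of_le_one_left (norm_nonneg _) h2
  · rw [norm_zero]
    exact norm_nonneg _

/-- The difference. -/
def BHi_D (Y : ℝ) (μ j₀ : ℕ) (w : ℝ) (i1 i : CC) (t : ℝ) : ℂ :=
  QX Y μ j₀ i t - QLo Y μ j₀ w i1 i t

theorem BHi_D_cont (Y : ℝ) (μ j₀ : ℕ) (w : ℝ) (i1 i : CC) : Continuous (BHi_D Y μ j₀ w i1 i) :=
  (BHi_QX_cont Y μ j₀ i).sub (BHi_QLo_cont Y μ j₀ w i1 i)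

theorem BHi_D_le (Y : ℝ) (μ j₀ : ℕ) (w : ℝ) (i1 i : CC) (t : ℝ) :
    ‖BHi_D Y μ j₀ w i1 i t‖ ≤ ‖QX Y μ j₀ i t‖ := by
  classical
  obtain ⟨h1, h2, _⟩ := BHi_tent (t / w)
  unfold BHi_D QLo
  split_ifs
  · have h3 : QX Y μ j₀ i t - (tent (t / w) : ℂ) * QX Y μ j₀ i t =
        ((1 - tent (t / w) : ℝ) : ℂ) * QX Y μ j₀ i t := by
      push_cast
      ring
    rw [h3, norm_mul, Complex.norm_real, Real.norm_of_nonneg (by linarith)]
    exact mul_le_of_le_one_left (norm_nonneg _) (by linarith)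
  · rw [sub_zero]

theorem BHi_D_small (Y : ℝ) (μ j₀ : ℕ) (w : ℝ) (i1 i : CC) (t : ℝ) (hw : 0 < w)
    (hi : i = i0 ∨ i = i1) :
    ‖BHi_D Y μ j₀ w i1 i t‖ ≤ |t| / w * ‖QX Y μ j₀ i t‖ := by
  classical
  obtain ⟨h1, h2, h4⟩ := BHi_tent (t / w)
  unfold BHi_D QLo
  rw [if_pos hi]
  have h3 : QX Y μ j₀ i t - (tent (t / w) : ℂ) * QX Y μ j₀ i t =
      ((1 - tent (t / w) : ℝ) : ℂ) * QX Y μ j₀ i t := by
    push_cast
    ring
  rw [h3, norm_mul, Complex.norm_real, Real.norm_of_nonneg (by linarith)]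
  refine mul_le_mul_of_nonneg_right ?_ (norm_nonneg _)
  rw [abs_div, abs_of_pos hw] at h4
  exact h4

theorem BHi_conv_int {k q : ℝ → ℂ} (hk : Integrable k) (hq : Continuous q) {B : ℝ}
    (hB : ∀ s, ‖q s‖ ≤ B) (t : ℝ) : Integrable (fun v => k v * q (t - v)) := by
  refine Integrable.mono' (hk.norm.mul_const B) ?_ (Filter.Eventually.of_forall fun v => ?_)
  · exact hk.aestronglyMeasurable.mul
      (hq.comp (continuous_const.sub continuous_id)).aestronglyMeasurable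
  · rw [norm_mul]
    exact mul_le_mul_of_nonneg_left (hB _) (norm_nonneg _)

theorem BHi_conv_cont {k q : ℝ → ℂ} (hk : Integrable k) (hq : Continuous q) {B : ℝ}
    (hB : ∀ s, ‖q s‖ ≤ B) : Continuous (fun t => ∫ v : ℝ, k v * q (t - v)) := by
  refine continuous_of_dominated (bound := fun v => ‖k v‖ * B) (fun t => ?_) (fun t => ?_)
    (hk.norm.mul_const B) (Filter.Eventually.of_forall fun v => ?_)
  · exact (BHi_conv_int hk hq hB t).aestronglyMeasurable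
  · refine Filter.Eventually.of_forall fun v => ?_
    rw [norm_mul]
    exact mul_le_mul_of_nonneg_left (hB _) (norm_nonneg _)
  · exact continuous_const.mul (hq.comp (continuous_id.sub continuous_const))

theorem BHi_FHi_eq (Y : ℝ) (μ j₀ : ℕ) (w : ℝ) (i1 i : CC) (t : ℝ) :
    FHi Y μ j₀ w i1 i t =
      (1 / (2 * Real.pi) : ℂ) * ∫ v : ℝ, osc (locf Y) v * BHi_D Y μ j₀ w i1 i (t - v) := by
  obtain ⟨B, hB⟩ := BHi_QX_bd Y μ j₀ i
  have h1 := BHi_conv_int (BHi_osc Y).1 (BHi_QX_cont Y μ j₀ i) hB t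
  have h2 := BHi_conv_int (BHi_osc Y).1 (BHi_QLo_cont Y μ j₀ w i1 i)
    (fun s => (BHi_QLo_le Y μ j₀ w i1 i s).trans (hB s)) t
  unfold FHi FLo BHi_D
  rw [FF_eq, ← mul_sub, ← integral_sub h1 h2]
  congr 1
  refine integral_congr_ae (Filter.Eventually.of_forall fun v => ?_)
  beta_reduce
  ring

theorem BHi_shift (E : Set ℝ) (f : ℝ → ℝ) (v : ℝ) :
    ∫ t in E, f (t - v) = ∫ s in (fun s => s + v) ⁻¹' E, f s := by
  have h := (measurePreserving_add_right (volume : Measure ℝ) v).setIntegral_preimage_emb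
    (MeasurableEquiv.addRight v).measurableEmbedding (fun t => f (t - v)) E
  rw [← h]
  refine integral_congr_ae (Filter.Eventually.of_forall fun s => ?_)
  beta_reduce
  rw [add_sub_cancel_right]

theorem BHi_fub {ι : Type} (S : Finset ι) (E : ι → Set ℝ) (D : ι → ℝ → ℂ) (k : ℝ → ℂ) (B : ℝ)
    (hE : ∀ i ∈ S, MeasurableSet (E i) ∧ volume (E i) ≠ ⊤)
    (hD : ∀ i, Continuous (D i)) (hB : ∀ i s, ‖D i s‖ ≤ B) (hk : Integrable k) :
    ∑ i ∈ S, ∫ t in E i, ‖∫ v : ℝ, k v * D i (t - v)‖ ≤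
      ∫ v : ℝ, ‖k v‖ * ∑ i ∈ S, ∫ s in (fun s => s + v) ⁻¹' E i, ‖D i s‖ := by
  have hP : ∀ i ∈ S, Integrable (Function.uncurry fun t v : ℝ => ‖k v‖ * ‖D i (t - v)‖)
      ((volume.restrict (E i)).prod volume) := by
    intro i hi
    have : IsFiniteMeasure (volume.restrict (E i)) :=
      ⟨by rw [Measure.restrict_apply_univ]; exact lt_top_iff_ne_top.2 (hE i hi).2⟩
    have h1 : Integrable (fun z : ℝ × ℝ => ‖k z.2‖ * B) ((volume.restrict (E i)).prod volume) :=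
      (hk.norm.comp_snd (volume.restrict (E i))).mul_const B
    refine Integrable.mono' h1 ?_ (Filter.Eventually.of_forall fun z => ?_)
    · refine AEStronglyMeasurable.mul ?_ ?_
      · exact (hk.norm.comp_snd (volume.restrict (E i))).aestronglyMeasurable
      · exact ((hD i).comp (continuous_fst.sub continuous_snd)).norm.aestronglyMeasurable
    · show ‖‖k z.2‖ * ‖D i (z.1 - z.2)‖‖ ≤ ‖k z.2‖ * B
      rw [norm_mul, norm_norm, norm_norm]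
      exact mul_le_mul_of_nonneg_left (hB _ _) (norm_nonneg _)
  have hone : ∀ i ∈ S, ∫ t in E i, ‖∫ v : ℝ, k v * D i (t - v)‖ ≤
      ∫ v : ℝ, ‖k v‖ * ∫ s in (fun s => s + v) ⁻¹' E i, ‖D i s‖ := by
    intro i hi
    have h1 : ∫ t in E i, ‖∫ v : ℝ, k v * D i (t - v)‖ ≤
        ∫ t in E i, ∫ v : ℝ, ‖k v‖ * ‖D i (t - v)‖ := by
      refine integral_mono_of_nonneg (Filter.Eventually.of_forall fun t => norm_nonneg _)
        (hP i hi).integral_prod_left (Filter.Eventually.of_forall fun t => ?_)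
      beta_reduce
      refine (norm_integral_le_integral_norm _).trans (le_of_eq ?_)
      refine integral_congr_ae (Filter.Eventually.of_forall fun v => ?_)
      beta_reduce
      rw [norm_mul]
    refine h1.trans (le_of_eq ?_)
    rw [integral_integral_swap (hP i hi)]
    refine integral_congr_ae (Filter.Eventually.of_forall fun v => ?_)
    beta_reduce
    rw [integral_const_mul, ← BHi_shift (E i) (fun s => ‖D i s‖) v]
  have hint : ∀ i ∈ S, Integrable (fun v : ℝ => ‖k v‖ *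
      ∫ s in (fun s => s + v) ⁻¹' E i, ‖D i s‖) := by
    intro i hi
    refine (hP i hi).integral_prod_right.congr (Filter.Eventually.of_forall fun v => ?_)
    show ∫ t in E i, ‖k v‖ * ‖D i (t - v)‖ =
      ‖k v‖ * ∫ s in (fun s => s + v) ⁻¹' E i, ‖D i s‖
    rw [integral_const_mul, ← BHi_shift (E i) (fun s => ‖D i s‖) v]
  refine (sum_le_sum hone).trans (le_of_eq ?_)
  rw [← integral_finsetSum _ hint]
  refine integral_congr_ae (Filter.Eventually.of_forall fun v => ?_)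
  beta_reduce
  rw [mul_sum]

/-- The integral with a bound which depends on the size of `v`. -/
theorem BHi_weight (k : ℝ → ℂ) (Φ : ℝ → ℝ) (A B V : ℝ) (hk : Integrable k)
    (hk1 : (∫ v : ℝ, ‖k v‖) ≤ 2 * Real.pi) (hk2 : ∀ v, ‖k v‖ * v ^ 2 ≤ 2) (hA : 0 ≤ A)
    (hB : 0 ≤ B) (hV : 0 < V) (h0 : ∀ v, 0 ≤ Φ v) (h1 : ∀ v, |v| ≤ V → Φ v ≤ A)
    (h2 : ∀ v, Φ v ≤ B) :
    ∫ v : ℝ, ‖k v‖ * Φ v ≤ 2 * Real.pi * A + 4 * Real.pi * B / V := by
  have hi1 : Integrable (fun v : ℝ => ‖k v‖ * A) := hk.norm.mul_const A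
  have hi2 : Integrable (fun v : ℝ => 4 * B / V ^ 2 * (1 + (v / V) ^ 2)⁻¹) :=
    ((integrable_inv_one_add_sq).comp_div hV.ne').const_mul _
  have hpt : ∀ v : ℝ, ‖k v‖ * Φ v ≤ ‖k v‖ * A + 4 * B / V ^ 2 * (1 + (v / V) ^ 2)⁻¹ := by
    intro v
    have e2 : 0 ≤ 4 * B / V ^ 2 * (1 + (v / V) ^ 2)⁻¹ := by positivity
    by_cases hv : |v| ≤ V
    · have := mul_le_mul_of_nonneg_left (h1 v hv) (norm_nonneg (k v))
      linarith
    · rw [not_le] at hv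
      have hv2 : V ^ 2 < v ^ 2 := by
        rw [← sq_abs v]
        exact pow_lt_pow_left₀ hv hV.le two_ne_zero
      have hv0 : 0 < v ^ 2 := lt_trans (by positivity) hv2
      have e3 : ‖k v‖ ≤ 2 / v ^ 2 := by
        rw [le_div_iff₀ hv0]
        exact hk2 v
      have e4 : 4 * B / V ^ 2 * (1 + (v / V) ^ 2)⁻¹ = 4 * B / (V ^ 2 + v ^ 2) := by
        field_simp
      have e5 : 2 / v ^ 2 * B ≤ 4 * B / (V ^ 2 + v ^ 2) := by
        rw [div_mul_eq_mul_div, div_le_div_iff₀ hv0 (by positivity)]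
        nlinarith
      have e6 : ‖k v‖ * Φ v ≤ 2 / v ^ 2 * B :=
        mul_le_mul e3 (h2 v) (h0 v) (by positivity)
      have e7 : 0 ≤ ‖k v‖ * A := mul_nonneg (norm_nonneg _) hA
      rw [e4]
      linarith
  have hi3 : Integrable (fun v : ℝ => ‖k v‖ * A + 4 * B / V ^ 2 * (1 + (v / V) ^ 2)⁻¹) :=
    hi1.add hi2
  refine (integral_mono_of_nonneg (Filter.Eventually.of_forall fun v =>
    mul_nonneg (norm_nonneg _) (h0 v)) hi3
    (Filter.Eventually.of_forall fun v => hpt v)).trans ?_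
  have e8 : ∫ v : ℝ, (‖k v‖ * A + 4 * B / V ^ 2 * (1 + (v / V) ^ 2)⁻¹) =
      (∫ v : ℝ, ‖k v‖) * A + 4 * B / V ^ 2 * (V * Real.pi) := by
    have e9 : ∫ v : ℝ, (1 + (v / V) ^ 2)⁻¹ = V * Real.pi := by
      have := Measure.integral_comp_div (fun x : ℝ => (1 + x ^ 2)⁻¹) V
      rw [this, integral_univ_inv_one_add_sq, abs_of_pos hV, smul_eq_mul]
    rw [← e9, ← integral_const_mul, ← integral_mul_const, ← integral_add hi1 hi2]
  rw [e8]
  have e10 : 4 * B / V ^ 2 * (V * Real.pi) = 4 * Real.pi * B / V := by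
    field_simp
  rw [e10]
  have := mul_le_mul_of_nonneg_right hk1 hA
  linarith

theorem FHi_cont (Y : ℝ) (μ j₀ : ℕ) (w : ℝ) (i1 i : CC) (hw : 0 < w) :
    Continuous (FHi Y μ j₀ w i1 i) ∧ Continuous (FLo Y μ j₀ w i1 i) := by
  obtain ⟨B, hB⟩ := BHi_QX_bd Y μ j₀ i
  have h1 : Continuous (FLo Y μ j₀ w i1 i) := by
    have h2 := BHi_conv_cont (BHi_osc Y).1 (BHi_QLo_cont Y μ j₀ w i1 i)
      (fun s => (BHi_QLo_le Y μ j₀ w i1 i s).trans (hB s))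
    exact continuous_const.mul h2
  refine ⟨?_, h1⟩
  have h3 : Continuous (FF Y μ j₀ i) := DP_continuous _ _ _
  exact h3.sub h1

/-- The translated sets: the mean of the difference for a fixed shift. -/
theorem BHi_phi (Y : ℝ) (μ j₀ : ℕ) (K K' κ κ₁ κ₂ ε₁ C : ℝ) (i1 : CC) (R : ℕ) (hY : 16 ≤ Y)
    (hK : 0 < K) (hK' : 0 < K') (hκ1 : κ ≤ κ₁) (hκ2 : κ ≤ κ₂)
    (H1 : ∀ E : CC → Set ℝ, Fam R (Y ^ (3 / 2 : ℝ)) (Y ^ κ₁) E →
      (∀ t ∈ E i0, K / Real.log Y ≤ |t|) → (∀ t ∈ E i1, K / Real.log Y ≤ |t|) →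
      ∑ i ∈ CR R, ∫ t in E i, ‖QX Y μ j₀ i t‖ ≤ ε₁ / Real.log Y)
    (H2 : ∀ E : CC → Set ℝ, Fam R (Y ^ 2) (Y ^ κ₂) E →
      ∑ i ∈ CR R, ∫ t in E i, ‖QX Y μ j₀ i t‖ ≤ C / Real.log Y)
    (E : CC → Set ℝ) (hE : Fam R (Y ^ (5 / 4 : ℝ)) (Y ^ κ) E) (v : ℝ)
    (hv : |v| ≤ Y ^ (5 / 4 : ℝ)) :
    ∑ i ∈ CR R, ∫ s in (fun s => s + v) ⁻¹' E i, ‖BHi_D Y μ j₀ (K' / Real.log Y) i1 i s‖ ≤
      ε₁ / Real.log Y + K / K' * (C / Real.log Y) := by
  classical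
  have hY0 : 0 < Y := by linarith
  have hL : 0 < Real.log Y := Real.log_pos (by linarith)
  have hw : 0 < K' / Real.log Y := div_pos hK' hL
  have hpow : 2 * Y ^ (5 / 4 : ℝ) ≤ Y ^ (3 / 2 : ℝ) := by
    have e1 : Y ^ (3 / 2 : ℝ) = Y ^ (1 / 4 : ℝ) * Y ^ (5 / 4 : ℝ) := by
      rw [← Real.rpow_add hY0]
      norm_num
    have e2 : (2 : ℝ) ≤ Y ^ (1 / 4 : ℝ) := by
      have e3 : (16 : ℝ) ^ (1 / 4 : ℝ) = 2 := by
        rw [show (16 : ℝ) = 2 ^ (4 : ℝ) by norm_num, ← Real.rpow_mul (by norm_num)]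
        norm_num
      rw [← e3]
      exact Real.rpow_le_rpow (by norm_num) hY (by norm_num)
    rw [e1]
    exact mul_le_mul_of_nonneg_right e2 (Real.rpow_nonneg hY0.le _)
  have hpow2 : Y ^ (3 / 2 : ℝ) ≤ Y ^ 2 := by
    rw [← Real.rpow_natCast Y 2]
    exact Real.rpow_le_rpow_of_exponent_le (by linarith) (by norm_num)
  set E' : CC → Set ℝ := fun i => (fun s => s + v) ⁻¹' E i with hE'
  set T : CC → Set ℝ := fun i => if i = i0 ∨ i = i1 then {s | |s| < K / Real.log Y} else ∅ with hT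
  have hTm : ∀ i, MeasurableSet (T i) := by
    intro i
    rw [hT]
    beta_reduce
    split_ifs
    · exact measurableSet_lt continuous_abs.measurable measurable_const
    · exact MeasurableSet.empty
  have hE'm : ∀ i ∈ CR R, MeasurableSet (E' i) := fun i hi =>
    (hE.1 i hi).1.preimage (measurable_id.add_const v)
  have hE's : ∀ i ∈ CR R, E' i ⊆ Set.Icc (-Y ^ (3 / 2 : ℝ)) (Y ^ (3 / 2 : ℝ)) := by
    intro i hi s hs
    have h1 := (hE.1 i hi).2 hs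
    rw [Set.mem_Icc] at h1 ⊢
    have h2 := abs_le.1 hv
    constructor <;> linarith [h1.1, h1.2, h2.1, h2.2]
  have hvol : ∀ i ∈ CR R, volume (E' i) = volume (E i) := by
    intro i _
    exact measure_preimage_add_right volume v (E i)
  have hfin : ∀ i ∈ CR R, volume (E' i) ≠ ⊤ := by
    intro i hi
    exact ((measure_mono (hE's i hi)).trans_lt measure_Icc_lt_top).ne
  have hfam : ∀ (G : CC → Set ℝ) (T' V' : ℝ), (∀ i ∈ CR R, MeasurableSet (G i) ∧ G i ⊆ E' i) →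
      Y ^ (3 / 2 : ℝ) ≤ T' → Y ^ κ ≤ V' → Fam R T' V' G := by
    intro G T' V' hG hT' hV'
    refine ⟨fun i hi => ⟨(hG i hi).1, fun s hs => ?_⟩, ?_⟩
    · have := hE's i hi ((hG i hi).2 hs)
      exact ⟨by linarith [this.1], by linarith [this.2]⟩
    · refine le_trans (sum_le_sum fun i hi => ?_) (hE.2.trans hV')
      rw [← hvol i hi]
      exact ENNReal.toReal_mono (hfin i hi) (measure_mono (hG i hi).2)
  have hint : ∀ i ∈ CR R, IntegrableOn (fun s => ‖BHi_D Y μ j₀ (K' / Real.log Y) i1 i s‖)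
      (E' i) := by
    intro i hi
    refine IntegrableOn.mono_set ?_ (hE's i hi)
    exact (BHi_D_cont Y μ j₀ (K' / Real.log Y) i1 i).norm.continuousOn.integrableOn_Icc
  have hint2 : ∀ i ∈ CR R, IntegrableOn (fun s => ‖QX Y μ j₀ i s‖) (E' i) := by
    intro i hi
    refine IntegrableOn.mono_set ?_ (hE's i hi)
    exact (BHi_QX_cont Y μ j₀ i).norm.continuousOn.integrableOn_Icc
  have hsplit : ∑ i ∈ CR R, ∫ s in E' i, ‖BHi_D Y μ j₀ (K' / Real.log Y) i1 i s‖ =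
      (∑ i ∈ CR R, ∫ s in E' i ∩ T i, ‖BHi_D Y μ j₀ (K' / Real.log Y) i1 i s‖) +
      ∑ i ∈ CR R, ∫ s in E' i \ T i, ‖BHi_D Y μ j₀ (K' / Real.log Y) i1 i s‖ := by
    rw [← sum_add_distrib]
    exact sum_congr rfl fun i hi => (integral_inter_add_sdiff (hTm i) (hint i hi)).symm
  have hpart1 : ∑ i ∈ CR R, ∫ s in E' i \ T i, ‖BHi_D Y μ j₀ (K' / Real.log Y) i1 i s‖ ≤
      ε₁ / Real.log Y := by
    refine le_trans (sum_le_sum fun i hi => ?_)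
      (H1 (fun i => E' i \ T i) (hfam _ _ _ (fun i hi => ⟨(hE'm i hi).diff (hTm i),
        Set.sdiff_subset⟩) le_rfl (Real.rpow_le_rpow_of_exponent_le (by linarith) hκ1)) ?_ ?_)
    · refine integral_mono_of_nonneg (Filter.Eventually.of_forall fun s => norm_nonneg _)
        ((hint2 i hi).mono_set Set.sdiff_subset)
        (Filter.Eventually.of_forall fun s => BHi_D_le Y μ j₀ (K' / Real.log Y) i1 i s)
    · rintro t ⟨_, ht⟩
      rw [hT] at ht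
      beta_reduce at ht
      rw [if_pos (Or.inl rfl)] at ht
      exact not_lt.1 ht
    · rintro t ⟨_, ht⟩
      rw [hT] at ht
      beta_reduce at ht
      rw [if_pos (Or.inr rfl)] at ht
      exact not_lt.1 ht
  have hpart2 : ∑ i ∈ CR R, ∫ s in E' i ∩ T i, ‖BHi_D Y μ j₀ (K' / Real.log Y) i1 i s‖ ≤
      K / K' * (C / Real.log Y) := by
    have h3 := H2 (fun i => E' i ∩ T i) (hfam _ _ _ (fun i hi => ⟨(hE'm i hi).inter (hTm i),
      Set.inter_subset_left⟩) hpow2 (Real.rpow_le_rpow_of_exponent_le (by linarith) hκ2))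
    have h4 : (0 : ℝ) ≤ K / K' := by positivity
    refine le_trans ?_ (mul_le_mul_of_nonneg_left h3 h4)
    rw [mul_sum]
    refine sum_le_sum fun i hi => ?_
    rw [← integral_const_mul]
    refine setIntegral_mono_on ((hint i hi).mono_set Set.inter_subset_left)
      (((hint2 i hi).mono_set Set.inter_subset_left).const_mul _)
      ((hE'm i hi).inter (hTm i)) ?_
    rintro s ⟨_, hs⟩
    rw [hT] at hs
    beta_reduce at hs
    by_cases hi0 : i = i0 ∨ i = i1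
    · rw [if_pos hi0] at hs
      have hs' : |s| < K / Real.log Y := hs
      refine (BHi_D_small Y μ j₀ (K' / Real.log Y) i1 i s hw hi0).trans ?_
      refine mul_le_mul_of_nonneg_right ?_ (norm_nonneg _)
      rw [div_le_div_iff₀ hw hK']
      rw [lt_div_iff₀ hL] at hs'
      have h5 : K * (K' / Real.log Y) = K * K' / Real.log Y := by ring
      rw [h5, le_div_iff₀ hL]
      nlinarith
    · rw [if_neg hi0] at hs
      exact absurd hs (Set.notMem_empty s)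
  rw [hsplit]
  linarith

/-- **The high part is small in mean.**

Proof. `FHi t = (1 / 2 π) ∫ osc (locf Y) v (QX - QLo) (t - v) dv` (`FF_eq`). For `|v| ≤ Y ^ (5 / 4)` the translates `E i - v` are a family
in `[- Y ^ (3 / 2), Y ^ (3 / 2)]`. With the constants of `l1_small` for `ε / 4`: for `i ≠ i0, i1` and for the parts `|s| ≥ K / log Y` of
the translates for `i0`, `i1` use `|QX - QLo| ≤ |QX|` and `l1_small`; for `i = i0, i1` and `|s| < K / log Y`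
`|QX - QLo| ≤ |s| / w |QX| ≤ (K / K') |QX|` and `l1_total`; take `K' ≥ 4 K C / ε`. For `|v| > Y ^ (5 / 4)` use
`|osc (locf Y) v| ≤ 2 / v ^ 2` and `|QX - QLo| ≤ C` (`QX_le`). -/
theorem high_l1 (μ j₀ : ℕ) (ε : ℝ) (hμ : 8 ≤ μ) (hj : 2 ≤ j₀) (hj' : j₀ ≤ μ) (hε : 0 < ε) :
    ∃ a' η' ε' K₀ κ δ₀ : ℝ, 0 < a' ∧ a' ≤ 1 ∧ 0 < η' ∧ η' ≤ 1 ∧ 0 < ε' ∧ 1 ≤ K₀ ∧ 0 < κ ∧ κ ≤ 1 ∧ 0 < δ₀ ∧
      ∀ K' : ℝ, K₀ ≤ K' → ∃ Y₀ : ℝ, 3 ≤ Y₀ ∧
      ∀ (Y δ : ℝ) (i1 : CC) (β : ℝ), Y₀ ≤ Y → 0 < δ → δ ≤ δ₀ → β ≤ 1 → PBL Y δ a' η' ε' i1 β →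
        ∀ E : CC → Set ℝ, Fam ⌊Y ^ δ⌋₊ (Y ^ (5 / 4 : ℝ)) (Y ^ κ) E →
          ∑ i ∈ CR ⌊Y ^ δ⌋₊, ∫ t in E i, ‖FHi Y μ j₀ (K' / Real.log Y) i1 i t‖ ≤ ε / Real.log Y := by
  classical
  have hμ8 : 8 ≤ μ := hμ
  obtain ⟨a', η', ε', K, κ₁, δ₁, Y₁, ha, ha1, hη, hη1, hε', hK, hκ₁, hδ₁, hY₁, HS⟩ :=
    l1_small' μ j₀ (ε / 4) hμ hj hj' (by positivity)
  obtain ⟨κ₂, δ₂, C, Y₂, hκ₂, hδ₂, hC, hY₂, HT⟩ := l1_total μ j₀ hμ8 hj hj'
  obtain ⟨C₃, Y₃, hC₃, hY₃, HQ⟩ := QX_le μ j₀ hμ8 hj hj'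
  refine ⟨a', η', ε', max 1 (4 * (K * C) / ε), min (min κ₁ κ₂) 1, min δ₁ δ₂, ha, ha1, hη, hη1, hε',
    le_max_left _ _, lt_min (lt_min hκ₁ hκ₂) one_pos, min_le_right _ _, lt_min hδ₁ hδ₂, ?_⟩
  intro K' hK'
  have hK'1 : 1 ≤ K' := (le_max_left _ _).trans hK'
  have hK'2 : 4 * (K * C) / ε ≤ K' := (le_max_right _ _).trans hK'
  refine ⟨max (max (max Y₁ Y₂) (max Y₃ 16)) ((32 * C₃ / ε) ^ (8 : ℝ)), ?_, ?_⟩
  · exact hY₁.trans ((le_max_left _ _).trans ((le_max_left _ _).trans (le_max_left _ _)))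
  intro Y δ i1 β hY hδ hδδ hβ hP E hE
  have hYa : max (max Y₁ Y₂) (max Y₃ 16) ≤ Y := (le_max_left _ _).trans hY
  have hYb : (32 * C₃ / ε) ^ (8 : ℝ) ≤ Y := (le_max_right _ _).trans hY
  have hY1 : Y₁ ≤ Y := (le_max_left _ _).trans ((le_max_left _ _).trans hYa)
  have hY2 : Y₂ ≤ Y := (le_max_right _ _).trans ((le_max_left _ _).trans hYa)
  have hY3 : Y₃ ≤ Y := (le_max_left _ _).trans ((le_max_right _ _).trans hYa)
  have hY16 : 16 ≤ Y := (le_max_right _ _).trans ((le_max_right _ _).trans hYa)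
  have hY0 : 0 < Y := by linarith
  have hL : 0 < Real.log Y := Real.log_pos (by linarith)
  set w : ℝ := K' / Real.log Y with hw
  have hNN : Y ^ 6 ≤ (NN Y : ℝ) := Nat.le_ceil _
  have hvolE : ∀ i ∈ CR ⌊Y ^ δ⌋₊, volume (E i) ≠ ⊤ := fun i hi =>
    ((measure_mono (hE.1 i hi).2).trans_lt measure_Icc_lt_top).ne
  have hDb : ∀ (i : CC) (s : ℝ), ‖BHi_D Y μ j₀ w i1 i s‖ ≤ C₃ := fun i s =>
    (BHi_D_le Y μ j₀ w i1 i s).trans (HQ Y i s hY3).1
  have hF : ∀ (i : CC) (t : ℝ), ‖FHi Y μ j₀ w i1 i t‖ = 1 / (2 * Real.pi) *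
      ‖∫ v : ℝ, osc (locf Y) v * BHi_D Y μ j₀ w i1 i (t - v)‖ := by
    intro i t
    rw [BHi_FHi_eq, norm_mul]
    congr 1
    rw [show (1 / (2 * Real.pi) : ℂ) = ((1 / (2 * Real.pi) : ℝ) : ℂ) by push_cast; ring,
      Complex.norm_real, Real.norm_of_nonneg (by positivity)]
  have h1 := BHi_fub (CR ⌊Y ^ δ⌋₊) E (fun i => BHi_D Y μ j₀ w i1 i) (osc (locf Y)) C₃
    (fun i hi => ⟨(hE.1 i hi).1, hvolE i hi⟩) (fun i => BHi_D_cont Y μ j₀ w i1 i) hDb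
    (BHi_osc Y).1
  have hκY : ∀ κ' : ℝ, min (min κ₁ κ₂) 1 ≤ κ' → True := fun _ _ => trivial
  have hA : 0 ≤ ε / 4 / Real.log Y + K / K' * (C / Real.log Y) := by positivity
  have hV : (0 : ℝ) < Y ^ (5 / 4 : ℝ) := Real.rpow_pos_of_pos hY0 _
  have h2 := BHi_weight (osc (locf Y))
    (fun v => ∑ i ∈ CR ⌊Y ^ δ⌋₊, ∫ s in (fun s => s + v) ⁻¹' E i, ‖BHi_D Y μ j₀ w i1 i s‖)
    (ε / 4 / Real.log Y + K / K' * (C / Real.log Y)) (C₃ * Y ^ (min (min κ₁ κ₂) 1))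
    (Y ^ (5 / 4 : ℝ)) (BHi_osc Y).1 (BHi_osc Y).2.1 (BHi_osc Y).2.2 hA (by positivity) hV
    (fun v => sum_nonneg fun i _ => integral_nonneg fun s => norm_nonneg _)
    (fun v hv => BHi_phi Y μ j₀ K K' (min (min κ₁ κ₂) 1) κ₁ κ₂ (ε / 4) C i1 ⌊Y ^ δ⌋₊ hY16 hK
      (by linarith) ((min_le_left _ _).trans (min_le_left _ _))
      ((min_le_left _ _).trans (min_le_right _ _))
      (fun G hG hG0 hG1 => (HS Y δ i1 β hY1 hδ (hδδ.trans (min_le_left _ _)) hβ hP G (NN Y) hG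
        hG0 hG1 hNN).1)
      (fun G hG => (HT Y δ G (NN Y) hY2 hδ (hδδ.trans (min_le_right _ _)) hG hNN).1)
      E hE v hv)
    (fun v => by
      have h3 : ∀ i ∈ CR ⌊Y ^ δ⌋₊, ∫ s in (fun s => s + v) ⁻¹' E i, ‖BHi_D Y μ j₀ w i1 i s‖ ≤
          C₃ * (volume (E i)).toReal := by
        intro i hi
        have h4 : volume ((fun s => s + v) ⁻¹' E i) = volume (E i) :=
          measure_preimage_add_right volume v (E i)
        have h5 := norm_setIntegral_le_of_norm_le_const (μ := volume)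
          (s := (fun s => s + v) ⁻¹' E i) (f := fun s => ‖BHi_D Y μ j₀ w i1 i s‖) (C := C₃)
          (by rw [h4]; exact lt_top_iff_ne_top.2 (hvolE i hi))
          (fun s _ => by rw [norm_norm]; exact hDb i s)
        rw [Real.norm_of_nonneg (integral_nonneg fun s => norm_nonneg _), measureReal_def, h4]
          at h5
        exact h5
      refine (sum_le_sum h3).trans ?_
      rw [← mul_sum]
      exact mul_le_mul_of_nonneg_left hE.2 (by linarith))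
  have h6 : ∑ i ∈ CR ⌊Y ^ δ⌋₊, ∫ t in E i, ‖FHi Y μ j₀ w i1 i t‖ =
      1 / (2 * Real.pi) * ∑ i ∈ CR ⌊Y ^ δ⌋₊, ∫ t in E i,
        ‖∫ v : ℝ, osc (locf Y) v * BHi_D Y μ j₀ w i1 i (t - v)‖ := by
    rw [mul_sum]
    refine sum_congr rfl fun i _ => ?_
    rw [← integral_const_mul]
    exact integral_congr_ae (Filter.Eventually.of_forall fun t => hF i t)
  rw [h6]
  have h7 : 1 / (2 * Real.pi) * ∑ i ∈ CR ⌊Y ^ δ⌋₊, ∫ t in E i,
        ‖∫ v : ℝ, osc (locf Y) v * BHi_D Y μ j₀ w i1 i (t - v)‖ ≤ 1 / (2 * Real.pi) *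
      (2 * Real.pi * (ε / 4 / Real.log Y + K / K' * (C / Real.log Y)) +
        4 * Real.pi * (C₃ * Y ^ (min (min κ₁ κ₂) 1)) / Y ^ (5 / 4 : ℝ)) :=
    mul_le_mul_of_nonneg_left (h1.trans h2) (by positivity)
  refine h7.trans ?_
  have h8 : 1 / (2 * Real.pi) *
      (2 * Real.pi * (ε / 4 / Real.log Y + K / K' * (C / Real.log Y)) +
        4 * Real.pi * (C₃ * Y ^ (min (min κ₁ κ₂) 1)) / Y ^ (5 / 4 : ℝ)) =
      ε / 4 / Real.log Y + K / K' * (C / Real.log Y) +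
        2 * C₃ * (Y ^ (min (min κ₁ κ₂) 1) / Y ^ (5 / 4 : ℝ)) := by
    field_simp
    ring
  rw [h8]
  have h9 : K / K' * (C / Real.log Y) ≤ ε / 4 / Real.log Y := by
    have h10 : K / K' * (C / Real.log Y) = K * C / K' / Real.log Y := by ring
    rw [h10]
    refine div_le_div_of_nonneg_right ?_ hL.le
    rw [div_le_iff₀ (by linarith : (0 : ℝ) < K')]
    rw [div_le_iff₀ hε] at hK'2
    linarith
  have h11 : Y ^ (min (min κ₁ κ₂) 1) / Y ^ (5 / 4 : ℝ) ≤ Y ^ (-(1 / 4) : ℝ) := by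
    rw [← Real.rpow_sub hY0]
    refine Real.rpow_le_rpow_of_exponent_le (by linarith) ?_
    have := min_le_right (min κ₁ κ₂) 1
    linarith
  have h12 : 2 * C₃ * Y ^ (-(1 / 4) : ℝ) ≤ ε / 2 / Real.log Y := by
    rw [le_div_iff₀ hL]
    have h13 : Real.log Y ≤ Y ^ (1 / 8 : ℝ) / (1 / 8) :=
      Real.log_le_rpow_div hY0.le (by norm_num)
    have h14 : 32 * C₃ / ε ≤ Y ^ (1 / 8 : ℝ) := by
      have h15 : 0 ≤ 32 * C₃ / ε := by positivity
      have h16 : ((32 * C₃ / ε) ^ (8 : ℝ)) ^ (1 / 8 : ℝ) = 32 * C₃ / ε := by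
        rw [← Real.rpow_mul h15]
        norm_num
      rw [← h16]
      exact Real.rpow_le_rpow (Real.rpow_nonneg h15 _) hYb (by norm_num)
    have h17 : Y ^ (-(1 / 4) : ℝ) * Y ^ (1 / 8 : ℝ) * Y ^ (1 / 8 : ℝ) = 1 := by
      rw [← Real.rpow_add hY0, ← Real.rpow_add hY0]
      norm_num
    have h18 : 0 < Y ^ (-(1 / 4) : ℝ) := Real.rpow_pos_of_pos hY0 _
    have h19 : 0 < Y ^ (1 / 8 : ℝ) := Real.rpow_pos_of_pos hY0 _
    have h20 : 2 * C₃ * Y ^ (-(1 / 4) : ℝ) * Real.log Y ≤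
        2 * C₃ * Y ^ (-(1 / 4) : ℝ) * (Y ^ (1 / 8 : ℝ) / (1 / 8)) :=
      mul_le_mul_of_nonneg_left h13 (by positivity)
    refine h20.trans ?_
    rw [div_le_iff₀ hε] at h14
    have h21 : 0 ≤ Y ^ (-(1 / 4) : ℝ) * Y ^ (1 / 8 : ℝ) := by positivity
    have h22 := mul_le_mul_of_nonneg_left h14 h21
    have h23 : Y ^ (-(1 / 4) : ℝ) * Y ^ (1 / 8 : ℝ) * (Y ^ (1 / 8 : ℝ) * ε) = ε := by
      rw [← mul_assoc, h17, one_mul]
    rw [h23] at h22
    linarith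
  have h24 : 2 * C₃ * (Y ^ (min (min κ₁ κ₂) 1) / Y ^ (5 / 4 : ℝ)) ≤
      2 * C₃ * Y ^ (-(1 / 4) : ℝ) := mul_le_mul_of_nonneg_left h11 (by linarith)
  have h25 : ε / Real.log Y = ε / 4 / Real.log Y + ε / 4 / Real.log Y + ε / 2 / Real.log Y := by
    ring
  rw [h25]
  linarith

end Pool.Agent.M58
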