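import Mathlib

/-!
# Local complex analysis: logarithmic derivatives (helper68)
-/

set_option autoImplicit false

open Complex Metric

namespace Pool.Agent.M58

/-- A zero free holomorphic function on a ball has a holomorphic logarithm. -/
theorem CA_exists_log (R : ℝ) (hR : 0 < R) (g : ℂ → ℂ) (hg : DifferentiableOn ℂ g (ball 0 R))
    (hne : ∀ w ∈ ball (0 : ℂ) R, g w ≠ 0) :
    ∃ F : ℂ → ℂ, (∀ w ∈ ball (0 : ℂ) R, HasDerivAt F (deriv g w / g w) w) ∧
      ∀ w ∈ ball (0 : ℂ) R, g w = exp (F w) := by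
  have h1 : DifferentiableOn ℂ (fun w => deriv g w / g w) (ball 0 R) :=
    (hg.deriv isOpen_ball).div hg hne
  obtain ⟨F, hF0, hF⟩ := h1.isExactOn_ball.with_val_at 0 (Complex.log (g 0))
  refine ⟨F, hF, ?_⟩
  have h0 : (0 : ℂ) ∈ ball (0 : ℂ) R := mem_ball_self hR
  have h2 : ∀ w ∈ ball (0 : ℂ) R, HasDerivAt (fun z => g z * exp (-F z)) 0 w := by
    intro w hw
    have hgw : HasDerivAt g (deriv g w) w :=
      (hg.differentiableAt (isOpen_ball.mem_nhds hw)).hasDerivAt
    have h3 := hgw.mul (hF w hw).neg.cexp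
    refine h3.congr_deriv ?_
    have := hne w hw
    field_simp
    ring
  intro w hw
  have h3 : (fun z => g z * exp (-F z)) w = (fun z => g z * exp (-F z)) 0 := by
    refine (convex_ball (0 : ℂ) R).is_const_of_fderivWithin_eq_zero (𝕜 := ℂ)
      (fun z hz => (h2 z hz).differentiableAt.differentiableWithinAt) (fun z hz => ?_) hw h0
    rw [fderivWithin_of_isOpen isOpen_ball hz]
    have := (h2 z hz).hasFDerivAt.fderiv
    rw [this]
    ext
    simp
  have h4 : g w * exp (-F w) = 1 := by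
    have h5 : g w * exp (-F w) = g 0 * exp (-F 0) := h3
    rw [h5, hF0, Complex.exp_neg, Complex.exp_log (hne 0 h0)]
    exact mul_inv_cancel₀ (hne 0 h0)
  rw [Complex.exp_neg] at h4
  have h6 : exp (F w) ≠ 0 := Complex.exp_ne_zero _
  field_simp at h4
  exact h4

/-- Harnack from the centre. -/
theorem CA_harnack (R ρ : ℝ) (hρ : 0 < ρ) (hR : ρ < R) (F : ℂ → ℂ)
    (hF : DifferentiableOn ℂ F (ball 0 R)) (hre : ∀ w ∈ ball (0 : ℂ) R, (F w).re < 0) (w₀ : ℂ)
    (hw₀ : ‖w₀‖ ≤ ρ) : -(F 0).re ≤ (R + ρ) / (R - ρ) * (-(F w₀).re) := by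
  have hR0 : 0 < R := hρ.trans hR
  have h0 : (0 : ℂ) ∈ ball (0 : ℂ) R := mem_ball_self hR0
  have hw : w₀ ∈ ball (0 : ℂ) R := by
    rw [mem_ball_zero_iff]
    linarith
  have ha : (F 0).re < 0 := hre 0 h0
  have hden : ∀ w ∈ ball (0 : ℂ) R, F w + (starRingEnd ℂ) (F 0) ≠ 0 := by
    intro w hw h
    have h1 := congrArg Complex.re h
    simp only [add_re, conj_re, zero_re] at h1
    have := hre w hw
    linarith
  have hT : DifferentiableOn ℂ (fun w => (F w - F 0) / (F w + (starRingEnd ℂ) (F 0)))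
      (ball 0 R) := by
    refine DifferentiableOn.div (hF.sub_const _) (hF.add_const _) hden
  have key : ∀ w ∈ ball (0 : ℂ) R, normSq (F w - F 0) ≤ normSq (F w + (starRingEnd ℂ) (F 0)) := by
    intro w hw
    rw [normSq_apply, normSq_apply]
    simp only [add_re, sub_re, sub_im, add_im, conj_re, conj_im]
    have := hre w hw
    nlinarith [mul_pos (neg_pos.2 this) (neg_pos.2 ha)]
  have hmaps : Set.MapsTo (fun w => (F w - F 0) / (F w + (starRingEnd ℂ) (F 0))) (ball 0 R)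
      (closedBall 0 1) := by
    intro w hw
    rw [mem_closedBall_zero_iff, norm_div]
    refine div_le_one_of_le₀ ?_ (norm_nonneg _)
    have h1 := key w hw
    rw [← Complex.sq_norm, ← Complex.sq_norm] at h1
    exact le_of_sq_le_sq h1 (norm_nonneg _)
  have hS : ‖(F w₀ - F 0) / (F w₀ + (starRingEnd ℂ) (F 0))‖ ≤ ρ / R := by
    have h1 := dist_le_div_mul_dist_of_mapsTo_ball (R₂ := 1) hT (by simpa using hmaps) hw
    simp only [sub_self, zero_div, dist_zero_right] at h1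
    calc _ ≤ 1 / R * ‖w₀‖ := h1
      _ ≤ 1 / R * ρ := by gcongr
      _ = ρ / R := by ring
  rw [norm_div, div_le_iff₀ (norm_pos_iff.2 (hden w₀ hw))] at hS
  have h2 : ‖F w₀ - F 0‖ * R ≤ ρ * ‖F w₀ + (starRingEnd ℂ) (F 0)‖ := by
    have := mul_le_mul_of_nonneg_right hS hR0.le
    calc _ ≤ _ := this
      _ = _ := by field_simp
  have h3 : normSq (F w₀ - F 0) * R ^ 2 ≤ ρ ^ 2 * normSq (F w₀ + (starRingEnd ℂ) (F 0)) := by
    rw [← Complex.sq_norm, ← Complex.sq_norm, ← mul_pow, ← mul_pow]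
    exact pow_le_pow_left₀ (by positivity) h2 2
  rw [normSq_apply, normSq_apply] at h3
  simp only [add_re, sub_re, sub_im, add_im, conj_re, conj_im] at h3
  have hx : (F w₀).re < 0 := hre w₀ hw
  -- (x - a)^2 R^2 ≤ ρ^2 (x + a)^2
  have h4 : (((F w₀).re - (F 0).re) * R) ^ 2 ≤ (ρ * ((F w₀).re + (F 0).re)) ^ 2 := by
    have h5 : 0 ≤ (R ^ 2 - ρ ^ 2) * ((F w₀).im - (F 0).im) ^ 2 := by
      refine mul_nonneg ?_ (sq_nonneg _)
      nlinarith
    nlinarith
  have h4' : (((F w₀).re - (F 0).re) * R) ^ 2 ≤ (ρ * (-(F w₀).re - (F 0).re)) ^ 2 := by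
    calc _ ≤ _ := h4
      _ = _ := by ring
  have h5 := le_of_sq_le_sq h4' (mul_nonneg hρ.le (by linarith))
  have h6 : 0 < R - ρ := sub_pos.2 hR
  rw [div_mul_eq_mul_div, le_div_iff₀ h6]
  linarith

/-- **Logarithmic derivative of a function without zeros.**

Proof. On `ball 0 R` write `g = exp f` (simply connected), `re (f - f w₀) ≤ log (M / m)`; Borel-Caratheodory for
`f - f w₀` on a ball around `w₀`, `f' = g' / g`. (Or: `Complex.borelCaratheodory` and Cauchy's estimate, in two steps of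
radii, since `w₀` is not the centre: compose with a Moebius transformation or use the ball `ball w₀ (R - ‖w₀‖)` first
to bound `|g 0|` from below (Harnack).) -/
theorem logderiv_bound (R ρ : ℝ) (hρ : 0 < ρ) (hR : ρ < R) (M m : ℝ) (hm : 0 < m) (hM : m ≤ M) :
    ∃ C : ℝ, 0 < C ∧ ∀ (g : ℂ → ℂ) (w₀ : ℂ), DifferentiableOn ℂ g (ball 0 R) →
      (∀ w ∈ ball (0 : ℂ) R, g w ≠ 0 ∧ ‖g w‖ ≤ M) → ‖w₀‖ ≤ ρ → m ≤ ‖g w₀‖ →
        ∀ w : ℂ, ‖w‖ ≤ ρ → ‖deriv g w / g w‖ ≤ C := by
  have hR0 : 0 < R := hρ.trans hR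
  have hM0 : 0 < M := hm.trans_le hM
  have h6 : 0 < R - ρ := sub_pos.2 hR
  have hB : 0 < (R + ρ) / (R - ρ) * Real.log (2 * M / m) := by
    refine mul_pos (by positivity) (Real.log_pos ?_)
    rw [lt_div_iff₀ hm]
    linarith
  set B : ℝ := (R + ρ) / (R - ρ) * Real.log (2 * M / m) with hBdef
  refine ⟨2 * B * (R + ρ) / (R - ρ) / ((R - ρ) / 2), by positivity, ?_⟩
  intro g w₀ hg hbd hw₀ hgw₀ w hw
  obtain ⟨F, hF, hexp⟩ := CA_exists_log R hR0 g hg (fun w hw => (hbd w hw).1)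
  have hFd : DifferentiableOn ℂ F (ball 0 R) :=
    fun z hz => (hF z hz).differentiableAt.differentiableWithinAt
  have hnorm : ∀ z ∈ ball (0 : ℂ) R, (F z).re = Real.log ‖g z‖ := by
    intro z hz
    rw [hexp z hz, Complex.norm_exp, Real.log_exp]
  have hw₀' : w₀ ∈ ball (0 : ℂ) R := by
    rw [mem_ball_zero_iff]
    linarith
  set F1 : ℂ → ℂ := fun z => F z - (Real.log (2 * M) : ℂ) with hF1
  have hF1re : ∀ z, (F1 z).re = (F z).re - Real.log (2 * M) := by
    intro z
    rw [hF1]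
    simp only [sub_re, ofReal_re]
  have hF1d : DifferentiableOn ℂ F1 (ball 0 R) := hFd.sub_const _
  have hF1neg : ∀ z ∈ ball (0 : ℂ) R, (F1 z).re < 0 := by
    intro z hz
    rw [hF1re, hnorm z hz]
    have h1 : Real.log ‖g z‖ < Real.log (2 * M) := by
      refine Real.log_lt_log (norm_pos_iff.2 (hbd z hz).1) ?_
      have := (hbd z hz).2
      linarith
    linarith
  have h7 := CA_harnack R ρ hρ hR F1 hF1d hF1neg w₀ hw₀
  have h8 : -(F1 w₀).re ≤ Real.log (2 * M / m) := by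
    rw [hF1re, hnorm w₀ hw₀', Real.log_div (by positivity) hm.ne']
    have : Real.log m ≤ Real.log ‖g w₀‖ := Real.log_le_log hm hgw₀
    linarith
  have h9 : -(F1 0).re ≤ B := h7.trans (mul_le_mul_of_nonneg_left h8 (by positivity))
  have hB0 : ∀ z ∈ ball (0 : ℂ) R, ‖F1 z - F1 0‖ ≤ 2 * B * ‖z‖ / (R - ‖z‖) := by
    intro z hz
    refine borelCaratheodory_zero (f := fun z => F1 z - F1 0) hB (hF1d.sub_const _) ?_ hR0 hz
      (sub_self _)
    intro x hx
    simp only [Set.mem_ofPred_eq, sub_re]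
    have := hF1neg x hx
    linarith
  have hsub : ∀ z, ‖z - w‖ ≤ (R - ρ) / 2 → ‖z‖ ≤ (R + ρ) / 2 := by
    intro z hz
    have h1 : ‖z‖ ≤ ‖z - w‖ + ‖w‖ := norm_le_norm_sub_add z w
    linarith
  have hder : deriv (fun z => F1 z - F1 0) w = deriv g w / g w := by
    have h1 : w ∈ ball (0 : ℂ) R := by
      rw [mem_ball_zero_iff]
      linarith
    exact (((hF w h1).sub_const _).sub_const _).deriv
  rw [← hder]
  refine norm_deriv_le_of_forall_mem_sphere_norm_le (by positivity) ?_ ?_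
  · refine DifferentiableOn.diffContOnCl ?_
    refine (hF1d.sub_const _).mono ?_
    intro z hz
    have h1 := closure_ball_subset_closedBall hz
    rw [mem_closedBall, dist_eq_norm] at h1
    rw [mem_ball_zero_iff]
    have := hsub z h1
    linarith
  · intro z hz
    rw [mem_sphere, dist_eq_norm] at hz
    have h1 := hsub z hz.le
    have h2 : z ∈ ball (0 : ℂ) R := by
      rw [mem_ball_zero_iff]
      linarith
    calc ‖F1 z - F1 0‖ ≤ 2 * B * ‖z‖ / (R - ‖z‖) := hB0 z h2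
      _ ≤ 2 * B * ((R + ρ) / 2) / (R - (R + ρ) / 2) := by
          refine div_le_div₀ (by positivity) (by gcongr) (by linarith) (by linarith)
      _ = 2 * B * (R + ρ) / (R - ρ) := by
          have : R - (R + ρ) / 2 = (R - ρ) / 2 := by ring
          rw [this]
          field_simp

end Pool.Agent.M58
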