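import Pool.Agent.W_b58c63_m1.CA

/-!
# Local complex analysis: zeros (helper68)
-/

set_option autoImplicit false

open Complex Metric

namespace Pool.Agent.M58

theorem CAb_dslope {M : ℝ} {g : ℂ → ℂ} (hg : DifferentiableOn ℂ g (ball 0 1))
    (hM : ∀ w ∈ ball (0 : ℂ) 1, ‖g w‖ ≤ M) {w₀ : ℂ} (h0 : ‖w₀‖ ≤ 1 / 4) (hz : g w₀ = 0) :
    DifferentiableOn ℂ (dslope g w₀) (ball 0 1) ∧
      (∀ w ∈ ball (0 : ℂ) 1, ‖dslope g w₀ w‖ ≤ 2 * M) ∧
      ∀ w, g w = (w - w₀) * dslope g w₀ w := by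
  have hw₀ : w₀ ∈ ball (0 : ℂ) 1 := by rw [mem_ball_zero_iff]; linarith
  have hsub : ball w₀ (1 / 2) ⊆ ball (0 : ℂ) 1 := by
    refine ball_subset_ball' ?_
    rw [dist_zero_right]; linarith
  have hM0 : 0 ≤ M := (norm_nonneg _).trans (hM w₀ hw₀)
  have heq : ∀ w, g w = (w - w₀) * dslope g w₀ w := fun w => by
    have := sub_smul_dslope g w₀ w
    rw [hz, sub_zero, smul_eq_mul] at this
    exact this.symm
  refine ⟨(differentiableOn_dslope (isOpen_ball.mem_nhds hw₀)).2 hg, fun w hw => ?_, heq⟩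
  by_cases hd : w ∈ ball w₀ (1 / 2)
  · have h := norm_dslope_le_div_of_mapsTo_ball (hg.mono hsub) (R₂ := M) (fun z hz' => by
      rw [hz, mem_closedBall_zero_iff]; exact hM z (hsub hz')) hd
    have h2 : M / (1 / 2) = 2 * M := by ring
    rwa [h2] at h
  · have h1 : 1 / 2 ≤ ‖w - w₀‖ := by
      rw [mem_ball, dist_eq_norm, not_lt] at hd; exact hd
    have h2 := hM w hw
    rw [heq w, norm_mul] at h2
    nlinarith [norm_nonneg (dslope g w₀ w)]

theorem CAb_norm_le {M : ℝ} {g : ℂ → ℂ} (hg : DifferentiableOn ℂ g (ball 0 1))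
    (hM : ∀ w ∈ ball (0 : ℂ) 1, ‖g w‖ ≤ M) {c : ℝ} (hc : 0 < c) (hc1 : c ≤ 1 / 4) {w₀ : ℂ}
    (h0 : ‖w₀‖ ≤ c) (hz : g w₀ = 0) : ‖g c‖ ≤ 4 * M * c := by
  obtain ⟨-, h2, h3⟩ := CAb_dslope hg hM (h0.trans hc1) hz
  have hcb : (c : ℂ) ∈ ball (0 : ℂ) 1 := by
    rw [mem_ball_zero_iff, Complex.norm_real, Real.norm_eq_abs, abs_of_pos hc]
    linarith
  have h4 := h2 _ hcb
  have h5 : ‖(c : ℂ) - w₀‖ ≤ 2 * c := by
    refine (norm_sub_le _ _).trans ?_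
    rw [Complex.norm_real, Real.norm_eq_abs, abs_of_pos hc]
    linarith
  rw [h3 c, norm_mul]
  calc ‖(c : ℂ) - w₀‖ * ‖dslope g w₀ c‖ ≤ (2 * c) * (2 * M) :=
        mul_le_mul h5 h4 (norm_nonneg _) (by linarith)
    _ = 4 * M * c := by ring

/-- **No zeros.** The lower bound `m v ^ (3 / 4)` to the right excludes zeros near `0`.

Proof. If `g w₁ = 0` with `‖w₁‖ ≤ c ≤ 1 / 4` then `‖g c‖ ≤ 4 M ‖c - w₁‖ ≤ 8 M c` (Cauchy's estimate for `g'` on
`ball 0 (1 / 2)`), and `m c ^ (3 / 4) ≤ 8 M c` fails for small `c`. Then `logderiv_bound` with `R = c`, `ρ = c / 2`,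
`w₀ = c / 2`. -/
theorem no_zero (M m : ℝ) (hM : 0 < M) (hm : 0 < m) : ∃ c C : ℝ, 0 < c ∧ c < 1 ∧ 0 < C ∧
    ∀ g : ℂ → ℂ, DifferentiableOn ℂ g (ball 0 1) → (∀ w ∈ ball (0 : ℂ) 1, ‖g w‖ ≤ M) →
      (∀ v : ℝ, 0 < v → v < 1 → m * v ^ (3 / 4 : ℝ) ≤ ‖g v‖) →
        ∀ w : ℂ, ‖w‖ ≤ c → g w ≠ 0 ∧ ‖deriv g w / g w‖ ≤ C := by
  obtain ⟨c, hc, hc4, hcm⟩ : ∃ c : ℝ, 0 < c ∧ c ≤ 1 / 4 ∧ 4 * M * c < m * c ^ (3 / 4 : ℝ) := by
    have hq : 0 < m / (8 * M) := by positivity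
    refine ⟨min (1 / 4) ((m / (8 * M)) ^ 4), lt_min (by norm_num) (by positivity),
      min_le_left _ _, ?_⟩
    set c := min (1 / 4) ((m / (8 * M)) ^ 4) with hcdef
    have hc : 0 < c := lt_min (by norm_num) (by positivity)
    have h1 : c ^ (1 / 4 : ℝ) ≤ m / (8 * M) := by
      have h2 : c ^ (1 / 4 : ℝ) ≤ ((m / (8 * M)) ^ 4) ^ (1 / 4 : ℝ) :=
        Real.rpow_le_rpow hc.le (min_le_right _ _) (by norm_num)
      refine h2.trans_eq ?_
      rw [← Real.rpow_natCast, ← Real.rpow_mul hq.le]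
      norm_num
    have h3 : c = c ^ (3 / 4 : ℝ) * c ^ (1 / 4 : ℝ) := by
      rw [← Real.rpow_add hc]
      norm_num
    have h4 : 0 < c ^ (3 / 4 : ℝ) := Real.rpow_pos_of_pos hc _
    calc 4 * M * c = 4 * M * (c ^ (3 / 4 : ℝ) * c ^ (1 / 4 : ℝ)) := by rw [← h3]
      _ ≤ 4 * M * (c ^ (3 / 4 : ℝ) * (m / (8 * M))) := by gcongr
      _ = m * c ^ (3 / 4 : ℝ) / 2 := by field_simp; ring
      _ < m * c ^ (3 / 4 : ℝ) := by
        have : 0 < m * c ^ (3 / 4 : ℝ) := by positivity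
        linarith
  have hm' : 0 < m * (c / 2) ^ (3 / 4 : ℝ) := by positivity
  obtain ⟨C, hC, hlog⟩ := logderiv_bound c (c / 2) (by linarith) (by linarith)
    (max M (m * (c / 2) ^ (3 / 4 : ℝ))) (m * (c / 2) ^ (3 / 4 : ℝ)) hm' (le_max_right _ _)
  refine ⟨c / 2, C, by linarith, by linarith, hC, fun g hg hgM hgm w hw => ?_⟩
  have hne : ∀ w : ℂ, ‖w‖ ≤ c → g w ≠ 0 := by
    intro w hw h0
    have h1 := CAb_norm_le hg hgM hc hc4 hw h0
    have h2 := hgm c hc (by linarith)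
    linarith
  refine ⟨hne w (by linarith), ?_⟩
  have hsub : ball (0 : ℂ) c ⊆ ball 0 1 := ball_subset_ball (by linarith)
  refine hlog g ((c / 2 : ℝ) : ℂ) (hg.mono hsub) (fun z hz => ⟨hne z ?_, ?_⟩) ?_ ?_ w hw
  · exact (mem_ball_zero_iff.1 hz).le
  · exact (hgM z (hsub hz)).trans (le_max_left _ _)
  · rw [Complex.norm_real, Real.norm_eq_abs, abs_of_pos (by linarith)]
  · exact hgm (c / 2) (by linarith) (by linarith)

/-- **At most one zero.** The lower bound `m v` to the right.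

Proof. Let `c` be small in terms of `M`, `m`. If `g` has two zeros (or a double zero) in `ball 0 c` then
`g w = (w - w₁) (w - w₂) k w` with `|k| ≤ C M` on `ball 0 (1 / 2)` (maximum principle), so `m c ≤ ‖g c‖ ≤ 4 C M c ^ 2`, a
contradiction. If there is no zero in the closed ball of radius `c'`: `logderiv_bound` with `R = c'`, `ρ = c' / 2`,
`w₀ = c' / 2`. If there is one zero `w₀` (with `‖w₀‖ ≤ c'`) then `g w = (w - w₀) k w`, `k` has no zeros in `ball 0 c`,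
`|k| ≤ C M`, `|k (c / 2)| ≥ m / 4`; `logderiv_bound` for `k`. -/
theorem one_zero (M m : ℝ) (hM : 0 < M) (hm : 0 < m) : ∃ c : ℝ, 0 < c ∧ c < 1 ∧ ∀ c' : ℝ, 0 < c' → c' ≤ c / 2 →
    ∃ C : ℝ, 0 < C ∧ ∀ g : ℂ → ℂ, DifferentiableOn ℂ g (ball 0 1) → (∀ w ∈ ball (0 : ℂ) 1, ‖g w‖ ≤ M) →
      (∀ v : ℝ, 0 < v → v < 1 → m * v ≤ ‖g v‖) →
        (∀ w : ℂ, ‖w‖ ≤ c' → g w ≠ 0) ∧ (∀ w : ℂ, ‖w‖ ≤ c' / 2 → ‖deriv g w / g w‖ ≤ C) ∨
        ∃ w₀ : ℂ, ‖w₀‖ ≤ c' ∧ g w₀ = 0 ∧ ∀ w : ℂ, ‖w‖ ≤ c → w ≠ w₀ → g w ≠ 0 ∧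
          (‖w‖ ≤ c / 2 → ‖deriv g w / g w - 1 / (w - w₀)‖ ≤ C) := by
  obtain ⟨c, hc, hc4, hcm⟩ : ∃ c : ℝ, 0 < c ∧ c ≤ 1 / 4 ∧ 16 * M * c < m := by
    refine ⟨min (1 / 4) (m / (32 * M)), lt_min (by norm_num) (by positivity), min_le_left _ _, ?_⟩
    have h1 : min (1 / 4) (m / (32 * M)) ≤ m / (32 * M) := min_le_right _ _
    calc 16 * M * min (1 / 4) (m / (32 * M)) ≤ 16 * M * (m / (32 * M)) := by gcongr
      _ = m / 2 := by field_simp; ring
      _ < m := by linarith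
  refine ⟨c, hc, by linarith, fun c' hc' hcc' => ?_⟩
  obtain ⟨C₁, hC₁, hlog₁⟩ := logderiv_bound c' (c' / 2) (by linarith) (by linarith)
    (max M (m * (c' / 2))) (m * (c' / 2)) (by positivity) (le_max_right _ _)
  obtain ⟨C₂, hC₂, hlog₂⟩ := logderiv_bound c (c / 2) (by linarith) (by linarith)
    (max (2 * M) (m / 2)) (m / 2) (by positivity) (le_max_right _ _)
  refine ⟨max C₁ C₂, lt_max_of_lt_left hC₁, fun g hg hgM hgm => ?_⟩
  by_cases hzero : ∀ w : ℂ, ‖w‖ ≤ c' → g w ≠ 0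
  · left
    refine ⟨hzero, fun w hw => ?_⟩
    have hsub : ball (0 : ℂ) c' ⊆ ball 0 1 := ball_subset_ball (by linarith)
    refine (hlog₁ g ((c' / 2 : ℝ) : ℂ) (hg.mono hsub) (fun z hz => ⟨hzero z ?_, ?_⟩) ?_ ?_ w
      hw).trans (le_max_left _ _)
    · exact (mem_ball_zero_iff.1 hz).le
    · exact (hgM z (hsub hz)).trans (le_max_left _ _)
    · rw [Complex.norm_real, Real.norm_eq_abs, abs_of_pos (by linarith)]
    · exact hgm (c' / 2) (by linarith) (by linarith)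
  · right
    push Not at hzero
    obtain ⟨w₀, hw₀, hgw₀⟩ := hzero
    obtain ⟨hk, hkM, hgk⟩ := CAb_dslope hg hgM (by linarith : ‖w₀‖ ≤ 1 / 4) hgw₀
    have hkne : ∀ w : ℂ, ‖w‖ ≤ c → dslope g w₀ w ≠ 0 := by
      intro w hw h0
      have h1 := CAb_norm_le hk hkM hc hc4 hw h0
      have h2 := hgm c hc (by linarith)
      rw [hgk, norm_mul] at h2
      have h3 : ‖(c : ℂ) - w₀‖ ≤ 2 * c := by
        refine (norm_sub_le _ _).trans ?_
        rw [Complex.norm_real, Real.norm_eq_abs, abs_of_pos hc]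
        linarith
      have h4 : ‖(c : ℂ) - w₀‖ * ‖dslope g w₀ c‖ ≤ (2 * c) * (4 * (2 * M) * c) :=
        mul_le_mul h3 h1 (norm_nonneg _) (by linarith)
      have h5 : m * c ≤ (16 * M * c) * c := by
        calc m * c ≤ (2 * c) * (4 * (2 * M) * c) := h2.trans h4
          _ = (16 * M * c) * c := by ring
      have h6 : m ≤ 16 * M * c := le_of_mul_le_mul_right h5 hc
      linarith
    refine ⟨w₀, hw₀, hgw₀, fun w hw hne => ?_⟩
    have hgne : g w ≠ 0 := by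
      rw [hgk w]
      exact mul_ne_zero (sub_ne_zero.2 hne) (hkne w hw)
    refine ⟨hgne, fun hw2 => ?_⟩
    have hsub : ball (0 : ℂ) c ⊆ ball 0 1 := ball_subset_ball (by linarith)
    have h1 := hlog₂ (dslope g w₀) ((c / 2 : ℝ) : ℂ) (hk.mono hsub)
      (fun z hz => ⟨hkne z (mem_ball_zero_iff.1 hz).le, (hkM z (hsub hz)).trans (le_max_left _ _)⟩)
      (by rw [Complex.norm_real, Real.norm_eq_abs, abs_of_pos (by linarith)]) (by
        have h2 := hgm (c / 2) (by linarith) (by linarith)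
        rw [hgk, norm_mul] at h2
        have h3 : ‖((c / 2 : ℝ) : ℂ) - w₀‖ ≤ c := by
          refine (norm_sub_le _ _).trans ?_
          rw [Complex.norm_real, Real.norm_eq_abs, abs_of_pos (by linarith)]
          linarith
        have h4 : m * (c / 2) ≤ c * ‖dslope g w₀ ((c / 2 : ℝ) : ℂ)‖ :=
          h2.trans (mul_le_mul_of_nonneg_right h3 (norm_nonneg _))
        have h5 : c * (m / 2) ≤ c * ‖dslope g w₀ ((c / 2 : ℝ) : ℂ)‖ := by
          calc c * (m / 2) = m * (c / 2) := by ring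
            _ ≤ _ := h4
        exact le_of_mul_le_mul_left h5 hc) w hw2
    have hwb : w ∈ ball (0 : ℂ) 1 := by
      rw [mem_ball_zero_iff]
      linarith
    have hkd : DifferentiableAt ℂ (dslope g w₀) w := hk.differentiableAt (isOpen_ball.mem_nhds hwb)
    have hfun : g = fun z => (z - w₀) * dslope g w₀ z := funext hgk
    have hd : deriv g w = dslope g w₀ w + (w - w₀) * deriv (dslope g w₀) w := by
      have h2 : HasDerivAt (fun z => (z - w₀) * dslope g w₀ z)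
          (1 * dslope g w₀ w + (w - w₀) * deriv (dslope g w₀) w) w :=
        ((hasDerivAt_id w).sub_const w₀).mul hkd.hasDerivAt
      rw [← hfun] at h2
      rw [h2.deriv, one_mul]
    have hw1 : w - w₀ ≠ 0 := sub_ne_zero.2 hne
    have hk1 : dslope g w₀ w ≠ 0 := hkne w hw
    have h6 : deriv g w / g w - 1 / (w - w₀) = deriv (dslope g w₀) w / dslope g w₀ w := by
      rw [hd, hgk w]
      field_simp
      ring
    rw [h6]
    exact h1.trans (le_max_right _ _)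

end Pool.Agent.M58
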