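import Pool.Agent.W_b58c63_m1.DMvB

/-!
# Duality with a majorant (Halász, Montgomery) (helper68)
-/

set_option autoImplicit false

noncomputable section

open Finset MeasureTheory

namespace Pool.Agent.M58

theorem DHm_nit {n : ℕ} (hn : n ≠ 0) (t : ℝ) :
    nit n t = Complex.exp ((-(t * Real.log n) : ℝ) * Complex.I) := by
  have hn' : (n : ℂ) ≠ 0 := by exact_mod_cast hn
  unfold nit
  rw [Complex.cpow_def_of_ne_zero hn', ← Complex.natCast_log]
  congr 1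
  push_cast
  ring

theorem DHm_norm {n : ℕ} (hn : n ≠ 0) (t : ℝ) : ‖nit n t‖ = 1 := by
  rw [DHm_nit hn, Complex.norm_exp_ofReal_mul_I]

theorem DHm_cont {n : ℕ} (hn : n ≠ 0) : Continuous (nit n) := by
  have h : nit n = fun t : ℝ => Complex.exp ((-(t * Real.log n) : ℝ) * Complex.I) :=
    funext fun t => DHm_nit hn t
  rw [h]
  fun_prop

theorem DHm_conj {n : ℕ} (hn : n ≠ 0) (t : ℝ) : (starRingEnd ℂ) (nit n t) = nit n (-t) := by
  rw [DHm_nit hn, DHm_nit hn, ← Complex.exp_conj, map_mul, Complex.conj_ofReal, Complex.conj_I]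
  congr 1
  push_cast
  ring

theorem DHm_sub {n : ℕ} (hn : n ≠ 0) (t s : ℝ) :
    nit n (t - s) = nit n t * (starRingEnd ℂ) (nit n s) := by
  rw [DHm_conj hn, DHm_nit hn, DHm_nit hn, DHm_nit hn, ← Complex.exp_add]
  congr 1
  push_cast
  ring

theorem DHm_zero {t : ℝ} (ht : t ≠ 0) : nit 0 t = 0 := by
  unfold nit
  rw [Nat.cast_zero, Complex.zero_cpow]
  rw [neg_ne_zero]
  exact mul_ne_zero (by exact_mod_cast ht) Complex.I_ne_zero

/-- the polynomial over the nonzero members of `S` agrees outside `0` -/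
theorem DHm_filter (S : Finset ℕ) (f : ℕ → ℂ) {t : ℝ} (ht : t ≠ 0) :
    ∑ n ∈ S, f n * nit n t = ∑ n ∈ S.filter (fun n => n ≠ 0), f n * nit n t := by
  rw [Finset.sum_filter]
  refine Finset.sum_congr rfl fun n _ => ?_
  by_cases hn : n = 0
  · subst hn
    rw [DHm_zero ht]
    simp
  · rw [if_pos hn]

theorem DHm_integrable {α : Type} [TopologicalSpace α] [MeasurableSpace α] [OpensMeasurableSpace α]
    [SecondCountableTopology α] {μ : Measure α} [IsFiniteMeasure μ] {E : Type}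
    [NormedAddCommGroup E] {f : α → E} (hf : Continuous f) [SecondCountableTopologyEither α E]
    (C : ℝ) (h : ∀ x, ‖f x‖ ≤ C) : Integrable f μ :=
  Integrable.of_bound hf.aestronglyMeasurable C (Filter.Eventually.of_forall h)

theorem DHm_schur {ι : Type} (I : Finset ι) (μ : ι → Measure ℝ) [∀ i, IsFiniteMeasure (μ i)]
    (A : ι → ℝ → ℝ) (hA : ∀ i, Continuous (A i)) (MA : ι → ℝ) (hAb : ∀ i t, |A i t| ≤ MA i)
    (hMA : ∀ i, 0 ≤ MA i)
    (K : ι → ι → ℝ × ℝ → ℝ) (hK : ∀ i j, Continuous (K i j)) (MK : ι → ι → ℝ)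
    (hKb : ∀ i j z, |K i j z| ≤ MK i j) (hK0 : ∀ i j z, 0 ≤ K i j z)
    (hKs : ∀ i j z, K i j z = K j i z.swap) (Λ : ℝ)
    (hΛ : ∀ i ∈ I, ∀ᵐ t ∂(μ i), ∑ j ∈ I, ∫ s, K i j (t, s) ∂(μ j) ≤ Λ) :
    ∑ i ∈ I, ∑ j ∈ I, ∫ z, A i z.1 * A j z.2 * K i j z ∂((μ i).prod (μ j)) ≤
      Λ * ∑ i ∈ I, ∫ t, A i t ^ 2 ∂(μ i) := by
  have i1 : ∀ i j, Integrable (fun z : ℝ × ℝ => A i z.1 ^ 2 * K i j z) ((μ i).prod (μ j)) := by
    intro i j
    refine DHm_integrable ((((hA i).comp continuous_fst).pow 2).mul (hK i j))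
      (MA i ^ 2 * MK i j) fun z => ?_
    rw [norm_mul, norm_pow, Real.norm_eq_abs, Real.norm_eq_abs]
    exact mul_le_mul (pow_le_pow_left₀ (abs_nonneg _) (hAb i z.1) 2) (hKb i j z) (abs_nonneg _)
      (pow_nonneg (hMA i) 2)
  have i2 : ∀ i j, Integrable (fun z : ℝ × ℝ => A j z.2 ^ 2 * K i j z) ((μ i).prod (μ j)) := by
    intro i j
    refine DHm_integrable ((((hA j).comp continuous_snd).pow 2).mul (hK i j))
      (MA j ^ 2 * MK i j) fun z => ?_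
    rw [norm_mul, norm_pow, Real.norm_eq_abs, Real.norm_eq_abs]
    exact mul_le_mul (pow_le_pow_left₀ (abs_nonneg _) (hAb j z.2) 2) (hKb i j z) (abs_nonneg _)
      (pow_nonneg (hMA j) 2)
  have i3 : ∀ i j, Integrable (fun z : ℝ × ℝ => A i z.1 * A j z.2 * K i j z)
      ((μ i).prod (μ j)) := by
    intro i j
    refine DHm_integrable ((((hA i).comp continuous_fst).mul ((hA j).comp continuous_snd)).mul
      (hK i j)) (MA i * MA j * MK i j) fun z => ?_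
    rw [norm_mul, norm_mul, Real.norm_eq_abs, Real.norm_eq_abs, Real.norm_eq_abs]
    exact mul_le_mul (mul_le_mul (hAb i z.1) (hAb j z.2) (abs_nonneg _) (hMA i)) (hKb i j z)
      (abs_nonneg _) (mul_nonneg (hMA i) (hMA j))
  have e1 : ∀ i j, ∫ z, A i z.1 * A j z.2 * K i j z ∂((μ i).prod (μ j)) ≤
      (1 / 2) * ∫ z, A i z.1 ^ 2 * K i j z ∂((μ i).prod (μ j)) +
      (1 / 2) * ∫ z, A j z.2 ^ 2 * K i j z ∂((μ i).prod (μ j)) := by
    intro i j
    rw [← integral_const_mul, ← integral_const_mul,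
      ← integral_add ((i1 i j).const_mul _) ((i2 i j).const_mul _)]
    refine integral_mono (i3 i j) (((i1 i j).const_mul _).add ((i2 i j).const_mul _)) fun z => ?_
    have h1 := hK0 i j z
    have h2 : A i z.1 * A j z.2 ≤ (A i z.1 ^ 2 + A j z.2 ^ 2) / 2 := by
      nlinarith [sq_nonneg (A i z.1 - A j z.2)]
    have h3 := mul_le_mul_of_nonneg_right h2 h1
    linarith
  have e2 : ∀ i j, ∫ z, A j z.2 ^ 2 * K i j z ∂((μ i).prod (μ j)) =
      ∫ z, A j z.1 ^ 2 * K j i z ∂((μ j).prod (μ i)) := by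
    intro i j
    rw [← integral_prod_swap (μ := μ j) (ν := μ i)]
    refine integral_congr_ae (Filter.Eventually.of_forall fun z => ?_)
    simp only
    rw [hKs j i z.swap, Prod.swap_swap, Prod.fst_swap]
  have e3 : ∀ i ∈ I, ∑ j ∈ I, ∫ z, A i z.1 ^ 2 * K i j z ∂((μ i).prod (μ j)) ≤
      Λ * ∫ t, A i t ^ 2 ∂(μ i) := by
    intro i hi
    have f1 : ∀ j ∈ I, ∫ z, A i z.1 ^ 2 * K i j z ∂((μ i).prod (μ j)) =
        ∫ t, A i t ^ 2 * ∫ s, K i j (t, s) ∂(μ j) ∂(μ i) := by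
      intro j _
      rw [integral_prod _ (i1 i j)]
      refine integral_congr_ae (Filter.Eventually.of_forall fun t => ?_)
      simp only
      rw [integral_const_mul]
    have f2 : ∀ j ∈ I, Integrable (fun t => A i t ^ 2 * ∫ s, K i j (t, s) ∂(μ j)) (μ i) := by
      intro j _
      have := (i1 i j).integral_prod_left
      refine this.congr (Filter.Eventually.of_forall fun t => ?_)
      simp only
      rw [integral_const_mul]
    rw [Finset.sum_congr rfl f1, ← integral_finsetSum I f2, ← integral_const_mul]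
    refine integral_mono_ae (integrable_finsetSum I f2) ?_ ?_
    · refine Integrable.const_mul (DHm_integrable ((hA i).pow 2) (MA i ^ 2) fun t => ?_) Λ
      show ‖A i t ^ 2‖ ≤ MA i ^ 2
      rw [norm_pow, Real.norm_eq_abs]
      exact pow_le_pow_left₀ (abs_nonneg _) (hAb i t) 2
    · filter_upwards [hΛ i hi] with t ht
      rw [← Finset.mul_sum, mul_comm Λ]
      exact mul_le_mul_of_nonneg_left ht (sq_nonneg _)
  calc ∑ i ∈ I, ∑ j ∈ I, ∫ z, A i z.1 * A j z.2 * K i j z ∂((μ i).prod (μ j))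
      ≤ ∑ i ∈ I, ∑ j ∈ I, ((1 / 2) * ∫ z, A i z.1 ^ 2 * K i j z ∂((μ i).prod (μ j)) +
        (1 / 2) * ∫ z, A j z.1 ^ 2 * K j i z ∂((μ j).prod (μ i))) := by
        refine Finset.sum_le_sum fun i _ => Finset.sum_le_sum fun j _ => ?_
        have := e1 i j
        rw [e2 i j] at this
        exact this
    _ = (1 / 2) * ∑ i ∈ I, ∑ j ∈ I, ∫ z, A i z.1 ^ 2 * K i j z ∂((μ i).prod (μ j)) +
        (1 / 2) * ∑ i ∈ I, ∑ j ∈ I, ∫ z, A j z.1 ^ 2 * K j i z ∂((μ j).prod (μ i)) := by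
        simp only [Finset.sum_add_distrib, Finset.mul_sum]
    _ = ∑ i ∈ I, ∑ j ∈ I, ∫ z, A i z.1 ^ 2 * K i j z ∂((μ i).prod (μ j)) := by
        rw [Finset.sum_comm (f := fun i j => ∫ z, A j z.1 ^ 2 * K j i z ∂((μ j).prod (μ i)))]
        ring
    _ ≤ ∑ i ∈ I, Λ * ∫ t, A i t ^ 2 ∂(μ i) := Finset.sum_le_sum e3
    _ = Λ * ∑ i ∈ I, ∫ t, A i t ^ 2 ∂(μ i) := by rw [Finset.mul_sum]

theorem DHm_core {ι : Type} (I : Finset ι) (μ : ι → Measure ℝ) [∀ i, IsFiniteMeasure (μ i)]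
    (S : Finset ℕ) (hS : ∀ n ∈ S, n ≠ 0) (x : ι → ℕ → ℂ) (a : ℕ → ℂ) (ν : ℕ → ℝ)
    (hν : ∀ n ∈ S, 0 < ν n) (Λ : ℝ) (hΛ0 : 0 ≤ Λ)
    (hΛ : ∀ i ∈ I, ∀ᵐ t ∂(μ i), ∑ j ∈ I, ∫ s,
      ‖∑ n ∈ S, (ν n : ℂ) * (x i n * (starRingEnd ℂ) (x j n)) * nit n (t - s)‖ ∂(μ j) ≤ Λ) :
    ∑ i ∈ I, ∫ t, ‖∑ n ∈ S, a n * x i n * nit n t‖ ^ 2 ∂(μ i) ≤
      (∑ n ∈ S, ‖a n‖ ^ 2 / ν n) * Λ := by
  -- the polynomials
  obtain ⟨A, hA⟩ : ∃ A : ι → ℝ → ℂ, ∀ i t, A i t = ∑ n ∈ S, a n * x i n * nit n t :=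
    ⟨_, fun _ _ => rfl⟩
  have hAc : ∀ i, Continuous (A i) := by
    intro i
    have h1 : A i = fun t => ∑ n ∈ S, a n * x i n * nit n t := funext (hA i)
    rw [h1]
    exact continuous_finsetSum _ fun n hn => continuous_const.mul (DHm_cont (hS n hn))
  have hAb : ∀ i t, ‖A i t‖ ≤ ∑ n ∈ S, ‖a n * x i n‖ := by
    intro i t
    rw [hA]
    refine (norm_sum_le _ _).trans (Finset.sum_le_sum fun n hn => ?_)
    rw [norm_mul, DHm_norm (hS n hn), mul_one]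
  -- the kernel
  obtain ⟨k, hk⟩ : ∃ k : ι → ι → ℝ → ℂ, ∀ i j u, k i j u =
      ∑ n ∈ S, (ν n : ℂ) * (x i n * (starRingEnd ℂ) (x j n)) * nit n u := ⟨_, fun _ _ _ => rfl⟩
  have hkc : ∀ i j, Continuous (k i j) := by
    intro i j
    have h1 : k i j = fun u => ∑ n ∈ S, (ν n : ℂ) * (x i n * (starRingEnd ℂ) (x j n)) * nit n u :=
      funext (hk i j)
    rw [h1]
    exact continuous_finsetSum _ fun n hn => continuous_const.mul (DHm_cont (hS n hn))
  have hkb : ∀ i j u, ‖k i j u‖ ≤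
      ∑ n ∈ S, ‖(ν n : ℂ) * (x i n * (starRingEnd ℂ) (x j n))‖ := by
    intro i j u
    rw [hk]
    refine (norm_sum_le _ _).trans (Finset.sum_le_sum fun n hn => ?_)
    rw [norm_mul, DHm_norm (hS n hn), mul_one]
  have hks : ∀ i j u, k i j u = (starRingEnd ℂ) (k j i (-u)) := by
    intro i j u
    rw [hk, hk, map_sum]
    refine Finset.sum_congr rfl fun n hn => ?_
    rw [map_mul, map_mul, map_mul, Complex.conj_ofReal, Complex.conj_conj, DHm_conj (hS n hn),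
      neg_neg]
    ring
  -- the functions `φ i n`
  obtain ⟨φ, hφ⟩ : ∃ φ : ι → ℕ → ℝ → ℂ, ∀ i n t, φ i n t =
      x i n * nit n t * (starRingEnd ℂ) (A i t) := ⟨_, fun _ _ _ => rfl⟩
  have hφc : ∀ i, ∀ n ∈ S, Continuous (φ i n) := by
    intro i n hn
    have h1 : φ i n = fun t => x i n * nit n t * (starRingEnd ℂ) (A i t) := funext (hφ i n)
    rw [h1]
    exact (continuous_const.mul (DHm_cont (hS n hn))).mul (Complex.continuous_conj.comp (hAc i))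
  have hφi : ∀ (i : ι), ∀ n ∈ S, Integrable (φ i n) (μ i) := by
    intro i n hn
    refine DHm_integrable (hφc i n hn) (‖x i n‖ * ∑ m ∈ S, ‖a m * x i m‖) fun t => ?_
    rw [hφ, norm_mul, norm_mul, DHm_norm (hS n hn), mul_one, RCLike.norm_conj]
    exact mul_le_mul_of_nonneg_left (hAb i t) (norm_nonneg _)
  obtain ⟨c, hc⟩ : ∃ c : ℕ → ℂ, ∀ n, c n = ∑ i ∈ I, ∫ t, φ i n t ∂(μ i) := ⟨_, fun _ => rfl⟩
  obtain ⟨Q, hQ⟩ : ∃ Q : ℝ, Q = ∑ i ∈ I, ∫ t, ‖A i t‖ ^ 2 ∂(μ i) := ⟨_, rfl⟩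
  have hQ0 : 0 ≤ Q := by
    rw [hQ]
    exact Finset.sum_nonneg fun i _ => integral_nonneg fun t => sq_nonneg _
  -- step 1
  have s1 : (Q : ℂ) = ∑ n ∈ S, a n * c n := by
    have h1 : ∀ i, ((∫ t, ‖A i t‖ ^ 2 ∂(μ i) : ℝ) : ℂ) = ∑ n ∈ S, a n * ∫ t, φ i n t ∂(μ i) := by
      intro i
      rw [← integral_complex_ofReal]
      have h2 : ∀ t, ((‖A i t‖ ^ 2 : ℝ) : ℂ) = ∑ n ∈ S, a n * φ i n t := by
        intro t
        have h3 : ((‖A i t‖ ^ 2 : ℝ) : ℂ) = A i t * (starRingEnd ℂ) (A i t) := by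
          rw [Complex.mul_conj, Complex.normSq_eq_norm_sq]
        rw [h3]
        nth_rewrite 1 [hA i t]
        rw [Finset.sum_mul]
        refine Finset.sum_congr rfl fun n _ => ?_
        rw [hφ]
        ring
      have h4 : (fun t => ((‖A i t‖ ^ 2 : ℝ) : ℂ)) = fun t => ∑ n ∈ S, a n * φ i n t := funext h2
      rw [h4, integral_finsetSum S fun n hn => (hφi i n hn).const_mul (a n)]
      refine Finset.sum_congr rfl fun n _ => ?_
      rw [integral_const_mul]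
    rw [hQ, Complex.ofReal_sum, Finset.sum_congr rfl fun i _ => h1 i, Finset.sum_comm]
    refine Finset.sum_congr rfl fun n _ => ?_
    rw [hc, Finset.mul_sum]
  -- step 2
  have s2 : Q ^ 2 ≤ (∑ n ∈ S, ‖a n‖ ^ 2 / ν n) * ∑ n ∈ S, ν n * ‖c n‖ ^ 2 := by
    have h1 : Q ≤ ∑ n ∈ S, (‖a n‖ / √(ν n)) * (√(ν n) * ‖c n‖) := by
      have h2 : Q = ‖(Q : ℂ)‖ := by
        rw [Complex.norm_real, Real.norm_of_nonneg hQ0]
      rw [h2, s1]
      refine (norm_sum_le _ _).trans (Finset.sum_le_sum fun n hn => ?_)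
      have h3 : √(ν n) ≠ 0 := (Real.sqrt_pos.2 (hν n hn)).ne'
      rw [norm_mul]
      apply le_of_eq
      field_simp
    have h4 := Finset.sum_mul_sq_le_sq_mul_sq S (fun n => ‖a n‖ / √(ν n))
      (fun n => √(ν n) * ‖c n‖)
    have h5 : ∑ n ∈ S, (‖a n‖ / √(ν n)) ^ 2 = ∑ n ∈ S, ‖a n‖ ^ 2 / ν n := by
      refine Finset.sum_congr rfl fun n hn => ?_
      rw [div_pow, Real.sq_sqrt (hν n hn).le]
    have h6 : ∑ n ∈ S, (√(ν n) * ‖c n‖) ^ 2 = ∑ n ∈ S, ν n * ‖c n‖ ^ 2 := by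
      refine Finset.sum_congr rfl fun n hn => ?_
      rw [mul_pow, Real.sq_sqrt (hν n hn).le]
    rw [h5, h6] at h4
    exact (pow_le_pow_left₀ hQ0 h1 2).trans h4
  -- step 3
  have s3 : ∑ n ∈ S, ν n * ‖c n‖ ^ 2 ≤ ∑ i ∈ I, ∑ j ∈ I,
      ∫ z, ‖A i z.1‖ * ‖A j z.2‖ * ‖k i j (z.1 - z.2)‖ ∂((μ i).prod (μ j)) := by
    have h0 : 0 ≤ ∑ n ∈ S, ν n * ‖c n‖ ^ 2 :=
      Finset.sum_nonneg fun n hn => mul_nonneg (hν n hn).le (sq_nonneg _)
    have hint : ∀ i j, ∀ n ∈ S, Integrable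
        (fun z : ℝ × ℝ => (ν n : ℂ) * (φ i n z.1 * (starRingEnd ℂ) (φ j n z.2)))
        ((μ i).prod (μ j)) := by
      intro i j n hn
      have h1 : Integrable (fun s => (starRingEnd ℂ) (φ j n s)) (μ j) :=
        (hφi j n hn).congr' (Complex.continuous_conj.comp (hφc j n hn)).aestronglyMeasurable
          (Filter.Eventually.of_forall fun t => by simp)
      exact ((hφi i n hn).mul_prod h1).const_mul _
    have h1 : ((∑ n ∈ S, ν n * ‖c n‖ ^ 2 : ℝ) : ℂ) = ∑ i ∈ I, ∑ j ∈ I,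
        ∫ z, (starRingEnd ℂ) (A i z.1) * A j z.2 * k i j (z.1 - z.2) ∂((μ i).prod (μ j)) := by
      have h2 : ∀ i j, ∫ z, (starRingEnd ℂ) (A i z.1) * A j z.2 * k i j (z.1 - z.2)
          ∂((μ i).prod (μ j)) = ∑ n ∈ S, (ν n : ℂ) * ((∫ t, φ i n t ∂(μ i)) *
            (starRingEnd ℂ) (∫ s, φ j n s ∂(μ j))) := by
        intro i j
        have h3 : ∀ z : ℝ × ℝ, (starRingEnd ℂ) (A i z.1) * A j z.2 * k i j (z.1 - z.2) =
            ∑ n ∈ S, (ν n : ℂ) * (φ i n z.1 * (starRingEnd ℂ) (φ j n z.2)) := by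
          intro z
          rw [hk, Finset.mul_sum]
          refine Finset.sum_congr rfl fun n hn => ?_
          rw [DHm_sub (hS n hn), hφ, hφ, map_mul, map_mul, Complex.conj_conj]
          ring
        rw [integral_congr_ae (Filter.Eventually.of_forall h3),
          integral_finsetSum S (hint i j)]
        refine Finset.sum_congr rfl fun n _ => ?_
        rw [integral_const_mul, integral_prod_mul (μ := μ i) (ν := μ j) (φ i n)
          (fun s => (starRingEnd ℂ) (φ j n s)), integral_conj]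
      rw [Complex.ofReal_sum]
      have h4 : ∀ n ∈ S, ((ν n * ‖c n‖ ^ 2 : ℝ) : ℂ) = ∑ i ∈ I, ∑ j ∈ I,
          (ν n : ℂ) * ((∫ t, φ i n t ∂(μ i)) * (starRingEnd ℂ) (∫ s, φ j n s ∂(μ j))) := by
        intro n _
        have h5 : ((ν n * ‖c n‖ ^ 2 : ℝ) : ℂ) = (ν n : ℂ) * (c n * (starRingEnd ℂ) (c n)) := by
          rw [Complex.mul_conj, Complex.normSq_eq_norm_sq]
          push_cast
          rfl
        rw [h5, hc, map_sum, Finset.sum_mul_sum, Finset.mul_sum]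
        refine Finset.sum_congr rfl fun i _ => ?_
        rw [Finset.mul_sum]
      rw [Finset.sum_congr rfl h4, Finset.sum_comm]
      refine Finset.sum_congr rfl fun i _ => ?_
      rw [Finset.sum_comm]
      refine Finset.sum_congr rfl fun j _ => ?_
      rw [h2]
    have h6 : ∑ n ∈ S, ν n * ‖c n‖ ^ 2 = ‖((∑ n ∈ S, ν n * ‖c n‖ ^ 2 : ℝ) : ℂ)‖ := by
      rw [Complex.norm_real, Real.norm_of_nonneg h0]
    rw [h6, h1]
    refine (norm_sum_le _ _).trans (Finset.sum_le_sum fun i _ => ?_)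
    refine (norm_sum_le _ _).trans (Finset.sum_le_sum fun j _ => ?_)
    refine (norm_integral_le_integral_norm _).trans (le_of_eq ?_)
    refine integral_congr_ae (Filter.Eventually.of_forall fun z => ?_)
    simp only [norm_mul, RCLike.norm_conj]
  -- step 4
  have s4 := DHm_schur I μ (fun i t => ‖A i t‖) (fun i => (hAc i).norm)
    (fun i => ∑ n ∈ S, ‖a n * x i n‖) (fun i t => by rw [abs_norm]; exact hAb i t)
    (fun i => Finset.sum_nonneg fun n _ => norm_nonneg _)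
    (fun i j z => ‖k i j (z.1 - z.2)‖) (fun i j => ((hkc i j).comp (by fun_prop)).norm)
    (fun i j => ∑ n ∈ S, ‖(ν n : ℂ) * (x i n * (starRingEnd ℂ) (x j n))‖)
    (fun i j z => by rw [abs_norm]; exact hkb i j _)
    (fun i j z => norm_nonneg _)
    (fun i j z => by
      simp only [Prod.fst_swap, Prod.snd_swap]
      rw [hks i j, RCLike.norm_conj, neg_sub]) Λ
    (fun i hi => by
      filter_upwards [hΛ i hi] with t ht
      refine le_trans (le_of_eq ?_) ht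
      refine Finset.sum_congr rfl fun j _ => ?_
      refine integral_congr_ae (Filter.Eventually.of_forall fun s => ?_)
      simp only [hk])
  rw [← hQ] at s4
  have hB0 : 0 ≤ ∑ n ∈ S, ‖a n‖ ^ 2 / ν n :=
    Finset.sum_nonneg fun n hn => div_nonneg (sq_nonneg _) (hν n hn).le
  have s5 : Q ^ 2 ≤ (∑ n ∈ S, ‖a n‖ ^ 2 / ν n) * (Λ * Q) :=
    s2.trans (mul_le_mul_of_nonneg_left (s3.trans s4) hB0)
  have s6 : Q ≤ (∑ n ∈ S, ‖a n‖ ^ 2 / ν n) * Λ := by
    rcases hQ0.eq_or_lt with h | h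
    · rw [← h]
      exact mul_nonneg hB0 hΛ0
    · have h1 : Q * Q ≤ ((∑ n ∈ S, ‖a n‖ ^ 2 / ν n) * Λ) * Q := by
        calc Q * Q = Q ^ 2 := by ring
          _ ≤ (∑ n ∈ S, ‖a n‖ ^ 2 / ν n) * (Λ * Q) := s5
          _ = ((∑ n ∈ S, ‖a n‖ ^ 2 / ν n) * Λ) * Q := by ring
      exact le_of_mul_le_mul_right h1 h
  refine le_trans (le_of_eq ?_) s6
  rw [hQ]
  refine Finset.sum_congr rfl fun i _ => ?_
  refine integral_congr_ae (Filter.Eventually.of_forall fun t => ?_)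
  simp only [hA]

/-- **Duality.** `E i` are measurable subsets of `[- T, T]`, `ν > 0` is a majorant on `S`, `Λ ≥ 0`
(needed if all `E i` are empty).

Proof. Let `A i t = ∑_{n ∈ S} a n x i n n ^ (- i t)`, `I = ∑_i ∫_{E i} |A i| ^ 2`. Then
`I = ∑_{n ∈ S} a n c n` with `c n = ∑_i ∫_{E i} x i n n ^ (- i t) conj (A i t) dt`, so
`I ^ 2 ≤ (∑ |a n| ^ 2 / ν n) (∑ ν n |c n| ^ 2)`. Expand `|c n| ^ 2`:
`∑_n ν n |c n| ^ 2 = ∑_{i, j} ∫_{E i} ∫_{E j} conj (A i t) (A j s) k_{i j} (t - s) ds dt`,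
`k_{i j} (u) = ∑ ν n x i n conj (x j n) n ^ (- i u)`, and with `2 |A i t| |A j s| ≤ |A i t| ^ 2 + |A j s| ^ 2` (the kernel is
Hermitian) it is at most `Λ I`. So `I ≤ (∑ |a| ^ 2 / ν) Λ`. All functions are continuous and bounded, the sets bounded and
measurable. -/
theorem halasz {ι : Type} (I : Finset ι) (E : ι → Set ℝ) (T : ℝ) (hE : ∀ i ∈ I, MeasurableSet (E i))
    (hE' : ∀ i ∈ I, E i ⊆ Set.Icc (-T) T) (S : Finset ℕ) (x : ι → ℕ → ℂ) (a : ℕ → ℂ) (ν : ℕ → ℝ)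
    (hν : ∀ n ∈ S, 0 < ν n) (Λ : ℝ) (hΛ0 : 0 ≤ Λ)
    (hΛ : ∀ i ∈ I, ∀ t ∈ E i, ∑ j ∈ I, ∫ s in E j,
      ‖∑ n ∈ S, (ν n : ℂ) * (x i n * (starRingEnd ℂ) (x j n)) * nit n (t - s)‖ ≤ Λ) :
    ∑ i ∈ I, ∫ t in E i, ‖∑ n ∈ S, a n * x i n * nit n t‖ ^ 2 ≤
      (∑ n ∈ S, ‖a n‖ ^ 2 / ν n) * Λ := by
  classical
  obtain ⟨E', hE1⟩ : ∃ E' : ι → Set ℝ, ∀ i, E' i = if i ∈ I then E i else ∅ := ⟨_, fun _ => rfl⟩
  have hE2 : ∀ i ∈ I, E' i = E i := fun i hi => by rw [hE1, if_pos hi]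
  have hfin : ∀ i, IsFiniteMeasure (volume.restrict (E' i)) := by
    intro i
    refine ⟨?_⟩
    rw [Measure.restrict_apply_univ]
    by_cases hi : i ∈ I
    · rw [hE2 i hi]
      exact (measure_mono (hE' i hi)).trans_lt measure_Icc_lt_top
    · rw [hE1, if_neg hi]
      simp
  have hne : ∀ t : ℝ, ∀ᵐ s : ℝ ∂volume, s ≠ t := by
    intro t
    rw [ae_iff]
    have h1 : {s : ℝ | ¬ s ≠ t} = {t} := by
      ext s
      simp
    rw [h1]
    exact measure_singleton t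
  obtain ⟨S', hS'⟩ : ∃ S' : Finset ℕ, S' = S.filter (fun n => n ≠ 0) := ⟨_, rfl⟩
  have hcore := DHm_core I (fun i => volume.restrict (E' i)) S'
    (fun n hn => by rw [hS', Finset.mem_filter] at hn; exact hn.2) x a ν
    (fun n hn => by rw [hS', Finset.mem_filter] at hn; exact hν n hn.1) Λ hΛ0 ?_
  · have hL : ∀ i ∈ I, ∫ t in E i, ‖∑ n ∈ S, a n * x i n * nit n t‖ ^ 2 =
        ∫ t, ‖∑ n ∈ S', a n * x i n * nit n t‖ ^ 2 ∂(volume.restrict (E' i)) := by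
      intro i hi
      rw [hE2 i hi]
      refine integral_congr_ae ?_
      filter_upwards [ae_restrict_of_ae (hne 0)] with t ht
      rw [DHm_filter S (fun n => a n * x i n) ht, hS']
    rw [Finset.sum_congr rfl hL]
    refine hcore.trans (mul_le_mul_of_nonneg_right ?_ hΛ0)
    rw [hS']
    exact Finset.sum_le_sum_of_subset_of_nonneg (Finset.filter_subset _ _) fun n hn _ =>
      div_nonneg (sq_nonneg _) (hν n hn).le
  · intro i hi
    have hmem : ∀ᵐ t ∂(volume.restrict (E' i)), t ∈ E i := by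
      rw [hE2 i hi]
      exact ae_restrict_mem (hE i hi)
    filter_upwards [hmem] with t ht
    refine le_trans (le_of_eq ?_) (hΛ i hi t ht)
    refine Finset.sum_congr rfl fun j hj => ?_
    rw [hE2 j hj]
    refine integral_congr_ae ?_
    filter_upwards [ae_restrict_of_ae (hne t)] with s hs
    have hts : t - s ≠ 0 := sub_ne_zero.2 (Ne.symm hs)
    rw [DHm_filter S (fun n => (ν n : ℂ) * (x i n * (starRingEnd ℂ) (x j n))) hts, hS']

end Pool.Agent.M58
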