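import Pool.Agent.W_b58c63_m1.Defs

/-!
# Mean values of Dirichlet polynomials (helper68)
-/

set_option autoImplicit false

noncomputable section

open Finset MeasureTheory

namespace Pool.Agent.M58

theorem DMv_nit (n : ℕ) (hn : n ≠ 0) (t : ℝ) :
    nit n t = Complex.exp ((-(t * Real.log n) : ℝ) * Complex.I) := by
  rw [nit, Complex.cpow_def_of_ne_zero (Nat.cast_ne_zero.2 hn), ← Complex.natCast_log]
  congr 1
  push_cast
  ring

theorem DMv_norm_nit (n : ℕ) (hn : n ≠ 0) (t : ℝ) : ‖nit n t‖ = 1 := by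
  rw [DMv_nit n hn, Complex.norm_exp_ofReal_mul_I]

theorem DMv_cont_nit (n : ℕ) (hn : n ≠ 0) : Continuous fun t : ℝ => nit n t := by
  have h : (fun t : ℝ => nit n t) = fun t : ℝ =>
      Complex.exp ((-(t * Real.log n) : ℝ) * Complex.I) := by
    funext t
    exact DMv_nit n hn t
  rw [h]
  fun_prop

theorem DMv_int (c : ℝ) (hc : c ≠ 0) (t₀ T : ℝ) :
    ‖∫ t in t₀..(t₀ + T), Complex.exp ((c * t : ℝ) * Complex.I)‖ ≤ 2 / |c| := by
  have hc' : (c : ℂ) * Complex.I ≠ 0 := mul_ne_zero (Complex.ofReal_ne_zero.2 hc) Complex.I_ne_zero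
  have h : ∀ t : ℝ, Complex.exp ((c * t : ℝ) * Complex.I) =
      Complex.exp ((c : ℂ) * Complex.I * (t : ℂ)) := by
    intro t
    congr 1
    push_cast
    ring
  simp_rw [h]
  rw [integral_exp_mul_complex hc', norm_div, norm_mul, Complex.norm_I, mul_one,
    Complex.norm_real, Real.norm_eq_abs]
  refine div_le_div_of_nonneg_right ?_ (abs_nonneg c)
  refine (norm_sub_le _ _).trans ?_
  have h1 : ∀ t : ℝ, ‖Complex.exp ((c : ℂ) * Complex.I * (t : ℂ))‖ = 1 := by
    intro t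
    rw [← h t, Complex.norm_exp_ofReal_mul_I]
  rw [h1, h1]
  norm_num

theorem DMv_log (M m n : ℕ) (hm0 : M < m) (hn0 : M < n) (hm : m ≤ 2 * M) (hn : n ≤ 2 * M)
    (hmn : m ≠ n) : Real.log n - Real.log m ≠ 0 ∧
      2 / |Real.log n - Real.log m| ≤ 4 * M * (1 / |(m : ℝ) - n|) := by
  have key : ∀ x y : ℕ, M < x → x < y → y ≤ 2 * M →
      0 < Real.log y - Real.log x ∧
        2 / (Real.log y - Real.log x) ≤ 4 * M * (1 / ((y : ℝ) - x)) := by
    intro x y hx hxy hy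
    have hx0 : (0 : ℝ) < x := by
      have : 0 < x := by omega
      exact_mod_cast this
    have hy0 : (0 : ℝ) < y := by
      have : 0 < y := by omega
      exact_mod_cast this
    have hxy' : (x : ℝ) < y := by exact_mod_cast hxy
    have hM0 : (0 : ℝ) < M := by
      have : 0 < M := by omega
      exact_mod_cast this
    have hy2 : (y : ℝ) ≤ 2 * M := by exact_mod_cast hy
    have h1 : ((y : ℝ) - x) / (2 * M) ≤ Real.log y - Real.log x := by
      rw [← Real.log_div hy0.ne' hx0.ne']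
      have h2 := Real.one_sub_inv_le_log_of_pos (div_pos hy0 hx0)
      refine le_trans ?_ h2
      rw [inv_div]
      have h3 : (1 : ℝ) - x / y = (y - x) / y := by
        field_simp
      rw [h3]
      exact div_le_div_of_nonneg_left (by linarith) hy0 hy2
    have h4 : 0 < ((y : ℝ) - x) / (2 * M) := div_pos (by linarith) (by linarith)
    refine ⟨lt_of_lt_of_le h4 h1, ?_⟩
    refine (div_le_div_of_nonneg_left (by norm_num) h4 h1).trans (le_of_eq ?_)
    have h5 : (y : ℝ) - x ≠ 0 := by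
      have : 0 < (y : ℝ) - x := by linarith
      exact this.ne'
    field_simp
    norm_num
  rcases lt_or_gt_of_ne hmn with h | h
  · obtain ⟨h1, h2⟩ := key m n hm0 h hn
    refine ⟨h1.ne', ?_⟩
    have h3 : |(m : ℝ) - n| = n - m := by
      rw [abs_sub_comm, abs_of_pos]
      have : (m : ℝ) < n := by exact_mod_cast h
      linarith
    rw [h3, abs_of_pos h1]
    exact h2
  · obtain ⟨h1, h2⟩ := key n m hn0 h hm
    refine ⟨?_, ?_⟩
    · intro h3
      linarith
    · have h3 : |(m : ℝ) - n| = m - n := by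
        rw [abs_of_pos]
        have : (n : ℝ) < m := by exact_mod_cast h
        linarith
      rw [h3, abs_sub_comm, abs_of_pos h1]
      exact h2

theorem DMv_harm (M : ℕ) : ∑ k ∈ range M, (1 : ℝ) / ((k : ℝ) + 1) ≤ 1 + Real.log M := by
  have h := harmonic_le_one_add_log M
  refine le_trans (le_of_eq ?_) h
  rw [harmonic]
  push_cast
  exact Finset.sum_congr rfl fun k _ => one_div _

theorem DMv_row (M m : ℕ) (hm0 : M < m) (hm : m ≤ 2 * M) :
    ∑ n ∈ (Ioc M (2 * M)).erase m, (1 : ℝ) / |(m : ℝ) - n| ≤ 2 * (1 + Real.log M) := by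
  classical
  have hsplit : (Ioc M (2 * M)).erase m ⊆
      ((Ioc M (2 * M)).filter fun n => n < m) ∪ ((Ioc M (2 * M)).filter fun n => m < n) := by
    intro n hn
    rw [mem_erase] at hn
    rw [mem_union, mem_filter, mem_filter]
    rcases lt_or_gt_of_ne hn.1 with h | h
    · exact Or.inl ⟨hn.2, h⟩
    · exact Or.inr ⟨hn.2, h⟩
  have h0 : ∀ n : ℕ, (0 : ℝ) ≤ 1 / |(m : ℝ) - n| := fun n => by positivity
  have h1 : ∑ n ∈ (Ioc M (2 * M)).filter (fun n => n < m), (1 : ℝ) / |(m : ℝ) - n| ≤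
      1 + Real.log M := by
    refine le_trans ?_ (DMv_harm M)
    have hinj : Set.InjOn (fun n : ℕ => m - n - 1)
        (((Ioc M (2 * M)).filter fun n => n < m : Finset ℕ) : Set ℕ) := by
      intro x hx y hy hxy
      have hx1 := (mem_filter.1 (Finset.mem_coe.1 hx)).2
      have hy1 := (mem_filter.1 (Finset.mem_coe.1 hy)).2
      simp only at hxy
      omega
    have h2 : ∑ n ∈ (Ioc M (2 * M)).filter (fun n => n < m), (1 : ℝ) / |(m : ℝ) - n| =
        ∑ k ∈ ((Ioc M (2 * M)).filter fun n => n < m).image (fun n : ℕ => m - n - 1),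
          (1 : ℝ) / ((k : ℝ) + 1) := by
      rw [Finset.sum_image hinj]
      refine Finset.sum_congr rfl fun n hn => ?_
      have hn1 := (mem_filter.1 hn).2
      congr 1
      have h3 : ((m - n - 1 : ℕ) : ℝ) + 1 = (m : ℝ) - n := by
        have h4 : (m - n - 1) + 1 + n = m := by omega
        have h5 : (((m - n - 1) + 1 + n : ℕ) : ℝ) = m := by rw [h4]
        push_cast at h5
        linarith
      rw [h3, abs_of_pos]
      have : (n : ℝ) < m := by exact_mod_cast hn1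
      linarith
    rw [h2]
    refine Finset.sum_le_sum_of_subset_of_nonneg ?_ fun k _ _ => by positivity
    intro k hk
    obtain ⟨n, hn, rfl⟩ := mem_image.1 hk
    have h6 := mem_filter.1 hn
    have h7 := mem_Ioc.1 h6.1
    rw [mem_range]
    omega
  have h1' : ∑ n ∈ (Ioc M (2 * M)).filter (fun n => m < n), (1 : ℝ) / |(m : ℝ) - n| ≤
      1 + Real.log M := by
    refine le_trans ?_ (DMv_harm M)
    have hinj : Set.InjOn (fun n : ℕ => n - m - 1)
        (((Ioc M (2 * M)).filter fun n => m < n : Finset ℕ) : Set ℕ) := by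
      intro x hx y hy hxy
      have hx1 := (mem_filter.1 (Finset.mem_coe.1 hx)).2
      have hy1 := (mem_filter.1 (Finset.mem_coe.1 hy)).2
      simp only at hxy
      omega
    have h2 : ∑ n ∈ (Ioc M (2 * M)).filter (fun n => m < n), (1 : ℝ) / |(m : ℝ) - n| =
        ∑ k ∈ ((Ioc M (2 * M)).filter fun n => m < n).image (fun n : ℕ => n - m - 1),
          (1 : ℝ) / ((k : ℝ) + 1) := by
      rw [Finset.sum_image hinj]
      refine Finset.sum_congr rfl fun n hn => ?_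
      have hn1 := (mem_filter.1 hn).2
      congr 1
      have h3 : ((n - m - 1 : ℕ) : ℝ) + 1 = (n : ℝ) - m := by
        have h4 : (n - m - 1) + 1 + m = n := by omega
        have h5 : (((n - m - 1) + 1 + m : ℕ) : ℝ) = n := by rw [h4]
        push_cast at h5
        linarith
      rw [h3, abs_sub_comm, abs_of_pos]
      have : (m : ℝ) < n := by exact_mod_cast hn1
      linarith
    rw [h2]
    refine Finset.sum_le_sum_of_subset_of_nonneg ?_ fun k _ _ => by positivity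
    intro k hk
    obtain ⟨n, hn, rfl⟩ := mem_image.1 hk
    have h6 := mem_filter.1 hn
    have h7 := mem_Ioc.1 h6.1
    rw [mem_range]
    omega
  calc ∑ n ∈ (Ioc M (2 * M)).erase m, (1 : ℝ) / |(m : ℝ) - n|
      ≤ ∑ n ∈ ((Ioc M (2 * M)).filter fun n => n < m) ∪
          ((Ioc M (2 * M)).filter fun n => m < n), (1 : ℝ) / |(m : ℝ) - n| :=
        Finset.sum_le_sum_of_subset_of_nonneg hsplit fun n _ _ => h0 n
    _ ≤ ∑ n ∈ (Ioc M (2 * M)).filter (fun n => n < m), (1 : ℝ) / |(m : ℝ) - n| +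
          ∑ n ∈ (Ioc M (2 * M)).filter (fun n => m < n), (1 : ℝ) / |(m : ℝ) - n| :=
        (by
          rw [← Finset.sum_union_inter]
          exact le_add_of_nonneg_right (Finset.sum_nonneg fun n _ => h0 n))
    _ ≤ 2 * (1 + Real.log M) := by linarith

/-- A dyadic block.

Proof. Expand the square and integrate; the diagonal is `T ∑ |a_n| ^ 2`; for `m ≠ n` the integral of `(m / n) ^ (i t)` is
at most `2 / |log (m / n)| ≤ 4 M / |m - n|` in absolute value, and
`|a_m a_n| ≤ (|a_m| ^ 2 + |a_n| ^ 2) / 2`, `∑_{m ≠ n} 1 / |m - n| ≤ 2 (1 + log M)`. -/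
theorem mv_dyadic (M : ℕ) (hM : 1 ≤ M) (a : ℕ → ℂ) (t₀ T : ℝ) (hT : 0 ≤ T) :
    ∫ t in t₀..(t₀ + T), ‖∑ n ∈ Ioc M (2 * M), a n * nit n t‖ ^ 2 ≤
      (T + 8 * M * (1 + Real.log M)) * ∑ n ∈ Ioc M (2 * M), ‖a n‖ ^ 2 := by
  classical
  set S := Ioc M (2 * M) with hS
  have hpos : ∀ n ∈ S, n ≠ 0 := by
    intro n hn
    have := mem_Ioc.1 hn
    omega
  have hexp : ∀ t : ℝ, ((‖∑ n ∈ S, a n * nit n t‖ ^ 2 : ℝ) : ℂ) =
      ∑ m ∈ S, ∑ n ∈ S, (a m * (starRingEnd ℂ) (a n)) *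
        Complex.exp (((Real.log n - Real.log m) * t : ℝ) * Complex.I) := by
    intro t
    rw [Complex.ofReal_pow, ← Complex.mul_conj', map_sum, Finset.sum_mul_sum]
    refine Finset.sum_congr rfl fun m hm => Finset.sum_congr rfl fun n hn => ?_
    rw [DMv_nit m (hpos m hm), DMv_nit n (hpos n hn), map_mul, ← Complex.exp_conj, map_mul,
      Complex.conj_I, Complex.conj_ofReal]
    have h1 : Complex.exp (((Real.log n - Real.log m) * t : ℝ) * Complex.I) =
        Complex.exp ((-(t * Real.log m) : ℝ) * Complex.I) *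
          Complex.exp ((-(t * Real.log n) : ℝ) * -Complex.I) := by
      rw [← Complex.exp_add]
      congr 1
      push_cast
      ring
    rw [h1]
    ring
  have hint : ∀ m n : ℕ, IntervalIntegrable (fun t : ℝ => (a m * (starRingEnd ℂ) (a n)) *
        Complex.exp (((Real.log n - Real.log m) * t : ℝ) * Complex.I)) volume t₀ (t₀ + T) := by
    intro m n
    apply Continuous.intervalIntegrable
    fun_prop
  have h2 : ((∫ t in t₀..(t₀ + T), ‖∑ n ∈ S, a n * nit n t‖ ^ 2 : ℝ) : ℂ) =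
      ∑ m ∈ S, ∑ n ∈ S, (a m * (starRingEnd ℂ) (a n)) *
        ∫ t in t₀..(t₀ + T), Complex.exp (((Real.log n - Real.log m) * t : ℝ) * Complex.I) := by
    rw [← intervalIntegral.integral_ofReal]
    simp_rw [hexp]
    rw [intervalIntegral.integral_finsetSum fun m _ => ?_]
    · refine Finset.sum_congr rfl fun m _ => ?_
      rw [intervalIntegral.integral_finsetSum fun n _ => hint m n]
      refine Finset.sum_congr rfl fun n _ => ?_
      rw [intervalIntegral.integral_const_mul]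
    · apply Continuous.intervalIntegrable
      fun_prop
  set B : ℕ → ℕ → ℝ := fun m n => if m = n then T else 4 * M * (1 / |(m : ℝ) - n|) with hB
  have hBsymm : ∀ m n, B m n = B n m := by
    intro m n
    simp only [hB]
    by_cases h : m = n
    · rw [if_pos h, if_pos h.symm]
    · rw [if_neg h, if_neg (Ne.symm h), abs_sub_comm]
  have hBnn : ∀ m n, 0 ≤ B m n := by
    intro m n
    simp only [hB]
    split_ifs
    · exact hT
    · positivity
  have hBb : ∀ m ∈ S, ∀ n ∈ S,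
      ‖∫ t in t₀..(t₀ + T), Complex.exp (((Real.log n - Real.log m) * t : ℝ) * Complex.I)‖ ≤
        B m n := by
    intro m hm n hn
    simp only [hB]
    split_ifs with h
    · subst h
      have h3 : ∀ t : ℝ, Complex.exp (((Real.log m - Real.log m) * t : ℝ) * Complex.I) = 1 := by
        intro t
        rw [sub_self, zero_mul, Complex.ofReal_zero, zero_mul, Complex.exp_zero]
      simp_rw [h3]
      rw [intervalIntegral.integral_const, add_sub_cancel_left, norm_smul, norm_one, mul_one,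
        Real.norm_eq_abs, abs_of_nonneg hT]
    · have hm' := mem_Ioc.1 hm
      have hn' := mem_Ioc.1 hn
      obtain ⟨h3, h4⟩ := DMv_log M m n hm'.1 hn'.1 hm'.2 hn'.2 h
      exact (DMv_int _ h3 t₀ T).trans h4
  have hrow : ∀ m ∈ S, ∑ n ∈ S, B m n ≤ T + 8 * M * (1 + Real.log M) := by
    intro m hm
    rw [← Finset.add_sum_erase S _ hm]
    have h3 : B m m = T := by simp [hB]
    have h4 : ∑ n ∈ S.erase m, B m n = 4 * M * ∑ n ∈ S.erase m, (1 : ℝ) / |(m : ℝ) - n| := by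
      rw [Finset.mul_sum]
      refine Finset.sum_congr rfl fun n hn => ?_
      simp only [hB]
      rw [if_neg (Ne.symm (Finset.ne_of_mem_erase hn))]
    rw [h3, h4]
    have hm' := mem_Ioc.1 hm
    have h5 := DMv_row M m hm'.1 hm'.2
    have h6 : (0 : ℝ) ≤ 4 * M := by positivity
    have h7 := mul_le_mul_of_nonneg_left h5 h6
    linarith
  have h3 : ∫ t in t₀..(t₀ + T), ‖∑ n ∈ S, a n * nit n t‖ ^ 2 ≤
      ∑ m ∈ S, ∑ n ∈ S, ‖a m‖ * ‖a n‖ * B m n := by
    refine (le_abs_self _).trans ?_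
    rw [← Real.norm_eq_abs, ← Complex.norm_real, h2]
    refine (norm_sum_le _ _).trans (Finset.sum_le_sum fun m hm => ?_)
    refine (norm_sum_le _ _).trans (Finset.sum_le_sum fun n hn => ?_)
    rw [norm_mul, norm_mul, RCLike.norm_conj]
    exact mul_le_mul_of_nonneg_left (hBb m hm n hn) (by positivity)
  refine h3.trans ?_
  have h4 : ∑ m ∈ S, ∑ n ∈ S, ‖a m‖ * ‖a n‖ * B m n ≤
      ∑ m ∈ S, ∑ n ∈ S, (‖a m‖ ^ 2 / 2 * B m n + ‖a n‖ ^ 2 / 2 * B m n) := by
    refine Finset.sum_le_sum fun m _ => Finset.sum_le_sum fun n _ => ?_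
    rw [← add_mul]
    refine mul_le_mul_of_nonneg_right ?_ (hBnn m n)
    nlinarith [sq_nonneg (‖a m‖ - ‖a n‖)]
  refine h4.trans ?_
  have h5 : ∑ m ∈ S, ∑ n ∈ S, (‖a m‖ ^ 2 / 2 * B m n + ‖a n‖ ^ 2 / 2 * B m n) =
      ∑ m ∈ S, ‖a m‖ ^ 2 * ∑ n ∈ S, B m n := by
    simp_rw [Finset.sum_add_distrib]
    have h6 : ∑ m ∈ S, ∑ n ∈ S, ‖a n‖ ^ 2 / 2 * B m n =
        ∑ m ∈ S, ∑ n ∈ S, ‖a m‖ ^ 2 / 2 * B m n := by
      rw [Finset.sum_comm]
      refine Finset.sum_congr rfl fun m _ => Finset.sum_congr rfl fun n _ => ?_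
      rw [hBsymm]
    rw [h6, ← Finset.sum_add_distrib]
    refine Finset.sum_congr rfl fun m _ => ?_
    rw [← Finset.mul_sum]
    ring
  rw [h5, Finset.mul_sum]
  refine Finset.sum_le_sum fun m hm => ?_
  rw [mul_comm]
  exact mul_le_mul_of_nonneg_right (hrow m hm) (by positivity)

/-- The blocks. -/
def DMv_bl : ℕ → Finset ℕ
  | 0 => {1}
  | (i + 1) => Ioc (2 ^ i) (2 * 2 ^ i)

theorem DMv_split {A : Type*} [AddCommMonoid A] (f : ℕ → A) (L : ℕ) :
    ∑ n ∈ Icc 1 (2 ^ L), f n = ∑ i ∈ range (L + 1), ∑ n ∈ DMv_bl i, f n := by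
  induction L with
  | zero =>
    rw [pow_zero, zero_add, Finset.sum_range_one, Finset.Icc_self]
    rfl
  | succ L ih =>
    rw [Finset.sum_range_succ, ← ih]
    have h1 : Icc 1 (2 ^ (L + 1)) = Icc 1 (2 ^ L) ∪ Ioc (2 ^ L) (2 * 2 ^ L) := by
      ext n
      rw [mem_union, mem_Icc, mem_Icc, mem_Ioc, pow_succ, mul_comm (2 ^ L) 2]
      have h2 : 1 ≤ 2 ^ L := Nat.one_le_two_pow
      omega
    rw [h1, Finset.sum_union]
    · rfl
    · rw [Finset.disjoint_left]
      intro n hn hn'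
      have h3 := mem_Icc.1 hn
      have h4 := mem_Ioc.1 hn'
      omega

theorem DMv_bl_pos {i n : ℕ} (h : n ∈ DMv_bl i) : n ≠ 0 := by
  cases i with
  | zero =>
    rw [DMv_bl, mem_singleton] at h
    omega
  | succ i =>
    rw [DMv_bl, mem_Ioc] at h
    omega

theorem DMv_cont (s : Finset ℕ) (hs : ∀ n ∈ s, n ≠ 0) (a : ℕ → ℂ) :
    Continuous fun t : ℝ => ∑ n ∈ s, a n * nit n t := by
  refine continuous_finsetSum s fun n hn => ?_
  exact continuous_const.mul (DMv_cont_nit n (hs n hn))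

theorem DMv_block (N : ℕ) (hN : 1 ≤ N) (b : ℕ → ℂ) (hb : ∀ n, N < n → b n = 0) (t₀ T : ℝ)
    (hT : 0 ≤ T) (i : ℕ) :
    ∫ t in t₀..(t₀ + T), ‖∑ n ∈ DMv_bl i, b n * nit n t‖ ^ 2 ≤
      8 * (1 + Real.log N) * ∑ n ∈ DMv_bl i, ‖b n‖ ^ 2 * (T + n) := by
  have hlog : 0 ≤ Real.log N := Real.log_natCast_nonneg N
  cases i with
  | zero =>
    have h1 : ∀ t : ℝ, ‖∑ n ∈ DMv_bl 0, b n * nit n t‖ ^ 2 = ‖b 1‖ ^ 2 := by
      intro t
      rw [DMv_bl, Finset.sum_singleton, norm_mul, DMv_norm_nit 1 one_ne_zero, mul_one]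
    simp_rw [h1]
    rw [intervalIntegral.integral_const, add_sub_cancel_left, smul_eq_mul, DMv_bl,
      Finset.sum_singleton]
    have h2 : 0 ≤ ‖b 1‖ ^ 2 := by positivity
    have h3 : T ≤ 8 * (1 + Real.log N) * (T + (1 : ℕ)) := by
      push_cast
      nlinarith [mul_nonneg hlog hT]
    calc T * ‖b 1‖ ^ 2 ≤ (8 * (1 + Real.log N) * (T + (1 : ℕ))) * ‖b 1‖ ^ 2 :=
          mul_le_mul_of_nonneg_right h3 h2
      _ = 8 * (1 + Real.log N) * (‖b 1‖ ^ 2 * (T + (1 : ℕ))) := by ring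
  | succ i =>
    have h1 := mv_dyadic (2 ^ i) Nat.one_le_two_pow b t₀ T hT
    rw [DMv_bl]
    refine h1.trans ?_
    rw [Finset.mul_sum, Finset.mul_sum]
    refine Finset.sum_le_sum fun n hn => ?_
    by_cases h2 : N < n
    · rw [hb n h2]
      simp
    · have h3 := mem_Ioc.1 hn
      have h4 : ((2 ^ i : ℕ) : ℝ) ≤ n := by
        exact_mod_cast h3.1.le
      have h5 : (n : ℝ) ≤ N := by
        exact_mod_cast not_lt.1 h2
      have h6 : Real.log ((2 ^ i : ℕ) : ℝ) ≤ Real.log N := by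
        refine Real.log_le_log ?_ (h4.trans h5)
        positivity
      have h7 : 0 ≤ ‖b n‖ ^ 2 := by positivity
      have h8 : T + 8 * ((2 ^ i : ℕ) : ℝ) * (1 + Real.log ((2 ^ i : ℕ) : ℝ)) ≤
          8 * (1 + Real.log N) * (T + n) := by
        have h9 : 8 * ((2 ^ i : ℕ) : ℝ) * (1 + Real.log ((2 ^ i : ℕ) : ℝ)) ≤
            8 * (n : ℝ) * (1 + Real.log N) := by
          have h10 : 0 ≤ 1 + Real.log ((2 ^ i : ℕ) : ℝ) := by
            have := Real.log_natCast_nonneg (2 ^ i)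
            linarith
          exact mul_le_mul (by linarith) (by linarith) h10 (by positivity)
        nlinarith [mul_nonneg hlog hT]
      calc (T + 8 * ((2 ^ i : ℕ) : ℝ) * (1 + Real.log ((2 ^ i : ℕ) : ℝ))) * ‖b n‖ ^ 2
          ≤ (8 * (1 + Real.log N) * (T + n)) * ‖b n‖ ^ 2 := mul_le_mul_of_nonneg_right h8 h7
        _ = 8 * (1 + Real.log N) * (‖b n‖ ^ 2 * (T + n)) := by ring

/-- **The mean value theorem.**

Proof. Cut `[1, N]` into `n = 1` and the dyadic blocks `(2 ^ i, 2 ^ (i + 1)]` (at most `2 + 2 log N` pieces), Cauchy,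
`mv_dyadic` with the coefficients `a_n` for `n ≤ N` and `0` for `n > N`. -/
theorem mv : ∃ C : ℝ, 1 ≤ C ∧ ∀ (N : ℕ) (a : ℕ → ℂ) (t₀ T : ℝ), 1 ≤ N → 0 ≤ T →
    ∫ t in t₀..(t₀ + T), ‖∑ n ∈ Icc 1 N, a n * nit n t‖ ^ 2 ≤
      C * (1 + Real.log N) ^ 2 * ∑ n ∈ Icc 1 N, ‖a n‖ ^ 2 * (T + n) := by
  classical
  refine ⟨16, by norm_num, fun N a t₀ T hN hT => ?_⟩
  have hlog : 0 ≤ Real.log N := Real.log_natCast_nonneg N
  set L := Nat.log 2 N + 1 with hL
  have hNL : N < 2 ^ L := Nat.lt_pow_succ_log_self one_lt_two N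
  set b : ℕ → ℂ := fun n => if n ≤ N then a n else 0 with hb
  have hb0 : ∀ n, N < n → b n = 0 := by
    intro n hn
    simp only [hb]
    rw [if_neg (not_le.2 hn)]
  have hb1 : ∀ n, n ≤ N → b n = a n := by
    intro n hn
    simp only [hb]
    rw [if_pos hn]
  have hsub : Icc 1 N ⊆ Icc 1 (2 ^ L) := Finset.Icc_subset_Icc_right hNL.le
  have hS : ∀ t : ℝ, ∑ n ∈ Icc 1 N, a n * nit n t =
      ∑ i ∈ range (L + 1), ∑ n ∈ DMv_bl i, b n * nit n t := by
    intro t
    rw [← DMv_split fun n => b n * nit n t]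
    rw [← Finset.sum_subset hsub]
    · refine Finset.sum_congr rfl fun n hn => ?_
      rw [hb1 n (mem_Icc.1 hn).2]
    · intro n hn hn'
      have h1 : N < n := by
        by_contra h2
        exact hn' (mem_Icc.2 ⟨(mem_Icc.1 hn).1, not_lt.1 h2⟩)
      rw [hb0 n h1, zero_mul]
  have hR : ∑ i ∈ range (L + 1), ∑ n ∈ DMv_bl i, ‖b n‖ ^ 2 * (T + n) =
      ∑ n ∈ Icc 1 N, ‖a n‖ ^ 2 * (T + n) := by
    rw [← DMv_split fun n => ‖b n‖ ^ 2 * (T + n)]
    rw [← Finset.sum_subset hsub]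
    · refine Finset.sum_congr rfl fun n hn => ?_
      rw [hb1 n (mem_Icc.1 hn).2]
    · intro n hn hn'
      have h1 : N < n := by
        by_contra h2
        exact hn' (mem_Icc.2 ⟨(mem_Icc.1 hn).1, not_lt.1 h2⟩)
      rw [hb0 n h1, norm_zero]
      simp
  have hc : ∀ i : ℕ, Continuous fun t : ℝ => ∑ n ∈ DMv_bl i, b n * nit n t := fun i =>
    DMv_cont _ (fun n hn => DMv_bl_pos hn) b
  have h1 : ∀ t : ℝ, ‖∑ n ∈ Icc 1 N, a n * nit n t‖ ^ 2 ≤
      ((L : ℝ) + 1) * ∑ i ∈ range (L + 1), ‖∑ n ∈ DMv_bl i, b n * nit n t‖ ^ 2 := by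
    intro t
    rw [hS t]
    have h2 := norm_sum_le (range (L + 1)) fun i => ∑ n ∈ DMv_bl i, b n * nit n t
    have h3 := sq_sum_le_card_mul_sum_sq (s := range (L + 1))
      (f := fun i => ‖∑ n ∈ DMv_bl i, b n * nit n t‖)
    rw [card_range] at h3
    push_cast at h3
    exact (pow_le_pow_left₀ (norm_nonneg _) h2 2).trans h3
  have h2 : ∫ t in t₀..(t₀ + T), ‖∑ n ∈ Icc 1 N, a n * nit n t‖ ^ 2 ≤
      ∫ t in t₀..(t₀ + T), ((L : ℝ) + 1) *
        ∑ i ∈ range (L + 1), ‖∑ n ∈ DMv_bl i, b n * nit n t‖ ^ 2 := by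
    refine intervalIntegral.integral_mono_on (by linarith) ?_ ?_ fun t _ => h1 t
    · apply Continuous.intervalIntegrable
      exact (DMv_cont _ (fun n hn => by
        have := mem_Icc.1 hn
        omega) a).norm.pow 2
    · apply Continuous.intervalIntegrable
      refine continuous_const.mul (continuous_finsetSum _ fun i _ => ?_)
      exact (hc i).norm.pow 2
  refine h2.trans ?_
  rw [intervalIntegral.integral_const_mul, intervalIntegral.integral_finsetSum fun i _ => ?_]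
  · have h3 : ∑ i ∈ range (L + 1), ∫ t in t₀..(t₀ + T), ‖∑ n ∈ DMv_bl i, b n * nit n t‖ ^ 2 ≤
        8 * (1 + Real.log N) * ∑ n ∈ Icc 1 N, ‖a n‖ ^ 2 * (T + n) := by
      rw [← hR, Finset.mul_sum]
      exact Finset.sum_le_sum fun i _ => DMv_block N hN b hb0 t₀ T hT i
    have h4 : (L : ℝ) + 1 ≤ 2 * (1 + Real.log N) := by
      have h5 : ((Nat.log 2 N : ℕ) : ℝ) * Real.log 2 ≤ Real.log N := by
        have h6 : ((2 ^ Nat.log 2 N : ℕ) : ℝ) ≤ N := by
          exact_mod_cast Nat.pow_log_le_self 2 (by omega)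
        have h7 := Real.log_le_log (by positivity) h6
        push_cast at h7
        rwa [Real.log_pow] at h7
      have h8 : (1 : ℝ) / 2 ≤ Real.log 2 := by
        have := Real.log_two_gt_d9
        linarith
      have h9 : (0 : ℝ) ≤ ((Nat.log 2 N : ℕ) : ℝ) := Nat.cast_nonneg _
      have h10 : (L : ℝ) = ((Nat.log 2 N : ℕ) : ℝ) + 1 := by
        rw [hL]
        push_cast
        ring
      rw [h10]
      nlinarith [mul_le_mul_of_nonneg_left h8 h9]
    have h5 : 0 ≤ ∑ n ∈ Icc 1 N, ‖a n‖ ^ 2 * (T + n) :=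
      Finset.sum_nonneg fun n _ => by positivity
    calc ((L : ℝ) + 1) * ∑ i ∈ range (L + 1), ∫ t in t₀..(t₀ + T),
            ‖∑ n ∈ DMv_bl i, b n * nit n t‖ ^ 2
        ≤ (2 * (1 + Real.log N)) *
            (8 * (1 + Real.log N) * ∑ n ∈ Icc 1 N, ‖a n‖ ^ 2 * (T + n)) := by
          refine mul_le_mul h4 h3 ?_ (by positivity)
          refine Finset.sum_nonneg fun i _ => ?_
          exact intervalIntegral.integral_nonneg (by linarith) fun t _ => by positivity
      _ = 16 * (1 + Real.log N) ^ 2 * ∑ n ∈ Icc 1 N, ‖a n‖ ^ 2 * (T + n) := by ring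
  · apply Continuous.intervalIntegrable
    exact (hc _).norm.pow 2

/-- The same for `DP`. (`|χ| ≤ 1`.) -/
theorem mv_DP : ∃ C : ℝ, 1 ≤ C ∧ ∀ (N r : ℕ) (a : ℕ → ℝ) (χ : DirichletCharacter ℂ r) (t₀ T : ℝ),
    1 ≤ N → 0 ≤ T → ∫ t in t₀..(t₀ + T), ‖DP N a χ t‖ ^ 2 ≤
      C * (1 + Real.log N) ^ 2 * ∑ n ∈ Icc 1 N, a n ^ 2 * (T / n ^ 2 + 1 / n) := by
  obtain ⟨C, hC, h⟩ := mv
  refine ⟨C, hC, fun N r a χ t₀ T hN hT => ?_⟩
  have h1 := h N (fun n => ((a n / n : ℝ) : ℂ) * χ (n : ZMod r)) t₀ T hN hT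
  have h2 : ∀ t : ℝ, DP N a χ t = ∑ n ∈ Icc 1 N,
      (fun n : ℕ => ((a n / n : ℝ) : ℂ) * χ (n : ZMod r)) n * nit n t := by
    intro t
    rw [DP]
  simp_rw [h2]
  refine h1.trans ?_
  refine mul_le_mul_of_nonneg_left ?_ (by positivity)
  refine Finset.sum_le_sum fun n hn => ?_
  have hn0 : (n : ℝ) ≠ 0 := by
    have h3 := (mem_Icc.1 hn).1
    have : n ≠ 0 := by omega
    exact_mod_cast this
  have h4 : ‖((a n / n : ℝ) : ℂ) * χ (n : ZMod r)‖ ^ 2 ≤ (a n / n) ^ 2 := by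
    rw [norm_mul, mul_pow, Complex.norm_real, Real.norm_eq_abs, sq_abs]
    have h5 : ‖χ (n : ZMod r)‖ ^ 2 ≤ 1 :=
      pow_le_one₀ (norm_nonneg _) (DirichletCharacter.norm_le_one χ _)
    exact mul_le_of_le_one_right (sq_nonneg _) h5
  have h6 : (0 : ℝ) ≤ T + n := by positivity
  calc ‖((a n / n : ℝ) : ℂ) * χ (n : ZMod r)‖ ^ 2 * (T + n)
      ≤ (a n / n) ^ 2 * (T + n) := mul_le_mul_of_nonneg_right h4 h6
    _ = a n ^ 2 * (T / n ^ 2 + 1 / n) := by
      field_simp

end Pool.Agent.M58
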