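import Pool.Agent.W_b58c63_m1.DMv

/-!
# Dirichlet polynomials: basic facts, large values (helper68)
-/

set_option autoImplicit false

noncomputable section

open Finset MeasureTheory

namespace Pool.Agent.M58

theorem DMvB_nit_norm {n : ℕ} (hn : 1 ≤ n) (t : ℝ) : ‖nit n t‖ = 1 := by
  unfold nit
  rw [Complex.norm_natCast_cpow_of_pos (by omega)]
  simp

theorem DMvB_nit_cont (n : ℕ) (hn : 1 ≤ n) : Continuous (fun t : ℝ => nit n t) := by
  unfold nit
  refine Continuous.const_cpow (by fun_prop) (Or.inl ?_)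
  exact_mod_cast (by omega : n ≠ 0)

theorem DMvB_nit_eq {n : ℕ} (hn : 1 ≤ n) (t : ℝ) :
    nit n t = Complex.exp (Complex.I * ((-(Real.log n * t) : ℝ) : ℂ)) := by
  unfold nit
  rw [Complex.cpow_def_of_ne_zero (by exact_mod_cast (by omega : n ≠ 0)), Complex.natCast_log.symm]
  congr 1
  push_cast
  ring

theorem DMvB_nit_mul {m n : ℕ} (hm : 1 ≤ m) (hn : 1 ≤ n) (t : ℝ) :
    nit (m * n) t = nit m t * nit n t := by
  rw [DMvB_nit_eq (Nat.mul_pos hm hn), DMvB_nit_eq hm, DMvB_nit_eq hn, ← Complex.exp_add]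
  congr 1
  rw [← mul_add]
  congr 1
  have hm' : (m : ℝ) ≠ 0 := by exact_mod_cast (by omega : m ≠ 0)
  have hn' : (n : ℝ) ≠ 0 := by exact_mod_cast (by omega : n ≠ 0)
  push_cast [Real.log_mul hm' hn']
  ring

theorem DMvB_nit_lip {n : ℕ} (hn : 1 ≤ n) (t s : ℝ) :
    ‖nit n t - nit n s‖ ≤ Real.log n * |t - s| := by
  have h1 : nit n t - nit n s = nit n s *
      (Complex.exp (Complex.I * ((-(Real.log n * (t - s)) : ℝ) : ℂ)) - 1) := by
    rw [mul_sub, mul_one, DMvB_nit_eq hn, DMvB_nit_eq hn, ← Complex.exp_add]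
    congr 2
    push_cast
    ring
  rw [h1, norm_mul, DMvB_nit_norm hn, one_mul]
  refine (Real.norm_exp_I_mul_ofReal_sub_one_le).trans ?_
  rw [Real.norm_eq_abs, abs_neg, abs_mul]
  rw [abs_of_nonneg (Real.log_natCast_nonneg n)]

/-- Continuity of Dirichlet polynomials and the trivial bounds. -/
theorem DP_continuous (N : ℕ) (a : ℕ → ℝ) {r : ℕ} (χ : DirichletCharacter ℂ r) :
    Continuous (DP N a χ) := by
  unfold DP
  refine continuous_finsetSum _ (fun n hn => ?_)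
  exact continuous_const.mul (DMvB_nit_cont n (Finset.mem_Icc.mp hn).1)

theorem DP_le (N : ℕ) (a : ℕ → ℝ) {r : ℕ} (χ : DirichletCharacter ℂ r) (t : ℝ) :
    ‖DP N a χ t‖ ≤ ∑ n ∈ Icc 1 N, |a n| / n := by
  unfold DP
  refine (norm_sum_le _ _).trans (Finset.sum_le_sum (fun n hn => ?_))
  have hn1 := (Finset.mem_Icc.mp hn).1
  rw [norm_mul, norm_mul, DMvB_nit_norm hn1, mul_one, Complex.norm_real, Real.norm_eq_abs, abs_div,
    Nat.abs_cast]
  calc |a n| / n * ‖χ (n : ZMod r)‖ ≤ |a n| / n * 1 := by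
        gcongr
        exact χ.norm_le_one _
    _ = _ := mul_one _

/-- The Lipschitz constant (`|n ^ (- i t) - n ^ (- i s)| ≤ log n |t - s|`). -/
theorem DP_lip (N : ℕ) (a : ℕ → ℝ) {r : ℕ} (χ : DirichletCharacter ℂ r) (t s : ℝ) (hN : 1 ≤ N) :
    ‖DP N a χ t - DP N a χ s‖ ≤ Real.log N * (∑ n ∈ Icc 1 N, |a n| / n) * |t - s| := by
  unfold DP
  rw [← Finset.sum_sub_distrib]
  refine (norm_sum_le _ _).trans ?_
  rw [Finset.mul_sum, Finset.sum_mul]
  refine Finset.sum_le_sum (fun n hn => ?_)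
  obtain ⟨hn1, hn2⟩ := Finset.mem_Icc.mp hn
  rw [← mul_sub, norm_mul, norm_mul, Complex.norm_real, Real.norm_eq_abs, abs_div, Nat.abs_cast]
  have hlog : Real.log n ≤ Real.log N :=
    Real.log_le_log (by exact_mod_cast hn1) (by exact_mod_cast hn2)
  have hl0 : 0 ≤ Real.log n := Real.log_natCast_nonneg n
  calc |a n| / n * ‖χ (n : ZMod r)‖ * ‖nit n t - nit n s‖
      ≤ |a n| / n * 1 * (Real.log N * |t - s|) := by
        gcongr
        · exact χ.norm_le_one _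
        · exact (DMvB_nit_lip hn1 t s).trans (by gcongr)
    _ = _ := by ring

/-- Products: the Dirichlet convolution of `a` and `b`. -/
def cv (a b : ℕ → ℝ) (n : ℕ) : ℝ := ∑ d ∈ n.divisors, a d * b (n / d)

theorem DMvB_cv_sum {K : Type*} [CommRing K] (φ : ℝ →+* K) (w : ℕ → K)
    (hw : ∀ m n, 1 ≤ m → 1 ≤ n → w (m * n) = w m * w n)
    (N : ℕ) (a b : ℕ → ℝ) (A B : ℕ) (ha : ∀ n, A < n → a n = 0) (hb : ∀ n, B < n → b n = 0)
    (hN : A * B ≤ N) :
    ∑ n ∈ Icc 1 N, φ (cv a b n) * w n =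
      (∑ n ∈ Icc 1 N, φ (a n) * w n) * (∑ n ∈ Icc 1 N, φ (b n) * w n) := by
  have h1 : ∀ n ∈ Icc 1 N, φ (cv a b n) * w n =
      ∑ x ∈ n.divisorsAntidiagonal, (φ (a x.1) * w x.1) * (φ (b x.2) * w x.2) := by
    intro n hn
    have hn1 := (Finset.mem_Icc.mp hn).1
    unfold cv
    rw [← Nat.sum_divisorsAntidiagonal (fun i j => a i * b j), map_sum, Finset.sum_mul]
    refine Finset.sum_congr rfl (fun x hx => ?_)
    obtain ⟨hx1, hx2⟩ := Nat.mem_divisorsAntidiagonal.mp hx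
    have hx3 : 1 ≤ x.1 := Nat.pos_of_ne_zero (fun h => by simp [h] at hx1; omega)
    have hx4 : 1 ≤ x.2 := Nat.pos_of_ne_zero (fun h => by simp [h] at hx1; omega)
    rw [← hx1, hw _ _ hx3 hx4, map_mul]
    ring
  rw [Finset.sum_congr rfl h1, Finset.sum_sigma', Finset.sum_mul_sum, ← Finset.sum_product']
  have h2 : ∑ x ∈ Icc 1 N ×ˢ Icc 1 N, (φ (a x.1) * w x.1) * (φ (b x.2) * w x.2) =
      ∑ x ∈ (Icc 1 N ×ˢ Icc 1 N).filter (fun x => x.1 * x.2 ≤ N),
        (φ (a x.1) * w x.1) * (φ (b x.2) * w x.2) := by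
    symm
    refine Finset.sum_filter_of_ne (fun x _ hx => ?_)
    have hA : x.1 ≤ A := by
      by_contra hc
      push Not at hc
      exact hx (by rw [ha _ hc]; simp)
    have hB : x.2 ≤ B := by
      by_contra hc
      push Not at hc
      exact hx (by rw [hb _ hc]; simp)
    exact (Nat.mul_le_mul hA hB).trans hN
  rw [h2]
  refine Finset.sum_nbij' (fun p => p.2) (fun x => ⟨x.1 * x.2, x⟩) ?_ ?_ ?_ ?_ ?_
  · rintro ⟨n, x⟩ hx
    simp only [Finset.mem_sigma, Finset.mem_Icc, Nat.mem_divisorsAntidiagonal] at hx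
    simp only [Finset.mem_filter, Finset.mem_product, Finset.mem_Icc]
    obtain ⟨⟨hn1, hn2⟩, hx1, hx2⟩ := hx
    have hx3 : 1 ≤ x.1 := Nat.pos_of_ne_zero (fun h => by simp [h] at hx1; omega)
    have hx4 : 1 ≤ x.2 := Nat.pos_of_ne_zero (fun h => by simp [h] at hx1; omega)
    have hx5 : x.1 ≤ x.1 * x.2 := Nat.le_mul_of_pos_right _ hx4
    have hx6 : x.2 ≤ x.1 * x.2 := Nat.le_mul_of_pos_left _ hx3
    omega
  · intro x hx
    simp only [Finset.mem_filter, Finset.mem_product, Finset.mem_Icc] at hx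
    simp only [Finset.mem_sigma, Finset.mem_Icc, Nat.mem_divisorsAntidiagonal]
    obtain ⟨⟨⟨h1, h2⟩, h3, h4⟩, h5⟩ := hx
    have : 1 ≤ x.1 * x.2 := Nat.mul_pos h1 h3
    exact ⟨⟨this, h5⟩, trivial, by omega⟩
  · rintro ⟨n, x⟩ hx
    simp only [Finset.mem_sigma, Finset.mem_Icc, Nat.mem_divisorsAntidiagonal] at hx
    simp [hx.2.1]
  · intro x _
    rfl
  · intro x _
    rfl

theorem DMvB_DP_eq (N : ℕ) (a : ℕ → ℝ) {r : ℕ} (χ : DirichletCharacter ℂ r) (t : ℝ) :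
    DP N a χ t = ∑ n ∈ Icc 1 N, Complex.ofRealHom (a n) * (((1 / n : ℝ) : ℂ) * χ (n : ZMod r) * nit n t) := by
  unfold DP
  refine Finset.sum_congr rfl (fun n _ => ?_)
  rw [Complex.ofRealHom_eq_coe]
  push_cast
  ring

theorem DP_mul (N : ℕ) (a b : ℕ → ℝ) (A B : ℕ) (ha : ∀ n, A < n → a n = 0) (hb : ∀ n, B < n → b n = 0)
    (hN : A * B ≤ N) {r : ℕ} (χ : DirichletCharacter ℂ r) (t : ℝ) :
    DP N (cv a b) χ t = DP N a χ t * DP N b χ t := by
  rw [DMvB_DP_eq, DMvB_DP_eq, DMvB_DP_eq]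
  refine DMvB_cv_sum Complex.ofRealHom _ ?_ N a b A B ha hb hN
  intro m n hm hn
  rw [DMvB_nit_mul hm hn]
  push_cast
  rw [map_mul]
  ring

/-- The `k`-fold convolution. -/
def DMvB_b (a : ℕ → ℝ) : ℕ → ℕ → ℝ
  | 0 => fun n => if n = 1 then 1 else 0
  | (k + 1) => cv a (DMvB_b a k)

theorem DMvB_b_supp (a : ℕ → ℝ) (N : ℕ) (hN : 1 ≤ N) (ha : ∀ n, N < n → a n = 0) (k : ℕ) :
    ∀ n, N ^ k < n → DMvB_b a k n = 0 := by
  induction k with
  | zero =>
    intro n hn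
    simp only [pow_zero] at hn
    simp only [DMvB_b]
    rw [if_neg (by omega)]
  | succ k ih =>
    intro n hn
    simp only [DMvB_b]
    unfold cv
    refine Finset.sum_eq_zero (fun d hd => ?_)
    by_cases h : d ≤ N
    · have hdd := Nat.dvd_of_mem_divisors hd
      have : N ^ k < n / d := by
        by_contra hc
        push Not at hc
        have h1 : n = d * (n / d) := (Nat.mul_div_cancel' hdd).symm
        have h2 : d * (n / d) ≤ N * N ^ k := Nat.mul_le_mul h hc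
        rw [← h1, ← pow_succ'] at h2
        omega
      rw [ih _ this, mul_zero]
    · rw [ha d (by omega), zero_mul]

theorem DMvB_b_bd (a : ℕ → ℝ) (hp : ∀ n, a n ≠ 0 → n.Prime) (h01 : ∀ n, 0 ≤ a n ∧ a n ≤ 1) (k : ℕ) :
    ∀ n, 0 ≤ DMvB_b a k n ∧ DMvB_b a k n ≤ k.factorial ∧
      (DMvB_b a k n ≠ 0 → n ≠ 0 ∧ ArithmeticFunction.cardFactors n = k) := by
  induction k with
  | zero =>
    intro n
    simp only [DMvB_b]
    by_cases h : n = 1
    · rw [if_pos h]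
      subst h
      simp
    · rw [if_neg h]
      simp
  | succ k ih =>
    intro n
    have h0 : 0 ≤ DMvB_b a (k + 1) n := by
      simp only [DMvB_b]
      unfold cv
      exact Finset.sum_nonneg (fun d _ => mul_nonneg (h01 d).1 (ih _).1)
    have h3 : DMvB_b a (k + 1) n ≠ 0 → n ≠ 0 ∧ ArithmeticFunction.cardFactors n = k + 1 := by
      intro hne
      simp only [DMvB_b] at hne
      unfold cv at hne
      obtain ⟨d, hd, hd2⟩ := Finset.exists_ne_zero_of_sum_ne_zero hne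
      have hdd := Nat.dvd_of_mem_divisors hd
      have hn0 : n ≠ 0 := (Nat.mem_divisors.mp hd).2
      have had : a d ≠ 0 := left_ne_zero_of_mul hd2
      have hbd : DMvB_b a k (n / d) ≠ 0 := right_ne_zero_of_mul hd2
      have hpr := hp d had
      obtain ⟨hq0, hq⟩ := (ih (n / d)).2.2 hbd
      refine ⟨hn0, ?_⟩
      have h1 : n = d * (n / d) := (Nat.mul_div_cancel' hdd).symm
      rw [h1, ArithmeticFunction.cardFactors_mul hpr.ne_zero hq0, hq,
        ArithmeticFunction.cardFactors_apply_prime hpr]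
      ring
    refine ⟨h0, ?_, h3⟩
    by_cases hz : DMvB_b a (k + 1) n = 0
    · rw [hz]; positivity
    obtain ⟨hn0, hO⟩ := h3 hz
    have h4 : DMvB_b a (k + 1) n ≤ ∑ d ∈ n.primeFactors, (k.factorial : ℝ) := by
      simp only [DMvB_b]
      unfold cv
      rw [← Finset.sum_subset (s₁ := n.primeFactors) (s₂ := n.divisors)]
      · refine Finset.sum_le_sum (fun d _ => ?_)
        calc a d * DMvB_b a k (n / d) ≤ 1 * (k.factorial : ℝ) :=
              mul_le_mul (h01 d).2 (ih _).2.1 (ih _).1 zero_le_one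
          _ = _ := one_mul _
      · intro d hd
        rw [Nat.mem_divisors]
        exact ⟨Nat.dvd_of_mem_primeFactors hd, hn0⟩
      · intro d hd hd2
        have : a d = 0 := by
          by_contra hc
          exact hd2 (Nat.mem_primeFactors.mpr ⟨hp d hc, Nat.dvd_of_mem_divisors hd, hn0⟩)
        rw [this, zero_mul]
    have h5 : n.primeFactors.card ≤ k + 1 := by
      rw [← hO, ArithmeticFunction.cardFactors_apply]
      exact List.toFinset_card_le _
    rw [Finset.sum_const, nsmul_eq_mul] at h4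
    refine h4.trans ?_
    rw [Nat.factorial_succ]
    push_cast
    have : (n.primeFactors.card : ℝ) ≤ k + 1 := by exact_mod_cast h5
    gcongr

theorem DMvB_ext {K : Type*} [CommRing K] (φ : ℝ →+* K) (w : ℕ → K) (N M : ℕ) (a : ℕ → ℝ)
    (ha : ∀ n, N < n → a n = 0) (hNM : N ≤ M) :
    ∑ n ∈ Icc 1 M, φ (a n) * w n = ∑ n ∈ Icc 1 N, φ (a n) * w n := by
  symm
  refine Finset.sum_subset (Finset.Icc_subset_Icc_right hNM) (fun n hn hn2 => ?_)
  have h1 := Finset.mem_Icc.mp hn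
  have h2 : N < n := by
    by_contra hc
    exact hn2 (Finset.mem_Icc.mpr ⟨h1.1, by omega⟩)
  rw [ha n h2]
  simp

theorem DMvB_b_sum {K : Type*} [CommRing K] (φ : ℝ →+* K) (w : ℕ → K) (hw1 : w 1 = 1)
    (hw : ∀ m n, 1 ≤ m → 1 ≤ n → w (m * n) = w m * w n)
    (N : ℕ) (hN : 1 ≤ N) (a : ℕ → ℝ) (ha : ∀ n, N < n → a n = 0) (k : ℕ) :
    ∑ n ∈ Icc 1 (N ^ k), φ (DMvB_b a k n) * w n = (∑ n ∈ Icc 1 N, φ (a n) * w n) ^ k := by
  induction k with
  | zero =>
    simp [DMvB_b, hw1]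
  | succ k ih =>
    have hb := DMvB_b_supp a N hN ha k
    have h1 := DMvB_cv_sum φ w hw (N ^ (k + 1)) a (DMvB_b a k) N (N ^ k) ha hb
      (by rw [pow_succ'])
    have hpos : 1 ≤ N ^ k := Nat.one_le_pow _ _ hN
    have hle1 : N ≤ N ^ (k + 1) := by
      rw [pow_succ']; exact Nat.le_mul_of_pos_right _ hpos
    have hle2 : N ^ k ≤ N ^ (k + 1) := Nat.pow_le_pow_right hN (by omega)
    rw [DMvB_ext φ w N _ a ha hle1, DMvB_ext φ w (N ^ k) _ _ hb hle2, ih] at h1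
    simp only [DMvB_b]
    rw [h1, pow_succ']

/-- **Large values of a prime polynomial.** `a` is supported on primes in `[A₀, N]`, `0 ≤ a ≤ 1`,
`∑ a (p) / p ≤ D`, `T ≤ A₀ ^ k`.

Proof. `DP ^ k` is the Dirichlet polynomial with the coefficients `b (n) / n`, `b` the `k`-fold convolution, so
`0 ≤ b ≤ k!`, length `N ^ k`. By `mv_DP` the integral of `|DP| ^ (2 k)` is at most
`C (1 + k log N) ^ 2 k! ∑ b (n) (T / n ^ 2 + 1 / n) = C (1 + k log N) ^ 2 k! (T (∑ a / p ^ 2) ^ k + (∑ a / p) ^ k)`, and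
`∑ a / p ^ 2 ≤ D / A₀`. Markov. -/
theorem large_values (k : ℕ) (hk : 1 ≤ k) : ∃ C : ℝ, 1 ≤ C ∧ ∀ (N r : ℕ) (a : ℕ → ℝ)
    (χ : DirichletCharacter ℂ r) (t₀ T A₀ D lam : ℝ), 1 ≤ N → 0 ≤ T → 1 ≤ A₀ → 1 ≤ D → 0 < lam →
      (∀ n, a n ≠ 0 → n.Prime ∧ A₀ ≤ n ∧ n ≤ N) → (∀ n, 0 ≤ a n ∧ a n ≤ 1) →
      ∑ n ∈ Icc 1 N, a n / n ≤ D → T ≤ A₀ ^ k →
        (volume {t : ℝ | t₀ ≤ t ∧ t ≤ t₀ + T ∧ lam < ‖DP N a χ t‖}).toReal ≤
          C * (1 + Real.log N) ^ 2 * D ^ k / lam ^ (2 * k) := by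
  obtain ⟨C, hC1, hC⟩ := mv_DP
  have hk1 : (1 : ℝ) ≤ k := by exact_mod_cast hk
  have hf1 : (1 : ℝ) ≤ k.factorial := by exact_mod_cast Nat.one_le_iff_ne_zero.mpr (Nat.factorial_ne_zero k)
  refine ⟨C * k ^ 2 * k.factorial * 2, ?_, ?_⟩
  · have h1 : (1 : ℝ) ≤ (k : ℝ) ^ 2 := one_le_pow₀ hk1
    calc (1 : ℝ) = 1 * 1 * 1 * 1 := by ring
      _ ≤ C * k ^ 2 * k.factorial * 2 := by
        gcongr
        norm_num
  intro N r a χ t₀ T A₀ D lam hN hT hA hD hlam hsupp h01 hsum hTA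
  have ha : ∀ n, N < n → a n = 0 := by
    intro n hn
    by_contra hc
    have := (hsupp n hc).2.2
    omega
  have hlogN : 0 ≤ Real.log N := Real.log_natCast_nonneg N
  -- the integral
  have hDPk : ∀ t, DP (N ^ k) (DMvB_b a k) χ t = DP N a χ t ^ k := by
    intro t
    rw [DMvB_DP_eq, DMvB_DP_eq]
    refine DMvB_b_sum Complex.ofRealHom _ ?_ ?_ N hN a ha k
    · simp [nit]
    · intro m n hm hn
      rw [DMvB_nit_mul hm hn]
      push_cast
      rw [map_mul]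
      ring
  have hbd := DMvB_b_bd a (fun n hn => (hsupp n hn).1) h01 k
  have hI := hC (N ^ k) r (DMvB_b a k) χ t₀ T (Nat.one_le_pow _ _ hN) hT
  have hS1 : ∑ n ∈ Icc 1 (N ^ k), DMvB_b a k n * (1 / (n : ℝ)) = (∑ n ∈ Icc 1 N, a n * (1 / (n : ℝ))) ^ k := by
    have := DMvB_b_sum (RingHom.id ℝ) (fun n => 1 / (n : ℝ)) (by simp)
      (by intro m n _ _; push_cast; ring) N hN a ha k
    simpa using this
  have hS2 : ∑ n ∈ Icc 1 (N ^ k), DMvB_b a k n * (1 / (n : ℝ) ^ 2) =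
      (∑ n ∈ Icc 1 N, a n * (1 / (n : ℝ) ^ 2)) ^ k := by
    have := DMvB_b_sum (RingHom.id ℝ) (fun n => 1 / (n : ℝ) ^ 2) (by simp)
      (by intro m n _ _; push_cast; ring) N hN a ha k
    simpa using this
  have hs1 : ∑ n ∈ Icc 1 N, a n * (1 / (n : ℝ)) ≤ D := by
    refine le_trans (le_of_eq ?_) hsum
    refine Finset.sum_congr rfl (fun n _ => by ring)
  have hs1' : 0 ≤ ∑ n ∈ Icc 1 N, a n * (1 / (n : ℝ)) :=
    Finset.sum_nonneg (fun n _ => mul_nonneg (h01 n).1 (by positivity))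
  have hs2' : 0 ≤ ∑ n ∈ Icc 1 N, a n * (1 / (n : ℝ) ^ 2) :=
    Finset.sum_nonneg (fun n _ => mul_nonneg (h01 n).1 (by positivity))
  have hA0 : 0 < A₀ := by linarith
  have hs2 : ∑ n ∈ Icc 1 N, a n * (1 / (n : ℝ) ^ 2) ≤ D / A₀ := by
    calc ∑ n ∈ Icc 1 N, a n * (1 / (n : ℝ) ^ 2) ≤ ∑ n ∈ Icc 1 N, (a n * (1 / (n : ℝ))) * (1 / A₀) := by
          refine Finset.sum_le_sum (fun n hn => ?_)
          by_cases hz : a n = 0
          · rw [hz]; simp
          have h1 := (hsupp n hz).2.1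
          have hn0 : (0 : ℝ) < n := by linarith
          have : 1 / (n : ℝ) ^ 2 ≤ 1 / (n : ℝ) * (1 / A₀) := by
            rw [sq, one_div_mul_one_div]
            exact one_div_le_one_div_of_le (by positivity) (by gcongr)
          rw [mul_assoc]
          exact mul_le_mul_of_nonneg_left this (h01 n).1
      _ = (∑ n ∈ Icc 1 N, a n * (1 / (n : ℝ))) * (1 / A₀) := by rw [Finset.sum_mul]
      _ ≤ D * (1 / A₀) := by gcongr
      _ = D / A₀ := by ring
  have hDk : 0 < D ^ k := by positivity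
  have hsumB : ∑ n ∈ Icc 1 (N ^ k), DMvB_b a k n ^ 2 * (T / n ^ 2 + 1 / n) ≤ k.factorial * (2 * D ^ k) := by
    calc ∑ n ∈ Icc 1 (N ^ k), DMvB_b a k n ^ 2 * (T / n ^ 2 + 1 / n)
        ≤ ∑ n ∈ Icc 1 (N ^ k), k.factorial * (T * (DMvB_b a k n * (1 / (n : ℝ) ^ 2)) +
          DMvB_b a k n * (1 / (n : ℝ))) := by
          refine Finset.sum_le_sum (fun n hn => ?_)
          have h1 := (hbd n).1
          have h2 := (hbd n).2.1
          calc DMvB_b a k n ^ 2 * (T / n ^ 2 + 1 / n)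
              = DMvB_b a k n * (DMvB_b a k n * (T / n ^ 2 + 1 / n)) := by ring
            _ ≤ k.factorial * (DMvB_b a k n * (T / n ^ 2 + 1 / n)) := by gcongr
            _ = _ := by ring
      _ = k.factorial * (T * (∑ n ∈ Icc 1 N, a n * (1 / (n : ℝ) ^ 2)) ^ k +
          (∑ n ∈ Icc 1 N, a n * (1 / (n : ℝ))) ^ k) := by
          rw [← Finset.mul_sum, Finset.sum_add_distrib, ← Finset.mul_sum, hS1, hS2]
      _ ≤ k.factorial * (T * (D / A₀) ^ k + D ^ k) := by gcongr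
      _ ≤ k.factorial * (2 * D ^ k) := by
          have : T * (D / A₀) ^ k ≤ D ^ k := by
            rw [div_pow, mul_div_assoc']
            rw [div_le_iff₀ (by positivity)]
            calc T * D ^ k ≤ A₀ ^ k * D ^ k := by gcongr
              _ = _ := by ring
          have h2 : T * (D / A₀) ^ k + D ^ k ≤ 2 * D ^ k := by linarith
          gcongr
  have hint : ∫ t in t₀..(t₀ + T), ‖DP N a χ t‖ ^ (2 * k) ≤
      (C * k ^ 2 * k.factorial * 2) * (1 + Real.log N) ^ 2 * D ^ k := by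
    have e1 : ∀ t, ‖DP N a χ t‖ ^ (2 * k) = ‖DP (N ^ k) (DMvB_b a k) χ t‖ ^ 2 := by
      intro t
      rw [hDPk, norm_pow]
      ring
    simp_rw [e1]
    refine hI.trans ?_
    have hlg : 1 + Real.log ((N ^ k : ℕ) : ℝ) ≤ k * (1 + Real.log N) := by
      push_cast
      rw [Real.log_pow]
      nlinarith
    have hlg0 : 0 ≤ 1 + Real.log ((N ^ k : ℕ) : ℝ) := by
      have := Real.log_natCast_nonneg (N ^ k)
      linarith
    calc C * (1 + Real.log ((N ^ k : ℕ) : ℝ)) ^ 2 *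
          ∑ n ∈ Icc 1 (N ^ k), DMvB_b a k n ^ 2 * (T / n ^ 2 + 1 / n)
        ≤ C * (k * (1 + Real.log N)) ^ 2 * (k.factorial * (2 * D ^ k)) := by gcongr
      _ = _ := by ring
  -- Markov
  set S : Set ℝ := {t : ℝ | t₀ ≤ t ∧ t ≤ t₀ + T ∧ lam < ‖DP N a χ t‖} with hS
  have hcont : Continuous (fun t => ‖DP N a χ t‖ ^ (2 * k)) :=
    ((DP_continuous N a χ).norm).pow _
  have hSm : MeasurableSet S := by
    have : S = Set.Icc t₀ (t₀ + T) ∩ {t | lam < ‖DP N a χ t‖} := by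
      ext t
      simp only [hS, Set.mem_ofPred_eq, Set.mem_inter_iff, Set.mem_Icc]
      tauto
    rw [this]
    exact measurableSet_Icc.inter (measurableSet_lt measurable_const (DP_continuous N a χ).norm.measurable)
  have hSsub : S ⊆ Set.Icc t₀ (t₀ + T) := fun t ht => ⟨ht.1, ht.2.1⟩
  have hIcc : IntegrableOn (fun t => ‖DP N a χ t‖ ^ (2 * k)) (Set.Icc t₀ (t₀ + T)) :=
    hcont.continuousOn.integrableOn_compact isCompact_Icc
  have hfin : volume S < ⊤ := (measure_mono hSsub).trans_lt measure_Icc_lt_top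
  have h1 : lam ^ (2 * k) * (volume S).toReal ≤ ∫ t in t₀..(t₀ + T), ‖DP N a χ t‖ ^ (2 * k) := by
    rw [intervalIntegral.integral_of_le (by linarith), ← integral_Icc_eq_integral_Ioc]
    calc lam ^ (2 * k) * (volume S).toReal = ∫ _t in S, lam ^ (2 * k) := by
          rw [setIntegral_const, smul_eq_mul, mul_comm]
          rfl
      _ ≤ ∫ t in S, ‖DP N a χ t‖ ^ (2 * k) := by
          refine setIntegral_mono_on (integrableOn_const hfin.ne) (hIcc.mono_set hSsub) hSm (fun t ht => ?_)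
          exact pow_le_pow_left₀ hlam.le ht.2.2.le _
      _ ≤ ∫ t in Set.Icc t₀ (t₀ + T), ‖DP N a χ t‖ ^ (2 * k) := by
          refine setIntegral_mono_set hIcc ?_ (Filter.Eventually.of_forall hSsub)
          exact Filter.Eventually.of_forall (fun t => by positivity)
  rw [le_div_iff₀ (by positivity)]
  calc (volume S).toReal * lam ^ (2 * k) = lam ^ (2 * k) * (volume S).toReal := mul_comm _ _
    _ ≤ _ := h1.trans hint

end Pool.Agent.M58
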