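import Pool.Agent.W_b58c63_h68.ArB
import Pool.Agent.W_b58c63_h68.JFin
import Pool.Agent.W_b58c63_h68.CharSum

/-!
# Project M1: exceptional set for Goldbach partitions with a prime in the window (helper68): definitions
-/

set_option autoImplicit false

noncomputable section

open Finset

namespace Pool.Agent.M58

export Pool.Agent.Wb58c63 (Pr ap aw XM vY tp l0 PI VP prim mem_PI)

/-- `e (x) = exp (2 π i x)`. -/
def ex (x : ℝ) : ℂ := Complex.exp (2 * Real.pi * x * Complex.I)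

/-- The tent of half width `1` and height `1` at `0`. -/
def tent (x : ℝ) : ℝ := max 0 (1 - |x|)

/-- `n ^ (- i t)`. -/
def nit (n : ℕ) (t : ℝ) : ℂ := (n : ℂ) ^ (-((t : ℂ) * Complex.I))

/-- The indicator of the integers `n ≥ 1` without prime factors below `z`. -/
def rh (z : ℝ) (n : ℕ) : ℝ :=
  open Classical in if n ≠ 0 ∧ ∀ p ∈ n.primeFactors, z ≤ (p : ℝ) then 1 else 0

/-- The Dirichlet polynomial `∑_{1 ≤ n ≤ N} a (n) χ (n) n ^ (- 1 - i t)`. -/
def DP (N : ℕ) (a : ℕ → ℝ) {r : ℕ} (χ : DirichletCharacter ℂ r) (t : ℝ) : ℂ :=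
  ∑ n ∈ Icc 1 N, ((a n / n : ℝ) : ℂ) * χ (n : ZMod r) * nit n t

/-- The oscillating integral. -/
def osc (h : ℝ → ℝ) (u : ℝ) : ℂ := ∫ v : ℝ, (h v : ℂ) * Complex.exp (-(u * v : ℝ) * Complex.I)

end Pool.Agent.M58
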