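import Pool.Agent.W_b58c63_m1.EWeyl
import Pool.Agent.W_b58c63_h68.VTyA
import Pool.Agent.W_b58c63_h68.LSa

/-!
# The smooth weight and its exponential sums (helper68)
-/

set_option autoImplicit false

noncomputable section

open Finset

namespace Pool.Agent.M58

export Pool.Agent.Wb58c63 (dn)

/-- The smooth weight of the integers in the window. -/
def ww (k : ℕ) (Y : ℝ) (m : ℕ) : ℝ := aw k Y m * Real.log m

theorem EA_log (Y : ℝ) (hY : 3 ≤ Y) : Real.log (2 * Y) ≤ 2 * Real.log Y := by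
  rw [Real.log_mul (by norm_num) (by linarith)]
  have : Real.log 2 ≤ Real.log Y := Real.log_le_log (by norm_num) (by linarith)
  linarith

theorem EA_zero (k : ℕ) (Y : ℝ) : ww k Y 0 = 0 := by
  unfold ww
  simp

theorem EA_out (k : ℕ) (Y : ℝ) (hY : 3 ≤ Y) (m : ℕ) (hm : 2 * Y ≤ m) : aw k Y m = 0 := by
  by_contra h
  have := (Pool.Agent.Wb58c63.aw_support k Y (by linarith) m h).2
  linarith

/-- Size and variation. (`Wb58c63.aw_support`, `aw_le`, `var_log_aw`, `var_aw`: `ww (d l) = aw (d l) (log d + log l)`, and only `d ≤ 2 Y + 1`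
matter.) -/
theorem ww_props (k : ℕ) : ∃ C : ℝ, 1 ≤ C ∧ ∀ Y : ℝ, 3 ≤ Y →
    (∀ m, 0 ≤ ww k Y m ∧ ww k Y m ≤ C * Real.log Y ∧ (ww k Y m ≠ 0 → Y < m ∧ (m : ℝ) < 2 * Y)) ∧
    ∑ m ∈ Icc 1 ⌊2 * Y⌋₊, ww k Y m ≤ C * Y * Real.log Y ∧
    ∀ d B : ℕ, 1 ≤ d → ∑ l ∈ range B, |ww k Y (d * (l + 1)) - ww k Y (d * l)| ≤ C * Real.log Y := by
  obtain ⟨C1, hC1, h1⟩ := Pool.Agent.Wb58c63.var_aw k
  obtain ⟨C2, hC2, h2⟩ := Pool.Agent.Wb58c63.var_log_aw k
  set C : ℝ := 2 ^ k * 4 + 2 * C1 + C2 with hC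
  have hk1 : (1 : ℝ) ≤ 2 ^ k := one_le_pow₀ (by norm_num)
  refine ⟨C, by linarith, ?_⟩
  intro Y hY
  have hY1 : 1 ≤ Y := by linarith
  have hlY : 0 ≤ Real.log Y := Real.log_nonneg hY1
  have hsize : ∀ m, 0 ≤ ww k Y m ∧ ww k Y m ≤ 2 ^ k * 2 * Real.log Y ∧
      (ww k Y m ≠ 0 → Y < m ∧ (m : ℝ) < 2 * Y) := by
    intro m
    have ha := Pool.Agent.Wb58c63.aw_nonneg k Y hY1 m
    have hb := Pool.Agent.Wb58c63.aw_le k Y hY1 m
    have hlm : 0 ≤ Real.log m := Real.log_natCast_nonneg m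
    refine ⟨mul_nonneg ha hlm, ?_, fun h =>
      Pool.Agent.Wb58c63.aw_support k Y hY1 m (left_ne_zero_of_mul h)⟩
    by_cases h : aw k Y m = 0
    · unfold ww
      rw [h, zero_mul]
      positivity
    · have h3 := Pool.Agent.Wb58c63.aw_support k Y hY1 m h
      have h4 : Real.log m ≤ Real.log (2 * Y) := Real.log_le_log (by linarith) h3.2.le
      have h5 := EA_log Y hY
      calc ww k Y m ≤ 2 ^ k * (2 * Real.log Y) :=
            mul_le_mul hb (by linarith) hlm (by positivity)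
        _ = _ := by ring
  refine ⟨fun m => ⟨(hsize m).1, (hsize m).2.1.trans ?_, (hsize m).2.2⟩, ?_, ?_⟩
  · exact mul_le_mul_of_nonneg_right (by linarith) hlY
  · calc ∑ m ∈ Icc 1 ⌊2 * Y⌋₊, ww k Y m ≤ ∑ _m ∈ Icc 1 ⌊2 * Y⌋₊, 2 ^ k * 2 * Real.log Y :=
          Finset.sum_le_sum fun m _ => (hsize m).2.1
      _ = ⌊2 * Y⌋₊ * (2 ^ k * 2 * Real.log Y) := by
          rw [Finset.sum_const, Nat.card_Icc, nsmul_eq_mul, Nat.add_sub_cancel]
      _ ≤ 2 * Y * (2 ^ k * 2 * Real.log Y) :=
          mul_le_mul_of_nonneg_right (Nat.floor_le (by linarith)) (by positivity)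
      _ = 2 ^ k * 4 * (Y * Real.log Y) := by ring
      _ ≤ C * (Y * Real.log Y) := mul_le_mul_of_nonneg_right (by linarith) (by positivity)
      _ = C * Y * Real.log Y := by ring
  · intro d B hd
    have hd0 : (d : ℝ) ≠ 0 := by
      have : (1 : ℝ) ≤ d := by exact_mod_cast hd
      positivity
    have hsplit : ∀ l : ℕ, ww k Y (d * (l + 1)) - ww k Y (d * l) =
        Real.log d * (aw k Y (d * (l + 1)) - aw k Y (d * l)) +
          (Real.log ((l : ℝ) + 1) * aw k Y (d * (l + 1)) - Real.log l * aw k Y (d * l)) := by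
      intro l
      have e1 : ww k Y (d * (l + 1)) =
          aw k Y (d * (l + 1)) * (Real.log d + Real.log ((l : ℝ) + 1)) := by
        unfold ww
        rw [← Real.log_mul hd0 (by positivity)]
        push_cast
        rfl
      rcases Nat.eq_zero_or_pos l with hl | hl
      · subst hl
        rw [e1, Nat.mul_zero, EA_zero, Pool.Agent.Wb58c63.VTyA_aw_zero k (by linarith)]
        simp
        ring
      · have e2 : ww k Y (d * l) = aw k Y (d * l) * (Real.log d + Real.log l) := by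
          unfold ww
          have hl0 : (l : ℝ) ≠ 0 := by
            have : (1 : ℝ) ≤ l := by exact_mod_cast hl
            positivity
          rw [← Real.log_mul hd0 hl0]
          push_cast
          rfl
        rw [e1, e2]
        ring
    by_cases hdY : 2 * Y ≤ d
    · have h0 : ∀ l : ℕ, ww k Y (d * l) = 0 := by
        intro l
        rcases Nat.eq_zero_or_pos l with hl | hl
        · subst hl
          rw [Nat.mul_zero, EA_zero]
        · unfold ww
          rw [EA_out k Y hY (d * l), zero_mul]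
          have : d ≤ d * l := Nat.le_mul_of_pos_right d hl
          have : (d : ℝ) ≤ ((d * l : ℕ) : ℝ) := by exact_mod_cast this
          linarith
      have h3 : ∑ l ∈ range B, |ww k Y (d * (l + 1)) - ww k Y (d * l)| = 0 := by
        refine Finset.sum_eq_zero fun l _ => ?_
        rw [h0, h0, sub_zero, abs_zero]
      rw [h3]
      positivity
    · push Not at hdY
      have hld0 : 0 ≤ Real.log d := Real.log_natCast_nonneg d
      have hld : Real.log d ≤ 2 * Real.log Y := by
        have h3 : Real.log d ≤ Real.log (2 * Y) :=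
          Real.log_le_log (by positivity) hdY.le
        exact h3.trans (EA_log Y hY)
      calc ∑ l ∈ range B, |ww k Y (d * (l + 1)) - ww k Y (d * l)|
          ≤ ∑ l ∈ range B, (Real.log d * |aw k Y (d * (l + 1)) - aw k Y (d * l)| +
            |Real.log ((l : ℝ) + 1) * aw k Y (d * (l + 1)) - Real.log l * aw k Y (d * l)|) := by
            refine Finset.sum_le_sum fun l _ => ?_
            rw [hsplit l]
            refine (abs_add_le _ _).trans ?_
            rw [abs_mul, abs_of_nonneg hld0]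
        _ = Real.log d * ∑ l ∈ range B, |aw k Y (d * (l + 1)) - aw k Y (d * l)| +
            ∑ l ∈ range B, |Real.log ((l : ℝ) + 1) * aw k Y (d * (l + 1)) -
              Real.log l * aw k Y (d * l)| := by
            rw [Finset.sum_add_distrib, Finset.mul_sum]
        _ ≤ 2 * Real.log Y * C1 + C2 * Real.log Y := by
            refine add_le_add (mul_le_mul hld (h1 Y (by linarith) d B hd)
              (Finset.sum_nonneg fun _ _ => abs_nonneg _) (by positivity))
              (h2 Y (by linarith) d B hd)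
        _ = (2 * C1 + C2) * Real.log Y := by ring
        _ ≤ C * Real.log Y := mul_le_mul_of_nonneg_right (by linarith) hlY

theorem EA_ex_add (x y : ℝ) : ex (x + y) = ex x * ex y := by
  unfold ex
  rw [← Complex.exp_add]
  congr 1
  push_cast
  ring

theorem EA_dn (β : ℝ) : 4 * dn β ≤ ‖ex β - 1‖ := by
  have h := Pool.Agent.Wb58c63.LSa_ee_sub β
  have e : Pool.Agent.Wb58c63.ee β = ex β := by
    unfold Pool.Agent.Wb58c63.ee ex
    congr 1
    ring
  rwa [e] at h

theorem EA_abel (w : ℕ → ℝ) (β : ℝ) (M : ℕ) (h0 : w 0 = 0) (hM : w (M + 1) = 0) :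
    (1 - ex β) * ∑ m ∈ Icc 1 M, (w m : ℂ) * ex (m * β) =
      ∑ l ∈ range (M + 1), ((w (l + 1) - w l : ℝ) : ℂ) * ex ((l + 1 : ℕ) * β) := by
  have h1 : ∑ m ∈ Icc 1 M, (w m : ℂ) * ex (m * β) = ∑ l ∈ range (M + 1), (w l : ℂ) * ex (l * β) := by
    rw [Finset.sum_range_succ', h0]
    simp only [Complex.ofReal_zero, zero_mul, add_zero]
    rw [Finset.range_eq_Ico, Finset.sum_Ico_add' (fun m : ℕ => (w m : ℂ) * ex (m * β)) 0 M 1]
    rfl
  have h2 : ∑ m ∈ Icc 1 M, (w m : ℂ) * ex (m * β) =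
      ∑ l ∈ range (M + 1), (w (l + 1) : ℂ) * ex ((l + 1 : ℕ) * β) := by
    rw [Finset.sum_range_succ, hM]
    simp only [Complex.ofReal_zero, zero_mul, add_zero]
    rw [Finset.range_eq_Ico, Finset.sum_Ico_add' (fun m : ℕ => (w m : ℂ) * ex (m * β)) 0 M 1]
    rfl
  rw [sub_mul, one_mul]
  nth_rewrite 1 [h2]
  rw [h1, Finset.mul_sum, ← Finset.sum_sub_distrib]
  refine Finset.sum_congr rfl fun l _ => ?_
  have h3 : ex ((l + 1 : ℕ) * β) = ex (l * β) * ex β := by
    rw [← EA_ex_add]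
    congr 1
    push_cast
    ring
  rw [h3]
  push_cast
  ring

/-- (Trivially, and by Abel summation with `geom_bound`; `ex (m β)` depends only on `β mod 1`.) -/
theorem ww_exp (k : ℕ) : ∃ C : ℝ, 1 ≤ C ∧ ∀ Y β : ℝ, 3 ≤ Y →
    ‖∑ m ∈ Icc 1 ⌊2 * Y⌋₊, (ww k Y m : ℂ) * ex (m * β)‖ ≤ C * Y * Real.log Y ∧
    ‖∑ m ∈ Icc 1 ⌊2 * Y⌋₊, (ww k Y m : ℂ) * ex (m * β)‖ * dn β ≤ C * Real.log Y := by
  obtain ⟨C, hC, h⟩ := ww_props k
  refine ⟨C, hC, ?_⟩
  intro Y β hY
  obtain ⟨h1, h2, h3⟩ := h Y hY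
  have hlY : 0 ≤ Real.log Y := Real.log_nonneg (by linarith)
  constructor
  · refine (norm_sum_le _ _).trans (le_trans (le_of_eq ?_) h2)
    refine Finset.sum_congr rfl fun m _ => ?_
    rw [norm_mul, EWeyl_norm, mul_one, Complex.norm_real, Real.norm_of_nonneg (h1 m).1]
  · have hM : ww k Y (⌊2 * Y⌋₊ + 1) = 0 := by
      unfold ww
      rw [EA_out k Y hY, zero_mul]
      push_cast
      exact (Nat.lt_floor_add_one _).le
    have h4 := EA_abel (ww k Y) β ⌊2 * Y⌋₊ (EA_zero k Y) hM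
    have h5 := congrArg norm h4
    rw [norm_mul, norm_sub_rev] at h5
    have h6 : ‖∑ l ∈ range (⌊2 * Y⌋₊ + 1), ((ww k Y (l + 1) - ww k Y l : ℝ) : ℂ) *
        ex ((l + 1 : ℕ) * β)‖ ≤ C * Real.log Y := by
      refine (norm_sum_le _ _).trans (le_trans (le_of_eq ?_) (h3 1 (⌊2 * Y⌋₊ + 1) le_rfl))
      refine Finset.sum_congr rfl fun l _ => ?_
      rw [norm_mul, EWeyl_norm, mul_one, Complex.norm_real, Real.norm_eq_abs, one_mul, one_mul]
    have h7 := EA_dn β
    set S := ‖∑ m ∈ Icc 1 ⌊2 * Y⌋₊, (ww k Y m : ℂ) * ex (m * β)‖ with hS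
    have hS0 : 0 ≤ S := norm_nonneg _
    have h8 : 4 * dn β * S ≤ C * Real.log Y := by
      calc 4 * dn β * S ≤ ‖ex β - 1‖ * S := mul_le_mul_of_nonneg_right h7 hS0
        _ = _ := h5
        _ ≤ _ := h6
    have h9 : 0 ≤ dn β := abs_nonneg _
    have h10 : 0 ≤ dn β * S := mul_nonneg h9 hS0
    linarith

theorem EA_dn_le (x : ℝ) (n : ℤ) : dn x ≤ |x - n| := round_le x n

theorem EA_dn_half (x : ℝ) : dn x ≤ 1 / 2 := abs_sub_round x

theorem EA_sq (K : ℕ) : ∑ n ∈ range K, (1 : ℝ) / ((n : ℝ) + 1) ^ 2 ≤ 2 := by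
  have key : ∀ K : ℕ, ∑ n ∈ range (K + 1), (1 : ℝ) / ((n : ℝ) + 1) ^ 2 ≤ 2 - 1 / ((K : ℝ) + 1) := by
    intro K
    induction K with
    | zero => norm_num
    | succ K ih =>
      rw [Finset.sum_range_succ]
      have hK : (0 : ℝ) ≤ K := Nat.cast_nonneg K
      have h1 : (1 : ℝ) / ((K + 1 : ℕ) + 1) ^ 2 ≤ 1 / ((K : ℝ) + 1) - 1 / ((K + 1 : ℕ) + 1) := by
        push_cast
        rw [div_sub_div _ _ (by positivity) (by positivity),
          div_le_div_iff₀ (by positivity) (by positivity)]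
        nlinarith
      linarith
  rcases Nat.eq_zero_or_pos K with h | h
  · subst h
    norm_num
  · obtain ⟨K', rfl⟩ : ∃ K', K = K' + 1 := ⟨K - 1, by omega⟩
    have h1 := key K'
    have : (0 : ℝ) < 1 / ((K' : ℝ) + 1) := by positivity
    linarith

theorem EA_harm (K : ℕ) : ∑ n ∈ range K, (1 : ℝ) / ((n : ℝ) + 1) ≤ 1 + Real.log K := by
  have h := harmonic_le_one_add_log K
  unfold harmonic at h
  push_cast at h
  simpa only [one_div] using h

open Classical in
/-- Sums over well spaced points. The points `x i` have mutual distances `≥ 1 / D` modulo `1`.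

Proof. At most one point is at distance `< 1 / (2 D)` from `0`. Order the others by distance on each side: the `j`-th is at distance
`≥ j / (2 D)`; there are at most `D` points on each side. -/
theorem spaced_sum {ι : Type} (s : Finset ι) (x : ι → ℝ) (D : ℝ) (hD : 1 ≤ D)
    (h : ∀ i ∈ s, ∀ j ∈ s, i ≠ j → 1 / D ≤ dn (x i - x j)) :
    ∃ i₀ : Option ι, (∑ i ∈ s.filter (fun i => some i ≠ i₀), 1 / dn (x i) ≤ 8 * D * (1 + Real.log D)) ∧
      (∀ i ∈ s, some i ≠ i₀ → 1 / (2 * D) ≤ dn (x i)) ∧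
      ∑ i ∈ s.filter (fun i => some i ≠ i₀), 1 / dn (x i) ^ 2 ≤ 32 * D ^ 2 := by
  have hD0 : 0 < D := by linarith
  -- the signed distances
  have hdist : ∀ i j, dn (x i - x j) ≤ |(x i - round (x i)) - (x j - round (x j))| := by
    intro i j
    have h1 := EA_dn_le (x i - x j) (round (x i) - round (x j))
    push_cast at h1
    calc _ ≤ _ := h1
      _ = _ := by congr 1; ring
  have hone : ∃ i₀ : Option ι, ∀ i ∈ s, some i ≠ i₀ → 1 / (2 * D) ≤ dn (x i) := by
    by_cases hex : ∃ i ∈ s, dn (x i) < 1 / (2 * D)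
    · obtain ⟨i, hi, hid⟩ := hex
      refine ⟨some i, fun j hj hne => ?_⟩
      by_contra hjd
      push Not at hjd
      have hji : j ≠ i := fun h => hne (by rw [h])
      have h1 := h j hj i hi hji
      have h2 := hdist j i
      have h3 : |(x j - round (x j)) - (x i - round (x i))| ≤ dn (x j) + dn (x i) := abs_sub _ _
      have h4 : (1 : ℝ) / (2 * D) + 1 / (2 * D) = 1 / D := by
        field_simp
        norm_num
      linarith
    · push Not at hex
      exact ⟨none, fun i hi _ => hex i hi⟩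
  obtain ⟨i₀, hi₀⟩ := hone
  set K : ℕ := ⌊D / 2⌋₊ + 1 with hK
  have hKD : (K : ℝ) ≤ D := by
    rcases lt_or_ge D 2 with h2 | h2
    · have h3 : ⌊D / 2⌋₊ = 0 := Nat.floor_eq_zero.2 (by linarith)
      rw [hK, h3]
      simpa using hD
    · have h3 := Nat.floor_le (by positivity : (0 : ℝ) ≤ D / 2)
      rw [hK]
      push_cast
      linarith
  set key : ι → Bool × ℕ := fun i => (decide (0 ≤ x i - round (x i)), ⌊D * dn (x i)⌋₊) with hkey
  have hinj : ∀ i ∈ s, ∀ j ∈ s, key i = key j → i = j := by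
    intro i hi j hj hij
    by_contra hne
    have h1 := h i hi j hj hne
    have h2 := hdist i j
    rw [hkey] at hij
    simp only [Prod.mk.injEq, decide_eq_decide] at hij
    obtain ⟨h3, h4⟩ := hij
    have hdi : 0 ≤ D * dn (x i) := mul_nonneg hD0.le (abs_nonneg _)
    have hdj : 0 ≤ D * dn (x j) := mul_nonneg hD0.le (abs_nonneg _)
    have h5 := Nat.floor_le hdi
    have h6 := Nat.lt_floor_add_one (D * dn (x i))
    have h7 := Nat.floor_le hdj
    have h8 := Nat.lt_floor_add_one (D * dn (x j))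
    rw [h4] at h5 h6
    have h9 : |(x i - round (x i)) - (x j - round (x j))| = |dn (x i) - dn (x j)| := by
      unfold dn
      by_cases hs : 0 ≤ x i - round (x i)
      · rw [abs_of_nonneg hs, abs_of_nonneg (h3.1 hs)]
      · have hs' : ¬ 0 ≤ x j - round (x j) := fun h => hs (h3.2 h)
        push Not at hs hs'
        rw [abs_of_neg hs, abs_of_neg hs']
        rw [abs_sub_comm]
        congr 1
        ring
    rw [h9] at h2
    have h10 : |D * dn (x i) - D * dn (x j)| < 1 := by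
      rw [abs_lt]
      constructor <;> linarith
    rw [← mul_sub, abs_mul, abs_of_pos hD0] at h10
    have h11 : D * (1 / D) ≤ D * |dn (x i) - dn (x j)| :=
      mul_le_mul_of_nonneg_left (h1.trans h2) hD0.le
    rw [mul_one_div_cancel hD0.ne'] at h11
    linarith
  have hrange : ∀ i, (key i).2 < K := by
    intro i
    rw [hkey, hK]
    simp only
    have h1 : D * dn (x i) ≤ D / 2 := by
      have := mul_le_mul_of_nonneg_left (EA_dn_half (x i)) hD0.le
      linarith
    have := Nat.floor_le_floor h1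
    omega
  have hlow : ∀ i ∈ s, some i ≠ i₀ → (((key i).2 : ℝ) + 1) / (2 * D) ≤ dn (x i) := by
    intro i hi hne
    have h1 := hi₀ i hi hne
    have h2 := Nat.floor_le (mul_nonneg hD0.le (abs_nonneg _) : 0 ≤ D * dn (x i))
    rw [div_le_iff₀ (by positivity)]
    rw [div_le_iff₀ (by positivity)] at h1
    rcases Nat.eq_zero_or_pos (key i).2 with h0 | h0
    · rw [h0]
      push_cast
      linarith
    · have h3 : (1 : ℝ) ≤ (key i).2 := by exact_mod_cast h0
      have h4 : ((key i).2 : ℝ) ≤ D * dn (x i) := h2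
      linarith
  have hmaps : ∀ (f : ℕ → ℝ), (∀ n, 0 ≤ f n) →
      ∑ i ∈ s.filter (fun i => some i ≠ i₀), f (key i).2 ≤ 2 * ∑ n ∈ range K, f n := by
    intro f hf
    have h1 : ∑ i ∈ s.filter (fun i => some i ≠ i₀), f (key i).2 =
        ∑ p ∈ (s.filter (fun i => some i ≠ i₀)).image key, f p.2 := by
      rw [Finset.sum_image]
      intro i hi j hj hij
      exact hinj i (Finset.mem_filter.1 hi).1 j (Finset.mem_filter.1 hj).1 hij
    rw [h1]
    calc ∑ p ∈ (s.filter (fun i => some i ≠ i₀)).image key, f p.2 ≤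
          ∑ p ∈ (univ : Finset Bool) ×ˢ range K, f p.2 := by
          refine Finset.sum_le_sum_of_subset_of_nonneg ?_ fun _ _ _ => hf _
          intro p hp
          obtain ⟨i, _, rfl⟩ := Finset.mem_image.1 hp
          exact Finset.mem_product.2 ⟨Finset.mem_univ _, Finset.mem_range.2 (hrange i)⟩
      _ = 2 * ∑ n ∈ range K, f n := by
          rw [Finset.sum_product]
          simp
  refine ⟨i₀, ?_, hi₀, ?_⟩
  · calc ∑ i ∈ s.filter (fun i => some i ≠ i₀), 1 / dn (x i) ≤
          ∑ i ∈ s.filter (fun i => some i ≠ i₀), 2 * D * (1 / (((key i).2 : ℝ) + 1)) := by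
          refine Finset.sum_le_sum fun i hi => ?_
          rw [Finset.mem_filter] at hi
          have h1 := hlow i hi.1 hi.2
          have h2 : (0 : ℝ) < ((key i).2 : ℝ) + 1 := by positivity
          calc 1 / dn (x i) ≤ 1 / ((((key i).2 : ℝ) + 1) / (2 * D)) :=
                one_div_le_one_div_of_le (by positivity) h1
            _ = 2 * D * (1 / (((key i).2 : ℝ) + 1)) := by
                field_simp
      _ ≤ 2 * ∑ n ∈ range K, 2 * D * (1 / ((n : ℝ) + 1)) :=
          hmaps (fun n => 2 * D * (1 / ((n : ℝ) + 1))) (fun n => by positivity)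
      _ = 4 * D * ∑ n ∈ range K, (1 : ℝ) / ((n : ℝ) + 1) := by
          rw [← Finset.mul_sum]
          ring
      _ ≤ 4 * D * (1 + Real.log K) := mul_le_mul_of_nonneg_left (EA_harm K) (by positivity)
      _ ≤ 4 * D * (1 + Real.log D) := by
          have hK0 : (0 : ℝ) < K := by
            rw [hK]
            positivity
          have := Real.log_le_log hK0 hKD
          gcongr
      _ ≤ 8 * D * (1 + Real.log D) := by
          have : 0 ≤ Real.log D := Real.log_nonneg hD
          have h1 : 0 ≤ D * (1 + Real.log D) := by positivity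
          linarith
  · calc ∑ i ∈ s.filter (fun i => some i ≠ i₀), 1 / dn (x i) ^ 2 ≤
          ∑ i ∈ s.filter (fun i => some i ≠ i₀), 4 * D ^ 2 * (1 / (((key i).2 : ℝ) + 1) ^ 2) := by
          refine Finset.sum_le_sum fun i hi => ?_
          rw [Finset.mem_filter] at hi
          have h1 := hlow i hi.1 hi.2
          have h2 : (0 : ℝ) < ((key i).2 : ℝ) + 1 := by positivity
          calc 1 / dn (x i) ^ 2 ≤ 1 / ((((key i).2 : ℝ) + 1) / (2 * D)) ^ 2 :=
                one_div_le_one_div_of_le (by positivity) (pow_le_pow_left₀ (by positivity) h1 2)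
            _ = 4 * D ^ 2 * (1 / (((key i).2 : ℝ) + 1) ^ 2) := by
                field_simp
                ring
      _ ≤ 2 * ∑ n ∈ range K, 4 * D ^ 2 * (1 / ((n : ℝ) + 1) ^ 2) :=
          hmaps (fun n => 4 * D ^ 2 * (1 / ((n : ℝ) + 1) ^ 2)) (fun n => by positivity)
      _ = 8 * D ^ 2 * ∑ n ∈ range K, (1 : ℝ) / ((n : ℝ) + 1) ^ 2 := by
          rw [← Finset.mul_sum]
          ring
      _ ≤ 8 * D ^ 2 * 2 := mul_le_mul_of_nonneg_left (EA_sq K) (by positivity)
      _ ≤ 32 * D ^ 2 := by nlinarith [sq_nonneg D]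

end Pool.Agent.M58
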