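import Pool.Agent.W_b58c63_m1.SHo

/-!
# The sieve of Brun and Hooley: main terms (helper68)
-/

set_option autoImplicit false

noncomputable section

open Finset

namespace Pool.Agent.M58

/-- The cut product of one block. -/
def Ub (g : ℕ → ℝ) (P : Finset ℕ) (b : ℕ) : ℝ :=
  ∑ S ∈ P.powerset.filter (fun S => S.card ≤ b), (-1 : ℝ) ^ S.card * ∏ p ∈ S, g p

/-- The elementary symmetric function. -/
def El (g : ℕ → ℝ) (P : Finset ℕ) (b : ℕ) : ℝ :=
  ∑ S ∈ P.powerset.filter (fun S => S.card = b), ∏ p ∈ S, g p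

theorem SHoB_pair (A B : Finset ℕ) (h : Disjoint A B) (f : Finset ℕ → Finset ℕ → ℝ) :
    ∑ S ∈ (A ∪ B).powerset, f (S ∩ A) (S ∩ B) =
      ∑ S ∈ A.powerset, ∑ T ∈ B.powerset, f S T := by
  rw [← Finset.sum_product']
  refine Finset.sum_nbij' (fun S => (S ∩ A, S ∩ B)) (fun T => T.1 ∪ T.2) ?_ ?_ ?_ ?_ ?_
  · intro S hS
    simp only [Finset.mem_product, Finset.mem_powerset]
    exact ⟨Finset.inter_subset_right, Finset.inter_subset_right⟩
  · intro T hT
    simp only [Finset.mem_product, Finset.mem_powerset] at hT ⊢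
    exact Finset.union_subset_union hT.1 hT.2
  · intro S hS
    simp only [Finset.mem_powerset] at hS
    simp only
    rw [← Finset.inter_union_distrib_left]
    exact Finset.inter_eq_left.mpr hS
  · intro T hT
    simp only [Finset.mem_product, Finset.mem_powerset] at hT
    have h1 : (T.1 ∪ T.2) ∩ A = T.1 := by
      ext x
      simp only [Finset.mem_inter, Finset.mem_union]
      constructor
      · rintro ⟨hx | hx, hxA⟩
        · exact hx
        · exact absurd (hT.2 hx) (Finset.disjoint_left.mp h hxA)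
      · intro hx
        exact ⟨Or.inl hx, hT.1 hx⟩
    have h2 : (T.1 ∪ T.2) ∩ B = T.2 := by
      ext x
      simp only [Finset.mem_inter, Finset.mem_union]
      constructor
      · rintro ⟨hx | hx, hxB⟩
        · exact absurd hxB (Finset.disjoint_left.mp h (hT.1 hx))
        · exact hx
      · intro hx
        exact ⟨Or.inr hx, hT.2 hx⟩
    exact Prod.ext h1 h2
  · intro S hS
    rfl

theorem SHoB_blk_succ (P : ℕ → Finset ℕ) (J : ℕ) : blk P (J + 1) = blk P J ∪ P J := by
  unfold blk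
  rw [Finset.range_add_one, Finset.biUnion_insert, Finset.union_comm]

theorem SHoB_subset_blk (P : ℕ → Finset ℕ) {J j : ℕ} (h : j < J) : P j ⊆ blk P J := by
  intro x hx
  unfold blk
  rw [Finset.mem_biUnion]
  exact ⟨j, Finset.mem_range.mpr h, hx⟩

theorem SHoB_disj_blk (P : ℕ → Finset ℕ) (J : ℕ)
    (hP : ∀ i < J + 1, ∀ j < J + 1, i ≠ j → Disjoint (P i) (P j)) :
    Disjoint (blk P J) (P J) := by
  unfold blk
  rw [Finset.disjoint_biUnion_left]
  intro i hi
  have hi' := Finset.mem_range.mp hi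
  exact hP i (by omega) J (by omega) (by omega)

theorem SHoB_key (P : ℕ → Finset ℕ) (F : ℕ → Finset ℕ → ℝ) (J : ℕ)
    (hP : ∀ i < J, ∀ j < J, i ≠ j → Disjoint (P i) (P j)) :
    ∑ S ∈ (blk P J).powerset, ∏ j ∈ range J, F j (S ∩ P j) =
      ∏ j ∈ range J, ∑ T ∈ (P j).powerset, F j T := by
  induction J with
  | zero => simp [blk]
  | succ J ih =>
    have hd := SHoB_disj_blk P J hP
    rw [SHoB_blk_succ, Finset.prod_range_succ, ← ih (fun i hi j hj => hP i (by omega) j (by omega)),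
      Finset.sum_mul_sum,
      ← SHoB_pair (blk P J) (P J) hd (fun S T => (∏ j ∈ range J, F j (S ∩ P j)) * F J T)]
    refine Finset.sum_congr rfl fun S hS => ?_
    rw [Finset.prod_range_succ]
    congr 1
    refine Finset.prod_congr rfl fun j hj => ?_
    rw [Finset.inter_assoc, Finset.inter_eq_right.mpr (SHoB_subset_blk P (Finset.mem_range.mp hj))]

theorem SHoB_split (P : ℕ → Finset ℕ) (J : ℕ) (S : Finset ℕ) (hS : S ⊆ blk P J) :
    S = (range J).biUnion (fun j => S ∩ P j) := by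
  rw [← Finset.inter_biUnion]
  exact (Finset.inter_eq_left.mpr hS).symm

theorem SHoB_disj_int (P : ℕ → Finset ℕ) (J : ℕ) (S : Finset ℕ)
    (hP : ∀ i < J, ∀ j < J, i ≠ j → Disjoint (P i) (P j)) :
    ((range J : Finset ℕ) : Set ℕ).PairwiseDisjoint (fun j => S ∩ P j) := by
  intro i hi j hj hij
  have hi' := Finset.mem_range.mp (Finset.mem_coe.mp hi)
  have hj' := Finset.mem_range.mp (Finset.mem_coe.mp hj)
  exact (hP i hi' j hj' hij).mono Finset.inter_subset_right Finset.inter_subset_right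

theorem SHoB_prod_split (P : ℕ → Finset ℕ) (J : ℕ) (S : Finset ℕ) (f : ℕ → ℝ)
    (hP : ∀ i < J, ∀ j < J, i ≠ j → Disjoint (P i) (P j)) (hS : S ⊆ blk P J) :
    ∏ p ∈ S, f p = ∏ j ∈ range J, ∏ p ∈ S ∩ P j, f p := by
  conv_lhs => rw [SHoB_split P J S hS]
  rw [Finset.prod_biUnion (SHoB_disj_int P J S hP)]

theorem SHoB_sign (S : Finset ℕ) : (-1 : ℝ) ^ S.card = ∏ _p ∈ S, (-1 : ℝ) := by
  rw [Finset.prod_const]

/-- The factor of one block. -/
def SHoB_F (g : ℕ → ℝ) (b : ℕ) (T : Finset ℕ) : ℝ :=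
  if T.card ≤ b then (-1 : ℝ) ^ T.card * ∏ p ∈ T, g p else 0

/-- The factor of the exceptional block. -/
def SHoB_G (g : ℕ → ℝ) (b : ℕ) (T : Finset ℕ) : ℝ :=
  if T.card = b then ∏ p ∈ T, g p else 0

theorem SHoB_sumF (g : ℕ → ℝ) (b : ℕ) (P : Finset ℕ) :
    ∑ T ∈ P.powerset, SHoB_F g b T = Ub g P b := by
  unfold Ub SHoB_F
  rw [Finset.sum_filter]

theorem SHoB_sumG (g : ℕ → ℝ) (b : ℕ) (P : Finset ℕ) :
    ∑ T ∈ P.powerset, SHoB_G g b T = El g P b := by
  unfold El SHoB_G
  rw [Finset.sum_filter]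

theorem SHoB_prod_F (g : ℕ → ℝ) (b : ℕ → ℕ) (I : Finset ℕ) (Q : ℕ → Finset ℕ) :
    ∏ j ∈ I, SHoB_F g (b j) (Q j) = (open Classical in if ∀ j ∈ I, (Q j).card ≤ b j then
      ∏ j ∈ I, ((-1 : ℝ) ^ (Q j).card * ∏ p ∈ Q j, g p) else 0) := by
  classical
  by_cases h : ∀ j ∈ I, (Q j).card ≤ b j
  · rw [if_pos h]
    refine Finset.prod_congr rfl fun j hj => ?_
    unfold SHoB_F
    rw [if_pos (h j hj)]
  · rw [if_neg h]
    push Not at h
    obtain ⟨j, hj, hjb⟩ := h
    refine Finset.prod_eq_zero hj ?_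
    unfold SHoB_F
    rw [if_neg (by omega)]

/-- The main terms. -/
theorem sum_lap (g : ℕ → ℝ) (P : ℕ → Finset ℕ) (b : ℕ → ℕ) (J : ℕ)
    (hP : ∀ i < J, ∀ j < J, i ≠ j → Disjoint (P i) (P j)) :
    ∑ S ∈ (blk P J).powerset, lap P b J S * ∏ p ∈ S, g p = ∏ j ∈ range J, Ub g (P j) (b j) := by
  classical
  have h1 := SHoB_key P (fun j => SHoB_F g (b j)) J hP
  simp only [SHoB_sumF] at h1
  rw [← h1]
  refine Finset.sum_congr rfl fun S hS => ?_
  have hS' := Finset.mem_powerset.mp hS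
  rw [SHoB_prod_F g b (range J) (fun j => S ∩ P j)]
  unfold lap
  by_cases h : ∀ j < J, (S ∩ P j).card ≤ b j
  · have h' : ∀ j ∈ range J, (S ∩ P j).card ≤ b j := fun j hj => h j (Finset.mem_range.mp hj)
    rw [if_pos h, if_pos h', Finset.prod_mul_distrib, SHoB_prod_split P J S g hP hS', SHoB_sign,
      SHoB_prod_split P J S (fun _ => (-1 : ℝ)) hP hS']
    simp only [Finset.prod_const]
  · have h' : ¬ ∀ j ∈ range J, (S ∩ P j).card ≤ b j := fun h2 =>
      h fun j hj => h2 j (Finset.mem_range.mpr hj)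
    rw [if_neg h, if_neg h', zero_mul]

theorem sum_lam (g : ℕ → ℝ) (P : ℕ → Finset ℕ) (b : ℕ → ℕ) (J : ℕ)
    (hP : ∀ i < J, ∀ j < J, i ≠ j → Disjoint (P i) (P j)) :
    ∑ S ∈ (blk P J).powerset, lam P b J S * ∏ p ∈ S, g p = ∏ j ∈ range J, Ub g (P j) (b j) -
      ∑ j ∈ range J, El g (P j) (b j + 1) * ∏ i ∈ (range J).erase j, Ub g (P i) (b i) := by
  classical
  have h0 := sum_lap g P b J hP
  rw [← h0]
  have h2 : ∀ j ∈ range J, El g (P j) (b j + 1) * ∏ i ∈ (range J).erase j, Ub g (P i) (b i) =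
      ∑ S ∈ (blk P J).powerset, (if (S ∩ P j).card = b j + 1 ∧
        ∀ i < J, i ≠ j → (S ∩ P i).card ≤ b i then (-1 : ℝ) ^ (S \ P j).card else 0) *
          ∏ p ∈ S, g p := by
    intro j hj
    have hj' := Finset.mem_range.mp hj
    have h1 := SHoB_key P (fun i => if i = j then SHoB_G g (b j + 1) else SHoB_F g (b i)) J hP
    have h3 : ∏ i ∈ range J, ∑ T ∈ (P i).powerset,
        (if i = j then SHoB_G g (b j + 1) else SHoB_F g (b i)) T =
        El g (P j) (b j + 1) * ∏ i ∈ (range J).erase j, Ub g (P i) (b i) := by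
      rw [← Finset.mul_prod_erase (range J) _ hj]
      congr 1
      · rw [if_pos rfl, SHoB_sumG]
      · refine Finset.prod_congr rfl fun i hi => ?_
        rw [if_neg (Finset.ne_of_mem_erase hi), SHoB_sumF]
    rw [← h3, ← h1]
    refine Finset.sum_congr rfl fun S hS => ?_
    have hS' := Finset.mem_powerset.mp hS
    rw [← Finset.mul_prod_erase (range J) _ hj]
    have h4 : ∏ x ∈ (range J).erase j, (if x = j then SHoB_G g (b j + 1) else SHoB_F g (b x))
        (S ∩ P x) = ∏ x ∈ (range J).erase j, SHoB_F g (b x) (S ∩ P x) := by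
      refine Finset.prod_congr rfl fun i hi => ?_
      rw [if_neg (Finset.ne_of_mem_erase hi)]
    rw [h4, if_pos rfl, SHoB_prod_F g b ((range J).erase j) (fun i => S ∩ P i)]
    by_cases hA : (S ∩ P j).card = b j + 1
    · by_cases hB : ∀ i < J, i ≠ j → (S ∩ P i).card ≤ b i
      · have hB' : ∀ i ∈ (range J).erase j, (S ∩ P i).card ≤ b i := fun i hi =>
          hB i (Finset.mem_range.mp (Finset.mem_of_mem_erase hi)) (Finset.ne_of_mem_erase hi)
        rw [if_pos hB', if_pos ⟨hA, hB⟩]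
        unfold SHoB_G
        rw [if_pos hA, Finset.prod_mul_distrib]
        have e1 : ∏ p ∈ S, g p = (∏ p ∈ S ∩ P j, g p) *
            ∏ i ∈ (range J).erase j, ∏ p ∈ S ∩ P i, g p := by
          rw [SHoB_prod_split P J S g hP hS', ← Finset.mul_prod_erase (range J) _ hj]
        have e2 : (-1 : ℝ) ^ (S \ P j).card =
            ∏ i ∈ (range J).erase j, (-1 : ℝ) ^ (S ∩ P i).card := by
          have h5 : S \ P j ⊆ blk P J := fun x hx => hS' (Finset.mem_sdiff.mp hx).1
          rw [SHoB_sign, SHoB_prod_split P J (S \ P j) (fun _ => (-1 : ℝ)) hP h5,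
            ← Finset.mul_prod_erase (range J) _ hj]
          have h6 : (S \ P j) ∩ P j = ∅ := by
            ext x
            simp
          rw [h6, Finset.prod_empty, one_mul]
          refine Finset.prod_congr rfl fun i hi => ?_
          have h7 : (S \ P j) ∩ P i = S ∩ P i := by
            ext x
            simp only [Finset.mem_inter, Finset.mem_sdiff]
            constructor
            · rintro ⟨⟨h8, _⟩, h9⟩
              exact ⟨h8, h9⟩
            · rintro ⟨h8, h9⟩
              refine ⟨⟨h8, ?_⟩, h9⟩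
              exact Finset.disjoint_left.mp (hP i (Finset.mem_range.mp (Finset.mem_of_mem_erase hi))
                j hj' (Finset.ne_of_mem_erase hi)) h9
          rw [h7, Finset.prod_const]
        rw [e1, e2]
        ring
      · have hB' : ¬ ∀ i ∈ (range J).erase j, (S ∩ P i).card ≤ b i := fun h5 =>
          hB fun i hi hij => h5 i (Finset.mem_erase.mpr ⟨hij, Finset.mem_range.mpr hi⟩)
        rw [if_neg hB', if_neg (fun h5 => hB h5.2), mul_zero, zero_mul]
    · unfold SHoB_G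
      have hC : ¬ ((S ∩ P j).card = b j + 1 ∧ ∀ i < J, i ≠ j → (S ∩ P i).card ≤ b i) :=
        fun h5 => hA h5.1
      rw [if_neg hA, if_neg hC, zero_mul, zero_mul]
  rw [Finset.sum_congr rfl h2, Finset.sum_comm, ← Finset.sum_sub_distrib]
  refine Finset.sum_congr rfl fun S hS => ?_
  unfold lam
  rw [sub_mul, Finset.sum_mul]

theorem SHoB_Ub_insert (g : ℕ → ℝ) (Q : Finset ℕ) (p : ℕ) (hp : p ∉ Q) (b : ℕ) :
    Ub g (insert p Q) (b + 1) = Ub g Q (b + 1) - g p * Ub g Q b := by
  unfold Ub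
  simp only [Finset.sum_filter]
  rw [Finset.sum_powerset_insert hp, sub_eq_add_neg, Finset.mul_sum, ← Finset.sum_neg_distrib]
  congr 1
  refine Finset.sum_congr rfl fun S hS => ?_
  have hpS : p ∉ S := fun h => hp (Finset.mem_powerset.mp hS h)
  rw [Finset.card_insert_of_notMem hpS, Finset.prod_insert hpS]
  by_cases h : S.card ≤ b
  · rw [if_pos h, if_pos (by omega)]
    ring
  · rw [if_neg h, if_neg (by omega)]
    ring

theorem SHoB_Ub_zero (g : ℕ → ℝ) (Q : Finset ℕ) : Ub g Q 0 = 1 := by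
  unfold Ub
  have h : Q.powerset.filter (fun S => S.card ≤ 0) = {∅} := by
    ext S
    simp only [Finset.mem_filter, Finset.mem_powerset, Finset.mem_singleton]
    constructor
    · rintro ⟨_, h⟩
      exact Finset.card_eq_zero.mp (by omega)
    · rintro rfl
      simp
  rw [h]
  simp

theorem SHoB_El_insert (g : ℕ → ℝ) (Q : Finset ℕ) (p : ℕ) (hp : p ∉ Q) (b : ℕ) :
    El g (insert p Q) (b + 1) = El g Q (b + 1) + g p * El g Q b := by
  unfold El
  simp only [Finset.sum_filter]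
  rw [Finset.sum_powerset_insert hp, Finset.mul_sum]
  congr 1
  refine Finset.sum_congr rfl fun S hS => ?_
  have hpS : p ∉ S := fun h => hp (Finset.mem_powerset.mp hS h)
  rw [Finset.card_insert_of_notMem hpS, Finset.prod_insert hpS]
  by_cases h : S.card = b
  · rw [if_pos h, if_pos (by omega)]
  · rw [if_neg h, if_neg (by omega)]
    ring

theorem SHoB_El_zero (g : ℕ → ℝ) (Q : Finset ℕ) : El g Q 0 = 1 := by
  unfold El
  have h : Q.powerset.filter (fun S => S.card = 0) = {∅} := by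
    ext S
    simp only [Finset.mem_filter, Finset.mem_powerset, Finset.mem_singleton]
    constructor
    · rintro ⟨_, h⟩
      exact Finset.card_eq_zero.mp h
    · rintro rfl
      simp
  rw [h]
  simp

theorem SHoB_El_empty (g : ℕ → ℝ) (b : ℕ) : El g ∅ (b + 1) = 0 := by
  unfold El
  simp [Finset.sum_filter]

theorem SHoB_Ub_empty (g : ℕ → ℝ) (b : ℕ) : Ub g ∅ b = 1 := by
  unfold Ub
  simp [Finset.sum_filter]

theorem SHoB_VP01 (g : ℕ → ℝ) (P : Finset ℕ) (hg : ∀ p ∈ P, 0 ≤ g p ∧ g p ≤ 1) :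
    0 ≤ VP g P ∧ VP g P ≤ 1 := by
  unfold Pool.Agent.Wb58c63.VP
  refine ⟨Finset.prod_nonneg fun p hp => by linarith [(hg p hp).2], ?_⟩
  exact Finset.prod_le_one (fun p hp => by linarith [(hg p hp).2]) (fun p hp => by linarith [(hg p hp).1])

theorem SHoB_VP_insert (g : ℕ → ℝ) (Q : Finset ℕ) (p : ℕ) (hp : p ∉ Q) :
    VP g (insert p Q) = (1 - g p) * VP g Q := by
  unfold Pool.Agent.Wb58c63.VP
  rw [Finset.prod_insert hp]

theorem SHoB_D (g : ℕ → ℝ) (P : Finset ℕ) (hg : ∀ p ∈ P, 0 ≤ g p ∧ g p ≤ 1) : ∀ b : ℕ,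
    0 ≤ (-1 : ℝ) ^ b * (Ub g P b - VP g P) ∧
      (-1 : ℝ) ^ b * (Ub g P b - VP g P) ≤ El g P (b + 1) := by
  induction P using Finset.induction_on with
  | empty =>
    intro b
    rw [SHoB_Ub_empty, SHoB_El_empty]
    unfold Pool.Agent.Wb58c63.VP
    simp
  | insert p Q hp ih =>
    have hgQ : ∀ q ∈ Q, 0 ≤ g q ∧ g q ≤ 1 := fun q hq => hg q (Finset.mem_insert_of_mem hq)
    have hgp := hg p (Finset.mem_insert_self p Q)
    have ih' := ih hgQ
    obtain ⟨v0, v1⟩ := SHoB_VP01 g Q hgQ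
    intro b
    cases b with
    | zero =>
      rw [SHoB_Ub_zero, SHoB_VP_insert g Q p hp, SHoB_El_insert g Q p hp, SHoB_El_zero]
      have h1 := ih' 0
      rw [SHoB_Ub_zero] at h1
      simp only [pow_zero, one_mul, zero_add] at h1 ⊢
      have h2 : 0 ≤ g p * VP g Q := mul_nonneg hgp.1 v0
      have h3 : g p * VP g Q ≤ g p := by
        have := mul_le_mul_of_nonneg_left v1 hgp.1
        linarith
      constructor
      · nlinarith
      · nlinarith [h1.2]
    | succ b =>
      rw [SHoB_Ub_insert g Q p hp, SHoB_VP_insert g Q p hp, SHoB_El_insert g Q p hp]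
      have h1 := ih' (b + 1)
      have h2 := ih' b
      have e : (-1 : ℝ) ^ (b + 1) * (Ub g Q (b + 1) - g p * Ub g Q b - (1 - g p) * VP g Q) =
          (-1 : ℝ) ^ (b + 1) * (Ub g Q (b + 1) - VP g Q) +
            g p * ((-1 : ℝ) ^ b * (Ub g Q b - VP g Q)) := by
        rw [pow_succ]
        ring
      rw [e]
      have h3 := mul_nonneg hgp.1 h2.1
      have h4 := mul_le_mul_of_nonneg_left h2.2 hgp.1
      constructor
      · linarith [h1.1]
      · linarith [h1.2]

/-- `VP ≤ Ub ≤ VP + El` for even `b` and `0 ≤ g ≤ 1` (induction on `P`, or: let every `p ∈ P` be removed independently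
with probability `g p`; pointwise this is `th1_ge`). -/
theorem Ub_bounds (g : ℕ → ℝ) (P : Finset ℕ) (b : ℕ) (hb : Even b) (hg : ∀ p ∈ P, 0 ≤ g p ∧ g p ≤ 1) :
    VP g P ≤ Ub g P b ∧ Ub g P b ≤ VP g P + El g P (b + 1) := by
  have h := SHoB_D g P hg b
  rw [hb.neg_one_pow, one_mul] at h
  exact ⟨by linarith [h.1], by linarith [h.2]⟩

theorem SHoB_bern (s t : ℝ) (hs : 0 ≤ s) (ht : 0 ≤ t) (n : ℕ) :
    s ^ (n + 1) + (n + 1) * t * s ^ n ≤ (s + t) ^ (n + 1) := by
  induction n with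
  | zero => simp
  | succ n ih =>
    have h1 := mul_le_mul_of_nonneg_left ih (add_nonneg hs ht)
    have h2 : 0 ≤ (n + 1 : ℝ) * t ^ 2 * s ^ n := by positivity
    have e1 : (s + t) * (s ^ (n + 1) + (n + 1) * t * s ^ n) =
        s ^ (n + 1 + 1) + ((n : ℝ) + 1 + 1) * t * s ^ (n + 1) + (n + 1 : ℝ) * t ^ 2 * s ^ n := by
      ring
    have e2 : (s + t) * (s + t) ^ (n + 1) = (s + t) ^ (n + 1 + 1) := by ring
    rw [e1, e2] at h1
    push_cast
    linarith

/-- `El ≤ (∑ g) ^ b / b!`. -/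
theorem El_le (g : ℕ → ℝ) (P : Finset ℕ) (b : ℕ) (hg : ∀ p ∈ P, 0 ≤ g p) :
    0 ≤ El g P b ∧ El g P b ≤ (∑ p ∈ P, g p) ^ b / b.factorial := by
  constructor
  · unfold El
    refine Finset.sum_nonneg fun S hS => ?_
    rw [Finset.mem_filter, Finset.mem_powerset] at hS
    exact Finset.prod_nonneg fun p hp => hg p (hS.1 hp)
  · induction P using Finset.induction_on generalizing b with
    | empty =>
      cases b with
      | zero => rw [SHoB_El_zero]; simp
      | succ b => rw [SHoB_El_empty]; simp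
    | insert p Q hp ih =>
      have hgQ : ∀ q ∈ Q, 0 ≤ g q := fun q hq => hg q (Finset.mem_insert_of_mem hq)
      have hgp := hg p (Finset.mem_insert_self p Q)
      cases b with
      | zero => rw [SHoB_El_zero]; simp
      | succ b =>
        rw [SHoB_El_insert g Q p hp, Finset.sum_insert hp]
        have hs : 0 ≤ ∑ q ∈ Q, g q := Finset.sum_nonneg hgQ
        have h1 := ih (b + 1) hgQ
        have h2 := mul_le_mul_of_nonneg_left (ih b hgQ) hgp
        have h3 := SHoB_bern (∑ q ∈ Q, g q) (g p) hs hgp b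
        have hf : (0 : ℝ) < ((b + 1).factorial : ℝ) := by positivity
        have hf' : (0 : ℝ) < (b.factorial : ℝ) := by positivity
        have e : (∑ q ∈ Q, g q) ^ (b + 1) / ((b + 1).factorial : ℝ) +
            g p * ((∑ q ∈ Q, g q) ^ b / (b.factorial : ℝ)) =
            ((∑ q ∈ Q, g q) ^ (b + 1) + (b + 1) * g p * (∑ q ∈ Q, g q) ^ b) /
              ((b + 1).factorial : ℝ) := by
          rw [Nat.factorial_succ]
          push_cast
          field_simp
        have h4 : ((∑ q ∈ Q, g q) ^ (b + 1) + (b + 1) * g p * (∑ q ∈ Q, g q) ^ b) /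
              ((b + 1).factorial : ℝ) ≤
            (g p + ∑ q ∈ Q, g q) ^ (b + 1) / ((b + 1).factorial : ℝ) := by
          rw [add_comm (g p)]
          exact div_le_div_of_nonneg_right h3 hf.le
        linarith

end Pool.Agent.M58
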