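import Pool.Agent.W_b58c63_m1.SPl
import Pool.Agent.W_b58c63_m1.SHoB

/-!
# The sieve of Brun and Hooley: the fundamental lemma (helper68)
-/

set_option autoImplicit false

noncomputable section

open Finset

namespace Pool.Agent.M58

/-- `1 - x ≥ exp (-4 x)` for `0 ≤ x ≤ 3/4`. -/
theorem SPlB_exp (x : ℝ) (h0 : 0 ≤ x) (h1 : x ≤ 3 / 4) : Real.exp (-(4 * x)) ≤ 1 - x := by
  have h2 : 0 < 1 - x := by linarith
  have h3 : 1 / (1 - x) ≤ Real.exp (x / (1 - x)) := by
    have h4 := Real.add_one_le_exp (x / (1 - x))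
    have h5 : x / (1 - x) + 1 = 1 / (1 - x) := by
      field_simp
      ring
    rw [h5] at h4
    exact h4
  have h4 : x / (1 - x) ≤ 4 * x := by
    rw [div_le_iff₀ h2]
    nlinarith
  have h5 : 1 / (1 - x) ≤ Real.exp (4 * x) := h3.trans (Real.exp_le_exp.2 h4)
  rw [Real.exp_neg]
  rw [div_le_iff₀ h2] at h5
  have h6 := Real.exp_pos (4 * x)
  rw [inv_le_iff_one_le_mul₀ h6]
  linarith

/-- A bound for the sums over the blocks. -/
theorem SPlB_S0 : ∃ S : ℝ, 1 ≤ S ∧ ∀ (z : ℝ) (j : ℕ) (g : ℕ → ℝ), 2 ≤ z →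
    (∀ p, p.Prime → 0 ≤ g p ∧ g p ≤ 3 / 4 ∧ g p ≤ 4 / p) → ∑ p ∈ Pz z j, g p ≤ S := by
  obtain ⟨C, hC, h⟩ := Pool.Agent.Wb58c63.mertens_two
  have hl2 : 0 < Real.log 2 := Real.log_pos (by norm_num)
  refine ⟨4 * (Real.log 2 + C / Real.log 2) + 3, ?_, ?_⟩
  · have : 0 < C / Real.log 2 := by positivity
    linarith
  intro z j g hz hg
  have hz0 : 0 < z := by linarith
  have hC2 : 0 < C / Real.log 2 := by positivity
  set u := z ^ ((1 / 2 : ℝ) ^ (j + 1)) with hu
  have hu0 : 0 < u := Real.rpow_pos_of_pos hz0 _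
  have hu1 : 1 ≤ u := Real.one_le_rpow (by linarith) (by positivity)
  have hw : z ^ ((1 / 2 : ℝ) ^ j) = u ^ 2 := by
    rw [hu, ← Real.rpow_natCast (z ^ ((1 / 2 : ℝ) ^ (j + 1))) 2, ← Real.rpow_mul hz0.le]
    congr 1
    rw [pow_succ]
    push_cast
    ring
  have hP : Pz z j = PI u (u ^ 2) := by
    rw [Pz, hw]
  rcases le_or_gt 2 u with h2 | h2
  · have h3 := h u (u ^ 2) h2 (by nlinarith)
    have h4 : ∑ p ∈ Pz z j, g p ≤ ∑ p ∈ PI u (u ^ 2), 4 * ((1 : ℝ) / p) := by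
      rw [hP]
      refine sum_le_sum fun p hp => ?_
      rw [mem_PI] at hp
      have := (hg p hp.1).2.2
      calc g p ≤ 4 / p := this
        _ = 4 * ((1 : ℝ) / p) := by ring
    rw [← mul_sum] at h4
    have hlu : Real.log 2 ≤ Real.log u := Real.log_le_log (by norm_num) h2
    have hlu0 : 0 < Real.log u := by linarith
    have h5 : Real.log (u ^ 2) / Real.log u = 2 := by
      rw [Real.log_pow]
      push_cast
      field_simp
    rw [h5] at h3
    have h6 : C / Real.log u ≤ C / Real.log 2 := div_le_div_of_nonneg_left hC.le hl2 hlu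
    linarith
  · have h3 : Pz z j ⊆ range 4 := by
      intro p hp
      rw [hP, mem_PI] at hp
      rw [mem_range]
      have h4 : (p : ℝ) < 4 := by nlinarith [hp.2.2]
      exact_mod_cast h4
    have h4 : ∑ p ∈ Pz z j, g p ≤ ∑ _p ∈ Pz z j, (3 / 4 : ℝ) := by
      refine sum_le_sum fun p hp => ?_
      rw [hP, mem_PI] at hp
      exact (hg p hp.1).2.1
    have h5 : ((Pz z j).card : ℝ) ≤ 4 := by
      have := card_le_card h3
      rw [card_range] at this
      exact_mod_cast this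
    rw [sum_const, nsmul_eq_mul] at h4
    nlinarith

theorem SPlB_VP (g : ℕ → ℝ) (P : Finset ℕ) (S : ℝ) (hg : ∀ p ∈ P, 0 ≤ g p ∧ g p ≤ 3 / 4)
    (hS : ∑ p ∈ P, g p ≤ S) : Real.exp (-(4 * S)) ≤ VP g P := by
  have h1 : Real.exp (-(4 * ∑ p ∈ P, g p)) ≤ VP g P := by
    rw [mul_sum, ← sum_neg_distrib, Real.exp_sum]
    refine prod_le_prod (fun p _ => (Real.exp_pos _).le) fun p hp => ?_
    exact SPlB_exp (g p) (hg p hp).1 (hg p hp).2
  refine le_trans (Real.exp_le_exp.2 ?_) h1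
  linarith

theorem SPlB_VPblk (g : ℕ → ℝ) (z : ℝ) (hz : 2 ≤ z) :
    VP g (PI 0 z) = ∏ j ∈ range (Jz z), VP g (Pz z j) := by
  rw [← blk_Pz z hz]
  have : VP g (blk (Pz z) (Jz z)) = ∏ p ∈ (range (Jz z)).biUnion (Pz z), (1 - g p) := rfl
  rw [this, prod_biUnion]
  · rfl
  · intro i _ j _ hij
    exact Pz_disj z hz i j hij

/-- `S ^ n / n! ≤ exp (e S) exp (- n)`. -/
theorem SPlB_fact (S : ℝ) (hS : 0 ≤ S) (n : ℕ) :
    S ^ n / n.factorial ≤ Real.exp (Real.exp 1 * S) * Real.exp (-n) := by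
  have h1 : (Real.exp 1 * S) ^ n / n.factorial ≤ Real.exp (Real.exp 1 * S) :=
    Real.pow_div_factorial_le_exp _ (by positivity) n
  have h2 : (Real.exp 1 * S) ^ n / n.factorial = Real.exp n * (S ^ n / n.factorial) := by
    rw [mul_pow, ← Real.exp_nat_mul, mul_one]
    ring
  rw [h2] at h1
  have h3 : Real.exp n * Real.exp (-n) = 1 := by
    rw [← Real.exp_add]
    simp
  have h4 := mul_le_mul_of_nonneg_right h1 (Real.exp_pos (-n)).le
  calc S ^ n / n.factorial = (Real.exp n * Real.exp (-n)) * (S ^ n / n.factorial) := by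
        rw [h3, one_mul]
    _ = Real.exp n * (S ^ n / n.factorial) * Real.exp (-n) := by ring
    _ ≤ _ := h4

theorem SPlB_geo (J : ℕ) : ∑ j ∈ range J, Real.exp (-j) ≤ 2 := by
  have h1 : ∀ j : ℕ, Real.exp (-j) ≤ (1 / 2 : ℝ) ^ j := by
    intro j
    have h2 : Real.exp (-1) ≤ 1 / 2 := by
      rw [Real.exp_neg, one_div]
      refine inv_anti₀ (by norm_num) ?_
      have := Real.add_one_le_exp (1 : ℝ)
      linarith
    have h3 : Real.exp (-(j : ℝ)) = Real.exp (-1) ^ j := by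
      rw [← Real.exp_nat_mul]
      congr 1
      ring
    rw [h3]
    exact pow_le_pow_left₀ (Real.exp_pos _).le h2 j
  refine (sum_le_sum fun j _ => h1 j).trans ?_
  have h2 : ∀ J : ℕ, ∑ j ∈ range J, (1 / 2 : ℝ) ^ j = 2 - 2 * (1 / 2 : ℝ) ^ J := by
    intro J
    induction J with
    | zero => norm_num
    | succ J ih =>
      rw [sum_range_succ, ih, pow_succ]
      ring
  rw [h2]
  have : 0 < (1 / 2 : ℝ) ^ J := by positivity
  linarith

theorem SPlB_expx (x : ℝ) : Real.exp x ≤ 1 + x * Real.exp x := by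
  have h1 := Real.add_one_le_exp (-x)
  have h2 := mul_le_mul_of_nonneg_right h1 (Real.exp_pos x).le
  have h3 : Real.exp (-x) * Real.exp x = 1 := by
    rw [← Real.exp_add]
    simp
  rw [h3] at h2
  linarith

/-- **The fundamental lemma.** `g` is a density with `0 ≤ g (p) ≤ 3 / 4`, `g (p) ≤ 4 / p`.

Proof. Let `S₀` be a bound for `∑_{p ∈ Pz z j} 4 / p` (`Wb58c63.mertens_two` for large end points, the sum over
all primes below a constant is bounded; for the blocks with `z ^ (2 ^ (- j - 1)) < 2` sum over the primes `≥ 2`), so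
`VP g (Pz z j) ≥ v₀ = exp (- 2 S₀)`-like (`1 - x ≥ exp (- 2 x)` for `x ≤ 3 / 4`: `1 - 3 / 4 ≥ exp (- 3 / 2)`). By `Ub_bounds`
and `El_le` `Ub ≤ VP (1 + S₀ ^ (2 b + 2 j + 1) / ((2 b + 2 j + 1)! v₀))`; the product over `j` is
`≤ exp (∑_j ...) ≤ 1 + C exp (- b)` (for every `b ≥ 1` with a large `C`). For the lower bound the subtracted sum is
`≤ ∏ Ub ∑_j El_j / Ub_j ≤ C exp (- b) VP`. -/
theorem FL : ∃ C : ℝ, 1 ≤ C ∧ ∀ (z : ℝ) (b : ℕ) (g : ℕ → ℝ), 2 ≤ z → 1 ≤ b →
    (∀ p, p.Prime → 0 ≤ g p ∧ g p ≤ 3 / 4 ∧ g p ≤ 4 / p) →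
      VP g (PI 0 z) ≤ ∑ S ∈ (PI 0 z).powerset, lp' z b S * ∏ p ∈ S, g p ∧
      ∑ S ∈ (PI 0 z).powerset, lp' z b S * ∏ p ∈ S, g p ≤
        VP g (PI 0 z) * (1 + C * Real.exp (-b)) ∧
      VP g (PI 0 z) * (1 - C * Real.exp (-b)) ≤
        ∑ S ∈ (PI 0 z).powerset, lm' z b S * ∏ p ∈ S, g p := by
  obtain ⟨S, hS1, hS⟩ := SPlB_S0
  set v₀ := Real.exp (-(4 * S)) with hv₀
  have hv0 : 0 < v₀ := Real.exp_pos _
  have hv1 : v₀ ≤ 1 := Real.exp_le_one_iff.2 (by linarith)
  set A := Real.exp (Real.exp 1 * S) / v₀ with hA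
  have hA1 : 1 ≤ A := by
    rw [hA, le_div_iff₀ hv0, one_mul]
    exact hv1.trans (Real.one_le_exp (by positivity))
  set K := 2 * A with hK
  have hK1 : 1 ≤ K := by linarith
  refine ⟨K * Real.exp K, ?_, ?_⟩
  · have := Real.one_le_exp (show 0 ≤ K by linarith)
    nlinarith
  intro z b g hz hb hg
  have hgP : ∀ j, ∀ p ∈ Pz z j, 0 ≤ g p ∧ g p ≤ 3 / 4 := by
    intro j p hp
    rw [Pz, mem_PI] at hp
    exact ⟨(hg p hp.1).1, (hg p hp.1).2.1⟩
  have hgP1 : ∀ j, ∀ p ∈ Pz z j, 0 ≤ g p ∧ g p ≤ 1 := fun j p hp =>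
    ⟨(hgP j p hp).1, by linarith [(hgP j p hp).2]⟩
  have hv : ∀ j, v₀ ≤ VP g (Pz z j) := fun j => SPlB_VP g _ S (hgP j) (hS z j g hz hg)
  set ε : ℕ → ℝ := fun j => A * (Real.exp (-b) * Real.exp (-j)) with hε
  have hε0 : ∀ j, 0 ≤ ε j := fun j => by rw [hε]; positivity
  have hEl : ∀ j, 0 ≤ El g (Pz z j) (bz b j + 1) ∧ El g (Pz z j) (bz b j + 1) ≤ v₀ * ε j := by
    intro j
    have h1 := El_le g (Pz z j) (bz b j + 1) fun p hp => (hgP j p hp).1
    refine ⟨h1.1, h1.2.trans ?_⟩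
    have h2 : (∑ p ∈ Pz z j, g p) ^ (bz b j + 1) / ((bz b j + 1).factorial : ℝ) ≤
        S ^ (bz b j + 1) / ((bz b j + 1).factorial : ℝ) := by
      refine div_le_div_of_nonneg_right ?_ (by positivity)
      exact pow_le_pow_left₀ (sum_nonneg fun p hp => (hgP j p hp).1) (hS z j g hz hg) _
    refine h2.trans ((SPlB_fact S (by linarith) _).trans ?_)
    have h3 : v₀ * ε j = Real.exp (Real.exp 1 * S) * (Real.exp (-b) * Real.exp (-j)) := by
      rw [hε, hA]
      field_simp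
    rw [h3, ← Real.exp_add (-(b : ℝ)) (-(j : ℝ))]
    refine mul_le_mul_of_nonneg_left (Real.exp_le_exp.2 ?_) (Real.exp_pos _).le
    rw [bz]
    push_cast
    have h4 : (0 : ℝ) ≤ b := Nat.cast_nonneg b
    have h5 : (0 : ℝ) ≤ j := Nat.cast_nonneg j
    linarith
  have hUb : ∀ j, VP g (Pz z j) ≤ Ub g (Pz z j) (bz b j) ∧
      Ub g (Pz z j) (bz b j) ≤ VP g (Pz z j) * (1 + ε j) := by
    intro j
    have h1 := Ub_bounds g (Pz z j) (bz b j) ⟨b + j, by rw [bz]; ring⟩ (hgP1 j)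
    refine ⟨h1.1, h1.2.trans ?_⟩
    have h2 := (hEl j).2
    have h3 := mul_le_mul_of_nonneg_right (hv j) (hε0 j)
    linarith
  have hUpos : ∀ j, 0 < Ub g (Pz z j) (bz b j) := fun j => hv0.trans_le ((hv j).trans (hUb j).1)
  have hVpos : ∀ j, 0 < VP g (Pz z j) := fun j => hv0.trans_le (hv j)
  have hsum : ∑ j ∈ range (Jz z), ε j ≤ K * Real.exp (-b) := by
    rw [hε, ← mul_sum, ← mul_sum]
    have h1 := SPlB_geo (Jz z)
    have h2 : 0 ≤ A * Real.exp (-b) := by positivity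
    have h3 := mul_le_mul_of_nonneg_left h1 h2
    rw [hK]
    linarith
  have hsum0 : 0 ≤ ∑ j ∈ range (Jz z), ε j := sum_nonneg fun j _ => hε0 j
  have hb1 : Real.exp (-(b : ℝ)) ≤ 1 := Real.exp_le_one_iff.2 (by simp)
  have hbp := Real.exp_pos (-(b : ℝ))
  have hprod1 : VP g (PI 0 z) ≤ ∏ j ∈ range (Jz z), Ub g (Pz z j) (bz b j) := by
    rw [SPlB_VPblk g z hz]
    exact prod_le_prod (fun j _ => (hVpos j).le) fun j _ => (hUb j).1
  have hprod2 : ∏ j ∈ range (Jz z), Ub g (Pz z j) (bz b j) ≤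
      VP g (PI 0 z) * Real.exp (∑ j ∈ range (Jz z), ε j) := by
    rw [SPlB_VPblk g z hz, Real.exp_sum, ← prod_mul_distrib]
    refine prod_le_prod (fun j _ => (hUpos j).le) fun j _ => (hUb j).2.trans ?_
    refine mul_le_mul_of_nonneg_left ?_ (hVpos j).le
    have := Real.add_one_le_exp (ε j)
    linarith
  have hVV : 0 ≤ VP g (PI 0 z) := by
    rw [SPlB_VPblk g z hz]
    exact prod_nonneg fun j _ => (hVpos j).le
  have hexp : Real.exp (∑ j ∈ range (Jz z), ε j) ≤ 1 + K * Real.exp K * Real.exp (-b) := by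
    have h1 := SPlB_expx (∑ j ∈ range (Jz z), ε j)
    have h2 : Real.exp (∑ j ∈ range (Jz z), ε j) ≤ Real.exp K := by
      refine Real.exp_le_exp.2 (hsum.trans ?_)
      nlinarith
    have h3 : (∑ j ∈ range (Jz z), ε j) * Real.exp (∑ j ∈ range (Jz z), ε j) ≤
        (K * Real.exp (-b)) * Real.exp K :=
      mul_le_mul hsum h2 (Real.exp_pos _).le (by positivity)
    linarith
  have hlap : ∑ S ∈ (PI 0 z).powerset, lp' z b S * ∏ p ∈ S, g p =
      ∏ j ∈ range (Jz z), Ub g (Pz z j) (bz b j) := by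
    rw [← blk_Pz z hz]
    exact sum_lap g (Pz z) (bz b) (Jz z) fun i _ j _ h => Pz_disj z hz i j h
  have hlam : ∑ S ∈ (PI 0 z).powerset, lm' z b S * ∏ p ∈ S, g p =
      ∏ j ∈ range (Jz z), Ub g (Pz z j) (bz b j) -
      ∑ j ∈ range (Jz z), El g (Pz z j) (bz b j + 1) *
        ∏ i ∈ (range (Jz z)).erase j, Ub g (Pz z i) (bz b i) := by
    rw [← blk_Pz z hz]
    exact sum_lam g (Pz z) (bz b) (Jz z) fun i _ j _ h => Pz_disj z hz i j h
  rw [hlap, hlam]
  refine ⟨hprod1, hprod2.trans (mul_le_mul_of_nonneg_left hexp hVV), ?_⟩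
  have hUprod : 0 < ∏ j ∈ range (Jz z), Ub g (Pz z j) (bz b j) := prod_pos fun j _ => hUpos j
  have h1 : ∑ j ∈ range (Jz z), El g (Pz z j) (bz b j + 1) *
        ∏ i ∈ (range (Jz z)).erase j, Ub g (Pz z i) (bz b i) ≤
      ∑ j ∈ range (Jz z), ε j * ∏ i ∈ range (Jz z), Ub g (Pz z i) (bz b i) := by
    refine sum_le_sum fun j hj => ?_
    rw [← mul_prod_erase (range (Jz z)) _ hj, ← mul_assoc]
    refine mul_le_mul_of_nonneg_right ?_ (prod_nonneg fun i _ => (hUpos i).le)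
    have h2 := (hEl j).2
    have h3 := mul_le_mul_of_nonneg_left ((hv j).trans (hUb j).1) (hε0 j)
    linarith
  rw [← sum_mul] at h1
  have h2 : (∑ j ∈ range (Jz z), ε j) * ∏ i ∈ range (Jz z), Ub g (Pz z i) (bz b i) ≤
      (∑ j ∈ range (Jz z), ε j) * (VP g (PI 0 z) * Real.exp (∑ j ∈ range (Jz z), ε j)) :=
    mul_le_mul_of_nonneg_left hprod2 hsum0
  have h3 : (∑ j ∈ range (Jz z), ε j) * Real.exp (∑ j ∈ range (Jz z), ε j) ≤
        (K * Real.exp (-b)) * Real.exp K := by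
    have h2 : Real.exp (∑ j ∈ range (Jz z), ε j) ≤ Real.exp K := by
      refine Real.exp_le_exp.2 (hsum.trans ?_)
      nlinarith
    exact mul_le_mul hsum h2 (Real.exp_pos _).le (by positivity)
  have h4 := mul_le_mul_of_nonneg_left h3 hVV
  nlinarith

theorem SPlB_upper (z : ℝ) (hz : 2 ≤ z) :
    VP (fun p => 1 / (p : ℝ)) (PI 0 z) ≤ 1 / Real.log z := by
  set n := ⌈z⌉₊ with hn
  have hzn : z ≤ n := Nat.le_ceil z
  have hn2 : 2 ≤ n := by
    have : (2 : ℝ) ≤ n := hz.trans hzn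
    exact_mod_cast this
  have hlog : 0 < Real.log z := Real.log_pos (by linarith)
  let f : ℕ →* ℝ :=
    { toFun := fun n => (n : ℝ)⁻¹
      map_one' := by simp
      map_mul' := by intro a b; push_cast; rw [mul_inv] }
  have hf : ∀ {p : ℕ}, p.Prime → ‖f p‖ < 1 := by
    intro p hp
    have h1 : (1 : ℝ) < p := by exact_mod_cast hp.one_lt
    show ‖(p : ℝ)⁻¹‖ < 1
    rw [norm_inv, Real.norm_natCast]
    exact inv_lt_one_of_one_lt₀ h1
  obtain ⟨hs, hsum⟩ :=
    EulerProduct.summable_and_hasSum_smoothNumbers_prod_primesBelow_geometric hf n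
  have hpart : ∑ m ∈ Icc 1 (n - 1), (m : ℝ)⁻¹ ≤ ∏ p ∈ n.primesBelow, (1 - f p)⁻¹ := by
    let g : (Icc 1 (n - 1) : Finset ℕ) → n.smoothNumbers := fun m =>
      ⟨m.1, Nat.mem_smoothNumbers_of_lt (by have := m.2; rw [mem_Icc] at this; omega)
        (by have := m.2; rw [mem_Icc] at this; omega)⟩
    have hg : Function.Injective g := by
      intro a b hab
      apply Subtype.ext
      exact congrArg (fun x => x.1) hab
    have h1 : ∑ m ∈ Icc 1 (n - 1), (m : ℝ)⁻¹ = ∑ m ∈ (Finset.univ.map ⟨g, hg⟩), f m.1 := by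
      rw [Finset.sum_map]
      rw [← Finset.sum_coe_sort]
      rfl
    rw [h1]
    apply sum_le_hasSum _ _ hsum
    intro i _
    show 0 ≤ ((i.1 : ℕ) : ℝ)⁻¹
    positivity
  have hharm : Real.log z ≤ ∑ m ∈ Icc 1 (n - 1), (m : ℝ)⁻¹ := by
    have h1 := log_add_one_le_harmonic (n - 1)
    rw [harmonic_eq_sum_Icc, Nat.sub_add_cancel (by omega)] at h1
    push_cast at h1
    have h2 : Real.log z ≤ Real.log n := Real.log_le_log (by linarith) hzn
    linarith
  have hprod : VP (fun p => 1 / (p : ℝ)) (PI 0 z) = (∏ p ∈ n.primesBelow, (1 - f p)⁻¹)⁻¹ := by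
    unfold Pool.Agent.Wb58c63.VP
    rw [← Finset.prod_inv_distrib]
    have hset : PI 0 z = n.primesBelow := by
      ext p
      rw [mem_PI, Nat.mem_primesBelow, hn, Nat.lt_ceil]
      constructor
      · rintro ⟨h1, _, h2⟩
        exact ⟨h2, h1⟩
      · rintro ⟨h1, h2⟩
        exact ⟨h2, Nat.cast_nonneg p, h1⟩
    rw [hset]
    apply Finset.prod_congr rfl
    intro p _
    show 1 - 1 / (p : ℝ) = ((1 - (p : ℝ)⁻¹)⁻¹)⁻¹
    rw [inv_inv, one_div]
  rw [hprod, ← one_div]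
  exact one_div_le_one_div_of_le hlog (hharm.trans hpart)

/-- `VP (1 / p) ≤ C / log z` and `≥ c / log z` over the primes below `z`. -/
theorem VP_inv : ∃ c C : ℝ, 0 < c ∧ 0 < C ∧ ∀ z : ℝ, 2 ≤ z →
    c / Real.log z ≤ VP (fun p => 1 / (p : ℝ)) (PI 0 z) ∧
      VP (fun p => 1 / (p : ℝ)) (PI 0 z) ≤ C / Real.log z := by
  obtain ⟨c, hc, hlow⟩ := Pool.Agent.Wb58c63.VP_ge
  have hl2 : 0 < Real.log 2 := Real.log_pos (by norm_num)
  refine ⟨min (c / 2) (Real.log 2 / 2), 1, lt_min (by positivity) (by positivity), one_pos, ?_⟩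
  intro z hz
  have hlz : 0 < Real.log z := Real.log_pos (by linarith)
  refine ⟨?_, SPlB_upper z hz⟩
  rcases lt_or_ge z 3 with h3 | h3
  · have h1 : PI 0 z ⊆ {2} := by
      intro p hp
      rw [mem_PI] at hp
      rw [mem_singleton]
      have h4 : p < 3 := by
        have : (p : ℝ) < 3 := hp.2.2.trans h3
        exact_mod_cast this
      have := hp.1.two_le
      omega
    have h2 : (1 / 2 : ℝ) ≤ VP (fun p => 1 / (p : ℝ)) (PI 0 z) := by
      rcases subset_singleton_iff.1 h1 with h | h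
      · rw [h]
        unfold Pool.Agent.Wb58c63.VP
        rw [prod_empty]
        norm_num
      · rw [h]
        unfold Pool.Agent.Wb58c63.VP
        rw [prod_singleton]
        norm_num
    refine le_trans ?_ h2
    rw [div_le_iff₀ hlz]
    have h4 : Real.log 2 ≤ Real.log z := Real.log_le_log (by norm_num) hz
    have h5 := min_le_right (c / 2) (Real.log 2 / 2)
    linarith
  · have h2mem : 2 ∈ PI 0 z := by
      rw [mem_PI]
      exact ⟨Nat.prime_two, by norm_num, by push_cast; linarith⟩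
    have h1 := hlow ((PI 0 z).erase 2) z h3 (by
      intro p hp
      rw [mem_erase, mem_PI] at hp
      have := hp.2.1.two_le
      refine ⟨hp.2.1, by omega, hp.2.2.2⟩)
    have h2 : VP (fun p => 1 / (p : ℝ)) (PI 0 z) =
        (1 / 2) * VP (fun p => 1 / (p : ℝ)) ((PI 0 z).erase 2) := by
      unfold Pool.Agent.Wb58c63.VP
      rw [← mul_prod_erase (PI 0 z) _ h2mem]
      norm_num
    have h4 : VP Pool.Agent.Wb58c63.gp ((PI 0 z).erase 2) ≤
        VP (fun p => 1 / (p : ℝ)) ((PI 0 z).erase 2) := by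
      unfold Pool.Agent.Wb58c63.VP
      refine prod_le_prod (fun p hp => ?_) fun p hp => ?_
      · rw [mem_erase, mem_PI] at hp
        have h5 : 3 ≤ p := by
          have := hp.2.1.two_le
          omega
        have h6 : (3 : ℝ) ≤ p := by exact_mod_cast h5
        unfold Pool.Agent.Wb58c63.gp
        rw [sub_nonneg, div_le_one (by linarith)]
        linarith
      · rw [mem_erase, mem_PI] at hp
        have h5 : 3 ≤ p := by
          have := hp.2.1.two_le
          omega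
        have h6 : (3 : ℝ) ≤ p := by exact_mod_cast h5
        unfold Pool.Agent.Wb58c63.gp
        have h7 : 1 / (p : ℝ) ≤ 1 / ((p : ℝ) - 1) :=
          one_div_le_one_div_of_le (by linarith) (by linarith)
        linarith
    rw [h2]
    have h5 := min_le_left (c / 2) (Real.log 2 / 2)
    have h6 : min (c / 2) (Real.log 2 / 2) / Real.log z ≤ (c / 2) / Real.log z :=
      div_le_div_of_nonneg_right h5 hlz.le
    have h7 : (c / 2) / Real.log z = 1 / 2 * (c / Real.log z) := by ring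
    have h8 := h1.trans h4
    linarith

end Pool.Agent.M58
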