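import Pool.Agent.W_b58c63_m1.SSm
import Pool.Agent.W_b58c63_m1.SPlB

/-!
# The main factors of the sieve (helper68)
-/

set_option autoImplicit false

noncomputable section

open Finset MeasureTheory

namespace Pool.Agent.M58

/-- the density for the integers prime to `q` -/
def SSmB_g (q : ℕ) (p : ℕ) : ℝ := if p ∣ q then 0 else 1 / (p : ℝ)

theorem SSmB_half (p : ℕ) (hp : p.Prime) : 0 ≤ 1 / (p : ℝ) ∧ 1 / (p : ℝ) ≤ 1 / 2 := by
  have h2 : (2 : ℝ) ≤ p := by exact_mod_cast hp.two_le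
  refine ⟨by positivity, ?_⟩
  exact one_div_le_one_div_of_le (by norm_num) h2

theorem SSmB_hg (q p : ℕ) (hp : p.Prime) :
    0 ≤ SSmB_g q p ∧ SSmB_g q p ≤ 3 / 4 ∧ SSmB_g q p ≤ 4 / p := by
  obtain ⟨h1, h2⟩ := SSmB_half p hp
  have h3 : (4 : ℝ) / p = 4 * (1 / p) := by ring
  unfold SSmB_g
  split_ifs
  · exact ⟨le_rfl, by norm_num, by positivity⟩
  · exact ⟨h1, by linarith, by rw [h3]; linarith⟩

theorem SSmB_phi (q : ℕ) (hq : 1 ≤ q) :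
    (q.totient / q : ℝ) = ∏ p ∈ q.primeFactors, (1 - 1 / (p : ℝ)) := by
  have h1 := Nat.totient_eq_mul_prod_factors q
  have h2 : ((q.totient : ℚ) : ℝ) = ((q * ∏ p ∈ q.primeFactors, (1 - (p : ℚ)⁻¹) : ℚ) : ℝ) := by
    rw [h1]
  push_cast at h2
  have hq0 : (q : ℝ) ≠ 0 := by
    have : (1 : ℝ) ≤ q := by exact_mod_cast hq
    positivity
  rw [h2, mul_div_assoc, mul_comm, div_mul_cancel₀ _ hq0]
  simp only [one_div]

theorem SSmB_prod_sub (s t : Finset ℕ) (hst : s ⊆ t) (f : ℕ → ℝ) (hf : ∀ p ∈ t, 0 ≤ f p ∧ f p ≤ 1) :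
    ∏ p ∈ t, f p ≤ ∏ p ∈ s, f p := by
  classical
  rw [← Finset.prod_sdiff hst]
  have h1 : ∏ p ∈ t \ s, f p ≤ 1 :=
    Finset.prod_le_one (fun p hp => (hf p (Finset.sdiff_subset hp)).1)
      fun p hp => (hf p (Finset.sdiff_subset hp)).2
  have h2 : 0 ≤ ∏ p ∈ s, f p := Finset.prod_nonneg fun p hp => (hf p (hst hp)).1
  nlinarith

theorem SSmB_V (z : ℝ) (q : ℕ) (hq : 1 ≤ q) :
    0 ≤ (q.totient / q : ℝ) ∧ (q.totient / q : ℝ) * VP (SSmB_g q) (PI 0 z) ≤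
      VP (fun p => 1 / (p : ℝ)) (PI 0 z) := by
  classical
  have hPI : ∀ p ∈ PI 0 z, p.Prime := fun p hp => (mem_PI.1 hp).1
  refine ⟨by positivity, ?_⟩
  have h1 : VP (fun p => 1 / (p : ℝ)) (PI 0 z) =
      (∏ p ∈ (PI 0 z).filter (· ∣ q), (1 - 1 / (p : ℝ))) * VP (SSmB_g q) (PI 0 z) := by
    unfold Wb58c63.VP
    rw [← Finset.prod_filter_mul_prod_filter_not (PI 0 z) (· ∣ q) (fun p => 1 - 1 / (p : ℝ)),
      ← Finset.prod_filter_mul_prod_filter_not (PI 0 z) (· ∣ q) (fun p => 1 - SSmB_g q p)]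
    have h2 : ∏ p ∈ (PI 0 z).filter (· ∣ q), (1 - SSmB_g q p) = 1 := by
      refine Finset.prod_eq_one fun p hp => ?_
      rw [SSmB_g, if_pos (Finset.mem_filter.1 hp).2, sub_zero]
    have h3 : ∏ p ∈ (PI 0 z).filter (¬ · ∣ q), (1 - SSmB_g q p) =
        ∏ p ∈ (PI 0 z).filter (¬ · ∣ q), (1 - 1 / (p : ℝ)) := by
      refine Finset.prod_congr rfl fun p hp => ?_
      rw [SSmB_g, if_neg (Finset.mem_filter.1 hp).2]
    rw [h2, h3, one_mul]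
  have h4 : 0 ≤ VP (SSmB_g q) (PI 0 z) := by
    unfold Wb58c63.VP
    refine Finset.prod_nonneg fun p hp => ?_
    have := (SSmB_hg q p (hPI p hp)).2.1
    linarith
  rw [h1, SSmB_phi q hq]
  refine mul_le_mul_of_nonneg_right (SSmB_prod_sub _ _ ?_ _ ?_) h4
  · intro p hp
    obtain ⟨h5, h6⟩ := Finset.mem_filter.1 hp
    exact Nat.mem_primeFactors.2 ⟨hPI p h5, h6, by omega⟩
  · intro p hp
    obtain ⟨h5, h6⟩ := SSmB_half p (Nat.prime_of_mem_primeFactors hp)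
    constructor <;> linarith

/-- the lower bound sieve has the smaller main term -/
theorem SSmB_le (z : ℝ) (b : ℕ) (hz : 2 ≤ z) (g : ℕ → ℝ)
    (hg : ∀ p, p.Prime → 0 ≤ g p ∧ g p ≤ 3 / 4 ∧ g p ≤ 4 / p) :
    ∑ S ∈ (PI 0 z).powerset, lm' z b S * ∏ p ∈ S, g p ≤
      ∑ S ∈ (PI 0 z).powerset, lp' z b S * ∏ p ∈ S, g p := by
  have hP : ∀ i < Jz z, ∀ j < Jz z, i ≠ j → Disjoint (Pz z i) (Pz z j) :=
    fun i _ j _ hij => Pz_disj z hz i j hij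
  have h1 := sum_lap g (Pz z) (bz b) (Jz z) hP
  have h2 := sum_lam g (Pz z) (bz b) (Jz z) hP
  rw [blk_Pz z hz] at h1 h2
  have h1' : ∑ S ∈ (PI 0 z).powerset, lp' z b S * ∏ p ∈ S, g p =
      ∏ j ∈ range (Jz z), Ub g (Pz z j) (bz b j) := h1
  have h2' : ∑ S ∈ (PI 0 z).powerset, lm' z b S * ∏ p ∈ S, g p =
      ∏ j ∈ range (Jz z), Ub g (Pz z j) (bz b j) - ∑ j ∈ range (Jz z),
        El g (Pz z j) (bz b j + 1) * ∏ i ∈ (range (Jz z)).erase j, Ub g (Pz z i) (bz b i) := h2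
  have hpr : ∀ j, ∀ p ∈ Pz z j, p.Prime := fun j p hp => (mem_PI.1 hp).1
  have hU : ∀ j, 0 ≤ Ub g (Pz z j) (bz b j) := by
    intro j
    have hb : Even (bz b j) := ⟨b + j, by unfold bz; ring⟩
    refine le_trans ?_ (Ub_bounds g (Pz z j) (bz b j) hb fun p hp =>
      ⟨(hg p (hpr j p hp)).1, (hg p (hpr j p hp)).2.1.trans (by norm_num)⟩).1
    unfold Wb58c63.VP
    refine Finset.prod_nonneg fun p hp => ?_
    have := (hg p (hpr j p hp)).2.1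
    linarith
  have hE : 0 ≤ ∑ j ∈ range (Jz z),
      El g (Pz z j) (bz b j + 1) * ∏ i ∈ (range (Jz z)).erase j, Ub g (Pz z i) (bz b i) := by
    refine Finset.sum_nonneg fun j _ => mul_nonneg ?_ (Finset.prod_nonneg fun i _ => hU i)
    exact (El_le g (Pz z j) (bz b j + 1) fun p hp => (hg p (hpr j p hp)).1).1
  rw [h1', h2']
  linarith

/-- **The main factors.**

Proof. `FL` with `g (p) = 1 / p` for `p ∤ q` and `0` else; `(φ(q) / q) ∏_{p < z, p ∤ q} (1 - 1 / p) ≤ ∏_{p < z} (1 - 1 / p)`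
(`φ(q) / q = ∏_{p ∣ q} (1 - 1 / p)`), `VP_inv`. For `q = 1` the lower bound of `FL`. -/
theorem Mp_bounds : ∃ C : ℝ, 1 ≤ C ∧ ∀ (z : ℝ) (b q : ℕ), 2 ≤ z → 1 ≤ b → 1 ≤ q →
    0 ≤ Mp z b q ∧ Mp z b q ≤ C / Real.log z ∧
    |Mp z b q - Mm z b q| ≤ C * Real.exp (-b) / Real.log z ∧
    VP (fun p => 1 / (p : ℝ)) (PI 0 z) ≤ Mp z b 1 ∧
    Mp z b 1 ≤ VP (fun p => 1 / (p : ℝ)) (PI 0 z) * (1 + C * Real.exp (-b)) := by
  obtain ⟨C₁, hC₁, hFL⟩ := FL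
  obtain ⟨c₂, C₂, -, hC₂, hVP⟩ := VP_inv
  refine ⟨1 + C₁ + C₂ * (1 + C₁) + 2 * C₁ * C₂, ?_, ?_⟩
  · have : 0 ≤ C₂ * (1 + C₁) := by positivity
    have : 0 ≤ 2 * C₁ * C₂ := by positivity
    linarith
  intro z b q hz hb hq
  have hlz : 0 < Real.log z := Real.log_pos (by linarith)
  have he0 : 0 < Real.exp (-(b : ℝ)) := Real.exp_pos _
  have he1 : Real.exp (-(b : ℝ)) ≤ 1 := by
    rw [Real.exp_le_one_iff]
    have : (0 : ℝ) ≤ b := Nat.cast_nonneg b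
    linarith
  obtain ⟨h1, h2, h3⟩ := hFL z b (SSmB_g q) hz hb (SSmB_hg q)
  have h4 := SSmB_le z b hz (SSmB_g q) (SSmB_hg q)
  obtain ⟨hphi, hV⟩ := SSmB_V z q hq
  obtain ⟨-, hV2⟩ := hVP z hz
  have hMp : Mp z b q = (q.totient / q : ℝ) *
      ∑ S ∈ (PI 0 z).powerset, lp' z b S * ∏ p ∈ S, SSmB_g q p := rfl
  have hMm : Mm z b q = (q.totient / q : ℝ) *
      ∑ S ∈ (PI 0 z).powerset, lm' z b S * ∏ p ∈ S, SSmB_g q p := rfl
  have hVg : 0 ≤ VP (SSmB_g q) (PI 0 z) := by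
    unfold Wb58c63.VP
    refine Finset.prod_nonneg fun p hp => ?_
    have := (SSmB_hg q p (mem_PI.1 hp).1).2.1
    linarith
  set Φ : ℝ := (q.totient / q : ℝ) with hΦ
  set V : ℝ := VP (fun p => 1 / (p : ℝ)) (PI 0 z) with hVdef
  set Vq : ℝ := VP (SSmB_g q) (PI 0 z) with hVq
  set Sp : ℝ := ∑ S ∈ (PI 0 z).powerset, lp' z b S * ∏ p ∈ S, SSmB_g q p with hSp
  set Sm : ℝ := ∑ S ∈ (PI 0 z).powerset, lm' z b S * ∏ p ∈ S, SSmB_g q p with hSm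
  have hΦV : 0 ≤ Φ * Vq := mul_nonneg hphi hVg
  have hΦV2 : Φ * Vq ≤ C₂ / Real.log z := hV.trans hV2
  have hb1 : Φ * Sp ≤ Φ * Vq * (1 + C₁ * Real.exp (-b)) := by
    rw [mul_assoc]
    exact mul_le_mul_of_nonneg_left h2 hphi
  have hdiv : 0 ≤ C₂ / Real.log z := by positivity
  refine ⟨?_, ?_, ?_, ?_, ?_⟩
  · rw [hMp]
    exact mul_nonneg hphi (hVg.trans h1)
  · rw [hMp]
    have h5 : Φ * Vq * (1 + C₁ * Real.exp (-b)) ≤ C₂ / Real.log z * (1 + C₁) := by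
      have h6 : 1 + C₁ * Real.exp (-b) ≤ 1 + C₁ := by nlinarith
      have h7 : 0 ≤ 1 + C₁ * Real.exp (-(b : ℝ)) := by positivity
      exact mul_le_mul hΦV2 h6 h7 hdiv
    have h8 : C₂ / Real.log z * (1 + C₁) ≤
        (1 + C₁ + C₂ * (1 + C₁) + 2 * C₁ * C₂) / Real.log z := by
      rw [div_mul_eq_mul_div]
      refine div_le_div_of_nonneg_right ?_ hlz.le
      have : 0 ≤ 2 * C₁ * C₂ := by positivity
      linarith
    linarith
  · rw [hMp, hMm, ← mul_sub, abs_of_nonneg (mul_nonneg hphi (sub_nonneg.2 h4))]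
    have h5 : Sp - Sm ≤ Vq * (2 * C₁ * Real.exp (-b)) := by
      have : Vq * (1 + C₁ * Real.exp (-b)) - Vq * (1 - C₁ * Real.exp (-b)) =
          Vq * (2 * C₁ * Real.exp (-b)) := by ring
      linarith
    have h6 : Φ * (Sp - Sm) ≤ Φ * Vq * (2 * C₁ * Real.exp (-b)) := by
      rw [mul_assoc]
      exact mul_le_mul_of_nonneg_left h5 hphi
    have h7 : Φ * Vq * (2 * C₁ * Real.exp (-b)) ≤ C₂ / Real.log z * (2 * C₁ * Real.exp (-b)) :=
      mul_le_mul_of_nonneg_right hΦV2 (by positivity)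
    have h8 : C₂ / Real.log z * (2 * C₁ * Real.exp (-b)) ≤
        (1 + C₁ + C₂ * (1 + C₁) + 2 * C₁ * C₂) * Real.exp (-b) / Real.log z := by
      rw [div_mul_eq_mul_div]
      refine div_le_div_of_nonneg_right ?_ hlz.le
      have h9 : 0 ≤ (1 + C₁ + C₂ * (1 + C₁)) * Real.exp (-(b : ℝ)) := by positivity
      linarith
    linarith
  all_goals
    obtain ⟨g1, g2, -⟩ := hFL z b (SSmB_g 1) hz hb (SSmB_hg 1)
    have hg1 : ∀ p ∈ PI 0 z, SSmB_g 1 p = 1 / (p : ℝ) := by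
      intro p hp
      rw [SSmB_g, if_neg]
      intro h
      exact (mem_PI.1 hp).1.one_lt.ne' (Nat.dvd_one.1 h)
    have hVP1 : VP (SSmB_g 1) (PI 0 z) = V := by
      rw [hVdef]
      unfold Wb58c63.VP
      exact Finset.prod_congr rfl fun p hp => by rw [hg1 p hp]
    have hM1 : Mp z b 1 = ∑ S ∈ (PI 0 z).powerset, lp' z b S * ∏ p ∈ S, SSmB_g 1 p := by
      have h5 : Mp z b 1 = ((1 : ℕ).totient / (1 : ℕ) : ℝ) *
        ∑ S ∈ (PI 0 z).powerset, lp' z b S * ∏ p ∈ S, SSmB_g 1 p := rfl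
      rw [h5, Nat.totient_one, Nat.cast_one, div_one, one_mul]
    rw [hVP1] at g1 g2
    rw [hM1]
  · exact g1
  · refine g2.trans ?_
    have hV0 : 0 ≤ V := hΦV.trans hV
    refine mul_le_mul_of_nonneg_left ?_ hV0
    have h9 : 0 ≤ (1 + C₂ * (1 + C₁) + 2 * C₁ * C₂) * Real.exp (-(b : ℝ)) := by positivity
    linarith

end Pool.Agent.M58
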