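import Pool.Agent.W_b58c63_m1.RA
import Pool.Agent.W_b58c63_m1.SSmB

/-!
# The upper bound sieve as a sum of Ramanujan sums (helper68)
-/

set_option autoImplicit false

noncomputable section

open Finset

namespace Pool.Agent.M58

/-- The coefficient of the Ramanujan sum `cq q` in the upper bound sieve. -/
def ct (z : ℝ) (b q : ℕ) : ℝ :=
  ∑ S ∈ (PI 0 z).powerset.filter (fun S => q ∣ ∏ p ∈ S, p), lp' z b S / ((∏ p ∈ S, p : ℕ) : ℝ)

/-- (`tp_eq`: `tp' z b n = ∑_S lp' S [∏ S ∣ n] = ∑_S lp' S / ∏ S ∑_{q ∣ ∏ S} cq q n` by `sum_cq`; `lp_supp`.) -/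
theorem tp_cq (z : ℝ) (hz : 2 ≤ z) (b n D : ℕ) (hD : z ^ (4 * b + 5) ≤ D) :
    tp' z b n = ∑ q ∈ Icc 1 D, ct z b q * cq q n := by
  have h1 : ∑ q ∈ Icc 1 D, ct z b q * cq q n = ∑ S ∈ (PI 0 z).powerset,
      ∑ q ∈ Icc 1 D, (if q ∣ ∏ p ∈ S, p then
        lp' z b S / ((∏ p ∈ S, p : ℕ) : ℝ) * cq q n else 0) := by
    rw [Finset.sum_comm]
    refine Finset.sum_congr rfl fun q _ => ?_
    unfold ct
    rw [Finset.sum_filter, Finset.sum_mul]
    refine Finset.sum_congr rfl fun S _ => ?_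
    split_ifs
    · rfl
    · rw [zero_mul]
  rw [h1, tp_eq z hz b n]
  have h2 : ∑ S ∈ ((PI 0 z).filter (· ∣ n)).powerset, lp' z b S =
      ∑ S ∈ (PI 0 z).powerset, (if (∏ p ∈ S, p) ∣ n then lp' z b S else 0) := by
    rw [← Finset.sum_filter]
    refine Finset.sum_congr ?_ fun _ _ => rfl
    ext S
    rw [Finset.mem_filter, Finset.mem_powerset, Finset.mem_powerset]
    constructor
    · intro h
      have h3 : S ⊆ PI 0 z := h.trans (Finset.filter_subset _ _)
      exact ⟨h3, (SSm_dvd h3 n).2 fun p hp => (Finset.mem_filter.1 (h hp)).2⟩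
    · rintro ⟨h3, h4⟩ p hp
      exact Finset.mem_filter.2 ⟨h3 hp, (SSm_dvd h3 n).1 h4 p hp⟩
  rw [h2]
  refine Finset.sum_congr rfl fun S hS => ?_
  rw [Finset.mem_powerset] at hS
  by_cases h0 : lp' z b S = 0
  · rw [h0]
    simp
  · have h3 := lp_supp z hz b S hS h0
    have h4 : 1 ≤ ∏ p ∈ S, p := SSm_pos hS
    have h5 : (∏ p ∈ S, p) ≤ D := by
      have := h3.trans hD
      exact_mod_cast this
    have h6 : (Icc 1 D).filter (fun q => q ∣ ∏ p ∈ S, p) = (∏ p ∈ S, p).divisors := by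
      ext q
      rw [Finset.mem_filter, Finset.mem_Icc, Nat.mem_divisors]
      constructor
      · rintro ⟨-, h7⟩
        exact ⟨h7, by omega⟩
      · rintro ⟨h7, -⟩
        exact ⟨⟨Nat.pos_of_dvd_of_pos h7 h4, (Nat.le_of_dvd h4 h7).trans h5⟩, h7⟩
    rw [← Finset.sum_filter, h6, ← Finset.mul_sum, sum_cq _ _ h4]
    have h8 : ((∏ p ∈ S, p : ℕ) : ℝ) ≠ 0 := by
      have : (∏ p ∈ S, p) ≠ 0 := by omega
      exact_mod_cast this
    by_cases h9 : (∏ p ∈ S, p) ∣ n
    · rw [if_pos h9, if_pos (Int.natCast_dvd_natCast.2 h9)]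
      field_simp
    · rw [if_neg h9, if_neg (fun h => h9 (Int.natCast_dvd_natCast.1 h)), mul_zero]

theorem RB_sqf {z : ℝ} {S : Finset ℕ} (hS : S ⊆ PI 0 z) : Squarefree (∏ p ∈ S, p) := by
  refine Finset.squarefree_prod_of_pairwise_isCoprime (fun p hp q hq hpq => ?_) fun p hp => ?_
  · exact Nat.coprime_iff_isRelPrime.1 ((Nat.coprime_primes (mem_PI.1 (hS hp)).1
      (mem_PI.1 (hS hq)).1).2 hpq)
  · exact (mem_PI.1 (hS hp)).1.prime.squarefree

theorem RB_supp {z : ℝ} {b q : ℕ} (hz : 2 ≤ z) (h : ct z b q ≠ 0) :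
    Squarefree q ∧ q.primeFactors ⊆ PI 0 z ∧ (q : ℝ) ≤ z ^ (4 * b + 5) := by
  unfold ct at h
  obtain ⟨S, hS, h1⟩ := Finset.exists_ne_zero_of_sum_ne_zero h
  rw [Finset.mem_filter, Finset.mem_powerset] at hS
  have h2 : lp' z b S ≠ 0 := by
    intro h3
    apply h1
    rw [h3, zero_div]
  have h4 : 1 ≤ ∏ p ∈ S, p := SSm_pos hS.1
  refine ⟨(RB_sqf hS.1).squarefree_of_dvd hS.2, ?_, ?_⟩
  · have h5 : (∏ p ∈ S, p).primeFactors = S :=
      Nat.primeFactors_prod fun p hp => (mem_PI.1 (hS.1 hp)).1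
    have h6 := Nat.primeFactors_mono hS.2 (by omega)
    rw [h5] at h6
    exact h6.trans hS.1
  · refine le_trans ?_ (lp_supp z hz b S hS.1 h2)
    exact_mod_cast Nat.le_of_dvd h4 hS.2

/-- (`|lp'| ≤ 1`, and `∑ 1 / ∏ S` over the `S` with `q ∣ ∏ S` is `1 / q ∏_{p < z, p ∤ q} (1 + 1 / p) ≤ C log z / q`, for squarefree `q` with
all primes below `z`; `SSm_inv`.) -/
theorem ct_props : ∃ C : ℝ, 1 ≤ C ∧ ∀ (z : ℝ) (b q : ℕ), 2 ≤ z → 1 ≤ q →
    |ct z b q| ≤ C * Real.log z / q ∧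
      (ct z b q ≠ 0 → Squarefree q ∧ (∀ p ∈ q.primeFactors, (p : ℝ) < z) ∧ (q : ℝ) ≤ z ^ (4 * b + 5)) := by
  obtain ⟨C, hC, H⟩ := SSm_inv
  refine ⟨max 1 C, le_max_left _ _, ?_⟩
  intro z b q hz hq
  have hl : 0 ≤ Real.log z := Real.log_nonneg (by linarith)
  have hq0 : (0 : ℝ) < q := by exact_mod_cast hq
  refine ⟨?_, fun h => ?_⟩
  · by_cases h : ct z b q = 0
    · rw [h, abs_zero]
      have : 0 ≤ max 1 C := zero_le_one.trans (le_max_left _ _)
      positivity
    · obtain ⟨h1, h2, -⟩ := RB_supp hz h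
      have hqp : ∏ p ∈ q.primeFactors, p = q := Nat.prod_primeFactors_of_squarefree h1
      have h3 : ∀ S ∈ (PI 0 z).powerset.filter (fun S => q ∣ ∏ p ∈ S, p),
          q.primeFactors ⊆ S := by
        intro S hS
        rw [Finset.mem_filter, Finset.mem_powerset] at hS
        have h4 : 1 ≤ ∏ p ∈ S, p := SSm_pos hS.1
        have h5 : (∏ p ∈ S, p).primeFactors = S :=
          Nat.primeFactors_prod fun p hp => (mem_PI.1 (hS.1 hp)).1
        have h6 := Nat.primeFactors_mono hS.2 (by omega)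
        rwa [h5] at h6
      have h4 : |ct z b q| ≤ ∑ S ∈ (PI 0 z).powerset.filter (fun S => q ∣ ∏ p ∈ S, p),
          1 / (q : ℝ) * (1 / ((∏ p ∈ S \ q.primeFactors, p : ℕ) : ℝ)) := by
        unfold ct
        refine (Finset.abs_sum_le_sum_abs _ _).trans (Finset.sum_le_sum fun S hS => ?_)
        have h5 : (∏ p ∈ S, p) = (∏ p ∈ S \ q.primeFactors, p) * q := by
          rw [← Finset.prod_sdiff (h3 S hS), hqp]
        rw [abs_div, Nat.abs_cast, h5]
        push_cast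
        have h6 : |lp' z b S| ≤ 1 := abs_lap_le _ _ _ _
        rw [one_div_mul_one_div, mul_comm (q : ℝ)]
        exact div_le_div_of_nonneg_right h6 (by positivity)
      rw [← Finset.mul_sum] at h4
      have h5 : ∑ S ∈ (PI 0 z).powerset.filter (fun S => q ∣ ∏ p ∈ S, p),
          (1 / ((∏ p ∈ S \ q.primeFactors, p : ℕ) : ℝ)) ≤
          ∑ S ∈ (PI 0 z).powerset, 1 / ((∏ p ∈ S, p : ℕ) : ℝ) := by
        have h6 : Set.InjOn (fun S : Finset ℕ => S \ q.primeFactors)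
            ((PI 0 z).powerset.filter (fun S => q ∣ ∏ p ∈ S, p) : Finset (Finset ℕ)) := by
          intro S hS T hT hST
          have e1 := Finset.sdiff_union_of_subset (h3 S hS)
          have e2 := Finset.sdiff_union_of_subset (h3 T hT)
          have hST' : S \ q.primeFactors = T \ q.primeFactors := hST
          rw [← e1, ← e2, hST']
        rw [← Finset.sum_image (f := fun S => 1 / ((∏ p ∈ S, p : ℕ) : ℝ)) h6]
        refine Finset.sum_le_sum_of_subset_of_nonneg ?_ fun S _ _ => by positivity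
        intro T hT
        obtain ⟨S, hS, rfl⟩ := Finset.mem_image.1 hT
        rw [Finset.mem_filter, Finset.mem_powerset] at hS
        rw [Finset.mem_powerset]
        exact Finset.sdiff_subset.trans hS.1
      calc |ct z b q| ≤ 1 / (q : ℝ) * (C * Real.log z) :=
            h4.trans (mul_le_mul_of_nonneg_left (h5.trans (H z hz)) (by positivity))
        _ = C * Real.log z / q := by ring
        _ ≤ max 1 C * Real.log z / q := by
          refine div_le_div_of_nonneg_right ?_ hq0.le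
          exact mul_le_mul_of_nonneg_right (le_max_right _ _) hl
  · obtain ⟨h1, h2, h3⟩ := RB_supp hz h
    exact ⟨h1, fun p hp => (mem_PI.1 (h2 hp)).2.2, h3⟩

end Pool.Agent.M58
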