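import Pool.Agent.W_b58c63_m1.EA
import Pool.Agent.W_b58c63_m1.RB

/-!
# The exponential sum of the tail of the sieve kernel (helper68)
-/

set_option autoImplicit false

noncomputable section

open Finset

namespace Pool.Agent.M58

theorem EB_ex_add (x y : ℝ) : ex (x + y) = ex x * ex y := by
  unfold ex
  rw [← Complex.exp_add]
  congr 1
  push_cast
  ring

/-- Distance of a nonintegral fraction to the integers. -/
theorem EB_dn (u v : ℤ) (hv : 0 < v) (h : ¬ v ∣ u) : 1 / (v : ℝ) ≤ dn ((u : ℝ) / v) := by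
  have hv0 : (0 : ℝ) < v := by exact_mod_cast hv
  unfold dn
  set n := round ((u : ℝ) / v) with hn
  have h1 : (u : ℝ) / v - n = ((u - n * v : ℤ) : ℝ) / v := by
    push_cast
    field_simp
  have h2 : u - n * v ≠ 0 := by
    intro h3
    apply h
    exact ⟨n, by linarith⟩
  have h3 : (1 : ℝ) ≤ |((u - n * v : ℤ) : ℝ)| := by
    have := Int.one_le_abs h2
    exact_mod_cast this
  rw [h1, abs_div, abs_of_pos hv0]
  exact div_le_div_of_nonneg_right h3 hv0.le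

/-- Two different reduced fractions in `[0, 1)` are far apart modulo `1`. -/
theorem EB_frac (q a q' a' : ℕ) (hq : 1 ≤ q) (hq' : 1 ≤ q') (ha : a < q) (ha' : a' < q') (hc : a.Coprime q)
    (hc' : a'.Coprime q') (hne : ¬ (q = q' ∧ a = a')) :
    1 / ((q * q' : ℕ) : ℝ) ≤ dn ((a : ℝ) / q - (a' : ℝ) / q') := by
  have hq0 : (0 : ℝ) < q := by exact_mod_cast hq
  have hq0' : (0 : ℝ) < q' := by exact_mod_cast hq'
  have h1 : (a : ℝ) / q - (a' : ℝ) / q' = (((a * q' - a' * q : ℤ)) : ℝ) / ((q * q' : ℤ) : ℝ) := by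
    push_cast
    field_simp
  have h2 : (((q * q' : ℕ)) : ℝ) = ((q * q' : ℤ) : ℝ) := by push_cast; rfl
  rw [h1, h2]
  apply EB_dn
  · have : 0 < q * q' := Nat.mul_pos hq hq'
    exact_mod_cast this
  · rintro ⟨n, hn⟩
    apply hne
    -- `a / q - a' / q' = n` with both in `[0, 1)`
    have h3 : (a : ℤ) * q' - a' * q = q * q' * n := hn
    have h4 : (a : ℤ) * q' < q * q' := by
      have : a * q' < q * q' := Nat.mul_lt_mul_of_pos_right ha hq'
      exact_mod_cast this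
    have h5 : (a' : ℤ) * q < q * q' := by
      have : a' * q < q' * q := Nat.mul_lt_mul_of_pos_right ha' hq
      rw [mul_comm q' q] at this
      exact_mod_cast this
    have h6 : (0 : ℤ) ≤ (a : ℤ) * q' := by positivity
    have h7 : (0 : ℤ) ≤ (a' : ℤ) * q := by positivity
    have h8 : (0 : ℤ) < q * q' := by
      have : 0 < q * q' := Nat.mul_pos hq hq'
      exact_mod_cast this
    have hn0 : n = 0 := by
      have h9 : n < 1 := by
        by_contra hcon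
        have : (1 : ℤ) ≤ n := by omega
        nlinarith
      have h10 : -1 < n := by
        by_contra hcon
        have : n ≤ (-1 : ℤ) := by omega
        nlinarith
      omega
    rw [hn0, mul_zero] at h3
    have h9 : a * q' = a' * q := by
      have : (a : ℤ) * q' = a' * q := by linarith
      exact_mod_cast this
    have h10 : q ∣ q' := by
      have : q ∣ a * q' := ⟨a', by rw [h9, mul_comm]⟩
      exact hc.symm.dvd_of_dvd_mul_left this
    have h11 : q' ∣ q := by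
      have : q' ∣ a' * q := ⟨a, by rw [← h9, mul_comm]⟩
      exact hc'.symm.dvd_of_dvd_mul_left this
    have h12 : q = q' := Nat.dvd_antisymm h10 h11
    refine ⟨h12, ?_⟩
    rw [h12] at h9
    exact Nat.eq_of_mul_eq_mul_right hq' h9

open Classical in
/-- The sum of the exponential sums over spaced points. -/
theorem EB_spaced {ι : Type} (s : Finset ι) (x : ι → ℝ) (D : ℝ) (hD : 1 ≤ D)
    (h : ∀ i ∈ s, ∀ j ∈ s, i ≠ j → 1 / D ≤ dn (x i - x j)) (W : ℝ → ℝ) (P R : ℝ) (hP : 0 ≤ P) (hR : 0 ≤ R) (hW1 : ∀ β, W β ≤ P) (hW2 : ∀ β, W β * dn β ≤ R) :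
    ∑ i ∈ s, W (x i) ≤ P + R * (8 * D * (1 + Real.log D)) := by
  obtain ⟨i₀, h1, h2, -⟩ := spaced_sum s x D hD h
  rw [← Finset.sum_filter_add_sum_filter_not s (fun i => some i ≠ i₀)]
  have e1 : ∑ i ∈ s.filter (fun i => some i ≠ i₀), W (x i) ≤ R * (8 * D * (1 + Real.log D)) := by
    calc _ ≤ ∑ i ∈ s.filter (fun i => some i ≠ i₀), R * (1 / dn (x i)) := by
          refine Finset.sum_le_sum fun i hi => ?_
          rw [Finset.mem_filter] at hi
          have h3 : 0 < dn (x i) := lt_of_lt_of_le (by positivity) (h2 i hi.1 hi.2)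
          rw [mul_one_div, le_div_iff₀ h3]
          exact hW2 _
      _ = R * ∑ i ∈ s.filter (fun i => some i ≠ i₀), 1 / dn (x i) := by rw [Finset.mul_sum]
      _ ≤ R * (8 * D * (1 + Real.log D)) := mul_le_mul_of_nonneg_left h1 hR
  have e2 : ∑ i ∈ s.filter (fun i => ¬ some i ≠ i₀), W (x i) ≤ P := by
    have hcard : (s.filter (fun i => ¬ some i ≠ i₀)).card ≤ 1 := by
      rw [Finset.card_le_one]
      intro a ha b hb
      rw [Finset.mem_filter, not_not] at ha hb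
      exact Option.some_injective _ (ha.2.trans hb.2.symm)
    calc _ ≤ ∑ i ∈ s.filter (fun i => ¬ some i ≠ i₀), P := Finset.sum_le_sum fun i _ => hW1 _
      _ = ((s.filter (fun i => ¬ some i ≠ i₀)).card : ℝ) * P := by rw [Finset.sum_const, nsmul_eq_mul]
      _ ≤ 1 * P := by
          apply mul_le_mul_of_nonneg_right _ hP
          exact_mod_cast hcard
      _ = P := one_mul P
  linarith

/-- The expansion of the kernel. -/
theorem EB_expand (f : ℕ → ℝ) (c : ℕ → ℝ) (M : ℕ) (s : Finset ℕ) (hs : ∀ q ∈ s, 1 ≤ q) (α : ℝ) :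
    ∑ m ∈ Icc 1 M, ((f m * ∑ q ∈ s, c q * cq q m : ℝ) : ℂ) * ex (m * α) =
      ∑ q ∈ s, ∑ a ∈ (range q).filter (fun a => a.Coprime q),
        (c q : ℂ) * ∑ m ∈ Icc 1 M, (f m : ℂ) * ex (m * (α + a / q)) := by
  have h1 : ∀ m ∈ Icc 1 M, ((f m * ∑ q ∈ s, c q * cq q m : ℝ) : ℂ) * ex (m * α) =
      ∑ q ∈ s, ∑ a ∈ (range q).filter (fun a => a.Coprime q), (c q : ℂ) * ((f m : ℂ) * ex (m * (α + a / q))) := by
    intro m _
    push_cast
    rw [Finset.mul_sum, Finset.sum_mul]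
    refine Finset.sum_congr rfl fun q hq => ?_
    rw [cq_exp q m (hs q hq), Finset.mul_sum, Finset.mul_sum, Finset.sum_mul]
    refine Finset.sum_congr rfl fun a _ => ?_
    have h2 : (m : ℝ) * (α + a / q) = (a : ℝ) * ((m : ℤ) : ℝ) / q + m * α := by
      push_cast
      ring
    rw [h2, EB_ex_add]
    ring
  rw [Finset.sum_congr rfl h1, Finset.sum_comm]
  refine Finset.sum_congr rfl fun q _ => ?_
  rw [Finset.sum_comm]
  refine Finset.sum_congr rfl fun a _ => ?_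
  rw [Finset.mul_sum]

/-- **The tail of the kernel has small exponential sums.**

Proof. By `cq_exp` the sum is `∑_q ct z b q ∑_a W (α + a / q)` with the exponential sum `W` of `ww_exp`, and `|ct z b q| ≤ C log Y / Y ^ δ`
(`ct_props`). The fractions `a / q`, `q ≤ D = ⌈Y ^ (1 / 10)⌉`, are `1 / D ^ 2`-spaced modulo `1`: by `spaced_sum` (with `D ^ 2`) one of them
contributes `≤ C Y log Y` and the others in total `≤ C log Y D ^ 2 (1 + log D)`. -/
theorem ker_tail (k : ℕ) (δ : ℝ) (hδ : 0 < δ) (hδ1 : δ ≤ 1 / 20) : ∃ Y₀ : ℝ, 3 ≤ Y₀ ∧ ∀ (Y z α : ℝ) (b : ℕ),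
    Y₀ ≤ Y → 2 ≤ z → z ≤ Y →
      ‖∑ m ∈ Icc 1 ⌊2 * Y⌋₊, ((ww k Y m * ∑ q ∈ Ioc ⌊Y ^ δ⌋₊ ⌈Y ^ (1 / 10 : ℝ)⌉₊, ct z b q * cq q m : ℝ) : ℂ) *
        ex (m * α)‖ ≤ Y ^ (1 - δ / 2) := by
  obtain ⟨C₁, hC₁, H₁⟩ := ct_props
  obtain ⟨C₂, hC₂, H₂⟩ := ww_exp k
  set K := 481 * C₁ * C₂ * (8 / δ) ^ 2 with hK
  have hK0 : 0 < K := by positivity
  have hKp : 0 ≤ K ^ (4 / δ) := by positivity
  refine ⟨3 + K ^ (4 / δ), by linarith, ?_⟩
  intro Y z α b hY hz hzY
  have hY3 : 3 ≤ Y := by linarith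
  have hY1 : 1 ≤ Y := by linarith
  have hY0 : 0 < Y := by linarith
  have hlog1 : 1 ≤ Real.log Y := by
    rw [Real.le_log_iff_exp_le hY0]
    have := Real.exp_one_lt_d9
    linarith
  set D := ⌈Y ^ (1 / 10 : ℝ)⌉₊ with hD
  have hYt : 1 ≤ Y ^ (1 / 10 : ℝ) := Real.one_le_rpow hY1 (by norm_num)
  have hD1 : 1 ≤ D := by
    rw [hD]
    exact Nat.one_le_ceil_iff.2 (by linarith)
  have hD1' : (1 : ℝ) ≤ D := by exact_mod_cast hD1
  have hD2 : (D : ℝ) ≤ 2 * Y ^ (1 / 10 : ℝ) := by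
    have := Nat.ceil_lt_add_one (show 0 ≤ Y ^ (1 / 10 : ℝ) by positivity)
    rw [← hD] at this
    linarith
  have hs : ∀ q ∈ Ioc ⌊Y ^ δ⌋₊ D, 1 ≤ q := by
    intro q hq
    rw [Finset.mem_Ioc] at hq
    omega
  rw [EB_expand (ww k Y) (ct z b) ⌊2 * Y⌋₊ (Ioc ⌊Y ^ δ⌋₊ D) hs α]
  set κ := C₁ * Real.log Y / Y ^ δ with hκ
  have hYδ : 0 < Y ^ δ := by positivity
  have hκ0 : 0 ≤ κ := by positivity
  have hct : ∀ q ∈ Ioc ⌊Y ^ δ⌋₊ D, ‖(ct z b q : ℂ)‖ ≤ κ := by
    intro q hq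
    have h1 := (H₁ z b q hz (hs q hq)).1
    rw [Complex.norm_real, Real.norm_eq_abs]
    refine h1.trans ?_
    rw [hκ]
    have h2 : Real.log z ≤ Real.log Y := Real.log_le_log (by linarith) hzY
    have h3 : Y ^ δ ≤ q := by
      rw [Finset.mem_Ioc] at hq
      exact (Nat.lt_of_floor_lt hq.1).le
    have h4 : 0 ≤ Real.log z := Real.log_nonneg (by linarith)
    apply div_le_div₀ (by positivity) _ hYδ h3
    exact mul_le_mul_of_nonneg_left h2 (by linarith)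
  have hstep : ‖∑ q ∈ Ioc ⌊Y ^ δ⌋₊ D, ∑ a ∈ (range q).filter (fun a => a.Coprime q),
        (ct z b q : ℂ) * ∑ m ∈ Icc 1 ⌊2 * Y⌋₊, (ww k Y m : ℂ) * ex (m * (α + a / q))‖ ≤
      κ * ∑ p ∈ (Ioc ⌊Y ^ δ⌋₊ D).sigma (fun q => (range q).filter (fun a => a.Coprime q)),
        ‖∑ m ∈ Icc 1 ⌊2 * Y⌋₊, (ww k Y m : ℂ) * ex (m * (α + p.2 / p.1))‖ := by
    rw [Finset.sum_sigma, Finset.mul_sum]
    refine (norm_sum_le _ _).trans (Finset.sum_le_sum fun q hq => ?_)
    rw [Finset.mul_sum]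
    refine (norm_sum_le _ _).trans (Finset.sum_le_sum fun a _ => ?_)
    rw [norm_mul]
    exact mul_le_mul_of_nonneg_right (hct q hq) (norm_nonneg _)
  refine hstep.trans ?_
  have hsp := EB_spaced ((Ioc ⌊Y ^ δ⌋₊ D).sigma (fun q => (range q).filter (fun a => a.Coprime q)))
    (fun p => α + (p.2 : ℝ) / p.1) ((D : ℝ) ^ 2) (one_le_pow₀ hD1') ?_
    (fun β => ‖∑ m ∈ Icc 1 ⌊2 * Y⌋₊, (ww k Y m : ℂ) * ex (m * β)‖) (C₂ * Y * Real.log Y) (C₂ * Real.log Y)
    (by positivity) (by positivity) (fun β => (H₂ Y β hY3).1) (fun β => (H₂ Y β hY3).2)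
  · have hD3 : (D : ℝ) ^ 2 ≤ 4 * Y ^ (1 / 5 : ℝ) := by
      calc (D : ℝ) ^ 2 ≤ (2 * Y ^ (1 / 10 : ℝ)) ^ 2 := pow_le_pow_left₀ (by linarith) hD2 2
        _ = 4 * (Y ^ (1 / 10 : ℝ) * Y ^ (1 / 10 : ℝ)) := by ring
        _ = 4 * Y ^ (1 / 5 : ℝ) := by
            rw [← Real.rpow_add hY0]
            norm_num
    have hlogY : Real.log Y ≤ 5 * Y ^ (1 / 5 : ℝ) := by
      have := Real.log_le_rpow_div hY0.le (show (0 : ℝ) < 1 / 5 by norm_num)
      linarith
    have hlogD : 1 + Real.log ((D : ℝ) ^ 2) ≤ 15 * Y ^ (1 / 5 : ℝ) := by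
      have h1 : Real.log ((D : ℝ) ^ 2) ≤ Real.log (4 * Y ^ (1 / 5 : ℝ)) := Real.log_le_log (by positivity) hD3
      have h2 : Real.log (4 * Y ^ (1 / 5 : ℝ)) = Real.log 4 + 1 / 5 * Real.log Y := by
        rw [Real.log_mul (by norm_num) (by positivity), Real.log_rpow hY0]
      have h3 : Real.log 4 ≤ 3 := by
        have := Real.log_le_sub_one_of_pos (show (0 : ℝ) < 4 by norm_num)
        linarith
      have h4 : 1 ≤ Y ^ (1 / 5 : ℝ) := Real.one_le_rpow hY1 (by norm_num)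
      linarith
    have hlD0 : 0 ≤ Real.log ((D : ℝ) ^ 2) := Real.log_nonneg (one_le_pow₀ hD1')
    have hY25 : Y ^ (1 / 5 : ℝ) * Y ^ (1 / 5 : ℝ) ≤ Y := by
      rw [← Real.rpow_add hY0]
      calc Y ^ ((1 / 5 : ℝ) + 1 / 5) ≤ Y ^ (1 : ℝ) := Real.rpow_le_rpow_of_exponent_le hY1 (by norm_num)
        _ = Y := Real.rpow_one Y
    have h8 : 8 * (D : ℝ) ^ 2 * (1 + Real.log ((D : ℝ) ^ 2)) ≤ 480 * Y := by
      calc _ ≤ 8 * (4 * Y ^ (1 / 5 : ℝ)) * (15 * Y ^ (1 / 5 : ℝ)) := by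
            apply mul_le_mul _ hlogD (by positivity) (by positivity)
            linarith
        _ = 480 * (Y ^ (1 / 5 : ℝ) * Y ^ (1 / 5 : ℝ)) := by ring
        _ ≤ 480 * Y := by linarith
    have hlogδ : Real.log Y ≤ 8 / δ * Y ^ (δ / 8) := by
      have := Real.log_le_rpow_div hY0.le (show 0 < δ / 8 by positivity)
      have h9 : Y ^ (δ / 8) / (δ / 8) = 8 / δ * Y ^ (δ / 8) := by field_simp
      rwa [h9] at this
    have hKY : K ≤ Y ^ (δ / 4) := by
      calc K = (K ^ (4 / δ)) ^ (δ / 4) := by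
            rw [← Real.rpow_mul hK0.le]
            have h9 : 4 / δ * (δ / 4) = 1 := by field_simp
            rw [h9, Real.rpow_one]
        _ ≤ Y ^ (δ / 4) := Real.rpow_le_rpow hKp (by linarith) (by positivity)
    calc _ ≤ κ * (C₂ * Y * Real.log Y + C₂ * Real.log Y * (8 * (D : ℝ) ^ 2 * (1 + Real.log ((D : ℝ) ^ 2)))) :=
          mul_le_mul_of_nonneg_left hsp hκ0
      _ ≤ κ * (C₂ * Y * Real.log Y + C₂ * Real.log Y * (480 * Y)) := by
          apply mul_le_mul_of_nonneg_left _ hκ0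
          apply add_le_add le_rfl
          exact mul_le_mul_of_nonneg_left h8 (by positivity)
      _ = 481 * C₁ * C₂ * (Real.log Y) ^ 2 * (Y / Y ^ δ) := by
          rw [hκ]
          ring
      _ ≤ 481 * C₁ * C₂ * (8 / δ * Y ^ (δ / 8)) ^ 2 * (Y / Y ^ δ) := by
          apply mul_le_mul_of_nonneg_right _ (by positivity)
          apply mul_le_mul_of_nonneg_left _ (by positivity)
          exact pow_le_pow_left₀ (by linarith) hlogδ 2
      _ = K * (Y ^ (δ / 8) * Y ^ (δ / 8) * (Y / Y ^ δ)) := by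
          rw [hK]
          ring
      _ ≤ Y ^ (δ / 4) * (Y ^ (δ / 8) * Y ^ (δ / 8) * (Y / Y ^ δ)) := mul_le_mul_of_nonneg_right hKY (by positivity)
      _ = Y ^ (1 - δ / 2) := by
          have h9 : Y / Y ^ δ = Y ^ (1 - δ) := by
            rw [Real.rpow_sub hY0, Real.rpow_one]
          rw [h9, ← Real.rpow_add hY0, ← Real.rpow_add hY0, ← Real.rpow_add hY0]
          congr 1
          ring
  · rintro ⟨q, a⟩ hi ⟨q', a'⟩ hj hij
    rw [Finset.mem_sigma, Finset.mem_filter, Finset.mem_range, Finset.mem_Ioc] at hi hj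
    obtain ⟨⟨hq1, hqD⟩, haq, hac⟩ := hi
    obtain ⟨⟨hq1', hqD'⟩, haq', hac'⟩ := hj
    have hq0 : 1 ≤ q := Nat.succ_le_of_lt (lt_of_le_of_lt (Nat.zero_le _) hq1)
    have hq0' : 1 ≤ q' := Nat.succ_le_of_lt (lt_of_le_of_lt (Nat.zero_le _) hq1')
    have h1 := EB_frac q a q' a' hq0 hq0' haq haq' hac hac' (by
      rintro ⟨rfl, rfl⟩
      exact hij rfl)
    have h2 : α + (a : ℝ) / q - (α + (a' : ℝ) / q') = (a : ℝ) / q - (a' : ℝ) / q' := by ring
    show 1 / (D : ℝ) ^ 2 ≤ dn (α + (a : ℝ) / q - (α + (a' : ℝ) / q'))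
    rw [h2]
    refine le_trans ?_ h1
    apply div_le_div_of_nonneg_left (by norm_num)
    · have : 0 < q * q' := Nat.mul_pos hq0 hq0'
      exact_mod_cast this
    · have : q * q' ≤ D ^ 2 := by
        rw [sq]
        exact Nat.mul_le_mul hqD hqD'
      exact_mod_cast this

end Pool.Agent.M58
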