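import Pool.Agent.W_b58c63_m1.HPrD

/-!
# The products which cover the composite rough integers (helper68)

`m = 4 μ` is the number of tents per `log Y`, `z = Y ^ (j₀ / m)`.
-/

set_option autoImplicit false

noncomputable section

open Finset MeasureTheory Complex

namespace Pool.Agent.M58

/-- The primes of the tent `j` which are at most `Y`. (For `j + 1 ≤ m` this is `pb Y m j`.) -/
def pbY (Y : ℝ) (m j n : ℕ) : ℝ := if (n : ℝ) ≤ Y then pb Y m j n else 0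

/-- The upper cover of the composite rough integers near `Y ^ 2`. -/
def qX (Y : ℝ) (μ j₀ n : ℕ) : ℝ :=
  ∑ j ∈ Icc j₀ (4 * μ), ∑ k ∈ Icc (7 * μ - j) (9 * μ - j),
    cv (pbY Y (4 * μ) j) (rb Y (4 * μ) (Y ^ (((j : ℝ) - 1) / (4 * μ : ℕ))) k) n

/-- The lower cover of the composite rough integers near `Y`. -/
def qY (Y : ℝ) (μ j₀ n : ℕ) : ℝ :=
  ∑ j ∈ Icc (j₀ + 1) (2 * μ), ∑ k ∈ Icc (3 * μ - j) (5 * μ - j),
    cv (pb Y (4 * μ) j) (rb Y (4 * μ) (Y ^ (((j : ℝ) + 1) / (4 * μ : ℕ))) k) n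

theorem HQ_rh_iff (z : ℝ) (n : ℕ) : rh z n ≠ 0 ↔ n ≠ 0 ∧ ∀ p ∈ n.primeFactors, z ≤ (p : ℝ) := by
  classical
  unfold rh
  constructor
  · intro h
    by_contra hc
    rw [if_neg hc] at h
    exact h rfl
  · intro h
    rw [if_pos h]
    exact one_ne_zero

theorem HQ_rh_one {z : ℝ} {n : ℕ} (h : rh z n ≠ 0) : rh z n = 1 := by
  classical
  have h1 := (HQ_rh_iff z n).1 h
  unfold rh
  rw [if_pos h1]

theorem HQ_rh_nonneg (z : ℝ) (n : ℕ) : 0 ≤ rh z n := by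
  by_cases h : rh z n = 0
  · rw [h]
  · rw [HQ_rh_one h]
    exact zero_le_one

theorem HQ_rh_le (z : ℝ) (n : ℕ) : rh z n ≤ 1 := by
  by_cases h : rh z n = 0
  · rw [h]
    exact zero_le_one
  · rw [HQ_rh_one h]

theorem HQ_pb_supp (Y : ℝ) (M j : ℕ) (hY : 3 ≤ Y) (hM : 1 ≤ M) (n : ℕ) (h : pb Y M j n ≠ 0) :
    n.Prime ∧ Y ^ (((j : ℝ) - 1) / M) < n ∧ (n : ℝ) < Y ^ (((j : ℝ) + 1) / M) := by
  unfold pb pw at h
  have hp : n.Prime := by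
    by_contra hc
    rw [if_neg hc] at h
    exact h rfl
  rw [if_pos hp] at h
  have h1 := (Gt_props Y M j hY hM).2.2 _ h
  have hn : (0 : ℝ) < n := by exact_mod_cast hp.pos
  have hY0 : (0 : ℝ) < Y := by linarith
  refine ⟨hp, ?_, ?_⟩
  · rw [Real.rpow_def_of_pos hY0, ← Real.lt_log_iff_exp_lt hn, mul_comm]
    exact h1.1
  · rw [Real.rpow_def_of_pos hY0, ← Real.log_lt_iff_lt_exp hn, mul_comm]
    exact h1.2

theorem HQ_rb_supp (Y : ℝ) (M k : ℕ) (z : ℝ) (hY : 3 ≤ Y) (hM : 1 ≤ M) (n : ℕ)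
    (h : rb Y M z k n ≠ 0) :
    rh z n ≠ 0 ∧ Y ^ (((k : ℝ) - 1) / M) < n ∧ (n : ℝ) < Y ^ (((k : ℝ) + 1) / M) := by
  unfold rb at h
  have hr := left_ne_zero_of_mul h
  have h1 := (Gt_props Y M k hY hM).2.2 _ (right_ne_zero_of_mul h)
  have hn0 := ((HQ_rh_iff z n).1 hr).1
  have hn : (0 : ℝ) < n := by exact_mod_cast Nat.pos_of_ne_zero hn0
  have hY0 : (0 : ℝ) < Y := by linarith
  refine ⟨hr, ?_, ?_⟩
  · rw [Real.rpow_def_of_pos hY0, ← Real.lt_log_iff_exp_lt hn, mul_comm]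
    exact h1.1
  · rw [Real.rpow_def_of_pos hY0, ← Real.log_lt_iff_lt_exp hn, mul_comm]
    exact h1.2

theorem HQ_pb_nonneg (Y : ℝ) (M j : ℕ) (hY : 3 ≤ Y) (hM : 1 ≤ M) (n : ℕ) : 0 ≤ pb Y M j n := by
  unfold pb pw
  split_ifs
  · exact ((Gt_props Y M j hY hM).1 _).1
  · exact le_rfl

theorem HQ_rb_nonneg (Y : ℝ) (M k : ℕ) (z : ℝ) (hY : 3 ≤ Y) (hM : 1 ≤ M) (n : ℕ) :
    0 ≤ rb Y M z k n :=
  mul_nonneg (HQ_rh_nonneg z n) ((Gt_props Y M k hY hM).1 _).1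

theorem HQ_DP_sum {ι : Type*} (s : Finset ι) (N : ℕ) (a : ι → ℕ → ℝ) {r : ℕ}
    (χ : DirichletCharacter ℂ r) (t : ℝ) :
    DP N (fun n => ∑ i ∈ s, a i n) χ t = ∑ i ∈ s, DP N (a i) χ t := by
  unfold DP
  rw [Finset.sum_comm]
  refine Finset.sum_congr rfl fun n _ => ?_
  rw [Finset.sum_div]
  push_cast
  rw [Finset.sum_mul, Finset.sum_mul]

theorem HQ_DP_pair (Y t : ℝ) (M j k N r : ℕ) (z : ℝ) (χ : DirichletCharacter ℂ r) (hY : 3 ≤ Y)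
    (hM : 1 ≤ M) (hjk : j + k + 2 ≤ 6 * M) (hN : Y ^ 6 ≤ N) (a : ℕ → ℝ)
    (ha : ∀ n, a n ≠ 0 → pb Y M j n ≠ 0) :
    DP N (cv a (rb Y M z k)) χ t = DP N a χ t * DP N (rb Y M z k) χ t := by
  have hY0 : (0 : ℝ) < Y := by linarith
  refine DP_mul N a (rb Y M z k) ⌊Y ^ (((j : ℝ) + 1) / M)⌋₊ ⌊Y ^ (((k : ℝ) + 1) / M)⌋₊
    ?_ ?_ ?_ χ t
  · intro n hn
    by_contra hc
    have h1 := (HQ_pb_supp Y M j hY hM n (ha n hc)).2.2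
    have h2 := Nat.le_floor h1.le
    omega
  · intro n hn
    by_contra hc
    have h1 := (HQ_rb_supp Y M k z hY hM n hc).2.2
    have h2 := Nat.le_floor h1.le
    omega
  · have h1 : (⌊Y ^ (((j : ℝ) + 1) / M)⌋₊ : ℝ) ≤ Y ^ (((j : ℝ) + 1) / M) :=
      Nat.floor_le (Real.rpow_nonneg hY0.le _)
    have h2 : (⌊Y ^ (((k : ℝ) + 1) / M)⌋₊ : ℝ) ≤ Y ^ (((k : ℝ) + 1) / M) :=
      Nat.floor_le (Real.rpow_nonneg hY0.le _)
    have hM0 : (0 : ℝ) < M := by exact_mod_cast hM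
    have h3 : (((j : ℝ) + 1) / M) + (((k : ℝ) + 1) / M) ≤ (6 : ℕ) := by
      rw [← add_div, div_le_iff₀ hM0]
      have : ((j + k + 2 : ℕ) : ℝ) ≤ ((6 * M : ℕ) : ℝ) := by exact_mod_cast hjk
      push_cast at this ⊢
      linarith
    have h4 : ((⌊Y ^ (((j : ℝ) + 1) / M)⌋₊ * ⌊Y ^ (((k : ℝ) + 1) / M)⌋₊ : ℕ) : ℝ) ≤ N := by
      push_cast
      calc (⌊Y ^ (((j : ℝ) + 1) / M)⌋₊ : ℝ) * ⌊Y ^ (((k : ℝ) + 1) / M)⌋₊
          ≤ Y ^ (((j : ℝ) + 1) / M) * Y ^ (((k : ℝ) + 1) / M) :=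
            mul_le_mul h1 h2 (Nat.cast_nonneg _) (Real.rpow_nonneg hY0.le _)
        _ = Y ^ ((((j : ℝ) + 1) / M) + (((k : ℝ) + 1) / M)) := (Real.rpow_add hY0 _ _).symm
        _ ≤ Y ^ ((6 : ℕ) : ℝ) := Real.rpow_le_rpow_of_exponent_le (by linarith) h3
        _ = Y ^ 6 := Real.rpow_natCast Y 6
        _ ≤ N := hN
    exact_mod_cast h4

theorem HQ_Gt_sum_le (Y v : ℝ) (M : ℕ) (s : Finset ℕ) (hY : 3 ≤ Y) (hM : 1 ≤ M) (hv : 0 ≤ v) :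
    ∑ j ∈ s, Gt Y M j v ≤ 1 := by
  obtain ⟨J, hJ⟩ := exists_nat_ge (M * v / Real.log Y)
  have h1 := Gt_sum Y v M (max J (s.sup id)) hY hv
    (hJ.trans (by exact_mod_cast le_max_left _ _))
  rw [← h1]
  refine Finset.sum_le_sum_of_subset_of_nonneg ?_ fun j _ _ => ((Gt_props Y M j hY hM).1 v).1
  intro j hj
  rw [Finset.mem_range]
  have h2 : j ≤ s.sup id := Finset.le_sup (f := id) hj
  have h3 : s.sup id ≤ max J (s.sup id) := le_max_right _ _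
  omega

theorem HQ_cv_nonneg (Y : ℝ) (M j k : ℕ) (z : ℝ) (hY : 3 ≤ Y) (hM : 1 ≤ M) (n : ℕ) :
    0 ≤ cv (pb Y M j) (rb Y M z k) n :=
  Finset.sum_nonneg fun d _ => mul_nonneg (HQ_pb_nonneg Y M j hY hM d)
    (HQ_rb_nonneg Y M k z hY hM _)

theorem HQ_term (Y : ℝ) (M j k n : ℕ) (z : ℝ) (hY : 3 ≤ Y) (hM : 1 ≤ M)
    (h : cv (pb Y M j) (rb Y M z k) n ≠ 0) :
    ∃ p m : ℕ, n = p * m ∧ p.Prime ∧ Y ^ (((j : ℝ) - 1) / M) < p ∧ rh z m ≠ 0 ∧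
      Y ^ (((j : ℝ) + k - 2) / M) ≤ n ∧ (n : ℝ) ≤ Y ^ (((j : ℝ) + k + 2) / M) := by
  unfold cv at h
  obtain ⟨d, hd, hne⟩ := Finset.exists_ne_zero_of_sum_ne_zero h
  obtain ⟨h1, h2, h3⟩ := HQ_pb_supp Y M j hY hM d (left_ne_zero_of_mul hne)
  obtain ⟨h4, h5, h6⟩ := HQ_rb_supp Y M k z hY hM (n / d) (right_ne_zero_of_mul hne)
  have hdn := Nat.dvd_of_mem_divisors hd
  have hn : n = d * (n / d) := (Nat.mul_div_cancel' hdn).symm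
  have hn' : (n : ℝ) = d * ((n / d : ℕ) : ℝ) := by exact_mod_cast hn
  have hY0 : (0 : ℝ) < Y := by linarith
  refine ⟨d, n / d, hn, h1, h2, h4, ?_, ?_⟩
  · rw [hn', show ((j : ℝ) + k - 2) / M = ((j : ℝ) - 1) / M + ((k : ℝ) - 1) / M by ring,
      Real.rpow_add hY0]
    exact mul_le_mul h2.le h5.le (Real.rpow_nonneg hY0.le _) (Nat.cast_nonneg _)
  · rw [hn', show ((j : ℝ) + k + 2) / M = ((j : ℝ) + 1) / M + ((k : ℝ) + 1) / M by ring,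
      Real.rpow_add hY0]
    exact mul_le_mul h3.le h6.le (Nat.cast_nonneg _) (Real.rpow_nonneg hY0.le _)

theorem HQ_sum_le (Y : ℝ) (M a b : ℕ) (lo hi : ℕ → ℕ) (z : ℕ → ℝ) (n : ℕ) (hY : 3 ≤ Y)
    (hM : 1 ≤ M) (ha : 2 ≤ a) :
    ∑ j ∈ Icc a b, ∑ k ∈ Icc (lo j) (hi j), cv (pb Y M j) (rb Y M (z j) k) n ≤
      ((n.primeFactors.filter fun p : ℕ => Y ^ ((1 : ℝ) / M) < p).card : ℝ) := by
  classical
  unfold cv
  have e1 : ∀ j ∈ Icc a b, ∑ k ∈ Icc (lo j) (hi j), ∑ d ∈ n.divisors,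
      pb Y M j d * rb Y M (z j) k (n / d) =
        ∑ d ∈ n.divisors, ∑ k ∈ Icc (lo j) (hi j), pb Y M j d * rb Y M (z j) k (n / d) :=
    fun j _ => Finset.sum_comm
  rw [Finset.sum_congr rfl e1, Finset.sum_comm]
  have e2 : ((n.primeFactors.filter fun p : ℕ => Y ^ ((1 : ℝ) / M) < p).card : ℝ) =
      ∑ d ∈ n.divisors, (if d.Prime ∧ Y ^ ((1 : ℝ) / M) < d then (1 : ℝ) else 0) := by
    rw [Finset.sum_boole]
    congr 2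
    ext d
    simp only [Finset.mem_filter, Nat.mem_primeFactors, Nat.mem_divisors]
    tauto
  rw [e2]
  refine Finset.sum_le_sum fun d hd => ?_
  have hd0 : n / d ≠ 0 := by
    have h1 := Nat.mem_divisors.1 hd
    intro h0
    have h2 := Nat.mul_div_cancel' h1.1
    rw [h0, mul_zero] at h2
    exact h1.2 h2.symm
  by_cases hp : d.Prime ∧ Y ^ ((1 : ℝ) / M) < d
  · rw [if_pos hp]
    have hlog : 0 ≤ Real.log d := Real.log_natCast_nonneg d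
    have hlog2 : 0 ≤ Real.log ((n / d : ℕ) : ℝ) := Real.log_natCast_nonneg _
    refine le_trans ?_ (HQ_Gt_sum_le Y (Real.log d) M (Icc a b) hY hM hlog)
    refine Finset.sum_le_sum fun j _ => ?_
    have hG := ((Gt_props Y M j hY hM).1 (Real.log d)).1
    have e3 : pb Y M j d = Gt Y M j (Real.log d) := by
      unfold pb pw
      rw [if_pos hp.1]
    rw [← Finset.mul_sum, e3]
    have h4 : ∑ k ∈ Icc (lo j) (hi j), rb Y M (z j) k (n / d) ≤ 1 := by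
      refine le_trans ?_ (HQ_Gt_sum_le Y (Real.log ((n / d : ℕ) : ℝ)) M (Icc (lo j) (hi j)) hY hM hlog2)
      refine Finset.sum_le_sum fun k _ => ?_
      have h5 := ((Gt_props Y M k hY hM).1 (Real.log ((n / d : ℕ) : ℝ))).1
      unfold rb
      calc rh (z j) (n / d) * Gt Y M k (Real.log ((n / d : ℕ) : ℝ))
          ≤ 1 * Gt Y M k (Real.log ((n / d : ℕ) : ℝ)) :=
            mul_le_mul_of_nonneg_right (HQ_rh_le _ _) h5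
        _ = _ := one_mul _
    calc Gt Y M j (Real.log d) * ∑ k ∈ Icc (lo j) (hi j), rb Y M (z j) k (n / d)
        ≤ Gt Y M j (Real.log d) * 1 := mul_le_mul_of_nonneg_left h4 hG
      _ = _ := mul_one _
  · rw [if_neg hp]
    refine le_of_eq (Finset.sum_eq_zero fun j hj => Finset.sum_eq_zero fun k _ => ?_)
    have hz : pb Y M j d = 0 := by
      by_contra hc
      obtain ⟨h1, h2, _⟩ := HQ_pb_supp Y M j hY hM d hc
      apply hp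
      refine ⟨h1, lt_of_le_of_lt ?_ h2⟩
      refine Real.rpow_le_rpow_of_exponent_le (by linarith) ?_
      have hM0 : (0 : ℝ) < M := by exact_mod_cast hM
      refine div_le_div_of_nonneg_right ?_ hM0.le
      have h3 := (Finset.mem_Icc.1 hj).1
      have h4 : (2 : ℝ) ≤ j := by exact_mod_cast ha.trans h3
      linarith
    rw [hz, zero_mul]

theorem HQ_card_le (Y : ℝ) (M n : ℕ) (R : ℝ) (hY : 3 ≤ Y) (hM : 1 ≤ M) (hn0 : n ≠ 0)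
    (hn : (n : ℝ) ≤ Y ^ R) :
    ((n.primeFactors.filter fun p : ℕ => Y ^ ((1 : ℝ) / M) < p).card : ℝ) ≤ R * M := by
  have hY0 : (0 : ℝ) < Y := by linarith
  have hY1 : (1 : ℝ) < Y := by linarith
  have hM0 : (0 : ℝ) < M := by exact_mod_cast hM
  set F := n.primeFactors.filter fun p : ℕ => Y ^ ((1 : ℝ) / M) < p with hF
  have h1 : ∏ p ∈ F, p ∣ n :=
    (Finset.prod_dvd_prod_of_subset _ _ _ (Finset.filter_subset _ _)).trans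
      (Nat.prod_primeFactors_dvd n)
  have h2 : ∏ p ∈ F, p ≤ n := Nat.le_of_dvd (Nat.pos_of_ne_zero hn0) h1
  have h3 : (Y ^ ((1 : ℝ) / M)) ^ F.card ≤ ∏ p ∈ F, (p : ℝ) := by
    rw [← Finset.prod_const]
    refine Finset.prod_le_prod (fun _ _ => Real.rpow_nonneg hY0.le _) fun p hp => ?_
    exact (Finset.mem_filter.1 hp).2.le
  have h4 : (∏ p ∈ F, (p : ℝ)) ≤ n := by
    rw [← Nat.cast_prod]
    exact_mod_cast h2
  have h5 : Y ^ ((1 : ℝ) / M * F.card) ≤ Y ^ R := by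
    rw [Real.rpow_mul hY0.le, Real.rpow_natCast]
    exact h3.trans (h4.trans hn)
  have h6 := (Real.rpow_le_rpow_left_iff hY1).1 h5
  have h7 : (1 : ℝ) / M * F.card * M = F.card := by field_simp
  rw [← h7]
  exact mul_le_mul_of_nonneg_right h6 hM0.le

theorem HQ_props (Y : ℝ) (M a b L H : ℕ) (lo hi : ℕ → ℕ) (z : ℕ → ℝ) (w A B : ℝ) (n : ℕ)
    (hY : 3 ≤ Y) (hM : 1 ≤ M)
    (hL : ∀ j ∈ Icc a b, ∀ k ∈ Icc (lo j) (hi j), L ≤ j + k ∧ j + k ≤ H)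
    (hz : ∀ j ∈ Icc a b, w ≤ z j) (hw : w ≤ Y ^ (((a : ℝ) - 1) / M))
    (hA : A ≤ ((L : ℝ) - 2) / M) (hB : ((H : ℝ) + 2) / M ≤ B) :
    ∑ j ∈ Icc a b, ∑ k ∈ Icc (lo j) (hi j), cv (pb Y M j) (rb Y M (z j) k) n ≠ 0 →
      rh w n = 1 ∧ Y ^ A ≤ n ∧ (n : ℝ) ≤ Y ^ B ∧ n ≠ 0 := by
  intro h
  have hY1 : (1 : ℝ) ≤ Y := by linarith
  have hM0 : (0 : ℝ) < M := by exact_mod_cast hM
  obtain ⟨j, hj, hj2⟩ := Finset.exists_ne_zero_of_sum_ne_zero h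
  obtain ⟨k, hk, hk2⟩ := Finset.exists_ne_zero_of_sum_ne_zero hj2
  obtain ⟨p, m, hn, hp, hpl, hm, h1, h2⟩ := HQ_term Y M j k n (z j) hY hM hk2
  obtain ⟨hL1, hL2⟩ := hL j hj k hk
  have hL1' : (L : ℝ) ≤ (j : ℝ) + k := by exact_mod_cast hL1
  have hL2' : (j : ℝ) + k ≤ (H : ℝ) := by exact_mod_cast hL2
  have hm' := (HQ_rh_iff _ _).1 hm
  have hn0 : n ≠ 0 := by
    rw [hn]
    exact mul_ne_zero hp.ne_zero hm'.1
  refine ⟨HQ_rh_one ((HQ_rh_iff _ _).2 ⟨hn0, ?_⟩), ?_, ?_, hn0⟩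
  · intro q hq
    rw [hn, Nat.primeFactors_mul hp.ne_zero hm'.1, Finset.mem_union, hp.primeFactors,
      Finset.mem_singleton] at hq
    rcases hq with hq | hq
    · rw [hq]
      refine hw.trans (le_trans ?_ hpl.le)
      refine Real.rpow_le_rpow_of_exponent_le hY1 (div_le_div_of_nonneg_right ?_ hM0.le)
      have : (a : ℝ) ≤ j := by exact_mod_cast (Finset.mem_Icc.1 hj).1
      linarith
    · exact (hz j hj).trans (hm'.2 q hq)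
  · refine le_trans (Real.rpow_le_rpow_of_exponent_le hY1 (hA.trans ?_)) h1
    exact div_le_div_of_nonneg_right (by linarith) hM0.le
  · refine h2.trans (Real.rpow_le_rpow_of_exponent_le hY1 (le_trans ?_ hB))
    exact div_le_div_of_nonneg_right (by linarith) hM0.le

theorem HQ_bound (Y : ℝ) (M a b L H : ℕ) (lo hi : ℕ → ℕ) (z : ℕ → ℝ) (w A B : ℝ) (n : ℕ)
    (hY : 3 ≤ Y) (hM : 1 ≤ M) (ha : 2 ≤ a)
    (hL : ∀ j ∈ Icc a b, ∀ k ∈ Icc (lo j) (hi j), L ≤ j + k ∧ j + k ≤ H)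
    (hz : ∀ j ∈ Icc a b, w ≤ z j) (hw : w ≤ Y ^ (((a : ℝ) - 1) / M))
    (hA : A ≤ ((L : ℝ) - 2) / M) (hB : ((H : ℝ) + 2) / M ≤ B) :
    ∑ j ∈ Icc a b, ∑ k ∈ Icc (lo j) (hi j), cv (pb Y M j) (rb Y M (z j) k) n ≤ B * M := by
  have hM0 : (0 : ℝ) < M := by exact_mod_cast hM
  by_cases h : ∑ j ∈ Icc a b, ∑ k ∈ Icc (lo j) (hi j), cv (pb Y M j) (rb Y M (z j) k) n = 0
  · rw [h]
    have h1 : 0 ≤ ((H : ℝ) + 2) / M := by positivity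
    have h2 : 0 ≤ B := h1.trans hB
    positivity
  · obtain ⟨_, _, h1, h2⟩ := HQ_props Y M a b L H lo hi z w A B n hY hM hL hz hw hA hB h
    exact (HQ_sum_le Y M a b lo hi z n hY hM ha).trans (HQ_card_le Y M n B hY hM h2 h1)

theorem HQ_pbY (Y : ℝ) (M j : ℕ) (hY : 3 ≤ Y) (hM : 1 ≤ M) (n : ℕ) :
    0 ≤ pbY Y M j n ∧ pbY Y M j n ≤ pb Y M j n ∧ (pbY Y M j n ≠ 0 → pb Y M j n ≠ 0) := by
  have h := HQ_pb_nonneg Y M j hY hM n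
  unfold pbY
  split_ifs
  · exact ⟨h, le_rfl, fun h => h⟩
  · exact ⟨le_rfl, h, fun h => absurd rfl h⟩

theorem HQ_cvY (Y : ℝ) (M j k : ℕ) (z : ℝ) (hY : 3 ≤ Y) (hM : 1 ≤ M) (n : ℕ) :
    0 ≤ cv (pbY Y M j) (rb Y M z k) n ∧
      cv (pbY Y M j) (rb Y M z k) n ≤ cv (pb Y M j) (rb Y M z k) n := by
  unfold cv
  constructor
  · exact Finset.sum_nonneg fun d _ => mul_nonneg (HQ_pbY Y M j hY hM d).1
      (HQ_rb_nonneg Y M k z hY hM _)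
  · exact Finset.sum_le_sum fun d _ => mul_le_mul_of_nonneg_right (HQ_pbY Y M j hY hM d).2.1
      (HQ_rb_nonneg Y M k z hY hM _)

/-- The Dirichlet polynomials of `qX` and `qY` are sums of products (`DP_mul`; all supports are in `n ≤ Y ^ 3`). -/
theorem DP_qX (Y t : ℝ) (μ j₀ N r : ℕ) (χ : DirichletCharacter ℂ r) (hY : 3 ≤ Y) (hμ : 8 ≤ μ) (hj : 2 ≤ j₀)
    (hN : Y ^ 6 ≤ N) : DP N (qX Y μ j₀) χ t = ∑ j ∈ Icc j₀ (4 * μ), ∑ k ∈ Icc (7 * μ - j) (9 * μ - j),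
      DP N (pbY Y (4 * μ) j) χ t * DP N (rb Y (4 * μ) (Y ^ (((j : ℝ) - 1) / (4 * μ : ℕ))) k) χ t := by
  unfold qX
  rw [HQ_DP_sum]
  refine Finset.sum_congr rfl fun j hj => ?_
  rw [HQ_DP_sum]
  refine Finset.sum_congr rfl fun k hk => ?_
  rw [Finset.mem_Icc] at hj hk
  exact HQ_DP_pair Y t (4 * μ) j k N r _ χ hY (by omega) (by omega) hN _
    (fun n => (HQ_pbY Y (4 * μ) j hY (by omega) n).2.2)

theorem DP_qY (Y t : ℝ) (μ j₀ N r : ℕ) (χ : DirichletCharacter ℂ r) (hY : 3 ≤ Y) (hμ : 8 ≤ μ) (hj : 2 ≤ j₀)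
    (hN : Y ^ 6 ≤ N) : DP N (qY Y μ j₀) χ t = ∑ j ∈ Icc (j₀ + 1) (2 * μ), ∑ k ∈ Icc (3 * μ - j) (5 * μ - j),
      DP N (pb Y (4 * μ) j) χ t * DP N (rb Y (4 * μ) (Y ^ (((j : ℝ) + 1) / (4 * μ : ℕ))) k) χ t := by
  unfold qY
  rw [HQ_DP_sum]
  refine Finset.sum_congr rfl fun j hj => ?_
  rw [HQ_DP_sum]
  refine Finset.sum_congr rfl fun k hk => ?_
  rw [Finset.mem_Icc] at hj hk
  exact HQ_DP_pair Y t (4 * μ) j k N r _ χ hY (by omega) (by omega) hN _ (fun _ h => h)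

/-- Nonnegativity, supports and size. (The total weight of the pairs which are counted for one `n ≤ Y ^ (5 / 2)` is at
most the number of its prime factors `≥ Y ^ ((j₀ - 1) / (4 μ))`, at most `10 μ`.) -/
theorem q_props (Y : ℝ) (μ j₀ n : ℕ) (hY : 3 ≤ Y) (hμ : 8 ≤ μ) (hj : 2 ≤ j₀) (hj' : j₀ ≤ μ) :
    0 ≤ qX Y μ j₀ n ∧ 0 ≤ qY Y μ j₀ n ∧ qX Y μ j₀ n ≤ 20 * μ ∧ qY Y μ j₀ n ≤ 20 * μ ∧
    (qX Y μ j₀ n ≠ 0 → rh (Y ^ (((j₀ : ℝ) - 1) / (4 * μ : ℕ))) n = 1 ∧ Y ^ (3 / 2 : ℝ) ≤ n ∧ (n : ℝ) ≤ Y ^ (5 / 2 : ℝ)) ∧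
    (qY Y μ j₀ n ≠ 0 → rh (Y ^ ((j₀ : ℝ) / (4 * μ : ℕ))) n = 1 ∧ Y ^ (1 / 2 : ℝ) ≤ n ∧ (n : ℝ) ≤ Y ^ (3 / 2 : ℝ)) := by
  have hM : 1 ≤ 4 * μ := by omega
  have hY1 : (1 : ℝ) ≤ Y := by linarith
  have hμr : (8 : ℝ) ≤ μ := by exact_mod_cast hμ
  have hM0 : (0 : ℝ) < ((4 * μ : ℕ) : ℝ) := by exact_mod_cast hM
  have hM1 : (0 : ℝ) < 4 * (μ : ℝ) := by linarith
  have hLX : ∀ j ∈ Icc j₀ (4 * μ), ∀ k ∈ Icc (7 * μ - j) (9 * μ - j),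
      7 * μ ≤ j + k ∧ j + k ≤ 9 * μ := by
    intro j hj k hk
    rw [Finset.mem_Icc] at hj hk
    omega
  have hLY : ∀ j ∈ Icc (j₀ + 1) (2 * μ), ∀ k ∈ Icc (3 * μ - j) (5 * μ - j),
      3 * μ ≤ j + k ∧ j + k ≤ 5 * μ := by
    intro j hj k hk
    rw [Finset.mem_Icc] at hj hk
    omega
  have hzX : ∀ j ∈ Icc j₀ (4 * μ), Y ^ (((j₀ : ℝ) - 1) / (4 * μ : ℕ)) ≤
      Y ^ (((j : ℝ) - 1) / (4 * μ : ℕ)) := by
    intro j hj
    refine Real.rpow_le_rpow_of_exponent_le hY1 (div_le_div_of_nonneg_right ?_ hM0.le)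
    have : (j₀ : ℝ) ≤ j := by exact_mod_cast (Finset.mem_Icc.1 hj).1
    linarith
  have hzY : ∀ j ∈ Icc (j₀ + 1) (2 * μ), Y ^ ((j₀ : ℝ) / (4 * μ : ℕ)) ≤
      Y ^ (((j : ℝ) + 1) / (4 * μ : ℕ)) := by
    intro j hj
    refine Real.rpow_le_rpow_of_exponent_le hY1 (div_le_div_of_nonneg_right ?_ hM0.le)
    have : (j₀ : ℝ) + 1 ≤ j := by exact_mod_cast (Finset.mem_Icc.1 hj).1
    linarith
  have hwY : Y ^ ((j₀ : ℝ) / (4 * μ : ℕ)) ≤ Y ^ ((((j₀ + 1 : ℕ) : ℝ) - 1) / (4 * μ : ℕ)) := by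
    refine le_of_eq ?_
    congr 2
    push_cast
    ring
  have hAX : (3 / 2 : ℝ) ≤ (((7 * μ : ℕ) : ℝ) - 2) / (4 * μ : ℕ) := by
    push_cast
    rw [le_div_iff₀ hM1]
    linarith
  have hBX : (((9 * μ : ℕ) : ℝ) + 2) / (4 * μ : ℕ) ≤ (5 / 2 : ℝ) := by
    push_cast
    rw [div_le_iff₀ hM1]
    linarith
  have hAY : (1 / 2 : ℝ) ≤ (((3 * μ : ℕ) : ℝ) - 2) / (4 * μ : ℕ) := by
    push_cast
    rw [le_div_iff₀ hM1]
    linarith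
  have hBY : (((5 * μ : ℕ) : ℝ) + 2) / (4 * μ : ℕ) ≤ (3 / 2 : ℝ) := by
    push_cast
    rw [div_le_iff₀ hM1]
    linarith
  have bX := HQ_bound Y (4 * μ) j₀ (4 * μ) (7 * μ) (9 * μ) _ _ _ _ _ _ n hY hM hj hLX hzX
    le_rfl hAX hBX
  have bY := HQ_bound Y (4 * μ) (j₀ + 1) (2 * μ) (3 * μ) (5 * μ) _ _ _ _ _ _ n hY hM (by omega)
    hLY hzY hwY hAY hBY
  have pX := HQ_props Y (4 * μ) j₀ (4 * μ) (7 * μ) (9 * μ) _ _ _ _ _ _ n hY hM hLX hzX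
    le_rfl hAX hBX
  have pY := HQ_props Y (4 * μ) (j₀ + 1) (2 * μ) (3 * μ) (5 * μ) _ _ _ _ _ _ n hY hM
    hLY hzY hwY hAY hBY
  have hle : qX Y μ j₀ n ≤ ∑ j ∈ Icc j₀ (4 * μ), ∑ k ∈ Icc (7 * μ - j) (9 * μ - j),
      cv (pb Y (4 * μ) j) (rb Y (4 * μ) (Y ^ (((j : ℝ) - 1) / (4 * μ : ℕ))) k) n :=
    Finset.sum_le_sum fun j _ => Finset.sum_le_sum fun k _ => (HQ_cvY Y _ j k _ hY hM n).2
  have hnn : 0 ≤ qX Y μ j₀ n :=
    Finset.sum_nonneg fun j _ => Finset.sum_nonneg fun k _ => (HQ_cvY Y _ j k _ hY hM n).1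
  refine ⟨hnn, ?_, ?_, ?_, ?_, ?_⟩
  · exact Finset.sum_nonneg fun j _ => Finset.sum_nonneg fun k _ => HQ_cv_nonneg Y _ j k _ hY hM n
  · refine (hle.trans bX).trans ?_
    push_cast
    linarith
  · refine bY.trans ?_
    push_cast
    linarith
  · intro h
    obtain ⟨h1, h2, h3, _⟩ := pX (lt_of_lt_of_le (lt_of_le_of_ne hnn (Ne.symm h)) hle).ne'
    exact ⟨h1, h2, h3⟩
  · intro h
    obtain ⟨h1, h2, h3, _⟩ := pY h
    exact ⟨h1, h2, h3⟩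

end Pool.Agent.M58
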