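import Pool.Agent.W_b58c63_m1.EA
import Pool.Agent.W_b58c63_m1.HQ
import Pool.Agent.W_b58c63_h44.VNa

/-!
# The minor arcs (helper68)
-/

set_option autoImplicit false

noncomputable section

open Finset

namespace Pool.Agent.M58

theorem EC_ex (x : ℝ) : ex x = Wb58c63.ee x := by
  unfold ex Wb58c63.ee
  congr 1
  ring

theorem EC_ex_add (x y : ℝ) : ex (x + y) = ex x * ex y := by
  unfold ex
  rw [← Complex.exp_add]
  congr 1
  push_cast
  ring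

theorem EC_norm (x : ℝ) : ‖ex x‖ = 1 := EWeyl_norm x

/-- Expanding the square. -/
theorem EC_sq (s u : Finset ℕ) (g : ℕ → ℕ → ℝ) (α : ℝ) :
    ∑ l ∈ s, ‖∑ p ∈ u, (g p l : ℂ) * ex ((p * l : ℕ) * α)‖ ^ 2 ≤
      ∑ p ∈ u, ∑ p' ∈ u, ‖∑ l ∈ s, ((g p l * g p' l : ℝ) : ℂ) * ex (l * (((p : ℝ) - p') * α))‖ := by
  have h5 : ((∑ l ∈ s, ‖∑ p ∈ u, (g p l : ℂ) * ex ((p * l : ℕ) * α)‖ ^ 2 : ℝ) : ℂ) =
      ∑ p ∈ u, ∑ p' ∈ u, ∑ l ∈ s, ((g p l * g p' l : ℝ) : ℂ) * ex (l * (((p : ℝ) - p') * α)) := by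
    have h1 : ∀ l ∈ s, ((‖∑ p ∈ u, (g p l : ℂ) * ex ((p * l : ℕ) * α)‖ ^ 2 : ℝ) : ℂ) =
        ∑ p ∈ u, ∑ p' ∈ u, ((g p l * g p' l : ℝ) : ℂ) * ex (l * (((p : ℝ) - p') * α)) := by
      intro l _
      rw [Complex.ofReal_pow, ← Complex.mul_conj', map_sum, Finset.sum_mul_sum]
      refine Finset.sum_congr rfl fun p _ => Finset.sum_congr rfl fun p' _ => ?_
      rw [map_mul, Complex.conj_ofReal]
      have h2 : (l : ℝ) * (((p : ℝ) - p') * α) = ((p * l : ℕ) : ℝ) * α - ((p' * l : ℕ) : ℝ) * α := by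
        push_cast
        ring
      rw [h2, ← EWeyl_conj]
      push_cast
      ring
    rw [Complex.ofReal_sum, Finset.sum_congr rfl h1, Finset.sum_comm]
    refine Finset.sum_congr rfl fun p _ => ?_
    rw [Finset.sum_comm]
  have h9 : (∑ l ∈ s, ‖∑ p ∈ u, (g p l : ℂ) * ex ((p * l : ℕ) * α)‖ ^ 2 : ℝ) =
      ‖((∑ l ∈ s, ‖∑ p ∈ u, (g p l : ℂ) * ex ((p * l : ℕ) * α)‖ ^ 2 : ℝ) : ℂ)‖ := by
    rw [Complex.norm_real, Real.norm_eq_abs, abs_of_nonneg (Finset.sum_nonneg fun _ _ => by positivity)]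
  rw [h9, h5]
  refine (norm_sum_le _ _).trans (Finset.sum_le_sum fun p _ => ?_)
  exact norm_sum_le _ _

/-- Abel summation. -/
theorem EC_abel (f : ℕ → ℝ) (e : ℕ → ℂ) (L n : ℕ) (hn : L ≤ n) :
    ∑ l ∈ Ioc L n, (f l : ℂ) * e l = (f n : ℂ) * (∑ l ∈ Ioc L n, e l) -
      ∑ l ∈ Ico L n, ((f (l + 1) - f l : ℝ) : ℂ) * ∑ i ∈ Ioc L l, e i := by
  induction n, hn using Nat.le_induction with
  | base => simp
  | succ n hn ih =>
    rw [Finset.sum_Ioc_succ_top (by omega), ih, Finset.sum_Ioc_succ_top (by omega), Finset.sum_Ico_succ_top (by omega)]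
    push_cast
    ring

theorem EC_abel_le (f : ℕ → ℝ) (L M : ℕ) (hLM : L ≤ M) (β H S V : ℝ) (hH : 0 ≤ H) (hHL : ((M : ℝ) - L) ≤ H) (hS : |f M| ≤ S)
    (hV : ∑ l ∈ Ico L M, |f (l + 1) - f l| ≤ V) :
    ‖∑ l ∈ Ioc L M, (f l : ℂ) * ex (l * β)‖ ≤ (S + V) * PSG.VNa_mh H β := by
  have hm0 : 0 ≤ PSG.VNa_mh H β := PSG.VNa_mh_nonneg H β hH
  have hE : ∀ n, n ≤ M → ‖∑ l ∈ Ioc L n, ex (l * β)‖ ≤ PSG.VNa_mh H β := by
    intro n hn
    simp only [EC_ex]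
    refine PSG.VNa_geom L n β H ?_ hH
    have : (n : ℝ) ≤ M := by exact_mod_cast hn
    linarith
  rw [EC_abel f (fun l => ex (l * β)) L M hLM]
  refine (norm_sub_le _ _).trans ?_
  rw [add_mul]
  apply add_le_add
  · rw [norm_mul, Complex.norm_real, Real.norm_eq_abs]
    exact mul_le_mul hS (hE M le_rfl) (norm_nonneg _) ((abs_nonneg _).trans hS)
  · refine (norm_sum_le _ _).trans ?_
    calc _ ≤ ∑ l ∈ Ico L M, |f (l + 1) - f l| * PSG.VNa_mh H β := by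
          refine Finset.sum_le_sum fun l hl => ?_
          rw [norm_mul, Complex.norm_real, Real.norm_eq_abs]
          rw [Finset.mem_Ico] at hl
          exact mul_le_mul_of_nonneg_left (hE l hl.2.le) (abs_nonneg _)
      _ = (∑ l ∈ Ico L M, |f (l + 1) - f l|) * PSG.VNa_mh H β := by rw [Finset.sum_mul]
      _ ≤ V * PSG.VNa_mh H β := mul_le_mul_of_nonneg_right hV hm0

theorem EC_prod_var (C lY : ℝ) (hC : 0 ≤ C * lY) (u v : ℕ → ℝ) (L M : ℕ)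
    (hu : ∀ n, 0 ≤ u n ∧ u n ≤ C * lY) (hv : ∀ n, 0 ≤ v n ∧ v n ≤ C * lY)
    (hu1 : ∑ l ∈ range M, |u (l + 1) - u l| ≤ C * lY) (hv1 : ∑ l ∈ range M, |v (l + 1) - v l| ≤ C * lY) :
    ∑ l ∈ Ico L M, |u (l + 1) * v (l + 1) - u l * v l| ≤ 2 * (C * lY) ^ 2 := by
  have hsub : Ico L M ⊆ range M := by
    intro l hl
    rw [Finset.mem_Ico] at hl
    exact Finset.mem_range.2 hl.2
  calc ∑ l ∈ Ico L M, |u (l + 1) * v (l + 1) - u l * v l| ≤
        ∑ l ∈ range M, |u (l + 1) * v (l + 1) - u l * v l| :=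
        Finset.sum_le_sum_of_subset_of_nonneg hsub fun _ _ _ => abs_nonneg _
    _ ≤ ∑ l ∈ range M, (|u (l + 1) - u l| * (C * lY) + (C * lY) * |v (l + 1) - v l|) := by
        refine Finset.sum_le_sum fun l _ => ?_
        have h1 : u (l + 1) * v (l + 1) - u l * v l = (u (l + 1) - u l) * v (l + 1) + u l * (v (l + 1) - v l) := by ring
        rw [h1]
        refine (abs_add_le _ _).trans ?_
        rw [abs_mul, abs_mul, abs_of_nonneg (hv (l + 1)).1, abs_of_nonneg (hu l).1]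
        exact add_le_add (mul_le_mul_of_nonneg_left (hv (l + 1)).2 (abs_nonneg _))
          (mul_le_mul_of_nonneg_right (hu l).2 (abs_nonneg _))
    _ = (∑ l ∈ range M, |u (l + 1) - u l|) * (C * lY) + (C * lY) * ∑ l ∈ range M, |v (l + 1) - v l| := by
        rw [Finset.sum_add_distrib, Finset.sum_mul, Finset.mul_sum]
    _ ≤ (C * lY) * (C * lY) + (C * lY) * (C * lY) :=
        add_le_add (mul_le_mul_of_nonneg_right hu1 hC) (mul_le_mul_of_nonneg_left hv1 hC)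
    _ = 2 * (C * lY) ^ 2 := by ring

/-- Bilinear sums with a weight of bounded variation.

Proof. Cauchy in `l`: the square is at most `(∑ |b l| ^ 2) ∑_{p, p'} |a p a p'| |∑_{l ∈ (L, 2 L]} ww (p l) ww (p' l) ex ((p - p') l α)|`; the
inner sum is at most `C (log Y) ^ 2 min (L, 1 / dn ((p - p') α))` (Abel summation; the variation of a product), and
`∑_{0 < h ≤ M} min (L, 1 / dn (h α)) ≤ 8 (M / q + 1) (L + q log q)` for `|α - a / q| ≤ 1 / q ^ 2` (blocks of `q` consecutive `h`). -/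
theorem bilin (k : ℕ) : ∃ C : ℝ, 1 ≤ C ∧ ∀ (Y α : ℝ) (M L q : ℕ) (r : ℤ) (a b : ℕ → ℝ), 3 ≤ Y → 1 ≤ M → 1 ≤ L →
    1 ≤ q → IsCoprime r (q : ℤ) → |α - r / q| ≤ 1 / (q : ℝ) ^ 2 → (∀ n, |a n| ≤ 1) → (∀ n, |b n| ≤ 1) →
      ‖∑ p ∈ Ioc M (2 * M), ∑ l ∈ Ioc L (2 * L), ((a p * b l * ww k Y (p * l) : ℝ) : ℂ) * ex ((p * l : ℕ) * α)‖ ^ 2 ≤
        C * Real.log Y ^ 2 * (L * M) * (L + M * (M / q + 1) * (L + q * (1 + Real.log q)) / M) := by
  obtain ⟨C, hC, H⟩ := ww_props k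
  refine ⟨12 * C ^ 2, by nlinarith, ?_⟩
  intro Y α M L q r a b hY hM hL hq hrq hα ha hb
  obtain ⟨hw, -, hvar⟩ := H Y hY
  have hlY : 0 < Real.log Y := Real.log_pos (by linarith)
  have hCl : 0 ≤ C * Real.log Y := by positivity
  have hM0 : (0 : ℝ) < M := by exact_mod_cast hM
  have hL0 : (0 : ℝ) < L := by exact_mod_cast hL
  have hq0 : (0 : ℝ) < q := by exact_mod_cast hq
  have hlq : 0 ≤ Real.log q := Real.log_natCast_nonneg q
  -- Cauchy-Schwarz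
  have h1 : ∑ p ∈ Ioc M (2 * M), ∑ l ∈ Ioc L (2 * L), ((a p * b l * ww k Y (p * l) : ℝ) : ℂ) * ex ((p * l : ℕ) * α) =
      ∑ l ∈ Ioc L (2 * L), (b l : ℂ) * ∑ p ∈ Ioc M (2 * M), ((a p * ww k Y (p * l) : ℝ) : ℂ) * ex ((p * l : ℕ) * α) := by
    rw [Finset.sum_comm]
    refine Finset.sum_congr rfl fun l _ => ?_
    rw [Finset.mul_sum]
    refine Finset.sum_congr rfl fun p _ => ?_
    push_cast
    ring
  rw [h1]
  have hcs : ‖∑ l ∈ Ioc L (2 * L), (b l : ℂ) * ∑ p ∈ Ioc M (2 * M), ((a p * ww k Y (p * l) : ℝ) : ℂ) * ex ((p * l : ℕ) * α)‖ ^ 2 ≤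
      L * ∑ l ∈ Ioc L (2 * L), ‖∑ p ∈ Ioc M (2 * M), ((a p * ww k Y (p * l) : ℝ) : ℂ) * ex ((p * l : ℕ) * α)‖ ^ 2 := by
    have h2 : ‖∑ l ∈ Ioc L (2 * L), (b l : ℂ) * ∑ p ∈ Ioc M (2 * M), ((a p * ww k Y (p * l) : ℝ) : ℂ) * ex ((p * l : ℕ) * α)‖ ≤
        ∑ l ∈ Ioc L (2 * L), |b l| * ‖∑ p ∈ Ioc M (2 * M), ((a p * ww k Y (p * l) : ℝ) : ℂ) * ex ((p * l : ℕ) * α)‖ := by
      refine (norm_sum_le _ _).trans (Finset.sum_le_sum fun l _ => ?_)
      rw [norm_mul, Complex.norm_real, Real.norm_eq_abs]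
    refine (pow_le_pow_left₀ (norm_nonneg _) h2 2).trans ?_
    refine (Finset.sum_mul_sq_le_sq_mul_sq _ _ _).trans ?_
    apply mul_le_mul_of_nonneg_right _ (Finset.sum_nonneg fun _ _ => by positivity)
    calc ∑ l ∈ Ioc L (2 * L), |b l| ^ 2 ≤ ∑ l ∈ Ioc L (2 * L), (1 : ℝ) := by
          refine Finset.sum_le_sum fun l _ => ?_
          exact pow_le_one₀ (abs_nonneg _) (hb l)
      _ = L := by
          rw [Finset.sum_const, Nat.card_Ioc, nsmul_eq_mul, mul_one]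
          congr 1
          omega
  refine hcs.trans ?_
  have hsq := EC_sq (Ioc L (2 * L)) (Ioc M (2 * M)) (fun p l => a p * ww k Y (p * l)) α
  -- the inner sums
  have hin : ∀ p ∈ Ioc M (2 * M), ∀ p' ∈ Ioc M (2 * M),
      ‖∑ l ∈ Ioc L (2 * L), ((a p * ww k Y (p * l) * (a p' * ww k Y (p' * l)) : ℝ) : ℂ) * ex (l * (((p : ℝ) - p') * α))‖ ≤
        3 * (C * Real.log Y) ^ 2 * PSG.VNa_mh L (((p : ℝ) - p') * α) := by
    intro p hp p' hp'
    rw [Finset.mem_Ioc] at hp hp'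
    have h2 : ∑ l ∈ Ioc L (2 * L), ((a p * ww k Y (p * l) * (a p' * ww k Y (p' * l)) : ℝ) : ℂ) * ex (l * (((p : ℝ) - p') * α)) =
        ((a p * a p' : ℝ) : ℂ) * ∑ l ∈ Ioc L (2 * L), ((ww k Y (p * l) * ww k Y (p' * l) : ℝ) : ℂ) * ex (l * (((p : ℝ) - p') * α)) := by
      rw [Finset.mul_sum]
      refine Finset.sum_congr rfl fun l _ => ?_
      push_cast
      ring
    rw [h2, norm_mul, Complex.norm_real, Real.norm_eq_abs, abs_mul]
    have h3 : |a p| * |a p'| ≤ 1 := mul_le_one₀ (ha p) (abs_nonneg _) (ha p')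
    have h4 := EC_abel_le (fun l => ww k Y (p * l) * ww k Y (p' * l)) L (2 * L) (by omega) (((p : ℝ) - p') * α) L
      ((C * Real.log Y) ^ 2) (2 * (C * Real.log Y) ^ 2) hL0.le (by push_cast; linarith) (by
        show |ww k Y (p * (2 * L)) * ww k Y (p' * (2 * L))| ≤ _
        rw [abs_mul, abs_of_nonneg (hw _).1, abs_of_nonneg (hw _).1, sq]
        exact mul_le_mul (hw _).2.1 (hw _).2.1 (hw _).1 hCl)
      (EC_prod_var C (Real.log Y) hCl (fun l => ww k Y (p * l)) (fun l => ww k Y (p' * l)) L (2 * L)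
        (fun n => ⟨(hw _).1, (hw _).2.1⟩) (fun n => ⟨(hw _).1, (hw _).2.1⟩) (hvar p (2 * L) (by omega)) (hvar p' (2 * L) (by omega)))
    calc |a p| * |a p'| * ‖∑ l ∈ Ioc L (2 * L), ((ww k Y (p * l) * ww k Y (p' * l) : ℝ) : ℂ) * ex (l * (((p : ℝ) - p') * α))‖
        ≤ 1 * (((C * Real.log Y) ^ 2 + 2 * (C * Real.log Y) ^ 2) * PSG.VNa_mh L (((p : ℝ) - p') * α)) :=
          mul_le_mul h3 h4 (norm_nonneg _) zero_le_one
      _ = _ := by ring
  have hrow : ∀ p' : ℕ, ∑ p ∈ Ioc M (2 * M), PSG.VNa_mh L (((p : ℝ) - p') * α) ≤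
      4 * ((M : ℝ) / q + 1) * (L + q * (1 + Real.log q)) := by
    intro p'
    have h2 : Ioc M (2 * M) = Ico (M + 1) (2 * M + 1) := by
      ext n
      simp only [Finset.mem_Ioc, Finset.mem_Ico]
      omega
    have h3 : ∑ p ∈ Ioc M (2 * M), PSG.VNa_mh L (((p : ℝ) - p') * α) =
        ∑ j ∈ range M, PSG.VNa_mh L ((((M : ℝ) + 1 - p') + j) * α) := by
      rw [h2, Finset.sum_Ico_eq_sum_range]
      have h4 : 2 * M + 1 - (M + 1) = M := by omega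
      rw [h4]
      refine Finset.sum_congr rfl fun j _ => ?_
      congr 2
      push_cast
      ring
    rw [h3]
    exact PSG.VNa_sum_min q r α hq (Int.isCoprime_iff_gcd_eq_one.1 hrq) hα M _ L hL0.le
  have hM4 : (0 : ℝ) ≤ 4 * ((M : ℝ) / q + 1) * (L + q * (1 + Real.log q)) := by positivity
  calc (L : ℝ) * ∑ l ∈ Ioc L (2 * L), ‖∑ p ∈ Ioc M (2 * M), ((a p * ww k Y (p * l) : ℝ) : ℂ) * ex ((p * l : ℕ) * α)‖ ^ 2
      ≤ L * ∑ p ∈ Ioc M (2 * M), ∑ p' ∈ Ioc M (2 * M), 3 * (C * Real.log Y) ^ 2 * PSG.VNa_mh L (((p : ℝ) - p') * α) := by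
        apply mul_le_mul_of_nonneg_left _ hL0.le
        refine hsq.trans ?_
        exact Finset.sum_le_sum fun p hp => Finset.sum_le_sum fun p' hp' => hin p hp p' hp'
    _ = L * (3 * (C * Real.log Y) ^ 2 * ∑ p' ∈ Ioc M (2 * M), ∑ p ∈ Ioc M (2 * M), PSG.VNa_mh L (((p : ℝ) - p') * α)) := by
        rw [Finset.sum_comm]
        simp only [Finset.mul_sum]
    _ ≤ L * (3 * (C * Real.log Y) ^ 2 * ∑ p' ∈ Ioc M (2 * M), 4 * ((M : ℝ) / q + 1) * (L + q * (1 + Real.log q))) := by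
        apply mul_le_mul_of_nonneg_left _ hL0.le
        apply mul_le_mul_of_nonneg_left _ (by positivity)
        exact Finset.sum_le_sum fun p' _ => hrow p'
    _ = 12 * C ^ 2 * Real.log Y ^ 2 * (L * M) * (M * (M / q + 1) * (L + q * (1 + Real.log q)) / M) := by
        rw [Finset.sum_const, Nat.card_Ioc, nsmul_eq_mul]
        have h4 : ((2 * M - M : ℕ) : ℝ) = M := by
          congr 1
          omega
        rw [h4]
        field_simp
        ring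
    _ ≤ 12 * C ^ 2 * Real.log Y ^ 2 * (L * M) * (L + M * (M / q + 1) * (L + q * (1 + Real.log q)) / M) := by
        apply mul_le_mul_of_nonneg_left _ (by positivity)
        linarith

/-- Dyadic decomposition. -/
theorem EC_dyadic (f : ℕ → ℂ) (K : ℕ) :
    ∑ n ∈ Ioc 1 (2 ^ K), f n = ∑ i ∈ range K, ∑ n ∈ Ioc (2 ^ i) (2 * 2 ^ i), f n := by
  induction K with
  | zero => simp
  | succ K ih =>
    have h1 : 2 ^ (K + 1) = 2 * 2 ^ K := by ring
    rw [Finset.sum_range_succ, ← ih, h1]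
    exact (Finset.sum_Ioc_consecutive f Nat.one_le_two_pow (by omega)).symm

/-- The convolution as a double sum. -/
theorem EC_conv (k : ℕ) (a b : ℕ → ℝ) (Y α : ℝ) (K : ℕ) (hY : 0 < Y) (hK : 2 * Y ≤ 2 ^ K)
    (hww : ∀ m, ww k Y m ≠ 0 → Y < m ∧ (m : ℝ) < 2 * Y) (ha : a 1 = 0) (hb : b 1 = 0) :
    ∑ m ∈ Icc 1 ⌊2 * Y⌋₊, ((ww k Y m * cv a b m : ℝ) : ℂ) * ex (m * α) =
      ∑ p ∈ Ioc 1 (2 ^ K), ∑ l ∈ Ioc 1 (2 ^ K), ((a p * b l * ww k Y (p * l) : ℝ) : ℂ) * ex ((p * l : ℕ) * α) := by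
  set N := ⌊2 * Y⌋₊ with hN
  have hN2 : N ≤ 2 ^ K := by
    have h1 : (N : ℝ) ≤ 2 ^ K := (Nat.floor_le (by positivity)).trans hK
    exact_mod_cast h1
  set F : ℕ × ℕ → ℂ := fun x => ((a x.1 * b x.2 * ww k Y (x.1 * x.2) : ℝ) : ℂ) * ex ((x.1 * x.2 : ℕ) * α) with hF
  have h1 : ∑ p ∈ Ioc 1 (2 ^ K), ∑ l ∈ Ioc 1 (2 ^ K), ((a p * b l * ww k Y (p * l) : ℝ) : ℂ) * ex ((p * l : ℕ) * α) =
      ∑ x ∈ Ioc 1 (2 ^ K) ×ˢ Ioc 1 (2 ^ K), F x := by
    rw [Finset.sum_product]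
  have h2 : ∑ x ∈ Ioc 1 (2 ^ K) ×ˢ Ioc 1 (2 ^ K), F x =
      ∑ x ∈ (Ioc 1 (2 ^ K) ×ˢ Ioc 1 (2 ^ K)).filter (fun x => x.1 * x.2 ∈ Icc 1 N), F x := by
    symm
    refine Finset.sum_subset (Finset.filter_subset _ _) ?_
    intro x hx hx2
    have h3 : ww k Y (x.1 * x.2) = 0 := by
      by_contra hc
      have h4 := hww _ hc
      apply hx2
      rw [Finset.mem_filter, Finset.mem_Icc]
      refine ⟨hx, ?_, ?_⟩
      · have : 0 < x.1 * x.2 := by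
          have h5 : (0 : ℝ) < ((x.1 * x.2 : ℕ) : ℝ) := hY.trans h4.1
          exact_mod_cast h5
        exact this
      · exact Nat.le_floor h4.2.le
    simp only [hF, h3, mul_zero, Complex.ofReal_zero, zero_mul]
  rw [h1, h2, ← Finset.sum_fiberwise_of_maps_to (t := Icc 1 N) (g := fun x : ℕ × ℕ => x.1 * x.2)
    (fun x hx => (Finset.mem_filter.1 hx).2)]
  refine Finset.sum_congr rfl fun m hm => ?_
  rw [Finset.mem_Icc] at hm
  have h3 : ((ww k Y m * cv a b m : ℝ) : ℂ) * ex (m * α) = ∑ x ∈ m.divisorsAntidiagonal, F x := by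
    have h4 : cv a b m = ∑ x ∈ m.divisorsAntidiagonal, a x.1 * b x.2 := by
      unfold cv
      exact (Nat.sum_divisorsAntidiagonal (fun i j => a i * b j)).symm
    rw [h4, Finset.mul_sum]
    push_cast
    rw [Finset.sum_mul]
    refine Finset.sum_congr rfl fun x hx => ?_
    have h5 := (Nat.mem_divisorsAntidiagonal.1 hx).1
    simp only [hF, h5]
    push_cast
    ring
  rw [h3]
  symm
  refine Finset.sum_subset ?_ ?_
  · intro x hx
    rw [Finset.mem_filter] at hx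
    rw [Nat.mem_divisorsAntidiagonal]
    exact ⟨hx.2, by omega⟩
  · intro x hx hx2
    rw [Nat.mem_divisorsAntidiagonal] at hx
    have h6 : x.1 ≠ 0 := by
      intro h
      rw [h, zero_mul] at hx
      omega
    have h7 : x.2 ≠ 0 := by
      intro h
      rw [h, mul_zero] at hx
      omega
    by_cases h8 : x.1 = 1
    · simp only [hF, h8, ha, zero_mul, Complex.ofReal_zero]
    · by_cases h9 : x.2 = 1
      · simp only [hF, h9, hb, zero_mul, mul_zero, Complex.ofReal_zero]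
      · exfalso
        apply hx2
        have h10 : x.1 ≤ m := Nat.le_of_dvd (by omega) ⟨x.2, hx.1.symm⟩
        have h11 : x.2 ≤ m := Nat.le_of_dvd (by omega) ⟨x.1, by rw [mul_comm]; exact hx.1.symm⟩
        rw [Finset.mem_filter, Finset.mem_filter, Finset.mem_product, Finset.mem_Ioc, Finset.mem_Ioc, hx.1, Finset.mem_Icc]
        exact ⟨⟨⟨⟨by omega, by omega⟩, by omega, by omega⟩, hm⟩, rfl⟩

/-- The numerical bound of a block. -/
theorem EC_num (C lY Y δ L M q lq : ℝ) (hC : 1 ≤ C) (hlY : 1 ≤ lY) (hY : 1 ≤ Y) (hδ : 0 < δ) (hδ1 : δ ≤ 1 / 4)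
    (hL : 0 < L) (hM : 0 < M) (hq : 0 < q) (hlq : 0 ≤ lq) (hlq1 : lq ≤ lY) (hLM : L * M ≤ 2 * Y)
    (hM1 : Y ^ (2 * δ) ≤ 2 * M) (hM2 : M ≤ Y ^ (1 - δ)) (hq1 : Y ^ δ ≤ q) (hq2 : q ≤ Y ^ (1 - δ / 4)) :
    C * lY ^ 2 * (L * M) * (L + M * (M / q + 1) * (L + q * (1 + lq)) / M) ≤ (7 * C * lY ^ 2 * Y ^ (1 - δ / 8)) ^ 2 := by
  have hY0 : 0 < Y := by linarith
  set W := Y ^ (2 - δ / 4) with hW
  have hW0 : 0 < W := Real.rpow_pos_of_pos hY0 _
  have hLM0 : 0 < L * M := by positivity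
  -- (L M) L
  have t1 : (L * M) * L ≤ 8 * W := by
    have h1 : (L * M) * L * Y ^ (2 * δ) ≤ 8 * Y ^ (2 : ℝ) := by
      calc (L * M) * L * Y ^ (2 * δ) ≤ (L * M) * L * (2 * M) := mul_le_mul_of_nonneg_left hM1 (by positivity)
        _ = 2 * ((L * M) * (L * M)) := by ring
        _ ≤ 2 * ((2 * Y) * (2 * Y)) := by
            apply mul_le_mul_of_nonneg_left _ (by norm_num)
            exact mul_le_mul hLM hLM hLM0.le (by linarith)
        _ = 8 * Y ^ (2 : ℝ) := by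
            rw [Real.rpow_two]
            ring
    have h2 : (L * M) * L ≤ 8 * Y ^ (2 - 2 * δ) := by
      rw [Real.rpow_sub hY0, ← mul_div_assoc, le_div_iff₀ (by positivity)]
      exact h1
    refine h2.trans ?_
    apply mul_le_mul_of_nonneg_left _ (by norm_num)
    apply Real.rpow_le_rpow_of_exponent_le hY
    linarith
  have t2 : (L * M) * (M * L / q) ≤ 4 * W := by
    calc (L * M) * (M * L / q) = ((L * M) * (L * M)) / q := by ring
      _ ≤ ((2 * Y) * (2 * Y)) / Y ^ δ := by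
          apply div_le_div₀ (by positivity) _ (by positivity) hq1
          exact mul_le_mul hLM hLM hLM0.le (by linarith)
      _ = 4 * Y ^ (2 - δ) := by
          rw [Real.rpow_sub hY0, Real.rpow_two]
          ring
      _ ≤ 4 * W := by
          apply mul_le_mul_of_nonneg_left _ (by norm_num)
          apply Real.rpow_le_rpow_of_exponent_le hY
          linarith
  have t3 : (L * M) * M ≤ 2 * W := by
    calc (L * M) * M ≤ (2 * Y) * Y ^ (1 - δ) := mul_le_mul hLM hM2 hM.le (by linarith)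
      _ = 2 * (Y ^ (1 : ℝ) * Y ^ (1 - δ)) := by
          rw [Real.rpow_one]
          ring
      _ ≤ 2 * W := by
          rw [← Real.rpow_add hY0]
          apply mul_le_mul_of_nonneg_left _ (by norm_num)
          apply Real.rpow_le_rpow_of_exponent_le hY
          linarith
  have t4 : (L * M) * q ≤ 2 * W := by
    calc (L * M) * q ≤ (2 * Y) * Y ^ (1 - δ / 4) := mul_le_mul hLM hq2 hq.le (by linarith)
      _ = 2 * (Y ^ (1 : ℝ) * Y ^ (1 - δ / 4)) := by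
          rw [Real.rpow_one]
          ring
      _ = 2 * W := by
          rw [← Real.rpow_add hY0, hW]
          congr 2
          ring
  have h1 : (L * M) * (L + M * (M / q + 1) * (L + q * (1 + lq)) / M) =
      (L * M) * L + ((L * M) * (M * L / q) + (L * M) * M * (1 + lq) + (L * M) * L + (L * M) * q * (1 + lq)) := by
    field_simp
    ring
  have h2 : (L * M) * (L + M * (M / q + 1) * (L + q * (1 + lq)) / M) ≤ 48 * lY * W := by
    rw [h1]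
    have e1 : (L * M) * M * (1 + lq) ≤ 2 * W * (1 + lY) := mul_le_mul t3 (by linarith) (by linarith) (by positivity)
    have e2 : (L * M) * q * (1 + lq) ≤ 2 * W * (1 + lY) := mul_le_mul t4 (by linarith) (by linarith) (by positivity)
    have e3 : W ≤ lY * W := le_mul_of_one_le_left hW0.le hlY
    nlinarith
  have h3 : (Y ^ (1 - δ / 8)) ^ 2 = W := by
    rw [← Real.rpow_natCast, ← Real.rpow_mul hY0.le, hW]
    congr 1
    push_cast
    ring
  calc C * lY ^ 2 * (L * M) * (L + M * (M / q + 1) * (L + q * (1 + lq)) / M)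
      = C * lY ^ 2 * ((L * M) * (L + M * (M / q + 1) * (L + q * (1 + lq)) / M)) := by ring
    _ ≤ C * lY ^ 2 * (48 * lY * W) := mul_le_mul_of_nonneg_left h2 (by positivity)
    _ = 48 * (C * lY ^ 3) * W := by ring
    _ ≤ 49 * (C ^ 2 * lY ^ 4) * W := by
        apply mul_le_mul_of_nonneg_right _ hW0.le
        have h4 : C * lY ^ 3 ≤ C ^ 2 * lY ^ 4 := by
          have h5 : 1 ≤ C * lY := by nlinarith
          have h6 : 0 ≤ C * lY ^ 3 := by positivity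
          calc C * lY ^ 3 ≤ (C * lY ^ 3) * (C * lY) := le_mul_of_one_le_right h6 h5
            _ = C ^ 2 * lY ^ 4 := by ring
        have h7 : 0 ≤ C ^ 2 * lY ^ 4 := by positivity
        linarith
    _ = (7 * C * lY ^ 2 * Y ^ (1 - δ / 8)) ^ 2 := by
        rw [← h3]
        ring

/-- **The minor arcs for `ww qY`.**

Proof. `qY` is a sum of at most `10 μ ^ 2` products `cv (pb j) (rb k)`, `j ≥ 3`, `j ≤ 2 μ`; cut both variables into dyadic blocks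
`(M, 2 M]`, `(L, 2 L]` (`O ((log Y) ^ 2)` of them; `Y / 4 ≤ L M ≤ 2 Y`, `Y ^ (2 / (4 μ)) / 2 ≤ M ≤ Y ^ (1 / 2 + 1 / (4 μ))`). By `bilin` each block has the
square at most `C (log Y) ^ C (Y ^ 2 / q + Y L + Y M + Y q)`, where `Y L ≤ 4 Y ^ 2 / M`. With `Y ^ δ ≤ q ≤ Y ^ (1 - δ / 4)` and
`δ ≤ 1 / (4 μ)` this is `≤ Y ^ (2 - δ / 4) (log Y) ^ C`. -/
theorem qY_minor (k μ j₀ : ℕ) (hμ : 8 ≤ μ) (hj : 2 ≤ j₀) (hj' : j₀ ≤ μ) (δ : ℝ) (hδ : 0 < δ)
    (hδ1 : δ ≤ 1 / (4 * μ)) : ∃ Y₀ : ℝ, 3 ≤ Y₀ ∧ ∀ (Y α : ℝ) (r : ℤ) (q : ℕ), Y₀ ≤ Y → IsCoprime r (q : ℤ) →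
      Y ^ δ ≤ q → (q : ℝ) ≤ Y ^ (1 - δ / 4) → |α - r / q| ≤ 1 / (q : ℝ) ^ 2 →
        ‖∑ m ∈ Icc 1 ⌊2 * Y⌋₊, ((ww k Y m * qY Y μ j₀ m : ℝ) : ℂ) * ex (m * α)‖ ≤ Y ^ (1 - δ / 10) := by
  obtain ⟨C, hC, HB⟩ := bilin k
  obtain ⟨C', hC', HW⟩ := ww_props k
  have hμ0 : (8 : ℝ) ≤ μ := by exact_mod_cast hμ
  have hμp : (0 : ℝ) < 4 * μ := by linarith
  have hδμ : δ * (4 * μ) ≤ 1 := by
    rw [le_div_iff₀ hμp] at hδ1
    exact hδ1
  have hδ32 : δ ≤ 1 / 32 := by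
    refine hδ1.trans ?_
    apply div_le_div_of_nonneg_left (by norm_num) (by norm_num)
    linarith
  set G := 672 * (μ : ℝ) ^ 2 * C * (320 / δ) ^ 4 with hG
  have hG0 : 0 < G := by positivity
  have hGp : 0 ≤ G ^ (80 / δ) := by positivity
  refine ⟨3 + G ^ (80 / δ), by linarith, ?_⟩
  intro Y α r q hY hrq hq1 hq2 hα
  have hY3 : 3 ≤ Y := by linarith
  have hY1 : 1 ≤ Y := by linarith
  have hY0 : 0 < Y := by linarith
  have hlog1 : 1 ≤ Real.log Y := by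
    rw [Real.le_log_iff_exp_le hY0]
    have := Real.exp_one_lt_d9
    linarith
  obtain ⟨hww, -, -⟩ := HW Y hY3
  have hqr : (0 : ℝ) < q := lt_of_lt_of_le (Real.rpow_pos_of_pos hY0 _) hq1
  have hqn : 1 ≤ q := by
    have : 0 < q := by exact_mod_cast hqr
    exact this
  have hlq0 : 0 ≤ Real.log q := Real.log_natCast_nonneg q
  have hlq : Real.log q ≤ Real.log Y := by
    apply Real.log_le_log hqr
    refine hq2.trans ?_
    calc Y ^ (1 - δ / 4) ≤ Y ^ (1 : ℝ) := Real.rpow_le_rpow_of_exponent_le hY1 (by linarith)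
      _ = Y := Real.rpow_one Y
  -- the number of dyadic blocks
  set K := ⌊2 * Real.log Y⌋₊ + 2 with hK
  have hK1 : (K : ℝ) ≤ 4 * Real.log Y := by
    have h1 := Nat.floor_le (show 0 ≤ 2 * Real.log Y by linarith)
    rw [hK]
    push_cast
    linarith
  have hK2 : 2 * Y ≤ 2 ^ K := by
    have h1 : 2 * Real.log Y < ⌊2 * Real.log Y⌋₊ + 1 := Nat.lt_floor_add_one _
    have h2 : Y ≤ 2 ^ (⌊2 * Real.log Y⌋₊ + 1) := by
      rw [← Real.rpow_natCast, Real.rpow_def_of_pos (by norm_num)]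
      rw [← Real.log_le_iff_le_exp hY0]
      have h3 : (1 / 2 : ℝ) ≤ Real.log 2 := by
        have := Real.log_two_gt_d9
        linarith
      push_cast
      nlinarith
    calc 2 * Y ≤ 2 * 2 ^ (⌊2 * Real.log Y⌋₊ + 1) := by linarith
      _ = 2 ^ K := by
          rw [hK]
          ring
  -- one pair of blocks
  have hpair : ∀ j ∈ Icc (j₀ + 1) (2 * μ), ∀ k' ∈ Icc (3 * μ - j) (5 * μ - j),
      ‖∑ m ∈ Icc 1 ⌊2 * Y⌋₊, ((ww k Y m * cv (pb Y (4 * μ) j) (rb Y (4 * μ) (Y ^ (((j : ℝ) + 1) / (4 * μ : ℕ))) k') m : ℝ) : ℂ) *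
        ex (m * α)‖ ≤ 16 * Real.log Y ^ 2 * (7 * C * Real.log Y ^ 2 * Y ^ (1 - δ / 8)) := by
    intro j hj2 k' hk'
    rw [Finset.mem_Icc] at hj2 hk'
    have hM1 : 1 ≤ 4 * μ := by omega
    set z := Y ^ (((j : ℝ) + 1) / (4 * μ : ℕ)) with hz
    have ha0 : ∀ n, 0 ≤ pb Y (4 * μ) j n := fun n => HQ_pb_nonneg Y (4 * μ) j hY3 hM1 n
    have ha1 : ∀ n, |pb Y (4 * μ) j n| ≤ 1 := by
      intro n
      rw [abs_of_nonneg (ha0 n)]
      unfold pb pw
      split_ifs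
      · exact ((Gt_props Y (4 * μ) j hY3 hM1).1 _).2
      · exact zero_le_one
    have hb0 : ∀ n, 0 ≤ rb Y (4 * μ) z k' n := fun n => HQ_rb_nonneg Y (4 * μ) k' z hY3 hM1 n
    have hb1 : ∀ n, |rb Y (4 * μ) z k' n| ≤ 1 := by
      intro n
      rw [abs_of_nonneg (hb0 n)]
      unfold rb
      exact mul_le_one₀ (HQ_rh_le z n) ((Gt_props Y (4 * μ) k' hY3 hM1).1 _).1 ((Gt_props Y (4 * μ) k' hY3 hM1).1 _).2
    have hμc : (((4 * μ : ℕ)) : ℝ) = 4 * μ := by push_cast; ring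
    have ha : pb Y (4 * μ) j 1 = 0 := by
      unfold pb pw
      rw [if_neg Nat.not_prime_one]
    have hb : rb Y (4 * μ) z k' 1 = 0 := by
      by_contra hc
      have h1 := (HQ_rb_supp Y (4 * μ) k' z hY3 hM1 1 hc).2.1
      have h2 : (1 : ℝ) ≤ Y ^ (((k' : ℝ) - 1) / (4 * μ : ℕ)) := by
        apply Real.one_le_rpow hY1
        rw [hμc]
        apply div_nonneg _ hμp.le
        have h3 : (1 : ℝ) ≤ k' := by exact_mod_cast (by omega : 1 ≤ k')
        linarith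
      rw [Nat.cast_one] at h1
      linarith
    rw [EC_conv k _ _ Y α K hY0 hK2 (fun m => (hww m).2.2) ha hb, EC_dyadic]
    have hblock : ∀ i ∈ range K, ∀ i' ∈ range K, ‖∑ p ∈ Ioc (2 ^ i) (2 * 2 ^ i), ∑ l ∈ Ioc (2 ^ i') (2 * 2 ^ i'),
        ((pb Y (4 * μ) j p * rb Y (4 * μ) z k' l * ww k Y (p * l) : ℝ) : ℂ) * ex ((p * l : ℕ) * α)‖ ≤
        7 * C * Real.log Y ^ 2 * Y ^ (1 - δ / 8) := by
      intro i _ i' _
      by_cases hne : ∀ p ∈ Ioc (2 ^ i) (2 * 2 ^ i), ∀ l ∈ Ioc (2 ^ i') (2 * 2 ^ i'),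
          pb Y (4 * μ) j p * rb Y (4 * μ) z k' l * ww k Y (p * l) = 0
      · have h1 : ∑ p ∈ Ioc (2 ^ i) (2 * 2 ^ i), ∑ l ∈ Ioc (2 ^ i') (2 * 2 ^ i'),
            ((pb Y (4 * μ) j p * rb Y (4 * μ) z k' l * ww k Y (p * l) : ℝ) : ℂ) * ex ((p * l : ℕ) * α) = 0 := by
          refine Finset.sum_eq_zero fun p hp => Finset.sum_eq_zero fun l hl => ?_
          rw [hne p hp l hl, Complex.ofReal_zero, zero_mul]
        rw [h1, norm_zero]
        positivity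
      · push Not at hne
        obtain ⟨p, hp, l, hl, hpl⟩ := hne
        rw [Finset.mem_Ioc] at hp hl
        have hw1 := (hww (p * l)).2.2 (right_ne_zero_of_mul hpl)
        have hp1 := HQ_pb_supp Y (4 * μ) j hY3 hM1 p (left_ne_zero_of_mul (left_ne_zero_of_mul hpl))
        rw [hμc] at hp1
        have hpi : ((2 ^ i : ℕ) : ℝ) < p := by exact_mod_cast hp.1
        have hpi2 : (p : ℝ) ≤ 2 * ((2 ^ i : ℕ) : ℝ) := by exact_mod_cast hp.2
        have hli : ((2 ^ i' : ℕ) : ℝ) < l := by exact_mod_cast hl.1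
        have hi0 : (0 : ℝ) < ((2 ^ i : ℕ) : ℝ) := by positivity
        have hi0' : (0 : ℝ) < ((2 ^ i' : ℕ) : ℝ) := by positivity
        have hj3 : (3 : ℝ) ≤ j := by exact_mod_cast (by omega : 3 ≤ j)
        have hj4 : (j : ℝ) ≤ 2 * μ := by exact_mod_cast hj2.2
        have hLM : ((2 ^ i' : ℕ) : ℝ) * ((2 ^ i : ℕ) : ℝ) ≤ 2 * Y := by
          have h1 : ((2 ^ i' : ℕ) : ℝ) * ((2 ^ i : ℕ) : ℝ) ≤ l * p := mul_le_mul hli.le hpi.le hi0.le (by linarith)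
          have h2 := hw1.2
          push_cast at h2 h1 ⊢
          linarith
        have hM1' : Y ^ (2 * δ) ≤ 2 * ((2 ^ i : ℕ) : ℝ) := by
          refine le_trans ?_ hpi2
          refine le_trans ?_ hp1.2.1.le
          apply Real.rpow_le_rpow_of_exponent_le hY1
          rw [le_div_iff₀ hμp]
          linarith
        have hM2' : ((2 ^ i : ℕ) : ℝ) ≤ Y ^ (1 - δ) := by
          refine hpi.le.trans (hp1.2.2.le.trans ?_)
          apply Real.rpow_le_rpow_of_exponent_le hY1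
          rw [div_le_iff₀ hμp]
          linarith
        have hnum := EC_num C (Real.log Y) Y δ ((2 ^ i' : ℕ) : ℝ) ((2 ^ i : ℕ) : ℝ) q (Real.log q) hC hlog1 hY1 hδ
          (by linarith) hi0' hi0 hqr hlq0 hlq hLM hM1' hM2' hq1 hq2
        have hbil := HB Y α (2 ^ i) (2 ^ i') q r (pb Y (4 * μ) j) (rb Y (4 * μ) z k') hY3 Nat.one_le_two_pow
          Nat.one_le_two_pow hqn hrq hα ha1 hb1
        have h3 := hbil.trans hnum
        exact le_of_sq_le_sq (a := ‖_‖) h3 (by positivity)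
    have hinner : ∀ i ∈ range K, ‖∑ p ∈ Ioc (2 ^ i) (2 * 2 ^ i), ∑ l ∈ Ioc 1 (2 ^ K),
        ((pb Y (4 * μ) j p * rb Y (4 * μ) z k' l * ww k Y (p * l) : ℝ) : ℂ) * ex ((p * l : ℕ) * α)‖ ≤
        K * (7 * C * Real.log Y ^ 2 * Y ^ (1 - δ / 8)) := by
      intro i hi
      have h1 : ∑ p ∈ Ioc (2 ^ i) (2 * 2 ^ i), ∑ l ∈ Ioc 1 (2 ^ K),
          ((pb Y (4 * μ) j p * rb Y (4 * μ) z k' l * ww k Y (p * l) : ℝ) : ℂ) * ex ((p * l : ℕ) * α) =
          ∑ i' ∈ range K, ∑ p ∈ Ioc (2 ^ i) (2 * 2 ^ i), ∑ l ∈ Ioc (2 ^ i') (2 * 2 ^ i'),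
            ((pb Y (4 * μ) j p * rb Y (4 * μ) z k' l * ww k Y (p * l) : ℝ) : ℂ) * ex ((p * l : ℕ) * α) := by
        symm
        rw [Finset.sum_comm]
        refine Finset.sum_congr rfl fun p _ => ?_
        exact (EC_dyadic _ K).symm
      rw [h1]
      refine (norm_sum_le _ _).trans ?_
      refine (Finset.sum_le_sum fun i' hi' => hblock i hi i' hi').trans ?_
      rw [Finset.sum_const, Finset.card_range, nsmul_eq_mul]
    refine (norm_sum_le _ _).trans ?_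
    refine (Finset.sum_le_sum fun i hi => hinner i hi).trans ?_
    rw [Finset.sum_const, Finset.card_range, nsmul_eq_mul]
    have hE0 : 0 ≤ 7 * C * Real.log Y ^ 2 * Y ^ (1 - δ / 8) := by positivity
    calc (K : ℝ) * (K * (7 * C * Real.log Y ^ 2 * Y ^ (1 - δ / 8))) = (K * K) * (7 * C * Real.log Y ^ 2 * Y ^ (1 - δ / 8)) := by ring
      _ ≤ ((4 * Real.log Y) * (4 * Real.log Y)) * (7 * C * Real.log Y ^ 2 * Y ^ (1 - δ / 8)) := by
          apply mul_le_mul_of_nonneg_right _ hE0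
          exact mul_le_mul hK1 hK1 (Nat.cast_nonneg _) (by linarith)
      _ = _ := by ring
  -- the sum over the pairs
  have hsplit : ∑ m ∈ Icc 1 ⌊2 * Y⌋₊, ((ww k Y m * qY Y μ j₀ m : ℝ) : ℂ) * ex (m * α) =
      ∑ j ∈ Icc (j₀ + 1) (2 * μ), ∑ k' ∈ Icc (3 * μ - j) (5 * μ - j), ∑ m ∈ Icc 1 ⌊2 * Y⌋₊,
        ((ww k Y m * cv (pb Y (4 * μ) j) (rb Y (4 * μ) (Y ^ (((j : ℝ) + 1) / (4 * μ : ℕ))) k') m : ℝ) : ℂ) * ex (m * α) := by
    have h1 : ∀ m ∈ Icc 1 ⌊2 * Y⌋₊, ((ww k Y m * qY Y μ j₀ m : ℝ) : ℂ) * ex (m * α) =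
        ∑ j ∈ Icc (j₀ + 1) (2 * μ), ∑ k' ∈ Icc (3 * μ - j) (5 * μ - j),
          ((ww k Y m * cv (pb Y (4 * μ) j) (rb Y (4 * μ) (Y ^ (((j : ℝ) + 1) / (4 * μ : ℕ))) k') m : ℝ) : ℂ) * ex (m * α) := by
      intro m _
      unfold qY
      simp only [Complex.ofReal_mul, Complex.ofReal_sum, Finset.mul_sum, Finset.sum_mul]
    rw [Finset.sum_congr rfl h1, Finset.sum_comm]
    refine Finset.sum_congr rfl fun j _ => ?_
    rw [Finset.sum_comm]
  rw [hsplit]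
  set E := 16 * Real.log Y ^ 2 * (7 * C * Real.log Y ^ 2 * Y ^ (1 - δ / 8)) with hE
  have hE0 : 0 ≤ E := by positivity
  have hcount : ‖∑ j ∈ Icc (j₀ + 1) (2 * μ), ∑ k' ∈ Icc (3 * μ - j) (5 * μ - j), ∑ m ∈ Icc 1 ⌊2 * Y⌋₊,
        ((ww k Y m * cv (pb Y (4 * μ) j) (rb Y (4 * μ) (Y ^ (((j : ℝ) + 1) / (4 * μ : ℕ))) k') m : ℝ) : ℂ) * ex (m * α)‖ ≤
      6 * μ ^ 2 * E := by
    have h1 : ∀ j ∈ Icc (j₀ + 1) (2 * μ), ‖∑ k' ∈ Icc (3 * μ - j) (5 * μ - j), ∑ m ∈ Icc 1 ⌊2 * Y⌋₊,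
        ((ww k Y m * cv (pb Y (4 * μ) j) (rb Y (4 * μ) (Y ^ (((j : ℝ) + 1) / (4 * μ : ℕ))) k') m : ℝ) : ℂ) * ex (m * α)‖ ≤
        (3 * μ) * E := by
      intro j hj2
      refine (norm_sum_le _ _).trans ?_
      refine (Finset.sum_le_sum fun k' hk' => hpair j hj2 k' hk').trans ?_
      rw [Finset.sum_const, Nat.card_Icc, nsmul_eq_mul]
      apply mul_le_mul_of_nonneg_right _ hE0
      rw [Finset.mem_Icc] at hj2
      have h2 : 5 * μ - j + 1 - (3 * μ - j) ≤ 3 * μ := by omega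
      exact_mod_cast h2
    refine (norm_sum_le _ _).trans ?_
    refine (Finset.sum_le_sum h1).trans ?_
    rw [Finset.sum_const, Nat.card_Icc, nsmul_eq_mul]
    have h3 : ((2 * μ + 1 - (j₀ + 1) : ℕ) : ℝ) ≤ 2 * μ := by
      have : 2 * μ + 1 - (j₀ + 1) ≤ 2 * μ := by omega
      exact_mod_cast this
    calc _ ≤ (2 * μ) * ((3 * μ) * E) := mul_le_mul_of_nonneg_right h3 (by positivity)
      _ = 6 * μ ^ 2 * E := by ring
  refine hcount.trans ?_
  have hl : Real.log Y ≤ 320 / δ * Y ^ (δ / 320) := by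
    have h1 := Real.log_le_rpow_div hY0.le (show 0 < δ / 320 by positivity)
    have h9 : Y ^ (δ / 320) / (δ / 320) = 320 / δ * Y ^ (δ / 320) := by field_simp
    rwa [h9] at h1
  have hGY : G ≤ Y ^ (δ / 80) := by
    calc G = (G ^ (80 / δ)) ^ (δ / 80) := by
          rw [← Real.rpow_mul hG0.le]
          have h9 : 80 / δ * (δ / 80) = 1 := by field_simp
          rw [h9, Real.rpow_one]
      _ ≤ Y ^ (δ / 80) := Real.rpow_le_rpow hGp (by linarith) (by positivity)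
  have hl4 : Real.log Y ^ 4 ≤ (320 / δ) ^ 4 * Y ^ (δ / 80) := by
    calc Real.log Y ^ 4 ≤ (320 / δ * Y ^ (δ / 320)) ^ 4 := pow_le_pow_left₀ (by linarith) hl 4
      _ = (320 / δ) ^ 4 * Y ^ (δ / 80) := by
          rw [mul_pow, ← Real.rpow_natCast (Y ^ (δ / 320)), ← Real.rpow_mul hY0.le]
          congr 2
          push_cast
          ring
  calc 6 * (μ : ℝ) ^ 2 * E = 672 * (μ : ℝ) ^ 2 * C * Real.log Y ^ 4 * Y ^ (1 - δ / 8) := by
        rw [hE]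
        ring
    _ ≤ 672 * (μ : ℝ) ^ 2 * C * ((320 / δ) ^ 4 * Y ^ (δ / 80)) * Y ^ (1 - δ / 8) := by
        apply mul_le_mul_of_nonneg_right _ (by positivity)
        exact mul_le_mul_of_nonneg_left hl4 (by positivity)
    _ = G * (Y ^ (δ / 80) * Y ^ (1 - δ / 8)) := by
        rw [hG]
        ring
    _ ≤ Y ^ (δ / 80) * (Y ^ (δ / 80) * Y ^ (1 - δ / 8)) := mul_le_mul_of_nonneg_right hGY (by positivity)
    _ = Y ^ (1 - δ / 10) := by
        rw [← Real.rpow_add hY0, ← Real.rpow_add hY0]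
        congr 1
        ring

end Pool.Agent.M58
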