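import Pool.Agent.W_b58c63_m1.EVdc

/-!
# Sums of `ψ (l) l ^ (- i u)` (helper68)
-/

set_option autoImplicit false

noncomputable section

open Finset MeasureTheory

namespace Pool.Agent.M58

/-- The number of `l ≤ N` prime to `q`. -/
def EChar_c (q N : ℕ) : ℕ := ((Icc 1 N).filter fun l => l.Coprime q).card

theorem EChar_c_le (q N : ℕ) : EChar_c q N ≤ N := by
  refine (Finset.card_filter_le _ _).trans ?_
  rw [Nat.card_Icc]
  omega

theorem EChar_c_add (q N : ℕ) : EChar_c q (q + N) = q.totient + EChar_c q N := by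
  have h1 : Icc 1 (q + N) = Icc 1 N ∪ Ico (N + 1) (N + 1 + q) := by
    ext x
    simp only [mem_Icc, mem_union, mem_Ico]
    omega
  have h2 : Disjoint (Icc 1 N) (Ico (N + 1) (N + 1 + q)) := by
    rw [Finset.disjoint_left]
    intro x hx hx'
    simp only [mem_Icc, mem_Ico] at hx hx'
    omega
  rw [EChar_c, h1, filter_union, card_union_of_disjoint (disjoint_filter_filter h2), add_comm]
  congr 1
  rw [← Nat.filter_coprime_Ico_eq_totient q (N + 1)]
  congr 1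
  refine Finset.filter_congr fun x _ => ?_
  exact Nat.coprime_comm

theorem EChar_c_real (q : ℕ) (hq : 1 ≤ q) : ∀ N : ℕ, ∀ θ : ℝ, 0 ≤ θ → θ ≤ 1 →
    |(EChar_c q N : ℝ) - q.totient / q * (N + θ)| ≤ q := by
  have hq0 : (0 : ℝ) < q := by exact_mod_cast hq
  have hφ : ((q.totient : ℕ) : ℝ) ≤ q := by exact_mod_cast Nat.totient_le q
  intro N
  induction N using Nat.strong_induction_on with
  | _ N ih =>
    intro θ h0 h1
    by_cases h : N < q
    · have h2 : (EChar_c q N : ℝ) ≤ N := by exact_mod_cast EChar_c_le q N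
      have h3 : (N : ℝ) + 1 ≤ q := by exact_mod_cast h
      have h4 : 0 ≤ (q.totient / q * (N + θ) : ℝ) := by positivity
      have h5 : (q.totient / q * (N + θ) : ℝ) ≤ q := by
        calc (q.totient / q * (N + θ) : ℝ) ≤ 1 * (N + θ) :=
              mul_le_mul_of_nonneg_right ((div_le_one hq0).2 hφ) (by positivity)
          _ ≤ q := by linarith
      have h6 : (0 : ℝ) ≤ EChar_c q N := Nat.cast_nonneg _
      rw [abs_le]
      constructor <;> linarith
    · push Not at h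
      obtain ⟨m, rfl⟩ := Nat.exists_eq_add_of_le h
      have h2 := ih m (by omega) θ h0 h1
      rw [EChar_c_add]
      have h3 : (((q.totient + EChar_c q m : ℕ) : ℝ) - q.totient / q * (((q + m : ℕ) : ℝ) + θ)) =
          (EChar_c q m : ℝ) - q.totient / q * (m + θ) := by
        push_cast
        field_simp
        ring
      rw [h3]
      exact h2

/-- Sums of `(n, q) = 1` over intervals: `|#{l ≤ x : (l, q) = 1} - φ(q) x / q| ≤ q`. (Split into periods.) -/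
theorem coprime_count (q : ℕ) (hq : 1 ≤ q) (x : ℝ) (hx : 0 ≤ x) :
    |((((Icc 1 ⌊x⌋₊).filter fun l => l.Coprime q).card : ℕ) : ℝ) - q.totient / q * x| ≤ q := by
  have h1 := EChar_c_real q hq ⌊x⌋₊ (x - ⌊x⌋₊) (by linarith [Nat.floor_le hx])
    (by linarith [Nat.lt_floor_add_one x])
  rw [add_sub_cancel] at h1
  exact h1

/-- `y ^ (- i u)`. -/
def EChar_f (u y : ℝ) : ℂ := Complex.exp (Complex.I * ((-(u * Real.log y) : ℝ) : ℂ))

theorem EChar_norm_f (u y : ℝ) : ‖EChar_f u y‖ = 1 := by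
  rw [EChar_f, mul_comm]
  exact Complex.norm_exp_ofReal_mul_I _

theorem EChar_cpow (u : ℝ) {y : ℝ} (hy : 0 < y) :
    (y : ℂ) ^ (-((u : ℂ) * Complex.I)) = EChar_f u y := by
  have h0 : (y : ℂ) ≠ 0 := by exact_mod_cast hy.ne'
  rw [Complex.cpow_def_of_ne_zero h0, ← Complex.ofReal_log hy.le, EChar_f]
  congr 1
  push_cast
  ring

theorem EChar_nit (l : ℕ) (hl : 1 ≤ l) (u : ℝ) : nit l u = EChar_f u l := by
  rw [nit, ← EChar_cpow u (by exact_mod_cast hl)]
  rfl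

theorem EChar_norm_nit (l : ℕ) (hl : 1 ≤ l) (u : ℝ) : ‖nit l u‖ = 1 := by
  rw [EChar_nit l hl, EChar_norm_f]

theorem EChar_f_sub (u : ℝ) {a b : ℝ} (ha : 0 < a) (hab : a ≤ b) :
    ‖EChar_f u a - EChar_f u b‖ ≤ |u| * ((b - a) / a) := by
  have h1 : EChar_f u a - EChar_f u b =
      EChar_f u b * (Complex.exp (Complex.I * ((u * (Real.log b - Real.log a) : ℝ) : ℂ)) - 1) := by
    rw [mul_sub, mul_one, EChar_f, EChar_f, ← Complex.exp_add]
    congr 2
    push_cast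
    ring
  rw [h1, norm_mul, EChar_norm_f, one_mul]
  refine Real.norm_exp_I_mul_ofReal_sub_one_le.trans ?_
  rw [Real.norm_eq_abs, abs_mul]
  refine mul_le_mul_of_nonneg_left ?_ (abs_nonneg _)
  have hb : 0 < b := ha.trans_le hab
  have h2 : Real.log b - Real.log a = Real.log (b / a) := (Real.log_div hb.ne' ha.ne').symm
  have h3 : 0 ≤ Real.log b - Real.log a := sub_nonneg.2 (Real.log_le_log ha hab)
  rw [abs_of_nonneg h3, h2]
  have h4 := Real.log_le_sub_one_of_pos (div_pos hb ha)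
  have h5 : (b - a) / a = b / a - 1 := by
    field_simp
  linarith

/-- `∫_0^y t ^ (- i u) dt`. -/
def EChar_g (u y : ℝ) : ℂ := (y : ℂ) ^ (1 - (u : ℂ) * Complex.I) / (1 - (u : ℂ) * Complex.I)

theorem EChar_ne (u : ℝ) : (1 - (u : ℂ) * Complex.I) ≠ 0 := by
  intro h
  have := congrArg Complex.re h
  simp at this

theorem EChar_norm_den (u : ℝ) : 1 ≤ ‖1 - (u : ℂ) * Complex.I‖ ∧ |u| ≤ ‖1 - (u : ℂ) * Complex.I‖ := by
  constructor
  · have h := Complex.abs_re_le_norm (1 - (u : ℂ) * Complex.I)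
    simpa using h
  · have h := Complex.abs_im_le_norm (1 - (u : ℂ) * Complex.I)
    simpa using h

theorem EChar_g_zero (u : ℝ) : EChar_g u 0 = 0 := by
  rw [EChar_g, Complex.ofReal_zero, Complex.zero_cpow (EChar_ne u), zero_div]

theorem EChar_norm_pow (u : ℝ) {y : ℝ} (hy : 0 < y) :
    ‖(y : ℂ) ^ (1 - (u : ℂ) * Complex.I)‖ = y := by
  rw [Complex.norm_cpow_eq_rpow_re_of_pos hy]
  simp

theorem EChar_g_le (u : ℝ) {y : ℝ} (hy : 0 < y) : ‖EChar_g u y‖ ≤ y := by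
  rw [EChar_g, norm_div, EChar_norm_pow u hy]
  exact div_le_self hy.le (EChar_norm_den u).1

theorem EChar_g_le' (u : ℝ) (hu : 0 < |u|) {y : ℝ} (hy : 0 < y) : ‖EChar_g u y‖ ≤ y / |u| := by
  rw [EChar_g, norm_div, EChar_norm_pow u hy]
  exact div_le_div_of_nonneg_left hy.le hu (EChar_norm_den u).2

theorem EChar_hasDeriv (u : ℝ) {y : ℝ} (hy : 0 < y) :
    HasDerivAt (EChar_g u) (EChar_f u y) y := by
  have h := hasDerivAt_ofReal_cpow_const' hy.ne' (r := -((u : ℂ) * Complex.I)) (by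
    intro h
    have := congrArg Complex.re h
    simp at this)
  rw [EChar_cpow u hy] at h
  have h1 : (fun y : ℝ => (y : ℂ) ^ (-((u : ℂ) * Complex.I) + 1) / (-((u : ℂ) * Complex.I) + 1)) =
      EChar_g u := by
    funext t
    rw [EChar_g, neg_add_eq_sub]
  rwa [h1] at h

theorem EChar_g_sub (u : ℝ) {a b : ℝ} (ha : 0 < a) (hab : a ≤ b) :
    ‖EChar_g u b - EChar_g u a‖ ≤ b - a := by
  have h := Convex.norm_image_sub_le_of_norm_hasDerivWithin_le (f := EChar_g u)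
    (f' := EChar_f u) (C := 1) (s := Set.Icc a b) (x := a) (y := b)
    (fun y hy => (EChar_hasDeriv u (ha.trans_le hy.1)).hasDerivWithinAt)
    (fun y _ => (EChar_norm_f u y).le) (convex_Icc a b) (Set.left_mem_Icc.2 hab)
    (Set.right_mem_Icc.2 hab)
  rwa [one_mul, Real.norm_of_nonneg (sub_nonneg.2 hab)] at h

theorem EChar_g_sub_f (u : ℝ) {a b : ℝ} (ha : 0 < a) (hab : a ≤ b) :
    ‖EChar_g u b - EChar_g u a - (b - a : ℝ) * EChar_f u b‖ ≤ |u| * ((b - a) / a) * (b - a) := by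
  have h := Convex.norm_image_sub_le_of_norm_hasDerivWithin_le
    (f := fun y : ℝ => EChar_g u y - (y : ℂ) * EChar_f u b)
    (f' := fun y => EChar_f u y - 1 * EChar_f u b) (C := |u| * ((b - a) / a)) (s := Set.Icc a b)
    (x := a) (y := b)
    (fun y hy => ((EChar_hasDeriv u (ha.trans_le hy.1)).sub
      ((Complex.ofRealCLM.hasDerivAt (x := y)).mul_const _)).hasDerivWithinAt)
    (fun y hy => by
      rw [one_mul]
      refine (EChar_f_sub u (ha.trans_le hy.1) hy.2).trans ?_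
      refine mul_le_mul_of_nonneg_left ?_ (abs_nonneg _)
      exact div_le_div₀ (by linarith) (by linarith [hy.1]) ha hy.1) (convex_Icc a b)
    (Set.left_mem_Icc.2 hab) (Set.right_mem_Icc.2 hab)
  rw [Real.norm_of_nonneg (sub_nonneg.2 hab)] at h
  refine le_trans (le_of_eq ?_) h
  congr 1
  push_cast
  ring

theorem EChar_abel (a f : ℕ → ℂ) : ∀ N : ℕ, 1 ≤ N →
    ∑ l ∈ Icc 1 N, a l * f l = (∑ l ∈ Icc 1 N, a l) * f N -
      ∑ l ∈ Ico 1 N, (∑ k ∈ Icc 1 l, a k) * (f (l + 1) - f l) := by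
  intro N hN
  induction N, hN using Nat.le_induction with
  | base => simp
  | succ N hN ih =>
    rw [Finset.sum_Icc_succ_top (by omega : 1 ≤ N + 1), ih,
      Finset.sum_Icc_succ_top (by omega : 1 ≤ N + 1) (fun l => a l), Finset.sum_Ico_succ_top hN]
    ring

/-- The density of the character `ψ`. -/
def EChar_d (q : ℕ) (ψ : DirichletCharacter ℂ q) : ℂ :=
  open Classical in if ψ = 1 then ((q.totient / q : ℝ) : ℂ) else 0

theorem EChar_norm_d (q : ℕ) (hq : 1 ≤ q) (ψ : DirichletCharacter ℂ q) : ‖EChar_d q ψ‖ ≤ 1 := by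
  have hq0 : (0 : ℝ) < q := by exact_mod_cast hq
  have hφ : ((q.totient : ℕ) : ℝ) ≤ q := by exact_mod_cast Nat.totient_le q
  rw [EChar_d]
  split_ifs
  · rw [Complex.norm_real, Real.norm_of_nonneg (by positivity)]
    exact (div_le_one hq0).2 hφ
  · rw [norm_zero]
    exact zero_le_one

theorem EChar_E (q : ℕ) (hq : 1 ≤ q) (ψ : DirichletCharacter ℂ q) (l : ℕ) :
    ‖∑ k ∈ Icc 1 l, (ψ (k : ZMod q) - EChar_d q ψ)‖ ≤ q := by
  classical
  have : NeZero q := ⟨by omega⟩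
  rw [EChar_d]
  split_ifs with h
  · have h1 : ∑ k ∈ Icc 1 l, (ψ (k : ZMod q) - ((q.totient / q : ℝ) : ℂ)) =
        (((EChar_c q l : ℝ) - q.totient / q * (l + 0) : ℝ) : ℂ) := by
      rw [Finset.sum_sub_distrib, Finset.sum_const, Nat.card_Icc, EChar_c, Finset.card_filter, h]
      push_cast
      rw [add_zero]
      congr 1
      · refine Finset.sum_congr rfl fun k _ => ?_
        by_cases hk : k.Coprime q
        · rw [if_pos hk, MulChar.one_apply ((ZMod.isUnit_iff_coprime k q).2 hk)]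
          simp
        · rw [if_neg hk, MulChar.map_nonunit _ (fun h => hk ((ZMod.isUnit_iff_coprime k q).1 h))]
          simp
      · rw [nsmul_eq_mul]
        ring
    rw [h1, Complex.norm_real, Real.norm_eq_abs]
    exact EChar_c_real q hq l 0 le_rfl zero_le_one
  · simp only [sub_zero]
    have h1 : Icc 1 l = Ico 1 (l + 1) := by
      ext x
      simp only [mem_Icc, mem_Ico]
      omega
    rw [h1]
    exact Wb58c63.char_sum_Ico ψ h 1 (l + 1)

theorem EChar_harm : ∀ N : ℕ, 1 ≤ N → ∑ l ∈ Ico 1 N, 1 / (l : ℝ) ≤ 1 + Real.log N - 1 / N := by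
  intro N hN
  induction N, hN using Nat.le_induction with
  | base => simp
  | succ N hN ih =>
    rw [Finset.sum_Ico_succ_top hN]
    have hN0 : (0 : ℝ) < N := by exact_mod_cast hN
    have h1 := Real.one_sub_inv_le_log_of_pos (show (0 : ℝ) < (N + 1) / N by positivity)
    rw [Real.log_div (by positivity) hN0.ne', inv_div] at h1
    have h2 : (1 : ℝ) - N / (N + 1) = 1 / (N + 1) := by
      field_simp
      ring
    push_cast
    linarith

theorem EChar_step (u : ℝ) (l : ℕ) (hl : 1 ≤ l) :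
    ‖EChar_f u ((l + 1 : ℕ) : ℝ) - EChar_f u (l : ℝ)‖ ≤ |u| * (1 / l) := by
  have hl0 : (0 : ℝ) < l := by exact_mod_cast hl
  have h := EChar_f_sub u hl0 (show (l : ℝ) ≤ ((l + 1 : ℕ) : ℝ) by push_cast; linarith)
  rw [norm_sub_rev] at h
  refine h.trans (le_of_eq ?_)
  push_cast
  rw [add_sub_cancel_left]

theorem EChar_stepg (u : ℝ) (l : ℕ) (hl : 1 ≤ l) :
    ‖EChar_g u ((l + 1 : ℕ) : ℝ) - EChar_g u (l : ℝ) - EChar_f u ((l + 1 : ℕ) : ℝ)‖ ≤
      |u| * (1 / l) := by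
  have hl0 : (0 : ℝ) < l := by exact_mod_cast hl
  have h := EChar_g_sub_f u hl0 (show (l : ℝ) ≤ ((l + 1 : ℕ) : ℝ) by push_cast; linarith)
  have h1 : ((l + 1 : ℕ) : ℝ) - l = 1 := by
    push_cast
    ring
  rw [h1, Complex.ofReal_one, one_mul, mul_one] at h
  exact h

theorem EChar_B (u : ℝ) : ∀ N : ℕ, 1 ≤ N →
    ‖∑ l ∈ Icc 1 N, EChar_f u (l : ℝ) - EChar_g u (N : ℝ)‖ ≤
      2 + ∑ l ∈ Ico 1 N, |u| * (1 / (l : ℝ)) := by
  intro N hN
  induction N, hN using Nat.le_induction with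
  | base =>
    rw [Finset.Icc_self, Finset.sum_singleton, Finset.Ico_self, Finset.sum_empty, add_zero]
    refine (norm_sub_le _ _).trans ?_
    rw [EChar_norm_f]
    have := EChar_g_le u (y := ((1 : ℕ) : ℝ)) (by norm_num)
    push_cast at this ⊢
    linarith
  | succ N hN ih =>
    rw [Finset.sum_Icc_succ_top (by omega : 1 ≤ N + 1), Finset.sum_Ico_succ_top hN]
    have h1 : ∑ l ∈ Icc 1 N, EChar_f u (l : ℝ) + EChar_f u ((N + 1 : ℕ) : ℝ) -
        EChar_g u ((N + 1 : ℕ) : ℝ) =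
        (∑ l ∈ Icc 1 N, EChar_f u (l : ℝ) - EChar_g u (N : ℝ)) -
          (EChar_g u ((N + 1 : ℕ) : ℝ) - EChar_g u (N : ℝ) - EChar_f u ((N + 1 : ℕ) : ℝ)) := by
      ring
    rw [h1]
    refine (norm_sub_le _ _).trans ?_
    have h2 := EChar_stepg u N hN
    linarith

theorem EChar_case1 (q : ℕ) (hq : 1 ≤ q) (ψ : DirichletCharacter ℂ q) (x u : ℝ) (hx : 1 ≤ x) :
    ‖(∑ l ∈ Icc 1 ⌊x⌋₊, ψ (l : ZMod q) * nit l u) - EChar_d q ψ * EChar_g u x‖ ≤
      q * (1 + |u| * (1 + Real.log x)) + (3 + |u| * (1 + Real.log x)) := by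
  have hx0 : 0 < x := by linarith
  set N := ⌊x⌋₊ with hN
  have hN1 : 1 ≤ N := by
    rw [hN]
    exact Nat.le_floor (by exact_mod_cast hx)
  have hN0 : (0 : ℝ) < N := by exact_mod_cast hN1
  have hNx : (N : ℝ) ≤ x := Nat.floor_le hx0.le
  have hxN : x < N + 1 := Nat.lt_floor_add_one x
  have hH : ∑ l ∈ Ico 1 N, |u| * (1 / (l : ℝ)) ≤ |u| * (1 + Real.log x) := by
    rw [← Finset.mul_sum]
    refine mul_le_mul_of_nonneg_left ?_ (abs_nonneg _)
    have h1 := EChar_harm N hN1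
    have h2 := Real.log_le_log hN0 hNx
    have h3 : (0 : ℝ) ≤ 1 / N := by positivity
    linarith
  have hA : ‖∑ l ∈ Icc 1 N, (ψ (l : ZMod q) - EChar_d q ψ) * EChar_f u (l : ℝ)‖ ≤
      q * (1 + |u| * (1 + Real.log x)) := by
    rw [EChar_abel (fun l : ℕ => ψ (l : ZMod q) - EChar_d q ψ) (fun l : ℕ => EChar_f u (l : ℝ)) N hN1]
    refine (norm_sub_le _ _).trans ?_
    rw [mul_add, mul_one, norm_mul, EChar_norm_f, mul_one]
    refine add_le_add (EChar_E q hq ψ N) ?_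
    refine (norm_sum_le _ _).trans ?_
    calc ∑ l ∈ Ico 1 N, ‖(∑ k ∈ Icc 1 l, (ψ (k : ZMod q) - EChar_d q ψ)) *
          (EChar_f u ((l + 1 : ℕ) : ℝ) - EChar_f u (l : ℝ))‖
        ≤ ∑ l ∈ Ico 1 N, (q : ℝ) * (|u| * (1 / (l : ℝ))) := by
          refine Finset.sum_le_sum fun l hl => ?_
          rw [norm_mul]
          exact mul_le_mul (EChar_E q hq ψ l) (EChar_step u l (mem_Ico.1 hl).1) (norm_nonneg _)
            (Nat.cast_nonneg _)
      _ = q * ∑ l ∈ Ico 1 N, |u| * (1 / (l : ℝ)) := by rw [Finset.mul_sum]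
      _ ≤ q * (|u| * (1 + Real.log x)) := mul_le_mul_of_nonneg_left hH (Nat.cast_nonneg _)
  have hB := EChar_B u N hN1
  have hC := EChar_g_sub u hN0 hNx
  have hd := EChar_norm_d q hq ψ
  have h1 : (∑ l ∈ Icc 1 N, ψ (l : ZMod q) * nit l u) =
      ∑ l ∈ Icc 1 N, ψ (l : ZMod q) * EChar_f u (l : ℝ) :=
    Finset.sum_congr rfl fun l hl => by rw [EChar_nit l (mem_Icc.1 hl).1]
  have h2 : (∑ l ∈ Icc 1 N, ψ (l : ZMod q) * nit l u) - EChar_d q ψ * EChar_g u x =
      (∑ l ∈ Icc 1 N, (ψ (l : ZMod q) - EChar_d q ψ) * EChar_f u (l : ℝ)) +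
        EChar_d q ψ * ((∑ l ∈ Icc 1 N, EChar_f u (l : ℝ) - EChar_g u (N : ℝ)) -
          (EChar_g u x - EChar_g u (N : ℝ))) := by
    rw [h1]
    simp only [sub_mul, Finset.sum_sub_distrib]
    rw [← Finset.mul_sum]
    ring
  rw [h2]
  refine (norm_add_le _ _).trans (add_le_add hA ?_)
  rw [norm_mul]
  have h3 : ‖(∑ l ∈ Icc 1 N, EChar_f u (l : ℝ) - EChar_g u (N : ℝ)) -
      (EChar_g u x - EChar_g u (N : ℝ))‖ ≤ 3 + |u| * (1 + Real.log x) := by
    refine (norm_sub_le _ _).trans ?_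
    linarith
  calc ‖EChar_d q ψ‖ * _ ≤ 1 * (3 + |u| * (1 + Real.log x)) :=
        mul_le_mul hd h3 (norm_nonneg _) zero_le_one
    _ = _ := one_mul _

theorem EChar_triv (q : ℕ) (ψ : DirichletCharacter ℂ q) (y u : ℝ) (hy : 0 ≤ y) :
    ‖∑ l ∈ Icc 1 ⌊y⌋₊, ψ (l : ZMod q) * nit l u‖ ≤ y := by
  refine (norm_sum_le _ _).trans ?_
  refine (Finset.sum_le_card_nsmul _ _ 1 fun l hl => ?_).trans ?_
  · rw [norm_mul, EChar_norm_nit l (mem_Icc.1 hl).1, mul_one]
    exact ψ.norm_le_one _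
  · rw [Nat.card_Icc, Nat.add_sub_cancel, nsmul_eq_mul, mul_one]
    exact Nat.floor_le hy

theorem EChar_block (q : ℕ) (hq : 1 ≤ q) (ψ : DirichletCharacter ℂ q) (M u K : ℝ)
    (hv : ∀ c : ℕ, ‖∑ l ∈ (Ioc ⌊M⌋₊ ⌊2 * M⌋₊).filter (fun l => l ≡ c [MOD q]), nit l u‖ ≤ K) :
    ‖∑ l ∈ Ioc ⌊M⌋₊ ⌊2 * M⌋₊, ψ (l : ZMod q) * nit l u‖ ≤ q * K := by
  have h1 : ∑ l ∈ Ioc ⌊M⌋₊ ⌊2 * M⌋₊, ψ (l : ZMod q) * nit l u =
      ∑ c ∈ range q, ψ (c : ZMod q) *
        ∑ l ∈ (Ioc ⌊M⌋₊ ⌊2 * M⌋₊).filter (fun l => l ≡ c [MOD q]), nit l u := by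
    rw [← Finset.sum_fiberwise_of_maps_to (g := fun l : ℕ => l % q) (t := range q)
      (fun l _ => mem_range.2 (Nat.mod_lt _ (by omega)))]
    refine Finset.sum_congr rfl fun c hc => ?_
    have hc' : c % q = c := Nat.mod_eq_of_lt (mem_range.1 hc)
    have h2 : (Ioc ⌊M⌋₊ ⌊2 * M⌋₊).filter (fun l => l % q = c) =
        (Ioc ⌊M⌋₊ ⌊2 * M⌋₊).filter (fun l => l ≡ c [MOD q]) := by
      refine Finset.filter_congr fun l _ => ?_
      rw [Nat.ModEq, hc']
    rw [h2, Finset.mul_sum]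
    refine Finset.sum_congr rfl fun l hl => ?_
    rw [(ZMod.natCast_eq_natCast_iff l c q).2 (mem_filter.1 hl).2]
  rw [h1]
  refine (norm_sum_le _ _).trans ?_
  refine (Finset.sum_le_card_nsmul _ _ K fun c _ => ?_).trans ?_
  · rw [norm_mul]
    calc ‖ψ (c : ZMod q)‖ * _ ≤ 1 * K :=
          mul_le_mul (ψ.norm_le_one _) (hv c) (norm_nonneg _) zero_le_one
      _ = K := one_mul K
  · rw [card_range, nsmul_eq_mul]

theorem EChar_two (κ : ℝ) (hκ : κ < 1 / 8) : (3 / 2 : ℝ) ≤ 2 ^ (1 - κ) := by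
  have h1 : (2 : ℝ) ^ (7 / 8 : ℝ) ≤ 2 ^ (1 - κ) :=
    Real.rpow_le_rpow_of_exponent_le (by norm_num) (by linarith)
  refine le_trans ?_ h1
  by_contra hlt
  push Not at hlt
  have h2 : ((2 : ℝ) ^ (7 / 8 : ℝ)) ^ 8 < (3 / 2) ^ 8 := pow_lt_pow_left₀ hlt (by positivity) (by norm_num)
  rw [← Real.rpow_natCast, ← Real.rpow_mul (by norm_num)] at h2
  norm_num at h2

theorem EChar_dyadic (q : ℕ) (ψ : DirichletCharacter ℂ q) (x u K κ : ℝ) (hκ : κ < 1 / 8)
    (hK : 0 ≤ K) (hx : 1 ≤ x)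
    (hblock : ∀ M : ℝ, x ^ (1 / 2 : ℝ) ≤ M → M ≤ x →
      ‖∑ l ∈ Ioc ⌊M⌋₊ ⌊2 * M⌋₊, ψ (l : ZMod q) * nit l u‖ ≤ K * M ^ (1 - κ)) :
    ∀ k : ℕ, ∀ y : ℝ, 0 ≤ y → y ≤ x → y ≤ 2 ^ k * (2 * x ^ (1 / 2 : ℝ)) →
      ‖∑ l ∈ Icc 1 ⌊y⌋₊, ψ (l : ZMod q) * nit l u‖ ≤
        2 * x ^ (1 / 2 : ℝ) + 2 * K * y ^ (1 - κ) := by
  have htriv : ∀ y : ℝ, 0 ≤ y → y ≤ 2 * x ^ (1 / 2 : ℝ) →
      ‖∑ l ∈ Icc 1 ⌊y⌋₊, ψ (l : ZMod q) * nit l u‖ ≤
        2 * x ^ (1 / 2 : ℝ) + 2 * K * y ^ (1 - κ) := by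
    intro y hy hy2
    have h1 := EChar_triv q ψ y u hy
    have h2 : 0 ≤ 2 * K * y ^ (1 - κ) := by positivity
    linarith
  intro k
  induction k with
  | zero =>
    intro y hy _ hy2
    rw [pow_zero, one_mul] at hy2
    exact htriv y hy hy2
  | succ k ih =>
    intro y hy hyx hy2
    by_cases h : y ≤ 2 * x ^ (1 / 2 : ℝ)
    · exact htriv y hy h
    · push Not at h
      have hM1 : x ^ (1 / 2 : ℝ) ≤ y / 2 := by linarith
      have hM2 : y / 2 ≤ x := by linarith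
      have h1 := hblock (y / 2) hM1 hM2
      have h2 := ih (y / 2) (by linarith) hM2 (by
        rw [pow_succ] at hy2
        linarith)
      rw [mul_div_cancel₀ y two_ne_zero] at h1
      have hle : ⌊y / 2⌋₊ ≤ ⌊y⌋₊ := Nat.floor_mono (by linarith)
      have h3 : Icc 1 ⌊y⌋₊ = Icc 1 ⌊y / 2⌋₊ ∪ Ioc ⌊y / 2⌋₊ ⌊y⌋₊ := by
        ext l
        simp only [mem_Icc, mem_union, mem_Ioc]
        omega
      have h4 : Disjoint (Icc 1 ⌊y / 2⌋₊) (Ioc ⌊y / 2⌋₊ ⌊y⌋₊) := by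
        rw [Finset.disjoint_left]
        intro l hl hl'
        simp only [mem_Icc, mem_Ioc] at hl hl'
        omega
      rw [h3, Finset.sum_union h4]
      refine (norm_add_le _ _).trans ?_
      have h5 : y ^ (1 - κ) = 2 ^ (1 - κ) * (y / 2) ^ (1 - κ) := by
        rw [← Real.mul_rpow (by norm_num) (by linarith)]
        congr 1
        ring
      have h6 := EChar_two κ hκ
      have h7 : 0 ≤ K * (y / 2) ^ (1 - κ) := by positivity
      have h8 : 2 * (3 / 2) * (K * (y / 2) ^ (1 - κ)) ≤ 2 * K * y ^ (1 - κ) := by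
        rw [h5]
        nlinarith
      linarith

/-- **Sharp sums.**

Proof. For `|u| ≤ x ^ (1 / 4)`: Abel summation with `|∑_{l ≤ y} ψ (l) - [ψ = 1] φ(q) y / q| ≤ q` (`coprime_count`,
`Wb58c63.char_sum_Ico`), the derivative of `y ^ (- i u)` is `≤ |u| / y`: the error is `≤ q (1 + |u| (1 + log x))`; the main term
`φ(q) / q (x ^ (1 - i u) - i u ...)`: `∑_{l ≤ x, (l, q) = 1} l ^ (- i u) = φ(q) / q ∫_0^x y ^ (- i u) dy + O (...)`.
For `|u| > x ^ (1 / 4)`: the main term is `≤ x / |u| ≤ x ^ (3 / 4)`; the `l ≤ x ^ (1 / 2)` are trivial; the rest is cut into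
dyadic blocks `(M, 2 M]`, `M ≥ x ^ (1 / 2) / 2`, each into residue classes modulo `q`: `vdc` with `b = 1 / 8`, `2 B + 1` in place
of `B`, and `q` classes; `q ≤ x ^ κ` is absorbed. -/
theorem chsum (B : ℝ) (hB : 0 < B) : ∃ κ C : ℝ, 0 < κ ∧ κ < 1 / 8 ∧ 0 < C ∧
    ∀ (q : ℕ) (ψ : DirichletCharacter ℂ q) (x u : ℝ), 1 ≤ q → 1 ≤ x → |u| ≤ x ^ B → (q : ℝ) ≤ x ^ κ →
      ‖(∑ l ∈ Icc 1 ⌊x⌋₊, ψ (l : ZMod q) * nit l u) -
        (open Classical in if ψ = 1 then ((q.totient / q : ℝ) : ℂ) * ((x : ℂ) ^ (1 - (u : ℂ) * Complex.I) /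
          (1 - (u : ℂ) * Complex.I)) else 0)‖ ≤ C * x ^ (1 - κ) := by
  obtain ⟨κ₀, C₀, hκ0, hκ1, hC0, hv⟩ := vdc (1 / 8) (2 * B + 1) (by norm_num) (by linarith)
  refine ⟨κ₀ / 2, 14 + 2 * C₀, by linarith, by linarith, by positivity, ?_⟩
  intro q ψ x u hq hx hu hqx
  have hx0 : 0 < x := by linarith
  have hd : (open Classical in if ψ = 1 then ((q.totient / q : ℝ) : ℂ) *
      ((x : ℂ) ^ (1 - (u : ℂ) * Complex.I) / (1 - (u : ℂ) * Complex.I)) else 0) =
      EChar_d q ψ * EChar_g u x := by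
    rw [EChar_d, EChar_g]
    split_ifs
    · rfl
    · rw [zero_mul]
  rw [hd]
  have hmono : ∀ a b : ℝ, a ≤ b → x ^ a ≤ x ^ b := fun a b hab =>
    Real.rpow_le_rpow_of_exponent_le hx hab
  have hone : ∀ a : ℝ, 0 ≤ a → 1 ≤ x ^ a := fun a ha => Real.one_le_rpow hx ha
  by_cases hu1 : |u| ≤ x ^ (1 / 4 : ℝ)
  · refine (EChar_case1 q hq ψ x u hx).trans ?_
    have h1 : (q : ℝ) ≤ x ^ (1 / 16 : ℝ) := hqx.trans (hmono _ _ (by linarith))
    have h2 : Real.log x ≤ 4 * x ^ (1 / 4 : ℝ) := by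
      have := Real.log_le_rpow_div hx0.le (show (0 : ℝ) < 1 / 4 by norm_num)
      linarith
    have h3 := hone (1 / 4) (by norm_num)
    have hl : 0 ≤ Real.log x := Real.log_nonneg hx
    have h4 : |u| * (1 + Real.log x) ≤ 5 * x ^ (1 / 2 : ℝ) := by
      calc |u| * (1 + Real.log x) ≤ x ^ (1 / 4 : ℝ) * (5 * x ^ (1 / 4 : ℝ)) :=
            mul_le_mul hu1 (by linarith) (by linarith) (by positivity)
        _ = 5 * x ^ (1 / 2 : ℝ) := by
            rw [mul_left_comm, ← Real.rpow_add hx0]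
            norm_num
    have h5 := hone (1 / 2) (by norm_num)
    have h6 := hone (1 / 16) (by norm_num)
    have h7 : x ^ (1 / 16 : ℝ) * x ^ (1 / 2 : ℝ) ≤ x ^ (1 - κ₀ / 2) := by
      rw [← Real.rpow_add hx0]
      exact hmono _ _ (by linarith)
    have h8 : 0 ≤ |u| * (1 + Real.log x) := by positivity
    have h9 : (q : ℝ) * (1 + |u| * (1 + Real.log x)) ≤
        x ^ (1 / 16 : ℝ) * (6 * x ^ (1 / 2 : ℝ)) :=
      mul_le_mul h1 (by linarith) (by linarith) (by positivity)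
    have h10 : x ^ (1 / 2 : ℝ) ≤ x ^ (1 / 16 : ℝ) * x ^ (1 / 2 : ℝ) :=
      le_mul_of_one_le_left (by positivity) h6
    have h11 : 0 ≤ 2 * C₀ * x ^ (1 - κ₀ / 2) := by positivity
    nlinarith
  · push Not at hu1
    have hu0 : 0 < |u| := lt_trans (by positivity) hu1
    have hblock : ∀ M : ℝ, x ^ (1 / 2 : ℝ) ≤ M → M ≤ x →
        ‖∑ l ∈ Ioc ⌊M⌋₊ ⌊2 * M⌋₊, ψ (l : ZMod q) * nit l u‖ ≤ (q * C₀) * M ^ (1 - κ₀) := by
      intro M hM1 hM2
      have hM0 : 1 ≤ M := le_trans (hone _ (by norm_num)) hM1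
      rw [mul_assoc]
      refine EChar_block q hq ψ M u _ fun c => ?_
      refine hv M M (2 * M) u q c hM0 hq ?_ le_rfl (by linarith) le_rfl ?_ ?_
      · calc (q : ℝ) ≤ x ^ (κ₀ / 2) := hqx
          _ = (x ^ (1 / 2 : ℝ)) ^ κ₀ := by
              rw [← Real.rpow_mul hx0.le]
              congr 1
              ring
          _ ≤ M ^ κ₀ := Real.rpow_le_rpow (by positivity) hM1 hκ0.le
          _ ≤ M ^ (1 / 8 : ℝ) := Real.rpow_le_rpow_of_exponent_le hM0 hκ1.le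
      · calc M ^ (1 / 8 : ℝ) ≤ x ^ (1 / 8 : ℝ) := Real.rpow_le_rpow (by linarith) hM2 (by norm_num)
          _ ≤ x ^ (1 / 4 : ℝ) := hmono _ _ (by norm_num)
          _ ≤ |u| := hu1.le
      · calc |u| ≤ x ^ B := hu
          _ = (x ^ (1 / 2 : ℝ)) ^ (2 * B) := by
              rw [← Real.rpow_mul hx0.le]
              congr 1
              ring
          _ ≤ M ^ (2 * B) := Real.rpow_le_rpow (by positivity) hM1 (by linarith)
          _ ≤ M ^ (2 * B + 1) := Real.rpow_le_rpow_of_exponent_le hM0 (by linarith)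
    have hk : x ≤ 2 ^ ⌈x⌉₊ * (2 * x ^ (1 / 2 : ℝ)) := by
      have h1 : x ≤ 2 ^ ⌈x⌉₊ := by
        calc x ≤ (⌈x⌉₊ : ℝ) := Nat.le_ceil x
          _ ≤ ((2 ^ ⌈x⌉₊ : ℕ) : ℝ) := by exact_mod_cast (Nat.lt_two_pow_self).le
          _ = 2 ^ ⌈x⌉₊ := by push_cast; rfl
      have h2 := hone (1 / 2) (by norm_num)
      calc x ≤ 2 ^ ⌈x⌉₊ * 1 := by rw [mul_one]; exact h1
        _ ≤ 2 ^ ⌈x⌉₊ * (2 * x ^ (1 / 2 : ℝ)) :=
            mul_le_mul_of_nonneg_left (by linarith) (by positivity)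
    have h1 := EChar_dyadic q ψ x u (q * C₀) κ₀ hκ1 (by positivity) hx hblock ⌈x⌉₊ x hx0.le le_rfl hk
    have h2 := EChar_g_le' u hu0 hx0
    have h3 : x / |u| ≤ x ^ (1 - κ₀ / 2) := by
      calc x / |u| ≤ x / x ^ (1 / 4 : ℝ) :=
            div_le_div_of_nonneg_left hx0.le (by positivity) hu1.le
        _ = x ^ (3 / 4 : ℝ) := by
            rw [div_eq_iff (by positivity), ← Real.rpow_add hx0]
            norm_num
        _ ≤ x ^ (1 - κ₀ / 2) := hmono _ _ (by linarith)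
    have h4 : x ^ (1 / 2 : ℝ) ≤ x ^ (1 - κ₀ / 2) := hmono _ _ (by linarith)
    have h5 : (q : ℝ) * x ^ (1 - κ₀) ≤ x ^ (1 - κ₀ / 2) := by
      calc (q : ℝ) * x ^ (1 - κ₀) ≤ x ^ (κ₀ / 2) * x ^ (1 - κ₀) :=
            mul_le_mul_of_nonneg_right hqx (by positivity)
        _ = x ^ (1 - κ₀ / 2) := by
            rw [← Real.rpow_add hx0]
            congr 1
            ring
    have h6 : ‖EChar_d q ψ * EChar_g u x‖ ≤ x ^ (1 - κ₀ / 2) := by
      rw [norm_mul]
      calc ‖EChar_d q ψ‖ * ‖EChar_g u x‖ ≤ 1 * x ^ (1 - κ₀ / 2) :=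
            mul_le_mul (EChar_norm_d q hq ψ) (h2.trans h3) (norm_nonneg _) zero_le_one
        _ = _ := one_mul _
    have h7 : 2 * (q * C₀) * x ^ (1 - κ₀) ≤ 2 * C₀ * x ^ (1 - κ₀ / 2) := by
      calc 2 * (q * C₀) * x ^ (1 - κ₀) = 2 * C₀ * (q * x ^ (1 - κ₀)) := by ring
        _ ≤ 2 * C₀ * x ^ (1 - κ₀ / 2) := mul_le_mul_of_nonneg_left h5 (by positivity)
    refine (norm_sub_le _ _).trans ?_
    have h8 : 0 ≤ x ^ (1 - κ₀ / 2) := by positivity
    linarith

/-- The summands of the tail. -/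
def EChar_t (X κ : ℝ) (l : ℕ) : ℝ :=
  open Classical in if X < (l : ℝ) + 1 then ((l : ℝ) + 1) ^ (-1 - κ) else 0

theorem EChar_t_nonneg (X κ : ℝ) (l : ℕ) : 0 ≤ EChar_t X κ l := by
  rw [EChar_t]
  split_ifs
  · positivity
  · exact le_rfl

theorem EChar_tel (κ : ℝ) (hκ : 0 < κ) (n : ℕ) (hn : 1 ≤ n) :
    κ * ((n : ℝ) + 1) ^ (-1 - κ) ≤ (n : ℝ) ^ (-κ) - ((n : ℝ) + 1) ^ (-κ) := by
  have hn0 : (0 : ℝ) < n := by exact_mod_cast hn
  have hn1 : (0 : ℝ) < (n : ℝ) + 1 := by positivity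
  have h1 := Real.one_sub_inv_le_log_of_pos (show (0 : ℝ) < (n + 1) / n by positivity)
  rw [inv_div] at h1
  have h2 : (1 : ℝ) - n / (n + 1) = 1 / (n + 1) := by
    field_simp
    ring
  rw [h2] at h1
  have h3 : 1 + κ * (1 / (n + 1)) ≤ (((n : ℝ) + 1) / n) ^ κ := by
    rw [Real.rpow_def_of_pos (by positivity)]
    have h4 := Real.add_one_le_exp (Real.log (((n : ℝ) + 1) / n) * κ)
    have h5 : κ * (1 / (n + 1)) ≤ Real.log (((n : ℝ) + 1) / n) * κ := by
      rw [mul_comm]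
      exact mul_le_mul_of_nonneg_right h1 hκ.le
    linarith
  have h6 : (n : ℝ) ^ (-κ) = ((n : ℝ) + 1) ^ (-κ) * (((n : ℝ) + 1) / n) ^ κ := by
    rw [Real.div_rpow hn1.le hn0.le, Real.rpow_neg hn1.le, Real.rpow_neg hn0.le]
    field_simp
  have h7 : ((n : ℝ) + 1) ^ (-1 - κ) = ((n : ℝ) + 1) ^ (-κ) * (1 / (n + 1)) := by
    rw [show (-1 - κ) = -κ + (-1 : ℝ) by ring, Real.rpow_add hn1, Real.rpow_neg_one, one_div]
  rw [h6, h7]
  have h8 : 0 < ((n : ℝ) + 1) ^ (-κ) := by positivity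
  nlinarith

theorem EChar_tail (X κ : ℝ) (hX : 1 ≤ X) (hκ : 0 < κ) (hκ1 : κ ≤ 1) (N : ℕ) (hN : 1 ≤ N) :
    ∑ l ∈ Ico 1 N, EChar_t X κ l ≤ 2 / κ * X ^ (-κ) := by
  have hX0 : 0 < X := by linarith
  have hhalf : (X / 2) ^ (-κ) ≤ 2 * X ^ (-κ) := by
    rw [Real.div_rpow hX0.le (by norm_num), div_eq_mul_inv, ← Real.rpow_neg (by norm_num), neg_neg,
      mul_comm]
    refine mul_le_mul_of_nonneg_right ?_ (by positivity)
    calc (2 : ℝ) ^ κ ≤ 2 ^ (1 : ℝ) := Real.rpow_le_rpow_of_exponent_le (by norm_num) hκ1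
      _ = 2 := Real.rpow_one 2
  have hanti : ∀ a b : ℝ, 0 < a → a ≤ b → b ^ (-κ) ≤ a ^ (-κ) := fun a b ha hab =>
    Real.rpow_le_rpow_of_nonpos ha hab (by linarith)
  have key : ∀ N : ℕ, 1 ≤ N → ∑ l ∈ Ico 1 N, EChar_t X κ l ≤
      1 / κ * (2 * X ^ (-κ) - (max (N : ℝ) (X / 2)) ^ (-κ)) := by
    intro N hN
    induction N, hN using Nat.le_induction with
    | base =>
      rw [Finset.Ico_self, Finset.sum_empty]
      have h1 := hanti (X / 2) (max ((1 : ℕ) : ℝ) (X / 2)) (by positivity) (le_max_right _ _)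
      have h2 : 0 ≤ 2 * X ^ (-κ) - (max ((1 : ℕ) : ℝ) (X / 2)) ^ (-κ) := by linarith
      positivity
    | succ N hN ih =>
      rw [Finset.sum_Ico_succ_top hN]
      have hN1 : (1 : ℝ) ≤ N := by exact_mod_cast hN
      by_cases h : X < (N : ℝ) + 1
      · have h1 : max (N : ℝ) (X / 2) = N := max_eq_left (by linarith)
        have h2 : max ((N + 1 : ℕ) : ℝ) (X / 2) = (N : ℝ) + 1 := by
          push_cast
          exact max_eq_left (by linarith)
        rw [h1] at ih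
        rw [h2]
        have h3 : EChar_t X κ N = ((N : ℝ) + 1) ^ (-1 - κ) := by
          rw [EChar_t, if_pos h]
        have h4 := EChar_tel κ hκ N hN
        have h5 : ((N : ℝ) + 1) ^ (-1 - κ) ≤ 1 / κ * ((N : ℝ) ^ (-κ) - ((N : ℝ) + 1) ^ (-κ)) := by
          rw [one_div, ← div_eq_inv_mul, le_div_iff₀ hκ]
          linarith
        rw [h3]
        have h6 : 1 / κ * (2 * X ^ (-κ) - ((N : ℝ) + 1) ^ (-κ)) =
            1 / κ * (2 * X ^ (-κ) - (N : ℝ) ^ (-κ)) +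
              1 / κ * ((N : ℝ) ^ (-κ) - ((N : ℝ) + 1) ^ (-κ)) := by ring
        rw [h6]
        exact add_le_add ih h5
      · have h3 : EChar_t X κ N = 0 := by
          rw [EChar_t, if_neg h]
        rw [h3, add_zero]
        refine ih.trans (mul_le_mul_of_nonneg_left ?_ (by positivity))
        have h4 := hanti (max (N : ℝ) (X / 2)) (max ((N + 1 : ℕ) : ℝ) (X / 2))
          (lt_max_of_lt_left (by linarith)) (max_le_max (by push_cast; linarith) le_rfl)
        linarith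
  refine (key N hN).trans ?_
  have h1 : 0 ≤ (max (N : ℝ) (X / 2)) ^ (-κ) := by positivity
  have h2 : 2 / κ * X ^ (-κ) = 1 / κ * (2 * X ^ (-κ)) := by ring
  rw [h2]
  exact mul_le_mul_of_nonneg_left (by linarith) (by positivity)

/-- `H (l) = h (log l) / l`. -/
def EChar_H (h : ℝ → ℝ) (l : ℕ) : ℝ := h (Real.log l) / l

theorem EChar_log (l : ℕ) (hl : 1 ≤ l) :
    Real.log ((l + 1 : ℕ) : ℝ) - Real.log l ≤ 1 / l ∧ Real.log l ≤ Real.log ((l + 1 : ℕ) : ℝ) := by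
  have hl0 : (0 : ℝ) < l := by exact_mod_cast hl
  have hle : (l : ℝ) ≤ ((l + 1 : ℕ) : ℝ) := by
    push_cast
    linarith
  refine ⟨?_, Real.log_le_log hl0 hle⟩
  rw [← Real.log_div (by positivity) hl0.ne']
  refine (Real.log_le_sub_one_of_pos (by positivity)).trans (le_of_eq ?_)
  push_cast
  field_simp
  ring

theorem EChar_dH (h : ℝ → ℝ) (A h₀ h₁ : ℝ) (hb : ∀ v, |h v| ≤ h₀)
    (hL : ∀ v w, |h v - h w| ≤ h₁ * |v - w|) (hA : ∀ v, v ≤ A → h v = 0) (l : ℕ) (hl : 1 ≤ l) :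
    |EChar_H h (l + 1) - EChar_H h l| ≤ (h₀ + h₁) * (1 / (l * (l + 1))) ∧
      (¬ Real.exp A < (l : ℝ) + 1 → EChar_H h (l + 1) - EChar_H h l = 0) := by
  have hl0 : (0 : ℝ) < l := by exact_mod_cast hl
  obtain ⟨hlog, hlog'⟩ := EChar_log l hl
  have hh1 : 0 ≤ h₁ := by
    have := (abs_nonneg _).trans (hL 0 1)
    norm_num at this
    exact this
  constructor
  · have h1 : EChar_H h (l + 1) - EChar_H h l =
        (h (Real.log ((l + 1 : ℕ) : ℝ)) - h (Real.log l)) / ((l : ℝ) + 1) -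
          h (Real.log l) * (1 / (l * (l + 1))) := by
      rw [EChar_H, EChar_H]
      push_cast
      field_simp
      ring
    rw [h1]
    refine (abs_sub _ _).trans ?_
    have h2 : |(h (Real.log ((l + 1 : ℕ) : ℝ)) - h (Real.log l)) / ((l : ℝ) + 1)| ≤
        h₁ * (1 / (l * (l + 1))) := by
      rw [abs_div, abs_of_pos (by positivity : (0 : ℝ) < (l : ℝ) + 1), div_le_iff₀ (by positivity)]
      refine (hL _ _).trans ?_
      rw [abs_of_nonneg (by linarith)]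
      have h3 : h₁ * (1 / (l * (l + 1))) * ((l : ℝ) + 1) = h₁ * (1 / l) := by
        field_simp
      rw [h3]
      exact mul_le_mul_of_nonneg_left hlog hh1
    have h4 : |h (Real.log l) * (1 / (l * ((l : ℝ) + 1)))| ≤ h₀ * (1 / (l * (l + 1))) := by
      rw [abs_mul, abs_of_nonneg (by positivity : (0 : ℝ) ≤ 1 / (l * ((l : ℝ) + 1)))]
      exact mul_le_mul_of_nonneg_right (hb _) (by positivity)
    linarith
  · intro hX
    push Not at hX
    have h2 : Real.log ((l + 1 : ℕ) : ℝ) ≤ A := by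
      rw [Real.log_le_iff_le_exp (by positivity)]
      push_cast
      exact hX
    rw [EChar_H, EChar_H, hA _ h2, hA _ (hlog'.trans h2), zero_div, zero_div, sub_zero]

/-- One piece of the integral. -/
theorem EChar_piece (h : ℝ → ℝ) (A u h₀ h₁ : ℝ) (hb : ∀ v, |h v| ≤ h₀)
    (hL : ∀ v w, |h v - h w| ≤ h₁ * |v - w|) (hA : ∀ v, v ≤ A → h v = 0) (hc : Continuous h)
    (l : ℕ) (hl : 1 ≤ l) :
    ‖(EChar_H h (l + 1) : ℂ) * (EChar_g u ((l + 1 : ℕ) : ℝ) - EChar_g u (l : ℝ)) -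
      ∫ v in Real.log l..Real.log ((l + 1 : ℕ) : ℝ),
        (h v : ℂ) * Complex.exp (-(u * v : ℝ) * Complex.I)‖ ≤
      (h₀ + h₁) * (1 / (l : ℝ) ^ 2) ∧
      (¬ Real.exp A < (l : ℝ) + 1 →
        (EChar_H h (l + 1) : ℂ) * (EChar_g u ((l + 1 : ℕ) : ℝ) - EChar_g u (l : ℝ)) -
          ∫ v in Real.log l..Real.log ((l + 1 : ℕ) : ℝ),
            (h v : ℂ) * Complex.exp (-(u * v : ℝ) * Complex.I) = 0) := by
  have hl0 : (0 : ℝ) < l := by exact_mod_cast hl
  have hl1 : (0 : ℝ) < ((l + 1 : ℕ) : ℝ) := by positivity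
  obtain ⟨hlog, hlog'⟩ := EChar_log l hl
  have hh1 : 0 ≤ h₁ := by
    have := (abs_nonneg _).trans (hL 0 1)
    norm_num at this
    exact this
  have hh0 : 0 ≤ h₀ := (abs_nonneg _).trans (hb 0)
  constructor
  · have hg : ∀ y : ℝ, 0 < y → EChar_g u y =
        Complex.exp ((1 - (u : ℂ) * Complex.I) * (Real.log y : ℝ)) / (1 - (u : ℂ) * Complex.I) := by
      intro y hy
      have h0 : (y : ℂ) ≠ 0 := by exact_mod_cast hy.ne'
      rw [EChar_g, Complex.cpow_def_of_ne_zero h0, ← Complex.ofReal_log hy.le, mul_comm]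
    have h1 : EChar_g u ((l + 1 : ℕ) : ℝ) - EChar_g u (l : ℝ) =
        ∫ v in Real.log l..Real.log ((l + 1 : ℕ) : ℝ), Complex.exp ((1 - (u : ℂ) * Complex.I) * v) := by
      rw [integral_exp_mul_complex (EChar_ne u), hg _ hl1, hg _ hl0]
      ring
    rw [h1, ← intervalIntegral.integral_const_mul, ← intervalIntegral.integral_sub]
    · have h2 := intervalIntegral.norm_integral_le_of_norm_le_const
        (a := Real.log l) (b := Real.log ((l + 1 : ℕ) : ℝ)) (C := (h₀ + h₁) * (1 / l))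
        (f := fun v : ℝ => (EChar_H h (l + 1) : ℂ) * Complex.exp ((1 - (u : ℂ) * Complex.I) * v) -
          (h v : ℂ) * Complex.exp (-(u * v : ℝ) * Complex.I)) (by
        intro v hv
        rw [Set.uIoc_of_le hlog', Set.mem_Ioc] at hv
        have h3 : (EChar_H h (l + 1) : ℂ) * Complex.exp ((1 - (u : ℂ) * Complex.I) * v) -
            (h v : ℂ) * Complex.exp (-(u * v : ℝ) * Complex.I) =
            ((EChar_H h (l + 1) * Real.exp v - h v : ℝ) : ℂ) *
              Complex.exp (-(u * v : ℝ) * Complex.I) := by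
          have h4 : Complex.exp ((1 - (u : ℂ) * Complex.I) * v) =
              Complex.exp (v : ℂ) * Complex.exp (-(u * v : ℝ) * Complex.I) := by
            rw [← Complex.exp_add]
            congr 1
            push_cast
            ring
          rw [h4]
          push_cast
          ring
        have h5 : ‖Complex.exp (-(u * v : ℝ) * Complex.I)‖ = 1 := by
          have := Complex.norm_exp_ofReal_mul_I (-(u * v))
          push_cast at this ⊢
          exact this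
        rw [h3, norm_mul, h5, mul_one, Complex.norm_real, Real.norm_eq_abs]
        have h6 : EChar_H h (l + 1) * Real.exp v - h v =
            (h (Real.log ((l + 1 : ℕ) : ℝ)) - h v) -
              h (Real.log ((l + 1 : ℕ) : ℝ)) * (1 - Real.exp v / ((l + 1 : ℕ) : ℝ)) := by
          rw [EChar_H]
          ring
        rw [h6]
        refine (abs_sub _ _).trans ?_
        have h7 : |h (Real.log ((l + 1 : ℕ) : ℝ)) - h v| ≤ h₁ * (1 / l) := by
          refine (hL _ _).trans (mul_le_mul_of_nonneg_left ?_ hh1)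
          rw [abs_of_nonneg (by linarith)]
          linarith
        have h8 : |h (Real.log ((l + 1 : ℕ) : ℝ)) * (1 - Real.exp v / ((l + 1 : ℕ) : ℝ))| ≤
            h₀ * (1 / l) := by
          rw [abs_mul]
          refine mul_le_mul (hb _) ?_ (abs_nonneg _) hh0
          have h9 : Real.exp v ≤ ((l + 1 : ℕ) : ℝ) := by
            rw [← Real.le_log_iff_exp_le hl1]
            exact hv.2
          have h10 : (l : ℝ) ≤ Real.exp v := by
            rw [← Real.log_le_iff_le_exp hl0]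
            exact hv.1.le
          have h11 : Real.exp v / ((l + 1 : ℕ) : ℝ) ≤ 1 := (div_le_one hl1).2 h9
          rw [abs_of_nonneg (by linarith)]
          have h12 : (l : ℝ) / ((l + 1 : ℕ) : ℝ) ≤ Real.exp v / ((l + 1 : ℕ) : ℝ) :=
            div_le_div_of_nonneg_right h10 hl1.le
          have h13 : 1 - (l : ℝ) / ((l + 1 : ℕ) : ℝ) = 1 / ((l : ℝ) + 1) := by
            push_cast
            field_simp
            ring
          have h14 : 1 / ((l : ℝ) + 1) ≤ 1 / l := one_div_le_one_div_of_le hl0 (by linarith)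
          linarith
        linarith)
      refine h2.trans ?_
      rw [abs_of_nonneg (by linarith)]
      have h15 : (h₀ + h₁) * (1 / (l : ℝ)) * (1 / l) = (h₀ + h₁) * (1 / (l : ℝ) ^ 2) := by
        field_simp
      rw [← h15]
      exact mul_le_mul_of_nonneg_left hlog (by positivity)
    · exact Continuous.intervalIntegrable (by fun_prop) _ _
    · exact Continuous.intervalIntegrable (by fun_prop) _ _
  · intro hX
    push Not at hX
    have h2 : Real.log ((l + 1 : ℕ) : ℝ) ≤ A := by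
      rw [Real.log_le_iff_le_exp (by positivity)]
      push_cast
      exact hX
    have h3 : ∫ v in Real.log l..Real.log ((l + 1 : ℕ) : ℝ),
        (h v : ℂ) * Complex.exp (-(u * v : ℝ) * Complex.I) = 0 := by
      have h4 : ∫ v in Real.log l..Real.log ((l + 1 : ℕ) : ℝ),
          (h v : ℂ) * Complex.exp (-(u * v : ℝ) * Complex.I) =
          ∫ _ in Real.log l..Real.log ((l + 1 : ℕ) : ℝ), (0 : ℂ) := by
        refine intervalIntegral.integral_congr fun v hv => ?_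
        rw [Set.uIcc_of_le hlog', Set.mem_Icc] at hv
        show (h v : ℂ) * _ = 0
        rw [hA v (hv.2.trans h2), Complex.ofReal_zero, zero_mul]
      rw [h4, intervalIntegral.integral_zero]
    rw [h3, EChar_H, hA _ h2, zero_div, Complex.ofReal_zero, zero_mul, sub_zero]

theorem EChar_int (h : ℝ → ℝ) (A u : ℝ) (N : ℕ) (hA0 : 0 ≤ A) (hN : 1 ≤ N)
    (hA : ∀ v, v ≤ A → h v = 0) (hlN : ∀ v, Real.log N ≤ v → h v = 0) (hc : Continuous h) :
    ∫ v : ℝ, (h v : ℂ) * Complex.exp (-(u * v : ℝ) * Complex.I) =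
      ∑ l ∈ Ico 1 N, ∫ v in Real.log l..Real.log ((l + 1 : ℕ) : ℝ),
        (h v : ℂ) * Complex.exp (-(u * v : ℝ) * Complex.I) := by
  have hf : Continuous fun v : ℝ => (h v : ℂ) * Complex.exp (-(u * v : ℝ) * Complex.I) := by
    fun_prop
  have h1 := intervalIntegral.sum_integral_adjacent_intervals_Ico
    (f := fun v : ℝ => (h v : ℂ) * Complex.exp (-(u * v : ℝ) * Complex.I)) (μ := volume)
    (a := fun k : ℕ => Real.log (k : ℝ)) hN (fun k _ => hf.intervalIntegrable _ _)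
  have hlog0 : 0 ≤ Real.log N := Real.log_natCast_nonneg N
  have h2 : ∫ v in Real.log ((1 : ℕ) : ℝ)..Real.log (N : ℝ),
      (h v : ℂ) * Complex.exp (-(u * v : ℝ) * Complex.I) =
      ∫ v : ℝ, (h v : ℂ) * Complex.exp (-(u * v : ℝ) * Complex.I) := by
    rw [Nat.cast_one, Real.log_one, intervalIntegral.integral_of_le hlog0]
    refine setIntegral_eq_integral_of_forall_compl_eq_zero fun v hv => ?_
    have h3 : h v = 0 := by
      rw [Set.mem_Ioc, not_and_or, not_lt, not_le] at hv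
      rcases hv with hv | hv
      · exact hA v (hv.trans hA0)
      · exact hlN v hv.le
    rw [h3, Complex.ofReal_zero, zero_mul]
  rw [← h2]
  exact h1.symm

/-- **Smooth sums.** `h` is bounded by `h₀`, Lipschitz with constant `h₁`, and vanishes outside of `[A, log N]`.

Proof. Abel summation with `S (y) = ∑_{l ≤ y} ψ (l) l ^ (- i u)` and `H (l) = h (log l) / l`,
`|H (l) - H (l + 1)| ≤ (h₀ + h₁) / l ^ 2`; for `l ≥ exp A` `chsum` applies. The sum is
`∑_l S (l) (H (l) - H (l + 1))`, the error terms contribute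
`C (h₀ + h₁) ∑_{l ≥ exp A - 1} l ^ (- 1 - κ) ≤ C' (h₀ + h₁) exp (- κ A)`. The main terms are summed back:
`∑_l H (l) φ(q) / q ∫_{l - 1}^l y ^ (- i u) dy`, which is `φ(q) / q ∫ h (log y) y ^ (- 1 - i u) dy + O ((h₀ + h₁) exp (- A))`, and
`y = exp v`. -/
theorem chsmooth (B : ℝ) (hB : 0 < B) : ∃ κ C : ℝ, 0 < κ ∧ κ < 1 / 8 ∧ 0 < C ∧
    ∀ (q N : ℕ) (ψ : DirichletCharacter ℂ q) (A u h₀ h₁ : ℝ) (h : ℝ → ℝ), 1 ≤ q → 0 ≤ A → 1 ≤ N →
      |u| ≤ Real.exp (B * A) → (q : ℝ) ≤ Real.exp (κ * A) → (∀ v, |h v| ≤ h₀) →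
      (∀ v w, |h v - h w| ≤ h₁ * |v - w|) → (∀ v, v ≤ A → h v = 0) → (∀ v, Real.log N ≤ v → h v = 0) →
        ‖(∑ l ∈ Icc 1 N, ((h (Real.log l) / l : ℝ) : ℂ) * ψ (l : ZMod q) * nit l u) -
          (open Classical in if ψ = 1 then ((q.totient / q : ℝ) : ℂ) *
            ∫ v : ℝ, (h v : ℂ) * Complex.exp (-(u * v : ℝ) * Complex.I) else 0)‖ ≤
          C * (h₀ + h₁) * Real.exp (-κ * A) := by
  obtain ⟨κ, C, hκ0, hκ1, hC, hs⟩ := chsum B hB
  refine ⟨κ, (2 * (C + 1) + 4) * (2 / κ), hκ0, hκ1, by positivity, ?_⟩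
  intro q N ψ A u h₀ h₁ h hq hA0 hN hu hqA hb hL hA hlN
  have hh1 : 0 ≤ h₁ := by
    have := (abs_nonneg _).trans (hL 0 1)
    norm_num at this
    exact this
  have hh0 : 0 ≤ h₀ := (abs_nonneg _).trans (hb 0)
  have hc : Continuous h := by
    have hlip : LipschitzWith ⟨h₁, hh1⟩ h := LipschitzWith.of_dist_le_mul fun v w => by
      rw [Real.dist_eq, Real.dist_eq]
      exact hL v w
    exact hlip.continuous
  set X := Real.exp A with hX
  have hX1 : 1 ≤ X := Real.one_le_exp hA0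
  have hX0 : 0 < X := by linarith
  have hd : (open Classical in if ψ = 1 then ((q.totient / q : ℝ) : ℂ) *
      ∫ v : ℝ, (h v : ℂ) * Complex.exp (-(u * v : ℝ) * Complex.I) else 0) =
      EChar_d q ψ * ∫ v : ℝ, (h v : ℂ) * Complex.exp (-(u * v : ℝ) * Complex.I) := by
    rw [EChar_d]
    split_ifs
    · rfl
    · rw [zero_mul]
  rw [hd, EChar_int h A u N hA0 hN hA hlN hc]
  set S : ℕ → ℂ := fun l => ∑ k ∈ Icc 1 l, ψ (k : ZMod q) * nit k u with hS
  have hHN : EChar_H h N = 0 := by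
    rw [EChar_H, hlN _ le_rfl, zero_div]
  have hH1 : EChar_H h 1 = 0 := by
    rw [EChar_H, Nat.cast_one, Real.log_one, hA 0 hA0, zero_div]
  have h1 : (∑ l ∈ Icc 1 N, ((h (Real.log l) / l : ℝ) : ℂ) * ψ (l : ZMod q) * nit l u) =
      -∑ l ∈ Ico 1 N, S l * ((EChar_H h (l + 1) - EChar_H h l : ℝ) : ℂ) := by
    have h2 := EChar_abel (fun l : ℕ => ψ (l : ZMod q) * nit l u)
      (fun l : ℕ => (EChar_H h l : ℂ)) N hN
    rw [hHN, Complex.ofReal_zero, mul_zero, zero_sub] at h2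
    have h3 : (∑ l ∈ Icc 1 N, ((h (Real.log l) / l : ℝ) : ℂ) * ψ (l : ZMod q) * nit l u) =
        ∑ l ∈ Icc 1 N, ψ (l : ZMod q) * nit l u * (EChar_H h l : ℂ) :=
      Finset.sum_congr rfl fun l _ => by
        rw [EChar_H]
        ring
    rw [h3, h2]
    congr 1
    refine Finset.sum_congr rfl fun l _ => ?_
    push_cast
    rfl
  have h4 : ∑ l ∈ Ico 1 N, (EChar_H h (l + 1) : ℂ) *
      (EChar_g u ((l + 1 : ℕ) : ℝ) - EChar_g u (l : ℝ)) =
      -∑ l ∈ Ico 1 N, EChar_g u (l : ℝ) * ((EChar_H h (l + 1) - EChar_H h l : ℝ) : ℂ) := by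
    rw [eq_neg_iff_add_eq_zero, ← Finset.sum_add_distrib]
    have h5 : ∀ l : ℕ, (EChar_H h (l + 1) : ℂ) *
        (EChar_g u ((l + 1 : ℕ) : ℝ) - EChar_g u (l : ℝ)) +
        EChar_g u (l : ℝ) * ((EChar_H h (l + 1) - EChar_H h l : ℝ) : ℂ) =
        (EChar_H h (l + 1) : ℂ) * EChar_g u ((l + 1 : ℕ) : ℝ) -
          (EChar_H h l : ℂ) * EChar_g u (l : ℝ) := by
      intro l
      push_cast
      ring
    rw [Finset.sum_congr rfl fun l _ => h5 l,
      Finset.sum_Ico_sub (fun l : ℕ => (EChar_H h l : ℂ) * EChar_g u (l : ℝ)) hN, hHN, hH1]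
    simp
  set P : ℕ → ℂ := fun l => (EChar_H h (l + 1) : ℂ) *
      (EChar_g u ((l + 1 : ℕ) : ℝ) - EChar_g u (l : ℝ)) -
      ∫ v in Real.log l..Real.log ((l + 1 : ℕ) : ℝ),
        (h v : ℂ) * Complex.exp (-(u * v : ℝ) * Complex.I) with hP
  have h6 : (∑ l ∈ Icc 1 N, ((h (Real.log l) / l : ℝ) : ℂ) * ψ (l : ZMod q) * nit l u) -
      EChar_d q ψ * ∑ l ∈ Ico 1 N, ∫ v in Real.log l..Real.log ((l + 1 : ℕ) : ℝ),
        (h v : ℂ) * Complex.exp (-(u * v : ℝ) * Complex.I) =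
      ∑ l ∈ Ico 1 N, (-((S l - EChar_d q ψ * EChar_g u (l : ℝ)) *
        ((EChar_H h (l + 1) - EChar_H h l : ℝ) : ℂ)) + EChar_d q ψ * P l) := by
    have h7 : ∑ l ∈ Ico 1 N, (-((S l - EChar_d q ψ * EChar_g u (l : ℝ)) *
        ((EChar_H h (l + 1) - EChar_H h l : ℝ) : ℂ)) + EChar_d q ψ * P l) =
        -∑ l ∈ Ico 1 N, S l * ((EChar_H h (l + 1) - EChar_H h l : ℝ) : ℂ) +
        EChar_d q ψ * (∑ l ∈ Ico 1 N, EChar_g u (l : ℝ) *
          ((EChar_H h (l + 1) - EChar_H h l : ℝ) : ℂ) + ∑ l ∈ Ico 1 N, P l) := by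
      rw [← Finset.sum_add_distrib, Finset.mul_sum, ← Finset.sum_neg_distrib,
        ← Finset.sum_add_distrib]
      refine Finset.sum_congr rfl fun l _ => ?_
      ring
    rw [h7, h1, hP, Finset.sum_sub_distrib, h4]
    ring
  rw [h6]
  have hpow : ∀ l : ℕ, 1 ≤ l → ((l : ℝ) + 1) ^ (-1 - κ) =
      ((l : ℝ) + 1) ^ (1 - κ) * (1 / ((l : ℝ) + 1) ^ 2) := by
    intro l hl
    have hl1 : (0 : ℝ) < (l : ℝ) + 1 := by positivity
    rw [show (-1 - κ) = (1 - κ) - (2 : ℝ) by ring, Real.rpow_sub hl1, Real.rpow_two]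
    ring
  have hterm : ∀ l ∈ Ico 1 N, ‖-((S l - EChar_d q ψ * EChar_g u (l : ℝ)) *
        ((EChar_H h (l + 1) - EChar_H h l : ℝ) : ℂ)) + EChar_d q ψ * P l‖ ≤
      ((2 * (C + 1) + 4) * (h₀ + h₁)) * EChar_t X κ l := by
    intro l hl
    have hl1 : 1 ≤ l := (mem_Ico.1 hl).1
    have hl0 : (1 : ℝ) ≤ l := by exact_mod_cast hl1
    obtain ⟨hD, hD'⟩ := EChar_dH h A h₀ h₁ hb hL hA l hl1
    obtain ⟨hQ, hQ'⟩ := EChar_piece h A u h₀ h₁ hb hL hA hc l hl1
    by_cases hXl : X < (l : ℝ) + 1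
    · have ht : EChar_t X κ l = ((l : ℝ) + 1) ^ (-1 - κ) := by
        rw [EChar_t, if_pos hXl]
      have hR : ‖S l - EChar_d q ψ * EChar_g u (l : ℝ)‖ ≤ (C + 1) * ((l : ℝ) + 1) ^ (1 - κ) := by
        have hx1 : 1 ≤ max (l : ℝ) X := le_max_of_le_left hl0
        have hxl : (l : ℝ) ≤ max (l : ℝ) X := le_max_left _ _
        have hxX : X ≤ max (l : ℝ) X := le_max_right _ _
        have hxu : max (l : ℝ) X < (l : ℝ) + 1 := max_lt (by linarith) hXl
        have hfl : ⌊max (l : ℝ) X⌋₊ = l := by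
          rw [Nat.floor_eq_iff (by linarith)]
          exact ⟨hxl, hxu⟩
        have h8 := hs q ψ (max (l : ℝ) X) u hq hx1
          (hu.trans (by
            rw [mul_comm, Real.exp_mul]
            exact Real.rpow_le_rpow hX0.le hxX hB.le))
          (hqA.trans (by
            rw [mul_comm, Real.exp_mul]
            exact Real.rpow_le_rpow hX0.le hxX hκ0.le))
        have hd' : (open Classical in if ψ = 1 then ((q.totient / q : ℝ) : ℂ) *
            (((max (l : ℝ) X : ℝ) : ℂ) ^ (1 - (u : ℂ) * Complex.I) /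
              (1 - (u : ℂ) * Complex.I)) else 0) =
            EChar_d q ψ * EChar_g u (max (l : ℝ) X) := by
          rw [EChar_d, EChar_g]
          split_ifs
          · rfl
          · rw [zero_mul]
        rw [hd', hfl] at h8
        have h9 := EChar_g_sub u (show (0 : ℝ) < l by linarith) hxl
        have h10 : S l - EChar_d q ψ * EChar_g u (l : ℝ) =
            (S l - EChar_d q ψ * EChar_g u (max (l : ℝ) X)) +
              EChar_d q ψ * (EChar_g u (max (l : ℝ) X) - EChar_g u (l : ℝ)) := by ring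
        rw [h10]
        refine (norm_add_le _ _).trans ?_
        rw [add_mul, one_mul]
        refine add_le_add (h8.trans ?_) ?_
        · exact mul_le_mul_of_nonneg_left
            (Real.rpow_le_rpow (by linarith) hxu.le (by linarith)) hC.le
        · rw [norm_mul]
          calc ‖EChar_d q ψ‖ * ‖EChar_g u (max (l : ℝ) X) - EChar_g u (l : ℝ)‖ ≤ 1 * 1 :=
                mul_le_mul (EChar_norm_d q hq ψ) (h9.trans (by linarith)) (norm_nonneg _)
                  zero_le_one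
            _ = 1 := one_mul 1
            _ ≤ ((l : ℝ) + 1) ^ (1 - κ) := Real.one_le_rpow (by linarith) (by linarith)
      have h11 : (1 : ℝ) / (l * (l + 1)) ≤ 2 * (1 / ((l : ℝ) + 1) ^ 2) := by
        rw [mul_one_div, div_le_div_iff₀ (by positivity) (by positivity)]
        nlinarith
      have h12 : (1 : ℝ) / (l : ℝ) ^ 2 ≤ 4 * (1 / ((l : ℝ) + 1) ^ 2) := by
        rw [mul_one_div, div_le_div_iff₀ (by positivity) (by positivity)]
        nlinarith
      have h13 : ‖(S l - EChar_d q ψ * EChar_g u (l : ℝ)) *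
          ((EChar_H h (l + 1) - EChar_H h l : ℝ) : ℂ)‖ ≤
          2 * (C + 1) * (h₀ + h₁) * ((l : ℝ) + 1) ^ (-1 - κ) := by
        rw [norm_mul, Complex.norm_real, Real.norm_eq_abs, hpow l hl1]
        calc _ ≤ ((C + 1) * ((l : ℝ) + 1) ^ (1 - κ)) *
              ((h₀ + h₁) * (2 * (1 / ((l : ℝ) + 1) ^ 2))) :=
              mul_le_mul hR (hD.trans (mul_le_mul_of_nonneg_left h11 (by positivity)))
                (abs_nonneg _) (by positivity)
          _ = _ := by ring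
      have h14 : ‖EChar_d q ψ * P l‖ ≤ 4 * (h₀ + h₁) * ((l : ℝ) + 1) ^ (-1 - κ) := by
        rw [norm_mul]
        have h15 : 1 / ((l : ℝ) + 1) ^ 2 ≤ ((l : ℝ) + 1) ^ (-1 - κ) := by
          rw [hpow l hl1]
          exact le_mul_of_one_le_left (by positivity)
            (Real.one_le_rpow (by linarith) (by linarith))
        calc ‖EChar_d q ψ‖ * ‖P l‖ ≤ 1 * ((h₀ + h₁) * (1 / (l : ℝ) ^ 2)) :=
              mul_le_mul (EChar_norm_d q hq ψ) hQ (norm_nonneg _) zero_le_one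
          _ = (h₀ + h₁) * (1 / (l : ℝ) ^ 2) := one_mul _
          _ ≤ (h₀ + h₁) * (4 * ((l : ℝ) + 1) ^ (-1 - κ)) :=
              mul_le_mul_of_nonneg_left (by linarith) (by positivity)
          _ = _ := by ring
      rw [ht]
      refine (norm_add_le _ _).trans ?_
      rw [norm_neg]
      linarith
    · have ht : EChar_t X κ l = 0 := by
        rw [EChar_t, if_neg hXl]
      have h8 : P l = 0 := hQ' hXl
      rw [ht, hD' hXl, h8]
      simp
  refine (norm_sum_le _ _).trans ((Finset.sum_le_sum hterm).trans ?_)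
  rw [← Finset.mul_sum]
  have h16 := EChar_tail X κ hX1 hκ0 (by linarith) N hN
  have h17 : Real.exp (-κ * A) = X ^ (-κ) := by
    rw [mul_comm, Real.exp_mul]
  rw [h17]
  calc (2 * (C + 1) + 4) * (h₀ + h₁) * ∑ l ∈ Ico 1 N, EChar_t X κ l
      ≤ (2 * (C + 1) + 4) * (h₀ + h₁) * (2 / κ * X ^ (-κ)) :=
        mul_le_mul_of_nonneg_left h16 (by positivity)
    _ = _ := by ring

end Pool.Agent.M58
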