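import Pool.Agent.W_b58c63_m1.Defs

/-!
# Ramanujan sums (helper68)
-/

set_option autoImplicit false

noncomputable section

open Finset

namespace Pool.Agent.M58

/-- The Ramanujan sum. -/
def cq (q : ℕ) (h : ℤ) : ℝ :=
  ∑ d ∈ q.divisors.filter (fun d : ℕ => (d : ℤ) ∣ h), (ArithmeticFunction.moebius (q / d) : ℝ) * d

/-- (Möbius inversion.) -/
theorem sum_cq (d : ℕ) (h : ℤ) (hd : 1 ≤ d) :
    ∑ q ∈ d.divisors, cq q h = if (d : ℤ) ∣ h then (d : ℝ) else 0 := by
  have h1 := (ArithmeticFunction.sum_eq_iff_sum_mul_moebius_eq (f := fun q => cq q h)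
    (g := fun n : ℕ => if (n : ℤ) ∣ h then (n : ℝ) else 0)).2 (fun n hn => by
      rw [Nat.sum_divisorsAntidiagonal' (fun a b : ℕ =>
        ((ArithmeticFunction.moebius a : ℤ) : ℝ) * (if (b : ℤ) ∣ h then (b : ℝ) else 0))]
      unfold cq
      rw [Finset.sum_filter]
      refine Finset.sum_congr rfl fun i _ => ?_
      split_ifs
      · rfl
      · rw [mul_zero])
  exact h1 d hd

theorem RA_ex_nat (x : ℝ) (a : ℕ) : ex (a * x) = ex x ^ a := by
  unfold ex
  rw [← Complex.exp_nat_mul]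
  congr 1
  push_cast
  ring

theorem RA_ex_norm (x : ℝ) : ‖ex x‖ = 1 := by
  unfold ex
  have h : 2 * (Real.pi : ℂ) * x * Complex.I = ((2 * Real.pi * x : ℝ) : ℂ) * Complex.I := by
    push_cast
    ring
  rw [h, Complex.norm_exp_ofReal_mul_I]

theorem RA_full (n : ℕ) (h : ℤ) (hn : 1 ≤ n) :
    ∑ a ∈ range n, ex ((a : ℝ) * h / n) = if (n : ℤ) ∣ h then (n : ℂ) else 0 := by
  have hn0 : (n : ℝ) ≠ 0 := by exact_mod_cast (by omega : n ≠ 0)
  have hnc : (n : ℂ) ≠ 0 := by exact_mod_cast (by omega : n ≠ 0)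
  have h1 : ∀ a : ℕ, ex ((a : ℝ) * h / n) = ex ((h : ℝ) / n) ^ a := by
    intro a
    rw [← RA_ex_nat]
    congr 1
    ring
  simp only [h1]
  have h2 : ex ((h : ℝ) / n) ^ n = 1 := by
    rw [← RA_ex_nat]
    unfold ex
    rw [Complex.exp_eq_one_iff]
    refine ⟨h, ?_⟩
    push_cast
    field_simp
  have h3 : ex ((h : ℝ) / n) = 1 ↔ (n : ℤ) ∣ h := by
    unfold ex
    rw [Complex.exp_eq_one_iff]
    constructor
    · rintro ⟨m, hm⟩
      refine ⟨m, ?_⟩
      have h4 : 2 * (Real.pi : ℂ) * Complex.I ≠ 0 := Complex.two_pi_I_ne_zero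
      have h5 : (((h : ℝ) / n : ℝ) : ℂ) * (2 * (Real.pi : ℂ) * Complex.I) =
          (m : ℂ) * (2 * (Real.pi : ℂ) * Complex.I) := by
        rw [← hm]
        ring
      have h6 := mul_right_cancel₀ h4 h5
      have h7 : ((h : ℝ) / n : ℝ) = (m : ℝ) := by exact_mod_cast h6
      rw [div_eq_iff hn0] at h7
      have h8 : (h : ℝ) = ((n * m : ℤ) : ℝ) := by
        push_cast
        rw [h7]
        ring
      exact_mod_cast h8
    · rintro ⟨m, rfl⟩
      refine ⟨m, ?_⟩
      push_cast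
      field_simp
  by_cases hd : (n : ℤ) ∣ h
  · rw [if_pos hd, h3.2 hd]
    simp
  · rw [if_neg hd]
    have h4 : ex ((h : ℝ) / n) ≠ 1 := fun hc => hd (h3.1 hc)
    rw [geom_sum_eq h4, h2, sub_self, zero_div]

theorem RA_fiber (n d : ℕ) (h : ℤ) (hn : 1 ≤ n) (hd : d ∈ n.divisors) :
    ∑ a ∈ (range n).filter (fun a => n / Nat.gcd a n = d), ex ((a : ℝ) * h / n) =
      ∑ a ∈ (range d).filter (fun a => a.Coprime d), ex ((a : ℝ) * h / d) := by
  obtain ⟨hdn, -⟩ := Nat.mem_divisors.1 hd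
  obtain ⟨g, rfl⟩ := hdn
  have hd0 : 0 < d := Nat.pos_of_ne_zero (by rintro rfl; simp at hn)
  have hg0 : 0 < g := Nat.pos_of_ne_zero (by rintro rfl; simp at hn)
  symm
  refine Finset.sum_bij (fun b _ => b * g) ?_ ?_ ?_ ?_
  · intro b hb
    rw [Finset.mem_filter, Finset.mem_range] at hb ⊢
    refine ⟨Nat.mul_lt_mul_of_pos_right hb.1 hg0, ?_⟩
    rw [Nat.gcd_mul_right, Nat.Coprime.gcd_eq_one hb.2, one_mul]
    exact Nat.mul_div_cancel _ hg0
  · intro a _ b _ hab
    exact Nat.eq_of_mul_eq_mul_right hg0 hab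
  · intro a ha
    rw [Finset.mem_filter, Finset.mem_range] at ha
    have h1 : Nat.gcd a (d * g) = g := by
      have h2 : d * g / Nat.gcd a (d * g) * Nat.gcd a (d * g) = d * g :=
        Nat.div_mul_cancel (Nat.gcd_dvd_right _ _)
      rw [ha.2] at h2
      exact Nat.eq_of_mul_eq_mul_left hd0 h2
    obtain ⟨b, hb⟩ : g ∣ a := by
      have h3 := Nat.gcd_dvd_left a (d * g)
      rwa [h1] at h3
    refine ⟨b, ?_, by rw [hb]; ring⟩
    rw [Finset.mem_filter, Finset.mem_range]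
    rw [hb, mul_comm d g, Nat.gcd_mul_left] at h1
    constructor
    · have h4 := ha.1
      rw [hb, mul_comm d g] at h4
      exact Nat.lt_of_mul_lt_mul_left h4
    · exact Nat.eq_of_mul_eq_mul_left hg0 (by rw [h1, mul_one])
  · intro b _
    congr 1
    have hdr : (d : ℝ) ≠ 0 := by exact_mod_cast hd0.ne'
    have hgr : (g : ℝ) ≠ 0 := by exact_mod_cast hg0.ne'
    push_cast
    field_simp

/-- (`∑_{a mod d} e (a h / d) = d [d ∣ h]`, and the fractions `a / d` with `d ∣ q` are the fractions with denominator `q` sorted by the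
reduced denominator.) -/
theorem cq_exp (q : ℕ) (h : ℤ) (hq : 1 ≤ q) :
    (cq q h : ℂ) = ∑ a ∈ (range q).filter (fun a => a.Coprime q), ex (a * h / q) := by
  have h1 := (ArithmeticFunction.sum_eq_iff_sum_mul_moebius_eq
    (f := fun q : ℕ => ∑ a ∈ (range q).filter (fun a => a.Coprime q), ex ((a : ℝ) * h / q))
    (g := fun n : ℕ => if (n : ℤ) ∣ h then (n : ℂ) else 0)).1 (fun n hn => by
      show ∑ i ∈ n.divisors, ∑ a ∈ (range i).filter (fun a => a.Coprime i),
        ex ((a : ℝ) * h / i) = if (n : ℤ) ∣ h then (n : ℂ) else 0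
      have e := Finset.sum_fiberwise_of_maps_to (s := range n) (g := fun a => n / Nat.gcd a n)
        (t := n.divisors) (fun a _ => Nat.mem_divisors.2
          ⟨Nat.div_dvd_of_dvd (Nat.gcd_dvd_right _ _), hn.ne'⟩)
        (fun a : ℕ => ex ((a : ℝ) * h / n))
      rw [← RA_full n h hn, ← e]
      exact Finset.sum_congr rfl fun d hd => (RA_fiber n d h hn hd).symm)
  rw [← h1 q hq, Nat.sum_divisorsAntidiagonal' (fun a b : ℕ =>
    ((ArithmeticFunction.moebius a : ℤ) : ℂ) * (if (b : ℤ) ∣ h then (b : ℂ) else 0))]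
  unfold cq
  rw [Finset.sum_filter]
  push_cast
  refine Finset.sum_congr rfl fun i _ => ?_
  split_ifs
  · push_cast
    rfl
  · push_cast
    ring

theorem abs_cq_le (q : ℕ) (h : ℤ) (hq : 1 ≤ q) : |cq q h| ≤ q := by
  rw [← Real.norm_eq_abs, ← Complex.norm_real, cq_exp q h hq]
  refine (norm_sum_le _ _).trans ?_
  rw [Finset.sum_congr rfl fun a _ => RA_ex_norm _, Finset.sum_const, nsmul_eq_mul, mul_one]
  have h1 := Finset.card_filter_le (range q) (fun a => a.Coprime q)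
  rw [Finset.card_range] at h1
  exact_mod_cast h1

end Pool.Agent.M58
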