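import Pool.Agent.W_b58c63_m1.EC
import Pool.Agent.W_b58c63_m1.RA
import Pool.Agent.W_b58c63_m1.EB

/-!
# The Fejér kernel at the fractions (helper68)
-/

set_option autoImplicit false

noncomputable section

open Finset

namespace Pool.Agent.M58

/-- The triangle. -/
def tri (H : ℕ) (h : ℤ) : ℝ := max 0 ((H : ℝ) - |(h : ℝ)|) / (H : ℝ) ^ 2

def Dk (H : ℕ) (β : ℝ) : ℝ := ‖∑ h ∈ range H, ex (h * β)‖ ^ 2 / (H : ℝ) ^ 2

/-- Sums over differences. -/
theorem ED_conv (f : ℤ → ℂ) (H : ℕ) : ∑ j ∈ range H, ∑ j' ∈ range H, f ((j : ℤ) - j') =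
    ∑ h ∈ Icc (-(H : ℤ)) H, ((max 0 ((H : ℝ) - |(h : ℝ)|) : ℝ) : ℂ) * f h := by
  induction H with
  | zero => simp
  | succ H ih =>
    have h1 : ∑ j ∈ range (H + 1), ∑ j' ∈ range (H + 1), f ((j : ℤ) - j') =
        ∑ j ∈ range H, ∑ j' ∈ range H, f ((j : ℤ) - j') +
          (∑ j ∈ range H, f ((j : ℤ) - H) + ∑ j' ∈ range (H + 1), f ((H : ℤ) - j')) := by
      rw [Finset.sum_range_succ (fun j => ∑ j' ∈ range (H + 1), f ((j : ℤ) - j')), ← add_assoc]
      congr 1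
      rw [← Finset.sum_add_distrib]
      refine Finset.sum_congr rfl fun j _ => ?_
      rw [Finset.sum_range_succ]
    have hA : ∑ j ∈ range H, f ((j : ℤ) - H) = ∑ h ∈ Ico (-(H : ℤ)) 0, f h := by
      refine Finset.sum_nbij' (fun j => (j : ℤ) - H) (fun h => (h + H).toNat) ?_ ?_ ?_ ?_ ?_
      · intro j hj
        rw [Finset.mem_range] at hj
        rw [Finset.mem_Ico]
        omega
      · intro h hh
        rw [Finset.mem_Ico] at hh
        rw [Finset.mem_range]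
        omega
      · intro j hj
        rw [Finset.mem_range] at hj
        show ((j : ℤ) - H + H).toNat = j
        omega
      · intro h hh
        rw [Finset.mem_Ico] at hh
        show (((h + H).toNat : ℕ) : ℤ) - H = h
        omega
      · intro j _
        rfl
    have hB : ∑ j' ∈ range (H + 1), f ((H : ℤ) - j') = ∑ h ∈ Icc 0 (H : ℤ), f h := by
      refine Finset.sum_nbij' (fun j => (H : ℤ) - j) (fun h => ((H : ℤ) - h).toNat) ?_ ?_ ?_ ?_ ?_
      · intro j hj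
        rw [Finset.mem_range] at hj
        rw [Finset.mem_Icc]
        omega
      · intro h hh
        rw [Finset.mem_Icc] at hh
        rw [Finset.mem_range]
        omega
      · intro j hj
        rw [Finset.mem_range] at hj
        show ((H : ℤ) - ((H : ℤ) - j)).toNat = j
        omega
      · intro h hh
        rw [Finset.mem_Icc] at hh
        show (H : ℤ) - ((((H : ℤ) - h).toNat : ℕ) : ℤ) = h
        omega
      · intro j _
        rfl
    have hC : ∑ h ∈ Ico (-(H : ℤ)) 0, f h + ∑ h ∈ Icc 0 (H : ℤ), f h = ∑ h ∈ Icc (-(H : ℤ)) H, f h := by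
      rw [← Finset.sum_union]
      · refine Finset.sum_congr ?_ fun _ _ => rfl
        ext h
        rw [Finset.mem_union, Finset.mem_Ico, Finset.mem_Icc, Finset.mem_Icc]
        omega
      · rw [Finset.disjoint_left]
        intro h h1 h2
        rw [Finset.mem_Ico] at h1
        rw [Finset.mem_Icc] at h2
        omega
    have hsub : Icc (-(H : ℤ)) H ⊆ Icc (-((H + 1 : ℕ) : ℤ)) ((H + 1 : ℕ) : ℤ) := by
      intro h hh
      rw [Finset.mem_Icc] at hh ⊢
      push_cast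
      omega
    rw [h1, ih, hA, hB, hC, ← Finset.sum_subset hsub, ← Finset.sum_add_distrib]
    · refine Finset.sum_congr rfl fun h hh => ?_
      rw [Finset.mem_Icc] at hh
      have h2 : |(h : ℝ)| ≤ H := by
        rw [abs_le]
        constructor
        · exact_mod_cast hh.1
        · exact_mod_cast hh.2
      have h3 : max 0 ((H : ℝ) - |(h : ℝ)|) = (H : ℝ) - |(h : ℝ)| := max_eq_right (by linarith)
      have h4 : max 0 (((H + 1 : ℕ) : ℝ) - |(h : ℝ)|) = (H : ℝ) - |(h : ℝ)| + 1 := by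
        push_cast
        rw [max_eq_right (by linarith)]
        ring
      rw [h3, h4]
      push_cast
      ring
    · intro h hh hh2
      rw [Finset.mem_Icc] at hh hh2
      have h2 : ((H + 1 : ℕ) : ℝ) ≤ |(h : ℝ)| := by
        have h3 : ((H + 1 : ℕ) : ℤ) ≤ |h| := by
          push_cast at hh ⊢
          rcases le_total 0 h with h4 | h4
          · rw [abs_of_nonneg h4]
            omega
          · rw [abs_of_nonpos h4]
            omega
        have h5 : (((H + 1 : ℕ) : ℤ) : ℝ) ≤ ((|h| : ℤ) : ℝ) := by exact_mod_cast h3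
        rw [Int.cast_abs] at h5
        exact_mod_cast h5
      rw [max_eq_left (by linarith), Complex.ofReal_zero, zero_mul]

theorem ED_four (H : ℕ) (β : ℝ) :
    ∑ h ∈ Icc (-(H : ℤ)) H, (tri H h : ℂ) * ex (h * β) = (Dk H β : ℂ) := by
  have h1 : ((‖∑ h ∈ range H, ex (h * β)‖ ^ 2 : ℝ) : ℂ) =
      ∑ j ∈ range H, ∑ j' ∈ range H, ex ((((j : ℤ) - j' : ℤ) : ℝ) * β) := by
    rw [Complex.ofReal_pow, ← Complex.mul_conj', map_sum, Finset.sum_mul_sum]
    refine Finset.sum_congr rfl fun j _ => Finset.sum_congr rfl fun j' _ => ?_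
    rw [EWeyl_conj]
    congr 1
    push_cast
    ring
  rw [ED_conv (fun h => ex ((h : ℝ) * β)) H] at h1
  unfold Dk
  rw [Complex.ofReal_div, h1, Finset.sum_div]
  refine Finset.sum_congr rfl fun h _ => ?_
  unfold tri
  push_cast
  ring

theorem ED_ex_zero : ex 0 = 1 := by
  unfold ex
  simp

theorem ED_sum_one (H : ℕ) (hH : 1 ≤ H) : ∑ h ∈ Icc (-(H : ℤ)) H, tri H h = 1 := by
  have h1 := ED_four H 0
  have hH0 : (H : ℝ) ≠ 0 := by
    have : H ≠ 0 := by omega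
    exact_mod_cast this
  have h2 : Dk H 0 = 1 := by
    unfold Dk
    simp only [mul_zero, ED_ex_zero, Finset.sum_const, Finset.card_range, nsmul_eq_mul, mul_one, Complex.norm_natCast]
    field_simp
  rw [h2] at h1
  simp only [mul_zero, ED_ex_zero, mul_one] at h1
  apply Complex.ofReal_injective
  rw [Complex.ofReal_sum]
  exact h1

theorem ED_tri (H : ℕ) (hH : 1 ≤ H) (h : ℤ) : 0 ≤ tri H h ∧ tri H h ≤ 1 / H := by
  have hH0 : (0 : ℝ) < H := by exact_mod_cast hH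
  unfold tri
  constructor
  · exact div_nonneg (le_max_left _ _) (by positivity)
  · rw [div_le_div_iff₀ (by positivity) hH0]
    have h1 : max 0 ((H : ℝ) - |(h : ℝ)|) ≤ H := max_le hH0.le (by linarith [abs_nonneg (h : ℝ)])
    nlinarith

theorem tri_four (H : ℕ) (hH : 1 ≤ H) (β : ℝ) :
    (∑ h ∈ Icc (-(H : ℤ)) H, (tri H h : ℂ) * ex (h * β) = (Dk H β : ℂ)) ∧
    (∑ h ∈ Icc (-(H : ℤ)) H, tri H h = 1) ∧ (∀ h, 0 ≤ tri H h ∧ tri H h ≤ 1 / H) :=
  ⟨ED_four H β, ED_sum_one H hH, ED_tri H hH⟩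

theorem ED_re (y : ℝ) : (ex y).re = Real.cos (2 * Real.pi * y) := by
  have h : ex y = Complex.exp (((2 * Real.pi * y : ℝ) : ℂ) * Complex.I) := by
    unfold ex
    congr 1
    push_cast
    ring
  rw [h, Complex.exp_ofReal_mul_I_re]

theorem ED_cos (h : ℤ) (β : ℝ) : Real.cos (2 * Real.pi * (h * β)) = Real.cos (2 * Real.pi * (h * (β - round β))) := by
  have h1 : 2 * Real.pi * ((h : ℝ) * β) = 2 * Real.pi * (h * (β - round β)) + ((h * round β : ℤ) : ℝ) * (2 * Real.pi) := by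
    push_cast
    ring
  rw [h1, Real.cos_add_int_mul_two_pi]

theorem ED_geom (H : ℕ) (β : ℝ) : ‖∑ h ∈ range H, ex (h * β)‖ * dn β ≤ 1 := by
  simp only [EC_ex]
  have h1 := congrArg norm (Pool.Agent.Wb58c63.LSa_geom H β)
  rw [norm_mul] at h1
  have h2 : ‖Wb58c63.ee (H * β) - 1‖ ≤ 2 := by
    refine (norm_sub_le _ _).trans ?_
    rw [Pool.Agent.Wb58c63.norm_ee, norm_one]
    norm_num
  have h3 := Pool.Agent.Wb58c63.LSa_ee_sub β
  have h4 : 0 ≤ dn β := abs_nonneg _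
  have h5 := norm_nonneg (∑ j ∈ range H, Wb58c63.ee (j * β))
  have h6 := mul_le_mul_of_nonneg_left h3 h5
  nlinarith [mul_nonneg h5 h4]

/-- (`1 - Dk = ∑ tri h (1 - cos (2 π h β)) ≤ 2 π ^ 2 H ^ 2 β ^ 2`; geometric sum.) -/
theorem Dk_props (H : ℕ) (hH : 1 ≤ H) (β : ℝ) : 0 ≤ Dk H β ∧ Dk H β ≤ 1 ∧ Dk H β * (H * dn β) ^ 2 ≤ 1 ∧
    1 - Dk H β ≤ 40 * (H * dn β) ^ 2 := by
  have hH0 : (0 : ℝ) < H := by exact_mod_cast hH
  have hdn : 0 ≤ dn β := abs_nonneg _
  refine ⟨?_, ?_, ?_, ?_⟩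
  · unfold Dk
    positivity
  · unfold Dk
    rw [div_le_one (by positivity)]
    apply pow_le_pow_left₀ (norm_nonneg _)
    refine (norm_sum_le _ _).trans ?_
    simp only [EC_norm, Finset.sum_const, Finset.card_range, nsmul_eq_mul, mul_one]
    exact le_rfl
  · have h1 : Dk H β * (H * dn β) ^ 2 = (‖∑ h ∈ range H, ex (h * β)‖ * dn β) ^ 2 := by
      unfold Dk
      generalize ‖∑ h ∈ range H, ex (h * β)‖ = S
      field_simp
    rw [h1]
    exact pow_le_one₀ (mul_nonneg (norm_nonneg _) hdn) (ED_geom H β)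
  · have h1 : Dk H β = ∑ h ∈ Icc (-(H : ℤ)) H, tri H h * Real.cos (2 * Real.pi * (h * β)) := by
      have h2 := congrArg Complex.re (ED_four H β)
      rw [Complex.ofReal_re, Complex.re_sum] at h2
      rw [← h2]
      refine Finset.sum_congr rfl fun h _ => ?_
      rw [Complex.re_ofReal_mul, ED_re]
    have h2 : 1 - Dk H β = ∑ h ∈ Icc (-(H : ℤ)) H, tri H h * (1 - Real.cos (2 * Real.pi * (h * β))) := by
      rw [h1]
      nth_rewrite 1 [← ED_sum_one H hH]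
      rw [← Finset.sum_sub_distrib]
      refine Finset.sum_congr rfl fun h _ => ?_
      ring
    rw [h2]
    have h3 : ∀ h ∈ Icc (-(H : ℤ)) H, tri H h * (1 - Real.cos (2 * Real.pi * (h * β))) ≤ tri H h * (40 * (H * dn β) ^ 2) := by
      intro h hh
      apply mul_le_mul_of_nonneg_left _ (ED_tri H hH h).1
      rw [ED_cos]
      have h4 := Real.one_sub_sq_div_two_le_cos (x := 2 * Real.pi * (h * (β - round β)))
      have h5 : (2 * Real.pi * ((h : ℝ) * (β - round β))) ^ 2 / 2 ≤ 40 * (H * dn β) ^ 2 := by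
        have h6 : ((h : ℝ) * (β - round β)) ^ 2 ≤ (H * dn β) ^ 2 := by
          rw [mul_pow, mul_pow]
          have h7 : (h : ℝ) ^ 2 ≤ (H : ℝ) ^ 2 := by
            rw [Finset.mem_Icc] at hh
            apply sq_le_sq'
            · exact_mod_cast hh.1
            · exact_mod_cast hh.2
          have h8 : (β - round β) ^ 2 = dn β ^ 2 := by
            unfold dn
            rw [sq_abs]
          rw [h8]
          exact mul_le_mul_of_nonneg_right h7 (by positivity)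
        have h9 : Real.pi ^ 2 ≤ 10 := by
          have := Real.pi_lt_d2
          have := Real.pi_pos
          nlinarith
        have h10 : 0 ≤ (H * dn β) ^ 2 := by positivity
        calc (2 * Real.pi * ((h : ℝ) * (β - round β))) ^ 2 / 2 = 2 * Real.pi ^ 2 * ((h : ℝ) * (β - round β)) ^ 2 := by ring
          _ ≤ 2 * 10 * (H * dn β) ^ 2 := by
              apply mul_le_mul _ h6 (by positivity) (by norm_num)
              linarith
          _ ≤ 40 * (H * dn β) ^ 2 := by linarith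
      linarith
    refine (Finset.sum_le_sum h3).trans ?_
    rw [← Finset.sum_mul, ED_sum_one H hH, one_mul]

/-- The kernel. -/
def KP (P H : ℕ) (α : ℝ) : ℝ := ∑ q ∈ Icc 1 P, ∑ a ∈ (range q).filter (fun a => a.Coprime q), Dk H (α + a / q)

/-- It is the Fourier transform of the triangle times the Ramanujan sums (`cq_exp`, `tri_four`). -/
theorem KP_four (P H : ℕ) (hH : 1 ≤ H) (α : ℝ) :
    ∑ h ∈ Icc (-(H : ℤ)) H, ((tri H h * ∑ q ∈ Icc 1 P, cq q h : ℝ) : ℂ) * ex (h * α) = (KP P H α : ℂ) := by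
  have h1 : ∀ h ∈ Icc (-(H : ℤ)) H, ((tri H h * ∑ q ∈ Icc 1 P, cq q h : ℝ) : ℂ) * ex (h * α) =
      ∑ q ∈ Icc 1 P, ∑ a ∈ (range q).filter (fun a => a.Coprime q), (tri H h : ℂ) * ex (h * (α + a / q)) := by
    intro h _
    push_cast
    rw [Finset.mul_sum, Finset.sum_mul]
    refine Finset.sum_congr rfl fun q hq => ?_
    rw [cq_exp q h (Finset.mem_Icc.1 hq).1, Finset.mul_sum, Finset.sum_mul]
    refine Finset.sum_congr rfl fun a _ => ?_
    have h2 : (h : ℝ) * (α + a / q) = (a : ℝ) * (h : ℝ) / q + h * α := by ring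
    rw [h2, EC_ex_add]
    ring
  rw [Finset.sum_congr rfl h1, Finset.sum_comm]
  unfold KP
  rw [Complex.ofReal_sum]
  refine Finset.sum_congr rfl fun q _ => ?_
  rw [Finset.sum_comm, Complex.ofReal_sum]
  refine Finset.sum_congr rfl fun a _ => ?_
  exact ED_four H (α + a / q)

theorem ED_dn_int (x : ℝ) (n : ℤ) : dn (x - n) = dn x := by
  unfold dn
  rw [round_sub_intCast]
  congr 1
  push_cast
  ring

theorem ED_dn_le (x : ℝ) : dn x ≤ |x| := by
  have h := round_le x 0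
  unfold dn
  simpa using h

open Classical in
/-- The structure of the kernel. -/
theorem ED_KP (P H : ℕ) (hP : 1 ≤ P) (hH : 1 ≤ H) (α : ℝ) :
    ∃ i₀ : Option ((_ : ℕ) × ℕ), (0 ≤ KP P H α ∧ KP P H α ≤ 1 + 32 * ((P : ℝ) ^ 2) ^ 2 / (H : ℝ) ^ 2) ∧
      ∀ (q a : ℕ), q ∈ Icc 1 P → a < q → a.Coprime q → dn (α + a / q) < 1 / (2 * (P : ℝ) ^ 2) →
        |1 - KP P H α| ≤ 40 * (H * dn (α + a / q)) ^ 2 + 32 * ((P : ℝ) ^ 2) ^ 2 / (H : ℝ) ^ 2 := by
  have hH0 : (0 : ℝ) < H := by exact_mod_cast hH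
  have hP1 : (1 : ℝ) ≤ P := by exact_mod_cast hP
  set s := (Icc 1 P).sigma (fun q => (range q).filter (fun a => a.Coprime q)) with hs
  set x : ((_ : ℕ) × ℕ) → ℝ := fun p => α + (p.2 : ℝ) / p.1 with hx
  have hKP : KP P H α = ∑ p ∈ s, Dk H (x p) := by
    rw [hs, Finset.sum_sigma]
    rfl
  have hD : (1 : ℝ) ≤ (P : ℝ) ^ 2 := one_le_pow₀ hP1
  obtain ⟨i₀, -, h2, h3⟩ := spaced_sum s x ((P : ℝ) ^ 2) hD (by
    rintro ⟨q, a⟩ hi ⟨q', a'⟩ hj hij
    rw [hs, Finset.mem_sigma, Finset.mem_filter, Finset.mem_range, Finset.mem_Icc] at hi hj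
    obtain ⟨⟨hq1, hqP⟩, haq, hac⟩ := hi
    obtain ⟨⟨hq1', hqP'⟩, haq', hac'⟩ := hj
    have e1 := EB_frac q a q' a' hq1 hq1' haq haq' hac hac' (by
      rintro ⟨rfl, rfl⟩
      exact hij rfl)
    have e2 : α + (a : ℝ) / q - (α + (a' : ℝ) / q') = (a : ℝ) / q - (a' : ℝ) / q' := by ring
    show 1 / (P : ℝ) ^ 2 ≤ dn (α + (a : ℝ) / q - (α + (a' : ℝ) / q'))
    rw [e2]
    refine le_trans ?_ e1
    apply div_le_div_of_nonneg_left (by norm_num)
    · have : 0 < q * q' := Nat.mul_pos hq1 hq1'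
      exact_mod_cast this
    · have : q * q' ≤ P ^ 2 := by
        rw [sq]
        exact Nat.mul_le_mul hqP hqP'
      exact_mod_cast this)
  have hpos : ∀ p, 0 ≤ Dk H (x p) := fun p => (Dk_props H hH (x p)).1
  have hoth0 : 0 ≤ ∑ p ∈ s.filter (fun i => some i ≠ i₀), Dk H (x p) := Finset.sum_nonneg fun p _ => hpos p
  have hoth : ∑ p ∈ s.filter (fun i => some i ≠ i₀), Dk H (x p) ≤ 32 * ((P : ℝ) ^ 2) ^ 2 / (H : ℝ) ^ 2 := by
    calc _ ≤ ∑ p ∈ s.filter (fun i => some i ≠ i₀), 1 / (H : ℝ) ^ 2 * (1 / dn (x p) ^ 2) := by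
          refine Finset.sum_le_sum fun p hp => ?_
          rw [Finset.mem_filter] at hp
          have e1 : 0 < dn (x p) := lt_of_lt_of_le (by positivity) (h2 p hp.1 hp.2)
          have e2 := (Dk_props H hH (x p)).2.2.1
          rw [one_div_mul_one_div, le_div_iff₀ (by positivity)]
          calc Dk H (x p) * ((H : ℝ) ^ 2 * dn (x p) ^ 2) = Dk H (x p) * (H * dn (x p)) ^ 2 := by ring
            _ ≤ 1 := e2
      _ = 1 / (H : ℝ) ^ 2 * ∑ p ∈ s.filter (fun i => some i ≠ i₀), 1 / dn (x p) ^ 2 := by rw [Finset.mul_sum]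
      _ ≤ 1 / (H : ℝ) ^ 2 * (32 * ((P : ℝ) ^ 2) ^ 2) :=
          mul_le_mul_of_nonneg_left (le_trans (le_of_eq (by congr!)) h3) (by positivity)
      _ = _ := by ring
  have hsplit : KP P H α = ∑ p ∈ s.filter (fun i => some i ≠ i₀), Dk H (x p) +
      ∑ p ∈ s.filter (fun i => ¬ some i ≠ i₀), Dk H (x p) := by
    rw [hKP, Finset.sum_filter_add_sum_filter_not]
  have hcard : (s.filter (fun i => ¬ some i ≠ i₀)).card ≤ 1 := by
    rw [Finset.card_le_one]
    intro a ha b hb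
    rw [Finset.mem_filter, not_not] at ha hb
    exact Option.some_injective _ (ha.2.trans hb.2.symm)
  have hone0 : 0 ≤ ∑ p ∈ s.filter (fun i => ¬ some i ≠ i₀), Dk H (x p) := Finset.sum_nonneg fun p _ => hpos p
  have hone : ∑ p ∈ s.filter (fun i => ¬ some i ≠ i₀), Dk H (x p) ≤ 1 := by
    calc _ ≤ ∑ p ∈ s.filter (fun i => ¬ some i ≠ i₀), (1 : ℝ) := Finset.sum_le_sum fun p _ => (Dk_props H hH (x p)).2.1
      _ = ((s.filter (fun i => ¬ some i ≠ i₀)).card : ℝ) := by rw [Finset.sum_const, nsmul_eq_mul, mul_one]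
      _ ≤ 1 := by exact_mod_cast hcard
  refine ⟨i₀, ⟨by linarith, by linarith⟩, ?_⟩
  intro q a hq haq hac hdn
  have hmem : (⟨q, a⟩ : (_ : ℕ) × ℕ) ∈ s := by
    rw [hs, Finset.mem_sigma, Finset.mem_filter, Finset.mem_range]
    exact ⟨hq, haq, hac⟩
  have hi : some (⟨q, a⟩ : (_ : ℕ) × ℕ) = i₀ := by
    by_contra hc
    have e1 := h2 ⟨q, a⟩ hmem hc
    have e2 : x ⟨q, a⟩ = α + (a : ℝ) / q := rfl
    rw [e2] at e1
    linarith
  have hval : ∑ p ∈ s.filter (fun i => ¬ some i ≠ i₀), Dk H (x p) = Dk H (α + a / q) := by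
    have e1 : s.filter (fun i => ¬ some i ≠ i₀) = {(⟨q, a⟩ : (_ : ℕ) × ℕ)} := by
      ext p
      rw [Finset.mem_filter, not_not, Finset.mem_singleton]
      constructor
      · rintro ⟨-, e2⟩
        exact Option.some_injective _ (e2.trans hi.symm)
      · rintro rfl
        exact ⟨hmem, hi⟩
    rw [e1, Finset.sum_singleton]
  have hD2 := Dk_props H hH (α + a / q)
  rw [hsplit, hval, abs_le]
  have hrhs : 0 ≤ 40 * (H * dn (α + a / q)) ^ 2 := by positivity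
  constructor
  · linarith [hD2.2.1]
  · linarith [hD2.2.2.2]

/-- (The fractions are `Y ^ (- 2 δ)`-spaced: `spaced_sum`; all but one contribute in total at most
`32 Y ^ (4 δ) / H ^ 2`.) -/
theorem KP_props (δ : ℝ) (hδ : 0 < δ) (hδ1 : δ ≤ 1 / 20) : ∃ Y₀ : ℝ, 3 ≤ Y₀ ∧ ∀ Y α : ℝ, Y₀ ≤ Y →
    0 ≤ KP ⌊Y ^ δ⌋₊ ⌊Y ^ (1 - δ)⌋₊ α ∧ KP ⌊Y ^ δ⌋₊ ⌊Y ^ (1 - δ)⌋₊ α ≤ 3 ∧
    ∀ (r : ℤ) (q : ℕ), q ∈ Icc 1 ⌊Y ^ δ⌋₊ → IsCoprime r (q : ℤ) → |α - r / q| ≤ Y ^ (-1 + δ / 4) →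
      |1 - KP ⌊Y ^ δ⌋₊ ⌊Y ^ (1 - δ)⌋₊ α| ≤ Y ^ (-δ) := by
  have h168 : (0 : ℝ) ≤ (168 : ℝ) ^ (2 / δ) := by positivity
  refine ⟨16 + (168 : ℝ) ^ (2 / δ), by linarith, ?_⟩
  intro Y α hY
  have hY16 : 16 ≤ Y := by linarith
  have hY1 : 1 ≤ Y := by linarith
  have hY0 : 0 < Y := by linarith
  have hYδ : 168 ≤ Y ^ (δ / 2) := by
    calc (168 : ℝ) = ((168 : ℝ) ^ (2 / δ)) ^ (δ / 2) := by
          rw [← Real.rpow_mul (by norm_num)]
          have h9 : 2 / δ * (δ / 2) = 1 := by field_simp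
          rw [h9, Real.rpow_one]
      _ ≤ Y ^ (δ / 2) := Real.rpow_le_rpow h168 (by linarith) (by positivity)
  have hYh : 4 ≤ Y ^ (1 / 2 : ℝ) := by
    calc (4 : ℝ) = (16 : ℝ) ^ (1 / 2 : ℝ) := by
          rw [show (16 : ℝ) = 4 ^ (2 : ℝ) by norm_num, ← Real.rpow_mul (by norm_num)]
          norm_num
      _ ≤ Y ^ (1 / 2 : ℝ) := Real.rpow_le_rpow (by norm_num) hY16 (by norm_num)
  set P := ⌊Y ^ δ⌋₊ with hP
  set H := ⌊Y ^ (1 - δ)⌋₊ with hH
  have hP1 : 1 ≤ P := by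
    rw [hP, Nat.one_le_floor_iff]
    exact Real.one_le_rpow hY1 hδ.le
  have hPY : (P : ℝ) ≤ Y ^ δ := Nat.floor_le (by positivity)
  have hP0 : (1 : ℝ) ≤ P := by exact_mod_cast hP1
  have hHY : (H : ℝ) ≤ Y ^ (1 - δ) := Nat.floor_le (by positivity)
  have hY1δ : 4 ≤ Y ^ (1 - δ) := hYh.trans (Real.rpow_le_rpow_of_exponent_le hY1 (by linarith))
  have hHY2 : Y ^ (1 - δ) / 2 ≤ H := by
    have : Y ^ (1 - δ) < H + 1 := Nat.lt_floor_add_one _
    linarith
  have hH1 : 1 ≤ H := by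
    have : (1 : ℝ) ≤ H := by linarith
    exact_mod_cast this
  have hH0 : (0 : ℝ) < H := by exact_mod_cast hH1
  have hρ : 32 * ((P : ℝ) ^ 2) ^ 2 / (H : ℝ) ^ 2 ≤ 128 * Y ^ (-(3 * δ / 2)) := by
    have e1 : ((P : ℝ) ^ 2) ^ 2 ≤ Y ^ (4 * δ) := by
      calc ((P : ℝ) ^ 2) ^ 2 = (P : ℝ) ^ 4 := by ring
        _ ≤ (Y ^ δ) ^ 4 := pow_le_pow_left₀ (by linarith) hPY 4
        _ = Y ^ (4 * δ) := by
            rw [← Real.rpow_natCast, ← Real.rpow_mul hY0.le]
            congr 1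
            push_cast
            ring
    have e2 : Y ^ (2 - 2 * δ) / 4 ≤ (H : ℝ) ^ 2 := by
      calc Y ^ (2 - 2 * δ) / 4 = (Y ^ (1 - δ) / 2) ^ 2 := by
            rw [div_pow, ← Real.rpow_natCast (Y ^ (1 - δ)), ← Real.rpow_mul hY0.le]
            congr 1
            · congr 1
              push_cast
              ring
            · norm_num
        _ ≤ (H : ℝ) ^ 2 := pow_le_pow_left₀ (by positivity) hHY2 2
    calc 32 * ((P : ℝ) ^ 2) ^ 2 / (H : ℝ) ^ 2 ≤ 32 * Y ^ (4 * δ) / (Y ^ (2 - 2 * δ) / 4) := by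
          apply div_le_div₀ (by positivity) _ (by positivity) e2
          exact mul_le_mul_of_nonneg_left e1 (by norm_num)
      _ = 128 * (Y ^ (4 * δ) / Y ^ (2 - 2 * δ)) := by
          field_simp
          norm_num
      _ = 128 * Y ^ (4 * δ - (2 - 2 * δ)) := by rw [Real.rpow_sub hY0 (4 * δ) (2 - 2 * δ)]
      _ ≤ 128 * Y ^ (-(3 * δ / 2)) := by
          apply mul_le_mul_of_nonneg_left _ (by norm_num)
          apply Real.rpow_le_rpow_of_exponent_le hY1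
          linarith
  have h32 : 168 * Y ^ (-(3 * δ / 2)) ≤ Y ^ (-δ) := by
    calc 168 * Y ^ (-(3 * δ / 2)) ≤ Y ^ (δ / 2) * Y ^ (-(3 * δ / 2)) :=
          mul_le_mul_of_nonneg_right hYδ (Real.rpow_nonneg hY0.le _)
      _ = Y ^ (-δ) := by
          rw [← Real.rpow_add hY0]
          congr 1
          ring
  have hYneg : Y ^ (-δ) ≤ 1 := Real.rpow_le_one_of_one_le_of_nonpos hY1 (by linarith)
  have h3pos : 0 ≤ Y ^ (-(3 * δ / 2)) := Real.rpow_nonneg hY0.le _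
  obtain ⟨i₀, ⟨k1, k2⟩, k3⟩ := ED_KP P H hP1 hH1 α
  refine ⟨k1, by linarith, ?_⟩
  intro r q hq hrq hα
  have hq1 := (Finset.mem_Icc.1 hq).1
  have hqz : (0 : ℤ) < q := by exact_mod_cast hq1
  have hq0 : (0 : ℝ) < q := by exact_mod_cast hq1
  obtain ⟨a, ha⟩ : ∃ a : ℕ, (a : ℤ) = (-r) % q := ⟨((-r) % q).toNat, Int.toNat_of_nonneg (Int.emod_nonneg _ hqz.ne')⟩
  have haq : a < q := by
    have := Int.emod_lt_of_pos (-r) hqz
    rw [← ha] at this
    exact_mod_cast this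
  have hac : a.Coprime q := by
    have e1 : IsCoprime (a : ℤ) (q : ℤ) := by
      have e2 : (a : ℤ) = -r + q * (-((-r) / q)) := by
        rw [ha]
        have := Int.emod_add_mul_ediv (-r) q
        linarith
      rw [e2]
      exact (IsCoprime.neg_left hrq).add_mul_left_left _
    exact Nat.isCoprime_iff_coprime.1 e1
  have hdn : dn (α + a / q) = dn (α - r / q) := by
    have e2 : (a : ℝ) = -r - q * (((-r) / (q : ℤ) : ℤ) : ℝ) := by
      have e3 : (a : ℤ) = -r - q * ((-r) / q) := by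
        rw [ha]
        have := Int.emod_add_mul_ediv (-r) q
        linarith
      exact_mod_cast e3
    have e3 : α + (a : ℝ) / q = (α - r / q) - (((-r) / (q : ℤ) : ℤ) : ℝ) := by
      rw [e2]
      field_simp
      ring
    rw [e3, ED_dn_int]
  have hdle : dn (α + a / q) ≤ Y ^ (-1 + δ / 4) := by
    rw [hdn]
    exact (ED_dn_le _).trans hα
  have hdlt : dn (α + a / q) < 1 / (2 * (P : ℝ) ^ 2) := by
    refine lt_of_le_of_lt hdle ?_
    rw [lt_div_iff₀ (by positivity)]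
    have e1 : (P : ℝ) ^ 2 ≤ Y ^ (2 * δ) := by
      calc (P : ℝ) ^ 2 ≤ (Y ^ δ) ^ 2 := pow_le_pow_left₀ (by linarith) hPY 2
        _ = Y ^ (2 * δ) := by
            rw [← Real.rpow_natCast, ← Real.rpow_mul hY0.le]
            congr 1
            push_cast
            ring
    calc Y ^ (-1 + δ / 4) * (2 * (P : ℝ) ^ 2) ≤ Y ^ (-1 + δ / 4) * (2 * Y ^ (2 * δ)) := by
          apply mul_le_mul_of_nonneg_left _ (Real.rpow_nonneg hY0.le _)
          linarith
      _ = 2 * Y ^ (-1 + δ / 4 + 2 * δ) := by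
          rw [Real.rpow_add hY0 (-1 + δ / 4)]
          ring
      _ ≤ 2 * Y ^ (-(1 / 2) : ℝ) := by
          apply mul_le_mul_of_nonneg_left _ (by norm_num)
          apply Real.rpow_le_rpow_of_exponent_le hY1
          linarith
      _ < 1 := by
          rw [Real.rpow_neg hY0.le, ← div_eq_mul_inv, div_lt_one (by positivity)]
          linarith
  refine (k3 q a hq haq hac hdlt).trans ?_
  have hmain : 40 * (H * dn (α + a / q)) ^ 2 ≤ 40 * Y ^ (-(3 * δ / 2)) := by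
    apply mul_le_mul_of_nonneg_left _ (by norm_num)
    have hdn0 : 0 ≤ dn (α + a / q) := abs_nonneg _
    calc (H * dn (α + a / q)) ^ 2 ≤ (Y ^ (1 - δ) * Y ^ (-1 + δ / 4)) ^ 2 := by
          apply pow_le_pow_left₀ (by positivity)
          exact mul_le_mul hHY hdle hdn0 (by positivity)
      _ = Y ^ (-(3 * δ / 2)) := by
          rw [← Real.rpow_add hY0, ← Real.rpow_natCast, ← Real.rpow_mul hY0.le]
          congr 1
          push_cast
          ring
  linarith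

/-- **The kernel is good for `ww qY`.**

Proof. Dirichlet's theorem with `Q = ⌊Y ^ (1 - δ / 4)⌋`: `|α - r / q| ≤ 1 / (q Q)`, `1 ≤ q ≤ Q`. If `q ≥ Y ^ δ` use `qY_minor` and
`|1 - KP| ≤ 4`; otherwise `q ≤ ⌊Y ^ δ⌋` and `|1 - KP| ≤ Y ^ (- δ)` (apply `KP_props` with a slightly larger constant: `1 / Q ≤ 2 Y ^ (- 1 + δ / 4)`; if
necessary use `Q = ⌈Y ^ (1 - δ / 4)⌉` and the bound `q ≤ Y ^ (1 - δ / 4)` or `q = Q`), and the trivial bound `C Y log Y`. -/
theorem AK_le (k μ j₀ : ℕ) (hμ : 8 ≤ μ) (hj : 2 ≤ j₀) (hj' : j₀ ≤ μ) (δ : ℝ) (hδ : 0 < δ)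
    (hδ1 : δ ≤ 1 / (8 * μ)) : ∃ Y₀ : ℝ, 3 ≤ Y₀ ∧ ∀ Y α : ℝ, Y₀ ≤ Y →
      ‖∑ m ∈ Icc 1 ⌊2 * Y⌋₊, ((ww k Y m * qY Y μ j₀ m : ℝ) : ℂ) * ex (m * α)‖ *
        |1 - KP ⌊Y ^ δ⌋₊ ⌊Y ^ (1 - δ)⌋₊ α| ≤ Y ^ (1 - δ / 12) := by
  obtain ⟨Y₁, hY₁, HM⟩ := qY_minor k μ j₀ hμ hj hj' δ hδ (hδ1.trans (by
    apply div_le_div_of_nonneg_left (by norm_num)
    · have : (8 : ℝ) ≤ μ := by exact_mod_cast hμ
      linarith
    · have : (8 : ℝ) ≤ μ := by exact_mod_cast hμ
      linarith))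
  have hμ0 : (8 : ℝ) ≤ μ := by exact_mod_cast hμ
  have hδ64 : δ ≤ 1 / 64 := by
    refine hδ1.trans ?_
    apply div_le_div_of_nonneg_left (by norm_num) (by norm_num)
    linarith
  obtain ⟨Y₂, hY₂, HK⟩ := KP_props δ hδ (by linarith)
  obtain ⟨C, hC, HW⟩ := ww_props k
  set G := 20 * (μ : ℝ) * C * (2 / δ) with hG
  have hG0 : 0 < G := by positivity
  have hG1 : 0 ≤ G ^ (12 / (5 * δ)) := by positivity
  have hG2 : 0 ≤ (2 : ℝ) ^ (60 / δ) := by positivity
  refine ⟨Y₁ + Y₂ + G ^ (12 / (5 * δ)) + (2 : ℝ) ^ (60 / δ), by linarith, ?_⟩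
  intro Y α hY
  have hY3 : 3 ≤ Y := by linarith
  have hY1 : 1 ≤ Y := by linarith
  have hY0 : 0 < Y := by linarith
  obtain ⟨hK1, hK2, hK3⟩ := HK Y α (by linarith)
  set P := ⌊Y ^ δ⌋₊ with hP
  set KK := KP P ⌊Y ^ (1 - δ)⌋₊ α with hKK
  have habs : |1 - KK| ≤ 2 := by
    rw [abs_le]
    constructor <;> linarith
  have habs0 := abs_nonneg (1 - KK)
  -- Dirichlet
  set n := ⌊Y ^ (1 - δ / 4)⌋₊ with hn
  have hn1 : 1 ≤ n := by
    rw [hn, Nat.one_le_floor_iff]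
    exact Real.one_le_rpow hY1 (by linarith)
  obtain ⟨p, hp1, hp2⟩ := Real.exists_rat_abs_sub_le_and_den_le α (Nat.lt_of_lt_of_le Nat.zero_lt_one hn1)
  have hpc : (p : ℝ) = (p.num : ℝ) / (p.den : ℝ) := Rat.cast_def p
  rw [hpc] at hp1
  have hq1 : 1 ≤ p.den := p.den_pos
  have hq0 : (0 : ℝ) < p.den := by exact_mod_cast hq1
  have hq1' : (1 : ℝ) ≤ p.den := by exact_mod_cast hq1
  have hcop : IsCoprime p.num (p.den : ℤ) := by
    rw [Int.isCoprime_iff_gcd_eq_one]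
    exact p.reduced
  have hnY : (n : ℝ) ≤ Y ^ (1 - δ / 4) := Nat.floor_le (by positivity)
  have hnY2 : Y ^ (1 - δ / 4) ≤ (n : ℝ) + 1 := (Nat.lt_floor_add_one _).le
  have hn0 : (0 : ℝ) ≤ n := Nat.cast_nonneg n
  have hqn : (p.den : ℝ) ≤ n := by exact_mod_cast hp2
  rcases lt_or_ge P p.den with hPq | hPq
  · -- minor arcs
    have e1 : Y ^ δ ≤ p.den := by
      have h1 : Y ^ δ < P + 1 := Nat.lt_floor_add_one _
      have h2 : ((P : ℝ) + 1) ≤ p.den := by exact_mod_cast hPq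
      linarith
    have e2 : |α - p.num / p.den| ≤ 1 / (p.den : ℝ) ^ 2 := by
      refine hp1.trans ?_
      apply div_le_div_of_nonneg_left (by norm_num) (by positivity)
      rw [sq]
      apply mul_le_mul_of_nonneg_right _ hq0.le
      linarith
    have e3 := HM Y α p.num p.den (by linarith) hcop e1 (hqn.trans hnY) e2
    have e4 : 2 ≤ Y ^ (δ / 60) := by
      calc (2 : ℝ) = ((2 : ℝ) ^ (60 / δ)) ^ (δ / 60) := by
            rw [← Real.rpow_mul (by norm_num)]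
            have h9 : 60 / δ * (δ / 60) = 1 := by field_simp
            rw [h9, Real.rpow_one]
        _ ≤ Y ^ (δ / 60) := Real.rpow_le_rpow hG2 (by linarith) (by positivity)
    calc _ ≤ Y ^ (1 - δ / 10) * 2 := mul_le_mul e3 habs habs0 (Real.rpow_nonneg hY0.le _)
      _ ≤ Y ^ (1 - δ / 10) * Y ^ (δ / 60) := mul_le_mul_of_nonneg_left e4 (Real.rpow_nonneg hY0.le _)
      _ = Y ^ (1 - δ / 12) := by
          rw [← Real.rpow_add hY0]
          congr 1
          ring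
  · -- major arcs
    have e1 : |α - p.num / p.den| ≤ Y ^ (-1 + δ / 4) := by
      refine hp1.trans ?_
      rw [div_le_iff₀ (by positivity)]
      calc (1 : ℝ) = Y ^ (-1 + δ / 4) * (Y ^ (1 - δ / 4) * 1) := by
            rw [mul_one, ← Real.rpow_add hY0]
            have h9 : -1 + δ / 4 + (1 - δ / 4) = 0 := by ring
            rw [h9, Real.rpow_zero]
        _ ≤ Y ^ (-1 + δ / 4) * (((n : ℝ) + 1) * p.den) := by
            apply mul_le_mul_of_nonneg_left _ (Real.rpow_nonneg hY0.le _)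
            exact mul_le_mul hnY2 hq1' zero_le_one (by linarith)
    have e2 := hK3 p.num p.den (Finset.mem_Icc.2 ⟨hq1, hPq⟩) hcop e1
    obtain ⟨hw1, hw2, -⟩ := HW Y hY3
    have hlog0 : 0 ≤ Real.log Y := Real.log_nonneg hY1
    have e3 : ‖∑ m ∈ Icc 1 ⌊2 * Y⌋₊, ((ww k Y m * qY Y μ j₀ m : ℝ) : ℂ) * ex (m * α)‖ ≤
        20 * μ * (C * Y * Real.log Y) := by
      refine (norm_sum_le _ _).trans ?_
      calc ∑ m ∈ Icc 1 ⌊2 * Y⌋₊, ‖((ww k Y m * qY Y μ j₀ m : ℝ) : ℂ) * ex (m * α)‖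
          ≤ ∑ m ∈ Icc 1 ⌊2 * Y⌋₊, 20 * μ * ww k Y m := by
            refine Finset.sum_le_sum fun m _ => ?_
            obtain ⟨-, g1, -, g2, -⟩ := q_props Y μ j₀ m hY3 hμ hj hj'
            have g3 := (hw1 m).1
            rw [norm_mul, EC_norm, mul_one, Complex.norm_real, Real.norm_eq_abs,
              abs_of_nonneg (mul_nonneg g3 g1), mul_comm]
            exact mul_le_mul_of_nonneg_right g2 g3
        _ = 20 * μ * ∑ m ∈ Icc 1 ⌊2 * Y⌋₊, ww k Y m := by rw [Finset.mul_sum]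
        _ ≤ _ := mul_le_mul_of_nonneg_left hw2 (by positivity)
    have e4 : Real.log Y ≤ 2 / δ * Y ^ (δ / 2) := by
      have h1 := Real.log_le_rpow_div hY0.le (show 0 < δ / 2 by positivity)
      calc Real.log Y ≤ Y ^ (δ / 2) / (δ / 2) := h1
        _ = 2 / δ * Y ^ (δ / 2) := by
            field_simp
    have e5 : G ≤ Y ^ (5 * δ / 12) := by
      calc G = (G ^ (12 / (5 * δ))) ^ (5 * δ / 12) := by
            rw [← Real.rpow_mul hG0.le]
            have h9 : 12 / (5 * δ) * (5 * δ / 12) = 1 := by field_simp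
            rw [h9, Real.rpow_one]
        _ ≤ Y ^ (5 * δ / 12) := Real.rpow_le_rpow hG1 (by linarith) (by positivity)
    have hYd : 0 ≤ Y ^ (δ / 2) := Real.rpow_nonneg hY0.le _
    calc _ ≤ 20 * μ * (C * Y * Real.log Y) * Y ^ (-δ) :=
          mul_le_mul e3 e2 habs0 (by positivity)
      _ ≤ 20 * μ * (C * Y * (2 / δ * Y ^ (δ / 2))) * Y ^ (-δ) := by
          apply mul_le_mul_of_nonneg_right _ (Real.rpow_nonneg hY0.le _)
          apply mul_le_mul_of_nonneg_left _ (by positivity)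
          exact mul_le_mul_of_nonneg_left e4 (by positivity)
      _ = G * (Y ^ (1 : ℝ) * Y ^ (δ / 2) * Y ^ (-δ)) := by
          rw [hG, Real.rpow_one]
          ring
      _ ≤ Y ^ (5 * δ / 12) * (Y ^ (1 : ℝ) * Y ^ (δ / 2) * Y ^ (-δ)) :=
          mul_le_mul_of_nonneg_right e5 (by positivity)
      _ = Y ^ (1 - δ / 12) := by
          rw [← Real.rpow_add hY0, ← Real.rpow_add hY0, ← Real.rpow_add hY0]
          congr 1
          ring

end Pool.Agent.M58
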