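import Pool.Agent.W_b58c63_m1.ED
import Pool.Agent.W_b58c63_m1.EB
import Pool.Agent.W_b58c63_m1.BDef

/-!
# Parseval: the two error terms (helper68)
-/

set_option autoImplicit false

noncomputable section

open Finset MeasureTheory

namespace Pool.Agent.M58

theorem EE_add (x y : ℝ) : ex (x + y) = ex x * ex y := by
  unfold ex
  rw [← Complex.exp_add]
  congr 1
  push_cast
  ring

theorem EE_conj (x : ℝ) : (starRingEnd ℂ) (ex x) = ex (-x) := by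
  unfold ex
  rw [← Complex.exp_conj]
  congr 1
  simp only [map_mul, Complex.conj_ofReal, Complex.conj_I, map_ofNat]
  push_cast
  ring

/-- discrete Parseval -/
theorem EE_parseval {ι : Type} [DecidableEq ι] (T : Finset ι) (f : ι → ℤ) (R : ℕ) (hR : 1 ≤ R) (c : ι → ℂ)
    (hT : ∀ m ∈ T, ∀ m' ∈ T, (R : ℤ) ∣ f m - f m' → m = m') :
    ∑ a ∈ range R, ‖∑ m ∈ T, c m * ex ((f m : ℝ) * ((a : ℝ) / R))‖ ^ 2 = R * ∑ m ∈ T, ‖c m‖ ^ 2 := by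
  have key : ∀ m ∈ T, ∀ m' ∈ T, ∑ a ∈ range R, (c m * ex ((f m : ℝ) * ((a : ℝ) / R))) *
      (starRingEnd ℂ) (c m' * ex ((f m' : ℝ) * ((a : ℝ) / R))) =
      if m = m' then (R : ℂ) * (c m * (starRingEnd ℂ) (c m')) else 0 := by
    intro m hm m' hm'
    have h1 : ∀ a ∈ range R, (c m * ex ((f m : ℝ) * ((a : ℝ) / R))) *
      (starRingEnd ℂ) (c m' * ex ((f m' : ℝ) * ((a : ℝ) / R))) =
        (c m * (starRingEnd ℂ) (c m')) * ex ((a : ℝ) * ((f m - f m' : ℤ) : ℝ) / R) := by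
      intro a _
      rw [map_mul, EE_conj]
      have h2 : ex ((a : ℝ) * ((f m - f m' : ℤ) : ℝ) / R) =
          ex ((f m : ℝ) * ((a : ℝ) / R)) * ex (-((f m' : ℝ) * ((a : ℝ) / R))) := by
        rw [← EE_add]
        congr 1
        push_cast
        ring
      rw [h2]
      ring
    rw [Finset.sum_congr rfl h1, ← Finset.mul_sum, RA_full R _ hR]
    by_cases hmm : m = m'
    · rw [if_pos hmm, hmm, sub_self, if_pos (dvd_zero _)]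
      ring
    · rw [if_neg hmm, if_neg (fun hd => hmm (hT m hm m' hm' hd)), mul_zero]
  have h : ((∑ a ∈ range R, ‖∑ m ∈ T, c m * ex ((f m : ℝ) * ((a : ℝ) / R))‖ ^ 2 : ℝ) : ℂ) =
      ((R * ∑ m ∈ T, ‖c m‖ ^ 2 : ℝ) : ℂ) := by
    push_cast
    have h1 : ∀ a ∈ range R, ((‖∑ m ∈ T, c m * ex ((f m : ℝ) * ((a : ℝ) / R))‖ : ℝ) : ℂ) ^ 2 =
        ∑ m ∈ T, ∑ m' ∈ T, (c m * ex ((f m : ℝ) * ((a : ℝ) / R))) *
      (starRingEnd ℂ) (c m' * ex ((f m' : ℝ) * ((a : ℝ) / R))) := by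
      intro a _
      rw [← Complex.mul_conj', map_sum, Finset.sum_mul_sum]
    rw [Finset.sum_congr rfl h1, Finset.sum_comm, Finset.mul_sum]
    refine Finset.sum_congr rfl fun m hm => ?_
    rw [Finset.sum_comm, Finset.sum_congr rfl (fun m' hm' => key m hm m' hm'), Finset.sum_ite_eq,
      if_pos hm, Complex.mul_conj']
  exact_mod_cast h

/-- **Parseval.** (`∑_N |∑_s U s B (N - s)| ^ 2` over all integers `N` is `∫_0^1 |U^ B^| ^ 2`.) -/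
theorem pars (S X : ℕ) (U : ℤ → ℂ) (B : ℕ → ℝ) (L : ℝ) (hL : 0 ≤ L)
    (hU : ∀ α : ℝ, ‖∑ s ∈ Icc (-(S : ℤ)) S, U s * ex (s * α)‖ ≤ L) :
    ∑ N ∈ Icc S X, ‖∑ s ∈ Icc (-(S : ℤ)) S, U s * (B ((N : ℤ) - s).toNat : ℂ)‖ ^ 2 ≤
      L ^ 2 * ∑ n ∈ range (X + S + 1), B n ^ 2 := by
  classical
  obtain ⟨R, hR⟩ : ∃ R : ℕ, R = X + 3 * S + 1 := ⟨_, rfl⟩
  have hR1 : 1 ≤ R := by omega
  have hR0 : (0 : ℝ) < R := by exact_mod_cast hR1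
  obtain ⟨T, hT⟩ : ∃ T : Finset ℤ, T = Icc (-(S : ℤ)) (X + 2 * S) := ⟨_, rfl⟩
  obtain ⟨c, hc⟩ : ∃ c : ℤ → ℂ, c = fun m => ∑ s ∈ Icc (-(S : ℤ)) S, ∑ n ∈ range (X + S + 1),
    if m = s + n then U s * (B n : ℂ) else 0 := ⟨_, rfl⟩
  -- the value of c at N
  have hcN : ∀ N ∈ Icc S X, c (N : ℤ) = ∑ s ∈ Icc (-(S : ℤ)) S, U s * (B ((N : ℤ) - s).toNat : ℂ) := by
    intro N hN
    rw [Finset.mem_Icc] at hN
    rw [hc]
    refine Finset.sum_congr rfl fun s hs => ?_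
    rw [Finset.mem_Icc] at hs
    rw [Finset.sum_eq_single ((N : ℤ) - s).toNat]
    · rw [if_pos (by omega)]
    · intro n _ hne
      rw [if_neg]
      intro h
      apply hne
      omega
    · intro h
      exfalso
      apply h
      rw [Finset.mem_range]
      omega
  have hprod : ∀ θ : ℝ, ∑ m ∈ T, c m * ex ((m : ℝ) * θ) =
      (∑ s ∈ Icc (-(S : ℤ)) S, U s * ex (s * θ)) *
        ∑ n ∈ range (X + S + 1), (B n : ℂ) * ex (((n : ℤ) : ℝ) * θ) := by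
    intro θ
    rw [hc, Finset.sum_mul_sum]
    simp only [Finset.sum_mul]
    rw [Finset.sum_comm]
    refine Finset.sum_congr rfl fun s hs => ?_
    rw [Finset.sum_comm]
    refine Finset.sum_congr rfl fun n hn => ?_
    rw [Finset.mem_Icc] at hs
    rw [Finset.mem_range] at hn
    have hmem : s + (n : ℤ) ∈ T := by
      rw [hT, Finset.mem_Icc]
      omega
    rw [Finset.sum_eq_single (s + (n : ℤ))]
    · rw [if_pos rfl]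
      have h2 : ex (((s + (n : ℤ) : ℤ) : ℝ) * θ) = ex ((s : ℝ) * θ) * ex (((n : ℤ) : ℝ) * θ) := by
        rw [← EE_add]
        congr 1
        push_cast
        ring
      rw [h2]
      ring
    · intro m _ hne
      rw [if_neg hne, zero_mul]
    · intro h
      exact absurd hmem h
  have hP1 := EE_parseval T (fun m => m) R hR1 c (by
    intro m hm m' hm' hd
    rw [hT, Finset.mem_Icc] at hm hm'
    obtain ⟨k, hk⟩ := hd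
    have h1 : |m - m'| < (R : ℤ) := by
      rw [abs_lt, hR]
      push_cast
      constructor <;> linarith [hm.1, hm.2, hm'.1, hm'.2]
    have h2 := Int.eq_zero_of_abs_lt_dvd (⟨k, hk⟩ : (R : ℤ) ∣ m - m') h1
    omega)
  have hP2 := EE_parseval (range (X + S + 1)) (fun n : ℕ => (n : ℤ)) R hR1 (fun n => (B n : ℂ)) (by
    intro m hm m' hm' hd
    rw [Finset.mem_range] at hm hm'
    obtain ⟨k, hk⟩ := hd
    have h1 : |(m : ℤ) - m'| < (R : ℤ) := by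
      rw [abs_lt, hR]
      push_cast
      constructor <;> omega
    have h2 := Int.eq_zero_of_abs_lt_dvd (⟨k, hk⟩ : (R : ℤ) ∣ (m : ℤ) - m') h1
    omega)
  have h1 : ∑ N ∈ Icc S X, ‖∑ s ∈ Icc (-(S : ℤ)) S, U s * (B ((N : ℤ) - s).toNat : ℂ)‖ ^ 2 ≤
      ∑ m ∈ T, ‖c m‖ ^ 2 := by
    rw [Finset.sum_congr rfl (fun N hN => by rw [← hcN N hN])]
    have h2 : ∑ N ∈ Icc S X, ‖c (N : ℤ)‖ ^ 2 = ∑ m ∈ (Icc S X).image (fun N : ℕ => (N : ℤ)), ‖c m‖ ^ 2 := by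
      rw [Finset.sum_image]
      intro a _ b _ h
      have h' : (a : ℤ) = (b : ℤ) := h
      exact_mod_cast h'
    rw [h2]
    apply Finset.sum_le_sum_of_subset_of_nonneg
    · intro m hm
      obtain ⟨N, hN, rfl⟩ := Finset.mem_image.1 hm
      rw [Finset.mem_Icc] at hN
      rw [hT, Finset.mem_Icc]
      omega
    · intro _ _ _
      positivity
  refine h1.trans ?_
  have h3 : (R : ℝ) * ∑ m ∈ T, ‖c m‖ ^ 2 ≤ L ^ 2 * (R * ∑ n ∈ range (X + S + 1), B n ^ 2) := by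
    have h4 : ∑ n ∈ range (X + S + 1), B n ^ 2 = ∑ n ∈ range (X + S + 1), ‖(B n : ℂ)‖ ^ 2 := by
      refine Finset.sum_congr rfl fun n _ => ?_
      rw [Complex.norm_real, Real.norm_eq_abs, sq_abs]
    rw [h4, ← hP1, ← hP2, Finset.mul_sum]
    refine Finset.sum_le_sum fun a _ => ?_
    rw [hprod, norm_mul, mul_pow]
    apply mul_le_mul_of_nonneg_right _ (by positivity)
    exact pow_le_pow_left₀ (norm_nonneg _) (hU _) 2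
  have h5 : (R : ℝ) * ∑ m ∈ T, ‖c m‖ ^ 2 ≤ R * (L ^ 2 * ∑ n ∈ range (X + S + 1), B n ^ 2) := by
    calc _ ≤ _ := h3
      _ = _ := by ring
  exact le_of_mul_le_mul_left h5 hR0

/-- the convolution coefficients -/
def EE_U (M H : ℕ) (A : ℕ → ℝ) (K : ℤ → ℝ) (s : ℤ) : ℝ :=
  (∑ m ∈ Icc 1 M, if s = (m : ℤ) then A m else 0) -
    ∑ m ∈ Icc 1 M, ∑ h ∈ Icc (-(H : ℤ)) H, if s = (m : ℤ) + h then A m * K h else 0

theorem EE_conv (M H S : ℕ) (A : ℕ → ℝ) (K : ℤ → ℝ) (g : ℤ → ℂ) (hS : M + H ≤ S) :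
    ∑ s ∈ Icc (-(S : ℤ)) S, (EE_U M H A K s : ℂ) * g s =
      ∑ m ∈ Icc 1 M, (A m : ℂ) * g m -
        ∑ m ∈ Icc 1 M, ∑ h ∈ Icc (-(H : ℤ)) H, ((A m * K h : ℝ) : ℂ) * g (m + h) := by
  have h1 : ∀ s ∈ Icc (-(S : ℤ)) S, (EE_U M H A K s : ℂ) * g s =
      (∑ m ∈ Icc 1 M, if s = (m : ℤ) then (A m : ℂ) * g s else 0) -
        ∑ m ∈ Icc 1 M, ∑ h ∈ Icc (-(H : ℤ)) H, if s = (m : ℤ) + h then ((A m * K h : ℝ) : ℂ) * g s else 0 := by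
    intro s _
    unfold EE_U
    push_cast
    rw [sub_mul, Finset.sum_mul, Finset.sum_mul]
    congr 1
    · refine Finset.sum_congr rfl fun m _ => ?_
      split_ifs
      · rfl
      · simp
    · refine Finset.sum_congr rfl fun m _ => ?_
      rw [Finset.sum_mul]
      refine Finset.sum_congr rfl fun h _ => ?_
      split_ifs
      · push_cast; rfl
      · simp
  rw [Finset.sum_congr rfl h1, Finset.sum_sub_distrib]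
  congr 1
  · rw [Finset.sum_comm]
    refine Finset.sum_congr rfl fun m hm => ?_
    rw [Finset.mem_Icc] at hm
    rw [Finset.sum_ite_eq', if_pos]
    rw [Finset.mem_Icc]
    omega
  · rw [Finset.sum_comm]
    refine Finset.sum_congr rfl fun m hm => ?_
    rw [Finset.mem_Icc] at hm
    rw [Finset.sum_comm]
    refine Finset.sum_congr rfl fun h hh => ?_
    rw [Finset.mem_Icc] at hh
    rw [Finset.sum_ite_eq', if_pos]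
    rw [Finset.mem_Icc]
    omega

theorem EE_core (S X M H : ℕ) (hS : M + H ≤ S) (A : ℕ → ℝ) (K : ℤ → ℝ) (B : ℕ → ℝ) (L : ℝ) (hL : 0 ≤ L)
    (hU : ∀ α : ℝ, ‖∑ m ∈ Icc 1 M, (A m : ℂ) * ex ((m : ℝ) * α) -
      ∑ m ∈ Icc 1 M, ∑ h ∈ Icc (-(H : ℤ)) H, ((A m * K h : ℝ) : ℂ) * ex (((m + h : ℤ) : ℝ) * α)‖ ≤ L) :
    ∑ N ∈ Icc S X, (∑ m ∈ Icc 1 M, A m * B (N - m) -
      ∑ m ∈ Icc 1 M, ∑ h ∈ Icc (-(H : ℤ)) H, A m * K h * B ((N : ℤ) - m - h).toNat) ^ 2 ≤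
      L ^ 2 * ∑ n ∈ range (X + S + 1), B n ^ 2 := by
  have h1 := pars S X (fun s => (EE_U M H A K s : ℂ)) B L hL (by
    intro α
    have h2 := EE_conv M H S A K (fun s => ex ((s : ℝ) * α)) hS
    rw [h2]
    have h3 := hU α
    simpa using h3)
  refine le_trans (le_of_eq ?_) h1
  refine Finset.sum_congr rfl fun N hN => ?_
  have h2 := EE_conv M H S A K (fun s => (B ((N : ℤ) - s).toNat : ℂ)) hS
  rw [h2]
  have h3 : ∑ m ∈ Icc 1 M, (A m : ℂ) * (B ((N : ℤ) - (m : ℤ)).toNat : ℂ) -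
        ∑ m ∈ Icc 1 M, ∑ h ∈ Icc (-(H : ℤ)) H, ((A m * K h : ℝ) : ℂ) * (B ((N : ℤ) - ((m : ℤ) + h)).toNat : ℂ) =
      ((∑ m ∈ Icc 1 M, A m * B (N - m) -
      ∑ m ∈ Icc 1 M, ∑ h ∈ Icc (-(H : ℤ)) H, A m * K h * B ((N : ℤ) - m - h).toNat : ℝ) : ℂ) := by
    push_cast
    congr 1
    · refine Finset.sum_congr rfl fun m _ => ?_
      have : ((N : ℤ) - (m : ℤ)).toNat = N - m := by omega
      rw [this]
    · refine Finset.sum_congr rfl fun m _ => Finset.sum_congr rfl fun h _ => ?_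
      have : (N : ℤ) - ((m : ℤ) + h) = (N : ℤ) - m - h := by ring
      rw [this]
  rw [h3, Complex.norm_real, Real.norm_eq_abs, sq_abs]

/-- the mass of the second factor -/
theorem EE_mass (Y : ℝ) (μ j₀ S : ℕ) (hY : 6 ≤ Y) (hμ : 8 ≤ μ) (hj : 2 ≤ j₀) (hj' : j₀ ≤ μ)
    (hS : (S : ℝ) ≤ 3 * Y) :
    ∑ n ∈ range (⌊Y ^ 2⌋₊ + S + 1), fX Y μ j₀ n ^ 2 ≤ 800 * (μ : ℝ) ^ 2 * Y ^ 2 := by
  have h1 : ∀ n ∈ range (⌊Y ^ 2⌋₊ + S + 1), fX Y μ j₀ n ^ 2 ≤ (20 * (μ : ℝ)) ^ 2 := by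
    intro n _
    obtain ⟨h2, h3, -⟩ := fX_props Y μ j₀ n (by linarith) hμ hj hj'
    exact pow_le_pow_left₀ h2 h3 2
  refine (Finset.sum_le_sum h1).trans ?_
  rw [Finset.sum_const, Finset.card_range, nsmul_eq_mul]
  have h2 : (⌊Y ^ 2⌋₊ : ℝ) ≤ Y ^ 2 := Nat.floor_le (by positivity)
  have h3 : ((⌊Y ^ 2⌋₊ + S + 1 : ℕ) : ℝ) ≤ 2 * Y ^ 2 := by
    push_cast
    nlinarith
  calc ((⌊Y ^ 2⌋₊ + S + 1 : ℕ) : ℝ) * (20 * (μ : ℝ)) ^ 2 ≤ (2 * Y ^ 2) * (20 * (μ : ℝ)) ^ 2 :=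
        mul_le_mul_of_nonneg_right h3 (by positivity)
    _ = _ := by ring

theorem EE_range (Y : ℝ) (S : ℕ) (hY : 6 ≤ Y) (hS : (S : ℝ) ≤ 3 * Y) : S ≤ ⌈Y ^ 2 / 2⌉₊ := by
  have h1 : Y ^ 2 / 2 ≤ (⌈Y ^ 2 / 2⌉₊ : ℝ) := Nat.le_ceil _
  have h2 : (S : ℝ) ≤ (⌈Y ^ 2 / 2⌉₊ : ℝ) := by nlinarith
  exact_mod_cast h2

/-- the final numerics -/
theorem EE_fin (Y : ℝ) (μ : ℕ) (u v : ℝ) (hY : 1 ≤ Y) (h : 800 * (μ : ℝ) ^ 2 ≤ Y ^ (2 * u - v)) :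
    (Y ^ (1 - u)) ^ 2 * (800 * (μ : ℝ) ^ 2 * Y ^ 2) ≤ Y ^ (4 - v) := by
  have hY0 : 0 < Y := by linarith
  calc (Y ^ (1 - u)) ^ 2 * (800 * (μ : ℝ) ^ 2 * Y ^ 2) =
      (800 * (μ : ℝ) ^ 2) * ((Y ^ (1 - u)) ^ 2 * Y ^ 2) := by ring
    _ ≤ Y ^ (2 * u - v) * ((Y ^ (1 - u)) ^ 2 * Y ^ 2) :=
        mul_le_mul_of_nonneg_right h (by positivity)
    _ = Y ^ (4 - v) := by
        rw [← Real.rpow_natCast (Y ^ (1 - u)) 2, ← Real.rpow_mul hY0.le, ← Real.rpow_natCast Y 2,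
          ← Real.rpow_add hY0, ← Real.rpow_add hY0]
        congr 1
        push_cast
        ring

theorem EE_big (K : ℝ) (hK : 1 ≤ K) (v : ℝ) (hv : 0 < v) (Y : ℝ) (hY : K ^ (1 / v) ≤ Y) : K ≤ Y ^ v := by
  have hK0 : 0 < K := by linarith
  have h1 : (K ^ (1 / v)) ^ v ≤ Y ^ v := Real.rpow_le_rpow (by positivity) hY hv.le
  rw [← Real.rpow_mul hK0.le] at h1
  have h2 : 1 / v * v = 1 := by field_simp
  rwa [h2, Real.rpow_one] at h1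

/-- The error of the first kernel. (`pars`, `ker_tail`; `|fX| ≤ 20 μ`.) -/
theorem T2_err (k μ j₀ : ℕ) (hμ : 8 ≤ μ) (hj : 2 ≤ j₀) (hj' : j₀ ≤ μ) (δ : ℝ) (hδ : 0 < δ) (hδ1 : δ ≤ 1 / 20) :
    ∃ Y₀ : ℝ, 3 ≤ Y₀ ∧ ∀ (Y z : ℝ) (b : ℕ), Y₀ ≤ Y → 2 ≤ z → z ≤ Y →
      ∑ N ∈ Icc ⌈Y ^ 2 / 2⌉₊ ⌊Y ^ 2⌋₊, (∑ m ∈ Icc 1 ⌊2 * Y⌋₊,
        ww k Y m * (∑ q ∈ Ioc ⌊Y ^ δ⌋₊ ⌈Y ^ (1 / 10 : ℝ)⌉₊, ct z b q * cq q m) * fX Y μ j₀ (N - m)) ^ 2 ≤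
          Y ^ (4 - δ / 2) := by
  obtain ⟨Y₁, hY₁, hker⟩ := ker_tail k δ hδ hδ1
  have hμ1 : (8 : ℝ) ≤ μ := by exact_mod_cast hμ
  have hK1 : 1 ≤ 800 * (μ : ℝ) ^ 2 := by nlinarith
  refine ⟨max (max Y₁ 6) ((800 * (μ : ℝ) ^ 2) ^ (1 / (δ / 2))),
    hY₁.trans ((le_max_left _ _).trans (le_max_left _ _)), fun Y z b hY hz hzY => ?_⟩
  have hYY₁ : Y₁ ≤ Y := ((le_max_left _ _).trans (le_max_left _ _)).trans hY
  have hY6 : 6 ≤ Y := ((le_max_right _ _).trans (le_max_left _ _)).trans hY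
  have hYK : (800 * (μ : ℝ) ^ 2) ^ (1 / (δ / 2)) ≤ Y := (le_max_right _ _).trans hY
  have hY0 : 0 < Y := by linarith
  obtain ⟨S, hS⟩ : ∃ S : ℕ, S = ⌊2 * Y⌋₊ := ⟨_, rfl⟩
  have hSle : (S : ℝ) ≤ 2 * Y := by rw [hS]; exact Nat.floor_le (by linarith)
  have hS3 : (S : ℝ) ≤ 3 * Y := by linarith
  have hcore := EE_core S ⌊Y ^ 2⌋₊ S 0 (by omega)
    (fun m => ww k Y m * ∑ q ∈ Ioc ⌊Y ^ δ⌋₊ ⌈Y ^ (1 / 10 : ℝ)⌉₊, ct z b q * cq q m) (fun _ => 0)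
    (fX Y μ j₀) (Y ^ (1 - δ / 2)) (by positivity) (by
      intro α
      have h1 := hker Y z α b hYY₁ hz hzY
      rw [← hS] at h1
      simpa using h1)
  have hcore2 : ∑ N ∈ Icc S ⌊Y ^ 2⌋₊, (∑ m ∈ Icc 1 S,
        ww k Y m * (∑ q ∈ Ioc ⌊Y ^ δ⌋₊ ⌈Y ^ (1 / 10 : ℝ)⌉₊, ct z b q * cq q m) * fX Y μ j₀ (N - m)) ^ 2 ≤
      (Y ^ (1 - δ / 2)) ^ 2 * ∑ n ∈ range (⌊Y ^ 2⌋₊ + S + 1), fX Y μ j₀ n ^ 2 := by
    refine le_trans (le_of_eq ?_) hcore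
    refine Finset.sum_congr rfl fun N _ => ?_
    simp
  rw [← hS]
  calc ∑ N ∈ Icc ⌈Y ^ 2 / 2⌉₊ ⌊Y ^ 2⌋₊, (∑ m ∈ Icc 1 S,
        ww k Y m * (∑ q ∈ Ioc ⌊Y ^ δ⌋₊ ⌈Y ^ (1 / 10 : ℝ)⌉₊, ct z b q * cq q m) * fX Y μ j₀ (N - m)) ^ 2 ≤
      ∑ N ∈ Icc S ⌊Y ^ 2⌋₊, (∑ m ∈ Icc 1 S,
        ww k Y m * (∑ q ∈ Ioc ⌊Y ^ δ⌋₊ ⌈Y ^ (1 / 10 : ℝ)⌉₊, ct z b q * cq q m) * fX Y μ j₀ (N - m)) ^ 2 := by
        apply Finset.sum_le_sum_of_subset_of_nonneg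
        · exact Finset.Icc_subset_Icc_left (EE_range Y S hY6 hS3)
        · intro _ _ _
          positivity
    _ ≤ _ := hcore2
    _ ≤ (Y ^ (1 - δ / 2)) ^ 2 * (800 * (μ : ℝ) ^ 2 * Y ^ 2) :=
        mul_le_mul_of_nonneg_left (EE_mass Y μ j₀ S hY6 hμ hj hj' hS3) (by positivity)
    _ ≤ Y ^ (4 - δ / 2) := by
        apply EE_fin Y μ (δ / 2) (δ / 2) (by linarith)
        have h2 := EE_big _ hK1 (δ / 2) (by linarith) Y hYK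
        have h3 : 2 * (δ / 2) - δ / 2 = δ / 2 := by ring
        rw [h3]
        exact h2

/-- The smoothed bilinear count. -/
def T3k (k : ℕ) (Y : ℝ) (μ j₀ P H N : ℕ) : ℝ :=
  ∑ m ∈ Icc 1 ⌊2 * Y⌋₊, ∑ h ∈ Icc (-(H : ℤ)) H,
    ww k Y m * qY Y μ j₀ m * tri H h * (∑ q ∈ Icc 1 P, cq q h) * fX Y μ j₀ ((N : ℤ) - m - h).toNat

/-- The error of the second kernel. (`pars` with `U s = A s - ∑_{m + h = s} A m tri h ∑ cq q h`, whose Fourier transform is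
`A^ (1 - KP)` by `KP_four`; `AK_le`.) -/
theorem T3_err (k μ j₀ : ℕ) (hμ : 8 ≤ μ) (hj : 2 ≤ j₀) (hj' : j₀ ≤ μ) (δ : ℝ) (hδ : 0 < δ)
    (hδ1 : δ ≤ 1 / (8 * μ)) : ∃ Y₀ : ℝ, 3 ≤ Y₀ ∧ ∀ Y : ℝ, Y₀ ≤ Y →
      ∑ N ∈ Icc ⌈Y ^ 2 / 2⌉₊ ⌊Y ^ 2⌋₊, (∑ m ∈ Icc 1 ⌊2 * Y⌋₊, ww k Y m * qY Y μ j₀ m * fX Y μ j₀ (N - m) -
        T3k k Y μ j₀ ⌊Y ^ δ⌋₊ ⌊Y ^ (1 - δ)⌋₊ N) ^ 2 ≤ Y ^ (4 - δ / 10) := by
  obtain ⟨Y₁, hY₁, hker⟩ := AK_le k μ j₀ hμ hj hj' δ hδ hδ1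
  have hμ1 : (8 : ℝ) ≤ μ := by exact_mod_cast hμ
  have hδ2 : δ ≤ 1 / 64 := by
    refine hδ1.trans ?_
    apply one_div_le_one_div_of_le (by norm_num)
    linarith
  have hK1 : 1 ≤ 800 * (μ : ℝ) ^ 2 := by nlinarith
  refine ⟨max (max Y₁ 6) ((800 * (μ : ℝ) ^ 2) ^ (1 / (δ / 15))),
    hY₁.trans ((le_max_left _ _).trans (le_max_left _ _)), fun Y hY => ?_⟩
  have hYY₁ : Y₁ ≤ Y := ((le_max_left _ _).trans (le_max_left _ _)).trans hY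
  have hY6 : 6 ≤ Y := ((le_max_right _ _).trans (le_max_left _ _)).trans hY
  have hYK : (800 * (μ : ℝ) ^ 2) ^ (1 / (δ / 15)) ≤ Y := (le_max_right _ _).trans hY
  have hY0 : 0 < Y := by linarith
  obtain ⟨M, hM⟩ : ∃ M : ℕ, M = ⌊2 * Y⌋₊ := ⟨_, rfl⟩
  obtain ⟨P, hP⟩ : ∃ P : ℕ, P = ⌊Y ^ δ⌋₊ := ⟨_, rfl⟩
  obtain ⟨H, hH⟩ : ∃ H : ℕ, H = ⌊Y ^ (1 - δ)⌋₊ := ⟨_, rfl⟩
  have hMle : (M : ℝ) ≤ 2 * Y := by rw [hM]; exact Nat.floor_le (by linarith)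
  have hHle : (H : ℝ) ≤ Y := by
    rw [hH]
    refine (Nat.floor_le (by positivity)).trans ?_
    calc Y ^ (1 - δ) ≤ Y ^ (1 : ℝ) := Real.rpow_le_rpow_of_exponent_le (by linarith) (by linarith)
      _ = Y := Real.rpow_one Y
  have hH1 : 1 ≤ H := by
    rw [hH]
    apply Nat.le_floor
    rw [Nat.cast_one]
    exact Real.one_le_rpow (by linarith) (by linarith)
  obtain ⟨S, hS⟩ : ∃ S : ℕ, S = M + H := ⟨_, rfl⟩
  have hS3 : (S : ℝ) ≤ 3 * Y := by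
    rw [hS]
    push_cast
    linarith
  have hcore := EE_core S ⌊Y ^ 2⌋₊ M H (by omega)
    (fun m => ww k Y m * qY Y μ j₀ m) (fun h => tri H h * ∑ q ∈ Icc 1 P, cq q h)
    (fX Y μ j₀) (Y ^ (1 - δ / 12)) (by positivity) (by
      intro α
      have h1 := hker Y α hYY₁
      rw [← hM, ← hP, ← hH] at h1
      have h2 := KP_four P H hH1 α
      have h3 : ∑ m ∈ Icc 1 M, ∑ h ∈ Icc (-(H : ℤ)) H,
          ((ww k Y m * qY Y μ j₀ m * (tri H h * ∑ q ∈ Icc 1 P, cq q h) : ℝ) : ℂ) * ex (((m + h : ℤ) : ℝ) * α) =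
          (∑ m ∈ Icc 1 M, ((ww k Y m * qY Y μ j₀ m : ℝ) : ℂ) * ex ((m : ℝ) * α)) * (KP P H α : ℂ) := by
        rw [← h2, Finset.sum_mul_sum]
        refine Finset.sum_congr rfl fun m _ => Finset.sum_congr rfl fun h _ => ?_
        have h4 : ex (((m + h : ℤ) : ℝ) * α) = ex ((m : ℝ) * α) * ex ((h : ℝ) * α) := by
          rw [← EE_add]
          congr 1
          push_cast
          ring
        rw [h4]
        push_cast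
        ring
      have h5 : ∑ m ∈ Icc 1 M, ((ww k Y m * qY Y μ j₀ m : ℝ) : ℂ) * ex ((m : ℝ) * α) -
          (∑ m ∈ Icc 1 M, ((ww k Y m * qY Y μ j₀ m : ℝ) : ℂ) * ex ((m : ℝ) * α)) * (KP P H α : ℂ) =
          (∑ m ∈ Icc 1 M, ((ww k Y m * qY Y μ j₀ m : ℝ) : ℂ) * ex ((m : ℝ) * α)) * ((1 - KP P H α : ℝ) : ℂ) := by
        push_cast
        ring
      rw [h3, h5, norm_mul, Complex.norm_real, Real.norm_eq_abs]
      exact h1)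
  have hcore2 : ∑ N ∈ Icc S ⌊Y ^ 2⌋₊, (∑ m ∈ Icc 1 M, ww k Y m * qY Y μ j₀ m * fX Y μ j₀ (N - m) -
        T3k k Y μ j₀ P H N) ^ 2 ≤
      (Y ^ (1 - δ / 12)) ^ 2 * ∑ n ∈ range (⌊Y ^ 2⌋₊ + S + 1), fX Y μ j₀ n ^ 2 := by
    refine le_trans (le_of_eq ?_) hcore
    refine Finset.sum_congr rfl fun N _ => ?_
    unfold T3k
    rw [← hM]
    congr 2
    refine Finset.sum_congr rfl fun m _ => Finset.sum_congr rfl fun h _ => ?_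
    ring
  rw [← hM, ← hP, ← hH]
  calc ∑ N ∈ Icc ⌈Y ^ 2 / 2⌉₊ ⌊Y ^ 2⌋₊, (∑ m ∈ Icc 1 M, ww k Y m * qY Y μ j₀ m * fX Y μ j₀ (N - m) -
        T3k k Y μ j₀ P H N) ^ 2 ≤
      ∑ N ∈ Icc S ⌊Y ^ 2⌋₊, (∑ m ∈ Icc 1 M, ww k Y m * qY Y μ j₀ m * fX Y μ j₀ (N - m) -
        T3k k Y μ j₀ P H N) ^ 2 := by
        apply Finset.sum_le_sum_of_subset_of_nonneg
        · exact Finset.Icc_subset_Icc_left (EE_range Y S hY6 hS3)
        · intro _ _ _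
          positivity
    _ ≤ _ := hcore2
    _ ≤ (Y ^ (1 - δ / 12)) ^ 2 * (800 * (μ : ℝ) ^ 2 * Y ^ 2) :=
        mul_le_mul_of_nonneg_left (EE_mass Y μ j₀ S hY6 hμ hj hj' hS3) (by positivity)
    _ ≤ Y ^ (4 - δ / 10) := by
        apply EE_fin Y μ (δ / 12) (δ / 10) (by linarith)
        have h2 := EE_big _ hK1 (δ / 15) (by linarith) Y hYK
        have h3 : 2 * (δ / 12) - δ / 10 = δ / 15 := by ring
        rw [h3]
        exact h2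

end Pool.Agent.M58
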