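import Pool.Agent.W_b58c63_m1.EA
import Pool.Agent.W_b58c63_m1.BDef

/-!
# Sums over the small variable (helper68)
-/

set_option autoImplicit false

noncomputable section

open Finset MeasureTheory Complex

namespace Pool.Agent.M58

/-- Integration by parts twice on an interval. -/
theorem EF_ibp (G G1 G2 : ℝ → ℂ) (a b α σ c₀ u : ℝ) (hab : a ≤ b)
    (h : ∀ v ∈ Set.Icc a b, HasDerivAt G (G1 v) v ∧ HasDerivAt G1 (G2 v) v)
    (h2 : ContinuousOn G2 (Set.Icc a b)) :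
    (u : ℂ) ^ 2 * ∫ v in a..b, ((α + σ * (v - c₀) : ℝ) : ℂ) * G v * Complex.exp (-(u * v : ℝ) * I) =
      ((σ : ℂ) * G b + ((α + σ * (b - c₀) : ℝ) : ℂ) * G1 b + u * I * (((α + σ * (b - c₀) : ℝ) : ℂ) * G b)) *
        Complex.exp (-(u * b : ℝ) * I) -
      ((σ : ℂ) * G a + ((α + σ * (a - c₀) : ℝ) : ℂ) * G1 a + u * I * (((α + σ * (a - c₀) : ℝ) : ℂ) * G a)) *
        Complex.exp (-(u * a : ℝ) * I) -
      ∫ v in a..b, (2 * (σ : ℂ) * G1 v + ((α + σ * (v - c₀) : ℝ) : ℂ) * G2 v) * Complex.exp (-(u * v : ℝ) * I) := by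
  have de : ∀ v : ℝ, HasDerivAt (fun v : ℝ => Complex.exp (-((u * v : ℝ) : ℂ) * I))
      (Complex.exp (-((u * v : ℝ) : ℂ) * I) * (-(u : ℂ) * I)) v := by
    intro v
    have h1 : HasDerivAt (fun v : ℝ => -((u * v : ℝ) : ℂ) * I) (-(u : ℂ) * I) v := by
      have h2 : HasDerivAt (fun v : ℝ => u * v) u v := by
        simpa using (hasDerivAt_id v).const_mul u
      exact (h2.ofReal_comp.neg).mul_const I
    exact h1.cexp
  have dτ : ∀ v : ℝ, HasDerivAt (fun v : ℝ => ((α + σ * (v - c₀) : ℝ) : ℂ)) (σ : ℂ) v := by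
    intro v
    have h2 : HasDerivAt (fun v : ℝ => α + σ * (v - c₀)) σ v := by
      simpa using ((((hasDerivAt_id v).sub_const c₀).const_mul σ).const_add α)
    exact h2.ofReal_comp
  generalize hτ : (fun v : ℝ => ((α + σ * (v - c₀) : ℝ) : ℂ)) = τ at *
  generalize he : (fun v : ℝ => Complex.exp (-((u * v : ℝ) : ℂ) * I)) = e at *
  have hτ' : ∀ v : ℝ, ((α + σ * (v - c₀) : ℝ) : ℂ) = τ v := fun v => by rw [← hτ]
  have he' : ∀ v : ℝ, Complex.exp (-((u * v : ℝ) : ℂ) * I) = e v := fun v => by rw [← he]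
  simp only [hτ', he'] at de ⊢
  have dF : ∀ v ∈ Set.uIcc a b, HasDerivAt (fun v => ((σ : ℂ) * G v + τ v * G1 v + u * I * (τ v * G v)) * e v)
      ((u : ℂ) ^ 2 * (τ v * G v * e v) + (2 * (σ : ℂ) * G1 v + τ v * G2 v) * e v) v := by
    intro v hv
    rw [Set.uIcc_of_le hab] at hv
    obtain ⟨g1, g2⟩ := h v hv
    have h3 := (((g1.const_mul (σ : ℂ)).add ((dτ v).mul g2)).add (((dτ v).mul g1).const_mul ((u : ℂ) * I))).mul (de v)
    refine h3.congr_deriv ?_
    show ((σ : ℂ) * G1 v + (σ * G1 v + τ v * G2 v) + u * I * (σ * G v + τ v * G1 v)) * e v +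
      (σ * G v + τ v * G1 v + u * I * (τ v * G v)) * (e v * (-(u : ℂ) * I)) = _
    linear_combination (-(u : ℂ) ^ 2 * τ v * G v * e v) * I_sq
  have cτ : Continuous τ := continuous_iff_continuousAt.2 fun v => (dτ v).continuousAt
  have ce : Continuous e := continuous_iff_continuousAt.2 fun v => (de v).continuousAt
  have cG : ContinuousOn G (Set.Icc a b) := fun v hv => (h v hv).1.continuousAt.continuousWithinAt
  have cG1 : ContinuousOn G1 (Set.Icc a b) := fun v hv => (h v hv).2.continuousAt.continuousWithinAt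
  have i1 : IntervalIntegrable (fun v => τ v * G v * e v) volume a b := by
    apply ContinuousOn.intervalIntegrable
    rw [Set.uIcc_of_le hab]
    exact (cτ.continuousOn.mul cG).mul ce.continuousOn
  have i2 : IntervalIntegrable (fun v => (2 * (σ : ℂ) * G1 v + τ v * G2 v) * e v) volume a b := by
    apply ContinuousOn.intervalIntegrable
    rw [Set.uIcc_of_le hab]
    exact ((continuousOn_const.mul cG1).add (cτ.continuousOn.mul h2)).mul ce.continuousOn
  have hmain := intervalIntegral.integral_eq_sub_of_hasDerivAt dF ((i1.const_mul _).add i2)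
  rw [intervalIntegral.integral_add (i1.const_mul _) i2, intervalIntegral.integral_const_mul] at hmain
  linear_combination hmain

theorem EF_exp (u v : ℝ) : ‖Complex.exp (-(u * v : ℝ) * I)‖ = 1 := by
  rw [← Complex.ofReal_neg, Complex.norm_exp_ofReal_mul_I]

/-- Fourier decay of a tent times a smooth function. (Two integrations by parts on `[c - w, c]` and `[c, c + w]`; the boundary terms of
the first one cancel, those of the second one are `O (A / w)`.) -/
theorem osc_piece (w : ℝ) (hw : 0 < w) : ∃ C : ℝ, 1 ≤ C ∧ ∀ (G G1 G2 : ℝ → ℂ) (c A B u : ℝ), 0 ≤ A → 0 ≤ B →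
    (∀ v ∈ Set.Icc (c - w) (c + w), HasDerivAt G (G1 v) v ∧ HasDerivAt G1 (G2 v) v ∧ ‖G v‖ ≤ A ∧ ‖G1 v‖ ≤ A * B ∧
      ‖G2 v‖ ≤ A * B ^ 2) → ContinuousOn G2 (Set.Icc (c - w) (c + w)) →
      ‖∫ v : ℝ, (tent ((v - c) / w) : ℂ) * G v * Complex.exp (-(u * v : ℝ) * I)‖ ≤ C * A ∧
      ‖∫ v : ℝ, (tent ((v - c) / w) : ℂ) * G v * Complex.exp (-(u * v : ℝ) * I)‖ * u ^ 2 ≤ C * A * (1 + B) ^ 2 := by
  have hw' : 0 < 4 / w := by positivity
  refine ⟨4 / w + 4 + 2 * w + 1, by linarith, ?_⟩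
  intro G G1 G2 c A B u hA hB h hG2
  have hcw : c - w ≤ c + w := by linarith
  have hsupp : Function.support (fun v : ℝ => (tent ((v - c) / w) : ℂ) * G v * Complex.exp (-(u * v : ℝ) * I)) ⊆
      Set.Ioc (c - w) (c + w) := by
    intro v hv
    by_contra hc
    apply hv
    have h1 : 1 ≤ |(v - c) / w| := by
      rw [abs_div, abs_of_pos hw, le_div_iff₀ hw, one_mul]
      by_contra h2
      rw [not_le, abs_lt] at h2
      exact hc ⟨by linarith [h2.1], by linarith [h2.2]⟩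
    show (tent ((v - c) / w) : ℂ) * G v * Complex.exp (-(u * v : ℝ) * I) = 0
    rw [STe_supp _ h1, Complex.ofReal_zero, zero_mul, zero_mul]
  rw [← intervalIntegral.integral_eq_integral_of_support_subset hsupp]
  have hτ1 : ∀ v ∈ Set.Icc (c - w) c, tent ((v - c) / w) = 1 + 1 / w * (v - c) := by
    intro v hv
    unfold tent
    have h1 : (v - c) / w ≤ 0 := div_nonpos_of_nonpos_of_nonneg (by linarith [hv.2]) hw.le
    have h2 : -1 ≤ (v - c) / w := by
      rw [le_div_iff₀ hw]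
      linarith [hv.1]
    rw [abs_of_nonpos h1, max_eq_right (by linarith)]
    ring
  have hτ2 : ∀ v ∈ Set.Icc c (c + w), tent ((v - c) / w) = 1 + (-(1 / w)) * (v - c) := by
    intro v hv
    unfold tent
    have h1 : 0 ≤ (v - c) / w := div_nonneg (by linarith [hv.1]) hw.le
    have h2 : (v - c) / w ≤ 1 := by
      rw [div_le_iff₀ hw]
      linarith [hv.2]
    rw [abs_of_nonneg h1, max_eq_right (by linarith)]
    ring
  have hsub1 : Set.Icc (c - w) c ⊆ Set.Icc (c - w) (c + w) := Set.Icc_subset_Icc le_rfl (by linarith)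
  have hsub2 : Set.Icc c (c + w) ⊆ Set.Icc (c - w) (c + w) := Set.Icc_subset_Icc (by linarith) le_rfl
  have hcG : ContinuousOn G (Set.Icc (c - w) (c + w)) := fun v hv => (h v hv).1.continuousAt.continuousWithinAt
  have hcont : ContinuousOn (fun v : ℝ => (tent ((v - c) / w) : ℂ) * G v * Complex.exp (-(u * v : ℝ) * I))
      (Set.Icc (c - w) (c + w)) := by
    have h1 : Continuous (fun v : ℝ => (tent ((v - c) / w) : ℂ)) := (STe_hasInt w c hw).1
    have h2 : Continuous (fun v : ℝ => Complex.exp (-((u * v : ℝ) : ℂ) * I)) := by fun_prop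
    exact (h1.continuousOn.mul hcG).mul h2.continuousOn
  constructor
  · have h1 := intervalIntegral.norm_integral_le_of_norm_le_const (a := c - w) (b := c + w) (C := A)
      (f := fun v : ℝ => (tent ((v - c) / w) : ℂ) * G v * Complex.exp (-(u * v : ℝ) * I)) (by
        intro v hv
        rw [Set.uIoc_of_le hcw] at hv
        rw [norm_mul, norm_mul, EF_exp, mul_one, Complex.norm_real, Real.norm_of_nonneg (GFun_tent_nn _)]
        calc tent ((v - c) / w) * ‖G v‖ ≤ 1 * ‖G v‖ := mul_le_mul_of_nonneg_right (GFun_tent_le _) (norm_nonneg _)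
          _ ≤ A := by rw [one_mul]; exact (h v ⟨hv.1.le, hv.2⟩).2.2.1)
    have h2 : |c + w - (c - w)| = 2 * w := by
      rw [abs_of_nonneg (by linarith)]
      ring
    rw [h2] at h1
    refine h1.trans ?_
    have h3 : 0 ≤ A * (4 / w + 5) := by positivity
    linarith
  · have i1 : IntervalIntegrable (fun v : ℝ => (tent ((v - c) / w) : ℂ) * G v * Complex.exp (-(u * v : ℝ) * I))
        volume (c - w) c := by
      apply ContinuousOn.intervalIntegrable
      rw [Set.uIcc_of_le (by linarith)]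
      exact hcont.mono hsub1
    have i2 : IntervalIntegrable (fun v : ℝ => (tent ((v - c) / w) : ℂ) * G v * Complex.exp (-(u * v : ℝ) * I))
        volume c (c + w) := by
      apply ContinuousOn.intervalIntegrable
      rw [Set.uIcc_of_le (by linarith)]
      exact hcont.mono hsub2
    rw [← intervalIntegral.integral_add_adjacent_intervals i1 i2]
    have e1 : ∫ v in (c - w)..c, (tent ((v - c) / w) : ℂ) * G v * Complex.exp (-(u * v : ℝ) * I) =
        ∫ v in (c - w)..c, ((1 + 1 / w * (v - c) : ℝ) : ℂ) * G v * Complex.exp (-(u * v : ℝ) * I) := by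
      refine intervalIntegral.integral_congr fun v hv => ?_
      rw [Set.uIcc_of_le (by linarith)] at hv
      show (tent ((v - c) / w) : ℂ) * G v * Complex.exp (-(u * v : ℝ) * I) = _
      rw [hτ1 v hv]
    have e2 : ∫ v in c..(c + w), (tent ((v - c) / w) : ℂ) * G v * Complex.exp (-(u * v : ℝ) * I) =
        ∫ v in c..(c + w), ((1 + (-(1 / w)) * (v - c) : ℝ) : ℂ) * G v * Complex.exp (-(u * v : ℝ) * I) := by
      refine intervalIntegral.integral_congr fun v hv => ?_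
      rw [Set.uIcc_of_le (by linarith)] at hv
      show (tent ((v - c) / w) : ℂ) * G v * Complex.exp (-(u * v : ℝ) * I) = _
      rw [hτ2 v hv]
    rw [e1, e2]
    have f1 := EF_ibp G G1 G2 (c - w) c 1 (1 / w) c u (by linarith)
      (fun v hv => ⟨(h v (hsub1 hv)).1, (h v (hsub1 hv)).2.1⟩) (hG2.mono hsub1)
    have f2 := EF_ibp G G1 G2 c (c + w) 1 (-(1 / w)) c u (by linarith)
      (fun v hv => ⟨(h v (hsub2 hv)).1, (h v (hsub2 hv)).2.1⟩) (hG2.mono hsub2)
    -- the remaining integrals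
    have r1 : ‖∫ v in (c - w)..c, (2 * ((1 / w : ℝ) : ℂ) * G1 v + ((1 + 1 / w * (v - c) : ℝ) : ℂ) * G2 v) *
        Complex.exp (-(u * v : ℝ) * I)‖ ≤ (2 / w * (A * B) + A * B ^ 2) * w := by
      have h1 := intervalIntegral.norm_integral_le_of_norm_le_const (a := c - w) (b := c)
        (C := 2 / w * (A * B) + A * B ^ 2)
        (f := fun v : ℝ => (2 * ((1 / w : ℝ) : ℂ) * G1 v + ((1 + 1 / w * (v - c) : ℝ) : ℂ) * G2 v) *
          Complex.exp (-(u * v : ℝ) * I)) (by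
          intro v hv
          rw [Set.uIoc_of_le (by linarith)] at hv
          have hv' : v ∈ Set.Icc (c - w) c := ⟨hv.1.le, hv.2⟩
          obtain ⟨-, -, -, k1, k2⟩ := h v (hsub1 hv')
          rw [norm_mul, EF_exp, mul_one]
          refine (norm_add_le _ _).trans ?_
          rw [norm_mul, norm_mul, norm_mul, Complex.norm_real, Complex.norm_real, ← hτ1 v hv',
            Real.norm_of_nonneg (GFun_tent_nn _), Real.norm_of_nonneg (show 0 ≤ 1 / w by positivity), Complex.norm_ofNat]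
          apply add_le_add
          · calc 2 * (1 / w) * ‖G1 v‖ = 2 / w * ‖G1 v‖ := by ring
              _ ≤ _ := mul_le_mul_of_nonneg_left k1 (by positivity)
          · calc tent ((v - c) / w) * ‖G2 v‖ ≤ 1 * ‖G2 v‖ := mul_le_mul_of_nonneg_right (GFun_tent_le _) (norm_nonneg _)
              _ ≤ _ := by rw [one_mul]; exact k2)
      have h2 : |c - (c - w)| = w := by
        rw [abs_of_nonneg (by linarith)]
        ring
      rw [h2] at h1
      exact h1
    have r2 : ‖∫ v in c..(c + w), (2 * ((-(1 / w) : ℝ) : ℂ) * G1 v + ((1 + (-(1 / w)) * (v - c) : ℝ) : ℂ) * G2 v) *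
        Complex.exp (-(u * v : ℝ) * I)‖ ≤ (2 / w * (A * B) + A * B ^ 2) * w := by
      have h1 := intervalIntegral.norm_integral_le_of_norm_le_const (a := c) (b := c + w)
        (C := 2 / w * (A * B) + A * B ^ 2)
        (f := fun v : ℝ => (2 * ((-(1 / w) : ℝ) : ℂ) * G1 v + ((1 + (-(1 / w)) * (v - c) : ℝ) : ℂ) * G2 v) *
          Complex.exp (-(u * v : ℝ) * I)) (by
          intro v hv
          rw [Set.uIoc_of_le (by linarith)] at hv
          have hv' : v ∈ Set.Icc c (c + w) := ⟨hv.1.le, hv.2⟩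
          obtain ⟨-, -, -, k1, k2⟩ := h v (hsub2 hv')
          rw [norm_mul, EF_exp, mul_one]
          refine (norm_add_le _ _).trans ?_
          rw [norm_mul, norm_mul, norm_mul, Complex.norm_real, Complex.norm_real, ← hτ2 v hv',
            Real.norm_of_nonneg (GFun_tent_nn _), norm_neg, Real.norm_of_nonneg (show 0 ≤ 1 / w by positivity),
            Complex.norm_ofNat]
          apply add_le_add
          · calc 2 * (1 / w) * ‖G1 v‖ = 2 / w * ‖G1 v‖ := by ring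
              _ ≤ _ := mul_le_mul_of_nonneg_left k1 (by positivity)
          · calc tent ((v - c) / w) * ‖G2 v‖ ≤ 1 * ‖G2 v‖ := mul_le_mul_of_nonneg_right (GFun_tent_le _) (norm_nonneg _)
              _ ≤ _ := by rw [one_mul]; exact k2)
      have h2 : |c + w - c| = w := by
        rw [abs_of_nonneg (by linarith)]
        ring
      rw [h2] at h1
      exact h1
    have hz1 : ((1 + 1 / w * (c - w - c) : ℝ) : ℂ) = 0 := by
      have : (1 + 1 / w * (c - w - c) : ℝ) = 0 := by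
        field_simp
        ring
      rw [this, Complex.ofReal_zero]
    have hz2 : ((1 + (-(1 / w)) * (c + w - c) : ℝ) : ℂ) = 0 := by
      have : (1 + (-(1 / w)) * (c + w - c) : ℝ) = 0 := by
        field_simp
        ring
      rw [this, Complex.ofReal_zero]
    have hz3 : ((1 + 1 / w * (c - c) : ℝ) : ℂ) = 1 := by
      rw [sub_self, mul_zero, add_zero, Complex.ofReal_one]
    have hz4 : ((1 + (-(1 / w)) * (c - c) : ℝ) : ℂ) = 1 := by
      rw [sub_self, mul_zero, add_zero, Complex.ofReal_one]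
    rw [hz1, hz3] at f1
    rw [hz2, hz4] at f2
    generalize (∫ v in (c - w)..c, (2 * ((1 / w : ℝ) : ℂ) * G1 v + ((1 + 1 / w * (v - c) : ℝ) : ℂ) * G2 v) *
        Complex.exp (-(u * v : ℝ) * I)) = R1 at f1 r1
    generalize (∫ v in c..(c + w), (2 * ((-(1 / w) : ℝ) : ℂ) * G1 v + ((1 + (-(1 / w)) * (v - c) : ℝ) : ℂ) * G2 v) *
        Complex.exp (-(u * v : ℝ) * I)) = R2 at f2 r2
    generalize (∫ v in (c - w)..c, ((1 + 1 / w * (v - c) : ℝ) : ℂ) * G v * Complex.exp (-(u * v : ℝ) * I)) = J1 at f1 ⊢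
    generalize (∫ v in c..(c + w), ((1 + (-(1 / w)) * (v - c) : ℝ) : ℂ) * G v * Complex.exp (-(u * v : ℝ) * I)) = J2 at f2 ⊢
    have g1 := (h c ⟨by linarith, by linarith⟩).2.2.1
    have g2 := (h (c - w) ⟨le_rfl, hcw⟩).2.2.1
    have g3 := (h (c + w) ⟨hcw, le_rfl⟩).2.2.1
    have hsum : (u : ℂ) ^ 2 * (J1 + J2) = 2 * ((1 / w : ℝ) : ℂ) * G c * Complex.exp (-(u * c : ℝ) * I) -
        ((1 / w : ℝ) : ℂ) * G (c - w) * Complex.exp (-(u * (c - w) : ℝ) * I) -
        ((1 / w : ℝ) : ℂ) * G (c + w) * Complex.exp (-(u * (c + w) : ℝ) * I) - R1 - R2 := by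
      rw [mul_add, f1, f2]
      push_cast
      ring
    have hn : ‖J1 + J2‖ * u ^ 2 = ‖(u : ℂ) ^ 2 * (J1 + J2)‖ := by
      rw [norm_mul, norm_pow, Complex.norm_real, Real.norm_eq_abs, sq_abs, mul_comm]
    rw [hn, hsum]
    have hw1 : 0 ≤ 1 / w := by positivity
    have n1 : ‖2 * ((1 / w : ℝ) : ℂ) * G c * Complex.exp (-(u * c : ℝ) * I)‖ ≤ 2 / w * A := by
      rw [norm_mul, norm_mul, norm_mul, EF_exp, mul_one, Complex.norm_real, Real.norm_of_nonneg hw1, Complex.norm_ofNat]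
      calc 2 * (1 / w) * ‖G c‖ = 2 / w * ‖G c‖ := by ring
        _ ≤ _ := mul_le_mul_of_nonneg_left g1 (by positivity)
    have n2 : ‖((1 / w : ℝ) : ℂ) * G (c - w) * Complex.exp (-(u * (c - w) : ℝ) * I)‖ ≤ 1 / w * A := by
      rw [norm_mul, norm_mul, EF_exp, mul_one, Complex.norm_real, Real.norm_of_nonneg hw1]
      exact mul_le_mul_of_nonneg_left g2 hw1
    have n3 : ‖((1 / w : ℝ) : ℂ) * G (c + w) * Complex.exp (-(u * (c + w) : ℝ) * I)‖ ≤ 1 / w * A := by
      rw [norm_mul, norm_mul, EF_exp, mul_one, Complex.norm_real, Real.norm_of_nonneg hw1]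
      exact mul_le_mul_of_nonneg_left g3 hw1
    have n4 : ∀ a b c d e : ℂ, ‖a - b - c - d - e‖ ≤ ‖a‖ + ‖b‖ + ‖c‖ + ‖d‖ + ‖e‖ := by
      intro a b c d e
      have k1 := norm_sub_le (a - b - c - d) e
      have k2 := norm_sub_le (a - b - c) d
      have k3 := norm_sub_le (a - b) c
      have k4 := norm_sub_le a b
      linarith
    refine (n4 _ _ _ _ _).trans ?_
    have hAB : 0 ≤ A * B := mul_nonneg hA hB
    have hABB : 0 ≤ A * B ^ 2 := by positivity
    have hq : (2 / w * (A * B) + A * B ^ 2) * w = 2 * (A * B) + w * (A * B ^ 2) := by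
      field_simp
    rw [hq] at r1 r2
    have hfin : 4 / w * A + 4 * (A * B) + 2 * w * (A * B ^ 2) ≤ (4 / w + 4 + 2 * w + 1) * A * (1 + B) ^ 2 := by
      have e3 : (4 / w + 4 + 2 * w + 1) * A * (1 + B) ^ 2 - (4 / w * A + 4 * (A * B) + 2 * w * (A * B ^ 2)) =
          (5 + 2 * w) * A + (2 * (4 / w + 4 + 2 * w + 1) - 4) * (A * B) + (4 / w + 5) * (A * B ^ 2) := by ring
      have e4 : 0 ≤ (5 + 2 * w) * A := by positivity
      have e5 : 0 ≤ (2 * (4 / w + 4 + 2 * w + 1) - 4) * (A * B) := mul_nonneg (by linarith) hAB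
      have e6 : 0 ≤ (4 / w + 5) * (A * B ^ 2) := by positivity
      linarith
    have e7 : 2 / w * A + 1 / w * A + 1 / w * A = 4 / w * A := by ring
    linarith

/-- The Fourier transform. -/
def EF_Phi (h : ℝ → ℂ) (u : ℝ) : ℂ := ∫ y : ℝ, h y * Complex.exp (-(u * y : ℝ) * I)

theorem EF_four (h : ℝ → ℂ) (ξ : ℝ) : FourierTransform.fourier h ξ = EF_Phi h (2 * Real.pi * ξ) := by
  rw [Real.fourier_eq', EF_Phi]
  refine integral_congr_ae (Filter.Eventually.of_forall fun v => ?_)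
  show Complex.exp (↑(-2 * Real.pi * inner ℝ v ξ) * Complex.I) • h v = _
  rw [smul_eq_mul, mul_comm]
  congr 2
  rw [← Complex.ofReal_neg]
  congr 2
  show -2 * Real.pi * (ξ * v) = _
  ring

/-- Fourier inversion for complex valued continuous functions. -/
theorem EF_inv (h : ℝ → ℂ) (h1 : Continuous h) (h2 : Integrable h)
    (hi : Integrable (EF_Phi h)) (v : ℝ) :
    h v = (1 / (2 * Real.pi) : ℂ) * ∫ u : ℝ, EF_Phi h u * Complex.exp ((u * v : ℝ) * I) := by
  have h3 : Integrable (FourierTransform.fourier h) := by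
    have h4 : FourierTransform.fourier h = fun ξ : ℝ => EF_Phi h (2 * Real.pi * ξ) := by
      funext ξ
      exact EF_four h ξ
    rw [h4]
    exact hi.comp_mul_left' (by positivity)
  have h5 := congrFun (h1.fourierInv_fourier_eq h2 h3) v
  rw [Real.fourierInv_eq'] at h5
  rw [← h5]
  have h6 := Measure.integral_comp_mul_left (fun u : ℝ => EF_Phi h u *
      Complex.exp ((u * v : ℝ) * Complex.I)) (2 * Real.pi)
  rw [abs_of_pos (by positivity), Complex.real_smul] at h6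
  have h7 : ((1 / (2 * Real.pi) : ℂ)) = (((2 * Real.pi)⁻¹ : ℝ) : ℂ) := by
    push_cast
    ring
  rw [h7, ← h6]
  refine integral_congr_ae (Filter.Eventually.of_forall fun ξ => ?_)
  show Complex.exp (↑(2 * Real.pi * inner ℝ ξ v) * Complex.I) •
    FourierTransform.fourier h ξ = EF_Phi h (2 * Real.pi * ξ) *
      Complex.exp (((2 * Real.pi * ξ) * v : ℝ) * Complex.I)
  rw [EF_four, smul_eq_mul, mul_comm]
  congr 3
  show ((2 * Real.pi * (v * ξ) : ℝ) : ℂ) = _
  push_cast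
  ring

theorem EF_cont (h : ℝ → ℂ) (h2 : Integrable h) : Continuous (EF_Phi h) := by
  have h3 : Continuous (fun ξ => FourierTransform.fourier h ξ) :=
    VectorFourier.fourierIntegral_continuous Real.continuous_fourierChar
      (by exact continuous_inner) h2
  have h4 : EF_Phi h = fun u : ℝ => FourierTransform.fourier h (u / (2 * Real.pi)) := by
    funext u
    rw [EF_four]
    congr 1
    have : Real.pi ≠ 0 := Real.pi_ne_zero
    field_simp
  rw [h4]
  exact h3.comp (continuous_id.div_const _)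

/-- The sum as an integral, and its bound. -/
theorem EF_sum (N : ℕ) (a : ℕ → ℝ) {r : ℕ} (χ : DirichletCharacter ℂ r) (H : ℝ → ℂ)
    (hH1 : Continuous H) (hH2 : Integrable H) (K1 K2 D T : ℝ) (hT : 0 < T)
    (hK1 : ∀ u : ℝ, ‖EF_Phi H u‖ ≤ K1)
    (hK2 : ∀ u : ℝ, ‖EF_Phi H u‖ * u ^ 2 ≤ K2)
    (hD : ∀ u : ℝ, ‖DP N a χ u‖ ≤ D) :
    ‖∑ m ∈ Icc 1 N, ((a m / m : ℝ) : ℂ) * χ (m : ZMod r) * H (Real.log m)‖ ≤
      K1 * (∫ u in (-T)..T, ‖DP N a χ u‖) + K2 * D / T := by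
  have hK10 : 0 ≤ K1 := (norm_nonneg _).trans (hK1 0)
  have hK20 : 0 ≤ K2 := (mul_nonneg (norm_nonneg _) (sq_nonneg _)).trans (hK2 0)
  have hD0 : 0 ≤ D := (norm_nonneg _).trans (hD 0)
  have hc := EF_cont H hH2
  have hPi : Integrable (EF_Phi H) := by
    have hb : Integrable (fun u : ℝ => (K1 + K2) * (1 + u ^ 2)⁻¹) :=
      integrable_inv_one_add_sq.const_mul _
    refine hb.mono' hc.aestronglyMeasurable (Filter.Eventually.of_forall fun u => ?_)
    rw [← div_eq_mul_inv, le_div_iff₀ (by positivity)]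
    have := hK1 u
    have := hK2 u
    linarith
  have hexp : ∀ m : ℕ, Integrable (fun u : ℝ => EF_Phi H u * Complex.exp ((u * Real.log m : ℝ) * I)) := by
    intro m
    refine hPi.mul_bdd (c := 1) (by fun_prop) (Filter.Eventually.of_forall fun v => ?_)
    rw [Complex.norm_exp_ofReal_mul_I]
  have hDc : Continuous (fun u : ℝ => DP N a χ (-u)) := (DP_continuous N a χ).comp continuous_neg
  have hterm : ∀ u : ℝ, EF_Phi H u * DP N a χ (-u) = ∑ m ∈ Icc 1 N,
      ((a m / m : ℝ) : ℂ) * χ (m : ZMod r) * (EF_Phi H u * Complex.exp ((u * Real.log m : ℝ) * I)) := by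
    intro u
    unfold DP
    rw [Finset.mul_sum]
    refine Finset.sum_congr rfl fun m hm => ?_
    have hm1 := (Finset.mem_Icc.1 hm).1
    have h1 : nit m (-u) = Complex.exp ((u * Real.log m : ℝ) * I) := by
      rw [DMvB_nit_eq hm1]
      congr 1
      push_cast
      ring
    rw [h1]
    ring
  have hsum : ∑ m ∈ Icc 1 N, ((a m / m : ℝ) : ℂ) * χ (m : ZMod r) * H (Real.log m) =
      (1 / (2 * Real.pi) : ℂ) * ∫ u : ℝ, EF_Phi H u * DP N a χ (-u) := by
    simp only [hterm]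
    rw [integral_finsetSum _ fun m _ => (hexp m).const_mul _, Finset.mul_sum]
    refine Finset.sum_congr rfl fun m _ => ?_
    rw [integral_const_mul]
    nth_rewrite 1 [EF_inv H hH1 hH2 hPi (Real.log m)]
    ring
  rw [hsum, norm_mul]
  have hpi1 : ‖(1 / (2 * Real.pi) : ℂ)‖ = 1 / (2 * Real.pi) := by
    have h7 : ((1 / (2 * Real.pi) : ℂ)) = ((1 / (2 * Real.pi) : ℝ) : ℂ) := by
      push_cast
      ring
    rw [h7, Complex.norm_real, Real.norm_of_nonneg (by positivity)]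
  rw [hpi1]
  -- the majorant
  have hg1 : Integrable (Set.indicator (Set.Ioc (-T) T) (fun u : ℝ => K1 * ‖DP N a χ (-u)‖)) := by
    rw [integrable_indicator_iff measurableSet_Ioc]
    exact (((continuous_const.mul hDc.norm).continuousOn).integrableOn_Icc (a := -T) (b := T)).mono_set
      Set.Ioc_subset_Icc_self
  have hg2 : Integrable (fun u : ℝ => K2 * D * (2 / T ^ 2) * (1 + (u / T) ^ 2)⁻¹) :=
    (integrable_inv_one_add_sq.comp_div hT.ne').const_mul _
  have hle : ∀ u : ℝ, ‖EF_Phi H u * DP N a χ (-u)‖ ≤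
      Set.indicator (Set.Ioc (-T) T) (fun u : ℝ => K1 * ‖DP N a χ (-u)‖) u +
        K2 * D * (2 / T ^ 2) * (1 + (u / T) ^ 2)⁻¹ := by
    intro u
    rw [norm_mul]
    have hnn : 0 ≤ K2 * D * (2 / T ^ 2) * (1 + (u / T) ^ 2)⁻¹ := by positivity
    by_cases hu : u ∈ Set.Ioc (-T) T
    · rw [Set.indicator_of_mem hu]
      have := mul_le_mul_of_nonneg_right (hK1 u) (norm_nonneg (DP N a χ (-u)))
      linarith
    · rw [Set.indicator_of_notMem hu, zero_add]
      have hTu : T ^ 2 ≤ u ^ 2 := by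
        rw [Set.mem_Ioc, not_and_or, not_lt, not_le] at hu
        rcases hu with hu | hu
        · nlinarith
        · nlinarith
      have hu2 : 0 < u ^ 2 := lt_of_lt_of_le (by positivity) hTu
      calc ‖EF_Phi H u‖ * ‖DP N a χ (-u)‖ ≤ (K2 / u ^ 2) * D := by
            apply mul_le_mul _ (hD _) (norm_nonneg _) (by positivity)
            rw [le_div_iff₀ hu2]
            exact hK2 u
        _ = K2 * D * (1 / u ^ 2) := by ring
        _ ≤ K2 * D * (2 / T ^ 2 * (1 + (u / T) ^ 2)⁻¹) := by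
            apply mul_le_mul_of_nonneg_left _ (mul_nonneg hK20 hD0)
            have e1 : 2 / T ^ 2 * (1 + (u / T) ^ 2)⁻¹ = 2 / (T ^ 2 + u ^ 2) := by
              field_simp
            rw [e1, div_le_div_iff₀ hu2 (by positivity)]
            linarith
        _ = _ := by ring
  have hbound := norm_integral_le_of_norm_le (hg1.add hg2) (Filter.Eventually.of_forall hle)
  have hint : ∫ u : ℝ, (Set.indicator (Set.Ioc (-T) T) (fun u : ℝ => K1 * ‖DP N a χ (-u)‖) u +
      K2 * D * (2 / T ^ 2) * (1 + (u / T) ^ 2)⁻¹) = K1 * (∫ u in (-T)..T, ‖DP N a χ u‖) +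
        K2 * D * (2 / T ^ 2) * (T * Real.pi) := by
    rw [integral_add hg1 hg2, integral_indicator measurableSet_Ioc, ← intervalIntegral.integral_of_le (by linarith),
      intervalIntegral.integral_const_mul, integral_const_mul]
    congr 2
    · have h8 := intervalIntegral.integral_comp_neg (a := -T) (b := T) (fun u : ℝ => ‖DP N a χ u‖)
      rw [neg_neg] at h8
      exact h8
    · have h8 := Measure.integral_comp_div (fun x : ℝ => (1 + x ^ 2)⁻¹) T
      rw [integral_univ_inv_one_add_sq, abs_of_pos hT, smul_eq_mul] at h8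
      exact h8
  have hI0 : 0 ≤ ∫ u in (-T)..T, ‖DP N a χ u‖ :=
    intervalIntegral.integral_nonneg (by linarith) fun u _ => norm_nonneg _
  have hpi := Real.pi_gt_three
  calc 1 / (2 * Real.pi) * ‖∫ u : ℝ, EF_Phi H u * DP N a χ (-u)‖ ≤
      1 / (2 * Real.pi) * (K1 * (∫ u in (-T)..T, ‖DP N a χ u‖) + K2 * D * (2 / T ^ 2) * (T * Real.pi)) := by
        apply mul_le_mul_of_nonneg_left _ (by positivity)
        exact hbound.trans (le_of_eq hint)
    _ = 1 / (2 * Real.pi) * (K1 * (∫ u in (-T)..T, ‖DP N a χ u‖)) + K2 * D / T := by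
        field_simp
    _ ≤ 1 * (K1 * (∫ u in (-T)..T, ‖DP N a χ u‖)) + K2 * D / T := by
        apply add_le_add _ le_rfl
        apply mul_le_mul_of_nonneg_right _ (mul_nonneg hK10 hI0)
        rw [div_le_one (by positivity)]
        linarith
    _ = _ := by rw [one_mul]

/-- Second differences. -/
theorem EF_diff (f f1 f2 : ℝ → ℂ) (y M : ℝ) (h : ∀ s ∈ Set.Icc (y - 1) (y + 1), HasDerivAt f (f1 s) s ∧
    HasDerivAt f1 (f2 s) s ∧ ‖f2 s‖ ≤ M) : ‖f (y + 1) - 2 * f y + f (y - 1)‖ ≤ M := by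
  have h1 : ∀ s ∈ Set.Icc (y - 1) y, ‖f1 (s + 1) - f1 s‖ ≤ M := by
    intro s hs
    have h2 := Convex.norm_image_sub_le_of_norm_hasDerivWithin_le (f := f1) (f' := f2) (s := Set.Icc s (s + 1))
      (x := s) (y := s + 1) (C := M)
      (fun z hz => ((h z ⟨by linarith [hs.1, hz.1], by linarith [hs.2, hz.2]⟩).2.1).hasDerivWithinAt)
      (fun z hz => (h z ⟨by linarith [hs.1, hz.1], by linarith [hs.2, hz.2]⟩).2.2) (convex_Icc _ _)
      (Set.left_mem_Icc.2 (by linarith)) (Set.right_mem_Icc.2 (by linarith))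
    have h3 : ‖s + 1 - s‖ = (1 : ℝ) := by
      rw [add_sub_cancel_left, norm_one]
    rw [h3, mul_one] at h2
    exact h2
  have h4 : ∀ s ∈ Set.Icc (y - 1) y, HasDerivAt (fun s => f (s + 1) - f s) (f1 (s + 1) - f1 s) s := by
    intro s hs
    have h5 := (h (s + 1) ⟨by linarith [hs.1], by linarith [hs.2]⟩).1.comp_add_const s 1
    exact h5.sub (h s ⟨hs.1, by linarith [hs.2]⟩).1
  have h6 := Convex.norm_image_sub_le_of_norm_hasDerivWithin_le (f := fun s => f (s + 1) - f s)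
    (f' := fun s => f1 (s + 1) - f1 s) (s := Set.Icc (y - 1) y) (x := y - 1) (y := y) (C := M)
    (fun z hz => (h4 z hz).hasDerivWithinAt) h1 (convex_Icc _ _)
    (Set.left_mem_Icc.2 (by linarith)) (Set.right_mem_Icc.2 (by linarith))
  have h3 : ‖y - (y - 1)‖ = (1 : ℝ) := by
    rw [sub_sub_cancel, norm_one]
  rw [h3, mul_one] at h6
  have h7 : f (y + 1) - 2 * f y + f (y - 1) = (f (y + 1) - f y) - (f (y - 1 + 1) - f (y - 1)) := by
    rw [sub_add_cancel]
    ring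
  rw [h7]
  exact h6

def EF_x1 (t u : ℝ) : ℂ := xit u t * (((t / u : ℝ) : ℂ) * I)

def EF_x2 (t u : ℝ) : ℂ := xit u t * (((t / u : ℝ) : ℂ) * I) * (((t / u : ℝ) : ℂ) * I) +
  xit u t * (((-(t / u ^ 2) : ℝ) : ℂ) * I)

theorem EF_x1d (t u : ℝ) (hu : 0 < u) : HasDerivAt (EF_x1 t) (EF_x2 t u) u := by
  have h1 : HasDerivAt (fun u : ℝ => t / u) (-(t / u ^ 2)) u := by
    have h2 := (hasDerivAt_inv hu.ne').const_mul t
    have h3 : t * -(u ^ 2)⁻¹ = -(t / u ^ 2) := by ring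
    rw [h3] at h2
    exact h2
  exact (MInt_xit_deriv t u hu).mul (h1.ofReal_comp.mul_const I)

theorem EF_x1n (t u : ℝ) (hu : 0 < u) : ‖EF_x1 t u‖ = |t| / u := by
  unfold EF_x1
  rw [norm_mul, norm_mul, MInt_xit_norm, Complex.norm_real, Complex.norm_I, mul_one, one_mul, Real.norm_eq_abs,
    abs_div, abs_of_pos hu]

theorem EF_x2n (t u : ℝ) (hu : 0 < u) : ‖EF_x2 t u‖ ≤ (t ^ 2 + |t|) / u ^ 2 := by
  unfold EF_x2
  refine (norm_add_le _ _).trans ?_
  simp only [norm_mul, MInt_xit_norm, Complex.norm_real, Complex.norm_I, mul_one, one_mul, Real.norm_eq_abs,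
    abs_div, abs_neg, abs_of_pos hu, abs_of_pos (pow_pos hu 2)]
  have h1 : |t| * |t| = t ^ 2 := by rw [abs_mul_abs_self, sq]
  apply le_of_eq
  rw [div_mul_div_comm, h1]
  ring

def EF_L (t y : ℝ) : ℂ := MInt_F t (y + 1) - 2 * MInt_F t y + MInt_F t (y - 1)

def EF_L1 (t y : ℝ) : ℂ := MInt_G t (y + 1) - 2 * MInt_G t y + MInt_G t (y - 1)

def EF_L2 (t y : ℝ) : ℂ := xit (y + 1) t - 2 * xit y t + xit (y - 1) t

theorem EF_Ld (t y : ℝ) (hy : 1 < y) : HasDerivAt (EF_L t) (EF_L1 t y) y :=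
  (((MInt_Fd t (y + 1) (by linarith)).comp_add_const y 1).sub ((MInt_Fd t y (by linarith)).const_mul 2)).add
    ((MInt_Fd t (y - 1) (by linarith)).comp_sub_const y 1)

theorem EF_L1d (t y : ℝ) (hy : 1 < y) : HasDerivAt (EF_L1 t) (EF_L2 t y) y :=
  (((MInt_Gd t (y + 1) (by linarith)).comp_add_const y 1).sub ((MInt_Gd t y (by linarith)).const_mul 2)).add
    ((MInt_Gd t (y - 1) (by linarith)).comp_sub_const y 1)

theorem EF_L2c (t y : ℝ) (hy : 1 < y) : ContinuousAt (EF_L2 t) y := by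
  have h := ((((MInt_xit_deriv t (y + 1) (by linarith)).comp_add_const y 1).sub
    ((MInt_xit_deriv t y (by linarith)).const_mul 2)).add
    ((MInt_xit_deriv t (y - 1) (by linarith)).comp_sub_const y 1)).continuousAt
  exact h

theorem EF_Ln (t y : ℝ) (hy : 2 ≤ y) : ‖EF_L t y‖ ≤ 1 := by
  have h := MInt_Lt_le y t
  rw [MInt_Lt y t hy] at h
  exact h

theorem EF_L1n (t y : ℝ) (hy : 1 < y) : ‖EF_L1 t y‖ ≤ |t| / (y - 1) := by
  refine EF_diff (MInt_G t) (fun s => xit s t) (EF_x1 t) y _ fun s hs => ?_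
  have hs0 : 0 < s := by linarith [hs.1]
  refine ⟨MInt_Gd t s hs0, MInt_xit_deriv t s hs0, ?_⟩
  rw [EF_x1n t s hs0]
  exact div_le_div_of_nonneg_left (abs_nonneg t) (by linarith) hs.1

theorem EF_L2n (t y : ℝ) (hy : 1 < y) : ‖EF_L2 t y‖ ≤ (t ^ 2 + |t|) / (y - 1) ^ 2 := by
  refine EF_diff (fun s => xit s t) (EF_x1 t) (EF_x2 t) y _ fun s hs => ?_
  have hs0 : 0 < s := by linarith [hs.1]
  refine ⟨MInt_xit_deriv t s hs0, EF_x1d t s hs0, ?_⟩
  refine (EF_x2n t s hs0).trans ?_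
  have hy1 : 0 < y - 1 := by linarith
  exact div_le_div_of_nonneg_left (by positivity) (by positivity) (pow_le_pow_left₀ hy1.le hs.1 2)

/-- The smooth factor and its derivatives. -/
def EF_p (k : ℕ) (V v : ℝ) : ℝ := Real.exp v * (V * (v / V) ^ (k + 1))

def EF_p1 (k : ℕ) (V v : ℝ) : ℝ := Real.exp v * (V * (v / V) ^ (k + 1)) + Real.exp v * ((k + 1) * (v / V) ^ k)

def EF_p2 (k : ℕ) (V v : ℝ) : ℝ := EF_p1 k V v + (Real.exp v * ((k + 1) * (v / V) ^ k) +
  Real.exp v * ((k + 1) * (k * (v / V) ^ (k - 1) * (1 / V))))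

theorem EF_pow (k : ℕ) (V v : ℝ) : HasDerivAt (fun v : ℝ => (v / V) ^ k) (k * (v / V) ^ (k - 1) * (1 / V)) v :=
  ((hasDerivAt_id v).div_const V).fun_pow k

theorem EF_pd (k : ℕ) (V v : ℝ) (hV : 0 < V) : HasDerivAt (EF_p k V) (EF_p1 k V v) v := by
  have h1 := (Real.hasDerivAt_exp v).mul ((EF_pow (k + 1) V v).const_mul V)
  refine h1.congr_deriv ?_
  unfold EF_p1
  congr 2
  push_cast
  field_simp

theorem EF_p1d (k : ℕ) (V v : ℝ) (hV : 0 < V) : HasDerivAt (EF_p1 k V) (EF_p2 k V v) v := by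
  have h1 := (EF_pd k V v hV).add ((Real.hasDerivAt_exp v).mul ((EF_pow k V v).const_mul ((k : ℝ) + 1)))
  exact h1

/-- Bounds for the smooth factor. -/
theorem EF_pn (k : ℕ) (V v A : ℝ) (hV : 0 < V) (hv : 1 ≤ v) (hA : Real.exp v * (v * (v / V) ^ k) ≤ A) :
    (0 ≤ EF_p k V v ∧ EF_p k V v ≤ A) ∧ (0 ≤ EF_p1 k V v ∧ EF_p1 k V v ≤ (k + 2) * A) ∧
      (0 ≤ EF_p2 k V v ∧ EF_p2 k V v ≤ (k + 2) ^ 2 * A) := by
  have hv0 : 0 < v := by linarith
  have hs : 0 < v / V := by positivity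
  have he := Real.exp_pos v
  have h1 : V * (v / V) ^ (k + 1) = v * (v / V) ^ k := by
    rw [pow_succ]
    field_simp
  have h2 : (v / V) ^ k ≤ v * (v / V) ^ k := le_mul_of_one_le_left (by positivity) hv
  have h3 : (k : ℝ) * (v / V) ^ (k - 1) * (1 / V) ≤ k * (v * (v / V) ^ k) := by
    rcases Nat.eq_zero_or_pos k with h | h
    · subst h
      simp
    · obtain ⟨j, rfl⟩ : ∃ j, k = j + 1 := ⟨k - 1, by omega⟩
      rw [Nat.add_sub_cancel, mul_assoc]
      apply mul_le_mul_of_nonneg_left _ (Nat.cast_nonneg _)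
      have e1 : v * (v / V) ^ (j + 1) = (v / V) ^ j * (1 / V) * (v * v) := by
        rw [pow_succ]
        ring
      rw [e1]
      exact le_mul_of_one_le_right (by positivity) (by nlinarith)
  have hp : EF_p k V v = Real.exp v * (v * (v / V) ^ k) := by
    unfold EF_p
    rw [h1]
  have hX0 : 0 ≤ Real.exp v * (v * (v / V) ^ k) := by positivity
  have g2 : Real.exp v * (((k : ℝ) + 1) * (v / V) ^ k) ≤ (k + 1) * A := by
    calc Real.exp v * (((k : ℝ) + 1) * (v / V) ^ k) = (k + 1) * (Real.exp v * (v / V) ^ k) := by ring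
      _ ≤ (k + 1) * (Real.exp v * (v * (v / V) ^ k)) := by
          apply mul_le_mul_of_nonneg_left _ (by positivity)
          exact mul_le_mul_of_nonneg_left h2 he.le
      _ ≤ (k + 1) * A := mul_le_mul_of_nonneg_left hA (by positivity)
  have g3 : Real.exp v * (((k : ℝ) + 1) * (k * (v / V) ^ (k - 1) * (1 / V))) ≤ (k + 1) * (k * A) := by
    calc Real.exp v * (((k : ℝ) + 1) * (k * (v / V) ^ (k - 1) * (1 / V))) =
        (k + 1) * (Real.exp v * (k * (v / V) ^ (k - 1) * (1 / V))) := by ring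
      _ ≤ (k + 1) * (Real.exp v * (k * (v * (v / V) ^ k))) := by
          apply mul_le_mul_of_nonneg_left _ (by positivity)
          exact mul_le_mul_of_nonneg_left h3 he.le
      _ = (k + 1) * (k * (Real.exp v * (v * (v / V) ^ k))) := by ring
      _ ≤ (k + 1) * (k * A) := by
          apply mul_le_mul_of_nonneg_left _ (by positivity)
          exact mul_le_mul_of_nonneg_left hA (by positivity)
  have hA0 : 0 ≤ A := hX0.trans hA
  have hp1 : EF_p1 k V v = EF_p k V v + Real.exp v * (((k : ℝ) + 1) * (v / V) ^ k) := rfl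
  have g4 : 0 ≤ Real.exp v * (((k : ℝ) + 1) * (v / V) ^ k) := by positivity
  have g5 : 0 ≤ Real.exp v * (((k : ℝ) + 1) * (k * (v / V) ^ (k - 1) * (1 / V))) := by positivity
  have q1 : 0 ≤ EF_p k V v ∧ EF_p k V v ≤ A := by
    rw [hp]
    exact ⟨hX0, hA⟩
  have q2 : 0 ≤ EF_p1 k V v ∧ EF_p1 k V v ≤ (k + 2) * A := by
    rw [hp1]
    constructor
    · linarith [q1.1]
    · linarith [q1.2]
  refine ⟨q1, q2, ?_, ?_⟩
  · unfold EF_p2
    linarith [q2.1]
  · unfold EF_p2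
    have hkA : 0 ≤ (k : ℝ) * A := by positivity
    linarith [q2.2]

def EF_G (k : ℕ) (V x t v : ℝ) : ℂ := (EF_p k V v : ℂ) * EF_L t (x - Real.exp v)

def EF_G1 (k : ℕ) (V x t v : ℝ) : ℂ := (EF_p1 k V v : ℂ) * EF_L t (x - Real.exp v) +
  (EF_p k V v : ℂ) * (-(Real.exp v : ℂ) * EF_L1 t (x - Real.exp v))

def EF_G2 (k : ℕ) (V x t v : ℝ) : ℂ := ((EF_p2 k V v : ℂ) * EF_L t (x - Real.exp v) +
  (EF_p1 k V v : ℂ) * (-(Real.exp v : ℂ) * EF_L1 t (x - Real.exp v))) +
  ((EF_p1 k V v : ℂ) * (-(Real.exp v : ℂ) * EF_L1 t (x - Real.exp v)) +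
  (EF_p k V v : ℂ) * (-(Real.exp v : ℂ) * EF_L1 t (x - Real.exp v) +
    -(Real.exp v : ℂ) * (-(Real.exp v : ℂ) * EF_L2 t (x - Real.exp v))))

theorem EF_ed (x v : ℝ) : HasDerivAt (fun v : ℝ => x - Real.exp v) (-Real.exp v) v :=
  (Real.hasDerivAt_exp v).const_sub x

theorem EF_Gd (k : ℕ) (V x t v : ℝ) (hV : 0 < V) (hx : 1 < x - Real.exp v) :
    HasDerivAt (EF_G k V x t) (EF_G1 k V x t v) v ∧ HasDerivAt (EF_G1 k V x t) (EF_G2 k V x t v) v := by
  have hL : HasDerivAt (fun v : ℝ => EF_L t (x - Real.exp v)) (-(Real.exp v : ℂ) * EF_L1 t (x - Real.exp v)) v := by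
    have h1 := (EF_Ld t (x - Real.exp v) hx).scomp v (EF_ed x v)
    rw [Complex.real_smul, Complex.ofReal_neg] at h1
    exact h1
  have hL1 : HasDerivAt (fun v : ℝ => EF_L1 t (x - Real.exp v)) (-(Real.exp v : ℂ) * EF_L2 t (x - Real.exp v)) v := by
    have h1 := (EF_L1d t (x - Real.exp v) hx).scomp v (EF_ed x v)
    rw [Complex.real_smul, Complex.ofReal_neg] at h1
    exact h1
  have hE : HasDerivAt (fun v : ℝ => -(Real.exp v : ℂ)) (-(Real.exp v : ℂ)) v :=
    (Real.hasDerivAt_exp v).ofReal_comp.neg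
  have hp := (EF_pd k V v hV).ofReal_comp
  have hp1 := (EF_p1d k V v hV).ofReal_comp
  exact ⟨hp.mul hL, (hp1.mul hL).add (hp.mul (hE.mul hL1))⟩

theorem EF_G2c (k : ℕ) (V x t v : ℝ) (hV : 0 < V) (hx : 1 < x - Real.exp v) : ContinuousAt (EF_G2 k V x t) v := by
  have ce : ContinuousAt (fun v : ℝ => x - Real.exp v) v := (EF_ed x v).continuousAt
  have hL : ContinuousAt (fun v : ℝ => EF_L t (x - Real.exp v)) v :=
    ContinuousAt.comp (g := EF_L t) (f := fun v : ℝ => x - Real.exp v) (EF_Ld t _ hx).continuousAt ce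
  have hL1 : ContinuousAt (fun v : ℝ => EF_L1 t (x - Real.exp v)) v :=
    ContinuousAt.comp (g := EF_L1 t) (f := fun v : ℝ => x - Real.exp v) (EF_L1d t _ hx).continuousAt ce
  have hL2 : ContinuousAt (fun v : ℝ => EF_L2 t (x - Real.exp v)) v :=
    ContinuousAt.comp (g := EF_L2 t) (f := fun v : ℝ => x - Real.exp v) (EF_L2c t _ hx) ce
  have hE : ContinuousAt (fun v : ℝ => -(Real.exp v : ℂ)) v := by fun_prop
  have hp := (EF_pd k V v hV).ofReal_comp.continuousAt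
  have hp1 := (EF_p1d k V v hV).ofReal_comp.continuousAt
  have hp2 : ContinuousAt (fun v : ℝ => (EF_p2 k V v : ℂ)) v := by
    unfold EF_p2 EF_p1
    fun_prop
  exact ((hp2.mul hL).add (hp1.mul (hE.mul hL1))).add
    ((hp1.mul (hE.mul hL1)).add (hp.mul ((hE.mul hL1).add (hE.mul (hE.mul hL2)))))

/-- The bounds for `osc_piece`. -/
theorem EF_Gn (k : ℕ) (V x t v A Y W : ℝ) (hV : 0 < V) (hv : 1 ≤ v) (hY : 1 ≤ Y) (hW : 1 ≤ W)
    (hA : Real.exp v * (v * (v / V) ^ k) ≤ A) (he : Real.exp v ≤ 2 * Y) (hx : Y ^ 2 / 4 ≤ x - Real.exp v - 1)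
    (hx2 : 2 ≤ x - Real.exp v) (ht : |t| ≤ Y * W) :
    ‖EF_G k V x t v‖ ≤ A ∧ ‖EF_G1 k V x t v‖ ≤ A * ((k + 20) * W) ∧ ‖EF_G2 k V x t v‖ ≤ A * ((k + 20) * W) ^ 2 := by
  obtain ⟨⟨p0, p1⟩, ⟨q0, q1⟩, ⟨r0, r1⟩⟩ := EF_pn k V v A hV hv hA
  have hA0 : 0 ≤ A := p0.trans p1
  have hx1 : 1 < x - Real.exp v := by linarith
  have l0 := EF_Ln t (x - Real.exp v) hx2
  have l1 := EF_L1n t (x - Real.exp v) hx1
  have l2 := EF_L2n t (x - Real.exp v) hx1
  have hE0 := Real.exp_pos v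
  have hY2 : 0 < Y ^ 2 / 4 := by positivity
  have m1 : ‖-(Real.exp v : ℂ) * EF_L1 t (x - Real.exp v)‖ ≤ 8 * W := by
    rw [norm_mul, norm_neg, Complex.norm_real, Real.norm_of_nonneg hE0.le]
    calc Real.exp v * ‖EF_L1 t (x - Real.exp v)‖ ≤ (2 * Y) * (Y * W / (Y ^ 2 / 4)) := by
          apply mul_le_mul he _ (norm_nonneg _) (by positivity)
          refine l1.trans ?_
          exact div_le_div₀ (by positivity) ht hY2 hx
      _ = 8 * W := by
          field_simp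
          norm_num
  have m2 : ‖-(Real.exp v : ℂ) * (-(Real.exp v : ℂ) * EF_L2 t (x - Real.exp v))‖ ≤ 128 * W ^ 2 := by
    rw [norm_mul, norm_mul, norm_neg, Complex.norm_real, Real.norm_of_nonneg hE0.le]
    have ht2 : t ^ 2 + |t| ≤ 2 * (Y * W) ^ 2 := by
      have e1 : t ^ 2 ≤ (Y * W) ^ 2 := by
        rw [← sq_abs t]
        exact pow_le_pow_left₀ (abs_nonneg t) ht 2
      have e2 : 1 ≤ Y * W := by nlinarith
      have e3 : |t| ≤ (Y * W) ^ 2 := ht.trans (by nlinarith)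
      linarith
    calc Real.exp v * (Real.exp v * ‖EF_L2 t (x - Real.exp v)‖) ≤
          (2 * Y) * ((2 * Y) * (2 * (Y * W) ^ 2 / (Y ^ 2 / 4) ^ 2)) := by
          apply mul_le_mul he _ (by positivity) (by positivity)
          apply mul_le_mul he _ (norm_nonneg _) (by positivity)
          refine l2.trans ?_
          apply div_le_div₀ (by positivity) ht2 (by positivity)
          exact pow_le_pow_left₀ hY2.le hx 2
      _ = 128 * W ^ 2 := by
          field_simp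
          norm_num
  have np : ‖(EF_p k V v : ℂ)‖ ≤ A := by
    rw [Complex.norm_real, Real.norm_of_nonneg p0]
    exact p1
  have np1 : ‖(EF_p1 k V v : ℂ)‖ ≤ (k + 2) * A := by
    rw [Complex.norm_real, Real.norm_of_nonneg q0]
    exact q1
  have np2 : ‖(EF_p2 k V v : ℂ)‖ ≤ (k + 2) ^ 2 * A := by
    rw [Complex.norm_real, Real.norm_of_nonneg r0]
    exact r1
  have hk0 : (0 : ℝ) ≤ k := Nat.cast_nonneg k
  have hkA : 0 ≤ (k : ℝ) * A := mul_nonneg hk0 hA0
  have hAW : A ≤ A * W := le_mul_of_one_le_right hA0 hW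
  have hkAW : (k : ℝ) * A ≤ k * A * W := le_mul_of_one_le_right hkA hW
  refine ⟨?_, ?_, ?_⟩
  · unfold EF_G
    rw [norm_mul]
    calc _ ≤ A * 1 := mul_le_mul np l0 (norm_nonneg _) hA0
      _ = A := mul_one A
  · unfold EF_G1
    refine (norm_add_le _ _).trans ?_
    rw [norm_mul, norm_mul (EF_p k V v : ℂ)]
    have c1 : ‖(EF_p1 k V v : ℂ)‖ * ‖EF_L t (x - Real.exp v)‖ ≤ (k + 2) * A * 1 :=
      mul_le_mul np1 l0 (norm_nonneg _) (by positivity)
    have c2 : ‖(EF_p k V v : ℂ)‖ * ‖-(Real.exp v : ℂ) * EF_L1 t (x - Real.exp v)‖ ≤ A * (8 * W) :=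
      mul_le_mul np m1 (norm_nonneg _) hA0
    linarith
  · unfold EF_G2
    have c1 : ‖(EF_p2 k V v : ℂ) * EF_L t (x - Real.exp v)‖ ≤ (k + 2) ^ 2 * A * 1 := by
      rw [norm_mul]
      exact mul_le_mul np2 l0 (norm_nonneg _) (by positivity)
    have c2 : ‖(EF_p1 k V v : ℂ) * (-(Real.exp v : ℂ) * EF_L1 t (x - Real.exp v))‖ ≤ (k + 2) * A * (8 * W) := by
      rw [norm_mul]
      exact mul_le_mul np1 m1 (norm_nonneg _) (by positivity)
    have c3 : ‖(EF_p k V v : ℂ) * (-(Real.exp v : ℂ) * EF_L1 t (x - Real.exp v) +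
        -(Real.exp v : ℂ) * (-(Real.exp v : ℂ) * EF_L2 t (x - Real.exp v)))‖ ≤ A * (8 * W + 128 * W ^ 2) := by
      rw [norm_mul]
      exact mul_le_mul np ((norm_add_le _ _).trans (add_le_add m1 m2)) (norm_nonneg _) hA0
    refine (norm_add_le _ _).trans ?_
    have d1 := norm_add_le ((EF_p2 k V v : ℂ) * EF_L t (x - Real.exp v))
      ((EF_p1 k V v : ℂ) * (-(Real.exp v : ℂ) * EF_L1 t (x - Real.exp v)))
    have d2 := norm_add_le ((EF_p1 k V v : ℂ) * (-(Real.exp v : ℂ) * EF_L1 t (x - Real.exp v)))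
      ((EF_p k V v : ℂ) * (-(Real.exp v : ℂ) * EF_L1 t (x - Real.exp v) +
        -(Real.exp v : ℂ) * (-(Real.exp v : ℂ) * EF_L2 t (x - Real.exp v))))
    have hWW : 1 ≤ W ^ 2 := one_le_pow₀ hW
    have hW2 : W ≤ W ^ 2 := by nlinarith
    have hfin : (k + 2) ^ 2 * A * 1 + (k + 2) * A * (8 * W) + ((k + 2) * A * (8 * W) + A * (8 * W + 128 * W ^ 2)) ≤
        A * ((k + 20) * W) ^ 2 := by
      have e1 : (k + 2) ^ 2 * A * 1 + (k + 2) * A * (8 * W) + ((k + 2) * A * (8 * W) + A * (8 * W + 128 * W ^ 2)) =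
          A * ((k + 2) ^ 2 * 1 + (16 * (k + 2) + 8) * W + 128 * W ^ 2) := by ring
      rw [e1]
      apply mul_le_mul_of_nonneg_left _ hA0
      have e2 : ((k : ℝ) + 2) ^ 2 * 1 ≤ (k + 2) ^ 2 * W ^ 2 := mul_le_mul_of_nonneg_left hWW (by positivity)
      have e3 : (16 * ((k : ℝ) + 2) + 8) * W ≤ (16 * (k + 2) + 8) * W ^ 2 := mul_le_mul_of_nonneg_left hW2 (by positivity)
      have e4 : 0 ≤ (k : ℝ) * W ^ 2 := by positivity
      have e5 : ((k + 20) * W) ^ 2 = ((k : ℝ) + 2) ^ 2 * W ^ 2 + (16 * (k + 2) + 8) * W ^ 2 + 128 * W ^ 2 +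
          20 * (k * W ^ 2) + 228 * W ^ 2 := by ring
      rw [e5]
      linarith
    linarith

/-- Continuity and integrability. -/
theorem EF_H (w c : ℝ) (hw : 0 < w) (G : ℝ → ℂ) (hG : ∀ v ∈ Set.Icc (c - w) (c + w), ContinuousAt G v) :
    Continuous (fun v : ℝ => (tent ((v - c) / w) : ℂ) * G v) ∧
      Integrable (fun v : ℝ => (tent ((v - c) / w) : ℂ) * G v) := by
  have hz : ∀ v : ℝ, v ∉ Set.Icc (c - w) (c + w) → (tent ((v - c) / w) : ℂ) * G v = 0 := by
    intro v hv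
    have h1 : 1 ≤ |(v - c) / w| := by
      rw [abs_div, abs_of_pos hw, le_div_iff₀ hw, one_mul]
      by_contra h2
      rw [not_le, abs_lt] at h2
      exact hv ⟨by linarith [h2.1], by linarith [h2.2]⟩
    rw [STe_supp _ h1, Complex.ofReal_zero, zero_mul]
  have hc : Continuous (fun v : ℝ => (tent ((v - c) / w) : ℂ) * G v) := by
    rw [continuous_iff_continuousAt]
    intro v
    by_cases hv : v ∈ Set.Icc (c - w) (c + w)
    · exact ((STe_hasInt w c hw).1.continuousAt).mul (hG v hv)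
    · have h1 : (fun v : ℝ => (tent ((v - c) / w) : ℂ) * G v) =ᶠ[nhds v] fun _ => 0 := by
        filter_upwards [isClosed_Icc.isOpen_compl.mem_nhds hv] with y hy
        exact hz y hy
      exact (continuousAt_const (y := (0 : ℂ))).congr h1.symm
  refine ⟨hc, hc.integrable_of_hasCompactSupport ?_⟩
  exact HasCompactSupport.intro (K := Set.Icc (c - w) (c + w)) isCompact_Icc hz

/-- The trivial bound for the Dirichlet polynomial. -/
theorem EF_DP (Y : ℝ) (μ j₀ : ℕ) (i : CC) (u : ℝ) (hY : 3 ≤ Y) (hμ : 8 ≤ μ) (hj : 2 ≤ j₀) (hj' : j₀ ≤ μ) :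
    ‖DP (NN Y) (qY Y μ j₀) i.2 u‖ ≤ 160 * μ * Real.log Y := by
  refine (DP_le _ _ _ _).trans ?_
  have hY0 : 0 < Y := by linarith
  have h1 : ∑ n ∈ Icc 1 (NN Y), |qY Y μ j₀ n| / n ≤ 20 * μ * ∑ n ∈ Icc 1 (NN Y), ((n : ℝ))⁻¹ := by
    rw [Finset.mul_sum]
    refine Finset.sum_le_sum fun n _ => ?_
    obtain ⟨-, g1, -, g2, -⟩ := q_props Y μ j₀ n hY hμ hj hj'
    rw [abs_of_nonneg g1, div_eq_mul_inv]
    exact mul_le_mul_of_nonneg_right g2 (by positivity)
  have h2 : ∑ n ∈ Icc 1 (NN Y), ((n : ℝ))⁻¹ ≤ 1 + Real.log (NN Y) := by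
    have h3 := harmonic_le_one_add_log (NN Y)
    rw [harmonic_eq_sum_Icc] at h3
    push_cast at h3
    exact h3
  have h3 : Real.log (NN Y) ≤ 7 * Real.log Y := by
    have h4 : (NN Y : ℝ) ≤ Y ^ 7 := by
      have h5 : (NN Y : ℝ) < Y ^ 6 + 1 := Nat.ceil_lt_add_one (by positivity)
      have h6 : 1 ≤ Y ^ 6 := one_le_pow₀ (by linarith)
      have h7 : Y ^ 7 = Y ^ 6 * Y := by ring
      nlinarith
    have h5 : (0 : ℝ) < NN Y := by
      have : 0 < NN Y := Nat.ceil_pos.2 (by positivity)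
      exact_mod_cast this
    have h6 := Real.log_le_log h5 h4
    rw [Real.log_pow] at h6
    push_cast at h6
    exact h6
  have h4 : 1 ≤ Real.log Y := by
    rw [Real.le_log_iff_exp_le hY0]
    have := Real.exp_one_lt_d9
    linarith
  calc _ ≤ 20 * μ * ∑ n ∈ Icc 1 (NN Y), ((n : ℝ))⁻¹ := h1
    _ ≤ 20 * μ * (8 * Real.log Y) := by
        apply mul_le_mul_of_nonneg_left _ (by positivity)
        linarith
    _ = _ := by ring

/-- The sum with the smooth function. -/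
theorem EF_S (k : ℕ) (Y : ℝ) (μ j₀ : ℕ) (i : CC) (x : ℕ) (t : ℝ) (hl0 : 0 < l0) (hY30 : 30 ≤ Y)
    (hx2Y : 2 * Y + 2 ≤ x) :
    ∑ m ∈ Icc 1 ⌊2 * Y⌋₊, ((ww k Y m * qY Y μ j₀ m : ℝ) : ℂ) * i.2 (m : ZMod i.1) * Lt ((x - m : ℕ) : ℝ) t =
      ∑ m ∈ Icc 1 (NN Y), ((qY Y μ j₀ m / m : ℝ) : ℂ) * i.2 (m : ZMod i.1) *
        ((tent ((Real.log m - vY Y) / l0) : ℂ) * EF_G k (vY Y) x t (Real.log m)) := by
  have hY1 : 1 ≤ Y := by linarith
  have hY0 : 0 < Y := by linarith
  have hlog1 : 1 ≤ Real.log Y := by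
    rw [Real.le_log_iff_exp_le hY0]
    have := Real.exp_one_lt_d9
    linarith
  set V := vY Y with hV
  have hVeq : V = Real.log Y + l0 := rfl
  have hV0 : 0 < V := by linarith
  have hlog2 : Real.log 2 = 2 * l0 := by
    unfold l0
    ring
  have hsub : Icc 1 ⌊2 * Y⌋₊ ⊆ Icc 1 (NN Y) := by
    apply Finset.Icc_subset_Icc le_rfl
    have h1 : (⌊2 * Y⌋₊ : ℝ) ≤ 2 * Y := Nat.floor_le (by positivity)
    have h2 : Y ^ 6 ≤ NN Y := Nat.le_ceil _
    have h3 : 2 * Y ≤ Y ^ 6 := by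
      have h4 : Y ^ 2 ≤ Y ^ 6 := pow_le_pow_right₀ hY1 (by norm_num)
      nlinarith
    exact_mod_cast (h1.trans (h3.trans h2))
  rw [← Finset.sum_subset hsub]
  · refine Finset.sum_congr rfl fun m hm => ?_
    rw [Finset.mem_Icc] at hm
    have hm1 : 1 ≤ m := hm.1
    have hm0 : (0 : ℝ) < m := by exact_mod_cast hm1
    have hm2 : (m : ℝ) ≤ 2 * Y := (Nat.le_floor_iff (by positivity)).1 hm.2
    have hmx : m ≤ x := by
      have : (m : ℝ) ≤ x := by linarith
      exact_mod_cast this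
    have hL : Lt ((x - m : ℕ) : ℝ) t = EF_L t (x - Real.exp (Real.log m)) := by
      rw [Real.exp_log hm0, Nat.cast_sub hmx, MInt_Lt _ _ (by linarith)]
      rfl
    have htp : tp (Real.log m - V) = tent ((Real.log m - V) / l0) := by
      unfold tp tent
      rw [abs_div, abs_of_pos hl0]
    have hww : ww k Y m = tent ((Real.log m - V) / l0) * (Real.log m / V) ^ k * Real.log m := by
      unfold ww
      rw [← htp]
      rfl
    rw [hL, hww]
    unfold EF_G EF_p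
    rw [Real.exp_log hm0]
    have hpw : V * (Real.log m / V) ^ (k + 1) = Real.log m * (Real.log m / V) ^ k := by
      rw [pow_succ]
      field_simp
    rw [hpw]
    have hmc : (m : ℂ) ≠ 0 := by
      have : m ≠ 0 := by omega
      exact_mod_cast this
    push_cast
    field_simp
  · intro m hm hm2
    rw [Finset.mem_Icc] at hm hm2
    have hm1 : 1 ≤ m := hm.1
    have hm0 : (0 : ℝ) < m := by exact_mod_cast hm1
    have hm3 : 2 * Y ≤ m := by
      have : ⌊2 * Y⌋₊ < m := by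
        by_contra hc
        exact hm2 ⟨hm1, not_lt.1 hc⟩
      exact ((Nat.floor_lt (by positivity)).1 this).le
    have hlm : V + l0 ≤ Real.log m := by
      have h1 := Real.log_le_log (by positivity) hm3
      rw [Real.log_mul (by norm_num) hY0.ne', hlog2] at h1
      linarith
    have h1 : 1 ≤ |(Real.log m - V) / l0| := by
      rw [abs_div, abs_of_pos hl0, le_div_iff₀ hl0, one_mul]
      refine le_trans ?_ (le_abs_self _)
      linarith
    rw [STe_supp _ h1, Complex.ofReal_zero, zero_mul, mul_zero]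

/-- The size of the tail. -/
theorem EF_tail (k : ℕ) (Y c C₁ μ : ℝ) (hC₁ : 1 ≤ C₁) (hμ0 : 8 ≤ μ) (hc : 0 < c) (hY30 : 30 ≤ Y)
    (hY : 30 + (C₁ * (4 * 2 ^ k) * ((k : ℝ) + 21) ^ 2 * (160 * μ) * (16 / c ^ 2)) ^ (1 / c) ≤ Y) :
    C₁ * (4 * 2 ^ k * (Y * Real.log Y)) * (1 + (k + 20) * Y ^ c) ^ 2 * (160 * μ * Real.log Y) / Y ^ (4 * c) ≤
      Y ^ (1 - c / 2) := by
  have hY1 : 1 ≤ Y := by linarith
  have hY0 : 0 < Y := by linarith
  have hlog1 : 1 ≤ Real.log Y := by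
    rw [Real.le_log_iff_exp_le hY0]
    have := Real.exp_one_lt_d9
    linarith
  set M := C₁ * (4 * 2 ^ k) * ((k : ℝ) + 21) ^ 2 * (160 * μ) * (16 / c ^ 2) with hM
  have hM0 : 0 < M := by positivity
  have hMp : 0 ≤ M ^ (1 / c) := by positivity
  set W := Y ^ c with hW
  have hW1 : 1 ≤ W := Real.one_le_rpow hY1 hc.le
  have hW0 : 0 < W := by linarith
  have hA0 : 0 ≤ 4 * 2 ^ k * (Y * Real.log Y) := by positivity
  have hT : Y ^ (4 * c) = W ^ 4 := by
    rw [hW, ← Real.rpow_natCast, ← Real.rpow_mul hY0.le]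
    congr 1
    push_cast
    ring
  have hW2 : Y ^ (-(2 * c)) = 1 / W ^ 2 := by
    rw [Real.rpow_neg hY0.le, hW, ← Real.rpow_natCast, ← Real.rpow_mul hY0.le, one_div]
    congr 2
    push_cast
    ring
  have e2 : (1 + ((k : ℝ) + 20) * W) ^ 2 ≤ ((k + 21) * W) ^ 2 := by
    apply pow_le_pow_left₀ (by positivity)
    linarith
  have e3 : Real.log Y ≤ 4 / c * Y ^ (c / 4) := by
    have h1 := Real.log_le_rpow_div hY0.le (show 0 < c / 4 by positivity)
    calc Real.log Y ≤ Y ^ (c / 4) / (c / 4) := h1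
      _ = 4 / c * Y ^ (c / 4) := by
          field_simp
  have e4 : Real.log Y * Real.log Y ≤ 16 / c ^ 2 * Y ^ (c / 2) := by
    calc Real.log Y * Real.log Y ≤ (4 / c * Y ^ (c / 4)) * (4 / c * Y ^ (c / 4)) :=
          mul_le_mul e3 e3 (by linarith) (by positivity)
      _ = 16 / c ^ 2 * (Y ^ (c / 4) * Y ^ (c / 4)) := by
          field_simp
          norm_num
      _ = 16 / c ^ 2 * Y ^ (c / 2) := by
          rw [← Real.rpow_add hY0]
          congr 2
          ring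
  have e5 : M ≤ Y ^ c := by
    calc M = (M ^ (1 / c)) ^ c := by
          rw [← Real.rpow_mul hM0.le]
          have h9 : 1 / c * c = 1 := by field_simp
          rw [h9, Real.rpow_one]
      _ ≤ Y ^ c := Real.rpow_le_rpow hMp (by linarith) hc.le
  calc C₁ * (4 * 2 ^ k * (Y * Real.log Y)) * (1 + ((k : ℝ) + 20) * W) ^ 2 * (160 * μ * Real.log Y) / Y ^ (4 * c)
      ≤ C₁ * (4 * 2 ^ k * (Y * Real.log Y)) * ((k + 21) * W) ^ 2 * (160 * μ * Real.log Y) / Y ^ (4 * c) := by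
        apply div_le_div_of_nonneg_right _ (by positivity)
        apply mul_le_mul_of_nonneg_right _ (by positivity)
        exact mul_le_mul_of_nonneg_left e2 (by positivity)
    _ = C₁ * (4 * 2 ^ k) * ((k : ℝ) + 21) ^ 2 * (160 * μ) * (Real.log Y * Real.log Y) * Y * Y ^ (-(2 * c)) := by
        rw [hT, hW2]
        field_simp
    _ ≤ C₁ * (4 * 2 ^ k) * ((k : ℝ) + 21) ^ 2 * (160 * μ) * (16 / c ^ 2 * Y ^ (c / 2)) * Y * Y ^ (-(2 * c)) := by
        apply mul_le_mul_of_nonneg_right _ (Real.rpow_nonneg hY0.le _)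
        apply mul_le_mul_of_nonneg_right _ hY0.le
        exact mul_le_mul_of_nonneg_left e4 (by positivity)
    _ = M * (Y ^ (c / 2) * Y ^ (1 : ℝ) * Y ^ (-(2 * c))) := by
        rw [hM, Real.rpow_one]
        ring
    _ ≤ Y ^ c * (Y ^ (c / 2) * Y ^ (1 : ℝ) * Y ^ (-(2 * c))) := mul_le_mul_of_nonneg_right e5 (by positivity)
    _ = Y ^ (1 - c / 2) := by
        rw [← Real.rpow_add hY0, ← Real.rpow_add hY0, ← Real.rpow_add hY0]
        congr 1
        ring

/-- **The sum over the small variable.** The constant `C` depends only on `k`.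

Proof. `ww k Y m = tent ((log m - vY Y) / l0) (log m / vY Y) ^ k log m`. Let
`G v = exp v (v / vY Y) ^ k v Lt (x - exp v) t` on `[log Y, log (2 Y)]`: by `LtMt`-like formulas (`Lt y t = ∫ (1 - |θ|) (y + θ) ^ (i t) dθ`,
derivatives in `y` of size `|t| / y` and `(|t| / y) ^ 2`, `|t| / x ≤ 3 Y ^ (c - 1)`, `exp v ≤ 2 Y`) one has the bounds `A = C Y log Y`,
`B = C Y ^ c` of `osc_piece`. With `Φ u = ∫ tent G e ^ (- i u v) dv` Fourier inversion gives
`∑_m = ∑_m qY (m) χ (m) / m (tent G) (log m) = (1 / 2 π) ∫ Φ (u) DP (qY) χ (- u) du`. The part `|u| ≤ Y ^ (4 c)` is at most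
`C Y log Y ∫ |DP|`, the rest at most `C Y log Y Y ^ (2 c) Y ^ (- 4 c)` times a bound for `|DP|`
(`qY ≤ 20 μ rh`, `rough_mass`). -/
theorem msum (k : ℕ) : ∃ C : ℝ, 1 ≤ C ∧ ∀ (μ j₀ : ℕ) (c : ℝ), 8 ≤ μ → 2 ≤ j₀ → j₀ ≤ μ → 0 < c → c ≤ 1 / 100 →
    ∃ Y₀ : ℝ, 3 ≤ Y₀ ∧ ∀ (Y t : ℝ) (i : CC) (x : ℕ), Y₀ ≤ Y → |t| ≤ Y ^ (1 + c) → Y ^ 2 / 3 ≤ x →
      (x : ℝ) ≤ 2 * Y ^ 2 →
        ‖∑ m ∈ Icc 1 ⌊2 * Y⌋₊, ((ww k Y m * qY Y μ j₀ m : ℝ) : ℂ) * i.2 (m : ZMod i.1) * Lt ((x - m : ℕ) : ℝ) t‖ ≤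
          C * Y * Real.log Y * (∫ u in (-Y ^ (4 * c))..(Y ^ (4 * c)), ‖DP (NN Y) (qY Y μ j₀) i.2 u‖) + Y ^ (1 - c / 2) := by
  have hl0 : 0 < l0 := by
    unfold l0
    have := Real.log_pos (show (1 : ℝ) < 2 by norm_num)
    linarith
  obtain ⟨C₁, hC₁, HO⟩ := osc_piece l0 hl0
  have h2k : (1 : ℝ) ≤ 2 ^ k := one_le_pow₀ (by norm_num)
  refine ⟨C₁ * (4 * 2 ^ k), by nlinarith, ?_⟩
  intro μ j₀ c hμ hj hj' hc hc1
  set M := C₁ * (4 * 2 ^ k) * ((k : ℝ) + 21) ^ 2 * (160 * μ) * (16 / c ^ 2) with hM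
  have hμ0 : (8 : ℝ) ≤ μ := by exact_mod_cast hμ
  have hM0 : 0 < M := by positivity
  have hMp : 0 ≤ M ^ (1 / c) := by positivity
  refine ⟨30 + M ^ (1 / c), by linarith, ?_⟩
  intro Y t i x hY ht hx1 hx2
  have hY30 : 30 ≤ Y := by linarith
  have hY3 : 3 ≤ Y := by linarith
  have hY1 : 1 ≤ Y := by linarith
  have hY0 : 0 < Y := by linarith
  have hlog1 : 1 ≤ Real.log Y := by
    rw [Real.le_log_iff_exp_le hY0]
    have := Real.exp_one_lt_d9
    linarith
  set V := vY Y with hV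
  have hVeq : V = Real.log Y + l0 := rfl
  have hV0 : 0 < V := by linarith
  have hlog2 : Real.log 2 = 2 * l0 := by
    unfold l0
    ring
  set W := Y ^ c with hW
  have hW1 : 1 ≤ W := Real.one_le_rpow hY1 hc.le
  have hW0 : 0 < W := by linarith
  set A := 4 * 2 ^ k * (Y * Real.log Y) with hA
  have hA0 : 0 ≤ A := by positivity
  have ht' : |t| ≤ Y * W := by
    rw [Real.rpow_add hY0, Real.rpow_one] at ht
    exact ht
  -- the interval
  have hI : ∀ v ∈ Set.Icc (V - l0) (V + l0), 1 ≤ v ∧ v ≤ 2 * Real.log Y ∧ v / V ≤ 2 ∧ Real.exp v ≤ 2 * Y := by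
    intro v hv
    have h1 : Real.log Y ≤ v := by
      have := hv.1
      linarith
    have h2 : v ≤ Real.log (2 * Y) := by
      rw [Real.log_mul (by norm_num) hY0.ne', hlog2]
      have := hv.2
      linarith
    have h3 : v ≤ 2 * Real.log Y := by
      rw [Real.log_mul (by norm_num) hY0.ne'] at h2
      have := Real.log_le_log (by norm_num : (0 : ℝ) < 2) (by linarith : (2 : ℝ) ≤ Y)
      linarith
    refine ⟨by linarith, h3, ?_, ?_⟩
    · rw [div_le_iff₀ hV0]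
      linarith
    · rw [Real.le_log_iff_exp_le (by positivity)] at h2
      exact h2
  have hxe : ∀ v ∈ Set.Icc (V - l0) (V + l0), Y ^ 2 / 4 ≤ x - Real.exp v - 1 := by
    intro v hv
    have h1 := (hI v hv).2.2.2
    nlinarith
  have hYY : 225 ≤ Y ^ 2 / 4 := by nlinarith
  have hAv : ∀ v ∈ Set.Icc (V - l0) (V + l0), Real.exp v * (v * (v / V) ^ k) ≤ A := by
    intro v hv
    obtain ⟨h1, h2, h3, h4⟩ := hI v hv
    have h5 : 0 ≤ v / V := div_nonneg (by linarith) hV0.le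
    calc Real.exp v * (v * (v / V) ^ k) ≤ (2 * Y) * ((2 * Real.log Y) * 2 ^ k) := by
          apply mul_le_mul h4 _ (by positivity) (by positivity)
          apply mul_le_mul h2 _ (by positivity) (by positivity)
          exact pow_le_pow_left₀ h5 h3 k
      _ = A := by
          rw [hA]
          ring
  have hG : ∀ v ∈ Set.Icc (V - l0) (V + l0), HasDerivAt (EF_G k V x t) (EF_G1 k V x t v) v ∧
      HasDerivAt (EF_G1 k V x t) (EF_G2 k V x t v) v ∧ ‖EF_G k V x t v‖ ≤ A ∧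
      ‖EF_G1 k V x t v‖ ≤ A * ((k + 20) * W) ∧ ‖EF_G2 k V x t v‖ ≤ A * ((k + 20) * W) ^ 2 := by
    intro v hv
    have h1 := hxe v hv
    obtain ⟨g1, g2⟩ := EF_Gd k V x t v hV0 (by linarith)
    obtain ⟨g3, g4, g5⟩ := EF_Gn k V x t v A Y W hV0 (hI v hv).1 hY1 hW1 (hAv v hv) (hI v hv).2.2.2 h1
      (by linarith) ht'
    exact ⟨g1, g2, g3, g4, g5⟩
  have hG2 : ContinuousOn (EF_G2 k V x t) (Set.Icc (V - l0) (V + l0)) := fun v hv =>
    (EF_G2c k V x t v hV0 (by linarith [hxe v hv])).continuousWithinAt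
  obtain ⟨hH1, hH2⟩ := EF_H l0 V hl0 (EF_G k V x t) fun v hv => (hG v hv).1.continuousAt
  have hO := fun u : ℝ => HO (EF_G k V x t) (EF_G1 k V x t) (EF_G2 k V x t) V A ((k + 20) * W) u hA0
    (by positivity) hG hG2
  have hsum := EF_sum (NN Y) (qY Y μ j₀) i.2 (fun v : ℝ => (tent ((v - V) / l0) : ℂ) * EF_G k V x t v) hH1 hH2
    (C₁ * A) (C₁ * A * (1 + (k + 20) * W) ^ 2) (160 * μ * Real.log Y) (Y ^ (4 * c)) (by positivity)
    (fun u => (hO u).1) (fun u => (hO u).2) (fun u => EF_DP Y μ j₀ i u hY3 hμ hj hj')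
  -- the sum
  have hx2Y : 2 * Y + 2 ≤ x := by nlinarith
  have hS := EF_S k Y μ j₀ i x t hl0 hY30 hx2Y
  rw [hS]
  refine hsum.trans ?_
  have hI0 : 0 ≤ ∫ u in (-Y ^ (4 * c))..(Y ^ (4 * c)), ‖DP (NN Y) (qY Y μ j₀) i.2 u‖ := by
    apply intervalIntegral.integral_nonneg
    · have : 0 ≤ Y ^ (4 * c) := by positivity
      linarith
    · intro u _
      exact norm_nonneg _
  have e1 : C₁ * A * (∫ u in (-Y ^ (4 * c))..(Y ^ (4 * c)), ‖DP (NN Y) (qY Y μ j₀) i.2 u‖) =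
      C₁ * (4 * 2 ^ k) * Y * Real.log Y * (∫ u in (-Y ^ (4 * c))..(Y ^ (4 * c)), ‖DP (NN Y) (qY Y μ j₀) i.2 u‖) := by
    rw [hA]
    ring
  rw [e1]
  apply add_le_add le_rfl
  -- the tail
  exact EF_tail k Y c C₁ μ hC₁ hμ0 hc hY30 hY

end Pool.Agent.M58
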