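import Pool.Agent.W_b58c63_m1.EWeyl

/-!
# The exponential sums `∑ l ^ (- i u)` over short segments and over dyadic blocks (helper68)
-/

set_option autoImplicit false

noncomputable section

open Finset Polynomial

namespace Pool.Agent.M58

theorem EVdc_ex_sub (x y : ℝ) : ‖ex x - ex y‖ ≤ 2 * Real.pi * |x - y| := by
  have h1 : ex x - ex y = Complex.exp (Complex.I * (2 * Real.pi * x : ℝ)) -
      Complex.exp (Complex.I * (2 * Real.pi * y : ℝ)) := by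
    unfold ex
    congr 2 <;> push_cast <;> ring
  have h2 : ‖Complex.exp (Complex.I * (2 * Real.pi * x : ℝ)) -
      Complex.exp (Complex.I * (2 * Real.pi * y : ℝ))‖ ≤ ‖2 * Real.pi * x - 2 * Real.pi * y‖ := by
    have h3 := Real.norm_exp_I_mul_ofReal_sub_one_le (x := 2 * Real.pi * x - 2 * Real.pi * y)
    have h4 : Complex.exp (Complex.I * (2 * Real.pi * x : ℝ)) -
      Complex.exp (Complex.I * (2 * Real.pi * y : ℝ)) =
      Complex.exp (Complex.I * (2 * Real.pi * y : ℝ)) *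
        (Complex.exp (Complex.I * ((2 * Real.pi * x - 2 * Real.pi * y : ℝ) : ℂ)) - 1) := by
      rw [mul_sub, mul_one, ← Complex.exp_add]
      congr 2
      push_cast
      ring
    rw [h4, norm_mul]
    have h5 : ‖Complex.exp (Complex.I * (2 * Real.pi * y : ℝ))‖ = 1 := by
      rw [mul_comm]
      exact Complex.norm_exp_ofReal_mul_I _
    rw [h5, one_mul]
    exact h3
  rw [h1]
  refine h2.trans (le_of_eq ?_)
  rw [Real.norm_eq_abs, ← mul_sub, abs_mul, abs_of_pos (by positivity)]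

theorem EVdc_nit (n : ℕ) (hn : 1 ≤ n) (u : ℝ) : nit n u = ex (-(u / (2 * Real.pi)) * Real.log n) := by
  unfold nit ex
  have hn0 : (n : ℂ) ≠ 0 := by
    exact_mod_cast (by omega : n ≠ 0)
  rw [Complex.cpow_def_of_ne_zero hn0]
  have h1 : Complex.log (n : ℂ) = ((Real.log n : ℝ) : ℂ) := by
    rw [Complex.natCast_log]
  rw [h1]
  congr 1
  have hpi : (Real.pi : ℂ) ≠ 0 := by exact_mod_cast Real.pi_ne_zero
  push_cast
  field_simp

theorem EVdc_log (d : ℕ) (y : ℝ) (hy : 0 ≤ y) :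
    |Real.log (1 + y) - ∑ i ∈ Icc 1 d, (-1) ^ (i + 1) * y ^ i / i| ≤ y ^ (d + 1) := by
  have hderiv : ∀ x ∈ Set.Icc (0 : ℝ) y, HasDerivWithinAt
      (fun x : ℝ => Real.log (1 + x) - ∑ i ∈ Icc 1 d, (-1) ^ (i + 1) * x ^ i / i)
      ((-x) ^ d / (1 + x)) (Set.Icc 0 y) x := by
    intro x hx
    have hx1 : 1 + x ≠ 0 := by linarith [hx.1]
    have h1 : HasDerivAt (fun x : ℝ => Real.log (1 + x)) (1 / (1 + x)) x := by
      have := ((hasDerivAt_id x).const_add 1).log hx1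
      exact this
    have h2 : HasDerivAt (fun x : ℝ => ∑ i ∈ Icc 1 d, (-1) ^ (i + 1) * x ^ i / i)
        (∑ i ∈ Icc 1 d, (-x) ^ (i - 1)) x := by
      refine HasDerivAt.fun_sum fun i hi => ?_
      rw [mem_Icc] at hi
      have h3 : HasDerivAt (fun x : ℝ => (-1) ^ (i + 1) * x ^ i / i)
          ((-1) ^ (i + 1) * (i * x ^ (i - 1)) / i) x :=
        ((hasDerivAt_pow i x).const_mul _).div_const _
      refine h3.congr_deriv ?_
      have hi0 : (i : ℝ) ≠ 0 := by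
        exact_mod_cast (by omega : i ≠ 0)
      obtain ⟨k, rfl⟩ : ∃ k, i = k + 1 := ⟨i - 1, by omega⟩
      rw [Nat.add_sub_cancel]
      field_simp
      rw [neg_pow x k, pow_add, pow_add]
      ring
    refine ((h1.sub h2).congr_deriv ?_).hasDerivWithinAt
    have h4 : ∑ i ∈ Icc 1 d, (-x) ^ (i - 1) = ∑ i ∈ range d, (-x) ^ i := by
      rw [Finset.range_eq_Ico, Finset.sum_Ico_eq_sum_range, ← Finset.Ico_succ_right_eq_Icc,
        Finset.sum_Ico_eq_sum_range]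
      simp
    have h5 := geom_sum_mul_neg (-x) d
    rw [h4]
    have h6 : ∑ i ∈ range d, (-x) ^ i = (1 - (-x) ^ d) / (1 + x) := by
      rw [eq_div_iff hx1, ← h5]
      ring
    rw [h6]
    ring
  have hbound : ∀ x ∈ Set.Icc (0 : ℝ) y, ‖(-x) ^ d / (1 + x)‖ ≤ y ^ d := by
    intro x hx
    rw [norm_div, norm_pow, norm_neg, Real.norm_of_nonneg hx.1,
      Real.norm_of_nonneg (by linarith [hx.1] : (0 : ℝ) ≤ 1 + x)]
    calc x ^ d / (1 + x) ≤ x ^ d := div_le_self (pow_nonneg hx.1 _) (by linarith [hx.1])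
      _ ≤ y ^ d := pow_le_pow_left₀ hx.1 hx.2 _
  have key := (convex_Icc (0 : ℝ) y).norm_image_sub_le_of_norm_hasDerivWithin_le hderiv hbound
    (Set.left_mem_Icc.2 hy) (Set.right_mem_Icc.2 hy)
  have h0 : ∑ i ∈ Icc 1 d, (-1 : ℝ) ^ (i + 1) * (0 : ℝ) ^ i / i = 0 := by
    refine Finset.sum_eq_zero fun i hi => ?_
    rw [mem_Icc] at hi
    rw [zero_pow (by omega)]
    simp
  simp only [add_zero, Real.log_one, h0, sub_zero] at key
  rw [Real.norm_eq_abs, Real.norm_of_nonneg hy, ← pow_succ] at key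
  exact key

/-- The Taylor polynomial of `y ↦ - u / (2 π) log (l₀ + q y)` of degree `d`. -/
def tay (d : ℕ) (u l₀ q : ℝ) : ℝ[X] :=
  C (-(u / (2 * Real.pi)) * Real.log l₀) +
    ∑ i ∈ Icc 1 d, C (-(u / (2 * Real.pi)) * (-1) ^ (i + 1) * (q / l₀) ^ i / i) * X ^ i

theorem EVdc_eval (d : ℕ) (u l₀ q x : ℝ) : (tay d u l₀ q).eval x =
    -(u / (2 * Real.pi)) * (Real.log l₀ +
      ∑ i ∈ Icc 1 d, (-1) ^ (i + 1) * (q * x / l₀) ^ i / i) := by
  unfold tay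
  rw [eval_add, eval_C, eval_finsetSum, mul_add, mul_sum]
  congr 1
  refine sum_congr rfl fun i _ => ?_
  rw [eval_mul, eval_C, eval_pow, eval_X, mul_div_right_comm q x l₀, mul_pow]
  ring

/-- `|log (1 + y) - ∑_{i ≤ d} (- 1) ^ (i + 1) y ^ i / i| ≤ y ^ (d + 1)` for `0 ≤ y ≤ 1`, so the phase of
`(l₀ + q j) ^ (- i u)` is the Taylor polynomial up to an error. -/
theorem nit_tay (d : ℕ) (u : ℝ) (l₀ q j : ℕ) (hl : 1 ≤ l₀) (hj : q * j ≤ l₀) :
    ‖nit (l₀ + q * j) u - ex ((tay d u l₀ q).eval (j : ℝ))‖ ≤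
      |u| * ((q * j : ℕ) / (l₀ : ℝ)) ^ (d + 1) := by
  have hl0 : (0 : ℝ) < l₀ := by exact_mod_cast hl
  rw [EVdc_nit _ (by omega)]
  refine (EVdc_ex_sub _ _).trans ?_
  rw [EVdc_eval]
  have hy : (0 : ℝ) ≤ (q * j : ℕ) / (l₀ : ℝ) := by positivity
  have h1 := EVdc_log d _ hy
  have h2 : Real.log ((l₀ + q * j : ℕ) : ℝ) =
      Real.log l₀ + Real.log (1 + (q * j : ℕ) / (l₀ : ℝ)) := by
    rw [← Real.log_mul hl0.ne' (by positivity)]
    congr 1
    push_cast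
    field_simp
  have h3 : -(u / (2 * Real.pi)) * Real.log ((l₀ + q * j : ℕ) : ℝ) -
      -(u / (2 * Real.pi)) * (Real.log l₀ +
        ∑ i ∈ Icc 1 d, (-1) ^ (i + 1) * ((q : ℝ) * j / l₀) ^ i / i) =
      -(u / (2 * Real.pi)) * (Real.log (1 + (q * j : ℕ) / (l₀ : ℝ)) -
        ∑ i ∈ Icc 1 d, (-1) ^ (i + 1) * ((q * j : ℕ) / (l₀ : ℝ)) ^ i / i) := by
    rw [h2]
    push_cast
    ring
  rw [h3, abs_mul, abs_neg, abs_div, abs_of_pos (by positivity : (0 : ℝ) < 2 * Real.pi)]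
  have hpi : 0 < 2 * Real.pi := by positivity
  calc 2 * Real.pi * (|u| / (2 * Real.pi) * |Real.log (1 + (q * j : ℕ) / (l₀ : ℝ)) -
        ∑ i ∈ Icc 1 d, (-1) ^ (i + 1) * ((q * j : ℕ) / (l₀ : ℝ)) ^ i / i|)
      = |u| * |Real.log (1 + (q * j : ℕ) / (l₀ : ℝ)) -
        ∑ i ∈ Icc 1 d, (-1) ^ (i + 1) * ((q * j : ℕ) / (l₀ : ℝ)) ^ i / i| := by
        field_simp
    _ ≤ |u| * ((q * j : ℕ) / (l₀ : ℝ)) ^ (d + 1) :=
        mul_le_mul_of_nonneg_left h1 (abs_nonneg _)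

theorem EVdc_deg (d : ℕ) (u l₀ q : ℝ) : (tay d u l₀ q).natDegree ≤ d := by
  unfold tay
  refine natDegree_add_le_of_degree_le ?_ ?_
  · rw [natDegree_C]; exact Nat.zero_le _
  · refine natDegree_sum_le_of_forall_le _ _ fun i hi => ?_
    rw [mem_Icc] at hi
    exact (natDegree_C_mul_X_pow_le _ _).trans hi.2

theorem EVdc_coeff (d : ℕ) (hd : 1 ≤ d) (u l₀ q : ℝ) : (tay d u l₀ q).coeff d =
    -(u / (2 * Real.pi)) * (-1) ^ (d + 1) * (q / l₀) ^ d / d := by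
  unfold tay
  rw [coeff_add, coeff_C, if_neg (by omega), zero_add, finsetSum_coeff,
    sum_eq_single d]
  · rw [coeff_C_mul, coeff_X_pow, if_pos rfl, mul_one]
  · intro i _ hi
    rw [coeff_C_mul, coeff_X_pow, if_neg hi.symm, mul_zero]
  · intro h
    exact absurd (mem_Icc.2 ⟨hd, le_rfl⟩) h

theorem EVdc_abs_coeff (d : ℕ) (hd : 1 ≤ d) (u l₀ q : ℝ) (hl : 0 < l₀) (hq : 0 < q) :
    |(tay d u l₀ q).coeff d| = |u| * (q / l₀) ^ d / (2 * Real.pi * d) := by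
  rw [EVdc_coeff d hd, abs_div, abs_mul, abs_mul, abs_neg, abs_div, abs_pow, abs_neg, abs_one,
    one_pow, abs_of_pos (by positivity : (0 : ℝ) < 2 * Real.pi),
    abs_of_nonneg (by positivity : (0 : ℝ) ≤ (q / l₀) ^ d), Nat.abs_cast]
  have hd0 : (0 : ℝ) < d := by exact_mod_cast hd
  field_simp

theorem EVdc_logpow (d : ℕ) (δ : ℝ) (hδ : 0 < δ) : ∃ C : ℝ, 1 ≤ C ∧ ∀ M : ℝ, 1 ≤ M →
    (1 + Real.log M) ^ (d - 1) ≤ C * M ^ (δ / 2) := by
  obtain ⟨ε, hε⟩ : ∃ ε : ℝ, ε = δ / (2 * (d + 1)) := ⟨_, rfl⟩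
  have hd1 : (0 : ℝ) < d + 1 := by positivity
  have hε0 : 0 < ε := by rw [hε]; positivity
  refine ⟨(1 + 1 / ε) ^ (d - 1), one_le_pow₀ (by
    have : 0 < 1 / ε := by positivity
    linarith), fun M hM => ?_⟩
  have hM0 : 0 < M := by linarith
  have h1 : Real.log M ≤ M ^ ε / ε := Real.log_le_rpow_div hM0.le hε0
  have h2 : (1 : ℝ) ≤ M ^ ε := Real.one_le_rpow hM hε0.le
  have h3 : 1 + Real.log M ≤ (1 + 1 / ε) * M ^ ε := by
    have : (1 + 1 / ε) * M ^ ε = M ^ ε + M ^ ε / ε := by ring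
    rw [this]
    linarith
  have h4 : 0 ≤ 1 + Real.log M := by
    have := Real.log_nonneg hM
    linarith
  refine (pow_le_pow_left₀ h4 h3 _).trans ?_
  rw [mul_pow]
  refine mul_le_mul_of_nonneg_left ?_ (by positivity)
  rw [← Real.rpow_natCast, ← Real.rpow_mul hM0.le]
  refine Real.rpow_le_rpow_of_exponent_le hM ?_
  have h5 : ((d - 1 : ℕ) : ℝ) ≤ d + 1 := by
    have : (d - 1 : ℕ) ≤ d + 1 := by omega
    exact_mod_cast this
  calc ε * ((d - 1 : ℕ) : ℝ) ≤ ε * (d + 1) := mul_le_mul_of_nonneg_left h5 hε0.le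
    _ = δ / 2 := by
        rw [hε]
        field_simp

/-- **A segment.** Let `d` with `12 B ≤ 2 d + 1`. For `M ≥ 1`, `M ^ b ≤ |u| ≤ M ^ B`, `q ≤ M ^ (1 / 8)`, `M ≤ l₀ ≤ 2 M`, let
`J = ⌊M |u| ^ (- 2 / (2 d + 1)) / q⌋`. The sum over every part of a progression `l₀ + q j`, `j < J`, is
`≤ C J M ^ (- κ)`.

Proof. With `x = q J / M ≤ |u| ^ (- 2 / (2 d + 1))`: `|u| x ^ (d + 1) ≤ |u| ^ (- 1 / (2 d + 1)) ≤ M ^ (- b / (2 d + 1))`
(`nit_tay` costs `J` times this). The leading coefficient `α` of `tay d u l₀ q` has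
`|α| = |u| (q / l₀) ^ d / (2 π d)`, so `d! |α| J ^ (d - 1) ≤ d! |u| x ^ d / J ≤ d! |u| ^ (1 / (2 d + 1)) / J` and
`J ≥ M ^ (1 - 1 / 6 - 1 / 8) / 2` for large `M`, `|u| ^ (1 / (2 d + 1)) ≤ M ^ (1 / 12)`: the condition of `weyl` holds for
`M ≥ M₀`; and `|α| J ^ d ≥ |u| (q J / M) ^ d / (2 π d 2 ^ d) ≥ c |u| ^ (1 / (2 d + 1)) ≥ c M ^ (b / (2 d + 1))`
(`q J ≥ M |u| ^ (- 2 / (2 d + 1)) / 2`). So by `weyl` the sum is `≤ C J M ^ (- κ)`, `κ` slightly smaller than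
`b / ((2 d + 1) 2 ^ (d - 1))`. For `M < M₀` use the trivial bound `J` and a large `C`. -/
theorem vdc_seg (b B : ℝ) (hb : 0 < b) (hbB : b ≤ B) (d : ℕ) (hd : 12 * B ≤ 2 * d + 1) (hd1 : 1 ≤ d) :
    ∃ κ C : ℝ, 0 < κ ∧ κ < 1 / 8 ∧ 0 < C ∧ ∀ (M u : ℝ) (q l₀ J m n : ℕ), 1 ≤ M → 1 ≤ q →
      (q : ℝ) ≤ M ^ (1 / 8 : ℝ) → M ^ b ≤ |u| → |u| ≤ M ^ B → M ≤ l₀ → (l₀ : ℝ) ≤ 2 * M →
      (J : ℝ) ≤ M * |u| ^ (-(2 : ℝ) / (2 * d + 1)) / q → 
      M * |u| ^ (-(2 : ℝ) / (2 * d + 1)) / q ≤ J + 1 → m ≤ n → n ≤ J →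
        ‖∑ j ∈ Ico m n, nit (l₀ + q * j) u‖ ≤ C * (M * |u| ^ (-(2 : ℝ) / (2 * d + 1)) / q) * M ^ (-κ) := by
  obtain ⟨E, hE⟩ : ∃ E : ℝ, E = 2 * (d : ℝ) + 1 := ⟨_, rfl⟩
  rw [← hE] at hd ⊢
  have hdR : (1 : ℝ) ≤ d := by exact_mod_cast hd1
  have hE0 : 0 < E := by rw [hE]; positivity
  have hE3 : 3 ≤ E := by rw [hE]; linarith
  have hB0 : 0 < B := by linarith
  obtain ⟨δ, hδ⟩ : ∃ δ : ℝ, δ = b / E := ⟨_, rfl⟩
  have hδ0 : 0 < δ := by rw [hδ]; positivity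
  have hδ1 : δ ≤ 1 / 12 := by
    rw [hδ, div_le_iff₀ hE0]
    linarith
  obtain ⟨D', hD'⟩ : ∃ D' : ℕ, D' = 2 ^ (d - 1) := ⟨_, rfl⟩
  have hD'1 : 1 ≤ D' := by rw [hD']; exact Nat.one_le_two_pow
  have hD'R : (1 : ℝ) ≤ D' := by exact_mod_cast hD'1
  obtain ⟨κ, hκ⟩ : ∃ κ : ℝ, κ = δ / (2 * D') := ⟨_, rfl⟩
  have hκ0 : 0 < κ := by rw [hκ]; positivity
  have hκδ : κ ≤ δ / 2 := by
    rw [hκ, div_le_div_iff₀ (by positivity) (by norm_num)]
    nlinarith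
  have hκD : κ * D' = δ / 2 := by
    rw [hκ]
    field_simp
  obtain ⟨C₁, hC₁, hweyl⟩ := weyl d hd1
  obtain ⟨C₃, hC₃, hlog⟩ := EVdc_logpow d δ hδ0
  obtain ⟨K₁, hK₁⟩ : ∃ K₁ : ℝ, K₁ = 4 ^ d * (2 * Real.pi * d) := ⟨_, rfl⟩
  have hK₁0 : 0 < K₁ := by rw [hK₁]; positivity
  obtain ⟨C₄, hC₄⟩ : ∃ C₄ : ℝ, C₄ = C₁ * (2 + C₃ * K₁) := ⟨_, rfl⟩
  have hC₄1 : 1 ≤ C₄ := by
    rw [hC₄]
    have : 0 < C₃ * K₁ := by positivity
    nlinarith
  obtain ⟨M₀, hM₀⟩ : ∃ M₀ : ℝ, M₀ = ((d.factorial : ℝ) + 2) ^ 2 := ⟨_, rfl⟩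
  have hM₀0 : 0 < M₀ := by rw [hM₀]; positivity
  have hM₀κ : 0 < M₀ ^ κ := Real.rpow_pos_of_pos hM₀0 _
  refine ⟨κ, 1 + C₄ + M₀ ^ κ, hκ0, by linarith, by linarith, ?_⟩
  intro M u q l₀ J m n hM hq hqM hu1 hu2 hl1 hl2 hJ1 hJ2 hmn hnJ
  obtain ⟨P, hP⟩ : ∃ P : ℝ, P = |u| := ⟨_, rfl⟩
  rw [← hP] at hu1 hu2 hJ1 hJ2 ⊢
  have hM0 : 0 < M := by linarith
  have hq0 : (0 : ℝ) < q := by exact_mod_cast hq
  have hl0 : (0 : ℝ) < l₀ := by linarith
  have hP1 : 1 ≤ P := (Real.one_le_rpow hM hb.le).trans hu1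
  have hP0 : 0 < P := by linarith
  obtain ⟨w, hw⟩ : ∃ w : ℝ, w = P ^ (-(2 : ℝ) / E) := ⟨_, rfl⟩
  obtain ⟨V, hV⟩ : ∃ V : ℝ, V = M * P ^ (-(2 : ℝ) / E) / q := ⟨_, rfl⟩
  rw [← hV] at hJ1 hJ2 ⊢
  have hw0 : 0 < w := by rw [hw]; exact Real.rpow_pos_of_pos hP0 _
  have hw1 : w ≤ 1 := by
    rw [hw]
    exact Real.rpow_le_one_of_one_le_of_nonpos hP1 (by
      rw [neg_div]
      have : 0 < 2 / E := by positivity
      linarith)
  have hV0 : 0 < V := by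
    rw [hV, ← hw]
    positivity
  have hqV : q * V = M * w := by
    rw [hV, ← hw]
    field_simp
  have hVM : V ≤ M := by
    have h1 : (1 : ℝ) ≤ q := by exact_mod_cast hq
    have h2 : M * w ≤ M * 1 := mul_le_mul_of_nonneg_left hw1 hM0.le
    have h3 : V ≤ q * V := le_mul_of_one_le_left hV0.le h1
    linarith
  have hMκ : 0 < M ^ (-κ) := Real.rpow_pos_of_pos hM0 _
  have htriv : ‖∑ j ∈ Ico m n, nit (l₀ + q * j) u‖ ≤ V := by
    refine (norm_sum_le _ _).trans ?_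
    refine (sum_le_sum fun j _ => ?_).trans (b := ∑ j ∈ Ico m n, (1 : ℝ)) ?_
    · unfold nit
      rw [Complex.norm_natCast_cpow_of_pos (by
        have : (0 : ℝ) < l₀ := hl0
        have : 0 < l₀ := by exact_mod_cast this
        omega)]
      simp
    · rw [sum_const, Nat.card_Ico, nsmul_eq_mul, mul_one]
      refine le_trans ?_ hJ1
      exact_mod_cast (by omega : n - m ≤ J)
  by_cases hMM : M < M₀
  · -- small M
    have h1 : 1 ≤ M₀ ^ κ * M ^ (-κ) := by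
      rw [Real.rpow_neg hM0.le, ← div_eq_mul_inv, one_le_div (Real.rpow_pos_of_pos hM0 _)]
      exact Real.rpow_le_rpow hM0.le hMM.le hκ0.le
    calc ‖∑ j ∈ Ico m n, nit (l₀ + q * j) u‖ ≤ V := htriv
      _ ≤ V * (M₀ ^ κ * M ^ (-κ)) := le_mul_of_one_le_right hV0.le h1
      _ = M₀ ^ κ * V * M ^ (-κ) := by ring
      _ ≤ (1 + C₄ + M₀ ^ κ) * V * M ^ (-κ) := by
          refine mul_le_mul_of_nonneg_right (mul_le_mul_of_nonneg_right ?_ hV0.le) hMκ.le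
          linarith
  push Not at hMM
  -- powers of M
  have hsq : (d.factorial : ℝ) + 2 ≤ M ^ (1 / 2 : ℝ) := by
    have h1 : M₀ ^ (1 / 2 : ℝ) = (d.factorial : ℝ) + 2 := by
      rw [hM₀, ← Real.sqrt_eq_rpow, Real.sqrt_sq (by positivity)]
    rw [← h1]
    exact Real.rpow_le_rpow hM₀0.le hMM (by norm_num)
  have hfac1 : (1 : ℝ) ≤ d.factorial := by exact_mod_cast Nat.one_le_iff_ne_zero.2 d.factorial_ne_zero
  -- lower bound for V
  have hVlow : M ^ (17 / 24 : ℝ) ≤ V := by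
    have h1 : M ^ (-(1 / 6) : ℝ) ≤ w := by
      rw [hw]
      have h2 : (M ^ B) ^ (-(2 : ℝ) / E) ≤ P ^ (-(2 : ℝ) / E) := by
        refine Real.rpow_le_rpow_of_nonpos hP0 hu2 ?_
        rw [neg_div]
        have : 0 < 2 / E := by positivity
        linarith
      refine le_trans ?_ h2
      rw [← Real.rpow_mul hM0.le]
      refine Real.rpow_le_rpow_of_exponent_le hM ?_
      have h3 : B * (-(2 : ℝ) / E) = -(2 * B / E) := by ring
      rw [h3]
      have h4 : 2 * B / E ≤ 1 / 6 := by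
        rw [div_le_div_iff₀ hE0 (by norm_num)]
        linarith
      linarith
    rw [hV, ← hw, le_div_iff₀ hq0]
    calc M ^ (17 / 24 : ℝ) * q ≤ M ^ (17 / 24 : ℝ) * M ^ (1 / 8 : ℝ) :=
          mul_le_mul_of_nonneg_left hqM (Real.rpow_nonneg hM0.le _)
      _ = M * M ^ (-(1 / 6) : ℝ) := by
          rw [← Real.rpow_add hM0]
          nth_rewrite 2 [← Real.rpow_one M]
          rw [← Real.rpow_add hM0]
          norm_num
      _ ≤ M * w := mul_le_mul_of_nonneg_left h1 hM0.le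
  have hV2 : 2 ≤ V := by
    have h1 : M ^ (1 / 2 : ℝ) ≤ M ^ (17 / 24 : ℝ) :=
      Real.rpow_le_rpow_of_exponent_le hM (by norm_num)
    linarith
  have hJhalf : V / 2 ≤ J := by linarith
  have hJ0 : (0 : ℝ) < J := by linarith
  have hJ1' : 1 ≤ J := by
    have : (0 : ℝ) < J := hJ0
    exact_mod_cast this
  have hqJ : (q : ℝ) * J ≤ M * w := by
    rw [← hqV]
    exact mul_le_mul_of_nonneg_left hJ1 hq0.le
  have hPδ : M ^ δ ≤ P ^ (1 / E) := by
    have h1 : (M ^ b) ^ (1 / E) ≤ P ^ (1 / E) :=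
      Real.rpow_le_rpow (Real.rpow_nonneg hM0.le _) hu1 (by positivity)
    rw [← Real.rpow_mul hM0.le] at h1
    have h2 : b * (1 / E) = δ := by rw [hδ]; ring
    rwa [h2] at h1
  -- the Taylor error
  have herr : ∀ j ∈ Ico m n, ‖nit (l₀ + q * j) u - ex ((tay d u l₀ q).eval (j : ℝ))‖ ≤
      M ^ (-κ) := by
    intro j hj
    rw [mem_Ico] at hj
    have hjJ : (j : ℝ) ≤ J := by exact_mod_cast (by omega : j ≤ J)
    have h1 : (q : ℝ) * j ≤ M * w := (mul_le_mul_of_nonneg_left hjJ hq0.le).trans hqJ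
    have h2 : (q : ℝ) * j ≤ l₀ := by
      have : M * w ≤ M * 1 := mul_le_mul_of_nonneg_left hw1 hM0.le
      linarith
    have h3 := nit_tay d u l₀ q j (by exact_mod_cast (lt_of_lt_of_le hM0 hl1)) (by exact_mod_cast h2)
    refine h3.trans ?_
    rw [← hP]
    have h4 : ((q * j : ℕ) : ℝ) / l₀ ≤ w := by
      rw [div_le_iff₀ hl0]
      push_cast
      have : w * M ≤ w * l₀ := mul_le_mul_of_nonneg_left hl1 hw0.le
      linarith
    have h5 : (((q * j : ℕ) : ℝ) / l₀) ^ (d + 1) ≤ w ^ (d + 1) :=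
      pow_le_pow_left₀ (by positivity) h4 _
    have h6 : P * w ^ (d + 1) = P ^ (-(1 / E)) := by
      rw [hw, ← Real.rpow_natCast, ← Real.rpow_mul hP0.le]
      nth_rewrite 1 [← Real.rpow_one P]
      rw [← Real.rpow_add hP0]
      congr 1
      push_cast
      field_simp
      rw [hE]
      ring
    calc P * (((q * j : ℕ) : ℝ) / l₀) ^ (d + 1) ≤ P * w ^ (d + 1) :=
          mul_le_mul_of_nonneg_left h5 hP0.le
      _ = P ^ (-(1 / E)) := h6
      _ = (P ^ (1 / E))⁻¹ := Real.rpow_neg hP0.le _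
      _ ≤ (M ^ δ)⁻¹ := inv_anti₀ (Real.rpow_pos_of_pos hM0 _) hPδ
      _ = M ^ (-δ) := (Real.rpow_neg hM0.le _).symm
      _ ≤ M ^ (-κ) := Real.rpow_le_rpow_of_exponent_le hM (by linarith)
  have hfirst : ‖∑ j ∈ Ico m n, (nit (l₀ + q * j) u - ex ((tay d u l₀ q).eval (j : ℝ)))‖ ≤
      V * M ^ (-κ) := by
    refine (norm_sum_le _ _).trans ((sum_le_sum herr).trans ?_)
    rw [sum_const, Nat.card_Ico, nsmul_eq_mul]
    refine mul_le_mul_of_nonneg_right ?_ hMκ.le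
    refine le_trans ?_ hJ1
    exact_mod_cast (by omega : n - m ≤ J)
  -- the coefficient
  obtain ⟨α, hα⟩ : ∃ α : ℝ, α = |(tay d u l₀ q).coeff d| := ⟨_, rfl⟩
  have hαv : α = P * (q / l₀) ^ d / (2 * Real.pi * d) := by
    rw [hα, hP]
    exact EVdc_abs_coeff d hd1 u l₀ q hl0 hq0
  have hα0 : 0 < α := by
    rw [hαv]
    positivity
  have h2pi : 6 ≤ 2 * Real.pi * d := by
    have h1 := mul_le_mul (by linarith [Real.pi_gt_three] : (6 : ℝ) ≤ 2 * Real.pi) hdR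
      zero_le_one (by positivity)
    linarith
  have hcond : (d.factorial : ℝ) * α * (J : ℝ) ^ (d - 1) ≤ 1 / 2 := by
    have h1 : (q / (l₀ : ℝ)) ^ d * (J : ℝ) ^ (d - 1) ≤ (q / M) * w ^ (d - 1) := by
      have e1 : (q / (l₀ : ℝ)) ^ d = (q / l₀) * (q / l₀) ^ (d - 1) := by
        rw [← pow_succ']
        congr 1
        omega
      rw [e1, mul_assoc, ← mul_pow]
      have h2 : (q : ℝ) / l₀ ≤ q / M := div_le_div_of_nonneg_left hq0.le hM0 hl1
      have h3 : (q : ℝ) / l₀ * J ≤ w := by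
        rw [div_mul_eq_mul_div, div_le_iff₀ hl0]
        have : w * M ≤ w * l₀ := mul_le_mul_of_nonneg_left hl1 hw0.le
        linarith
      exact mul_le_mul h2 (pow_le_pow_left₀ (by positivity) h3 _) (by positivity) (by positivity)
    have h4 : P * w ^ (d - 1) = P ^ (3 / E) := by
      rw [hw, ← Real.rpow_natCast, ← Real.rpow_mul hP0.le]
      nth_rewrite 1 [← Real.rpow_one P]
      rw [← Real.rpow_add hP0]
      congr 1
      rw [Nat.cast_sub hd1]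
      push_cast
      field_simp
      rw [hE]
      ring
    have h5 : P ^ (3 / E) ≤ M ^ (1 / 4 : ℝ) := by
      have h6 : P ^ (3 / E) ≤ (M ^ B) ^ (3 / E) := Real.rpow_le_rpow hP0.le hu2 (by positivity)
      refine h6.trans ?_
      rw [← Real.rpow_mul hM0.le]
      refine Real.rpow_le_rpow_of_exponent_le hM ?_
      have h7 : B * (3 / E) = 3 * B / E := by ring
      rw [h7, div_le_div_iff₀ hE0 (by norm_num)]
      linarith
    have h8 : (q : ℝ) / M * P ^ (3 / E) ≤ M ^ (-(5 / 8) : ℝ) := by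
      calc (q : ℝ) / M * P ^ (3 / E) ≤ M ^ (1 / 8 : ℝ) / M * M ^ (1 / 4 : ℝ) := by
            refine mul_le_mul (div_le_div_of_nonneg_right hqM hM0.le) h5
              (Real.rpow_nonneg hP0.le _) (by positivity)
        _ = M ^ (-(5 / 8) : ℝ) := by
            rw [div_eq_mul_inv, show M⁻¹ = M ^ (-1 : ℝ) from (Real.rpow_neg_one M).symm,
              ← Real.rpow_add hM0, ← Real.rpow_add hM0]
            norm_num
    have h9 : M ^ (-(5 / 8) : ℝ) * d.factorial ≤ 1 := by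
      rw [Real.rpow_neg hM0.le, inv_mul_le_iff₀ (Real.rpow_pos_of_pos hM0 _), mul_one]
      have h10 : M ^ (1 / 2 : ℝ) ≤ M ^ (5 / 8 : ℝ) :=
        Real.rpow_le_rpow_of_exponent_le hM (by norm_num)
      linarith
    have h11 : (d.factorial : ℝ) * α * (J : ℝ) ^ (d - 1) =
        d.factorial * (P * ((q / (l₀ : ℝ)) ^ d * (J : ℝ) ^ (d - 1))) / (2 * Real.pi * d) := by
      rw [hαv]
      ring
    rw [h11, div_le_iff₀ (by linarith)]
    have h12 : P * ((q / (l₀ : ℝ)) ^ d * (J : ℝ) ^ (d - 1)) ≤ M ^ (-(5 / 8) : ℝ) := by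
      calc P * ((q / (l₀ : ℝ)) ^ d * (J : ℝ) ^ (d - 1)) ≤ P * ((q / M) * w ^ (d - 1)) :=
            mul_le_mul_of_nonneg_left h1 hP0.le
        _ = q / M * (P * w ^ (d - 1)) := by ring
        _ = q / M * P ^ (3 / E) := by rw [h4]
        _ ≤ M ^ (-(5 / 8) : ℝ) := h8
    have h13 : (d.factorial : ℝ) * (P * ((q / (l₀ : ℝ)) ^ d * (J : ℝ) ^ (d - 1))) ≤
        d.factorial * M ^ (-(5 / 8) : ℝ) := mul_le_mul_of_nonneg_left h12 (by positivity)
    linarith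
  have hlow : M ^ δ ≤ K₁ * (α * (J : ℝ) ^ d) := by
    have h1 : w / 4 ≤ q / l₀ * J := by
      rw [div_mul_eq_mul_div, le_div_iff₀ hl0]
      have h2 : (q : ℝ) * (V / 2) ≤ q * J := mul_le_mul_of_nonneg_left hJhalf hq0.le
      have h3 : w / 4 * l₀ ≤ w / 4 * (2 * M) := mul_le_mul_of_nonneg_left hl2 (by positivity)
      have h2' : (q : ℝ) * (V / 2) = M * w / 2 := by
        rw [← hqV]
        ring
      have h3' : w / 4 * (2 * M) = M * w / 2 := by ring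
      linarith
    have h4 : (w / 4) ^ d ≤ (q / l₀ * J) ^ d := pow_le_pow_left₀ (by positivity) h1 _
    have h5 : P * w ^ d = P ^ (1 / E) := by
      rw [hw, ← Real.rpow_natCast, ← Real.rpow_mul hP0.le]
      nth_rewrite 1 [← Real.rpow_one P]
      rw [← Real.rpow_add hP0]
      congr 1
      field_simp
      rw [hE]
      ring
    have h6 : K₁ * (α * (J : ℝ) ^ d) = 4 ^ d * (P * (q / l₀ * J) ^ d) := by
      rw [hK₁, hαv, mul_pow]
      field_simp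
    rw [h6]
    calc M ^ δ ≤ P ^ (1 / E) := hPδ
      _ = P * w ^ d := h5.symm
      _ = 4 ^ d * (P * (w / 4) ^ d) := by
          rw [div_pow]
          field_simp
      _ ≤ 4 ^ d * (P * (q / l₀ * J) ^ d) := by
          refine mul_le_mul_of_nonneg_left (mul_le_mul_of_nonneg_left h4 hP0.le) (by positivity)
  have hwy := hweyl (tay d u l₀ q) J hJ1' (EVdc_deg d u l₀ q) (by
    intro h0
    rw [h0, abs_zero] at hα
    exact hα0.ne' hα) (by rw [← hα]; exact hcond) m n hmn hnJ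
  rw [← hα, ← hD'] at hwy
  have hMδ0 : 0 < M ^ δ := Real.rpow_pos_of_pos hM0 _
  have hsecond : ‖∑ x ∈ Ico m n, ex ((tay d u l₀ q).eval (x : ℝ))‖ ≤ V * C₄ * M ^ (-κ) := by
    have h0 : 0 ≤ V * C₄ * M ^ (-κ) := by positivity
    refine le_of_pow_le_pow_left₀ (by omega : D' ≠ 0) h0 (hwy.trans ?_)
    have e1 : (V * C₄ * M ^ (-κ)) ^ D' = V ^ D' * C₄ ^ D' * M ^ (-(δ / 2)) := by
      rw [mul_pow, mul_pow, ← Real.rpow_natCast (M ^ (-κ)), ← Real.rpow_mul hM0.le]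
      congr 2
      rw [neg_mul, hκD]
    rw [e1]
    have e2 : (J : ℝ) ^ D' ≤ V ^ D' := pow_le_pow_left₀ hJ0.le hJ1 _
    have e3 : C₄ ≤ C₄ ^ D' := le_self_pow₀ hC₄1 (by omega)
    have e4 : 1 / (J : ℝ) ≤ 2 * M ^ (-(δ / 2)) := by
      have h1 : 1 / (J : ℝ) ≤ 1 / (V / 2) := one_div_le_one_div_of_le (by positivity) hJhalf
      have h2 : 1 / (V / 2) = 2 * V⁻¹ := by field_simp
      rw [h2] at h1
      refine h1.trans (mul_le_mul_of_nonneg_left ?_ (by norm_num))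
      rw [Real.rpow_neg hM0.le]
      refine inv_anti₀ (Real.rpow_pos_of_pos hM0 _) (le_trans ?_ hVlow)
      exact Real.rpow_le_rpow_of_exponent_le hM (by linarith)
    have e5 : (1 + Real.log J) ^ (d - 1) / (α * (J : ℝ) ^ d) ≤ C₃ * K₁ * M ^ (-(δ / 2)) := by
      have h1 : (1 + Real.log J) ^ (d - 1) ≤ C₃ * M ^ (δ / 2) := by
        refine (pow_le_pow_left₀ ?_ ?_ _).trans (hlog M hM)
        · have := Real.log_nonneg (by exact_mod_cast hJ1' : (1 : ℝ) ≤ J)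
          linarith
        · have := Real.log_le_log hJ0 (hJ1.trans hVM)
          linarith
      rw [div_le_iff₀ (by positivity)]
      have h2 : M ^ (δ / 2) = M ^ (-(δ / 2)) * M ^ δ := by
        rw [← Real.rpow_add hM0]
        congr 1
        ring
      calc (1 + Real.log J) ^ (d - 1) ≤ C₃ * M ^ (δ / 2) := h1
        _ = C₃ * M ^ (-(δ / 2)) * M ^ δ := by rw [h2]; ring
        _ ≤ C₃ * M ^ (-(δ / 2)) * (K₁ * (α * (J : ℝ) ^ d)) :=
            mul_le_mul_of_nonneg_left hlow (by positivity)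
        _ = C₃ * K₁ * M ^ (-(δ / 2)) * (α * (J : ℝ) ^ d) := by ring
    have e6 : 1 / (J : ℝ) + (1 + Real.log J) ^ (d - 1) / (α * (J : ℝ) ^ d) ≤
        (2 + C₃ * K₁) * M ^ (-(δ / 2)) := by
      have : (2 + C₃ * K₁) * M ^ (-(δ / 2)) = 2 * M ^ (-(δ / 2)) + C₃ * K₁ * M ^ (-(δ / 2)) := by
        ring
      linarith
    have e7 : 0 ≤ M ^ (-(δ / 2)) := Real.rpow_nonneg hM0.le _
    calc C₁ * (J : ℝ) ^ D' * (1 / (J : ℝ) + (1 + Real.log J) ^ (d - 1) / (α * (J : ℝ) ^ d))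
        ≤ C₁ * (J : ℝ) ^ D' * ((2 + C₃ * K₁) * M ^ (-(δ / 2))) :=
          mul_le_mul_of_nonneg_left e6 (by positivity)
      _ = (J : ℝ) ^ D' * C₄ * M ^ (-(δ / 2)) := by rw [hC₄]; ring
      _ ≤ V ^ D' * C₄ ^ D' * M ^ (-(δ / 2)) := by
          refine mul_le_mul_of_nonneg_right ?_ e7
          exact mul_le_mul e2 e3 (by linarith) (by positivity)
  have hsum : ∑ j ∈ Ico m n, nit (l₀ + q * j) u =
      (∑ j ∈ Ico m n, (nit (l₀ + q * j) u - ex ((tay d u l₀ q).eval (j : ℝ)))) +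
        ∑ x ∈ Ico m n, ex ((tay d u l₀ q).eval (x : ℝ)) := by
    rw [← sum_add_distrib]
    refine sum_congr rfl fun j _ => ?_
    ring
  rw [hsum]
  refine (norm_add_le _ _).trans ((add_le_add hfirst hsecond).trans ?_)
  have : (1 + C₄ + M₀ ^ κ) * V * M ^ (-κ) =
      V * M ^ (-κ) + V * C₄ * M ^ (-κ) + M₀ ^ κ * (V * M ^ (-κ)) := by ring
  rw [this]
  have h1 : 0 ≤ M₀ ^ κ * (V * M ^ (-κ)) := by positivity
  linarith

theorem EVdc_cut (g : ℕ → ℂ) (J : ℕ) (hJ : 1 ≤ J) (T : ℝ) (hT : 0 ≤ T) (n₀ : ℕ)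
    (h : ∀ k r : ℕ, k * J < n₀ → r ≤ J → ‖∑ j ∈ Ico 0 r, g (k * J + j)‖ ≤ T) :
    ‖∑ j ∈ range n₀, g j‖ ≤ ((n₀ : ℝ) / J + 1) * T := by
  have key : ∀ k : ℕ, k * J ≤ n₀ → ‖∑ j ∈ range (k * J), g j‖ ≤ k * T := by
    intro k
    induction k with
    | zero => intro _; simp
    | succ k ih =>
      intro hk
      have h1 : k * J ≤ n₀ := le_trans (Nat.mul_le_mul_right _ (Nat.le_succ k)) hk
      have h2 : k * J < n₀ := by
        have : (k + 1) * J = k * J + J := by ring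
        omega
      rw [show (k + 1) * J = k * J + J by ring, sum_range_add]
      refine (norm_add_le _ _).trans ?_
      have h3 := h k J h2 le_rfl
      rw [← range_eq_Ico] at h3
      push_cast
      have h4 := ih h1
      linarith
  obtain ⟨k, r, hr, hn⟩ : ∃ k r : ℕ, r < J ∧ n₀ = k * J + r :=
    ⟨n₀ / J, n₀ % J, Nat.mod_lt _ (by omega), by rw [mul_comm]; exact (Nat.div_add_mod n₀ J).symm⟩
  have h1 := key k (by omega)
  have hJR : (0 : ℝ) < J := by exact_mod_cast hJ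
  have hk : (k : ℝ) ≤ n₀ / J := by
    rw [le_div_iff₀ hJR]
    exact_mod_cast (by omega : k * J ≤ n₀)
  have h2 : ‖∑ j ∈ range r, g (k * J + j)‖ ≤ T := by
    rcases Nat.eq_zero_or_pos r with h0 | h0
    · rw [h0]
      simpa using hT
    · have := h k r (by omega) hr.le
      rwa [← range_eq_Ico] at this
  have h3 : ∑ j ∈ range n₀, g j = (∑ j ∈ range (k * J), g j) + ∑ j ∈ range r, g (k * J + j) := by
    rw [hn, sum_range_add]
  rw [h3]
  refine (norm_add_le _ _).trans ?_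
  have h4 : (k : ℝ) * T ≤ n₀ / J * T := mul_le_mul_of_nonneg_right hk hT
  linarith

theorem EVdc_prog (a b q c : ℕ) (hq : 1 ≤ q) : ∃ l₁ n₀ : ℕ, a < l₁ ∧
    (∀ j, j < n₀ → l₁ + q * j ≤ b) ∧ (n₀ = 0 ∨ q * (n₀ - 1) ≤ b - l₁) ∧
    ∀ f : ℕ → ℂ, ∑ l ∈ (Ioc a b).filter (fun l => l ≡ c [MOD q]), f l =
      ∑ j ∈ range n₀, f (l₁ + q * j) := by
  obtain ⟨r, hr, hrc⟩ : ∃ r : ℕ, r < q ∧ (a + 1 + r) ≡ c [MOD q] := by
    refine ⟨(c + q * (a + 1) - (a + 1)) % q, Nat.mod_lt _ (by omega), ?_⟩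
    have h1 : (a + 1) ≤ q * (a + 1) := Nat.le_mul_of_pos_left _ (by omega)
    have h2 : (c + q * (a + 1) - (a + 1)) % q ≡ (c + q * (a + 1) - (a + 1)) [MOD q] :=
      Nat.mod_modEq _ _
    have h3 : a + 1 + (c + q * (a + 1) - (a + 1)) = c + q * (a + 1) := by omega
    have h4 := Nat.ModEq.add_left (a + 1) h2
    rw [h3] at h4
    refine h4.trans ?_
    unfold Nat.ModEq
    rw [Nat.add_mul_mod_self_left]
  obtain ⟨l₁, hl₁⟩ : ∃ l₁ : ℕ, l₁ = a + 1 + r := ⟨_, rfl⟩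
  rw [← hl₁] at hrc
  by_cases hb : l₁ ≤ b
  · refine ⟨l₁, (b - l₁) / q + 1, by omega, fun j hj => ?_, Or.inr ?_, fun f => ?_⟩
    · have h1 : j ≤ (b - l₁) / q := by omega
      have h2 : q * j ≤ b - l₁ := by
        rw [mul_comm]
        exact (Nat.le_div_iff_mul_le (by omega)).1 h1
      omega
    · rw [Nat.add_sub_cancel]
      exact Nat.mul_div_le _ _
    · symm
      refine sum_bij (fun j _ => l₁ + q * j) ?_ ?_ ?_ ?_
      · intro j hj
        rw [mem_range] at hj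
        have h1 : j ≤ (b - l₁) / q := by omega
        have h2 : q * j ≤ b - l₁ := by
          rw [mul_comm]
          exact (Nat.le_div_iff_mul_le (by omega)).1 h1
        rw [mem_filter, mem_Ioc]
        refine ⟨⟨by omega, by omega⟩, ?_⟩
        refine Nat.ModEq.trans ?_ hrc
        unfold Nat.ModEq
        rw [Nat.add_mul_mod_self_left]
      · intro i _ j _ hij
        have h1 : q * i = q * j := by omega
        exact Nat.eq_of_mul_eq_mul_left (by omega) h1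
      · intro l hl
        rw [mem_filter, mem_Ioc] at hl
        obtain ⟨⟨hl1, hl2⟩, hl3⟩ := hl
        have h1 : l ≡ l₁ [MOD q] := hl3.trans hrc.symm
        have h2 : l₁ ≤ l := by
          by_contra hcon
          push Not at hcon
          have h3 : q ∣ l₁ - l := (Nat.modEq_iff_dvd' hcon.le).1 h1
          have h4 := Nat.le_of_dvd (by omega) h3
          omega
        have h3 : q ∣ l - l₁ := (Nat.modEq_iff_dvd' h2).1 h1.symm
        obtain ⟨j, hj⟩ := h3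
        refine ⟨j, ?_, by omega⟩
        rw [mem_range]
        have h4 : j ≤ (b - l₁) / q := by
          rw [Nat.le_div_iff_mul_le (by omega), mul_comm]
          omega
        omega
      · intro j _
        rfl
  · refine ⟨l₁, 0, by omega, fun j hj => absurd hj (Nat.not_lt_zero _), Or.inl rfl, fun f => ?_⟩
    rw [range_zero, sum_empty]
    refine sum_eq_zero fun l hl => ?_
    exfalso
    rw [mem_filter, mem_Ioc] at hl
    obtain ⟨⟨hl1, hl2⟩, hl3⟩ := hl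
    have h1 : l ≡ l₁ [MOD q] := hl3.trans hrc.symm
    have hcon : l < l₁ := by omega
    have h3 : q ∣ l₁ - l := (Nat.modEq_iff_dvd' hcon.le).1 h1
    have h4 := Nat.le_of_dvd (by omega) h3
    omega

/-- **Progressions in a dyadic block.**

Proof. Take `d = ⌈6 B⌉ + 1`. The `l ∈ (x, y]` with `l ≡ c (mod q)` form one progression of at most `M / q + 1` terms;
cut it into segments of `J` terms, `J = ⌊M |u| ^ (- 2 / (2 d + 1)) / q⌋ ≥ 1` (at most `M / (q J) + 2` segments; the starting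
points are in `[M, 2 M]`); each is `≤ C (M |u| ^ (- 2 / (2 d + 1)) / q) M ^ (- κ)` by `vdc_seg`, in total
`≤ C' M ^ (1 - κ)`. -/
theorem vdc (b B : ℝ) (hb : 0 < b) (hbB : b ≤ B) : ∃ κ C : ℝ, 0 < κ ∧ κ < 1 / 8 ∧ 0 < C ∧
    ∀ (M x y u : ℝ) (q c : ℕ), 1 ≤ M → 1 ≤ q → (q : ℝ) ≤ M ^ (1 / 8 : ℝ) → M ≤ x → x ≤ y → y ≤ 2 * M →
      M ^ b ≤ |u| → |u| ≤ M ^ B →
        ‖∑ l ∈ (Ioc ⌊x⌋₊ ⌊y⌋₊).filter (fun l => l ≡ c [MOD q]), nit l u‖ ≤ C * M ^ (1 - κ) := by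
  obtain ⟨d, hd⟩ : ∃ d : ℕ, d = ⌈6 * B⌉₊ + 1 := ⟨_, rfl⟩
  have hB0 : 0 < B := by linarith
  have hd1 : 1 ≤ d := by omega
  have hd2 : 12 * B ≤ 2 * (d : ℝ) + 1 := by
    have h1 := Nat.le_ceil (6 * B)
    rw [hd]
    push_cast
    linarith
  obtain ⟨κ, C, hκ0, hκ1, hC, hseg⟩ := vdc_seg b B hb hbB d hd2 hd1
  obtain ⟨E, hE⟩ : ∃ E : ℝ, E = 2 * (d : ℝ) + 1 := ⟨_, rfl⟩
  rw [← hE] at hseg hd2
  have hE0 : 0 < E := by rw [hE]; positivity
  refine ⟨κ, 6 * C, hκ0, hκ1, by linarith, ?_⟩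
  intro M x y u q c hM hq hqM hx hxy hy hu1 hu2
  have hM0 : 0 < M := by linarith
  have hq0 : (0 : ℝ) < q := by exact_mod_cast hq
  have hq1 : (1 : ℝ) ≤ q := by exact_mod_cast hq
  have hP1 : 1 ≤ |u| := (Real.one_le_rpow hM hb.le).trans hu1
  have hP0 : 0 < |u| := by linarith
  obtain ⟨V, hV⟩ : ∃ V : ℝ, V = M * |u| ^ (-(2 : ℝ) / E) / q := ⟨_, rfl⟩
  have hw1 : |u| ^ (-(2 : ℝ) / E) ≤ 1 :=
    Real.rpow_le_one_of_one_le_of_nonpos hP1 (by
      rw [neg_div]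
      have : 0 < 2 / E := by positivity
      linarith)
  have hw0 : 0 < |u| ^ (-(2 : ℝ) / E) := Real.rpow_pos_of_pos hP0 _
  have hVM : V ≤ M := by
    rw [hV, div_le_iff₀ hq0]
    have h2 : M * |u| ^ (-(2 : ℝ) / E) ≤ M * 1 := mul_le_mul_of_nonneg_left hw1 hM0.le
    nlinarith
  have hV1 : 1 ≤ V := by
    have h1 : M ^ (-(1 / 6) : ℝ) ≤ |u| ^ (-(2 : ℝ) / E) := by
      have h2 : (M ^ B) ^ (-(2 : ℝ) / E) ≤ |u| ^ (-(2 : ℝ) / E) := by
        refine Real.rpow_le_rpow_of_nonpos hP0 hu2 ?_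
        rw [neg_div]
        have : 0 < 2 / E := by positivity
        linarith
      refine le_trans ?_ h2
      rw [← Real.rpow_mul hM0.le]
      refine Real.rpow_le_rpow_of_exponent_le hM ?_
      have h3 : B * (-(2 : ℝ) / E) = -(2 * B / E) := by ring
      rw [h3]
      have h4 : 2 * B / E ≤ 1 / 6 := by
        rw [div_le_div_iff₀ hE0 (by norm_num)]
        linarith
      linarith
    rw [hV, le_div_iff₀ hq0, one_mul]
    calc (q : ℝ) ≤ M ^ (1 / 8 : ℝ) := hqM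
      _ ≤ M ^ (5 / 6 : ℝ) := Real.rpow_le_rpow_of_exponent_le hM (by norm_num)
      _ = M * M ^ (-(1 / 6) : ℝ) := by
          nth_rewrite 2 [← Real.rpow_one M]
          rw [← Real.rpow_add hM0]
          norm_num
      _ ≤ M * |u| ^ (-(2 : ℝ) / E) := mul_le_mul_of_nonneg_left h1 hM0.le
  obtain ⟨J, hJ⟩ : ∃ J : ℕ, J = ⌊V⌋₊ := ⟨_, rfl⟩
  have hJ1 : 1 ≤ J := by
    rw [hJ]
    exact Nat.one_le_floor_iff V |>.2 hV1
  have hJV : (J : ℝ) ≤ V := by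
    rw [hJ]
    exact Nat.floor_le (by linarith)
  have hVJ : V ≤ J + 1 := by
    rw [hJ]
    exact (Nat.lt_floor_add_one V).le
  have hJR : (1 : ℝ) ≤ J := by exact_mod_cast hJ1
  obtain ⟨l₁, n₀, hal, hle, hn₀, hsum⟩ := EVdc_prog ⌊x⌋₊ ⌊y⌋₊ q c hq
  rw [hsum]
  have hMl : M ≤ l₁ := by
    have h1 : x < ⌊x⌋₊ + 1 := Nat.lt_floor_add_one x
    have h2 : ((⌊x⌋₊ : ℕ) : ℝ) + 1 ≤ l₁ := by exact_mod_cast hal
    linarith
  have hMκ : 0 < M ^ (-κ) := Real.rpow_pos_of_pos hM0 _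
  have hT : 0 ≤ C * V * M ^ (-κ) := by
    have : 0 < V := by linarith
    positivity
  have hcut := EVdc_cut (fun j => nit (l₁ + q * j) u) J hJ1 (C * V * M ^ (-κ)) hT n₀ (by
    intro k r hk hr
    have h1 := hle _ hk
    have h2 := hseg M u q (l₁ + q * (k * J)) J 0 r hM hq hqM hu1 hu2 (by
      push_cast
      have : (0 : ℝ) ≤ q * (k * J) := by positivity
      linarith) (by
      have h3 : ((l₁ + q * (k * J) : ℕ) : ℝ) ≤ (⌊y⌋₊ : ℕ) := by exact_mod_cast h1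
      have h4 : ((⌊y⌋₊ : ℕ) : ℝ) ≤ y := Nat.floor_le (by linarith)
      linarith) (by rw [← hV]; exact hJV) (by rw [← hV]; exact hVJ) (Nat.zero_le _) hr
    rw [← hV] at h2
    refine le_trans (le_of_eq ?_) h2
    congr 1
    refine sum_congr rfl fun j _ => ?_
    congr 1
    ring)
  refine hcut.trans ?_
  have hn₀M : (n₀ : ℝ) ≤ M / q + 1 := by
    rcases hn₀ with h | h
    · rw [h]
      have : 0 ≤ M / q := by positivity
      push_cast
      linarith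
    · rcases Nat.eq_zero_or_pos n₀ with h0 | h0
      · rw [h0]
        have : 0 ≤ M / q := by positivity
        push_cast
        linarith
      · have h1 := hle 0 h0
        rw [mul_zero, add_zero] at h1
        have h2 : ((q * (n₀ - 1) : ℕ) : ℝ) ≤ ((⌊y⌋₊ - l₁ : ℕ) : ℝ) := by exact_mod_cast h
        rw [Nat.cast_sub h1, Nat.cast_mul, Nat.cast_sub h0] at h2
        have h4 : ((⌊y⌋₊ : ℕ) : ℝ) ≤ y := Nat.floor_le (by linarith)
        have h5 : (n₀ : ℝ) - 1 ≤ M / q := by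
          rw [le_div_iff₀ hq0]
          push_cast at h2
          linarith
        linarith
  have hMq : M / q ≤ M := div_le_self hM0.le hq1
  have h1 : ((n₀ : ℝ) / J + 1) * V ≤ 6 * M := by
    have h2 : V ≤ 2 * J := by linarith
    have hJ0 : (0 : ℝ) < J := by linarith
    calc ((n₀ : ℝ) / J + 1) * V ≤ ((n₀ : ℝ) / J + 1) * (2 * J) :=
          mul_le_mul_of_nonneg_left h2 (by positivity)
      _ = 2 * n₀ + 2 * J := by
          field_simp
      _ ≤ 6 * M := by linarith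
  have h2 : M ^ (1 - κ) = M * M ^ (-κ) := by
    nth_rewrite 2 [← Real.rpow_one M]
    rw [← Real.rpow_add hM0]
    congr 1
  rw [h2]
  calc ((n₀ : ℝ) / J + 1) * (C * V * M ^ (-κ)) = ((n₀ : ℝ) / J + 1) * V * (C * M ^ (-κ)) := by ring
    _ ≤ 6 * M * (C * M ^ (-κ)) := mul_le_mul_of_nonneg_right h1 (by positivity)
    _ = 6 * C * (M * M ^ (-κ)) := by ring

end Pool.Agent.M58
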