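import Pool.Agent.W_b58c63_m1.Defs

/-!
# Weyl differencing (helper68)
-/

set_option autoImplicit false

noncomputable section

open Finset Polynomial

namespace Pool.Agent.M58

theorem EWeyl_norm (x : ℝ) : ‖ex x‖ = 1 := by
  have h : (2 * Real.pi * x * Complex.I : ℂ) = ((2 * Real.pi * x : ℝ) : ℂ) * Complex.I := by
    push_cast
    ring
  rw [ex, h, Complex.norm_exp_ofReal_mul_I]

theorem EWeyl_conj (x y : ℝ) : ex x * (starRingEnd ℂ) (ex y) = ex (x - y) := by
  rw [ex, ex, ex, ← Complex.exp_conj, ← Complex.exp_add]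
  congr 1
  simp only [map_mul, Complex.conj_I, Complex.conj_ofReal, map_ofNat]
  push_cast
  ring

theorem EWeyl_id (z : ℕ → ℂ) (hz : ∀ x, ‖z x‖ = 1) (N a b : ℕ) (hab : a ≤ b) (hb : b ≤ N) :
    ‖∑ x ∈ Ico a b, z x‖ ^ 2 = ((b : ℝ) - a) +
      2 * (∑ h ∈ Icc 1 (N - 1), ∑ x ∈ Ico a (b - h), z (x + h) * (starRingEnd ℂ) (z x)).re := by
  induction b, hab using Nat.le_induction with
  | base =>
    have h1 : ∑ h ∈ Icc 1 (N - 1), ∑ x ∈ Ico a (a - h), z (x + h) * (starRingEnd ℂ) (z x) = 0 := by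
      refine Finset.sum_eq_zero fun h _ => ?_
      rw [Finset.Ico_eq_empty (by omega), Finset.sum_empty]
    rw [h1]
    simp
  | succ b hab ih =>
    have ih' := ih (by omega)
    have h1 : ∑ h ∈ Icc 1 (N - 1), ∑ x ∈ Ico a (b + 1 - h), z (x + h) * (starRingEnd ℂ) (z x) =
        (∑ h ∈ Icc 1 (N - 1), ∑ x ∈ Ico a (b - h), z (x + h) * (starRingEnd ℂ) (z x)) +
        ∑ x ∈ Ico a b, z b * (starRingEnd ℂ) (z x) := by
      have h2 : ∑ x ∈ Ico a b, z b * (starRingEnd ℂ) (z x) =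
          ∑ h ∈ Icc 1 (N - 1), if h ≤ b - a then z b * (starRingEnd ℂ) (z (b - h)) else 0 := by
        rw [← Finset.sum_filter]
        refine Finset.sum_nbij' (fun x => b - x) (fun h => b - h) ?_ ?_ ?_ ?_ ?_
        · intro x hx
          simp only [Finset.mem_Ico, Finset.mem_filter, Finset.mem_Icc] at hx ⊢
          omega
        · intro x hx
          simp only [Finset.mem_Ico, Finset.mem_filter, Finset.mem_Icc] at hx ⊢
          omega
        · intro x hx
          simp only [Finset.mem_Ico] at hx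
          show b - (b - x) = x
          omega
        · intro x hx
          simp only [Finset.mem_filter, Finset.mem_Icc] at hx
          show b - (b - x) = x
          omega
        · intro x hx
          simp only [Finset.mem_Ico] at hx
          have h3 : b - (b - x) = x := by omega
          rw [h3]
      rw [h2, ← Finset.sum_add_distrib]
      refine Finset.sum_congr rfl fun h hh => ?_
      rw [Finset.mem_Icc] at hh
      by_cases hle : h ≤ b - a
      · rw [if_pos hle]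
        have h3 : b + 1 - h = (b - h) + 1 := by omega
        rw [h3, Finset.sum_Ico_succ_top (by omega)]
        have h4 : b - h + h = b := by omega
        rw [h4]
      · rw [if_neg hle, Finset.Ico_eq_empty (by omega), Finset.Ico_eq_empty (by omega)]
        simp
    rw [h1, Complex.add_re, Finset.sum_Ico_succ_top hab]
    have h5 : ∑ x ∈ Ico a b, z b * (starRingEnd ℂ) (z x) =
        z b * (starRingEnd ℂ) (∑ x ∈ Ico a b, z x) := by
      rw [map_sum, Finset.mul_sum]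
    rw [h5]
    have h6 : ‖∑ x ∈ Ico a b, z x + z b‖ ^ 2 = ‖∑ x ∈ Ico a b, z x‖ ^ 2 + 1 +
        2 * (z b * (starRingEnd ℂ) (∑ x ∈ Ico a b, z x)).re := by
      rw [← Complex.normSq_eq_norm_sq, ← Complex.normSq_eq_norm_sq, Complex.normSq_add]
      have h7 : Complex.normSq (z b) = 1 := by
        rw [Complex.normSq_eq_norm_sq, hz b]
        norm_num
      rw [h7]
      simp only [Complex.mul_re, Complex.conj_re, Complex.conj_im]
      ring
    rw [h6, ih']
    push_cast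
    ring

/-- One step of Weyl differencing.

Proof. `‖∑_{x ∈ [a, b)} e (φ x)‖ ^ 2 = ∑_{x, y ∈ [a, b)} e (φ y - φ x)`; the diagonal gives `b - a ≤ N`, the terms with
`y = x + h`, `1 ≤ h ≤ N - 1`, `x ∈ [a, b - h)` and their conjugates give the rest (for `h > b - a` the interval
`Ico a (b - h)` is empty). -/
theorem weyl_step (φ : ℕ → ℝ) (N : ℕ) (K : ℕ → ℝ)
    (hK : ∀ h ∈ Icc 1 (N - 1), ∀ a b : ℕ, a ≤ b → b ≤ N →
      ‖∑ x ∈ Ico a b, ex (φ (x + h) - φ x)‖ ≤ K h) (a b : ℕ) (hab : a ≤ b) (hb : b ≤ N) :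
    ‖∑ x ∈ Ico a b, ex (φ x)‖ ^ 2 ≤ N + 2 * ∑ h ∈ Icc 1 (N - 1), K h := by
  have hz : ∀ x : ℕ, ‖(fun x : ℕ => ex (φ x)) x‖ = 1 := fun x => EWeyl_norm _
  rw [EWeyl_id (fun x => ex (φ x)) hz N a b hab hb]
  have ha : (0 : ℝ) ≤ a := Nat.cast_nonneg a
  have hbN : (b : ℝ) ≤ N := Nat.cast_le.mpr hb
  have h1 : (∑ h ∈ Icc 1 (N - 1), ∑ x ∈ Ico a (b - h),
      ex (φ (x + h)) * (starRingEnd ℂ) (ex (φ x))).re ≤ ∑ h ∈ Icc 1 (N - 1), K h := by
    refine (Complex.re_le_norm _).trans ((norm_sum_le _ _).trans ?_)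
    refine Finset.sum_le_sum fun h hh => ?_
    have h2 : ∑ x ∈ Ico a (b - h), ex (φ (x + h)) * (starRingEnd ℂ) (ex (φ x)) =
        ∑ x ∈ Ico a (b - h), ex (φ (x + h) - φ x) :=
      Finset.sum_congr rfl fun x _ => EWeyl_conj _ _
    rw [h2]
    by_cases hle : a ≤ b - h
    · exact hK h hh a (b - h) hle (by omega)
    · have h3 := hK h hh a a le_rfl (hab.trans hb)
      rw [Finset.Ico_eq_empty (by omega)]
      rw [Finset.Ico_self] at h3
      exact h3
  linarith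

/-- A geometric sum: for `0 < |α| ≤ 1 / 2` one has `|∑ e (α x + β)| ≤ 1 / (2 |α|)`
(`|1 - e (α)| = 2 |sin (π α)| ≥ 4 |α|`). -/
theorem geom_bound (α β : ℝ) (h0 : α ≠ 0) (h1 : |α| ≤ 1 / 2) (a b : ℕ) :
    ‖∑ x ∈ Ico a b, ex (α * x + β)‖ ≤ 1 / (2 * |α|) := by
  have hα : 0 < |α| := abs_pos.mpr h0
  rcases lt_or_ge b a with hba | hab
  · rw [Finset.Ico_eq_empty (by omega), Finset.sum_empty, norm_zero]
    positivity
  have hq : 4 * |α| ≤ ‖ex α - 1‖ := by
    have h2 : (2 * Real.pi * α * Complex.I : ℂ) = Complex.I * ((2 * Real.pi * α : ℝ) : ℂ) := by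
      push_cast
      ring
    rw [ex, h2, Complex.norm_exp_I_mul_ofReal_sub_one]
    have h3 : 2 * Real.pi * α / 2 = Real.pi * α := by ring
    rw [h3, norm_mul, Real.norm_eq_abs, Real.norm_eq_abs, abs_two]
    have h4 : |Real.pi * α| = Real.pi * |α| := by
      rw [abs_mul, abs_of_pos Real.pi_pos]
    have h5 : |Real.pi * α| ≤ Real.pi / 2 := by
      rw [h4]
      have := mul_le_mul_of_nonneg_left h1 Real.pi_pos.le
      linarith
    have h6 := Real.mul_abs_le_abs_sin h5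
    rw [h4] at h6
    have h7 : 2 / Real.pi * (Real.pi * |α|) = 2 * |α| := by
      field_simp
    rw [h7] at h6
    linarith
  have hne : ex α ≠ 1 := by
    intro h
    rw [h, sub_self, norm_zero] at hq
    linarith
  have h2 : ∑ x ∈ Ico a b, ex (α * x + β) = ex β * ∑ x ∈ Ico a b, ex α ^ x := by
    rw [Finset.mul_sum]
    refine Finset.sum_congr rfl fun x _ => ?_
    rw [ex, ex, ex, ← Complex.exp_nat_mul, ← Complex.exp_add]
    congr 1
    push_cast
    ring
  rw [h2, norm_mul, EWeyl_norm, one_mul, geom_sum_Ico hne hab, norm_div]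
  have h3 : ‖ex α ^ b - ex α ^ a‖ ≤ 2 := by
    refine (norm_sub_le _ _).trans ?_
    rw [norm_pow, norm_pow, EWeyl_norm, one_pow, one_pow]
    norm_num
  have h4 : 0 < ‖ex α - 1‖ := by linarith
  rw [div_le_div_iff₀ h4 (by positivity)]
  nlinarith

theorem EWeyl_harm (N : ℕ) : ∑ h ∈ Icc 1 (N - 1), (1 / (h : ℝ)) ≤ 1 + Real.log N := by
  have h1 : ∑ h ∈ Icc 1 (N - 1), (1 / (h : ℝ)) ≤ ∑ h ∈ Icc 1 N, (1 / (h : ℝ)) := by
    refine Finset.sum_le_sum_of_subset_of_nonneg ?_ fun h _ _ => by positivity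
    exact Finset.Icc_subset_Icc le_rfl (by omega)
  refine h1.trans ?_
  have h2 := harmonic_le_one_add_log N
  rw [harmonic_eq_sum_Icc] at h2
  push_cast at h2
  simpa only [one_div] using h2

theorem EWeyl_poly (f : ℝ[X]) (d : ℕ) (hf : f.natDegree ≤ d + 1) (h : ℝ) :
    (taylor h f - f).natDegree ≤ d ∧
      (taylor h f - f).coeff d = (d + 1) * f.coeff (d + 1) * h := by
  constructor
  · rw [Polynomial.natDegree_le_iff_coeff_eq_zero]
    intro n hn
    rw [Polynomial.coeff_sub]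
    rcases Nat.lt_or_ge (d + 1) n with h1 | h1
    · rw [Polynomial.coeff_eq_zero_of_natDegree_lt (by rw [Polynomial.natDegree_taylor]; omega),
        Polynomial.coeff_eq_zero_of_natDegree_lt (by omega), sub_zero]
    · have h2 : n = d + 1 := by omega
      subst h2
      have h3 : (hasseDeriv (d + 1) f).natDegree ≤ 0 := by
        refine (Polynomial.natDegree_hasseDeriv_le f (d + 1)).trans ?_
        omega
      rw [Polynomial.taylor_coeff, Polynomial.eq_C_of_natDegree_le_zero h3, Polynomial.eval_C,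
        Polynomial.hasseDeriv_coeff, Nat.zero_add, Nat.choose_self, Nat.cast_one, one_mul,
        sub_self]
  · have h3 : (hasseDeriv d f).natDegree ≤ 1 := by
      refine (Polynomial.natDegree_hasseDeriv_le f d).trans ?_
      omega
    rw [Polynomial.coeff_sub, Polynomial.taylor_coeff,
      Polynomial.eq_X_add_C_of_natDegree_le_one h3, Polynomial.eval_add, Polynomial.eval_mul,
      Polynomial.eval_C, Polynomial.eval_X, Polynomial.eval_C, Polynomial.hasseDeriv_coeff,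
      Polynomial.hasseDeriv_coeff, Nat.zero_add, Nat.choose_self, Nat.cast_one, one_mul,
      Nat.add_comm 1 d, Nat.choose_succ_self_right]
    push_cast
    ring

theorem EWeyl_final (S N : ℝ) (K B : ℕ → ℝ) (n M : ℕ) (hM : 1 ≤ M) (hN : 1 ≤ N)
    (hn : ((n - 1 : ℕ) : ℝ) ≤ N)
    (hK0 : ∀ h, 0 ≤ K h) (hKB : ∀ h, K h ^ M = B h)
    (hS : S ^ 2 ≤ N + 2 * ∑ h ∈ Icc 1 (n - 1), K h) (C E : ℝ) (hC : 1 ≤ C) (hE : 0 ≤ E)
    (hB : ∑ h ∈ Icc 1 (n - 1), B h ≤ C * N ^ M * (1 + N * E)) :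
    S ^ (2 * M) ≤ 2 ^ (M - 1) * (1 + 2 ^ M * C) * N ^ (2 * M) * (1 / N + E) := by
  have hN0 : 0 < N := by linarith
  have h1 : S ^ (2 * M) ≤ (N + 2 * ∑ h ∈ Icc 1 (n - 1), K h) ^ M := by
    rw [pow_mul]
    exact pow_le_pow_left₀ (sq_nonneg S) hS M
  have hs0 : 0 ≤ ∑ h ∈ Icc 1 (n - 1), K h := Finset.sum_nonneg fun h _ => hK0 h
  have h2 := add_pow_le hN0.le (mul_nonneg zero_le_two hs0) M
  have h3 : (∑ h ∈ Icc 1 (n - 1), K h) ^ M ≤ N ^ (M - 1) * ∑ h ∈ Icc 1 (n - 1), B h := by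
    obtain ⟨m, rfl⟩ : ∃ m, M = m + 1 := ⟨M - 1, by omega⟩
    rcases Nat.eq_zero_or_pos (n - 1) with h0 | h0
    · rw [h0]
      simp
    have h4 := pow_sum_div_card_le_sum_pow (s := Icc 1 (n - 1)) (f := K) (fun h _ => hK0 h) m
    rw [Nat.card_Icc, Nat.add_sub_cancel] at h4
    have hc0 : (0 : ℝ) < ((n - 1 : ℕ) : ℝ) := Nat.cast_pos.mpr h0
    rw [div_le_iff₀ (pow_pos hc0 m)] at h4
    have h5 : ∑ h ∈ Icc 1 (n - 1), K h ^ (m + 1) = ∑ h ∈ Icc 1 (n - 1), B h :=
      Finset.sum_congr rfl fun h _ => hKB h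
    rw [h5] at h4
    have h6 : 0 ≤ ∑ h ∈ Icc 1 (n - 1), B h := by
      rw [← h5]
      exact Finset.sum_nonneg fun h _ => pow_nonneg (hK0 h) _
    have h7 : ((n - 1 : ℕ) : ℝ) ^ m ≤ N ^ m := pow_le_pow_left₀ hc0.le hn m
    rw [Nat.add_sub_cancel]
    calc _ ≤ (∑ h ∈ Icc 1 (n - 1), B h) * ((n - 1 : ℕ) : ℝ) ^ m := h4
      _ ≤ (∑ h ∈ Icc 1 (n - 1), B h) * N ^ m := mul_le_mul_of_nonneg_left h7 h6
      _ = _ := mul_comm _ _
  have h8 : (2 * ∑ h ∈ Icc 1 (n - 1), K h) ^ M ≤ 2 ^ M * C * N ^ (2 * M) * (1 / N + E) := by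
    rw [mul_pow]
    have h9 : N ^ (M - 1) * (C * N ^ M * (1 + N * E)) = C * N ^ (2 * M) * (1 / N + E) := by
      obtain ⟨m, rfl⟩ : ∃ m, M = m + 1 := ⟨M - 1, by omega⟩
      rw [Nat.add_sub_cancel]
      field_simp
      ring
    calc _ ≤ 2 ^ M * (N ^ (M - 1) * (C * N ^ M * (1 + N * E))) := by
          refine mul_le_mul_of_nonneg_left (h3.trans ?_) (by positivity)
          exact mul_le_mul_of_nonneg_left hB (by positivity)
      _ = _ := by
          rw [h9]
          ring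
  have h10 : N ^ M ≤ N ^ (2 * M) * (1 / N + E) := by
    have h11 : N ^ (M + 1) ≤ N ^ (2 * M) := pow_le_pow_right₀ hN (by omega)
    have h12 : N ^ M = N ^ (M + 1) * (1 / N) := by
      rw [pow_succ]
      field_simp
    rw [h12]
    have h13 : N ^ (M + 1) * (1 / N) ≤ N ^ (2 * M) * (1 / N) :=
      mul_le_mul_of_nonneg_right h11 (by positivity)
    have h14 : 0 ≤ N ^ (2 * M) * E := by positivity
    rw [mul_add]
    linarith
  calc S ^ (2 * M) ≤ 2 ^ (M - 1) * (N ^ M + (2 * ∑ h ∈ Icc 1 (n - 1), K h) ^ M) := h1.trans h2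
    _ ≤ 2 ^ (M - 1) * (N ^ (2 * M) * (1 / N + E) + 2 ^ M * C * N ^ (2 * M) * (1 / N + E)) := by
        refine mul_le_mul_of_nonneg_left ?_ (by positivity)
        linarith
    _ = _ := by ring

/-- **Weyl sums over polynomials with a small leading coefficient.**

Proof. Induction on `d`. For `d = 1` this is `geom_bound` (`2 ^ 0 = 1`). Step: for `1 ≤ h ≤ N - 1` the polynomial
`f (X + h) - f (X)` has degree `≤ d` (for `f` of degree `≤ d + 1`) with coefficient `(d + 1) α h` at `X ^ d`, and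
`d! (d + 1) |α| h N ^ (d - 1) ≤ (d + 1)! |α| N ^ d ≤ 1 / 2`. By `weyl_step` with
`K h = (C_d N ^ (2 ^ (d - 1)) (1 / N + (1 + log N) ^ (d - 1) / ((d + 1) |α| h N ^ d))) ^ (1 / 2 ^ (d - 1))` and Hölder
(`inner_le_Lp_mul_Lq` or `Real.inner_le...`, convexity of `x ^ (2 ^ (d - 1))`):
`|S| ^ (2 ^ d) ≤ 2 ^ (2 ^ (d - 1)) (N ^ (2 ^ (d - 1)) + 2 ^ (2 ^ (d - 1)) N ^ (2 ^ (d - 1) - 1) ∑_h K h ^ (2 ^ (d - 1)))`, and
`∑_{h ≤ N} 1 / h ≤ 1 + log N`. -/
theorem weyl (d : ℕ) (hd : 1 ≤ d) : ∃ C : ℝ, 1 ≤ C ∧ ∀ (f : ℝ[X]) (N : ℕ), 1 ≤ N → f.natDegree ≤ d →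
    f.coeff d ≠ 0 → (d.factorial : ℝ) * |f.coeff d| * (N : ℝ) ^ (d - 1) ≤ 1 / 2 →
      ∀ a b : ℕ, a ≤ b → b ≤ N →
        ‖∑ x ∈ Ico a b, ex (f.eval (x : ℝ))‖ ^ (2 ^ (d - 1)) ≤
          C * (N : ℝ) ^ (2 ^ (d - 1)) *
            (1 / N + (1 + Real.log N) ^ (d - 1) / (|f.coeff d| * (N : ℝ) ^ d)) := by
  induction d, hd using Nat.le_induction with
  | base =>
    refine ⟨1, le_rfl, fun f N hN hf h0 h1 a b hab hb => ?_⟩
    have hN0 : (1 : ℝ) ≤ N := by exact_mod_cast hN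
    have h2 : |f.coeff 1| ≤ 1 / 2 := by
      simpa using h1
    have h3 := geom_bound (f.coeff 1) (f.coeff 0) h0 h2 a b
    have h4 : ∑ x ∈ Ico a b, ex (f.eval (x : ℝ)) =
        ∑ x ∈ Ico a b, ex (f.coeff 1 * x + f.coeff 0) := by
      refine Finset.sum_congr rfl fun x _ => ?_
      congr 1
      conv_lhs => rw [Polynomial.eq_X_add_C_of_natDegree_le_one hf]
      simp
    rw [h4]
    have hα : 0 < |f.coeff 1| := abs_pos.mpr h0
    simp only [Nat.sub_self, pow_zero, pow_one, one_mul]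
    refine h3.trans ?_
    have h5 : (N : ℝ) * (1 / N + 1 / (|f.coeff 1| * N)) = 1 + 1 / |f.coeff 1| := by
      field_simp
    rw [h5]
    have h6 : 1 / (2 * |f.coeff 1|) = (1 / 2) * (1 / |f.coeff 1|) := by
      field_simp
    have h7 : 0 < 1 / |f.coeff 1| := by positivity
    rw [h6]
    linarith
  | succ d hd ih =>
    obtain ⟨C, hC, ih⟩ := ih
    refine ⟨2 ^ (2 ^ (d - 1) - 1) * (1 + 2 ^ (2 ^ (d - 1)) * C), ?_,
      fun f N hN hf h0 h1 a b hab hb => ?_⟩
    · have h2 : (1 : ℝ) ≤ 2 ^ (2 ^ (d - 1) - 1) := one_le_pow₀ (by norm_num)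
      have h3 : (1 : ℝ) ≤ 1 + 2 ^ (2 ^ (d - 1)) * C := by
        have : (0 : ℝ) ≤ 2 ^ (2 ^ (d - 1)) * C := by positivity
        linarith
      nlinarith
    have hN0 : (1 : ℝ) ≤ N := by exact_mod_cast hN
    have hNpos : (0 : ℝ) < N := by linarith
    have hα : 0 < |f.coeff (d + 1)| := abs_pos.mpr h0
    have hlog : 0 ≤ Real.log N := Real.log_nonneg hN0
    obtain ⟨M, hM⟩ : ∃ M, M = 2 ^ (d - 1) := ⟨_, rfl⟩
    have hM1 : 1 ≤ M := by
      rw [hM]
      exact Nat.one_le_two_pow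
    have hM2 : 2 ^ (d + 1 - 1) = 2 * M := by
      rw [hM, ← pow_succ']
      congr 1
      omega
    obtain ⟨B, hB⟩ : ∃ B : ℕ → ℝ, B = fun h : ℕ => C * (N : ℝ) ^ M *
        (1 / N + (1 + Real.log N) ^ (d - 1) / (|(d + 1) * f.coeff (d + 1) * (h : ℝ)| *
          (N : ℝ) ^ d)) := ⟨_, rfl⟩
    have hB0 : ∀ h, 0 ≤ B h := by
      intro h
      rw [hB]
      positivity
    have hstep := weyl_step (fun x => f.eval (x : ℝ)) N (fun h => B h ^ ((M : ℝ)⁻¹)) ?_ a b hab hb
    · have hfin := EWeyl_final ‖∑ x ∈ Ico a b, ex (f.eval (x : ℝ))‖ N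
        (fun h => B h ^ ((M : ℝ)⁻¹)) B N M hM1 hN0 ?_ ?_ ?_ hstep C
        ((1 + Real.log N) ^ d / (|f.coeff (d + 1)| * (N : ℝ) ^ (d + 1))) hC (by positivity) ?_
      · rw [hM2, ← hM]
        exact hfin
      · exact Nat.cast_le.mpr (Nat.sub_le N 1)
      · intro h
        exact Real.rpow_nonneg (hB0 h) _
      · intro h
        exact Real.rpow_inv_natCast_pow (hB0 h) (by omega)
      · have hsum : ∑ h ∈ Icc 1 (N - 1), B h = C * (N : ℝ) ^ M *
            (∑ h ∈ Icc 1 (N - 1), (1 / (N : ℝ)) + (1 + Real.log N) ^ (d - 1) /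
              ((d + 1) * |f.coeff (d + 1)| * (N : ℝ) ^ d) *
                ∑ h ∈ Icc 1 (N - 1), (1 / (h : ℝ))) := by
          rw [Finset.mul_sum, ← Finset.sum_add_distrib, Finset.mul_sum]
          refine Finset.sum_congr rfl fun h hh => ?_
          rw [Finset.mem_Icc] at hh
          have hh0 : (0 : ℝ) < h := by exact_mod_cast hh.1
          have hd0 : (0 : ℝ) < (d : ℝ) + 1 := by positivity
          rw [hB]
          show C * (N : ℝ) ^ M * (1 / N + (1 + Real.log N) ^ (d - 1) /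
            (|(d + 1) * f.coeff (d + 1) * h| * (N : ℝ) ^ d)) = _
          rw [abs_mul, abs_mul, abs_of_pos hh0, abs_of_pos hd0]
          congr 2
          field_simp
        rw [hsum]
        refine mul_le_mul_of_nonneg_left ?_ (by positivity)
        have h5 : ∑ h ∈ Icc 1 (N - 1), (1 / (N : ℝ)) ≤ 1 := by
          rw [Finset.sum_const, Nat.card_Icc, Nat.add_sub_cancel, nsmul_eq_mul, mul_one_div,
            div_le_one hNpos]
          exact Nat.cast_le.mpr (Nat.sub_le N 1)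
        have h6 : (1 + Real.log N) ^ (d - 1) / ((d + 1) * |f.coeff (d + 1)| * (N : ℝ) ^ d) *
            ∑ h ∈ Icc 1 (N - 1), (1 / (h : ℝ)) ≤
            (1 + Real.log N) ^ (d - 1) / (|f.coeff (d + 1)| * (N : ℝ) ^ d) *
            (1 + Real.log N) := by
          refine mul_le_mul ?_ (EWeyl_harm N) ?_ (by positivity)
          · refine div_le_div_of_nonneg_left (by positivity) (by positivity) ?_
            have h7 : (1 : ℝ) ≤ (d : ℝ) + 1 := by
              have : (0 : ℝ) ≤ d := Nat.cast_nonneg d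
              linarith
            have h8 : 0 ≤ |f.coeff (d + 1)| * (N : ℝ) ^ d := by positivity
            nlinarith
          · exact Finset.sum_nonneg fun h _ => by positivity
        have h9 : (N : ℝ) * ((1 + Real.log N) ^ d / (|f.coeff (d + 1)| * (N : ℝ) ^ (d + 1))) =
            (1 + Real.log N) ^ (d - 1) / (|f.coeff (d + 1)| * (N : ℝ) ^ d) *
            (1 + Real.log N) := by
          obtain ⟨k, rfl⟩ : ∃ k, d = k + 1 := ⟨d - 1, by omega⟩
          rw [Nat.add_sub_cancel]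
          field_simp
          ring
        rw [h9]
        linarith
    · intro h hh a' b' hab' hb'
      rw [Finset.mem_Icc] at hh
      have hh0 : (0 : ℝ) < h := by exact_mod_cast hh.1
      have hhN : (h : ℝ) ≤ N := by exact_mod_cast (by omega : h ≤ N)
      have hd0 : (0 : ℝ) < (d : ℝ) + 1 := by positivity
      obtain ⟨hp1, hp2⟩ := EWeyl_poly f d hf h
      have h2 := ih (taylor (h : ℝ) f - f) N hN hp1 ?_ ?_ a' b' hab' hb'
      · have h3 : ∑ x ∈ Ico a' b', ex ((taylor (h : ℝ) f - f).eval (x : ℝ)) =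
            ∑ x ∈ Ico a' b', ex (f.eval ((x + h : ℕ) : ℝ) - f.eval (x : ℝ)) := by
          refine Finset.sum_congr rfl fun x _ => ?_
          rw [Polynomial.eval_sub, Polynomial.taylor_eval, Nat.cast_add]
        rw [h3, hp2, ← hM] at h2
        show ‖∑ x ∈ Ico a' b', ex (f.eval ((x + h : ℕ) : ℝ) - f.eval (x : ℝ))‖ ≤
          B h ^ ((M : ℝ)⁻¹)
        rw [Real.le_rpow_inv_iff_of_pos (norm_nonneg _) (hB0 h) (by exact_mod_cast hM1),
          Real.rpow_natCast, hB]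
        exact h2
      · rw [hp2]
        exact mul_ne_zero (mul_ne_zero hd0.ne' h0) hh0.ne'
      · rw [hp2, abs_mul, abs_mul, abs_of_pos hh0, abs_of_pos hd0]
        refine le_trans ?_ h1
        obtain ⟨k, rfl⟩ : ∃ k, d = k + 1 := ⟨d - 1, by omega⟩
        rw [Nat.add_sub_cancel, Nat.add_sub_cancel, Nat.factorial_succ (k + 1), pow_succ]
        push_cast
        have h4 : (0 : ℝ) ≤ ((k + 1).factorial : ℝ) * ((k : ℝ) + 1 + 1) *
            |f.coeff (k + 1 + 1)| * (N : ℝ) ^ k := by positivity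
        nlinarith

end Pool.Agent.M58
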