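import Pool.Agent.W_b58c63_m1.GExp

/-!
# The inequalities at the right of the line re s = 1 (helper68)
-/

set_option autoImplicit false

noncomputable section

open Finset MeasureTheory Complex

namespace Pool.Agent.M58

/-- the summand of the logarithm -/
def G341_T (z : ℝ) {q : ℕ} (ψ : DirichletCharacter ℂ q) (s : ℂ) (n : ℕ) : ℂ :=
  ((ArithmeticFunction.vonMangoldt n / Real.log n : ℝ) : ℂ) * fz z ψ n * (n : ℂ) ^ (-s)

/-- the nonnegative weight -/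
def G341_A (z σ : ℝ) (n : ℕ) : ℝ :=
  (ArithmeticFunction.vonMangoldt n / Real.log n) * rh z n * (n : ℝ) ^ (-σ)

theorem G341_A_nonneg (z σ : ℝ) (n : ℕ) : 0 ≤ G341_A z σ n := by
  unfold G341_A
  have h1 : 0 ≤ Real.log n := Real.log_natCast_nonneg n
  have h2 : 0 ≤ rh z n := by
    unfold rh
    split_ifs <;> norm_num
  have h3 : 0 ≤ ArithmeticFunction.vonMangoldt n / Real.log n :=
    div_nonneg ArithmeticFunction.vonMangoldt_nonneg h1
  positivity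

theorem G341_sum (z : ℝ) {q : ℕ} (ψ : DirichletCharacter ℂ q) (s : ℂ) (hs : 1 < s.re) :
    Summable (G341_T z ψ s) := by
  have hs0 : s ≠ 0 := by
    rintro rfl
    rw [Complex.zero_re] at hs
    linarith
  have hsum : Summable fun n : ℕ => ‖GExp_hom z ψ s hs0 n‖ := by
    have h1 := (GExp_summable z ψ s hs).norm
    refine h1.congr fun n => ?_
    rw [GExp_term _ (GExp_fz_zero z ψ)]
    rfl
  have hc : ∀ n : ℕ, |ArithmeticFunction.vonMangoldt n / Real.log n| ≤ 1 := by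
    intro n
    have h1 : 0 ≤ Real.log n := Real.log_natCast_nonneg n
    rw [abs_of_nonneg (div_nonneg ArithmeticFunction.vonMangoldt_nonneg h1)]
    exact div_le_one_of_le₀ ArithmeticFunction.vonMangoldt_le_log h1
  refine Summable.of_norm_bounded hsum fun n => ?_
  unfold G341_T
  rw [mul_assoc, norm_mul, Complex.norm_real, Real.norm_eq_abs, ← GExp_hom_apply z ψ s hs0]
  exact mul_le_of_le_one_left (norm_nonneg _) (hc n)

theorem G341_sum_re (z : ℝ) {q : ℕ} (ψ : DirichletCharacter ℂ q) (s : ℂ) (hs : 1 < s.re) :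
    Summable (fun n => (G341_T z ψ s n).re) :=
  (Complex.hasSum_re (G341_sum z ψ s hs).hasSum).summable

theorem G341_norm (z : ℝ) {q : ℕ} (hq : 1 ≤ q) (ψ : DirichletCharacter ℂ q) (s : ℂ) (hs : 1 < s.re) :
    ‖Gz z ψ s‖ = Real.exp (∑' n, (G341_T z ψ s n).re) := by
  have h1 := (G_exp z q hq ψ s hs).1
  rw [h1, Complex.norm_exp]
  congr 1
  exact (Complex.hasSum_re (G341_sum z ψ s hs).hasSum).tsum_eq.symm

/-- the real part of the summand -/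
theorem G341_re (z : ℝ) {q : ℕ} (ψ : DirichletCharacter ℂ q) (σ t : ℝ) (n : ℕ) :
    (G341_T z ψ (σ + t * I) n).re =
      G341_A z σ n * (ψ (n : ZMod q) * (n : ℂ) ^ (-((t : ℂ) * I))).re := by
  rcases Nat.eq_zero_or_pos n with hn | hn
  · subst hn
    unfold G341_T G341_A
    simp
  · have hnc : (n : ℂ) ≠ 0 := by exact_mod_cast hn.ne'
    have e1 : (n : ℂ) ^ (-((σ : ℂ) + t * I)) = (((n : ℝ) ^ (-σ) : ℝ) : ℂ) * (n : ℂ) ^ (-((t : ℂ) * I)) := by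
      rw [neg_add, Complex.cpow_add _ _ hnc, Complex.ofReal_cpow (Nat.cast_nonneg n)]
      push_cast
      ring
    have e2 : G341_T z ψ (σ + t * I) n =
        ((G341_A z σ n : ℝ) : ℂ) * (ψ (n : ZMod q) * (n : ℂ) ^ (-((t : ℂ) * I))) := by
      unfold G341_T G341_A fz
      rw [e1]
      push_cast
      ring
    rw [e2, Complex.re_ofReal_mul]

theorem G341_re0 (z : ℝ) {q : ℕ} (ψ : DirichletCharacter ℂ q) (σ : ℝ) (n : ℕ) :
    (G341_T z ψ σ n).re = G341_A z σ n * (ψ (n : ZMod q)).re := by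
  have h := G341_re z ψ σ 0 n
  simpa using h

/-- The 3-4-1 inequality. (`G_exp`, `3 + 4 cos x + cos 2 x ≥ 0`; `|rh ψ| ≤ 1`, and for `n` not prime to `q` the terms
with `ψ` vanish.) -/
theorem three_four_one (z : ℝ) (q : ℕ) (hq : 1 ≤ q) (ψ : DirichletCharacter ℂ q) (σ t : ℝ) (hσ : 1 < σ) :
    1 ≤ ‖Gz z (1 : DirichletCharacter ℂ 1) σ‖ ^ 3 * ‖Gz z ψ (σ + t * I)‖ ^ 4 *
      ‖Gz z (ψ ^ 2) (σ + 2 * t * I)‖ := by
  have hs1 : 1 < ((σ : ℂ)).re := by simpa using hσ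
  have hs2 : 1 < ((σ : ℂ) + t * I).re := by simpa using hσ
  have hs3 : 1 < ((σ : ℂ) + 2 * t * I).re := by simpa using hσ
  rw [G341_norm z le_rfl _ _ hs1, G341_norm z hq _ _ hs2, G341_norm z hq _ _ hs3, ← Real.exp_nat_mul,
    ← Real.exp_nat_mul, ← Real.exp_add, ← Real.exp_add, Real.one_le_exp_iff]
  have a1 := (G341_sum_re z (1 : DirichletCharacter ℂ 1) _ hs1)
  have a2 := (G341_sum_re z ψ _ hs2)
  have a3 := (G341_sum_re z (ψ ^ 2) _ hs3)
  rw [← tsum_mul_left, ← tsum_mul_left, ← (a1.mul_left _).tsum_add (a2.mul_left _),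
    ← ((a1.mul_left _).add (a2.mul_left _)).tsum_add a3]
  refine tsum_nonneg fun n => ?_
  have e3 : (σ : ℂ) + 2 * t * I = (σ : ℂ) + ((2 * t : ℝ) : ℂ) * I := by push_cast; ring
  rw [e3, G341_re0, G341_re, G341_re]
  have h1 : (1 : DirichletCharacter ℂ 1) (n : ZMod 1) = 1 :=
    MulChar.one_apply (isUnit_of_subsingleton _)
  rw [h1, Complex.one_re, mul_one]
  rcases Nat.eq_zero_or_pos n with hn | hn
  · subst hn
    unfold G341_A
    simp
  have hA := G341_A_nonneg z σ n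
  obtain ⟨w, hw⟩ : ∃ w : ℂ, w = ψ (n : ZMod q) * (n : ℂ) ^ (-((t : ℂ) * I)) := ⟨_, rfl⟩
  have hw1 : ‖w‖ ≤ 1 := by
    rw [hw, norm_mul, Complex.norm_natCast_cpow_of_pos hn]
    have : (-((t : ℂ) * I)).re = 0 := by simp
    rw [this, Real.rpow_zero, mul_one]
    exact ψ.norm_le_one _
  have hw2 : (ψ ^ 2) (n : ZMod q) * (n : ℂ) ^ (-(((2 * t : ℝ) : ℂ) * I)) = w ^ 2 := by
    rw [hw, mul_pow, MulChar.pow_apply' ψ (two_ne_zero), ← Complex.cpow_nat_mul]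
    congr 2
    push_cast
    ring
  rw [← hw, hw2]
  have h3 : (w ^ 2).re = w.re ^ 2 - w.im ^ 2 := by
    rw [pow_two, Complex.mul_re]
    ring
  have h4 : w.re ^ 2 + w.im ^ 2 ≤ 1 := by
    have h5 : ‖w‖ ^ 2 ≤ 1 := by
      have := norm_nonneg w
      nlinarith
    rw [Complex.sq_norm, Complex.normSq_apply] at h5
    nlinarith
  rw [h3]
  have h6 : 0 ≤ 3 + 4 * w.re + (w.re ^ 2 - w.im ^ 2) := by nlinarith [sq_nonneg (1 + w.re)]
  have h7 := mul_nonneg hA h6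
  push_cast
  nlinarith [h7]

/-- Landau: two real characters. `ψ₁ ψ₂` is given as a character modulo `q`. (`(1 + ψ₁) (1 + ψ₂) ≥ 0` on prime powers.) -/
theorem landau (z : ℝ) (q₁ q₂ q : ℕ) (h1 : 1 ≤ q₁) (h2 : 1 ≤ q₂) (hq : 1 ≤ q) (ψ₁ : DirichletCharacter ℂ q₁)
    (ψ₂ : DirichletCharacter ℂ q₂) (ψ : DirichletCharacter ℂ q)
    (hr1 : ∀ n : ℕ, (ψ₁ (n : ZMod q₁)).im = 0) (hr2 : ∀ n : ℕ, (ψ₂ (n : ZMod q₂)).im = 0)
    (hψ : ∀ n : ℕ, ψ (n : ZMod q) = ψ₁ (n : ZMod q₁) * ψ₂ (n : ZMod q₂)) (σ : ℝ) (hσ : 1 < σ) :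
    1 ≤ ‖Gz z (1 : DirichletCharacter ℂ 1) σ‖ * ‖Gz z ψ₁ σ‖ * ‖Gz z ψ₂ σ‖ * ‖Gz z ψ σ‖ := by
  have hs1 : 1 < ((σ : ℂ)).re := by simpa using hσ
  rw [G341_norm z le_rfl _ _ hs1, G341_norm z h1 _ _ hs1, G341_norm z h2 _ _ hs1,
    G341_norm z hq _ _ hs1, ← Real.exp_add, ← Real.exp_add, ← Real.exp_add, Real.one_le_exp_iff]
  have a1 := (G341_sum_re z (1 : DirichletCharacter ℂ 1) _ hs1)
  have a2 := (G341_sum_re z ψ₁ _ hs1)
  have a3 := (G341_sum_re z ψ₂ _ hs1)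
  have a4 := (G341_sum_re z ψ _ hs1)
  rw [← a1.tsum_add a2, ← (a1.add a2).tsum_add a3, ← ((a1.add a2).add a3).tsum_add a4]
  refine tsum_nonneg fun n => ?_
  rw [G341_re0, G341_re0, G341_re0, G341_re0]
  have h1' : (1 : DirichletCharacter ℂ 1) (n : ZMod 1) = 1 :=
    MulChar.one_apply (isUnit_of_subsingleton _)
  rw [h1', Complex.one_re, mul_one, hψ n, Complex.mul_re, hr1 n, hr2 n]
  have hA := G341_A_nonneg z σ n
  have b1 := (abs_le.mp ((Complex.abs_re_le_norm (ψ₁ (n : ZMod q₁))).trans (ψ₁.norm_le_one _))).1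
  have b2 := (abs_le.mp ((Complex.abs_re_le_norm (ψ₂ (n : ZMod q₂))).trans (ψ₂.norm_le_one _))).1
  have h7 := mul_nonneg hA (mul_nonneg (by linarith : 0 ≤ 1 + (ψ₁ (n : ZMod q₁)).re)
    (by linarith : 0 ≤ 1 + (ψ₂ (n : ZMod q₂)).re))
  nlinarith [h7]

/-- One real character: `1 ≤ Gz 1 σ * Gz ψ σ`. -/
theorem real_one (z : ℝ) (q : ℕ) (hq : 1 ≤ q) (ψ : DirichletCharacter ℂ q)
    (hr : ∀ n : ℕ, (ψ (n : ZMod q)).im = 0) (σ : ℝ) (hσ : 1 < σ) :
    1 ≤ ‖Gz z (1 : DirichletCharacter ℂ 1) σ‖ * ‖Gz z ψ σ‖ := by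
  have _ := hr
  have hs1 : 1 < ((σ : ℂ)).re := by simpa using hσ
  rw [G341_norm z le_rfl _ _ hs1, G341_norm z hq _ _ hs1, ← Real.exp_add, Real.one_le_exp_iff]
  have a1 := (G341_sum_re z (1 : DirichletCharacter ℂ 1) _ hs1)
  have a2 := (G341_sum_re z ψ _ hs1)
  rw [← a1.tsum_add a2]
  refine tsum_nonneg fun n => ?_
  rw [G341_re0, G341_re0]
  have h1' : (1 : DirichletCharacter ℂ 1) (n : ZMod 1) = 1 :=
    MulChar.one_apply (isUnit_of_subsingleton _)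
  rw [h1', Complex.one_re, mul_one]
  have hA := G341_A_nonneg z σ n
  have b1 := (abs_le.mp ((Complex.abs_re_le_norm (ψ (n : ZMod q))).trans (ψ.norm_le_one _))).1
  have h7 := mul_nonneg hA (by linarith : 0 ≤ 1 + (ψ (n : ZMod q)).re)
  nlinarith [h7]

end Pool.Agent.M58
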