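import Pool.Agent.W_b58c63_m1.GFun

/-!
# Logarithms of the sieved L-functions (helper68)
-/

set_option autoImplicit false

noncomputable section

open Finset MeasureTheory Complex

namespace Pool.Agent.M58

theorem GExp_rh_zero (z : ℝ) : rh z 0 = 0 := by
  unfold rh
  rw [if_neg]
  exact fun h => h.1 rfl

theorem GExp_rh_one (z : ℝ) : rh z 1 = 1 := by
  unfold rh
  rw [if_pos]
  refine ⟨one_ne_zero, fun p hp => ?_⟩
  rw [Nat.primeFactors_one] at hp
  exact absurd hp (Finset.notMem_empty p)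

theorem GExp_rh_mul (z : ℝ) (m n : ℕ) : rh z (m * n) = rh z m * rh z n := by
  classical
  rcases Nat.eq_zero_or_pos m with hm | hm
  · rw [hm, zero_mul, GExp_rh_zero, zero_mul]
  rcases Nat.eq_zero_or_pos n with hn | hn
  · rw [hn, mul_zero, GExp_rh_zero, mul_zero]
  have hm' : m ≠ 0 := hm.ne'
  have hn' : n ≠ 0 := hn.ne'
  have e1 : ∀ k : ℕ, (k ≠ 0 ∧ ∀ p ∈ k.primeFactors, z ≤ (p : ℝ)) → rh z k = 1 := by
    intro k h
    unfold rh
    exact if_pos h
  have e0 : ∀ k : ℕ, ¬ (k ≠ 0 ∧ ∀ p ∈ k.primeFactors, z ≤ (p : ℝ)) → rh z k = 0 := by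
    intro k h
    unfold rh
    exact if_neg h
  by_cases h1 : ∀ p ∈ m.primeFactors, z ≤ (p : ℝ)
  · by_cases h2 : ∀ p ∈ n.primeFactors, z ≤ (p : ℝ)
    · rw [e1 m ⟨hm', h1⟩, e1 n ⟨hn', h2⟩, one_mul]
      refine e1 _ ⟨mul_ne_zero hm' hn', fun p hp => ?_⟩
      rw [Nat.primeFactors_mul hm' hn', Finset.mem_union] at hp
      rcases hp with hp | hp
      · exact h1 p hp
      · exact h2 p hp
    · rw [e0 n (fun h => h2 h.2), mul_zero]
      refine e0 _ ?_
      rintro ⟨_, h⟩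
      apply h2
      intro p hp
      apply h
      rw [Nat.primeFactors_mul hm' hn', Finset.mem_union]
      exact Or.inr hp
  · rw [e0 m (fun h => h1 h.2), zero_mul]
    refine e0 _ ?_
    rintro ⟨_, h⟩
    apply h1
    intro p hp
    apply h
    rw [Nat.primeFactors_mul hm' hn', Finset.mem_union]
    exact Or.inl hp

theorem GExp_rh_abs (z : ℝ) (n : ℕ) : |rh z n| ≤ 1 := by
  unfold rh
  split_ifs <;> simp

theorem GExp_fz_norm (z : ℝ) {q : ℕ} (ψ : DirichletCharacter ℂ q) (n : ℕ) : ‖fz z ψ n‖ ≤ 1 := by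
  unfold fz
  rw [norm_mul, Complex.norm_real, Real.norm_eq_abs]
  exact mul_le_one₀ (GExp_rh_abs z n) (norm_nonneg _) (ψ.norm_le_one _)

theorem GExp_fz_zero (z : ℝ) {q : ℕ} (ψ : DirichletCharacter ℂ q) : fz z ψ 0 = 0 := by
  unfold fz
  rw [GExp_rh_zero, Complex.ofReal_zero, zero_mul]

theorem GExp_fz_one (z : ℝ) {q : ℕ} (ψ : DirichletCharacter ℂ q) : fz z ψ 1 = 1 := by
  unfold fz
  rw [GExp_rh_one, Complex.ofReal_one, Nat.cast_one, map_one, one_mul]

theorem GExp_fz_mul (z : ℝ) {q : ℕ} (ψ : DirichletCharacter ℂ q) (m n : ℕ) :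
    fz z ψ (m * n) = fz z ψ m * fz z ψ n := by
  unfold fz
  rw [GExp_rh_mul, Complex.ofReal_mul, Nat.cast_mul, map_mul]
  ring

/-- The summand as a monoid homomorphism. -/
def GExp_hom (z : ℝ) {q : ℕ} (ψ : DirichletCharacter ℂ q) (s : ℂ) (hs : s ≠ 0) : ℕ →*₀ ℂ where
  toFun n := fz z ψ n * (n : ℂ) ^ (-s)
  map_zero' := by rw [GExp_fz_zero, zero_mul]
  map_one' := by rw [GExp_fz_one, Nat.cast_one, Complex.one_cpow, one_mul]
  map_mul' m n := by
    rw [GExp_fz_mul, Nat.cast_mul, Complex.natCast_mul_natCast_cpow]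
    ring

theorem GExp_hom_apply (z : ℝ) {q : ℕ} (ψ : DirichletCharacter ℂ q) (s : ℂ) (hs : s ≠ 0) (n : ℕ) :
    GExp_hom z ψ s hs n = fz z ψ n * (n : ℂ) ^ (-s) := rfl

theorem GExp_term (f : ℕ → ℂ) (hf : f 0 = 0) (s : ℂ) (n : ℕ) :
    LSeries.term f s n = f n * (n : ℂ) ^ (-s) := by
  rcases Nat.eq_zero_or_pos n with hn | hn
  · rw [hn, LSeries.term_zero, hf, zero_mul]
  · rw [LSeries.term_of_ne_zero hn.ne', Complex.cpow_neg, div_eq_mul_inv]

theorem GExp_summable (z : ℝ) {q : ℕ} (ψ : DirichletCharacter ℂ q) (s : ℂ) (hs : 1 < s.re) :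
    LSeriesSummable (fz z ψ) s :=
  LSeriesSummable_of_bounded_of_one_lt_re (m := 1) (fun n _ => GExp_fz_norm z ψ n) hs

theorem GExp_log (z : ℝ) {q : ℕ} (ψ : DirichletCharacter ℂ q) (s : ℂ) (hs : 1 < s.re) (hs0 : s ≠ 0) :
    ∑' n : ℕ, ((ArithmeticFunction.vonMangoldt n / Real.log n : ℝ) : ℂ) * fz z ψ n * (n : ℂ) ^ (-s) =
      ∑' p : Nat.Primes, -Complex.log (1 - GExp_hom z ψ s hs0 p) := by
  have hsum : Summable fun n : ℕ => ‖GExp_hom z ψ s hs0 n‖ := by
    have h1 := (GExp_summable z ψ s hs).norm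
    refine h1.congr fun n => ?_
    rw [GExp_term _ (GExp_fz_zero z ψ)]
    rfl
  have hc : ∀ n : ℕ, |ArithmeticFunction.vonMangoldt n / Real.log n| ≤ 1 := by
    intro n
    have h1 : 0 ≤ Real.log n := Real.log_natCast_nonneg n
    rw [abs_of_nonneg (div_nonneg ArithmeticFunction.vonMangoldt_nonneg h1)]
    exact div_le_one_of_le₀ ArithmeticFunction.vonMangoldt_le_log h1
  have hg : Summable fun n : ℕ =>
      ((ArithmeticFunction.vonMangoldt n / Real.log n : ℝ) : ℂ) * fz z ψ n * (n : ℂ) ^ (-s) := by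
    refine Summable.of_norm_bounded hsum fun n => ?_
    rw [mul_assoc, norm_mul, Complex.norm_real, Real.norm_eq_abs, ← GExp_hom_apply z ψ s hs0]
    exact mul_le_of_le_one_left (norm_nonneg _) (hc n)
  rw [tsum_eq_tsum_primes_of_support_subset_prime_powers hg]
  · refine tsum_congr fun p => ?_
    have hp1 : (1 : ℝ) < (p : ℕ) := by exact_mod_cast p.2.one_lt
    have hlog : Real.log (p : ℕ) ≠ 0 := (Real.log_pos hp1).ne'
    have hx : ‖GExp_hom z ψ s hs0 p‖ < 1 :=
      hsum.of_norm.norm_lt_one (f := (GExp_hom z ψ s hs0).toMonoidHom) p.2.one_lt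
    have h1 := (Complex.hasSum_taylorSeries_neg_log' hx).tsum_eq
    rw [← h1]
    refine tsum_congr fun k => ?_
    rw [mul_assoc, ← GExp_hom_apply z ψ s hs0, map_pow (GExp_hom z ψ s hs0)]
    have h2 : (ArithmeticFunction.vonMangoldt ((p : ℕ) ^ (k + 1)) / Real.log ((p : ℕ) ^ (k + 1) : ℕ) : ℝ)
        = 1 / (k + 1) := by
      rw [ArithmeticFunction.vonMangoldt_apply_pow (Nat.succ_ne_zero k),
        ArithmeticFunction.vonMangoldt_apply_prime p.2, Nat.cast_pow, Real.log_pow]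
      have hk : ((k + 1 : ℕ) : ℝ) ≠ 0 := by positivity
      field_simp
      push_cast
      ring
    rw [h2]
    push_cast
    ring
  · intro n hn
    by_contra h
    apply hn
    show ((ArithmeticFunction.vonMangoldt n / Real.log n : ℝ) : ℂ) * fz z ψ n * (n : ℂ) ^ (-s) = 0
    have h1 : ArithmeticFunction.vonMangoldt n = 0 := ArithmeticFunction.vonMangoldt_eq_zero_iff.2 h
    rw [h1]
    simp

theorem GExp_conv (z : ℝ) {q : ℕ} (ψ : DirichletCharacter ℂ q) :
    LSeries.convolution (fun n => (ArithmeticFunction.vonMangoldt n : ℂ) * fz z ψ n) (fz z ψ) =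
      LSeries.logMul (fz z ψ) := by
  rw [LSeries.convolution_def]
  funext n
  show ∑ p ∈ n.divisorsAntidiagonal,
      ((ArithmeticFunction.vonMangoldt p.1 : ℂ) * fz z ψ p.1) * fz z ψ p.2 =
    Complex.log n * fz z ψ n
  have h1 : ∀ p ∈ n.divisorsAntidiagonal,
      ((ArithmeticFunction.vonMangoldt p.1 : ℂ) * fz z ψ p.1) * fz z ψ p.2 =
        (ArithmeticFunction.vonMangoldt p.1 : ℂ) * fz z ψ n := by
    intro p hp
    rw [mul_assoc, ← GExp_fz_mul, (Nat.mem_divisorsAntidiagonal.1 hp).1]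
  rw [Finset.sum_congr rfl h1, ← Finset.sum_mul]
  congr 1
  have h2 := Nat.sum_divisorsAntidiagonal
    (f := fun a _ => (ArithmeticFunction.vonMangoldt a : ℂ)) (n := n)
  rw [h2, ← Complex.natCast_log, ← ArithmeticFunction.vonMangoldt_sum, Complex.ofReal_sum]

/-- **Logarithms.** For `re s > 1`.

Proof. `f (n) = rh z n ψ (n) n ^ (- s)` is completely multiplicative and summable: `EulerProduct.exp_tsum_primes_log_eq_tsum`,
and `- log (1 - x) = ∑ x ^ k / k`. The second statement: `ψ rh log` is the convolution of `ψ rh` and `Λ ψ rh`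
(`LSeries_convolution`, `LSeries_deriv`). -/
theorem G_exp (z : ℝ) (q : ℕ) (hq : 1 ≤ q) (ψ : DirichletCharacter ℂ q) (s : ℂ) (hs : 1 < s.re) :
    Gz z ψ s = Complex.exp (∑' n : ℕ, ((ArithmeticFunction.vonMangoldt n / Real.log n : ℝ) : ℂ) *
      fz z ψ n * (n : ℂ) ^ (-s)) ∧ Gz z ψ s ≠ 0 ∧ -deriv (Gz z ψ) s = Gz z ψ s * Dz z ψ s := by
  have hs0 : s ≠ 0 := by
    rintro rfl
    rw [Complex.zero_re] at hs
    linarith
  have hsum : Summable fun n : ℕ => ‖GExp_hom z ψ s hs0 n‖ := by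
    have h1 := (GExp_summable z ψ s hs).norm
    refine h1.congr fun n => ?_
    rw [GExp_term _ (GExp_fz_zero z ψ)]
    rfl
  have h1 : Gz z ψ s = Complex.exp (∑' n : ℕ, ((ArithmeticFunction.vonMangoldt n / Real.log n : ℝ) : ℂ) *
      fz z ψ n * (n : ℂ) ^ (-s)) := by
    rw [GExp_log z ψ s hs hs0, EulerProduct.exp_tsum_primes_log_eq_tsum hsum]
    unfold Gz LSeries
    exact tsum_congr fun n => GExp_term _ (GExp_fz_zero z ψ) s n
  refine ⟨h1, ?_, ?_⟩
  · rw [h1]
    exact Complex.exp_ne_zero _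
  · have h2 : LSeries.abscissaOfAbsConv (fz z ψ) < s.re := by
      refine lt_of_le_of_lt (LSeries.abscissaOfAbsConv_le_of_le_const
        ⟨1, fun n _ => GExp_fz_norm z ψ n⟩) ?_
      exact_mod_cast hs
    have h3 : deriv (Gz z ψ) s = -LSeries (LSeries.logMul (fz z ψ)) s := LSeries_deriv h2
    rw [h3, neg_neg, ← GExp_conv]
    have h4 : LSeriesSummable (fun n => (ArithmeticFunction.vonMangoldt n : ℂ) * fz z ψ n) s := by
      have h5 := (ArithmeticFunction.LSeriesSummable_vonMangoldt hs).norm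
      refine Summable.of_norm_bounded h5 fun n => ?_
      refine LSeries.norm_term_le s ?_
      rw [norm_mul]
      exact mul_le_of_le_one_right (norm_nonneg _) (GExp_fz_norm z ψ n)
    rw [LSeries_convolution' h4 (GExp_summable z ψ s hs), mul_comm]
    rfl

end Pool.Agent.M58
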