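import Pool.Agent.W_b58c63_m1.GRou

/-!
# The sieved L-functions (helper68)
-/

set_option autoImplicit false

noncomputable section

open Finset MeasureTheory Complex

namespace Pool.Agent.M58

/-- `sinh x / x` -/
def GFun_S (x : ℂ) : ℂ := dslope Complex.sinh 0 x

/-- `(1 - e^{-x}) / x` -/
def GFun_E (x : ℂ) : ℂ := dslope (fun w : ℂ => 1 - Complex.exp (-w)) 0 x

theorem GFun_S_diff : Differentiable ℂ GFun_S := by
  have h := (Complex.differentiableOn_dslope (f := Complex.sinh) (c := 0) (s := Set.univ)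
    Filter.univ_mem).2 Complex.differentiable_sinh.differentiableOn
  exact differentiableOn_univ.1 h

theorem GFun_S_zero : GFun_S 0 = 1 := by
  unfold GFun_S
  rw [dslope_same, Complex.deriv_sinh, Complex.cosh_zero]

theorem GFun_S_ne {x : ℂ} (hx : x ≠ 0) : GFun_S x = Complex.sinh x / x := by
  unfold GFun_S
  rw [dslope_of_ne _ hx, slope_def_field, Complex.sinh_zero, sub_zero, sub_zero]

theorem GFun_E_deriv (x : ℂ) : HasDerivAt (fun w : ℂ => 1 - Complex.exp (-w)) (Complex.exp (-x)) x := by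
  have h1 : HasDerivAt (fun w : ℂ => Complex.exp (-w)) (Complex.exp (-x) * (-1)) x :=
    (hasDerivAt_neg x).cexp
  have h2 := h1.const_sub 1
  refine h2.congr_deriv ?_
  ring

theorem GFun_E_diff : Differentiable ℂ GFun_E := by
  have h := (Complex.differentiableOn_dslope (f := fun w : ℂ => 1 - Complex.exp (-w)) (c := 0)
    (s := Set.univ) Filter.univ_mem).2 (fun x _ => (GFun_E_deriv x).differentiableAt.differentiableWithinAt)
  exact differentiableOn_univ.1 h

theorem GFun_E_zero : GFun_E 0 = 1 := by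
  unfold GFun_E
  rw [dslope_same, (GFun_E_deriv 0).deriv, neg_zero, Complex.exp_zero]

theorem GFun_E_ne {x : ℂ} (hx : x ≠ 0) : GFun_E x = (1 - Complex.exp (-x)) / x := by
  unfold GFun_E
  rw [dslope_of_ne _ hx, slope_def_field, neg_zero, Complex.exp_zero, sub_self, sub_zero, sub_zero]

theorem GFun_E_le {x : ℂ} (hx : -1 ≤ x.re) : ‖GFun_E x‖ ≤ Real.exp 1 := by
  by_cases h0 : x = 0
  · rw [h0, GFun_E_zero, norm_one]
    exact Real.one_le_exp zero_le_one
  · rw [GFun_E_ne h0, norm_div, div_le_iff₀ (norm_pos_iff.2 h0)]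
    have hconv : Convex ℝ {w : ℂ | -1 ≤ w.re} := convex_halfSpace_re_ge (-1)
    have h := hconv.norm_image_sub_le_of_norm_deriv_le (𝕜 := ℂ)
      (f := fun w : ℂ => 1 - Complex.exp (-w)) (C := Real.exp 1) (x := 0) (y := x)
      (fun w _ => (GFun_E_deriv w).differentiableAt)
      (fun w hw => by
        rw [(GFun_E_deriv w).deriv, Complex.norm_exp]
        apply Real.exp_le_exp.2
        have hw' : -1 ≤ w.re := hw
        rw [Complex.neg_re]
        linarith) (by
        show (-1 : ℝ) ≤ (0 : ℂ).re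
        rw [Complex.zero_re]
        norm_num) hx
    simpa using h

theorem GFun_tent_nn (x : ℝ) : 0 ≤ tent x := le_max_left _ _

theorem GFun_tent_le (x : ℝ) : tent x ≤ 1 := by
  unfold tent
  apply max_le zero_le_one
  linarith [abs_nonneg x]

theorem GFun_tent_lip (x y : ℝ) : |tent x - tent y| ≤ |x - y| := by
  unfold tent
  have h0 := abs_max_sub_max_le_max (0 : ℝ) (1 - |x|) 0 (1 - |y|)
  have h : 1 - |x| - (1 - |y|) = |y| - |x| := by ring
  rw [h, sub_self, abs_zero] at h0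
  have h1 : max 0 |(|y| - |x|)| = |(|y| - |x|)| := max_eq_right (abs_nonneg _)
  rw [h1] at h0
  refine h0.trans ((abs_abs_sub_abs_le_abs_sub y x).trans ?_)
  rw [abs_sub_comm]

/-- the Laplace transform of the tent -/
theorem GFun_T (x : ℂ) : ∫ y : ℝ, (tent y : ℂ) * Complex.exp (-(x * y)) = GFun_S (x / 2) ^ 2 := by
  have hcont : Continuous (fun y : ℝ => (tent y : ℂ) * Complex.exp (-(x * y))) := by
    have := STe_cont
    fun_prop
  have hsupp : Function.support (fun y : ℝ => (tent y : ℂ) * Complex.exp (-(x * y))) ⊆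
      Set.Ioc (-1) 1 := by
    intro y hy
    by_contra h
    apply hy
    have h1 : 1 ≤ |y| := by
      rw [Set.mem_Ioc, not_and_or, not_lt, not_le] at h
      rcases h with h | h
      · rw [le_abs]
        right
        linarith
      · rw [le_abs]
        left
        linarith
    show (tent y : ℂ) * Complex.exp (-(x * y)) = 0
    rw [STe_supp y h1, Complex.ofReal_zero, zero_mul]
  rw [← intervalIntegral.integral_eq_integral_of_support_subset hsupp,
    ← intervalIntegral.integral_add_adjacent_intervals (b := 0) (hcont.intervalIntegrable _ _)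
      (hcont.intervalIntegrable _ _)]
  have e1 : ∫ y in (-1 : ℝ)..0, (tent y : ℂ) * Complex.exp (-(x * y)) =
      ∫ y in (-1 : ℝ)..0, (1 + y : ℂ) * Complex.exp (-(x * y)) := by
    refine intervalIntegral.integral_congr fun y hy => ?_
    rw [Set.uIcc_of_le (by norm_num)] at hy
    have : tent y = 1 + y := by
      unfold tent
      rw [abs_of_nonpos hy.2, max_eq_right (by linarith [hy.1])]
      ring
    show (tent y : ℂ) * _ = _
    rw [this]
    push_cast
    rfl
  have e2 : ∫ y in (0 : ℝ)..1, (tent y : ℂ) * Complex.exp (-(x * y)) =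
      ∫ y in (0 : ℝ)..1, (1 - y : ℂ) * Complex.exp (-(x * y)) := by
    refine intervalIntegral.integral_congr fun y hy => ?_
    rw [Set.uIcc_of_le (by norm_num)] at hy
    have : tent y = 1 - y := by
      unfold tent
      rw [abs_of_nonneg hy.1, max_eq_right (by linarith [hy.2])]
    show (tent y : ℂ) * _ = _
    rw [this]
    push_cast
    rfl
  rw [e1, e2]
  rcases eq_or_ne x 0 with rfl | hx
  · have e3 : ∀ y : ℝ, Complex.exp (-(0 * (y : ℂ))) = 1 := by
      intro y
      simp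
    simp only [e3, mul_one]
    have d1 : ∀ x : ℝ, HasDerivAt (fun x : ℝ => (x : ℂ) + (x : ℂ) ^ 2 / 2) (1 + x : ℂ) x := by
      intro x
      have h1 : HasDerivAt (fun x : ℝ => (x : ℂ)) 1 x := Complex.ofRealCLM.hasDerivAt
      have h2 := h1.add ((h1.pow 2).div_const 2)
      refine h2.congr_deriv ?_
      push_cast
      ring
    have d2 : ∀ x : ℝ, HasDerivAt (fun x : ℝ => (x : ℂ) - (x : ℂ) ^ 2 / 2) (1 - x : ℂ) x := by
      intro x
      have h1 : HasDerivAt (fun x : ℝ => (x : ℂ)) 1 x := Complex.ofRealCLM.hasDerivAt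
      have h2 := h1.sub ((h1.pow 2).div_const 2)
      refine h2.congr_deriv ?_
      push_cast
      ring
    rw [intervalIntegral.integral_eq_sub_of_hasDerivAt (fun x _ => d1 x)
      ((by fun_prop : Continuous (fun x : ℝ => (1 + x : ℂ))).intervalIntegrable _ _),
      intervalIntegral.integral_eq_sub_of_hasDerivAt (fun x _ => d2 x)
      ((by fun_prop : Continuous (fun x : ℝ => (1 - x : ℂ))).intervalIntegrable _ _), zero_div,
      GFun_S_zero]
    push_cast
    norm_num
  · obtain ⟨b, hb⟩ : ∃ b : ℂ, b = -x := ⟨_, rfl⟩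
    have hb0 : b ≠ 0 := by
      rw [hb]
      exact neg_ne_zero.2 hx
    have e3 : ∀ y : ℝ, -(x * (y : ℂ)) = b * y := by
      intro y
      rw [hb]
      ring
    simp only [e3]
    have d0 : ∀ x : ℝ, HasDerivAt (fun x : ℝ => Complex.exp (b * x)) (Complex.exp (b * x) * b) x := by
      intro x
      have h1 : HasDerivAt (fun x : ℝ => (x : ℂ)) 1 x := Complex.ofRealCLM.hasDerivAt
      have h2 : HasDerivAt (fun x : ℝ => b * (x : ℂ)) b x := by
        simpa using h1.const_mul b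
      exact h2.cexp
    have d1 : ∀ x : ℝ, HasDerivAt (fun x : ℝ => (1 + (x : ℂ)) * Complex.exp (b * x) / b -
        Complex.exp (b * x) / b ^ 2) ((1 + x : ℂ) * Complex.exp (b * x)) x := by
      intro x
      have h1 : HasDerivAt (fun x : ℝ => (1 + (x : ℂ))) 1 x :=
        Complex.ofRealCLM.hasDerivAt.const_add 1
      have h2 := ((h1.mul (d0 x)).div_const b).sub ((d0 x).div_const (b ^ 2))
      refine h2.congr_deriv ?_
      field_simp
      ring
    have d2 : ∀ x : ℝ, HasDerivAt (fun x : ℝ => (1 - (x : ℂ)) * Complex.exp (b * x) / b +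
        Complex.exp (b * x) / b ^ 2) ((1 - x : ℂ) * Complex.exp (b * x)) x := by
      intro x
      have h1 : HasDerivAt (fun x : ℝ => (1 - (x : ℂ))) (-1) x :=
        Complex.ofRealCLM.hasDerivAt.const_sub 1
      have h2 := ((h1.mul (d0 x)).div_const b).add ((d0 x).div_const (b ^ 2))
      refine h2.congr_deriv ?_
      field_simp
      ring
    rw [intervalIntegral.integral_eq_sub_of_hasDerivAt (fun x _ => d1 x)
      ((by fun_prop : Continuous (fun x : ℝ => (1 + x : ℂ) * Complex.exp (b * x))).intervalIntegrable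
        _ _), intervalIntegral.integral_eq_sub_of_hasDerivAt (fun x _ => d2 x)
      ((by fun_prop : Continuous (fun x : ℝ => (1 - x : ℂ) * Complex.exp (b * x))).intervalIntegrable
        _ _)]
    have hx2 : x / 2 ≠ 0 := div_ne_zero hx two_ne_zero
    rw [GFun_S_ne hx2, Complex.sinh, div_pow, div_pow]
    have e5 : Complex.exp (x / 2) * Complex.exp (x / 2) = Complex.exp x := by
      rw [← Complex.exp_add]
      congr 1
      ring
    have e6 : Complex.exp (-(x / 2)) * Complex.exp (-(x / 2)) = Complex.exp (-x) := by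
      rw [← Complex.exp_add]
      congr 1
      ring
    have e7 : Complex.exp (x / 2) * Complex.exp (-(x / 2)) = 1 := by
      rw [← Complex.exp_add, add_neg_cancel, Complex.exp_zero]
    have e8 : (Complex.exp (x / 2) - Complex.exp (-(x / 2))) ^ 2 =
        Complex.exp x + Complex.exp (-x) - 2 := by
      linear_combination e5 + e6 - 2 * e7
    rw [e8]
    push_cast
    have e9 : (1 + (0 : ℂ)) * Complex.exp (b * 0) / b - Complex.exp (b * 0) / b ^ 2 -
        ((1 + -1) * Complex.exp (b * -1) / b - Complex.exp (b * -1) / b ^ 2) +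
        ((1 - 1) * Complex.exp (b * 1) / b + Complex.exp (b * 1) / b ^ 2 -
        ((1 - 0) * Complex.exp (b * 0) / b + Complex.exp (b * 0) / b ^ 2)) =
        (Complex.exp b + Complex.exp (-b) - 2) / b ^ 2 := by
      rw [mul_zero, Complex.exp_zero, mul_one, mul_neg_one]
      ring_nf
    rw [e9, hb, neg_neg, neg_sq]
    field_simp
    ring

/-- partition of unity -/
theorem GFun_part {x : ℝ} (hx : 0 ≤ x) : HasSum (fun j : ℕ => tent (x - j)) 1 := by
  have hfl := Nat.floor_le hx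
  have hfl2 := Nat.lt_floor_add_one x
  have hne : ⌊x⌋₊ ∉ ({⌊x⌋₊ + 1} : Finset ℕ) := by
    rw [Finset.mem_singleton]
    omega
  have h1 : ∑ j ∈ insert ⌊x⌋₊ ({⌊x⌋₊ + 1} : Finset ℕ), tent (x - j) = 1 := by
    rw [Finset.sum_insert hne, Finset.sum_singleton]
    unfold tent
    push_cast
    rw [abs_of_nonneg (by linarith : 0 ≤ x - (⌊x⌋₊ : ℝ)),
      abs_of_nonpos (by linarith : x - ((⌊x⌋₊ : ℝ) + 1) ≤ 0), max_eq_right (by linarith),
      max_eq_right (by linarith)]
    ring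
  rw [← h1]
  refine hasSum_sum_of_ne_finset_zero ?_
  intro j hj
  apply STe_supp
  rw [Finset.mem_insert, Finset.mem_singleton, not_or] at hj
  rcases Nat.lt_or_ge j ⌊x⌋₊ with h | h
  · have h2 : (j : ℝ) + 1 ≤ ⌊x⌋₊ := by exact_mod_cast h
    rw [abs_of_nonneg (by linarith)]
    linarith
  · have h3 : ⌊x⌋₊ + 2 ≤ j := by omega
    have h4 : (⌊x⌋₊ : ℝ) + 2 ≤ j := by exact_mod_cast h3
    rw [abs_of_nonpos (by linarith)]
    linarith

theorem GFun_part' {x : ℝ} (hx : 0 ≤ x) :
    HasSum (fun j : ℕ => tent (x - (j + 1))) (1 - tent x) := by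
  have h := (hasSum_nat_add_iff' (f := fun j : ℕ => tent (x - j)) 1).2 (GFun_part hx)
  simpa using h

/-- The coefficients of the sieved L-function. -/
def fz (z : ℝ) {q : ℕ} (ψ : DirichletCharacter ℂ q) (n : ℕ) : ℂ := (rh z n : ℂ) * ψ (n : ZMod q)

/-- The sieved L-function in the half plane `re s > 1`. -/
def Gz (z : ℝ) {q : ℕ} (ψ : DirichletCharacter ℂ q) (s : ℂ) : ℂ := LSeries (fz z ψ) s

/-- The sieved von Mangoldt series. -/
def Dz (z : ℝ) {q : ℕ} (ψ : DirichletCharacter ℂ q) (s : ℂ) : ℂ :=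
  LSeries (fun n => (ArithmeticFunction.vonMangoldt n : ℂ) * fz z ψ n) s

/-- `g` is the continuation of the sieved L-function (for `ψ ≠ 1`), respectively of `L (s - 1)` times it, where
`L = d log Y` and `z = Y ^ d`, with bounds. -/
def Ext (c₀ C₀ Y d : ℝ) {q : ℕ} (ψ : DirichletCharacter ℂ q) (g : ℂ → ℂ) : Prop :=
  DifferentiableOn ℂ g {s | 1 - c₀ / (d * Real.log Y) < s.re ∧ |s.im| < Y ^ 2} ∧
    (ψ ≠ 1 → ∀ s : ℂ, 1 - c₀ / (d * Real.log Y) < s.re → |s.im| < Y ^ 2 →
      ‖g s‖ ≤ C₀ ∧ (1 < s.re → g s = Gz (Y ^ d) ψ s)) ∧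
    (ψ = 1 → ∀ s : ℂ, 1 - c₀ / (d * Real.log Y) < s.re → |s.im| < Y ^ 2 →
      ‖g s‖ ≤ C₀ * (1 + d * Real.log Y * ‖s - 1‖) ∧
      (1 < s.re → g s = (d * Real.log Y : ℝ) * (s - 1) * Gz (Y ^ d) ψ s)) ∧
    (ψ = 1 → 1 / C₀ ≤ ‖g 1‖)

/-- the blocks -/
def GFun_B (z L : ℝ) {q : ℕ} (ψ : DirichletCharacter ℂ q) (j : ℕ) (s : ℂ) : ℂ :=
  ∑' n : ℕ, (tent (Real.log n / L - j) : ℂ) * LSeries.term (fz z ψ) s n

/-- the main terms -/
def GFun_M (L : ℝ) (j : ℕ) (s : ℂ) : ℂ :=
  L * Complex.exp (-(j * (L * (s - 1)))) * GFun_S (L * (s - 1) / 2) ^ 2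

theorem GFun_rh_le (z : ℝ) (n : ℕ) : 0 ≤ rh z n ∧ rh z n ≤ 1 := by
  unfold rh
  split_ifs <;> norm_num

theorem GFun_rh_one (z : ℝ) : rh z 1 = 1 := by
  unfold rh
  rw [if_pos]
  refine ⟨one_ne_zero, fun p hp => ?_⟩
  simp at hp

theorem GFun_rh_zero (z : ℝ) : rh z 0 = 0 := by
  unfold rh
  rw [if_neg]
  simp

theorem GFun_rh_log {z : ℝ} (hz : 0 < z) {n : ℕ} (hn : rh z n ≠ 0) (h1 : n ≠ 1) :
    Real.log z ≤ Real.log n := by
  have h2 : n ≠ 0 ∧ ∀ p ∈ n.primeFactors, z ≤ (p : ℝ) := by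
    by_contra hcon
    apply hn
    unfold rh
    rw [if_neg hcon]
  obtain ⟨p, hp, hpn⟩ := Nat.exists_prime_and_dvd h1
  have h3 := h2.2 p (Nat.mem_primeFactors.2 ⟨hp, hpn, h2.1⟩)
  have h4 : (p : ℝ) ≤ n := by exact_mod_cast Nat.le_of_dvd (Nat.pos_of_ne_zero h2.1) hpn
  exact Real.log_le_log hz (h3.trans h4)

theorem GFun_fz_le (z : ℝ) {q : ℕ} (ψ : DirichletCharacter ℂ q) (n : ℕ) :
    ‖fz z ψ n‖ ≤ rh z n := by
  unfold fz
  rw [norm_mul, Complex.norm_real, Real.norm_of_nonneg (GFun_rh_le z n).1]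
  exact mul_le_of_le_one_right (GFun_rh_le z n).1 (DirichletCharacter.norm_le_one ψ _)

theorem GFun_summ (z : ℝ) {q : ℕ} (ψ : DirichletCharacter ℂ q) {s : ℂ} (hs : 1 < s.re) :
    LSeriesSummable (fz z ψ) s :=
  LSeriesSummable_of_bounded_of_one_lt_re (m := 1)
    (fun n _ => (GFun_fz_le z ψ n).trans (GFun_rh_le z n).2) hs

theorem GFun_Gz_diff (z : ℝ) {q : ℕ} (ψ : DirichletCharacter ℂ q) {s : ℂ} (hs : 1 < s.re) :
    DifferentiableAt ℂ (Gz z ψ) s := by
  have h1 : LSeries.abscissaOfAbsConv (fz z ψ) < s.re := by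
    have h2 := (GFun_summ z ψ (s := (((1 + s.re) / 2 : ℝ) : ℂ)) (by
      rw [Complex.ofReal_re]
      linarith)).abscissaOfAbsConv_le
    refine lt_of_le_of_lt h2 ?_
    rw [Complex.ofReal_re]
    exact_mod_cast (by linarith : (1 + s.re) / 2 < s.re)
  exact (LSeries_hasDerivAt h1).differentiableAt

/-- the blocks are finite sums -/
theorem GFun_B_eq (z : ℝ) {L : ℝ} (hL : 0 < L) {q : ℕ} (ψ : DirichletCharacter ℂ q) (j : ℕ) (s : ℂ)
    {N : ℕ} (hN : (j + 1) * L ≤ Real.log N) :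
    GFun_B z L ψ j s =
      ∑ n ∈ Icc 1 N, (tent (Real.log n / L - j) : ℂ) * LSeries.term (fz z ψ) s n := by
  unfold GFun_B
  apply tsum_eq_sum
  intro n hn
  rcases Nat.eq_zero_or_pos n with h | h
  · rw [h, LSeries.term_zero, mul_zero]
  · have hnN : N < n := by
      rw [mem_Icc, not_and_or, not_le, not_le] at hn
      omega
    have hN0 : 0 < N := by
      rcases Nat.eq_zero_or_pos N with h0 | h0
      · rw [h0, Nat.cast_zero, Real.log_zero] at hN
        have : 0 < ((j : ℝ) + 1) * L := by positivity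
        linarith
      · exact h0
    have h1 : Real.log N ≤ Real.log n :=
      Real.log_le_log (by exact_mod_cast hN0) (by exact_mod_cast hnN.le)
    have h2 : (j : ℝ) + 1 ≤ Real.log n / L := by
      rw [le_div_iff₀ hL]
      linarith
    rw [STe_supp, Complex.ofReal_zero, zero_mul]
    rw [abs_of_nonneg (by linarith)]
    linarith

theorem GFun_exN (j : ℕ) (L : ℝ) : ∃ N : ℕ, (j + 1) * L ≤ Real.log N := by
  refine ⟨⌈Real.exp ((j + 1) * L)⌉₊, ?_⟩
  rw [Real.le_log_iff_exp_le]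
  · exact Nat.le_ceil _
  · exact lt_of_lt_of_le (Real.exp_pos _) (Nat.le_ceil _)

theorem GFun_B_diff (z : ℝ) {L : ℝ} (hL : 0 < L) {q : ℕ} (ψ : DirichletCharacter ℂ q) (j : ℕ) :
    Differentiable ℂ (GFun_B z L ψ j) := by
  obtain ⟨N, hN⟩ := GFun_exN j L
  have h : GFun_B z L ψ j = fun s =>
      ∑ n ∈ Icc 1 N, (tent (Real.log n / L - j) : ℂ) * LSeries.term (fz z ψ) s n := by
    funext s
    exact GFun_B_eq z hL ψ j s hN
  rw [h]
  refine Differentiable.fun_sum fun n hn => ?_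
  have hn0 : n ≠ 0 := by
    rw [mem_Icc] at hn
    omega
  have hnc : (n : ℂ) ≠ 0 := Nat.cast_ne_zero.2 hn0
  refine Differentiable.const_mul ?_ _
  have h2 : (fun s => LSeries.term (fz z ψ) s n) = fun s => fz z ψ n / (n : ℂ) ^ s := by
    funext s
    rw [LSeries.term_of_ne_zero hn0]
  rw [h2]
  refine Differentiable.div (differentiable_const _) ?_ fun s => ?_
  · exact differentiable_id.const_cpow (Or.inl hnc)
  · rw [Complex.cpow_def_of_ne_zero hnc]
    exact Complex.exp_ne_zero _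

theorem GFun_M_diff (L : ℝ) (j : ℕ) : Differentiable ℂ (GFun_M L j) := by
  unfold GFun_M
  have h1 : Differentiable ℂ fun s : ℂ => (L : ℂ) * (s - 1) / 2 := by fun_prop
  have h2 : Differentiable ℂ fun s : ℂ => GFun_S ((L : ℂ) * (s - 1) / 2) := GFun_S_diff.comp h1
  have h3 : Differentiable ℂ fun s : ℂ => (L : ℂ) * Complex.exp (-(j * ((L : ℂ) * (s - 1)))) := by
    fun_prop
  exact h3.mul (h2.pow 2)

/-- the main terms are the oscillating integrals -/
theorem GFun_M_int {L : ℝ} (hL : 0 < L) (j : ℕ) (s : ℂ) :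
    ∫ v : ℝ, (tent (v / L - j) : ℂ) * Complex.exp ((1 - s) * v) = GFun_M L j s := by
  set G : ℝ → ℂ := fun y => (tent y : ℂ) * Complex.exp (-((L * (s - 1)) * y)) *
    Complex.exp (-(j * (L * (s - 1)))) with hG
  have h1 : ∀ v : ℝ, (tent (v / L - j) : ℂ) * Complex.exp ((1 - s) * v) =
      (fun y => G (y - j)) (v / L) := by
    intro v
    rw [hG]
    show _ = (tent (v / L - j) : ℂ) * Complex.exp (-((L * (s - 1)) * ((v / L - j : ℝ) : ℂ))) *
      Complex.exp (-(j * (L * (s - 1))))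
    rw [mul_assoc, ← Complex.exp_add]
    congr 2
    have hLc : (L : ℂ) ≠ 0 := Complex.ofReal_ne_zero.2 hL.ne'
    push_cast
    field_simp
    ring
  simp only [h1]
  rw [Measure.integral_comp_div (fun y => G (y - j)), integral_sub_right_eq_self G, abs_of_pos hL, hG,
    integral_mul_const, GFun_T, Complex.real_smul]
  unfold GFun_M
  ring

theorem GFun_exp_lip {a b c : ℝ} (ha : a ≤ c) (hb : b ≤ c) :
    |Real.exp a - Real.exp b| ≤ Real.exp c * |a - b| := by
  have key : ∀ a b : ℝ, b ≤ a → a ≤ c → |Real.exp a - Real.exp b| ≤ Real.exp c * |a - b| := by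
    intro a b hab hac
    rw [abs_of_nonneg (sub_nonneg.2 (Real.exp_le_exp.2 hab)), abs_of_nonneg (sub_nonneg.2 hab)]
    have h1 := Real.add_one_le_exp (b - a)
    have h2 : Real.exp b = Real.exp a * Real.exp (b - a) := by
      rw [← Real.exp_add]
      congr 1
      ring
    have h3 : Real.exp a - Real.exp b ≤ Real.exp a * (a - b) := by
      rw [h2]
      have := mul_le_mul_of_nonneg_left h1 (Real.exp_pos a).le
      linarith
    exact h3.trans (mul_le_mul_of_nonneg_right (Real.exp_le_exp.2 hac) (sub_nonneg.2 hab))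
  rcases le_total b a with h | h
  · exact key a b h ha
  · rw [abs_sub_comm, abs_sub_comm a b]
    exact key b a h hb

/-- The hypothesis given by `rough_block`. -/
def GFun_H (C₁ c₀ z L T : ℝ) {q : ℕ} (ψ : DirichletCharacter ℂ q) (e : ℂ) : Prop :=
  ∀ (j N : ℕ) (t : ℝ) (h : ℝ → ℝ), |t| ≤ T → 1 ≤ j → (∀ v, |h v| ≤ 1) →
    (∀ v w, |h v - h w| ≤ |v - w| / L) → (∀ v, v ≤ (j - 1) * L → h v = 0) →
    (∀ v, (j + 1) * L ≤ v → h v = 0) → (j + 1) * L ≤ Real.log N →
      ‖DP N (fun n => rh z n * h (Real.log n)) ψ t - e * ((Vz z : ℂ) * osc h t)‖ ≤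
        C₁ * Real.exp (-(2 * c₀) * j)

theorem GFun_block {C₁ c₀ z L T : ℝ} (hL : 0 < L) (hc0 : 0 < c₀) (hc1 : c₀ ≤ 1)
    {q : ℕ} (ψ : DirichletCharacter ℂ q) (e : ℂ) (H : GFun_H C₁ c₀ z L T ψ e) {j : ℕ} (hj : 1 ≤ j)
    {s : ℂ} (hs : |s.re - 1| ≤ c₀ / L) (ht : |s.im| ≤ T) :
    ‖GFun_B z L ψ j s - e * ((Vz z : ℂ) * GFun_M L j s)‖ ≤
      2 * C₁ * Real.exp c₀ * Real.exp (-c₀ * j) := by
  obtain ⟨N, hN⟩ := GFun_exN j L
  set A : ℝ := Real.exp (c₀ * (j + 1)) with hA
  have hA0 : 0 < A := Real.exp_pos _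
  set u : ℝ → ℝ := fun v => tent (v / L - j) with hu
  set ev : ℝ → ℝ := fun v => Real.exp ((1 - s.re) * v) with hev
  set h : ℝ → ℝ := fun v => u v * ev v * (2 * A)⁻¹ with hh
  have hj1 : (1 : ℝ) ≤ j := by exact_mod_cast hj
  have hsupp : ∀ v, u v ≠ 0 → (j - 1) * L < v ∧ v < (j + 1) * L := by
    intro v hv
    have h1 : |v / L - j| < 1 := by
      by_contra hcon
      push Not at hcon
      exact hv (STe_supp _ hcon)
    have h2 := abs_lt.1 h1
    constructor
    · have : (j : ℝ) - 1 < v / L := by linarith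
      rwa [lt_div_iff₀ hL] at this
    · have : v / L < (j : ℝ) + 1 := by linarith
      rwa [div_lt_iff₀ hL] at this
  have habs : ∀ v, u v ≠ 0 → (1 - s.re) * v ≤ c₀ * (j + 1) := by
    intro v hv
    obtain ⟨h1, h2⟩ := hsupp v hv
    have hv0 : 0 ≤ v := by
      have : 0 ≤ ((j : ℝ) - 1) * L := mul_nonneg (by linarith) hL.le
      linarith
    have h3 : 1 - s.re ≤ c₀ / L := by
      have := neg_abs_le (s.re - 1)
      linarith
    calc (1 - s.re) * v ≤ c₀ / L * v := mul_le_mul_of_nonneg_right h3 hv0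
      _ ≤ c₀ / L * ((j + 1) * L) := mul_le_mul_of_nonneg_left h2.le (by positivity)
      _ = c₀ * (j + 1) := by field_simp
  have hevA : ∀ v, u v ≠ 0 → ev v ≤ A := fun v hv => Real.exp_le_exp.2 (habs v hv)
  have hev0 : ∀ v, 0 < ev v := fun v => Real.exp_pos _
  have hu0 : ∀ v, 0 ≤ u v := fun v => GFun_tent_nn _
  have hu1 : ∀ v, u v ≤ 1 := fun v => GFun_tent_le _
  have hulip : ∀ v w, |u v - u w| ≤ |v - w| / L := by
    intro v w
    refine (GFun_tent_lip _ _).trans (le_of_eq ?_)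
    have h1 : v / L - j - (w / L - j) = (v - w) / L := by ring
    rw [h1, abs_div, abs_of_pos hL]
  have hb1 : ∀ v, |h v| ≤ 1 := by
    intro v
    by_cases hv : u v = 0
    · rw [hh]
      simp only [hv, zero_mul, abs_zero]
      exact zero_le_one
    · have h1 : 0 ≤ h v := mul_nonneg (mul_nonneg (hu0 v) (hev0 v).le) (by positivity)
      rw [abs_of_nonneg h1]
      have h2 : u v * ev v ≤ 1 * A := mul_le_mul (hu1 v) (hevA v hv) (hev0 v).le zero_le_one
      show u v * ev v * (2 * A)⁻¹ ≤ 1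
      rw [← div_eq_mul_inv, div_le_one (by positivity)]
      linarith
  have hprod : ∀ v w, |u v * ev v - u w * ev w| ≤ 2 * A * (|v - w| / L) := by
    have key : ∀ v w, u v ≠ 0 → |u v * ev v - u w * ev w| ≤ 2 * A * (|v - w| / L) := by
      intro v w hv
      have h1 : u v * ev v - u w * ev w = (u v - u w) * ev v + u w * (ev v - ev w) := by ring
      rw [h1]
      refine (abs_add_le _ _).trans ?_
      rw [abs_mul, abs_mul, abs_of_pos (hev0 v)]
      have h2 : |u v - u w| * ev v ≤ |v - w| / L * A :=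
        mul_le_mul (hulip v w) (hevA v hv) (hev0 v).le (by positivity)
      have h3 : |u w| * |ev v - ev w| ≤ A * (|v - w| / L) := by
        by_cases hw : u w = 0
        · rw [hw, abs_zero, zero_mul]
          positivity
        · have h4 : |ev v - ev w| ≤ A * |(1 - s.re) * v - (1 - s.re) * w| :=
            GFun_exp_lip (habs v hv) (habs w hw)
          have h5 : |(1 - s.re) * v - (1 - s.re) * w| ≤ |v - w| / L := by
            rw [← mul_sub, abs_mul]
            have h6 : |1 - s.re| ≤ 1 / L := by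
              rw [abs_sub_comm]
              exact hs.trans (div_le_div_of_nonneg_right hc1 hL.le)
            calc |1 - s.re| * |v - w| ≤ 1 / L * |v - w| :=
                  mul_le_mul_of_nonneg_right h6 (abs_nonneg _)
              _ = |v - w| / L := by ring
          calc |u w| * |ev v - ev w| ≤ 1 * (A * |(1 - s.re) * v - (1 - s.re) * w|) := by
                refine mul_le_mul ?_ h4 (abs_nonneg _) zero_le_one
                rw [abs_of_nonneg (hu0 w)]
                exact hu1 w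
            _ ≤ A * (|v - w| / L) := by
                rw [one_mul]
                exact mul_le_mul_of_nonneg_left h5 hA0.le
      linarith
    intro v w
    by_cases hv : u v = 0
    · by_cases hw : u w = 0
      · rw [hv, hw, zero_mul, zero_mul, sub_zero, abs_zero]
        positivity
      · have h1 := key w v hw
        rw [abs_sub_comm, abs_sub_comm v w]
        exact h1
    · exact key v w hv
  have hlip : ∀ v w, |h v - h w| ≤ |v - w| / L := by
    intro v w
    have h1 : h v - h w = (u v * ev v - u w * ev w) * (2 * A)⁻¹ := by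
      rw [hh]
      ring
    rw [h1, abs_mul, abs_of_pos (by positivity : 0 < (2 * A)⁻¹), ← div_eq_mul_inv,
      div_le_iff₀ (by positivity)]
    have := hprod v w
    linarith
  have hlo : ∀ v, v ≤ (j - 1) * L → h v = 0 := by
    intro v hv
    have h1 : u v = 0 := by
      by_contra h1
      have := (hsupp v h1).1
      linarith
    show u v * ev v * (2 * A)⁻¹ = 0
    rw [h1, zero_mul, zero_mul]
  have hhi : ∀ v, (j + 1) * L ≤ v → h v = 0 := by
    intro v hv
    have h1 : u v = 0 := by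
      by_contra h1
      have := (hsupp v h1).2
      linarith
    show u v * ev v * (2 * A)⁻¹ = 0
    rw [h1, zero_mul, zero_mul]
  have hmain := H j N s.im h ht hj hb1 hlip hlo hhi hN
  have hAc : (A : ℂ) ≠ 0 := Complex.ofReal_ne_zero.2 hA0.ne'
  have hs' : s = (s.re : ℂ) + s.im * Complex.I := (Complex.re_add_im s).symm
  have e1 : (2 * A : ℂ) * DP N (fun n => rh z n * h (Real.log n)) ψ s.im = GFun_B z L ψ j s := by
    rw [GFun_B_eq z hL ψ j s hN]
    unfold DP
    rw [mul_sum]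
    refine sum_congr rfl fun n hn => ?_
    have hn0 : n ≠ 0 := by
      rw [mem_Icc] at hn
      omega
    have hnc : (n : ℂ) ≠ 0 := Nat.cast_ne_zero.2 hn0
    have hnr : (0 : ℝ) < n := by exact_mod_cast Nat.pos_of_ne_zero hn0
    rw [LSeries.term_of_ne_zero hn0]
    unfold nit fz
    have f1 : (n : ℂ) ^ s = (n : ℂ) ^ (s.re : ℂ) * (n : ℂ) ^ ((s.im : ℂ) * Complex.I) := by
      rw [← Complex.cpow_add _ _ hnc, ← hs']
    have f2 : (n : ℂ) ^ (-((s.im : ℂ) * Complex.I)) = ((n : ℂ) ^ ((s.im : ℂ) * Complex.I))⁻¹ :=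
      Complex.cpow_neg _ _
    have f3 : ((n : ℂ) ^ ((s.im : ℂ) * Complex.I)) ≠ 0 := by
      rw [Complex.cpow_def_of_ne_zero hnc]
      exact Complex.exp_ne_zero _
    have f4 : (n : ℂ) ^ (s.re : ℂ) = (((n : ℝ) ^ s.re : ℝ) : ℂ) := by
      rw [Complex.ofReal_cpow hnr.le, Complex.ofReal_natCast]
    have f5 : ev (Real.log n) = n / (n : ℝ) ^ s.re := by
      rw [hev]
      show Real.exp ((1 - s.re) * Real.log n) = _
      rw [Real.rpow_def_of_pos hnr, sub_mul, one_mul, Real.exp_sub, Real.exp_log hnr]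
      congr 2
      ring
    have f6 : ((n : ℝ) ^ s.re : ℝ) ≠ 0 := (Real.rpow_pos_of_pos hnr _).ne'
    have f7 : (((n : ℝ) ^ s.re : ℝ) : ℂ) ≠ 0 := Complex.ofReal_ne_zero.2 f6
    have f8 : h (Real.log n) = tent (Real.log n / L - j) * (n / (n : ℝ) ^ s.re) * (2 * A)⁻¹ := by
      rw [← f5]
    have f9 : (((rh z n * h (Real.log n)) / n : ℝ) : ℂ) =
        rh z n * tent (Real.log n / L - j) * ((((n : ℝ) ^ s.re : ℝ) : ℂ))⁻¹ * (2 * A : ℂ)⁻¹ := by
      rw [f8]
      push_cast
      field_simp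
    rw [f9, f2, f1, f4]
    field_simp
  have e2 : (2 * A : ℂ) * osc h s.im = GFun_M L j s := by
    rw [← GFun_M_int hL j s]
    unfold osc
    rw [← integral_const_mul]
    refine integral_congr_ae (Filter.Eventually.of_forall fun v => ?_)
    show (2 * A : ℂ) * ((h v : ℂ) * Complex.exp (-((s.im * v : ℝ) : ℂ) * Complex.I)) =
      (tent (v / L - j) : ℂ) * Complex.exp ((1 - s) * v)
    have g1 : Complex.exp ((1 - s) * v) = ((ev v : ℝ) : ℂ) *
        Complex.exp (-((s.im * v : ℝ) : ℂ) * Complex.I) := by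
      rw [hev]
      show _ = ((Real.exp ((1 - s.re) * v) : ℝ) : ℂ) * _
      rw [Complex.ofReal_exp, ← Complex.exp_add]
      congr 1
      conv_lhs => rw [hs']
      push_cast
      ring
    rw [g1]
    have g2 : (h v : ℂ) = (tent (v / L - j) : ℂ) * (ev v : ℂ) * (2 * A : ℂ)⁻¹ := by
      rw [hh]
      show (((tent (v / L - j) * ev v * (2 * A)⁻¹ : ℝ)) : ℂ) = _
      push_cast
      ring
    rw [g2]
    field_simp
  have e3 : GFun_B z L ψ j s - e * ((Vz z : ℂ) * GFun_M L j s) =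
      (2 * A : ℂ) * (DP N (fun n => rh z n * h (Real.log n)) ψ s.im -
        e * ((Vz z : ℂ) * osc h s.im)) := by
    rw [← e1, ← e2]
    ring
  have e4 : ‖(2 * A : ℂ)‖ = 2 * A := by
    rw [show (2 * A : ℂ) = ((2 * A : ℝ) : ℂ) by push_cast; rfl, Complex.norm_real,
      Real.norm_of_nonneg (by positivity)]
  rw [e3, norm_mul, e4]
  calc 2 * A * _ ≤ 2 * A * (C₁ * Real.exp (-(2 * c₀) * j)) :=
        mul_le_mul_of_nonneg_left hmain (by positivity)
    _ = 2 * C₁ * Real.exp c₀ * Real.exp (-c₀ * j) := by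
        have e5 : A * Real.exp (-(2 * c₀) * j) = Real.exp c₀ * Real.exp (-c₀ * j) := by
          rw [hA, ← Real.exp_add, ← Real.exp_add]
          congr 1
          ring
        calc 2 * A * (C₁ * Real.exp (-(2 * c₀) * j)) =
              2 * C₁ * (A * Real.exp (-(2 * c₀) * j)) := by ring
          _ = _ := by rw [e5]; ring

/-- partition of unity for the sieved L-series -/
theorem GFun_tends {z L : ℝ} (hz : 0 < z) (hL : 0 < L) (hlog : Real.log z = L) {q : ℕ}
    (ψ : DirichletCharacter ℂ q) {s : ℂ} (hs : 1 < s.re) :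
    Filter.Tendsto (fun J : ℕ => ∑ j ∈ range J, GFun_B z L ψ (j + 1) s) Filter.atTop
      (nhds (Gz z ψ s - 1)) := by
  have hsum := GFun_summ z ψ hs
  set T : ℕ → ℂ := fun n => LSeries.term (fz z ψ) s n with hT
  have hTs : Summable T := hsum
  have hx : ∀ n : ℕ, 0 ≤ Real.log n / L := fun n =>
    div_nonneg (Real.log_natCast_nonneg n) hL.le
  have hbs : ∀ j : ℕ, Summable (fun n : ℕ => (tent (Real.log n / L - j) : ℂ) * T n) := by
    intro j
    refine Summable.of_norm_bounded hTs.norm fun n => ?_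
    rw [norm_mul, Complex.norm_real, Real.norm_of_nonneg (GFun_tent_nn _)]
    exact mul_le_of_le_one_left (norm_nonneg _) (GFun_tent_le _)
  have hB : ∀ J : ℕ, ∑ j ∈ range J, GFun_B z L ψ (j + 1) s =
      ∑' n : ℕ, ((∑ j ∈ range J, tent (Real.log n / L - (j + 1)) : ℝ) : ℂ) * T n := by
    intro J
    have h1 : ∀ n : ℕ, ((∑ j ∈ range J, tent (Real.log n / L - (j + 1)) : ℝ) : ℂ) * T n =
        ∑ j ∈ range J, (tent (Real.log n / L - ((j + 1 : ℕ) : ℝ)) : ℂ) * T n := by
      intro n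
      rw [Complex.ofReal_sum, sum_mul]
      refine sum_congr rfl fun j _ => ?_
      rw [Nat.cast_add, Nat.cast_one]
    simp only [h1]
    rw [Summable.tsum_finsetSum fun j _ => hbs (j + 1)]
    rfl
  have hlim : Filter.Tendsto (fun J : ℕ =>
      ∑' n : ℕ, ((∑ j ∈ range J, tent (Real.log n / L - (j + 1)) : ℝ) : ℂ) * T n) Filter.atTop
      (nhds (∑' n : ℕ, ((1 - tent (Real.log n / L) : ℝ) : ℂ) * T n)) := by
    refine tendsto_tsum_of_dominated_convergence (bound := fun n => ‖T n‖) hTs.norm ?_ ?_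
    · intro n
      have h1 := (GFun_part' (hx n)).tendsto_sum_nat
      exact ((Complex.continuous_ofReal.tendsto _).comp h1).mul_const _
    · refine Filter.Eventually.of_forall fun J n => ?_
      rw [norm_mul, Complex.norm_real]
      refine mul_le_of_le_one_left (norm_nonneg _) ?_
      rw [Real.norm_of_nonneg (sum_nonneg fun j _ => GFun_tent_nn _)]
      refine (sum_le_hasSum _ (fun j _ => GFun_tent_nn _) (GFun_part' (hx n))).trans ?_
      linarith [GFun_tent_nn (Real.log n / L)]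
  have hval : ∑' n : ℕ, ((1 - tent (Real.log n / L) : ℝ) : ℂ) * T n = Gz z ψ s - 1 := by
    have h1 : ∀ n : ℕ, ((1 - tent (Real.log n / L) : ℝ) : ℂ) * T n =
        T n - (tent (Real.log n / L) : ℂ) * T n := by
      intro n
      push_cast
      ring
    simp only [h1]
    have h2 := hbs 0
    simp only [Nat.cast_zero, sub_zero] at h2
    rw [hTs.tsum_sub h2]
    have h3 : ∑' n : ℕ, (tent (Real.log n / L) : ℂ) * T n = 1 := by
      rw [tsum_eq_single 1]
      · rw [hT]
        show (tent (Real.log (1 : ℕ) / L) : ℂ) * LSeries.term (fz z ψ) s 1 = 1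
        rw [LSeries.term_of_ne_zero one_ne_zero, Nat.cast_one, Real.log_one, zero_div]
        unfold fz tent
        rw [GFun_rh_one, abs_zero, Nat.cast_one, map_one]
        simp
      · intro n hn
        by_cases hr : rh z n = 0
        · have h4 : T n = 0 := by
            rcases Nat.eq_zero_or_pos n with h0 | h0
            · rw [hT]
              show LSeries.term (fz z ψ) s n = 0
              rw [h0, LSeries.term_zero]
            · rw [hT]
              show LSeries.term (fz z ψ) s n = 0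
              rw [LSeries.term_of_ne_zero h0.ne']
              unfold fz
              rw [hr]
              simp
          rw [h4, mul_zero]
        · have h5 := GFun_rh_log hz hr hn
          rw [hlog] at h5
          rw [STe_supp, Complex.ofReal_zero, zero_mul]
          rw [abs_of_nonneg (hx n), le_div_iff₀ hL]
          linarith
    rw [h3]
    rfl
  rw [← hval]
  refine hlim.congr fun J => ?_
  exact (hB J).symm

/-- the sum of the main terms -/
theorem GFun_Msum {L : ℝ} (hL : 0 < L) {s : ℂ} (hs : 1 < s.re) :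
    HasSum (fun j : ℕ => GFun_M L (j + 1) s)
      (L * (1 - Complex.exp (-(L * (s - 1)))) / (L * (s - 1)) ^ 2) := by
  set x : ℂ := (L : ℂ) * (s - 1) with hx
  have hxre : 0 < x.re := by
    rw [hx, Complex.re_ofReal_mul, Complex.sub_re, Complex.one_re]
    exact mul_pos hL (by linarith)
  have hx0 : x ≠ 0 := by
    intro h
    rw [h, Complex.zero_re] at hxre
    exact lt_irrefl _ hxre
  have hr : ‖Complex.exp (-x)‖ < 1 := by
    rw [Complex.norm_exp, Complex.neg_re, Real.exp_lt_one_iff]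
    linarith
  have h1 := (hasSum_geometric_of_norm_lt_one hr).mul_left
    ((L : ℂ) * GFun_S (x / 2) ^ 2 * Complex.exp (-x))
  have h2 : (fun j : ℕ => GFun_M L (j + 1) s) = fun j : ℕ =>
      (L : ℂ) * GFun_S (x / 2) ^ 2 * Complex.exp (-x) * Complex.exp (-x) ^ j := by
    funext j
    unfold GFun_M
    rw [← hx, ← Complex.exp_nat_mul]
    have h3 : Complex.exp (-(((j + 1 : ℕ) : ℂ) * x)) = Complex.exp (-x) * Complex.exp (j * (-x)) := by
      rw [← Complex.exp_add]
      congr 1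
      push_cast
      ring
    rw [h3]
    ring
  rw [h2]
  have hx2 : x / 2 ≠ 0 := div_ne_zero hx0 two_ne_zero
  suffices h20 : (L : ℂ) * (1 - Complex.exp (-x)) / x ^ 2 =
      (L : ℂ) * GFun_S (x / 2) ^ 2 * Complex.exp (-x) * (1 - Complex.exp (-x))⁻¹ by
    rw [h20]
    exact h1
  rw [GFun_S_ne hx2, Complex.sinh, div_pow, div_pow]
  have e5 : Complex.exp (x / 2) * Complex.exp (x / 2) * Complex.exp (-x) = 1 := by
    rw [← Complex.exp_add, ← Complex.exp_add, ← Complex.exp_zero]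
    congr 1
    ring
  have e6 : Complex.exp (-(x / 2)) * Complex.exp (-(x / 2)) = Complex.exp (-x) := by
    rw [← Complex.exp_add]
    congr 1
    ring
  have e7 : Complex.exp (x / 2) * Complex.exp (-(x / 2)) = 1 := by
    rw [← Complex.exp_add, add_neg_cancel, Complex.exp_zero]
  have e8 : (Complex.exp (x / 2) - Complex.exp (-(x / 2))) ^ 2 * Complex.exp (-x) =
      (1 - Complex.exp (-x)) ^ 2 := by
    linear_combination e5 + Complex.exp (-x) * e6 - 2 * Complex.exp (-x) * e7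
  have e9 : 1 - Complex.exp (-x) ≠ 0 := by
    intro h
    have h10 : Complex.exp (-x) = 1 := (sub_eq_zero.1 h).symm
    rw [h10, norm_one] at hr
    exact lt_irrefl _ hr
  have e10 : (L : ℂ) * ((Complex.exp (x / 2) - Complex.exp (-(x / 2))) ^ 2 / 2 ^ 2 /
      (x / 2) ^ 2) * Complex.exp (-x) * (1 - Complex.exp (-x))⁻¹ =
      (L : ℂ) * ((Complex.exp (x / 2) - Complex.exp (-(x / 2))) ^ 2 * Complex.exp (-x)) / x ^ 2 *
        (1 - Complex.exp (-x))⁻¹ := by
    field_simp
  rw [e10, e8]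
  field_simp

/-- the bound in the strip -/
def GFun_K (C₁ c₀ : ℝ) : ℝ := 1 + ∑' j : ℕ, 2 * C₁ * Real.exp c₀ * Real.exp (-c₀ * ((j + 1 : ℕ) : ℝ))

theorem GFun_K_summ {C₁ c₀ : ℝ} (hc0 : 0 < c₀) :
    Summable fun j : ℕ => 2 * C₁ * Real.exp c₀ * Real.exp (-c₀ * ((j + 1 : ℕ) : ℝ)) := by
  have h1 : Summable fun j : ℕ => Real.exp (-c₀) ^ j :=
    summable_geometric_of_lt_one (Real.exp_pos _).le (Real.exp_lt_one_iff.2 (by linarith))
  have h2 : (fun j : ℕ => 2 * C₁ * Real.exp c₀ * Real.exp (-c₀ * ((j + 1 : ℕ) : ℝ))) =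
      fun j : ℕ => 2 * C₁ * Real.exp c₀ * Real.exp (-c₀) * Real.exp (-c₀) ^ j := by
    funext j
    rw [← Real.exp_nat_mul]
    have h3 : Real.exp (-c₀ * ((j + 1 : ℕ) : ℝ)) = Real.exp (-c₀) * Real.exp (j * -c₀) := by
      rw [← Real.exp_add]
      congr 1
      push_cast
      ring
    rw [h3]
    ring
  rw [h2]
  exact h1.mul_left _

theorem GFun_main {C₁ c₀ z L T : ℝ} (hz : 0 < z) (hL : 0 < L) (hlog : Real.log z = L)
    (hC : 0 < C₁) (hc0 : 0 < c₀) (hc1 : c₀ ≤ 1) {q : ℕ} (ψ : DirichletCharacter ℂ q) (e : ℂ)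
    (H : GFun_H C₁ c₀ z L T ψ e) :
    ∃ F : ℂ → ℂ, DifferentiableOn ℂ F {s | |s.re - 1| < c₀ / L ∧ |s.im| < T} ∧
      (∀ s : ℂ, |s.re - 1| < c₀ / L → |s.im| < T → ‖F s‖ ≤ GFun_K C₁ c₀) ∧
      ∀ s : ℂ, |s.re - 1| < c₀ / L → |s.im| < T → 1 < s.re →
        Gz z ψ s = F s + e * ((Vz z : ℂ) *
          (L * (1 - Complex.exp (-(L * (s - 1)))) / (L * (s - 1)) ^ 2)) := by
  set D : ℕ → ℂ → ℂ := fun j s =>
    GFun_B z L ψ (j + 1) s - e * ((Vz z : ℂ) * GFun_M L (j + 1) s) with hD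
  set u : ℕ → ℝ := fun j => 2 * C₁ * Real.exp c₀ * Real.exp (-c₀ * ((j + 1 : ℕ) : ℝ)) with hu
  have hus : Summable u := GFun_K_summ hc0
  set U : Set ℂ := {s | |s.re - 1| < c₀ / L ∧ |s.im| < T} with hU
  have hUo : IsOpen U := by
    refine IsOpen.inter ?_ ?_
    · exact isOpen_lt ((Complex.continuous_re.sub continuous_const).abs) continuous_const
    · exact isOpen_lt (Complex.continuous_im.abs) continuous_const
  have hle : ∀ j s, s ∈ U → ‖D j s‖ ≤ u j := by
    intro j s hs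
    exact GFun_block hL hc0 hc1 ψ e H (by omega) hs.1.le hs.2.le
  have hDd : ∀ j, DifferentiableOn ℂ (D j) U := by
    intro j
    exact ((GFun_B_diff z hL ψ (j + 1)).sub
      (((GFun_M_diff L (j + 1)).const_mul _).const_mul _)).differentiableOn
  have hDs : ∀ s ∈ U, Summable fun j => D j s := fun s hs =>
    Summable.of_norm_bounded hus fun j => hle j s hs
  refine ⟨fun s => 1 + ∑' j, D j s, ?_, ?_, ?_⟩
  · exact (differentiableOn_tsum_of_summable_norm hus hDd hUo hle).const_add 1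
  · intro s h1 h2
    have hs : s ∈ U := ⟨h1, h2⟩
    refine (norm_add_le _ _).trans ?_
    rw [norm_one]
    have h3 : ‖∑' j, D j s‖ ≤ ∑' j, u j := tsum_of_norm_bounded hus.hasSum fun j => hle j s hs
    unfold GFun_K
    linarith
  · intro s h1 h2 hs1
    have hs : s ∈ U := ⟨h1, h2⟩
    have t1 := (hDs s hs).hasSum.tendsto_sum_nat
    have t2 := GFun_tends hz hL hlog ψ hs1
    have t3 := ((GFun_Msum hL hs1).tendsto_sum_nat.const_mul (Vz z : ℂ)).const_mul e
    have t4 := t2.sub t3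
    have t5 : (fun J : ℕ => ∑ j ∈ range J, D j s) = fun J : ℕ =>
        (∑ j ∈ range J, GFun_B z L ψ (j + 1) s) -
          e * ((Vz z : ℂ) * ∑ j ∈ range J, GFun_M L (j + 1) s) := by
      funext J
      rw [hD, sum_sub_distrib, mul_sum, mul_sum]
    rw [t5] at t1
    have t6 := tendsto_nhds_unique t1 t4
    show Gz z ψ s = (1 + ∑' j, D j s) + _
    rw [t6]
    ring

/-- glueing -/
theorem GFun_glue {κ T : ℝ} (hκ : 0 < κ) (A B : ℂ → ℂ)
    (hA : DifferentiableOn ℂ A {s | |s.re - 1| < κ ∧ |s.im| < T})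
    (hB : ∀ s : ℂ, 1 < s.re → DifferentiableAt ℂ B s)
    (hAB : ∀ s : ℂ, |s.re - 1| < κ → |s.im| < T → 1 < s.re → A s = B s) :
    ∃ g : ℂ → ℂ, DifferentiableOn ℂ g {s | 1 - κ < s.re ∧ |s.im| < T} ∧
      (∀ s : ℂ, |s.re - 1| < κ → |s.im| < T → g s = A s) ∧ ∀ s : ℂ, 1 < s.re → g s = B s := by
  classical
  set g : ℂ → ℂ := fun s => if s.re ≤ 1 then A s else B s with hg
  have hUo : IsOpen {s : ℂ | |s.re - 1| < κ ∧ |s.im| < T} := by
    refine IsOpen.inter ?_ ?_
    · exact isOpen_lt ((Complex.continuous_re.sub continuous_const).abs) continuous_const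
    · exact isOpen_lt (Complex.continuous_im.abs) continuous_const
  have hVo : IsOpen {s : ℂ | 1 < s.re} := isOpen_lt continuous_const Complex.continuous_re
  have h1 : ∀ s : ℂ, |s.re - 1| < κ → |s.im| < T → g s = A s := by
    intro s ha hb
    by_cases h : s.re ≤ 1
    · rw [hg]
      simp only [if_pos h]
    · rw [hg]
      simp only [if_neg h]
      exact (hAB s ha hb (not_le.1 h)).symm
  have h2 : ∀ s : ℂ, 1 < s.re → g s = B s := by
    intro s hs
    rw [hg]
    simp only [if_neg (not_le.2 hs)]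
  refine ⟨g, ?_, h1, h2⟩
  rintro s ⟨hs1, hs2⟩
  apply DifferentiableAt.differentiableWithinAt
  by_cases h : s.re ≤ 1
  · have hsU : s ∈ {s : ℂ | |s.re - 1| < κ ∧ |s.im| < T} := by
      refine ⟨?_, hs2⟩
      rw [abs_of_nonpos (by linarith)]
      linarith
    have h3 : DifferentiableAt ℂ A s := (hA s hsU).differentiableAt (hUo.mem_nhds hsU)
    refine h3.congr_of_eventuallyEq ?_
    filter_upwards [hUo.mem_nhds hsU] with w hw
    exact h1 w hw.1 hw.2
  · have hs' : 1 < s.re := not_le.1 h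
    refine (hB s hs').congr_of_eventuallyEq ?_
    filter_upwards [hVo.mem_nhds hs'] with w hw
    exact h2 w hw

/-- the trivial bound to the right -/
theorem GFun_right {z σ : ℝ} (hσ : 1 < σ) {q : ℕ} (ψ : DirichletCharacter ℂ q) {s : ℂ}
    (hs : σ ≤ s.re) : ‖Gz z ψ s‖ ≤ ‖Gz z (1 : DirichletCharacter ℂ 1) σ‖ := by
  have hsum := GFun_summ z ψ (lt_of_lt_of_le hσ hs)
  have hσ' : 1 < ((σ : ℂ)).re := by rwa [Complex.ofReal_re]
  have hsum1 := GFun_summ z (1 : DirichletCharacter ℂ 1) hσ'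
  have hterm : ∀ n : ℕ, LSeries.term (fz z (1 : DirichletCharacter ℂ 1)) σ n =
      ((rh z n / (n : ℝ) ^ σ : ℝ) : ℂ) := by
    intro n
    rcases Nat.eq_zero_or_pos n with h0 | h0
    · rw [h0, LSeries.term_zero, GFun_rh_zero, zero_div, Complex.ofReal_zero]
    · rw [LSeries.term_of_ne_zero h0.ne']
      unfold fz
      have h1 : (1 : DirichletCharacter ℂ 1) ((n : ZMod 1)) = 1 :=
        MulChar.one_apply (isUnit_of_subsingleton _)
      rw [h1, mul_one]
      push_cast
      rw [Complex.ofReal_cpow (Nat.cast_nonneg n), Complex.ofReal_natCast]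
  have hreal : Gz z (1 : DirichletCharacter ℂ 1) σ = ((∑' n : ℕ, rh z n / (n : ℝ) ^ σ : ℝ) : ℂ) := by
    unfold Gz LSeries
    rw [Complex.ofReal_tsum]
    exact tsum_congr hterm
  have hs1 : Summable fun n : ℕ => rh z n / (n : ℝ) ^ σ := by
    have h1 : Summable fun n : ℕ => ‖LSeries.term (fz z (1 : DirichletCharacter ℂ 1)) σ n‖ :=
      hsum1.norm
    refine h1.congr fun n => ?_
    rw [hterm, Complex.norm_real, Real.norm_of_nonneg]
    exact div_nonneg (GFun_rh_le z n).1 (Real.rpow_nonneg (Nat.cast_nonneg n) _)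
  have hnn : ∀ n : ℕ, 0 ≤ rh z n / (n : ℝ) ^ σ := fun n =>
    div_nonneg (GFun_rh_le z n).1 (Real.rpow_nonneg (Nat.cast_nonneg n) _)
  rw [hreal, Complex.norm_real, Real.norm_of_nonneg (tsum_nonneg hnn)]
  unfold Gz LSeries
  refine tsum_of_norm_bounded hs1.hasSum fun n => ?_
  rw [LSeries.norm_term_eq]
  split_ifs with h0
  · rw [h0, GFun_rh_zero, zero_div]
  · have hn1 : (1 : ℝ) ≤ n := by exact_mod_cast Nat.pos_of_ne_zero h0
    refine div_le_div₀ (GFun_rh_le z n).1 (GFun_fz_le z ψ n) (Real.rpow_pos_of_pos (by linarith) _) ?_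
    exact Real.rpow_le_rpow_of_exponent_le hn1 hs

/-- **Continuation of the sieved L-functions to the left of the line `re s = 1`.**

Proof. Let `L = d log Y`, `z = Y ^ d`, `t_j (v) = tent (v / L - j)`, `∑_{j ≥ 0} t_j = 1` on `[0, ∞)`. For `re s > 1`:
`Gz z ψ s = 1 + ∑_{j ≥ 1} B_j (s)`, `B_j (s) = ∑_n rh z n t_j (log n) ψ (n) n ^ (- s)` (a finite sum; for `j = 0` only `n = 1`
since `rh z n = 0` for `1 < n < z`). For `|re s - 1| ≤ c₀ / L` apply `rough_block` with
`h (v) = t_j (v) exp ((1 - re s) v) / (2 exp (c₀ (j + 1)))`: `|B_j (s) - [ψ = 1] Vz ∫ t_j (v) exp ((1 - s) v) dv| ≤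
2 C₁ exp (- c₁ j + c₀ (j + 1))`; with `c₀ = c₁ / 2` the series of the differences converges locally uniformly to an
analytic function bounded by a constant. The sum of the main terms for `re s > 1` is
`Vz ∫_0^∞ min (1, v / L) exp ((1 - s) v) dv = Vz (1 - exp (- L (s - 1))) / (L (s - 1) ^ 2)`, and `L (s - 1)` times it is
`Vz L E (L (s - 1))` with the entire function `E (x) = (1 - exp (- x)) / x`, bounded by a constant for `re x ≥ - c₀`; `Vz L ≤ C`
(`VP_inv`). For `re s ≥ 1 + c₀ / L` the series `∑ rh n ^ (- re s)` is bounded by a constant (the same computation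
with `q = 1`, `im s = 0`). -/
theorem G_ext : ∃ c₀ C₀ : ℝ, 0 < c₀ ∧ c₀ ≤ 1 ∧ 1 ≤ C₀ ∧ ∀ d : ℝ, 0 < d → d ≤ 1 → ∃ δ Y₀ : ℝ, 0 < δ ∧ δ < d ∧
    3 ≤ Y₀ ∧ ∀ (Y : ℝ) (q : ℕ) (ψ : DirichletCharacter ℂ q), Y₀ ≤ Y → 1 ≤ q → (q : ℝ) ≤ Y ^ δ →
      ∃ g : ℂ → ℂ, Ext c₀ C₀ Y d ψ g := by
  obtain ⟨c₁, C₁, hc1, hc11, hC1, HR⟩ := rough_block
  obtain ⟨cv, Cv, hcv, hCv, HV⟩ := VP_inv
  set c₀ : ℝ := c₁ / 2 with hc0
  have hc0p : 0 < c₀ := by rw [hc0]; linarith
  have hc0l : c₀ ≤ 1 := by rw [hc0]; linarith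
  have h2c : 2 * c₀ = c₁ := by rw [hc0]; ring
  set K : ℝ := GFun_K C₁ c₀ with hK
  have hKn : 0 ≤ K := by
    rw [hK]
    unfold GFun_K
    have : 0 ≤ ∑' j : ℕ, 2 * C₁ * Real.exp c₀ * Real.exp (-c₀ * ((j + 1 : ℕ) : ℝ)) :=
      tsum_nonneg fun j => by positivity
    linarith
  set K2 : ℝ := K + Cv * (4 / c₀ ^ 2) with hK2
  have hK2n : 0 ≤ K2 := by rw [hK2]; positivity
  set C₀ : ℝ := 1 + K + Cv * Real.exp 1 + K2 + 1 / cv with hC0
  have hCe : 0 ≤ Cv * Real.exp 1 := by positivity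
  have hcvi : 0 < 1 / cv := by positivity
  have hC0p : 1 ≤ C₀ := by rw [hC0]; linarith
  refine ⟨c₀, C₀, hc0p, hc0l, hC0p, fun d hd hd1 => ?_⟩
  obtain ⟨δ, Y₀, hδ, hδd, hY0, HR⟩ := HR d hd hd1
  refine ⟨δ, max Y₀ ((2 : ℝ) ^ (1 / d)), hδ, hδd, hY0.trans (le_max_left _ _), ?_⟩
  intro Y q ψ hY hq hqY
  have hY1 : Y₀ ≤ Y := (le_max_left _ _).trans hY
  have hY3 : 3 ≤ Y := hY0.trans hY1
  have hYp : 0 < Y := by linarith
  have hz2 : 2 ≤ Y ^ d := by
    have h1 : (2 : ℝ) ^ (1 / d) ≤ Y := (le_max_right _ _).trans hY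
    have h2 := Real.rpow_le_rpow (by positivity) h1 hd.le
    rw [← Real.rpow_mul (by norm_num), one_div, inv_mul_cancel₀ hd.ne', Real.rpow_one] at h2
    exact h2
  set z : ℝ := Y ^ d with hz
  have hzp : 0 < z := by linarith
  set L : ℝ := d * Real.log Y with hLdef
  have hlogY : 0 < Real.log Y := Real.log_pos (by linarith)
  have hL : 0 < L := mul_pos hd hlogY
  have hlog : Real.log z = L := Real.log_rpow hYp d
  set T : ℝ := Y ^ 2 with hT
  have hTp : 0 < T := by rw [hT]; positivity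
  have hκ : 0 < c₀ / L := by positivity
  obtain ⟨hV1, hV2⟩ := HV z hz2
  rw [hlog] at hV1 hV2
  have hV1' : cv ≤ Vz z * L := by
    have h1 : cv / L ≤ Vz z := hV1
    rwa [div_le_iff₀ hL] at h1
  have hV2' : Vz z * L ≤ Cv := by
    have h1 : Vz z ≤ Cv / L := hV2
    rwa [le_div_iff₀ hL] at h1
  have hVn : 0 ≤ Vz z * L := hcv.le.trans hV1'
  have hVnorm : ‖((Vz z : ℂ) * L)‖ ≤ Cv := by
    rw [← Complex.ofReal_mul, Complex.norm_real, Real.norm_of_nonneg hVn]
    exact hV2'
  -- the hypothesis of the blocks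
  have hH1 : ∀ (q : ℕ) (ψ : DirichletCharacter ℂ q), 1 ≤ q → (q : ℝ) ≤ Y ^ δ → ψ = 1 →
      GFun_H C₁ c₀ z L T ψ 1 := by
    intro q ψ hq hqY h1 j N t h ht hj a1 a2 a3 a4 a5
    have h2 := HR Y q j N ψ t h hY1 hq hqY ht hj a1 a2 a3 a4 a5
    rw [if_pos h1] at h2
    rw [h2c, one_mul]
    exact h2
  have hH0 : ∀ (q : ℕ) (ψ : DirichletCharacter ℂ q), 1 ≤ q → (q : ℝ) ≤ Y ^ δ → ψ ≠ 1 →
      GFun_H C₁ c₀ z L T ψ 0 := by
    intro q ψ hq hqY h1 j N t h ht hj a1 a2 a3 a4 a5
    have h2 := HR Y q j N ψ t h hY1 hq hqY ht hj a1 a2 a3 a4 a5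
    rw [if_neg h1] at h2
    rw [h2c, zero_mul]
    exact h2
  -- the bound to the right of the strip
  have hright : ∀ (q : ℕ) (ψ : DirichletCharacter ℂ q) (s : ℂ), 1 + c₀ / L ≤ s.re →
      ‖Gz z ψ s‖ ≤ K2 := by
    intro q ψ s hs
    have hδ1 : ((1 : ℕ) : ℝ) ≤ Y ^ δ := by
      rw [Nat.cast_one]
      exact Real.one_le_rpow (by linarith) hδ.le
    obtain ⟨F, _, hF2, hF3⟩ := GFun_main hzp hL hlog hC1 hc0p hc0l (1 : DirichletCharacter ℂ 1) 1
      (hH1 1 1 le_rfl hδ1 rfl)
    set σ : ℝ := 1 + c₀ / L / 2 with hσ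
    have hσ1 : 1 < σ := by rw [hσ]; linarith
    have h1 := GFun_right (z := z) hσ1 ψ (s := s) (by rw [hσ]; linarith)
    refine h1.trans ?_
    have h2 : |((σ : ℂ)).re - 1| < c₀ / L := by
      rw [Complex.ofReal_re, abs_of_pos (by linarith), hσ]
      linarith
    have h3 : |((σ : ℂ)).im| < T := by
      rw [Complex.ofReal_im, abs_zero]
      exact hTp
    rw [hF3 σ h2 h3 (by rw [Complex.ofReal_re]; exact hσ1), one_mul]
    refine (norm_add_le _ _).trans ?_
    rw [hK2]
    refine add_le_add (hF2 σ h2 h3) ?_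
    have hx : (L : ℂ) * ((σ : ℂ) - 1) = ((c₀ / 2 : ℝ) : ℂ) := by
      have h4 : L * (σ - 1) = c₀ / 2 := by
        rw [hσ]
        field_simp
        ring
      rw [← h4]
      push_cast
      ring
    rw [hx]
    have h5 : (Vz z : ℂ) * ((L : ℂ) * (1 - Complex.exp (-((c₀ / 2 : ℝ) : ℂ))) /
        ((c₀ / 2 : ℝ) : ℂ) ^ 2) = ((Vz z * L * ((1 - Real.exp (-(c₀ / 2))) / (c₀ / 2) ^ 2) : ℝ) : ℂ) := by
      push_cast
      ring
    rw [h5, Complex.norm_real, Real.norm_eq_abs, abs_mul, abs_of_nonneg hVn]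
    refine mul_le_mul hV2' ?_ (abs_nonneg _) hCv.le
    have h6 : Real.exp (-(c₀ / 2)) ≤ 1 := Real.exp_le_one_iff.2 (by linarith)
    have h7 := Real.exp_pos (-(c₀ / 2))
    rw [abs_of_nonneg (div_nonneg (by linarith) (by positivity))]
    have h8 : 4 / c₀ ^ 2 = 1 / (c₀ / 2) ^ 2 := by
      field_simp
      ring
    rw [h8]
    exact div_le_div_of_nonneg_right (by linarith) (by positivity)
  by_cases hψ : ψ = 1
  · -- the principal character
    obtain ⟨F, hF1, hF2, hF3⟩ := GFun_main hzp hL hlog hC1 hc0p hc0l ψ 1 (hH1 q ψ hq hqY hψ)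
    set A : ℂ → ℂ := fun s => (L : ℂ) * (s - 1) * F s + (Vz z : ℂ) * L * GFun_E (L * (s - 1)) with hA
    set B : ℂ → ℂ := fun s => (L : ℂ) * (s - 1) * Gz z ψ s with hB
    have hlin : Differentiable ℂ fun s : ℂ => (L : ℂ) * (s - 1) := by fun_prop
    have hAd : DifferentiableOn ℂ A {s | |s.re - 1| < c₀ / L ∧ |s.im| < T} :=
      (hlin.differentiableOn.mul hF1).add
        ((GFun_E_diff.comp hlin).differentiableOn.const_mul _)
    have hBd : ∀ s : ℂ, 1 < s.re → DifferentiableAt ℂ B s := fun s hs =>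
      (hlin s).mul (GFun_Gz_diff z ψ hs)
    have hAB : ∀ s : ℂ, |s.re - 1| < c₀ / L → |s.im| < T → 1 < s.re → A s = B s := by
      intro s h1 h2 h3
      have hx0 : (L : ℂ) * (s - 1) ≠ 0 := by
        refine mul_ne_zero (Complex.ofReal_ne_zero.2 hL.ne') (sub_ne_zero.2 fun h => ?_)
        rw [h, Complex.one_re] at h3
        exact lt_irrefl _ h3
      rw [hA, hB]
      simp only []
      rw [hF3 s h1 h2 h3, GFun_E_ne hx0]
      generalize (L : ℂ) * (s - 1) = x at hx0 ⊢
      field_simp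
    obtain ⟨g, hg1, hg2, hg3⟩ := GFun_glue hκ A B hAd hBd hAB
    have hxn : ∀ s : ℂ, ‖(L : ℂ) * (s - 1)‖ = L * ‖s - 1‖ := by
      intro s
      rw [norm_mul, Complex.norm_real, Real.norm_of_nonneg hL.le]
    refine ⟨g, hg1, fun h => absurd hψ h, fun _ s hs1 hs2 => ⟨?_, ?_⟩, fun _ => ?_⟩
    · have hn0 : 0 ≤ L * ‖s - 1‖ := by positivity
      have hC0x : ∀ a b : ℝ, a ≤ C₀ → b ≤ C₀ → a + b * (L * ‖s - 1‖) ≤ C₀ * (1 + L * ‖s - 1‖) := by
        intro a b ha hb
        have := mul_le_mul_of_nonneg_right hb hn0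
        nlinarith
      by_cases h : s.re < 1 + c₀ / L
      · have h1 : |s.re - 1| < c₀ / L := by
          rw [abs_lt]
          constructor <;> linarith
        rw [hg2 s h1 hs2, hA]
        refine (norm_add_le _ _).trans ?_
        rw [norm_mul, hxn, norm_mul]
        have h2 : ‖GFun_E ((L : ℂ) * (s - 1))‖ ≤ Real.exp 1 := by
          apply GFun_E_le
          rw [Complex.re_ofReal_mul, Complex.sub_re, Complex.one_re]
          have h3 : -(c₀ / L) ≤ s.re - 1 := by linarith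
          have h4 := mul_le_mul_of_nonneg_left h3 hL.le
          have h5 : L * -(c₀ / L) = -c₀ := by field_simp
          rw [h5] at h4
          linarith
        have h6 := hF2 s h1 hs2
        have h7 : ‖(Vz z : ℂ) * L‖ * ‖GFun_E ((L : ℂ) * (s - 1))‖ ≤ Cv * Real.exp 1 :=
          mul_le_mul hVnorm h2 (norm_nonneg _) hCv.le
        have h8 : L * ‖s - 1‖ * ‖F s‖ ≤ K * (L * ‖s - 1‖) := by
          rw [mul_comm]
          exact mul_le_mul_of_nonneg_right h6 hn0
        have h9 := hC0x (Cv * Real.exp 1) K (by rw [hC0]; linarith) (by rw [hC0]; linarith)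
        linarith
      · have h1 : 1 + c₀ / L ≤ s.re := not_lt.1 h
        rw [hg3 s (by linarith), hB]
        simp only []
        rw [norm_mul, hxn]
        have h6 := hright q ψ s h1
        have h8 : L * ‖s - 1‖ * ‖Gz z ψ s‖ ≤ K2 * (L * ‖s - 1‖) := by
          rw [mul_comm]
          exact mul_le_mul_of_nonneg_right h6 hn0
        have h9 := hC0x 0 K2 (by linarith) (by rw [hC0]; linarith)
        linarith
    · intro hs
      rw [hg3 s hs]
    · have h1 : |((1 : ℂ)).re - 1| < c₀ / L := by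
        rw [Complex.one_re, sub_self, abs_zero]
        exact hκ
      have h2 : |((1 : ℂ)).im| < T := by
        rw [Complex.one_im, abs_zero]
        exact hTp
      rw [hg2 1 h1 h2, hA]
      simp only [sub_self, mul_zero, zero_mul, zero_add]
      rw [GFun_E_zero, mul_one, ← Complex.ofReal_mul, Complex.norm_real, Real.norm_of_nonneg hVn]
      refine le_trans ?_ hV1'
      have h3 : 1 / cv ≤ C₀ := by rw [hC0]; linarith
      rw [div_le_iff₀ (by linarith)]
      rw [div_le_iff₀ hcv] at h3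
      linarith
  · -- the other characters
    obtain ⟨F, hF1, hF2, hF3⟩ := GFun_main hzp hL hlog hC1 hc0p hc0l ψ 0 (hH0 q ψ hq hqY hψ)
    have hAB : ∀ s : ℂ, |s.re - 1| < c₀ / L → |s.im| < T → 1 < s.re → F s = Gz z ψ s := by
      intro s h1 h2 h3
      rw [hF3 s h1 h2 h3]
      ring
    obtain ⟨g, hg1, hg2, hg3⟩ := GFun_glue hκ F (Gz z ψ) hF1 (fun s hs => GFun_Gz_diff z ψ hs) hAB
    refine ⟨g, hg1, fun _ s hs1 hs2 => ⟨?_, ?_⟩, fun h => absurd h hψ, fun h => absurd h hψ⟩
    · by_cases h : s.re < 1 + c₀ / L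
      · have h1 : |s.re - 1| < c₀ / L := by
          rw [abs_lt]
          constructor <;> linarith
        rw [hg2 s h1 hs2]
        refine (hF2 s h1 hs2).trans ?_
        rw [hC0]
        linarith
      · have h1 : 1 + c₀ / L ≤ s.re := not_lt.1 h
        rw [hg3 s (by linarith)]
        refine (hright q ψ s h1).trans ?_
        rw [hC0]
        linarith
    · intro hs
      exact hg3 s hs

end Pool.Agent.M58
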