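import Pool.Agent.W_b58c63_m1.GZd
import Pool.Agent.W_b58c63_m1.STe

/-!
# Laplace transforms of tents (helper68)
-/

set_option autoImplicit false

noncomputable section

open Finset MeasureTheory Complex

namespace Pool.Agent.M58

/-- The Laplace transform of the tent. -/
def LT (w c : ℝ) (s : ℂ) : ℂ := ∫ v : ℝ, (tent ((v - c) / w) : ℂ) * Complex.exp (s * v)

/-- `∫ tent (x) exp (b x) dx`. -/
def GPa_T (b : ℂ) : ℂ := ∫ x : ℝ, (tent x : ℂ) * Complex.exp (b * x)

theorem GPa_split (b : ℂ) : GPa_T b = (∫ x in (-1 : ℝ)..0, (1 + x : ℂ) * Complex.exp (b * x)) +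
    ∫ x in (0 : ℝ)..1, (1 - x : ℂ) * Complex.exp (b * x) := by
  have hcont : Continuous (fun x : ℝ => (tent x : ℂ) * Complex.exp (b * x)) := by
    have := STe_cont
    fun_prop
  have hsupp : Function.support (fun x : ℝ => (tent x : ℂ) *
      Complex.exp (b * x)) ⊆ Set.Ioc (-1) 1 := by
    intro x hx
    by_contra h
    apply hx
    have h1 : 1 ≤ |x| := by
      rw [Set.mem_Ioc, not_and_or, not_lt, not_le] at h
      rcases h with h | h
      · rw [le_abs]
        right
        linarith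
      · rw [le_abs]
        left
        linarith
    show (tent x : ℂ) * Complex.exp (b * x) = 0
    rw [STe_supp x h1, Complex.ofReal_zero, zero_mul]
  unfold GPa_T
  rw [← intervalIntegral.integral_eq_integral_of_support_subset hsupp,
    ← intervalIntegral.integral_add_adjacent_intervals (b := 0) (hcont.intervalIntegrable _ _)
      (hcont.intervalIntegrable _ _)]
  congr 1
  · refine intervalIntegral.integral_congr fun x hx => ?_
    rw [Set.uIcc_of_le (by norm_num)] at hx
    have : tent x = 1 + x := by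
      unfold tent
      rw [abs_of_nonpos hx.2, max_eq_right (by linarith [hx.1])]
      ring
    show (tent x : ℂ) * _ = _
    rw [this]
    push_cast
    rfl
  · refine intervalIntegral.integral_congr fun x hx => ?_
    rw [Set.uIcc_of_le (by norm_num)] at hx
    have : tent x = 1 - x := by
      unfold tent
      rw [abs_of_nonneg hx.1, max_eq_right (by linarith [hx.2])]
    show (tent x : ℂ) * _ = _
    rw [this]
    push_cast
    rfl

theorem GPa_T_zero : GPa_T 0 = 1 := by
  rw [GPa_split]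
  have e3 : ∀ x : ℝ, Complex.exp (0 * x) = 1 := by
    intro x
    simp
  simp only [e3, mul_one]
  have d1 : ∀ x : ℝ, HasDerivAt (fun x : ℝ => (x : ℂ) + (x : ℂ) ^ 2 / 2) (1 + x : ℂ) x := by
    intro x
    have h1 : HasDerivAt (fun x : ℝ => (x : ℂ)) 1 x := Complex.ofRealCLM.hasDerivAt
    have h2 := h1.add ((h1.pow 2).div_const 2)
    refine h2.congr_deriv ?_
    push_cast
    ring
  have d2 : ∀ x : ℝ, HasDerivAt (fun x : ℝ => (x : ℂ) - (x : ℂ) ^ 2 / 2) (1 - x : ℂ) x := by
    intro x
    have h1 : HasDerivAt (fun x : ℝ => (x : ℂ)) 1 x := Complex.ofRealCLM.hasDerivAt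
    have h2 := h1.sub ((h1.pow 2).div_const 2)
    refine h2.congr_deriv ?_
    push_cast
    ring
  rw [intervalIntegral.integral_eq_sub_of_hasDerivAt (fun x _ => d1 x)
    ((by fun_prop : Continuous (fun x : ℝ => (1 + x : ℂ))).intervalIntegrable _ _),
    intervalIntegral.integral_eq_sub_of_hasDerivAt (fun x _ => d2 x)
    ((by fun_prop : Continuous (fun x : ℝ => (1 - x : ℂ))).intervalIntegrable _ _)]
  push_cast
  norm_num

theorem GPa_T_ne (b : ℂ) (hb0 : b ≠ 0) :
    GPa_T b = (Complex.exp b + Complex.exp (-b) - 2) / b ^ 2 := by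
  rw [GPa_split]
  have d0 : ∀ x : ℝ, HasDerivAt (fun x : ℝ => Complex.exp (b * x)) (Complex.exp (b * x) * b) x := by
    intro x
    have h1 : HasDerivAt (fun x : ℝ => (x : ℂ)) 1 x := Complex.ofRealCLM.hasDerivAt
    have h2 : HasDerivAt (fun x : ℝ => b * (x : ℂ)) b x := by
      simpa using h1.const_mul b
    exact h2.cexp
  have d1 : ∀ x : ℝ, HasDerivAt (fun x : ℝ => (1 + (x : ℂ)) * Complex.exp (b * x) / b -
      Complex.exp (b * x) / b ^ 2) ((1 + x : ℂ) * Complex.exp (b * x)) x := by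
    intro x
    have h1 : HasDerivAt (fun x : ℝ => (1 + (x : ℂ))) 1 x :=
      Complex.ofRealCLM.hasDerivAt.const_add 1
    have h2 := ((h1.mul (d0 x)).div_const b).sub ((d0 x).div_const (b ^ 2))
    refine h2.congr_deriv ?_
    field_simp
    ring
  have d2 : ∀ x : ℝ, HasDerivAt (fun x : ℝ => (1 - (x : ℂ)) * Complex.exp (b * x) / b +
      Complex.exp (b * x) / b ^ 2) ((1 - x : ℂ) * Complex.exp (b * x)) x := by
    intro x
    have h1 : HasDerivAt (fun x : ℝ => (1 - (x : ℂ))) (-1) x :=
      Complex.ofRealCLM.hasDerivAt.const_sub 1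
    have h2 := ((h1.mul (d0 x)).div_const b).add ((d0 x).div_const (b ^ 2))
    refine h2.congr_deriv ?_
    field_simp
    ring
  rw [intervalIntegral.integral_eq_sub_of_hasDerivAt (fun x _ => d1 x)
    ((by fun_prop : Continuous (fun x : ℝ => (1 + x : ℂ) * Complex.exp (b * x))).intervalIntegrable
      _ _), intervalIntegral.integral_eq_sub_of_hasDerivAt (fun x _ => d2 x)
    ((by fun_prop : Continuous (fun x : ℝ => (1 - x : ℂ) * Complex.exp (b * x))).intervalIntegrable
      _ _)]
  push_cast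
  rw [mul_zero, Complex.exp_zero, mul_one, mul_neg_one]
  ring

theorem GPa_T_eq (b : ℂ) : GPa_T b = (dslope Complex.sinh 0 (b / 2)) ^ 2 := by
  rcases eq_or_ne b 0 with rfl | hb
  · rw [GPa_T_zero, zero_div, dslope_same, Complex.deriv_sinh, Complex.cosh_zero, one_pow]
  · have hb2 : b / 2 ≠ 0 := div_ne_zero hb two_ne_zero
    rw [GPa_T_ne b hb, dslope_of_ne _ hb2, slope_def_field, Complex.sinh_zero, sub_zero, sub_zero]
    have h1 : Complex.sinh (b / 2) = (Complex.exp (b / 2) - Complex.exp (-(b / 2))) / 2 := by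
      rw [Complex.sinh]
    have h2 : Complex.exp (b / 2) * Complex.exp (b / 2) = Complex.exp b := by
      rw [← Complex.exp_add, add_halves]
    have h3 : Complex.exp (-(b / 2)) * Complex.exp (-(b / 2)) = Complex.exp (-b) := by
      rw [← Complex.exp_add, ← neg_add, add_halves]
    have h4 : Complex.exp (b / 2) * Complex.exp (-(b / 2)) = 1 := by
      rw [← Complex.exp_add, add_neg_cancel, Complex.exp_zero]
    rw [h1, ← h2, ← h3, div_pow, div_pow]
    have h5 : (Complex.exp (b / 2) - Complex.exp (-(b / 2))) ^ 2 =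
        Complex.exp (b / 2) * Complex.exp (b / 2) +
          Complex.exp (-(b / 2)) * Complex.exp (-(b / 2)) - 2 := by
      linear_combination (-2) * h4
    rw [h5]
    field_simp

theorem GPa_T_diff : Differentiable ℂ GPa_T := by
  have h1 : Differentiable ℂ (dslope Complex.sinh 0) := by
    rw [← differentiableOn_univ, Complex.differentiableOn_dslope Filter.univ_mem]
    exact Complex.differentiable_sinh.differentiableOn
  have h2 : GPa_T = fun b => (dslope Complex.sinh 0 (b / 2)) ^ 2 := funext GPa_T_eq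
  rw [h2]
  have h3 : Differentiable ℂ fun b : ℂ => b / 2 := differentiable_id.div_const 2
  exact (h1.comp h3).pow 2

theorem GPa_tent_nonneg (x : ℝ) : 0 ≤ tent x := le_max_left _ _

theorem GPa_tent_int : Integrable (fun x : ℝ => tent x) ∧ ∫ x : ℝ, tent x = 1 := by
  have h1 := (STe_hasInt 1 0 one_pos).2
  simp only [sub_zero, div_one] at h1
  have h2 : Integrable (fun x : ℝ => tent x) := by
    have h3 := h1.re
    exact h3
  refine ⟨h2, ?_⟩
  have h4 := GPa_T_zero
  unfold GPa_T at h4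
  have h5 : ∀ x : ℝ, (tent x : ℂ) * Complex.exp (0 * x) = (tent x : ℂ) := by
    intro x
    rw [zero_mul, Complex.exp_zero, mul_one]
  simp only [h5] at h4
  rw [integral_complex_ofReal] at h4
  exact_mod_cast h4

theorem GPa_T_bound (b : ℂ) : ‖GPa_T b‖ ≤ Real.exp |b.re| := by
  obtain ⟨h1, h2⟩ := GPa_tent_int
  have h3 : ∀ x : ℝ, ‖(tent x : ℂ) * Complex.exp (b * x)‖ ≤ tent x * Real.exp |b.re| := by
    intro x
    rw [norm_mul, Complex.norm_real, Real.norm_of_nonneg (GPa_tent_nonneg x), Complex.norm_exp]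
    by_cases hx : 1 ≤ |x|
    · rw [STe_supp x hx, zero_mul, zero_mul]
    · refine mul_le_mul_of_nonneg_left (Real.exp_le_exp.2 ?_) (GPa_tent_nonneg x)
      rw [not_le] at hx
      rw [Complex.re_mul_ofReal]
      calc b.re * x ≤ |b.re * x| := le_abs_self _
        _ = |b.re| * |x| := abs_mul _ _
        _ ≤ |b.re| * 1 := mul_le_mul_of_nonneg_left hx.le (abs_nonneg _)
        _ = |b.re| := mul_one _
  have h4 := norm_integral_le_of_norm_le (h1.mul_const (Real.exp |b.re|))
    (Filter.Eventually.of_forall h3)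
  rw [integral_mul_const, h2, one_mul] at h4
  exact h4

theorem GPa_T_bound2 (b : ℂ) : ‖GPa_T b‖ * ‖b‖ ^ 2 ≤ 4 * Real.exp |b.re| := by
  rcases eq_or_ne b 0 with rfl | hb
  · rw [norm_zero]
    have := Real.exp_pos |(0 : ℂ).re|
    nlinarith
  · rw [GPa_T_ne b hb, norm_div, norm_pow, div_mul_cancel₀ _ (pow_ne_zero 2 (norm_ne_zero_iff.2 hb))]
    have h1 : ‖Complex.exp b‖ ≤ Real.exp |b.re| := by
      rw [Complex.norm_exp]
      exact Real.exp_le_exp.2 (le_abs_self _)
    have h2 : ‖Complex.exp (-b)‖ ≤ Real.exp |b.re| := by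
      rw [Complex.norm_exp, Complex.neg_re]
      exact Real.exp_le_exp.2 (neg_le_abs _)
    have h3 : (1 : ℝ) ≤ Real.exp |b.re| := Real.one_le_exp (abs_nonneg _)
    have h4 : ‖(2 : ℂ)‖ = 2 := by simp
    calc ‖Complex.exp b + Complex.exp (-b) - 2‖ ≤ ‖Complex.exp b + Complex.exp (-b)‖ + ‖(2 : ℂ)‖ :=
          norm_sub_le _ _
      _ ≤ ‖Complex.exp b‖ + ‖Complex.exp (-b)‖ + ‖(2 : ℂ)‖ :=
          add_le_add (norm_add_le _ _) le_rfl
      _ ≤ 4 * Real.exp |b.re| := by
          rw [h4]
          linarith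

theorem GPa_LT (w c : ℝ) (hw : 0 < w) (s : ℂ) :
    LT w c s = Complex.exp (s * c) * w * GPa_T (s * w) := by
  set g : ℝ → ℂ := fun x => (tent x : ℂ) * Complex.exp (s * w * x) * Complex.exp (s * c) with hg
  have h1 : ∀ v : ℝ, (tent ((v - c) / w) : ℂ) * Complex.exp (s * v) = g ((v - c) / w) := by
    intro v
    rw [hg]
    show _ = (tent ((v - c) / w) : ℂ) * Complex.exp (s * w * ((v - c) / w : ℝ)) *
      Complex.exp (s * c)
    rw [mul_assoc, ← Complex.exp_add]
    congr 2
    have hw' : (w : ℂ) ≠ 0 := Complex.ofReal_ne_zero.2 hw.ne'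
    push_cast
    field_simp
    ring
  unfold LT
  simp only [h1]
  rw [integral_sub_right_eq_self (fun x => g (x / w)) c, Measure.integral_comp_div, abs_of_pos hw, hg,
    integral_mul_const, Complex.real_smul]
  unfold GPa_T
  ring

theorem GPa_inv (h : ℝ → ℝ) (h1 : Continuous fun v => (h v : ℂ)) (h2 : Integrable fun v => (h v : ℂ))
    (h0 : Integrable fun u => osc h u) (v : ℝ) : (h v : ℂ) =
    (1 / (2 * Real.pi) : ℂ) * ∫ u : ℝ, osc h u * Complex.exp ((u * v : ℝ) * Complex.I) := by
  have h3 : Integrable (FourierTransform.fourier (fun v : ℝ => (h v : ℂ))) := by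
    have h4 : FourierTransform.fourier (fun v : ℝ => (h v : ℂ)) =
        fun ξ => osc h (2 * Real.pi * ξ) := by
      funext ξ
      exact STe_four h ξ
    rw [h4]
    exact h0.comp_mul_left' (by positivity)
  have h5 := congrFun (h1.fourierInv_fourier_eq h2 h3) v
  rw [Real.fourierInv_eq'] at h5
  rw [← h5]
  have h6 := Measure.integral_comp_mul_left (fun u : ℝ => osc h u *
      Complex.exp ((u * v : ℝ) * Complex.I)) (2 * Real.pi)
  rw [abs_of_pos (by positivity), Complex.real_smul] at h6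
  have h7 : ((1 / (2 * Real.pi) : ℂ)) = (((2 * Real.pi)⁻¹ : ℝ) : ℂ) := by
    push_cast
    ring
  rw [h7, ← h6]
  refine integral_congr_ae (Filter.Eventually.of_forall fun ξ => ?_)
  show Complex.exp (↑(2 * Real.pi * inner ℝ ξ v) * Complex.I) •
    FourierTransform.fourier (fun v : ℝ => (h v : ℂ)) ξ =
    osc h (2 * Real.pi * ξ) * Complex.exp (((2 * Real.pi * ξ) * v : ℝ) * Complex.I)
  rw [STe_four h, smul_eq_mul, mul_comm]
  congr 3
  show ((2 * Real.pi * (v * ξ) : ℝ) : ℂ) = _
  push_cast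
  ring

/-- It is entire, `LT w c s = exp (s c) w (sinh (s w / 2) / (s w / 2)) ^ 2` for `s ≠ 0`, with the bounds
`|sinh (z)| ≤ exp |re z|`. -/
theorem LT_props (w c : ℝ) (hw : 0 < w) (hc : w ≤ c) : Differentiable ℂ (LT w c) ∧
    ∀ s : ℂ, ‖LT w c s‖ ≤ Real.exp (s.re * c + |s.re| * w) * w ∧
      ‖LT w c s‖ * (w * ‖s‖ ^ 2) ≤ 4 * Real.exp (s.re * c + |s.re| * w) := by
  have hLT : LT w c = fun s => Complex.exp (s * c) * w * GPa_T (s * w) := funext (GPa_LT w c hw)
  refine ⟨?_, fun s => ?_⟩
  · rw [hLT]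
    have h1 : Differentiable ℂ fun s : ℂ => s * w := differentiable_id.mul_const _
    have h2 : Differentiable ℂ fun s : ℂ => Complex.exp (s * c) :=
      (differentiable_id.mul_const _).cexp
    exact (h2.mul_const _).mul (GPa_T_diff.comp h1)
  · have h1 : ‖Complex.exp (s * c)‖ = Real.exp (s.re * c) := by
      rw [Complex.norm_exp, Complex.re_mul_ofReal]
    have h2 : (s * w).re = s.re * w := Complex.re_mul_ofReal s w
    have h3 : |(s * w).re| = |s.re| * w := by
      rw [h2, abs_mul, abs_of_pos hw]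
    have h4 : ‖(w : ℂ)‖ = w := by
      rw [Complex.norm_real, Real.norm_of_nonneg hw.le]
    have h5 : ‖LT w c s‖ = Real.exp (s.re * c) * w * ‖GPa_T (s * w)‖ := by
      rw [GPa_LT w c hw, norm_mul, norm_mul, h1, h4]
    have h6 := GPa_T_bound (s * w)
    have h7 := GPa_T_bound2 (s * w)
    rw [h3] at h6 h7
    have h8 : ‖s * (w : ℂ)‖ ^ 2 = ‖s‖ ^ 2 * w ^ 2 := by
      rw [norm_mul, h4, mul_pow]
    rw [h8] at h7
    rw [h5, Real.exp_add]
    have h9 : 0 < Real.exp (s.re * c) := Real.exp_pos _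
    constructor
    · have h10 := mul_le_mul_of_nonneg_left h6 (mul_pos h9 hw).le
      linarith
    · have h10 := mul_le_mul_of_nonneg_left h7 h9.le
      linarith

/-- Integrability on vertical lines and the pointwise inversion. -/
theorem GPa_line (w c σ : ℝ) (hw : 0 < w) (hc : w ≤ c) (hσ : 0 < σ) :
    Integrable (fun y : ℝ => LT w c (σ + y * I)) ∧
    (∀ v : ℝ, (1 / (2 * Real.pi) : ℂ) * ∫ y : ℝ, LT w c (σ + y * I) * Complex.exp (-(σ + y * I) * v) =
      (tent ((v - c) / w) : ℂ)) := by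
  obtain ⟨hd, hb⟩ := LT_props w c hw hc
  have hcont : Continuous fun y : ℝ => LT w c (σ + y * I) := by
    have h1 : Continuous fun y : ℝ => (σ + y * I : ℂ) := by fun_prop
    exact hd.continuous.comp h1
  have hre : ∀ y : ℝ, (σ + y * I : ℂ).re = σ := by
    intro y
    simp
  have hint : Integrable (fun y : ℝ => LT w c (σ + y * I)) := by
    set K := Real.exp (σ * c + |σ| * w) with hK
    have hb' : Integrable (fun y : ℝ => (K * w + 4 * K / w) * (1 + y ^ 2)⁻¹) :=
      integrable_inv_one_add_sq.const_mul _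
    refine hb'.mono' hcont.aestronglyMeasurable (Filter.Eventually.of_forall fun y => ?_)
    obtain ⟨e1, e2⟩ := hb (σ + y * I)
    rw [hre] at e1 e2
    rw [← div_eq_mul_inv, le_div_iff₀ (by positivity)]
    have e3 : y ^ 2 ≤ ‖(σ + y * I : ℂ)‖ ^ 2 := by
      rw [← Complex.normSq_eq_norm_sq, Complex.normSq_add_mul_I]
      nlinarith [sq_nonneg σ]
    have e4 : ‖LT w c (σ + y * I)‖ * y ^ 2 ≤ 4 * K / w := by
      rw [le_div_iff₀ hw]
      calc ‖LT w c (σ + y * I)‖ * y ^ 2 * w
          ≤ ‖LT w c (σ + y * I)‖ * ‖(σ + y * I : ℂ)‖ ^ 2 * w :=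
            mul_le_mul_of_nonneg_right (mul_le_mul_of_nonneg_left e3 (norm_nonneg _)) hw.le
        _ = ‖LT w c (σ + y * I)‖ * (w * ‖(σ + y * I : ℂ)‖ ^ 2) := by ring
        _ ≤ 4 * K := e2
    linarith
  refine ⟨hint, fun v => ?_⟩
  -- the function `tent ((v - c) / w) exp (σ v)`
  obtain ⟨h, hh⟩ : ∃ h : ℝ → ℝ, h = fun v => tent ((v - c) / w) * Real.exp (σ * v) := ⟨_, rfl⟩
  have hosc : ∀ u : ℝ, osc h u = LT w c (σ + (-u : ℝ) * I) := by
    intro u
    unfold osc LT
    refine integral_congr_ae (Filter.Eventually.of_forall fun v => ?_)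
    show (h v : ℂ) * Complex.exp (-(u * v : ℝ) * Complex.I) =
      (tent ((v - c) / w) : ℂ) * Complex.exp ((σ + (-u : ℝ) * I) * v)
    rw [hh]
    push_cast
    rw [mul_assoc, ← Complex.exp_add]
    congr 2
    ring
  have hc1 : Continuous fun v => (h v : ℂ) := by
    rw [hh]
    have := STe_cont
    fun_prop
  have hc2 : Integrable fun v => (h v : ℂ) := by
    refine hc1.integrable_of_hasCompactSupport ?_
    refine HasCompactSupport.intro (K := Set.Icc (c - w) (c + w)) isCompact_Icc fun x hx => ?_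
    rw [Set.mem_Icc, not_and_or, not_le, not_le] at hx
    rw [hh]
    show ((tent ((x - c) / w) * Real.exp (σ * x) : ℝ) : ℂ) = 0
    rw [STe_supp, zero_mul, Complex.ofReal_zero]
    rw [abs_div, abs_of_pos hw, le_div_iff₀ hw, one_mul, le_abs]
    rcases hx with hx | hx
    · right
      linarith
    · left
      linarith
  have hc3 : Integrable fun u => osc h u := by
    have h4 : (fun u => osc h u) = fun u : ℝ => LT w c (σ + (-u : ℝ) * I) := funext hosc
    rw [h4]
    exact hint.comp_neg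
  have h5 := GPa_inv h hc1 hc2 hc3 v
  have h6 : ∫ u : ℝ, osc h u * Complex.exp ((u * v : ℝ) * Complex.I) =
      ∫ y : ℝ, LT w c (σ + y * I) * Complex.exp (-(y * I) * v) := by
    rw [← integral_neg_eq_self (fun y : ℝ => LT w c (σ + y * I) * Complex.exp (-(y * I) * v))]
    refine integral_congr_ae (Filter.Eventually.of_forall fun u => ?_)
    show osc h u * Complex.exp ((u * v : ℝ) * Complex.I) =
      LT w c (σ + (-u : ℝ) * I) * Complex.exp (-((-u : ℝ) * I) * v)
    rw [hosc]
    congr 2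
    push_cast
    ring
  have h7 : ∀ y : ℝ, LT w c (σ + y * I) * Complex.exp (-(σ + y * I) * v) =
      LT w c (σ + y * I) * Complex.exp (-(y * I) * v) * Complex.exp (-(σ * v : ℝ)) := by
    intro y
    rw [mul_assoc, ← Complex.exp_add]
    congr 2
    push_cast
    ring
  simp only [h7]
  rw [integral_mul_const, ← mul_assoc, ← h6, ← h5, hh]
  push_cast
  rw [mul_assoc, ← Complex.exp_add, add_neg_cancel, Complex.exp_zero, mul_one]

/-- Inversion on the line `re s = σ`, for exponentials and for Dirichlet series.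

Proof. `v ↦ tent ((v - c) / w) exp (σ v)` is continuous with compact support and integrable Fourier transform
`y ↦ LT w c (σ + i y)`: `tent ((v - c) / w) exp (σ v) = (1 / 2 π) ∫ LT w c (σ + i y) exp (- i y v) dy` (from `tent_inv`-like Fourier
inversion). Integrate against `exp (- (σ + α) v)` over `v ≥ 0` (Fubini; `c ≥ w` so the tent is supported in `v ≥ 0`), and sum
over `n` with `v = log n`. -/
theorem LT_inv (w c σ : ℝ) (hw : 0 < w) (hc : w ≤ c) (hσ : 0 < σ) :
    Integrable (fun y : ℝ => LT w c (σ + y * I)) ∧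
    (∀ α : ℂ, 0 ≤ α.re → (1 / (2 * Real.pi) : ℂ) * ∫ y : ℝ, LT w c (σ + y * I) / (σ + y * I + α) =
      ∫ v : ℝ, (tent ((v - c) / w) : ℂ) * Complex.exp (-α * v)) ∧
    (∀ v : ℝ, (1 / (2 * Real.pi) : ℂ) * ∫ y : ℝ, LT w c (σ + y * I) * Complex.exp (-(σ + y * I) * v) =
      (tent ((v - c) / w) : ℂ)) := by
  obtain ⟨hint, hinv⟩ := GPa_line w c σ hw hc hσ
  obtain ⟨hd, _⟩ := LT_props w c hw hc
  refine ⟨hint, fun α hα => ?_, hinv⟩
  have hcont : Continuous fun y : ℝ => LT w c (σ + y * I) := by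
    have h1 : Continuous fun y : ℝ => (σ + y * I : ℂ) := by fun_prop
    exact hd.continuous.comp h1
  have hre : ∀ y : ℝ, (-(σ + y * I + α) : ℂ).re = -(σ + α.re) := by
    intro y
    simp
  have hneg : -(σ + α.re) < 0 := by linarith
  -- the factor as an integral
  have h1 : ∀ y : ℝ, LT w c (σ + y * I) / (σ + y * I + α) =
      ∫ v in Set.Ioi (0 : ℝ), LT w c (σ + y * I) * Complex.exp (-(σ + y * I + α) * v) := by
    intro y
    have h2 := integral_exp_mul_complex_Ioi (a := -(σ + y * I + α)) (by rw [hre]; exact hneg) 0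
    rw [integral_const_mul, h2, Complex.ofReal_zero, mul_zero, Complex.exp_zero, neg_div_neg_eq,
      mul_one_div]
  simp only [h1]
  -- Fubini
  have hprod : Integrable (Function.uncurry fun (y v : ℝ) =>
      LT w c (σ + y * I) * Complex.exp (-(σ + y * I + α) * v))
      (volume.prod (volume.restrict (Set.Ioi (0 : ℝ)))) := by
    have h2 : Integrable (fun v : ℝ => Real.exp (-(σ + α.re) * v)) (volume.restrict (Set.Ioi 0)) :=
      integrableOn_exp_mul_Ioi hneg 0
    have h3 := hint.norm.mul_prod h2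
    refine h3.mono' ?_ (Filter.Eventually.of_forall fun p => ?_)
    · have h4 : Continuous (Function.uncurry fun (y v : ℝ) =>
          LT w c (σ + y * I) * Complex.exp (-(σ + y * I + α) * v)) := by
        refine (hcont.comp continuous_fst).mul ?_
        fun_prop
      exact h4.aestronglyMeasurable
    · show ‖LT w c (σ + p.1 * I) * Complex.exp (-(σ + p.1 * I + α) * p.2)‖ ≤
        ‖LT w c (σ + p.1 * I)‖ * Real.exp (-(σ + α.re) * p.2)
      rw [norm_mul, Complex.norm_exp, Complex.re_mul_ofReal, hre]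
  rw [integral_integral_swap hprod]
  have h4 : ∀ v : ℝ, ∫ y : ℝ, LT w c (σ + y * I) * Complex.exp (-(σ + y * I + α) * v) =
      (2 * Real.pi : ℂ) * ((tent ((v - c) / w) : ℂ) * Complex.exp (-α * v)) := by
    intro v
    have h5 : ∀ y : ℝ, LT w c (σ + y * I) * Complex.exp (-(σ + y * I + α) * v) =
        LT w c (σ + y * I) * Complex.exp (-(σ + y * I) * v) * Complex.exp (-α * v) := by
      intro y
      rw [mul_assoc, ← Complex.exp_add]
      congr 2
      ring
    simp only [h5]
    have hpi : (Real.pi : ℂ) ≠ 0 := Complex.ofReal_ne_zero.2 Real.pi_ne_zero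
    have h6 : (2 * Real.pi : ℂ) * (1 / (2 * Real.pi)) = 1 := by
      field_simp
    have h7 := hinv v
    rw [integral_mul_const, ← h7, ← mul_assoc, ← mul_assoc, h6, one_mul]
  simp only [h4]
  rw [integral_const_mul, ← mul_assoc]
  have hpi : (Real.pi : ℂ) ≠ 0 := Complex.ofReal_ne_zero.2 Real.pi_ne_zero
  have h6 : (1 / (2 * Real.pi) : ℂ) * (2 * Real.pi) = 1 := by
    field_simp
  rw [h6, one_mul]
  refine setIntegral_eq_integral_of_forall_compl_eq_zero fun v hv => ?_
  rw [Set.mem_Ioi, not_lt] at hv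
  rw [STe_supp, Complex.ofReal_zero, zero_mul]
  rw [abs_div, abs_of_pos hw, le_div_iff₀ hw, one_mul, le_abs]
  right
  linarith

end Pool.Agent.M58
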