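import Pool.Agent.W_b58c63_m1.GPa

/-!
# From the logarithmic derivative to primes in blocks (helper68)
-/

set_option autoImplicit false

noncomputable section

open Finset MeasureTheory Complex

namespace Pool.Agent.M58

/-- partial sums of `Λ (n) n ^ (-1-σ)` -/
theorem GPaB_lam : ∃ K : ℝ, 0 < K ∧ ∀ σ : ℝ, 0 < σ → σ ≤ 1 →
    Summable (fun n : ℕ => ArithmeticFunction.vonMangoldt n * ((n : ℝ) ^ (-(1 + σ)))) ∧
      ∑' n : ℕ, ArithmeticFunction.vonMangoldt n * ((n : ℝ) ^ (-(1 + σ))) ≤ K / σ := by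
  classical
  obtain ⟨C, hC0, hC⟩ := Twist.mertens
  have hsum1 : Summable fun k : ℕ => ((k : ℝ) + 1 + C) * Real.exp (-(k : ℝ)) := by
    have h1 : Summable fun k : ℕ => (k : ℝ) * Real.exp (-(k : ℝ)) := by
      simpa using Real.summable_pow_mul_exp_neg_nat_mul 1 (r := 1) one_pos
    have h2 : Summable fun k : ℕ => Real.exp (-(k : ℝ)) := Real.summable_exp_neg_nat
    refine (h1.add (h2.mul_left (1 + C))).congr fun k => ?_
    ring
  obtain ⟨A, hA⟩ : ∃ A : ℝ, A = ∑' k : ℕ, ((k : ℝ) + 1 + C) * Real.exp (-(k : ℝ)) := ⟨_, rfl⟩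
  have hA0 : 0 ≤ A := by
    rw [hA]
    exact tsum_nonneg fun k => by positivity
  refine ⟨A + 1, by linarith, fun σ hσ hσ1 => ?_⟩
  have hnn : ∀ n : ℕ, 0 ≤ ArithmeticFunction.vonMangoldt n * ((n : ℝ) ^ (-(1 + σ))) := fun n =>
    mul_nonneg ArithmeticFunction.vonMangoldt_nonneg (Real.rpow_nonneg (Nat.cast_nonneg _) _)
  have hbd : ∀ N : ℕ, ∑ n ∈ range N, ArithmeticFunction.vonMangoldt n * ((n : ℝ) ^ (-(1 + σ))) ≤
      (A + 1) / σ := by
    intro N
    -- the fibre index
    obtain ⟨kk, hkk⟩ : ∃ kk : ℕ → ℕ, ∀ n, kk n = ⌊σ * Real.log n⌋₊ := ⟨_, fun _ => rfl⟩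
    obtain ⟨M, hM⟩ : ∃ M : ℕ, ∀ n ∈ range N, kk n < M := by
      refine ⟨(range N).sup kk + 1, fun n hn => ?_⟩
      exact Nat.lt_succ_of_le (Finset.le_sup hn)
    have h1 := Finset.sum_fiberwise_of_maps_to (s := range N) (t := range M) (g := kk)
      (fun n hn => mem_range.2 (hM n hn))
      (fun n => ArithmeticFunction.vonMangoldt n * ((n : ℝ) ^ (-(1 + σ))))
    rw [← h1]
    have h2 : ∀ k ∈ range M, ∑ n ∈ (range N).filter (fun n => kk n = k),
        ArithmeticFunction.vonMangoldt n * ((n : ℝ) ^ (-(1 + σ))) ≤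
        (((k : ℝ) + 1 + C) * Real.exp (-(k : ℝ))) / σ := by
      intro k _
      have h3 := hC ((k + 1) / σ) (by positivity)
      rw [abs_le] at h3
      have h4 : ∑ n ∈ (range N).filter (fun n => kk n = k),
          ArithmeticFunction.vonMangoldt n * ((n : ℝ) ^ (-(1 + σ))) ≤
          Real.exp (-(k : ℝ)) * Twist.ML ((k + 1) / σ) := by
        unfold Twist.ML Twist.S Twist.lam
        rw [Finset.mul_sum]
        have h5 : ∑ n ∈ (range N).filter (fun n => kk n = k),
            ArithmeticFunction.vonMangoldt n * ((n : ℝ) ^ (-(1 + σ))) =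
            ∑ n ∈ ((range N).filter (fun n => kk n = k)).filter (fun n => n ≠ 0),
            ArithmeticFunction.vonMangoldt n * ((n : ℝ) ^ (-(1 + σ))) := by
          rw [Finset.sum_filter (fun n => n ≠ 0)]
          refine Finset.sum_congr rfl fun n _ => ?_
          split_ifs with h
          · rfl
          · have h0 : n = 0 := by
              by_contra h'
              exact h h'
            rw [h0, ArithmeticFunction.map_zero, zero_mul]
        rw [h5]
        refine (Finset.sum_le_sum (g := fun n : ℕ => Real.exp (-(k : ℝ)) *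
          (ArithmeticFunction.vonMangoldt n / n)) ?_).trans
          (Finset.sum_le_sum_of_subset_of_nonneg ?_ ?_)
        · intro n hn
          rw [Finset.mem_filter, Finset.mem_filter] at hn
          obtain ⟨⟨-, hn2⟩, hn3⟩ := hn
          have hn0 : (0 : ℝ) < n := Nat.cast_pos.2 (Nat.pos_of_ne_zero hn3)
          have h6 : (k : ℝ) ≤ σ * Real.log n := by
            rw [← hn2, hkk]
            exact Nat.floor_le (mul_nonneg hσ.le (Real.log_natCast_nonneg n))
          have h7 : (n : ℝ) ^ (-(1 + σ)) ≤ Real.exp (-(k : ℝ)) * (1 / n) := by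
            rw [show -(1 + σ) = -σ + -1 by ring, Real.rpow_add hn0, Real.rpow_neg_one, one_div]
            refine mul_le_mul_of_nonneg_right ?_ (by positivity)
            rw [Real.rpow_def_of_pos hn0]
            apply Real.exp_le_exp.2
            linarith
          calc ArithmeticFunction.vonMangoldt n * (n : ℝ) ^ (-(1 + σ))
              ≤ ArithmeticFunction.vonMangoldt n * (Real.exp (-(k : ℝ)) * (1 / n)) :=
                mul_le_mul_of_nonneg_left h7 ArithmeticFunction.vonMangoldt_nonneg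
            _ = Real.exp (-(k : ℝ)) * (ArithmeticFunction.vonMangoldt n / n) := by ring
        · intro n hn
          rw [Finset.mem_filter, Finset.mem_filter] at hn
          obtain ⟨⟨-, hn2⟩, hn3⟩ := hn
          have hn0 : (0 : ℝ) < n := Nat.cast_pos.2 (Nat.pos_of_ne_zero hn3)
          rw [Finset.mem_Icc]
          refine ⟨Nat.pos_of_ne_zero hn3, Nat.le_floor ?_⟩
          have h6 : σ * Real.log n < k + 1 := by
            rw [← hn2, hkk]
            exact Nat.lt_floor_add_one _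
          rw [← Real.log_le_iff_le_exp hn0, le_div_iff₀ hσ]
          linarith
        · intro n _ _
          exact mul_nonneg (Real.exp_pos _).le
            (div_nonneg ArithmeticFunction.vonMangoldt_nonneg (Nat.cast_nonneg _))
      refine h4.trans ?_
      have h5 : Twist.ML ((k + 1) / σ) ≤ ((k : ℝ) + 1 + C) / σ := by
        have h6 : C ≤ C / σ := le_div_self hC0 hσ hσ1
        rw [add_div _ C]
        linarith [h3.2]
      calc Real.exp (-(k : ℝ)) * Twist.ML ((k + 1) / σ)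
          ≤ Real.exp (-(k : ℝ)) * (((k : ℝ) + 1 + C) / σ) :=
            mul_le_mul_of_nonneg_left h5 (Real.exp_pos _).le
        _ = _ := by ring
    refine (Finset.sum_le_sum h2).trans ?_
    rw [← Finset.sum_div]
    refine div_le_div_of_nonneg_right ?_ hσ.le
    have h3 := hsum1.sum_le_tsum (range M) (fun k _ => by positivity)
    rw [← hA] at h3
    linarith
  exact ⟨summable_of_sum_range_le hnn hbd, Summable.tsum_le_of_sum_range_le
    (summable_of_sum_range_le hnn hbd) hbd⟩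

theorem GPaB_Dz_eq (z : ℝ) {q : ℕ} (ψ : DirichletCharacter ℂ q) (s : ℂ) :
    Dz z ψ s = ∑' n : ℕ, (ArithmeticFunction.vonMangoldt n : ℂ) * fz z ψ n * (n : ℂ) ^ (-s) := by
  unfold Dz LSeries
  refine tsum_congr fun n => ?_
  by_cases hn : n = 0
  · rw [hn, LSeries.term_zero, ArithmeticFunction.map_zero, Complex.ofReal_zero, zero_mul, zero_mul]
  · rw [LSeries.term_of_ne_zero hn, Complex.cpow_neg, div_eq_mul_inv]

theorem GPaB_fz (z : ℝ) {q : ℕ} (ψ : DirichletCharacter ℂ q) (n : ℕ) : ‖fz z ψ n‖ ≤ 1 := by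
  unfold fz rh
  rw [norm_mul]
  have h1 : ‖ψ (n : ZMod q)‖ ≤ 1 := DirichletCharacter.norm_le_one ψ _
  split_ifs
  · rw [Complex.ofReal_one, norm_one, one_mul]
    exact h1
  · rw [Complex.ofReal_zero, norm_zero, zero_mul]
    exact zero_le_one

theorem GPaB_term (z : ℝ) {q : ℕ} (ψ : DirichletCharacter ℂ q) (n : ℕ) (s : ℂ) :
    ‖(ArithmeticFunction.vonMangoldt n : ℂ) * fz z ψ n * (n : ℂ) ^ (-s)‖ ≤
      ArithmeticFunction.vonMangoldt n * (n : ℝ) ^ (-s.re) := by
  by_cases hn : n = 0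
  · rw [hn, ArithmeticFunction.map_zero, Complex.ofReal_zero, zero_mul, zero_mul, norm_zero,
      zero_mul]
  · rw [norm_mul, norm_mul, Complex.norm_real,
      Real.norm_of_nonneg ArithmeticFunction.vonMangoldt_nonneg,
      Complex.norm_natCast_cpow_of_pos (Nat.pos_of_ne_zero hn), Complex.neg_re]
    have h1 := GPaB_fz z ψ n
    have h2 : 0 ≤ (n : ℝ) ^ (-s.re) := Real.rpow_nonneg (Nat.cast_nonneg _) _
    calc ArithmeticFunction.vonMangoldt n * ‖fz z ψ n‖ * (n : ℝ) ^ (-s.re)
        ≤ ArithmeticFunction.vonMangoldt n * 1 * (n : ℝ) ^ (-s.re) :=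
          mul_le_mul_of_nonneg_right (mul_le_mul_of_nonneg_left h1
            ArithmeticFunction.vonMangoldt_nonneg) h2
      _ = _ := by rw [mul_one]

theorem GPaB_line (z σ t : ℝ) {q : ℕ} (ψ : DirichletCharacter ℂ q)
    (hs : Summable (fun n : ℕ => ArithmeticFunction.vonMangoldt n * ((n : ℝ) ^ (-(1 + σ))))) :
    Continuous (fun y : ℝ => Dz z ψ (1 + t * I + (σ + y * I))) ∧
    ∀ y : ℝ, ‖Dz z ψ (1 + t * I + (σ + y * I))‖ ≤
      ∑' n : ℕ, ArithmeticFunction.vonMangoldt n * ((n : ℝ) ^ (-(1 + σ))) := by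
  have hre : ∀ y : ℝ, (1 + t * I + (σ + y * I) : ℂ).re = 1 + σ := by
    intro y
    simp
  have hb : ∀ (n : ℕ) (y : ℝ), ‖(ArithmeticFunction.vonMangoldt n : ℂ) * fz z ψ n *
      (n : ℂ) ^ (-(1 + t * I + (σ + y * I)))‖ ≤
      ArithmeticFunction.vonMangoldt n * ((n : ℝ) ^ (-(1 + σ))) := by
    intro n y
    have h1 := GPaB_term z ψ n (1 + t * I + (σ + y * I))
    rwa [hre] at h1
  constructor
  · have h1 : (fun y : ℝ => Dz z ψ (1 + t * I + (σ + y * I))) = fun y : ℝ =>
        ∑' n : ℕ, (ArithmeticFunction.vonMangoldt n : ℂ) * fz z ψ n *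
          (n : ℂ) ^ (-(1 + t * I + (σ + y * I))) := by
      funext y
      exact GPaB_Dz_eq z ψ _
    rw [h1]
    refine continuous_tsum (fun n => ?_) hs hb
    by_cases hn : n = 0
    · simp only [hn, ArithmeticFunction.map_zero, Complex.ofReal_zero, zero_mul]
      exact continuous_const
    · have hnc : (n : ℂ) ≠ 0 := Nat.cast_ne_zero.mpr hn
      refine continuous_const.mul ?_
      have h2 : Continuous fun y : ℝ => (-(1 + t * I + (σ + y * I)) : ℂ) := by fun_prop
      exact h2.const_cpow (Or.inl hnc)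
  · intro y
    rw [GPaB_Dz_eq]
    refine tsum_of_norm_bounded hs.hasSum fun n => hb n y

theorem GPaB_series (z σ t w c : ℝ) {q : ℕ} (ψ : DirichletCharacter ℂ q) (hσ : 0 < σ) (hw : 0 < w)
    (hc : w ≤ c) (N : ℕ) (hN : c + w ≤ Real.log N)
    (hs : Summable (fun n : ℕ => ArithmeticFunction.vonMangoldt n * ((n : ℝ) ^ (-(1 + σ))))) :
    ∑ n ∈ Icc 1 N, ((ArithmeticFunction.vonMangoldt n * rh z n *
              tent ((Real.log n - c) / w) / n : ℝ) : ℂ) * ψ (n : ZMod q) * nit n t =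
      (1 / (2 * Real.pi) : ℂ) * ∫ y : ℝ, LT w c (σ + y * I) *
        Dz z ψ (1 + t * I + (σ + y * I)) := by
  obtain ⟨hint, -, hinv⟩ := LT_inv w c σ hw hc hσ
  -- the summands
  have hlog : ∀ (n : ℕ) (hn : n ≠ 0) (s : ℂ), (n : ℂ) ^ (-s) = Complex.exp (-s * Real.log n) := by
    intro n hn s
    rw [Complex.cpow_def_of_ne_zero (Nat.cast_ne_zero.mpr hn), ← Complex.natCast_log, mul_comm]
  obtain ⟨G, hG⟩ : ∃ G : ℕ → ℝ → ℂ, ∀ n y, G n y = LT w c (σ + y * I) *
      ((ArithmeticFunction.vonMangoldt n : ℂ) * fz z ψ n *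
        (n : ℂ) ^ (-(1 + t * I + (σ + y * I)))) := ⟨_, fun _ _ => rfl⟩
  have hGf : ∀ n, G n = fun y : ℝ => LT w c (σ + y * I) *
      ((ArithmeticFunction.vonMangoldt n : ℂ) * fz z ψ n *
        (n : ℂ) ^ (-(1 + t * I + (σ + y * I)))) := fun n => funext (hG n)
  have hre : ∀ y : ℝ, (1 + t * I + (σ + y * I) : ℂ).re = 1 + σ := by
    intro y
    simp
  have hb : ∀ (n : ℕ) (y : ℝ), ‖(ArithmeticFunction.vonMangoldt n : ℂ) * fz z ψ n *
      (n : ℂ) ^ (-(1 + t * I + (σ + y * I)))‖ ≤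
      ArithmeticFunction.vonMangoldt n * ((n : ℝ) ^ (-(1 + σ))) := by
    intro n y
    have h1 := GPaB_term z ψ n (1 + t * I + (σ + y * I))
    rwa [hre] at h1
  have hcont : ∀ n : ℕ, Continuous fun y : ℝ => (ArithmeticFunction.vonMangoldt n : ℂ) * fz z ψ n *
      (n : ℂ) ^ (-(1 + t * I + (σ + y * I))) := by
    intro n
    by_cases hn : n = 0
    · simp only [hn, ArithmeticFunction.map_zero, Complex.ofReal_zero, zero_mul]
      exact continuous_const
    · have hnc : (n : ℂ) ≠ 0 := Nat.cast_ne_zero.mpr hn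
      refine continuous_const.mul ?_
      have h2 : Continuous fun y : ℝ => (-(1 + t * I + (σ + y * I)) : ℂ) := by fun_prop
      exact h2.const_cpow (Or.inl hnc)
  have hGint : ∀ n, Integrable (G n) := by
    intro n
    rw [hGf]
    exact hint.mul_bdd (hcont n).aestronglyMeasurable (Filter.Eventually.of_forall (hb n))
  have hGn : ∀ n, ∫ y, ‖G n y‖ ≤ (∫ y : ℝ, ‖LT w c (σ + y * I)‖) *
      (ArithmeticFunction.vonMangoldt n * ((n : ℝ) ^ (-(1 + σ)))) := by
    intro n
    rw [← integral_mul_const]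
    refine integral_mono (hGint n).norm (hint.norm.mul_const _) fun y => ?_
    beta_reduce
    rw [hG, norm_mul]
    exact mul_le_mul_of_nonneg_left (hb n y) (norm_nonneg _)
  have hsum := hasSum_integral_of_summable_integral_norm hGint
    (Summable.of_nonneg_of_le (fun n => integral_nonneg fun y => norm_nonneg _) hGn
      (hs.mul_left _))
  have hval : ∀ n : ℕ, ∫ y, G n y = (2 * Real.pi : ℂ) *
      (if n ∈ Icc 1 N then ((ArithmeticFunction.vonMangoldt n * rh z n *
              tent ((Real.log n - c) / w) / n : ℝ) : ℂ) * ψ (n : ZMod q) * nit n t else 0) := by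
    intro n
    by_cases hn : n = 0
    · rw [hn, if_neg (by simp), mul_zero, hGf]
      simp only [ArithmeticFunction.map_zero, Complex.ofReal_zero, zero_mul, mul_zero,
        integral_zero]
    · have hnc : (n : ℂ) ≠ 0 := Nat.cast_ne_zero.mpr hn
      have h1 : ∀ y, G n y = ((ArithmeticFunction.vonMangoldt n : ℂ) * fz z ψ n *
          (n : ℂ) ^ (-(1 + t * I))) *
          (LT w c (σ + y * I) * Complex.exp (-(σ + y * I) * Real.log n)) := by
        intro y
        rw [hG, neg_add, Complex.cpow_add _ _ hnc, hlog n hn (σ + y * I)]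
        ring
      have h2 := hinv (Real.log n)
      have hpi : (2 * Real.pi : ℂ) ≠ 0 := by
        exact_mod_cast (by positivity : (2 * Real.pi : ℝ) ≠ 0)
      have h3 : ∫ y : ℝ, LT w c (σ + y * I) * Complex.exp (-(σ + y * I) * Real.log n) =
          (2 * Real.pi : ℂ) * (tent ((Real.log n - c) / w) : ℂ) := by
        rw [← h2, ← mul_assoc, mul_one_div_cancel hpi, one_mul]
      have h4 : ∫ y, G n y = ((ArithmeticFunction.vonMangoldt n : ℂ) * fz z ψ n *
          (n : ℂ) ^ (-(1 + t * I))) * ((2 * Real.pi : ℂ) * (tent ((Real.log n - c) / w) : ℂ)) := by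
        rw [← h3, ← integral_const_mul]
        exact integral_congr_ae (Filter.Eventually.of_forall h1)
      rw [h4]
      have h5 : (n : ℂ) ^ (-(1 + t * I)) = (1 / n : ℂ) * nit n t := by
        unfold nit
        rw [neg_add, Complex.cpow_add _ _ hnc, Complex.cpow_neg_one, one_div]
      rw [h5]
      by_cases hnN : n ∈ Icc 1 N
      · rw [if_pos hnN]
        unfold fz
        push_cast
        ring
      · rw [if_neg hnN]
        have h6 : N < n := by
          rw [Finset.mem_Icc] at hnN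
          omega
        have h7 : tent ((Real.log n - c) / w) = 0 := by
          unfold tent
          apply max_eq_left
          have h8 : Real.log N ≤ Real.log n := by
            rcases Nat.eq_zero_or_pos N with h9 | h9
            · rw [h9, Nat.cast_zero, Real.log_zero]
              exact Real.log_natCast_nonneg n
            · exact Real.log_le_log (by exact_mod_cast h9) (by exact_mod_cast h6.le)
          have h9 : 1 ≤ (Real.log n - c) / w := by
            rw [le_div_iff₀ hw]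
            linarith
          have h10 := le_abs_self ((Real.log n - c) / w)
          linarith
        rw [h7, Complex.ofReal_zero, mul_zero, mul_zero]
  have hpi : (2 * Real.pi : ℂ) ≠ 0 := by
    exact_mod_cast (by positivity : (2 * Real.pi : ℝ) ≠ 0)
  have h1 : ∫ y : ℝ, LT w c (σ + y * I) * Dz z ψ (1 + t * I + (σ + y * I)) =
      ∫ y, ∑' n, G n y := by
    refine integral_congr_ae (Filter.Eventually.of_forall fun y => ?_)
    beta_reduce
    rw [GPaB_Dz_eq, ← tsum_mul_left]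
    exact tsum_congr fun n => (hG n y).symm
  rw [h1, ← hsum.tsum_eq]
  have h2 : ∑' n, ∫ y, G n y = ∑ n ∈ Icc 1 N, (2 * Real.pi : ℂ) *
      (((ArithmeticFunction.vonMangoldt n * rh z n *
              tent ((Real.log n - c) / w) / n : ℝ) : ℂ) * ψ (n : ZMod q) * nit n t) := by
    rw [tsum_eq_sum (s := Icc 1 N)]
    · refine Finset.sum_congr rfl fun n hn => ?_
      rw [hval, if_pos hn]
    · intro n hn
      rw [hval, if_neg hn, mul_zero]
  rw [h2, ← Finset.mul_sum, ← mul_assoc, one_div_mul_cancel hpi, one_mul]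

theorem GPaB_poisson (w : ℝ) (hw : 0 < w) : Integrable (fun y : ℝ => w * (1 + (w * y) ^ 2)⁻¹) ∧
    ∫ y : ℝ, w * (1 + (w * y) ^ 2)⁻¹ = Real.pi := by
  constructor
  · exact (integrable_inv_one_add_sq.comp_mul_left' hw.ne').const_mul w
  · rw [integral_const_mul, Measure.integral_comp_mul_left (fun x : ℝ => (1 + x ^ 2)⁻¹) w,
      integral_univ_inv_one_add_sq, abs_of_pos (inv_pos.mpr hw), smul_eq_mul, ← mul_assoc,
      mul_inv_cancel₀ hw.ne', one_mul]

theorem GPaB_sq (x y : ℝ) : y ^ 2 ≤ ‖(x + y * I : ℂ)‖ ^ 2 := by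
  rw [← Complex.normSq_eq_norm_sq, Complex.normSq_add_mul_I]
  nlinarith [sq_nonneg x]

theorem GPaB_left (w c y0 : ℝ) (hw : 0 < w) (hc : w ≤ c) (hy0 : 0 ≤ y0) :
    ∫ y in (-1 : ℝ)..1, ‖LT w c ((-y0 : ℝ) + y * I)‖ ≤
      5 * Real.pi * Real.exp (-y0 * (c - w)) := by
  obtain ⟨hd, hb⟩ := LT_props w c hw hc
  obtain ⟨hp1, hp2⟩ := GPaB_poisson w hw
  have hcont : Continuous fun y : ℝ => ‖LT w c ((-y0 : ℝ) + y * I)‖ := by
    have h1 : Continuous fun y : ℝ => (((-y0 : ℝ) : ℂ) + y * I) := by fun_prop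
    exact (hd.continuous.comp h1).norm
  have hpt : ∀ y : ℝ, ‖LT w c ((-y0 : ℝ) + y * I)‖ ≤
      5 * Real.exp (-y0 * (c - w)) * (w * (1 + (w * y) ^ 2)⁻¹) := by
    intro y
    obtain ⟨h1, h2⟩ := hb ((-y0 : ℝ) + y * I)
    have hre : (((-y0 : ℝ) : ℂ) + y * I).re = -y0 := by simp
    rw [hre] at h1 h2
    have he : -y0 * c + |-y0| * w = -y0 * (c - w) := by
      rw [abs_neg, abs_of_nonneg hy0]
      ring
    rw [he] at h1 h2
    have h3 := GPaB_sq (-y0) y
    have h4 : ‖LT w c ((-y0 : ℝ) + y * I)‖ * (w * y ^ 2) ≤ 4 * Real.exp (-y0 * (c - w)) :=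
      (mul_le_mul_of_nonneg_left (mul_le_mul_of_nonneg_left h3 hw.le) (norm_nonneg _)).trans h2
    have h5 : 0 < 1 + (w * y) ^ 2 := by positivity
    rw [← mul_assoc, ← div_eq_mul_inv, le_div_iff₀ h5]
    have h6 : w * (‖LT w c ((-y0 : ℝ) + y * I)‖ * (w * y ^ 2)) ≤
        w * (4 * Real.exp (-y0 * (c - w))) := mul_le_mul_of_nonneg_left h4 hw.le
    nlinarith
  rw [intervalIntegral.integral_of_le (by norm_num)]
  have h1 : ∫ y in Set.Ioc (-1 : ℝ) 1, ‖LT w c ((-y0 : ℝ) + y * I)‖ ≤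
      ∫ y in Set.Ioc (-1 : ℝ) 1, 5 * Real.exp (-y0 * (c - w)) * (w * (1 + (w * y) ^ 2)⁻¹) := by
    refine setIntegral_mono ?_ (hp1.const_mul _).integrableOn hpt
    exact (hcont.intervalIntegrable (-1) 1).1
  refine h1.trans ?_
  have h2 : ∫ y in Set.Ioc (-1 : ℝ) 1, 5 * Real.exp (-y0 * (c - w)) * (w * (1 + (w * y) ^ 2)⁻¹) ≤
      ∫ y : ℝ, 5 * Real.exp (-y0 * (c - w)) * (w * (1 + (w * y) ^ 2)⁻¹) := by
    refine setIntegral_le_integral (hp1.const_mul _) (Filter.Eventually.of_forall fun y => ?_)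
    positivity
  refine h2.trans (le_of_eq ?_)
  rw [integral_const_mul, hp2]
  ring

theorem GPaB_tail (w c σ B : ℝ) (hw : 0 < w) (hc : w ≤ c) (hσ : 0 ≤ σ) (hB : 0 ≤ B) (Φ : ℝ → ℂ)
    (hΦ : Integrable Φ) (h : ∀ y : ℝ, ‖Φ y‖ ≤ ‖LT w c (σ + y * I)‖ * B) :
    ∫ y in (Set.Ioc (-1 : ℝ) 1)ᶜ, ‖Φ y‖ ≤
      B * (8 * Real.pi * Real.exp (σ * (c + w))) / w := by
  obtain ⟨hd, hb⟩ := LT_props w c hw hc
  have hpt : ∀ y ∈ (Set.Ioc (-1 : ℝ) 1)ᶜ, ‖Φ y‖ ≤
      B * (8 * Real.exp (σ * (c + w))) / w * (1 + y ^ 2)⁻¹ := by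
    intro y hy
    have hy1 : 1 ≤ y ^ 2 := by
      rw [Set.mem_compl_iff, Set.mem_Ioc, not_and_or, not_lt, not_le] at hy
      rcases hy with hy | hy <;> nlinarith
    obtain ⟨-, h2⟩ := hb (σ + y * I)
    have hre : ((σ : ℂ) + y * I).re = σ := by simp
    rw [hre] at h2
    have he : σ * c + |σ| * w = σ * (c + w) := by
      rw [abs_of_nonneg hσ]
      ring
    rw [he] at h2
    have h3 := GPaB_sq σ y
    have h4 : ‖LT w c (σ + y * I)‖ * (w * y ^ 2) ≤ 4 * Real.exp (σ * (c + w)) :=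
      (mul_le_mul_of_nonneg_left (mul_le_mul_of_nonneg_left h3 hw.le) (norm_nonneg _)).trans h2
    have h5 : 0 < 1 + y ^ 2 := by positivity
    have h6 : ‖LT w c (σ + y * I)‖ ≤ (8 * Real.exp (σ * (c + w))) / w * (1 + y ^ 2)⁻¹ := by
      rw [← div_eq_mul_inv, le_div_iff₀ h5, le_div_iff₀ hw]
      have h7 : ‖LT w c (σ + y * I)‖ * (w * (1 + y ^ 2)) ≤
          ‖LT w c (σ + y * I)‖ * (w * (2 * y ^ 2)) :=
        mul_le_mul_of_nonneg_left (mul_le_mul_of_nonneg_left (by linarith) hw.le) (norm_nonneg _)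
      linarith
    calc ‖Φ y‖ ≤ ‖LT w c (σ + y * I)‖ * B := h y
      _ ≤ ((8 * Real.exp (σ * (c + w))) / w * (1 + y ^ 2)⁻¹) * B :=
          mul_le_mul_of_nonneg_right h6 hB
      _ = _ := by ring
  have hm : MeasurableSet ((Set.Ioc (-1 : ℝ) 1)ᶜ) := measurableSet_Ioc.compl
  have hint : Integrable fun y : ℝ => B * (8 * Real.exp (σ * (c + w))) / w * (1 + y ^ 2)⁻¹ :=
    integrable_inv_one_add_sq.const_mul _
  refine (setIntegral_mono_on hΦ.norm.integrableOn hint.integrableOn hm hpt).trans ?_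
  refine (setIntegral_le_integral hint (Filter.Eventually.of_forall fun y => ?_)).trans
    (le_of_eq ?_)
  · positivity
  · rw [integral_const_mul, integral_univ_inv_one_add_sq]
    ring

theorem GPaB_rect (y0 σ M : ℝ) (hy0 : 0 ≤ y0) (hσ : 0 ≤ σ) (Ψ : ℂ → ℂ)
    (hd : DifferentiableOn ℂ Ψ {s : ℂ | -y0 ≤ s.re ∧ s.re ≤ σ ∧ |s.im| ≤ 1})
    (hM : ∀ s : ℂ, -y0 ≤ s.re → s.re ≤ σ → |s.im| = 1 → ‖Ψ s‖ ≤ M) :
    ‖∫ y in (-1 : ℝ)..1, Ψ (σ + y * I)‖ ≤
      ‖∫ y in (-1 : ℝ)..1, Ψ ((-y0 : ℝ) + y * I)‖ + 2 * ((σ + y0) * M) := by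
  have hle : -y0 ≤ σ := by linarith
  have h1 := Complex.integral_boundary_rect_eq_zero_of_differentiableOn Ψ
    (((-y0 : ℝ) : ℂ) + ((-1 : ℝ) : ℂ) * I) ((σ : ℂ) + ((1 : ℝ) : ℂ) * I) (by
      refine hd.mono ?_
      intro s hs
      rw [Complex.mem_reProdIm] at hs
      obtain ⟨h1, h2⟩ := hs
      rw [Complex.add_re, Complex.add_re, Complex.re_ofReal_mul, Complex.re_ofReal_mul,
        Complex.I_re, mul_zero, mul_zero, add_zero, add_zero, Complex.ofReal_re,
        Complex.ofReal_re, Set.uIcc_of_le hle] at h1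
      rw [Complex.add_im, Complex.add_im, Complex.im_ofReal_mul, Complex.im_ofReal_mul,
        Complex.I_im, mul_one, mul_one, Complex.ofReal_im, Complex.ofReal_im, zero_add,
        zero_add, Set.uIcc_of_le (by norm_num)] at h2
      exact ⟨h1.1, h1.2, abs_le.mpr h2⟩)
  rw [Complex.add_re, Complex.add_re, Complex.re_ofReal_mul, Complex.re_ofReal_mul,
        Complex.I_re, mul_zero, mul_zero, add_zero, add_zero, Complex.ofReal_re,
        Complex.ofReal_re, Complex.add_im, Complex.add_im, Complex.im_ofReal_mul,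
        Complex.im_ofReal_mul, Complex.I_im, mul_one, mul_one, Complex.ofReal_im,
        Complex.ofReal_im, zero_add, zero_add] at h1
  have hbot : ‖∫ x in (-y0)..σ, Ψ (x + ((-1 : ℝ) : ℂ) * I)‖ ≤ M * |σ - -y0| := by
    refine intervalIntegral.norm_integral_le_of_norm_le_const fun x hx => ?_
    rw [Set.uIoc_of_le hle] at hx
    refine hM _ ?_ ?_ ?_
    · simp
      linarith [hx.1]
    · simpa using hx.2
    · simp
  have htop : ‖∫ x in (-y0)..σ, Ψ (x + ((1 : ℝ) : ℂ) * I)‖ ≤ M * |σ - -y0| := by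
    refine intervalIntegral.norm_integral_le_of_norm_le_const fun x hx => ?_
    rw [Set.uIoc_of_le hle] at hx
    refine hM _ ?_ ?_ ?_
    · simp
      linarith [hx.1]
    · simpa using hx.2
    · simp
  have habs : |σ - -y0| = σ + y0 := by
    rw [abs_of_nonneg (by linarith)]
    ring
  rw [habs] at hbot htop
  have h2 : I • (∫ y in (-1 : ℝ)..1, Ψ (σ + y * I)) =
      I • (∫ y in (-1 : ℝ)..1, Ψ ((-y0 : ℝ) + y * I)) -
        (∫ x in (-y0)..σ, Ψ (x + ((-1 : ℝ) : ℂ) * I)) +
        ∫ x in (-y0)..σ, Ψ (x + ((1 : ℝ) : ℂ) * I) := by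
    linear_combination h1
  have h3 : ‖I • (∫ y in (-1 : ℝ)..1, Ψ (σ + y * I))‖ =
      ‖∫ y in (-1 : ℝ)..1, Ψ (σ + y * I)‖ := by
    rw [norm_smul, Complex.norm_I, one_mul]
  rw [← h3, h2]
  refine (norm_add_le _ _).trans ?_
  refine (add_le_add_left (norm_sub_le _ _) _).trans ?_
  rw [norm_smul, Complex.norm_I, one_mul]
  linarith

theorem GPaB_main (z σ t w c β : ℝ) {q : ℕ} (ψ : DirichletCharacter ℂ q) (P0 P1 : Prop)
    [Decidable P0] [Decidable P1] (hσ : 0 < σ)
    (hw : 0 < w) (hc : w ≤ c) (hβ : β ≤ 1) (N : ℕ) (hN : c + w ≤ Real.log N)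
    (hs : Summable (fun n : ℕ => ArithmeticFunction.vonMangoldt n * ((n : ℝ) ^ (-(1 + σ))))) :
    (∑ n ∈ Icc 1 N, ((ArithmeticFunction.vonMangoldt n * rh z n *
              tent ((Real.log n - c) / w) / n : ℝ) : ℂ) * ψ (n : ZMod q) * nit n t) -
            (if P0 then osc (fun v => tent ((v - c) / w)) t else 0) +
            (if P1 then
              osc (fun v => tent ((v - c) / w) * Real.exp (-(1 - β) * v)) t else 0) =
      (1 / (2 * Real.pi) : ℂ) * ∫ y : ℝ, LT w c (σ + y * I) *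
        (Dz z ψ (1 + t * I + (σ + y * I)) -
          (if P0 then 1 / ((1 + t * I + (σ + y * I)) - 1) else 0) +
          (if P1 then 1 / ((1 + t * I + (σ + y * I)) - β) else 0)) ∧
    Integrable (fun y : ℝ => LT w c (σ + y * I) *
        (Dz z ψ (1 + t * I + (σ + y * I)) -
          (if P0 then 1 / ((1 + t * I + (σ + y * I)) - 1) else 0) +
          (if P1 then 1 / ((1 + t * I + (σ + y * I)) - β) else 0))) ∧
    ∀ y : ℝ, ‖(Dz z ψ (1 + t * I + (σ + y * I)) -
          (if P0 then 1 / ((1 + t * I + (σ + y * I)) - 1) else 0) +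
          (if P1 then 1 / ((1 + t * I + (σ + y * I)) - β) else 0))‖ ≤
      (∑' n : ℕ, ArithmeticFunction.vonMangoldt n * ((n : ℝ) ^ (-(1 + σ)))) + 1 / σ + 1 / σ := by
  obtain ⟨hint, hα, -⟩ := LT_inv w c σ hw hc hσ
  obtain ⟨hDc, hDb⟩ := GPaB_line z σ t ψ hs
  -- the poles
  have hpole : ∀ (b : ℝ) (y : ℝ), b ≤ 1 →
      (1 + t * I + (σ + y * I) : ℂ) - b ≠ 0 ∧ ‖1 / ((1 + t * I + (σ + y * I) : ℂ) - b)‖ ≤ 1 / σ := by
    intro b y hb
    have h1 : ((1 + t * I + (σ + y * I) : ℂ) - b).re = 1 + σ - b := by simp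
    have h2 : σ ≤ ‖(1 + t * I + (σ + y * I) : ℂ) - b‖ := by
      refine le_trans ?_ (Complex.re_le_norm _)
      rw [h1]
      linarith
    refine ⟨norm_pos_iff.mp (lt_of_lt_of_le hσ h2), ?_⟩
    rw [norm_div, norm_one]
    exact one_div_le_one_div_of_le hσ h2
  have hpc : ∀ b : ℝ, b ≤ 1 → Continuous fun y : ℝ => 1 / ((1 + t * I + (σ + y * I) : ℂ) - b) := by
    intro b hb
    refine continuous_const.div (by fun_prop) fun y => (hpole b y hb).1
  have hσ1 : 0 ≤ 1 / σ := by positivity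
  -- the two pole functions
  have hi0 : Integrable (fun y : ℝ => LT w c (σ + y * I) *
      (if P0 then 1 / ((1 + t * I + (σ + y * I) : ℂ) - 1) else 0)) ∧
      (if P0 then osc (fun v => tent ((v - c) / w)) t else 0) =
      (1 / (2 * Real.pi) : ℂ) * ∫ y : ℝ, LT w c (σ + y * I) *
        (if P0 then 1 / ((1 + t * I + (σ + y * I) : ℂ) - 1) else 0) := by
    by_cases h : P0
    · simp only [if_pos h]
      have h1 := hpc 1 le_rfl
      rw [Complex.ofReal_one] at h1
      refine ⟨hint.mul_bdd (c := 1 / σ) h1.aestronglyMeasurable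
        (Filter.Eventually.of_forall fun y => ?_), ?_⟩
      · have h2 := (hpole 1 y le_rfl).2
        rwa [Complex.ofReal_one] at h2
      · have h2 := hα (t * I) (by simp)
        have h3 : ∫ y : ℝ, LT w c (σ + y * I) * (1 / ((1 + t * I + (σ + y * I) : ℂ) - 1)) =
            ∫ y : ℝ, LT w c (σ + y * I) / (σ + y * I + t * I) := by
          refine integral_congr_ae (Filter.Eventually.of_forall fun y => ?_)
          beta_reduce
          rw [mul_one_div]
          congr 1
          ring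
        rw [h3, h2]
        unfold osc
        refine integral_congr_ae (Filter.Eventually.of_forall fun v => ?_)
        beta_reduce
        congr 2
        push_cast
        ring
    · simp only [if_neg h, mul_zero, integral_zero]
      exact ⟨integrable_zero _ _ _, trivial⟩
  have hi1 : Integrable (fun y : ℝ => LT w c (σ + y * I) *
      (if P1 then 1 / ((1 + t * I + (σ + y * I) : ℂ) - β) else 0)) ∧
      (if P1 then osc (fun v => tent ((v - c) / w) * Real.exp (-(1 - β) * v)) t else 0) =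
      (1 / (2 * Real.pi) : ℂ) * ∫ y : ℝ, LT w c (σ + y * I) *
        (if P1 then 1 / ((1 + t * I + (σ + y * I) : ℂ) - β) else 0) := by
    by_cases h : P1
    · simp only [if_pos h]
      refine ⟨hint.mul_bdd (c := 1 / σ) (hpc β hβ).aestronglyMeasurable
        (Filter.Eventually.of_forall fun y => (hpole β y hβ).2), ?_⟩
      have h2 := hα ((1 - β : ℝ) + t * I) (by simpa using hβ)
      have h3 : ∫ y : ℝ, LT w c (σ + y * I) * (1 / ((1 + t * I + (σ + y * I) : ℂ) - β)) =
          ∫ y : ℝ, LT w c (σ + y * I) / (σ + y * I + ((1 - β : ℝ) + t * I)) := by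
        refine integral_congr_ae (Filter.Eventually.of_forall fun y => ?_)
        beta_reduce
        rw [mul_one_div]
        congr 1
        push_cast
        ring
      rw [h3, h2]
      unfold osc
      refine integral_congr_ae (Filter.Eventually.of_forall fun v => ?_)
      beta_reduce
      rw [Complex.ofReal_mul, Complex.ofReal_exp, mul_assoc, ← Complex.exp_add]
      congr 2
      push_cast
      ring
    · simp only [if_neg h, mul_zero, integral_zero]
      exact ⟨integrable_zero _ _ _, trivial⟩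
  have hiD : Integrable (fun y : ℝ => LT w c (σ + y * I) * Dz z ψ (1 + t * I + (σ + y * I))) :=
    hint.mul_bdd hDc.aestronglyMeasurable (Filter.Eventually.of_forall hDb)
  have hsplit : ∀ y : ℝ, LT w c (σ + y * I) * (Dz z ψ (1 + t * I + (σ + y * I)) -
          (if P0 then 1 / ((1 + t * I + (σ + y * I)) - 1) else 0) +
          (if P1 then 1 / ((1 + t * I + (σ + y * I)) - β) else 0)) =
      LT w c (σ + y * I) * Dz z ψ (1 + t * I + (σ + y * I)) -
        LT w c (σ + y * I) * (if P0 then 1 / ((1 + t * I + (σ + y * I)) - 1) else 0) +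
        LT w c (σ + y * I) * (if P1 then 1 / ((1 + t * I + (σ + y * I)) - β) else 0) := by
    intro y
    ring
  refine ⟨?_, ?_, ?_⟩
  · rw [GPaB_series z σ t w c ψ hσ hw hc N hN hs, hi0.2, hi1.2]
    simp only [hsplit]
    rw [integral_add (f := fun y : ℝ => LT w c (σ + y * I) * Dz z ψ (1 + t * I + (σ + y * I)) -
        LT w c (σ + y * I) * (if P0 then 1 / ((1 + t * I + (σ + y * I)) - 1) else 0))
      (hiD.sub hi0.1) hi1.1, integral_sub hiD hi0.1]
    ring
  · simp only [hsplit]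
    exact (hiD.sub hi0.1).add hi1.1
  · intro y
    refine (norm_add_le _ _).trans (add_le_add ((norm_sub_le _ _).trans (add_le_add (hDb y) ?_)) ?_)
    · split_ifs
      · have h2 := (hpole 1 y le_rfl).2
        rwa [Complex.ofReal_one] at h2
      · rw [norm_zero]
        exact hσ1
    · split_ifs
      · exact (hpole β y hβ).2
      · rw [norm_zero]
        exact hσ1

/-- **One tent.** `c₂`, `C` do not depend on `d`.

Proof. Let `L = d log Y`, `D` the series `Dz (Y ^ d) i.2`, `σ = 1 / log Y`. By `LT_inv` (and summation, absolutely convergent) the sum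
over `n` is `(1 / 2 π) ∫ LT (σ + i y) D (1 + i t + σ + i y) dy`. Insert `Zth`: on the line `D = pole + dd` for `|y| ≤ 1`, and for
`|y| > 1` `|D| ≤ 2 log Y`, `|pole| ≤ 2 log Y` trivially. The integrals of the poles over the whole line are the main terms
(`LT_inv` with `α = i t`, `α = 1 - β + i t`). The rest for `|y| ≤ 1` is moved to `re = - y₀`, `y₀ = c / (2 L)` (Cauchy's
theorem on the rectangle, `LT_props`): at most
`C L exp (- y₀ (c' - w)) ∫ min (w, 4 / (w y ^ 2)) dy + C (σ + y₀) L / w`, and the part `|y| > 1` is at most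
`C log Y / w`. -/
theorem tent_block : ∃ c₂ C : ℝ, 0 < c₂ ∧ 0 < C ∧ ∀ d : ℝ, 0 < d → d ≤ 1 → ∃ δ Y₀ : ℝ, 0 < δ ∧ δ < d ∧ 3 ≤ Y₀ ∧
    ∀ Y : ℝ, Y₀ ≤ Y → ∃ (i1 : CC) (β : ℝ), 1 / 2 ≤ β ∧ β ≤ 1 ∧
      (i1 ∈ CR ⌊Y ^ δ⌋₊ → 1 < i1.1 ∧ ∀ n : ℕ, (i1.2 (n : ZMod i1.1)).im = 0) ∧
      ∀ i ∈ CR ⌊Y ^ δ⌋₊, ∀ (t w c : ℝ) (N : ℕ), |t| ≤ Y ^ (3 / 2 : ℝ) → 1 ≤ w → w ≤ c →
        c + w ≤ 10 * Real.log Y → Y ^ 10 ≤ N →
        ‖(∑ n ∈ Icc 1 N, ((ArithmeticFunction.vonMangoldt n * rh (Y ^ d) n *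
              tent ((Real.log n - c) / w) / n : ℝ) : ℂ) * i.2 (n : ZMod i.1) * nit n t) -
            (open Classical in if i = i0 then osc (fun v => tent ((v - c) / w)) t else 0) +
            (open Classical in if i = i1 then
              osc (fun v => tent ((v - c) / w) * Real.exp (-(1 - β) * v)) t else 0)‖ ≤
          C * (d * Real.log Y * Real.exp (-c₂ * (c - w) / (d * Real.log Y)) + Real.log Y / w) := by
  classical
  obtain ⟨κ, B, hκ, hκ1, hB, hZ⟩ := Zth
  obtain ⟨K, hK, hlam⟩ := GPaB_lam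
  have hpi := Real.pi_pos
  have he5 := Real.exp_pos 5
  refine ⟨κ / 2, 5 * Real.pi * B + 8 * Real.exp 5 * B +
    (K + 2) * (2 / κ) * (8 * Real.pi * Real.exp 5), by linarith, by positivity, ?_⟩
  intro d hd hd1
  obtain ⟨δ, Y0, hδ, hδd, hY0, h1⟩ := hZ d hd hd1
  refine ⟨δ, max Y0 (Real.exp (1 / d)), hδ, hδd, hY0.trans (le_max_left _ _), ?_⟩
  intro Y hY
  have hYY0 : Y0 ≤ Y := (le_max_left _ _).trans hY
  have hYe : Real.exp (1 / d) ≤ Y := (le_max_right _ _).trans hY
  have hYpos : 0 < Y := by linarith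
  have hL1 : 1 ≤ d * Real.log Y := by
    have h2 : 1 / d ≤ Real.log Y := (Real.le_log_iff_exp_le hYpos).mpr hYe
    rw [div_le_iff₀ hd] at h2
    linarith
  have hL0 : 0 < d * Real.log Y := by linarith
  have hlog0 : 0 < Real.log Y := by
    by_contra hcon
    have : d * Real.log Y ≤ 0 := mul_nonpos_of_nonneg_of_nonpos hd.le (not_lt.mp hcon)
    linarith
  have hLlog : d * Real.log Y ≤ Real.log Y := by
    have := mul_le_mul_of_nonneg_right hd1 hlog0.le
    linarith
  have hlog1 : 1 ≤ Real.log Y := hL1.trans hLlog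
  obtain ⟨i1, β, hβ1, hβ2, hi1, h2⟩ := h1 Y hYY0
  refine ⟨i1, β, hβ1, hβ2, hi1, ?_⟩
  intro i hi t w c N ht hw1 hwc hcw hN
  obtain ⟨dd, hddd, hdd⟩ := h2 i hi
  have hw0 : 0 < w := by linarith
  obtain ⟨L, hLdef⟩ : ∃ L : ℝ, L = d * Real.log Y := ⟨_, rfl⟩
  rw [← hLdef] at hL1 hL0 hLlog hddd hdd ⊢
  -- the line of integration
  obtain ⟨σ, hσdef⟩ : ∃ σ : ℝ, σ = κ / (2 * Real.log Y) := ⟨_, rfl⟩
  obtain ⟨y0, hy0def⟩ : ∃ y0 : ℝ, y0 = κ / (2 * L) := ⟨_, rfl⟩
  have hσ0 : 0 < σ := by rw [hσdef]; positivity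
  have hy00 : 0 < y0 := by rw [hy0def]; positivity
  have hσy : σ ≤ y0 := by
    rw [hσdef, hy0def]
    exact div_le_div_of_nonneg_left hκ.le (by linarith) (by linarith)
  have hyκ : y0 < κ / L := by
    rw [hy0def]
    exact div_lt_div_of_pos_left hκ hL0 (by linarith)
  have hσ1 : σ ≤ 1 := by
    rw [hσdef, div_le_one (by linarith)]
    linarith
  have hσlog : σ * Real.log Y = κ / 2 := by
    rw [hσdef]
    field_simp
  have hyL : y0 * L = κ / 2 := by
    rw [hy0def]
    field_simp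
  have hσL : σ * L ≤ κ / 2 := by
    rw [← hyL]
    exact mul_le_mul_of_nonneg_right hσy hL0.le
  have hσcw : σ * (c + w) ≤ 5 := by
    calc σ * (c + w) ≤ σ * (10 * Real.log Y) := mul_le_mul_of_nonneg_left hcw hσ0.le
      _ = 10 * (σ * Real.log Y) := by ring
      _ ≤ 5 := by rw [hσlog]; linarith
  obtain ⟨hsum, hsumK⟩ := hlam σ hσ0 hσ1
  have hNlog : c + w ≤ Real.log N := by
    have h3 : Real.log (Y ^ 10) ≤ Real.log N := Real.log_le_log (by positivity) hN
    rw [Real.log_pow] at h3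
    push_cast at h3
    linarith
  obtain ⟨hm1, hm2, hm3⟩ := GPaB_main (Y ^ d) σ t w c β i.2 (i = i0) (i = i1) hσ0 hw0 hwc hβ2 N
    hNlog hsum
  have hconv : ∀ (a b : ℂ) (P : Prop) [i1 : Decidable P] [i2 : Decidable P],
      (@ite ℂ P i1 a b) = (@ite ℂ P i2 a b) := by
    intro a b P i1 i2
    by_cases h : P
    · rw [if_pos h, if_pos h]
    · rw [if_neg h, if_neg h]
  have hgoal : ‖(∑ n ∈ Icc 1 N, ((ArithmeticFunction.vonMangoldt n * rh (Y ^ d) n *
              tent ((Real.log n - c) / w) / n : ℝ) : ℂ) * i.2 (n : ZMod i.1) * nit n t) -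
            (if i = i0 then osc (fun v => tent ((v - c) / w)) t else 0) +
            (if i = i1 then
              osc (fun v => tent ((v - c) / w) * Real.exp (-(1 - β) * v)) t else 0)‖ ≤
          (5 * Real.pi * B + 8 * Real.exp 5 * B +
    (K + 2) * (2 / κ) * (8 * Real.pi * Real.exp 5)) *
            (L * Real.exp (-(κ / 2) * (c - w) / L) + Real.log Y / w) := by
    rw [hm1, norm_mul]
    have hpi2 : ‖(1 / (2 * Real.pi) : ℂ)‖ ≤ 1 := by
      rw [norm_div, norm_one, norm_mul, Complex.norm_real, Real.norm_of_nonneg hpi.le,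
        Complex.norm_ofNat, div_le_one (by positivity)]
      linarith [Real.pi_gt_three]
    refine (mul_le_mul_of_nonneg_right hpi2 (norm_nonneg _)).trans ?_
    rw [one_mul]
    -- name the integrand
    obtain ⟨R, hR⟩ : ∃ R : ℝ → ℂ, ∀ y : ℝ, R y = (Dz (Y ^ d) i.2 (1 + t * I + (σ + y * I)) -
          (if i = i0 then 1 / ((1 + t * I + (σ + y * I)) - 1) else 0) +
          (if i = i1 then 1 / ((1 + t * I + (σ + y * I)) - β) else 0)) := ⟨_, fun _ => rfl⟩
    simp only [← hR] at hm2 hm3 ⊢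
    have hRb : ∀ y, ‖R y‖ ≤ (K + 2) / σ := by
      intro y
      refine (hm3 y).trans ?_
      have h3 : (K + 2) / σ = K / σ + 1 / σ + 1 / σ := by ring
      rw [h3]
      linarith
    have hsplit : ∫ y : ℝ, LT w c (σ + y * I) * R y =
        (∫ y in Set.Ioc (-1 : ℝ) 1, LT w c (σ + y * I) * R y) +
          ∫ y in (Set.Ioc (-1 : ℝ) 1)ᶜ, LT w c (σ + y * I) * R y :=
      (integral_add_compl measurableSet_Ioc hm2).symm
    rw [hsplit]
    refine (norm_add_le _ _).trans ?_
    -- the tail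
    have htail : ‖∫ y in (Set.Ioc (-1 : ℝ) 1)ᶜ, LT w c (σ + y * I) * R y‖ ≤
        (K + 2) * (2 / κ) * (8 * Real.pi * Real.exp 5) * (Real.log Y / w) := by
      refine (norm_integral_le_integral_norm _).trans ?_
      refine (GPaB_tail w c σ ((K + 2) / σ) hw0 hwc hσ0.le (by positivity) _ hm2 (fun y => by
        rw [norm_mul]
        exact mul_le_mul_of_nonneg_left (hRb y) (norm_nonneg _))).trans ?_
      have h3 : (K + 2) / σ = (K + 2) * (2 / κ) * Real.log Y := by
        rw [hσdef]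
        field_simp
      rw [h3]
      have h4 : Real.exp (σ * (c + w)) ≤ Real.exp 5 := Real.exp_le_exp.mpr hσcw
      calc (K + 2) * (2 / κ) * Real.log Y * (8 * Real.pi * Real.exp (σ * (c + w))) / w
          ≤ (K + 2) * (2 / κ) * Real.log Y * (8 * Real.pi * Real.exp 5) / w := by
            refine div_le_div_of_nonneg_right ?_ hw0.le
            refine mul_le_mul_of_nonneg_left ?_ (by positivity)
            exact mul_le_mul_of_nonneg_left h4 (by positivity)
        _ = _ := by ring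
    -- the central part
    have hcen : ‖∫ y in Set.Ioc (-1 : ℝ) 1, LT w c (σ + y * I) * R y‖ ≤
        5 * Real.pi * B * (L * Real.exp (-(κ / 2) * (c - w) / L)) +
          8 * Real.exp 5 * B * (Real.log Y / w) := by
      obtain ⟨Ψ, hΨ⟩ : ∃ Ψ : ℂ → ℂ, ∀ s, Ψ s = LT w c s * dd (1 + t * I + s) := ⟨_, fun _ => rfl⟩
      have hΨf : Ψ = fun s => LT w c s * dd (1 + t * I + s) := funext hΨ
      have hreg : ∀ s : ℂ, -y0 ≤ s.re → s.re ≤ σ → |s.im| ≤ 1 →
          |(1 + t * I + s : ℂ).re - 1| < κ / L ∧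
          |(1 + t * I + s : ℂ).im| < Y ^ (3 / 2 : ℝ) + 2 := by
        intro s h3 h4 h5
        have e1 : (1 + t * I + s : ℂ).re - 1 = s.re := by simp
        have e2 : (1 + t * I + s : ℂ).im = t + s.im := by simp
        rw [e1, e2]
        refine ⟨?_, ?_⟩
        · rw [abs_lt]
          constructor <;> linarith
        · have := abs_add_le t s.im
          linarith
      have hR2 : ∀ y : ℝ, |y| ≤ 1 → LT w c (σ + y * I) * R y = Ψ (σ + y * I) := by
        intro y hy
        rw [hR, hΨ]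
        congr 1
        have hre : (((σ : ℝ) : ℂ) + y * I).re = σ := by simp
        have him : (((σ : ℝ) : ℂ) + y * I).im = y := by simp
        obtain ⟨h3, h4⟩ := hreg (σ + y * I) (by rw [hre]; linarith) (by rw [hre]) (by rw [him]; exact hy)
        have h5 := (hdd _ h3 h4).2 (by
          have e1 : (1 + t * I + (σ + y * I) : ℂ).re = 1 + σ := by simp
          rw [e1]
          linarith)
        rw [h5]
        rw [hconv (1 / ((1 + t * I + (σ + y * I) : ℂ) - 1)) 0 (i = i0),
          hconv (1 / ((1 + t * I + (σ + y * I) : ℂ) - β)) 0 (i = i1)]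
        ring
      have h3 : ∫ y in Set.Ioc (-1 : ℝ) 1, LT w c (σ + y * I) * R y =
          ∫ y in (-1 : ℝ)..1, Ψ (σ + y * I) := by
        rw [intervalIntegral.integral_of_le (by norm_num)]
        refine setIntegral_congr_fun measurableSet_Ioc fun y hy => ?_
        exact hR2 y (abs_le.mpr ⟨hy.1.le, hy.2⟩)
      rw [h3]
      obtain ⟨hLTd, hLTb⟩ := LT_props w c hw0 hwc
      have hopen : IsOpen {s : ℂ | |s.re - 1| < κ / L ∧ |s.im| < Y ^ (3 / 2 : ℝ) + 2} :=
        GZd_open _ _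
      have hΨd : DifferentiableOn ℂ Ψ {s : ℂ | -y0 ≤ s.re ∧ s.re ≤ σ ∧ |s.im| ≤ 1} := by
        rw [hΨf]
        refine hLTd.differentiableOn.mul (hddd.comp (by fun_prop) ?_)
        rintro s ⟨h4, h5, h6⟩
        exact hreg s h4 h5 h6
      have hΨM : ∀ s : ℂ, -y0 ≤ s.re → s.re ≤ σ → |s.im| = 1 →
          ‖Ψ s‖ ≤ 4 * Real.exp 5 / w * (B * L) := by
        intro s h4 h5 h6
        obtain ⟨h7, h8⟩ := hreg s h4 h5 h6.le
        rw [hΨ, norm_mul]
        refine mul_le_mul ?_ (hdd _ h7 h8).1 (norm_nonneg _) (by positivity)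
        obtain ⟨-, h9⟩ := hLTb s
        have h10 : 1 ≤ ‖s‖ ^ 2 := by
          have h11 := Complex.abs_im_le_norm s
          rw [h6] at h11
          nlinarith
        have h12 : s.re * c + |s.re| * w ≤ 5 := by
          rcases le_or_gt 0 s.re with h13 | h13
          · rw [abs_of_nonneg h13]
            calc s.re * c + s.re * w = s.re * (c + w) := by ring
              _ ≤ σ * (c + w) := mul_le_mul_of_nonneg_right h5 (by linarith)
              _ ≤ 5 := hσcw
          · rw [abs_of_neg h13]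
            have h14 : s.re * (c - w) ≤ 0 :=
              mul_nonpos_of_nonpos_of_nonneg h13.le (by linarith)
            linarith
        have h15 : Real.exp (s.re * c + |s.re| * w) ≤ Real.exp 5 := Real.exp_le_exp.mpr h12
        rw [le_div_iff₀ hw0]
        have h16 : ‖LT w c s‖ * (w * 1) ≤ ‖LT w c s‖ * (w * ‖s‖ ^ 2) :=
          mul_le_mul_of_nonneg_left (mul_le_mul_of_nonneg_left h10 hw0.le) (norm_nonneg _)
        linarith
      refine (GPaB_rect y0 σ _ hy00.le hσ0.le Ψ hΨd hΨM).trans ?_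
      have hleft : ‖∫ y in (-1 : ℝ)..1, Ψ ((-y0 : ℝ) + y * I)‖ ≤
          5 * Real.pi * B * (L * Real.exp (-(κ / 2) * (c - w) / L)) := by
        have h4 : ‖∫ y in (-1 : ℝ)..1, Ψ ((-y0 : ℝ) + y * I)‖ ≤
            ∫ y in (-1 : ℝ)..1, ‖LT w c ((-y0 : ℝ) + y * I)‖ * (B * L) := by
          refine intervalIntegral.norm_integral_le_of_norm_le (by norm_num)
            (Filter.Eventually.of_forall fun y hy => ?_) ?_
          · have hre : (((-y0 : ℝ) : ℂ) + y * I).re = -y0 := by simp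
            have him : (((-y0 : ℝ) : ℂ) + y * I).im = y := by simp
            obtain ⟨h7, h8⟩ := hreg ((-y0 : ℝ) + y * I) (by rw [hre]) (by rw [hre]; linarith)
              (by rw [him]; exact abs_le.mpr ⟨hy.1.le, hy.2⟩)
            rw [hΨ, norm_mul]
            exact mul_le_mul_of_nonneg_left (hdd _ h7 h8).1 (norm_nonneg _)
          · have h1 : Continuous fun y : ℝ => (((-y0 : ℝ) : ℂ) + y * I) := by fun_prop
            exact ((hLTd.continuous.comp h1).norm.mul continuous_const).intervalIntegrable _ _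
        refine h4.trans ?_
        rw [intervalIntegral.integral_mul_const]
        refine (mul_le_mul_of_nonneg_right (GPaB_left w c y0 hw0 hwc hy00.le)
          (by positivity)).trans (le_of_eq ?_)
        have h5 : -y0 * (c - w) = -(κ / 2) * (c - w) / L := by
          rw [hy0def]
          field_simp
        rw [h5]
        ring
      have hside : 2 * ((σ + y0) * (4 * Real.exp 5 / w * (B * L))) ≤
          8 * Real.exp 5 * B * (Real.log Y / w) := by
        have h4 : (σ + y0) * L ≤ Real.log Y := by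
          rw [add_mul, hyL]
          linarith
        calc 2 * ((σ + y0) * (4 * Real.exp 5 / w * (B * L)))
            = 8 * Real.exp 5 * B / w * ((σ + y0) * L) := by ring
          _ ≤ 8 * Real.exp 5 * B / w * Real.log Y := mul_le_mul_of_nonneg_left h4 (by positivity)
          _ = _ := by ring
      linarith
    have hX : 0 ≤ L * Real.exp (-(κ / 2) * (c - w) / L) := by positivity
    have hW : 0 ≤ Real.log Y / w := by positivity
    have hk1 : 0 ≤ 8 * Real.exp 5 * B * (L * Real.exp (-(κ / 2) * (c - w) / L)) := by positivity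
    have hk2 : 0 ≤ (K + 2) * (2 / κ) * (8 * Real.pi * Real.exp 5) *
        (L * Real.exp (-(κ / 2) * (c - w) / L)) := by positivity
    have hk3 : 0 ≤ 5 * Real.pi * B * (Real.log Y / w) := by positivity
    have hk4 : (5 * Real.pi * B + 8 * Real.exp 5 * B +
        (K + 2) * (2 / κ) * (8 * Real.pi * Real.exp 5)) *
            (L * Real.exp (-(κ / 2) * (c - w) / L) + Real.log Y / w) =
        5 * Real.pi * B * (L * Real.exp (-(κ / 2) * (c - w) / L)) +
        8 * Real.exp 5 * B * (L * Real.exp (-(κ / 2) * (c - w) / L)) +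
        (K + 2) * (2 / κ) * (8 * Real.pi * Real.exp 5) *
          (L * Real.exp (-(κ / 2) * (c - w) / L)) +
        5 * Real.pi * B * (Real.log Y / w) + 8 * Real.exp 5 * B * (Real.log Y / w) +
        (K + 2) * (2 / κ) * (8 * Real.pi * Real.exp 5) * (Real.log Y / w) := by ring
    rw [hk4]
    linarith
  convert hgoal using 4

end Pool.Agent.M58
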