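import Pool.Agent.W_b58c63_m1.HKer

/-!
# Mean squares over small sets: rough polynomials (helper68)
-/

set_option autoImplicit false

noncomputable section

open Finset MeasureTheory

namespace Pool.Agent.M58

/-- **Mean square of a polynomial supported on rough integers, over a small set.**

Proof. `halasz` with `ν (n) = tp' z bb n * Wm A m (log n) / n`, `A = b log Y / 4`, `m = ⌈24 / b⌉ + 1` (so `m A ≥ 6 log Y`, and
`2 A ≤ b log Y`), `bb = 1`, `z = Y ^ (b / 72)` (`z ^ 9 = Y ^ (b / 8)`), `S` the set of the `n` with `ν (n) > 0` up to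
`exp ((m + 1) A) + 1`. On the support of `a` one has `rh z n = 1`, so `ν (n) ≥ 1 / n` and
`∑ |a n / n| ^ 2 / ν n ≤ ∑ a n ^ 2 / n`. By `kernel` `Λ = C' / log Y + V Y ^ (- κ')` with the total measure `V ≤ Y ^ κ`:
take `κ < κ' / 2`. (`Mp_bounds`, `∫ ‖osc (Wm A m)‖ ≤ 2 π m`.) -/
theorem l2_rough (b : ℝ) (hb : 0 < b) (hb1 : b ≤ 1) : ∃ κ δ C Y₀ : ℝ, 0 < κ ∧ 0 < δ ∧ 0 < C ∧ 3 ≤ Y₀ ∧
    ∀ (Y : ℝ) (E : CC → Set ℝ) (N : ℕ) (a : ℕ → ℝ), Y₀ ≤ Y → Fam ⌊Y ^ δ⌋₊ (Y ^ 2) (Y ^ κ) E →
      (∀ n, a n ≠ 0 → Y ^ b ≤ n ∧ (n : ℝ) ≤ Y ^ 6 ∧ rh (Y ^ b) n = 1) →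
        ∑ i ∈ CR ⌊Y ^ δ⌋₊, ∫ t in E i, ‖DP N a i.2 t‖ ^ 2 ≤
          C / Real.log Y * ∑ n ∈ Icc 1 N, a n ^ 2 / n := by
  classical
  obtain ⟨κ', δ, hκ', hδ, hK0⟩ := kernel b hb hb1
  obtain ⟨Y₁, hY₁, hK⟩ := hK0 (b / 72) (by positivity)
  obtain ⟨C₁, hC₁, hM⟩ := Mp_bounds
  obtain ⟨m, hm⟩ : ∃ m : ℕ, m = ⌈24 / b⌉₊ + 1 := ⟨_, rfl⟩
  have hb24 : 0 < 24 / b := by positivity
  have hm2 : 2 ≤ m := by
    have h1 : 0 < ⌈24 / b⌉₊ := Nat.ceil_pos.2 hb24
    omega
  have hmlo : 24 / b + 1 ≤ (m : ℝ) := by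
    rw [hm]
    push_cast
    linarith [Nat.le_ceil (24 / b)]
  have hmhi : (m : ℝ) ≤ 100 / b := by
    have h1 : (⌈24 / b⌉₊ : ℝ) < 24 / b + 1 := Nat.ceil_lt_add_one hb24.le
    have h2 : 1 ≤ 1 / b := by
      rw [le_div_iff₀ hb]
      linarith
    have h3 : 100 / b = 24 / b + 76 * (1 / b) := by ring
    rw [hm]
    push_cast
    linarith
  have hmpos : (0 : ℝ) < m := by
    have : 0 < m := by omega
    exact_mod_cast this
  refine ⟨κ' / 2, δ, C₁ * (72 / b) * (2 * Real.pi * m) + 2 / κ', max Y₁ (2 ^ (72 / b)), by positivity,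
    hδ, by positivity, le_trans hY₁ (le_max_left _ _), ?_⟩
  intro Y E N a hY hE ha
  have hY1 : Y₁ ≤ Y := (le_max_left _ _).trans hY
  have hY2 : (2 : ℝ) ^ (72 / b) ≤ Y := (le_max_right _ _).trans hY
  have hY3 : 3 ≤ Y := hY₁.trans hY1
  have hY0 : 0 < Y := by linarith
  have hlY : 0 < Real.log Y := Real.log_pos (by linarith)
  obtain ⟨z, hz⟩ : ∃ z : ℝ, z = Y ^ (b / 72) := ⟨_, rfl⟩
  obtain ⟨A, hA⟩ : ∃ A : ℝ, A = b * Real.log Y / 4 := ⟨_, rfl⟩
  have hA0 : 0 < A := by rw [hA]; positivity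
  have hz2 : 2 ≤ z := by
    have h1 : ((2 : ℝ) ^ (72 / b)) ^ (b / 72) ≤ Y ^ (b / 72) :=
      Real.rpow_le_rpow (by positivity) hY2 (by positivity)
    rw [← Real.rpow_mul (by norm_num)] at h1
    have h2 : 72 / b * (b / 72) = 1 := by field_simp
    rw [h2, Real.rpow_one] at h1
    rw [hz]
    exact h1
  have hlz : Real.log z = b / 72 * Real.log Y := by rw [hz, Real.log_rpow hY0]
  have hz9 : z ^ (4 * 1 + 5) ≤ Y ^ (b / 8) := by
    rw [hz, ← Real.rpow_natCast, ← Real.rpow_mul hY0.le]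
    refine le_of_eq ?_
    congr 1
    push_cast
    ring
  obtain ⟨N', hN'⟩ : ∃ N' : ℕ, N' = ⌈Real.exp ((m + 1) * A)⌉₊ := ⟨_, rfl⟩
  have hN'1 : Real.exp ((m + 1) * A) ≤ (N' : ℝ) := by
    rw [hN']
    exact Nat.le_ceil _
  have hN'l : ((m : ℝ) + 1) * (b * Real.log Y / 4) ≤ Real.log N' := by
    rw [← hA, ← Real.log_exp (((m : ℝ) + 1) * A)]
    exact Real.log_le_log (Real.exp_pos _) hN'1
  have hmA : 6 * Real.log Y ≤ m * A := by
    have h1 : (24 / b) * A ≤ m * A := mul_le_mul_of_nonneg_right (by linarith) hA0.le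
    have h2 : (24 / b) * A = 6 * Real.log Y := by
      rw [hA]
      field_simp
      ring
    linarith
  obtain ⟨hW01, hW1, -, -, -, hWi, hWI⟩ := Wm_props A m hA0 hm2
  obtain ⟨hE1, hE2⟩ := hE
  -- the majorant
  obtain ⟨ν, hν⟩ : ∃ ν : ℕ → ℝ, ∀ n, ν n = tp' z 1 n * Wm A m (Real.log n) / n := ⟨_, fun _ => rfl⟩
  have hν0 : ∀ n ∈ Icc 1 N', 0 ≤ ν n := by
    intro n hn
    rw [Finset.mem_Icc] at hn
    rw [hν]
    exact div_nonneg (mul_nonneg (rh_bounds z hz2 1 n hn.1).2.2 (hW01 _).1) (Nat.cast_nonneg n)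
  have hν1 : ∀ n, a n ≠ 0 → n ∈ Icc 1 N' ∧ 1 / (n : ℝ) ≤ ν n := by
    intro n hn
    obtain ⟨h1, h2, h3⟩ := ha n hn
    have hn0 : 0 < (n : ℝ) := lt_of_lt_of_le (Real.rpow_pos_of_pos hY0 b) h1
    have hn1 : 1 ≤ n := by
      have : 0 < n := by exact_mod_cast hn0
      omega
    have hlog6 : Real.log n ≤ 6 * Real.log Y := by
      have h4 := Real.log_le_log hn0 h2
      rw [Real.log_pow] at h4
      push_cast at h4
      exact h4
    have hlogb : b * Real.log Y ≤ Real.log n := by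
      have h4 := Real.log_le_log (Real.rpow_pos_of_pos hY0 b) h1
      rw [Real.log_rpow hY0] at h4
      exact h4
    refine ⟨?_, ?_⟩
    · rw [Finset.mem_Icc]
      refine ⟨hn1, ?_⟩
      have h5 : (n : ℝ) ≤ N' := by
        refine le_trans ?_ hN'1
        rw [← Real.exp_log hn0]
        refine Real.exp_le_exp.2 ?_
        nlinarith
      exact_mod_cast h5
    · rw [hν]
      refine div_le_div_of_nonneg_right ?_ hn0.le
      have h6 : Wm A m (Real.log n) = 1 := by
        refine hW1 _ ?_ ?_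
        · have : 0 < b * Real.log Y := by positivity
          rw [hA]
          linarith
        · linarith
      have h7 : rh z n = 1 := by
        rw [rh] at h3 ⊢
        rw [if_pos]
        have h8 : n ≠ 0 ∧ ∀ p ∈ n.primeFactors, Y ^ b ≤ (p : ℝ) := by
          by_contra hcon
          rw [if_neg hcon] at h3
          norm_num at h3
        refine ⟨h8.1, fun p hp => le_trans ?_ (h8.2 p hp)⟩
        rw [hz]
        exact Real.rpow_le_rpow_of_exponent_le (by linarith) (by linarith)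
      have h8 := (rh_bounds z hz2 1 n hn1).2.1
      rw [h6, mul_one]
      linarith
  obtain ⟨S, hS⟩ : ∃ S : Finset ℕ, S = (Icc 1 N').filter (fun n => 0 < ν n) := ⟨_, rfl⟩
  have hSν : ∀ n ∈ S, 0 < ν n := by
    intro n hn
    rw [hS, Finset.mem_filter] at hn
    exact hn.2
  have haS : ∀ n, a n ≠ 0 → n ∈ S := by
    intro n hn
    obtain ⟨h1, h2⟩ := hν1 n hn
    rw [hS, Finset.mem_filter]
    refine ⟨h1, lt_of_lt_of_le ?_ h2⟩
    rw [Finset.mem_Icc] at h1
    have : 0 < n := h1.1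
    positivity
  obtain ⟨x, hx⟩ : ∃ x : CC → ℕ → ℂ, ∀ i n, x i n = i.2 (n : ZMod i.1) := ⟨_, fun _ _ => rfl⟩
  obtain ⟨a', ha'⟩ : ∃ a' : ℕ → ℂ, ∀ n, a' n = (((if n ∈ Icc 1 N then a n else 0) / n : ℝ) : ℂ) :=
    ⟨_, fun _ => rfl⟩
  -- the kernel
  have hker : ∀ i ∈ CR ⌊Y ^ δ⌋₊, ∀ j ∈ CR ⌊Y ^ δ⌋₊, ∀ u : ℝ, |u| ≤ 2 * Y ^ 2 →
      ‖∑ n ∈ S, (ν n : ℂ) * (x i n * (starRingEnd ℂ) (x j n)) * nit n u‖ ≤
        (if i = j then C₁ / Real.log z * ‖osc (Wm A m) u‖ else 0) + Y ^ (-κ') := by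
    intro i hi j hj u hu
    have h1 := (hK Y z 1 m N' i j u hY1 (le_of_eq hz.symm) le_rfl hz9 hm2 hN'l hmhi hi hj hu).1
    rw [← hA] at h1
    have h2 : ∑ n ∈ S, (ν n : ℂ) * (x i n * (starRingEnd ℂ) (x j n)) * nit n u =
        ∑ n ∈ Icc 1 N', ((tp' z 1 n * Wm A m (Real.log n) / n : ℝ) : ℂ) *
            (i.2 (n : ZMod i.1) * (starRingEnd ℂ) (j.2 (n : ZMod j.1))) * nit n u := by
      rw [hS]
      rw [Finset.sum_filter_of_ne]
      · refine Finset.sum_congr rfl fun n _ => ?_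
        rw [hν, hx, hx]
      · intro n hn hne
        have h3 := hν0 n hn
        rcases h3.eq_or_lt with h4 | h4
        · exfalso
          apply hne
          rw [← h4]
          simp
        · exact h4
    rw [h2]
    refine h1.trans ?_
    have hi1 : 1 ≤ i.1 := by
      have := (Finset.mem_sigma.1 hi).1
      rw [Finset.mem_Icc] at this
      exact this.1
    by_cases hij : i = j
    · rw [if_pos hij, if_pos hij]
      refine add_le_add_left (mul_le_mul_of_nonneg_right (hM z 1 i.1 hz2 le_rfl hi1).2.1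
        (norm_nonneg _)) _
    · rw [if_neg hij, if_neg hij]
  obtain ⟨Λ, hΛ⟩ : ∃ Λ : ℝ, Λ = (C₁ * (72 / b) * (2 * Real.pi * m) + 2 / κ') / Real.log Y := ⟨_, rfl⟩
  have hΛ0 : 0 ≤ Λ := by
    rw [hΛ]
    positivity
  have hclz : C₁ / Real.log z = C₁ * (72 / b) / Real.log Y := by
    rw [hlz]
    field_simp
  have hclz0 : 0 ≤ C₁ / Real.log z := by
    rw [hclz]
    positivity
  have hH := halasz (CR ⌊Y ^ δ⌋₊) E (Y ^ 2) (fun i hi => (hE1 i hi).1) (fun i hi => (hE1 i hi).2) S x a' ν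
    hSν Λ hΛ0 (by
      intro i hi t ht
      have htT := (hE1 i hi).2 ht
      rw [Set.mem_Icc] at htT
      have hint : ∀ j, Integrable (fun s => ‖osc (Wm A m) (t - s)‖) (volume.restrict (E j)) := by
        intro j
        exact (hWi.comp_sub_left t).integrableOn
      have hfin : ∀ j ∈ CR ⌊Y ^ δ⌋₊, IsFiniteMeasure (volume.restrict (E j)) := by
        intro j hj
        refine ⟨?_⟩
        rw [Measure.restrict_apply_univ]
        exact (measure_mono (hE1 j hj).2).trans_lt measure_Icc_lt_top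
      have hstep : ∀ j ∈ CR ⌊Y ^ δ⌋₊, ∫ s in E j,
          ‖∑ n ∈ S, (ν n : ℂ) * (x i n * (starRingEnd ℂ) (x j n)) * nit n (t - s)‖ ≤
          (if i = j then C₁ / Real.log z * ∫ s : ℝ, ‖osc (Wm A m) s‖ else 0) +
            (volume (E j)).toReal * Y ^ (-κ') := by
        intro j hj
        have := hfin j hj
        have hgi : Integrable (fun s => (if i = j then C₁ / Real.log z * ‖osc (Wm A m) (t - s)‖ else 0) +
            Y ^ (-κ')) (volume.restrict (E j)) := by
          refine Integrable.add ?_ (integrable_const _)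
          by_cases hij : i = j
          · simp only [if_pos hij]
            exact (hint j).const_mul _
          · simp only [if_neg hij]
            exact integrable_const _
        have h1 := integral_mono_of_nonneg (μ := volume.restrict (E j))
          (f := fun s => ‖∑ n ∈ S, (ν n : ℂ) * (x i n * (starRingEnd ℂ) (x j n)) * nit n (t - s)‖)
          (g := fun s => (if i = j then C₁ / Real.log z * ‖osc (Wm A m) (t - s)‖ else 0) + Y ^ (-κ'))
          (Filter.Eventually.of_forall fun s => norm_nonneg _) hgi (by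
            filter_upwards [ae_restrict_mem (hE1 j hj).1] with s hs
            have hsT := (hE1 j hj).2 hs
            rw [Set.mem_Icc] at hsT
            refine hker i hi j hj (t - s) ?_
            rw [abs_le]
            constructor <;> linarith [htT.1, htT.2, hsT.1, hsT.2])
        refine h1.trans ?_
        have h2 : ∫ s in E j, ((if i = j then C₁ / Real.log z * ‖osc (Wm A m) (t - s)‖ else 0) +
            Y ^ (-κ')) = (∫ s in E j, (if i = j then C₁ / Real.log z * ‖osc (Wm A m) (t - s)‖ else 0)) +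
            ∫ s in E j, Y ^ (-κ') := by
          refine integral_add ?_ (integrable_const _)
          by_cases hij : i = j
          · simp only [if_pos hij]
            exact (hint j).const_mul _
          · simp only [if_neg hij]
            exact integrable_const _
        rw [h2]
        refine add_le_add ?_ (le_of_eq ?_)
        · by_cases hij : i = j
          · simp only [if_pos hij]
            rw [integral_const_mul]
            refine mul_le_mul_of_nonneg_left ?_ hclz0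
            rw [← integral_sub_left_eq_self (fun s => ‖osc (Wm A m) s‖) volume t]
            exact setIntegral_le_integral (hWi.comp_sub_left t)
              (Filter.Eventually.of_forall fun s => norm_nonneg _)
          · simp only [if_neg hij]
            simp
        · rw [setIntegral_const]
          rfl
      refine (Finset.sum_le_sum hstep).trans ?_
      rw [Finset.sum_add_distrib, Finset.sum_ite_eq (CR ⌊Y ^ δ⌋₊) i, if_pos hi, ← Finset.sum_mul]
      have h3 : C₁ / Real.log z * ∫ s : ℝ, ‖osc (Wm A m) s‖ ≤ C₁ / Real.log z * (2 * Real.pi * m) :=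
        mul_le_mul_of_nonneg_left hWI hclz0
      have h4 : (∑ j ∈ CR ⌊Y ^ δ⌋₊, (volume (E j)).toReal) * Y ^ (-κ') ≤ Y ^ (κ' / 2) * Y ^ (-κ') :=
        mul_le_mul_of_nonneg_right hE2 (Real.rpow_nonneg hY0.le _)
      have h5 : Y ^ (κ' / 2) * Y ^ (-κ') = 1 / Y ^ (κ' / 2) := by
        rw [← Real.rpow_add hY0, one_div, ← Real.rpow_neg hY0.le]
        congr 1
        ring
      have h6 : 1 / Y ^ (κ' / 2) ≤ (2 / κ') / Real.log Y := by
        have h7 := Real.log_le_rpow_div hY0.le (show 0 < κ' / 2 by positivity)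
        have h8 : 0 < Y ^ (κ' / 2) := Real.rpow_pos_of_pos hY0 _
        rw [div_le_div_iff₀ h8 hlY, one_mul]
        refine h7.trans (le_of_eq ?_)
        field_simp
      rw [hΛ, add_div]
      have h9 : C₁ / Real.log z * (2 * Real.pi * m) =
          C₁ * (72 / b) * (2 * Real.pi * m) / Real.log Y := by
        rw [hclz]
        ring
      rw [← h9]
      linarith)
  have hpoly : ∀ (i : CC) (t : ℝ), DP N a i.2 t = ∑ n ∈ S, a' n * x i n * nit n t := by
    intro i t
    obtain ⟨T, hT⟩ : ∃ T : Finset ℕ, T = (Icc 1 N).filter (fun n => a n ≠ 0) := ⟨_, rfl⟩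
    have h1 : DP N a i.2 t = ∑ n ∈ T, a' n * x i n * nit n t := by
      rw [DP, hT, Finset.sum_filter]
      refine Finset.sum_congr rfl fun n hn => ?_
      by_cases h2 : a n = 0
      · rw [if_neg (by simpa using h2), h2]
        simp
      · rw [if_pos h2, ha', if_pos hn, hx]
    rw [h1]
    refine Finset.sum_subset ?_ ?_
    · intro n hn
      rw [hT, Finset.mem_filter] at hn
      exact haS n hn.2
    · intro n _ hn
      rw [hT, Finset.mem_filter] at hn
      rw [ha']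
      by_cases h2 : n ∈ Icc 1 N
      · have h3 : a n = 0 := by
          by_contra h4
          exact hn ⟨h2, h4⟩
        rw [if_pos h2, h3]
        simp
      · rw [if_neg h2]
        simp
  have hL : ∑ i ∈ CR ⌊Y ^ δ⌋₊, ∫ t in E i, ‖DP N a i.2 t‖ ^ 2 =
      ∑ i ∈ CR ⌊Y ^ δ⌋₊, ∫ t in E i, ‖∑ n ∈ S, a' n * x i n * nit n t‖ ^ 2 := by
    refine Finset.sum_congr rfl fun i _ => ?_
    simp only [hpoly]
  rw [hL]
  refine hH.trans ?_
  rw [← hΛ, mul_comm]
  refine mul_le_mul_of_nonneg_left ?_ hΛ0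
  have h1 : ∀ n ∈ S, ‖a' n‖ ^ 2 / ν n ≤ if n ∈ Icc 1 N then a n ^ 2 / n else 0 := by
    intro n hn
    rw [ha']
    by_cases h2 : n ∈ Icc 1 N
    · rw [if_pos h2, if_pos h2, Complex.norm_real, Real.norm_eq_abs, sq_abs]
      by_cases h3 : a n = 0
      · rw [h3]
        simp
      · have h4 := (hν1 n h3).2
        have hn0 : 0 < (n : ℝ) := by
          rw [Finset.mem_Icc] at h2
          have : 0 < n := h2.1
          exact_mod_cast this
        rw [div_le_div_iff₀ (hSν n hn) hn0]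
        have h5 : 1 ≤ n * ν n := by
          rw [div_le_iff₀ hn0] at h4
          linarith
        have h6 : (a n / n) ^ 2 * n = a n ^ 2 * (1 / n) := by
          field_simp
        rw [h6]
        refine mul_le_mul_of_nonneg_left h4 (sq_nonneg _)
    · rw [if_neg h2, if_neg h2]
      simp
  refine (Finset.sum_le_sum h1).trans ?_
  rw [← Finset.sum_filter]
  refine Finset.sum_le_sum_of_subset_of_nonneg ?_ ?_
  · intro n hn
    exact (Finset.mem_filter.1 hn).2
  · intro n _ _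
    positivity

end Pool.Agent.M58
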