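import Pool.Agent.W_b58c63_m1.HKer

/-!
# Mean squares over small sets: rough integers (helper68)
-/

set_option autoImplicit false

noncomputable section

open Finset MeasureTheory

namespace Pool.Agent.M58

theorem HL2b_tent (x : ℝ) : 0 ≤ tent x ∧ tent x ≤ 1 := by
  unfold tent
  exact ⟨le_max_left _ _, max_le zero_le_one (by linarith [abs_nonneg x])⟩

theorem HL2b_tent_lip (x y : ℝ) : |tent x - tent y| ≤ |x - y| := by
  unfold tent
  rw [max_comm 0 (1 - |x|), max_comm 0 (1 - |y|)]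
  refine (abs_max_sub_max_le_abs _ _ _).trans ?_
  have h : 1 - |x| - (1 - |y|) = |y| - |x| := by ring
  rw [h, abs_sub_comm x y]
  exact abs_abs_sub_abs_le_abs_sub y x

/-- Properties of the tent of half width `w` at `c`. -/
theorem HL2b_h (w c : ℝ) (hw : 0 < w) :
    (∀ v : ℝ, |tent ((v - c) / w)| ≤ 1) ∧
    (∀ v v' : ℝ, |tent ((v - c) / w) - tent ((v' - c) / w)| ≤ (1 / w) * |v - v'|) ∧
    (∀ v : ℝ, v ≤ c - w → tent ((v - c) / w) = 0) ∧
    (∀ v : ℝ, c + w ≤ v → tent ((v - c) / w) = 0) := by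
  refine ⟨fun v => ?_, fun v v' => ?_, fun v hv => ?_, fun v hv => ?_⟩
  · rw [abs_of_nonneg (HL2b_tent _).1]
    exact (HL2b_tent _).2
  · refine (HL2b_tent_lip _ _).trans (le_of_eq ?_)
    have h : (v - c) / w - (v' - c) / w = (v - v') / w := by ring
    rw [h, abs_div, abs_of_pos hw]
    ring
  · refine STe_supp _ ?_
    rw [abs_of_nonpos (div_nonpos_of_nonpos_of_nonneg (by linarith) hw.le), ← neg_div,
      le_div_iff₀ hw]
    linarith
  · refine STe_supp _ ?_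
    rw [abs_of_nonneg (div_nonneg (by linarith) hw.le), le_div_iff₀ hw]
    linarith

theorem HL2b_CR (R : ℕ) (i : CC) (hi : i ∈ CR R) :
    1 ≤ i.1 ∧ i.1 ≤ R ∧ (i.2 = 1 → i = i0) := by
  unfold CR at hi
  rw [Finset.mem_sigma, Finset.mem_Icc] at hi
  obtain ⟨⟨h1, h2⟩, h3⟩ := hi
  refine ⟨h1, h2, fun h4 => ?_⟩
  obtain ⟨r, χ⟩ := i
  simp only at h1 h2 h3 h4
  have h4' : χ = (1 : DirichletCharacter ℂ r) := h4
  clear h4
  subst h4'
  unfold prim at h3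
  simp only [Finset.mem_filter, Finset.mem_univ, true_and] at h3
  have h5 := h3
  rw [DirichletCharacter.isPrimitive_def] at h5
  have : NeZero r := ⟨by omega⟩
  rw [DirichletCharacter.conductor_one] at h5
  subst h5
  rfl

theorem HL2b_i0 (n : ℕ) : (i0.2 (n : ZMod i0.1) : ℂ) = 1 := by
  show (1 : DirichletCharacter ℂ 1) (n : ZMod 1) = 1
  have h : (n : ZMod 1) = 1 := Subsingleton.elim _ _
  rw [h, map_one]

theorem HL2b_DP0 (N : ℕ) (a : ℕ → ℝ) :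
    DP N a i0.2 0 = ((∑ n ∈ Icc 1 N, a n / n : ℝ) : ℂ) := by
  unfold DP
  push_cast
  refine Finset.sum_congr rfl fun n hn => ?_
  rw [HL2b_i0]
  have h : nit n 0 = 1 := by
    unfold nit
    simp
  rw [h]
  ring

/-- The pointwise bound for the sieve polynomials. -/
theorem HL2b_pt (b : ℝ) (hb : 0 < b) : ∃ κ C : ℝ, 0 < κ ∧ 0 < C ∧
    ∀ (Y z c w t : ℝ) (bb R N : ℕ) (i : CC), 3 ≤ Y → 2 ≤ z → 1 ≤ bb →
      z ^ (4 * bb + 5) ≤ Y ^ (b / 8) → 1 ≤ w → b * Real.log Y ≤ c - w → c + w ≤ Real.log N →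
      1 ≤ N → (R : ℝ) ≤ Y ^ κ → i ∈ CR R → |t| ≤ Y ^ 2 →
      ‖DP N (fun n => tp' z bb n * tent ((Real.log n - c) / w)) i.2 t -
        (open Classical in if i = i0 then (Mp z bb 1 : ℂ) *
          osc (fun v => tent ((v - c) / w)) t else 0)‖ ≤ C * Y ^ (-κ) ∧
      ‖DP N (fun n => tm' z bb n * tent ((Real.log n - c) / w)) i.2 t -
        (open Classical in if i = i0 then (Mm z bb 1 : ℂ) *
          osc (fun v => tent ((v - c) / w)) t else 0)‖ ≤ C * Y ^ (-κ) := by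
  classical
  obtain ⟨κ, C, hκ, hκ1, hC, h⟩ := sieve_smooth (2 / b) (by positivity)
  refine ⟨κ * b, C * 2, by positivity, by positivity, ?_⟩
  intro Y z c w t bb R N i hY hz hbb hzb hw hc1 hc2 hN hR hi ht
  have hY0 : 0 < Y := by linarith
  obtain ⟨hi1, hi2, hi3⟩ := HL2b_CR R i hi
  obtain ⟨t1, t2, t3, t4⟩ := HL2b_h w c (by linarith)
  have hlog : 0 < Real.log Y := Real.log_pos (by linarith)
  have e1 : Real.exp (b * Real.log Y / 2) = Y ^ (b / 2) := by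
    rw [Real.rpow_def_of_pos hY0]
    congr 1
    ring
  have e2 : Real.exp (2 / b * (b * Real.log Y)) = Y ^ 2 := by
    have : 2 / b * (b * Real.log Y) = Real.log Y * 2 := by field_simp
    rw [this, ← Real.rpow_def_of_pos hY0]
    norm_num
  have e3 : Real.exp (κ * (b * Real.log Y)) = Y ^ (κ * b) := by
    rw [Real.rpow_def_of_pos hY0]
    congr 1
    ring
  have e4 : Real.exp (-κ * (b * Real.log Y)) = Y ^ (-(κ * b)) := by
    rw [Real.rpow_def_of_pos hY0]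
    congr 1
    ring
  have h1 := h z bb i.1 N i.2 (b * Real.log Y) t 1 (1 / w) (fun v => tent ((v - c) / w)) hz hbb
    (by
      rw [e1]
      refine hzb.trans (Real.rpow_le_rpow_of_exponent_le (by linarith) (by linarith)))
    hi1 hN (by rw [e2]; exact ht)
    (by
      rw [e3]
      refine le_trans ?_ hR
      exact_mod_cast hi2)
    t1 t2 (fun v hv => t3 v (hv.trans hc1)) (fun v hv => t4 v (hc2.trans hv))
  rw [e4] at h1
  have h2 : C * (1 + 1 / w) * Y ^ (-(κ * b)) ≤ C * 2 * Y ^ (-(κ * b)) := by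
    refine mul_le_mul_of_nonneg_right (mul_le_mul_of_nonneg_left ?_ hC.le)
      (Real.rpow_nonneg hY0.le _)
    have : 1 / w ≤ 1 := by
      rw [div_le_one (by linarith)]
      exact hw
    linarith
  obtain ⟨h3, h4⟩ := h1
  by_cases hi0 : i = i0
  · subst hi0
    have h5 : i0.2 = 1 := rfl
    rw [if_pos h5] at h3 h4
    rw [if_pos rfl, if_pos rfl]
    exact ⟨h3.trans h2, h4.trans h2⟩
  · have h5 : ¬ i.2 = 1 := fun h6 => hi0 (hi3 h6)
    rw [if_neg h5] at h3 h4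
    rw [if_neg hi0, if_neg hi0]
    exact ⟨h3.trans h2, h4.trans h2⟩

/-- The logarithmic mass of the difference of the sieves. -/
theorem HL2b_mass (Mp' Mm' w c D : ℝ) (z : ℝ) (bb N : ℕ) (hw : 0 < w)
    (h1 : ‖DP N (fun n => tp' z bb n * tent ((Real.log n - c) / w)) i0.2 0 -
      (Mp' : ℂ) * osc (fun v => tent ((v - c) / w)) 0‖ ≤ D)
    (h2 : ‖DP N (fun n => tm' z bb n * tent ((Real.log n - c) / w)) i0.2 0 -
      (Mm' : ℂ) * osc (fun v => tent ((v - c) / w)) 0‖ ≤ D) :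
    ∑ n ∈ Icc 1 N, (tp' z bb n - tm' z bb n) * tent ((Real.log n - c) / w) / n ≤
      |Mp' - Mm'| * w + 2 * D := by
  obtain ⟨O, hO⟩ : ∃ O : ℂ, O = osc (fun v => tent ((v - c) / w)) 0 := ⟨_, rfl⟩
  have hOw : ‖O‖ ≤ w := by
    rw [hO]
    exact (osc_tent w c 0 hw).1
  rw [← hO, HL2b_DP0] at h1 h2
  obtain ⟨P, hP⟩ : ∃ P : ℝ, P = ∑ n ∈ Icc 1 N, tp' z bb n * tent ((Real.log n - c) / w) / n :=
    ⟨_, rfl⟩
  obtain ⟨M, hM⟩ : ∃ M : ℝ, M = ∑ n ∈ Icc 1 N, tm' z bb n * tent ((Real.log n - c) / w) / n :=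
    ⟨_, rfl⟩
  rw [← hP] at h1
  rw [← hM] at h2
  have h3 : ∑ n ∈ Icc 1 N, (tp' z bb n - tm' z bb n) * tent ((Real.log n - c) / w) / n =
      P - M := by
    rw [hP, hM, ← Finset.sum_sub_distrib]
    refine Finset.sum_congr rfl fun n _ => ?_
    ring
  rw [h3]
  have h4 : ((P - M : ℝ) : ℂ) = ((P : ℂ) - (Mp' : ℂ) * O) - ((M : ℂ) - (Mm' : ℂ) * O) +
      ((Mp' - Mm' : ℝ) : ℂ) * O := by
    push_cast
    ring
  calc P - M ≤ |P - M| := le_abs_self _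
    _ = ‖((P - M : ℝ) : ℂ)‖ := by rw [Complex.norm_real, Real.norm_eq_abs]
    _ ≤ (D + D) + |Mp' - Mm'| * w := by
        rw [h4]
        refine (norm_add_le _ _).trans (add_le_add ((norm_sub_le _ _).trans (add_le_add h1 h2)) ?_)
        rw [norm_mul, Complex.norm_real, Real.norm_eq_abs]
        exact mul_le_mul_of_nonneg_left hOw (abs_nonneg _)
    _ = |Mp' - Mm'| * w + 2 * D := by ring

/-- The tail of the square of the transform of the tent. -/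
theorem HL2b_tail (w c T₀ : ℝ) (hw : 0 < w) (hT : 0 < T₀) (E : Set ℝ) (hE : MeasurableSet E)
    (T : ℝ) (hET : E ⊆ Set.Icc (-T) T) (h : ∀ t ∈ E, T₀ ≤ |t|) :
    ∫ t in E, ‖osc (fun v => tent ((v - c) / w)) t‖ ^ 2 ≤ 32 * Real.pi / (w ^ 2 * T₀ ^ 3) := by
  have hg : Integrable fun t : ℝ => (1 + (t / T₀) ^ 2)⁻¹ :=
    integrable_inv_one_add_sq.comp_div hT.ne'
  have hG : ∫ t : ℝ, (1 + (t / T₀) ^ 2)⁻¹ = T₀ * Real.pi := by
    rw [Measure.integral_comp_div (fun x : ℝ => (1 + x ^ 2)⁻¹) T₀, integral_univ_inv_one_add_sq,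
      abs_of_pos hT]
    rfl
  have h1 : ∀ t ∈ E, ‖osc (fun v => tent ((v - c) / w)) t‖ ^ 2 ≤
      32 / (w ^ 2 * T₀ ^ 4) * (1 + (t / T₀) ^ 2)⁻¹ := by
    intro t ht
    have h2 := (osc_tent w c t hw).2
    have h3 : T₀ ≤ |t| := h t ht
    have ht2 : T₀ ^ 2 ≤ t ^ 2 := by
      rw [← sq_abs t]
      exact pow_le_pow_left₀ hT.le h3 2
    have ht0 : 0 < t ^ 2 := lt_of_lt_of_le (by positivity) ht2
    have h4 : ‖osc (fun v => tent ((v - c) / w)) t‖ ≤ 4 / (w * t ^ 2) := by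
      rw [le_div_iff₀ (by positivity)]
      exact h2
    have h5 : ‖osc (fun v => tent ((v - c) / w)) t‖ ^ 2 ≤ (4 / (w * t ^ 2)) ^ 2 :=
      pow_le_pow_left₀ (norm_nonneg _) h4 2
    refine h5.trans ?_
    have h6 : (1 + (t / T₀) ^ 2)⁻¹ = T₀ ^ 2 / (T₀ ^ 2 + t ^ 2) := by
      field_simp
    rw [h6]
    have h7 : 32 / (w ^ 2 * T₀ ^ 4) * (T₀ ^ 2 / (T₀ ^ 2 + t ^ 2)) =
        32 / (w ^ 2 * (T₀ ^ 2 * (T₀ ^ 2 + t ^ 2))) := by
      field_simp
    have h8 : (4 / (w * t ^ 2)) ^ 2 = 32 / (w ^ 2 * (2 * (t ^ 2 * t ^ 2))) := by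
      field_simp
      norm_num
    rw [h7, h8]
    refine div_le_div_of_nonneg_left (by norm_num) (by positivity) ?_
    refine mul_le_mul_of_nonneg_left ?_ (by positivity)
    nlinarith
  have hfin : volume E ≠ ⊤ := by
    refine ne_top_of_le_ne_top ?_ (measure_mono hET)
    rw [Real.volume_Icc]
    exact ENNReal.ofReal_ne_top
  by_cases hint : IntegrableOn (fun t => ‖osc (fun v => tent ((v - c) / w)) t‖ ^ 2) E
  · calc ∫ t in E, ‖osc (fun v => tent ((v - c) / w)) t‖ ^ 2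
        ≤ ∫ t in E, 32 / (w ^ 2 * T₀ ^ 4) * (1 + (t / T₀) ^ 2)⁻¹ :=
          setIntegral_mono_on hint (hg.const_mul _).integrableOn hE h1
      _ ≤ ∫ t : ℝ, 32 / (w ^ 2 * T₀ ^ 4) * (1 + (t / T₀) ^ 2)⁻¹ := by
          refine setIntegral_le_integral (hg.const_mul _) ?_
          refine Filter.Eventually.of_forall fun t => ?_
          show (0 : ℝ) ≤ _
          positivity
      _ = 32 * Real.pi / (w ^ 2 * T₀ ^ 3) := by
          rw [integral_const_mul, hG]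
          field_simp
  · rw [integral_undef hint]
    positivity

/-- The kernel bound, integrated. -/
theorem HL2b_ker (C₁ C₂ m' : ℝ) (F : ℝ → ℝ) (hF : Integrable F) (hF0 : ∀ u, 0 ≤ F u)
    (hF1 : ∫ u : ℝ, F u ≤ m') (hC₁ : 0 ≤ C₁) (hC₂ : 0 ≤ C₂) (I : Finset CC) (E : CC → Set ℝ) (T V : ℝ)
    (hE : ∀ i ∈ I, MeasurableSet (E i) ∧ E i ⊆ Set.Icc (-T) T)
    (hV : ∑ i ∈ I, (volume (E i)).toReal ≤ V) (G : CC → ℝ → ℝ) (i : CC) (t : ℝ)
    (hG : ∀ j ∈ I, Continuous (G j))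
    (hb : ∀ j ∈ I, ∀ s ∈ E j, G j s ≤
      (open Classical in if i = j then C₁ * F (t - s) else 0) + C₂) :
    ∑ j ∈ I, ∫ s in E j, G j s ≤ C₁ * m' + V * C₂ := by
  classical
  have hFt : Integrable fun s : ℝ => F (t - s) := hF.comp_sub_left t
  have hFi : ∫ s : ℝ, F (t - s) = ∫ u : ℝ, F u := integral_sub_left_eq_self F volume t
  have hfin : ∀ j ∈ I, volume (E j) ≠ ⊤ := by
    intro j hj
    refine ne_top_of_le_ne_top ?_ (measure_mono (hE j hj).2)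
    rw [Real.volume_Icc]
    exact ENNReal.ofReal_ne_top
  have h1 : ∀ j ∈ I, ∫ s in E j, G j s ≤
      (if i = j then C₁ * m' else 0) + (volume (E j)).toReal * C₂ := by
    intro j hj
    have hGi : IntegrableOn (G j) (E j) :=
      ((hG j hj).continuousOn.integrableOn_Icc (a := -T) (b := T)).mono_set (hE j hj).2
    have hci : IntegrableOn (fun _ : ℝ => C₂) (E j) := integrableOn_const (hfin j hj)
    by_cases hij : i = j
    · have hb' : ∀ s ∈ E j, G j s ≤ C₁ * F (t - s) + C₂ := by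
        intro s hs
        have := hb j hj s hs
        rwa [if_pos hij] at this
      rw [if_pos hij]
      calc ∫ s in E j, G j s ≤ ∫ s in E j, (C₁ * F (t - s) + C₂) :=
            setIntegral_mono_on hGi ((hFt.const_mul C₁).integrableOn.add hci) (hE j hj).1 hb'
        _ = C₁ * (∫ s in E j, F (t - s)) + (volume (E j)).toReal * C₂ := by
            rw [integral_add (hFt.const_mul C₁).integrableOn hci, integral_const_mul,
              setIntegral_const]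
            rfl
        _ ≤ C₁ * m' + (volume (E j)).toReal * C₂ := by
            have h2 : ∫ s in E j, F (t - s) ≤ m' := by
              refine le_trans ?_ hF1
              rw [← hFi]
              exact setIntegral_le_integral hFt (Filter.Eventually.of_forall fun s => hF0 _)
            have h3 := mul_le_mul_of_nonneg_left h2 hC₁
            linarith
    · have hb' : ∀ s ∈ E j, G j s ≤ C₂ := by
        intro s hs
        have := hb j hj s hs
        rwa [if_neg hij, zero_add] at this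
      rw [if_neg hij, zero_add]
      calc ∫ s in E j, G j s ≤ ∫ _s in E j, C₂ :=
            setIntegral_mono_on hGi hci (hE j hj).1 hb'
        _ = (volume (E j)).toReal * C₂ := by
            rw [setIntegral_const]
            rfl
  have hm' : 0 ≤ m' := (integral_nonneg hF0).trans hF1
  refine (Finset.sum_le_sum h1).trans ?_
  rw [Finset.sum_add_distrib, Finset.sum_ite_eq, ← Finset.sum_mul]
  refine add_le_add ?_ (mul_le_mul_of_nonneg_right hV hC₂)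
  split_ifs
  · exact le_rfl
  · exact mul_nonneg hC₁ hm'

/-- The part of the majorant beyond the rough integers, by duality. -/
theorem HL2b_hal (b : ℝ) (hb : 0 < b) (hb1 : b ≤ 1) : ∃ κ δ C : ℝ, 0 < κ ∧ 0 < δ ∧ 0 < C ∧
    ∀ θ : ℝ, 0 < θ → ∃ Y₀ : ℝ, 3 ≤ Y₀ ∧
    ∀ (Y z c w V : ℝ) (bb R N : ℕ) (E : CC → Set ℝ), Y₀ ≤ Y → Y ^ θ ≤ z → 2 ≤ z → 1 ≤ bb →
      z ^ (4 * bb + 5) ≤ Y ^ (b / 8) → 0 < w → b * Real.log Y ≤ c - w →
      c + w ≤ 6 * Real.log Y → Y ^ 6 ≤ N → R ≤ ⌊Y ^ δ⌋₊ → Fam R (Y ^ 2) V E →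
      ∑ i ∈ CR R, ∫ t in E i,
        ‖DP N (fun n => (tp' z bb n - rh z n) * tent ((Real.log n - c) / w)) i.2 t‖ ^ 2 ≤
      (∑ n ∈ Icc 1 N, (tp' z bb n - tm' z bb n) * tent ((Real.log n - c) / w) / n) *
        (C * Real.exp (-bb) / Real.log z + V * Y ^ (-κ)) := by
  classical
  obtain ⟨κ, δ, hκ, hδ, hk⟩ := kernel b hb hb1
  obtain ⟨CM, hCM, hM⟩ := Mp_bounds
  obtain ⟨m, hm⟩ : ∃ m : ℕ, m = ⌈24 / b⌉₊ := ⟨_, rfl⟩
  have hmb : 24 / b ≤ m := by rw [hm]; exact Nat.le_ceil _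
  have h24 : 24 ≤ 24 / b := by
    rw [le_div_iff₀ hb]
    linarith
  have hm2 : 2 ≤ m := by
    have : (2 : ℝ) ≤ m := by linarith
    exact_mod_cast this
  have hm100 : (m : ℝ) ≤ 100 / b := by
    have h1 : (m : ℝ) < 24 / b + 1 := by
      rw [hm]
      exact Nat.ceil_lt_add_one (by positivity)
    have h2 : 24 / b + 1 ≤ 100 / b := by
      have h3 : (1 : ℝ) ≤ 1 / b := by
        rw [le_div_iff₀ hb]
        linarith
      have h4 : 100 / b = 24 / b + 76 * (1 / b) := by ring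
      rw [h4]
      linarith
    linarith
  have hm0 : (0 : ℝ) < m := by linarith
  refine ⟨κ, δ, CM * (2 * Real.pi * m), hκ, hδ, by positivity, ?_⟩
  intro θ hθ
  obtain ⟨Y₀, hY₀, hk2⟩ := hk θ hθ
  refine ⟨Y₀, hY₀, ?_⟩
  intro Y z c w V bb R N E hY hzθ hz2 hbb hzb hw hc1 hc2 hN hR hE
  have hY3 : 3 ≤ Y := hY₀.trans hY
  have hY0 : 0 < Y := by linarith
  have hlog : 0 < Real.log Y := Real.log_pos (by linarith)
  obtain ⟨A, hA⟩ : ∃ A : ℝ, A = b * Real.log Y / 4 := ⟨_, rfl⟩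
  have hA0 : 0 < A := by rw [hA]; positivity
  obtain ⟨W1, W2, W3, W4, W5, W6, W7⟩ := Wm_props A m hA0 hm2
  obtain ⟨N', hN'⟩ : ∃ N' : ℕ, N' = max N ⌈Real.exp ((m + 1) * A)⌉₊ := ⟨_, rfl⟩
  have hNN : N ≤ N' := by rw [hN']; exact le_max_left _ _
  have hlogN' : (m + 1) * A ≤ Real.log N' := by
    have h1 : Real.exp ((m + 1) * A) ≤ N' := by
      refine (Nat.le_ceil _).trans ?_
      rw [hN']
      exact_mod_cast le_max_right _ _
    have h2 := Real.log_le_log (Real.exp_pos _) h1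
    rwa [Real.log_exp] at h2
  have hlogN : 6 * Real.log Y ≤ Real.log N := by
    have h1 := Real.log_le_log (by positivity) hN
    rwa [Real.log_pow] at h1
  obtain ⟨h, hh⟩ : ∃ h : ℕ → ℝ, h = fun n : ℕ => tent ((Real.log n - c) / w) := ⟨_, rfl⟩
  have hh' : ∀ n : ℕ, tent ((Real.log n - c) / w) = h n := fun n => by rw [hh]
  have hh0 : ∀ n, 0 ≤ h n ∧ h n ≤ 1 := fun n => by rw [hh]; exact HL2b_tent _
  obtain ⟨t1, t2, t3, t4⟩ := HL2b_h w c hw
  have hhW : ∀ n : ℕ, h n ≠ 0 → Wm A m (Real.log n) = 1 := by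
    intro n hn
    have h1 : c - w ≤ Real.log n := by
      by_contra hcon
      exact hn (by rw [hh]; exact t3 _ (not_le.1 hcon).le)
    have h2 : Real.log n ≤ c + w := by
      by_contra hcon
      exact hn (by rw [hh]; exact t4 _ (not_le.1 hcon).le)
    refine W2 _ ?_ ?_
    · rw [hA]
      nlinarith
    · have h3 : 6 * Real.log Y ≤ m * A := by
        rw [hA]
        have h4 : 24 ≤ m * b := by
          rwa [div_le_iff₀ hb] at hmb
        nlinarith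
      linarith
  have hhN : ∀ n : ℕ, N < n → h n = 0 := by
    intro n hn
    rw [hh]
    refine t4 _ ?_
    have hN0 : (0 : ℝ) < N := lt_of_lt_of_le (by positivity) hN
    have h1 : Real.log N ≤ Real.log n := Real.log_le_log hN0 (by exact_mod_cast hn.le)
    linarith
  obtain ⟨ν, hν⟩ : ∃ ν : ℕ → ℝ, ν = fun n : ℕ =>
      (tp' z bb n - tm' z bb n) * Wm A m (Real.log n) / n := ⟨_, rfl⟩
  have hν' : ∀ n : ℕ, (tp' z bb n - tm' z bb n) * Wm A m (Real.log n) / n = ν n :=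
    fun n => by rw [hν]
  have hr : ∀ n : ℕ, 1 ≤ n → 0 ≤ tp' z bb n - rh z n ∧
      tp' z bb n - rh z n ≤ tp' z bb n - tm' z bb n := by
    intro n hn
    obtain ⟨r1, r2, -⟩ := rh_bounds z hz2 bb n hn
    constructor <;> linarith
  have hν0 : ∀ n : ℕ, 1 ≤ n → 0 ≤ ν n := by
    intro n hn
    rw [hν]
    exact div_nonneg (mul_nonneg (((hr n hn).1).trans (hr n hn).2) (W1 _).1) (Nat.cast_nonneg _)
  obtain ⟨S, hS⟩ : ∃ S : Finset ℕ, S = (Icc 1 N').filter fun n => 0 < ν n := ⟨_, rfl⟩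
  obtain ⟨a, ha⟩ : ∃ a : ℕ → ℂ, a = fun n : ℕ =>
      (((tp' z bb n - rh z n) * h n / n : ℝ) : ℂ) := ⟨_, rfl⟩
  -- the polynomial
  have hDP : ∀ (i : CC) (t : ℝ),
      DP N (fun n => (tp' z bb n - rh z n) * tent ((Real.log n - c) / w)) i.2 t =
        ∑ n ∈ S, a n * i.2 (n : ZMod i.1) * nit n t := by
    intro i t
    have h1 : DP N (fun n => (tp' z bb n - rh z n) * tent ((Real.log n - c) / w)) i.2 t =
        ∑ n ∈ Icc 1 N, a n * i.2 (n : ZMod i.1) * nit n t := by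
      unfold DP
      refine Finset.sum_congr rfl fun n _ => ?_
      rw [ha, hh]
    have h2 : ∑ n ∈ Icc 1 N, a n * i.2 (n : ZMod i.1) * nit n t =
        ∑ n ∈ Icc 1 N', a n * i.2 (n : ZMod i.1) * nit n t := by
      refine Finset.sum_subset (Finset.Icc_subset_Icc_right hNN) fun n hn hn2 => ?_
      rw [Finset.mem_Icc] at hn hn2
      have h3 : N < n := by omega
      rw [ha]
      simp only [hhN n h3, mul_zero, zero_div, Complex.ofReal_zero, zero_mul]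
    rw [h1, h2, hS]
    refine (Finset.sum_filter_of_ne fun n hn hne => ?_).symm
    rw [Finset.mem_Icc] at hn
    refine lt_of_le_of_ne (hν0 n hn.1) fun h0 => hne ?_
    have h4 : (tp' z bb n - rh z n) * h n = 0 := by
      by_cases h5 : h n = 0
      · rw [h5, mul_zero]
      · have h6 := hhW n h5
        rw [← hν' n, h6, mul_one] at h0
        have hn0 : (n : ℝ) ≠ 0 := by
          have : 1 ≤ n := hn.1
          positivity
        have h7 : tp' z bb n - tm' z bb n = 0 := by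
          rcases div_eq_zero_iff.1 h0.symm with h8 | h8
          · exact h8
          · exact absurd h8 hn0
        have h8 := hr n hn.1
        have h9 : tp' z bb n - rh z n = 0 := le_antisymm (h8.2.trans h7.le) h8.1
        rw [h9, zero_mul]
    rw [ha]
    simp only [h4, zero_div, Complex.ofReal_zero, zero_mul]
  -- the kernel
  obtain ⟨hE1, hE2⟩ := hE
  have hV0 : 0 ≤ V := le_trans (Finset.sum_nonneg fun i _ => ENNReal.toReal_nonneg) hE2
  have hlogz : 0 < Real.log z := Real.log_pos (by linarith)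
  have hker : ∀ (i j : CC) (u : ℝ), i ∈ CR R → j ∈ CR R → |u| ≤ 2 * Y ^ 2 →
      ‖∑ n ∈ S, (ν n : ℂ) * (i.2 (n : ZMod i.1) * (starRingEnd ℂ) (j.2 (n : ZMod j.1))) *
        nit n u‖ ≤
      (if i = j then (CM * Real.exp (-bb) / Real.log z) * ‖osc (Wm A m) u‖ else 0) +
        Y ^ (-κ) := by
    intro i j u hi hj hu
    have hsub : CR R ⊆ CR ⌊Y ^ δ⌋₊ := by
      intro k hk
      unfold CR at hk ⊢
      rw [Finset.mem_sigma, Finset.mem_Icc] at hk ⊢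
      exact ⟨⟨hk.1.1, hk.1.2.trans hR⟩, hk.2⟩
    have h1 := (hk2 Y z bb m N' i j u hY hzθ hbb hzb hm2 (by rw [← hA]; exact hlogN') hm100
      (hsub hi) (hsub hj) hu).2
    rw [← hA] at h1
    simp only [hν'] at h1
    have h2 : ∑ n ∈ S, (ν n : ℂ) * (i.2 (n : ZMod i.1) *
        (starRingEnd ℂ) (j.2 (n : ZMod j.1))) * nit n u =
        ∑ n ∈ Icc 1 N', (ν n : ℂ) * (i.2 (n : ZMod i.1) *
        (starRingEnd ℂ) (j.2 (n : ZMod j.1))) * nit n u := by
      rw [hS]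
      refine Finset.sum_filter_of_ne fun n hn hne => ?_
      rw [Finset.mem_Icc] at hn
      refine lt_of_le_of_ne (hν0 n hn.1) fun h0 => hne ?_
      rw [← h0, Complex.ofReal_zero, zero_mul, zero_mul]
    rw [h2]
    refine h1.trans (add_le_add ?_ le_rfl)
    split_ifs
    · exact mul_le_mul_of_nonneg_right (hM z bb i.1 hz2 hbb (HL2b_CR R i hi).1).2.2.1
        (norm_nonneg _)
    · exact le_rfl
  have hhal := halasz (CR R) E (Y ^ 2) (fun i hi => (hE1 i hi).1) (fun i hi => (hE1 i hi).2) S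
    (fun i n => i.2 (n : ZMod i.1)) a ν (fun n hn => by
      rw [hS, Finset.mem_filter] at hn
      exact hn.2)
    (CM * (2 * Real.pi * m) * Real.exp (-bb) / Real.log z + V * Y ^ (-κ)) (by positivity)
    (by
      intro i hi t ht
      have hS1 : ∀ n ∈ S, 1 ≤ n := by
        intro n hn
        rw [hS, Finset.mem_filter, Finset.mem_Icc] at hn
        exact hn.1.1
      have h1 := HL2b_ker (CM * Real.exp (-bb) / Real.log z) (Y ^ (-κ)) (2 * Real.pi * m)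
        (fun u => ‖osc (Wm A m) u‖) W6 (fun u => norm_nonneg _) W7 (by positivity) (by positivity)
        (CR R) E (Y ^ 2) V hE1 hE2
        (fun j s => ‖∑ n ∈ S, (ν n : ℂ) * (i.2 (n : ZMod i.1) *
          (starRingEnd ℂ) (j.2 (n : ZMod j.1))) * nit n (t - s)‖) i t
        (by
          intro j _
          refine Continuous.norm (continuous_finsetSum _ fun n hn => ?_)
          exact continuous_const.mul ((DMvB_nit_cont n (hS1 n hn)).comp
            (continuous_const.sub continuous_id)))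
        (by
          intro j hj s hs
          refine hker i j (t - s) hi hj ?_
          have h2 := (hE1 i hi).2 ht
          have h3 := (hE1 j hj).2 hs
          rw [Set.mem_Icc] at h2 h3
          rw [abs_le]
          constructor <;> linarith [h2.1, h2.2, h3.1, h3.2])
      refine h1.trans (le_of_eq ?_)
      ring)
  have hfin : ∑ n ∈ S, ‖a n‖ ^ 2 / ν n ≤
      ∑ n ∈ Icc 1 N, (tp' z bb n - tm' z bb n) * tent ((Real.log n - c) / w) / n := by
    have h1 : ∑ n ∈ Icc 1 N, (tp' z bb n - tm' z bb n) * tent ((Real.log n - c) / w) / n =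
        ∑ n ∈ Icc 1 N', (tp' z bb n - tm' z bb n) * h n / n := by
      rw [hh]
      refine Finset.sum_subset (Finset.Icc_subset_Icc_right hNN) fun n hn hn2 => ?_
      rw [Finset.mem_Icc] at hn hn2
      have h3 : N < n := by omega
      rw [hh', hhN n h3, mul_zero, zero_div]
    rw [h1, hS]
    have h2 : ∀ n ∈ Icc 1 N', 0 ≤ (tp' z bb n - tm' z bb n) * h n / n := by
      intro n hn
      rw [Finset.mem_Icc] at hn
      exact div_nonneg (mul_nonneg (((hr n hn.1).1).trans (hr n hn.1).2) (hh0 n).1)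
        (Nat.cast_nonneg _)
    refine le_trans (Finset.sum_le_sum fun n hn => ?_)
      (Finset.sum_le_sum_of_subset_of_nonneg (Finset.filter_subset _ _) fun n hn _ => h2 n hn)
    rw [Finset.mem_filter, Finset.mem_Icc] at hn
    obtain ⟨⟨hn1, hn2⟩, hn3⟩ := hn
    have hn0 : (0 : ℝ) < n := by exact_mod_cast hn1
    rw [ha]
    simp only [Complex.norm_real, Real.norm_eq_abs, sq_abs]
    by_cases h5 : h n = 0
    · rw [h5]
      simp
    · have h6 := hhW n h5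
      rw [← hν' n, h6, mul_one] at hn3 ⊢
      obtain ⟨d1, d2⟩ := hr n hn1
      obtain ⟨G, hG⟩ : ∃ G : ℝ, G = tp' z bb n - tm' z bb n := ⟨_, rfl⟩
      obtain ⟨D, hD⟩ : ∃ D : ℝ, D = tp' z bb n - rh z n := ⟨_, rfl⟩
      rw [← hG] at hn3 d2 ⊢
      rw [← hD] at d1 d2 ⊢
      have hG0 : 0 < G := by
        by_contra hcon
        have := div_nonpos_of_nonpos_of_nonneg (not_lt.1 hcon) hn0.le
        linarith
      have e1 : (D * h n / n) ^ 2 / (G / n) = D ^ 2 * h n ^ 2 / (G * n) := by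
        field_simp
      rw [e1, div_le_div_iff₀ (by positivity) hn0]
      have e2 : D ^ 2 ≤ G ^ 2 := pow_le_pow_left₀ d1 d2 2
      have e3 : h n ^ 2 ≤ h n := by nlinarith [(hh0 n).1, (hh0 n).2]
      have e4 : D ^ 2 * h n ^ 2 ≤ G ^ 2 * h n :=
        mul_le_mul e2 e3 (sq_nonneg _) (sq_nonneg _)
      nlinarith
  refine le_trans (le_of_eq ?_) (hhal.trans (mul_le_mul_of_nonneg_right hfin (by positivity)))
  refine Finset.sum_congr rfl fun i _ => ?_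
  refine integral_congr_ae (Filter.Eventually.of_forall fun t => ?_)
  simp only [hDP]

theorem HL2b_io (E : Set ℝ) (T : ℝ) (hE : E ⊆ Set.Icc (-T) T) (f : ℝ → ℝ) (hf : Continuous f) :
    IntegrableOn f E :=
  (hf.continuousOn.integrableOn_Icc (a := -T) (b := T)).mono_set hE

theorem HL2b_fin (E : Set ℝ) (T : ℝ) (hE : E ⊆ Set.Icc (-T) T) : volume E ≠ ⊤ := by
  refine ne_top_of_le_ne_top ?_ (measure_mono hE)
  rw [Real.volume_Icc]
  exact ENNReal.ofReal_ne_top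

theorem HL2b_sub (N : ℕ) (a a' : ℕ → ℝ) {r : ℕ} (χ : DirichletCharacter ℂ r) (t : ℝ) :
    DP N (fun n => a n - a' n) χ t = DP N a χ t - DP N a' χ t := by
  unfold DP
  rw [← Finset.sum_sub_distrib]
  refine Finset.sum_congr rfl fun n _ => ?_
  push_cast
  ring

theorem HL2b_small (b b₂ : ℝ) (hb : 0 < b) (h0 : 0 < b₂) :
    Real.exp (-(⌊b / (100 * b₂)⌋₊ : ℝ)) * Real.exp (-(⌊b / (100 * b₂)⌋₊ : ℝ)) / b₂ ^ 2 ≤
      Real.exp 2 * 750000 * b₂ / b ^ 3 := by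
  obtain ⟨x, hx⟩ : ∃ x : ℝ, x = b / (50 * b₂) := ⟨_, rfl⟩
  have hx0 : 0 < x := by rw [hx]; positivity
  have h1 : b / (100 * b₂) < (⌊b / (100 * b₂)⌋₊ : ℝ) + 1 := Nat.lt_floor_add_one _
  have h2 : b / (100 * b₂) = x / 2 := by
    rw [hx]
    field_simp
    norm_num
  rw [h2] at h1 ⊢
  have h3 : Real.exp (-(⌊x / 2⌋₊ : ℝ)) * Real.exp (-(⌊x / 2⌋₊ : ℝ)) ≤
      Real.exp 2 * Real.exp (-x) := by
    rw [← Real.exp_add, ← Real.exp_add]
    refine Real.exp_le_exp.2 ?_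
    linarith
  have h4 : x ^ 3 / 6 ≤ Real.exp x := by
    have := Real.pow_div_factorial_le_exp x hx0.le 3
    norm_num [Nat.factorial] at this
    exact this
  have h5 : Real.exp (-x) ≤ 6 / x ^ 3 := by
    rw [Real.exp_neg, inv_eq_one_div, div_le_div_iff₀ (Real.exp_pos _) (by positivity)]
    linarith
  have h6 : 6 / x ^ 3 / b₂ ^ 2 = 750000 * b₂ / b ^ 3 := by
    rw [hx]
    field_simp
    norm_num
  calc Real.exp (-(⌊x / 2⌋₊ : ℝ)) * Real.exp (-(⌊x / 2⌋₊ : ℝ)) / b₂ ^ 2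
      ≤ Real.exp 2 * (6 / x ^ 3) / b₂ ^ 2 := by
        refine div_le_div_of_nonneg_right (h3.trans ?_) (by positivity)
        exact mul_le_mul_of_nonneg_left h5 (Real.exp_pos _).le
    _ = Real.exp 2 * (6 / x ^ 3 / b₂ ^ 2) := by ring
    _ = Real.exp 2 * 750000 * b₂ / b ^ 3 := by rw [h6]; ring

theorem HL2b_large (κ D ε : ℝ) (hκ : 0 < κ) (hD : 0 ≤ D) (hε : 0 < ε) :
    ∀ᶠ Y : ℝ in Filter.atTop, D * Y ^ (-κ) * Real.log Y ≤ ε := by
  have h1 : Filter.Tendsto (fun Y : ℝ => 2 * D / κ * Y ^ (-(κ / 2))) Filter.atTop (nhds 0) := by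
    have := (tendsto_rpow_neg_atTop (half_pos hκ)).const_mul (2 * D / κ)
    rwa [mul_zero] at this
  filter_upwards [h1.eventually_lt_const hε, Filter.eventually_ge_atTop (1 : ℝ)] with Y h2 h3
  have hY : 0 < Y := by linarith
  have h4 : Real.log Y ≤ Y ^ (κ / 2) / (κ / 2) := Real.log_le_rpow_div hY.le (half_pos hκ)
  have h5 : Y ^ (-κ) * Y ^ (κ / 2) = Y ^ (-(κ / 2)) := by
    rw [← Real.rpow_add hY]
    congr 1
    ring
  calc D * Y ^ (-κ) * Real.log Y ≤ D * Y ^ (-κ) * (Y ^ (κ / 2) / (κ / 2)) :=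
        mul_le_mul_of_nonneg_left h4 (mul_nonneg hD (Real.rpow_nonneg hY.le _))
    _ = 2 * D / κ * (Y ^ (-κ) * Y ^ (κ / 2)) := by
        field_simp
    _ = 2 * D / κ * Y ^ (-(κ / 2)) := by rw [h5]
    _ ≤ ε := h2.le

/-- The sum of the two parts. -/
theorem HL2b_sum (I : Finset CC) (E : CC → Set ℝ) (T V : ℝ) (hi0 : i0 ∈ I)
    (hE : ∀ i ∈ I, MeasurableSet (E i) ∧ E i ⊆ Set.Icc (-T) T)
    (hV : ∑ i ∈ I, (volume (E i)).toReal ≤ V) (N : ℕ) (a a' : ℕ → ℝ) (M U Q D : ℝ) (O : ℝ → ℂ)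
    (hD : 0 ≤ D)
    (hO : IntegrableOn (fun t => ‖O t‖ ^ 2) (E i0)) (hU : ∫ t in E i0, ‖O t‖ ^ 2 ≤ U)
    (h1 : ∀ i ∈ I, ∀ t ∈ E i, ‖DP N a i.2 t -
      (open Classical in if i = i0 then (M : ℂ) * O t else 0)‖ ≤ D)
    (h2 : ∑ i ∈ I, ∫ t in E i, ‖DP N a' i.2 t‖ ^ 2 ≤ Q) :
    ∑ i ∈ I, ∫ t in E i, ‖DP N (fun n => a n - a' n) i.2 t‖ ^ 2 ≤
      4 * M ^ 2 * U + 4 * D ^ 2 * V + 2 * Q := by
  classical
  have s1 : ∀ i ∈ I, ∫ t in E i, ‖DP N (fun n => a n - a' n) i.2 t‖ ^ 2 ≤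
      2 * (∫ t in E i, ‖DP N a i.2 t‖ ^ 2) + 2 * ∫ t in E i, ‖DP N a' i.2 t‖ ^ 2 := by
    intro i hi
    have c1 : Continuous fun t => ‖DP N a i.2 t‖ ^ 2 := (DP_continuous N a i.2).norm.pow 2
    have c2 : Continuous fun t => ‖DP N a' i.2 t‖ ^ 2 := (DP_continuous N a' i.2).norm.pow 2
    have c3 : Continuous fun t => ‖DP N (fun n => a n - a' n) i.2 t‖ ^ 2 :=
      (DP_continuous N _ i.2).norm.pow 2
    have i1 := HL2b_io (E i) T (hE i hi).2 _ c1
    have i2 := HL2b_io (E i) T (hE i hi).2 _ c2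
    have i3 := HL2b_io (E i) T (hE i hi).2 _ c3
    rw [← integral_const_mul, ← integral_const_mul,
      ← integral_add (i1.const_mul 2) (i2.const_mul 2)]
    refine setIntegral_mono_on i3 ((i1.const_mul 2).add (i2.const_mul 2)) (hE i hi).1
      fun t _ => ?_
    rw [HL2b_sub]
    have h3 := norm_sub_le (DP N a i.2 t) (DP N a' i.2 t)
    have h4 : ‖DP N a i.2 t - DP N a' i.2 t‖ ^ 2 ≤
        (‖DP N a i.2 t‖ + ‖DP N a' i.2 t‖) ^ 2 := pow_le_pow_left₀ (norm_nonneg _) h3 2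
    show _ ≤ 2 * ‖DP N a i.2 t‖ ^ 2 + 2 * ‖DP N a' i.2 t‖ ^ 2
    nlinarith [sq_nonneg (‖DP N a i.2 t‖ - ‖DP N a' i.2 t‖)]
  have s2 : ∀ i ∈ I, ∫ t in E i, ‖DP N a i.2 t‖ ^ 2 ≤
      (if i = i0 then 2 * M ^ 2 * U else 0) + (volume (E i)).toReal * (2 * D ^ 2) := by
    intro i hi
    have c1 : Continuous fun t => ‖DP N a i.2 t‖ ^ 2 := (DP_continuous N a i.2).norm.pow 2
    have i1 := HL2b_io (E i) T (hE i hi).2 _ c1
    have hci : IntegrableOn (fun _ : ℝ => 2 * D ^ 2) (E i) :=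
      integrableOn_const (HL2b_fin (E i) T (hE i hi).2)
    by_cases hii : i = i0
    · rw [if_pos hii]
      have hb' : ∀ t ∈ E i, ‖DP N a i.2 t‖ ^ 2 ≤ 2 * M ^ 2 * ‖O t‖ ^ 2 + 2 * D ^ 2 := by
        intro t ht
        have h3 := h1 i hi t ht
        rw [if_pos hii] at h3
        have h4 : ‖DP N a i.2 t‖ ≤ |M| * ‖O t‖ + D := by
          have h5 : DP N a i.2 t = (M : ℂ) * O t + (DP N a i.2 t - (M : ℂ) * O t) := by ring
          rw [h5]
          refine (norm_add_le _ _).trans (add_le_add (le_of_eq ?_) h3)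
          rw [norm_mul, Complex.norm_real, Real.norm_eq_abs]
        have h6 : ‖DP N a i.2 t‖ ^ 2 ≤ (|M| * ‖O t‖ + D) ^ 2 :=
          pow_le_pow_left₀ (norm_nonneg _) h4 2
        have h7 : M ^ 2 = |M| ^ 2 := (sq_abs M).symm
        rw [h7]
        nlinarith [sq_nonneg (|M| * ‖O t‖ - D)]
      subst hii
      have hO' : IntegrableOn (fun t => 2 * M ^ 2 * ‖O t‖ ^ 2) (E i0) volume :=
        Integrable.const_mul hO (2 * M ^ 2)
      calc ∫ t in E i0, ‖DP N a i0.2 t‖ ^ 2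
          ≤ ∫ t in E i0, (2 * M ^ 2 * ‖O t‖ ^ 2 + 2 * D ^ 2) :=
            setIntegral_mono_on i1 (hO'.add hci) (hE i0 hi).1 hb'
        _ = 2 * M ^ 2 * (∫ t in E i0, ‖O t‖ ^ 2) +
            (volume (E i0)).toReal * (2 * D ^ 2) := by
            rw [integral_add (hO.const_mul _) hci, integral_const_mul, setIntegral_const]
            rfl
        _ ≤ 2 * M ^ 2 * U + (volume (E i0)).toReal * (2 * D ^ 2) := by
            have := mul_le_mul_of_nonneg_left hU (show 0 ≤ 2 * M ^ 2 by positivity)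
            linarith
    · rw [if_neg hii, zero_add]
      have hb' : ∀ t ∈ E i, ‖DP N a i.2 t‖ ^ 2 ≤ 2 * D ^ 2 := by
        intro t ht
        have h3 := h1 i hi t ht
        rw [if_neg hii, sub_zero] at h3
        have h6 : ‖DP N a i.2 t‖ ^ 2 ≤ D ^ 2 := pow_le_pow_left₀ (norm_nonneg _) h3 2
        nlinarith [sq_nonneg D]
      calc ∫ t in E i, ‖DP N a i.2 t‖ ^ 2 ≤ ∫ _t in E i, 2 * D ^ 2 :=
            setIntegral_mono_on i1 hci (hE i hi).1 hb'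
        _ = (volume (E i)).toReal * (2 * D ^ 2) := by
            rw [setIntegral_const]
            rfl
  refine (Finset.sum_le_sum s1).trans ?_
  rw [Finset.sum_add_distrib, ← Finset.mul_sum, ← Finset.mul_sum]
  have s3 := Finset.sum_le_sum s2
  rw [Finset.sum_add_distrib, Finset.sum_ite_eq', if_pos hi0, ← Finset.sum_mul] at s3
  have s4 := mul_le_mul_of_nonneg_right hV (show 0 ≤ 2 * D ^ 2 by positivity)
  nlinarith

theorem HL2b_num (CM C₁ C₂ b₂ η ε K L w e y u v q m m' Mass S D : ℝ) (hCM : 1 ≤ CM)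
    (hC₁ : 0 < C₁) (hC₂ : 0 < C₂) (hb₂ : 0 < b₂) (hη : 0 < η) (hη1 : η ≤ 1) (hε : 0 < ε)
    (hL : 1 ≤ L) (hw : w = η * L) (he0 : 0 ≤ e) (he1 : e ≤ 1) (hy0 : 0 ≤ y) (hy1 : y ≤ 1)
    (hm0 : 0 ≤ m) (hm : m ≤ CM / (b₂ * L)) (hmm : |m - m'| ≤ CM * e / (b₂ * L)) (hK1 : 1 ≤ K)
    (hK : 512 * Real.pi * CM ^ 2 / (b₂ ^ 2 * η ^ 2 * ε) ≤ K)
    (hMass : Mass ≤ |m - m'| * w + 2 * (C₁ * u)) (hu0 : 0 ≤ u) (hu : u ≤ y ^ 2)
    (hv : v * y = 1) (hv0 : 0 ≤ v) (hq0 : 0 ≤ q) (hq : q ≤ y) (hsm : e * e / b₂ ^ 2 ≤ S * b₂)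
    (hQ : 2 * CM * C₂ * S * b₂ ≤ ε / 4)
    (hD : D = 4 * C₁ ^ 2 + 4 * C₁ * C₂ / b₂ + 2 * CM * η / b₂ + 4 * C₁)
    (hDy : D * y * L ≤ ε / 2) :
    4 * m ^ 2 * (32 * Real.pi / (w ^ 2 * (K / L) ^ 3)) + 4 * (C₁ * u) ^ 2 * v +
      2 * (Mass * (C₂ * e / (b₂ * L) + q)) ≤ ε / L := by
  have hL0 : 0 < L := by linarith
  have hK0 : 0 < K := by linarith
  have hpi := Real.pi_pos
  -- part 1
  have p1 : 4 * m ^ 2 * (32 * Real.pi / (w ^ 2 * (K / L) ^ 3)) ≤ ε / 4 / L := by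
    have a1 : m ^ 2 ≤ (CM / (b₂ * L)) ^ 2 := pow_le_pow_left₀ hm0 hm 2
    have a2 : 4 * m ^ 2 * (32 * Real.pi / (w ^ 2 * (K / L) ^ 3)) ≤
        4 * (CM / (b₂ * L)) ^ 2 * (32 * Real.pi / (w ^ 2 * (K / L) ^ 3)) :=
      mul_le_mul_of_nonneg_right (mul_le_mul_of_nonneg_left a1 (by norm_num)) (by positivity)
    refine a2.trans ?_
    have a3 : 4 * (CM / (b₂ * L)) ^ 2 * (32 * Real.pi / (w ^ 2 * (K / L) ^ 3)) =
        128 * Real.pi * CM ^ 2 / (b₂ ^ 2 * η ^ 2) / K ^ 3 / L := by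
      rw [hw]
      field_simp
      norm_num
    rw [a3]
    refine div_le_div_of_nonneg_right ?_ hL0.le
    rw [div_le_iff₀ (by positivity)]
    have a4 : K ≤ K ^ 3 := by
      nlinarith [mul_nonneg (sub_nonneg.2 hK1) (sub_nonneg.2 hK1), sq_nonneg K]
    have a5 : 128 * Real.pi * CM ^ 2 / (b₂ ^ 2 * η ^ 2) =
        ε / 4 * (512 * Real.pi * CM ^ 2 / (b₂ ^ 2 * η ^ 2 * ε)) := by
      field_simp
      norm_num
    rw [a5]
    exact mul_le_mul_of_nonneg_left (hK.trans a4) (by positivity)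
  -- part 2
  have hy2 : y ^ 2 ≤ y := by nlinarith
  have p2 : 4 * (C₁ * u) ^ 2 * v ≤ 4 * C₁ ^ 2 * y := by
    have a1 : u ^ 2 ≤ (y ^ 2) ^ 2 := pow_le_pow_left₀ hu0 hu 2
    have a2 : (y ^ 2) ^ 2 * v = y ^ 3 * (v * y) := by ring
    have a3 : u ^ 2 * v ≤ y ^ 3 := by
      have := mul_le_mul_of_nonneg_right a1 hv0
      rwa [a2, hv, mul_one] at this
    have a4 : y ^ 3 ≤ y := by nlinarith [mul_nonneg hy0 hy0]
    have a5 : 4 * (C₁ * u) ^ 2 * v = 4 * C₁ ^ 2 * (u ^ 2 * v) := by ring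
    rw [a5]
    exact mul_le_mul_of_nonneg_left (a3.trans a4) (by positivity)
  -- part 3
  have p3 : 2 * (Mass * (C₂ * e / (b₂ * L) + q)) ≤
      ε / 4 / L + (4 * C₁ * C₂ / b₂ + 2 * CM * η / b₂ + 4 * C₁) * y := by
    have a1 : Mass ≤ CM * e * η / b₂ + 2 * C₁ * y := by
      have a2 : |m - m'| * w ≤ CM * e / (b₂ * L) * w :=
        mul_le_mul_of_nonneg_right hmm (by rw [hw]; positivity)
      have a3 : CM * e / (b₂ * L) * w = CM * e * η / b₂ := by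
        rw [hw]
        field_simp
      have a4 : C₁ * u ≤ C₁ * y := mul_le_mul_of_nonneg_left (hu.trans hy2) hC₁.le
      linarith
    have a2 : Mass * (C₂ * e / (b₂ * L) + q) ≤
        (CM * e * η / b₂ + 2 * C₁ * y) * (C₂ * e / (b₂ * L) + y) := by
      refine (mul_le_mul_of_nonneg_right a1 (by positivity)).trans ?_
      exact mul_le_mul_of_nonneg_left (by linarith) (by positivity)
    have a3 : 2 * ((CM * e * η / b₂ + 2 * C₁ * y) * (C₂ * e / (b₂ * L) + y)) =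
        2 * CM * C₂ * η * (e * e / b₂ ^ 2) / L + 2 * CM * η / b₂ * (e * y) +
          4 * C₁ * C₂ / b₂ * (e / L * y) + 4 * C₁ * y ^ 2 := by
      field_simp
      ring
    have a4 : 2 * CM * C₂ * η * (e * e / b₂ ^ 2) / L ≤ ε / 4 / L := by
      refine div_le_div_of_nonneg_right (le_trans ?_ hQ) hL0.le
      have b1 : 0 ≤ e * e / b₂ ^ 2 := by positivity
      have b2 : η * (e * e / b₂ ^ 2) ≤ S * b₂ := by
        refine le_trans ?_ hsm
        nlinarith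
      calc 2 * CM * C₂ * η * (e * e / b₂ ^ 2) = 2 * CM * C₂ * (η * (e * e / b₂ ^ 2)) := by ring
        _ ≤ 2 * CM * C₂ * (S * b₂) := mul_le_mul_of_nonneg_left b2 (by positivity)
        _ = 2 * CM * C₂ * S * b₂ := by ring
    have a5 : 2 * CM * η / b₂ * (e * y) ≤ 2 * CM * η / b₂ * y := by
      refine mul_le_mul_of_nonneg_left ?_ (by positivity)
      nlinarith
    have a6 : 4 * C₁ * C₂ / b₂ * (e / L * y) ≤ 4 * C₁ * C₂ / b₂ * y := by
      refine mul_le_mul_of_nonneg_left ?_ (by positivity)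
      have : e / L ≤ 1 := by
        rw [div_le_one hL0]
        linarith
      nlinarith
    have a7 : 4 * C₁ * y ^ 2 ≤ 4 * C₁ * y := mul_le_mul_of_nonneg_left hy2 (by positivity)
    have a8 := mul_le_mul_of_nonneg_left a2 (by norm_num : (0 : ℝ) ≤ 2)
    rw [a3] at a8
    linarith
  have p4 : D * y ≤ ε / 2 / L := by
    rw [le_div_iff₀ hL0]
    exact hDy
  have p5 : ε / L = ε / 4 / L + ε / 4 / L + ε / 2 / L := by ring
  rw [p5]
  have p6 : D * y = 4 * C₁ ^ 2 * y + (4 * C₁ * C₂ / b₂ + 2 * CM * η / b₂ + 4 * C₁) * y := by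
    rw [hD]
    ring
  linarith

/-- **The rough integers themselves.** Here `h` is the tent of half width `η log Y` at `c`, and the sets avoid a
neighbourhood of `0` for the trivial character.

Proof. Let `bb = ⌊b / (100 b₂)⌋`, `z = Y ^ b₂`, so that `z ^ (4 bb + 5) ≤ Y ^ (b / 8)` for `b₂` small. Write `rh = tp' - (tp' - rh)`.
First part: by `sieve_smooth` (`A = (b / 2) log Y`, say) `DP (tp' h)` is `O (Y ^ (- κ'))` for `i ≠ i0`, and
`Mp * osc h + O (Y ^ (- κ'))` for `i0`, with `|osc h (t)| ≤ 4 / (η log Y t ^ 2)` (`osc_tent`): the mean square over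
`|t| ≥ K / log Y` is `≤ C / (b₂ ^ 2 η ^ 2 K ^ 3 log Y)`. Second part: `halasz` with
`ν (n) = (tp' - tm') (n) Wm A m (log n) / n` (`0 ≤ tp' - rh ≤ tp' - tm'`, so `ν > 0` where the coefficient is not `0`), the sum
`∑ |a n / n| ^ 2 / ν n ≤ ∑ (tp' - tm') h / n ≤ C exp (- bb) η / b₂ + Y ^ (- κ')` (`sieve_smooth` with `u = 0`, `Mp_bounds`), and
`Λ ≤ C exp (- bb) / (b₂ log Y) + Y ^ (- κ' / 2)` by `kernel`. The product is
`C exp (- 2 bb) / (b₂ ^ 2 log Y)`, and `bb ≥ b / (100 b₂) - 1`. -/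
theorem l2_rest (b η ε : ℝ) (hb : 0 < b) (hb1 : b ≤ 1) (hη : 0 < η) (hη1 : η ≤ 1) (hε : 0 < ε) :
    ∃ b₀ : ℝ, 0 < b₀ ∧ ∀ b₂ : ℝ, 0 < b₂ → b₂ ≤ b₀ → ∃ K κ δ Y₀ : ℝ, 0 < K ∧ 0 < κ ∧ 0 < δ ∧ 3 ≤ Y₀ ∧
      ∀ (Y c : ℝ) (E : CC → Set ℝ) (N : ℕ), Y₀ ≤ Y → Fam ⌊Y ^ δ⌋₊ (Y ^ 2) (Y ^ κ) E →
        (∀ t ∈ E i0, K / Real.log Y ≤ |t|) → b * Real.log Y ≤ c - η * Real.log Y →
        c + η * Real.log Y ≤ 6 * Real.log Y → Y ^ 6 ≤ N →
          ∑ i ∈ CR ⌊Y ^ δ⌋₊, ∫ t in E i,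
            ‖DP N (fun n => rh (Y ^ b₂) n * tent ((Real.log n - c) / (η * Real.log Y))) i.2 t‖ ^ 2 ≤
              ε / Real.log Y := by
  classical
  obtain ⟨κ₁, C₁, hκ₁, hC₁, hpt⟩ := HL2b_pt b hb
  obtain ⟨κ₂, δ₂, C₂, hκ₂, hδ₂, hC₂, hhal⟩ := HL2b_hal b hb hb1
  obtain ⟨CM, hCM, hM⟩ := Mp_bounds
  obtain ⟨Q, hQ⟩ : ∃ Q : ℝ, Q = 2 * CM * C₂ * (Real.exp 2 * 750000 / b ^ 3) := ⟨_, rfl⟩
  have hQ0 : 0 < Q := by rw [hQ]; positivity
  refine ⟨min (b / 100) (ε / (4 * Q)), lt_min (by positivity) (by positivity), ?_⟩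
  intro b₂ hb₂ hb₂'
  have hb₂1 : b₂ ≤ b / 100 := hb₂'.trans (min_le_left _ _)
  have hb₂2 : b₂ ≤ ε / (4 * Q) := hb₂'.trans (min_le_right _ _)
  obtain ⟨bb, hbb⟩ : ∃ bb : ℕ, bb = ⌊b / (100 * b₂)⌋₊ := ⟨_, rfl⟩
  have hbb1 : 1 ≤ bb := by
    rw [hbb, Nat.one_le_floor_iff, le_div_iff₀ (by positivity)]
    linarith
  have hbb2 : (bb : ℝ) * (100 * b₂) ≤ b := by
    rw [← le_div_iff₀ (by positivity), hbb]
    exact Nat.floor_le (by positivity)
  obtain ⟨Yh, hYh, hh⟩ := hhal b₂ hb₂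
  obtain ⟨K, hK⟩ : ∃ K : ℝ, K = 1 + 512 * Real.pi * CM ^ 2 / (b₂ ^ 2 * η ^ 2 * ε) := ⟨_, rfl⟩
  have hK1 : 1 ≤ K := by
    rw [hK]
    have : 0 ≤ 512 * Real.pi * CM ^ 2 / (b₂ ^ 2 * η ^ 2 * ε) := by positivity
    linarith
  obtain ⟨κ, hκ⟩ : ∃ κ : ℝ, κ = min κ₁ κ₂ / 2 := ⟨_, rfl⟩
  have hκ0 : 0 < κ := by rw [hκ]; exact half_pos (lt_min hκ₁ hκ₂)
  have hκa : 2 * κ ≤ κ₁ := by rw [hκ]; linarith [min_le_left κ₁ κ₂]
  have hκb : 2 * κ ≤ κ₂ := by rw [hκ]; linarith [min_le_right κ₁ κ₂]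
  obtain ⟨δ, hδ⟩ : ∃ δ : ℝ, δ = min δ₂ κ₁ := ⟨_, rfl⟩
  have hδ0 : 0 < δ := by rw [hδ]; exact lt_min hδ₂ hκ₁
  obtain ⟨D, hD⟩ : ∃ D : ℝ, D = 4 * C₁ ^ 2 + 4 * C₁ * C₂ / b₂ + 2 * CM * η / b₂ + 4 * C₁ :=
    ⟨_, rfl⟩
  have hD0 : 0 ≤ D := by rw [hD]; positivity
  have hev : ∀ᶠ Y : ℝ in Filter.atTop, Yh ≤ Y ∧ 2 ≤ Y ^ b₂ ∧ 1 ≤ η * Real.log Y ∧
      1 ≤ Real.log Y ∧ D * Y ^ (-κ) * Real.log Y ≤ ε / 2 := by
    have e1 := Filter.eventually_ge_atTop Yh
    have e2 := (tendsto_rpow_atTop hb₂).eventually_ge_atTop 2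
    have e3 := (Real.tendsto_log_atTop.const_mul_atTop hη).eventually_ge_atTop 1
    have e4 := Real.tendsto_log_atTop.eventually_ge_atTop 1
    have e5 := HL2b_large κ D (ε / 2) hκ0 hD0 (half_pos hε)
    filter_upwards [e1, e2, e3, e4, e5] with Y f1 f2 f3 f4 f5
    exact ⟨f1, f2, f3, f4, f5⟩
  obtain ⟨Y₁, hY₁⟩ := Filter.eventually_atTop.1 hev
  refine ⟨K, κ, δ, max Y₁ 3, by linarith, hκ0, hδ0, le_max_right _ _, ?_⟩
  intro Y c E N hY hE hE0 hc1 hc2 hN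
  obtain ⟨f1, f2, f3, f4, f5⟩ := hY₁ Y ((le_max_left _ _).trans hY)
  have hY3 : 3 ≤ Y := (le_max_right _ _).trans hY
  have hY0 : 0 < Y := by linarith
  have hL0 : 0 < Real.log Y := by linarith
  obtain ⟨z, hz⟩ : ∃ z : ℝ, z = Y ^ b₂ := ⟨_, rfl⟩
  obtain ⟨w, hw⟩ : ∃ w : ℝ, w = η * Real.log Y := ⟨_, rfl⟩
  obtain ⟨R, hR⟩ : ∃ R : ℕ, R = ⌊Y ^ δ⌋₊ := ⟨_, rfl⟩
  rw [← hR] at hE ⊢
  rw [← hz] at f2 ⊢
  rw [← hw] at f3 hc1 hc2 ⊢
  have hw0 : 0 < w := by linarith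
  have hlogz : Real.log z = b₂ * Real.log Y := by
    rw [hz, Real.log_rpow hY0]
  have hzb : z ^ (4 * bb + 5) ≤ Y ^ (b / 8) := by
    rw [hz, ← Real.rpow_natCast, ← Real.rpow_mul hY0.le]
    refine Real.rpow_le_rpow_of_exponent_le (by linarith) ?_
    push_cast
    nlinarith
  have hlogN : 6 * Real.log Y ≤ Real.log N := by
    have h1 := Real.log_le_log (by positivity) hN
    rwa [Real.log_pow] at h1
  have hN1 : 1 ≤ N := by
    have h1 : (0 : ℝ) < N := lt_of_lt_of_le (by positivity) hN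
    exact_mod_cast h1
  have hR1 : (R : ℝ) ≤ Y ^ κ₁ := by
    rw [hR]
    refine (Nat.floor_le (by positivity)).trans ?_
    refine Real.rpow_le_rpow_of_exponent_le (by linarith) ?_
    rw [hδ]
    exact min_le_right _ _
  have hR2 : R ≤ ⌊Y ^ δ₂⌋₊ := by
    rw [hR]
    refine Nat.floor_le_floor (Real.rpow_le_rpow_of_exponent_le (by linarith) ?_)
    rw [hδ]
    exact min_le_left _ _
  have hi0 : i0 ∈ CR R := by
    refine i0_mem R ?_
    rw [hR, Nat.one_le_floor_iff]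
    exact Real.one_le_rpow (by linarith) hδ0.le
  have p1 := fun (i : CC) (hi : i ∈ CR R) (t : ℝ) (ht : |t| ≤ Y ^ 2) =>
    hpt Y z c w t bb R N i hY3 f2 hbb1 hzb f3 hc1 (hc2.trans hlogN) hN1 hR1 hi ht
  have q0 := p1 i0 hi0 0 (by rw [abs_zero]; positivity)
  rw [if_pos rfl, if_pos rfl] at q0
  have q1 := HL2b_mass (Mp z bb 1) (Mm z bb 1) w c (C₁ * Y ^ (-κ₁)) z bb N hw0 q0.1 q0.2
  have q2 := hM z bb 1 f2 hbb1 le_rfl
  have q3 := hh Y z c w (Y ^ κ) bb R N E f1 hz.ge f2 hbb1 hzb hw0 hc1 hc2 hN hR2 hE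
  obtain ⟨hEa, hEb⟩ := hE
  have q4 := HL2b_tail w c (K / Real.log Y) hw0 (by positivity) (E i0) (hEa i0 hi0).1 (Y ^ 2)
    (hEa i0 hi0).2 hE0
  have hOint : IntegrableOn (fun t => ‖osc (fun v => tent ((v - c) / w)) t‖ ^ 2) (E i0) := by
    have g1 : Integrable fun t => ‖osc (fun v => tent ((v - c) / w)) t‖ :=
      (osc_tent_int w c hw0).1
    have g2 : Integrable fun t => w * ‖osc (fun v => tent ((v - c) / w)) t‖ := g1.const_mul w
    refine (g2.mono' (g1.aestronglyMeasurable.pow 2) ?_).integrableOn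
    refine Filter.Eventually.of_forall fun t => ?_
    have g3 := (osc_tent w c t hw0).1
    rw [Real.norm_eq_abs, Pi.pow_apply, abs_of_nonneg (by positivity), sq]
    exact mul_le_mul_of_nonneg_right g3 (norm_nonneg _)
  have q5 := HL2b_sum (CR R) E (Y ^ 2) (Y ^ κ) hi0 hEa hEb N
    (fun n => tp' z bb n * tent ((Real.log n - c) / w))
    (fun n => (tp' z bb n - rh z n) * tent ((Real.log n - c) / w)) (Mp z bb 1)
    (32 * Real.pi / (w ^ 2 * (K / Real.log Y) ^ 3)) _ (C₁ * Y ^ (-κ₁))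
    (fun t => osc (fun v => tent ((v - c) / w)) t) (by positivity) hOint q4
    (fun i hi t ht => (p1 i hi t (by
      have := (hEa i hi).2 ht
      rw [Set.mem_Icc] at this
      exact abs_le.2 this)).1) q3
  have q6 : ∀ n : ℕ, rh z n * tent ((Real.log n - c) / w) =
      tp' z bb n * tent ((Real.log n - c) / w) -
        (tp' z bb n - rh z n) * tent ((Real.log n - c) / w) := fun n => by ring
  simp only [q6]
  refine q5.trans ?_
  obtain ⟨q2a, q2b, q2c, -⟩ := q2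
  rw [hlogz] at q2b q2c ⊢
  have hS : Real.exp (-(bb : ℝ)) * Real.exp (-(bb : ℝ)) / b₂ ^ 2 ≤
      (Real.exp 2 * 750000 / b ^ 3) * b₂ := by
    have := HL2b_small b b₂ hb hb₂
    rw [← hbb] at this
    refine this.trans (le_of_eq ?_)
    ring
  have hQb : 2 * CM * C₂ * (Real.exp 2 * 750000 / b ^ 3) * b₂ ≤ ε / 4 := by
    rw [← hQ]
    rw [le_div_iff₀ (by positivity)] at hb₂2
    linarith
  refine HL2b_num CM C₁ C₂ b₂ η ε K (Real.log Y) w (Real.exp (-(bb : ℝ))) (Y ^ (-κ))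
    (Y ^ (-κ₁)) (Y ^ κ) (Y ^ κ * Y ^ (-κ₂)) (Mp z bb 1) (Mm z bb 1) _
    (Real.exp 2 * 750000 / b ^ 3) D hCM hC₁ hC₂ hb₂ hη hη1 hε f4 hw (Real.exp_pos _).le ?_
    (Real.rpow_nonneg hY0.le _) ?_ q2a q2b q2c hK1 ?_ q1 (Real.rpow_nonneg hY0.le _) ?_ ?_
    (Real.rpow_nonneg hY0.le _) (by positivity) ?_ hS hQb hD f5
  · rw [Real.exp_le_one_iff]
    have : (0 : ℝ) ≤ bb := Nat.cast_nonneg _
    linarith
  · exact Real.rpow_le_one_of_one_le_of_nonpos (by linarith) (by linarith)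
  · rw [hK]
    linarith
  · rw [← Real.rpow_natCast (Y ^ (-κ)) 2, ← Real.rpow_mul hY0.le]
    refine Real.rpow_le_rpow_of_exponent_le (by linarith) ?_
    push_cast
    linarith
  · rw [← Real.rpow_add hY0]
    simp
  · rw [← Real.rpow_add hY0]
    exact Real.rpow_le_rpow_of_exponent_le (by linarith) (by linarith)

end Pool.Agent.M58
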