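import Pool.Agent.W_b58c63_m1.HKer

/-!
# The number of rough integers (helper68)
-/

set_option autoImplicit false

noncomputable section

open Finset MeasureTheory

namespace Pool.Agent.M58

/-- The trapezoid. -/
def HL2c_h (c w v : ℝ) : ℝ := max 0 (min 1 (w + 1 - |v - c|))

theorem HL2c_h01 (c w v : ℝ) : 0 ≤ HL2c_h c w v ∧ HL2c_h c w v ≤ 1 := by
  unfold HL2c_h
  exact ⟨le_max_left _ _, max_le zero_le_one (min_le_left _ _)⟩

theorem HL2c_h1 (c w v : ℝ) (h : |v - c| ≤ w) : HL2c_h c w v = 1 := by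
  unfold HL2c_h
  rw [min_eq_left (by linarith), max_eq_right zero_le_one]

theorem HL2c_h0 (c w v : ℝ) (h : w + 1 ≤ |v - c|) : HL2c_h c w v = 0 := by
  unfold HL2c_h
  exact max_eq_left ((min_le_right _ _).trans (by linarith))

theorem HL2c_lip (c w v v' : ℝ) : |HL2c_h c w v - HL2c_h c w v'| ≤ 1 * |v - v'| := by
  unfold HL2c_h
  refine (abs_max_sub_max_le_max _ _ _ _).trans ?_
  rw [sub_self, abs_zero, one_mul]
  refine max_le (abs_nonneg _) ?_
  refine (abs_min_sub_min_le_max _ _ _ _).trans ?_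
  rw [sub_self, abs_zero]
  refine max_le (abs_nonneg _) ?_
  have h1 : w + 1 - |v - c| - (w + 1 - |v' - c|) = |v' - c| - |v - c| := by ring
  rw [h1]
  refine (abs_abs_sub_abs_le_abs_sub _ _).trans ?_
  rw [abs_sub_comm v v']
  apply le_of_eq
  congr 1
  ring

theorem HL2c_osc (c w : ℝ) (hw : 0 ≤ w) : ‖osc (HL2c_h c w) 0‖ ≤ 2 * (w + 1) := by
  have hi : Integrable (Set.indicator (Set.Icc (c - (w + 1)) (c + (w + 1))) fun _ : ℝ => (1 : ℝ)) := by
    rw [integrable_indicator_iff measurableSet_Icc]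
    exact integrableOn_const (by simp) (by simp)
  have h1 : ‖osc (HL2c_h c w) 0‖ ≤
      ∫ v : ℝ, Set.indicator (Set.Icc (c - (w + 1)) (c + (w + 1))) (fun _ => (1 : ℝ)) v := by
    unfold osc
    refine norm_integral_le_of_norm_le hi (Filter.Eventually.of_forall fun v => ?_)
    have e1 : Complex.exp (-((0 * v : ℝ) : ℂ) * Complex.I) = 1 := by simp
    rw [e1, mul_one, Complex.norm_real, Real.norm_of_nonneg (HL2c_h01 c w v).1]
    by_cases hv : v ∈ Set.Icc (c - (w + 1)) (c + (w + 1))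
    · rw [Set.indicator_of_mem hv]
      exact (HL2c_h01 c w v).2
    · rw [Set.indicator_of_notMem hv, HL2c_h0]
      rw [Set.mem_Icc, not_and_or, not_le, not_le] at hv
      rw [le_abs]
      rcases hv with hv | hv
      · right
        linarith
      · left
        linarith
  refine h1.trans (le_of_eq ?_)
  rw [integral_indicator measurableSet_Icc, setIntegral_const, smul_eq_mul, mul_one]
  rw [Real.volume_real_Icc_of_le (by linarith)]
  ring

theorem HL2c_rh (z z' : ℝ) (h : z ≤ z') (n : ℕ) : rh z' n ≤ rh z n := by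
  unfold rh
  by_cases h1 : n ≠ 0 ∧ ∀ p ∈ n.primeFactors, z' ≤ (p : ℝ)
  · rw [if_pos h1, if_pos ⟨h1.1, fun p hp => h.trans (h1.2 p hp)⟩]
  · rw [if_neg h1]
    split_ifs <;> norm_num

theorem HL2c_DP (N : ℕ) (a : ℕ → ℝ) : DP N a (1 : DirichletCharacter ℂ 1) 0 =
    ((∑ n ∈ Icc 1 N, a n / n : ℝ) : ℂ) := by
  unfold DP
  rw [Complex.ofReal_sum]
  refine Finset.sum_congr rfl fun n hn => ?_
  have h1 : (1 : DirichletCharacter ℂ 1) (n : ZMod 1) = 1 :=
    MulChar.one_apply (isUnit_of_subsingleton _)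
  have h2 : nit n 0 = 1 := by
    unfold nit
    simp
  rw [h1, h2, mul_one, mul_one]

/-- The number of rough integers: `∑ rh / n` over an interval on the logarithmic scale.

Proof. Majorise by `tp' z 1` with `z = Y ^ (min θ (b / 100))` and a trapezoid which is `1` on `[c - w, c + w]` with ramps of
length `1`; `sieve_smooth` with `u = 0`, `q = 1`, `Mp_bounds`. -/
theorem rough_mass (b θ : ℝ) (hb : 0 < b) (hb1 : b ≤ 1) (hθ : 0 < θ) : ∃ C Y₀ : ℝ, 0 < C ∧ 3 ≤ Y₀ ∧
    ∀ (Y c w : ℝ) (N : ℕ), Y₀ ≤ Y → 1 ≤ w → b * Real.log Y ≤ c - w → c + w ≤ 10 * Real.log Y →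
      ∑ n ∈ (Icc 1 N).filter (fun n : ℕ => c - w ≤ Real.log n ∧ Real.log n ≤ c + w),
        rh (Y ^ θ) n / n ≤ C * w / Real.log Y := by
  obtain ⟨κ, C, hκ, -, hC, H⟩ := sieve_smooth 1 one_pos
  obtain ⟨C₁, hC₁, HM⟩ := Mp_bounds
  set η := min θ (b / 100) with hη
  have hη0 : 0 < η := lt_min hθ (by positivity)
  have hηθ : η ≤ θ := min_le_left _ _
  have hηb : η ≤ b / 100 := min_le_right _ _
  refine ⟨4 * C₁ / η + 4 * C / (κ * b), Real.exp (2 / b + 1 / η + 2), by positivity, ?_, ?_⟩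
  · have h1 : (0 : ℝ) < 2 / b + 1 / η := by positivity
    have h2 := Real.add_one_le_exp (2 / b + 1 / η + 2)
    linarith
  intro Y c w N hY hw hc1 hc2
  have hYpos : 0 < Y := (Real.exp_pos _).trans_le hY
  have hL : 2 / b + 1 / η + 2 ≤ Real.log Y := (Real.le_log_iff_exp_le hYpos).2 hY
  have hb2 : (0 : ℝ) < 2 / b := by positivity
  have hη2 : (0 : ℝ) < 1 / η := by positivity
  set L := Real.log Y with hLdef
  have hL0 : 0 < L := by linarith
  set A := b * L / 2 with hA
  have hA1 : 1 ≤ A := by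
    have h1 : 2 / b ≤ L := by linarith
    rw [div_le_iff₀ hb] at h1
    rw [hA]
    linarith
  set z := Y ^ η with hz
  have hY1 : 1 ≤ Y := by
    have := Real.log_pos_iff hYpos.le |>.1 hL0
    linarith
  have hlz : Real.log z = η * L := by rw [hz, Real.log_rpow hYpos]
  have hz0 : 0 < z := Real.rpow_pos_of_pos hYpos _
  have hz2 : 2 ≤ z := by
    have h1 : 1 / η ≤ L := by linarith
    rw [div_le_iff₀ hη0] at h1
    have h2 : z = Real.exp (η * L) := by rw [← hlz, Real.exp_log hz0]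
    rw [h2]
    have := Real.add_one_le_exp (η * L)
    linarith
  have hzA : z ^ (4 * 1 + 5) ≤ Real.exp (A / 2) := by
    have h2 : z = Real.exp (η * L) := by rw [← hlz, Real.exp_log hz0]
    rw [h2, ← Real.exp_nat_mul]
    refine Real.exp_le_exp.2 ?_
    push_cast
    rw [hA]
    nlinarith
  set N' := N + ⌈Real.exp (c + w + 1)⌉₊ + 1 with hN'
  have hN'1 : 1 ≤ N' := by omega
  have hN'2 : c + w + 1 ≤ Real.log N' := by
    rw [Real.le_log_iff_exp_le (by exact_mod_cast hN'1)]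
    have := Nat.le_ceil (Real.exp (c + w + 1))
    rw [hN']
    push_cast
    have h0 : (0 : ℝ) ≤ N := Nat.cast_nonneg N
    linarith
  have key := (H z 1 1 N' 1 A 0 1 1 (HL2c_h c w) hz2 le_rfl hzA le_rfl hN'1
    (by rw [abs_zero]; positivity)
    (by rw [Nat.cast_one]; exact Real.one_le_exp (by positivity))
    (fun v => by rw [abs_of_nonneg (HL2c_h01 c w v).1]; exact (HL2c_h01 c w v).2)
    (HL2c_lip c w)
    (fun v hv => HL2c_h0 c w v (by
      rw [le_abs]
      right
      linarith))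
    (fun v hv => HL2c_h0 c w v (by
      rw [le_abs]
      left
      linarith))).1
  rw [if_pos rfl, HL2c_DP] at key
  have hM := HM z 1 1 hz2 le_rfl le_rfl
  have hlow : ∑ n ∈ (Icc 1 N).filter (fun n : ℕ => c - w ≤ Real.log n ∧ Real.log n ≤ c + w),
        rh (Y ^ θ) n / n ≤ ∑ n ∈ Icc 1 N', tp' z 1 n * HL2c_h c w (Real.log n) / n := by
    have hsub : (Icc 1 N).filter (fun n : ℕ => c - w ≤ Real.log n ∧ Real.log n ≤ c + w) ⊆
        Icc 1 N' := by
      refine (filter_subset _ _).trans (Icc_subset_Icc_right (by omega))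
    refine le_trans (sum_le_sum fun n hn => ?_) (sum_le_sum_of_subset_of_nonneg hsub ?_)
    · rw [mem_filter, mem_Icc] at hn
      have h1 := rh_bounds z hz2 1 n hn.1.1
      have h2 : HL2c_h c w (Real.log n) = 1 := by
        refine HL2c_h1 c w _ ?_
        rw [abs_le]
        constructor <;> linarith [hn.2.1, hn.2.2]
      rw [h2, mul_one]
      refine div_le_div_of_nonneg_right ?_ (Nat.cast_nonneg n)
      refine (HL2c_rh z (Y ^ θ) ?_ n).trans h1.2.1
      exact Real.rpow_le_rpow_of_exponent_le hY1 hηθ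
    · intro n hn _
      rw [mem_Icc] at hn
      have h1 := rh_bounds z hz2 1 n hn.1
      exact div_nonneg (mul_nonneg h1.2.2 (HL2c_h01 c w _).1) (Nat.cast_nonneg n)
  refine hlow.trans ?_
  have h1 : ∑ n ∈ Icc 1 N', tp' z 1 n * HL2c_h c w (Real.log n) / n ≤
      Mp z 1 1 * (2 * (w + 1)) + C * (1 + 1) * Real.exp (-κ * A) := by
    have h2 : ‖((∑ n ∈ Icc 1 N', tp' z 1 n * HL2c_h c w (Real.log n) / n : ℝ) : ℂ)‖ ≤
        ‖(Mp z 1 1 : ℂ) * osc (HL2c_h c w) 0‖ + C * (1 + 1) * Real.exp (-κ * A) := by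
      have h3 := norm_add_le (((∑ n ∈ Icc 1 N', tp' z 1 n * HL2c_h c w (Real.log n) / n : ℝ) : ℂ) -
        (Mp z 1 1 : ℂ) * osc (HL2c_h c w) 0) ((Mp z 1 1 : ℂ) * osc (HL2c_h c w) 0)
      rw [sub_add_cancel] at h3
      linarith
    rw [norm_mul, Complex.norm_real, Complex.norm_real, Real.norm_of_nonneg hM.1] at h2
    have h4 := mul_le_mul_of_nonneg_left (HL2c_osc c w (by linarith)) hM.1
    have h5 := Real.le_norm_self (∑ n ∈ Icc 1 N', tp' z 1 n * HL2c_h c w (Real.log n) / n)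
    linarith
  refine h1.trans ?_
  have h2 : Mp z 1 1 * (2 * (w + 1)) ≤ C₁ / (η * L) * (4 * w) := by
    have h3 := hM.2.1
    rw [hlz] at h3
    exact mul_le_mul h3 (by linarith) (by linarith) (by positivity)
  have h3 : Real.exp (-κ * A) ≤ 2 / (κ * b) / L := by
    have h4 : κ * A ≤ Real.exp (κ * A) := by
      have := Real.add_one_le_exp (κ * A)
      linarith
    have h5 : -κ * A = -(κ * A) := by ring
    rw [h5, Real.exp_neg]
    have h6 : 0 < κ * A := by positivity
    have h7 : 2 / (κ * b) / L = (κ * A)⁻¹ := by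
      rw [hA]
      field_simp
    rw [h7]
    exact inv_anti₀ h6 h4
  have h4 : C * (1 + 1) * Real.exp (-κ * A) ≤ C * (1 + 1) * (2 / (κ * b) / L * w) := by
    refine mul_le_mul_of_nonneg_left (h3.trans ?_) (by positivity)
    have : 0 ≤ 2 / (κ * b) / L := by positivity
    nlinarith
  calc Mp z 1 1 * (2 * (w + 1)) + C * (1 + 1) * Real.exp (-κ * A)
      ≤ C₁ / (η * L) * (4 * w) + C * (1 + 1) * (2 / (κ * b) / L * w) := add_le_add h2 h4
    _ = (4 * C₁ / η + 4 * C / (κ * b)) * w / L := by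
        field_simp
        ring

end Pool.Agent.M58
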