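import Pool.Agent.W_b58c63_m1.GPaB
import Pool.Agent.W_b58c63_h68.SW
import Pool.Agent.W_b58c63_m1.HL2
import Pool.Agent.W_b58c63_m1.HL2b
import Pool.Agent.W_b58c63_m1.HL2c

/-!
# Prime polynomials of bounded logarithmic smoothness: definitions (helper68)
-/

set_option autoImplicit false

noncomputable section

open Finset MeasureTheory Complex

namespace Pool.Agent.M58

/-- Test functions on the logarithmic scale: bounded by `1`, Lipschitz with constant `1 / (η log Y)`, supported in
`[a log Y, 6 log Y]`. -/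
def Tst (Y a η : ℝ) (h : ℝ → ℝ) : Prop :=
  (∀ v, |h v| ≤ 1) ∧ (∀ v w, |h v - h w| ≤ |v - w| / (η * Real.log Y)) ∧
    (∀ v, v ≤ a * Real.log Y → h v = 0) ∧ (∀ v, 6 * Real.log Y ≤ v → h v = 0)

/-- The weight of the primes. -/
def pw (h : ℝ → ℝ) (n : ℕ) : ℝ := if n.Prime then h (Real.log n) else 0

/-- **The property of the prime polynomials**: for all primitive characters of conductor `≤ Y ^ δ` and `|t| ≤ Y ^ (3 / 2)` they
are small, up to the main term for the trivial character and a term of an exceptional character. -/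
def PBL (Y δ a η ε : ℝ) (i1 : CC) (β : ℝ) : Prop :=
  ∀ (h : ℝ → ℝ) (N : ℕ), Tst Y a η h → Y ^ 6 ≤ N → ∀ i ∈ CR ⌊Y ^ δ⌋₊, ∀ t : ℝ, |t| ≤ Y ^ (3 / 2 : ℝ) →
    ‖DP N (pw h) i.2 t - (open Classical in if i = i0 then osc (fun v => h v / v) t else 0) +
      (open Classical in if i = i1 then osc (fun v => h v / v * Real.exp (-(1 - β) * v)) t else 0)‖ ≤ ε

/-- Monotonicity. -/
theorem PBL_mono {Y δ a η ε δ' a' η' ε' : ℝ} {i1 : CC} {β : ℝ} (hY : 1 ≤ Y) (h : PBL Y δ a η ε i1 β) (h1 : δ' ≤ δ)
    (h2 : a ≤ a') (h3 : η ≤ η') (hη : 0 < η) (h4 : ε ≤ ε') : PBL Y δ' a' η' ε' i1 β := by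
  intro g N hg hN i hi t ht
  have hL : 0 ≤ Real.log Y := Real.log_nonneg hY
  refine (h g N ⟨hg.1, ?_, ?_, hg.2.2.2⟩ hN i ?_ t ht).trans h4
  · intro v w
    refine (hg.2.1 v w).trans ?_
    rcases hL.eq_or_lt with h0 | h0
    · rw [← h0]; simp
    · exact div_le_div_of_nonneg_left (abs_nonneg _) (by positivity)
        (mul_le_mul_of_nonneg_right h3 hL)
  · intro v hv
    exact hg.2.2.1 v (hv.trans (mul_le_mul_of_nonneg_right h2 hL))
  · unfold CR at hi ⊢
    rw [Finset.mem_sigma] at hi ⊢
    refine ⟨?_, hi.2⟩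
    rw [Finset.mem_Icc] at hi ⊢
    exact ⟨hi.1.1, hi.1.2.trans (Nat.floor_le_floor (Real.rpow_le_rpow_of_exponent_le hY h1))⟩

theorem GPb_lip {L a η : ℝ} {h : ℝ → ℝ} (hL : 0 < L) (ha : 0 < a) (ha1 : a ≤ 1) (hη : 0 < η)
    (hη1 : η ≤ 1) (h1 : ∀ v, |h v| ≤ 1) (h2 : ∀ v w, |h v - h w| ≤ |v - w| / (η * L))
    (h3 : ∀ v, v ≤ a * L → h v = 0) {v w : ℝ} (hvw : v ≤ w) :
    |h v / v - h w / w| ≤ 2 / (a ^ 2 * η * L ^ 2) * (w - v) := by
  have hvw0 : 0 ≤ w - v := by linarith
  have haL : 0 < a * L := by positivity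
  have hK0 : 0 ≤ 2 / (a ^ 2 * η * L ^ 2) := by positivity
  have e1 : 1 / (a * η * L ^ 2) ≤ 1 / (a ^ 2 * η * L ^ 2) := by
    apply one_div_le_one_div_of_le (by positivity)
    have : a ^ 2 ≤ a := by nlinarith
    have h5 : 0 ≤ η * L ^ 2 := by positivity
    nlinarith
  have e2 : 1 / (a ^ 2 * L ^ 2) ≤ 1 / (a ^ 2 * η * L ^ 2) := by
    apply one_div_le_one_div_of_le (by positivity)
    have h5 : 0 ≤ a ^ 2 * L ^ 2 := by positivity
    nlinarith
  have e3 : 2 / (a ^ 2 * η * L ^ 2) = 1 / (a ^ 2 * η * L ^ 2) + 1 / (a ^ 2 * η * L ^ 2) := by ring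
  rcases le_or_gt w (a * L) with hw | hw
  · rw [h3 v (hvw.trans hw), h3 w hw]
    simp only [zero_div, sub_zero, abs_zero]
    positivity
  · have hw0 : 0 < w := haL.trans hw
    rcases le_or_gt v (a * L) with hv | hv
    · rw [h3 v hv, zero_div, zero_sub, abs_neg, abs_div, abs_of_pos hw0]
      have h4 : |h w| ≤ (w - v) / (η * L) := by
        have h5 := h2 w v
        rw [h3 v hv, sub_zero, abs_of_nonneg hvw0] at h5
        exact h5
      calc |h w| / w ≤ ((w - v) / (η * L)) / (a * L) := by
            apply div_le_div₀ (by positivity) h4 haL hw.le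
        _ = 1 / (a * η * L ^ 2) * (w - v) := by
            field_simp
        _ ≤ 2 / (a ^ 2 * η * L ^ 2) * (w - v) := by
            apply mul_le_mul_of_nonneg_right _ hvw0
            rw [e3]
            have : 0 ≤ 1 / (a ^ 2 * η * L ^ 2) := by positivity
            linarith
    · have hv0 : 0 < v := haL.trans hv
      have e4 : h v / v - h w / w = (h v - h w) / v + h w * ((w - v) / (v * w)) := by
        field_simp
        ring
      have e5 : |(h v - h w) / v| ≤ 1 / (a * η * L ^ 2) * (w - v) := by
        rw [abs_div, abs_of_pos hv0]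
        have h5 := h2 v w
        rw [abs_sub_comm v w, abs_of_nonneg hvw0] at h5
        calc |h v - h w| / v ≤ ((w - v) / (η * L)) / (a * L) := by
              apply div_le_div₀ (by positivity) h5 haL hv.le
          _ = 1 / (a * η * L ^ 2) * (w - v) := by
              field_simp
      have e6 : |h w * ((w - v) / (v * w))| ≤ 1 / (a ^ 2 * L ^ 2) * (w - v) := by
        rw [abs_mul, abs_of_nonneg (show 0 ≤ (w - v) / (v * w) by positivity)]
        have h6 : (w - v) / (v * w) ≤ (w - v) / (a ^ 2 * L ^ 2) := by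
          apply div_le_div_of_nonneg_left hvw0 (by positivity)
          have : a ^ 2 * L ^ 2 = (a * L) * (a * L) := by ring
          rw [this]
          exact mul_le_mul hv.le (hv.le.trans hvw) haL.le hv0.le
        calc |h w| * ((w - v) / (v * w)) ≤ 1 * ((w - v) / (v * w)) := by
              apply mul_le_mul_of_nonneg_right (h1 w) (by positivity)
          _ ≤ (w - v) / (a ^ 2 * L ^ 2) := by rw [one_mul]; exact h6
          _ = 1 / (a ^ 2 * L ^ 2) * (w - v) := by ring
      rw [e4, e3, add_mul]
      refine (abs_add_le _ _).trans (add_le_add (e5.trans ?_) (e6.trans ?_))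
      · exact mul_le_mul_of_nonneg_right e1 hvw0
      · exact mul_le_mul_of_nonneg_right e2 hvw0

theorem GPb_cont {L a η : ℝ} {h : ℝ → ℝ} (hL : 0 < L) (ha : 0 < a) (ha1 : a ≤ 1) (hη : 0 < η)
    (hη1 : η ≤ 1) (h1 : ∀ v, |h v| ≤ 1) (h2 : ∀ v w, |h v - h w| ≤ |v - w| / (η * L))
    (h3 : ∀ v, v ≤ a * L → h v = 0) : Continuous fun v => h v / v := by
  have h4 : LipschitzWith (Real.toNNReal (2 / (a ^ 2 * η * L ^ 2))) fun v => h v / v := by
    apply LipschitzWith.of_dist_le_mul
    intro v w
    rw [Real.dist_eq, Real.dist_eq, Real.coe_toNNReal _ (by positivity)]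
    rcases le_total v w with hvw | hvw
    · rw [abs_sub_comm v w, abs_of_nonneg (sub_nonneg.mpr hvw)]
      exact GPb_lip hL ha ha1 hη hη1 h1 h2 h3 hvw
    · rw [abs_sub_comm, abs_of_nonneg (sub_nonneg.mpr hvw)]
      exact GPb_lip hL ha ha1 hη hη1 h1 h2 h3 hvw
  exact h4.continuous

theorem GPb_shift {F : ℝ → ℝ} (hF : Integrable F) {t : ℝ} (ht : 0 < t) :
    ‖osc F t‖ ≤ (1 / 2) * ∫ v, |F v - F (v + Real.pi / t)| := by
  set δ := Real.pi / t with hδ
  let G : ℝ → ℂ := fun v => (F v : ℂ) * Complex.exp (-(t * v : ℝ) * Complex.I)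
  have hFc : Integrable fun v => (F v : ℂ) := hF.ofReal
  have hFs : Integrable fun v => (F (v + δ) : ℂ) := (hF.comp_add_right δ).ofReal
  have hbd : ∀ v : ℝ, ‖Complex.exp (-(t * v : ℝ) * Complex.I)‖ = 1 := by
    intro v
    have := Complex.norm_exp_ofReal_mul_I (-(t * v))
    simpa using this
  have hGi : Integrable G := by
    refine hFc.mul_bdd (c := 1) (by fun_prop) (Filter.Eventually.of_forall fun v => (hbd v).le)
  have hGs : Integrable fun v => (F (v + δ) : ℂ) * Complex.exp (-(t * v : ℝ) * Complex.I) := by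
    refine hFs.mul_bdd (c := 1) (by fun_prop) (Filter.Eventually.of_forall fun v => (hbd v).le)
  have h1 : ∫ v, G v = - ∫ v, (F (v + δ) : ℂ) * Complex.exp (-(t * v : ℝ) * Complex.I) := by
    rw [← integral_add_right_eq_self G δ, ← integral_neg]
    congr 1
    funext v
    show (F (v + δ) : ℂ) * Complex.exp (-(t * (v + δ) : ℝ) * Complex.I) = _
    have h2 : t * (v + δ) = t * v + Real.pi := by
      rw [hδ]; field_simp
    rw [h2]
    have h3 : Complex.exp (-((t * v + Real.pi : ℝ) : ℂ) * Complex.I)
        = - Complex.exp (-(t * v : ℝ) * Complex.I) := by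
      push_cast
      have h4 : -((t : ℂ) * v + Real.pi) * Complex.I = -((t : ℂ) * v) * Complex.I - Real.pi * Complex.I := by
        ring
      rw [h4, Complex.exp_sub, Complex.exp_pi_mul_I]
      ring
    rw [h3]
    ring
  have h2 : (2 : ℂ) * osc F t = ∫ v, ((F v : ℂ) - F (v + δ)) * Complex.exp (-(t * v : ℝ) * Complex.I) := by
    have h3 : osc F t = ∫ v, G v := rfl
    have h4 : ∫ v, ((F v : ℂ) - F (v + δ)) * Complex.exp (-(t * v : ℝ) * Complex.I)
        = (∫ v, G v) - ∫ v, (F (v + δ) : ℂ) * Complex.exp (-(t * v : ℝ) * Complex.I) := by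
      rw [← integral_sub hGi hGs]
      congr 1
      funext v
      show _ = (F v : ℂ) * Complex.exp (-(t * v : ℝ) * Complex.I) - _
      ring
    rw [h4, h3]
    linear_combination h1
  have h3 : ‖(2 : ℂ) * osc F t‖ ≤ ∫ v, |F v - F (v + δ)| := by
    rw [h2]
    refine (norm_integral_le_integral_norm _).trans (le_of_eq ?_)
    congr 1
    funext v
    rw [norm_mul, hbd, mul_one, ← Complex.ofReal_sub, Complex.norm_real, Real.norm_eq_abs]
  rw [norm_mul] at h3
  have h4 : ‖(2 : ℂ)‖ = 2 := by simp
  rw [h4] at h3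
  linarith

theorem GPb_expint (α δ b c : ℝ) (hα : 0 ≤ α) (hδ : 0 ≤ δ) (hb : 0 ≤ b) :
    ∫ v in b..c, (Real.exp (-α * v) - Real.exp (-α * (v + δ))) ≤ δ := by
  have hc : Continuous fun v : ℝ => Real.exp (-α * v) := by fun_prop
  have h1 : ∫ v in b..c, (Real.exp (-α * v) - Real.exp (-α * (v + δ)))
      = (∫ v in b..c, Real.exp (-α * v)) - ∫ v in (b + δ)..(c + δ), Real.exp (-α * v) := by
    rw [intervalIntegral.integral_sub (hc.intervalIntegrable _ _)
      ((by fun_prop : Continuous fun v : ℝ => Real.exp (-α * (v + δ))).intervalIntegrable _ _)]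
    rw [← intervalIntegral.integral_comp_add_right (fun v => Real.exp (-α * v))]
  have h2 : (∫ v in b..c, Real.exp (-α * v)) - ∫ v in (b + δ)..(c + δ), Real.exp (-α * v)
      = (∫ v in b..(b + δ), Real.exp (-α * v)) - ∫ v in c..(c + δ), Real.exp (-α * v) := by
    have i1 := intervalIntegral.integral_add_adjacent_intervals
      (hc.intervalIntegrable (μ := volume) b c) (hc.intervalIntegrable (μ := volume) c (c + δ))
    have i2 := intervalIntegral.integral_add_adjacent_intervals
      (hc.intervalIntegrable (μ := volume) b (b + δ)) (hc.intervalIntegrable (μ := volume) (b + δ) (c + δ))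
    linarith
  have h3 : 0 ≤ ∫ v in c..(c + δ), Real.exp (-α * v) :=
    intervalIntegral.integral_nonneg (by linarith) fun v _ => (Real.exp_pos _).le
  have h4 : ∫ v in b..(b + δ), Real.exp (-α * v) ≤ ∫ v in b..(b + δ), (1 : ℝ) := by
    apply intervalIntegral.integral_mono_on (by linarith) (hc.intervalIntegrable _ _)
      (continuous_const.intervalIntegrable _ _)
    intro v hv
    rw [Real.exp_le_one_iff]
    have : 0 ≤ v := hb.trans hv.1
    nlinarith
  rw [h1, h2]
  have h5 : ∫ v in b..(b + δ), (1 : ℝ) = δ := by simp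
  linarith

/-- Decay of the main terms.

Proof. `h v / v * exp (- α v)` is Lipschitz with constant `≤ C / (a ^ 2 η (log Y) ^ 2)` for `α = 0`; in general its variation is
`≤ C / (a η log Y)` (`exp (- α v)` is monotone); integrate by parts (or use differences at distance `π / t`:
`2 osc f t = ∫ (f v - f (v + π / t)) e ^ (- i t v) dv`). -/
theorem osc_decay (a η : ℝ) (ha : 0 < a) (ha1 : a ≤ 1) (hη : 0 < η) (hη1 : η ≤ 1) : ∃ C : ℝ, 0 < C ∧
    ∀ (Y α t : ℝ) (h : ℝ → ℝ), 3 ≤ Y → Tst Y a η h → 0 ≤ α →
      ‖osc (fun v => h v / v * Real.exp (-α * v)) t‖ ≤ C ∧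
      ‖osc (fun v => h v / v * Real.exp (-α * v)) t‖ * (|t| * Real.log Y) ≤ C := by
  refine ⟨6 / a + 6 / a * Real.pi + Real.pi * (14 / (a ^ 2 * η) + 1 / a), by positivity, ?_⟩
  intro Y α t h hY hT hα
  set L := Real.log Y with hLd
  have hL : 0 < L := Real.log_pos (by linarith)
  obtain ⟨h1, h2, h3, h4⟩ := hT
  have haL : 0 < a * L := by positivity
  have haL6 : a * L ≤ 6 * L := by nlinarith
  set F : ℝ → ℝ := fun v => h v / v * Real.exp (-α * v) with hFd
  have hgc : Continuous fun v => h v / v := GPb_cont hL ha ha1 hη hη1 h1 h2 h3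
  have hFc : Continuous F := hgc.mul (by fun_prop)
  have hF0 : ∀ v, v ∉ Set.Icc (a * L) (6 * L) → F v = 0 := by
    intro v hv
    have : h v = 0 := by
      by_cases hv1 : v ≤ a * L
      · exact h3 v hv1
      · apply h4 v
        by_contra hc
        exact hv ⟨(not_le.mp hv1).le, (not_le.mp hc).le⟩
    rw [hFd]
    simp [this]
  have hFi : Integrable F := by
    apply hFc.integrable_of_hasCompactSupport
    exact HasCompactSupport.intro isCompact_Icc hF0
  have hFb : ∀ v, |F v| ≤ Set.indicator (Set.Icc (a * L) (6 * L)) (fun _ => 1 / (a * L)) v := by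
    intro v
    by_cases hv : v ∈ Set.Icc (a * L) (6 * L)
    · rw [Set.indicator_of_mem hv]
      have hv0 : 0 < v := haL.trans_le hv.1
      rw [hFd]
      show |h v / v * Real.exp (-α * v)| ≤ _
      rw [abs_mul, abs_div, abs_of_pos hv0, abs_of_pos (Real.exp_pos _)]
      have e1 : |h v| / v ≤ 1 / (a * L) := div_le_div₀ zero_le_one (h1 v) haL hv.1
      have e2 : Real.exp (-α * v) ≤ 1 := by
        rw [Real.exp_le_one_iff]; nlinarith
      calc |h v| / v * Real.exp (-α * v) ≤ (1 / (a * L)) * 1 :=
            mul_le_mul e1 e2 (Real.exp_pos _).le (by positivity)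
        _ = 1 / (a * L) := mul_one _
    · rw [Set.indicator_of_notMem hv, hF0 v hv, abs_zero]
  have hB1 : ∀ s : ℝ, ‖osc F s‖ ≤ 6 / a := by
    intro s
    have e1 : ‖osc F s‖ ≤ ∫ v, |F v| := by
      unfold osc
      refine (norm_integral_le_integral_norm _).trans (le_of_eq ?_)
      congr 1
      funext v
      rw [norm_mul, Complex.norm_real, Real.norm_eq_abs]
      have := Complex.norm_exp_ofReal_mul_I (-(s * v))
      rw [Complex.ofReal_neg] at this
      rw [this, mul_one]
    have e2 : ∫ v, |F v| ≤ ∫ v, Set.indicator (Set.Icc (a * L) (6 * L)) (fun _ => 1 / (a * L)) v := by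
      apply integral_mono hFi.abs
      · exact (integrable_indicator_iff measurableSet_Icc).mpr
          (integrableOn_const (by simp))
      · exact hFb
    have e3 : ∫ v, Set.indicator (Set.Icc (a * L) (6 * L)) (fun _ => 1 / (a * L)) v
        = (6 * L - a * L) * (1 / (a * L)) := by
      rw [integral_indicator measurableSet_Icc, setIntegral_const]
      simp only [Measure.real, Real.volume_Icc, smul_eq_mul]
      rw [ENNReal.toReal_ofReal (by linarith)]
    rw [e3] at e2
    refine e1.trans (e2.trans ?_)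
    rw [mul_one_div, div_le_div_iff₀ haL ha]
    nlinarith [mul_pos ha haL]
  have hBt : ∀ s : ℝ, 0 < s → ‖osc F s‖ * (s * L) ≤
      6 / a * Real.pi + Real.pi * (14 / (a ^ 2 * η) + 1 / a) := by
    intro s hs
    rcases le_or_gt (s * L) Real.pi with hsL | hsL
    · have : ‖osc F s‖ * (s * L) ≤ 6 / a * Real.pi :=
        mul_le_mul (hB1 s) hsL (by positivity) (by positivity)
      have h5 : 0 ≤ Real.pi * (14 / (a ^ 2 * η) + 1 / a) := by positivity
      linarith
    · set δ := Real.pi / s with hδ
      have hδ0 : 0 < δ := by positivity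
      have hδL : δ ≤ L := by
        rw [hδ, div_le_iff₀ hs]; linarith
      have e1 := GPb_shift hFi hs
      rw [← hδ] at e1
      set K := 2 / (a ^ 2 * η * L ^ 2) with hK
      have hK0 : 0 < K := by positivity
      let A1 : ℝ → ℝ := Set.indicator (Set.Icc (a * L - δ) (6 * L)) (fun _ => K * δ)
      let A2 : ℝ → ℝ := Set.indicator (Set.Icc (a * L) (6 * L))
        (fun v => 1 / (a * L) * (Real.exp (-α * v) - Real.exp (-α * (v + δ))))
      have hpt : ∀ v, |F v - F (v + δ)| ≤ A1 v + A2 v := by
        intro v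
        have hexp : Real.exp (-α * (v + δ)) ≤ Real.exp (-α * v) := by
          apply Real.exp_le_exp.mpr; nlinarith
        have hA1 : 0 ≤ A1 v := Set.indicator_nonneg (fun _ _ => by positivity) v
        have hA2 : 0 ≤ A2 v := Set.indicator_nonneg (fun w _ => by
          have : Real.exp (-α * (w + δ)) ≤ Real.exp (-α * w) := by
            apply Real.exp_le_exp.mpr; nlinarith
          have h5 : 0 ≤ Real.exp (-α * w) - Real.exp (-α * (w + δ)) := by linarith
          positivity) v
        have hsplit : F v - F (v + δ) = (h v / v - h (v + δ) / (v + δ)) * Real.exp (-α * (v + δ))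
            + h v / v * (Real.exp (-α * v) - Real.exp (-α * (v + δ))) := by
          rw [hFd]
          ring
        rw [hsplit]
        refine (abs_add_le _ _).trans (add_le_add ?_ ?_)
        · by_cases hv : v ∈ Set.Icc (a * L - δ) (6 * L)
          · have hA : A1 v = K * δ := Set.indicator_of_mem hv _
            rw [hA, abs_mul, abs_of_pos (Real.exp_pos _)]
            have e2 := GPb_lip hL ha ha1 hη hη1 h1 h2 h3 (show v ≤ v + δ by linarith)
            have e3 : v + δ - v = δ := by ring
            rw [e3] at e2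
            have e4 : Real.exp (-α * (v + δ)) ≤ 1 := by
              rw [Real.exp_le_one_iff]
              have : 0 ≤ v + δ := by linarith [hv.1]
              nlinarith
            calc |h v / v - h (v + δ) / (v + δ)| * Real.exp (-α * (v + δ)) ≤ (K * δ) * 1 :=
                  mul_le_mul e2 e4 (Real.exp_pos _).le (by positivity)
              _ = K * δ := mul_one _
          · have e2 : h v = 0 ∧ h (v + δ) = 0 := by
              by_cases hv1 : v < a * L - δ
              · exact ⟨h3 v (by linarith), h3 _ (by linarith)⟩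
              · have hv2 : 6 * L ≤ v := by
                  by_contra hc
                  exact hv ⟨not_lt.mp hv1, (not_le.mp hc).le⟩
                exact ⟨h4 v hv2, h4 _ (by linarith)⟩
            rw [e2.1, e2.2]
            simpa using hA1
        · by_cases hv : v ∈ Set.Icc (a * L) (6 * L)
          · have hA : A2 v = 1 / (a * L) * (Real.exp (-α * v) - Real.exp (-α * (v + δ))) :=
              Set.indicator_of_mem hv _
            rw [hA, abs_mul, abs_of_nonneg (sub_nonneg.mpr hexp)]
            apply mul_le_mul_of_nonneg_right _ (sub_nonneg.mpr hexp)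
            have hv0 : 0 < v := haL.trans_le hv.1
            rw [abs_div, abs_of_pos hv0]
            exact div_le_div₀ zero_le_one (h1 v) haL hv.1
          · have e2 : h v = 0 := by
              by_cases hv1 : v ≤ a * L
              · exact h3 v hv1
              · apply h4 v
                by_contra hc
                exact hv ⟨(not_le.mp hv1).le, (not_le.mp hc).le⟩
            rw [e2]
            simpa using hA2
      have hA1i : Integrable A1 := (integrable_indicator_iff measurableSet_Icc).mpr
          (integrableOn_const (by simp))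
      have hcc : Continuous fun v : ℝ =>
          1 / (a * L) * (Real.exp (-α * v) - Real.exp (-α * (v + δ))) := by fun_prop
      have hA2i : Integrable A2 := (integrable_indicator_iff measurableSet_Icc).mpr
          (hcc.continuousOn.integrableOn_compact isCompact_Icc)
      have hFsi : Integrable fun v => F v - F (v + δ) := hFi.sub (hFi.comp_add_right δ)
      have e2 : ∫ v, |F v - F (v + δ)| ≤ (∫ v, A1 v) + ∫ v, A2 v := by
        rw [← integral_add hA1i hA2i]
        exact integral_mono hFsi.abs (hA1i.add hA2i) hpt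
      have e3 : ∫ v, A1 v = (6 * L - (a * L - δ)) * (K * δ) := by
        show ∫ v, Set.indicator (Set.Icc (a * L - δ) (6 * L)) (fun _ => K * δ) v = _
        rw [integral_indicator measurableSet_Icc, setIntegral_const]
        simp only [Measure.real, Real.volume_Icc, smul_eq_mul]
        rw [ENNReal.toReal_ofReal (by linarith)]
      have e4 : ∫ v, A2 v ≤ δ / (a * L) := by
        show ∫ v, Set.indicator (Set.Icc (a * L) (6 * L))
          (fun v => 1 / (a * L) * (Real.exp (-α * v) - Real.exp (-α * (v + δ)))) v ≤ _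
        rw [integral_indicator measurableSet_Icc, integral_const_mul, integral_Icc_eq_integral_Ioc,
          ← intervalIntegral.integral_of_le haL6]
        have e5 := GPb_expint α δ (a * L) (6 * L) hα hδ0.le haL.le
        calc 1 / (a * L) * ∫ v in (a * L)..(6 * L), (Real.exp (-α * v) - Real.exp (-α * (v + δ)))
            ≤ 1 / (a * L) * δ := mul_le_mul_of_nonneg_left e5 (by positivity)
          _ = δ / (a * L) := by ring
      have e5 : (6 * L - (a * L - δ)) * (K * δ) ≤ 7 * L * (K * δ) := by
        apply mul_le_mul_of_nonneg_right _ (by positivity)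
        linarith
      have e6 : ‖osc F s‖ ≤ (1 / 2) * (7 * L * (K * δ) + δ / (a * L)) := by
        rw [e3] at e2
        linarith
      have e7 : (1 / 2) * (7 * L * (K * δ) + δ / (a * L)) * (s * L)
          = (1 / 2) * (Real.pi * (14 / (a ^ 2 * η) + 1 / a)) := by
        rw [hK, hδ]
        field_simp
        ring
      have e8 : ‖osc F s‖ * (s * L) ≤ (1 / 2) * (7 * L * (K * δ) + δ / (a * L)) * (s * L) :=
        mul_le_mul_of_nonneg_right e6 (by positivity)
      have e9 : 0 ≤ Real.pi * (14 / (a ^ 2 * η) + 1 / a) := by positivity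
      have e10 : 0 ≤ 6 / a * Real.pi := by positivity
      rw [e7] at e8
      linarith
  have hp1 : 0 ≤ 6 / a * Real.pi := by positivity
  have hp2 : 0 ≤ Real.pi * (14 / (a ^ 2 * η) + 1 / a) := by positivity
  have hp3 : 0 ≤ 6 / a := by positivity
  refine ⟨(hB1 t).trans (by linarith), ?_⟩
  rcases lt_trichotomy t 0 with ht | ht | ht
  · have e1 : ‖osc F t‖ = ‖osc F (-t)‖ := by
      have e2 : osc F (-t) = (starRingEnd ℂ) (osc F t) := by
        unfold osc
        rw [← integral_conj]
        congr 1
        funext v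
        rw [map_mul, Complex.conj_ofReal, ← Complex.exp_conj, map_mul, Complex.conj_I, map_neg,
          Complex.conj_ofReal]
        congr 2
        push_cast
        ring
      rw [e2, RCLike.norm_conj]
    rw [e1, abs_of_neg ht]
    have := hBt (-t) (by linarith)
    linarith
  · rw [ht]
    simp only [abs_zero, zero_mul, mul_zero]
    positivity
  · rw [abs_of_pos ht]
    have := hBt t ht
    linarith

end Pool.Agent.M58
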