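import Pool.Agent.W_b58c63_m1.GPb

/-!
# Prime polynomials, without the condition on the conductor of the exceptional character (helper68)
-/

set_option autoImplicit false

noncomputable section

open Finset MeasureTheory Complex

namespace Pool.Agent.M58

theorem GPc_interp (f : ℕ → ℝ) (K : ℕ) (hf : ∀ k, k ∉ Icc 1 K → f k = 0) (x : ℝ) (hx : 0 ≤ x) :
    ∑ k ∈ Icc 1 K, f k * tent (x - k) =
      (1 - (x - ⌊x⌋₊)) * f ⌊x⌋₊ + (x - ⌊x⌋₊) * f (⌊x⌋₊ + 1) := by
  classical
  have hm1 : (⌊x⌋₊ : ℝ) ≤ x := Nat.floor_le hx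
  have hm2 : x < ⌊x⌋₊ + 1 := Nat.lt_floor_add_one x
  generalize hm : ⌊x⌋₊ = m at hm1 hm2
  have h0 : ∀ k : ℕ, k ∉ ({m, m + 1} : Finset ℕ) → tent (x - k) = 0 := by
    intro k hk
    rw [Finset.mem_insert, Finset.mem_singleton, not_or] at hk
    unfold tent
    apply max_eq_left
    rcases lt_or_gt_of_ne hk.1 with h1 | h1
    · have h2 : (k : ℝ) + 1 ≤ m := by exact_mod_cast h1
      have := le_abs_self (x - k)
      linarith
    · have h1' : m + 2 ≤ k := by omega
      have h2 : (m : ℝ) + 2 ≤ k := by exact_mod_cast h1'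
      have := neg_le_abs (x - k)
      linarith
  have e1 : ∑ k ∈ Icc 1 K, f k * tent (x - k) =
      ∑ k ∈ Icc 1 K ∪ {m, m + 1}, f k * tent (x - k) :=
    Finset.sum_subset Finset.subset_union_left fun k _ hk => by rw [hf k hk, zero_mul]
  have e2 : ∑ k ∈ ({m, m + 1} : Finset ℕ), f k * tent (x - k) =
      ∑ k ∈ Icc 1 K ∪ {m, m + 1}, f k * tent (x - k) :=
    Finset.sum_subset Finset.subset_union_right fun k _ hk => by rw [h0 k hk, mul_zero]
  rw [e1, ← e2, Finset.sum_pair (by omega)]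
  have t1 : tent (x - m) = 1 - (x - m) := by
    unfold tent
    rw [abs_of_nonneg (by linarith)]
    exact max_eq_right (by linarith)
  have t2 : tent (x - ((m + 1 : ℕ) : ℝ)) = x - m := by
    unfold tent
    push_cast
    rw [abs_of_nonpos (by linarith)]
    rw [max_eq_right (by linarith)]
    ring
  rw [t1, t2]
  ring

/-- the interpolation of `h v / v` -/
def GPc_G (h : ℝ → ℝ) (w : ℝ) (K : ℕ) (v : ℝ) : ℝ :=
  ∑ k ∈ Icc 1 K, h (k * w) / (k * w) * tent ((v - k * w) / w)

theorem GPc_pt {Y a η μ : ℝ} {h : ℝ → ℝ} (hT : Tst Y a η h) (hl : 0 < Real.log Y) (ha : 0 < a)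
    (hη : 0 < η) (hμ : 0 < μ) (hμa : μ ≤ a / 2) (u v : ℝ)
    (huv : |v - u| ≤ μ * Real.log Y) :
    |h u / u - h v / v| ≤ μ * (1 / (a * η) + 2 / a ^ 2) / Real.log Y := by
  obtain ⟨h1, h2, h3, -⟩ := hT
  have hl' : 0 < a * Real.log Y := by positivity
  have hd : |h v - h u| ≤ μ / η := by
    refine (h2 v u).trans ?_
    rw [div_le_div_iff₀ (by positivity) hη]
    calc |v - u| * η ≤ (μ * Real.log Y) * η := mul_le_mul_of_nonneg_right huv hη.le
      _ = μ * (η * Real.log Y) := by ring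
  have hA : μ * (1 / (a * η) + 2 / a ^ 2) / Real.log Y =
      μ / η / (a * Real.log Y) + 2 * μ / a ^ 2 / Real.log Y := by
    field_simp
  rw [hA]
  have hA1 : 0 ≤ μ / η / (a * Real.log Y) := by positivity
  have hA2 : 0 ≤ 2 * μ / a ^ 2 / Real.log Y := by positivity
  by_cases hu : h u = 0
  · rw [hu, zero_div, zero_sub, abs_neg]
    by_cases hv : h v = 0
    · rw [hv, zero_div, abs_zero]
      linarith
    · have h4 : a * Real.log Y < v := by
        by_contra hcon
        exact hv (h3 v (not_lt.mp hcon))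
      rw [hu, sub_zero] at hd
      rw [abs_div, abs_of_pos (hl'.trans h4)]
      have h5 : |h v| / v ≤ μ / η / (a * Real.log Y) :=
        div_le_div₀ (by positivity) hd hl' h4.le
      linarith
  · have h4 : a * Real.log Y < u := by
      by_contra hcon
      exact hu (h3 u (not_lt.mp hcon))
    have hu0 : 0 < u := hl'.trans h4
    have h5 : a / 2 * Real.log Y ≤ v := by
      rw [abs_le] at huv
      have h6 : μ * Real.log Y ≤ a / 2 * Real.log Y := mul_le_mul_of_nonneg_right hμa hl.le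
      nlinarith [huv.1]
    have hv0 : 0 < v := lt_of_lt_of_le (by positivity) h5
    have h6 : h u / u - h v / v = -((h v - h u) / u) + h v * ((v - u) / (u * v)) := by
      field_simp
      ring
    rw [h6]
    refine (abs_add_le _ _).trans ?_
    refine add_le_add ?_ ?_
    · rw [abs_neg, abs_div, abs_of_pos hu0]
      exact div_le_div₀ (by positivity) hd hl' h4.le
    · rw [abs_mul, abs_div, abs_of_pos (mul_pos hu0 hv0)]
      have h7 : |v - u| / (u * v) ≤ 2 * μ / a ^ 2 / Real.log Y := by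
        have h8 : a * Real.log Y * (a / 2 * Real.log Y) ≤ u * v :=
          mul_le_mul h4.le h5 (by positivity) hu0.le
        refine (div_le_div₀ (by positivity) huv (by positivity) h8).trans (le_of_eq ?_)
        field_simp
      calc |h v| * (|v - u| / (u * v)) ≤ 1 * (|v - u| / (u * v)) :=
            mul_le_mul_of_nonneg_right (h1 v) (by positivity)
        _ ≤ _ := by rw [one_mul]; exact h7

theorem GPc_conv (x y θ B : ℝ) (h0 : 0 ≤ θ) (h1 : θ ≤ 1) (hx : |x| ≤ B) (hy : |y| ≤ B) :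
    |(1 - θ) * x + θ * y| ≤ B := by
  refine (abs_add_le _ _).trans ?_
  rw [abs_mul, abs_mul, abs_of_nonneg (by linarith : 0 ≤ 1 - θ), abs_of_nonneg h0]
  have h2 := mul_le_mul_of_nonneg_left hx (by linarith : 0 ≤ 1 - θ)
  have h3 := mul_le_mul_of_nonneg_left hy h0
  nlinarith

/-- the values outside of the support -/
theorem GPc_out {Y a η μ : ℝ} {h : ℝ → ℝ} (hT : Tst Y a η h) (hl : 0 < Real.log Y) (ha : 0 < a)
    (ha1 : a ≤ 1) (hμ : 0 < μ) (hμa : μ ≤ a / 2) (K : ℕ) (v : ℝ)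
    (hv : v < a / 2 * Real.log Y ∨ 7 * Real.log Y < v) :
    GPc_G h (μ * Real.log Y) K v = 0 ∧ h v = 0 := by
  obtain ⟨-, -, h3, h4⟩ := hT
  have hw : 0 < μ * Real.log Y := by positivity
  have hwa : μ * Real.log Y ≤ a / 2 * Real.log Y := mul_le_mul_of_nonneg_right hμa hl.le
  have hw1 : μ * Real.log Y ≤ Real.log Y := by nlinarith
  constructor
  · unfold GPc_G
    refine Finset.sum_eq_zero fun k _ => ?_
    by_cases hk : h (k * (μ * Real.log Y)) = 0
    · rw [hk, zero_div, zero_mul]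
    · have h5 : a * Real.log Y < k * (μ * Real.log Y) := by
        by_contra hcon
        exact hk (h3 _ (not_lt.mp hcon))
      have h6 : k * (μ * Real.log Y) < 6 * Real.log Y := by
        by_contra hcon
        exact hk (h4 _ (not_lt.mp hcon))
      have h7 : tent ((v - k * (μ * Real.log Y)) / (μ * Real.log Y)) = 0 := by
        unfold tent
        apply max_eq_left
        rw [abs_div, abs_of_pos hw, sub_nonpos, le_div_iff₀ hw, one_mul]
        rcases hv with hv | hv
        · have := neg_le_abs (v - k * (μ * Real.log Y))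
          nlinarith
        · have := le_abs_self (v - k * (μ * Real.log Y))
          linarith
      rw [h7, mul_zero]
  · rcases hv with hv | hv
    · apply h3
      nlinarith
    · apply h4
      linarith

theorem GPc_bd {Y a η μ : ℝ} {h : ℝ → ℝ} (hT : Tst Y a η h) (hl : 0 < Real.log Y) (ha : 0 < a)
    (ha1 : a ≤ 1) (hη : 0 < η) (hμ : 0 < μ) (hμa : μ ≤ a / 2) (K : ℕ) (hK : 6 ≤ (K + 1) * μ)
    (v : ℝ) :
    |GPc_G h (μ * Real.log Y) K v - h v / v| ≤
        μ * (1 / (a * η) + 2 / a ^ 2) / Real.log Y ∧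
      |GPc_G h (μ * Real.log Y) K v| ≤ 1 / (a * Real.log Y) := by
  have hw : 0 < μ * Real.log Y := by positivity
  rcases lt_or_ge v 0 with hv | hv
  · obtain ⟨h1, h2⟩ := GPc_out hT hl ha ha1 hμ hμa K v (Or.inl (hv.trans (by positivity)))
    rw [h1, h2, zero_div, sub_zero, abs_zero]
    exact ⟨by positivity, by positivity⟩
  have hf : ∀ k : ℕ, k ∉ Icc 1 K → h (k * (μ * Real.log Y)) / (k * (μ * Real.log Y)) = 0 := by
    intro k hk
    rw [Finset.mem_Icc, not_and_or] at hk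
    have h1 : h (k * (μ * Real.log Y)) = 0 := by
      rcases hk with hk | hk
      · have hk0 : k = 0 := by omega
        rw [hk0]
        apply hT.2.2.1
        rw [Nat.cast_zero, zero_mul]
        positivity
      · apply hT.2.2.2
        have h2 : (K : ℝ) + 1 ≤ k := by exact_mod_cast (by omega : K + 1 ≤ k)
        have h3 : ((K : ℝ) + 1) * μ ≤ k * μ := mul_le_mul_of_nonneg_right h2 hμ.le
        rw [← mul_assoc]
        exact mul_le_mul_of_nonneg_right (hK.trans h3) hl.le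
    rw [h1, zero_div]
  have hG : GPc_G h (μ * Real.log Y) K v =
      ∑ k ∈ Icc 1 K, (fun k : ℕ => h (k * (μ * Real.log Y)) / (k * (μ * Real.log Y))) k *
        tent (v / (μ * Real.log Y) - k) := by
    unfold GPc_G
    refine Finset.sum_congr rfl fun k _ => ?_
    congr 2
    rw [sub_div, mul_div_cancel_right₀ _ hw.ne']
  have hx : 0 ≤ v / (μ * Real.log Y) := div_nonneg hv hw.le
  rw [hG, GPc_interp _ K hf _ hx]
  have hm1 : (⌊v / (μ * Real.log Y)⌋₊ : ℝ) ≤ v / (μ * Real.log Y) := Nat.floor_le hx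
  have hm2 : v / (μ * Real.log Y) < ⌊v / (μ * Real.log Y)⌋₊ + 1 := Nat.lt_floor_add_one _
  generalize ⌊v / (μ * Real.log Y)⌋₊ = m at hm1 hm2 ⊢
  rw [le_div_iff₀ hw] at hm1
  rw [div_lt_iff₀ hw] at hm2
  have hθ0 : 0 ≤ v / (μ * Real.log Y) - m := by
    rw [sub_nonneg, le_div_iff₀ hw]
    exact hm1
  have hθ1 : v / (μ * Real.log Y) - m ≤ 1 := by
    rw [sub_le_iff_le_add, div_le_iff₀ hw]
    linarith
  generalize v / (μ * Real.log Y) - m = θ at hθ0 hθ1 ⊢
  have hp1 := GPc_pt hT hl ha hη hμ hμa (m * (μ * Real.log Y)) v (by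
    rw [abs_le]
    constructor <;> nlinarith)
  have hp2 := GPc_pt hT hl ha hη hμ hμa (((m + 1 : ℕ) : ℝ) * (μ * Real.log Y)) v (by
    rw [abs_le]
    push_cast
    constructor <;> nlinarith)
  constructor
  · have e : (1 - θ) * (h (m * (μ * Real.log Y)) / (m * (μ * Real.log Y))) +
        θ * (h (((m + 1 : ℕ) : ℝ) * (μ * Real.log Y)) / (((m + 1 : ℕ) : ℝ) * (μ * Real.log Y))) -
        h v / v =
        (1 - θ) * (h (m * (μ * Real.log Y)) / (m * (μ * Real.log Y)) - h v / v) +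
        θ * (h (((m + 1 : ℕ) : ℝ) * (μ * Real.log Y)) / (((m + 1 : ℕ) : ℝ) * (μ * Real.log Y)) -
          h v / v) := by ring
    rw [e]
    exact GPc_conv _ _ _ _ hθ0 hθ1 hp1 hp2
  · have hb : ∀ u : ℝ, |h u / u| ≤ 1 / (a * Real.log Y) := by
      intro u
      by_cases hu : h u = 0
      · rw [hu, zero_div, abs_zero]
        positivity
      · have h4 : a * Real.log Y < u := by
          by_contra hcon
          exact hu (hT.2.2.1 u (not_lt.mp hcon))
        have h5 : 0 < a * Real.log Y := by positivity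
        rw [abs_div, abs_of_pos (h5.trans h4)]
        exact div_le_div₀ zero_le_one (hT.1 u) h5 h4.le
    exact GPc_conv _ _ _ _ hθ0 hθ1 (hb _) (hb _)

theorem GPc_mert : ∃ C : ℝ, 0 ≤ C ∧ ∀ (l a : ℝ) (N : ℕ), 1 ≤ l → 0 < a → a ≤ 1 →
    ∑ n ∈ (Icc 1 N).filter (fun n : ℕ => n.Prime ∧ a / 2 * l ≤ Real.log n ∧ Real.log n ≤ 7 * l),
      1 / (n : ℝ) ≤ 2 / a * (7 + C) := by
  obtain ⟨C, hC0, hC⟩ := Twist.mertens
  refine ⟨C, hC0, fun l a N hl ha ha1 => ?_⟩
  have h1 := hC (7 * l) (by linarith)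
  rw [abs_le] at h1
  have h2 : ∑ n ∈ (Icc 1 N).filter
        (fun n : ℕ => n.Prime ∧ a / 2 * l ≤ Real.log n ∧ Real.log n ≤ 7 * l), 1 / (n : ℝ) ≤
      2 / (a * l) * Twist.ML (7 * l) := by
    unfold Twist.ML Twist.S Twist.lam
    rw [Finset.mul_sum]
    refine (Finset.sum_le_sum (g := fun n : ℕ => 2 / (a * l) *
          (ArithmeticFunction.vonMangoldt n / n)) ?_).trans
          (Finset.sum_le_sum_of_subset_of_nonneg ?_ ?_)
    · intro n hn
      rw [Finset.mem_filter] at hn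
      obtain ⟨-, hp, hn2, -⟩ := hn
      have hn0 : (0 : ℝ) < n := Nat.cast_pos.2 hp.pos
      rw [ArithmeticFunction.vonMangoldt_apply_prime hp, ← mul_div_assoc]
      refine div_le_div_of_nonneg_right ?_ hn0.le
      rw [div_mul_eq_mul_div, le_div_iff₀ (by positivity)]
      linarith
    · intro n hn
      rw [Finset.mem_filter] at hn
      obtain ⟨-, hp, -, hn3⟩ := hn
      have hn0 : (0 : ℝ) < n := Nat.cast_pos.2 hp.pos
      rw [Finset.mem_Icc]
      refine ⟨hp.one_lt.le, Nat.le_floor ?_⟩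
      rwa [← Real.log_le_iff_le_exp hn0]
    · intro n _ _
      exact mul_nonneg (by positivity)
        (div_nonneg ArithmeticFunction.vonMangoldt_nonneg (Nat.cast_nonneg _))
  refine h2.trans ?_
  have h3 : Twist.ML (7 * l) ≤ (7 + C) * l := by nlinarith [h1.2]
  calc 2 / (a * l) * Twist.ML (7 * l) ≤ 2 / (a * l) * ((7 + C) * l) :=
        mul_le_mul_of_nonneg_left h3 (by positivity)
    _ = 2 / a * (7 + C) := by field_simp

theorem GPc_nit (n : ℕ) (t : ℝ) (hn : 1 ≤ n) : ‖nit n t‖ = 1 := by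
  unfold nit
  rw [Complex.norm_natCast_cpow_of_pos (by omega)]
  simp

theorem GPc_lin (g : ℝ → ℝ) (hg : Continuous g) (b : ℕ → ℝ) (w t : ℝ) (hw : 0 < w) (K : ℕ) :
    ∑ k ∈ Icc 1 K, (b k : ℂ) * osc (fun v => tent ((v - k * w) / w) * g v) t =
      osc (fun v => (∑ k ∈ Icc 1 K, b k * tent ((v - k * w) / w)) * g v) t ∧
    Integrable (fun v : ℝ => (((∑ k ∈ Icc 1 K, b k * tent ((v - k * w) / w)) * g v : ℝ) : ℂ) *
      Complex.exp (-(t * v : ℝ) * Complex.I)) := by
  have htc : Continuous tent := by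
    unfold tent
    fun_prop
  have hint : ∀ k : ℕ, Integrable (fun v : ℝ => ((tent ((v - k * w) / w) * g v : ℝ) : ℂ) *
      Complex.exp (-(t * v : ℝ) * Complex.I)) := by
    intro k
    refine Continuous.integrable_of_hasCompactSupport ?_ ?_
    · refine (Complex.continuous_ofReal.comp ((htc.comp (by fun_prop)).mul hg)).mul ?_
      fun_prop
    · refine HasCompactSupport.of_support_subset_isCompact
        (isCompact_Icc (a := k * w - w) (b := k * w + w)) ?_
      intro v hv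
      by_contra hcon
      apply hv
      have h1 : tent ((v - k * w) / w) = 0 := by
        unfold tent
        apply max_eq_left
        rw [Set.mem_Icc, not_and_or, not_le, not_le] at hcon
        rw [abs_div, abs_of_pos hw, sub_nonpos, le_div_iff₀ hw, one_mul]
        rcases hcon with h | h
        · have := neg_le_abs (v - k * w)
          linarith
        · have := le_abs_self (v - k * w)
          linarith
      beta_reduce
      rw [h1, zero_mul, Complex.ofReal_zero, zero_mul]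
  have hpt : ∀ v : ℝ, (((∑ k ∈ Icc 1 K, b k * tent ((v - k * w) / w)) * g v : ℝ) : ℂ) *
      Complex.exp (-(t * v : ℝ) * Complex.I) = ∑ k ∈ Icc 1 K, (b k : ℂ) *
        (((tent ((v - k * w) / w) * g v : ℝ) : ℂ) * Complex.exp (-(t * v : ℝ) * Complex.I)) := by
    intro v
    rw [Finset.sum_mul, Complex.ofReal_sum, Finset.sum_mul]
    refine Finset.sum_congr rfl fun k _ => ?_
    push_cast
    ring
  constructor
  · unfold osc
    simp only [hpt]
    rw [integral_finsetSum _ fun k _ => (hint k).const_mul _]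
    refine Finset.sum_congr rfl fun k _ => ?_
    rw [integral_const_mul]
  · simp only [hpt]
    exact integrable_finsetSum _ fun k _ => (hint k).const_mul _

theorem GPc_cont {Y a η : ℝ} {h : ℝ → ℝ} (hT : Tst Y a η h) (hl : 0 < Real.log Y) (hη : 0 < η) :
    Continuous h := by
  have h1 : LipschitzWith ⟨1 / (η * Real.log Y), by positivity⟩ h := by
    refine LipschitzWith.of_dist_le_mul fun v w => ?_
    rw [Real.dist_eq, Real.dist_eq]
    refine (hT.2.1 v w).trans (le_of_eq ?_)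
    change _ = 1 / (η * Real.log Y) * |v - w|
    ring
  exact h1.continuous

theorem GPc_hint {Y a η : ℝ} {h : ℝ → ℝ} (hT : Tst Y a η h) (hl : 0 < Real.log Y) (ha : 0 < a)
    (hη : 0 < η) (g : ℝ → ℝ) (hg : Continuous g) (t : ℝ) :
    Integrable (fun v : ℝ => ((h v / v * g v : ℝ) : ℂ) *
      Complex.exp (-(t * v : ℝ) * Complex.I)) := by
  have hc : ContinuousOn (fun v : ℝ => ((h v / v * g v : ℝ) : ℂ) *
      Complex.exp (-(t * v : ℝ) * Complex.I)) (Set.Icc (a * Real.log Y) (6 * Real.log Y)) := by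
    have h0 : 0 < a * Real.log Y := by positivity
    refine ContinuousOn.mul (Complex.continuous_ofReal.comp_continuousOn
      (((GPc_cont hT hl hη).continuousOn.div continuousOn_id fun v hv => ?_).mul hg.continuousOn)) ?_
    · exact (h0.trans_le hv.1).ne'
    · fun_prop
  have h1 := hc.integrableOn_compact (μ := volume) isCompact_Icc
  rw [← integrable_indicator_iff measurableSet_Icc] at h1
  refine h1.congr (Filter.Eventually.of_forall fun v => ?_)
  by_cases hv : v ∈ Set.Icc (a * Real.log Y) (6 * Real.log Y)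
  · exact Set.indicator_of_mem hv _
  · rw [Set.indicator_of_notMem hv]
    have h2 : h v = 0 := by
      rw [Set.mem_Icc, not_and_or, not_le, not_le] at hv
      rcases hv with h | h
      · exact hT.2.2.1 v h.le
      · exact hT.2.2.2 v h.le
    beta_reduce
    rw [h2, zero_div, zero_mul, Complex.ofReal_zero, zero_mul]

theorem GPc_int (F : ℝ → ℂ) (A l : ℝ) (hl : 0 < l) (hA : 0 ≤ A)
    (hF : ∀ v, ‖F v‖ ≤ A / l) (hF0 : ∀ v, v < 0 ∨ 7 * l < v → F v = 0) :
    ‖∫ v, F v‖ ≤ 7 * A := by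
  have h1 : Integrable ((Set.Icc 0 (7 * l)).indicator fun _ : ℝ => A / l) := by
    rw [integrable_indicator_iff measurableSet_Icc]
    exact integrableOn_const (by rw [Real.volume_Icc]; exact ENNReal.ofReal_ne_top)
  refine (norm_integral_le_of_norm_le h1 (Filter.Eventually.of_forall fun v => ?_)).trans ?_
  · by_cases hv : v ∈ Set.Icc 0 (7 * l)
    · rw [Set.indicator_of_mem hv]
      exact hF v
    · rw [Set.indicator_of_notMem hv]
      rw [Set.mem_Icc, not_and_or, not_le, not_le] at hv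
      rw [hF0 v hv, norm_zero]
  · rw [integral_indicator measurableSet_Icc, setIntegral_const, Real.volume_real_Icc,
      smul_eq_mul, sub_zero, max_eq_left (by positivity)]
    refine le_of_eq ?_
    field_simp

theorem GPc_D1 {Y a η μ z : ℝ} {h : ℝ → ℝ} (hT : Tst Y a η h) (hl : 0 < Real.log Y) (ha : 0 < a)
    (ha1 : a ≤ 1) (hη : 0 < η) (hμ : 0 < μ) (hμa : μ ≤ a / 2) (K : ℕ) (hK : 6 ≤ (K + 1) * μ)
    (hz : z ≤ Real.exp (a / 2 * Real.log Y)) (N : ℕ) {q : ℕ} (χ : DirichletCharacter ℂ q) (t C1 C3 : ℝ)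
    (h1 : ∑ n ∈ (Icc 1 N).filter (fun n : ℕ => n.Prime ∧ a / 2 * Real.log Y ≤ Real.log n ∧
      Real.log n ≤ 7 * Real.log Y), 1 / (n : ℝ) ≤ C1)
    (h3 : ∑ n ∈ Icc 1 N, Wb58c63.arb_cc n / n ≤ C3) :
    ‖DP N (pw h) χ t - ∑ n ∈ Icc 1 N, ((ArithmeticFunction.vonMangoldt n * rh z n *
        GPc_G h (μ * Real.log Y) K (Real.log n) / n : ℝ) : ℂ) * χ (n : ZMod q) * nit n t‖ ≤
      7 * (μ * (1 / (a * η) + 2 / a ^ 2)) * C1 + 1 / (a * Real.log Y) * C3 := by
  classical
  have hA : 0 ≤ μ * (1 / (a * η) + 2 / a ^ 2) := by positivity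
  have hpt : ∀ n ∈ Icc 1 N, ‖((pw h n / n : ℝ) : ℂ) * χ (n : ZMod q) * nit n t -
      ((ArithmeticFunction.vonMangoldt n * rh z n *
        GPc_G h (μ * Real.log Y) K (Real.log n) / n : ℝ) : ℂ) * χ (n : ZMod q) * nit n t‖ ≤
      7 * (μ * (1 / (a * η) + 2 / a ^ 2)) *
        (if n.Prime ∧ a / 2 * Real.log Y ≤ Real.log n ∧ Real.log n ≤ 7 * Real.log Y then
          1 / (n : ℝ) else 0) + 1 / (a * Real.log Y) * (Wb58c63.arb_cc n / n) := by
    intro n hn
    rw [Finset.mem_Icc] at hn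
    have hn0 : (0 : ℝ) < n := Nat.cast_pos.2 hn.1
    have e1 : ((pw h n / n : ℝ) : ℂ) * χ (n : ZMod q) * nit n t -
      ((ArithmeticFunction.vonMangoldt n * rh z n *
        GPc_G h (μ * Real.log Y) K (Real.log n) / n : ℝ) : ℂ) * χ (n : ZMod q) * nit n t =
        (((pw h n - ArithmeticFunction.vonMangoldt n * rh z n *
        GPc_G h (μ * Real.log Y) K (Real.log n)) / n : ℝ) : ℂ) * χ (n : ZMod q) * nit n t := by
      push_cast
      ring
    rw [e1, norm_mul, norm_mul, GPc_nit n t hn.1, mul_one, Complex.norm_real, Real.norm_eq_abs,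
      abs_div, abs_of_pos hn0]
    have hχ : ‖χ (n : ZMod q)‖ ≤ 1 := DirichletCharacter.norm_le_one χ _
    refine (mul_le_mul_of_nonneg_left hχ (by positivity)).trans ?_
    rw [mul_one]
    obtain ⟨hb1, hb2⟩ := GPc_bd hT hl ha ha1 hη hμ hμa K hK (Real.log n)
    by_cases hp : n.Prime
    · have hcc : Wb58c63.arb_cc n = 0 := by
        unfold Wb58c63.arb_cc
        rw [if_pos hp]
      have hpw : pw h n = h (Real.log n) := by
        unfold pw
        rw [if_pos hp]
      rw [hcc, zero_div, mul_zero, add_zero, hpw, ArithmeticFunction.vonMangoldt_apply_prime hp]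
      by_cases hr : a / 2 * Real.log Y ≤ Real.log n ∧ Real.log n ≤ 7 * Real.log Y
      · rw [if_pos ⟨hp, hr.1, hr.2⟩, mul_one_div]
        refine div_le_div_of_nonneg_right ?_ hn0.le
        have hrh : rh z n = 1 := by
          unfold rh
          rw [if_pos]
          refine ⟨hp.ne_zero, fun p hpf => ?_⟩
          rw [hp.primeFactors, Finset.mem_singleton] at hpf
          rw [hpf]
          refine hz.trans ?_
          rw [← Real.le_log_iff_exp_le hn0]
          exact hr.1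
        rw [hrh, mul_one]
        have hv0 : 0 < Real.log n := lt_of_lt_of_le (by positivity) hr.1
        have e2 : h (Real.log n) - Real.log n * GPc_G h (μ * Real.log Y) K (Real.log n) =
            -(Real.log n * (GPc_G h (μ * Real.log Y) K (Real.log n) -
              h (Real.log n) / Real.log n)) := by
          field_simp
          ring
        rw [e2, abs_neg, abs_mul, abs_of_pos hv0]
        refine (mul_le_mul hr.2 hb1 (abs_nonneg _) (by positivity)).trans (le_of_eq ?_)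
        field_simp
      · have hout : Real.log n < a / 2 * Real.log Y ∨ 7 * Real.log Y < Real.log n := by
          rw [not_and_or, not_le, not_le] at hr
          exact hr
        obtain ⟨h4, h5⟩ := GPc_out hT hl ha ha1 hμ hμa K (Real.log n) hout
        rw [h4, h5, mul_zero, sub_zero, abs_zero, zero_div]
        split_ifs <;> positivity
    · have hcc : Wb58c63.arb_cc n = ArithmeticFunction.vonMangoldt n := by
        unfold Wb58c63.arb_cc
        rw [if_neg hp]
      have hpw : pw h n = 0 := by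
        unfold pw
        rw [if_neg hp]
      rw [if_neg (fun h => hp h.1), mul_zero, zero_add, hcc, hpw, zero_sub, abs_neg, abs_mul,
        abs_mul, abs_of_nonneg ArithmeticFunction.vonMangoldt_nonneg, ← mul_div_assoc]
      refine div_le_div_of_nonneg_right ?_ hn0.le
      have hrh : |rh z n| ≤ 1 := by
        unfold rh
        split_ifs <;> simp
      calc ArithmeticFunction.vonMangoldt n * |rh z n| *
            |GPc_G h (μ * Real.log Y) K (Real.log n)|
          ≤ ArithmeticFunction.vonMangoldt n * 1 * (1 / (a * Real.log Y)) :=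
            mul_le_mul (mul_le_mul_of_nonneg_left hrh ArithmeticFunction.vonMangoldt_nonneg) hb2
              (abs_nonneg _) (mul_nonneg ArithmeticFunction.vonMangoldt_nonneg zero_le_one)
        _ = _ := by ring
  unfold DP
  rw [← Finset.sum_sub_distrib]
  refine (norm_sum_le _ _).trans ((Finset.sum_le_sum hpt).trans ?_)
  rw [Finset.sum_add_distrib, ← Finset.mul_sum, ← Finset.mul_sum, ← Finset.sum_filter]
  exact add_le_add (mul_le_mul_of_nonneg_left h1 (by positivity))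
    (mul_le_mul_of_nonneg_left h3 (by positivity))

theorem GPc_D3 {Y a η μ : ℝ} {h : ℝ → ℝ} (hT : Tst Y a η h) (hl : 0 < Real.log Y) (ha : 0 < a)
    (ha1 : a ≤ 1) (hη : 0 < η) (hμ : 0 < μ) (hμa : μ ≤ a / 2) (K : ℕ) (hK : 6 ≤ (K + 1) * μ)
    (g : ℝ → ℝ) (hg : Continuous g) (hg1 : ∀ v, 0 ≤ v → |g v| ≤ 1) (t : ℝ) :
    ‖∑ k ∈ Icc 1 K, ((h (k * (μ * Real.log Y)) / (k * (μ * Real.log Y)) : ℝ) : ℂ) *
        osc (fun v => tent ((v - k * (μ * Real.log Y)) / (μ * Real.log Y)) * g v) t -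
      osc (fun v => h v / v * g v) t‖ ≤ 7 * (μ * (1 / (a * η) + 2 / a ^ 2)) := by
  have hw : 0 < μ * Real.log Y := by positivity
  obtain ⟨h1, h2⟩ := GPc_lin g hg (fun k => h (k * (μ * Real.log Y)) / (k * (μ * Real.log Y)))
    (μ * Real.log Y) t hw K
  have h3 := GPc_hint hT hl ha hη g hg t
  rw [h1]
  unfold osc
  rw [← integral_sub h2 h3]
  refine GPc_int _ (μ * (1 / (a * η) + 2 / a ^ 2)) (Real.log Y) hl (by positivity) ?_ ?_
  · intro v
    have e1 : (((∑ k ∈ Icc 1 K, h (k * (μ * Real.log Y)) / (k * (μ * Real.log Y)) *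
        tent ((v - k * (μ * Real.log Y)) / (μ * Real.log Y))) * g v : ℝ) : ℂ) *
        Complex.exp (-(t * v : ℝ) * Complex.I) -
        ((h v / v * g v : ℝ) : ℂ) * Complex.exp (-(t * v : ℝ) * Complex.I) =
        (((GPc_G h (μ * Real.log Y) K v - h v / v) * g v : ℝ) : ℂ) *
          Complex.exp (-(t * v : ℝ) * Complex.I) := by
      unfold GPc_G
      push_cast
      ring
    rw [e1, norm_mul, Complex.norm_real, Real.norm_eq_abs, abs_mul]
    have e2 : ‖Complex.exp (-(t * v : ℝ) * Complex.I)‖ = 1 := by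
      rw [← Complex.ofReal_neg, Complex.norm_exp_ofReal_mul_I]
    rw [e2, mul_one]
    obtain ⟨hb1, -⟩ := GPc_bd hT hl ha ha1 hη hμ hμa K hK v
    rcases lt_or_ge v 0 with hv | hv
    · obtain ⟨h4, h5⟩ := GPc_out hT hl ha ha1 hμ hμa K v (Or.inl (hv.trans (by positivity)))
      rw [h4, h5, zero_div, sub_zero, abs_zero, zero_mul]
      positivity
    · calc |GPc_G h (μ * Real.log Y) K v - h v / v| * |g v|
          ≤ |GPc_G h (μ * Real.log Y) K v - h v / v| * 1 :=
            mul_le_mul_of_nonneg_left (hg1 v hv) (abs_nonneg _)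
        _ ≤ _ := by rw [mul_one]; exact hb1
  · intro v hv
    obtain ⟨h4, h5⟩ := GPc_out hT hl ha ha1 hμ hμa K v (by
      rcases hv with hv | hv
      · exact Or.inl (hv.trans (by positivity))
      · exact Or.inr hv)
    unfold GPc_G at h4
    beta_reduce
    rw [h4, h5, zero_div, zero_mul, Complex.ofReal_zero, zero_mul, sub_zero]

/-- **Without the condition on the conductor of the exceptional character.**

Proof. Replace `h` by the piecewise linear interpolation at the points `k μ log Y`: `h ≈ ∑_k h (k μ log Y) tent ((v - k μ log Y) /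
(μ log Y))` with an error `≤ μ / η`; this costs `(μ / η) ∑_{Y ^ a ≤ p ≤ Y ^ 6} 1 / p ≤ C μ / η` (and the same for the main terms).
For one tent at `c = k μ log Y`, `w = μ log Y`: `∑_p χ(p) p ^ (- 1 - i t) tent = (1 / c) ∑_p log p (...) + O ((w / c) ∑_{p} 1 / p)` with
`∑_{|log p - c| ≤ w} 1 / p ≤ C w / c` (Mertens), in total over `k` at most `C μ / a ^ 2`; prime powers contribute
`O (Y ^ (- a / 2) log Y)`; `tent_block`: the error is `C (d / a) exp (- c₂ a / (2 d)) + C / (μ a log Y)` for each of the `≤ 7 / μ` tents.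
Choose `μ`, then `d`, then `Y₀`; `rh (Y ^ d) p = 1` for `p ≥ Y ^ a`, `d < a`. -/
theorem PB0 (a η ε : ℝ) (ha : 0 < a) (ha1 : a ≤ 1) (hη : 0 < η) (hη1 : η ≤ 1) (hε : 0 < ε) :
    ∃ δ Y₀ : ℝ, 0 < δ ∧ δ < 1 ∧ 3 ≤ Y₀ ∧ ∀ Y : ℝ, Y₀ ≤ Y → ∃ (i1 : CC) (β : ℝ), 1 / 2 ≤ β ∧ β ≤ 1 ∧
      (i1 ∈ CR ⌊Y ^ δ⌋₊ → 1 < i1.1 ∧ ∀ n : ℕ, (i1.2 (n : ZMod i1.1)).im = 0) ∧ PBL Y δ a η ε i1 β := by
  classical
  obtain ⟨c₂, C, hc₂, hC, htb⟩ := tent_block
  obtain ⟨CM, hCM, hmert⟩ := GPc_mert
  obtain ⟨C3, hC3, harb⟩ := Wb58c63.arb_S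
  obtain ⟨A0, hA0⟩ : ∃ A0 : ℝ, A0 = 1 / (a * η) + 2 / a ^ 2 := ⟨_, rfl⟩
  obtain ⟨C1, hC1⟩ : ∃ C1 : ℝ, C1 = 2 / a * (7 + CM) := ⟨_, rfl⟩
  have hA0p : 0 < A0 := by rw [hA0]; positivity
  have hC1p : 0 < C1 := by rw [hC1]; positivity
  obtain ⟨μ, hμdef⟩ : ∃ μ : ℝ, μ = min (a / 2) (ε / (3 * (A0 * (7 * C1 + 14)))) := ⟨_, rfl⟩
  have hμ : 0 < μ := by rw [hμdef]; exact lt_min (by linarith) (by positivity)
  have hμa : μ ≤ a / 2 := by rw [hμdef]; exact min_le_left _ _
  have hμε : μ * A0 * (7 * C1 + 14) ≤ ε / 3 := by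
    have h1 : μ ≤ ε / (3 * (A0 * (7 * C1 + 14))) := by rw [hμdef]; exact min_le_right _ _
    rw [le_div_iff₀ (by positivity)] at h1
    linarith
  obtain ⟨d, hddef⟩ : ∃ d : ℝ, d = min (a / 4) (ε * μ * a / (24 * C)) := ⟨_, rfl⟩
  have hd : 0 < d := by rw [hddef]; exact lt_min (by linarith) (by positivity)
  have hda : d ≤ a / 4 := by rw [hddef]; exact min_le_left _ _
  have hdε : 6 / μ * (C / a) * d ≤ ε / 4 := by
    have h1 : d ≤ ε * μ * a / (24 * C) := by rw [hddef]; exact min_le_right _ _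
    calc 6 / μ * (C / a) * d ≤ 6 / μ * (C / a) * (ε * μ * a / (24 * C)) :=
          mul_le_mul_of_nonneg_left h1 (by positivity)
      _ = ε / 4 := by
          field_simp
          ring
  obtain ⟨δ, Y0, hδ, hδd, hY0, hmain⟩ := htb d hd (by linarith)
  obtain ⟨l0, hl0⟩ : ∃ l0 : ℝ, l0 = max (max 1 (1 / μ))
    (max (6 * C3 / (a * ε)) (36 * C / (μ ^ 2 * a * ε))) := ⟨_, rfl⟩
  refine ⟨δ, max Y0 (Real.exp l0), hδ, by linarith, hY0.trans (le_max_left _ _), ?_⟩
  intro Y hY
  have hYY0 : Y0 ≤ Y := (le_max_left _ _).trans hY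
  have hYe : Real.exp l0 ≤ Y := (le_max_right _ _).trans hY
  have hYpos : 0 < Y := by linarith
  have hY1 : 1 ≤ Y := by linarith
  have hl : l0 ≤ Real.log Y := (Real.le_log_iff_exp_le hYpos).mpr hYe
  have hl1 : 1 ≤ Real.log Y := by
    refine le_trans ?_ hl
    rw [hl0]
    exact (le_max_left _ _).trans (le_max_left _ _)
  have hlμ : 1 / μ ≤ Real.log Y := by
    refine le_trans ?_ hl
    rw [hl0]
    exact (le_max_right _ _).trans (le_max_left _ _)
  have hlC3 : 6 * C3 / (a * ε) ≤ Real.log Y := by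
    refine le_trans ?_ hl
    rw [hl0]
    exact (le_max_left _ _).trans (le_max_right _ _)
  have hlC : 36 * C / (μ ^ 2 * a * ε) ≤ Real.log Y := by
    refine le_trans ?_ hl
    rw [hl0]
    exact (le_max_right _ _).trans (le_max_right _ _)
  have hlp : 0 < Real.log Y := by linarith
  obtain ⟨i1, β, hβ1, hβ2, hi1, hall⟩ := hmain Y hYY0
  refine ⟨i1, β, hβ1, hβ2, hi1, ?_⟩
  intro h N0 hT hN0 i hi t ht
  -- a larger `N`
  obtain ⟨N, hN, hN10⟩ : ∃ N : ℕ, N0 ≤ N ∧ Y ^ 10 ≤ N :=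
    ⟨max N0 ⌈Y ^ 10⌉₊, le_max_left _ _, (Nat.le_ceil _).trans (by exact_mod_cast le_max_right _ _)⟩
  have hDP : DP N0 (pw h) i.2 t = DP N (pw h) i.2 t := by
    unfold DP
    refine Finset.sum_subset (Finset.Icc_subset_Icc_right hN) fun n hn hn2 => ?_
    rw [Finset.mem_Icc] at hn hn2
    have h1 : N0 < n := by omega
    have h2 : pw h n = 0 := by
      unfold pw
      split_ifs with hp
      · apply hT.2.2.2
        have h3 : Y ^ 6 ≤ n := hN0.trans (by exact_mod_cast h1.le)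
        have h4 := Real.log_le_log (by positivity) h3
        rw [Real.log_pow] at h4
        push_cast at h4
        exact h4
      · rfl
    rw [h2, zero_div, Complex.ofReal_zero, zero_mul, zero_mul]
  rw [hDP]
  -- the number of nodes
  obtain ⟨K, hKdef⟩ : ∃ K : ℕ, K = ⌊6 / μ⌋₊ := ⟨_, rfl⟩
  have hK1 : (K : ℝ) ≤ 6 / μ := by rw [hKdef]; exact Nat.floor_le (by positivity)
  have hK2 : 6 ≤ ((K : ℝ) + 1) * μ := by
    have h1 : 6 / μ < (K : ℝ) + 1 := by rw [hKdef]; exact Nat.lt_floor_add_one _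
    rw [div_lt_iff₀ hμ] at h1
    exact h1.le
  obtain ⟨w, hw⟩ : ∃ w : ℝ, w = μ * Real.log Y := ⟨_, rfl⟩
  have hw1 : 1 ≤ w := by
    rw [hw]
    rw [div_le_iff₀ hμ] at hlμ
    linarith
  have hw0 : 0 < w := by linarith
  -- the first difference
  have hD1 := GPc_D1 (z := Y ^ d) hT hlp ha ha1 hη hμ hμa K hK2 (by
    rw [Real.rpow_def_of_pos hYpos]
    apply Real.exp_le_exp.mpr
    rw [mul_comm]
    exact mul_le_mul_of_nonneg_right (by linarith) hlp.le) N i.2 t C1 C3 (by
      rw [hC1]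
      exact hmert (Real.log Y) a N hl1 ha ha1) (harb N)
  -- the main terms
  have hD30 := GPc_D3 hT hlp ha ha1 hη hμ hμa K hK2 (fun _ => 1) continuous_const
    (fun v _ => by simp) t
  have hD31 := GPc_D3 hT hlp ha ha1 hη hμ hμa K hK2 (fun v => Real.exp (-(1 - β) * v))
    (by fun_prop) (fun v hv => by
      rw [abs_of_pos (Real.exp_pos _), Real.exp_le_one_iff]
      have := mul_nonneg (by linarith : 0 ≤ 1 - β) hv
      linarith) t
  rw [← hA0] at hD1 hD30 hD31
  rw [← hw] at hD1 hD30 hD31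
  simp only [mul_one] at hD30
  obtain ⟨b, hb⟩ : ∃ b : ℕ → ℝ, ∀ k, b k = h (k * w) / (k * w) := ⟨_, fun _ => rfl⟩
  simp only [← hb] at hD30 hD31
  have hbb : ∀ k, |b k| ≤ 1 / (a * Real.log Y) := by
    intro k
    rw [hb]
    by_cases hu : h (k * w) = 0
    · rw [hu, zero_div, abs_zero]
      positivity
    · have h4 : a * Real.log Y < k * w := by
        by_contra hcon
        exact hu (hT.2.2.1 _ (not_lt.mp hcon))
      have h5 : 0 < a * Real.log Y := by positivity
      rw [abs_div, abs_of_pos (h5.trans h4)]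
      exact div_le_div₀ zero_le_one (hT.1 _) h5 h4.le
  -- the sums with tents
  obtain ⟨S, hS⟩ : ∃ S : ℕ → ℂ, ∀ k, S k = ∑ n ∈ Icc 1 N, ((ArithmeticFunction.vonMangoldt n *
      rh (Y ^ d) n * tent ((Real.log n - k * w) / w) / n : ℝ) : ℂ) * i.2 (n : ZMod i.1) *
        nit n t := ⟨_, fun _ => rfl⟩
  have hSsum : ∑ n ∈ Icc 1 N, ((ArithmeticFunction.vonMangoldt n * rh (Y ^ d) n *
        GPc_G h w K (Real.log n) / n : ℝ) : ℂ) * i.2 (n : ZMod i.1) * nit n t =
      ∑ k ∈ Icc 1 K, (b k : ℂ) * S k := by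
    simp only [hS, Finset.mul_sum]
    rw [Finset.sum_comm]
    refine Finset.sum_congr rfl fun n _ => ?_
    have e1 : ((ArithmeticFunction.vonMangoldt n * rh (Y ^ d) n *
        GPc_G h w K (Real.log n) / n : ℝ) : ℂ) = ∑ k ∈ Icc 1 K, (b k : ℂ) *
        ((ArithmeticFunction.vonMangoldt n *
      rh (Y ^ d) n * tent ((Real.log n - k * w) / w) / n : ℝ) : ℂ) := by
      unfold GPc_G
      rw [Finset.mul_sum, Finset.sum_div, Complex.ofReal_sum]
      refine Finset.sum_congr rfl fun k _ => ?_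
      rw [hb]
      push_cast
      ring
    rw [e1, Finset.sum_mul, Finset.sum_mul]
    refine Finset.sum_congr rfl fun k _ => ?_
    ring
  rw [hSsum] at hD1
  -- the tents
  obtain ⟨P0, hP0⟩ : ∃ P0 : ℕ → ℂ, ∀ k, P0 k =
      (if i = i0 then osc (fun v => tent ((v - k * w) / w)) t else 0) := ⟨_, fun _ => rfl⟩
  obtain ⟨P1, hP1⟩ : ∃ P1 : ℕ → ℂ, ∀ k, P1 k =
      (if i = i1 then osc (fun v => tent ((v - k * w) / w) * Real.exp (-(1 - β) * v)) t else 0) :=
    ⟨_, fun _ => rfl⟩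
  have htent : ∀ k ∈ Icc 1 K, ‖S k - P0 k + P1 k‖ ≤ C * (d * Real.log Y + 1 / μ) := by
    intro k hk
    rw [Finset.mem_Icc] at hk
    have hk1 : (1 : ℝ) ≤ k := by exact_mod_cast hk.1
    have hkK : (k : ℝ) ≤ K := by exact_mod_cast hk.2
    have hkw : w ≤ k * w := by
      have := mul_le_mul_of_nonneg_right hk1 hw0.le
      linarith
    have hkw6 : k * w ≤ 6 * Real.log Y := by
      have h1 : (k : ℝ) * μ ≤ 6 := by
        have h2 := mul_le_mul_of_nonneg_right (hkK.trans hK1) hμ.le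
        rwa [div_mul_cancel₀ _ hμ.ne'] at h2
      rw [hw, ← mul_assoc]
      exact mul_le_mul_of_nonneg_right h1 hlp.le
    have hwl : w ≤ Real.log Y := by
      rw [hw]
      nlinarith
    have h1 := hall i hi t w (k * w) N ht hw1 hkw (by linarith) hN10
    have h2 : Real.exp (-c₂ * (k * w - w) / (d * Real.log Y)) ≤ 1 := by
      rw [Real.exp_le_one_iff]
      apply div_nonpos_of_nonpos_of_nonneg _ (by positivity)
      have := mul_nonneg hc₂.le (by linarith : 0 ≤ k * w - w)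
      linarith
    have h3 : Real.log Y / w = 1 / μ := by
      rw [hw]
      field_simp
    rw [h3] at h1
    refine le_trans (le_of_eq ?_) (h1.trans ?_)
    · rw [hS, hP0, hP1]
    · refine mul_le_mul_of_nonneg_left ?_ hC.le
      have h4 : d * Real.log Y * Real.exp (-c₂ * (k * w - w) / (d * Real.log Y)) ≤
          d * Real.log Y * 1 := mul_le_mul_of_nonneg_left h2 (by positivity)
      linarith
  have hD2 : ‖∑ k ∈ Icc 1 K, (b k : ℂ) * (S k - P0 k + P1 k)‖ ≤ ε / 4 + ε / 6 := by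
    have h1 : ‖∑ k ∈ Icc 1 K, (b k : ℂ) * (S k - P0 k + P1 k)‖ ≤
        ∑ k ∈ Icc 1 K, 1 / (a * Real.log Y) * (C * (d * Real.log Y + 1 / μ)) := by
      refine (norm_sum_le _ _).trans (Finset.sum_le_sum fun k hk => ?_)
      rw [norm_mul, Complex.norm_real, Real.norm_eq_abs]
      exact mul_le_mul (hbb k) (htent k hk) (norm_nonneg _) (by positivity)
    rw [Finset.sum_const, Nat.card_Icc, Nat.add_sub_cancel, nsmul_eq_mul] at h1
    refine h1.trans ?_
    have h2 : (K : ℝ) * (1 / (a * Real.log Y) * (C * (d * Real.log Y + 1 / μ))) ≤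
        6 / μ * (1 / (a * Real.log Y) * (C * (d * Real.log Y + 1 / μ))) :=
      mul_le_mul_of_nonneg_right hK1 (by positivity)
    refine h2.trans ?_
    have h3 : 6 / μ * (1 / (a * Real.log Y) * (C * (d * Real.log Y + 1 / μ))) =
        6 / μ * (C / a) * d + 6 * C / (μ ^ 2 * a * Real.log Y) := by
      field_simp
    rw [h3]
    have h4 : 6 * C / (μ ^ 2 * a * Real.log Y) ≤ ε / 6 := by
      rw [div_le_iff₀ (by positivity)] at hlC ⊢
      linarith
    linarith
  have hC3b : 1 / (a * Real.log Y) * C3 ≤ ε / 6 := by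
    rw [div_le_iff₀ (by positivity)] at hlC3
    rw [one_div_mul_eq_div, div_le_iff₀ (by positivity)]
    linarith
  -- the differences of the main terms
  obtain ⟨Q0, hQ0⟩ : ∃ Q0 : ℂ, Q0 = (if i = i0 then osc (fun v => h v / v) t else 0) := ⟨_, rfl⟩
  obtain ⟨Q1, hQ1⟩ : ∃ Q1 : ℂ, Q1 =
      (if i = i1 then osc (fun v => h v / v * Real.exp (-(1 - β) * v)) t else 0) := ⟨_, rfl⟩
  have hE0 : ‖∑ k ∈ Icc 1 K, (b k : ℂ) * P0 k - Q0‖ ≤ 7 * (μ * A0) := by
    simp only [hP0]
    rw [hQ0]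
    by_cases h1 : i = i0
    · simp only [if_pos h1]
      exact hD30
    · simp only [if_neg h1, mul_zero, Finset.sum_const_zero, sub_zero, norm_zero]
      positivity
  have hE1 : ‖∑ k ∈ Icc 1 K, (b k : ℂ) * P1 k - Q1‖ ≤ 7 * (μ * A0) := by
    simp only [hP1]
    rw [hQ1]
    by_cases h1 : i = i1
    · simp only [if_pos h1]
      exact hD31
    · simp only [if_neg h1, mul_zero, Finset.sum_const_zero, sub_zero, norm_zero]
      positivity
  have hfin : DP N (pw h) i.2 t - Q0 + Q1 =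
      (DP N (pw h) i.2 t - ∑ k ∈ Icc 1 K, (b k : ℂ) * S k) +
        ∑ k ∈ Icc 1 K, (b k : ℂ) * (S k - P0 k + P1 k) +
        (∑ k ∈ Icc 1 K, (b k : ℂ) * P0 k - Q0) -
        (∑ k ∈ Icc 1 K, (b k : ℂ) * P1 k - Q1) := by
    have h1 : ∑ k ∈ Icc 1 K, (b k : ℂ) * (S k - P0 k + P1 k) =
        ∑ k ∈ Icc 1 K, (b k : ℂ) * S k - ∑ k ∈ Icc 1 K, (b k : ℂ) * P0 k +
          ∑ k ∈ Icc 1 K, (b k : ℂ) * P1 k := by
      rw [← Finset.sum_sub_distrib, ← Finset.sum_add_distrib]
      refine Finset.sum_congr rfl fun k _ => ?_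
      ring
    rw [h1]
    ring
  have hgoal : ‖DP N (pw h) i.2 t - Q0 + Q1‖ ≤ ε := by
    rw [hfin]
    refine (norm_sub_le _ _).trans ?_
    have h1 := norm_add_le ((DP N (pw h) i.2 t - ∑ k ∈ Icc 1 K, (b k : ℂ) * S k) +
        ∑ k ∈ Icc 1 K, (b k : ℂ) * (S k - P0 k + P1 k)) (∑ k ∈ Icc 1 K, (b k : ℂ) * P0 k - Q0)
    have h2 := norm_add_le (DP N (pw h) i.2 t - ∑ k ∈ Icc 1 K, (b k : ℂ) * S k)
      (∑ k ∈ Icc 1 K, (b k : ℂ) * (S k - P0 k + P1 k))
    have h3 : μ * A0 * (7 * C1 + 14) = 7 * (μ * A0) * C1 + 7 * (μ * A0) + 7 * (μ * A0) := by ring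
    linarith
  refine le_trans (le_of_eq ?_) hgoal
  rw [hQ0, hQ1]

end Pool.Agent.M58
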