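import Pool.Agent.W_b58c63_m1.GPb

/-!
# Siegel-Walfisz for slowly varying weights (helper68)
-/

set_option autoImplicit false

noncomputable section

open Finset MeasureTheory Complex

namespace Pool.Agent.M58

/-- The twisted test function. -/
def GPd_H (h : ℝ → ℝ) (t v : ℝ) : ℂ := (h v : ℂ) * Complex.exp ((-(t * v) : ℝ) * Complex.I)

theorem GPd_H_norm (h : ℝ → ℝ) (t v : ℝ) : ‖GPd_H h t v‖ = |h v| := by
  unfold GPd_H
  rw [norm_mul, Complex.norm_exp_ofReal_mul_I, mul_one, Complex.norm_real, Real.norm_eq_abs]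

theorem GPd_H_lip (h : ℝ → ℝ) (t D : ℝ) (hb : ∀ v, |h v| ≤ 1)
    (hl : ∀ v w, |h v - h w| ≤ D * |v - w|) (v w : ℝ) :
    ‖GPd_H h t v - GPd_H h t w‖ ≤ (D + |t|) * |v - w| := by
  have e : GPd_H h t v - GPd_H h t w =
      ((h v - h w : ℝ) : ℂ) * Complex.exp ((-(t * v) : ℝ) * Complex.I) +
        (h w : ℂ) * (Complex.exp ((-(t * w) : ℝ) * Complex.I) *
          (Complex.exp (Complex.I * ((-(t * (v - w)) : ℝ) : ℂ)) - 1)) := by
    unfold GPd_H
    have h1 : Complex.exp ((-(t * v) : ℝ) * Complex.I) =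
        Complex.exp ((-(t * w) : ℝ) * Complex.I) *
          Complex.exp (Complex.I * ((-(t * (v - w)) : ℝ) : ℂ)) := by
      rw [← Complex.exp_add]
      congr 1
      push_cast
      ring
    rw [h1]
    push_cast
    ring
  rw [e]
  refine (norm_add_le _ _).trans ?_
  rw [norm_mul, Complex.norm_exp_ofReal_mul_I, mul_one, norm_mul, norm_mul,
    Complex.norm_exp_ofReal_mul_I, one_mul, Complex.norm_real, Complex.norm_real, Real.norm_eq_abs,
    Real.norm_eq_abs]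
  have h2 := Real.norm_exp_I_mul_ofReal_sub_one_le (x := -(t * (v - w)))
  rw [Real.norm_eq_abs, abs_neg, abs_mul] at h2
  have h3 := hl v w
  have h4 : |h w| * ‖Complex.exp (Complex.I * ((-(t * (v - w)) : ℝ) : ℂ)) - 1‖ ≤
      1 * (|t| * |v - w|) := mul_le_mul (hb w) h2 (norm_nonneg _) zero_le_one
  linarith

theorem GPd_pt (m D u v : ℝ) (x y : ℂ) (hm : 1 ≤ m) (hu : m ≤ u) (hv : m ≤ v) (huv : |u - v| ≤ 1)
    (hy : ‖y‖ ≤ 1) (hxy : ‖x - y‖ ≤ D) :
    ‖(u : ℂ) ^ 2 * (x / (v : ℂ) ^ 3) - y / (u : ℂ)‖ ≤ 4 * D / m + 7 / m ^ 2 := by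
  have hm0 : 0 < m := by linarith
  have hu0 : 0 < u := by linarith
  have hv0 : 0 < v := by linarith
  have huc : (u : ℂ) ≠ 0 := by exact_mod_cast hu0.ne'
  have hvc : (v : ℂ) ≠ 0 := by exact_mod_cast hv0.ne'
  have e : (u : ℂ) ^ 2 * (x / (v : ℂ) ^ 3) - y / (u : ℂ) =
      ((u ^ 2 / v ^ 3 : ℝ) : ℂ) * (x - y) + ((u ^ 2 / v ^ 3 - 1 / u : ℝ) : ℂ) * y := by
    push_cast
    field_simp
    ring
  rw [e]
  refine (norm_add_le _ _).trans ?_
  rw [norm_mul, norm_mul, Complex.norm_real, Complex.norm_real, Real.norm_eq_abs, Real.norm_eq_abs]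
  obtain ⟨h1, h2⟩ := abs_le.1 huv
  have h3 : u ≤ 2 * v := by linarith
  have h4 : |u ^ 2 / v ^ 3| ≤ 4 / m := by
    rw [abs_of_nonneg (by positivity), div_le_div_iff₀ (by positivity) hm0]
    calc u ^ 2 * m ≤ (2 * v) ^ 2 * v := by gcongr
      _ = 4 * v ^ 3 := by ring
  have h5 : |u ^ 2 / v ^ 3 - 1 / u| ≤ 7 / m ^ 2 := by
    have e2 : u ^ 2 / v ^ 3 - 1 / u = (u - v) * (u ^ 2 + u * v + v ^ 2) / (v ^ 3 * u) := by
      field_simp
      ring
    rw [e2, abs_div, abs_mul, abs_of_nonneg (by positivity : 0 ≤ u ^ 2 + u * v + v ^ 2),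
      abs_of_nonneg (by positivity : 0 ≤ v ^ 3 * u), div_le_div_iff₀ (by positivity) (by positivity)]
    have h6 : |u - v| * (u ^ 2 + u * v + v ^ 2) ≤ 1 * (7 * v ^ 2) := by
      refine mul_le_mul huv ?_ (by positivity) zero_le_one
      nlinarith
    have h7 : m ^ 2 ≤ v * u := by nlinarith
    calc |u - v| * (u ^ 2 + u * v + v ^ 2) * m ^ 2 ≤ 1 * (7 * v ^ 2) * (v * u) := by gcongr
      _ = 7 * (v ^ 3 * u) := by ring
  have h6 : |u ^ 2 / v ^ 3| * ‖x - y‖ ≤ 4 / m * D :=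
    mul_le_mul h4 hxy (norm_nonneg _) (by positivity)
  have h7 : |u ^ 2 / v ^ 3 - 1 / u| * ‖y‖ ≤ 7 / m ^ 2 * 1 :=
    mul_le_mul h5 hy (norm_nonneg _) (by positivity)
  calc _ ≤ _ := add_le_add h6 h7
    _ = _ := by ring

theorem GPd_l0_pos : 0 < Wb58c63.l0 := Wb58c63.l0_pos

theorem GPd_l0_le : Wb58c63.l0 ≤ 1 / 2 := by
  unfold Wb58c63.l0
  have := Real.log_two_lt_d9
  linarith

theorem GPd_supp (u : ℝ) : HasCompactSupport fun v : ℝ => Real.exp (-v) * Wb58c63.tp (u - v) := by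
  refine HasCompactSupport.intro (isCompact_Icc (a := u - Wb58c63.l0) (b := u + Wb58c63.l0)) ?_
  intro v hv
  rw [Wb58c63.tp_zero, mul_zero]
  by_contra h
  push Not at h
  obtain ⟨h1, h2⟩ := abs_lt.1 h
  exact hv ⟨by linarith, by linarith⟩

theorem GPd_cont (u : ℝ) : Continuous fun v : ℝ => Real.exp (-v) * Wb58c63.tp (u - v) := by
  have := Wb58c63.tp_cont
  fun_prop

theorem GPd_int (u : ℝ) : Integrable fun v : ℝ => Real.exp (-v) * Wb58c63.tp (u - v) :=
  (GPd_cont u).integrable_of_hasCompactSupport (GPd_supp u)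

/-- The mass of the kernel. -/
def GPd_ka : ℝ := ∫ v : ℝ, Real.exp (-v) * Wb58c63.tp (0 - v)

theorem GPd_ka_pos : 0 < GPd_ka := by
  unfold GPd_ka
  refine (GPd_cont 0).integral_pos_of_hasCompactSupport_nonneg_nonzero (GPd_supp 0)
    (fun v => mul_nonneg (Real.exp_pos _).le (Wb58c63.tp_nonneg _)) (x := 0) ?_
  have : Wb58c63.tp (0 - 0) = 1 := by
    unfold Wb58c63.tp
    simp
  rw [this]
  simp

theorem GPd_shift (u : ℝ) :
    ∫ v : ℝ, Real.exp (-v) * Wb58c63.tp (u - v) = GPd_ka * Real.exp (-u) := by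
  have h1 : ∫ v : ℝ, Real.exp (-v) * Wb58c63.tp (u - v) =
      ∫ v : ℝ, (fun w : ℝ => Real.exp (-w) * Wb58c63.tp (0 - w) * Real.exp (-u)) (v - u) := by
    refine integral_congr_ae (Filter.Eventually.of_forall fun v => ?_)
    show Real.exp (-v) * Wb58c63.tp (u - v) =
      Real.exp (-(v - u)) * Wb58c63.tp (0 - (v - u)) * Real.exp (-u)
    have e1 : 0 - (v - u) = u - v := by ring
    have e2 : Real.exp (-v) = Real.exp (-(v - u)) * Real.exp (-u) := by
      rw [← Real.exp_add]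
      congr 1
      ring
    rw [e1, e2]
    ring
  rw [h1, integral_sub_right_eq_self
    (fun w : ℝ => Real.exp (-w) * Wb58c63.tp (0 - w) * Real.exp (-u)) u, integral_mul_const]
  rfl

theorem GPd_comp (W : ℝ → ℂ) (hW : Continuous W) (u B : ℝ) (z : ℂ)
    (hB : ∀ v, |u - v| < Wb58c63.l0 → ‖(u : ℂ) ^ 2 * W v - z‖ ≤ B) :
    ‖(u : ℂ) ^ 2 * (∫ v : ℝ, ((Real.exp (-v) * Wb58c63.tp (u - v) : ℝ) : ℂ) * W v) -
      ((GPd_ka * Real.exp (-u) : ℝ) : ℂ) * z‖ ≤ B * (GPd_ka * Real.exp (-u)) := by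
  have hc : Continuous fun v : ℝ => ((Real.exp (-v) * Wb58c63.tp (u - v) : ℝ) : ℂ) * W v :=
    (Complex.continuous_ofReal.comp (GPd_cont u)).mul hW
  have hs : HasCompactSupport fun v : ℝ => ((Real.exp (-v) * Wb58c63.tp (u - v) : ℝ) : ℂ) * W v := by
    refine HasCompactSupport.mul_right ?_
    exact (GPd_supp u).comp_left (g := fun x : ℝ => (x : ℂ)) (by simp)
  have hi := hc.integrable_of_hasCompactSupport (μ := volume) hs
  have e1 : (u : ℂ) ^ 2 * (∫ v : ℝ, ((Real.exp (-v) * Wb58c63.tp (u - v) : ℝ) : ℂ) * W v) -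
      ((GPd_ka * Real.exp (-u) : ℝ) : ℂ) * z =
      ∫ v : ℝ, ((Real.exp (-v) * Wb58c63.tp (u - v) : ℝ) : ℂ) * ((u : ℂ) ^ 2 * W v - z) := by
    have hj : Integrable fun v : ℝ => ((Real.exp (-v) * Wb58c63.tp (u - v) : ℝ) : ℂ) * z :=
      (GPd_int u).ofReal.mul_const z
    have hi' : Integrable fun v : ℝ =>
        (u : ℂ) ^ 2 * (((Real.exp (-v) * Wb58c63.tp (u - v) : ℝ) : ℂ) * W v) := hi.const_mul _
    rw [← GPd_shift u, ← integral_complex_ofReal, ← integral_const_mul, ← integral_mul_const,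
      ← integral_sub hi' hj]
    refine integral_congr_ae (Filter.Eventually.of_forall fun v => ?_)
    simp only
    ring
  rw [e1, ← GPd_shift u, ← integral_const_mul]
  refine norm_integral_le_of_norm_le ((GPd_int u).const_mul B)
    (Filter.Eventually.of_forall fun v => ?_)
  have h0 : 0 ≤ Real.exp (-v) * Wb58c63.tp (u - v) :=
    mul_nonneg (Real.exp_pos _).le (Wb58c63.tp_nonneg _)
  rw [norm_mul, Complex.norm_real, Real.norm_eq_abs, abs_of_nonneg h0]
  by_cases h : |u - v| < Wb58c63.l0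
  · rw [mul_comm]
    exact mul_le_mul_of_nonneg_right (hB v h) h0
  · rw [Wb58c63.tp_zero (not_lt.1 h)]
    simp

/-- The regularised quotient. -/
def GPd_W (H : ℝ → ℂ) (m v : ℝ) : ℂ := H v / ((max v m : ℝ) : ℂ) ^ 3

theorem GPd_W_cont (H : ℝ → ℂ) (hH : Continuous H) (m : ℝ) (hm : 0 < m) :
    Continuous (GPd_W H m) := by
  unfold GPd_W
  refine hH.div (by fun_prop) (fun v => ?_)
  have h1 : 0 < max v m := lt_max_of_lt_right hm
  have h2 : ((max v m : ℝ) : ℂ) ≠ 0 := by exact_mod_cast h1.ne'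
  exact pow_ne_zero _ h2

theorem GPd_W_eq (H : ℝ → ℂ) (m : ℝ) (hH : ∀ v, v ≤ m → H v = 0) (v : ℝ) :
    GPd_W H m v = H v / (v : ℂ) ^ 3 := by
  unfold GPd_W
  rcases le_total v m with h | h
  · rw [hH v h, zero_div, zero_div]
  · rw [max_eq_left h]

theorem GPd_pos_bd (a L D u v : ℝ) (H : ℝ → ℂ) (ha : 0 < a) (haL : 4 ≤ a * L)
    (h0 : ∀ v, v ≤ a * L → H v = 0) (hb : ∀ v, ‖H v‖ ≤ 1) (hD : 0 ≤ D)
    (hl : ∀ v w, ‖H v - H w‖ ≤ D / L * |v - w|) (hL : 0 < L) (huv : |u - v| < Wb58c63.l0) :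
    ‖(u : ℂ) ^ 2 * GPd_W H (a * L) v - H u / (u : ℂ)‖ ≤ (8 * D / a + 28 / a ^ 2) / L ^ 2 := by
  rw [GPd_W_eq H _ h0]
  have h1 := GPd_l0_le
  obtain ⟨h2, h3⟩ := abs_lt.1 huv
  by_cases h : u ≤ a * L ∧ v ≤ a * L
  · rw [h0 u h.1, h0 v h.2]
    simp only [zero_div, mul_zero, sub_self, norm_zero]
    positivity
  · have hm : (1 : ℝ) ≤ a * L / 2 := by linarith
    have hu : a * L / 2 ≤ u := by
      rcases not_and_or.1 h with h | h <;> linarith
    have hv : a * L / 2 ≤ v := by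
      rcases not_and_or.1 h with h | h <;> linarith
    have huv1 : |u - v| ≤ 1 := by linarith
    have hxy : ‖H v - H u‖ ≤ D / L := by
      refine (hl v u).trans ?_
      rw [abs_sub_comm]
      have : 0 ≤ D / L := by positivity
      nlinarith
    refine (GPd_pt (a * L / 2) (D / L) u v (H v) (H u) hm hu hv huv1 (hb u) hxy).trans ?_
    apply le_of_eq
    field_simp
    ring

theorem GPd_TT (Z v : ℝ) (hZ : Real.exp v ≤ Z) (r : ℕ) (χ : DirichletCharacter ℂ r) :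
    Wb58c63.TT 2 (Real.exp (v - Wb58c63.l0)) χ = ∑ p ∈ PI 0 (2 * Z),
      ((Wb58c63.tp (Real.log p - v) * (Real.log p / v) ^ 2 * Real.log p : ℝ) : ℂ) *
        χ (p : ZMod r) := by
  have hv : Wb58c63.vY (Real.exp (v - Wb58c63.l0)) = v := by
    unfold Wb58c63.vY
    rw [Real.log_exp]
    ring
  unfold Wb58c63.TT Wb58c63.ap Wb58c63.aw
  rw [hv]
  refine Finset.sum_subset ?_ ?_
  · intro p hp
    unfold Wb58c63.Pr at hp
    rw [mem_filter, mem_range, Nat.lt_ceil] at hp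
    rw [Wb58c63.mem_PI]
    refine ⟨hp.2, Nat.cast_nonneg p, hp.1.trans_le ?_⟩
    have h1 : Real.exp (v - Wb58c63.l0) ≤ Real.exp v := Real.exp_le_exp.2 (by
      have := GPd_l0_pos
      linarith)
    linarith
  · intro p hp hp'
    rw [Wb58c63.mem_PI] at hp
    have h1 : ¬ (p : ℝ) < 2 * Real.exp (v - Wb58c63.l0) := by
      intro h
      apply hp'
      unfold Wb58c63.Pr
      rw [mem_filter, mem_range, Nat.lt_ceil]
      exact ⟨h, hp.1⟩
    have h2 : Real.log (2 * Real.exp (v - Wb58c63.l0)) ≤ Real.log p :=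
      Real.log_le_log (by positivity) (not_lt.1 h1)
    rw [Real.log_mul (by norm_num) (Real.exp_pos _).ne', Real.log_exp] at h2
    have h3 : Real.log 2 = 2 * Wb58c63.l0 := by
      unfold Wb58c63.l0
      ring
    have h4 : Wb58c63.tp (Real.log p - v) = 0 := by
      refine Wb58c63.tp_zero ((le_abs_self _).trans' ?_)
      linarith
    rw [h4]
    simp

theorem GPd_I_pt (a L C : ℝ) (B r : ℕ) (χ : DirichletCharacter ℂ r) (Z v : ℝ) (H : ℝ → ℂ)
    (ha : 0 < a) (haL : 4 ≤ a * L)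
    (hC : 0 < C) (h0 : ∀ v, v ≤ a * L → H v = 0) (h6 : ∀ v, 6 * L ≤ v → H v = 0)
    (hb : ∀ v, ‖H v‖ ≤ 1) (hL : 0 < L)
    (hZ : Real.exp (6 * L) ≤ Z)
    (hSW : ∀ (Y : ℝ), 3 ≤ Y → (r : ℝ) ≤ Real.log Y ^ B →
      ‖Wb58c63.TT 2 Y χ‖ ≤ C * Y * Real.log Y ^ (-((2 : ℕ) : ℝ) / 2))
    (hr : (r : ℝ) ≤ (a * L / 2) ^ B) :
    ‖∑ p ∈ PI 0 (2 * Z), χ (p : ZMod r) * (Real.log p : ℂ) ^ 3 *
      (((Real.exp (-v) * Wb58c63.tp (Real.log p - v) : ℝ) : ℂ) * GPd_W H (a * L) v)‖ ≤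
      (Set.Icc (a * L) (6 * L)).indicator (fun _ => 2 * C / (a * L) ^ 2) v := by
  by_cases hv : v ∈ Set.Icc (a * L) (6 * L)
  · rw [Set.indicator_of_mem hv]
    obtain ⟨hv1, hv2⟩ := hv
    have hv0 : 0 < v := by linarith
    have hvc : (v : ℂ) ≠ 0 := by exact_mod_cast hv0.ne'
    have e : ∑ p ∈ PI 0 (2 * Z), χ (p : ZMod r) * (Real.log p : ℂ) ^ 3 *
        (((Real.exp (-v) * Wb58c63.tp (Real.log p - v) : ℝ) : ℂ) * GPd_W H (a * L) v) =
        (Real.exp (-v) : ℂ) * (H v / v) * Wb58c63.TT 2 (Real.exp (v - Wb58c63.l0)) χ := by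
      rw [GPd_TT Z v ((Real.exp_le_exp.2 hv2).trans hZ), Finset.mul_sum, GPd_W_eq H _ h0]
      refine Finset.sum_congr rfl fun p _ => ?_
      push_cast
      field_simp
    rw [e]
    have hl := GPd_l0_le
    have hl' := GPd_l0_pos
    have hvl : a * L / 2 ≤ v - Wb58c63.l0 := by linarith
    have hvl0 : 0 < v - Wb58c63.l0 := by linarith
    have h1 : 3 ≤ Real.exp (v - Wb58c63.l0) := by
      have := Real.add_one_le_exp (v - Wb58c63.l0)
      linarith
    have h2 := hSW (Real.exp (v - Wb58c63.l0)) h1 (by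
      rw [Real.log_exp]
      exact hr.trans (pow_le_pow_left₀ (by positivity) hvl B))
    rw [Real.log_exp] at h2
    have e2 : (-((2 : ℕ) : ℝ) / 2) = -1 := by norm_num
    rw [e2, Real.rpow_neg_one] at h2
    rw [norm_mul, norm_mul, norm_div, Complex.norm_real, Complex.norm_real, Real.norm_eq_abs,
      Real.norm_eq_abs, abs_of_pos (Real.exp_pos _), abs_of_pos hv0]
    have h3 : ‖H v‖ / v ≤ 1 / (a * L) := by
      refine div_le_div₀ zero_le_one (hb v) (by linarith) hv1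
    have h4 : (v - Wb58c63.l0)⁻¹ ≤ (a * L / 2)⁻¹ := inv_anti₀ (by linarith) hvl
    calc Real.exp (-v) * (‖H v‖ / v) * ‖Wb58c63.TT 2 (Real.exp (v - Wb58c63.l0)) χ‖
        ≤ Real.exp (-v) * (1 / (a * L)) * (C * Real.exp v * (a * L / 2)⁻¹) := by
          refine mul_le_mul (mul_le_mul_of_nonneg_left h3 (Real.exp_pos _).le) ?_ (norm_nonneg _)
            (by have : 0 < a * L := by linarith
                positivity)
          refine h2.trans ?_
          refine mul_le_mul ?_ h4 (by positivity) (by positivity)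
          refine mul_le_mul_of_nonneg_left (Real.exp_le_exp.2 (by linarith)) hC.le
      _ = 2 * C / (a * L) ^ 2 := by
          rw [Real.exp_neg]
          have : Real.exp v ≠ 0 := (Real.exp_pos v).ne'
          have : a * L ≠ 0 := by
            have : 0 < a * L := by linarith
            exact this.ne'
          field_simp
  · rw [Set.indicator_of_notMem hv]
    have hH : H v = 0 := by
      rw [Set.mem_Icc, not_and_or] at hv
      rcases hv with hv | hv
      · exact h0 v (not_le.1 hv).le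
      · exact h6 v (not_le.1 hv).le
    have hW : GPd_W H (a * L) v = 0 := by
      unfold GPd_W
      rw [hH, zero_div]
    rw [hW]
    simp

/-- The prime polynomial as a sum over the primes below `2 Z`. -/
theorem GPd_DP (Z L : ℝ) (hZ : Real.exp (6 * L) = Z) (t : ℝ) (r N : ℕ)
    (χ : DirichletCharacter ℂ r) (h : ℝ → ℝ) (h6 : ∀ v, 6 * L ≤ v → h v = 0) (hN : Z ≤ N) :
    DP N (pw h) χ t = ∑ p ∈ PI 0 (2 * Z), ((1 / p : ℝ) : ℂ) * χ (p : ZMod r) *
      GPd_H h t (Real.log p) := by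
  have hZ0 : 0 < Z := by
    rw [← hZ]
    exact Real.exp_pos _
  have hbig : ∀ n : ℕ, Z ≤ n → h (Real.log n) = 0 := by
    intro n hn
    apply h6
    have := Real.log_le_log hZ0 hn
    rwa [← hZ, Real.log_exp] at this
  unfold DP
  refine Finset.sum_congr_of_eq_on_inter ?_ ?_ ?_
  · intro n hn hn'
    rw [Wb58c63.mem_PI] at hn'
    unfold pw
    by_cases hp : n.Prime
    · have h1 : Z ≤ n := by
        by_contra hlt
        push Not at hlt
        exact hn' ⟨hp, Nat.cast_nonneg n, by linarith⟩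
      rw [if_pos hp, hbig n h1]
      simp
    · rw [if_neg hp]
      simp
  · intro p hp hp'
    rw [Wb58c63.mem_PI] at hp
    have h1 : N < p := by
      by_contra hlt
      push Not at hlt
      exact hp' (Finset.mem_Icc.2 ⟨hp.1.one_lt.le, hlt⟩)
    have h2 : Z ≤ (p : ℝ) := hN.trans (by exact_mod_cast h1.le)
    unfold GPd_H
    rw [hbig p h2]
    simp
  · intro p hp hp'
    rw [Wb58c63.mem_PI] at hp'
    have hp0 : p ≠ 0 := hp'.1.ne_zero
    unfold pw GPd_H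
    rw [if_pos hp'.1, DHm_nit hp0]
    push_cast
    ring

/-- **Siegel-Walfisz for slowly varying weights.**

Proof. Let `H v = h v exp (- i t v)`, Lipschitz with constant `≤ C / log Y`. For `v` let `Y_v = exp (v - l0)`, so `vY Y_v = v`. With
`k = 2`, `κ₀ = ∫ tp y exp (y) dy`: for a prime `p`, `u = log p`, `∫ tp (u - v) (u / v) ^ k exp (- v) H v / v dv =
κ₀ exp (- u) H u / u (1 + O (1 / log Y)) + O (exp (- u) / (log Y) ^ 2)`. So
`∑ χ(p) H (log p) / p = κ₀⁻¹ ∫ exp (- v) H v / v TT k Y_v χ dv + O (1 / log Y)`, and `‖TT‖ ≤ C Y_v (log Y_v) ^ (- k / 2)`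
(`Wb58c63.siegel_walfisz`, `r ≤ (log Y) ^ A ≤ (log Y_v) ^ B`). -/
theorem sw_slow (a η A K : ℝ) (ha : 0 < a) (ha1 : a ≤ 1) (hη : 0 < η) (hη1 : η ≤ 1) (hA : 0 < A) (hK : 0 < K)
    (ε : ℝ) (hε : 0 < ε) : ∃ Y₀ : ℝ, 3 ≤ Y₀ ∧ ∀ (Y t : ℝ) (r N : ℕ) (h : ℝ → ℝ), Y₀ ≤ Y → Tst Y a η h →
      1 < r → (r : ℝ) ≤ Real.log Y ^ A → |t| ≤ K / Real.log Y → Y ^ 6 ≤ N → ∀ χ ∈ prim r,
        ‖DP N (pw h) χ t‖ ≤ ε := by
  obtain ⟨CS, hCS, hSW⟩ := Wb58c63.siegel_walfisz (⌈A⌉₊ + 1) 2 (by norm_num)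
  obtain ⟨CM, hCM, hM⟩ := Wb58c63.mertens_one
  have hka := GPd_ka_pos
  set κ := GPd_ka with hκ
  set D : ℝ := 1 / η + K with hD
  have hD0 : 0 < D := by positivity
  set C1 : ℝ := 8 * D / a + 28 / a ^ 2 with hC1
  have hC10 : 0 < C1 := by positivity
  set Ct : ℝ := 12 * CS / (a ^ 2 * κ) + C1 * (7 + CM) with hCt
  have hCt0 : 0 < Ct := by positivity
  set L0 : ℝ := max (4 / a) (max ((2 / a) ^ (⌈A⌉₊ + 1)) (Ct / ε)) with hL0
  refine ⟨Real.exp L0 + 3, by have := Real.exp_pos L0; linarith, ?_⟩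
  intro Y t r N h hY hT hr hrA ht hN χ hχ
  have hY0 : 0 < Y := by
    have := Real.exp_pos L0
    linarith
  have hLL : L0 ≤ Real.log Y := by
    rw [Real.le_log_iff_exp_le hY0]
    linarith
  set L := Real.log Y with hLdef
  have hL1 : 4 / a ≤ L := (le_max_left _ _).trans hLL
  have hL2 : (2 / a) ^ (⌈A⌉₊ + 1) ≤ L := ((le_max_left _ _).trans (le_max_right _ _)).trans hLL
  have hL3 : Ct / ε ≤ L := ((le_max_right _ _).trans (le_max_right _ _)).trans hLL
  have haL : 4 ≤ a * L := by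
    rw [div_le_iff₀ ha] at hL1
    linarith
  have hL4 : 4 ≤ L := by nlinarith
  have hLpos : 0 < L := by linarith
  obtain ⟨hT1, hT2, hT3, hT4⟩ := hT
  set H := GPd_H h t with hH
  have hHb : ∀ v, ‖H v‖ ≤ 1 := fun v => by
    rw [hH, GPd_H_norm]
    exact hT1 v
  have hHlip : ∀ v w, ‖H v - H w‖ ≤ D / L * |v - w| := by
    intro v w
    have h1 := GPd_H_lip h t (1 / (η * L)) hT1 (fun v w => by
      have := hT2 v w
      rw [← hLdef] at this
      calc _ ≤ _ := this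
        _ = _ := by ring) v w
    refine h1.trans (mul_le_mul_of_nonneg_right ?_ (abs_nonneg _))
    rw [hD, add_div, div_div]
    linarith
  have hHcont : Continuous H := by
    refine LipschitzWith.continuous (K := (D / L).toNNReal) (LipschitzWith.of_dist_le_mul ?_)
    intro v w
    rw [Real.coe_toNNReal _ (by positivity), dist_eq_norm, Real.dist_eq]
    exact hHlip v w
  have hH0 : ∀ v, v ≤ a * L → H v = 0 := by
    intro v hv
    rw [hH]
    unfold GPd_H
    rw [hT3 v hv]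
    simp
  have hH6 : ∀ v, 6 * L ≤ v → H v = 0 := by
    intro v hv
    rw [hH]
    unfold GPd_H
    rw [hT4 v hv]
    simp
  have haL0 : 0 < a * L := by linarith
  have hWc := GPd_W_cont H hHcont (a * L) haL0
  set W := GPd_W H (a * L) with hW
  set Z : ℝ := Y ^ 6 with hZ
  have hZexp : Real.exp (6 * L) = Z := by
    rw [hZ, hLdef, show (6 : ℝ) * Real.log Y = ((6 : ℕ) : ℝ) * Real.log Y by norm_num,
      Real.exp_nat_mul, Real.exp_log hY0]
  rw [GPd_DP Z L hZexp t r N χ h (fun v hv => hT4 v hv) hN]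
  -- the integrals
  set Q : ℕ → ℂ := fun p =>
    ∫ v : ℝ, ((Real.exp (-v) * Wb58c63.tp (Real.log p - v) : ℝ) : ℂ) * W v with hQ
  set P := PI 0 (2 * Z) with hP
  have hprime : ∀ p ∈ P, p.Prime := fun p hp => (Wb58c63.mem_PI.1 hp).1
  have hcomp : ∀ p ∈ P, ‖(Real.log p : ℂ) ^ 2 * Q p -
      ((κ * (1 / p) : ℝ) : ℂ) * (H (Real.log p) / (Real.log p : ℂ))‖ ≤
        C1 / L ^ 2 * (κ * (1 / p)) := by
    intro p hp
    have hp0 : (0 : ℝ) < p := by exact_mod_cast (hprime p hp).pos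
    have e1 : Real.exp (-Real.log p) = 1 / p := by
      rw [Real.exp_neg, Real.exp_log hp0, one_div]
    have h1 := GPd_comp W hWc (Real.log p) (C1 / L ^ 2) (H (Real.log p) / (Real.log p : ℂ))
      (fun v hv => GPd_pos_bd a L D (Real.log p) v H ha haL hH0 hHb hD0.le hHlip hLpos hv)
    rw [e1] at h1
    exact h1
  -- the main integral
  have hI : ‖∑ p ∈ P, χ (p : ZMod r) * (Real.log p : ℂ) ^ 3 * Q p‖ ≤ 12 * CS / a ^ 2 / L := by
    have hint : ∀ p ∈ P, Integrable fun v : ℝ => χ (p : ZMod r) * (Real.log p : ℂ) ^ 3 *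
        (((Real.exp (-v) * Wb58c63.tp (Real.log p - v) : ℝ) : ℂ) * W v) := by
      intro p _
      have hc : Continuous fun v : ℝ =>
          ((Real.exp (-v) * Wb58c63.tp (Real.log p - v) : ℝ) : ℂ) * W v :=
        (Complex.continuous_ofReal.comp (GPd_cont _)).mul hWc
      have hs : HasCompactSupport fun v : ℝ =>
          ((Real.exp (-v) * Wb58c63.tp (Real.log p - v) : ℝ) : ℂ) * W v := by
        refine HasCompactSupport.mul_right ?_
        exact (GPd_supp _).comp_left (g := fun x : ℝ => (x : ℂ)) (by simp)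
      exact (hc.integrable_of_hasCompactSupport hs).const_mul _
    have e1 : ∑ p ∈ P, χ (p : ZMod r) * (Real.log p : ℂ) ^ 3 * Q p =
        ∫ v : ℝ, ∑ p ∈ P, χ (p : ZMod r) * (Real.log p : ℂ) ^ 3 *
        (((Real.exp (-v) * Wb58c63.tp (Real.log p - v) : ℝ) : ℂ) * W v) := by
      rw [integral_finsetSum _ hint]
      refine Finset.sum_congr rfl fun p _ => ?_
      rw [integral_const_mul]
    rw [e1]
    have hrB : (r : ℝ) ≤ (a * L / 2) ^ (⌈A⌉₊ + 1) := by
      have hL1' : (1 : ℝ) ≤ L := by linarith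
      have h1 : L ^ A ≤ L ^ (⌈A⌉₊ : ℝ) := Real.rpow_le_rpow_of_exponent_le hL1' (Nat.le_ceil A)
      rw [Real.rpow_natCast] at h1
      have h2 : L ^ ⌈A⌉₊ ≤ (a * L / 2) ^ (⌈A⌉₊ + 1) := by
        have e : (a * L / 2) ^ (⌈A⌉₊ + 1) = (a / 2) ^ (⌈A⌉₊ + 1) * L * L ^ ⌈A⌉₊ := by
          rw [show a * L / 2 = a / 2 * L by ring, mul_pow, pow_succ L]
          ring
        rw [e]
        have h3 : 1 ≤ (a / 2) ^ (⌈A⌉₊ + 1) * L := by
          have h4 : (a / 2) ^ (⌈A⌉₊ + 1) * (2 / a) ^ (⌈A⌉₊ + 1) = 1 := by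
            rw [← mul_pow]
            have : a / 2 * (2 / a) = 1 := by field_simp
            rw [this, one_pow]
          rw [← h4]
          exact mul_le_mul_of_nonneg_left hL2 (by positivity)
        exact le_mul_of_one_le_left (by positivity) h3
      exact hrA.trans (h1.trans h2)
    have hind : Integrable ((Set.Icc (a * L) (6 * L)).indicator
        (fun _ : ℝ => 2 * CS / (a * L) ^ 2)) := by
      rw [integrable_indicator_iff measurableSet_Icc]
      exact integrableOn_const (by simp) (by simp)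
    refine (norm_integral_le_of_norm_le hind (Filter.Eventually.of_forall fun v =>
      GPd_I_pt a L CS (⌈A⌉₊ + 1) r χ Z v H ha haL hCS hH0 hH6 hHb hLpos hZexp.le
        (fun Y' hY' hr' => hSW Y' r hY' hr hr' χ hχ) hrB)).trans ?_
    rw [integral_indicator measurableSet_Icc, setIntegral_const, smul_eq_mul,
      Real.volume_real_Icc_of_le (by nlinarith)]
    have h7 : 6 * L - a * L ≤ 6 * L := by linarith
    calc (6 * L - a * L) * (2 * CS / (a * L) ^ 2) ≤ 6 * L * (2 * CS / (a * L) ^ 2) :=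
          mul_le_mul_of_nonneg_right h7 (by positivity)
      _ = 12 * CS / a ^ 2 / L := by
          field_simp
          ring
  -- Mertens
  have hMer : ∑ p ∈ P, Real.log p / p ≤ (7 + CM) * L := by
    have hZ1 : 1 ≤ Z := by
      rw [← hZexp]
      exact Real.one_le_exp (by linarith)
    have h1 := hM (2 * Z) (by linarith)
    have h2 := (abs_le.1 h1).2
    have h3 : Real.log (2 * Z) = Real.log 2 + 6 * L := by
      rw [Real.log_mul (by norm_num) (by positivity), ← hZexp, Real.log_exp]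
    have h4 := Real.log_two_lt_d9
    nlinarith
  -- assembly
  have key : (κ : ℂ) * (∑ p ∈ P, ((1 / p : ℝ) : ℂ) * χ (p : ZMod r) * H (Real.log p)) =
      ∑ p ∈ P, χ (p : ZMod r) * (Real.log p : ℂ) ^ 3 * Q p -
        ∑ p ∈ P, χ (p : ZMod r) * (Real.log p : ℂ) * ((Real.log p : ℂ) ^ 2 * Q p -
          ((κ * (1 / p) : ℝ) : ℂ) * (H (Real.log p) / (Real.log p : ℂ))) := by
    rw [Finset.mul_sum, ← Finset.sum_sub_distrib]
    refine Finset.sum_congr rfl fun p hp => ?_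
    have h1 : 0 < Real.log p := Real.log_pos (by exact_mod_cast (hprime p hp).one_lt)
    have h2 : ((Real.log p : ℝ) : ℂ) ≠ 0 := Complex.ofReal_ne_zero.2 h1.ne'
    generalize ((Real.log p : ℝ) : ℂ) = x at h2 ⊢
    push_cast
    field_simp
    ring
  have hE : ‖∑ p ∈ P, χ (p : ZMod r) * (Real.log p : ℂ) * ((Real.log p : ℂ) ^ 2 * Q p -
          ((κ * (1 / p) : ℝ) : ℂ) * (H (Real.log p) / (Real.log p : ℂ)))‖ ≤
        C1 * κ * (7 + CM) / L := by
    refine (norm_sum_le _ _).trans ?_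
    have h1 : ∀ p ∈ P, ‖χ (p : ZMod r) * (Real.log p : ℂ) * ((Real.log p : ℂ) ^ 2 * Q p -
          ((κ * (1 / p) : ℝ) : ℂ) * (H (Real.log p) / (Real.log p : ℂ)))‖ ≤
        C1 / L ^ 2 * κ * (Real.log p / p) := by
      intro p hp
      have h2 : 0 ≤ Real.log p := Real.log_natCast_nonneg p
      rw [norm_mul, norm_mul, Complex.norm_real, Real.norm_eq_abs, abs_of_nonneg h2]
      have h3 : ‖χ (p : ZMod r)‖ ≤ 1 := DirichletCharacter.norm_le_one χ _
      calc _ ≤ 1 * Real.log p * (C1 / L ^ 2 * (κ * (1 / p))) := by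
            refine mul_le_mul (mul_le_mul_of_nonneg_right h3 h2) (hcomp p hp) (norm_nonneg _)
              (by positivity)
        _ = _ := by ring
    refine (Finset.sum_le_sum h1).trans ?_
    rw [← Finset.mul_sum]
    calc C1 / L ^ 2 * κ * ∑ p ∈ P, Real.log p / p ≤ C1 / L ^ 2 * κ * ((7 + CM) * L) :=
          mul_le_mul_of_nonneg_left hMer (by positivity)
      _ = C1 * κ * (7 + CM) / L := by
          field_simp
  have hfin : κ * ‖∑ p ∈ P, ((1 / p : ℝ) : ℂ) * χ (p : ZMod r) * H (Real.log p)‖ ≤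
      12 * CS / a ^ 2 / L + C1 * κ * (7 + CM) / L := by
    have h1 : κ * ‖∑ p ∈ P, ((1 / p : ℝ) : ℂ) * χ (p : ZMod r) * H (Real.log p)‖ =
        ‖(κ : ℂ) * (∑ p ∈ P, ((1 / p : ℝ) : ℂ) * χ (p : ZMod r) * H (Real.log p))‖ := by
      rw [norm_mul, Complex.norm_real, Real.norm_eq_abs, abs_of_pos hka]
    rw [h1, key]
    exact (norm_sub_le _ _).trans (add_le_add hI hE)
  have h8 : κ * ‖∑ p ∈ P, ((1 / p : ℝ) : ℂ) * χ (p : ZMod r) * H (Real.log p)‖ ≤ κ * ε := by
    refine hfin.trans ?_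
    have h9 : 12 * CS / a ^ 2 / L + C1 * κ * (7 + CM) / L = κ * (Ct / L) := by
      rw [hCt]
      field_simp
    rw [h9]
    refine mul_le_mul_of_nonneg_left ?_ hka.le
    rw [div_le_iff₀ hLpos]
    rw [div_le_iff₀ hε] at hL3
    linarith
  exact le_of_mul_le_mul_left h8 hka

end Pool.Agent.M58
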