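import Pool.Agent.W_b58c63_m1.GPc
import Pool.Agent.W_b58c63_m1.GPd

/-!
# The prime polynomials (helper68)
-/

set_option autoImplicit false

noncomputable section

open Finset MeasureTheory Complex

namespace Pool.Agent.M58

/-- **The prime polynomials.**

Proof. `PB0` with `ε / 2`. If `i1` has conductor `≤ (log Y) ^ A`, replace it by `⟨0, 1⟩` (not in `CR`): for `|t| ≥ K / log Y` its term is
`≤ ε / 2` by `osc_decay`, for `|t| ≤ K / log Y` the polynomial itself is small by `sw_slow`. -/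
theorem PB (a η ε A : ℝ) (ha : 0 < a) (ha1 : a ≤ 1) (hη : 0 < η) (hη1 : η ≤ 1) (hε : 0 < ε) (hA : 0 < A) :
    ∃ δ Y₀ : ℝ, 0 < δ ∧ δ < 1 ∧ 3 ≤ Y₀ ∧ ∀ Y : ℝ, Y₀ ≤ Y → ∃ (i1 : CC) (β : ℝ), 1 / 2 ≤ β ∧ β ≤ 1 ∧
      (i1 ∈ CR ⌊Y ^ δ⌋₊ → 1 < i1.1 ∧ Real.log Y ^ A < i1.1 ∧
        ∀ n : ℕ, (i1.2 (n : ZMod i1.1)).im = 0) ∧ PBL Y δ a η ε i1 β := by
  obtain ⟨δ, Y1, hδ, hδ1, hY1, hPB⟩ := PB0 a η (ε / 2) ha ha1 hη hη1 (by positivity)
  obtain ⟨C, hC, hosc⟩ := osc_decay a η ha ha1 hη hη1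
  obtain ⟨Y2, hY2, hSW⟩ := sw_slow a η A (2 * C / ε) ha ha1 hη hη1 hA (by positivity) ε hε
  refine ⟨δ, max Y1 Y2, hδ, hδ1, hY1.trans (le_max_left _ _), ?_⟩
  intro Y hY
  have hYa : Y1 ≤ Y := (le_max_left _ _).trans hY
  have hYb : Y2 ≤ Y := (le_max_right _ _).trans hY
  have hY3 : 3 ≤ Y := hY1.trans hYa
  have hL : 0 < Real.log Y := Real.log_pos (by linarith)
  obtain ⟨i1, β, hβ, hβ1, hi1, hP⟩ := hPB Y hYa
  by_cases hcase : i1 ∈ CR ⌊Y ^ δ⌋₊ ∧ ((i1.1 : ℕ) : ℝ) ≤ Real.log Y ^ A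
  · obtain ⟨hmem, hcond⟩ := hcase
    have hnot : (⟨0, 1⟩ : CC) ∉ CR ⌊Y ^ δ⌋₊ := by
      intro hc
      unfold CR at hc
      rw [Finset.mem_sigma, Finset.mem_Icc] at hc
      have := hc.1.1
      simp at this
    refine ⟨⟨0, 1⟩, β, hβ, hβ1, fun hc => absurd hc hnot, ?_⟩
    intro h N hT hN i hi t ht
    have hine : i ≠ (⟨0, 1⟩ : CC) := fun hc => hnot (hc ▸ hi)
    rw [if_neg hine, add_zero]
    have h0 := hP h N hT hN i hi t ht
    by_cases hii : i = i1
    · have hi0 : i ≠ i0 := by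
        intro hc
        have h1 := (hi1 hmem).1
        rw [← hii, hc] at h1
        exact lt_irrefl _ h1
      rw [if_neg hi0, sub_zero]
      rw [if_neg hi0, if_pos hii, sub_zero] at h0
      rcases le_or_gt |t| (2 * C / ε / Real.log Y) with htK | htK
      · have hprim : i.2 ∈ prim i.1 := by
          unfold CR at hi
          rw [Finset.mem_sigma] at hi
          exact hi.2
        refine hSW Y t i.1 N h hYb hT ?_ ?_ htK hN i.2 hprim
        · rw [hii]; exact (hi1 hmem).1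
        · rw [hii]; exact hcond
      · have h1 := (hosc Y (1 - β) t h hY3 hT (by linarith)).2
        set O := osc (fun v => h v / v * Real.exp (-(1 - β) * v)) t with hO
        have h2 : 2 * C / ε < |t| * Real.log Y := by
          rwa [div_lt_iff₀ hL] at htK
        have h3 : ‖O‖ ≤ ε / 2 := by
          by_contra hc
          rw [not_le] at hc
          have h4 : C < ‖O‖ * (|t| * Real.log Y) := by
            calc C = ε / 2 * (2 * C / ε) := by field_simp
              _ < ‖O‖ * (|t| * Real.log Y) :=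
                mul_lt_mul'' hc h2 (by positivity) (by positivity)
          linarith
        have h5 : DP N (pw h) i.2 t = (DP N (pw h) i.2 t + O) - O := by ring
        rw [h5]
        calc ‖(DP N (pw h) i.2 t + O) - O‖ ≤ ‖DP N (pw h) i.2 t + O‖ + ‖O‖ := norm_sub_le _ _
          _ ≤ ε / 2 + ε / 2 := add_le_add h0 h3
          _ = ε := by ring
    · rw [if_neg hii, add_zero] at h0
      exact h0.trans (by linarith)
  · refine ⟨i1, β, hβ, hβ1, fun hm => ⟨(hi1 hm).1, ?_, (hi1 hm).2⟩,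
      PBL_mono (by linarith) hP le_rfl le_rfl le_rfl hη (by linarith)⟩
    by_contra hc
    exact hcase ⟨hm, not_lt.mp hc⟩

end Pool.Agent.M58
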