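import Pool.Agent.W_b58c63_m1.HFam

/-!
# Sums over rough integers (helper68)
-/

set_option autoImplicit false

noncomputable section

open Finset MeasureTheory

namespace Pool.Agent.M58

/-- The product `∏_{p < z} (1 - 1 / p)`. -/
def Vz (z : ℝ) : ℝ := VP (fun p => 1 / (p : ℝ)) (PI 0 z)

/-- The conclusion of `sieve_smooth`. -/
def GRou_SS (B κ C : ℝ) : Prop :=
    ∀ (z : ℝ) (b q N : ℕ) (ψ : DirichletCharacter ℂ q) (A u h₀ h₁ : ℝ) (h : ℝ → ℝ), 2 ≤ z → 1 ≤ b →
      z ^ (4 * b + 5) ≤ Real.exp (A / 2) → 1 ≤ q → 1 ≤ N → |u| ≤ Real.exp (B * A) →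
      (q : ℝ) ≤ Real.exp (κ * A) → (∀ v, |h v| ≤ h₀) → (∀ v w, |h v - h w| ≤ h₁ * |v - w|) →
      (∀ v, v ≤ A → h v = 0) → (∀ v, Real.log N ≤ v → h v = 0) →
        ‖DP N (fun n => tp' z b n * h (Real.log n)) ψ u -
          (open Classical in if ψ = 1 then (Mp z b q : ℂ) * osc h u else 0)‖ ≤
            C * (h₀ + h₁) * Real.exp (-κ * A) ∧
        ‖DP N (fun n => tm' z b n * h (Real.log n)) ψ u -
          (open Classical in if ψ = 1 then (Mm z b q : ℂ) * osc h u else 0)‖ ≤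
            C * (h₀ + h₁) * Real.exp (-κ * A)

theorem GRou_osc (h : ℝ → ℝ) (a b u : ℝ) (hab : a ≤ b) (h1 : ∀ v, |h v| ≤ 1)
    (ha : ∀ v, v ≤ a → h v = 0) (hb : ∀ v, b ≤ v → h v = 0) : ‖osc h u‖ ≤ b - a := by
  unfold osc
  have hsupp : Function.support (fun v : ℝ => (h v : ℂ) * Complex.exp (-(u * v : ℝ) * Complex.I)) ⊆
      Set.Ioc a b := by
    intro v hv
    by_contra hc
    apply hv
    have : h v = 0 := by
      rw [Set.mem_Ioc, not_and_or, not_lt, not_le] at hc
      rcases hc with hc | hc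
      · exact ha v hc
      · exact hb v hc.le
    show (h v : ℂ) * Complex.exp (-(u * v : ℝ) * Complex.I) = 0
    rw [this, Complex.ofReal_zero, zero_mul]
  rw [← intervalIntegral.integral_eq_integral_of_support_subset hsupp]
  have h2 : ∀ v ∈ Set.uIoc a b, ‖(h v : ℂ) * Complex.exp (-(u * v : ℝ) * Complex.I)‖ ≤ 1 := by
    intro v _
    rw [norm_mul, ← Complex.ofReal_neg, Complex.norm_exp_ofReal_mul_I, mul_one, Complex.norm_real]
    exact h1 v
  refine (intervalIntegral.norm_integral_le_of_norm_le_const h2).trans ?_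
  rw [one_mul, abs_of_nonneg (sub_nonneg.2 hab)]

theorem GRou_real (N : ℕ) (a : ℕ → ℝ) :
    DP N a (1 : DirichletCharacter ℂ 1) 0 = ((∑ n ∈ Icc 1 N, a n / n : ℝ) : ℂ) := by
  unfold DP
  rw [Complex.ofReal_sum]
  refine Finset.sum_congr rfl fun n _ => ?_
  have h1 : (1 : DirichletCharacter ℂ 1) (n : ZMod 1) = 1 := by
    have : ((n : ℕ) : ZMod 1) = 1 := Subsingleton.elim _ _
    rw [this, map_one]
  have h2 : nit n 0 = 1 := by
    unfold nit
    simp
  rw [h1, h2, mul_one, mul_one]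

theorem GRou_tent (x : ℝ) : 0 ≤ tent x ∧ |tent x| ≤ 1 := by
  have h0 : 0 ≤ tent x := by
    unfold tent
    exact le_max_left _ _
  refine ⟨h0, ?_⟩
  rw [abs_of_nonneg h0]
  unfold tent
  exact max_le zero_le_one (by linarith [abs_nonneg x])

theorem GRou_lip (x y : ℝ) : |tent x - tent y| ≤ |x - y| := by
  unfold tent
  refine (abs_max_sub_max_le_max _ _ _ _).trans ?_
  rw [sub_self, abs_zero]
  refine max_le (abs_nonneg _) ?_
  have h1 : 1 - |x| - (1 - |y|) = |y| - |x| := by ring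
  rw [h1, abs_sub_comm x y]
  exact abs_abs_sub_abs_le_abs_sub y x

theorem GRou_tents (B κ C : ℝ) (H : GRou_SS B κ C) (hκ : 0 < κ) (hC : 0 < C) (z : ℝ) (b N : ℕ)
    (c w A : ℝ) (hz : 2 ≤ z) (hb : 1 ≤ b) (hA : 0 ≤ A) (hzA : z ^ (4 * b + 5) ≤ Real.exp (A / 2))
    (hN : 1 ≤ N) (hw : 1 ≤ w) (hcA : A ≤ c - w) (hcN : c + w ≤ Real.log N) :
    ∑ n ∈ Icc 1 N, tp' z b n * tent ((Real.log n - c) / w) / n ≤
      |Mp z b 1| * w + 2 * C * Real.exp (-κ * A) ∧
    ∑ n ∈ Icc 1 N, (tp' z b n - tm' z b n) * tent ((Real.log n - c) / w) / n ≤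
      |Mp z b 1 - Mm z b 1| * w + 4 * C * Real.exp (-κ * A) := by
  have hw0 : 0 < w := by linarith
  set h : ℝ → ℝ := fun v => tent ((v - c) / w) with hh
  have hsup : ∀ v, 1 ≤ |(v - c) / w| → h v = 0 := fun v hv => STe_supp _ hv
  obtain ⟨h1, h2⟩ := H z b 1 N 1 A 0 1 (1 / w) h hz hb hzA le_rfl hN
    (by rw [abs_zero]; exact (Real.exp_pos _).le)
    (by rw [Nat.cast_one]; exact Real.one_le_exp (by positivity))
    (fun v => (GRou_tent _).2)
    (fun v v' => by
      refine (GRou_lip _ _).trans (le_of_eq ?_)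
      rw [← sub_div, sub_sub_sub_cancel_right, abs_div, abs_of_pos hw0]
      ring)
    (fun v hv => by
      refine hsup v ?_
      rw [abs_div, abs_of_pos hw0, le_div_iff₀ hw0, one_mul, le_abs]
      right
      linarith)
    (fun v hv => by
      refine hsup v ?_
      rw [abs_div, abs_of_pos hw0, le_div_iff₀ hw0, one_mul, le_abs]
      left
      linarith)
  rw [if_pos rfl, GRou_real] at h1 h2
  have hosc : ‖osc h 0‖ ≤ w := (osc_tent w c 0 hw0).1
  have hE : C * (1 + 1 / w) * Real.exp (-κ * A) ≤ 2 * C * Real.exp (-κ * A) := by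
    have h3 : 1 / w ≤ 1 := by rw [div_le_one hw0]; exact hw
    have h4 := Real.exp_pos (-κ * A)
    have h5 : C * (1 + 1 / w) ≤ 2 * C := by nlinarith
    exact mul_le_mul_of_nonneg_right h5 h4.le
  set Sp : ℝ := ∑ n ∈ Icc 1 N, tp' z b n * h (Real.log n) / n with hSp
  set Sm : ℝ := ∑ n ∈ Icc 1 N, tm' z b n * h (Real.log n) / n with hSm
  constructor
  · have h3 : ‖(Sp : ℂ)‖ ≤ ‖(Mp z b 1 : ℂ) * osc h 0‖ + 2 * C * Real.exp (-κ * A) := by
      have h4 : (Sp : ℂ) = (Mp z b 1 : ℂ) * osc h 0 + ((Sp : ℂ) - (Mp z b 1 : ℂ) * osc h 0) := by ring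
      rw [h4]
      exact (norm_add_le _ _).trans (add_le_add le_rfl (h1.trans hE))
    rw [norm_mul, Complex.norm_real, Complex.norm_real, Real.norm_eq_abs, Real.norm_eq_abs] at h3
    have h5 : |Mp z b 1| * ‖osc h 0‖ ≤ |Mp z b 1| * w :=
      mul_le_mul_of_nonneg_left hosc (abs_nonneg _)
    exact (le_abs_self _).trans (h3.trans (by linarith))
  · have h3 : ‖((Sp - Sm : ℝ) : ℂ)‖ ≤ ‖((Mp z b 1 - Mm z b 1 : ℝ) : ℂ) * osc h 0‖ +
        4 * C * Real.exp (-κ * A) := by
      have h4 : ((Sp - Sm : ℝ) : ℂ) = ((Mp z b 1 - Mm z b 1 : ℝ) : ℂ) * osc h 0 +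
          (((Sp : ℂ) - (Mp z b 1 : ℂ) * osc h 0) - ((Sm : ℂ) - (Mm z b 1 : ℂ) * osc h 0)) := by
        push_cast
        ring
      rw [h4]
      refine (norm_add_le _ _).trans (add_le_add le_rfl ?_)
      refine (norm_sub_le _ _).trans ?_
      have := h1.trans hE
      have := h2.trans hE
      linarith
    rw [norm_mul, Complex.norm_real, Complex.norm_real, Real.norm_eq_abs, Real.norm_eq_abs] at h3
    have h5 : |Mp z b 1 - Mm z b 1| * ‖osc h 0‖ ≤ |Mp z b 1 - Mm z b 1| * w :=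
      mul_le_mul_of_nonneg_left hosc (abs_nonneg _)
    have h6 : ∑ n ∈ Icc 1 N, (tp' z b n - tm' z b n) * tent ((Real.log n - c) / w) / n = Sp - Sm := by
      rw [hSp, hSm, ← Finset.sum_sub_distrib]
      refine Finset.sum_congr rfl fun n _ => ?_
      simp only [hh]
      ring
    rw [h6]
    exact (le_abs_self _).trans (h3.trans (by linarith))

theorem GRou_Vz : ∃ C : ℝ, 1 ≤ C ∧ ∀ (z : ℝ) (b q : ℕ), 2 ≤ z → 1 ≤ b → 1 ≤ q → (q : ℝ) < z →
    |Mp z b q - Vz z| ≤ C * Real.exp (-b) / Real.log z := by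
  classical
  obtain ⟨C₁, hC₁, hFL⟩ := FL
  obtain ⟨c₂, C₂, -, hC₂, hVP⟩ := VP_inv
  refine ⟨1 + C₁ * C₂, by nlinarith [mul_pos (by linarith : (0 : ℝ) < C₁) hC₂], ?_⟩
  intro z b q hz hb hq hqz
  have hlz : 0 < Real.log z := Real.log_pos (by linarith)
  have he0 : 0 < Real.exp (-(b : ℝ)) := Real.exp_pos _
  obtain ⟨h1, h2, -⟩ := hFL z b (SSmB_g q) hz hb (SSmB_hg q)
  obtain ⟨hphi, hV⟩ := SSmB_V z q hq
  obtain ⟨-, hV2⟩ := hVP z hz
  have hPI : ∀ p ∈ PI 0 z, p.Prime := fun p hp => (mem_PI.1 hp).1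
  have hV1 : Vz z = (q.totient / q : ℝ) * VP (SSmB_g q) (PI 0 z) := by
    rw [SSmB_phi q hq]
    unfold Vz Wb58c63.VP
    rw [← Finset.prod_filter_mul_prod_filter_not (PI 0 z) (· ∣ q) (fun p => 1 - 1 / (p : ℝ)),
      ← Finset.prod_filter_mul_prod_filter_not (PI 0 z) (· ∣ q) (fun p => 1 - SSmB_g q p)]
    have h2 : ∏ p ∈ (PI 0 z).filter (· ∣ q), (1 - SSmB_g q p) = 1 := by
      refine Finset.prod_eq_one fun p hp => ?_
      rw [SSmB_g, if_pos (Finset.mem_filter.1 hp).2, sub_zero]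
    have h3 : ∏ p ∈ (PI 0 z).filter (¬ · ∣ q), (1 - SSmB_g q p) =
        ∏ p ∈ (PI 0 z).filter (¬ · ∣ q), (1 - 1 / (p : ℝ)) := by
      refine Finset.prod_congr rfl fun p hp => ?_
      rw [SSmB_g, if_neg (Finset.mem_filter.1 hp).2]
    have h4 : (PI 0 z).filter (· ∣ q) = q.primeFactors := by
      ext p
      rw [Finset.mem_filter, mem_PI, Nat.mem_primeFactors]
      constructor
      · rintro ⟨⟨h5, -, -⟩, h6⟩
        exact ⟨h5, h6, by omega⟩
      · rintro ⟨h5, h6, -⟩
        have h7 : (p : ℝ) ≤ q := by exact_mod_cast Nat.le_of_dvd (by omega) h6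
        exact ⟨⟨h5, Nat.cast_nonneg p, by linarith⟩, h6⟩
    rw [h2, h3, one_mul, h4]
  have hMp : Mp z b q = (q.totient / q : ℝ) *
      ∑ S ∈ (PI 0 z).powerset, lp' z b S * ∏ p ∈ S, SSmB_g q p := rfl
  have hV0 : Vz z ≤ C₂ / Real.log z := hV2
  have h5 : Vz z ≤ Mp z b q := by
    rw [hV1, hMp]
    exact mul_le_mul_of_nonneg_left h1 hphi
  have h6 : Mp z b q ≤ Vz z * (1 + C₁ * Real.exp (-b)) := by
    rw [hV1, hMp, mul_assoc]
    exact mul_le_mul_of_nonneg_left h2 hphi
  rw [abs_of_nonneg (sub_nonneg.2 h5)]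
  have h7 : Vz z * (C₁ * Real.exp (-b)) ≤ C₂ / Real.log z * (C₁ * Real.exp (-b)) :=
    mul_le_mul_of_nonneg_right hV0 (by positivity)
  have h8 : C₂ / Real.log z * (C₁ * Real.exp (-b)) ≤ (1 + C₁ * C₂) * Real.exp (-b) / Real.log z := by
    rw [div_mul_eq_mul_div]
    refine div_le_div_of_nonneg_right ?_ hlz.le
    nlinarith
  linarith

theorem GRou_rh (z : ℝ) (n : ℕ) : rh z n = 0 ∨ rh z n = 1 := by
  unfold rh
  split_ifs
  · exact Or.inr rfl
  · exact Or.inl rfl

/-- Small `j`. -/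
theorem GRou_small : ∃ C : ℝ, 1 ≤ C ∧ ∀ (L : ℝ) (q j N : ℕ) (ψ : DirichletCharacter ℂ q) (t : ℝ)
    (h : ℝ → ℝ), 100 ≤ L → 1 ≤ j → j ≤ 40 → (∀ v, |h v| ≤ 1) →
      (∀ v, v ≤ (j - 1) * L → h v = 0) → (∀ v, (j + 1) * L ≤ v → h v = 0) →
        ‖DP N (fun n => rh (Real.exp L) n * h (Real.log n)) ψ t‖ ≤ C := by
  obtain ⟨κ, K, hκ, -, hK, H⟩ := sieve_smooth 1 one_pos
  obtain ⟨CM, hCM, hM⟩ := Mp_bounds
  refine ⟨41 * (2050 * CM + 2 * K), by nlinarith, ?_⟩
  intro L q j N ψ t h hL hj hj2 hh hlo hhi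
  have hL0 : 0 < L := by linarith
  set N' : ℕ := max (max 1 N) ⌈Real.exp (42 * L)⌉₊ with hN'
  have hN'1 : 1 ≤ N' := (le_max_left _ _).trans (le_max_left _ _)
  have hNN' : N ≤ N' := (le_max_right _ _).trans (le_max_left _ _)
  have hlogN' : 42 * L ≤ Real.log N' := by
    rw [Real.le_log_iff_exp_le (by exact_mod_cast hN'1)]
    refine (Nat.le_ceil _).trans ?_
    exact_mod_cast le_max_right _ _
  have hz' : (2 : ℝ) ≤ Real.exp (L / 100) := by
    have := Real.add_one_le_exp (L / 100)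
    linarith
  have h1 := (GRou_tents 1 κ K H hκ hK (Real.exp (L / 100)) 1 N' (21 * L) (20.5 * L) (L / 2) hz'
    le_rfl (by positivity) (by
      rw [← Real.exp_nat_mul]
      refine Real.exp_le_exp.2 ?_
      push_cast
      linarith) hN'1 (by linarith) (by linarith) (by linarith)).1
  obtain ⟨hM0, hM1, -⟩ := hM (Real.exp (L / 100)) 1 1 hz' le_rfl le_rfl
  rw [Real.log_exp] at hM1
  rw [abs_of_nonneg hM0] at h1
  have h2 : Mp (Real.exp (L / 100)) 1 1 * (20.5 * L) ≤ 2050 * CM := by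
    calc Mp (Real.exp (L / 100)) 1 1 * (20.5 * L) ≤ CM / (L / 100) * (20.5 * L) :=
          mul_le_mul_of_nonneg_right hM1 (by positivity)
      _ = 2050 * CM := by
          field_simp
          norm_num
  have h3 : 2 * K * Real.exp (-κ * (L / 2)) ≤ 2 * K := by
    have : Real.exp (-κ * (L / 2)) ≤ 1 := by
      rw [Real.exp_le_one_iff]
      have : 0 < κ * (L / 2) := by positivity
      linarith
    nlinarith
  have hpt : ∀ n : ℕ, 1 ≤ n → |rh (Real.exp L) n * h (Real.log n)| ≤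
      41 * (tp' (Real.exp (L / 100)) 1 n * tent ((Real.log n - 21 * L) / (20.5 * L))) := by
    intro n hn
    obtain ⟨hr1, hr2, hr3⟩ := rh_bounds (Real.exp (L / 100)) hz' 1 n hn
    have ht0 := (GRou_tent ((Real.log n - 21 * L) / (20.5 * L))).1
    have hR : 0 ≤ 41 * (tp' (Real.exp (L / 100)) 1 n * tent ((Real.log n - 21 * L) / (20.5 * L))) := by
      positivity
    rcases GRou_rh (Real.exp L) n with hz0 | hz1
    · rw [hz0, zero_mul, abs_zero]
      exact hR
    by_cases hh0 : h (Real.log n) = 0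
    · rw [hh0, mul_zero, abs_zero]
      exact hR
    have hj1 : (1 : ℝ) ≤ j := by exact_mod_cast hj
    have hj3 : (j : ℝ) ≤ 40 := by exact_mod_cast hj2
    have hlow : (j - 1) * L < Real.log n := by
      by_contra hc
      exact hh0 (hlo _ (not_lt.1 hc))
    have hup : Real.log n < (j + 1) * L := by
      by_contra hc
      exact hh0 (hhi _ (not_lt.1 hc))
    have hlog0 : 0 < Real.log n := lt_of_le_of_lt (by nlinarith) hlow
    have hn2 : n ≠ 1 := by
      rintro rfl
      simp at hlog0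
    obtain ⟨p, hp, hpn⟩ := Nat.exists_prime_and_dvd hn2
    have hzz : n ≠ 0 ∧ ∀ p ∈ n.primeFactors, Real.exp L ≤ (p : ℝ) := by
      by_contra hc
      unfold rh at hz1
      rw [if_neg hc] at hz1
      norm_num at hz1
    have hpz : Real.exp L ≤ (p : ℝ) := hzz.2 p (Nat.mem_primeFactors.2 ⟨hp, hpn, hzz.1⟩)
    have hpn2 : (p : ℝ) ≤ n := by exact_mod_cast Nat.le_of_dvd (by omega) hpn
    have hlogL : L ≤ Real.log n := by
      rw [Real.le_log_iff_exp_le (by exact_mod_cast hn)]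
      linarith
    have hlog41 : Real.log n ≤ 41 * L := by nlinarith
    have htent : 1 / 41 ≤ tent ((Real.log n - 21 * L) / (20.5 * L)) := by
      unfold tent
      refine le_max_of_le_right ?_
      have h5 : |(Real.log n - 21 * L) / (20.5 * L)| ≤ 40 / 41 := by
        rw [abs_div, abs_of_pos (by positivity : 0 < 20.5 * L), div_le_iff₀ (by positivity), abs_le]
        constructor <;> linarith
      linarith
    have hrz : rh (Real.exp (L / 100)) n = 1 := by
      unfold rh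
      rw [if_pos]
      refine ⟨hzz.1, fun p hp => ?_⟩
      refine le_trans ?_ (hzz.2 p hp)
      exact Real.exp_le_exp.2 (by linarith)
    rw [hz1, one_mul]
    rw [hrz] at hr2
    refine (hh _).trans ?_
    have h6 : 1 * (1 / 41) ≤ tp' (Real.exp (L / 100)) 1 n * tent ((Real.log n - 21 * L) / (20.5 * L)) :=
      mul_le_mul hr2 htent (by norm_num) hr3
    linarith
  have hnn : ∀ n : ℕ, 1 ≤ n → 0 ≤ tp' (Real.exp (L / 100)) 1 n *
      tent ((Real.log n - 21 * L) / (20.5 * L)) := fun n hn =>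
    mul_nonneg (rh_bounds _ hz' 1 n hn).2.2 (GRou_tent _).1
  refine (DP_le _ _ _ _).trans ?_
  calc ∑ n ∈ Icc 1 N, |rh (Real.exp L) n * h (Real.log n)| / n
      ≤ ∑ n ∈ Icc 1 N, 41 * (tp' (Real.exp (L / 100)) 1 n *
          tent ((Real.log n - 21 * L) / (20.5 * L)) / n) := by
        refine Finset.sum_le_sum fun n hn => ?_
        have := hpt n (Finset.mem_Icc.1 hn).1
        rw [← mul_div_assoc]
        exact div_le_div_of_nonneg_right this (Nat.cast_nonneg n)
    _ = 41 * ∑ n ∈ Icc 1 N, (tp' (Real.exp (L / 100)) 1 n *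
          tent ((Real.log n - 21 * L) / (20.5 * L)) / n) := by rw [Finset.mul_sum]
    _ ≤ 41 * ∑ n ∈ Icc 1 N', (tp' (Real.exp (L / 100)) 1 n *
          tent ((Real.log n - 21 * L) / (20.5 * L)) / n) := by
        refine mul_le_mul_of_nonneg_left ?_ (by norm_num)
        refine Finset.sum_le_sum_of_subset_of_nonneg (Finset.Icc_subset_Icc_right hNN') fun n hn _ => ?_
        exact div_nonneg (hnn n (Finset.mem_Icc.1 hn).1) (Nat.cast_nonneg n)
    _ ≤ 41 * (2050 * CM + 2 * K) := by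
        refine mul_le_mul_of_nonneg_left ?_ (by norm_num)
        linarith

/-- **Blocks of rough integers.** The constants `c₁`, `C₁` do not depend on `d`.

Proof. Let `L = d log Y`, `z = Y ^ d = exp L`. For `j ≤ 40` the sum is bounded (`|h| ≤ 1`, and
`∑_{z ≤ n ≤ z ^ 41} rh z n / n ≤ C`: majorise by `tp' (z ^ (1 / 100)) 1` and `sieve_smooth` with `u = 0`; `h (0) = 0` for `j = 1`), as is
the main term. For `j > 40` let `bb = ⌊(j - 12) / 8⌋`, so `4 bb + 5 ≤ (j - 1) / 2`; write `rh = tp' - (tp' - rh)` with `z`, `bb`. By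
`sieve_smooth` (`A = (j - 1) L`, `B = 3 / d`) the first part is `Mp osc h t + O (exp (- κ (j - 1) L))` (or without the
main term), `|Mp z bb q - Vz z| ≤ C exp (- bb) / L` (`Mp_bounds`-like: for `q < z` the primes dividing `q` are below `z`, so
`(φ(q) / q) ∏_{p < z, p ∤ q} (1 - 1 / p) = Vz z`, `FL`), `|osc h t| ≤ 2 L`. The second part is at most
`∑ (tp' - tm') (n) h' (log n) / n` with the tent `h' ≥ |h|` of half width `2 L` at `j L` times `2`: by `sieve_smooth` with
`u = 0`, `q = 1` it is `≤ C exp (- bb) + O (exp (- κ (j - 3) L))`. Since `L ≥ L₀ (d)` the errors are `≤ exp (- j)`. -/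
theorem rough_block : ∃ c₁ C₁ : ℝ, 0 < c₁ ∧ c₁ ≤ 1 ∧ 0 < C₁ ∧ ∀ d : ℝ, 0 < d → d ≤ 1 → ∃ δ Y₀ : ℝ, 0 < δ ∧ δ < d ∧
    3 ≤ Y₀ ∧ ∀ (Y : ℝ) (q j N : ℕ) (ψ : DirichletCharacter ℂ q) (t : ℝ) (h : ℝ → ℝ), Y₀ ≤ Y → 1 ≤ q →
      (q : ℝ) ≤ Y ^ δ → |t| ≤ Y ^ 2 → 1 ≤ j → (∀ v, |h v| ≤ 1) →
      (∀ v w, |h v - h w| ≤ |v - w| / (d * Real.log Y)) → (∀ v, v ≤ (j - 1) * (d * Real.log Y) → h v = 0) →
      (∀ v, (j + 1) * (d * Real.log Y) ≤ v → h v = 0) → (j + 1) * (d * Real.log Y) ≤ Real.log N →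
        ‖DP N (fun n => rh (Y ^ d) n * h (Real.log n)) ψ t -
          (open Classical in if ψ = 1 then (Vz (Y ^ d) : ℂ) * osc h t else 0)‖ ≤ C₁ * Real.exp (-c₁ * j) := by
  classical
  obtain ⟨CS, hCS, hsmall⟩ := GRou_small
  obtain ⟨CM, hCM, hM⟩ := Mp_bounds
  obtain ⟨CV, hCV, hV⟩ := GRou_Vz
  obtain ⟨c₂, C₂, -, hC₂, hVP⟩ := VP_inv
  have hC1a : 0 ≤ Real.exp 5 * (CS + 2 * C₂) := by positivity
  have hC1b : 0 ≤ 1 + (2 * CV + 4 * CM) * Real.exp 3 := by positivity
  refine ⟨1 / 8, Real.exp 5 * (CS + 2 * C₂) + (1 + (2 * CV + 4 * CM) * Real.exp 3), by norm_num,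
    by norm_num, by positivity, ?_⟩
  intro d hd hd1
  obtain ⟨κ, K, hκ, hκ8, hK, H⟩ := sieve_smooth (3 / d) (by positivity)
  set R : ℝ := 2 + 2 * Real.log (1 + 10 * K) with hR
  have hlK : 0 ≤ Real.log (1 + 10 * K) := Real.log_nonneg (by linarith)
  set L₀ : ℝ := max 100 (R / κ) with hL₀
  refine ⟨κ * d, max 3 (Real.exp (L₀ / d)), by positivity, by nlinarith, le_max_left _ _, ?_⟩
  intro Y q j N ψ t h hY hq hqY ht hj hh hLip hlo hhi hN
  have hY3 : 3 ≤ Y := (le_max_left _ _).trans hY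
  have hY0 : 0 < Y := by linarith
  set L : ℝ := d * Real.log Y with hL
  have hlY : L₀ / d ≤ Real.log Y := by
    rw [Real.le_log_iff_exp_le hY0]
    exact (le_max_right _ _).trans hY
  have hLL : L₀ ≤ L := by
    rw [div_le_iff₀ hd] at hlY
    rw [hL]
    linarith
  have hL100 : 100 ≤ L := (le_max_left _ _).trans hLL
  have hL0 : 0 < L := by linarith
  have hRL : R ≤ κ * L := by
    have h1 : R / κ ≤ L := (le_max_right _ _).trans hLL
    rw [div_le_iff₀ hκ] at h1
    linarith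
  have hz : Y ^ d = Real.exp L := by
    rw [Real.rpow_def_of_pos hY0, hL, mul_comm]
  rw [hz]
  have hz2 : (2 : ℝ) ≤ Real.exp L := by
    have := Real.add_one_le_exp L
    linarith
  have hlogz : Real.log (Real.exp L) = L := Real.log_exp L
  have hj1 : (1 : ℝ) ≤ j := by exact_mod_cast hj
  have hosc : ‖osc h t‖ ≤ 2 * L := by
    have h1 := GRou_osc h ((j - 1) * L) ((j + 1) * L) t (by nlinarith) hh hlo hhi
    linarith
  have hVz0 : 0 ≤ Vz (Real.exp L) := by
    unfold Vz Wb58c63.VP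
    refine Finset.prod_nonneg fun p hp => ?_
    have := (SSmB_half p (mem_PI.1 hp).1).2
    linarith
  have hVz : Vz (Real.exp L) ≤ C₂ / L := by
    have := (hVP (Real.exp L) hz2).2
    rwa [hlogz] at this
  rcases le_or_gt j 40 with hj40 | hj40
  · have h1 := hsmall L q j N ψ t h hL100 hj hj40 hh hlo hhi
    have h2 : ‖(if ψ = 1 then (Vz (Real.exp L) : ℂ) * osc h t else 0)‖ ≤ 2 * C₂ := by
      split_ifs
      · rw [norm_mul, Complex.norm_real, Real.norm_eq_abs, abs_of_nonneg hVz0]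
        calc Vz (Real.exp L) * ‖osc h t‖ ≤ C₂ / L * (2 * L) :=
              mul_le_mul hVz hosc (norm_nonneg _) (by positivity)
          _ = 2 * C₂ := by field_simp
      · rw [norm_zero]
        positivity
    have h3 : Real.exp (-5) ≤ Real.exp (-(1 / 8) * j) := by
      refine Real.exp_le_exp.2 ?_
      have : (j : ℝ) ≤ 40 := by exact_mod_cast hj40
      linarith
    have h4 : Real.exp 5 * Real.exp (-5) = 1 := by
      rw [← Real.exp_add]
      simp
    calc _ ≤ CS + 2 * C₂ := (norm_sub_le _ _).trans (add_le_add h1 h2)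
      _ = Real.exp 5 * (CS + 2 * C₂) * Real.exp (-5) := by
          linear_combination (-(CS + 2 * C₂)) * h4
      _ ≤ (Real.exp 5 * (CS + 2 * C₂) + (1 + (2 * CV + 4 * CM) * Real.exp 3)) *
            Real.exp (-(1 / 8) * j) := by
          refine mul_le_mul (by linarith) h3 (Real.exp_pos _).le (by positivity)
  -- large `j`
  set bb : ℕ := (j - 12) / 8 with hbb
  have hb1 : 1 ≤ bb := by omega
  have hb2 : 8 * bb + 12 ≤ j := by omega
  have hb3 : j ≤ 8 * bb + 19 := by omega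
  have hb2R : 8 * (bb : ℝ) + 12 ≤ j := by exact_mod_cast hb2
  have hb3R : (j : ℝ) ≤ 8 * bb + 19 := by exact_mod_cast hb3
  have hj41 : (41 : ℝ) ≤ j := by exact_mod_cast hj40
  set A₁ : ℝ := (j - 1) * L with hA₁
  set A₂ : ℝ := (j - 2) * L with hA₂
  have hA12 : A₂ ≤ A₁ := by rw [hA₁, hA₂]; nlinarith
  have hA20 : 0 ≤ A₂ := mul_nonneg (by linarith) hL0.le
  have hlev : Real.exp L ^ (4 * bb + 5) ≤ Real.exp (A₂ / 2) := by
    rw [← Real.exp_nat_mul]
    refine Real.exp_le_exp.2 ?_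
    push_cast
    rw [hA₂]
    nlinarith
  have hlev1 : Real.exp L ^ (4 * bb + 5) ≤ Real.exp (A₁ / 2) :=
    hlev.trans (Real.exp_le_exp.2 (by linarith))
  have hN1 : 1 ≤ N := by
    by_contra hc
    have h0 : N = 0 := by omega
    rw [h0, Nat.cast_zero, Real.log_zero] at hN
    have : 0 < (j + 1) * L := by positivity
    linarith
  have hqL : (q : ℝ) ≤ Real.exp (κ * L) := by
    refine hqY.trans (le_of_eq ?_)
    rw [Real.rpow_def_of_pos hY0, hL]
    congr 1
    ring
  have hκL : κ * L ≤ κ * A₁ := by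
    refine mul_le_mul_of_nonneg_left ?_ hκ.le
    rw [hA₁]
    nlinarith
  have htA : |t| ≤ Real.exp (3 / d * A₁) := by
    refine ht.trans ?_
    have h1 : Y ^ 2 = Real.exp (2 * Real.log Y) := by
      rw [mul_comm, Real.exp_mul, Real.exp_log hY0]
      norm_num
    rw [h1]
    refine Real.exp_le_exp.2 ?_
    have h2 : 3 / d * A₁ = 3 * (j - 1) * Real.log Y := by
      rw [hA₁, hL]
      field_simp
    rw [h2]
    have h3 : 0 < Real.log Y := Real.log_pos (by linarith)
    nlinarith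
  have hT1 := (H (Real.exp L) bb q N ψ A₁ t 1 (1 / L) h hz2 hb1 hlev1 hq hN1 htA
    (hqL.trans (Real.exp_le_exp.2 hκL)) hh
    (fun v w => (hLip v w).trans (le_of_eq (by ring))) hlo
    (fun v hv => hhi v (hN.trans hv))).1
  have hexpA : 10 * K * Real.exp (-κ * A₂) ≤ Real.exp (-(1 / 8) * j) := by
    have h1 : j + Real.log (1 + 10 * K) ≤ κ * A₂ := by
      have h2 : (j - 2) * R ≤ κ * A₂ := by
        have h3 : κ * A₂ = (j - 2) * (κ * L) := by rw [hA₂]; ring
        rw [h3]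
        exact mul_le_mul_of_nonneg_left hRL (by linarith)
      refine le_trans ?_ h2
      rw [hR]
      nlinarith
    have h4 : Real.exp (-κ * A₂) ≤ Real.exp (-j) * (1 / (1 + 10 * K)) := by
      have h5 : (1 : ℝ) / (1 + 10 * K) = Real.exp (-Real.log (1 + 10 * K)) := by
        rw [Real.exp_neg, Real.exp_log (by linarith)]
        ring
      rw [h5, ← Real.exp_add]
      refine Real.exp_le_exp.2 ?_
      linarith
    have h6 : Real.exp (-(j : ℝ)) ≤ Real.exp (-(1 / 8) * j) := Real.exp_le_exp.2 (by linarith)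
    calc 10 * K * Real.exp (-κ * A₂) ≤ 10 * K * (Real.exp (-j) * (1 / (1 + 10 * K))) :=
          mul_le_mul_of_nonneg_left h4 (by positivity)
      _ = (10 * K / (1 + 10 * K)) * Real.exp (-j) := by ring
      _ ≤ 1 * Real.exp (-j) := by
          refine mul_le_mul_of_nonneg_right ?_ (Real.exp_pos _).le
          rw [div_le_one (by linarith)]
          linarith
      _ ≤ _ := by rw [one_mul]; exact h6
  have hexpb : Real.exp (-(bb : ℝ)) ≤ Real.exp 3 * Real.exp (-(1 / 8) * j) := by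
    rw [← Real.exp_add]
    refine Real.exp_le_exp.2 ?_
    linarith
  have hT1' : K * (1 + 1 / L) * Real.exp (-κ * A₁) ≤ 2 * K * Real.exp (-κ * A₂) := by
    have h1 : 1 / L ≤ 1 := by rw [div_le_one hL0]; linarith
    refine mul_le_mul (by nlinarith) (Real.exp_le_exp.2 ?_) (Real.exp_pos _).le (by positivity)
    nlinarith
  have hqz : (q : ℝ) < Real.exp L := by
    refine hqL.trans_lt (Real.exp_lt_exp.2 ?_)
    nlinarith
  have hT2 : ‖(if ψ = 1 then (Mp (Real.exp L) bb q : ℂ) * osc h t else 0) -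
      (if ψ = 1 then (Vz (Real.exp L) : ℂ) * osc h t else 0)‖ ≤ 2 * CV * Real.exp (-(bb : ℝ)) := by
    have h1 := hV (Real.exp L) bb q hz2 hb1 hq hqz
    rw [hlogz] at h1
    split_ifs
    · rw [← sub_mul, norm_mul, ← Complex.ofReal_sub, Complex.norm_real, Real.norm_eq_abs]
      calc |Mp (Real.exp L) bb q - Vz (Real.exp L)| * ‖osc h t‖
          ≤ CV * Real.exp (-(bb : ℝ)) / L * (2 * L) :=
            mul_le_mul h1 hosc (norm_nonneg _) (by positivity)
        _ = 2 * CV * Real.exp (-(bb : ℝ)) := by field_simp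
    · rw [sub_zero, norm_zero]
      positivity
  -- the second part
  set N' : ℕ := max N ⌈Real.exp (((j : ℝ) + 2) * L)⌉₊ with hN'
  have hN'1 : 1 ≤ N' := hN1.trans (le_max_left _ _)
  have hlogN' : ((j : ℝ) + 2) * L ≤ Real.log N' := by
    rw [Real.le_log_iff_exp_le (by exact_mod_cast hN'1)]
    refine (Nat.le_ceil _).trans ?_
    exact Nat.cast_le.2 (le_max_right N _)
  have hS := (GRou_tents (3 / d) κ K H hκ hK (Real.exp L) bb N' (j * L) (2 * L) A₂ hz2 hb1 hA20 hlev
    hN'1 (by linarith) (by rw [hA₂]; linarith) (by linarith)).2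
  obtain ⟨-, -, hMM, -⟩ := hM (Real.exp L) bb 1 hz2 hb1 le_rfl
  rw [hlogz] at hMM
  have hMM2 : |Mp (Real.exp L) bb 1 - Mm (Real.exp L) bb 1| * (2 * L) ≤
      2 * CM * Real.exp (-(bb : ℝ)) := by
    calc _ ≤ CM * Real.exp (-(bb : ℝ)) / L * (2 * L) :=
          mul_le_mul_of_nonneg_right hMM (by positivity)
      _ = _ := by field_simp
  have hT3 : ‖DP N (fun n => (tp' (Real.exp L) bb n - rh (Real.exp L) n) * h (Real.log n)) ψ t‖ ≤
      4 * CM * Real.exp (-(bb : ℝ)) + 8 * K * Real.exp (-κ * A₂) := by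
    refine (DP_le _ _ _ _).trans ?_
    have hnn : ∀ n : ℕ, 1 ≤ n → 0 ≤ (tp' (Real.exp L) bb n - tm' (Real.exp L) bb n) *
        tent ((Real.log n - j * L) / (2 * L)) := by
      intro n hn
      obtain ⟨hr1, hr2, hr3⟩ := rh_bounds (Real.exp L) hz2 bb n hn
      exact mul_nonneg (by linarith) (GRou_tent _).1
    calc ∑ n ∈ Icc 1 N, |(tp' (Real.exp L) bb n - rh (Real.exp L) n) * h (Real.log n)| / n
        ≤ ∑ n ∈ Icc 1 N, 2 * ((tp' (Real.exp L) bb n - tm' (Real.exp L) bb n) *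
            tent ((Real.log n - j * L) / (2 * L)) / n) := by
          refine Finset.sum_le_sum fun n hn => ?_
          have hn1 := (Finset.mem_Icc.1 hn).1
          obtain ⟨hr1, hr2, hr3⟩ := rh_bounds (Real.exp L) hz2 bb n hn1
          rw [← mul_div_assoc]
          refine div_le_div_of_nonneg_right ?_ (Nat.cast_nonneg n)
          by_cases hh0 : h (Real.log n) = 0
          · rw [hh0, mul_zero, abs_zero]
            exact mul_nonneg zero_le_two (hnn n hn1)
          have hlow : (j - 1) * L < Real.log n := by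
            by_contra hc
            exact hh0 (hlo _ (not_lt.1 hc))
          have hup : Real.log n < (j + 1) * L := by
            by_contra hc
            exact hh0 (hhi _ (not_lt.1 hc))
          have htent : 1 / 2 ≤ tent ((Real.log n - j * L) / (2 * L)) := by
            unfold tent
            refine le_max_of_le_right ?_
            have h5 : |(Real.log n - j * L) / (2 * L)| ≤ 1 / 2 := by
              rw [abs_div, abs_of_pos (by positivity : 0 < 2 * L), div_le_iff₀ (by positivity), abs_le]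
              constructor <;> linarith
            linarith
          rw [abs_mul, abs_of_nonneg (by linarith : 0 ≤ tp' (Real.exp L) bb n - rh (Real.exp L) n)]
          have h6 : (tp' (Real.exp L) bb n - rh (Real.exp L) n) * |h (Real.log n)| ≤
              (tp' (Real.exp L) bb n - tm' (Real.exp L) bb n) * 1 :=
            mul_le_mul (by linarith) (hh _) (abs_nonneg _) (by linarith)
          have h7 : (tp' (Real.exp L) bb n - tm' (Real.exp L) bb n) * (1 / 2) ≤
              (tp' (Real.exp L) bb n - tm' (Real.exp L) bb n) *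
                tent ((Real.log n - j * L) / (2 * L)) :=
            mul_le_mul_of_nonneg_left htent (by linarith)
          linarith
      _ = 2 * ∑ n ∈ Icc 1 N, ((tp' (Real.exp L) bb n - tm' (Real.exp L) bb n) *
            tent ((Real.log n - j * L) / (2 * L)) / n) := by rw [Finset.mul_sum]
      _ ≤ 2 * ∑ n ∈ Icc 1 N', ((tp' (Real.exp L) bb n - tm' (Real.exp L) bb n) *
            tent ((Real.log n - j * L) / (2 * L)) / n) := by
          refine mul_le_mul_of_nonneg_left ?_ (by norm_num)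
          refine Finset.sum_le_sum_of_subset_of_nonneg
            (Finset.Icc_subset_Icc_right (le_max_left _ _)) fun n hn _ => ?_
          exact div_nonneg (hnn n (Finset.mem_Icc.1 hn).1) (Nat.cast_nonneg n)
      _ ≤ _ := by linarith
  -- conclusion
  have hsplit : DP N (fun n => rh (Real.exp L) n * h (Real.log n)) ψ t =
      DP N (fun n => tp' (Real.exp L) bb n * h (Real.log n)) ψ t -
        DP N (fun n => (tp' (Real.exp L) bb n - rh (Real.exp L) n) * h (Real.log n)) ψ t := by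
    unfold DP
    rw [← Finset.sum_sub_distrib]
    refine Finset.sum_congr rfl fun n _ => ?_
    push_cast
    ring
  rw [hsplit]
  have hfin : DP N (fun n => tp' (Real.exp L) bb n * h (Real.log n)) ψ t -
        DP N (fun n => (tp' (Real.exp L) bb n - rh (Real.exp L) n) * h (Real.log n)) ψ t -
        (if ψ = 1 then (Vz (Real.exp L) : ℂ) * osc h t else 0) =
      (DP N (fun n => tp' (Real.exp L) bb n * h (Real.log n)) ψ t -
        (if ψ = 1 then (Mp (Real.exp L) bb q : ℂ) * osc h t else 0)) +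
      ((if ψ = 1 then (Mp (Real.exp L) bb q : ℂ) * osc h t else 0) -
        (if ψ = 1 then (Vz (Real.exp L) : ℂ) * osc h t else 0)) -
      DP N (fun n => (tp' (Real.exp L) bb n - rh (Real.exp L) n) * h (Real.log n)) ψ t := by ring
  rw [hfin]
  have hE8 : 0 < Real.exp (-(1 / 8) * (j : ℝ)) := Real.exp_pos _
  calc _ ≤ 2 * K * Real.exp (-κ * A₂) + 2 * CV * Real.exp (-(bb : ℝ)) +
        (4 * CM * Real.exp (-(bb : ℝ)) + 8 * K * Real.exp (-κ * A₂)) := by
        refine (norm_sub_le _ _).trans (add_le_add ?_ hT3)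
        exact (norm_add_le _ _).trans (add_le_add (hT1.trans hT1') hT2)
    _ = 10 * K * Real.exp (-κ * A₂) + (2 * CV + 4 * CM) * Real.exp (-(bb : ℝ)) := by ring
    _ ≤ Real.exp (-(1 / 8) * j) + (2 * CV + 4 * CM) * (Real.exp 3 * Real.exp (-(1 / 8) * j)) := by
        refine add_le_add hexpA (mul_le_mul_of_nonneg_left hexpb (by positivity))
    _ = (1 + (2 * CV + 4 * CM) * Real.exp 3) * Real.exp (-(1 / 8) * j) := by ring
    _ ≤ _ := by
        refine mul_le_mul_of_nonneg_right (by linarith) hE8.le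

end Pool.Agent.M58
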