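import Pool.Agent.W_b58c63_m1.G341
import Pool.Agent.W_b58c63_m1.CAb

/-!
# Zeros of the sieved L-functions: the general case (helper68)
-/

set_option autoImplicit false

noncomputable section

open Finset MeasureTheory Complex

namespace Pool.Agent.M58

theorem GZ_core (M m ρ : ℝ) (hM : 0 < M) (hm : 0 < m) (hρ : 0 < ρ) : ∃ c C : ℝ, 0 < c ∧ c < 1 ∧ 0 < C ∧
    ∀ (L : ℝ) (s₀ : ℂ) (H : ℂ → ℂ), 0 < L → DifferentiableOn ℂ H (Metric.ball s₀ (ρ / L)) →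
      (∀ s ∈ Metric.ball s₀ (ρ / L), ‖H s‖ ≤ M) →
      (∀ v : ℝ, 0 < v → v < 1 → m * v ^ (3 / 4 : ℝ) ≤ ‖H (s₀ + (ρ / L * v : ℝ))‖) →
        ∀ s : ℂ, ‖s - s₀‖ ≤ c * ρ / L → H s ≠ 0 ∧ ‖deriv H s / H s‖ ≤ C / ρ * L := by
  obtain ⟨c, C, hc, hc1, hC, h⟩ := no_zero M m hM hm
  refine ⟨c, C, hc, hc1, hC, fun L s₀ H hL hd hb hl s hs => ?_⟩
  have hr : 0 < ρ / L := div_pos hρ hL
  obtain ⟨r, hrr⟩ : ∃ r : ℝ, r = ρ / L := ⟨_, rfl⟩
  rw [← hrr] at hd hb hl hr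
  have hr' : (r : ℂ) ≠ 0 := by exact_mod_cast hr.ne'
  have hmaps : ∀ w ∈ Metric.ball (0 : ℂ) 1, s₀ + (r : ℂ) * w ∈ Metric.ball s₀ r := by
    intro w hw
    rw [mem_ball_zero_iff] at hw
    rw [mem_ball_iff_norm, add_sub_cancel_left, norm_mul, Complex.norm_real, Real.norm_eq_abs,
      abs_of_pos hr]
    exact mul_lt_of_lt_one_right hr hw
  have hder : ∀ w ∈ Metric.ball (0 : ℂ) 1, HasDerivAt (fun w => H (s₀ + (r : ℂ) * w))
      (deriv H (s₀ + (r : ℂ) * w) * (r : ℂ)) w := by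
    intro w hw
    have h1 : HasDerivAt H (deriv H (s₀ + (r : ℂ) * w)) (s₀ + (r : ℂ) * w) :=
      (hd.differentiableAt (Metric.isOpen_ball.mem_nhds (hmaps w hw))).hasDerivAt
    have h2 : HasDerivAt (fun w : ℂ => s₀ + (r : ℂ) * w) (r : ℂ) w := by
      have h3 := ((hasDerivAt_id w).const_mul (r : ℂ)).const_add s₀
      simpa using h3
    exact h1.comp w h2
  have hw : ‖(s - s₀) / (r : ℂ)‖ ≤ c := by
    rw [norm_div, Complex.norm_real, Real.norm_eq_abs, abs_of_pos hr, div_le_iff₀ hr, hrr]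
    calc ‖s - s₀‖ ≤ c * ρ / L := hs
      _ = c * (ρ / L) := by ring
  have hs' : s₀ + (r : ℂ) * ((s - s₀) / (r : ℂ)) = s := by
    field_simp
    ring
  have hwb : (s - s₀) / (r : ℂ) ∈ Metric.ball (0 : ℂ) 1 := by
    rw [mem_ball_zero_iff]
    linarith
  have h3 := h (fun w => H (s₀ + (r : ℂ) * w))
    (fun w hw => (hder w hw).differentiableAt.differentiableWithinAt)
    (fun w hw => hb _ (hmaps w hw)) (fun v hv hv1 => by
      have h4 := hl v hv hv1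
      rw [Complex.ofReal_mul] at h4
      exact h4) ((s - s₀) / (r : ℂ)) hw
  have h5 := (hder _ hwb).deriv
  rw [h5] at h3
  simp only [hs'] at h3
  refine ⟨h3.1, ?_⟩
  have h6 := h3.2
  rw [mul_comm, mul_div_assoc, norm_mul, Complex.norm_real, Real.norm_eq_abs, abs_of_pos hr] at h6
  have h7 : C / ρ * L = C / r := by
    rw [hrr]
    field_simp
  rw [h7, le_div_iff₀ hr]
  linarith

theorem GZ_quot (C₀ L b : ℝ) (g G s : ℂ) (hC₀ : 0 ≤ C₀) (hL : 0 < L) (hb : 0 < b)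
    (h1 : ‖g‖ ≤ C₀ * (1 + L * ‖s - 1‖)) (h2 : g = (L : ℂ) * (s - 1) * G)
    (h3 : b ≤ L * ‖s - 1‖) : ‖G‖ ≤ C₀ * (1 + 1 / b) := by
  have hx : 0 < L * ‖s - 1‖ := lt_of_lt_of_le hb h3
  rw [h2, norm_mul, norm_mul, Complex.norm_real, Real.norm_eq_abs, abs_of_pos hL] at h1
  have h4 : ‖G‖ ≤ C₀ * (1 + 1 / (L * ‖s - 1‖)) := by
    have h5 : C₀ * (1 + 1 / (L * ‖s - 1‖)) = C₀ * (1 + L * ‖s - 1‖) / (L * ‖s - 1‖) := by
      rw [mul_div_assoc, add_div, div_self hx.ne', add_comm]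
    rw [h5, le_div_iff₀ hx]
    linarith
  refine h4.trans ?_
  gcongr

/-- The lower bound of the 3-4-1 inequality.

Proof. `three_four_one` at `σ = 1 + c₀ v / (2 L)`: `‖Gz 1 σ‖ = ‖g₁ σ‖ / (L (σ - 1)) ≤ C / v`, and
`‖Gz (ψ ^ 2) (σ + 2 i t)‖ ≤ C₀` if `ψ ^ 2 ≠ 1`, `≤ C₀ (1 + 1 / (2 c₄))` if `ψ ^ 2 = 1` and `|t| ≥ c₄ / L`. -/
theorem Z_low (c₀ C₀ c₄ : ℝ) (hc₀ : 0 < c₀) (hc₁ : c₀ ≤ 1) (hC₀ : 1 ≤ C₀) (hc₄ : 0 < c₄) (hc₄' : c₄ ≤ 1) :
    ∃ m : ℝ, 0 < m ∧ ∀ (Y d : ℝ) (q : ℕ) (ψ : DirichletCharacter ℂ q) (g₁ g₂ : ℂ → ℂ) (t v : ℝ),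
      3 ≤ Y → 0 < d → d ≤ 1 → 1 ≤ q → Ext c₀ C₀ Y d (1 : DirichletCharacter ℂ 1) g₁ →
      Ext c₀ C₀ Y d (ψ ^ 2) g₂ → |t| < Y ^ 2 / 2 → (ψ ^ 2 ≠ 1 ∨ c₄ / (d * Real.log Y) ≤ |t|) →
      0 < v → v < 1 →
        m * v ^ (3 / 4 : ℝ) ≤ ‖Gz (Y ^ d) ψ (1 + (c₀ * v / (2 * (d * Real.log Y)) : ℝ) + t * I)‖ := by
  have hC₀' : 0 < C₀ := by linarith
  have hK : 0 < (4 * C₀ / c₀) ^ 3 * (C₀ * (1 + 1 / (2 * c₄))) := by positivity
  obtain ⟨K, hKdef⟩ : ∃ K : ℝ, K = (4 * C₀ / c₀) ^ 3 * (C₀ * (1 + 1 / (2 * c₄))) := ⟨_, rfl⟩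
  rw [← hKdef] at hK
  refine ⟨(K⁻¹) ^ (1 / 4 : ℝ), Real.rpow_pos_of_pos (inv_pos.2 hK) _, ?_⟩
  intro Y d q ψ g₁ g₂ t v hY hd hd1 hq hg₁ hg₂ ht hex hv hv1
  have hlog : 0 < Real.log Y := Real.log_pos (by linarith)
  have hLp : 0 < d * Real.log Y := mul_pos hd hlog
  obtain ⟨L, hLdef⟩ : ∃ L : ℝ, L = d * Real.log Y := ⟨_, rfl⟩
  unfold Ext at hg₁ hg₂
  rw [← hLdef] at hLp hg₁ hg₂ hex ⊢
  have hY2 : 0 < Y ^ 2 := by positivity
  have hx : 0 < c₀ * v / (2 * L) := by positivity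
  obtain ⟨x, hxdef⟩ : ∃ x : ℝ, x = c₀ * v / (2 * L) := ⟨_, rfl⟩
  rw [← hxdef] at hx ⊢
  have hcL : 0 < c₀ / L := by positivity
  have h341 := three_four_one (Y ^ d) q hq ψ (1 + x) t (by linarith)
  -- the principal character
  have hA : ‖Gz (Y ^ d) (1 : DirichletCharacter ℂ 1) ((1 + x : ℝ) : ℂ)‖ ≤ 4 * C₀ / (c₀ * v) := by
    have h1 := hg₁.2.2.1 rfl ((1 + x : ℝ) : ℂ) (by rw [Complex.ofReal_re]; linarith)
      (by rw [Complex.ofReal_im, abs_zero]; exact hY2)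
    have h2 := h1.2 (by rw [Complex.ofReal_re]; linarith)
    have h3 : ‖((1 + x : ℝ) : ℂ) - 1‖ = x := by
      rw [Complex.ofReal_add, Complex.ofReal_one, add_sub_cancel_left, Complex.norm_real,
        Real.norm_eq_abs, abs_of_pos hx]
    have h4 : L * x = c₀ * v / 2 := by
      rw [hxdef]
      field_simp
    have h5 := GZ_quot C₀ L (c₀ * v / 2) _ _ _ hC₀'.le hLp (by positivity) h1.1 h2
      (by rw [h3, h4])
    refine h5.trans ?_
    have h6 : c₀ * v ≤ 1 := mul_le_one₀ hc₁ hv.le hv1.le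
    have h7 : 0 < c₀ * v := by positivity
    have h8 : 1 + 1 / (c₀ * v / 2) ≤ 4 / (c₀ * v) := by
      rw [le_div_iff₀ h7]
      have h9 : (1 + 1 / (c₀ * v / 2)) * (c₀ * v) = c₀ * v + 2 := by
        field_simp
      rw [h9]
      linarith
    calc C₀ * (1 + 1 / (c₀ * v / 2)) ≤ C₀ * (4 / (c₀ * v)) := mul_le_mul_of_nonneg_left h8 hC₀'.le
      _ = 4 * C₀ / (c₀ * v) := by ring
  -- the square
  have hB : ‖Gz (Y ^ d) (ψ ^ 2) ((1 + x : ℝ) + 2 * t * I)‖ ≤ C₀ * (1 + 1 / (2 * c₄)) := by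
    have hre : (((1 + x : ℝ) : ℂ) + 2 * t * I).re = 1 + x := by simp
    have him : (((1 + x : ℝ) : ℂ) + 2 * t * I).im = 2 * t := by simp
    have him2 : |(((1 + x : ℝ) : ℂ) + 2 * t * I).im| < Y ^ 2 := by
      rw [him, abs_mul, abs_of_pos (by norm_num : (0 : ℝ) < 2)]
      linarith
    by_cases hψ : ψ ^ 2 = 1
    · have ht4 : c₄ / L ≤ |t| := by
        rcases hex with h | h
        · exact absurd hψ h
        · exact h
      have h1 := hg₂.2.2.1 hψ (((1 + x : ℝ) : ℂ) + 2 * t * I) (by rw [hre]; linarith) him2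
      have h2 := h1.2 (by rw [hre]; linarith)
      refine GZ_quot C₀ L (2 * c₄) _ _ _ hC₀'.le hLp (by positivity) h1.1 h2 ?_
      have h3 : 2 * |t| ≤ ‖((1 + x : ℝ) : ℂ) + 2 * t * I - 1‖ := by
        have h4 := Complex.abs_im_le_norm (((1 + x : ℝ) : ℂ) + 2 * t * I - 1)
        rw [Complex.sub_im, him, Complex.one_im, sub_zero, abs_mul,
          abs_of_pos (by norm_num : (0 : ℝ) < 2)] at h4
        exact h4
      rw [div_le_iff₀ hLp] at ht4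
      have h5 := mul_le_mul_of_nonneg_left h3 hLp.le
      linarith
    · have h1 := hg₂.2.1 hψ (((1 + x : ℝ) : ℂ) + 2 * t * I) (by rw [hre]; linarith) him2
      rw [← h1.2 (by rw [hre]; linarith)]
      refine h1.1.trans ?_
      have h3 : 0 < 1 / (2 * c₄) := by positivity
      nlinarith
  have hX : (1 : ℂ) + ((x : ℝ) : ℂ) + t * I = ((1 + x : ℝ) : ℂ) + t * I := by
    push_cast
    ring
  rw [hX]
  obtain ⟨X, hXdef⟩ : ∃ X : ℝ, X = ‖Gz (Y ^ d) ψ (((1 + x : ℝ) : ℂ) + t * I)‖ := ⟨_, rfl⟩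
  rw [← hXdef] at h341 ⊢
  have hX0 : 0 ≤ X := by
    rw [hXdef]
    exact norm_nonneg _
  have h5 : 1 ≤ (4 * C₀ / (c₀ * v)) ^ 3 * X ^ 4 * (C₀ * (1 + 1 / (2 * c₄))) := by
    refine h341.trans ?_
    gcongr
  have h6 : v ^ 3 ≤ K * X ^ 4 := by
    have h7 : (4 * C₀ / (c₀ * v)) ^ 3 * X ^ 4 * (C₀ * (1 + 1 / (2 * c₄))) = K * X ^ 4 / v ^ 3 := by
      rw [hKdef]
      field_simp
    rw [h7, le_div_iff₀ (by positivity)] at h5
    linarith
  have h8 : ((K⁻¹) ^ (1 / 4 : ℝ) * v ^ (3 / 4 : ℝ)) ^ 4 ≤ X ^ 4 := by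
    rw [mul_pow, ← Real.rpow_natCast, ← Real.rpow_natCast, ← Real.rpow_mul (inv_pos.2 hK).le,
      ← Real.rpow_mul hv.le]
    have e1 : (1 / 4 : ℝ) * ((4 : ℕ) : ℝ) = 1 := by norm_num
    have e2 : (3 / 4 : ℝ) * ((4 : ℕ) : ℝ) = ((3 : ℕ) : ℝ) := by norm_num
    rw [e1, e2, Real.rpow_one, Real.rpow_natCast, inv_mul_le_iff₀ hK]
    exact h6
  exact (pow_le_pow_iff_left₀ (by positivity) hX0 (by norm_num)).1 h8

/-- **No zeros near `1 + i t`** unless `ψ ^ 2 = 1` and `t` is small.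

Proof. `no_zero` for `w ↦ G (1 + i t + ρ w / L)`, where `G` is `g` (`ψ ≠ 1`) with `ρ = c₀ / 2`, respectively
`g (s) / (L (s - 1))` (`ψ = 1`, `|t| ≥ c₄ / L`) with `ρ = min (c₀ / 2) (c₄ / 2)` (then `|s - 1| ≥ c₄ / (2 L)` on the ball), and
`Z_low` (for `v` replaced by `v · 2 ρ / c₀`). For `ψ = 1` return to `g`: `g' / g = G' / G + 1 / (s - 1)`. -/
theorem Z_nonexc (c₀ C₀ c₄ : ℝ) (hc₀ : 0 < c₀) (hc₁ : c₀ ≤ 1) (hC₀ : 1 ≤ C₀) (hc₄ : 0 < c₄) (hc₄' : c₄ ≤ 1) :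
    ∃ c C : ℝ, 0 < c ∧ c ≤ c₀ / 2 ∧ 0 < C ∧ ∀ (Y d : ℝ) (q : ℕ) (ψ : DirichletCharacter ℂ q)
      (g g₁ g₂ : ℂ → ℂ) (t : ℝ), 3 ≤ Y → 0 < d → d ≤ 1 → 1 ≤ q → 1 ≤ d * Real.log Y →
      Ext c₀ C₀ Y d (1 : DirichletCharacter ℂ 1) g₁ → Ext c₀ C₀ Y d ψ g → Ext c₀ C₀ Y d (ψ ^ 2) g₂ →
      |t| ≤ Y ^ 2 / 2 - 1 → (ψ ^ 2 ≠ 1 ∨ c₄ / (d * Real.log Y) ≤ |t|) →
        ∀ s : ℂ, ‖s - (1 + t * I)‖ ≤ c / (d * Real.log Y) →
          g s ≠ 0 ∧ ‖deriv g s / g s‖ ≤ C * (d * Real.log Y) := by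
  have hC₀' : 0 < C₀ := by linarith
  obtain ⟨m, hm, hlow⟩ := Z_low c₀ C₀ c₄ hc₀ hc₁ hC₀ hc₄ hc₄'
  have hρ : 0 < c₀ * c₄ / 2 := by positivity
  obtain ⟨ρ, hρdef⟩ : ∃ ρ : ℝ, ρ = c₀ * c₄ / 2 := ⟨_, rfl⟩
  rw [← hρdef] at hρ
  have hρ1 : ρ ≤ c₀ / 2 := by
    rw [hρdef]
    nlinarith
  have hρ2 : ρ ≤ c₄ / 2 := by
    rw [hρdef]
    nlinarith
  obtain ⟨c, C, hc, hc1, hC, hcore⟩ := GZ_core (C₀ * (1 + 1 / (c₄ / 2))) (m * c₄ ^ (3 / 4 : ℝ)) ρ
    (by positivity) (by positivity) hρ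
  refine ⟨c * ρ, C / ρ + 1 / (c₄ / 2), by positivity, by nlinarith, by positivity, ?_⟩
  intro Y d q ψ g g₁ g₂ t hY hd hd1 hq hL1 hg₁ hg hg₂ ht hex s hs
  have hlog : 0 < Real.log Y := Real.log_pos (by linarith)
  have hLp : 0 < d * Real.log Y := mul_pos hd hlog
  have hY2 : 9 ≤ Y ^ 2 := by nlinarith
  have hlow' := fun v : ℝ => hlow Y d q ψ g₁ g₂ t (c₄ * v) hY hd hd1 hq hg₁ hg₂ (by linarith) hex
  unfold Ext at hg
  obtain ⟨L, hLdef⟩ : ∃ L : ℝ, L = d * Real.log Y := ⟨_, rfl⟩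
  rw [← hLdef] at hLp hL1 hg hex hs ⊢
  simp only [← hLdef] at hlow'
  have hρL : ρ / L ≤ c₀ / (2 * L) := by
    rw [div_le_div_iff₀ hLp (by positivity)]
    nlinarith
  have hρL2 : ρ / L ≤ 1 / 2 := by
    rw [div_le_div_iff₀ hLp (by norm_num)]
    nlinarith
  have hcL : c₀ / (2 * L) < c₀ / L := by
    rw [div_lt_div_iff₀ (by positivity) hLp]
    nlinarith [mul_pos hc₀ hLp]
  -- the ball
  have hball : ∀ s ∈ Metric.ball (1 + t * I : ℂ) (ρ / L), 1 - c₀ / L < s.re ∧ |s.im| < Y ^ 2 := by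
    intro s hs
    rw [mem_ball_iff_norm] at hs
    have h1 := (Complex.abs_re_le_norm (s - (1 + t * I))).trans hs.le
    have h2 := (Complex.abs_im_le_norm (s - (1 + t * I))).trans hs.le
    have e1 : (s - (1 + t * I)).re = s.re - 1 := by simp
    have e2 : (s - (1 + t * I)).im = s.im - t := by simp
    rw [e1] at h1
    rw [e2] at h2
    refine ⟨?_, ?_⟩
    · have h3 := (abs_le.1 h1).1
      linarith
    · have h3 : |s.im| ≤ |s.im - t| + |t| := by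
        have h4 := abs_add_le (s.im - t) t
        rwa [sub_add_cancel] at h4
      linarith
  have hlow'' : ∀ v : ℝ, 0 < v → v < 1 → m * c₄ ^ (3 / 4 : ℝ) * v ^ (3 / 4 : ℝ) ≤
      ‖Gz (Y ^ d) ψ (1 + t * I + (ρ / L * v : ℝ))‖ := by
    intro v hv hv1
    have h1 := hlow' v (by positivity) (by nlinarith)
    rw [Real.mul_rpow hc₄.le hv.le, ← mul_assoc] at h1
    have h2 : c₀ * (c₄ * v) / (2 * L) = ρ / L * v := by
      rw [hρdef]
      field_simp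
    rw [h2] at h1
    have h3 : (1 : ℂ) + ((ρ / L * v : ℝ) : ℂ) + t * I = 1 + t * I + ((ρ / L * v : ℝ) : ℂ) := by ring
    rw [h3] at h1
    exact h1
  have hpt : ∀ v : ℝ, 0 < v → v < 1 → (1 + t * I + ((ρ / L * v : ℝ) : ℂ)) ∈
      Metric.ball (1 + t * I : ℂ) (ρ / L) ∧ 1 < (1 + t * I + ((ρ / L * v : ℝ) : ℂ)).re := by
    intro v hv hv1
    have hp : 0 < ρ / L * v := by positivity
    have hp2 : ρ / L * v < ρ / L := by
      have : 0 < ρ / L := by positivity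
      nlinarith
    refine ⟨?_, ?_⟩
    · rw [mem_ball_iff_norm, add_sub_cancel_left, Complex.norm_real, Real.norm_eq_abs,
        abs_of_pos hp]
      exact hp2
    · have e1 : (1 + t * I + ((ρ / L * v : ℝ) : ℂ)).re = 1 + ρ / L * v := by simp
      rw [e1]
      linarith
  have hsb : s ∈ Metric.ball (1 + t * I : ℂ) (ρ / L) := by
    rw [mem_ball_iff_norm]
    refine hs.trans_lt ?_
    rw [div_lt_div_iff₀ hLp hLp]
    nlinarith [mul_pos hρ hLp]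
  by_cases hψ : ψ = 1
  · have hψ2 : ψ ^ 2 = 1 := by rw [hψ, one_pow]
    have ht4 : c₄ / L ≤ |t| := by
      rcases hex with h | h
      · exact absurd hψ2 h
      · exact h
    have hfar : ∀ s ∈ Metric.ball (1 + t * I : ℂ) (ρ / L), c₄ / 2 ≤ L * ‖s - 1‖ := by
      intro s hs
      rw [mem_ball_iff_norm] at hs
      have h2 := (Complex.abs_im_le_norm (s - (1 + t * I))).trans hs.le
      have e2 : (s - (1 + t * I)).im = s.im - t := by simp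
      rw [e2] at h2
      have h3 := Complex.abs_im_le_norm (s - 1)
      have e3 : (s - 1).im = s.im := by simp
      rw [e3] at h3
      have h4 : |t| ≤ |s.im - t| + |s.im| := by
        have h5 := abs_sub_le t s.im 0
        rw [sub_zero, sub_zero, abs_sub_comm t s.im] at h5
        exact h5
      have h6 : c₄ / L - ρ / L ≤ ‖s - 1‖ := by linarith
      have h7 := mul_le_mul_of_nonneg_left h6 hLp.le
      have h8 : L * (c₄ / L - ρ / L) = c₄ - ρ := by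
        field_simp
      rw [h8] at h7
      linarith
    have hne : ∀ s ∈ Metric.ball (1 + t * I : ℂ) (ρ / L), s - 1 ≠ 0 := by
      intro s hs h0
      have h1 := hfar s hs
      rw [h0, norm_zero, mul_zero] at h1
      linarith
    have hLc : (L : ℂ) ≠ 0 := by exact_mod_cast hLp.ne'
    have hgd : DifferentiableOn ℂ g (Metric.ball (1 + t * I : ℂ) (ρ / L)) :=
      hg.1.mono fun s hs => hball s hs
    have hH : DifferentiableOn ℂ (fun s => g s / ((L : ℂ) * (s - 1)))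
        (Metric.ball (1 + t * I : ℂ) (ρ / L)) := by
      refine hgd.div ?_ fun s hs => mul_ne_zero hLc (hne s hs)
      exact ((differentiable_id.sub_const 1).const_mul (L : ℂ)).differentiableOn
    have hmain := hcore L (1 + t * I) (fun s => g s / ((L : ℂ) * (s - 1))) hLp hH ?_ ?_ s hs
    · obtain ⟨h1, h2⟩ := hmain
      have hs1 := hne s hsb
      have hgs : g s ≠ 0 := by
        intro h0
        apply h1
        show g s / ((L : ℂ) * (s - 1)) = 0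
        rw [h0, zero_div]
      refine ⟨hgs, ?_⟩
      have hdg : HasDerivAt g (deriv g s) s :=
        (hgd.differentiableAt (Metric.isOpen_ball.mem_nhds hsb)).hasDerivAt
      have hdl : HasDerivAt (fun s : ℂ => (L : ℂ) * (s - 1)) (L : ℂ) s := by
        have h3 := ((hasDerivAt_id s).sub_const (1 : ℂ)).const_mul (L : ℂ)
        simpa using h3
      have h4 := (hdg.div hdl (mul_ne_zero hLc hs1)).deriv
      have h5 : deriv g s / g s = deriv (fun s => g s / ((L : ℂ) * (s - 1))) s /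
          (g s / ((L : ℂ) * (s - 1))) + 1 / (s - 1) := by
        have h6 : deriv (fun s => g s / ((L : ℂ) * (s - 1))) s =
            (deriv g s * ((L : ℂ) * (s - 1)) - g s * (L : ℂ)) / ((L : ℂ) * (s - 1)) ^ 2 := h4
        rw [h6]
        field_simp
        ring
      rw [h5]
      refine (norm_add_le _ _).trans ?_
      have h7 : ‖1 / (s - 1)‖ ≤ 1 / (c₄ / 2) * L := by
        rw [norm_div, norm_one]
        have h8 := hfar s hsb
        have h9 : 0 < ‖s - 1‖ := norm_pos_iff.2 hs1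
        rw [div_mul_eq_mul_div, one_mul, div_le_div_iff₀ h9 (by positivity), one_mul]
        exact h8
      rw [add_mul]
      exact add_le_add h2 h7
    · intro s hs
      have h1 := hg.2.2.1 hψ s (hball s hs).1 (hball s hs).2
      refine GZ_quot C₀ L (c₄ / 2) (g s) _ s hC₀'.le hLp (by positivity) h1.1 ?_ (hfar s hs)
      have h2 := hne s hs
      field_simp
    · intro v hv hv1
      refine (hlow'' v hv hv1).trans (le_of_eq ?_)
      have h1 := hg.2.2.1 hψ _ (hball _ (hpt v hv hv1).1).1 (hball _ (hpt v hv hv1).1).2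
      have h2 := h1.2 (hpt v hv hv1).2
      have h3 := hne _ (hpt v hv hv1).1
      show _ = ‖g (1 + t * I + ((ρ / L * v : ℝ) : ℂ)) /
        ((L : ℂ) * (1 + t * I + ((ρ / L * v : ℝ) : ℂ) - 1))‖
      rw [h2, mul_div_cancel_left₀ _ (mul_ne_zero hLc h3)]
  · have hgd : DifferentiableOn ℂ g (Metric.ball (1 + t * I : ℂ) (ρ / L)) :=
      hg.1.mono fun s hs => hball s hs
    have hmain := hcore L (1 + t * I) g hLp hgd ?_ ?_ s hs
    · refine ⟨hmain.1, hmain.2.trans ?_⟩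
      have h1 : 0 < 1 / (c₄ / 2) := by positivity
      gcongr
      linarith
    · intro s hs
      have h1 := (hg.2.1 hψ s (hball s hs).1 (hball s hs).2).1
      refine h1.trans ?_
      have h3 : 0 < 1 / (c₄ / 2) := by positivity
      nlinarith
    · intro v hv hv1
      have h1 := hg.2.1 hψ _ (hball _ (hpt v hv hv1).1).1 (hball _ (hpt v hv hv1).1).2
      rw [h1.2 (hpt v hv hv1).2]
      exact hlow'' v hv hv1

end Pool.Agent.M58
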