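import Pool.Agent.W_b58c63_m1.G341
import Pool.Agent.W_b58c63_m1.CAb

/-!
# Zeros of the sieved L-functions: the pole and real characters (helper68)
-/

set_option autoImplicit false

noncomputable section

open Finset MeasureTheory Complex

namespace Pool.Agent.M58

/-- the region of the continuation contains a disc around `1` -/
theorem GZb_dom {c₀ L Y : ℝ} (hc₀ : 0 < c₀) (hc₁ : c₀ ≤ 1) (hL : 1 ≤ L) (hY : 3 ≤ Y) {s : ℂ}
    (hs : ‖s - 1‖ < c₀ / L) : 1 - c₀ / L < s.re ∧ |s.im| < Y ^ 2 := by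
  have h1 := Complex.abs_re_le_norm (s - 1)
  have h2 := Complex.abs_im_le_norm (s - 1)
  rw [Complex.sub_re, Complex.one_re] at h1
  rw [Complex.sub_im, Complex.one_im, sub_zero] at h2
  have h3 : c₀ / L ≤ 1 := by
    rw [div_le_one (by linarith)]
    linarith
  refine ⟨?_, ?_⟩
  · have := (abs_lt.mp (lt_of_le_of_lt h1 hs)).1
    linarith
  · have : |s.im| < 1 := lt_of_lt_of_le (lt_of_le_of_lt h2 hs) h3
    nlinarith

theorem GZb_open (a b : ℝ) : IsOpen {s : ℂ | a < s.re ∧ |s.im| < b} :=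
  (isOpen_lt continuous_const Complex.continuous_re).inter
    (isOpen_lt (Complex.continuous_im.abs) continuous_const)

theorem GZb_deriv (g : ℂ → ℂ) (a w : ℂ) :
    deriv (fun w => g (1 + a * w)) w = a * deriv g (1 + a * w) := by
  have h1 := deriv_comp_mul_left a (fun u => g (1 + u)) w
  have h2 := deriv_comp_const_add g (1 : ℂ) (a * w)
  rw [h1, h2, smul_eq_mul]

theorem GZb_conj (z : ℝ) {q : ℕ} (ψ : DirichletCharacter ℂ q)
    (hr : ∀ n : ℕ, (ψ (n : ZMod q)).im = 0) (s : ℂ) :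
    Gz z ψ ((starRingEnd ℂ) s) = (starRingEnd ℂ) (Gz z ψ s) := by
  rw [Gz, Gz, LSeries, LSeries, Complex.conj_tsum]
  refine tsum_congr fun n => ?_
  rcases eq_or_ne n 0 with rfl | hn
  · rw [LSeries.term_zero, LSeries.term_zero, map_zero]
  · rw [LSeries.term_of_ne_zero hn, LSeries.term_of_ne_zero hn, map_div₀]
    have h1 : (starRingEnd ℂ) (fz z ψ n) = fz z ψ n := by
      rw [Complex.conj_eq_iff_im, fz, Complex.mul_im, Complex.ofReal_im, hr n]
      ring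
    have h2 : (n : ℂ) ^ (starRingEnd ℂ) s = (starRingEnd ℂ) ((n : ℂ) ^ s) := by
      rw [Complex.cpow_conj _ _ (by rw [Complex.natCast_arg]; exact Real.pi_pos.ne),
        Complex.conj_natCast]
    rw [h1, h2]

/-- The continuation of a real character is symmetric near `1`. -/
theorem GZb_symm (G : ℂ → ℂ) (hG : DifferentiableOn ℂ G (Metric.ball 0 1))
    (hs : ∀ w ∈ Metric.ball (0 : ℂ) 1, 0 < w.re → G ((starRingEnd ℂ) w) = (starRingEnd ℂ) (G w)) :
    ∀ w ∈ Metric.ball (0 : ℂ) 1, G ((starRingEnd ℂ) w) = (starRingEnd ℂ) (G w) := by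
  have hball : ∀ w : ℂ, w ∈ Metric.ball (0 : ℂ) 1 → (starRingEnd ℂ) w ∈ Metric.ball (0 : ℂ) 1 := by
    intro w hw
    rw [mem_ball_zero_iff] at hw ⊢
    rwa [RCLike.norm_conj]
  have h1 : AnalyticOnNhd ℂ G (Metric.ball 0 1) := hG.analyticOnNhd Metric.isOpen_ball
  have h2 : DifferentiableOn ℂ (fun w => (starRingEnd ℂ) (G ((starRingEnd ℂ) w)))
      (Metric.ball 0 1) := by
    intro w hw
    have h3 : DifferentiableAt ℂ G ((starRingEnd ℂ) w) :=
      hG.differentiableAt (Metric.isOpen_ball.mem_nhds (hball w hw))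
    have h4 := h3.conj_conj
    rw [Complex.conj_conj] at h4
    exact h4.differentiableWithinAt
  have h5 : AnalyticOnNhd ℂ (fun w => (starRingEnd ℂ) (G ((starRingEnd ℂ) w)))
      (Metric.ball 0 1) := h2.analyticOnNhd Metric.isOpen_ball
  have hhalf : (1 / 2 : ℂ) ∈ Metric.ball (0 : ℂ) 1 := by
    rw [mem_ball_zero_iff]
    norm_num
  have h6 : Set.EqOn G (fun w => (starRingEnd ℂ) (G ((starRingEnd ℂ) w))) (Metric.ball 0 1) := by
    refine h1.eqOn_of_preconnected_of_eventuallyEq h5 (convex_ball 0 1).isPreconnected hhalf ?_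
    have h7 : Metric.ball (0 : ℂ) 1 ∩ {w : ℂ | 0 < w.re} ∈ nhds (1 / 2 : ℂ) := by
      refine Filter.inter_mem (Metric.isOpen_ball.mem_nhds hhalf)
        ((isOpen_lt continuous_const Complex.continuous_re).mem_nhds ?_)
      show 0 < (1 / 2 : ℂ).re
      norm_num
    filter_upwards [h7] with w hw
    rw [hs w hw.1 hw.2, Complex.conj_conj]
  intro w hw
  have h8 := h6 (hball w hw)
  simp only [Complex.conj_conj] at h8
  exact h8

/-- **The pole.** `g₁` has no zeros near `1` (`‖g₁ 1‖ ≥ 1 / C₀` and `‖g₁'‖ ≤ C L` near `1`). -/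
theorem Z_pole (c₀ C₀ : ℝ) (hc₀ : 0 < c₀) (hc₁ : c₀ ≤ 1) (hC₀ : 1 ≤ C₀) :
    ∃ c C : ℝ, 0 < c ∧ c ≤ c₀ / 2 ∧ 0 < C ∧ ∀ (Y d : ℝ) (q : ℕ) (ψ : DirichletCharacter ℂ q)
      (g : ℂ → ℂ), 3 ≤ Y → 0 < d → d ≤ 1 → 1 ≤ d * Real.log Y → ψ = 1 → Ext c₀ C₀ Y d ψ g →
        ∀ s : ℂ, ‖s - 1‖ ≤ c / (d * Real.log Y) → g s ≠ 0 ∧ ‖deriv g s / g s‖ ≤ C * (d * Real.log Y) := by
  have hC0 : 0 < C₀ := by linarith
  refine ⟨c₀ / (16 * C₀ ^ 2), 16 * C₀ ^ 2 / c₀, by positivity, ?_, by positivity, ?_⟩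
  · apply div_le_div_of_nonneg_left hc₀.le (by norm_num)
    nlinarith
  intro Y d q ψ g hY hd hd1 hL hψ hE s hs
  obtain ⟨hE1, -, hE3, hE4⟩ := hE
  have hE3 := hE3 hψ
  have hE4 := hE4 hψ
  generalize d * Real.log Y = L at *
  have hL0 : 0 < L := by linarith
  have hΩ : IsOpen {s : ℂ | 1 - c₀ / L < s.re ∧ |s.im| < Y ^ 2} := GZb_open _ _
  have hbd : ∀ u : ℂ, ‖u - 1‖ < c₀ / L → ‖g u‖ ≤ 2 * C₀ := by
    intro u hu
    obtain ⟨h1, h2⟩ := GZb_dom hc₀ hc₁ hL hY hu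
    refine (hE3 u h1 h2).1.trans ?_
    have h3 : L * ‖u - 1‖ ≤ 1 := by
      have h4 : L * ‖u - 1‖ ≤ L * (c₀ / L) := mul_le_mul_of_nonneg_left hu.le hL0.le
      rw [mul_div_cancel₀ _ hL0.ne'] at h4
      linarith
    nlinarith
  have hdv : ∀ u : ℂ, ‖u - 1‖ ≤ c₀ / (2 * L) → ‖deriv g u‖ ≤ 8 * C₀ * L / c₀ := by
    intro u hu
    have hR : 0 < c₀ / (4 * L) := by positivity
    have hsum : c₀ / (2 * L) + c₀ / (4 * L) < c₀ / L := by
      have e1 : c₀ / (2 * L) = c₀ / L / 2 := by field_simp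
      have e2 : c₀ / (4 * L) = c₀ / L / 4 := by field_simp
      have e3 : 0 < c₀ / L := by positivity
      rw [e1, e2]
      linarith
    have hin : ∀ v ∈ Metric.closedBall u (c₀ / (4 * L)), ‖v - 1‖ < c₀ / L := by
      intro v hv
      rw [Metric.mem_closedBall, dist_eq_norm] at hv
      have : ‖v - 1‖ ≤ ‖v - u‖ + ‖u - 1‖ := by
        have e : v - 1 = (v - u) + (u - 1) := by ring
        rw [e]
        exact norm_add_le _ _
      linarith
    have hdc : DiffContOnCl ℂ g (Metric.ball u (c₀ / (4 * L))) := by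
      refine DifferentiableOn.diffContOnCl ?_
      rw [closure_ball u hR.ne']
      exact hE1.mono fun v hv => GZb_dom hc₀ hc₁ hL hY (hin v hv)
    have h := Complex.norm_deriv_le_of_forall_mem_sphere_norm_le hR hdc (C := 2 * C₀)
      fun v hv => hbd v (hin v (Metric.sphere_subset_closedBall hv))
    refine h.trans (le_of_eq ?_)
    field_simp
    ring
  have hsc : c₀ / (16 * C₀ ^ 2) / L ≤ c₀ / (2 * L) := by
    rw [div_div]
    apply div_le_div_of_nonneg_left hc₀.le (by positivity)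
    nlinarith [mul_pos hL0 hL0, sq_nonneg (C₀ - 1)]
  have hs2 : ‖s - 1‖ ≤ c₀ / (2 * L) := hs.trans hsc
  have hmv : ‖g s - g 1‖ ≤ 8 * C₀ * L / c₀ * ‖s - 1‖ := by
    refine Convex.norm_image_sub_le_of_norm_deriv_le (s := Metric.closedBall (1 : ℂ) (c₀ / (2 * L)))
      ?_ ?_ (convex_closedBall _ _) ?_ ?_
    · intro u hu
      rw [Metric.mem_closedBall, dist_eq_norm] at hu
      refine hE1.differentiableAt (hΩ.mem_nhds (GZb_dom hc₀ hc₁ hL hY (lt_of_le_of_lt hu ?_)))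
      apply div_lt_div_of_pos_left hc₀ hL0
      linarith
    · intro u hu
      rw [Metric.mem_closedBall, dist_eq_norm] at hu
      exact hdv u hu
    · rw [Metric.mem_closedBall, dist_self]
      positivity
    · rw [Metric.mem_closedBall, dist_eq_norm]
      exact hs2
  have hmv2 : ‖g s - g 1‖ ≤ 1 / (2 * C₀) := by
    refine hmv.trans ?_
    have h1 : 8 * C₀ * L / c₀ * ‖s - 1‖ ≤ 8 * C₀ * L / c₀ * (c₀ / (16 * C₀ ^ 2) / L) :=
      mul_le_mul_of_nonneg_left hs (by positivity)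
    refine h1.trans (le_of_eq ?_)
    field_simp
    ring
  have hgs : 1 / (2 * C₀) ≤ ‖g s‖ := by
    have h1 : ‖g 1‖ ≤ ‖g s‖ + ‖g s - g 1‖ := by
      have e : g 1 = g s - (g s - g 1) := by ring
      calc ‖g 1‖ = ‖g s - (g s - g 1)‖ := by rw [← e]
        _ ≤ _ := norm_sub_le _ _
    have e2 : 1 / C₀ = 1 / (2 * C₀) + 1 / (2 * C₀) := by field_simp; ring
    linarith
  have hgs0 : 0 < ‖g s‖ := lt_of_lt_of_le (by positivity) hgs
  refine ⟨norm_pos_iff.mp hgs0, ?_⟩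
  rw [norm_div, div_le_iff₀ hgs0]
  refine (hdv s hs2).trans ?_
  have h1 : 16 * C₀ ^ 2 / c₀ * L * (1 / (2 * C₀)) ≤ 16 * C₀ ^ 2 / c₀ * L * ‖g s‖ :=
    mul_le_mul_of_nonneg_left hgs (by positivity)
  refine le_trans (le_of_eq ?_) h1
  field_simp
  ring

/-- **Real characters near `s = 1`.**

Proof. `one_zero` for `w ↦ g (1 + c₀ w / (2 L))`, with `real_one`: `‖Gz ψ σ‖ ≥ 1 / ‖Gz 1 σ‖ ≥ m v`. The zero is real:
`g (conj s) = conj (g s)` for `re s > 1` (the coefficients are real), hence everywhere, and the zero is unique. It is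
`≤ 1` since `Gz ψ s ≠ 0` for `re s > 1` (`G_exp`). -/
theorem Z_real (c₀ C₀ : ℝ) (hc₀ : 0 < c₀) (hc₁ : c₀ ≤ 1) (hC₀ : 1 ≤ C₀) :
    ∃ c : ℝ, 0 < c ∧ c ≤ c₀ / 2 ∧ ∀ c' : ℝ, 0 < c' → c' ≤ c / 2 → ∃ C : ℝ, 0 < C ∧
      ∀ (Y d : ℝ) (q : ℕ) (ψ : DirichletCharacter ℂ q) (g g₁ : ℂ → ℂ), 3 ≤ Y → 0 < d → d ≤ 1 →
      1 ≤ q → 1 ≤ d * Real.log Y → ψ ≠ 1 → (∀ n : ℕ, (ψ (n : ZMod q)).im = 0) →
      Ext c₀ C₀ Y d (1 : DirichletCharacter ℂ 1) g₁ → Ext c₀ C₀ Y d ψ g →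
        (∀ s : ℂ, ‖s - 1‖ ≤ c' / (d * Real.log Y) → g s ≠ 0) ∧
          (∀ s : ℂ, ‖s - 1‖ ≤ c' / 2 / (d * Real.log Y) → ‖deriv g s / g s‖ ≤ C * (d * Real.log Y)) ∨
        ∃ β : ℝ, 1 - c' / (d * Real.log Y) ≤ β ∧ β ≤ 1 ∧ g β = 0 ∧
          ∀ s : ℂ, ‖s - 1‖ ≤ c / (d * Real.log Y) → s ≠ β → g s ≠ 0 ∧
            (‖s - 1‖ ≤ c / 2 / (d * Real.log Y) →
              ‖deriv g s / g s - 1 / (s - β)‖ ≤ C * (d * Real.log Y)) := by
  obtain ⟨ρ, hρ⟩ : ∃ ρ : ℝ, ρ = c₀ / 2 := ⟨_, rfl⟩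
  have hρ0 : 0 < ρ := by rw [hρ]; linarith
  have hC0 : 0 < C₀ := by linarith
  obtain ⟨cw, hcw0, hcw1, H⟩ := one_zero C₀ (ρ / (2 * C₀)) hC0 (by positivity)
  refine ⟨ρ * cw, by positivity, by nlinarith, fun c' hc'0 hc'1 => ?_⟩
  obtain ⟨Cw, hCw, H⟩ := H (c' / ρ) (by positivity) (by rw [div_le_iff₀ hρ0]; linarith)
  refine ⟨Cw / ρ, by positivity, ?_⟩
  intro Y d q ψ g g₁ hY hd hd1 hq hL hψ hreal hE hF
  obtain ⟨-, -, hE3, -⟩ := hE
  have hE3 := hE3 rfl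
  obtain ⟨hF1, hF2, -, -⟩ := hF
  have hF2 := hF2 hψ
  generalize d * Real.log Y = L at *
  have hL0 : 0 < L := by linarith
  have hρL : 0 < ρ / L := by positivity
  obtain ⟨a, ha⟩ : ∃ a : ℂ, a = ((ρ / L : ℝ) : ℂ) := ⟨_, rfl⟩
  have hna : ‖a‖ = ρ / L := by rw [ha, Complex.norm_real, Real.norm_of_nonneg hρL.le]
  have ha0 : a ≠ 0 := by
    rw [← norm_pos_iff, hna]
    exact hρL
  have hlt : ρ / L < c₀ / L := by
    apply div_lt_div_of_pos_right _ hL0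
    rw [hρ]; linarith
  have hball : ∀ w ∈ Metric.ball (0 : ℂ) 1, ‖(1 + a * w) - 1‖ < c₀ / L := by
    intro w hw
    rw [mem_ball_zero_iff] at hw
    rw [add_sub_cancel_left, norm_mul, hna]
    have : ρ / L * ‖w‖ ≤ ρ / L * 1 := mul_le_mul_of_nonneg_left hw.le hρL.le
    linarith
  have hdom : ∀ w ∈ Metric.ball (0 : ℂ) 1, 1 - c₀ / L < (1 + a * w).re ∧ |(1 + a * w).im| < Y ^ 2 :=
    fun w hw => GZb_dom hc₀ hc₁ hL hY (hball w hw)
  have hre : ∀ w : ℂ, (1 + a * w).re = 1 + ρ / L * w.re := by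
    intro w
    rw [Complex.add_re, Complex.one_re, ha, Complex.re_ofReal_mul]
  obtain ⟨G, hG⟩ : ∃ G : ℂ → ℂ, G = fun w => g (1 + a * w) := ⟨_, rfl⟩
  have hGw : ∀ w, G w = g (1 + a * w) := fun w => by rw [hG]
  have hG1 : DifferentiableOn ℂ G (Metric.ball 0 1) := by
    rw [hG]
    exact hF1.comp (by fun_prop) fun w hw => hdom w hw
  have hG2 : ∀ w ∈ Metric.ball (0 : ℂ) 1, ‖G w‖ ≤ C₀ := by
    intro w hw
    rw [hGw]
    exact (hF2 _ (hdom w hw).1 (hdom w hw).2).1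
  have hGd : ∀ w, deriv G w = a * deriv g (1 + a * w) := by
    intro w
    rw [hG]
    exact GZb_deriv g a w
  have hG3 : ∀ v : ℝ, 0 < v → v < 1 → ρ / (2 * C₀) * v ≤ ‖G v‖ := by
    intro v hv0 hv1
    have hvb : (v : ℂ) ∈ Metric.ball (0 : ℂ) 1 := by
      rw [mem_ball_zero_iff, Complex.norm_real, Real.norm_of_nonneg hv0.le]
      exact hv1
    have hσ : 1 + a * (v : ℂ) = ((1 + ρ / L * v : ℝ) : ℂ) := by
      rw [ha]; push_cast; ring
    have hx0 : 0 < ρ / L * v := by positivity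
    have hσ1 : 1 < 1 + ρ / L * v := by linarith
    obtain ⟨h1, h2⟩ := hdom _ hvb
    have hg := (hF2 _ h1 h2).2 (by rw [hσ, Complex.ofReal_re]; exact hσ1)
    have hg1 := hE3 _ h1 h2
    have hg2 := hg1.2 (by rw [hσ, Complex.ofReal_re]; exact hσ1)
    have hr := real_one (Y ^ d) q hq ψ hreal (1 + ρ / L * v) hσ1
    rw [hGw, hg, hσ]
    rw [hσ] at hg2 hg1
    have e1 : ‖(((1 + ρ / L * v : ℝ) : ℂ)) - 1‖ = ρ / L * v := by
      have : (((1 + ρ / L * v : ℝ) : ℂ)) - 1 = ((ρ / L * v : ℝ) : ℂ) := by push_cast; ring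
      rw [this, Complex.norm_real, Real.norm_of_nonneg hx0.le]
    have e2 : L * (ρ / L * v) = ρ * v := by field_simp
    have h3 := hg1.1
    rw [hg2, norm_mul, norm_mul, e1, Complex.norm_real, Real.norm_of_nonneg hL0.le, e2] at h3
    have hρv : ρ * v ≤ 1 := by
      have : ρ ≤ 1 := by rw [hρ]; linarith
      nlinarith
    have h4 : ρ * v * ‖Gz (Y ^ d) (1 : DirichletCharacter ℂ 1) ((1 + ρ / L * v : ℝ) : ℂ)‖ ≤
        2 * C₀ := by
      refine h3.trans ?_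
      nlinarith
    obtain ⟨A, hA⟩ : ∃ A, A = ‖Gz (Y ^ d) (1 : DirichletCharacter ℂ 1)
      ((1 + ρ / L * v : ℝ) : ℂ)‖ := ⟨_, rfl⟩
    obtain ⟨B, hB⟩ : ∃ B, B = ‖Gz (Y ^ d) ψ ((1 + ρ / L * v : ℝ) : ℂ)‖ := ⟨_, rfl⟩
    rw [← hA] at h4
    rw [← hA, ← hB] at hr
    rw [← hB]
    have hB0 : 0 ≤ B := by rw [hB]; exact norm_nonneg _
    have hρv0 : 0 < ρ * v := by positivity
    rw [div_mul_eq_mul_div, div_le_iff₀ (by positivity)]
    calc ρ * v = ρ * v * 1 := by ring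
      _ ≤ ρ * v * (A * B) := mul_le_mul_of_nonneg_left hr hρv0.le
      _ = (ρ * v * A) * B := by ring
      _ ≤ (2 * C₀) * B := mul_le_mul_of_nonneg_right h4 hB0
      _ = B * (2 * C₀) := by ring
  have hsw : ∀ s : ℂ, 1 + a * ((s - 1) / a) = s := by
    intro s
    rw [mul_div_cancel₀ _ ha0]
    ring
  have hnw : ∀ (s : ℂ) (x : ℝ), ‖s - 1‖ ≤ x / L → ‖(s - 1) / a‖ ≤ x / ρ := by
    intro s x hx
    rw [norm_div, hna, div_le_iff₀ hρL]
    refine hx.trans (le_of_eq ?_)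
    field_simp
  rcases H G hG1 hG2 hG3 with ⟨hA, hB⟩ | ⟨w₀, hw₀, hz, hU⟩
  · left
    refine ⟨fun s hs => ?_, fun s hs => ?_⟩
    · have h1 := hA _ (hnw s c' hs)
      rwa [hGw, hsw] at h1
    · have h1 := hB ((s - 1) / a) (by
        have := hnw s (c' / 2) hs
        rwa [div_div, mul_comm 2 ρ, ← div_div] at this)
      rw [hGd, hGw, hsw, mul_div_assoc, norm_mul, hna] at h1
      rw [div_mul_eq_mul_div, le_div_iff₀ hρ0]
      have h2 : ρ / L * ‖deriv g s / g s‖ * L ≤ Cw * L := mul_le_mul_of_nonneg_right h1 hL0.le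
      refine le_trans (le_of_eq ?_) h2
      field_simp
  · right
    have hc1 : c' / ρ ≤ cw := by
      rw [div_le_iff₀ hρ0]
      nlinarith
    have hw₀b : w₀ ∈ Metric.ball (0 : ℂ) 1 := by
      rw [mem_ball_zero_iff]
      linarith
    have hsymm := GZb_symm G hG1 (by
      intro w hw hwre
      have hwc : (starRingEnd ℂ) w ∈ Metric.ball (0 : ℂ) 1 := by
        rw [mem_ball_zero_iff] at hw ⊢
        rwa [RCLike.norm_conj]
      obtain ⟨h1, h2⟩ := hdom _ hw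
      obtain ⟨h3, h4⟩ := hdom _ hwc
      have h5 : 0 < ρ / L * w.re := by positivity
      rw [hGw, hGw, (hF2 _ h1 h2).2 (by rw [hre]; linarith),
        (hF2 _ h3 h4).2 (by rw [hre, Complex.conj_re]; linarith), ← GZb_conj _ _ hreal]
      congr 1
      rw [map_add, map_mul, map_one, ha, Complex.conj_ofReal])
    have hreal0 : (starRingEnd ℂ) w₀ = w₀ := by
      by_contra hne
      have h1 := (hU ((starRingEnd ℂ) w₀) (by rw [RCLike.norm_conj]; linarith) hne).1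
      apply h1
      rw [hsymm w₀ hw₀b, hz, map_zero]
    obtain ⟨x, hx⟩ : ∃ x : ℝ, w₀ = (x : ℂ) := ⟨w₀.re, (Complex.conj_eq_iff_re.mp hreal0).symm⟩
    subst hx
    rw [Complex.norm_real, Real.norm_eq_abs] at hw₀
    have hβ : ((1 + ρ / L * x : ℝ) : ℂ) = 1 + a * (x : ℂ) := by
      rw [ha]; push_cast; ring
    refine ⟨1 + ρ / L * x, ?_, ?_, ?_, ?_⟩
    · have h1 := (abs_le.mp hw₀).1
      have h2 : ρ / L * (-(c' / ρ)) ≤ ρ / L * x := mul_le_mul_of_nonneg_left h1 hρL.le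
      have h3 : ρ / L * (-(c' / ρ)) = -(c' / L) := by field_simp
      linarith
    · by_contra hcon
      push Not at hcon
      obtain ⟨h1, h2⟩ := hdom _ hw₀b
      have h3 := (hF2 _ h1 h2).2 (by rw [← hβ, Complex.ofReal_re]; exact hcon)
      rw [← hGw, hz] at h3
      exact (G_exp (Y ^ d) q hq ψ (1 + a * (x : ℂ)) (by
        rw [← hβ, Complex.ofReal_re]; exact hcon)).2.1 h3.symm
    · rw [hβ, ← hGw, hz]
    · intro s hs hsβ
      have hne : (s - 1) / a ≠ (x : ℂ) := by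
        intro h1
        apply hsβ
        rw [hβ, ← h1, hsw]
      have h1 := hU ((s - 1) / a) (by
        have := hnw s (ρ * cw) hs
        rwa [mul_div_cancel_left₀ _ hρ0.ne'] at this) hne
      refine ⟨by have := h1.1; rwa [hGw, hsw] at this, fun hs2 => ?_⟩
      have h2 := h1.2 (by
        have := hnw s (ρ * cw / 2) hs2
        rwa [mul_div_assoc, mul_div_cancel_left₀ _ hρ0.ne'] at this)
      rw [hGd, hGw, hsw] at h2
      have e1 : (s - 1) / a - (x : ℂ) = (s - ((1 + ρ / L * x : ℝ) : ℂ)) / a := by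
        rw [hβ]
        field_simp
        ring
      rw [e1] at h2
      have e2 : a * deriv g s / g s - 1 / ((s - ((1 + ρ / L * x : ℝ) : ℂ)) / a) =
          a * (deriv g s / g s - 1 / (s - ((1 + ρ / L * x : ℝ) : ℂ))) := by
        rw [one_div_div]
        ring
      rw [e2, norm_mul, hna] at h2
      have e3 : Cw / ρ * L = Cw * L / ρ := by ring
      rw [e3, le_div_iff₀ hρ0]
      have h3 := mul_le_mul_of_nonneg_right h2 hL0.le
      refine le_trans (le_of_eq ?_) h3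
      generalize ‖deriv g s / g s - 1 / (s - ((1 + ρ / L * x : ℝ) : ℂ))‖ = Z
      field_simp

end Pool.Agent.M58
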