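import Pool.Agent.W_b58c63_m1.G341
import Pool.Agent.W_b58c63_m1.CAb

/-!
# Zeros of the sieved L-functions: uniqueness (helper68)
-/

set_option autoImplicit false

noncomputable section

open Finset MeasureTheory Complex

namespace Pool.Agent.M58

/-- A zero `β` close to `1` makes the function small at `1 + c / L`. -/
theorem GZc_small (c₀ C₀ c L Y : ℝ) (hc₀ : 0 < c₀) (hc₁ : c₀ ≤ 1) (hc : 0 < c) (hcc : c ≤ c₀ / 4)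
    (hL : 1 ≤ L) (hY : 3 ≤ Y) (g : ℂ → ℂ)
    (hg : DifferentiableOn ℂ g {s | 1 - c₀ / L < s.re ∧ |s.im| < Y ^ 2})
    (hb : ∀ s : ℂ, 1 - c₀ / L < s.re → |s.im| < Y ^ 2 → ‖g s‖ ≤ C₀) (β : ℝ)
    (h1 : 1 - c / L ≤ β) (h2 : β ≤ 1) (h0 : g β = 0) : ‖g ((1 + c / L : ℝ) : ℂ)‖ ≤ 4 * C₀ * (c / c₀) := by
  have hL0 : 0 < L := by linarith
  obtain ⟨r, hr⟩ : ∃ r : ℝ, r = c₀ / L := ⟨_, rfl⟩
  have hr0 : 0 < r := by rw [hr]; positivity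
  have hr1 : r ≤ 1 := by
    rw [hr, div_le_one hL0]; linarith
  rw [← hr] at hg hb
  have hY2 : 1 < Y ^ 2 := by nlinarith
  have hmem : ∀ w ∈ Metric.ball (0 : ℂ) 1, 1 - r < (1 + (r : ℂ) * w).re ∧ |(1 + (r : ℂ) * w).im| < Y ^ 2 := by
    intro w hw
    rw [mem_ball_zero_iff] at hw
    have hre : (1 + (r : ℂ) * w).re = 1 + r * w.re := by simp
    have him : (1 + (r : ℂ) * w).im = r * w.im := by simp
    have e1 : |w.re| < 1 := (Complex.abs_re_le_norm w).trans_lt hw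
    have e2 : |w.im| < 1 := (Complex.abs_im_le_norm w).trans_lt hw
    rw [abs_lt] at e1
    rw [hre, him, abs_mul, abs_of_pos hr0]
    constructor
    · nlinarith [e1.1]
    · have : r * |w.im| ≤ 1 * 1 := mul_le_mul hr1 e2.le (abs_nonneg _) (by norm_num)
      linarith
  have hd : DifferentiableOn ℂ (fun w : ℂ => g (1 + (r : ℂ) * w)) (Metric.ball 0 1) := by
    refine hg.comp ?_ (fun w hw => hmem w hw)
    exact ((differentiable_id.const_mul (r : ℂ)).const_add 1).differentiableOn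
  have hcr : c / c₀ ≤ 1 / 4 := by
    rw [div_le_iff₀ hc₀]; linarith
  have hcr0 : 0 < c / c₀ := by positivity
  have hw0 : ‖((((β - 1) / r : ℝ)) : ℂ)‖ ≤ c / c₀ := by
    rw [Complex.norm_real, Real.norm_eq_abs, abs_le]
    have e3 : c / c₀ * r = c / L := by rw [hr]; field_simp
    constructor
    · rw [le_div_iff₀ hr0]; linarith
    · rw [div_le_iff₀ hr0]
      have : 0 < c / c₀ * r := by positivity
      linarith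
  have hz : (fun w : ℂ => g (1 + (r : ℂ) * w)) ((((β - 1) / r : ℝ)) : ℂ) = 0 := by
    have e4 : (1 : ℂ) + (r : ℂ) * ((((β - 1) / r : ℝ)) : ℂ) = (β : ℂ) := by
      rw [← Complex.ofReal_mul, mul_div_cancel₀ _ hr0.ne', Complex.ofReal_sub, Complex.ofReal_one]
      ring
    simp only [e4, h0]
  have h := CAb_norm_le hd (fun w hw => hb _ (hmem w hw).1 (hmem w hw).2) hcr0 hcr hw0 hz
  have e5 : (1 : ℂ) + (r : ℂ) * ((c / c₀ : ℝ) : ℂ) = ((1 + c / L : ℝ) : ℂ) := by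
    rw [← Complex.ofReal_mul]
    have : r * (c / c₀) = c / L := by rw [hr]; field_simp
    rw [this]
    push_cast
    ring
  simp only [e5] at h
  exact h

/-- **At most one exceptional real character.**

Proof. At `σ = 1 + c' / L`: `‖Gz ψ_i σ‖ = ‖g_i σ‖ ≤ C (σ - β_i) L ≤ 2 C c'` (Cauchy's estimate for `g_i'` between `β_i` and
`σ`), `‖Gz 1 σ‖ ≤ C / c'`, `‖Gz ψ σ‖ ≤ C₀`: `landau` gives `1 ≤ C' c'`. -/
theorem Z_unique (c₀ C₀ : ℝ) (hc₀ : 0 < c₀) (hc₁ : c₀ ≤ 1) (hC₀ : 1 ≤ C₀) :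
    ∃ c : ℝ, 0 < c ∧ c ≤ c₀ / 4 ∧ ∀ (Y d : ℝ) (q₁ q₂ q : ℕ) (ψ₁ : DirichletCharacter ℂ q₁)
      (ψ₂ : DirichletCharacter ℂ q₂) (ψ : DirichletCharacter ℂ q) (g₁ g₂ g g₀ : ℂ → ℂ) (β₁ β₂ : ℝ),
      3 ≤ Y → 0 < d → d ≤ 1 → 1 ≤ q₁ → 1 ≤ q₂ → 1 ≤ q → 1 ≤ d * Real.log Y → ψ₁ ≠ 1 → ψ₂ ≠ 1 → ψ ≠ 1 →
      (∀ n : ℕ, (ψ₁ (n : ZMod q₁)).im = 0) → (∀ n : ℕ, (ψ₂ (n : ZMod q₂)).im = 0) →
      (∀ n : ℕ, ψ (n : ZMod q) = ψ₁ (n : ZMod q₁) * ψ₂ (n : ZMod q₂)) →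
      Ext c₀ C₀ Y d (1 : DirichletCharacter ℂ 1) g₀ → Ext c₀ C₀ Y d ψ₁ g₁ → Ext c₀ C₀ Y d ψ₂ g₂ →
      Ext c₀ C₀ Y d ψ g → 1 - c / (d * Real.log Y) ≤ β₁ → β₁ ≤ 1 → g₁ β₁ = 0 →
      1 - c / (d * Real.log Y) ≤ β₂ → β₂ ≤ 1 → g₂ β₂ ≠ 0 := by
  have hC0' : 0 < C₀ := by linarith
  have hCp : 1 ≤ C₀ ^ 4 := one_le_pow₀ hC₀
  refine ⟨c₀ ^ 2 / (64 * C₀ ^ 4), by positivity, ?_, ?_⟩
  · rw [div_le_iff₀ (by positivity)]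
    nlinarith
  intro Y d q₁ q₂ q ψ₁ ψ₂ ψ g₁ g₂ g g₀ β₁ β₂ hY hd hd1 hq1 hq2 hq hL h1 h2 hψ hr1 hr2 hm
    e0 e1 e2 e3 hb1 hb1' hz1 hb2 hb2' hz2
  obtain ⟨c, hcdef⟩ : ∃ c : ℝ, c = c₀ ^ 2 / (64 * C₀ ^ 4) := ⟨_, rfl⟩
  have hc : 0 < c := by rw [hcdef]; positivity
  have hcc : c ≤ c₀ / 4 := by
    rw [hcdef, div_le_iff₀ (by positivity)]
    nlinarith
  rw [← hcdef] at hb1 hb2
  obtain ⟨L, hLdef⟩ : ∃ L : ℝ, L = d * Real.log Y := ⟨_, rfl⟩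
  unfold Ext at e0 e1 e2 e3
  rw [← hLdef] at hL hb1 hb2 e0 e1 e2 e3
  have hL0 : 0 < L := by linarith
  have hcL : 0 < c / L := by positivity
  have hc0L : 0 < c₀ / L := by positivity
  have hY2 : 0 < Y ^ 2 := by positivity
  have hσre : (((1 + c / L : ℝ)) : ℂ).re = 1 + c / L := Complex.ofReal_re _
  have hσim : |(((1 + c / L : ℝ)) : ℂ).im| < Y ^ 2 := by
    rw [Complex.ofReal_im, abs_zero]; exact hY2
  have hσre' : 1 - c₀ / L < (((1 + c / L : ℝ)) : ℂ).re := by rw [hσre]; linarith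
  have hσ1 : 1 < (((1 + c / L : ℝ)) : ℂ).re := by rw [hσre]; linarith
  have s1 := GZc_small c₀ C₀ c L Y hc₀ hc₁ hc hcc hL hY g₁ e1.1 (fun s hs hs' => (e1.2.1 h1 s hs hs').1)
    β₁ hb1 hb1' hz1
  have s2 := GZc_small c₀ C₀ c L Y hc₀ hc₁ hc hcc hL hY g₂ e2.1 (fun s hs hs' => (e2.2.1 h2 s hs hs').1)
    β₂ hb2 hb2' hz2
  rw [(e1.2.1 h1 _ hσre' hσim).2 hσ1] at s1
  rw [(e2.2.1 h2 _ hσre' hσim).2 hσ1] at s2
  have s3 := (e3.2.1 hψ _ hσre' hσim).1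
  rw [(e3.2.1 hψ _ hσre' hσim).2 hσ1] at s3
  have s0 := (e0.2.2.1 rfl _ hσre' hσim).1
  rw [(e0.2.2.1 rfl _ hσre' hσim).2 hσ1] at s0
  have hsub : (((1 + c / L : ℝ)) : ℂ) - 1 = ((c / L : ℝ) : ℂ) := by push_cast; ring
  rw [hsub, norm_mul, norm_mul, Complex.norm_real, Complex.norm_real, Real.norm_eq_abs, Real.norm_eq_abs,
    abs_of_pos hL0, abs_of_pos hcL, mul_div_cancel₀ _ hL0.ne'] at s0
  have hc1 : c ≤ 1 := by linarith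
  have s0' : ‖Gz (Y ^ d) (1 : DirichletCharacter ℂ 1) (((1 + c / L : ℝ)) : ℂ)‖ ≤ 2 * C₀ / c := by
    rw [le_div_iff₀ hc]
    nlinarith
  have hlan := landau (Y ^ d) q₁ q₂ q hq1 hq2 hq ψ₁ ψ₂ ψ hr1 hr2 hm (1 + c / L) (by linarith)
  have hfin : ‖Gz (Y ^ d) (1 : DirichletCharacter ℂ 1) (((1 + c / L : ℝ)) : ℂ)‖ *
      ‖Gz (Y ^ d) ψ₁ (((1 + c / L : ℝ)) : ℂ)‖ * ‖Gz (Y ^ d) ψ₂ (((1 + c / L : ℝ)) : ℂ)‖ *
      ‖Gz (Y ^ d) ψ (((1 + c / L : ℝ)) : ℂ)‖ ≤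
      (2 * C₀ / c) * (4 * C₀ * (c / c₀)) * (4 * C₀ * (c / c₀)) * C₀ := by
    gcongr
  have hval : (2 * C₀ / c) * (4 * C₀ * (c / c₀)) * (4 * C₀ * (c / c₀)) * C₀ = 1 / 2 := by
    have : (2 * C₀ / c) * (4 * C₀ * (c / c₀)) * (4 * C₀ * (c / c₀)) * C₀ =
        32 * C₀ ^ 4 * c / c₀ ^ 2 := by
      field_simp
      ring
    rw [this, hcdef]
    field_simp
    norm_num
  rw [hval] at hfin
  linarith

end Pool.Agent.M58
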