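import Pool.Agent.W_b58c63_m1.GZ
import Pool.Agent.W_b58c63_m1.GZb
import Pool.Agent.W_b58c63_m1.GZc

/-!
# Zeros of the sieved L-functions: the logarithmic derivatives (helper68)
-/

set_option autoImplicit false

noncomputable section

open Finset MeasureTheory Complex

namespace Pool.Agent.M58

theorem GZd_open (a T : ℝ) : IsOpen {s : ℂ | |s.re - 1| < a ∧ |s.im| < T} := by
  have h1 : IsOpen {s : ℂ | |s.re - 1| < a} :=
    isOpen_lt ((Complex.continuous_re.sub continuous_const).abs) continuous_const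
  have h2 : IsOpen {s : ℂ | |s.im| < T} :=
    isOpen_lt (Complex.continuous_im.abs) continuous_const
  exact h1.inter h2

theorem GZd_open2 (a T : ℝ) : IsOpen {s : ℂ | a < s.re ∧ |s.im| < T} := by
  have h1 : IsOpen {s : ℂ | a < s.re} := isOpen_lt continuous_const Complex.continuous_re
  have h2 : IsOpen {s : ℂ | |s.im| < T} :=
    isOpen_lt (Complex.continuous_im.abs) continuous_const
  exact h1.inter h2

theorem GZd_remov (U : Set ℂ) (hU : IsOpen U) (F : ℂ → ℂ) (b : ℂ) (B : ℝ)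
    (hd : DifferentiableOn ℂ F (U \ {b})) (hb : ∀ s ∈ U, s ≠ b → ‖F s‖ ≤ B) :
    ∃ G : ℂ → ℂ, DifferentiableOn ℂ G U ∧ (∀ s ∈ U, ‖G s‖ ≤ B) ∧
      ∀ s ∈ U, s ≠ b → G s = F s := by
  classical
  by_cases hbU : b ∈ U
  · have h1 := Complex.differentiableOn_update_limUnder_of_bddAbove (hU.mem_nhds hbU) hd
      ⟨B, by
        rintro _ ⟨z, hz, rfl⟩
        exact hb z hz.1 hz.2⟩
    refine ⟨_, h1, ?_, fun s _ hsb => Function.update_of_ne hsb _ _⟩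
    intro s hs
    by_cases hsb : s = b
    · rw [hsb]
      have hc := (h1.differentiableAt (hU.mem_nhds hbU)).continuousAt.norm.tendsto.mono_left
        (nhdsWithin_le_nhds (s := {b}ᶜ))
      refine le_of_tendsto hc ?_
      filter_upwards [self_mem_nhdsWithin, nhdsWithin_le_nhds (hU.mem_nhds hbU)] with z hz hzU
      rw [Function.update_of_ne hz]
      exact hb z hzU hz
    · rw [Function.update_of_ne hsb]
      exact hb s hs hsb
  · refine ⟨F, hd.mono fun s hs => ⟨hs, fun h => hbU (h ▸ hs)⟩, fun s hs => hb s hs ?_,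
      fun _ _ _ => rfl⟩
    rintro rfl
    exact hbU hs

theorem GZd_Dz {q : ℕ} (hq : 1 ≤ q) (z : ℝ) (ψ : DirichletCharacter ℂ q) (s : ℂ)
    (hs : 1 < s.re) : Gz z ψ s ≠ 0 ∧ Dz z ψ s = -(deriv (Gz z ψ) s / Gz z ψ s) := by
  obtain ⟨-, h1, h2⟩ := G_exp z q hq ψ s hs
  refine ⟨h1, ?_⟩
  rw [← neg_div, h2, mul_div_cancel_left₀ _ h1]

theorem GZd_near (Y : ℝ) (s : ℂ) (h1 : 1 < s.re) (h2 : |s.im| < Y ^ 2) :
    ∀ᶠ z in nhds s, 1 < z.re ∧ |z.im| < Y ^ 2 :=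
  (GZd_open2 1 (Y ^ 2)).mem_nhds ⟨h1, h2⟩

theorem GZd_ext_D {c₀ C₀ Y d : ℝ} {q : ℕ} (hq : 1 ≤ q) {ψ : DirichletCharacter ℂ q} {g : ℂ → ℂ}
    (hc₀ : 0 < c₀) (hL : 0 < d * Real.log Y) (hE : Ext c₀ C₀ Y d ψ g) (hψ : ψ ≠ 1) (s : ℂ)
    (h1 : 1 < s.re) (h2 : |s.im| < Y ^ 2) : Dz (Y ^ d) ψ s = -(deriv g s / g s) := by
  have hlt : 1 - c₀ / (d * Real.log Y) < 1 := by
    have := div_pos hc₀ hL
    linarith
  have heq : g =ᶠ[nhds s] Gz (Y ^ d) ψ := by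
    filter_upwards [GZd_near Y s h1 h2] with z hz
    exact (hE.2.1 hψ z (hlt.trans hz.1) hz.2).2 hz.1
  rw [heq.deriv_eq, heq.eq_of_nhds]
  exact (GZd_Dz hq _ ψ s h1).2

theorem GZd_ext_D1 {c₀ C₀ Y d : ℝ} {q : ℕ} (hq : 1 ≤ q) {ψ : DirichletCharacter ℂ q} {g : ℂ → ℂ}
    (hc₀ : 0 < c₀) (hL : 0 < d * Real.log Y) (hE : Ext c₀ C₀ Y d ψ g) (hψ : ψ = 1) (s : ℂ)
    (h1 : 1 < s.re) (h2 : |s.im| < Y ^ 2) :
    Dz (Y ^ d) ψ s = 1 / (s - 1) + -(deriv g s / g s) := by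
  have hlt : 1 - c₀ / (d * Real.log Y) < 1 := by
    have := div_pos hc₀ hL
    linarith
  have hLc : ((d * Real.log Y : ℝ) : ℂ) ≠ 0 := Complex.ofReal_ne_zero.mpr hL.ne'
  have hs1 : ∀ z : ℂ, 1 < z.re → z - 1 ≠ 0 := by
    intro z hz h0
    rw [sub_eq_zero.mp h0, Complex.one_re] at hz
    exact lt_irrefl _ hz
  have heq : ∀ᶠ z in nhds s, g z = ((d * Real.log Y : ℝ) : ℂ) * (z - 1) * Gz (Y ^ d) ψ z := by
    filter_upwards [GZd_near Y s h1 h2] with z hz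
    exact (hE.2.2.1 hψ z (hlt.trans hz.1) hz.2).2 hz.1
  have hgd : DifferentiableAt ℂ g s :=
    hE.1.differentiableAt ((GZd_open2 _ _).mem_nhds ⟨hlt.trans h1, h2⟩)
  have hG : DifferentiableAt ℂ (Gz (Y ^ d) ψ) s := by
    have h3 : (Gz (Y ^ d) ψ) =ᶠ[nhds s] fun z => g z / (((d * Real.log Y : ℝ) : ℂ) * (z - 1)) := by
      filter_upwards [heq, GZd_near Y s h1 h2] with z hz hz1
      rw [hz, mul_div_cancel_left₀ _ (mul_ne_zero hLc (hs1 z hz1.1))]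
    refine DifferentiableAt.congr_of_eventuallyEq ?_ h3
    refine hgd.div ?_ (mul_ne_zero hLc (hs1 s h1))
    exact (differentiableAt_const _).mul (differentiableAt_id.sub_const 1)
  obtain ⟨hne, hD⟩ := GZd_Dz hq (Y ^ d) ψ s h1
  have hder : deriv g s = ((d * Real.log Y : ℝ) : ℂ) * Gz (Y ^ d) ψ s +
      ((d * Real.log Y : ℝ) : ℂ) * (s - 1) * deriv (Gz (Y ^ d) ψ) s := by
    have h3 : HasDerivAt (fun z => ((d * Real.log Y : ℝ) : ℂ) * (z - 1) * Gz (Y ^ d) ψ z)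
        (((d * Real.log Y : ℝ) : ℂ) * 1 * Gz (Y ^ d) ψ s +
          ((d * Real.log Y : ℝ) : ℂ) * (s - 1) * deriv (Gz (Y ^ d) ψ) s) s :=
      (((hasDerivAt_id s).sub_const 1).const_mul _).mul hG.hasDerivAt
    rw [Filter.EventuallyEq.deriv_eq heq, h3.deriv, mul_one]
  rw [hD, hder, heq.self_of_nhds]
  have h4 := hs1 s h1
  field_simp
  ring

theorem GZd_dd {c₀ C₀ Y d a T B : ℝ} {q : ℕ} {ψ : DirichletCharacter ℂ q} {g : ℂ → ℂ}
    (hE : Ext c₀ C₀ Y d ψ g) (ha : a ≤ c₀ / (d * Real.log Y)) (hT : T ≤ Y ^ 2)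
    (h : ∀ s : ℂ, |s.re - 1| < a → |s.im| < T → g s ≠ 0 ∧ ‖deriv g s / g s‖ ≤ B) :
    DifferentiableOn ℂ (fun s => -(deriv g s / g s)) {s | |s.re - 1| < a ∧ |s.im| < T} ∧
      ∀ s : ℂ, |s.re - 1| < a → |s.im| < T → ‖-(deriv g s / g s)‖ ≤ B := by
  have hsub : {s : ℂ | |s.re - 1| < a ∧ |s.im| < T} ⊆
      {s | 1 - c₀ / (d * Real.log Y) < s.re ∧ |s.im| < Y ^ 2} := by
    rintro s ⟨h1, h2⟩
    rw [abs_lt] at h1
    exact ⟨by linarith [h1.1], lt_of_lt_of_le h2 hT⟩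
  refine ⟨(((hE.1.deriv (GZd_open2 _ _)).mono hsub).div (hE.1.mono hsub) ?_).neg, ?_⟩
  · rintro s ⟨h1, h2⟩
    exact (h s h1 h2).1
  · intro s h1 h2
    rw [norm_neg]
    exact (h s h1 h2).2

/-- the exceptional case -/
theorem GZd_ddE {c₀ C₀ Y d a T B β : ℝ} {q : ℕ} {ψ : DirichletCharacter ℂ q} {g : ℂ → ℂ}
    (hE : Ext c₀ C₀ Y d ψ g) (ha : a ≤ c₀ / (d * Real.log Y)) (hT : T ≤ Y ^ 2)
    (h : ∀ s : ℂ, |s.re - 1| < a → |s.im| < T → s ≠ β →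
      g s ≠ 0 ∧ ‖deriv g s / g s - 1 / (s - β)‖ ≤ B) :
    ∃ G : ℂ → ℂ, DifferentiableOn ℂ G {s | |s.re - 1| < a ∧ |s.im| < T} ∧
      (∀ s : ℂ, |s.re - 1| < a → |s.im| < T → ‖G s‖ ≤ B) ∧
      ∀ s : ℂ, |s.re - 1| < a → |s.im| < T → s ≠ β →
        G s = -(deriv g s / g s - 1 / (s - β)) := by
  have hsub : {s : ℂ | |s.re - 1| < a ∧ |s.im| < T} \ {(β : ℂ)} ⊆
      {s | 1 - c₀ / (d * Real.log Y) < s.re ∧ |s.im| < Y ^ 2} := by
    rintro s ⟨⟨h1, h2⟩, -⟩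
    rw [abs_lt] at h1
    exact ⟨by linarith [h1.1], lt_of_lt_of_le h2 hT⟩
  have hd : DifferentiableOn ℂ (fun s : ℂ => -(deriv g s / g s - 1 / (s - (β : ℂ))))
      ({s : ℂ | |s.re - 1| < a ∧ |s.im| < T} \ {(β : ℂ)}) := by
    refine ((((hE.1.deriv (GZd_open2 _ _)).mono hsub).div (hE.1.mono hsub) ?_).sub ?_).neg
    · rintro s ⟨⟨h1, h2⟩, h3⟩
      exact (h s h1 h2 h3).1
    · refine (differentiableOn_const _).div (differentiableOn_id.sub_const _) ?_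
      rintro s ⟨-, h3⟩
      exact sub_ne_zero.mpr h3
  obtain ⟨G, hG1, hG2, hG3⟩ := GZd_remov _ (GZd_open a T) _ (β : ℂ) B hd (by
    rintro s ⟨h1, h2⟩ h3
    rw [norm_neg]
    exact (h s h1 h2 h3).2)
  exact ⟨G, hG1, fun s h1 h2 => hG2 s ⟨h1, h2⟩, fun s h1 h2 h3 => hG3 s ⟨h1, h2⟩ h3⟩

theorem GZd_mem {R : ℕ} {i : CC} (hi : i ∈ CR R) : 1 ≤ i.1 ∧ i.1 ≤ R ∧ i.2.IsPrimitive := by
  unfold CR at hi
  rw [Finset.mem_sigma, Finset.mem_Icc] at hi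
  refine ⟨hi.1.1, hi.1.2, ?_⟩
  have h2 := hi.2
  simp only [prim, Finset.mem_filter, Finset.mem_univ, true_and] at h2
  exact h2

theorem GZd_one {R : ℕ} {i : CC} (hi : i ∈ CR R) (h : i.2 = 1) : i = i0 := by
  obtain ⟨q, χ⟩ := i
  obtain ⟨h1, -, h3⟩ := GZd_mem hi
  have h : χ = 1 := h
  subst h
  have h4 : DirichletCharacter.conductor (1 : DirichletCharacter ℂ q) = q := h3
  have : NeZero q := ⟨by
    change 1 ≤ q at h1
    omega⟩
  rw [DirichletCharacter.conductor_one] at h4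
  subst h4
  rfl

theorem GZd_gt {R : ℕ} {i : CC} (hi : i ∈ CR R) (h : i ≠ i0) : 1 < i.1 := by
  obtain ⟨h1, -, -⟩ := GZd_mem hi
  by_contra hcon
  apply h
  apply GZd_one hi
  obtain ⟨q, χ⟩ := i
  have hq : q = 1 := by
    change 1 ≤ q at h1
    change ¬ 1 < q at hcon
    omega
  subst hq
  exact DirichletCharacter.level_one χ

theorem GZd_real {q : ℕ} (χ : DirichletCharacter ℂ q) (h : χ ^ 2 = 1) (n : ℕ) :
    (χ (n : ZMod q)).im = 0 := by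
  by_cases hu : IsUnit (n : ZMod q)
  · have h1 : (χ (n : ZMod q)) ^ 2 = 1 := by
      rw [← MulChar.pow_apply' χ two_ne_zero, h, MulChar.one_apply hu]
    have h2 : χ (n : ZMod q) = 1 ∨ χ (n : ZMod q) = -1 := by
      rw [pow_two] at h1
      exact mul_self_eq_one_iff.mp h1
    rcases h2 with h2 | h2 <;> rw [h2] <;> simp
  · rw [MulChar.map_nonunit χ hu, Complex.zero_im]

/-- **The logarithmic derivatives.** The constants `c`, `C` do not depend on `d`.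

Proof. `G_ext` for all characters modulo `q ≤ Y ^ (2 δ)`. Choose `c'` for `Z_unique`, `Z_real`, then `c₄ = c' / 8`, and `c` small.
For primitive `i`: if `i.2 ^ 2 ≠ 1` or `|im s| ≥ c₄ / L` use `Z_nonexc` (centres `1 + i im s`); for `i = i0` and `|im s| ≤ c₄ / L` use
`Z_pole`; `D_i = - G' / G`, which is `- g' / g + 1 / (s - 1)` for `i0`. For real `i ≠ i0` (`χ ^ 2 = 1` means that the values are
real; a primitive character `≠ i0` is not `1`): `Z_real`; at most one `i` has a zero (`Z_unique` with `prod_char`; `conj χ = χ`),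
this is `i1` (otherwise let `i1 = ⟨0, 1⟩`, `β = 1`), and for it `dd = - g' / g + 1 / (s - β)` with the removable singularity
removed. -/
theorem Zth : ∃ c C : ℝ, 0 < c ∧ c ≤ 1 ∧ 0 < C ∧ ∀ d : ℝ, 0 < d → d ≤ 1 → ∃ δ Y₀ : ℝ, 0 < δ ∧ δ < d ∧ 3 ≤ Y₀ ∧
    ∀ Y : ℝ, Y₀ ≤ Y → ∃ (i1 : CC) (β : ℝ), 1 / 2 ≤ β ∧ β ≤ 1 ∧
      (i1 ∈ CR ⌊Y ^ δ⌋₊ → 1 < i1.1 ∧ ∀ n : ℕ, (i1.2 (n : ZMod i1.1)).im = 0) ∧
      ∀ i ∈ CR ⌊Y ^ δ⌋₊, ∃ dd : ℂ → ℂ,
        DifferentiableOn ℂ dd {s | |s.re - 1| < c / (d * Real.log Y) ∧ |s.im| < Y ^ (3 / 2 : ℝ) + 2} ∧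
        ∀ s : ℂ, |s.re - 1| < c / (d * Real.log Y) → |s.im| < Y ^ (3 / 2 : ℝ) + 2 →
          ‖dd s‖ ≤ C * (d * Real.log Y) ∧ (1 < s.re → Dz (Y ^ d) i.2 s =
            (open Classical in if i = i0 then 1 / (s - 1) else 0) -
            (open Classical in if i = i1 then 1 / (s - β) else 0) + dd s) := by
  obtain ⟨c₀, C₀, hc₀, hc₀1, hC₀, hG⟩ := G_ext
  obtain ⟨cU, hcU, hcU4, hUn⟩ := Z_unique c₀ C₀ hc₀ hc₀1 hC₀
  obtain ⟨cR, hcR, hcR2, hRe⟩ := Z_real c₀ C₀ hc₀ hc₀1 hC₀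
  obtain ⟨c', hc'def⟩ : ∃ c' : ℝ, c' = min cU (cR / 2) := ⟨_, rfl⟩
  have hc'U : c' ≤ cU := by rw [hc'def]; exact min_le_left _ _
  have hc'R : c' ≤ cR / 2 := by rw [hc'def]; exact min_le_right _ _
  have hc' : 0 < c' := by rw [hc'def]; exact lt_min hcU (by linarith)
  obtain ⟨CR', hCR', hRe'⟩ := hRe c' hc' hc'R
  obtain ⟨cP, CP, hcP, hcP2, hCP, hPo⟩ := Z_pole c₀ C₀ hc₀ hc₀1 hC₀
  obtain ⟨c₄, hc₄def⟩ : ∃ c₄ : ℝ, c₄ = min (c' / 8) (cP / 2) := ⟨_, rfl⟩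
  have hc₄' : c₄ ≤ c' / 8 := by rw [hc₄def]; exact min_le_left _ _
  have hc₄P : c₄ ≤ cP / 2 := by rw [hc₄def]; exact min_le_right _ _
  have hc₄ : 0 < c₄ := by rw [hc₄def]; exact lt_min (by linarith) (by linarith)
  obtain ⟨cN, CN, hcN, hcN2, hCN, hNo⟩ := Z_nonexc c₀ C₀ c₄ hc₀ hc₀1 hC₀ hc₄ (by linarith)
  obtain ⟨c, hcdef⟩ : ∃ c : ℝ, c = min cN (min (cP / 2) (c' / 8)) := ⟨_, rfl⟩
  have hcN' : c ≤ cN := by rw [hcdef]; exact min_le_left _ _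
  have hcP' : c ≤ cP / 2 := by rw [hcdef]; exact (min_le_right _ _).trans (min_le_left _ _)
  have hcc' : c ≤ c' / 8 := by rw [hcdef]; exact (min_le_right _ _).trans (min_le_right _ _)
  have hc : 0 < c := by
    rw [hcdef]
    exact lt_min hcN (lt_min (by linarith) (by linarith))
  have hc4' : 0 < 1 / c₄ := by positivity
  refine ⟨c, CR' + CP + CN + 1 / c₄, hc, by linarith, by linarith, ?_⟩
  intro d hd hd1
  obtain ⟨δ0, Y00, hδ0, hδd, hY00, hExt⟩ := hG d hd hd1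
  refine ⟨δ0 / 2, max (max Y00 (Real.exp (1 / d))) 100, by linarith, by linarith,
    hY00.trans ((le_max_left _ _).trans (le_max_left _ _)), ?_⟩
  intro Y hY
  have hYY : Y00 ≤ Y := ((le_max_left _ _).trans (le_max_left _ _)).trans hY
  have hYe : Real.exp (1 / d) ≤ Y := ((le_max_right _ _).trans (le_max_left _ _)).trans hY
  have hY100 : 100 ≤ Y := (le_max_right _ _).trans hY
  have hY0 : 0 < Y := by linarith
  have hL : 1 ≤ d * Real.log Y := by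
    have h1 : 1 / d ≤ Real.log Y := (Real.le_log_iff_exp_le hY0).mpr hYe
    rw [div_le_iff₀ hd] at h1
    linarith
  have hL0 : 0 < d * Real.log Y := by linarith
  have hT : Y ^ (3 / 2 : ℝ) + 2 ≤ Y ^ 2 / 2 - 1 := by
    have h1 : Y ^ 2 = Y ^ (3 / 2 : ℝ) * Y ^ (1 / 2 : ℝ) := by
      rw [← Real.rpow_add hY0, ← Real.rpow_natCast]
      norm_num
    have h2 : (10 : ℝ) ≤ Y ^ (1 / 2 : ℝ) := by
      have h3 : (10 : ℝ) = (100 : ℝ) ^ (1 / 2 : ℝ) := by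
        rw [show (100 : ℝ) = 10 ^ (2 : ℝ) by norm_num, ← Real.rpow_mul (by norm_num)]
        norm_num
      rw [h3]
      exact Real.rpow_le_rpow (by norm_num) hY100 (by norm_num)
    have h4 : (1 : ℝ) ≤ Y ^ (3 / 2 : ℝ) := Real.one_le_rpow (by linarith) (by norm_num)
    have h5 : Y ^ (3 / 2 : ℝ) * 10 ≤ Y ^ 2 := by
      rw [h1]
      exact mul_le_mul_of_nonneg_left h2 (by linarith)
    linarith
  have hT2 : Y ^ (3 / 2 : ℝ) + 2 ≤ Y ^ 2 := by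
    have : 0 ≤ Y ^ 2 := by positivity
    linarith
  have hδY : Y ^ (δ0 / 2) * Y ^ (δ0 / 2) = Y ^ δ0 := by
    rw [← Real.rpow_add hY0]
    congr 1
    ring
  have hδ1 : 1 ≤ Y ^ (δ0 / 2) := Real.one_le_rpow (by linarith) (by linarith)
  have hδ2 : Y ^ (δ0 / 2) ≤ Y ^ δ0 := Real.rpow_le_rpow_of_exponent_le (by linarith) (by linarith)
  have hExt' : ∀ (q : ℕ) (ψ : DirichletCharacter ℂ q), 1 ≤ q → (q : ℝ) ≤ Y ^ δ0 →
      ∃ g : ℂ → ℂ, Ext c₀ C₀ Y d ψ g := fun q ψ h1 h2 => hExt Y q ψ hYY h1 h2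
  obtain ⟨g1, hg1⟩ := hExt' 1 (1 : DirichletCharacter ℂ 1) le_rfl (by
    rw [Nat.cast_one]
    linarith)
  have hmem : ∀ i ∈ CR ⌊Y ^ (δ0 / 2)⌋₊, 1 ≤ i.1 ∧ (i.1 : ℝ) ≤ Y ^ (δ0 / 2) := by
    intro i hi
    obtain ⟨h1, h2, -⟩ := GZd_mem hi
    exact ⟨h1, (Nat.cast_le.mpr h2).trans (Nat.floor_le (by linarith))⟩
  have hgex : ∀ i : CC, ∃ g : ℂ → ℂ, i ∈ CR ⌊Y ^ (δ0 / 2)⌋₊ → Ext c₀ C₀ Y d i.2 g := by
    intro i
    by_cases hi : i ∈ CR ⌊Y ^ (δ0 / 2)⌋₊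
    · obtain ⟨g, hg⟩ := hExt' i.1 i.2 (hmem i hi).1 ((hmem i hi).2.trans hδ2)
      exact ⟨g, fun _ => hg⟩
    · exact ⟨0, fun h => absurd h hi⟩
  choose gg hgg using hgex
  obtain ⟨E, hEdef⟩ : ∃ E : CC → Prop, ∀ i, E i ↔ (i ∈ CR ⌊Y ^ (δ0 / 2)⌋₊ ∧ i ≠ i0 ∧ i.2 ^ 2 = 1 ∧
      ∃ β : ℝ, 1 - c' / (d * Real.log Y) ≤ β ∧ β ≤ 1 ∧ gg i β = 0) := ⟨_, fun _ => Iff.rfl⟩
  have hne1 : ∀ i ∈ CR ⌊Y ^ (δ0 / 2)⌋₊, i ≠ i0 → i.2 ≠ 1 := fun i hi h0 h1 =>
    h0 (GZd_one hi h1)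
  have hcUL : c' / (d * Real.log Y) ≤ cU / (d * Real.log Y) := div_le_div_of_nonneg_right hc'U hL0.le
  have huniq : ∀ i j, E i → E j → i = j := by
    intro i j hi hj
    rw [hEdef] at hi hj
    obtain ⟨hi1, hi2, hi3, β₁, hi4, hi5, hi6⟩ := hi
    obtain ⟨hj1, hj2, hj3, β₂, hj4, hj5, hj6⟩ := hj
    by_contra hij
    obtain ⟨ψ, hψ, hψ1⟩ := prod_char _ i j hi1 hj1
    have hψn : ψ ≠ 1 := fun h => hij (hψ1 h)
    have hri := GZd_real i.2 hi3
    have hrj := GZd_real j.2 hj3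
    have hψ' : ∀ n : ℕ, ψ (n : ZMod (i.1 * j.1)) =
        i.2 (n : ZMod i.1) * j.2 (n : ZMod j.1) := by
      intro n
      rw [hψ n, Complex.conj_eq_iff_im.mpr (hrj n)]
    have hq1 : 1 ≤ i.1 * j.1 := Nat.one_le_iff_ne_zero.mpr
      (mul_ne_zero (by have := (hmem i hi1).1; omega) (by have := (hmem j hj1).1; omega))
    obtain ⟨g, hg⟩ := hExt' (i.1 * j.1) ψ hq1 (by
      rw [← hδY]
      push_cast
      exact mul_le_mul (hmem i hi1).2 (hmem j hj1).2 (Nat.cast_nonneg _) (by linarith))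
    exact hUn Y d i.1 j.1 (i.1 * j.1) i.2 j.2 ψ (gg i) (gg j) g g1 β₁ β₂ (by linarith) hd hd1
      (hmem i hi1).1 (hmem j hj1).1 hq1 hL (hne1 i hi1 hi2) (hne1 j hj1 hj2) hψn hri hrj hψ' hg1
      (hgg i hi1) (hgg j hj1) hg (by linarith) hi5 hi6 (by linarith) hj5 hj6
  have hexi1 : ∃ (i1 : CC) (β : ℝ), 1 / 2 ≤ β ∧ β ≤ 1 ∧
      (i1 ∈ CR ⌊Y ^ (δ0 / 2)⌋₊ → E i1 ∧ 1 - c' / (d * Real.log Y) ≤ β ∧ gg i1 β = 0) ∧
      ∀ i, E i → i = i1 := by
    by_cases hE : ∃ i, E i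
    · obtain ⟨i1, hi1⟩ := hE
      obtain ⟨-, -, -, β, hb1, hb2, hb3⟩ := (hEdef i1).mp hi1
      refine ⟨i1, β, ?_, hb2, fun _ => ⟨hi1, hb1, hb3⟩, fun i hi => huniq i i1 hi hi1⟩
      have h1 : c' / (d * Real.log Y) ≤ c' := div_le_self hc'.le hL
      linarith
    · refine ⟨⟨0, 1⟩, 1, by norm_num, le_rfl, fun h => ?_, fun i hi => absurd ⟨i, hi⟩ hE⟩
      have h1 : 1 ≤ 0 := (GZd_mem h).1
      omega
  obtain ⟨i1, β, hβ1, hβ2, hi1, hall⟩ := hexi1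
  refine ⟨i1, β, hβ1, hβ2, ?_, ?_⟩
  · intro h
    obtain ⟨h1, h2, h3, -⟩ := (hEdef i1).mp (hi1 h).1
    exact ⟨GZd_gt h1 h2, GZd_real i1.2 h3⟩
  intro i hi
  have hgi := hgg i hi
  have hcL : c / (d * Real.log Y) ≤ c₀ / (d * Real.log Y) :=
    div_le_div_of_nonneg_right (by linarith) hL0.le
  have hnorm : ∀ s : ℂ, |s.re - 1| < c / (d * Real.log Y) → |s.im| < c₄ / (d * Real.log Y) →
      ‖s - 1‖ ≤ (c + c₄) / (d * Real.log Y) := by
    intro s h1 h2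
    refine (Complex.norm_le_abs_re_add_abs_im _).trans ?_
    rw [Complex.sub_re, Complex.sub_im, Complex.one_re, Complex.one_im, sub_zero, add_div]
    linarith
  -- away from the real axis, respectively for complex characters
  have hnon : ∀ s : ℂ, |s.re - 1| < c / (d * Real.log Y) → |s.im| < Y ^ (3 / 2 : ℝ) + 2 →
      (i.2 ^ 2 ≠ 1 ∨ c₄ / (d * Real.log Y) ≤ |s.im|) →
      gg i s ≠ 0 ∧ ‖deriv (gg i) s / gg i s‖ ≤ CN * (d * Real.log Y) := by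
    intro s h1 h2 h3
    obtain ⟨g2, hg2⟩ := hExt' i.1 (i.2 ^ 2) (hmem i hi).1 ((hmem i hi).2.trans hδ2)
    refine hNo Y d i.1 i.2 (gg i) g1 g2 s.im (by linarith) hd hd1 (hmem i hi).1 hL hg1 hgi hg2
      (by linarith) h3 s ?_
    have h4 : s - (1 + (s.im : ℂ) * I) = ((s.re - 1 : ℝ) : ℂ) := by
      apply Complex.ext <;> simp
    rw [h4, Complex.norm_real, Real.norm_eq_abs]
    exact h1.le.trans (div_le_div_of_nonneg_right hcN' hL0.le)
  by_cases hi0 : i = i0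
  · -- the pole
    have hi01 : i ≠ i1 := by
      rintro rfl
      exact ((hEdef i).mp (hi1 hi).1).2.1 hi0
    have hone : i.2 = 1 := by
      rw [hi0]
      rfl
    obtain ⟨h1, h2⟩ := GZd_dd (a := c / (d * Real.log Y)) (T := Y ^ (3 / 2 : ℝ) + 2)
      (B := (CR' + CP + CN + 1 / c₄) * (d * Real.log Y)) hgi hcL hT2 (by
      intro s h1 h2
      rcases lt_or_ge |s.im| (c₄ / (d * Real.log Y)) with h3 | h3
      · obtain ⟨h4, h5⟩ := hPo Y d i.1 i.2 (gg i) (by linarith) hd hd1 hL hone hgi s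
          ((hnorm s h1 h3).trans (div_le_div_of_nonneg_right (by linarith) hL0.le))
        exact ⟨h4, h5.trans (mul_le_mul_of_nonneg_right (by linarith) hL0.le)⟩
      · obtain ⟨h4, h5⟩ := hnon s h1 h2 (Or.inr h3)
        exact ⟨h4, h5.trans (mul_le_mul_of_nonneg_right (by linarith) hL0.le)⟩)
    refine ⟨_, h1, fun s h3 h4 => ⟨h2 s h3 h4, fun h5 => ?_⟩⟩
    rw [if_pos hi0, if_neg hi01, sub_zero]
    exact GZd_ext_D1 (hmem i hi).1 hc₀ hL0 hgi hone s h5 (h4.trans_le hT2)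
  have hne : i.2 ≠ 1 := hne1 i hi hi0
  by_cases hreal : i.2 ^ 2 = 1
  · have hri := GZd_real i.2 hreal
    have hcase := hRe' Y d i.1 i.2 (gg i) g1 (by linarith) hd hd1 (hmem i hi).1 hL hne hri hg1 hgi
    by_cases hii : i = i1
    · -- the exceptional character
      obtain ⟨hEi, hb1, hb2⟩ := hi1 (hii ▸ hi)
      rw [← hii] at hb2
      rcases hcase with ⟨h1, -⟩ | ⟨β', hb3, hb4, hb5, h1⟩
      · exfalso
        refine h1 β ?_ hb2
        rw [← Complex.ofReal_one, ← Complex.ofReal_sub, Complex.norm_real, Real.norm_eq_abs,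
          abs_sub_comm, abs_of_nonneg (by linarith)]
        linarith
      have hββ : (β : ℂ) = β' := by
        by_contra hcon
        refine (h1 β ?_ hcon).1 hb2
        rw [← Complex.ofReal_one, ← Complex.ofReal_sub, Complex.norm_real, Real.norm_eq_abs,
          abs_sub_comm, abs_of_nonneg (by linarith)]
        have h2 : c' / (d * Real.log Y) ≤ cR / (d * Real.log Y) :=
          div_le_div_of_nonneg_right (by linarith) hL0.le
        linarith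
      rw [← hββ] at h1
      obtain ⟨G, hG1, hG2, hG3⟩ := GZd_ddE (β := β) (a := c / (d * Real.log Y))
        (T := Y ^ (3 / 2 : ℝ) + 2) (B := (CR' + CP + CN + 1 / c₄) * (d * Real.log Y)) hgi hcL hT2 (by
        intro s h2 h3 hsb
        rcases lt_or_ge |s.im| (c₄ / (d * Real.log Y)) with h4 | h4
        · have h5 := hnorm s h2 h4
          obtain ⟨h6, h7⟩ := h1 s (h5.trans (div_le_div_of_nonneg_right (by linarith) hL0.le)) hsb
          refine ⟨h6, (h7 ?_).trans (mul_le_mul_of_nonneg_right (by linarith) hL0.le)⟩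
          exact h5.trans (div_le_div_of_nonneg_right (by linarith) hL0.le)
        · obtain ⟨h6, h7⟩ := hnon s h2 h3 (Or.inr h4)
          refine ⟨h6, (norm_sub_le _ _).trans ?_⟩
          have h8 : c₄ / (d * Real.log Y) ≤ ‖s - β‖ := by
            refine h4.trans ?_
            have h9 := Complex.abs_im_le_norm (s - β)
            rwa [Complex.sub_im, Complex.ofReal_im, sub_zero] at h9
          have h9 : 0 < c₄ / (d * Real.log Y) := by positivity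
          have h10 : ‖1 / (s - β)‖ ≤ 1 / c₄ * (d * Real.log Y) := by
            rw [norm_div, norm_one]
            refine (one_div_le_one_div_of_le h9 h8).trans (le_of_eq ?_)
            rw [one_div_div]
            ring
          have h11 : CN * (d * Real.log Y) + 1 / c₄ * (d * Real.log Y) ≤
              (CR' + CP + CN + 1 / c₄) * (d * Real.log Y) := by
            rw [← add_mul]
            exact mul_le_mul_of_nonneg_right (by linarith) hL0.le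
          linarith)
      refine ⟨G, hG1, fun s h3 h4 => ⟨hG2 s h3 h4, fun h5 => ?_⟩⟩
      have hsb : s ≠ (β : ℂ) := by
        rintro rfl
        rw [Complex.ofReal_re] at h5
        linarith
      rw [if_neg hi0, if_pos hii, hG3 s h3 h4 hsb,
        GZd_ext_D (hmem i hi).1 hc₀ hL0 hgi hne s h5 (h4.trans_le hT2)]
      ring
    · -- other real characters
      rcases hcase with ⟨h0, h1⟩ | ⟨β', hb3, hb4, hb5, -⟩
      · obtain ⟨h2, h3⟩ := GZd_dd (a := c / (d * Real.log Y)) (T := Y ^ (3 / 2 : ℝ) + 2)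
          (B := (CR' + CP + CN + 1 / c₄) * (d * Real.log Y)) hgi hcL hT2 (by
          intro s h2 h3
          rcases lt_or_ge |s.im| (c₄ / (d * Real.log Y)) with h4 | h4
          · have h5 := hnorm s h2 h4
            refine ⟨h0 s (h5.trans (div_le_div_of_nonneg_right (by linarith) hL0.le)),
              (h1 s (h5.trans (div_le_div_of_nonneg_right (by linarith) hL0.le))).trans
                (mul_le_mul_of_nonneg_right (by linarith) hL0.le)⟩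
          · obtain ⟨h5, h6⟩ := hnon s h2 h3 (Or.inr h4)
            exact ⟨h5, h6.trans (mul_le_mul_of_nonneg_right (by linarith) hL0.le)⟩)
        refine ⟨_, h2, fun s h4 h5 => ⟨h3 s h4 h5, fun h6 => ?_⟩⟩
        rw [if_neg hi0, if_neg hii, sub_zero, zero_add]
        exact GZd_ext_D (hmem i hi).1 hc₀ hL0 hgi hne s h6 (h5.trans_le hT2)
      · exfalso
        exact hii (hall i ((hEdef i).mpr ⟨hi, hi0, hreal, β', hb3, hb4, hb5⟩))
  · -- complex characters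
    have hii : i ≠ i1 := by
      rintro rfl
      exact hreal ((hEdef i).mp (hi1 hi).1).2.2.1
    obtain ⟨h2, h3⟩ := GZd_dd (a := c / (d * Real.log Y)) (T := Y ^ (3 / 2 : ℝ) + 2)
      (B := (CR' + CP + CN + 1 / c₄) * (d * Real.log Y)) hgi hcL hT2 (by
      intro s h2 h3
      obtain ⟨h5, h6⟩ := hnon s h2 h3 (Or.inl hreal)
      exact ⟨h5, h6.trans (mul_le_mul_of_nonneg_right (by linarith) hL0.le)⟩)
    refine ⟨_, h2, fun s h4 h5 => ⟨h3 s h4 h5, fun h6 => ?_⟩⟩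
    rw [if_neg hi0, if_neg hii, sub_zero, zero_add]
    exact GZd_ext_D (hmem i hi).1 hc₀ hL0 hgi hne s h6 (h5.trans_le hT2)

end Pool.Agent.M58
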