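import Pool.Agent.W_b58c63_m1.SSmB
import Pool.Agent.W_b58c63_m1.STe
import Pool.Agent.W_b58c63_m1.DHm

/-!
# Families of primitive characters and of measurable sets (helper68)
-/

set_option autoImplicit false

noncomputable section

open Finset MeasureTheory

namespace Pool.Agent.M58

/-- Characters of arbitrary moduli. -/
abbrev CC : Type := Σ r : ℕ, DirichletCharacter ℂ r

/-- The primitive characters of conductor `≤ R`. -/
def CR (R : ℕ) : Finset CC := (Icc 1 R).sigma fun r => prim r

/-- The trivial character. -/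
def i0 : CC := ⟨1, 1⟩

theorem i0_mem (R : ℕ) (hR : 1 ≤ R) : i0 ∈ CR R := by
  classical
  unfold CR i0
  rw [Finset.mem_sigma, Finset.mem_Icc]
  refine ⟨⟨le_rfl, hR⟩, ?_⟩
  show (1 : DirichletCharacter ℂ 1) ∈ prim 1
  unfold Pool.Agent.Wb58c63.prim
  rw [Finset.mem_filter]
  exact ⟨Finset.mem_univ _, DirichletCharacter.isPrimitive_one_level_one⟩

theorem card_CR_le (R : ℕ) : ((CR R).card : ℝ) ≤ (R : ℝ) ^ 2 := by
  classical
  have h1 : ∀ r ∈ Icc 1 R, (prim r).card ≤ R := by
    intro r hr
    rw [Finset.mem_Icc] at hr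
    have : NeZero r := ⟨by omega⟩
    have h2 : (prim r).card ≤ Fintype.card (DirichletCharacter ℂ r) := Finset.card_le_univ _
    have h3 : Fintype.card (DirichletCharacter ℂ r) = r.totient := by
      rw [← Nat.card_eq_fintype_card]
      exact DirichletCharacter.card_eq_totient_of_hasEnoughRootsOfUnity ℂ r
    have h4 := Nat.totient_le r
    omega
  have h2 : (CR R).card ≤ R * R := by
    unfold CR
    rw [Finset.card_sigma]
    refine (Finset.sum_le_sum h1).trans ?_
    rw [Finset.sum_const, Nat.card_Icc, smul_eq_mul, Nat.add_sub_cancel]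
  have h3 : ((CR R).card : ℝ) ≤ ((R * R : ℕ) : ℝ) := by exact_mod_cast h2
  rw [pow_two]
  push_cast at h3
  exact h3

/-- A family of bounded measurable sets of small total measure. -/
def Fam (R : ℕ) (T V : ℝ) (E : CC → Set ℝ) : Prop :=
  (∀ i ∈ CR R, MeasurableSet (E i) ∧ E i ⊆ Set.Icc (-T) T) ∧
    ∑ i ∈ CR R, (volume (E i)).toReal ≤ V

/-- The product of a primitive character and of the conjugate of a primitive character is a character modulo the
product of the moduli, which is trivial only if the characters are the same.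

Proof. `ψ = changeLevel χ * changeLevel χ'⁻¹`. If `ψ = 1` then `χ` and `χ'` induce the same character modulo `r r'`, so they
have the same conductor and are equal (`DirichletCharacter.conductor`, `changeLevel` is injective). -/
theorem prod_char (R : ℕ) (i j : CC) (hi : i ∈ CR R) (hj : j ∈ CR R) :
    ∃ ψ : DirichletCharacter ℂ (i.1 * j.1),
      (∀ n : ℕ, ψ (n : ZMod (i.1 * j.1)) =
        i.2 (n : ZMod i.1) * (starRingEnd ℂ) (j.2 (n : ZMod j.1))) ∧ (ψ = 1 → i = j) := by
  classical
  obtain ⟨r, χ⟩ := i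
  obtain ⟨s, χ'⟩ := j
  unfold CR at hi hj
  rw [Finset.mem_sigma, Finset.mem_Icc] at hi hj
  obtain ⟨⟨hr1, hr2⟩, hχ⟩ := hi
  obtain ⟨⟨hs1, hs2⟩, hχ'⟩ := hj
  simp only at hr1 hr2 hs1 hs2 hχ hχ' ⊢
  have hr0 : NeZero r := ⟨by omega⟩
  have hs0 : NeZero s := ⟨by omega⟩
  have hrs0 : NeZero (r * s) := ⟨Nat.mul_ne_zero (by omega) (by omega)⟩
  unfold Pool.Agent.Wb58c63.prim at hχ hχ'
  rw [Finset.mem_filter] at hχ hχ'
  refine ⟨DirichletCharacter.changeLevel (dvd_mul_right r s) χ *
    DirichletCharacter.changeLevel (dvd_mul_left s r) χ'⁻¹, ?_, ?_⟩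
  · intro n
    have hstar : (starRingEnd ℂ) (χ' (n : ZMod s)) = χ'⁻¹ (n : ZMod s) :=
      MulChar.star_apply' χ' (n : ZMod s)
    rw [hstar]
    by_cases h : Nat.Coprime n (r * s)
    · have hi : IsCoprime (n : ℤ) ((r * s : ℕ) : ℤ) := Nat.isCoprime_iff_coprime.mpr h
      rw [MulChar.mul_apply]
      have e1 := DirichletCharacter.changeLevel_eq_cast_of_dvd' (χ := χ) (dvd_mul_right r s) hi
      have e2 := DirichletCharacter.changeLevel_eq_cast_of_dvd' (χ := χ'⁻¹) (dvd_mul_left s r) hi
      simp only [Int.cast_natCast] at e1 e2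
      rw [e1, e2]
    · rw [MulChar.map_nonunit _ (by rwa [ZMod.isUnit_iff_coprime])]
      rw [Nat.coprime_mul_iff_right, not_and_or] at h
      rcases h with h | h
      · rw [χ.map_nonunit (by rwa [ZMod.isUnit_iff_coprime]), zero_mul]
      · rw [(χ'⁻¹).map_nonunit (by rwa [ZMod.isUnit_iff_coprime]), mul_zero]
  · intro h
    rw [map_inv, mul_inv_eq_one] at h
    have hc1 := DirichletCharacter.conductor_changeLevel χ (dvd_mul_right r s)
    have hc2 := DirichletCharacter.conductor_changeLevel χ' (dvd_mul_left s r)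
    rw [h] at hc1
    have hp1 := (DirichletCharacter.isPrimitive_def χ).1 hχ.2
    have hp2 := (DirichletCharacter.isPrimitive_def χ').1 hχ'.2
    have hrs : r = s := by
      rw [← hp1, ← hc1, hc2, hp2]
    subst hrs
    have h2 := DirichletCharacter.changeLevel_injective (dvd_mul_right r r) h
    rw [h2]

end Pool.Agent.M58
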