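import Pool.Agent.W_b58c63_m1.HWm

/-!
# The kernel (helper68)
-/

set_option autoImplicit false

noncomputable section

open Finset MeasureTheory

namespace Pool.Agent.M58

theorem HKer_phi (r : ℕ) (hr : 1 ≤ r) :
    ((r * r).totient / (r * r : ℕ) : ℝ) = (r.totient / r : ℝ) := by
  have h1 : 1 ≤ r * r := Nat.mul_pos hr hr
  have h2 : (r * r).primeFactors = r.primeFactors := by
    rw [Nat.primeFactors_mul (by omega) (by omega), Finset.union_self]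
  rw [SSmB_phi (r * r) h1, SSmB_phi r hr, h2]

theorem HKer_prod (z : ℝ) (r : ℕ) {S : Finset ℕ} (hS : S ∈ (PI 0 z).powerset) :
    ∏ p ∈ S, (if p ∣ r * r then 0 else 1 / (p : ℝ)) = ∏ p ∈ S, (if p ∣ r then 0 else 1 / (p : ℝ)) := by
  refine Finset.prod_congr rfl fun p hp => ?_
  have hpp := (mem_PI.1 (Finset.mem_powerset.1 hS hp)).1
  have h1 : (p ∣ r * r) = (p ∣ r) := by
    rw [hpp.dvd_mul, or_self]
  simp only [h1]

theorem HKer_Mp (z : ℝ) (b r : ℕ) (hr : 1 ≤ r) : Mp z b (r * r) = Mp z b r := by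
  unfold Mp
  rw [HKer_phi r hr, Finset.sum_congr rfl fun S hS => by rw [HKer_prod z r hS]]

theorem HKer_Mm (z : ℝ) (b r : ℕ) (hr : 1 ≤ r) : Mm z b (r * r) = Mm z b r := by
  unfold Mm
  rw [HKer_phi r hr, Finset.sum_congr rfl fun S hS => by rw [HKer_prod z r hS]]

/-- numbers -/
theorem HKer_num (b κ₀ C₀ θ : ℝ) (hb : 0 < b) (hκ₀ : 0 < κ₀) (hC₀ : 0 < C₀) (hθ : 0 < θ) :
    ∃ Y₀ : ℝ, 3 ≤ Y₀ ∧ ∀ Y : ℝ, Y₀ ≤ Y → 2 ≤ Y ^ θ ∧ 1 ≤ b * Real.log Y / 4 ∧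
      C₀ * (1 + 2 / (b * Real.log Y / 4)) * Real.exp (-κ₀ * (b * Real.log Y / 4)) ≤
        1 / 2 * Y ^ (-(κ₀ * b / 8)) ∧
      Y ^ (b / 8) = Real.exp (b * Real.log Y / 4 / 2) ∧
      Y ^ (κ₀ * b / 8) * Y ^ (κ₀ * b / 8) = Real.exp (κ₀ * (b * Real.log Y / 4)) ∧
      2 * Y ^ 2 ≤ Real.exp (12 / b * (b * Real.log Y / 4)) := by
  have hκ : 0 < κ₀ * b / 8 := by positivity
  refine ⟨max 3 (max ((2 : ℝ) ^ (1 / θ)) (max (Real.exp (4 / b)) ((6 * C₀) ^ (1 / (κ₀ * b / 8))))),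
    le_max_left _ _, fun Y hY => ?_⟩
  have hY3 : 3 ≤ Y := (le_max_left _ _).trans hY
  have hY0 : 0 < Y := by linarith
  have h1 := (le_max_right _ _).trans hY
  have hYθ : (2 : ℝ) ^ (1 / θ) ≤ Y := (le_max_left _ _).trans h1
  have h2 := (le_max_right _ _).trans h1
  have hYe : Real.exp (4 / b) ≤ Y := (le_max_left _ _).trans h2
  have hYC : (6 * C₀) ^ (1 / (κ₀ * b / 8)) ≤ Y := (le_max_right _ _).trans h2
  have hL : 4 / b ≤ Real.log Y := (Real.le_log_iff_exp_le hY0).2 hYe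
  have hA : 1 ≤ b * Real.log Y / 4 := by
    rw [div_le_iff₀ hb] at hL
    linarith
  have hpow : ∀ x : ℝ, Y ^ x = Real.exp (Real.log Y * x) := fun x => Real.rpow_def_of_pos hY0 x
  refine ⟨?_, hA, ?_, ?_, ?_, ?_⟩
  · have h3 : ((2 : ℝ) ^ (1 / θ)) ^ θ = 2 := by
      rw [← Real.rpow_mul (by norm_num), one_div, inv_mul_cancel₀ hθ.ne', Real.rpow_one]
    rw [← h3]
    exact Real.rpow_le_rpow (by positivity) hYθ hθ.le
  · have h3 : ((6 * C₀) ^ (1 / (κ₀ * b / 8))) ^ (κ₀ * b / 8) = 6 * C₀ := by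
      rw [← Real.rpow_mul (by positivity), one_div, inv_mul_cancel₀ hκ.ne', Real.rpow_one]
    have h4 : 6 * C₀ ≤ Y ^ (κ₀ * b / 8) := by
      rw [← h3]
      exact Real.rpow_le_rpow (by positivity) hYC hκ.le
    have h5 : Real.exp (-κ₀ * (b * Real.log Y / 4)) =
        Y ^ (-(κ₀ * b / 8)) * Y ^ (-(κ₀ * b / 8)) := by
      rw [hpow, ← Real.exp_add]
      congr 1
      ring
    have h6 : Y ^ (κ₀ * b / 8) * Y ^ (-(κ₀ * b / 8)) = 1 := by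
      rw [← Real.rpow_add hY0, add_neg_cancel, Real.rpow_zero]
    have h7 : 0 < Y ^ (-(κ₀ * b / 8)) := Real.rpow_pos_of_pos hY0 _
    have h8 : 2 / (b * Real.log Y / 4) ≤ 2 := by
      rw [div_le_iff₀ (by linarith)]
      linarith
    have h9 : 6 * C₀ * Y ^ (-(κ₀ * b / 8)) ≤ 1 := by
      calc 6 * C₀ * Y ^ (-(κ₀ * b / 8)) ≤ Y ^ (κ₀ * b / 8) * Y ^ (-(κ₀ * b / 8)) :=
            mul_le_mul_of_nonneg_right h4 h7.le
        _ = 1 := h6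
    rw [h5]
    calc C₀ * (1 + 2 / (b * Real.log Y / 4)) * (Y ^ (-(κ₀ * b / 8)) * Y ^ (-(κ₀ * b / 8)))
        ≤ C₀ * 3 * (Y ^ (-(κ₀ * b / 8)) * Y ^ (-(κ₀ * b / 8))) := by
          refine mul_le_mul_of_nonneg_right (mul_le_mul_of_nonneg_left ?_ hC₀.le) (by positivity)
          linarith
      _ = 1 / 2 * (6 * C₀ * Y ^ (-(κ₀ * b / 8))) * Y ^ (-(κ₀ * b / 8)) := by ring
      _ ≤ 1 / 2 * 1 * Y ^ (-(κ₀ * b / 8)) := by
          refine mul_le_mul_of_nonneg_right ?_ h7.le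
          linarith
      _ = _ := by ring
  · rw [hpow]
    congr 1
    ring
  · rw [hpow, ← Real.exp_add]
    congr 1
    ring
  · have h3 : 12 / b * (b * Real.log Y / 4) = (3 : ℕ) * Real.log Y := by
      push_cast
      field_simp
      ring
    rw [h3, Real.exp_nat_mul, Real.exp_log hY0]
    nlinarith [sq_nonneg Y, mul_nonneg (sq_nonneg Y) (show (0 : ℝ) ≤ Y - 2 by linarith)]

/-- **The kernel.** Let `ν` be `tp'` or `tp' - tm'`.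

Proof. `prod_char`, `sieve_smooth` (`h = Wm A m`, bounded by `1`, Lipschitz constant `2 / A`) with `B = 12 / b`, where
`A = b log Y / 4`, `(m + 1) A ≤ log N`. For `i ≠ j` the kernel is `≤ Y ^ (- κ)`; for `i = j` it is
`≤ |M| ‖osc (Wm A m) u‖ + Y ^ (- κ)` (`Mp_bounds`). The condition on `z` is
`z ^ (4 bb + 5) ≤ exp (A / 2) = Y ^ (b / 8)`. -/
theorem kernel (b : ℝ) (hb : 0 < b) (hb1 : b ≤ 1) : ∃ κ δ : ℝ, 0 < κ ∧ 0 < δ ∧ ∀ θ : ℝ, 0 < θ →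
    ∃ Y₀ : ℝ, 3 ≤ Y₀ ∧ ∀ (Y z : ℝ) (bb m N : ℕ) (i j : CC) (u : ℝ), Y₀ ≤ Y → Y ^ θ ≤ z → 1 ≤ bb →
      z ^ (4 * bb + 5) ≤ Y ^ (b / 8) → 2 ≤ m → (m + 1) * (b * Real.log Y / 4) ≤ Real.log N →
      (m : ℝ) ≤ 100 / b →
      i ∈ CR ⌊Y ^ δ⌋₊ → j ∈ CR ⌊Y ^ δ⌋₊ → |u| ≤ 2 * Y ^ 2 →
        ‖∑ n ∈ Icc 1 N, ((tp' z bb n * Wm (b * Real.log Y / 4) m (Real.log n) / n : ℝ) : ℂ) *
            (i.2 (n : ZMod i.1) * (starRingEnd ℂ) (j.2 (n : ZMod j.1))) * nit n u‖ ≤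
          (open Classical in if i = j then Mp z bb i.1 * ‖osc (Wm (b * Real.log Y / 4) m) u‖ else 0) +
            Y ^ (-κ) ∧
        ‖∑ n ∈ Icc 1 N, (((tp' z bb n - tm' z bb n) * Wm (b * Real.log Y / 4) m (Real.log n) / n : ℝ) : ℂ) *
            (i.2 (n : ZMod i.1) * (starRingEnd ℂ) (j.2 (n : ZMod j.1))) * nit n u‖ ≤
          (open Classical in if i = j then |Mp z bb i.1 - Mm z bb i.1| *
            ‖osc (Wm (b * Real.log Y / 4) m) u‖ else 0) + Y ^ (-κ) := by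
  obtain ⟨κ₀, C₀, hκ₀, hκ₀8, hC₀, H⟩ := sieve_smooth (12 / b) (by positivity)
  obtain ⟨CM, hCM, HM⟩ := Mp_bounds
  refine ⟨κ₀ * b / 8, κ₀ * b / 8, by positivity, by positivity, fun θ hθ => ?_⟩
  obtain ⟨Y₀, hY₀, hnum⟩ := HKer_num b κ₀ C₀ θ hb hκ₀ hC₀ hθ
  refine ⟨Y₀, hY₀, ?_⟩
  intro Y z bb m N i j u hY hYz hbb hz hm hmN hmb hi hj hu
  obtain ⟨n1, n2, n3, n4, n5, n6⟩ := hnum Y hY
  have hY0 : 0 < Y := by linarith
  have hz2 : 2 ≤ z := n1.trans hYz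
  obtain ⟨A, hA⟩ : ∃ A : ℝ, A = b * Real.log Y / 4 := ⟨_, rfl⟩
  rw [← hA] at n2 n3 n4 n5 n6 hmN ⊢
  have hA0 : 0 < A := by linarith
  obtain ⟨w1, w2, w3, w4, w5, w6, w7⟩ := Wm_props A m hA0 hm
  have hi1 := Finset.mem_Icc.1 (Finset.mem_sigma.1 hi).1
  have hj1 := Finset.mem_Icc.1 (Finset.mem_sigma.1 hj).1
  have hδ : 0 ≤ Y ^ (κ₀ * b / 8) := Real.rpow_nonneg hY0.le _
  have hiR : (i.1 : ℝ) ≤ Y ^ (κ₀ * b / 8) :=
    (Nat.cast_le.2 hi1.2).trans (Nat.floor_le hδ)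
  have hjR : (j.1 : ℝ) ≤ Y ^ (κ₀ * b / 8) :=
    (Nat.cast_le.2 hj1.2).trans (Nat.floor_le hδ)
  have hq1 : 1 ≤ i.1 * j.1 := Nat.mul_pos hi1.1 hj1.1
  have hqR : ((i.1 * j.1 : ℕ) : ℝ) ≤ Real.exp (κ₀ * A) := by
    rw [← n5, Nat.cast_mul]
    exact mul_le_mul hiR hjR (Nat.cast_nonneg _) hδ
  have hN1 : 1 ≤ N := by
    by_contra hN
    have hN0 : N = 0 := by omega
    rw [hN0, Nat.cast_zero, Real.log_zero] at hmN
    have : 0 < ((m : ℝ) + 1) * A := by positivity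
    linarith
  obtain ⟨ψ, hψ, hψ1⟩ := prod_char ⌊Y ^ (κ₀ * b / 8)⌋₊ i j hi hj
  have hHH := H z bb (i.1 * j.1) N ψ A u 1 (2 / A) (Wm A m) hz2 hbb (by rw [← n4]; exact hz) hq1 hN1
    (hu.trans n6) hqR (fun v => by rw [abs_of_nonneg (w1 v).1]; exact (w1 v).2) w5 w3
    (fun v hv => w4 v (hmN.trans hv))
  obtain ⟨e1, e2⟩ := hHH
  have f1 := e1.trans n3
  have f2 := e2.trans n3
  have hMp0 : 0 ≤ Mp z bb i.1 := (HM z bb i.1 hz2 hbb hi1.1).1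
  have g1 : ∀ ν : ℕ → ℝ, ∑ n ∈ Icc 1 N, ((ν n * Wm A m (Real.log n) / n : ℝ) : ℂ) *
      (i.2 (n : ZMod i.1) * (starRingEnd ℂ) (j.2 (n : ZMod j.1))) * nit n u =
      DP N (fun n => ν n * Wm A m (Real.log n)) ψ u := by
    intro ν
    unfold DP
    exact Finset.sum_congr rfl fun n _ => by rw [hψ]
  have g2 : DP N (fun n => (tp' z bb n - tm' z bb n) * Wm A m (Real.log n)) ψ u =
      DP N (fun n => tp' z bb n * Wm A m (Real.log n)) ψ u -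
      DP N (fun n => tm' z bb n * Wm A m (Real.log n)) ψ u := by
    unfold DP
    rw [← Finset.sum_sub_distrib]
    refine Finset.sum_congr rfl fun n _ => ?_
    push_cast
    ring
  have hYp : 0 < Y ^ (-(κ₀ * b / 8)) := Real.rpow_pos_of_pos hY0 _
  rw [g1 (tp' z bb), g1 fun n => tp' z bb n - tm' z bb n, g2]
  obtain ⟨Dp, hDp⟩ : ∃ D, D = DP N (fun n => tp' z bb n * Wm A m (Real.log n)) ψ u := ⟨_, rfl⟩
  obtain ⟨Dm, hDm⟩ : ∃ D, D = DP N (fun n => tm' z bb n * Wm A m (Real.log n)) ψ u := ⟨_, rfl⟩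
  rw [← hDp] at f1 ⊢
  rw [← hDm] at f2 ⊢
  by_cases h1 : ψ = 1
  · have hij := hψ1 h1
    rw [if_pos h1] at f1 f2
    rw [if_pos hij, if_pos hij]
    have hMq : Mp z bb (i.1 * j.1) = Mp z bb i.1 := by
      rw [← hij]
      exact HKer_Mp z bb i.1 hi1.1
    have hMq' : Mm z bb (i.1 * j.1) = Mm z bb i.1 := by
      rw [← hij]
      exact HKer_Mm z bb i.1 hi1.1
    rw [hMq] at f1
    rw [hMq'] at f2
    constructor
    · have h2 : Dp = (Dp - (Mp z bb i.1 : ℂ) * osc (Wm A m) u) +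
          (Mp z bb i.1 : ℂ) * osc (Wm A m) u := by ring
      rw [h2]
      refine (norm_add_le _ _).trans ?_
      rw [norm_mul, Complex.norm_real, Real.norm_of_nonneg hMp0]
      linarith
    · have h2 : Dp - Dm = (Dp - (Mp z bb i.1 : ℂ) * osc (Wm A m) u) -
          (Dm - (Mm z bb i.1 : ℂ) * osc (Wm A m) u) +
          ((Mp z bb i.1 - Mm z bb i.1 : ℝ) : ℂ) * osc (Wm A m) u := by
        push_cast
        ring
      rw [h2]
      refine (norm_add_le _ _).trans ?_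
      rw [norm_mul, Complex.norm_real, Real.norm_eq_abs]
      have h3 := norm_sub_le (Dp - (Mp z bb i.1 : ℂ) * osc (Wm A m) u)
        (Dm - (Mm z bb i.1 : ℂ) * osc (Wm A m) u)
      linarith
  · rw [if_neg h1, sub_zero] at f1 f2
    have h2 : ∀ x : ℝ, 0 ≤ x → 0 ≤ (open Classical in if i = j then x else 0) := by
      intro x hx
      split_ifs
      · exact hx
      · exact le_rfl
    have h3 := h2 (Mp z bb i.1 * ‖osc (Wm A m) u‖) (mul_nonneg hMp0 (norm_nonneg _))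
    have h4 := h2 (|Mp z bb i.1 - Mm z bb i.1| * ‖osc (Wm A m) u‖)
      (mul_nonneg (abs_nonneg _) (norm_nonneg _))
    constructor
    · linarith
    · have h5 := norm_sub_le Dp Dm
      linarith

end Pool.Agent.M58
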