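import Pool.Agent.W_b58c63_m1.GPe

/-!
# Blocks of primes and of rough integers (helper68)
-/

set_option autoImplicit false

noncomputable section

open Finset MeasureTheory Complex

namespace Pool.Agent.M58

/-- The tent number `j` of mesh `log Y / m` on the logarithmic scale. -/
def Gt (Y : ℝ) (m j : ℕ) (v : ℝ) : ℝ := tent (m * v / Real.log Y - j)

/-- Blocks of primes and of rough integers. -/
def pb (Y : ℝ) (m j : ℕ) : ℕ → ℝ := pw (Gt Y m j)

def rb (Y : ℝ) (m : ℕ) (y : ℝ) (k n : ℕ) : ℝ := rh y n * Gt Y m k (Real.log n)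

theorem HPr_tent_zero {x : ℝ} (h : 1 ≤ |x|) : tent x = 0 := by
  unfold tent
  exact max_eq_left (by linarith)

theorem HPr_tent_sum (u : ℝ) (hu : 0 ≤ u) : ∀ J : ℕ, u ≤ J → ∑ j ∈ range (J + 1), tent (u - j) = 1 := by
  intro J
  induction J with
  | zero =>
    intro h
    have h0 : u = 0 := le_antisymm (by simpa using h) hu
    simp [h0, tent]
  | succ J ih =>
    intro h
    rw [sum_range_succ]
    rcases le_or_gt u J with hJ | hJ
    · rw [ih hJ, HPr_tent_zero, add_zero]
      push_cast
      rw [abs_sub_comm]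
      exact le_trans (by linarith) (le_abs_self _)
    · rw [sum_range_succ, sum_eq_zero, zero_add]
      · push_cast at h ⊢
        unfold tent
        rw [abs_of_pos (by linarith), abs_of_nonpos (by linarith), max_eq_right (by linarith),
          max_eq_right (by linarith)]
        ring
      · intro j hj
        apply HPr_tent_zero
        have h1 : (j : ℝ) + 1 ≤ J := by exact_mod_cast mem_range.1 hj
        exact le_trans (by linarith) (le_abs_self _)

/-- The tents form a partition of unity. -/
theorem Gt_sum (Y v : ℝ) (m J : ℕ) (hY : 3 ≤ Y) (hv : 0 ≤ v) (hJ : m * v / Real.log Y ≤ J) :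
    ∑ j ∈ range (J + 1), Gt Y m j v = 1 := by
  have hl : 0 < Real.log Y := Real.log_pos (by linarith)
  exact HPr_tent_sum _ (by positivity) J hJ

theorem Gt_props (Y : ℝ) (m j : ℕ) (hY : 3 ≤ Y) (hm : 1 ≤ m) : (∀ v, 0 ≤ Gt Y m j v ∧ Gt Y m j v ≤ 1) ∧
    (∀ v w, |Gt Y m j v - Gt Y m j w| ≤ |v - w| / ((1 / m : ℝ) * Real.log Y)) ∧
    (∀ v, Gt Y m j v ≠ 0 → ((j : ℝ) - 1) / m * Real.log Y < v ∧ v < ((j : ℝ) + 1) / m * Real.log Y) := by
  have hl : 0 < Real.log Y := Real.log_pos (by linarith)
  have hm' : (0 : ℝ) < m := by exact_mod_cast hm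
  refine ⟨fun v => ⟨le_max_left _ _, max_le zero_le_one (by linarith [abs_nonneg (m * v / Real.log Y - j)])⟩,
    fun v w => ?_, fun v hv => ?_⟩
  · have h1 : |Gt Y m j v - Gt Y m j w| ≤ |(m * v / Real.log Y - j) - (m * w / Real.log Y - j)| := by
      unfold Gt tent
      have h2 := abs_max_sub_max_le_abs (1 - |m * v / Real.log Y - j|) (1 - |m * w / Real.log Y - j|) 0
      rw [max_comm _ (0 : ℝ), max_comm _ (0 : ℝ)] at h2
      refine h2.trans ?_
      have h3 := abs_abs_sub_abs_le_abs_sub (m * w / Real.log Y - j) (m * v / Real.log Y - j)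
      rw [abs_sub_comm (m * v / Real.log Y - j : ℝ)]
      refine le_trans (le_of_eq ?_) h3
      congr 1
      ring
    refine h1.trans (le_of_eq ?_)
    have h4 : (m * v / Real.log Y - j) - (m * w / Real.log Y - j) = (v - w) / ((1 / m : ℝ) * Real.log Y) := by
      field_simp
      ring
    rw [h4, abs_div, abs_of_pos (show (0 : ℝ) < (1 / m : ℝ) * Real.log Y by positivity)]
  · have h1 : |m * v / Real.log Y - j| < 1 := by
      by_contra h
      exact hv (HPr_tent_zero (not_lt.1 h))
    rw [abs_lt] at h1
    have h2 : v = (m * v / Real.log Y) / m * Real.log Y := by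
      field_simp
    constructor
    · calc ((j : ℝ) - 1) / m * Real.log Y < (m * v / Real.log Y) / m * Real.log Y := by
            apply mul_lt_mul_of_pos_right _ hl
            apply div_lt_div_of_pos_right _ hm'
            linarith
        _ = v := h2.symm
    · calc v = (m * v / Real.log Y) / m * Real.log Y := h2
        _ < ((j : ℝ) + 1) / m * Real.log Y := by
            apply mul_lt_mul_of_pos_right _ hl
            apply div_lt_div_of_pos_right _ hm'
            linarith

end Pool.Agent.M58
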