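import Pool.Agent.W_b58c63_m1.HPr

/-!
# Products with close prime factors (helper68)
-/

set_option autoImplicit false

noncomputable section

open Finset MeasureTheory Complex

namespace Pool.Agent.M58

theorem HPrB_rh {z : ℝ} {n : ℕ} : rh z n = 1 ↔ n ≠ 0 ∧ ∀ p ∈ n.primeFactors, z ≤ (p : ℝ) := by
  rw [rh]
  split_ifs with h
  · exact ⟨fun _ => h, fun _ => rfl⟩
  · exact ⟨fun h1 => absurd h1 (by norm_num), fun h1 => absurd h1 h⟩

/-- The integers up to `N` without prime factors below `z`. -/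
def HPrB_R (z : ℝ) (N : ℕ) : Finset ℕ := open Classical in (Icc 1 N).filter fun l => rh z l = 1

theorem HPrB_mem {z : ℝ} {N l : ℕ} : l ∈ HPrB_R z N ↔ (1 ≤ l ∧ l ≤ N) ∧ rh z l = 1 := by
  classical
  rw [HPrB_R, mem_filter, mem_Icc]

/-- The homomorphism `n ↦ 1 / n`. -/
def HPrB_inv : ℕ →* ℝ where
  toFun n := (n : ℝ)⁻¹
  map_one' := by simp
  map_mul' := by
    intro a b
    push_cast
    rw [mul_inv]

theorem HPrB_euler (z W : ℝ) (N : ℕ) (hW : (N : ℝ) < W) :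
    ∑ l ∈ HPrB_R z N, (1 : ℝ) / l ≤ ∏ p ∈ PI z W, (1 - (p : ℝ)⁻¹)⁻¹ := by
  classical
  have h : ∀ {p : ℕ}, p.Prime → ‖HPrB_inv p‖ < 1 := by
    intro p hp
    have : (2 : ℝ) ≤ p := by exact_mod_cast hp.two_le
    simp only [HPrB_inv, MonoidHom.coe_mk, OneHom.coe_mk, norm_inv, Real.norm_natCast]
    apply inv_lt_one_of_one_lt₀
    linarith
  obtain ⟨_, hs⟩ :=
    EulerProduct.summable_and_hasSum_factoredNumbers_prod_filter_prime_geometric h (PI z W)
  have hfil : (PI z W).filter Nat.Prime = PI z W := by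
    refine Finset.filter_true_of_mem fun p hp => (mem_PI.1 hp).1
  rw [hfil] at hs
  have h1 : ∑ m ∈ (HPrB_R z N).subtype (fun m => m ∈ Nat.factoredNumbers (PI z W)), HPrB_inv m
      ≤ ∏ p ∈ PI z W, (1 - HPrB_inv p)⁻¹ := by
    apply sum_le_hasSum _ _ hs
    intro i _
    simp only [HPrB_inv, MonoidHom.coe_mk, OneHom.coe_mk]
    positivity
  have h2 : ∑ m ∈ (HPrB_R z N).subtype (fun m => m ∈ Nat.factoredNumbers (PI z W)), HPrB_inv m
      = ∑ m ∈ HPrB_R z N, HPrB_inv m := by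
    apply Finset.sum_subtype_of_mem (fun m => HPrB_inv m)
    intro m hm
    obtain ⟨⟨h3, h4⟩, h5⟩ := HPrB_mem.1 hm
    obtain ⟨h6, h7⟩ := HPrB_rh.1 h5
    rw [Nat.mem_factoredNumbers]
    refine ⟨h6, fun p hp => ?_⟩
    have hp' : p ∈ m.primeFactors := List.mem_toFinset.2 hp
    rw [mem_PI]
    refine ⟨Nat.prime_of_mem_primeFactors hp', h7 p hp', ?_⟩
    have h8 : p ≤ m := Nat.le_of_mem_primeFactors hp'
    have h9 : (p : ℝ) ≤ N := by exact_mod_cast h8.trans h4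
    linarith
  rw [h2] at h1
  have h10 : ∑ l ∈ HPrB_R z N, (1 : ℝ) / l = ∑ m ∈ HPrB_R z N, HPrB_inv m := by
    refine Finset.sum_congr rfl fun l _ => ?_
    rw [one_div]
    rfl
  rw [h10]
  exact h1

theorem HPrB_prod (z W : ℝ) :
    ∏ p ∈ PI z W, (1 - (p : ℝ)⁻¹)⁻¹ ≤ Real.exp (∑ p ∈ PI z W, (1 : ℝ) / ((p : ℝ) - 1)) := by
  rw [Real.exp_sum]
  refine Finset.prod_le_prod (fun p hp => ?_) fun p hp => ?_
  · have h1 : (2 : ℝ) ≤ p := by exact_mod_cast (mem_PI.1 hp).1.two_le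
    have h2 : (p : ℝ)⁻¹ ≤ 1 := inv_le_one_of_one_le₀ (by linarith)
    exact inv_nonneg.2 (by linarith)
  · have h1 : (2 : ℝ) ≤ p := by exact_mod_cast (mem_PI.1 hp).1.two_le
    have h2 : (1 - (p : ℝ)⁻¹)⁻¹ = 1 / ((p : ℝ) - 1) + 1 := by
      have h3 : (p : ℝ) - 1 ≠ 0 := by
        have : 0 < (p : ℝ) - 1 := by linarith
        exact this.ne'
      have h4 : (p : ℝ) ≠ 0 := by
        have : 0 < (p : ℝ) := by linarith
        exact this.ne'
      have h5 : (1 - (p : ℝ)⁻¹) = ((p : ℝ) - 1) / p := by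
        field_simp
      rw [h5, inv_div]
      field_simp
      ring
    rw [h2]
    exact Real.add_one_le_exp _

open Classical in
/-- Products of integers with close prime factors are rare: the sum of `1 / n` over the integers
`n ∈ [Y ^ b, Y ^ 6]` without prime factors below `Y ^ θ` which have two prime factors `p ≤ p'` (or `p ^ 2 ∣ n`) with
`log p' ≤ log p + τ log Y`, or a prime factor in `[Y ^ θ, Y ^ (θ + τ)]`, is `≤ ε` for small `τ`.

Proof. Write `n = p p' l` (respectively `n = p l`), `l = 1` or `l` rough: `∑ 1 / (p p') ≤ C τ / θ` by Mertens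
(`Wb58c63.mertens_two`: `∑_{p ≤ p' ≤ p Y ^ τ} 1 / p' ≤ C τ / θ + C / log Y`), `∑ rh (Y ^ θ) l / l ≤ 1 + C` (over `l ≤ Y ^ 6`, the product
`∏_{Y ^ θ ≤ p ≤ Y ^ 6} (1 - 1 / p)⁻¹`). -/
theorem close_mass (θ ε : ℝ) (hθ : 0 < θ) (hθ1 : θ ≤ 1) (hε : 0 < ε) : ∃ τ Y₀ : ℝ, 0 < τ ∧ 3 ≤ Y₀ ∧
    ∀ (Y : ℝ) (N : ℕ), Y₀ ≤ Y → (N : ℝ) ≤ Y ^ 6 + 1 →
      ∑ n ∈ (Icc 2 N).filter (fun n => rh (Y ^ θ) n = 1 ∧
        ((∃ p p' : ℕ, p.Prime ∧ p'.Prime ∧ p * p' ∣ n ∧ p ≤ p' ∧ (p' : ℝ) ≤ p * Y ^ τ) ∨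
          ∃ p : ℕ, p.Prime ∧ p ∣ n ∧ (p : ℝ) ≤ Y ^ (θ + τ))), (1 : ℝ) / n ≤ ε := by
  obtain ⟨C₁, hC₁, hm1⟩ := Wb58c63.mertens_two
  obtain ⟨C₂, hC₂, hm2⟩ := Wb58c63.mertens_two'
  set C := max C₁ C₂ with hC
  have hC0 : 0 < C := lt_of_lt_of_le hC₁ (le_max_left _ _)
  set τ := min 1 (ε * θ ^ 3 / 567) with hτ
  have hτ0 : 0 < τ := lt_min one_pos (by positivity)
  have hτ1 : τ ≤ 1 := min_le_left _ _
  have hτε : 567 * τ ≤ ε * θ ^ 3 := by
    have : τ ≤ ε * θ ^ 3 / 567 := min_le_right _ _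
    rw [le_div_iff₀ (by norm_num)] at this
    linarith
  set E := C / (τ * θ) + 1 / θ + 1 / τ with hE
  have hE0 : 0 < E := by positivity
  refine ⟨τ, 3 + Real.exp E, hτ0, by linarith [Real.exp_pos E], fun Y N hY hN => ?_⟩
  have hY3 : 3 ≤ Y := by linarith [Real.exp_pos E]
  have hY0 : 0 < Y := by linarith
  have hlY : E ≤ Real.log Y := by
    rw [Real.le_log_iff_exp_le hY0]
    linarith
  have hL0 : 0 < Real.log Y := lt_of_lt_of_le hE0 hlY
  set L := Real.log Y with hL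
  have hLC : C ≤ τ * (θ * L) := by
    have h1 : C / (τ * θ) ≤ L := by
      have h2 : 0 < 1 / θ := by positivity
      have h3 : 0 < 1 / τ := by positivity
      linarith
    rw [div_le_iff₀ (by positivity)] at h1
    nlinarith
  have hLθ : 1 ≤ θ * L := by
    have h1 : 1 / θ ≤ L := by
      have h2 : 0 < C / (τ * θ) := by positivity
      have h3 : 0 < 1 / τ := by positivity
      linarith
    rw [div_le_iff₀ hθ] at h1
    linarith
  have hLτ : 1 ≤ τ * L := by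
    have h1 : 1 / τ ≤ L := by
      have h2 : 0 < C / (τ * θ) := by positivity
      have h3 : 0 < 1 / θ := by positivity
      linarith
    rw [div_le_iff₀ hτ0] at h1
    linarith
  have hpow2 : ∀ a : ℝ, 1 ≤ a * L → 2 ≤ Y ^ a := by
    intro a ha
    rw [Real.rpow_def_of_pos hY0]
    have h1 := Real.add_one_le_exp (Real.log Y * a)
    have h2 : Real.log Y * a = a * L := by rw [hL, mul_comm]
    linarith
  have hlogpow : ∀ a : ℝ, Real.log (Y ^ a) = a * L := fun a => Real.log_rpow hY0 a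
  set z := Y ^ θ with hz
  have hz2 : 2 ≤ z := hpow2 θ hLθ
  have hlz : Real.log z = θ * L := hlogpow θ
  have hCD : C / (θ * L) ≤ τ := by
    rw [div_le_iff₀ (by linarith)]
    exact hLC
  set W := Y ^ (7 : ℝ) with hW
  have hzW : z ≤ W := Real.rpow_le_rpow_of_exponent_le (by linarith) (by linarith)
  have hNW : (N : ℝ) < W := by
    have h1 : W = Y ^ 7 := by
      rw [hW]
      exact_mod_cast Real.rpow_natCast Y 7
    rw [h1]
    have h2 : (1 : ℝ) ≤ Y ^ 6 := one_le_pow₀ (by linarith)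
    have h3 : Y ^ 7 = Y ^ 6 * Y := by ring
    rw [h3]
    nlinarith
  -- the sum over rough integers
  have hR : ∑ l ∈ HPrB_R z N, (1 : ℝ) / l ≤ 21 / θ := by
    refine (HPrB_euler z W N hNW).trans ((HPrB_prod z W).trans ?_)
    have h1 := hm2 z W hz2 hzW
    rw [hlz, hlogpow] at h1
    have h2 : C₂ / (θ * L) ≤ 1 := by
      refine le_trans ?_ (hCD.trans hτ1)
      exact div_le_div_of_nonneg_right (le_max_right _ _) (by linarith)
    have h3 : (7 * L) / (θ * L) = 7 / θ := by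
      rw [mul_div_mul_right _ _ hL0.ne']
    rw [h3] at h1
    refine (Real.exp_le_exp.2 (h1.trans (add_le_add_right h2 _))).trans ?_
    rw [Real.exp_add, Real.exp_log (by positivity)]
    have h4 : Real.exp 1 ≤ 3 := by
      have := Real.exp_one_lt_d9
      linarith
    calc 7 / θ * Real.exp 1 ≤ 7 / θ * 3 := mul_le_mul_of_nonneg_left h4 (by positivity)
      _ = 21 / θ := by ring
  have hR0 : 0 ≤ ∑ l ∈ HPrB_R z N, (1 : ℝ) / l := Finset.sum_nonneg fun l _ => by positivity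
  -- sums over close primes
  have hclose : ∀ u v : ℝ, z ≤ u → u ≤ v → Real.log v ≤ Real.log u + 2 * τ * L →
      ∑ p ∈ PI u v, (1 : ℝ) / p ≤ 3 * τ / θ := by
    intro u v hu huv hv
    have h1 := hm1 u v (hz2.trans hu) huv
    have hlu : θ * L ≤ Real.log u := by
      rw [← hlz]
      exact Real.log_le_log (by linarith) hu
    have hlu0 : 0 < Real.log u := by linarith
    have h2 : C₁ / Real.log u ≤ τ := by
      refine le_trans ?_ hCD
      exact div_le_div₀ hC0.le (le_max_left _ _) (by linarith) hlu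
    have h3 : Real.log (Real.log v / Real.log u) ≤ 2 * τ / θ := by
      have h4 : Real.log v / Real.log u ≤ 1 + 2 * τ / θ := by
        rw [div_le_iff₀ hlu0]
        have h5 : 2 * τ * L ≤ 2 * τ / θ * Real.log u := by
          have h6 : 2 * τ / θ * (θ * L) = 2 * τ * L := by
            field_simp
          rw [← h6]
          exact mul_le_mul_of_nonneg_left hlu (by positivity)
        linarith
      have h7 : 0 < Real.log v / Real.log u := by
        refine div_pos ?_ hlu0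
        have : Real.log u ≤ Real.log v := Real.log_le_log (by linarith) huv
        linarith
      refine (Real.log_le_log h7 h4).trans ?_
      have h8 := Real.log_le_sub_one_of_pos (show (0 : ℝ) < 1 + 2 * τ / θ by positivity)
      linarith
    have h9 : τ ≤ τ / θ := by
      rw [le_div_iff₀ hθ]
      nlinarith
    have h10 : 3 * τ / θ = 2 * τ / θ + τ / θ := by ring
    rw [h10]
    linarith
  -- the sum over all primes
  have hall : ∑ p ∈ PI z W, (1 : ℝ) / p ≤ 8 / θ := by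
    have h1 := hm1 z W hz2 hzW
    rw [hlz, hlogpow, mul_div_mul_right _ _ hL0.ne'] at h1
    have h2 : C₁ / (θ * L) ≤ 1 := by
      refine le_trans ?_ (hCD.trans hτ1)
      exact div_le_div_of_nonneg_right (le_max_left _ _) (by linarith)
    have h3 := Real.log_le_sub_one_of_pos (show (0 : ℝ) < 7 / θ by positivity)
    have h4 : 8 / θ = 7 / θ + 1 / θ := by ring
    have h5 : 1 ≤ 1 / θ := by
      rw [le_div_iff₀ hθ]
      linarith
    linarith
  -- covering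
  set T1 : Finset (Σ _ : ℕ, ℕ × ℕ) :=
    (PI z W).sigma fun p => PI (p : ℝ) (p * Y ^ (2 * τ)) ×ˢ HPrB_R z N with hT1
  set T2 : Finset (ℕ × ℕ) := PI z (Y ^ (θ + 2 * τ)) ×ˢ HPrB_R z N with hT2
  set g1 : (Σ _ : ℕ, ℕ × ℕ) → ℕ := fun x => x.1 * x.2.1 * x.2.2 with hg1
  set g2 : ℕ × ℕ → ℕ := fun x => x.1 * x.2 with hg2
  have hlr : ∀ n d l : ℕ, n ≠ 0 → n = d * l → n ≤ N → rh z n = 1 → l ∈ HPrB_R z N := by
    intro n d l hn hnd hnN hrn
    have hl0 : l ≠ 0 := by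
      rintro rfl
      exact hn (by rw [hnd, mul_zero])
    have hd0 : d ≠ 0 := by
      rintro rfl
      exact hn (by rw [hnd, zero_mul])
    have hln : l ∣ n := ⟨d, by rw [hnd, mul_comm]⟩
    rw [HPrB_mem]
    refine ⟨⟨Nat.one_le_iff_ne_zero.2 hl0, (Nat.le_of_dvd (Nat.pos_of_ne_zero hn) hln).trans hnN⟩,
      ?_⟩
    rw [HPrB_rh]
    refine ⟨hl0, fun p hp => (HPrB_rh.1 hrn).2 p ?_⟩
    exact Nat.primeFactors_mono hln hn hp
  have hcov : (Icc 2 N).filter (fun n => rh (Y ^ θ) n = 1 ∧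
        ((∃ p p' : ℕ, p.Prime ∧ p'.Prime ∧ p * p' ∣ n ∧ p ≤ p' ∧ (p' : ℝ) ≤ p * Y ^ τ) ∨
          ∃ p : ℕ, p.Prime ∧ p ∣ n ∧ (p : ℝ) ≤ Y ^ (θ + τ))) ⊆ T1.image g1 ∪ T2.image g2 := by
    intro n hn
    obtain ⟨hn1, hn2, hn3⟩ := mem_filter.1 hn
    obtain ⟨hn4, hn5⟩ := mem_Icc.1 hn1
    have hn0 : n ≠ 0 := by omega
    have hnW : (n : ℝ) < W := lt_of_le_of_lt (by exact_mod_cast hn5) hNW
    rw [mem_union, mem_image, mem_image]
    rcases hn3 with ⟨p, p', hp, hp', ⟨l, hl⟩, hpp, hpp'⟩ | ⟨p, hp, ⟨l, hl⟩, hpY⟩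
    · refine Or.inl ⟨⟨p, p', l⟩, ?_, hl.symm⟩
      have hpn : p ∈ n.primeFactors := by
        rw [Nat.mem_primeFactors]
        exact ⟨hp, ⟨p' * l, by rw [hl, mul_assoc]⟩, hn0⟩
      rw [hT1, Finset.mem_sigma, Finset.mem_product]
      refine ⟨?_, ?_, ?_⟩
      · rw [mem_PI]
        refine ⟨hp, (HPrB_rh.1 hn2).2 p hpn, ?_⟩
        have h1 : p ≤ n := Nat.le_of_mem_primeFactors hpn
        exact lt_of_le_of_lt (by exact_mod_cast h1) hnW
      · rw [mem_PI]
        refine ⟨hp', by exact_mod_cast hpp, ?_⟩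
        have h1 : Y ^ τ < Y ^ (2 * τ) := Real.rpow_lt_rpow_of_exponent_lt (by linarith) (by linarith)
        have h2 : (0 : ℝ) < p := by exact_mod_cast hp.pos
        exact lt_of_le_of_lt hpp' (mul_lt_mul_of_pos_left h1 h2)
      · exact hlr n (p * p') l hn0 hl hn5 hn2
    · refine Or.inr ⟨⟨p, l⟩, ?_, hl.symm⟩
      have hpn : p ∈ n.primeFactors := by
        rw [Nat.mem_primeFactors]
        exact ⟨hp, ⟨l, hl⟩, hn0⟩
      rw [hT2, Finset.mem_product]
      refine ⟨?_, hlr n p l hn0 hl hn5 hn2⟩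
      rw [mem_PI]
      refine ⟨hp, (HPrB_rh.1 hn2).2 p hpn, ?_⟩
      exact lt_of_le_of_lt hpY (Real.rpow_lt_rpow_of_exponent_lt (by linarith) (by linarith))
  have hb1 : ∑ x ∈ T1, (1 : ℝ) / (g1 x : ℕ) ≤ 8 / θ * (3 * τ / θ * (21 / θ)) := by
    rw [hT1, Finset.sum_sigma]
    calc ∑ p ∈ PI z W, ∑ x ∈ PI (p : ℝ) (p * Y ^ (2 * τ)) ×ˢ HPrB_R z N,
          (1 : ℝ) / (g1 ⟨p, x⟩ : ℕ)
        ≤ ∑ p ∈ PI z W, (1 : ℝ) / p * (3 * τ / θ * (21 / θ)) := by
          refine Finset.sum_le_sum fun p hp => ?_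
          rw [Finset.sum_product]
          have h1 : ∀ x ∈ PI (p : ℝ) (p * Y ^ (2 * τ)), ∑ y ∈ HPrB_R z N,
              (1 : ℝ) / (g1 ⟨p, (x, y)⟩ : ℕ) =
                1 / (p : ℝ) * (1 / (x : ℝ) * ∑ y ∈ HPrB_R z N, (1 : ℝ) / y) := by
            intro x _
            rw [Finset.mul_sum, Finset.mul_sum]
            refine Finset.sum_congr rfl fun y _ => ?_
            simp only [hg1]
            push_cast
            rw [one_div, one_div, one_div, one_div, mul_inv, mul_inv, mul_assoc]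
          rw [Finset.sum_congr rfl h1, ← Finset.mul_sum, ← Finset.sum_mul]
          refine mul_le_mul_of_nonneg_left ?_ (by positivity)
          have hp' := mem_PI.1 hp
          have hp0 : (0 : ℝ) < p := by exact_mod_cast hp'.1.pos
          have hY2 : 1 ≤ Y ^ (2 * τ) := Real.one_le_rpow (by linarith) (by positivity)
          refine mul_le_mul (hclose _ _ hp'.2.1 (le_mul_of_one_le_right hp0.le hY2) ?_) hR hR0
            (by positivity)
          rw [Real.log_mul hp0.ne' (by positivity), hlogpow]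
      _ = (∑ p ∈ PI z W, (1 : ℝ) / p) * (3 * τ / θ * (21 / θ)) := by rw [Finset.sum_mul]
      _ ≤ 8 / θ * (3 * τ / θ * (21 / θ)) := mul_le_mul_of_nonneg_right hall (by positivity)
  have hb2 : ∑ x ∈ T2, (1 : ℝ) / (g2 x : ℕ) ≤ 3 * τ / θ * (21 / θ) := by
    rw [hT2, Finset.sum_product]
    have h1 : ∀ x ∈ PI z (Y ^ (θ + 2 * τ)), ∑ y ∈ HPrB_R z N, (1 : ℝ) / (g2 (x, y) : ℕ) =
        1 / (x : ℝ) * ∑ y ∈ HPrB_R z N, (1 : ℝ) / y := by
      intro x _
      rw [Finset.mul_sum]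
      refine Finset.sum_congr rfl fun y _ => ?_
      simp only [hg2]
      push_cast
      rw [one_div, one_div, one_div, mul_inv]
    rw [Finset.sum_congr rfl h1, ← Finset.sum_mul]
    refine mul_le_mul (hclose _ _ le_rfl ?_ ?_) hR hR0 (by positivity)
    · exact Real.rpow_le_rpow_of_exponent_le (by linarith) (by linarith)
    · rw [hlogpow, hlz]
      linarith
  calc ∑ n ∈ (Icc 2 N).filter (fun n => rh (Y ^ θ) n = 1 ∧
        ((∃ p p' : ℕ, p.Prime ∧ p'.Prime ∧ p * p' ∣ n ∧ p ≤ p' ∧ (p' : ℝ) ≤ p * Y ^ τ) ∨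
          ∃ p : ℕ, p.Prime ∧ p ∣ n ∧ (p : ℝ) ≤ Y ^ (θ + τ))), (1 : ℝ) / n
      ≤ ∑ n ∈ T1.image g1 ∪ T2.image g2, (1 : ℝ) / n :=
        Finset.sum_le_sum_of_subset_of_nonneg hcov fun n _ _ => by positivity
    _ ≤ ∑ n ∈ T1.image g1, (1 : ℝ) / n + ∑ n ∈ T2.image g2, (1 : ℝ) / n := by
        rw [← Finset.sum_union_inter]
        exact le_add_of_nonneg_right (Finset.sum_nonneg fun n _ => by positivity)
    _ ≤ ∑ x ∈ T1, (1 : ℝ) / (g1 x : ℕ) + ∑ x ∈ T2, (1 : ℝ) / (g2 x : ℕ) :=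
        add_le_add (Finset.sum_image_le_of_nonneg fun n _ => by positivity)
          (Finset.sum_image_le_of_nonneg fun n _ => by positivity)
    _ ≤ 8 / θ * (3 * τ / θ * (21 / θ)) + 3 * τ / θ * (21 / θ) := add_le_add hb1 hb2
    _ ≤ 567 * τ / θ ^ 3 := by
        have h1 : 3 * τ / θ * (21 / θ) ≤ 1 / θ * (3 * τ / θ * (21 / θ)) := by
          have h2 : 1 ≤ 1 / θ := by
            rw [le_div_iff₀ hθ]
            linarith
          exact le_mul_of_one_le_left (by positivity) h2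
        have h3 : 567 * τ / θ ^ 3 = 8 / θ * (3 * τ / θ * (21 / θ)) +
            1 / θ * (3 * τ / θ * (21 / θ)) := by
          field_simp
          ring
        rw [h3]
        linarith
    _ ≤ ε := by
        rw [div_le_iff₀ (by positivity)]
        exact hτε

end Pool.Agent.M58
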