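import Pool.Agent.W_b58c63_m1.HPr

/-!
# The decomposition of Buchstab with tents (helper68)
-/

set_option autoImplicit false

noncomputable section

open Finset MeasureTheory Complex

namespace Pool.Agent.M58

theorem HPrC_tent_nonneg (x : ℝ) : 0 ≤ tent x := le_max_left _ _

theorem HPrC_tent_le_one (x : ℝ) : tent x ≤ 1 :=
  max_le zero_le_one (by linarith [abs_nonneg x])

theorem HPrC_tent_zero {x : ℝ} (h : 1 ≤ |x|) : tent x = 0 := max_eq_left (by linarith)

theorem HPrC_tent_lip (x y : ℝ) : |tent x - tent y| ≤ |x - y| := by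
  unfold tent
  rw [max_comm 0, max_comm 0]
  refine (abs_max_sub_max_le_abs _ _ _).trans ?_
  have h : 1 - |x| - (1 - |y|) = |y| - |x| := by ring
  rw [h, abs_sub_comm x y]
  exact abs_abs_sub_abs_le_abs_sub _ _

theorem HPrC_T_zero {c w v : ℝ} (hw : 0 < w) (h : w ≤ |v - c|) : tent ((v - c) / w) = 0 := by
  refine HPrC_tent_zero ?_
  rw [abs_div, abs_of_pos hw, le_div_iff₀ hw, one_mul]
  exact h

theorem HPrC_rpow_le {Y x q : ℝ} (hY : 0 < Y) (hq : 0 < q) :
    Y ^ x ≤ q ↔ x * Real.log Y ≤ Real.log q := by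
  rw [← Real.log_le_log_iff (Real.rpow_pos_of_pos hY x) hq, Real.log_rpow hY]

theorem HPrC_le_rpow {Y x q : ℝ} (hY : 0 < Y) (hq : 0 < q) :
    q ≤ Y ^ x ↔ Real.log q ≤ x * Real.log Y := by
  rw [← Real.log_le_log_iff hq (Real.rpow_pos_of_pos hY x), Real.log_rpow hY]

theorem HPrC_rh_one {z : ℝ} {n : ℕ} (hn : n ≠ 0) (h : ∀ p : ℕ, p.Prime → p ∣ n → z ≤ p) :
    rh z n = 1 := by
  unfold rh
  rw [if_pos]
  exact ⟨hn, fun p hp => h p (Nat.prime_of_mem_primeFactors hp) (Nat.dvd_of_mem_primeFactors hp)⟩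

theorem HPrC_rh_ne {z : ℝ} {n : ℕ} (h : rh z n ≠ 0) :
    n ≠ 0 ∧ ∀ p : ℕ, p.Prime → p ∣ n → z ≤ p := by
  unfold rh at h
  split_ifs at h with h1
  · exact ⟨h1.1, fun p hp hd => h1.2 p (Nat.mem_primeFactors.2 ⟨hp, hd, h1.1⟩)⟩
  · exact absurd rfl h

theorem HPrC_rh_bd (z : ℝ) (n : ℕ) : 0 ≤ rh z n ∧ rh z n ≤ 1 := by
  unfold rh
  split_ifs <;> norm_num

theorem HPrC_Gt_nonneg (Y : ℝ) (m j : ℕ) (v : ℝ) : 0 ≤ Gt Y m j v := HPrC_tent_nonneg _

theorem HPrC_Gt_le (Y v : ℝ) (m : ℕ) (hY : 3 ≤ Y) (hv : 0 ≤ v) (s : Finset ℕ) :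
    ∑ j ∈ s, Gt Y m j v ≤ 1 := by
  obtain ⟨J, hJ⟩ := exists_nat_ge (max (m * v / Real.log Y) ((s.sup id : ℕ) : ℝ))
  have h1 := Gt_sum Y v m J hY hv ((le_max_left _ _).trans hJ)
  rw [← h1]
  refine sum_le_sum_of_subset_of_nonneg ?_ (fun j _ _ => HPrC_Gt_nonneg Y m j v)
  intro j hj
  rw [mem_range]
  have h2 : j ≤ s.sup id := le_sup (f := id) hj
  have h3 : ((s.sup id : ℕ) : ℝ) ≤ J := (le_max_right _ _).trans hJ
  have h4 : s.sup id ≤ J := by exact_mod_cast h3
  omega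

theorem HPrC_Gt_sum (Y v : ℝ) (m a J : ℕ) (hY : 3 ≤ Y) (hv : 0 ≤ v)
    (ha : (a : ℝ) ≤ m * v / Real.log Y) (hJ : m * v / Real.log Y ≤ J) :
    ∑ j ∈ Icc a J, Gt Y m j v = 1 := by
  rw [← Gt_sum Y v m J hY hv hJ]
  refine sum_subset (fun j hj => ?_) (fun j hj hj' => ?_)
  · rw [mem_range]
    have := (mem_Icc.1 hj).2
    omega
  · rw [mem_range] at hj
    rw [mem_Icc, not_and_or, not_le, not_le] at hj'
    have h1 : j + 1 ≤ a := by omega
    have h2 : (j : ℝ) + 1 ≤ a := by exact_mod_cast h1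
    refine HPrC_tent_zero ?_
    rw [abs_of_nonneg (by linarith)]
    linarith

theorem HPrC_log_mul {n p : ℕ} (hn : n ≠ 0) (hd : p ∣ n) :
    Real.log n = Real.log p + Real.log ((n / p : ℕ) : ℝ) := by
  obtain ⟨q, rfl⟩ := hd
  have hp : p ≠ 0 := fun h => hn (by rw [h, zero_mul])
  have hq : q ≠ 0 := fun h => hn (by rw [h, mul_zero])
  rw [Nat.mul_div_cancel_left q (Nat.pos_of_ne_zero hp), Nat.cast_mul, Real.log_mul]
  · exact_mod_cast hp
  · exact_mod_cast hq

/-- The contribution of the prime `p`. -/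
def HPrC_F (Y : ℝ) (m i₀ : ℕ) (η c : ℝ) (n p : ℕ) : ℝ :=
  ∑ j ∈ Icc i₀ (3 * m + 1), ∑ k ∈ Icc 1 (6 * m),
    tent ((((j + k : ℕ) : ℝ) * Real.log Y / m - c) / (η * Real.log Y)) *
      (Gt Y m j (Real.log p) * (rh (Y ^ (((j : ℝ) - 1) / m)) (n / p) *
        Gt Y m k (Real.log ((n / p : ℕ) : ℝ))))

theorem HPrC_S (Y : ℝ) (m i₀ : ℕ) (η c : ℝ) (n : ℕ) (hn : n ≠ 0) :
    ∑ j ∈ Icc i₀ (3 * m + 1), ∑ k ∈ Icc 1 (6 * m),
      tent ((((j + k : ℕ) : ℝ) * Real.log Y / m - c) / (η * Real.log Y)) *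
          cv (pb Y m j) (rb Y m (Y ^ (((j : ℝ) - 1) / m)) k) n =
      ∑ p ∈ n.primeFactors, HPrC_F Y m i₀ η c n p := by
  have hcv : ∀ j k : ℕ, cv (pb Y m j) (rb Y m (Y ^ (((j : ℝ) - 1) / m)) k) n =
      ∑ p ∈ n.primeFactors, (Gt Y m j (Real.log p) * (rh (Y ^ (((j : ℝ) - 1) / m)) (n / p) *
        Gt Y m k (Real.log ((n / p : ℕ) : ℝ)))) := by
    intro j k
    unfold cv
    symm
    refine (sum_congr rfl fun p hp => ?_).trans (sum_subset (fun p hp => ?_) fun p hp hp' => ?_)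
    · rw [pb, pw, if_pos (Nat.prime_of_mem_primeFactors hp), rb]
    · exact Nat.mem_divisors.2 ⟨Nat.dvd_of_mem_primeFactors hp, hn⟩
    · rw [pb, pw, if_neg, zero_mul]
      intro h
      exact hp' (Nat.mem_primeFactors.2 ⟨h, (Nat.mem_divisors.1 hp).1, hn⟩)
  simp only [hcv, HPrC_F, mul_sum]
  exact (sum_congr rfl fun j _ => sum_comm).trans sum_comm

theorem HPrC_F_nonneg (Y : ℝ) (m i₀ : ℕ) (η c : ℝ) (n p : ℕ) : 0 ≤ HPrC_F Y m i₀ η c n p := by
  refine sum_nonneg fun j _ => sum_nonneg fun k _ => mul_nonneg (HPrC_tent_nonneg _)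
    (mul_nonneg (HPrC_Gt_nonneg _ _ _ _) (mul_nonneg (HPrC_rh_bd _ _).1 (HPrC_Gt_nonneg _ _ _ _)))

theorem HPrC_F_le (Y : ℝ) (m i₀ : ℕ) (η c : ℝ) (n p : ℕ) (hY : 3 ≤ Y) :
    HPrC_F Y m i₀ η c n p ≤ 1 := by
  have h1 : HPrC_F Y m i₀ η c n p ≤ ∑ j ∈ Icc i₀ (3 * m + 1), ∑ k ∈ Icc 1 (6 * m),
      Gt Y m j (Real.log p) * Gt Y m k (Real.log ((n / p : ℕ) : ℝ)) := by
    refine sum_le_sum fun j _ => sum_le_sum fun k _ => ?_
    have h2 := HPrC_Gt_nonneg Y m j (Real.log p)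
    have h3 := HPrC_Gt_nonneg Y m k (Real.log ((n / p : ℕ) : ℝ))
    have h4 := HPrC_rh_bd (Y ^ (((j : ℝ) - 1) / m)) (n / p)
    have h5 : rh (Y ^ (((j : ℝ) - 1) / m)) (n / p) * Gt Y m k (Real.log ((n / p : ℕ) : ℝ)) ≤
        Gt Y m k (Real.log ((n / p : ℕ) : ℝ)) := mul_le_of_le_one_left h3 h4.2
    exact (mul_le_of_le_one_left (mul_nonneg h2 (mul_nonneg h4.1 h3)) (HPrC_tent_le_one _)).trans
      (mul_le_mul_of_nonneg_left h5 h2)
  refine h1.trans ?_
  rw [← sum_mul_sum]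
  exact mul_le_one₀ (HPrC_Gt_le Y _ m hY (Real.log_natCast_nonneg _) _)
    (sum_nonneg fun k _ => HPrC_Gt_nonneg _ _ _ _)
    (HPrC_Gt_le Y _ m hY (Real.log_natCast_nonneg _) _)

theorem HPrC_term {Y η c : ℝ} {m j k n p : ℕ} (hY : 3 ≤ Y) (hm : 1 ≤ m) (hη : 0 < η)
    (hpn : p ∣ n) (hn : n ≠ 0)
    (h : tent ((((j + k : ℕ) : ℝ) * Real.log Y / m - c) / (η * Real.log Y)) *
      (Gt Y m j (Real.log p) * (rh (Y ^ (((j : ℝ) - 1) / m)) (n / p) *
        Gt Y m k (Real.log ((n / p : ℕ) : ℝ)))) ≠ 0) :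
    |((j + k : ℕ) : ℝ) * Real.log Y / m - c| < η * Real.log Y ∧
      ((j : ℝ) - 1) / m * Real.log Y < Real.log p ∧
      Real.log p < ((j : ℝ) + 1) / m * Real.log Y ∧
      |((j + k : ℕ) : ℝ) * Real.log Y / m - Real.log n| < 2 * Real.log Y / m ∧
      ∀ q : ℕ, q.Prime → q ∣ n / p → ((j : ℝ) - 1) / m * Real.log Y ≤ Real.log q := by
  have hL : 0 < Real.log Y := Real.log_pos (by linarith)
  have h1 := left_ne_zero_of_mul h
  have h2 := left_ne_zero_of_mul (right_ne_zero_of_mul h)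
  have h3 := left_ne_zero_of_mul (right_ne_zero_of_mul (right_ne_zero_of_mul h))
  have h4 := right_ne_zero_of_mul (right_ne_zero_of_mul (right_ne_zero_of_mul h))
  obtain ⟨h5, h6⟩ := (Gt_props Y m j hY hm).2.2 _ h2
  obtain ⟨h7, h8⟩ := (Gt_props Y m k hY hm).2.2 _ h4
  have hm0 : (0 : ℝ) < m := by exact_mod_cast hm
  refine ⟨?_, h5, h6, ?_, ?_⟩
  · by_contra h9
    rw [not_lt] at h9
    exact h1 (HPrC_T_zero (by positivity) h9)
  · rw [HPrC_log_mul hn hpn]
    have e1 : ((j : ℝ) - 1) / m * Real.log Y = j * Real.log Y / m - Real.log Y / m := by ring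
    have e2 : ((j : ℝ) + 1) / m * Real.log Y = j * Real.log Y / m + Real.log Y / m := by ring
    have e3 : ((k : ℝ) - 1) / m * Real.log Y = k * Real.log Y / m - Real.log Y / m := by ring
    have e4 : ((k : ℝ) + 1) / m * Real.log Y = k * Real.log Y / m + Real.log Y / m := by ring
    have e5 : (((j + k : ℕ) : ℝ)) * Real.log Y / m = j * Real.log Y / m + k * Real.log Y / m := by
      push_cast; ring
    have e6 : 2 * Real.log Y / m = Real.log Y / m + Real.log Y / m := by ring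
    rw [e5, e6, abs_lt]
    rw [e1] at h5
    rw [e2] at h6
    rw [e3] at h7
    rw [e4] at h8
    constructor <;> linarith
  · intro q hq hqd
    have h9 := (HPrC_rh_ne h3).2 q hq hqd
    exact (HPrC_rpow_le (by linarith) (by exact_mod_cast hq.pos)).1 h9

theorem HPrC_F_zero {Y η c : ℝ} {m i₀ n p : ℕ} (hY : 3 ≤ Y) (hm : 1 ≤ m) (hη : 0 < η)
    (hpn : p ∣ n) (hn : n ≠ 0)
    (h : ∀ j k : ℕ, i₀ ≤ j → |((j + k : ℕ) : ℝ) * Real.log Y / m - c| < η * Real.log Y →
      ((j : ℝ) - 1) / m * Real.log Y < Real.log p →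
      Real.log p < ((j : ℝ) + 1) / m * Real.log Y →
      |((j + k : ℕ) : ℝ) * Real.log Y / m - Real.log n| < 2 * Real.log Y / m →
      (∀ q : ℕ, q.Prime → q ∣ n / p → ((j : ℝ) - 1) / m * Real.log Y ≤ Real.log q) → False) :
    HPrC_F Y m i₀ η c n p = 0 := by
  refine sum_eq_zero fun j hj => sum_eq_zero fun k _ => ?_
  by_contra h0
  obtain ⟨h1, h2, h3, h4, h5⟩ := HPrC_term hY hm hη hpn hn h0
  exact h j k (mem_Icc.1 hj).1 h1 h2 h3 h4 h5

theorem HPrC_F_prime {Y η c : ℝ} {m i₀ n : ℕ} (hn : n.Prime) : HPrC_F Y m i₀ η c n n = 0 := by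
  refine sum_eq_zero fun j _ => sum_eq_zero fun k hk => ?_
  have h1 : Gt Y m k (Real.log ((n / n : ℕ) : ℝ)) = 0 := by
    rw [Nat.div_self hn.pos, Nat.cast_one, Real.log_one]
    refine HPrC_tent_zero ?_
    have h2 : (1 : ℝ) ≤ k := by exact_mod_cast (mem_Icc.1 hk).1
    rw [mul_zero, zero_div, zero_sub, abs_neg, abs_of_nonneg (by linarith)]
    exact h2
  rw [h1, mul_zero, mul_zero, mul_zero]

/-- The main contribution. -/
theorem HPrC_F_main {Y η c : ℝ} {m i₀ n p : ℕ} (hY : 3 ≤ Y) (hm : 1 ≤ m) (hη : 0 < η)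
    (hi : 2 ≤ i₀) (hp : p.Prime) (hpn : p ∣ n) (hn : n ≠ 0)
    (hp1 : (i₀ : ℝ) * Real.log Y / m < Real.log p) (hp2 : 2 * Real.log p ≤ Real.log n)
    (hn6 : Real.log n ≤ 6 * Real.log Y + 2 * Real.log Y / m)
    (hq : ∀ q : ℕ, q.Prime → q ∣ n / p → Real.log p ≤ Real.log q) :
    |HPrC_F Y m i₀ η c n p - tent ((Real.log n - c) / (η * Real.log Y))| ≤ 2 / (m * η) := by
  have hL : 0 < Real.log Y := Real.log_pos (by linarith)
  have hm0 : (0 : ℝ) < m := by exact_mod_cast hm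
  have hi0 : (2 : ℝ) ≤ i₀ := by exact_mod_cast hi
  have hlog := HPrC_log_mul hn hpn
  have hnp : n / p ≠ 0 := by
    have := Nat.div_pos (Nat.le_of_dvd (Nat.pos_of_ne_zero hn) hpn) hp.pos
    omega
  have hp1' : (i₀ : ℝ) < m * Real.log p / Real.log Y := by
    rw [lt_div_iff₀ hL]
    rw [div_lt_iff₀ hm0] at hp1
    linarith
  have hn6' : m * Real.log n / Real.log Y ≤ 6 * m + 2 := by
    rw [div_le_iff₀ hL]
    calc m * Real.log n ≤ m * (6 * Real.log Y + 2 * Real.log Y / m) := by gcongr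
      _ = (6 * m + 2) * Real.log Y := by field_simp
  have hp2' : 2 * (m * Real.log p / Real.log Y) ≤ m * Real.log n / Real.log Y := by
    calc 2 * (m * Real.log p / Real.log Y) = m * (2 * Real.log p) / Real.log Y := by ring
      _ ≤ m * Real.log n / Real.log Y := by gcongr
  have hlog' : m * Real.log n / Real.log Y = m * Real.log p / Real.log Y +
      m * Real.log ((n / p : ℕ) : ℝ) / Real.log Y := by rw [hlog]; ring
  have hg : ∑ j ∈ Icc i₀ (3 * m + 1), Gt Y m j (Real.log p) = 1 := by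
    refine HPrC_Gt_sum Y _ m _ _ hY (Real.log_natCast_nonneg _) hp1'.le ?_
    push_cast
    linarith
  have hh : ∑ k ∈ Icc 1 (6 * m), Gt Y m k (Real.log ((n / p : ℕ) : ℝ)) = 1 := by
    refine HPrC_Gt_sum Y _ m _ _ hY (Real.log_natCast_nonneg _) ?_ ?_
    · push_cast
      linarith
    · push_cast
      linarith
  have hgh : ∑ j ∈ Icc i₀ (3 * m + 1), ∑ k ∈ Icc 1 (6 * m),
      Gt Y m j (Real.log p) * Gt Y m k (Real.log ((n / p : ℕ) : ℝ)) = 1 := by
    rw [← sum_mul_sum, hg, hh, one_mul]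
  have h1 : HPrC_F Y m i₀ η c n p - tent ((Real.log n - c) / (η * Real.log Y)) =
      ∑ j ∈ Icc i₀ (3 * m + 1), ∑ k ∈ Icc 1 (6 * m),
        (tent ((((j + k : ℕ) : ℝ) * Real.log Y / m - c) / (η * Real.log Y)) *
      (Gt Y m j (Real.log p) * (rh (Y ^ (((j : ℝ) - 1) / m)) (n / p) *
        Gt Y m k (Real.log ((n / p : ℕ) : ℝ)))) -
        tent ((Real.log n - c) / (η * Real.log Y)) *
          (Gt Y m j (Real.log p) * Gt Y m k (Real.log ((n / p : ℕ) : ℝ)))) := by
    simp only [sum_sub_distrib, ← mul_sum]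
    rw [HPrC_F]
    have h2 : ∑ j ∈ Icc i₀ (3 * m + 1), Gt Y m j (Real.log p) *
        ∑ k ∈ Icc 1 (6 * m), Gt Y m k (Real.log ((n / p : ℕ) : ℝ)) = 1 := by
      rw [← sum_mul, hg, hh, one_mul]
    rw [h2, mul_one]
  rw [h1]
  refine (abs_sum_le_sum_abs _ _).trans ?_
  have h3 : ∑ j ∈ Icc i₀ (3 * m + 1), ∑ k ∈ Icc 1 (6 * m), (2 / (m * η)) *
      (Gt Y m j (Real.log p) * Gt Y m k (Real.log ((n / p : ℕ) : ℝ))) = 2 / (m * η) := by
    simp only [← mul_sum]
    have h2 : ∑ j ∈ Icc i₀ (3 * m + 1), Gt Y m j (Real.log p) *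
        ∑ k ∈ Icc 1 (6 * m), Gt Y m k (Real.log ((n / p : ℕ) : ℝ)) = 1 := by
      rw [← sum_mul, hg, hh, one_mul]
    rw [h2, mul_one]
  rw [← h3]
  refine sum_le_sum fun j _ => (abs_sum_le_sum_abs _ _).trans (sum_le_sum fun k _ => ?_)
  have hg0 := HPrC_Gt_nonneg Y m j (Real.log p)
  have hh0 := HPrC_Gt_nonneg Y m k (Real.log ((n / p : ℕ) : ℝ))
  by_cases hgz : Gt Y m j (Real.log p) = 0
  · rw [hgz]; simp
  by_cases hhz : Gt Y m k (Real.log ((n / p : ℕ) : ℝ)) = 0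
  · rw [hhz]; simp
  obtain ⟨h5, h6⟩ := (Gt_props Y m j hY hm).2.2 _ hgz
  obtain ⟨h7, h8⟩ := (Gt_props Y m k hY hm).2.2 _ hhz
  have hrh : rh (Y ^ (((j : ℝ) - 1) / m)) (n / p) = 1 := by
    refine HPrC_rh_one hnp fun q hq1 hq2 => ?_
    rw [HPrC_rpow_le (by linarith) (by exact_mod_cast hq1.pos)]
    exact h5.le.trans (hq q hq1 hq2)
  rw [hrh, one_mul, ← sub_mul, abs_mul, abs_of_nonneg (mul_nonneg hg0 hh0)]
  refine mul_le_mul_of_nonneg_right ?_ (mul_nonneg hg0 hh0)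
  refine (HPrC_tent_lip _ _).trans ?_
  have e0 : (((j + k : ℕ) : ℝ) * Real.log Y / m - c) / (η * Real.log Y) -
      (Real.log n - c) / (η * Real.log Y) =
      (((j + k : ℕ) : ℝ) * Real.log Y / m - Real.log n) / (η * Real.log Y) := by ring
  rw [e0, abs_div, abs_of_pos (mul_pos hη hL), div_le_iff₀ (mul_pos hη hL)]
  have e1 : ((j : ℝ) - 1) / m * Real.log Y = j * Real.log Y / m - Real.log Y / m := by ring
  have e2 : ((j : ℝ) + 1) / m * Real.log Y = j * Real.log Y / m + Real.log Y / m := by ring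
  have e3 : ((k : ℝ) - 1) / m * Real.log Y = k * Real.log Y / m - Real.log Y / m := by ring
  have e4 : ((k : ℝ) + 1) / m * Real.log Y = k * Real.log Y / m + Real.log Y / m := by ring
  have e5 : (((j + k : ℕ) : ℝ)) * Real.log Y / m = j * Real.log Y / m + k * Real.log Y / m := by
    push_cast; ring
  have e6 : 2 / (m * η) * (η * Real.log Y) = Real.log Y / m + Real.log Y / m := by
    field_simp
    ring
  rw [e5, e6, abs_le, hlog]
  rw [e1] at h5
  rw [e2] at h6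
  rw [e3] at h7
  rw [e4] at h8
  constructor <;> linarith

/-- The number of prime factors of a rough integer. -/
theorem HPrC_omega {Y : ℝ} {m i₀ n : ℕ} (hY : 3 ≤ Y) (hm : 1 ≤ m) (hi : 2 ≤ i₀) (hn : n ≠ 0)
    (h : ∀ q : ℕ, q.Prime → q ∣ n → ((i₀ : ℝ) - 1) / m * Real.log Y ≤ Real.log q)
    (hn6 : Real.log n ≤ 6 * Real.log Y + 2 * Real.log Y / m) :
    (n.primeFactors.card : ℝ) ≤ 6 * m / ((i₀ : ℝ) - 1) + 2 := by
  have hL : 0 < Real.log Y := Real.log_pos (by linarith)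
  have hm0 : (0 : ℝ) < m := by exact_mod_cast hm
  have hi0 : (2 : ℝ) ≤ i₀ := by exact_mod_cast hi
  have h1 : ∑ p ∈ n.primeFactors, Real.log (p : ℝ) ≤ Real.log n := by
    rw [← Real.log_prod (fun p hp => by
      exact_mod_cast (Nat.prime_of_mem_primeFactors hp).ne_zero)]
    refine Real.log_le_log ?_ ?_
    · exact prod_pos fun p hp => by exact_mod_cast (Nat.prime_of_mem_primeFactors hp).pos
    · have := Nat.le_of_dvd (Nat.pos_of_ne_zero hn) (Nat.prod_primeFactors_dvd n)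
      calc ∏ p ∈ n.primeFactors, (p : ℝ) = ((∏ p ∈ n.primeFactors, p : ℕ) : ℝ) := by
            rw [Nat.cast_prod]
        _ ≤ n := by exact_mod_cast this
  have h2 : (n.primeFactors.card : ℝ) * (((i₀ : ℝ) - 1) / m * Real.log Y) ≤
      ∑ p ∈ n.primeFactors, Real.log (p : ℝ) := by
    rw [← nsmul_eq_mul]
    exact card_nsmul_le_sum _ _ _ fun p hp => h p (Nat.prime_of_mem_primeFactors hp)
      (Nat.dvd_of_mem_primeFactors hp)
  have h3 : (n.primeFactors.card : ℝ) * (((i₀ : ℝ) - 1) / m * Real.log Y) ≤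
      6 * Real.log Y + 2 * Real.log Y / m := h2.trans (h1.trans hn6)
  have h4 : (n.primeFactors.card : ℝ) * ((i₀ : ℝ) - 1) ≤ 6 * m + 2 := by
    have h5 : ((n.primeFactors.card : ℝ) * ((i₀ : ℝ) - 1)) * (Real.log Y / m) ≤
        (6 * m + 2) * (Real.log Y / m) := by
      calc ((n.primeFactors.card : ℝ) * ((i₀ : ℝ) - 1)) * (Real.log Y / m) =
          (n.primeFactors.card : ℝ) * (((i₀ : ℝ) - 1) / m * Real.log Y) := by ring
        _ ≤ 6 * Real.log Y + 2 * Real.log Y / m := h3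
        _ = (6 * m + 2) * (Real.log Y / m) := by field_simp
    exact le_of_mul_le_mul_right h5 (by positivity)
  have h6 : (0 : ℝ) < (i₀ : ℝ) - 1 := by linarith
  have h7 : (n.primeFactors.card : ℝ) ≤ (6 * m + 2) / ((i₀ : ℝ) - 1) := by
    rw [le_div_iff₀ h6]
    exact h4
  refine h7.trans ?_
  rw [add_div]
  have h8 : 2 / ((i₀ : ℝ) - 1) ≤ 2 := by
    rw [div_le_iff₀ h6]
    linarith
  linarith

/-- **The Buchstab decomposition of primes with tents.** For `n` with `log n ∈ [c - η log Y, c + η log Y]`, `n ≥ Y ^ a`, and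
`z₂ = Y ^ (i₀ / m)`: `1_P (n) = rh z₂ n - 1_{composite}`, and the composite `z₂`-rough integers are covered by products.

Proof. For `n` composite without prime factors below `Y ^ (i₀ / m)` let `p` be the smallest prime factor; the products
`cv (pb j) (rb (Y ^ ((j - 1) / m)) k)` count the pairs `(p', n / p')` with weights `Gt j (log p') Gt k (log (n / p'))`, provided
that `n / p'` has no prime factor below `Y ^ ((j - 1) / m)`. For `p' = p` the total weight is `1`. If a second prime factor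
`p'` is counted then `log p' ≤ log p + 2 log Y / m` (the smallest prime factor `p` of `n` divides `n / p'`), so `n` is counted in the
exceptional set; if `n` is counted but has a prime factor below `Y ^ (i₀ / m)` then its prime factors are
`≥ Y ^ ((i₀ - 1) / m)` and one of them is `≤ Y ^ (i₀ / m)`. On the products
`|tent ((log n - c) / (η log Y)) - tent (((j + k) log Y / m - c) / (η log Y))| ≤ 2 / (m η)`. The total number of pairs counted for one `n`
is at most the number of prime factors `≥ Y ^ ((i₀ - 1) / m)`, at most `6 m / (i₀ - 1)`. -/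
theorem buch (m i₀ : ℕ) (hi : 2 ≤ i₀) (hm : i₀ ≤ m) (Y a η c : ℝ) (hY : 3 ≤ Y) (hη : 0 < η)
    (ha : 4 * (i₀ : ℝ) / m ≤ a) (hc : a * Real.log Y ≤ c - η * Real.log Y) (hc' : c + η * Real.log Y ≤ 6 * Real.log Y)
    (n : ℕ) (hn : 2 ≤ n) :
    |(if n.Prime then tent ((Real.log n - c) / (η * Real.log Y)) else 0) -
      (rh (Y ^ ((i₀ : ℝ) / m)) n * tent ((Real.log n - c) / (η * Real.log Y)) -
        ∑ j ∈ Icc i₀ (3 * m + 1), ∑ k ∈ Icc 1 (6 * m), tent ((((j + k : ℕ) : ℝ) * Real.log Y / m - c) / (η * Real.log Y)) *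
          cv (pb Y m j) (rb Y m (Y ^ (((j : ℝ) - 1) / m)) k) n)| ≤
      (if rh (Y ^ (((i₀ : ℝ) - 1) / m)) n = 1 ∧ (n : ℝ) ≤ Y ^ 6 * Y ^ (2 / m : ℝ) ∧ Y ^ (a / 2) ≤ n then
        (6 * m / ((i₀ : ℝ) - 1) + 2) * (2 / (m * η) +
        (open Classical in if (∃ p p' : ℕ, p.Prime ∧ p'.Prime ∧ p * p' ∣ n ∧ p ≤ p' ∧
            (p' : ℝ) ≤ p * Y ^ (2 / m : ℝ)) ∨ (∃ p : ℕ, p.Prime ∧ p ∣ n ∧ (p : ℝ) ≤ Y ^ ((i₀ : ℝ) / m)) then 1 else 0))
        else 0) := by
  classical
  have hL : 0 < Real.log Y := Real.log_pos (by linarith)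
  have hm1 : 1 ≤ m := by omega
  have hm0 : (0 : ℝ) < m := by exact_mod_cast hm1
  have hi0 : (2 : ℝ) ≤ i₀ := by exact_mod_cast hi
  have hn0 : n ≠ 0 := by omega
  have hY0 : (0 : ℝ) < Y := by linarith
  have hnr : (0 : ℝ) < n := by exact_mod_cast Nat.pos_of_ne_zero hn0
  have hηL : 0 < η * Real.log Y := mul_pos hη hL
  rw [HPrC_S Y m i₀ η c n hn0]
  set Tn := tent ((Real.log n - c) / (η * Real.log Y)) with hTn
  have hTn0 : 0 ≤ Tn := HPrC_tent_nonneg _
  have hTn1 : Tn ≤ 1 := HPrC_tent_le_one _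
  set K : ℝ := 6 * m / ((i₀ : ℝ) - 1) + 2 with hK
  have hK1 : 1 ≤ K := by
    have : 0 ≤ 6 * m / ((i₀ : ℝ) - 1) := div_nonneg (by positivity) (by linarith)
    rw [hK]
    linarith
  have ha' : (i₀ : ℝ) / m * Real.log Y ≤ a * Real.log Y - 3 * ((i₀ : ℝ) / m * Real.log Y) := by
    have h1 : 4 * (i₀ : ℝ) / m * Real.log Y ≤ a * Real.log Y :=
      mul_le_mul_of_nonneg_right ha hL.le
    have h2 : 4 * (i₀ : ℝ) / m * Real.log Y = 4 * ((i₀ : ℝ) / m * Real.log Y) := by ring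
    linarith
  have hiL : 2 * Real.log Y / m ≤ (i₀ : ℝ) / m * Real.log Y := by
    calc 2 * Real.log Y / m = 2 / m * Real.log Y := by ring
      _ ≤ (i₀ : ℝ) / m * Real.log Y := by gcongr
  have hLm : 0 < 2 * Real.log Y / m := by positivity
  -- nonnegativity of the right side
  have hRHS : 0 ≤ (if rh (Y ^ (((i₀ : ℝ) - 1) / m)) n = 1 ∧ (n : ℝ) ≤ Y ^ 6 * Y ^ (2 / m : ℝ) ∧
      Y ^ (a / 2) ≤ n then K * (2 / (m * η) +
        (open Classical in if (∃ p p' : ℕ, p.Prime ∧ p'.Prime ∧ p * p' ∣ n ∧ p ≤ p' ∧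
            (p' : ℝ) ≤ p * Y ^ (2 / m : ℝ)) ∨ (∃ p : ℕ, p.Prime ∧ p ∣ n ∧
              (p : ℝ) ≤ Y ^ ((i₀ : ℝ) / m)) then 1 else 0)) else 0) := by
    split_ifs
    · positivity
    · positivity
    · exact le_rfl
  by_cases hnp : n.Prime
  · -- prime
    refine le_of_eq_of_le ?_ hRHS
    rw [if_pos hnp, hnp.primeFactors, sum_singleton, HPrC_F_prime hnp, sub_zero, abs_eq_zero]
    by_cases hT : Tn = 0
    · rw [hT, mul_zero, sub_zero]
    · have h1 : ¬ (η * Real.log Y ≤ |Real.log n - c|) := fun h => hT (HPrC_T_zero hηL h)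
      rw [not_le, abs_lt] at h1
      have h2 : rh (Y ^ ((i₀ : ℝ) / m)) n = 1 := by
        refine HPrC_rh_one hn0 fun q hq hqd => ?_
        have hqn : q = n := (Nat.prime_dvd_prime_iff_eq hq hnp).1 hqd
        rw [hqn, HPrC_rpow_le hY0 hnr]
        linarith [h1.1]
      rw [h2, one_mul, sub_self]
  rw [if_neg hnp, zero_sub, abs_neg]
  have hS0 : 0 ≤ ∑ p ∈ n.primeFactors, HPrC_F Y m i₀ η c n p :=
    sum_nonneg fun p _ => HPrC_F_nonneg _ _ _ _ _ _ _
  have hS1 : ∑ p ∈ n.primeFactors, HPrC_F Y m i₀ η c n p ≤ n.primeFactors.card := by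
    have := sum_le_card_nsmul n.primeFactors (fun p => HPrC_F Y m i₀ η c n p) 1
      (fun p _ => HPrC_F_le _ _ _ _ _ _ _ hY)
    rwa [nsmul_eq_mul, mul_one] at this
  by_cases hA : rh (Y ^ (((i₀ : ℝ) - 1) / m)) n = 1 ∧ (n : ℝ) ≤ Y ^ 6 * Y ^ (2 / m : ℝ) ∧
      Y ^ (a / 2) ≤ n
  · rw [if_pos hA]
    obtain ⟨hA1, hA2, hA3⟩ := hA
    have hn6 : Real.log n ≤ 6 * Real.log Y + 2 * Real.log Y / m := by
      have h1 := Real.log_le_log hnr hA2
      rw [Real.log_mul (by positivity) (by positivity), Real.log_pow, Real.log_rpow hY0] at h1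
      push_cast at h1
      have h2 : 2 / (m : ℝ) * Real.log Y = 2 * Real.log Y / m := by ring
      linarith
    have hrough : ∀ q : ℕ, q.Prime → q ∣ n → ((i₀ : ℝ) - 1) / m * Real.log Y ≤ Real.log q := by
      intro q hq hqd
      have h1 := (HPrC_rh_ne (by rw [hA1]; exact one_ne_zero)).2 q hq hqd
      exact (HPrC_rpow_le hY0 (by exact_mod_cast hq.pos)).1 h1
    have hom := HPrC_omega hY hm1 hi hn0 hrough hn6
    rw [← hK] at hom
    by_cases hE : (∃ p p' : ℕ, p.Prime ∧ p'.Prime ∧ p * p' ∣ n ∧ p ≤ p' ∧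
            (p' : ℝ) ≤ p * Y ^ (2 / m : ℝ)) ∨ (∃ p : ℕ, p.Prime ∧ p ∣ n ∧
              (p : ℝ) ≤ Y ^ ((i₀ : ℝ) / m))
    · rw [if_pos hE]
      have h1 : |rh (Y ^ ((i₀ : ℝ) / m)) n * Tn - ∑ p ∈ n.primeFactors, HPrC_F Y m i₀ η c n p| ≤
          K := by
        have h2 := HPrC_rh_bd (Y ^ ((i₀ : ℝ) / m)) n
        have h3 : 0 ≤ rh (Y ^ ((i₀ : ℝ) / m)) n * Tn := mul_nonneg h2.1 hTn0
        have h4 : rh (Y ^ ((i₀ : ℝ) / m)) n * Tn ≤ 1 := mul_le_one₀ h2.2 hTn0 hTn1
        rw [abs_le]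
        constructor <;> linarith
      refine h1.trans ?_
      have h5 : 0 ≤ 2 / (m * η) := by positivity
      nlinarith
    · rw [if_neg hE, add_zero]
      rw [not_or] at hE
      obtain ⟨hE1, hE2⟩ := hE
      push Not at hE1 hE2
      have hbig : ∀ q : ℕ, q.Prime → q ∣ n → (i₀ : ℝ) / m * Real.log Y < Real.log q := by
        intro q hq hqd
        have h1 := hE2 q hq hqd
        by_contra h2
        rw [not_lt] at h2
        exact absurd ((HPrC_le_rpow hY0 (by exact_mod_cast hq.pos)).2 h2) (not_le.2 h1)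
      have hsep : ∀ p p' : ℕ, p.Prime → p'.Prime → p * p' ∣ n → p ≤ p' →
          Real.log p + 2 * Real.log Y / m < Real.log p' := by
        intro p p' hp hp' hd hle
        have h1 := hE1 p p' hp hp' hd hle
        have hp0 : (0 : ℝ) < p := by exact_mod_cast hp.pos
        have h2 := Real.log_lt_log (by positivity) h1
        rw [Real.log_mul hp0.ne' (by positivity), Real.log_rpow hY0] at h2
        have h3 : 2 / (m : ℝ) * Real.log Y = 2 * Real.log Y / m := by ring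
        linarith
      have hrz : rh (Y ^ ((i₀ : ℝ) / m)) n = 1 := by
        refine HPrC_rh_one hn0 fun q hq hqd => ?_
        exact (HPrC_rpow_le hY0 (by exact_mod_cast hq.pos)).2 (hbig q hq hqd).le
      rw [hrz, one_mul]
      -- the smallest prime factor
      set p := n.minFac with hpdef
      have hp : p.Prime := Nat.minFac_prime (by omega)
      have hpn : p ∣ n := Nat.minFac_dvd n
      have hpm : p ∈ n.primeFactors := Nat.mem_primeFactors.2 ⟨hp, hpn, hn0⟩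
      have hsum : ∑ q ∈ n.primeFactors, HPrC_F Y m i₀ η c n q = HPrC_F Y m i₀ η c n p := by
        refine sum_eq_single_of_mem p hpm fun q hq hqp => ?_
        have hqP := Nat.prime_of_mem_primeFactors hq
        have hqn := Nat.dvd_of_mem_primeFactors hq
        have hle : p ≤ q := Nat.minFac_le_of_dvd hqP.two_le hqn
        have hcop : Nat.Coprime p q := (Nat.coprime_primes hp hqP).2 (Ne.symm hqp)
        have hpq : p * q ∣ n := hcop.mul_dvd_of_dvd_of_dvd hpn hqn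
        have hs := hsep p q hp hqP hpq hle
        refine HPrC_F_zero hY hm1 hη hqn hn0 fun j k _ _ _ h3 _ h5 => ?_
        have hpd : p ∣ n / q := by
          obtain ⟨t, ht⟩ := hpq
          refine ⟨t, ?_⟩
          rw [ht, mul_comm p q, mul_assoc, Nat.mul_div_cancel_left _ hqP.pos]
        have h6 := h5 p hp hpd
        have e1 : ((j : ℝ) - 1) / m * Real.log Y = j * Real.log Y / m - Real.log Y / m := by ring
        have e2 : ((j : ℝ) + 1) / m * Real.log Y = j * Real.log Y / m + Real.log Y / m := by ring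
        have e6 : 2 * Real.log Y / m = Real.log Y / m + Real.log Y / m := by ring
        linarith
      rw [hsum, abs_sub_comm]
      have hp2 : 2 * Real.log p ≤ Real.log n := by
        have h1 := Nat.minFac_sq_le_self (Nat.pos_of_ne_zero hn0) hnp
        have h2 : ((p : ℝ)) ^ 2 ≤ n := by exact_mod_cast h1
        have h3 := Real.log_le_log (by have := hp.pos; positivity) h2
        rw [Real.log_pow] at h3
        push_cast at h3
        exact h3
      have hmain := HPrC_F_main (Y := Y) (η := η) (c := c) (m := m) (i₀ := i₀) hY hm1 hη hi hp hpn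
        hn0 (by
          have h1 := hbig p hp hpn
          have e1 : (i₀ : ℝ) / m * Real.log Y = (i₀ : ℝ) * Real.log Y / m := by ring
          linarith) hp2 hn6 (fun q hq hqd => by
          have hqn : q ∣ n := hqd.trans (Nat.div_dvd_of_dvd hpn)
          have h1 : p ≤ q := Nat.minFac_le_of_dvd hq.two_le hqn
          exact Real.log_le_log (by exact_mod_cast hp.pos) (by exact_mod_cast h1))
      refine hmain.trans ?_
      have h5 : 0 ≤ 2 / (m * η) := by positivity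
      nlinarith
  · rw [if_neg hA]
    refine le_of_eq ?_
    rw [abs_eq_zero]
    -- `n` is not in the set
    have hcase : (∃ q : ℕ, q.Prime ∧ q ∣ n ∧ Real.log q < ((i₀ : ℝ) - 1) / m * Real.log Y) ∨
        6 * Real.log Y + 2 * Real.log Y / m < Real.log n ∨ Real.log n < a / 2 * Real.log Y := by
      by_contra hcon
      rw [not_or, not_or] at hcon
      obtain ⟨h1, h2, h3⟩ := hcon
      push Not at h1
      rw [not_lt] at h2 h3
      refine hA ⟨HPrC_rh_one hn0 fun q hq hqd =>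
        (HPrC_rpow_le hY0 (by exact_mod_cast hq.pos)).2 (h1 q hq hqd), ?_,
        (HPrC_rpow_le hY0 hnr).2 h3⟩
      rw [← Real.log_le_log_iff hnr (by positivity), Real.log_mul (by positivity) (by positivity),
        Real.log_pow, Real.log_rpow hY0]
      push_cast
      have e1 : 2 / (m : ℝ) * Real.log Y = 2 * Real.log Y / m := by ring
      linarith
    rcases hcase with ⟨q, hq, hqn, hql⟩ | hlog | hlog
    · have hlt : ((i₀ : ℝ) - 1) / m * Real.log Y < (i₀ : ℝ) / m * Real.log Y := by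
        have e1 : ((i₀ : ℝ) - 1) / m * Real.log Y = (i₀ : ℝ) / m * Real.log Y - Real.log Y / m := by
          ring
        have : 0 < Real.log Y / m := by positivity
        linarith
      have h1 : rh (Y ^ ((i₀ : ℝ) / m)) n = 0 := by
        by_contra h2
        have h3 := (HPrC_rpow_le hY0 (by exact_mod_cast hq.pos)).1 ((HPrC_rh_ne h2).2 q hq hqn)
        linarith
      rw [h1, zero_mul, zero_sub, neg_eq_zero]
      refine sum_eq_zero fun p hp => ?_
      have hpP := Nat.prime_of_mem_primeFactors hp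
      have hpn := Nat.dvd_of_mem_primeFactors hp
      refine HPrC_F_zero hY hm1 hη hpn hn0 fun j k hj _ h2 _ _ h5 => ?_
      have hj' : ((i₀ : ℝ) - 1) / m * Real.log Y ≤ ((j : ℝ) - 1) / m * Real.log Y := by
        have : (i₀ : ℝ) ≤ j := by exact_mod_cast hj
        gcongr
      have hne : q ≠ p := by
        rintro rfl
        linarith
      have hcop : Nat.Coprime q p := (Nat.coprime_primes hq hpP).2 hne
      have hqp : q * p ∣ n := hcop.mul_dvd_of_dvd_of_dvd hqn hpn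
      have hqd : q ∣ n / p := by
        obtain ⟨t, ht⟩ := hqp
        refine ⟨t, ?_⟩
        rw [ht, mul_comm q p, mul_assoc, Nat.mul_div_cancel_left _ hpP.pos]
      have h6 := h5 q hq hqd
      linarith
    · have h1 : Tn = 0 := by
        refine HPrC_T_zero hηL ?_
        rw [abs_of_nonneg (by linarith)]
        linarith
      rw [h1, mul_zero, zero_sub, neg_eq_zero]
      refine sum_eq_zero fun p hp => ?_
      refine HPrC_F_zero hY hm1 hη (Nat.dvd_of_mem_primeFactors hp) hn0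
        fun j k _ h2 _ _ h4 _ => ?_
      rw [abs_lt] at h2 h4
      linarith [h2.2, h4.1]
    · have haL : 0 < a * Real.log Y := by linarith
      have haL2 : a / 2 * Real.log Y = a * Real.log Y / 2 := by ring
      have h1 : Tn = 0 := by
        refine HPrC_T_zero hηL ?_
        rw [abs_of_nonpos (by linarith)]
        linarith
      rw [h1, mul_zero, zero_sub, neg_eq_zero]
      refine sum_eq_zero fun p hp => ?_
      refine HPrC_F_zero hY hm1 hη (Nat.dvd_of_mem_primeFactors hp) hn0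
        fun j k _ h2 _ _ h4 _ => ?_
      rw [abs_lt] at h2 h4
      linarith [h2.1, h4.2]

end Pool.Agent.M58
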