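import Pool.Agent.W_b58c63_m1.HPrB
import Pool.Agent.W_b58c63_m1.HPrC

/-!
# Small mean squares of prime polynomials (helper68)
-/

set_option autoImplicit false

noncomputable section

open Finset MeasureTheory Complex

namespace Pool.Agent.M58

theorem HPrD_rh_mono {z z' : ℝ} (h : z ≤ z') {n : ℕ} (hn : rh z' n = 1) : rh z n = 1 := by
  unfold rh at hn ⊢
  split_ifs at hn with h1
  · rw [if_pos]
    exact ⟨h1.1, fun p hp => h.trans (h1.2 p hp)⟩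
  · norm_num at hn

theorem HPrD_rh_nonneg (z : ℝ) (n : ℕ) : 0 ≤ rh z n := by
  unfold rh
  split_ifs <;> norm_num

theorem HPrD_rh_cases (z : ℝ) (n : ℕ) : rh z n = 1 ∨ rh z n = 0 := by
  unfold rh
  split_ifs
  · exact Or.inl rfl
  · exact Or.inr rfl

open Classical in
theorem HPrD_ext {R R' : ℕ} {T T' V V' : ℝ} {E : CC → Set ℝ} (hF : Fam R T V E) (hR : R ≤ R')
    (hT : T ≤ T') (hV : V ≤ V') :
    Fam R' T' V' (fun i => if i ∈ CR R then E i else ∅) ∧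
      ∀ f : CC → ℝ → ℝ, ∑ i ∈ CR R', ∫ t in (if i ∈ CR R then E i else ∅), f i t =
        ∑ i ∈ CR R, ∫ t in E i, f i t := by
  have hsub : CR R ⊆ CR R' := by
    unfold CR
    exact Finset.sigma_mono (Finset.Icc_subset_Icc_right hR) (fun _ => subset_rfl)
  refine ⟨⟨fun i hi => ?_, ?_⟩, fun f => ?_⟩
  · by_cases h : i ∈ CR R
    · simp only [h, if_true]
      exact ⟨(hF.1 i h).1, (hF.1 i h).2.trans (Set.Icc_subset_Icc (by linarith) hT)⟩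
    · simp only [h, if_false]
      exact ⟨MeasurableSet.empty, Set.empty_subset _⟩
  · rw [← Finset.sum_subset hsub]
    · refine le_trans (le_of_eq (Finset.sum_congr rfl fun i hi => ?_)) (hF.2.trans hV)
      simp only [hi, if_true]
    · intro i _ hi
      simp [hi]
  · rw [← Finset.sum_subset hsub]
    · refine Finset.sum_congr rfl fun i hi => ?_
      simp only [hi, if_true]
    · intro i _ hi
      simp [hi]

theorem HPrD_mono {R : ℕ} {T V : ℝ} {E : CC → Set ℝ} (hF : Fam R T V E) {ι : Type*} (s : Finset ι) (w : ℝ)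
    (f g₁ g₂ : CC → ℝ → ℂ) (g : ι → CC → ℝ → ℂ) (hf : ∀ i, Continuous (f i)) (h1 : ∀ i, Continuous (g₁ i))
    (h2 : ∀ i, Continuous (g₂ i)) (hg : ∀ x i, Continuous (g x i))
    (h : ∀ i ∈ CR R, ∀ t ∈ E i, ‖f i t‖ ^ 2 ≤ 3 * ‖g₁ i t‖ ^ 2 + 3 * ‖g₂ i t‖ ^ 2 + w * ∑ x ∈ s, ‖g x i t‖ ^ 2) :
    ∑ i ∈ CR R, ∫ t in E i, ‖f i t‖ ^ 2 ≤ 3 * (∑ i ∈ CR R, ∫ t in E i, ‖g₁ i t‖ ^ 2) +
      3 * (∑ i ∈ CR R, ∫ t in E i, ‖g₂ i t‖ ^ 2) + w * ∑ x ∈ s, ∑ i ∈ CR R, ∫ t in E i, ‖g x i t‖ ^ 2 := by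
  have hI : ∀ i ∈ CR R, ∀ u : ℝ → ℂ, Continuous u → IntegrableOn (fun t => ‖u t‖ ^ 2) (E i) := by
    intro i hi u hu
    have h0 : IntegrableOn (fun t => ‖u t‖ ^ 2) (Set.Icc (-T) T) :=
      (hu.norm.pow 2).continuousOn.integrableOn_compact isCompact_Icc
    exact h0.mono_set (hF.1 i hi).2
  have e1 : w * ∑ x ∈ s, ∑ i ∈ CR R, ∫ t in E i, ‖g x i t‖ ^ 2 =
      ∑ i ∈ CR R, w * ∑ x ∈ s, ∫ t in E i, ‖g x i t‖ ^ 2 := by
    rw [Finset.sum_comm, Finset.mul_sum]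
  rw [e1, Finset.mul_sum, Finset.mul_sum, ← Finset.sum_add_distrib, ← Finset.sum_add_distrib]
  refine Finset.sum_le_sum fun i hi => ?_
  have i1 := hI i hi _ (h1 i)
  have i2 := hI i hi _ (h2 i)
  have i3 : ∀ x ∈ s, IntegrableOn (fun t => ‖g x i t‖ ^ 2) (E i) := fun x _ => hI i hi _ (hg x i)
  have i4 : IntegrableOn (fun t => ∑ x ∈ s, ‖g x i t‖ ^ 2) (E i) := integrable_finsetSum _ i3
  have i12 : IntegrableOn (fun t => 3 * ‖g₁ i t‖ ^ 2 + 3 * ‖g₂ i t‖ ^ 2) (E i) :=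
    (i1.const_mul 3).add (i2.const_mul 3)
  have i5 : IntegrableOn (fun t => 3 * ‖g₁ i t‖ ^ 2 + 3 * ‖g₂ i t‖ ^ 2 + w * ∑ x ∈ s, ‖g x i t‖ ^ 2) (E i) :=
    i12.add (i4.const_mul w)
  calc ∫ t in E i, ‖f i t‖ ^ 2
      ≤ ∫ t in E i, (3 * ‖g₁ i t‖ ^ 2 + 3 * ‖g₂ i t‖ ^ 2 + w * ∑ x ∈ s, ‖g x i t‖ ^ 2) :=
        setIntegral_mono_on (hI i hi _ (hf i)) i5 (hF.1 i hi).1 (h i hi)
    _ = _ := by
        rw [integral_add i12 (i4.const_mul w), integral_add (i1.const_mul 3) (i2.const_mul 3),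
          integral_const_mul, integral_const_mul, integral_const_mul, integral_finsetSum _ i3]

theorem HPrD_pow7 {Y : ℝ} (hY : 0 < Y) : (Y ^ (7 / 6 : ℝ)) ^ 6 = Y ^ 7 := by
  rw [← Real.rpow_natCast (Y ^ (7 / 6 : ℝ)) 6, ← Real.rpow_mul hY.le, ← Real.rpow_natCast Y 7]
  norm_num

theorem HPrD_rough (b : ℝ) (hb : 0 < b) (hb1 : b ≤ 1) : ∃ κ δ C M Y₀ : ℝ, 0 < κ ∧ 0 < δ ∧ 0 < C ∧ 0 < M ∧ 3 ≤ Y₀ ∧
    ∀ (Y : ℝ), Y₀ ≤ Y → (∀ N : ℕ, ∑ n ∈ (Icc 1 N).filter (fun n : ℕ => Y ^ b ≤ n ∧ (n : ℝ) ≤ Y ^ 6),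
      rh (Y ^ b) n / n ≤ M) ∧
    ∀ (R : ℕ) (T V : ℝ) (E : CC → Set ℝ) (N : ℕ) (a : ℕ → ℝ), R ≤ ⌊Y ^ δ⌋₊ → T ≤ Y ^ 2 → V ≤ Y ^ κ →
      Fam R T V E → (∀ n, a n ≠ 0 → Y ^ b ≤ n ∧ (n : ℝ) ≤ Y ^ 6 ∧ rh (Y ^ b) n = 1) →
        ∑ i ∈ CR R, ∫ t in E i, ‖DP N a i.2 t‖ ^ 2 ≤
          C / Real.log Y * ∑ n ∈ Icc 1 N, a n ^ 2 / n := by
  obtain ⟨κ, δ, C, Y₁, hκ, hδ, hC, hY₁, H⟩ := l2_rough b hb hb1
  obtain ⟨C₂, Y₂, hC₂, hY₂, H₂⟩ := rough_mass b b hb hb1 hb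
  refine ⟨κ, δ, C, 3 * C₂, max Y₁ Y₂, hκ, hδ, hC, by positivity, le_trans hY₁ (le_max_left _ _), ?_⟩
  intro Y hY
  have hY1 := le_trans (le_max_left Y₁ Y₂) hY
  have hY2 := le_trans (le_max_right Y₁ Y₂) hY
  have hY3 : 3 ≤ Y := hY₁.trans hY1
  have hY0 : 0 < Y := by linarith
  have hL1 : 1 ≤ Real.log Y := by
    rw [Real.le_log_iff_exp_le hY0]
    exact (Real.exp_one_lt_d9.le.trans (by norm_num)).trans hY3
  have hL0 : 0 < Real.log Y := by linarith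
  refine ⟨fun N => ?_, fun R T V E N a hR hT hV hF ha => ?_⟩
  · have h := H₂ Y ((6 + b) * Real.log Y / 2) ((6 - b) * Real.log Y / 2) N hY2 (by nlinarith) (by nlinarith)
      (by nlinarith)
    have e1 : (Icc 1 N).filter (fun n : ℕ => Y ^ b ≤ n ∧ (n : ℝ) ≤ Y ^ 6) =
        (Icc 1 N).filter (fun n : ℕ => (6 + b) * Real.log Y / 2 - (6 - b) * Real.log Y / 2 ≤ Real.log n ∧
          Real.log n ≤ (6 + b) * Real.log Y / 2 + (6 - b) * Real.log Y / 2) := by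
      refine Finset.filter_congr fun n hn => ?_
      have hn1 : (0 : ℝ) < n := by exact_mod_cast (Finset.mem_Icc.mp hn).1
      rw [← Real.log_le_log_iff (Real.rpow_pos_of_pos hY0 b) hn1, Real.log_rpow hY0,
        ← Real.log_le_log_iff hn1 (by positivity : (0 : ℝ) < Y ^ 6), Real.log_pow]
      have e2 : (6 + b) * Real.log Y / 2 - (6 - b) * Real.log Y / 2 = b * Real.log Y := by ring
      have e3 : (6 + b) * Real.log Y / 2 + (6 - b) * Real.log Y / 2 = 6 * Real.log Y := by ring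
      rw [e2, e3]
      norm_num
    rw [e1]
    refine h.trans ?_
    rw [div_le_iff₀ hL0]
    have : 0 ≤ b * C₂ * Real.log Y := by positivity
    nlinarith
  · classical
    obtain ⟨h1, h2⟩ := HPrD_ext hF hR hT hV
    rw [← h2 (fun i t => ‖DP N a i.2 t‖ ^ 2)]
    exact H Y _ N a hY1 h1 ha

theorem HPrD_rest (b η ε : ℝ) (hb : 0 < b) (hb1 : b ≤ 1) (hη : 0 < η) (hη1 : η ≤ 1) (hε : 0 < ε) :
    ∃ b₀ : ℝ, 0 < b₀ ∧ ∀ b₂ : ℝ, 0 < b₂ → b₂ ≤ b₀ → ∃ K κ δ Y₀ : ℝ, 0 < K ∧ 0 < κ ∧ 0 < δ ∧ 3 ≤ Y₀ ∧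
      ∀ (Y c : ℝ) (R : ℕ) (T V : ℝ) (E : CC → Set ℝ) (N : ℕ), Y₀ ≤ Y → R ≤ ⌊Y ^ δ⌋₊ → T ≤ Y ^ 2 → V ≤ Y ^ κ →
        Fam R T V E →
        (∀ t ∈ E i0, K / Real.log Y ≤ |t|) → b * Real.log Y ≤ c - η * Real.log Y →
        c + η * Real.log Y ≤ 6 * Real.log Y → Y ^ 6 ≤ (N : ℝ) →
          ∑ i ∈ CR R, ∫ t in E i,
            ‖DP N (fun n => rh (Y ^ b₂) n * tent ((Real.log n - c) / (η * Real.log Y))) i.2 t‖ ^ 2 ≤
              ε / Real.log Y := by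
  obtain ⟨b₀, hb₀, H⟩ := l2_rest b η ε hb hb1 hη hη1 hε
  refine ⟨b₀, hb₀, fun b₂ h2 h2' => ?_⟩
  obtain ⟨K, κ, δ, Y₀, hK, hκ, hδ, hY₀, H'⟩ := H b₂ h2 h2'
  refine ⟨K, κ, δ, Y₀, hK, hκ, hδ, hY₀, ?_⟩
  intro Y c R T V E N hY hR hT hV hF ht hc hc' hN
  classical
  obtain ⟨h1, h2⟩ := HPrD_ext hF hR hT hV
  rw [← h2 (fun i t => ‖DP N (fun n => rh (Y ^ b₂) n * tent ((Real.log n - c) / (η * Real.log Y))) i.2 t‖ ^ 2)]
  refine H' Y c _ N hY h1 ?_ hc hc' hN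
  intro t ht'
  by_cases hi : i0 ∈ CR R
  · simp only [hi, if_true] at ht'
    exact ht t ht'
  · simp only [hi, if_false] at ht'
    exact absurd ht' (Set.notMem_empty t)

theorem HPrD_tst {Y : ℝ} {m i₀ j : ℕ} (hY : 3 ≤ Y) (hm : 1 ≤ m) (hj : j ∈ Icc i₀ (3 * m + 1)) :
    Tst Y (((i₀ : ℝ) - 1) / m) (1 / m) (Gt Y m j) := by
  obtain ⟨h1, h2, h3⟩ := Gt_props Y m j hY hm
  obtain ⟨hj1, hj2⟩ := Finset.mem_Icc.mp hj
  have hm0 : (1 : ℝ) ≤ m := by exact_mod_cast hm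
  have hmp : (0 : ℝ) < m := by linarith
  have hL0 : 0 < Real.log Y := Real.log_pos (by linarith)
  have hj1' : (i₀ : ℝ) ≤ j := by exact_mod_cast hj1
  have hj2' : (j : ℝ) ≤ 3 * m + 1 := by exact_mod_cast hj2
  refine ⟨fun v => ?_, h2, fun v hv => ?_, fun v hv => ?_⟩
  · rw [abs_le]
    exact ⟨by linarith [(h1 v).1], (h1 v).2⟩
  · by_contra hne
    have h4 := (h3 v hne).1
    have h5 : ((i₀ : ℝ) - 1) / m * Real.log Y ≤ ((j : ℝ) - 1) / m * Real.log Y := by gcongr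
    linarith
  · by_contra hne
    have h4 := (h3 v hne).2
    have h5 : ((j : ℝ) + 1) / m ≤ 6 := by
      rw [div_le_iff₀ hmp]
      linarith
    have h6 : ((j : ℝ) + 1) / m * Real.log Y ≤ 6 * Real.log Y := by gcongr
    linarith

theorem HPrD_pb {Y δ ε' β K Co : ℝ} {m i₀ j : ℕ} {i1 : CC} (hY : 3 ≤ Y) (hm : 1 ≤ m) (hβ : β ≤ 1)
    (hCo : 0 < Co) (hK : 0 < K)
    (hosc : ∀ (Y α t : ℝ) (h : ℝ → ℝ), 3 ≤ Y → Tst Y (((i₀ : ℝ) - 1) / m) (1 / m) h → 0 ≤ α →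
      ‖osc (fun v => h v / v * Real.exp (-α * v)) t‖ ≤ Co ∧
      ‖osc (fun v => h v / v * Real.exp (-α * v)) t‖ * (|t| * Real.log Y) ≤ Co)
    (hP : PBL Y δ (((i₀ : ℝ) - 1) / m) (1 / m) ε' i1 β) (hj : j ∈ Icc i₀ (3 * m + 1)) {N : ℕ}
    (hN : Y ^ 6 ≤ (N : ℝ)) {E : CC → Set ℝ} {V : ℝ} (hF : Fam ⌊Y ^ δ⌋₊ (Y ^ (3 / 2 : ℝ)) V E)
    (h0 : ∀ t ∈ E i0, K / Real.log Y ≤ |t|) (h1 : ∀ t ∈ E i1, K / Real.log Y ≤ |t|)
    {i : CC} (hiR : i ∈ CR ⌊Y ^ δ⌋₊) {t : ℝ} (ht : t ∈ E i) :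
    ‖DP N (pb Y m j) i.2 t‖ ≤ ε' + 2 * (Co / K) := by
  have hT := HPrD_tst (i₀ := i₀) hY hm hj
  have hL0 : 0 < Real.log Y := Real.log_pos (by linarith)
  have ht2 : |t| ≤ Y ^ (3 / 2 : ℝ) := abs_le.mpr ((hF.1 i hiR).2 ht)
  have hmain := hP (Gt Y m j) N hT hN i hiR t ht2
  have key : ∀ α : ℝ, 0 ≤ α → K / Real.log Y ≤ |t| →
      ‖osc (fun v => Gt Y m j v / v * Real.exp (-α * v)) t‖ ≤ Co / K := by
    intro α hα hKt
    have h2 := (hosc Y α t (Gt Y m j) hY hT hα).2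
    have h3 : K ≤ |t| * Real.log Y := by
      rwa [div_le_iff₀ hL0] at hKt
    rw [le_div_iff₀ hK]
    exact (mul_le_mul_of_nonneg_left h3 (norm_nonneg _)).trans h2
  have hpos : 0 ≤ Co / K := by positivity
  have b0 : ‖(open Classical in if i = i0 then osc (fun v => Gt Y m j v / v) t else 0)‖ ≤ Co / K := by
    split_ifs with hi
    · subst hi
      have := key 0 le_rfl (h0 t ht)
      simpa using this
    · simpa using hpos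
  have b1 : ‖(open Classical in if i = i1 then osc (fun v => Gt Y m j v / v * Real.exp (-(1 - β) * v)) t else 0)‖ ≤
      Co / K := by
    split_ifs with hi
    · subst hi
      exact key (1 - β) (by linarith) (h1 t ht)
    · simpa using hpos
  have e1 : DP N (pb Y m j) i.2 t = (DP N (pw (Gt Y m j)) i.2 t -
      (open Classical in if i = i0 then osc (fun v => Gt Y m j v / v) t else 0) +
      (open Classical in if i = i1 then osc (fun v => Gt Y m j v / v * Real.exp (-(1 - β) * v)) t else 0)) +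
      (open Classical in if i = i0 then osc (fun v => Gt Y m j v / v) t else 0) -
      (open Classical in if i = i1 then osc (fun v => Gt Y m j v / v * Real.exp (-(1 - β) * v)) t else 0) := by
    unfold pb
    ring
  rw [e1]
  refine (norm_sub_le _ _).trans ?_
  have := norm_add_le (DP N (pw (Gt Y m j)) i.2 t -
      (open Classical in if i = i0 then osc (fun v => Gt Y m j v / v) t else 0) +
      (open Classical in if i = i1 then osc (fun v => Gt Y m j v / v * Real.exp (-(1 - β) * v)) t else 0))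
      (open Classical in if i = i0 then osc (fun v => Gt Y m j v / v) t else 0)
  linarith

theorem HPrD_lt_rpow {Y x u : ℝ} {n : ℕ} (hY : 1 < Y) (hn : 1 ≤ n) (h1 : Real.log n < x * Real.log Y) (hx : x ≤ u) :
    (n : ℝ) ≤ Y ^ u := by
  have hY0 : 0 < Y := by linarith
  have hn0 : (0 : ℝ) < n := by exact_mod_cast hn
  have hL0 : 0 < Real.log Y := Real.log_pos hY
  rw [← Real.log_le_log_iff hn0 (Real.rpow_pos_of_pos hY0 _), Real.log_rpow hY0]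
  nlinarith

theorem HPrD_pb_supp {Y : ℝ} {m j : ℕ} (hY : 3 ≤ Y) (hm : 1 ≤ m) (hj : j ≤ 3 * m + 1) (n : ℕ)
    (hn : ⌊Y ^ 5⌋₊ < n) : pb Y m j n = 0 := by
  by_contra hne
  unfold pb pw at hne
  split_ifs at hne with hp
  · have h1 := ((Gt_props Y m j hY hm).2.2 _ hne).2
    have hmp : (0 : ℝ) < m := by exact_mod_cast hm
    have hm1 : (1 : ℝ) ≤ m := by exact_mod_cast hm
    have hj' : (j : ℝ) ≤ 3 * m + 1 := by exact_mod_cast hj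
    have h5 : ((j : ℝ) + 1) / m ≤ (5 : ℕ) := by
      rw [div_le_iff₀ hmp]
      push_cast
      linarith
    have h2 := HPrD_lt_rpow (by linarith) hp.one_lt.le h1 h5
    rw [Real.rpow_natCast] at h2
    exact absurd (Nat.le_floor h2) (by omega)
  · exact hne rfl

theorem HPrD_rb_supp {Y y : ℝ} {m k : ℕ} (hY : 3 ≤ Y) (hm : 1 ≤ m) (hk : k ≤ 6 * m) (n : ℕ)
    (hn : ⌊Y ^ 7⌋₊ < n) : rb Y m y k n = 0 := by
  by_contra hne
  unfold rb at hne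
  have hne2 := right_ne_zero_of_mul hne
  have h1 := ((Gt_props Y m k hY hm).2.2 _ hne2).2
  have hmp : (0 : ℝ) < m := by exact_mod_cast hm
  have hm1 : (1 : ℝ) ≤ m := by exact_mod_cast hm
  have hj' : (k : ℝ) ≤ 6 * m := by exact_mod_cast hk
  have h5 : ((k : ℝ) + 1) / m ≤ (7 : ℕ) := by
    rw [div_le_iff₀ hmp]
    push_cast
    linarith
  have h2 := HPrD_lt_rpow (by linarith) (by omega) h1 h5
  rw [Real.rpow_natCast] at h2
  exact absurd (Nat.le_floor h2) (by omega)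

theorem HPrD_rh_ge {z : ℝ} {n : ℕ} (hn : 2 ≤ n) (h : rh z n = 1) : z ≤ n := by
  unfold rh at h
  split_ifs at h with h1
  · have h2 : n.minFac ∈ n.primeFactors := by
      rw [Nat.mem_primeFactors]
      exact ⟨Nat.minFac_prime (by omega), Nat.minFac_dvd n, by omega⟩
    refine (h1.2 _ h2).trans ?_
    exact_mod_cast Nat.minFac_le (by omega)
  · norm_num at h

theorem HPrD_rb {Y z y : ℝ} {m k : ℕ} (hY : 3 ≤ Y) (hm : 1 ≤ m) (hk : k ∈ Icc 1 (6 * m)) (hzy : z ≤ y) (n : ℕ) :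
    |rb Y m y k n| ≤ 1 ∧ (rb Y m y k n ≠ 0 → z ≤ n ∧ (n : ℝ) ≤ Y ^ 7 ∧ rh z n = 1) := by
  obtain ⟨hk1, hk2⟩ := Finset.mem_Icc.mp hk
  have hG := Gt_props Y m k hY hm
  refine ⟨?_, fun hne => ?_⟩
  · unfold rb
    obtain ⟨h1, h2⟩ := hG.1 (Real.log n)
    rcases HPrD_rh_cases y n with h | h
    · rw [h, one_mul, abs_of_nonneg h1]
      exact h2
    · rw [h, zero_mul, abs_zero]
      norm_num
  · have hup : (n : ℝ) ≤ Y ^ 7 := by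
      by_contra hc
      push Not at hc
      refine hne (HPrD_rb_supp hY hm hk2 n ?_)
      exact (Nat.floor_lt (by positivity)).mpr hc
    unfold rb at hne
    have hr := left_ne_zero_of_mul hne
    have hg := right_ne_zero_of_mul hne
    have hr1 : rh y n = 1 := by
      rcases HPrD_rh_cases y n with h | h
      · exact h
      · exact absurd h hr
    have hn2 : 2 ≤ n := by
      by_contra hc
      have hn : n = 0 ∨ n = 1 := by omega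
      have hlog : Real.log n = 0 := by
        rcases hn with h | h <;> simp [h]
      rw [hlog] at hg
      unfold Gt at hg
      refine hg ?_
      unfold tent
      have hk' : (1 : ℝ) ≤ k := by exact_mod_cast hk1
      rw [mul_zero, zero_div, zero_sub, abs_neg, Nat.abs_cast]
      exact max_eq_left (by linarith)
    exact ⟨hzy.trans (HPrD_rh_ge hn2 hr1), hup, HPrD_rh_mono hzy hr1⟩

theorem HPrD_lin0 {N : ℕ} {ι : Type*} (s : Finset ι) (w : ι → ℝ) (a b e : ℕ → ℝ) (c : ι → ℕ → ℝ)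
    (h : ∀ n, a n = b n + e n - ∑ x ∈ s, w x * c x n) {r : ℕ} (χ : DirichletCharacter ℂ r) (t : ℝ) :
    DP N a χ t = DP N b χ t + DP N e χ t - ∑ x ∈ s, (w x : ℂ) * DP N (c x) χ t := by
  unfold DP
  have e1 : ∑ x ∈ s, (w x : ℂ) * ∑ n ∈ Icc 1 N, ((c x n / n : ℝ) : ℂ) * χ (n : ZMod r) * nit n t =
      ∑ n ∈ Icc 1 N, ((((∑ x ∈ s, w x * c x n) / n : ℝ)) : ℂ) * χ (n : ZMod r) * nit n t := by
    simp_rw [Finset.mul_sum]
    rw [Finset.sum_comm]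
    refine Finset.sum_congr rfl fun n _ => ?_
    rw [Finset.sum_div]
    push_cast
    rw [Finset.sum_mul, Finset.sum_mul]
    refine Finset.sum_congr rfl fun x _ => ?_
    ring
  rw [e1, ← Finset.sum_add_distrib, ← Finset.sum_sub_distrib]
  refine Finset.sum_congr rfl fun n _ => ?_
  rw [h n]
  push_cast
  ring

/-- The error term of the decomposition. -/
def HPrD_err (Y η c : ℝ) (m i₀ n : ℕ) : ℝ :=
  (if n.Prime then tent ((Real.log n - c) / (η * Real.log Y)) else 0) -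
      (rh (Y ^ ((i₀ : ℝ) / m)) n * tent ((Real.log n - c) / (η * Real.log Y)) -
        ∑ j ∈ Icc i₀ (3 * m + 1), ∑ k ∈ Icc 1 (6 * m),
          tent ((((j + k : ℕ) : ℝ) * Real.log Y / m - c) / (η * Real.log Y)) *
          cv (pb Y m j) (rb Y m (Y ^ (((j : ℝ) - 1) / m)) k) n)

theorem HPrD_lin {Y η c : ℝ} {m i₀ N : ℕ} (hY : 3 ≤ Y) (hm : 1 ≤ m) (hN : Y ^ 12 ≤ (N : ℝ)) {r : ℕ}
    (χ : DirichletCharacter ℂ r) (t : ℝ) :
    DP N (pw fun v => tent ((v - c) / (η * Real.log Y))) χ t =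
      DP N (fun n => rh (Y ^ ((i₀ : ℝ) / m)) n * tent ((Real.log n - c) / (η * Real.log Y))) χ t +
      DP N (HPrD_err Y η c m i₀) χ t -
      ∑ x ∈ Icc i₀ (3 * m + 1) ×ˢ Icc 1 (6 * m),
        ((tent ((((x.1 + x.2 : ℕ) : ℝ) * Real.log Y / m - c) / (η * Real.log Y)) : ℝ) : ℂ) *
        (DP N (pb Y m x.1) χ t * DP N (rb Y m (Y ^ (((x.1 : ℝ) - 1) / m)) x.2) χ t) := by
  rw [HPrD_lin0 (Icc i₀ (3 * m + 1) ×ˢ Icc 1 (6 * m))
    (fun x => tent ((((x.1 + x.2 : ℕ) : ℝ) * Real.log Y / m - c) / (η * Real.log Y)))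
    (pw fun v => tent ((v - c) / (η * Real.log Y)))
    (fun n => rh (Y ^ ((i₀ : ℝ) / m)) n * tent ((Real.log n - c) / (η * Real.log Y)))
    (HPrD_err Y η c m i₀)
    (fun x => cv (pb Y m x.1) (rb Y m (Y ^ (((x.1 : ℝ) - 1) / m)) x.2)) ?_ χ t]
  · congr 1
    refine Finset.sum_congr rfl fun x hx => ?_
    obtain ⟨hx1, hx2⟩ := Finset.mem_product.mp hx
    congr 1
    refine DP_mul N _ _ ⌊Y ^ 5⌋₊ ⌊Y ^ 7⌋₊ (HPrD_pb_supp hY hm (Finset.mem_Icc.mp hx1).2)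
      (HPrD_rb_supp hY hm (Finset.mem_Icc.mp hx2).2) ?_ χ t
    have h1 : ((⌊Y ^ 5⌋₊ * ⌊Y ^ 7⌋₊ : ℕ) : ℝ) ≤ N := by
      push_cast
      refine le_trans ?_ hN
      calc (⌊Y ^ 5⌋₊ : ℝ) * ⌊Y ^ 7⌋₊ ≤ Y ^ 5 * Y ^ 7 := by
            gcongr
            · exact Nat.floor_le (by positivity)
            · exact Nat.floor_le (by positivity)
        _ = Y ^ 12 := by ring
    exact_mod_cast h1
  · intro n
    unfold HPrD_err pw
    rw [Finset.sum_product]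
    ring

theorem HPrD_extN {N N' : ℕ} (a : ℕ → ℝ) (hN : N ≤ N') (ha : ∀ n, N < n → a n = 0) {r : ℕ}
    (χ : DirichletCharacter ℂ r) (t : ℝ) : DP N a χ t = DP N' a χ t := by
  unfold DP
  refine Finset.sum_subset (Finset.Icc_subset_Icc_right hN) (fun n hn hn2 => ?_)
  have h1 := Finset.mem_Icc.mp hn
  have h2 : N < n := by
    by_contra hc
    exact hn2 (Finset.mem_Icc.mpr ⟨h1.1, by omega⟩)
  rw [ha n h2]
  simp

open Classical in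
/-- The exceptional integers. -/
def HPrD_X (Y θ τ : ℝ) : Finset ℕ := (Icc 2 ⌊Y ^ 6⌋₊).filter (fun n => rh (Y ^ θ) n = 1 ∧
        ((∃ p p' : ℕ, p.Prime ∧ p'.Prime ∧ p * p' ∣ n ∧ p ≤ p' ∧ (p' : ℝ) ≤ p * Y ^ τ) ∨
          ∃ p : ℕ, p.Prime ∧ p ∣ n ∧ (p : ℝ) ≤ Y ^ (θ + τ)))

theorem HPrD_errb {Y a η c θ τ : ℝ} {m i₀ : ℕ} (hY : 3 ≤ Y) (ha0 : 0 < a) (hη : 0 < η) (hi : 2 ≤ i₀) (hm : i₀ ≤ m)
    (ha : 4 * (i₀ : ℝ) / m ≤ a) (hc : a * Real.log Y ≤ c - η * Real.log Y)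
    (hc' : c + η * Real.log Y ≤ 6 * Real.log Y)
    (hθ : 7 / 6 * θ ≤ ((i₀ : ℝ) - 1) / m) (hτ : (i₀ : ℝ) / m ≤ 7 / 6 * (θ + τ))
    (hτ2 : 2 / (m : ℝ) ≤ 7 / 6 * τ) (n : ℕ) :
    (HPrD_err Y η c m i₀ n ≠ 0 → (Y ^ (7 / 6 : ℝ)) ^ θ ≤ n ∧ (n : ℝ) ≤ (Y ^ (7 / 6 : ℝ)) ^ 6 ∧
      rh ((Y ^ (7 / 6 : ℝ)) ^ θ) n = 1) ∧
    |HPrD_err Y η c m i₀ n| ≤ (6 * m / ((i₀ : ℝ) - 1) + 2) * (2 / (m * η) +
      (open Classical in if n ∈ HPrD_X (Y ^ (7 / 6 : ℝ)) θ τ then 1 else 0)) := by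
  classical
  have hY0 : 0 < Y := by linarith
  have hY1 : 1 ≤ Y := by linarith
  have hL0 : 0 < Real.log Y := Real.log_pos (by linarith)
  have hm0 : (0 : ℝ) < m := by exact_mod_cast (by omega : 0 < m)
  have hi0 : (0 : ℝ) < (i₀ : ℝ) - 1 := by
    have : (2 : ℝ) ≤ i₀ := by exact_mod_cast hi
    linarith
  have hF0 : 0 ≤ 6 * m / ((i₀ : ℝ) - 1) + 2 := by positivity
  have hnn : 0 ≤ (6 * m / ((i₀ : ℝ) - 1) + 2) * (2 / (m * η) +
      (if n ∈ HPrD_X (Y ^ (7 / 6 : ℝ)) θ τ then (1 : ℝ) else 0)) := by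
    have : (0 : ℝ) ≤ (if n ∈ HPrD_X (Y ^ (7 / 6 : ℝ)) θ τ then (1 : ℝ) else 0) := by
      split_ifs <;> norm_num
    positivity
  by_cases hn : 2 ≤ n
  · have hb := buch m i₀ hi hm Y a η c hY hη ha hc hc' n hn
    have e1 : (Y ^ (7 / 6 : ℝ)) ^ θ = Y ^ (7 / 6 * θ) := by rw [← Real.rpow_mul hY0.le]
    have e2 : (Y ^ (7 / 6 : ℝ)) ^ τ = Y ^ (7 / 6 * τ) := by rw [← Real.rpow_mul hY0.le]
    have e3 : (Y ^ (7 / 6 : ℝ)) ^ (θ + τ) = Y ^ (7 / 6 * (θ + τ)) := by rw [← Real.rpow_mul hY0.le]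
    have e4 := HPrD_pow7 hY0
    change |HPrD_err Y η c m i₀ n| ≤ _ at hb
    split_ifs at hb with hcond hexc
    · obtain ⟨hr, hup, hlo⟩ := hcond
      have hr' : rh ((Y ^ (7 / 6 : ℝ)) ^ θ) n = 1 := by
        rw [e1]
        exact HPrD_rh_mono (Real.rpow_le_rpow_of_exponent_le hY1 hθ) hr
      have hup' : (n : ℝ) ≤ (Y ^ (7 / 6 : ℝ)) ^ 6 := by
        rw [e4]
        refine hup.trans ?_
        have h1 : Y ^ (2 / m : ℝ) ≤ Y ^ (1 : ℝ) := by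
          refine Real.rpow_le_rpow_of_exponent_le hY1 ?_
          rw [div_le_one hm0]
          exact_mod_cast (by omega : 2 ≤ m)
        rw [Real.rpow_one] at h1
        calc Y ^ 6 * Y ^ (2 / m : ℝ) ≤ Y ^ 6 * Y := by gcongr
          _ = Y ^ 7 := by ring
      have hmem : n ∈ HPrD_X (Y ^ (7 / 6 : ℝ)) θ τ := by
        unfold HPrD_X
        rw [Finset.mem_filter, Finset.mem_Icc]
        refine ⟨⟨hn, Nat.le_floor hup'⟩, hr', ?_⟩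
        rcases hexc with ⟨p, p', hp, hp', hpp, hle, hle2⟩ | ⟨p, hp, hpn, hle⟩
        · refine Or.inl ⟨p, p', hp, hp', hpp, hle, hle2.trans ?_⟩
          rw [e2]
          have := Real.rpow_le_rpow_of_exponent_le hY1 hτ2
          gcongr
        · refine Or.inr ⟨p, hp, hpn, hle.trans ?_⟩
          rw [e3]
          exact Real.rpow_le_rpow_of_exponent_le hY1 hτ
      refine ⟨fun _ => ⟨HPrD_rh_ge hn hr', hup', hr'⟩, ?_⟩
      rw [if_pos hmem]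
      exact hb
    · obtain ⟨hr, hup, hlo⟩ := hcond
      have hr' : rh ((Y ^ (7 / 6 : ℝ)) ^ θ) n = 1 := by
        rw [e1]
        exact HPrD_rh_mono (Real.rpow_le_rpow_of_exponent_le hY1 hθ) hr
      have hup' : (n : ℝ) ≤ (Y ^ (7 / 6 : ℝ)) ^ 6 := by
        rw [e4]
        refine hup.trans ?_
        have h1 : Y ^ (2 / m : ℝ) ≤ Y ^ (1 : ℝ) := by
          refine Real.rpow_le_rpow_of_exponent_le hY1 ?_
          rw [div_le_one hm0]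
          exact_mod_cast (by omega : 2 ≤ m)
        rw [Real.rpow_one] at h1
        calc Y ^ 6 * Y ^ (2 / m : ℝ) ≤ Y ^ 6 * Y := by gcongr
          _ = Y ^ 7 := by ring
      refine ⟨fun _ => ⟨HPrD_rh_ge hn hr', hup', hr'⟩, hb.trans ?_⟩
      refine mul_le_mul_of_nonneg_left ?_ hF0
      have : (0 : ℝ) ≤ (if n ∈ HPrD_X (Y ^ (7 / 6 : ℝ)) θ τ then (1 : ℝ) else 0) := by
        split_ifs <;> norm_num
      linarith
    · have h0 : HPrD_err Y η c m i₀ n = 0 := abs_nonpos_iff.mp hb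
      exact ⟨fun h => absurd h0 h, by rw [h0, abs_zero]; exact hnn⟩
  · have h0 : HPrD_err Y η c m i₀ n = 0 := by
      have hn' : n = 0 ∨ n = 1 := by omega
      rcases hn' with rfl | rfl
      · unfold HPrD_err
        have h1 : rh (Y ^ ((i₀ : ℝ) / m)) 0 = 0 := by simp [rh]
        have h2 : ∀ f g : ℕ → ℝ, cv f g 0 = 0 := by
          intro f g
          simp [cv]
        rw [h1, if_neg Nat.not_prime_zero]
        simp [h2]
      · unfold HPrD_err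
        have h1 : tent ((Real.log ((1 : ℕ) : ℝ) - c) / (η * Real.log Y)) = 0 := by
          unfold tent
          refine max_eq_left ?_
          have h3 : 0 < η * Real.log Y := by positivity
          have h4 : 0 < a * Real.log Y := by positivity
          rw [Nat.cast_one, Real.log_one, zero_sub, neg_div, abs_neg, abs_of_pos (div_pos (by linarith) h3)]
          have : 1 ≤ c / (η * Real.log Y) := by
            rw [le_div_iff₀ h3]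
            linarith
          linarith
        have h2 : ∀ (j : ℕ) (g : ℕ → ℝ), cv (pb Y m j) g 1 = 0 := by
          intro j g
          simp [cv, pb, pw, Nat.not_prime_one]
        rw [h1, if_neg Nat.not_prime_one]
        simp [h2]
    exact ⟨fun h => absurd h0 h, by rw [h0, abs_zero]; exact hnn⟩

theorem HPrD_errsum {Y a η c θ τ εc M : ℝ} {m i₀ : ℕ} (hY : 3 ≤ Y) (ha0 : 0 < a) (hη : 0 < η) (hi : 2 ≤ i₀)
    (hm : i₀ ≤ m) (ha : 4 * (i₀ : ℝ) / m ≤ a) (hc : a * Real.log Y ≤ c - η * Real.log Y)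
    (hc' : c + η * Real.log Y ≤ 6 * Real.log Y)
    (hθ : 7 / 6 * θ ≤ ((i₀ : ℝ) - 1) / m) (hτ : (i₀ : ℝ) / m ≤ 7 / 6 * (θ + τ))
    (hτ2 : 2 / (m : ℝ) ≤ 7 / 6 * τ) (N : ℕ)
    (hM : ∑ n ∈ (Icc 1 N).filter (fun n : ℕ => (Y ^ (7 / 6 : ℝ)) ^ θ ≤ n ∧ (n : ℝ) ≤ (Y ^ (7 / 6 : ℝ)) ^ 6),
      rh ((Y ^ (7 / 6 : ℝ)) ^ θ) n / n ≤ M)
    (hE : ∑ n ∈ HPrD_X (Y ^ (7 / 6 : ℝ)) θ τ, (1 : ℝ) / n ≤ εc) :
    ∑ n ∈ Icc 1 N, HPrD_err Y η c m i₀ n ^ 2 / n ≤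
      2 * (6 * m / ((i₀ : ℝ) - 1) + 2) ^ 2 * ((2 / (m * η)) ^ 2 * M + εc) := by
  classical
  set F : ℝ := 6 * m / ((i₀ : ℝ) - 1) + 2 with hF
  set u : ℝ := 2 / (m * η) with hu
  have hterm : ∀ n ∈ Icc 1 N, HPrD_err Y η c m i₀ n ^ 2 / n ≤ 2 * F ^ 2 * (u ^ 2 *
      (if (Y ^ (7 / 6 : ℝ)) ^ θ ≤ n ∧ (n : ℝ) ≤ (Y ^ (7 / 6 : ℝ)) ^ 6 then rh ((Y ^ (7 / 6 : ℝ)) ^ θ) n / n else 0) +
      (if n ∈ HPrD_X (Y ^ (7 / 6 : ℝ)) θ τ then (1 : ℝ) / n else 0)) := by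
    intro n hn
    have hn0 : (0 : ℝ) < n := by exact_mod_cast (Finset.mem_Icc.mp hn).1
    obtain ⟨h1, h2⟩ := HPrD_errb hY ha0 hη hi hm ha hc hc' hθ hτ hτ2 n
    by_cases hz : HPrD_err Y η c m i₀ n = 0
    · rw [hz]
      have t1 : (0 : ℝ) ≤ (if (Y ^ (7 / 6 : ℝ)) ^ θ ≤ n ∧ (n : ℝ) ≤ (Y ^ (7 / 6 : ℝ)) ^ 6 then
          rh ((Y ^ (7 / 6 : ℝ)) ^ θ) n / n else 0) := by
        split_ifs
        · exact div_nonneg (HPrD_rh_nonneg _ _) hn0.le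
        · exact le_rfl
      have t2 : (0 : ℝ) ≤ (if n ∈ HPrD_X (Y ^ (7 / 6 : ℝ)) θ τ then (1 : ℝ) / n else 0) := by
        split_ifs
        · positivity
        · exact le_rfl
      have : (0 : ℝ) ≤ 2 * F ^ 2 * (u ^ 2 *
        (if (Y ^ (7 / 6 : ℝ)) ^ θ ≤ n ∧ (n : ℝ) ≤ (Y ^ (7 / 6 : ℝ)) ^ 6 then
          rh ((Y ^ (7 / 6 : ℝ)) ^ θ) n / n else 0) +
        (if n ∈ HPrD_X (Y ^ (7 / 6 : ℝ)) θ τ then (1 : ℝ) / n else 0)) := by positivity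
      simpa using this
    · obtain ⟨h3, h4, h5⟩ := h1 hz
      rw [if_pos ⟨h3, h4⟩, h5]
      set e : ℝ := (if n ∈ HPrD_X (Y ^ (7 / 6 : ℝ)) θ τ then (1 : ℝ) else 0) with he
      have he1 : (if n ∈ HPrD_X (Y ^ (7 / 6 : ℝ)) θ τ then (1 : ℝ) / n else 0) = e / n := by
        rw [he]
        split_ifs <;> simp
      have he2 : e ^ 2 = e := by
        rw [he]
        split_ifs <;> simp
      rw [he1]
      have h6 : HPrD_err Y η c m i₀ n ^ 2 ≤ (F * (u + e)) ^ 2 := by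
        rw [← sq_abs]
        exact pow_le_pow_left₀ (abs_nonneg _) h2 2
      have h7 : (F * (u + e)) ^ 2 ≤ 2 * F ^ 2 * (u ^ 2 + e) := by
        have h8 : (u + e) ^ 2 ≤ 2 * (u ^ 2 + e) := by
          nlinarith [sq_nonneg (u - e)]
        calc (F * (u + e)) ^ 2 = F ^ 2 * (u + e) ^ 2 := by ring
          _ ≤ F ^ 2 * (2 * (u ^ 2 + e)) := by gcongr
          _ = _ := by ring
      calc HPrD_err Y η c m i₀ n ^ 2 / n ≤ (2 * F ^ 2 * (u ^ 2 + e)) / n := by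
            gcongr
            exact h6.trans h7
        _ = _ := by ring
  refine (Finset.sum_le_sum hterm).trans ?_
  rw [← Finset.mul_sum, Finset.sum_add_distrib, ← Finset.mul_sum, ← Finset.sum_filter]
  have hF2 : 0 ≤ 2 * F ^ 2 := by positivity
  refine mul_le_mul_of_nonneg_left ?_ hF2
  refine add_le_add (mul_le_mul_of_nonneg_left hM (sq_nonneg _)) ?_
  refine le_trans ?_ hE
  rw [← Finset.sum_filter]
  refine Finset.sum_le_sum_of_subset_of_nonneg ?_ ?_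
  · intro n hn
    exact (Finset.mem_filter.mp hn).2
  · intro n _ _
    positivity

theorem HPrD_sumW {Y θ M : ℝ} {N : ℕ} {a : ℕ → ℝ}
    (hM : ∑ n ∈ (Icc 1 N).filter (fun n : ℕ => Y ^ θ ≤ n ∧ (n : ℝ) ≤ Y ^ 6), rh (Y ^ θ) n / n ≤ M)
    (h1 : ∀ n, |a n| ≤ 1) (h : ∀ n, a n ≠ 0 → Y ^ θ ≤ n ∧ (n : ℝ) ≤ Y ^ 6 ∧ rh (Y ^ θ) n = 1) :
    ∑ n ∈ Icc 1 N, a n ^ 2 / n ≤ M := by
  classical
  refine le_trans ?_ hM
  rw [Finset.sum_filter]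
  refine Finset.sum_le_sum fun n hn => ?_
  have hn0 : (0 : ℝ) < n := by exact_mod_cast (Finset.mem_Icc.mp hn).1
  by_cases hz : a n = 0
  · rw [hz]
    split_ifs
    · have := div_nonneg (HPrD_rh_nonneg (Y ^ θ) n) hn0.le
      simpa using this
    · simp
  · obtain ⟨h3, h4, h5⟩ := h n hz
    rw [if_pos ⟨h3, h4⟩, h5]
    gcongr
    rw [← sq_abs]
    exact pow_le_one₀ (abs_nonneg _) (h1 n)

theorem HPrD_point {ι : Type*} (s : Finset ι) (Q μ : ℝ) (hQ : (s.card : ℝ) ≤ Q) (D A B : ℂ) (w : ι → ℝ)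
    (P G : ι → ℂ) (hD : D = A + B - ∑ x ∈ s, (w x : ℂ) * (P x * G x)) (hw : ∀ x, 0 ≤ w x ∧ w x ≤ 1)
    (hP : ∀ x ∈ s, ‖P x‖ ≤ μ) :
    ‖D‖ ^ 2 ≤ 3 * ‖A‖ ^ 2 + 3 * ‖B‖ ^ 2 + 3 * Q * μ ^ 2 * ∑ x ∈ s, ‖G x‖ ^ 2 := by
  have h1 : ‖∑ x ∈ s, (w x : ℂ) * (P x * G x)‖ ≤ μ * ∑ x ∈ s, ‖G x‖ := by
    refine (norm_sum_le _ _).trans ?_
    rw [Finset.mul_sum]
    refine Finset.sum_le_sum fun x hx => ?_
    rw [norm_mul, norm_mul, Complex.norm_real, Real.norm_eq_abs, abs_of_nonneg (hw x).1]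
    calc w x * (‖P x‖ * ‖G x‖) ≤ 1 * (μ * ‖G x‖) := by
          gcongr
          · exact (hw x).2
          · exact hP x hx
      _ = _ := one_mul _
  have h2 : (∑ x ∈ s, ‖G x‖) ^ 2 ≤ Q * ∑ x ∈ s, ‖G x‖ ^ 2 := by
    refine (sq_sum_le_card_mul_sum_sq).trans ?_
    have : 0 ≤ ∑ x ∈ s, ‖G x‖ ^ 2 := Finset.sum_nonneg fun _ _ => sq_nonneg _
    gcongr
  have h3 : ‖D‖ ≤ ‖A‖ + ‖B‖ + ‖∑ x ∈ s, (w x : ℂ) * (P x * G x)‖ := by
    rw [hD]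
    exact (norm_sub_le _ _).trans (by linarith [norm_add_le A B])
  set S := ‖∑ x ∈ s, (w x : ℂ) * (P x * G x)‖ with hS
  have hS0 : 0 ≤ S := norm_nonneg _
  have hA0 := norm_nonneg A
  have hB0 := norm_nonneg B
  have h4 : ‖D‖ ^ 2 ≤ (‖A‖ + ‖B‖ + S) ^ 2 := pow_le_pow_left₀ (norm_nonneg _) h3 2
  have h5 : (‖A‖ + ‖B‖ + S) ^ 2 ≤ 3 * ‖A‖ ^ 2 + 3 * ‖B‖ ^ 2 + 3 * S ^ 2 := by
    nlinarith [sq_nonneg (‖A‖ - ‖B‖), sq_nonneg (‖A‖ - S), sq_nonneg (‖B‖ - S)]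
  have h6 : S ^ 2 ≤ μ ^ 2 * (Q * ∑ x ∈ s, ‖G x‖ ^ 2) := by
    calc S ^ 2 ≤ (μ * ∑ x ∈ s, ‖G x‖) ^ 2 := pow_le_pow_left₀ hS0 h1 2
      _ = μ ^ 2 * (∑ x ∈ s, ‖G x‖) ^ 2 := by ring
      _ ≤ _ := mul_le_mul_of_nonneg_left h2 (sq_nonneg _)
  nlinarith

/-- **Small mean squares of prime polynomials.**

Proof. Let `b = a`. Choose `b₂ = i₀ / m` for `l2_rest` (with `ε / 8`), `m` so large that the exceptional terms of `buch` have
`∑ e (n) ^ 2 / n ≤ ε'' ` (`close_mass` with `θ = (i₀ - 1) / m`, `τ = 2 / m`: choose first the ratio `i₀ / m`, then `m` large;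
`∑ rh / n ≤ C` over `[Y ^ (a / 2), Y ^ 7]` for the part `2 / (m η)`); by `l2_rough` their mean square is `≤ ε / (8 log Y)`. The products: by
`DP_mul` they are `DP (pb j) DP (rb k)`; on the sets `‖DP (pb j)‖ ≤ ε' + C / K` (`PBL` with `a' = (i₀ - 1) / m`, `η' = 1 / m`, and
`osc_decay` for `i0`, `i1`), and the mean square of `DP (rb k)` is `≤ C / log Y` (`l2_rough`); Cauchy over the
`≤ 20 m ^ 2` pairs. -/
theorem l2_prime (a η ε : ℝ) (ha : 0 < a) (ha1 : a ≤ 1) (hη : 0 < η) (hη1 : η ≤ 1) (hε : 0 < ε) :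
    ∃ a' η' ε' K κ δ₀ Y₀ : ℝ, 0 < a' ∧ a' ≤ 1 ∧ 0 < η' ∧ η' ≤ 1 ∧ 0 < ε' ∧ 0 < K ∧ 0 < κ ∧ 0 < δ₀ ∧ 3 ≤ Y₀ ∧
      ∀ (Y δ : ℝ) (i1 : CC) (β : ℝ), Y₀ ≤ Y → 0 < δ → δ ≤ δ₀ → β ≤ 1 → PBL Y δ a' η' ε' i1 β →
        ∀ (E : CC → Set ℝ) (c : ℝ) (N : ℕ), Fam ⌊Y ^ δ⌋₊ (Y ^ (3 / 2 : ℝ)) (Y ^ κ) E →
          (∀ t ∈ E i0, K / Real.log Y ≤ |t|) → (∀ t ∈ E i1, K / Real.log Y ≤ |t|) →
          a * Real.log Y ≤ c - η * Real.log Y → c + η * Real.log Y ≤ 6 * Real.log Y → Y ^ 6 ≤ N →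
            ∑ i ∈ CR ⌊Y ^ δ⌋₊, ∫ t in E i,
              ‖DP N (pw fun v => tent ((v - c) / (η * Real.log Y))) i.2 t‖ ^ 2 ≤ ε / Real.log Y := by
  obtain ⟨b₀, hb₀, Hrest⟩ := HPrD_rest a η (ε / 9) ha ha1 hη hη1 (by positivity)
  obtain ⟨θ, hθdef⟩ : ∃ θ : ℝ, θ = min (b₀ / 4) (a / 16) := ⟨_, rfl⟩
  have hθ0 : 0 < θ := by
    rw [hθdef]
    exact lt_min (by linarith) (by linarith)
  have hθb : θ ≤ b₀ / 4 := hθdef ▸ min_le_left _ _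
  have hθa : θ ≤ a / 16 := hθdef ▸ min_le_right _ _
  have hθ1 : θ ≤ 1 := by linarith
  obtain ⟨κr, δr, Cr, M, Yr, hκr, hδr, hCr, hM, hYr, Hr⟩ := HPrD_rough θ hθ0 hθ1
  obtain ⟨F₀, hF₀def⟩ : ∃ F₀ : ℝ, F₀ = 6 / θ + 2 := ⟨_, rfl⟩
  have hF₀ : 0 < F₀ := by
    rw [hF₀def]
    positivity
  obtain ⟨τ, Yc, hτ, hYc, Hc⟩ := close_mass θ (ε / (36 * F₀ ^ 2 * Cr)) hθ0 hθ1 (by positivity)
  obtain ⟨q, hqdef⟩ : ∃ q : ℝ, q = min 1 (ε / (36 * F₀ ^ 2 * Cr * M)) := ⟨_, rfl⟩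
  have hq0 : 0 < q := by
    rw [hqdef]
    exact lt_min one_pos (by positivity)
  have hq1 : q ≤ 1 := hqdef ▸ min_le_left _ _
  have hq2 : q ≤ ε / (36 * F₀ ^ 2 * Cr * M) := hqdef ▸ min_le_right _ _
  obtain ⟨m, hm⟩ := exists_nat_gt (max (max 2 (4 / θ)) (max (2 / τ) (2 / (η * q))))
  have hm2 : (2 : ℝ) < m := lt_of_le_of_lt ((le_max_left _ _).trans (le_max_left _ _)) hm
  have hmθ : 4 / θ < m := lt_of_le_of_lt ((le_max_right _ _).trans (le_max_left _ _)) hm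
  have hmτ : 2 / τ < m := lt_of_le_of_lt ((le_max_left _ _).trans (le_max_right _ _)) hm
  have hmq : 2 / (η * q) < m := lt_of_le_of_lt ((le_max_right _ _).trans (le_max_right _ _)) hm
  have hm0 : (0 : ℝ) < m := by linarith
  have hm1 : 1 ≤ m := by
    have : (0 : ℝ) < m := hm0
    exact_mod_cast this
  rw [div_lt_iff₀ hθ0] at hmθ
  rw [div_lt_iff₀ hτ] at hmτ
  rw [div_lt_iff₀ (by positivity)] at hmq
  obtain ⟨i₀, hi₀def⟩ : ∃ i₀ : ℕ, i₀ = ⌈7 / 6 * θ * m⌉₊ + 1 := ⟨_, rfl⟩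
  have hceil : 0 < ⌈7 / 6 * θ * m⌉₊ := Nat.ceil_pos.mpr (by positivity)
  have hi2 : 2 ≤ i₀ := by omega
  have hi2' : (2 : ℝ) ≤ i₀ := by exact_mod_cast hi2
  have hilo : 7 / 6 * θ * m ≤ (i₀ : ℝ) - 1 := by
    rw [hi₀def]
    push_cast
    linarith [Nat.le_ceil (7 / 6 * θ * m)]
  have hihi : (i₀ : ℝ) < 7 / 6 * θ * m + 2 := by
    rw [hi₀def]
    push_cast
    linarith [Nat.ceil_lt_add_one (by positivity : 0 ≤ 7 / 6 * θ * m)]
  have hi2θ : (i₀ : ℝ) ≤ 2 * θ * m := by linarith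
  have hθm : 0 < θ * m := by positivity
  have him : i₀ ≤ m := by
    have h1 : 2 * θ ≤ 1 := by linarith
    have h2 := mul_le_mul_of_nonneg_right h1 hm0.le
    have : (i₀ : ℝ) ≤ m := by linarith
    exact_mod_cast this
  have hib : (i₀ : ℝ) / m ≤ b₀ := by
    rw [div_le_iff₀ hm0]
    have h1 : 2 * θ ≤ b₀ := by linarith
    have h2 := mul_le_mul_of_nonneg_right h1 hm0.le
    linarith
  have hia : 4 * (i₀ : ℝ) / m ≤ a := by
    rw [div_le_iff₀ hm0]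
    have h1 : 4 * (2 * θ) ≤ a := by linarith
    have h2 := mul_le_mul_of_nonneg_right h1 hm0.le
    linarith
  have hi1 : (0 : ℝ) < (i₀ : ℝ) - 1 := by linarith
  have hF : 6 * m / ((i₀ : ℝ) - 1) + 2 ≤ F₀ := by
    rw [hF₀def]
    have : 6 * m / ((i₀ : ℝ) - 1) ≤ 6 / θ := by
      rw [div_le_div_iff₀ hi1 hθ0]
      linarith
    linarith
  have hFp : 0 ≤ 6 * m / ((i₀ : ℝ) - 1) + 2 := by positivity
  have hc1 : 7 / 6 * θ ≤ ((i₀ : ℝ) - 1) / m := by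
    rw [le_div_iff₀ hm0]
    exact hilo
  have hc2 : (i₀ : ℝ) / m ≤ 7 / 6 * (θ + τ) := by
    rw [div_le_iff₀ hm0]
    linarith
  have hc3 : 2 / (m : ℝ) ≤ 7 / 6 * τ := by
    rw [div_le_iff₀ hm0]
    linarith
  have hu : 2 / (m * η) ≤ q := by
    rw [div_le_iff₀ (by positivity)]
    linarith
  have hu0 : 0 < 2 / (m * η) := by positivity
  obtain ⟨K₁, κ₁, δ₁, Y₁, hK₁, hκ₁, hδ₁, hY₁, H₁⟩ := Hrest ((i₀ : ℝ) / m) (by positivity) hib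
  have ha'0 : 0 < ((i₀ : ℝ) - 1) / m := by positivity
  have ha'1 : ((i₀ : ℝ) - 1) / m ≤ 1 := by
    rw [div_le_one hm0]
    have : (i₀ : ℝ) ≤ m := by exact_mod_cast him
    linarith
  have hη'0 : 0 < 1 / (m : ℝ) := by positivity
  have hη'1 : 1 / (m : ℝ) ≤ 1 := by
    rw [div_le_one hm0]
    linarith
  obtain ⟨Co, hCo, Hosc⟩ := osc_decay (((i₀ : ℝ) - 1) / m) (1 / m) ha'0 ha'1 hη'0 hη'1
  obtain ⟨s, hs⟩ : ∃ s : Finset (ℕ × ℕ), s = Icc i₀ (3 * m + 1) ×ˢ Icc 1 (6 * m) := ⟨_, rfl⟩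
  obtain ⟨Q, hQ⟩ : ∃ Q : ℝ, Q = (s.card : ℝ) + 1 := ⟨_, rfl⟩
  have hQ0 : 0 < Q := by
    rw [hQ]
    positivity
  obtain ⟨μ, hμdef⟩ : ∃ μ : ℝ, μ = min 1 (ε / (9 * Q ^ 2 * Cr * M)) := ⟨_, rfl⟩
  have hμ0 : 0 < μ := by
    rw [hμdef]
    exact lt_min one_pos (by positivity)
  have hμ1 : μ ≤ 1 := hμdef ▸ min_le_left _ _
  have hμ2 : μ ≤ ε / (9 * Q ^ 2 * Cr * M) := hμdef ▸ min_le_right _ _
  refine ⟨((i₀ : ℝ) - 1) / m, 1 / m, μ / 2, max K₁ (4 * Co / μ), min κ₁ κr, min δ₁ δr, max (max Y₁ Yr) Yc,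
    ha'0, ha'1, hη'0, hη'1, by positivity, lt_of_lt_of_le hK₁ (le_max_left _ _), lt_min hκ₁ hκr,
    lt_min hδ₁ hδr, hYc.trans (le_max_right _ _), ?_⟩
  intro Y δ i1 β hY hδ hδ' hβ hP E c N hFam hE0 hE1 hc hc' hN
  have hYY1 : Y₁ ≤ Y := ((le_max_left _ _).trans (le_max_left _ _)).trans hY
  have hYYr : Yr ≤ Y := ((le_max_right _ _).trans (le_max_left _ _)).trans hY
  have hYYc : Yc ≤ Y := (le_max_right _ _).trans hY
  have hY3 : 3 ≤ Y := hYc.trans hYYc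
  have hY0 : 0 < Y := by linarith
  have hY1 : 1 ≤ Y := by linarith
  have hL0 : 0 < Real.log Y := Real.log_pos (by linarith)
  obtain ⟨K, hK⟩ : ∃ K : ℝ, K = max K₁ (4 * Co / μ) := ⟨_, rfl⟩
  rw [← hK] at hE0 hE1
  have hK1 : K₁ ≤ K := hK ▸ le_max_left _ _
  have hK2 : 4 * Co / μ ≤ K := hK ▸ le_max_right _ _
  have hK0 : 0 < K := hK₁.trans_le hK1
  -- the larger length
  obtain ⟨N', hN'⟩ : ∃ N' : ℕ, N' = N + ⌈Y ^ 12⌉₊ := ⟨_, rfl⟩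
  have hN'12 : Y ^ 12 ≤ (N' : ℝ) := by
    rw [hN']
    push_cast
    have := Nat.le_ceil (Y ^ 12)
    have h0 : (0 : ℝ) ≤ N := Nat.cast_nonneg N
    linarith
  have hN'6 : Y ^ 6 ≤ (N' : ℝ) := by
    refine hN.trans ?_
    exact_mod_cast (by omega : N ≤ N')
  have hsupp : ∀ n, N < n → (pw fun v => tent ((v - c) / (η * Real.log Y))) n = 0 := by
    intro n hn
    unfold pw
    split_ifs
    · have hn1 : (N : ℝ) < n := by exact_mod_cast hn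
      have hn2 : Y ^ 6 ≤ (n : ℝ) := by linarith
      have hlog : 6 * Real.log Y ≤ Real.log n := by
        have := Real.log_le_log (by positivity) hn2
        rwa [Real.log_pow] at this
      unfold tent
      refine max_eq_left ?_
      have h3 : 0 < η * Real.log Y := by positivity
      have : 1 ≤ (Real.log n - c) / (η * Real.log Y) := by
        rw [le_div_iff₀ h3]
        linarith
      have := le_abs_self ((Real.log n - c) / (η * Real.log Y))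
      linarith
    · rfl
  have hDP : ∀ (i : CC) (t : ℝ), DP N (pw fun v => tent ((v - c) / (η * Real.log Y))) i.2 t =
      DP N' (pw fun v => tent ((v - c) / (η * Real.log Y))) i.2 t := fun i t =>
    HPrD_extN _ (by omega) hsupp i.2 t
  simp_rw [hDP]
  -- the pointwise decomposition
  obtain ⟨Yp, hYp⟩ : ∃ Yp : ℝ, Yp = Y ^ (7 / 6 : ℝ) := ⟨_, rfl⟩
  have hYYp : Y ≤ Yp := by
    rw [hYp]
    calc Y = Y ^ (1 : ℝ) := (Real.rpow_one Y).symm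
      _ ≤ Y ^ (7 / 6 : ℝ) := Real.rpow_le_rpow_of_exponent_le hY1 (by norm_num)
  have hYp0 : 0 < Yp := by linarith
  have hLp : Real.log Y ≤ Real.log Yp := Real.log_le_log hY0 hYYp
  have hms := HPrD_mono hFam s (3 * Q * μ ^ 2)
    (fun i t => DP N' (pw fun v => tent ((v - c) / (η * Real.log Y))) i.2 t)
    (fun i t => DP N' (fun n => rh (Y ^ ((i₀ : ℝ) / m)) n * tent ((Real.log n - c) / (η * Real.log Y))) i.2 t)
    (fun i t => DP N' (HPrD_err Y η c m i₀) i.2 t)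
    (fun x i t => DP N' (rb Y m (Y ^ (((x.1 : ℝ) - 1) / m)) x.2) i.2 t)
    (fun i => DP_continuous _ _ _) (fun i => DP_continuous _ _ _) (fun i => DP_continuous _ _ _)
    (fun x i => DP_continuous _ _ _) (by
      intro i hi t ht
      refine HPrD_point s Q μ (by rw [hQ]; linarith) _ _ _
        (fun x => tent ((((x.1 + x.2 : ℕ) : ℝ) * Real.log Y / m - c) / (η * Real.log Y)))
        (fun x => DP N' (pb Y m x.1) i.2 t) _ ?_ ?_ ?_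
      · rw [hs]
        exact HPrD_lin hY3 hm1 hN'12 i.2 t
      · intro x
        unfold tent
        have hab := abs_nonneg ((((x.1 + x.2 : ℕ) : ℝ) * Real.log Y / m - c) / (η * Real.log Y))
        exact ⟨le_max_left _ _, max_le zero_le_one (by linarith)⟩
      · intro x hx
        rw [hs] at hx
        have h1 := HPrD_pb hY3 hm1 hβ hCo hK0 Hosc hP (Finset.mem_product.mp hx).1 hN'6 hFam hE0 hE1 hi ht
        refine h1.trans ?_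
        have h2 : Co / K ≤ μ / 4 := by
          rw [div_le_iff₀ hμ0] at hK2
          rw [div_le_iff₀ hK0]
          linarith
        linarith)
  -- the three terms
  have hT32 : Y ^ (3 / 2 : ℝ) ≤ Y ^ 2 := by
    rw [← Real.rpow_natCast Y 2]
    exact Real.rpow_le_rpow_of_exponent_le hY1 (by norm_num)
  have hb1 := H₁ Y c ⌊Y ^ δ⌋₊ (Y ^ (3 / 2 : ℝ)) (Y ^ (min κ₁ κr)) E N' hYY1
    (Nat.floor_le_floor (Real.rpow_le_rpow_of_exponent_le hY1 (hδ'.trans (min_le_left _ _)))) hT32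
    (Real.rpow_le_rpow_of_exponent_le hY1 (min_le_left _ _)) hFam
    (fun t ht => le_trans (by gcongr) (hE0 t ht)) hc hc' hN'6
  obtain ⟨hmass, Hr'⟩ := Hr Yp (hYYr.trans hYYp)
  have hRp : ⌊Y ^ δ⌋₊ ≤ ⌊Yp ^ δr⌋₊ := by
    refine Nat.floor_le_floor ?_
    calc Y ^ δ ≤ Y ^ δr := Real.rpow_le_rpow_of_exponent_le hY1 (hδ'.trans (min_le_right _ _))
      _ ≤ Yp ^ δr := Real.rpow_le_rpow hY0.le hYYp hδr.le
  have hTp : Y ^ (3 / 2 : ℝ) ≤ Yp ^ 2 := hT32.trans (by gcongr)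
  have hVp : Y ^ (min κ₁ κr) ≤ Yp ^ κr := by
    calc Y ^ (min κ₁ κr) ≤ Y ^ κr := Real.rpow_le_rpow_of_exponent_le hY1 (min_le_right _ _)
      _ ≤ Yp ^ κr := Real.rpow_le_rpow hY0.le hYYp hκr.le
  have hLdiv : Cr / Real.log Yp ≤ Cr / Real.log Y := by gcongr
  have hCL : 0 < Cr / Real.log Y := by positivity
  -- the error term
  have hX : ∑ n ∈ HPrD_X (Y ^ (7 / 6 : ℝ)) θ τ, (1 : ℝ) / n ≤ ε / (36 * F₀ ^ 2 * Cr) := by
    rw [← hYp]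
    refine Hc Yp ⌊Yp ^ 6⌋₊ (hYYc.trans hYYp) ?_
    have := Nat.floor_le (by positivity : 0 ≤ Yp ^ 6)
    linarith
  have hmass' := hmass N'
  rw [hYp] at hmass'
  have herr := HPrD_errsum hY3 ha hη hi2 him hia hc hc' hc1 hc2 hc3 N' hmass' hX
  have hb2 := Hr' ⌊Y ^ δ⌋₊ (Y ^ (3 / 2 : ℝ)) (Y ^ (min κ₁ κr)) E N' (HPrD_err Y η c m i₀) hRp hTp hVp hFam
    (fun n hn => by
      have := (HPrD_errb hY3 ha hη hi2 him hia hc hc' hc1 hc2 hc3 n).1 hn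
      rw [← hYp] at this
      exact this)
  have hes : Cr * ∑ n ∈ Icc 1 N', HPrD_err Y η c m i₀ n ^ 2 / n ≤ ε / 9 := by
    have h1 : 2 * (6 * m / ((i₀ : ℝ) - 1) + 2) ^ 2 * ((2 / (m * η)) ^ 2 * M + ε / (36 * F₀ ^ 2 * Cr)) ≤
        2 * F₀ ^ 2 * (ε / (36 * F₀ ^ 2 * Cr * M) * M + ε / (36 * F₀ ^ 2 * Cr)) := by
      have h2 : (2 / (m * η)) ^ 2 ≤ ε / (36 * F₀ ^ 2 * Cr * M) := by
        calc (2 / (m * η)) ^ 2 ≤ q ^ 2 := pow_le_pow_left₀ hu0.le hu 2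
          _ ≤ q := pow_le_of_le_one hq0.le hq1 two_ne_zero
          _ ≤ _ := hq2
      gcongr
    calc Cr * ∑ n ∈ Icc 1 N', HPrD_err Y η c m i₀ n ^ 2 / n
        ≤ Cr * (2 * F₀ ^ 2 * (ε / (36 * F₀ ^ 2 * Cr * M) * M + ε / (36 * F₀ ^ 2 * Cr))) := by
          gcongr
          exact herr.trans h1
      _ = ε / 9 := by
          field_simp
          ring
  have hb2' : ∑ i ∈ CR ⌊Y ^ δ⌋₊, ∫ t in E i, ‖DP N' (HPrD_err Y η c m i₀) i.2 t‖ ^ 2 ≤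
      ε / 9 / Real.log Y := by
    have h0 : 0 ≤ ∑ n ∈ Icc 1 N', HPrD_err Y η c m i₀ n ^ 2 / n :=
      Finset.sum_nonneg fun n _ => by positivity
    calc _ ≤ Cr / Real.log Yp * ∑ n ∈ Icc 1 N', HPrD_err Y η c m i₀ n ^ 2 / n := hb2
      _ ≤ Cr / Real.log Y * ∑ n ∈ Icc 1 N', HPrD_err Y η c m i₀ n ^ 2 / n := by gcongr
      _ = (Cr * ∑ n ∈ Icc 1 N', HPrD_err Y η c m i₀ n ^ 2 / n) / Real.log Y := by ring
      _ ≤ _ := by gcongr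
  -- the products
  have hb3 : ∀ x ∈ s, ∑ i ∈ CR ⌊Y ^ δ⌋₊, ∫ t in E i,
      ‖DP N' (rb Y m (Y ^ (((x.1 : ℝ) - 1) / m)) x.2) i.2 t‖ ^ 2 ≤ Cr / Real.log Y * M := by
    intro x hx
    rw [hs] at hx
    obtain ⟨hx1, hx2⟩ := Finset.mem_product.mp hx
    have hx1' : (i₀ : ℝ) ≤ x.1 := by exact_mod_cast (Finset.mem_Icc.mp hx1).1
    have hz : Yp ^ θ ≤ Y ^ (((x.1 : ℝ) - 1) / m) := by
      rw [hYp, ← Real.rpow_mul hY0.le]
      refine Real.rpow_le_rpow_of_exponent_le hY1 (hc1.trans ?_)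
      gcongr
    have hrb := HPrD_rb (m := m) (k := x.2) hY3 hm1 hx2 hz
    have h7 : Yp ^ 6 = Y ^ 7 := by rw [hYp, HPrD_pow7 hY0]
    have hsup : ∀ n, rb Y m (Y ^ (((x.1 : ℝ) - 1) / m)) x.2 n ≠ 0 →
        Yp ^ θ ≤ n ∧ (n : ℝ) ≤ Yp ^ 6 ∧ rh (Yp ^ θ) n = 1 := by
      intro n hn
      rw [h7]
      exact (hrb n).2 hn
    have h1 := Hr' ⌊Y ^ δ⌋₊ (Y ^ (3 / 2 : ℝ)) (Y ^ (min κ₁ κr)) E N' _ hRp hTp hVp hFam hsup
    have h2 := HPrD_sumW (hmass N') (fun n => (hrb n).1) hsup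
    calc _ ≤ Cr / Real.log Yp * ∑ n ∈ Icc 1 N', rb Y m (Y ^ (((x.1 : ℝ) - 1) / m)) x.2 n ^ 2 / n := h1
      _ ≤ Cr / Real.log Yp * M := by
          have : 0 < Real.log Yp := by linarith
          gcongr
      _ ≤ Cr / Real.log Y * M := by gcongr
  have hb3' : 3 * Q * μ ^ 2 * ∑ x ∈ s, ∑ i ∈ CR ⌊Y ^ δ⌋₊, ∫ t in E i,
      ‖DP N' (rb Y m (Y ^ (((x.1 : ℝ) - 1) / m)) x.2) i.2 t‖ ^ 2 ≤ ε / 3 / Real.log Y := by
    have h1 := Finset.sum_le_sum hb3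
    rw [Finset.sum_const, nsmul_eq_mul] at h1
    have h2 : (s.card : ℝ) * (Cr / Real.log Y * M) ≤ Q * (Cr / Real.log Y * M) := by
      have : (s.card : ℝ) ≤ Q := by
        rw [hQ]
        linarith
      gcongr
    have h3 : μ ^ 2 ≤ ε / (9 * Q ^ 2 * Cr * M) := by
      exact (pow_le_of_le_one hμ0.le hμ1 two_ne_zero).trans hμ2
    calc _ ≤ 3 * Q * μ ^ 2 * (Q * (Cr / Real.log Y * M)) := by
          gcongr
          exact h1.trans h2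
      _ ≤ 3 * Q * (ε / (9 * Q ^ 2 * Cr * M)) * (Q * (Cr / Real.log Y * M)) := by gcongr
      _ = ε / 3 / Real.log Y := by
          field_simp
          ring
  refine hms.trans ?_
  calc _ ≤ 3 * (ε / 9 / Real.log Y) + 3 * (ε / 9 / Real.log Y) + ε / 3 / Real.log Y := by
        gcongr
    _ = ε / Real.log Y := by
        field_simp
        ring

end Pool.Agent.M58
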