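import Pool.Agent.W_b58c63_m1.HQ

/-!
# Small mean values away from the exceptional points (helper68)
-/

set_option autoImplicit false

noncomputable section

open Finset MeasureTheory Complex

namespace Pool.Agent.M58

theorem HQC_int {T : ℝ} {S : Set ℝ} (hS : S ⊆ Set.Icc (-T) T) {f : ℝ → ℝ} (hf : Continuous f) :
    IntegrableOn f S :=
  (hf.integrableOn_Icc).mono_set hS

theorem HQC_am (I : Finset CC) (E : CC → Set ℝ) (T lam A B : ℝ) (hlam : 0 < lam)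
    (hE : ∀ i ∈ I, MeasurableSet (E i) ∧ E i ⊆ Set.Icc (-T) T) (P R : CC → ℝ → ℂ)
    (hP : ∀ i, Continuous (P i)) (hR : ∀ i, Continuous (R i))
    (hA : ∑ i ∈ I, ∫ t in E i, ‖P i t‖ ^ 2 ≤ A) (hB : ∑ i ∈ I, ∫ t in E i, ‖R i t‖ ^ 2 ≤ B) :
    ∑ i ∈ I, ∫ t in E i, ‖P i t * R i t‖ ≤ lam / 2 * A + 1 / (2 * lam) * B := by
  have h1 : ∀ i ∈ I, ∫ t in E i, ‖P i t * R i t‖ ≤
      lam / 2 * (∫ t in E i, ‖P i t‖ ^ 2) + 1 / (2 * lam) * ∫ t in E i, ‖R i t‖ ^ 2 := by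
    intro i hi
    have c1 : Continuous fun t => ‖P i t‖ ^ 2 := (hP i).norm.pow 2
    have c2 : Continuous fun t => ‖R i t‖ ^ 2 := (hR i).norm.pow 2
    have c3 : Continuous fun t => ‖P i t * R i t‖ := ((hP i).mul (hR i)).norm
    have i1 := HQC_int (hE i hi).2 c1
    have i2 := HQC_int (hE i hi).2 c2
    have i3 := HQC_int (hE i hi).2 c3
    rw [← integral_const_mul, ← integral_const_mul,
      ← integral_add (i1.const_mul _) (i2.const_mul _)]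
    refine integral_mono i3 ((i1.const_mul _).add (i2.const_mul _)) fun t => ?_
    show ‖P i t * R i t‖ ≤ lam / 2 * ‖P i t‖ ^ 2 + 1 / (2 * lam) * ‖R i t‖ ^ 2
    rw [norm_mul]
    have h2 : 0 ≤ (lam * ‖P i t‖ - ‖R i t‖) ^ 2 := sq_nonneg _
    have h3 : lam / 2 * ‖P i t‖ ^ 2 + 1 / (2 * lam) * ‖R i t‖ ^ 2 - ‖P i t‖ * ‖R i t‖ =
        (lam * ‖P i t‖ - ‖R i t‖) ^ 2 / (2 * lam) := by
      field_simp
      ring
    have h4 : 0 ≤ (lam * ‖P i t‖ - ‖R i t‖) ^ 2 / (2 * lam) := by positivity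
    linarith
  refine (sum_le_sum h1).trans ?_
  rw [sum_add_distrib, ← mul_sum, ← mul_sum]
  have h2 := mul_le_mul_of_nonneg_left hA (show 0 ≤ lam / 2 by positivity)
  have h3 := mul_le_mul_of_nonneg_left hB (show 0 ≤ 1 / (2 * lam) by positivity)
  linarith

theorem HQC_sum (I : Finset CC) (E : CC → Set ℝ) (T B : ℝ)
    (hE : ∀ i ∈ I, MeasurableSet (E i) ∧ E i ⊆ Set.Icc (-T) T) (F : CC → ℝ → ℂ)
    (J : Finset ℕ) (Kf : ℕ → Finset ℕ) (P R : ℕ → ℕ → CC → ℝ → ℂ)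
    (hF : ∀ i ∈ I, ∀ t, F i t = ∑ j ∈ J, ∑ k ∈ Kf j, P j k i t * R j k i t)
    (hP : ∀ j k i, Continuous (P j k i)) (hR : ∀ j k i, Continuous (R j k i))
    (hB : ∀ j ∈ J, ∀ k ∈ Kf j, ∑ i ∈ I, ∫ t in E i, ‖P j k i t * R j k i t‖ ≤ B) :
    ∑ i ∈ I, ∫ t in E i, ‖F i t‖ ≤ ∑ j ∈ J, ∑ _k ∈ Kf j, B := by
  have hc : ∀ j k i, Continuous fun t => ‖P j k i t * R j k i t‖ := fun j k i =>
    ((hP j k i).mul (hR j k i)).norm
  have h1 : ∀ i ∈ I, ∫ t in E i, ‖F i t‖ ≤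
      ∑ j ∈ J, ∑ k ∈ Kf j, ∫ t in E i, ‖P j k i t * R j k i t‖ := by
    intro i hi
    have i1 : ∀ j ∈ J, ∀ k ∈ Kf j, IntegrableOn (fun t => ‖P j k i t * R j k i t‖) (E i) :=
      fun j _ k _ => HQC_int (hE i hi).2 (hc j k i)
    have i2 : ∀ j ∈ J, Integrable (fun t => ∑ k ∈ Kf j, ‖P j k i t * R j k i t‖)
        (volume.restrict (E i)) := fun j hj => integrable_finsetSum _ fun k hk => i1 j hj k hk
    have e1 : ∑ j ∈ J, ∑ k ∈ Kf j, ∫ t in E i, ‖P j k i t * R j k i t‖ =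
        ∫ t in E i, ∑ j ∈ J, ∑ k ∈ Kf j, ‖P j k i t * R j k i t‖ := by
      rw [integral_finsetSum J i2]
      exact sum_congr rfl fun j hj => (integral_finsetSum (Kf j) fun k hk => i1 j hj k hk).symm
    rw [e1]
    have hcF : Continuous fun t => ‖F i t‖ := by
      have : F i = fun t => ∑ j ∈ J, ∑ k ∈ Kf j, P j k i t * R j k i t := funext (hF i hi)
      rw [this]
      refine Continuous.norm ?_
      exact continuous_finsetSum _ fun j _ => continuous_finsetSum _ fun k _ =>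
        (hP j k i).mul (hR j k i)
    refine integral_mono (HQC_int (hE i hi).2 hcF) (integrable_finsetSum _ i2) fun t => ?_
    show ‖F i t‖ ≤ ∑ j ∈ J, ∑ k ∈ Kf j, ‖P j k i t * R j k i t‖
    rw [hF i hi t]
    refine (norm_sum_le _ _).trans (sum_le_sum fun j _ => norm_sum_le _ _)
  refine (sum_le_sum h1).trans ?_
  rw [sum_comm]
  refine sum_le_sum fun j hj => ?_
  rw [sum_comm]
  exact sum_le_sum fun k hk => hB j hj k hk

theorem HQC_rh01 (z : ℝ) (n : ℕ) : rh z n = 0 ∨ rh z n = 1 := by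
  unfold rh
  split_ifs
  · exact Or.inr rfl
  · exact Or.inl rfl

theorem HQC_rh_mono (z z' : ℝ) (h : z ≤ z') (n : ℕ) (h1 : rh z' n = 1) : rh z n = 1 := by
  unfold rh at h1 ⊢
  by_cases h2 : n ≠ 0 ∧ ∀ p ∈ n.primeFactors, z' ≤ (p : ℝ)
  · rw [if_pos ⟨h2.1, fun p hp => h.trans (h2.2 p hp)⟩]
  · rw [if_neg h2] at h1
    exact absurd h1 zero_ne_one

theorem HQC_rh_zero (z : ℝ) : rh z 0 = 0 := by
  unfold rh
  rw [if_neg]
  exact fun h => h.1 rfl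

/-- restriction of the family of sets to the characters under consideration -/
def HQC_E (R : ℕ) (E : CC → Set ℝ) (i : CC) : Set ℝ := open Classical in if i ∈ CR R then E i else ∅

theorem HQC_CR (R R' : ℕ) (h : R ≤ R') : CR R ⊆ CR R' := by
  intro i hi
  unfold CR at hi ⊢
  rw [mem_sigma, mem_Icc] at hi ⊢
  exact ⟨⟨hi.1.1, hi.1.2.trans h⟩, hi.2⟩

theorem HQC_Fam (R R' : ℕ) (h : R ≤ R') (T T' V V' : ℝ) (hT : T ≤ T') (hV : V ≤ V') (E : CC → Set ℝ)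
    (hE : Fam R T V E) : Fam R' T' V' (HQC_E R E) := by
  classical
  have hs := HQC_CR R R' h
  constructor
  · intro i _
    unfold HQC_E
    split_ifs with h1
    · exact ⟨(hE.1 i h1).1, (hE.1 i h1).2.trans (Set.Icc_subset_Icc (by linarith) hT)⟩
    · exact ⟨MeasurableSet.empty, Set.empty_subset _⟩
  · have h2 : ∑ i ∈ CR R', (volume (HQC_E R E i)).toReal = ∑ i ∈ CR R, (volume (E i)).toReal := by
      rw [← sum_subset hs]
      · refine sum_congr rfl fun i hi => ?_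
        unfold HQC_E
        rw [if_pos hi]
      · intro i _ hi
        unfold HQC_E
        rw [if_neg hi]
        simp
    rw [h2]
    exact hE.2.trans hV

theorem HQC_sumE (R R' : ℕ) (h : R ≤ R') (E : CC → Set ℝ) (f : CC → ℝ → ℝ) :
    ∑ i ∈ CR R', ∫ t in HQC_E R E i, f i t = ∑ i ∈ CR R, ∫ t in E i, f i t := by
  classical
  rw [← sum_subset (HQC_CR R R' h)]
  · refine sum_congr rfl fun i hi => ?_
    unfold HQC_E
    rw [if_pos hi]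
  · intro i _ hi
    unfold HQC_E
    rw [if_neg hi]
    simp

/-- The mean square of the second factors. -/
theorem HQC_rb (m : ℕ) (hm : 1 ≤ m) : ∃ κ δ C Y₀ : ℝ, 0 < κ ∧ 0 < δ ∧ 0 < C ∧ 3 ≤ Y₀ ∧
    ∀ (Y δ' : ℝ) (E : CC → Set ℝ) (N k : ℕ) (θ : ℝ), Y₀ ≤ Y → 0 < δ' → δ' ≤ δ →
      Fam ⌊Y ^ δ'⌋₊ (Y ^ (3 / 2 : ℝ)) (Y ^ κ) E → 2 ≤ k → (k : ℝ) + 1 ≤ 6 * m → 1 / (m : ℝ) ≤ θ →
        ∑ i ∈ CR ⌊Y ^ δ'⌋₊, ∫ t in E i, ‖DP N (rb Y m (Y ^ θ) k) i.2 t‖ ^ 2 ≤ C / Real.log Y := by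
  have hm0 : (0 : ℝ) < m := by exact_mod_cast hm
  have hm1 : (1 : ℝ) ≤ m := by exact_mod_cast hm
  have hb : (0 : ℝ) < 1 / m := by positivity
  have hb1 : (1 : ℝ) / m ≤ 1 := by rw [div_le_one hm0]; exact hm1
  obtain ⟨κ, δ, C, Y₀, hκ, hδ, hC, hY₀, H⟩ := l2_rough (1 / m) hb hb1
  obtain ⟨C₂, Y₂, hC₂, hY₂, H₂⟩ := rough_mass (1 / m) (1 / m) hb hb1 hb
  refine ⟨κ, δ, C * C₂, max (max Y₀ Y₂) (Real.exp m), hκ, hδ, by positivity,
    hY₀.trans ((le_max_left _ _).trans (le_max_left _ _)), ?_⟩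
  intro Y δ' E N k θ hY hδ' hδδ hE hk hk6 hθ
  have hY0 : Y₀ ≤ Y := ((le_max_left _ _).trans (le_max_left _ _)).trans hY
  have hY2 : Y₂ ≤ Y := ((le_max_right _ _).trans (le_max_left _ _)).trans hY
  have hYm : Real.exp m ≤ Y := (le_max_right _ _).trans hY
  have hY3 : 3 ≤ Y := hY₀.trans hY0
  have hYpos : 0 < Y := by linarith
  have hY1 : 1 ≤ Y := by linarith
  have hL : (m : ℝ) ≤ Real.log Y := (Real.le_log_iff_exp_le hYpos).2 hYm
  have hL0 : 0 < Real.log Y := by linarith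
  obtain ⟨g1, g2, g3⟩ := Gt_props Y m k hY3 hm
  have hk2 : (2 : ℝ) ≤ k := by exact_mod_cast hk
  have hR : ⌊Y ^ δ'⌋₊ ≤ ⌊Y ^ δ⌋₊ := Nat.floor_mono (Real.rpow_le_rpow_of_exponent_le hY1 hδδ)
  have hF : Fam ⌊Y ^ δ⌋₊ (Y ^ 2) (Y ^ κ) (HQC_E ⌊Y ^ δ'⌋₊ E) := by
    refine HQC_Fam _ _ hR _ _ _ _ ?_ le_rfl E hE
    rw [← Real.rpow_natCast Y 2]
    exact Real.rpow_le_rpow_of_exponent_le hY1 (by norm_num)
  have hlow : Y ^ (1 / (m : ℝ)) ≤ Y ^ (((k : ℝ) - 1) / m) := by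
    refine Real.rpow_le_rpow_of_exponent_le hY1 ?_
    exact div_le_div_of_nonneg_right (by linarith) hm0.le
  have hsup : ∀ n, rb Y m (Y ^ θ) k n ≠ 0 →
      (rh (Y ^ (1 / (m : ℝ))) n = 1 ∧ n ≠ 0 ∧ ((k : ℝ) - 1) / m * Real.log Y ≤ Real.log n ∧
        Real.log n ≤ ((k : ℝ) + 1) / m * Real.log Y) := by
    intro n hn
    unfold rb at hn
    have h1 : rh (Y ^ θ) n ≠ 0 := left_ne_zero_of_mul hn
    have h2 : Gt Y m k (Real.log n) ≠ 0 := right_ne_zero_of_mul hn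
    have h3 := g3 _ h2
    refine ⟨HQC_rh_mono _ (Y ^ θ) (Real.rpow_le_rpow_of_exponent_le hY1 hθ) n
      ((HQC_rh01 _ n).resolve_left h1), ?_, h3.1.le, h3.2.le⟩
    rintro rfl
    exact h1 (HQC_rh_zero _)
  have key := H Y (HQC_E ⌊Y ^ δ'⌋₊ E) N (rb Y m (Y ^ θ) k) hY0 hF (by
    intro n hn
    obtain ⟨h1, h0, h2, h3⟩ := hsup n hn
    have hn0 : (0 : ℝ) < n := by exact_mod_cast Nat.pos_of_ne_zero h0
    refine ⟨?_, ?_, h1⟩
    · refine hlow.trans ?_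
      rw [← Real.log_le_log_iff (Real.rpow_pos_of_pos hYpos _) hn0, Real.log_rpow hYpos]
      exact h2
    · rw [← Real.log_le_log_iff hn0 (by positivity), Real.log_pow]
      refine h3.trans ?_
      refine mul_le_mul_of_nonneg_right ?_ hL0.le
      rw [div_le_iff₀ hm0]
      push_cast
      linarith)
  rw [HQC_sumE _ _ hR E] at key
  refine key.trans ?_
  have hsum : ∑ n ∈ Icc 1 N, rb Y m (Y ^ θ) k n ^ 2 / n ≤ C₂ := by
    have h1 := H₂ Y (k / m * Real.log Y) (1 / m * Real.log Y) N hY2 (by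
      rw [one_div_mul_eq_div, one_le_div hm0]
      exact hL) (by
      have : (k : ℝ) / m * Real.log Y - 1 / m * Real.log Y = ((k : ℝ) - 1) / m * Real.log Y := by ring
      rw [this]
      refine mul_le_mul_of_nonneg_right ?_ hL0.le
      exact div_le_div_of_nonneg_right (by linarith) hm0.le) (by
      have : (k : ℝ) / m * Real.log Y + 1 / m * Real.log Y = ((k : ℝ) + 1) / m * Real.log Y := by ring
      rw [this]
      refine mul_le_mul_of_nonneg_right ?_ hL0.le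
      rw [div_le_iff₀ hm0]
      linarith)
    have h2 : C₂ * (1 / m * Real.log Y) / Real.log Y ≤ C₂ := by
      rw [← mul_assoc, mul_div_assoc, div_self hL0.ne', mul_one]
      nlinarith
    refine le_trans ?_ (h1.trans h2)
    have h3 : (Icc 1 N).filter (fun n : ℕ => (k : ℝ) / m * Real.log Y - 1 / m * Real.log Y ≤ Real.log n ∧
        Real.log n ≤ k / m * Real.log Y + 1 / m * Real.log Y) ⊆ Icc 1 N := filter_subset _ _
    rw [← sum_subset h3]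
    · refine sum_le_sum fun n _ => ?_
      refine div_le_div_of_nonneg_right ?_ (Nat.cast_nonneg n)
      by_cases hz : rb Y m (Y ^ θ) k n = 0
      · rw [hz]
        rcases HQC_rh01 (Y ^ (1 / (m : ℝ))) n with h | h <;> rw [h] <;> norm_num
      · rw [(hsup n hz).1]
        unfold rb
        have h4 : rh (Y ^ θ) n ≤ 1 ∧ 0 ≤ rh (Y ^ θ) n := by
          rcases HQC_rh01 (Y ^ θ) n with h | h <;> rw [h] <;> norm_num
        have h5 := g1 (Real.log n)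
        have h6 : rh (Y ^ θ) n * Gt Y m k (Real.log n) ≤ 1 := by nlinarith
        have h7 : 0 ≤ rh (Y ^ θ) n * Gt Y m k (Real.log n) := mul_nonneg h4.2 h5.1
        nlinarith
    · intro n hn hn2
      have hz : rb Y m (Y ^ θ) k n = 0 := by
        by_contra hz
        apply hn2
        obtain ⟨h4, h0, h5, h6⟩ := hsup n hz
        rw [mem_filter]
        refine ⟨hn, ?_, ?_⟩
        · refine le_trans (le_of_eq ?_) h5
          ring
        · refine h6.trans (le_of_eq ?_)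
          ring
      rw [hz]
      norm_num
  have : C / Real.log Y * ∑ n ∈ Icc 1 N, rb Y m (Y ^ θ) k n ^ 2 / n ≤ C / Real.log Y * C₂ :=
    mul_le_mul_of_nonneg_left hsum (by positivity)
  refine this.trans (le_of_eq ?_)
  ring

/-- The mean value of the products. -/
theorem HQC_core (m : ℕ) (hm : 1 ≤ m) (ε : ℝ) (hε : 0 < ε) :
    ∃ a' η' ε' K κ δ₀ Y₀ : ℝ, 0 < a' ∧ a' ≤ 1 ∧ 0 < η' ∧ η' ≤ 1 ∧ 0 < ε' ∧ 0 < K ∧ 0 < κ ∧ 0 < δ₀ ∧ 3 ≤ Y₀ ∧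
      ∀ (Y δ : ℝ) (i1 : CC) (β : ℝ), Y₀ ≤ Y → 0 < δ → δ ≤ δ₀ → β ≤ 1 → PBL Y δ a' η' ε' i1 β →
        ∀ (E : CC → Set ℝ) (N : ℕ), Fam ⌊Y ^ δ⌋₊ (Y ^ (3 / 2 : ℝ)) (Y ^ κ) E →
          (∀ t ∈ E i0, K / Real.log Y ≤ |t|) → (∀ t ∈ E i1, K / Real.log Y ≤ |t|) → Y ^ 6 ≤ N →
            ∀ (j k : ℕ) (θ : ℝ), 2 ≤ j → (j : ℝ) + 1 ≤ 6 * m → 2 ≤ k → (k : ℝ) + 1 ≤ 6 * m →
              1 / (m : ℝ) ≤ θ →
            ∑ i ∈ CR ⌊Y ^ δ⌋₊, ∫ t in E i, ‖DP N (pb Y m j) i.2 t *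
              DP N (rb Y m (Y ^ θ) k) i.2 t‖ ≤ ε / Real.log Y := by
  have hm0 : (0 : ℝ) < m := by exact_mod_cast hm
  have hm1 : (1 : ℝ) ≤ m := by exact_mod_cast hm
  have hb : (0 : ℝ) < 1 / m := by positivity
  have hb1 : (1 : ℝ) / m ≤ 1 := by rw [div_le_one hm0]; exact hm1
  obtain ⟨κ₂, δ₂, C, Y₂, hκ₂, hδ₂, hC, hY₂, H₂⟩ := HQC_rb m hm
  obtain ⟨a', η', ε', K, κ, δ₀, Y₀, h1, h2, h3, h4, h5, h6, h7, h8, h9, H⟩ :=
    l2_prime (1 / m) (1 / m) (ε ^ 2 / C) hb hb1 hb hb1 (by positivity)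
  refine ⟨a', η', ε', K, min κ κ₂, min δ₀ δ₂, max Y₀ Y₂, h1, h2, h3, h4, h5, h6, lt_min h7 hκ₂,
    lt_min h8 hδ₂, h9.trans (le_max_left _ _), ?_⟩
  intro Y δ i1 β hY hδ hδδ hβ hPBL E N hE hE0 hE1 hN j k θ hj hj6 hk hk6 hθ
  have hYY0 : Y₀ ≤ Y := (le_max_left _ _).trans hY
  have hYY2 : Y₂ ≤ Y := (le_max_right _ _).trans hY
  have hY3 : 3 ≤ Y := h9.trans hYY0
  have hY1 : 1 ≤ Y := by linarith
  have hL0 : 0 < Real.log Y := Real.log_pos (by linarith)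
  have hj2 : (2 : ℝ) ≤ j := by exact_mod_cast hj
  have hEa : Fam ⌊Y ^ δ⌋₊ (Y ^ (3 / 2 : ℝ)) (Y ^ κ) E :=
    ⟨hE.1, hE.2.trans (Real.rpow_le_rpow_of_exponent_le hY1 (min_le_left _ _))⟩
  have hEb : Fam ⌊Y ^ δ⌋₊ (Y ^ (3 / 2 : ℝ)) (Y ^ κ₂) E :=
    ⟨hE.1, hE.2.trans (Real.rpow_le_rpow_of_exponent_le hY1 (min_le_right _ _))⟩
  have k1 := H Y δ i1 β hYY0 hδ (hδδ.trans (min_le_left _ _)) hβ hPBL E (j / m * Real.log Y) N hEa
    hE0 hE1 (by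
      have : (j : ℝ) / m * Real.log Y - 1 / m * Real.log Y = ((j : ℝ) - 1) / m * Real.log Y := by ring
      rw [this]
      refine mul_le_mul_of_nonneg_right ?_ hL0.le
      exact div_le_div_of_nonneg_right (by linarith) hm0.le) (by
      have : (j : ℝ) / m * Real.log Y + 1 / m * Real.log Y = ((j : ℝ) + 1) / m * Real.log Y := by ring
      rw [this]
      refine mul_le_mul_of_nonneg_right ?_ hL0.le
      rw [div_le_iff₀ hm0]
      linarith) hN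
  have k2 := H₂ Y δ E N k θ hYY2 hδ (hδδ.trans (min_le_right _ _)) hEb hk hk6 hθ
  have hpb : (pw fun v => tent ((v - j / m * Real.log Y) / (1 / m * Real.log Y))) = pb Y m j := by
    unfold pb
    congr 1
    funext v
    unfold Gt
    congr 1
    field_simp
  rw [hpb] at k1
  have key := HQC_am (CR ⌊Y ^ δ⌋₊) E (Y ^ (3 / 2 : ℝ)) (C / ε) _ _ (by positivity) hE.1
    (fun i t => DP N (pb Y m j) i.2 t) (fun i t => DP N (rb Y m (Y ^ θ) k) i.2 t)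
    (fun i => DP_continuous N _ i.2) (fun i => DP_continuous N _ i.2) k1 k2
  refine key.trans (le_of_eq ?_)
  field_simp
  ring

/-- **Small mean values away from the exceptional points.** (Cauchy, `l2_prime` for the first factors with
`η = 1 / (4 μ)`, `l2_rough` for the second factors.) -/
theorem l1_small (μ j₀ : ℕ) (ε : ℝ) (hμ : 8 ≤ μ) (hj : 2 ≤ j₀) (hj' : j₀ ≤ μ) (hε : 0 < ε) :
    ∃ a' η' ε' K κ δ₀ Y₀ : ℝ, 0 < a' ∧ a' ≤ 1 ∧ 0 < η' ∧ η' ≤ 1 ∧ 0 < ε' ∧ 0 < K ∧ 0 < κ ∧ 0 < δ₀ ∧ 3 ≤ Y₀ ∧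
      ∀ (Y δ : ℝ) (i1 : CC) (β : ℝ), Y₀ ≤ Y → 0 < δ → δ ≤ δ₀ → β ≤ 1 → PBL Y δ a' η' ε' i1 β →
        ∀ (E : CC → Set ℝ) (N : ℕ), Fam ⌊Y ^ δ⌋₊ (Y ^ (3 / 2 : ℝ)) (Y ^ κ) E →
          (∀ t ∈ E i0, K / Real.log Y ≤ |t|) → (∀ t ∈ E i1, K / Real.log Y ≤ |t|) → Y ^ 6 ≤ N →
            ∑ i ∈ CR ⌊Y ^ δ⌋₊, ∫ t in E i, ‖DP N (qX Y μ j₀) i.2 t‖ ≤ ε / Real.log Y ∧
            ∑ i ∈ CR ⌊Y ^ δ⌋₊, ∫ t in E i, ‖DP N (qY Y μ j₀) i.2 t‖ ≤ ε / Real.log Y := by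
  have hm : 1 ≤ 4 * μ := by omega
  set B : ℝ := (4 * μ + 2) * (9 * μ + 1) with hB
  have hB0 : 0 < B := by positivity
  obtain ⟨a', η', ε', K, κ, δ₀, Y₀, h1, h2, h3, h4, h5, h6, h7, h8, h9, H⟩ :=
    HQC_core (4 * μ) hm (ε / B) (by positivity)
  refine ⟨a', η', ε', K, κ, δ₀, Y₀, h1, h2, h3, h4, h5, h6, h7, h8, h9, ?_⟩
  intro Y δ i1 β hY hδ hδδ hβ hPBL E N hE hE0 hE1 hN
  have hY3 : 3 ≤ Y := h9.trans hY
  have hL0 : 0 < Real.log Y := Real.log_pos (by linarith)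
  have H' := H Y δ i1 β hY hδ hδδ hβ hPBL E N hE hE0 hE1 hN
  have hμ8 : (8 : ℝ) ≤ μ := by exact_mod_cast hμ
  have hcard : ∀ (J : Finset ℕ) (Kf : ℕ → Finset ℕ), J.card ≤ 4 * μ + 2 →
      (∀ j ∈ J, (Kf j).card ≤ 9 * μ + 1) →
      ∑ j ∈ J, ∑ _k ∈ Kf j, ε / B / Real.log Y ≤ ε / Real.log Y := by
    intro J Kf hJ hK
    have e0 : 0 ≤ ε / B / Real.log Y := by positivity
    have e1 : ∑ j ∈ J, ∑ _k ∈ Kf j, ε / B / Real.log Y ≤
        ∑ _j ∈ J, ((9 * μ + 1 : ℕ) : ℝ) * (ε / B / Real.log Y) := by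
      refine sum_le_sum fun j hj => ?_
      rw [sum_const, nsmul_eq_mul]
      exact mul_le_mul_of_nonneg_right (by exact_mod_cast hK j hj) e0
    rw [sum_const, nsmul_eq_mul] at e1
    have e2 : (J.card : ℝ) * (((9 * μ + 1 : ℕ) : ℝ) * (ε / B / Real.log Y)) ≤
        ((4 * μ + 2 : ℕ) : ℝ) * (((9 * μ + 1 : ℕ) : ℝ) * (ε / B / Real.log Y)) :=
      mul_le_mul_of_nonneg_right (by exact_mod_cast hJ) (by positivity)
    refine e1.trans (e2.trans (le_of_eq ?_))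
    push_cast
    rw [hB]
    field_simp
  have hcast : ((4 * μ : ℕ) : ℝ) = 4 * μ := by push_cast; ring
  constructor
  · refine le_trans (HQC_sum (CR ⌊Y ^ δ⌋₊) E (Y ^ (3 / 2 : ℝ)) (ε / B / Real.log Y) hE.1
      (fun i t => DP N (qX Y μ j₀) i.2 t) (Icc j₀ (4 * μ + 1)) (fun j => Icc (7 * μ - j) (9 * μ - j))
      (fun j _ i t => DP N (pb Y (4 * μ) j) i.2 t)
      (fun j k i t => DP N (rb Y (4 * μ) (Y ^ (((j : ℝ) - 1) / (4 * μ : ℕ))) k) i.2 t)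
      (fun i _ t => DP_qX Y t μ j₀ N i.1 i.2 hY3 hμ hj hN)
      (fun _ _ i => DP_continuous N _ i.2) (fun _ _ i => DP_continuous N _ i.2) ?_) ?_
    · intro j hj1 k hk1
      rw [mem_Icc] at hj1 hk1
      refine H' j k _ (by omega) ?_ (by omega) ?_ ?_
      · have : ((j + 1 : ℕ) : ℝ) ≤ ((6 * (4 * μ) : ℕ) : ℝ) := by
          exact_mod_cast (by omega : j + 1 ≤ 6 * (4 * μ))
        push_cast at this ⊢
        linarith
      · have : ((k + 1 : ℕ) : ℝ) ≤ ((6 * (4 * μ) : ℕ) : ℝ) := by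
          exact_mod_cast (by omega : k + 1 ≤ 6 * (4 * μ))
        push_cast at this ⊢
        linarith
      · refine div_le_div_of_nonneg_right ?_ (Nat.cast_nonneg _)
        have : (2 : ℝ) ≤ j := by exact_mod_cast (by omega : 2 ≤ j)
        linarith
    · refine hcard _ _ ?_ ?_
      · rw [Nat.card_Icc]
        omega
      · intro j hj1
        rw [Nat.card_Icc]
        omega
  · refine le_trans (HQC_sum (CR ⌊Y ^ δ⌋₊) E (Y ^ (3 / 2 : ℝ)) (ε / B / Real.log Y) hE.1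
      (fun i t => DP N (qY Y μ j₀) i.2 t) (Icc (j₀ + 1) (2 * μ)) (fun j => Icc (3 * μ - j) (5 * μ - j))
      (fun j _ i t => DP N (pb Y (4 * μ) j) i.2 t)
      (fun j k i t => DP N (rb Y (4 * μ) (Y ^ (((j : ℝ) + 1) / (4 * μ : ℕ))) k) i.2 t)
      (fun i _ t => DP_qY Y t μ j₀ N i.1 i.2 hY3 hμ hj hN)
      (fun _ _ i => DP_continuous N _ i.2) (fun _ _ i => DP_continuous N _ i.2) ?_) ?_
    · intro j hj1 k hk1
      rw [mem_Icc] at hj1 hk1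
      refine H' j k _ (by omega) ?_ (by omega) ?_ ?_
      · have : ((j + 1 : ℕ) : ℝ) ≤ ((6 * (4 * μ) : ℕ) : ℝ) := by
          exact_mod_cast (by omega : j + 1 ≤ 6 * (4 * μ))
        push_cast at this ⊢
        linarith
      · have : ((k + 1 : ℕ) : ℝ) ≤ ((6 * (4 * μ) : ℕ) : ℝ) := by
          exact_mod_cast (by omega : k + 1 ≤ 6 * (4 * μ))
        push_cast at this ⊢
        linarith
      · refine div_le_div_of_nonneg_right ?_ (Nat.cast_nonneg _)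
        have : (0 : ℝ) ≤ j := Nat.cast_nonneg j
        linarith
    · refine hcard _ _ ?_ ?_
      · rw [Nat.card_Icc]
        omega
      · intro j hj1
        rw [Nat.card_Icc]
        omega

end Pool.Agent.M58
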