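import Pool.Agent.W_b58c63_m1.HFam

/-!
# The plateau function (helper68)
-/

set_option autoImplicit false

noncomputable section

open Finset MeasureTheory

namespace Pool.Agent.M58

/-- The function `∑_{i = 2}^m tent (v / A - i)`: it is `1` on `[2 A, m A]` and supported in `[A, (m + 1) A]`. -/
def Wm (A : ℝ) (m : ℕ) (v : ℝ) : ℝ := ∑ i ∈ Icc 2 m, tent (v / A - i)

theorem HWm_int (w c u : ℝ) (hw : 0 < w) : Integrable (fun v : ℝ =>
    (tent ((v - c) / w) : ℂ) * Complex.exp (-(u * v : ℝ) * Complex.I)) := by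
  obtain ⟨h1, h2⟩ := STe_hasInt w c hw
  refine h2.mono ?_ (Filter.Eventually.of_forall fun v => ?_)
  · exact (h1.mul (by fun_prop)).aestronglyMeasurable
  · rw [norm_mul, ← Complex.ofReal_neg, Complex.norm_exp_ofReal_mul_I, mul_one]

theorem HWm_osc (A : ℝ) (m : ℕ) (u : ℝ) (hA : 0 < A) :
    osc (Wm A m) u = ∑ i ∈ Icc 2 m, osc (fun v => tent ((v - i * A) / A)) u := by
  unfold osc
  rw [← integral_finsetSum]
  · refine integral_congr_ae (Filter.Eventually.of_forall fun v => ?_)
    show ((∑ i ∈ Icc 2 m, tent (v / A - i) : ℝ) : ℂ) * Complex.exp (-(u * v : ℝ) * Complex.I) =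
      ∑ i ∈ Icc 2 m, (tent ((v - i * A) / A) : ℂ) * Complex.exp (-(u * v : ℝ) * Complex.I)
    rw [Complex.ofReal_sum, Finset.sum_mul]
    refine Finset.sum_congr rfl fun i _ => ?_
    have h1 : v / A - i = (v - i * A) / A := by field_simp
    rw [h1]
  · intro i _
    exact HWm_int A (i * A) u hA

/-- The plateau function in closed form. -/
def HWm_F (m : ℕ) (x : ℝ) : ℝ := max 0 (min 1 (min (x - 1) (m + 1 - x)))

theorem HWm_eq (x : ℝ) (m : ℕ) (hm : 2 ≤ m) : ∑ i ∈ Icc 2 m, tent (x - i) = HWm_F m x := by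
  induction m, hm using Nat.le_induction with
  | base =>
    rw [Icc_self, sum_singleton]
    unfold tent HWm_F
    push_cast
    rcases le_total 2 x with h | h
    · rw [abs_of_nonneg (by linarith)]
      rw [min_eq_right (by linarith : (2 : ℝ) + 1 - x ≤ x - 1), min_eq_right (by linarith)]
      congr 1
      ring
    · rw [abs_of_nonpos (by linarith)]
      rw [min_eq_left (by linarith : x - 1 ≤ (2 : ℝ) + 1 - x), min_eq_right (by linarith)]
      congr 1
      ring
  | succ m hm ih =>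
    have hm2 : (2 : ℝ) ≤ m := by exact_mod_cast hm
    rw [Finset.sum_Icc_succ_top (by omega), ih]
    unfold tent HWm_F
    push_cast
    rcases le_total x m with h | h
    · rw [abs_of_nonpos (by linarith), max_eq_left (by linarith : 1 - -(x - (m + 1 : ℝ)) ≤ 0),
        add_zero]
      rcases le_total x 2 with h2 | h2
      · rw [min_eq_left (by linarith : x - 1 ≤ (m : ℝ) + 1 - x),
          min_eq_left (by linarith : x - 1 ≤ (m : ℝ) + 1 + 1 - x)]
      · rw [min_eq_left (le_min (by linarith) (by linarith) : (1 : ℝ) ≤ min (x - 1) (m + 1 - x)),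
          min_eq_left (le_min (by linarith) (by linarith) :
            (1 : ℝ) ≤ min (x - 1) (m + 1 + 1 - x))]
    · rcases le_total x (m + 1) with h2 | h2
      · rw [abs_of_nonpos (by linarith), min_eq_right (by linarith : (m : ℝ) + 1 - x ≤ x - 1),
          min_eq_right (by linarith : (m : ℝ) + 1 - x ≤ 1), max_eq_right (by linarith),
          max_eq_right (by linarith), min_eq_left (le_min (by linarith) (by linarith) :
            (1 : ℝ) ≤ min (x - 1) (m + 1 + 1 - x)), max_eq_right (by norm_num)]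
        ring
      · rw [abs_of_nonneg (by linarith), min_eq_right (by linarith : (m : ℝ) + 1 - x ≤ x - 1),
          min_eq_right (by linarith : (m : ℝ) + 1 - x ≤ 1), max_eq_left (by linarith), zero_add,
          min_eq_right (by linarith : (m : ℝ) + 1 + 1 - x ≤ x - 1),
          min_eq_right (by linarith : (m : ℝ) + 1 + 1 - x ≤ 1)]
        congr 1
        ring

theorem HWm_lip (m : ℕ) (x y : ℝ) : |HWm_F m x - HWm_F m y| ≤ |x - y| := by
  unfold HWm_F
  have h1 : ∀ a b : ℝ, |max 0 a - max 0 b| ≤ |a - b| := by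
    intro a b
    have h2 := abs_max_sub_max_le_max 0 a 0 b
    rw [sub_self, abs_zero, max_eq_right (abs_nonneg (a - b))] at h2
    exact h2
  refine (h1 _ _).trans ?_
  have h3 : ∀ a b : ℝ, |min 1 a - min 1 b| ≤ |a - b| := by
    intro a b
    have h2 := abs_min_sub_min_le_max 1 a 1 b
    rw [sub_self, abs_zero, max_eq_right (abs_nonneg (a - b))] at h2
    exact h2
  refine (h3 _ _).trans ?_
  refine (abs_min_sub_min_le_max _ _ _ _).trans (max_le ?_ ?_)
  · refine le_of_eq ?_
    congr 1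
    ring
  · rw [abs_sub_comm x y]
    refine le_of_eq ?_
    congr 1
    ring

theorem Wm_props (A : ℝ) (m : ℕ) (hA : 0 < A) (hm : 2 ≤ m) :
    (∀ v, 0 ≤ Wm A m v ∧ Wm A m v ≤ 1) ∧ (∀ v, 2 * A ≤ v → v ≤ m * A → Wm A m v = 1) ∧
    (∀ v, v ≤ A → Wm A m v = 0) ∧ (∀ v, (m + 1) * A ≤ v → Wm A m v = 0) ∧
    (∀ v w, |Wm A m v - Wm A m w| ≤ (2 / A) * |v - w|) ∧
    Integrable (fun u => ‖osc (Wm A m) u‖) ∧ ∫ u : ℝ, ‖osc (Wm A m) u‖ ≤ 2 * Real.pi * m := by
  have hW : ∀ v, Wm A m v = HWm_F m (v / A) := fun v => HWm_eq (v / A) m hm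
  have hm2 : (2 : ℝ) ≤ m := by exact_mod_cast hm
  refine ⟨fun v => ?_, fun v h1 h2 => ?_, fun v h1 => ?_, fun v h1 => ?_, fun v w => ?_, ?_, ?_⟩
  · rw [hW]
    unfold HWm_F
    exact ⟨le_max_left _ _, max_le zero_le_one (min_le_left _ _)⟩
  · rw [hW]
    unfold HWm_F
    have h3 : 2 ≤ v / A := by rwa [le_div_iff₀ hA]
    have h4 : v / A ≤ m := by rwa [div_le_iff₀ hA]
    rw [min_eq_left (le_min (by linarith) (by linarith)), max_eq_right zero_le_one]
  · rw [hW]
    unfold HWm_F
    have h3 : v / A ≤ 1 := by rwa [div_le_iff₀ hA, one_mul]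
    refine max_eq_left ?_
    refine (min_le_right _ _).trans ((min_le_left _ _).trans ?_)
    linarith
  · rw [hW]
    unfold HWm_F
    have h3 : (m : ℝ) + 1 ≤ v / A := by rwa [le_div_iff₀ hA]
    refine max_eq_left ?_
    refine (min_le_right _ _).trans ((min_le_right _ _).trans ?_)
    linarith
  · rw [hW, hW]
    refine (HWm_lip m _ _).trans ?_
    rw [← sub_div, abs_div, abs_of_pos hA, div_mul_eq_mul_div]
    have h3 := abs_nonneg (v - w)
    gcongr
    linarith
  · have h1 : Integrable (fun u => ∑ i ∈ Icc 2 m, osc (fun v => tent ((v - i * A) / A)) u) :=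
      integrable_finsetSum _ fun i _ => STe_int A (i * A) hA
    refine (h1.congr (Filter.Eventually.of_forall fun u => ?_)).norm
    exact (HWm_osc A m u hA).symm
  · have h1 : ∀ i ∈ Icc 2 m, Integrable (fun u => ‖osc (fun v => tent ((v - i * A) / A)) u‖) :=
      fun i _ => (osc_tent_int A (i * A) hA).1
    have h2 : ∫ u : ℝ, ‖osc (Wm A m) u‖ ≤
        ∫ u : ℝ, ∑ i ∈ Icc 2 m, ‖osc (fun v => tent ((v - i * A) / A)) u‖ := by
      refine integral_mono_of_nonneg (Filter.Eventually.of_forall fun u => norm_nonneg _)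
        (integrable_finsetSum _ h1) (Filter.Eventually.of_forall fun u => ?_)
      show ‖osc (Wm A m) u‖ ≤ _
      rw [HWm_osc A m u hA]
      exact norm_sum_le _ _
    refine h2.trans ?_
    rw [integral_finsetSum _ h1]
    have h4 : ∀ i ∈ Icc 2 m, ∫ u : ℝ, ‖osc (fun v => tent ((v - i * A) / A)) u‖ ≤
        2 * Real.pi := fun i _ => (osc_tent_int A (i * A) hA).2
    refine (Finset.sum_le_sum h4).trans ?_
    rw [Finset.sum_const, Nat.card_Icc, nsmul_eq_mul, mul_comm]
    have h3 : ((m + 1 - 2 : ℕ) : ℝ) ≤ m := by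
      have : m + 1 - 2 ≤ m := by omega
      exact_mod_cast this
    exact mul_le_mul_of_nonneg_left h3 (by positivity)

end Pool.Agent.M58
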