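import Pool.Agent.W_b58c63_m1.RB
import Pool.Agent.W_b58c63_m1.HFam
import Pool.Agent.W_b58c63_h68.GdA

/-!
# The character expansion of the cut sieve kernel (helper68)
-/

set_option autoImplicit false

noncomputable section

open Finset

namespace Pool.Agent.M58

def Gq (r N q : ℕ) : ℝ :=
  ∑ d ∈ q.divisors.filter (fun d => r ∣ d ∧ d.Coprime N), (ArithmeticFunction.moebius (q / d) : ℝ) * (d / d.totient)

/-- The coefficient of the character `i`. -/
def C1 (z : ℝ) (b P N : ℕ) (i : CC) : ℝ := ∑ q ∈ Icc 1 P, ct z b q * Gq i.1 N q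

/-- Orthogonality, sorted by the primitive characters. -/
theorem RC_orth (d N n : ℕ) (hd : 1 ≤ d) (hN : d.Coprime N) (hn : n.Coprime d) :
    ∑ r ∈ d.divisors, ∑ χ ∈ prim r, (starRingEnd ℂ) (χ (N : ZMod r)) * χ (n : ZMod r) =
      if (d : ℤ) ∣ (N : ℤ) - n then (d.totient : ℂ) else 0 := by
  classical
  have : NeZero d := ⟨by omega⟩
  have hNu : IsUnit (N : ZMod d) := (ZMod.isUnit_iff_coprime N d).2 hN.symm
  have h1 : ∀ χ : DirichletCharacter ℂ d, (starRingEnd ℂ) (χ (N : ZMod d)) = χ ((N : ZMod d)⁻¹) := by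
    intro χ
    have h2 : χ ((N : ZMod d)⁻¹) * χ (N : ZMod d) = 1 := by
      rw [← map_mul, ZMod.inv_mul_of_unit _ hNu, map_one]
    have h3 : ‖χ (N : ZMod d)‖ = 1 := by
      have := χ.unit_norm_eq_one hNu.unit
      simpa using this
    have h4 : (starRingEnd ℂ) (χ (N : ZMod d)) * χ (N : ZMod d) = 1 := by
      rw [mul_comm, Complex.mul_conj, Complex.normSq_eq_norm_sq, h3]
      simp
    have h5 : χ (N : ZMod d) ≠ 0 := by
      intro h
      rw [h, norm_zero] at h3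
      exact zero_ne_one h3
    exact mul_right_cancel₀ h5 (h4.trans h2.symm)
  have h2 : ∑ χ : DirichletCharacter ℂ d, (starRingEnd ℂ) (χ (N : ZMod d)) * χ (n : ZMod d) =
      ∑ r ∈ d.divisors, ∑ χ ∈ prim r, (starRingEnd ℂ) (χ (N : ZMod r)) * χ (n : ZMod r) := by
    rw [Pool.Agent.Wb58c63.sum_chars d hd
        (fun χ => (starRingEnd ℂ) (χ (N : ZMod d)) * χ (n : ZMod d)),
      ← Finset.sum_attach (s := d.divisors)
        (f := fun r => ∑ χ ∈ prim r, (starRingEnd ℂ) (χ (N : ZMod r)) * χ (n : ZMod r))]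
    refine Finset.sum_congr rfl fun r _ => ?_
    refine Finset.sum_congr rfl fun χ _ => ?_
    rw [Pool.Agent.Wb58c63.GdA_changeLevel _ χ N hN.symm, Pool.Agent.Wb58c63.GdA_changeLevel _ χ n hn]
  rw [← h2]
  simp only [h1]
  rw [DirichletCharacter.sum_char_inv_mul_char_eq ℂ hNu]
  have h3 : ((N : ZMod d) = (n : ZMod d)) ↔ (d : ℤ) ∣ (N : ℤ) - n := by
    rw [← ZMod.intCast_zmod_eq_zero_iff_dvd, Int.cast_sub, sub_eq_zero, Int.cast_natCast,
      Int.cast_natCast]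
  by_cases h : (d : ℤ) ∣ (N : ℤ) - n
  · rw [if_pos h, if_pos (h3.2 h)]
  · rw [if_neg h, if_neg (fun hh => h (h3.1 hh))]

theorem RC_cop (d N n : ℕ) (hn : n.Coprime d) (h : (d : ℤ) ∣ (N : ℤ) - n) : d.Coprime N := by
  rw [Nat.coprime_comm, Nat.coprime_iff_gcd_eq_one]
  have h1 : Nat.gcd N d ∣ n := by
    have h2 : ((Nat.gcd N d : ℕ) : ℤ) ∣ (N : ℤ) - n :=
      (Int.natCast_dvd_natCast.2 (Nat.gcd_dvd_right N d)).trans h
    have h3 : ((Nat.gcd N d : ℕ) : ℤ) ∣ (N : ℤ) := Int.natCast_dvd_natCast.2 (Nat.gcd_dvd_left N d)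
    have h4 := dvd_sub h3 h2
    rw [sub_sub_cancel] at h4
    exact Int.natCast_dvd_natCast.1 h4
  exact Nat.eq_one_of_dvd_coprimes hn h1 (Nat.gcd_dvd_right N d)

theorem RC_one (P N n q : ℕ) (hq1 : 1 ≤ q) (hq : q ≤ P) (hn : ∀ d ∈ Icc 1 P, n.Coprime d) :
    (cq q ((N : ℤ) - n) : ℂ) = ∑ i ∈ CR P, (Gq i.1 N q : ℂ) *
      ((starRingEnd ℂ) (i.2 (N : ZMod i.1)) * i.2 (n : ZMod i.1)) := by
  classical
  unfold CR
  rw [Finset.sum_sigma]
  have h1 : ∀ r ∈ Icc 1 P, ∑ χ ∈ prim r, (Gq r N q : ℂ) *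
      ((starRingEnd ℂ) (χ (N : ZMod r)) * χ (n : ZMod r)) =
      ∑ d ∈ q.divisors, if r ∣ d ∧ d.Coprime N then
        (((ArithmeticFunction.moebius (q / d) : ℝ) * (d / d.totient) : ℝ) : ℂ) *
          ∑ χ ∈ prim r, (starRingEnd ℂ) (χ (N : ZMod r)) * χ (n : ZMod r) else 0 := by
    intro r _
    rw [← Finset.mul_sum, ← Finset.sum_filter, ← Finset.sum_mul]
    congr 1
    unfold Gq
    push_cast
    rfl
  rw [Finset.sum_congr rfl h1, Finset.sum_comm]
  unfold cq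
  rw [Finset.sum_filter]
  push_cast
  refine Finset.sum_congr rfl fun d hd => ?_
  obtain ⟨hdq, -⟩ := Nat.mem_divisors.1 hd
  have hd1 : 1 ≤ d := Nat.pos_of_dvd_of_pos hdq (by omega)
  have hdP : d ≤ P := (Nat.le_of_dvd (by omega) hdq).trans hq
  have hnd : n.Coprime d := hn d (Finset.mem_Icc.2 ⟨hd1, hdP⟩)
  by_cases hN : d.Coprime N
  · have h2 : ∀ r ∈ Icc 1 P, (if r ∣ d ∧ d.Coprime N then
        (((ArithmeticFunction.moebius (q / d) : ℝ) : ℂ) * ((d : ℂ) / d.totient)) *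
          ∑ χ ∈ prim r, (starRingEnd ℂ) (χ (N : ZMod r)) * χ (n : ZMod r) else 0) =
        (((ArithmeticFunction.moebius (q / d) : ℝ) : ℂ) * ((d : ℂ) / d.totient)) *
          if r ∣ d then ∑ χ ∈ prim r, (starRingEnd ℂ) (χ (N : ZMod r)) * χ (n : ZMod r) else 0 := by
      intro r _
      by_cases hr : r ∣ d
      · rw [if_pos ⟨hr, hN⟩, if_pos hr]
      · rw [if_neg (fun h => hr h.1), if_neg hr, mul_zero]
    have h4 : (Icc 1 P).filter (fun r => r ∣ d) = d.divisors := by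
      ext r
      rw [Finset.mem_filter, Finset.mem_Icc, Nat.mem_divisors]
      constructor
      · rintro ⟨_, h⟩
        exact ⟨h, by omega⟩
      · rintro ⟨h, _⟩
        exact ⟨⟨Nat.pos_of_dvd_of_pos h (by omega), (Nat.le_of_dvd (by omega) h).trans hdP⟩, h⟩
    have h3 := RC_orth d N n hd1 hN hnd
    have hφ : (d.totient : ℂ) ≠ 0 := by
      exact_mod_cast (Nat.totient_pos.2 (by omega : 0 < d)).ne'
    have h5 := Finset.sum_congr (rfl : Icc 1 P = Icc 1 P) h2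
    push_cast at h5
    rw [h5, ← Finset.mul_sum, ← Finset.sum_filter, h4, h3]
    split_ifs
    · push_cast
      field_simp
    · push_cast
      ring
  · have h6 : ¬ (d : ℤ) ∣ (N : ℤ) - n := fun h => hN (RC_cop d N n hnd h)
    rw [if_neg h6]
    symm
    refine (Finset.sum_eq_zero fun r _ => ?_)
    rw [if_neg (fun h => hN h.2)]

/-- **The expansion.**

Proof. `cq q (N - n) = ∑_{d ∣ q} μ (q / d) d [n ≡ N mod d]`; for `n` prime to `d` the congruence implies `(N, d) = 1`, and then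
`[n ≡ N mod d] = φ(d)⁻¹ ∑_{χ mod d} conj χ(N) χ(n)`, sorted by the inducing primitive characters (`Wb58c63.sum_chars`; on integers
prime to `d` the induced character has the values of the primitive one). -/
theorem exp1 (z : ℝ) (b P N n : ℕ) (hN : 1 ≤ N) (hn : ∀ d ∈ Icc 1 P, n.Coprime d) :
    ((∑ q ∈ Icc 1 P, ct z b q * cq q ((N : ℤ) - n) : ℝ) : ℂ) =
      ∑ i ∈ CR P, (C1 z b P N i : ℂ) * (starRingEnd ℂ) (i.2 (N : ZMod i.1)) * i.2 (n : ZMod i.1) := by
  rw [Complex.ofReal_sum]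
  have h1 : ∀ q ∈ Icc 1 P, ((ct z b q * cq q ((N : ℤ) - n) : ℝ) : ℂ) =
      ∑ i ∈ CR P, ((ct z b q * Gq i.1 N q : ℝ) : ℂ) *
        ((starRingEnd ℂ) (i.2 (N : ZMod i.1)) * i.2 (n : ZMod i.1)) := by
    intro q hq
    rw [Finset.mem_Icc] at hq
    rw [Complex.ofReal_mul, RC_one P N n q hq.1 hq.2 hn, Finset.mul_sum]
    refine Finset.sum_congr rfl fun i _ => ?_
    rw [Complex.ofReal_mul]
    ring
  rw [Finset.sum_congr rfl h1, Finset.sum_comm]
  refine Finset.sum_congr rfl fun i _ => ?_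
  rw [← Finset.sum_mul, C1, Complex.ofReal_sum]
  ring

end Pool.Agent.M58
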