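import Pool.Agent.W_b58c63_m1.SPlB

/-!
# The fundamental lemma with prescribed divisors (helper68)
-/

set_option autoImplicit false

noncomputable section

open Finset

namespace Pool.Agent.M58

theorem RD_sum (g : ℕ → ℝ) (P T : Finset ℕ) (hT : T ⊆ P) (hg : ∀ p ∈ P, 0 ≤ g p) :
    ∑ S ∈ P.powerset, (if T ⊆ S then ∏ p ∈ S, g p else 0) ≤
      Real.exp (∑ p ∈ P, g p) * ∏ p ∈ T, g p := by
  have h1 := Finset.prod_add (fun i => g i) (fun i => if i ∈ T then (0 : ℝ) else 1) P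
  have h2 : ∀ S ∈ P.powerset, (∏ i ∈ S, g i) * ∏ i ∈ P \ S, (if i ∈ T then (0 : ℝ) else 1) =
      if T ⊆ S then ∏ p ∈ S, g p else 0 := by
    intro S _
    by_cases h : T ⊆ S
    · have h4 : ∏ i ∈ P \ S, (if i ∈ T then (0 : ℝ) else 1) = 1 := by
        refine prod_eq_one fun i hi => ?_
        rw [mem_sdiff] at hi
        rw [if_neg fun h3 => hi.2 (h h3)]
      rw [if_pos h, h4, mul_one]
    · rw [if_neg h]
      rw [not_subset] at h
      obtain ⟨x, hx, hxS⟩ := h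
      rw [prod_eq_zero (mem_sdiff.2 ⟨hT hx, hxS⟩) (by rw [if_pos hx]), mul_zero]
  rw [sum_congr rfl h2] at h1
  rw [← h1, ← prod_sdiff hT]
  have h3 : ∏ x ∈ T, (g x + if x ∈ T then (0 : ℝ) else 1) = ∏ x ∈ T, g x := by
    refine prod_congr rfl fun x hx => ?_
    rw [if_pos hx, add_zero]
  rw [h3]
  refine mul_le_mul_of_nonneg_right ?_ (prod_nonneg fun x hx => hg x (hT hx))
  calc ∏ x ∈ P \ T, (g x + if x ∈ T then (0 : ℝ) else 1) ≤ ∏ x ∈ P \ T, Real.exp (g x) := by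
        refine prod_le_prod (fun x hx => ?_) fun x hx => ?_
        · rw [mem_sdiff] at hx
          have := hg x hx.1
          rw [if_neg hx.2]
          linarith
        · rw [mem_sdiff] at hx
          rw [if_neg hx.2]
          exact Real.add_one_le_exp (g x)
    _ = Real.exp (∑ x ∈ P \ T, g x) := (Real.exp_sum _ _).symm
    _ ≤ Real.exp (∑ p ∈ P, g p) := by
        refine Real.exp_le_exp.2 ?_
        exact sum_le_sum_of_subset_of_nonneg sdiff_subset fun x hx _ => hg x hx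

theorem RD_fac (g : ℕ → ℝ) (P T : Finset ℕ) (b : ℕ) (hT : T ⊆ P) (hg : ∀ p ∈ P, 0 ≤ g p) :
    |∑ S ∈ P.powerset, (if T ⊆ S then SHoB_F g b S else 0)| ≤
      Real.exp (∑ p ∈ P, g p) * ∏ p ∈ T, g p := by
  refine (abs_sum_le_sum_abs _ _).trans (le_trans (sum_le_sum fun S hS => ?_) (RD_sum g P T hT hg))
  rw [mem_powerset] at hS
  have h0 : 0 ≤ ∏ p ∈ S, g p := prod_nonneg fun p hp => hg p (hS hp)
  by_cases h : T ⊆ S
  · rw [if_pos h, if_pos h]
    unfold SHoB_F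
    split_ifs
    · rw [abs_mul, abs_pow, abs_neg, abs_one, one_pow, one_mul, abs_of_nonneg h0]
    · rw [abs_zero]
      exact h0
  · rw [if_neg h, if_neg h, abs_zero]

theorem RD_lap (g : ℕ → ℝ) (P : ℕ → Finset ℕ) (b : ℕ → ℕ) (J : ℕ)
    (hP : ∀ i < J, ∀ j < J, i ≠ j → Disjoint (P i) (P j)) (S : Finset ℕ) (hS' : S ⊆ blk P J) :
    lap P b J S * ∏ p ∈ S, g p = ∏ j ∈ range J, SHoB_F g (b j) (S ∩ P j) := by
  classical
  rw [SHoB_prod_F g b (range J) (fun j => S ∩ P j)]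
  unfold lap
  by_cases h : ∀ j < J, (S ∩ P j).card ≤ b j
  · have h' : ∀ j ∈ range J, (S ∩ P j).card ≤ b j := fun j hj => h j (Finset.mem_range.mp hj)
    rw [if_pos h, if_pos h', Finset.prod_mul_distrib, SHoB_prod_split P J S g hP hS', SHoB_sign,
      SHoB_prod_split P J S (fun _ => (-1 : ℝ)) hP hS']
    simp only [Finset.prod_const]
  · have h' : ¬ ∀ j ∈ range J, (S ∩ P j).card ≤ b j := fun h2 =>
      h fun j hj => h2 j (Finset.mem_range.mpr hj)
    rw [if_neg h, if_neg h', zero_mul]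

theorem RD_split (g : ℕ → ℝ) (P : ℕ → Finset ℕ) (b : ℕ → ℕ) (J : ℕ)
    (hP : ∀ i < J, ∀ j < J, i ≠ j → Disjoint (P i) (P j)) (T : Finset ℕ) (hT : T ⊆ blk P J) :
    ∑ S ∈ (blk P J).powerset.filter (fun S => T ⊆ S), lap P b J S * ∏ p ∈ S, g p =
      ∏ j ∈ range J, ∑ S ∈ (P j).powerset, (if T ∩ P j ⊆ S then SHoB_F g (b j) S else 0) := by
  rw [← SHoB_key P (fun j S => if T ∩ P j ⊆ S then SHoB_F g (b j) S else 0) J hP, sum_filter]
  refine sum_congr rfl fun S hS => ?_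
  rw [mem_powerset] at hS
  by_cases h : T ⊆ S
  · rw [if_pos h, RD_lap g P b J hP S hS]
    refine prod_congr rfl fun j _ => ?_
    rw [if_pos (inter_subset_inter_right h)]
  · rw [if_neg h]
    symm
    rw [not_subset] at h
    obtain ⟨x, hx, hxS⟩ := h
    obtain ⟨j, hj, hxj⟩ := mem_biUnion.1 (hT hx)
    refine prod_eq_zero hj ?_
    rw [if_neg]
    intro h3
    exact hxS (mem_inter.1 (h3 (mem_inter.2 ⟨hx, hxj⟩))).1

/-- The factors of the blocks without prescribed divisors. -/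
theorem RD_Ub : ∃ A : ℝ, 1 ≤ A ∧ ∀ (z : ℝ) (b : ℕ) (g : ℕ → ℝ) (j : ℕ), 2 ≤ z → 1 ≤ b →
    (∀ p, p.Prime → 0 ≤ g p ∧ g p ≤ 3 / 4 ∧ g p ≤ 4 / p) →
      0 ≤ Ub g (Pz z j) (bz b j) ∧
        Ub g (Pz z j) (bz b j) ≤ VP g (Pz z j) * (1 + A * Real.exp (-j)) := by
  obtain ⟨S, hS1, hS⟩ := SPlB_S0
  set v₀ := Real.exp (-(4 * S)) with hv₀
  have hv0 : 0 < v₀ := Real.exp_pos _
  have hv1 : v₀ ≤ 1 := Real.exp_le_one_iff.2 (by linarith)
  set A := Real.exp (Real.exp 1 * S) / v₀ with hA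
  have hA1 : 1 ≤ A := by
    rw [hA, le_div_iff₀ hv0, one_mul]
    exact hv1.trans (Real.one_le_exp (by positivity))
  refine ⟨A, hA1, ?_⟩
  intro z b g j hz hb hg
  have hgP : ∀ p ∈ Pz z j, 0 ≤ g p ∧ g p ≤ 3 / 4 := by
    intro p hp
    rw [Pz, mem_PI] at hp
    exact ⟨(hg p hp.1).1, (hg p hp.1).2.1⟩
  have hgP1 : ∀ p ∈ Pz z j, 0 ≤ g p ∧ g p ≤ 1 := fun p hp =>
    ⟨(hgP p hp).1, by linarith [(hgP p hp).2]⟩
  have hv : v₀ ≤ VP g (Pz z j) := SPlB_VP g _ S hgP (hS z j g hz hg)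
  have hEl : El g (Pz z j) (bz b j + 1) ≤ v₀ * (A * Real.exp (-j)) := by
    have h1 := El_le g (Pz z j) (bz b j + 1) fun p hp => (hgP p hp).1
    refine h1.2.trans ?_
    have h2 : (∑ p ∈ Pz z j, g p) ^ (bz b j + 1) / ((bz b j + 1).factorial : ℝ) ≤
        S ^ (bz b j + 1) / ((bz b j + 1).factorial : ℝ) := by
      refine div_le_div_of_nonneg_right ?_ (by positivity)
      exact pow_le_pow_left₀ (sum_nonneg fun p hp => (hgP p hp).1) (hS z j g hz hg) _
    refine h2.trans ((SPlB_fact S (by linarith) _).trans ?_)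
    have h3 : v₀ * (A * Real.exp (-j)) = Real.exp (Real.exp 1 * S) * Real.exp (-j) := by
      rw [hA]
      field_simp
    rw [h3]
    refine mul_le_mul_of_nonneg_left (Real.exp_le_exp.2 ?_) (Real.exp_pos _).le
    rw [bz]
    push_cast
    have h4 : (0 : ℝ) ≤ b := Nat.cast_nonneg b
    have h5 : (0 : ℝ) ≤ j := Nat.cast_nonneg j
    linarith
  have h1 := Ub_bounds g (Pz z j) (bz b j) ⟨b + j, by rw [bz]; ring⟩ hgP1
  refine ⟨(hv0.le.trans hv).trans h1.1, h1.2.trans ?_⟩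
  have h3 := mul_le_mul_of_nonneg_right hv (show 0 ≤ A * Real.exp (-j) by positivity)
  linarith

/-- **Prescribed divisors.**

Proof. The sum over `S ⊇ T` factorises over the blocks: with `T j = T ∩ Pz z j` the factor of the block `j` is `Ub (Pz z j) (bz b j)` if
`T j = ∅`, `0` if `|T j| > bz b j`, and otherwise `± ∏_{T j} g` times `Ub (Pz z j \ T j) (bz b j - |T j|)`, which is at most
`1 + El ≤ C₁` in absolute value (`SHoB_D`, `El_le`, `∑_{Pz z j} g ≤ S₀`), i.e. at most `C₂ VP g (Pz z j)` since `VP g (Pz z j) ≥ v₀` (see the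
proof of `FL`). The product of the factors with `T j = ∅` is at most `C ∏ VP g (Pz z j)` over these blocks. The number of the
other blocks is at most `|T|`. -/
theorem FLr : ∃ C : ℝ, 1 ≤ C ∧ ∀ (z : ℝ) (b : ℕ) (g : ℕ → ℝ) (T : Finset ℕ), 2 ≤ z → 1 ≤ b →
    (∀ p, p.Prime → 0 ≤ g p ∧ g p ≤ 3 / 4 ∧ g p ≤ 4 / p) → T ⊆ PI 0 z →
      |∑ S ∈ (PI 0 z).powerset.filter (fun S => T ⊆ S), lp' z b S * ∏ p ∈ S, g p| ≤
        C * VP g (PI 0 z) * ∏ p ∈ T, (C * g p) := by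
  obtain ⟨A, hA1, hA⟩ := RD_Ub
  obtain ⟨S, hS1, hS⟩ := SPlB_S0
  set v₀ := Real.exp (-(4 * S)) with hv₀
  have hv0 : 0 < v₀ := Real.exp_pos _
  have hv1 : v₀ ≤ 1 := Real.exp_le_one_iff.2 (by linarith)
  set C₂ := Real.exp S / v₀ with hC₂
  have hC21 : 1 ≤ C₂ := by
    rw [hC₂, le_div_iff₀ hv0, one_mul]
    exact hv1.trans (Real.one_le_exp (by linarith))
  set C := max C₂ (Real.exp (2 * A)) with hC
  have hCC2 : C₂ ≤ C := le_max_left _ _
  have hCe : Real.exp (2 * A) ≤ C := le_max_right _ _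
  refine ⟨C, hC21.trans hCC2, ?_⟩
  intro z b g T hz hb hg hT
  have hT' : T ⊆ blk (Pz z) (Jz z) := by rw [blk_Pz z hz]; exact hT
  have hsum : ∑ S ∈ (PI 0 z).powerset.filter (fun S => T ⊆ S), lp' z b S * ∏ p ∈ S, g p =
      ∏ j ∈ range (Jz z), ∑ S ∈ (Pz z j).powerset,
        (if T ∩ Pz z j ⊆ S then SHoB_F g (bz b j) S else 0) := by
    rw [← blk_Pz z hz]
    exact RD_split g (Pz z) (bz b) (Jz z) (fun i _ j _ h => Pz_disj z hz i j h) T hT'
  have hgP : ∀ j, ∀ p ∈ Pz z j, 0 ≤ g p ∧ g p ≤ 3 / 4 := by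
    intro j p hp
    rw [Pz, mem_PI] at hp
    exact ⟨(hg p hp.1).1, (hg p hp.1).2.1⟩
  have hv : ∀ j, v₀ ≤ VP g (Pz z j) := fun j => SPlB_VP g _ S (hgP j) (hS z j g hz hg)
  have hVpos : ∀ j, 0 < VP g (Pz z j) := fun j => hv0.trans_le (hv j)
  have hTg : ∀ j, ∀ p ∈ T ∩ Pz z j, 0 ≤ g p := fun j p hp => (hgP j p (mem_inter.1 hp).2).1
  have hfac : ∀ j ∈ range (Jz z), |∑ S ∈ (Pz z j).powerset,
      (if T ∩ Pz z j ⊆ S then SHoB_F g (bz b j) S else 0)| ≤
      VP g (Pz z j) * (1 + A * Real.exp (-j)) * ∏ p ∈ T ∩ Pz z j, (C₂ * g p) := by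
    intro j _
    have hAj : 0 ≤ A * Real.exp (-(j : ℝ)) := by positivity
    rcases (T ∩ Pz z j).eq_empty_or_nonempty with he | hne
    · rw [he, prod_empty, mul_one]
      have h1 : ∑ S ∈ (Pz z j).powerset, (if (∅ : Finset ℕ) ⊆ S then SHoB_F g (bz b j) S else 0) =
          Ub g (Pz z j) (bz b j) := by
        rw [← SHoB_sumF]
        exact sum_congr rfl fun S _ => if_pos (empty_subset S)
      rw [h1]
      obtain ⟨h2, h3⟩ := hA z b g j hz hb hg
      rw [abs_of_nonneg h2]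
      exact h3
    · have h1 := RD_fac g (Pz z j) (T ∩ Pz z j) (bz b j) inter_subset_right
        fun p hp => (hgP j p hp).1
      refine h1.trans ?_
      have h2 : Real.exp (∑ p ∈ Pz z j, g p) ≤ Real.exp S := Real.exp_le_exp.2 (hS z j g hz hg)
      have h3 : 0 ≤ ∏ p ∈ T ∩ Pz z j, g p := prod_nonneg (hTg j)
      have h4 : C₂ ≤ C₂ ^ (T ∩ Pz z j).card := by
        have h5 : (T ∩ Pz z j).card ≠ 0 := card_ne_zero.2 hne
        exact le_self_pow₀ hC21 h5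
      rw [prod_mul_distrib, prod_const]
      have h5 : Real.exp S = C₂ * v₀ := by
        rw [hC₂]
        field_simp
      calc Real.exp (∑ p ∈ Pz z j, g p) * ∏ p ∈ T ∩ Pz z j, g p
          ≤ (C₂ * v₀) * ∏ p ∈ T ∩ Pz z j, g p := by
            rw [← h5]
            exact mul_le_mul_of_nonneg_right h2 h3
        _ ≤ (C₂ ^ (T ∩ Pz z j).card * (VP g (Pz z j) * (1 + A * Real.exp (-j)))) *
              ∏ p ∈ T ∩ Pz z j, g p := by
            refine mul_le_mul_of_nonneg_right ?_ h3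
            refine mul_le_mul h4 ?_ hv0.le (by positivity)
            have h6 := hv j
            have h7 := mul_nonneg (hVpos j).le hAj
            linarith
        _ = VP g (Pz z j) * (1 + A * Real.exp (-j)) *
              (C₂ ^ (T ∩ Pz z j).card * ∏ p ∈ T ∩ Pz z j, g p) := by ring
  rw [hsum, abs_prod]
  refine (prod_le_prod (fun j _ => abs_nonneg _) hfac).trans ?_
  rw [prod_mul_distrib, prod_mul_distrib, ← SPlB_VPblk g z hz]
  have hexp : ∏ j ∈ range (Jz z), (1 + A * Real.exp (-(j : ℝ))) ≤ C := by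
    calc ∏ j ∈ range (Jz z), (1 + A * Real.exp (-(j : ℝ)))
        ≤ ∏ j ∈ range (Jz z), Real.exp (A * Real.exp (-(j : ℝ))) := by
          refine prod_le_prod (fun j _ => by positivity) fun j _ => ?_
          have := Real.add_one_le_exp (A * Real.exp (-(j : ℝ)))
          linarith
      _ = Real.exp (∑ j ∈ range (Jz z), A * Real.exp (-(j : ℝ))) := (Real.exp_sum _ _).symm
      _ ≤ Real.exp (2 * A) := by
          refine Real.exp_le_exp.2 ?_
          rw [← mul_sum]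
          have h1 := SPlB_geo (Jz z)
          nlinarith
      _ ≤ C := hCe
  have hVV : 0 ≤ VP g (PI 0 z) := by
    rw [SPlB_VPblk g z hz]
    exact prod_nonneg fun j _ => (hVpos j).le
  have hprod : ∏ j ∈ range (Jz z), ∏ p ∈ T ∩ Pz z j, (C₂ * g p) = ∏ p ∈ T, (C₂ * g p) :=
    (SHoB_prod_split (Pz z) (Jz z) T (fun p => C₂ * g p)
      (fun i _ j _ h => Pz_disj z hz i j h) hT').symm
  have hgT : ∀ p ∈ T, 0 ≤ g p := by
    intro p hp
    have := hT hp
    rw [mem_PI] at this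
    exact (hg p this.1).1
  rw [hprod]
  have hT2 : ∏ p ∈ T, (C₂ * g p) ≤ ∏ p ∈ T, (C * g p) := by
    refine prod_le_prod (fun p hp => mul_nonneg (by linarith) (hgT p hp)) fun p hp => ?_
    exact mul_le_mul_of_nonneg_right hCC2 (hgT p hp)
  have hT0 : 0 ≤ ∏ p ∈ T, (C₂ * g p) :=
    prod_nonneg fun p hp => mul_nonneg (by linarith) (hgT p hp)
  calc VP g (PI 0 z) * (∏ j ∈ range (Jz z), (1 + A * Real.exp (-(j : ℝ)))) * ∏ p ∈ T, (C₂ * g p)
      ≤ VP g (PI 0 z) * C * ∏ p ∈ T, (C * g p) := by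
        refine mul_le_mul (mul_le_mul_of_nonneg_left hexp hVV) hT2 hT0 ?_
        exact mul_nonneg hVV (by linarith)
    _ = C * VP g (PI 0 z) * ∏ p ∈ T, (C * g p) := by ring

end Pool.Agent.M58
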