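import Pool.Agent.W_b58c63_m1.RC
import Pool.Agent.W_b58c63_m1.RD
import Pool.Agent.W_fd120a_h34.Div

/-!
# The coefficients of the cut sieve kernel (helper68)
-/

set_option autoImplicit false

noncomputable section

open Finset

namespace Pool.Agent.M58

/-- The sieve density for the integers `N - p`. -/
def gN (N p : ℕ) : ℝ := if p ∣ N then 0 else 1 / ((p : ℝ) - 1)

/-- Moebius inversion. -/
theorem RE_sum_Gq (r N n : ℕ) (hn : 1 ≤ n) :
    ∑ q ∈ n.divisors, Gq r N q = if r ∣ n ∧ n.Coprime N then (n / n.totient : ℝ) else 0 := by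
  have h1 := (ArithmeticFunction.sum_eq_iff_sum_mul_moebius_eq (f := fun q => Gq r N q)
    (g := fun n : ℕ => if r ∣ n ∧ n.Coprime N then (n / n.totient : ℝ) else 0)).2 (fun n hn => by
      rw [Nat.sum_divisorsAntidiagonal' (fun a b : ℕ =>
        ((ArithmeticFunction.moebius a : ℤ) : ℝ) *
          (if r ∣ b ∧ b.Coprime N then (b / b.totient : ℝ) else 0))]
      unfold Gq
      rw [Finset.sum_filter]
      refine Finset.sum_congr rfl fun i _ => ?_
      split_ifs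
      · rfl
      · rw [mul_zero])
  exact h1 n hn

theorem RE_coprime_prod (S : Finset ℕ) (N : ℕ) (hS : ∀ p ∈ S, p.Prime) :
    (∏ p ∈ S, p).Coprime N ↔ ∀ p ∈ S, ¬ p ∣ N := by
  rw [Nat.coprime_prod_left_iff]
  exact forall₂_congr fun p hp => (hS p hp).coprime_iff_not_dvd

theorem RE_totient_prod (S : Finset ℕ) (hS : ∀ p ∈ S, p.Prime) :
    ((∏ p ∈ S, p).totient : ℝ) = ∏ p ∈ S, ((p : ℝ) - 1) := by
  classical
  induction S using Finset.induction_on with
  | empty => simp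
  | insert a s ha ih =>
    have hs : ∀ p ∈ s, p.Prime := fun p hp => hS p (Finset.mem_insert_of_mem hp)
    have hap := hS a (Finset.mem_insert_self a s)
    rw [Finset.prod_insert ha, Finset.prod_insert ha, Nat.totient_mul, Nat.totient_prime hap,
      ← ih hs]
    · push_cast
      rw [Nat.cast_sub hap.one_lt.le]
      push_cast
      ring
    · refine Nat.Coprime.prod_right fun p hp => ?_
      rw [Nat.coprime_primes hap (hs p hp)]
      rintro rfl
      exact ha hp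

theorem RE_gN_prod (S : Finset ℕ) (N : ℕ) (hS : ∀ p ∈ S, p.Prime) :
    ∏ p ∈ S, gN N p =
      if (∏ p ∈ S, p).Coprime N then (1 : ℝ) / (∏ p ∈ S, p).totient else 0 := by
  by_cases h : (∏ p ∈ S, p).Coprime N
  · rw [if_pos h, RE_totient_prod S hS, one_div, ← Finset.prod_inv_distrib]
    refine Finset.prod_congr rfl fun p hp => ?_
    unfold gN
    rw [if_neg ((RE_coprime_prod S N hS).1 h p hp), one_div]
  · rw [if_neg h]
    rw [RE_coprime_prod S N hS] at h
    push Not at h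
    obtain ⟨p, hp, hpN⟩ := h
    refine Finset.prod_eq_zero hp ?_
    unfold gN
    rw [if_pos hpN]

/-- **The full sum.** (`∑_{q ∣ d} Gq r N q = [r ∣ d, (d, N) = 1] d / φ(d)` by Möbius inversion, inserted in the definition of `ct`.) -/
theorem C1_full (z : ℝ) (hz : 2 ≤ z) (b D N r : ℕ) (hN : 1 ≤ N) (hr : 1 ≤ r) (hD : z ^ (4 * b + 5) ≤ D) :
    ∑ q ∈ Icc 1 D, ct z b q * Gq r N q =
      ∑ S ∈ (PI 0 z).powerset.filter (fun S => r ∣ ∏ p ∈ S, p), lp' z b S * ∏ p ∈ S, gN N p := by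
  have h1 : ∀ q ∈ Icc 1 D, ct z b q * Gq r N q = ∑ S ∈ (PI 0 z).powerset,
      if q ∣ ∏ p ∈ S, p then lp' z b S / ((∏ p ∈ S, p : ℕ) : ℝ) * Gq r N q else 0 := by
    intro q _
    unfold ct
    rw [Finset.sum_filter, Finset.sum_mul]
    refine Finset.sum_congr rfl fun S _ => ?_
    split_ifs
    · rfl
    · rw [zero_mul]
  rw [Finset.sum_congr rfl h1, Finset.sum_comm, Finset.sum_filter]
  refine Finset.sum_congr rfl fun S hS => ?_
  have hSs := Finset.mem_powerset.1 hS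
  have hSp : ∀ p ∈ S, p.Prime := fun p hp => (mem_PI.1 (hSs hp)).1
  have hpos := SSm_pos hSs
  set n := ∏ p ∈ S, p with hn
  by_cases hl : lp' z b S = 0
  · rw [hl]
    simp
  · have hnD : n ≤ D := by
      have := (lp_supp z hz b S hSs hl).trans hD
      exact_mod_cast this
    have h2 : (∑ q ∈ Icc 1 D, if q ∣ n then lp' z b S / (n : ℝ) * Gq r N q else 0) =
        lp' z b S / (n : ℝ) * ∑ q ∈ n.divisors, Gq r N q := by
      rw [← Finset.sum_filter, ← Finset.mul_sum]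
      congr 1
      refine Finset.sum_congr ?_ fun _ _ => rfl
      ext q
      rw [Finset.mem_filter, Finset.mem_Icc, Nat.mem_divisors]
      constructor
      · rintro ⟨_, h3⟩
        exact ⟨h3, by omega⟩
      · rintro ⟨h3, _⟩
        exact ⟨⟨Nat.pos_of_dvd_of_pos h3 hpos, (Nat.le_of_dvd hpos h3).trans hnD⟩, h3⟩
    rw [h2, RE_sum_Gq r N n hpos, RE_gN_prod S N hSp, ← hn]
    have hn0 : (n : ℝ) ≠ 0 := by
      have : (1 : ℝ) ≤ n := by exact_mod_cast hpos
      positivity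
    by_cases hrn : r ∣ n
    · by_cases hc : n.Coprime N
      · rw [if_pos ⟨hrn, hc⟩, if_pos hrn, if_pos hc]
        field_simp
      · rw [if_neg (fun h => hc h.2), if_pos hrn, if_neg hc]
        simp
    · rw [if_neg (fun h => hrn h.1), if_neg hrn]
      simp

/-- The function `[(e, N) = 1] e / φ(e)`. -/
def RE_h (N : ℕ) : ArithmeticFunction ℝ :=
  ⟨fun e => if e.Coprime N then (e / e.totient : ℝ) else 0, by simp⟩

theorem RE_h_mult (N : ℕ) : (RE_h N).IsMultiplicative := by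
  refine ⟨by simp [RE_h], ?_⟩
  intro m n hmn
  simp only [RE_h, ArithmeticFunction.coe_mk]
  by_cases h1 : m.Coprime N
  · by_cases h2 : n.Coprime N
    · rw [if_pos h1, if_pos h2, if_pos (Nat.Coprime.mul_left h1 h2), Nat.totient_mul hmn]
      push_cast
      rw [mul_div_mul_comm]
    · rw [if_neg h2, if_neg (fun h => h2 (Nat.Coprime.coprime_mul_left h)), mul_zero]
  · rw [if_neg h1, if_neg (fun h => h1 (Nat.Coprime.coprime_mul_right h)), zero_mul]

/-- The inner sum. -/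
def RE_F (N k : ℕ) : ℝ :=
  ∑ e ∈ k.divisors.filter (fun e => e.Coprime N),
    (ArithmeticFunction.moebius (k / e) : ℝ) * (e / e.totient)

theorem RE_F_eq (N k : ℕ) : RE_F N k =
    (((ArithmeticFunction.moebius : ArithmeticFunction ℤ) : ArithmeticFunction ℝ) * RE_h N) k := by
  rw [ArithmeticFunction.mul_apply,
    Nat.sum_divisorsAntidiagonal' (fun a b : ℕ =>
      ((ArithmeticFunction.moebius : ArithmeticFunction ℤ) : ArithmeticFunction ℝ) a * RE_h N b)]
  unfold RE_F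
  rw [Finset.sum_filter]
  refine Finset.sum_congr rfl fun e _ => ?_
  simp only [RE_h, ArithmeticFunction.coe_mk, ArithmeticFunction.intCoe_apply]
  split_ifs
  · rfl
  · rw [mul_zero]

theorem RE_F_prime (N p : ℕ) (hp : p.Prime) :
    RE_F N p = if p ∣ N then -1 else 1 / ((p : ℝ) - 1) := by
  unfold RE_F
  rw [Finset.sum_filter, hp.divisors, Finset.sum_pair hp.one_lt.ne]
  have h1 : (1 : ℝ) < p := by exact_mod_cast hp.one_lt
  rw [if_pos (Nat.coprime_one_left N), Nat.div_one, ArithmeticFunction.moebius_apply_prime hp,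
    Nat.div_self hp.pos, ArithmeticFunction.moebius_apply_one, Nat.totient_prime hp,
    Nat.cast_sub hp.one_lt.le]
  have h2 : (p : ℝ) - 1 ≠ 0 := by linarith
  by_cases h : p ∣ N
  · rw [if_neg (fun hc => (hp.coprime_iff_not_dvd.1 hc) h), if_pos h]
    simp
  · rw [if_pos (hp.coprime_iff_not_dvd.2 h), if_neg h]
    simp
    field_simp
    ring

theorem RE_F_prod (N : ℕ) (t : Finset ℕ) (ht : ∀ p ∈ t, p.Prime) :
    RE_F N (∏ p ∈ t, p) = ∏ p ∈ t, RE_F N p := by
  have hm : ((((ArithmeticFunction.moebius : ArithmeticFunction ℤ) : ArithmeticFunction ℝ) *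
      RE_h N)).IsMultiplicative :=
    ArithmeticFunction.isMultiplicative_moebius.intCast.mul (RE_h_mult N)
  rw [RE_F_eq, hm.map_prod_of_prime t ht]
  exact Finset.prod_congr rfl fun p _ => (RE_F_eq N p).symm

theorem RE_F_le (N k : ℕ) (hN : 1 ≤ N) (hk : Squarefree k) :
    |RE_F N k| ≤ (Nat.gcd k N : ℝ) / k.totient := by
  classical
  have key : ∀ t : Finset ℕ, (∀ p ∈ t, p.Prime) →
      ∏ p ∈ t, |RE_F N p| ≤ (Nat.gcd (∏ p ∈ t, p) N : ℝ) / (∏ p ∈ t, p).totient := by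
    intro t
    induction t using Finset.induction_on with
    | empty => intro _; simp
    | insert a s ha ih =>
      intro hS
      have hs : ∀ p ∈ s, p.Prime := fun p hp => hS p (Finset.mem_insert_of_mem hp)
      have hap := hS a (Finset.mem_insert_self a s)
      have hco : a.Coprime (∏ p ∈ s, p) := by
        refine Nat.Coprime.prod_right fun p hp => ?_
        rw [Nat.coprime_primes hap (hs p hp)]
        rintro rfl
        exact ha hp
      rw [Finset.prod_insert ha, Finset.prod_insert ha, Nat.totient_mul hco,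
        Nat.gcd_comm, Nat.Coprime.gcd_mul N hco, Nat.totient_prime hap]
      have h1 : (1 : ℝ) < a := by exact_mod_cast hap.one_lt
      have h2 : |RE_F N a| ≤ (Nat.gcd N a : ℝ) / ((a - 1 : ℕ) : ℝ) := by
        rw [RE_F_prime N a hap, Nat.cast_sub hap.one_lt.le, Nat.cast_one]
        have h3 : 0 < (a : ℝ) - 1 := by linarith
        by_cases h : a ∣ N
        · rw [if_pos h, Nat.gcd_eq_right h, abs_neg, abs_one, le_div_iff₀ h3]
          linarith
        · rw [if_neg h, abs_of_pos (by positivity)]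
          have h4 : (1 : ℝ) ≤ Nat.gcd N a := by exact_mod_cast Nat.gcd_pos_of_pos_left a hN
          exact div_le_div_of_nonneg_right h4 h3.le
      push_cast
      rw [mul_div_mul_comm]
      have h5 := ih hs
      rw [Nat.gcd_comm] at h5
      exact mul_le_mul h2 h5 (Finset.prod_nonneg fun _ _ => abs_nonneg _) (by positivity)
  have h1 := key k.primeFactors (fun p hp => Nat.prime_of_mem_primeFactors hp)
  rw [Nat.prod_primeFactors_of_squarefree hk] at h1
  have h2 := RE_F_prod N k.primeFactors (fun p hp => Nat.prime_of_mem_primeFactors hp)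
  rw [Nat.prod_primeFactors_of_squarefree hk] at h2
  rw [h2, Finset.abs_prod]
  exact h1

/-- For squarefree `q` divisible by `r`, `k = q / r`: `Gq r N q = [(r, N) = 1] r / φ(r) ∏_{p ∣ k} (if p ∣ N then - 1 else 1 / (p - 1))`, so
`|Gq r N q| ≤ r / φ(r) (k, N) / φ(k)`. -/
theorem Gq_le (r N q : ℕ) (hN : 1 ≤ N) (hq : Squarefree q) :
    (Gq r N q ≠ 0 → r ∣ q) ∧
      |Gq r N q| ≤ (r / r.totient : ℝ) * ((Nat.gcd (q / r) N : ℝ) / (q / r).totient) := by
  have h0 : ¬ r ∣ q → Gq r N q = 0 := by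
    intro h
    unfold Gq
    have h1 : q.divisors.filter (fun d => r ∣ d ∧ d.Coprime N) = ∅ := by
      rw [Finset.filter_eq_empty_iff]
      intro d hd hc
      exact h (hc.1.trans (Nat.dvd_of_mem_divisors hd))
    rw [h1, Finset.sum_empty]
  refine ⟨fun h => by_contra fun h1 => h (h0 h1), ?_⟩
  by_cases hrq : r ∣ q
  · obtain ⟨k, rfl⟩ := hrq
    have hq0 : r * k ≠ 0 := hq.ne_zero
    have hr0 : 0 < r := Nat.pos_of_ne_zero fun h => hq0 (by rw [h, zero_mul])
    have hk0 : 0 < k := Nat.pos_of_ne_zero fun h => hq0 (by rw [h, mul_zero])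
    have hco : r.Coprime k := Nat.coprime_of_squarefree_mul hq
    have hk : Squarefree k := hq.of_mul_right
    rw [Nat.mul_div_cancel_left k hr0]
    have h1 : Gq r N (r * k) = if r.Coprime N then (r / r.totient : ℝ) * RE_F N k else 0 := by
      unfold Gq
      have h2 : (r * k).divisors.filter (fun d => r ∣ d ∧ d.Coprime N) =
          (k.divisors.filter (fun e => (r * e).Coprime N)).image (fun e => r * e) := by
        ext d
        rw [Finset.mem_filter, Nat.mem_divisors, Finset.mem_image]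
        constructor
        · rintro ⟨⟨h3, _⟩, ⟨e, rfl⟩, h4⟩
          refine ⟨e, ?_, rfl⟩
          rw [Finset.mem_filter, Nat.mem_divisors]
          exact ⟨⟨Nat.dvd_of_mul_dvd_mul_left hr0 h3, hk0.ne'⟩, h4⟩
        · rintro ⟨e, he, rfl⟩
          rw [Finset.mem_filter, Nat.mem_divisors] at he
          exact ⟨⟨Nat.mul_dvd_mul_left r he.1.1, hq0⟩, dvd_mul_right _ _, he.2⟩
      rw [h2, Finset.sum_image (fun a _ b _ h => Nat.eq_of_mul_eq_mul_left hr0 h)]
      by_cases hrN : r.Coprime N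
      · rw [if_pos hrN]
        unfold RE_F
        rw [Finset.mul_sum]
        have h3 : k.divisors.filter (fun e => (r * e).Coprime N) =
            k.divisors.filter (fun e => e.Coprime N) := by
          refine Finset.filter_congr fun e _ => ?_
          rw [Nat.coprime_mul_iff_left]
          exact ⟨fun h => h.2, fun h => ⟨hrN, h⟩⟩
        rw [h3]
        refine Finset.sum_congr rfl fun e he => ?_
        rw [Finset.mem_filter, Nat.mem_divisors] at he
        have h4 : r.Coprime e := Nat.Coprime.coprime_dvd_right he.1.1 hco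
        rw [Nat.mul_div_mul_left k e hr0, Nat.totient_mul h4]
        push_cast
        rw [mul_div_mul_comm]
        ring
      · rw [if_neg hrN]
        refine Finset.sum_eq_zero fun e he => ?_
        rw [Finset.mem_filter] at he
        exact absurd (Nat.Coprime.coprime_mul_right he.2) hrN
    rw [h1]
    have h5 := RE_F_le N k hN hk
    split_ifs
    · rw [abs_mul, abs_of_nonneg (by positivity : (0 : ℝ) ≤ r / r.totient)]
      exact mul_le_mul_of_nonneg_left h5 (by positivity)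
    · rw [abs_zero]
      positivity
  · rw [h0 hrq, abs_zero]
    positivity

theorem RE_inv_totient (q : ℕ) (hq : Squarefree q) : (1 : ℝ) / q.totient ≤ q.divisors.card / q := by
  have h1 : ∀ p ∈ q.primeFactors, p.Prime := fun p hp => Nat.prime_of_mem_primeFactors hp
  have h2 := RE_totient_prod q.primeFactors h1
  rw [Nat.prod_primeFactors_of_squarefree hq] at h2
  have h3 : (q : ℝ) = ∏ p ∈ q.primeFactors, (p : ℝ) := by
    rw [← Nat.cast_prod, Nat.prod_primeFactors_of_squarefree hq]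
  have h4 : (q.divisors.card : ℝ) = ∏ p ∈ q.primeFactors, (2 : ℝ) := by
    rw [Finset.prod_const, Nat.card_divisors hq.ne_zero]
    have h5 : ∏ x ∈ q.primeFactors, (q.factorization x + 1) = ∏ _x ∈ q.primeFactors, 2 := by
      refine Finset.prod_congr rfl fun p hp => ?_
      rw [hq.natFactorization_le_one p |>.antisymm ?_]
      exact (Nat.Prime.factorization_pos_of_dvd (h1 p hp) hq.ne_zero
        (Nat.dvd_of_mem_primeFactors hp))
    rw [h5, Finset.prod_const]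
    push_cast
    rfl
  have h6 : (1 : ℝ) / ∏ p ∈ q.primeFactors, ((p : ℝ) - 1) ≤
      (∏ p ∈ q.primeFactors, (2 : ℝ)) / ∏ p ∈ q.primeFactors, (p : ℝ) := by
    rw [one_div, ← Finset.prod_inv_distrib, ← Finset.prod_div_distrib]
    refine Finset.prod_le_prod (fun p hp => ?_) (fun p hp => ?_)
    · have h5 : (1 : ℝ) < p := by exact_mod_cast (h1 p hp).one_lt
      have : 0 < (p : ℝ) - 1 := by linarith
      positivity
    · have h5 : (2 : ℝ) ≤ p := by exact_mod_cast (h1 p hp).two_le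
      rw [← one_div, div_le_div_iff₀ (by linarith) (by linarith)]
      linarith
  rw [← h3] at h6
  rw [h2, h4]
  exact h6

/-- The sum over the gcd. -/
theorem RE_gcd_sum (N : ℕ) (hN : 1 ≤ N) (K : Finset ℕ) :
    ∑ k ∈ K, (Nat.gcd k N : ℝ) * (k : ℝ) ^ (-(9 / 8) : ℝ) ≤
      N.divisors.card * ∑' h : ℕ, (h : ℝ) ^ (-(9 / 8) : ℝ) := by
  have hsum : Summable fun h : ℕ => (h : ℝ) ^ (-(9 / 8) : ℝ) :=
    Real.summable_nat_rpow.2 (by norm_num)
  have h1 : ∑ g ∈ N.divisors, ∑ k ∈ K.filter (fun k => Nat.gcd k N = g),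
      (Nat.gcd k N : ℝ) * (k : ℝ) ^ (-(9 / 8) : ℝ) =
      ∑ k ∈ K, (Nat.gcd k N : ℝ) * (k : ℝ) ^ (-(9 / 8) : ℝ) :=
    Finset.sum_fiberwise_of_maps_to (g := fun k => Nat.gcd k N) (fun k _ =>
      Nat.mem_divisors.2 ⟨Nat.gcd_dvd_right _ _, by omega⟩) _
  rw [← h1, ← nsmul_eq_mul]
  refine Finset.sum_le_card_nsmul _ _ _ fun g hg => ?_
  have hg0 : 0 < g := Nat.pos_of_mem_divisors hg
  have hgr : (1 : ℝ) ≤ g := by exact_mod_cast hg0
  have h2 : ∀ k ∈ K.filter (fun k => Nat.gcd k N = g), (Nat.gcd k N : ℝ) * (k : ℝ) ^ (-(9 / 8) : ℝ) ≤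
      ((k / g : ℕ) : ℝ) ^ (-(9 / 8) : ℝ) := by
    intro k hk
    rw [Finset.mem_filter] at hk
    obtain ⟨m, hm⟩ : g ∣ k := by
      rw [← hk.2]
      exact Nat.gcd_dvd_left _ _
    rw [hk.2, hm, Nat.mul_div_cancel_left m hg0]
    push_cast
    rw [Real.mul_rpow (by positivity) (by positivity), ← mul_assoc]
    refine mul_le_of_le_one_left (by positivity) ?_
    nth_rewrite 1 [← Real.rpow_one (g : ℝ)]
    rw [← Real.rpow_add (by positivity)]
    exact Real.rpow_le_one_of_one_le_of_nonpos hgr (by norm_num)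
  refine (Finset.sum_le_sum h2).trans ?_
  have h3 : ∑ k ∈ K.filter (fun k => Nat.gcd k N = g), ((k / g : ℕ) : ℝ) ^ (-(9 / 8) : ℝ) =
      ∑ h ∈ (K.filter (fun k => Nat.gcd k N = g)).image (fun k => k / g),
        (h : ℝ) ^ (-(9 / 8) : ℝ) := by
    rw [Finset.sum_image]
    intro a ha b hb hab
    rw [Finset.mem_coe, Finset.mem_filter] at ha hb
    have h4 : g ∣ a := by rw [← ha.2]; exact Nat.gcd_dvd_left _ _
    have h5 : g ∣ b := by rw [← hb.2]; exact Nat.gcd_dvd_left _ _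
    exact (Nat.div_left_inj h4 h5).1 hab
  rw [h3]
  exact hsum.sum_le_tsum _ (fun _ _ => by positivity)

/-- **The tail.**

Proof. By `ct_props` and `Gq_le`, with `q = r k`: the sum is at most
`C log z / φ(r) ∑_{k > P / r} (k, N) / (k φ(k)) ≤ C log z / φ(r) ∑_{g ∣ N} 1 / φ(g) ∑_{h > P / (r g)} 1 / (h φ(h))
≤ (log Y) ^ C τ (N) r / (φ(r) P)`, `P = ⌊Y ^ δ⌋`, and `τ (N) ≤ C Y ^ (δ / 8)` (`FD120.divisor_bound`, see `Wb58c63.eb_low`). -/
theorem C1_tail (δ : ℝ) (hδ : 0 < δ) (hδ1 : δ ≤ 1) : ∃ Y₀ : ℝ, 3 ≤ Y₀ ∧ ∀ (Y z : ℝ) (b N r D : ℕ), Y₀ ≤ Y → 2 ≤ z →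
    z ≤ Y → 1 ≤ N → (N : ℝ) ≤ Y ^ 2 → 1 ≤ r → (r : ℝ) ≤ Y ^ δ →
      ∑ q ∈ Ioc ⌊Y ^ δ⌋₊ D, |ct z b q * Gq r N q| ≤ Y ^ (-(δ / 2)) := by
  obtain ⟨C, hC, hct⟩ := ct_props
  obtain ⟨C1, hC1, hd1⟩ := FD120.divisor_bound (1 / 8) (by norm_num)
  obtain ⟨C2, hC2, hd2⟩ := FD120.divisor_bound (δ / 32) (by positivity)
  set Z : ℝ := ∑' h : ℕ, (h : ℝ) ^ (-(9 / 8) : ℝ) with hZ
  have hZ0 : 0 ≤ Z := tsum_nonneg fun _ => by positivity
  set B : ℝ := C * C1 * C2 * Z with hB
  have hB0 : 0 ≤ B := by positivity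
  have hlog : ∀ᶠ Y : ℝ in Filter.atTop, B * Real.log Y ≤ Y ^ (3 * δ / 16) := by
    have h1 := (isLittleO_log_rpow_atTop (r := 3 * δ / 16) (by positivity)).bound
      (c := 1 / (B + 1)) (by positivity)
    filter_upwards [h1, Filter.eventually_ge_atTop 1] with Y h2 h3
    have hl : 0 ≤ Real.log Y := Real.log_nonneg h3
    rw [Real.norm_of_nonneg hl, Real.norm_of_nonneg (by positivity)] at h2
    calc B * Real.log Y ≤ (B + 1) * Real.log Y := mul_le_mul_of_nonneg_right (by linarith) hl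
      _ ≤ (B + 1) * (1 / (B + 1) * Y ^ (3 * δ / 16)) := mul_le_mul_of_nonneg_left h2 (by positivity)
      _ = Y ^ (3 * δ / 16) := by field_simp
  obtain ⟨Y₁, hY₁⟩ := Filter.eventually_atTop.1 hlog
  refine ⟨max Y₁ 3, le_max_right _ _, ?_⟩
  intro Y z b N r D hY hz hzY hN hNY hr hrY
  have hY3 : 3 ≤ Y := (le_max_right _ _).trans hY
  have hYl := hY₁ Y ((le_max_left _ _).trans hY)
  have hY0 : 0 < Y := by linarith
  have hY1 : 1 ≤ Y := by linarith
  have hlz : 0 ≤ Real.log z := Real.log_nonneg (by linarith)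
  have hlzY : Real.log z ≤ Real.log Y := Real.log_le_log (by linarith) hzY
  have hlY : 0 ≤ Real.log Y := Real.log_nonneg hY1
  set Q := (Ioc ⌊Y ^ δ⌋₊ D).filter (fun q => Squarefree q ∧ r ∣ q) with hQ
  have h1 : ∑ q ∈ Ioc ⌊Y ^ δ⌋₊ D, |ct z b q * Gq r N q| = ∑ q ∈ Q, |ct z b q * Gq r N q| := by
    rw [hQ, Finset.sum_filter_of_ne]
    intro q hq hne
    rw [abs_ne_zero] at hne
    have hq1 : 1 ≤ q := by
      have := (Finset.mem_Ioc.1 hq).1
      omega
    have h2 := ((hct z b q hz hq1).2 (left_ne_zero_of_mul hne)).1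
    exact ⟨h2, (Gq_le r N q hN h2).1 (right_ne_zero_of_mul hne)⟩
  rw [h1]
  have h2 : ∀ q ∈ Q, |ct z b q * Gq r N q| ≤ C * C1 * Real.log Y * Y ^ (-(3 * δ / 4)) *
      ((Nat.gcd (q / r) N : ℝ) * ((q / r : ℕ) : ℝ) ^ (-(9 / 8) : ℝ)) := by
    intro q hq
    rw [hQ, Finset.mem_filter, Finset.mem_Ioc] at hq
    obtain ⟨⟨hqY, _⟩, hsq, k, rfl⟩ := hq
    have hq0 : r * k ≠ 0 := hsq.ne_zero
    have hk0 : 0 < k := Nat.pos_of_ne_zero fun h => hq0 (by rw [h, mul_zero])
    have hq1 : 1 ≤ r * k := Nat.one_le_iff_ne_zero.2 hq0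
    have hco : r.Coprime k := Nat.coprime_of_squarefree_mul hsq
    have hYq : Y ^ δ ≤ ((r * k : ℕ) : ℝ) := (Nat.lt_of_floor_lt hqY).le
    have e1 := (hct z b (r * k) hz hq1).1
    have e2 := (Gq_le r N (r * k) hN hsq).2
    rw [Nat.mul_div_cancel_left k (by omega)] at e2 ⊢
    have hr0 : (0 : ℝ) < r := by exact_mod_cast hr
    have hk0' : (0 : ℝ) < k := by exact_mod_cast hk0
    have hφr : (0 : ℝ) < r.totient := by exact_mod_cast Nat.totient_pos.2 hr
    have hφk : (0 : ℝ) < k.totient := by exact_mod_cast Nat.totient_pos.2 hk0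
    have e3 := RE_inv_totient (r * k) hsq
    have e4 := hd1 (r * k) hq1
    have hqr : (0 : ℝ) < ((r * k : ℕ) : ℝ) := by exact_mod_cast hq1
    have e5 : (1 : ℝ) / (r.totient * k.totient) ≤ C1 * (Y ^ (-(3 * δ / 4)) * (k : ℝ) ^ (-(1 / 8) : ℝ)) := by
      have h3 : (1 : ℝ) / (r.totient * k.totient) = 1 / ((r * k).totient : ℝ) := by
        rw [Nat.totient_mul hco]
        push_cast
        rfl
      rw [h3]
      calc (1 : ℝ) / ((r * k).totient : ℝ) ≤ (r * k).divisors.card / ((r * k : ℕ) : ℝ) := e3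
        _ ≤ C1 * ((r * k : ℕ) : ℝ) ^ (1 / 8 : ℝ) / ((r * k : ℕ) : ℝ) :=
            div_le_div_of_nonneg_right e4 hqr.le
        _ = C1 * (((r * k : ℕ) : ℝ) ^ (-(3 / 4) : ℝ) * ((r * k : ℕ) : ℝ) ^ (-(1 / 8) : ℝ)) := by
            rw [mul_div_assoc, ← Real.rpow_add hqr]
            congr 1
            nth_rewrite 2 [← Real.rpow_one ((r * k : ℕ) : ℝ)]
            rw [← Real.rpow_sub hqr]
            norm_num
        _ ≤ C1 * (Y ^ (-(3 * δ / 4)) * (k : ℝ) ^ (-(1 / 8) : ℝ)) := by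
            refine mul_le_mul_of_nonneg_left (mul_le_mul ?_ ?_ (by positivity) (by positivity)) hC1.le
            · calc ((r * k : ℕ) : ℝ) ^ (-(3 / 4) : ℝ) ≤ (Y ^ δ) ^ (-(3 / 4) : ℝ) :=
                    Real.rpow_le_rpow_of_nonpos (by positivity) hYq (by norm_num)
                _ = Y ^ (-(3 * δ / 4)) := by
                    rw [← Real.rpow_mul hY0.le]
                    congr 1
                    ring
            · refine Real.rpow_le_rpow_of_nonpos hk0' ?_ (by norm_num)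
              exact_mod_cast Nat.le_mul_of_pos_left k (by omega)
    rw [abs_mul]
    calc |ct z b (r * k)| * |Gq r N (r * k)| ≤ (C * Real.log z / ((r * k : ℕ) : ℝ)) *
          ((r / r.totient : ℝ) * ((Nat.gcd k N : ℝ) / k.totient)) :=
          mul_le_mul e1 e2 (abs_nonneg _) (by positivity)
      _ = C * Real.log z * ((Nat.gcd k N : ℝ) * (k : ℝ)⁻¹) * (1 / (r.totient * k.totient)) := by
          push_cast
          field_simp
      _ ≤ C * Real.log Y * ((Nat.gcd k N : ℝ) * (k : ℝ)⁻¹) *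
          (C1 * (Y ^ (-(3 * δ / 4)) * (k : ℝ) ^ (-(1 / 8) : ℝ))) := by
          refine mul_le_mul (mul_le_mul_of_nonneg_right (mul_le_mul_of_nonneg_left hlzY (by linarith))
            (by positivity)) e5 (by positivity) (by positivity)
      _ = C * C1 * Real.log Y * Y ^ (-(3 * δ / 4)) * ((Nat.gcd k N : ℝ) *
          ((k : ℝ)⁻¹ * (k : ℝ) ^ (-(1 / 8) : ℝ))) := by ring
      _ = C * C1 * Real.log Y * Y ^ (-(3 * δ / 4)) * ((Nat.gcd k N : ℝ) * (k : ℝ) ^ (-(9 / 8) : ℝ)) := by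
          rw [← Real.rpow_neg_one, ← Real.rpow_add hk0']
          norm_num
  refine (Finset.sum_le_sum h2).trans ?_
  rw [← Finset.mul_sum]
  have h3 : ∑ q ∈ Q, (Nat.gcd (q / r) N : ℝ) * ((q / r : ℕ) : ℝ) ^ (-(9 / 8) : ℝ) =
      ∑ k ∈ Q.image (fun q => q / r), (Nat.gcd k N : ℝ) * (k : ℝ) ^ (-(9 / 8) : ℝ) := by
    rw [Finset.sum_image]
    intro a ha b hb hab
    rw [Finset.mem_coe, hQ, Finset.mem_filter] at ha hb
    exact (Nat.div_left_inj ha.2.2 hb.2.2).1 hab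
  have h4 := RE_gcd_sum N hN (Q.image (fun q => q / r))
  rw [← h3] at h4
  have h5 : (N.divisors.card : ℝ) ≤ C2 * Y ^ (δ / 16) := by
    refine (hd2 N hN).trans (mul_le_mul_of_nonneg_left ?_ hC2.le)
    calc (N : ℝ) ^ (δ / 32) ≤ (Y ^ 2) ^ (δ / 32) := Real.rpow_le_rpow (Nat.cast_nonneg _) hNY (by positivity)
      _ = Y ^ (δ / 16) := by
          rw [← Real.rpow_natCast, ← Real.rpow_mul hY0.le]
          congr 1
          push_cast
          ring
  calc C * C1 * Real.log Y * Y ^ (-(3 * δ / 4)) *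
        ∑ q ∈ Q, (Nat.gcd (q / r) N : ℝ) * ((q / r : ℕ) : ℝ) ^ (-(9 / 8) : ℝ)
      ≤ C * C1 * Real.log Y * Y ^ (-(3 * δ / 4)) * (C2 * Y ^ (δ / 16) * Z) := by
        refine mul_le_mul_of_nonneg_left (h4.trans (mul_le_mul_of_nonneg_right h5 hZ0)) (by positivity)
    _ = B * Real.log Y * (Y ^ (-(3 * δ / 4)) * Y ^ (δ / 16)) := by
        rw [hB]
        ring
    _ ≤ Y ^ (3 * δ / 16) * (Y ^ (-(3 * δ / 4)) * Y ^ (δ / 16)) :=
        mul_le_mul_of_nonneg_right hYl (by positivity)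
    _ = Y ^ (-(δ / 2)) := by
        rw [← Real.rpow_add hY0, ← Real.rpow_add hY0]
        congr 1
        ring

theorem RE_gN_facts (N p : ℕ) (hN : Even N) (hp : p.Prime) :
    0 ≤ gN N p ∧ gN N p ≤ 3 / 2 / p ∧ gN N p ≤ 1 / 2 := by
  unfold gN
  by_cases h : p ∣ N
  · rw [if_pos h]
    exact ⟨le_rfl, by positivity, by norm_num⟩
  · rw [if_neg h]
    have h3 : 3 ≤ p := by
      have h2 := hp.two_le
      rcases h2.eq_or_lt with h4 | h4
      · rw [← h4] at h
        exact absurd hN.two_dvd h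
      · exact h4
    have h3' : (3 : ℝ) ≤ p := by exact_mod_cast h3
    refine ⟨by
      have : 0 < (p : ℝ) - 1 := by linarith
      positivity, ?_, ?_⟩
    · rw [div_le_div_iff₀ (by linarith) (by linarith)]
      linarith
    · rw [div_le_div_iff₀ (by linarith) (by norm_num)]
      linarith

theorem RE_prod (C₀ : ℝ) (hC₀ : 1 ≤ C₀) : ∃ C : ℝ, 1 ≤ C ∧ ∀ r N : ℕ, Squarefree r → Even N →
    ∏ p ∈ r.primeFactors, (C₀ * gN N p) ≤ C * (r : ℝ) ^ (-(1 / 2) : ℝ) := by
  set A : ℝ := 3 / 2 * C₀ with hA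
  have hA1 : 1 ≤ A := by linarith
  refine ⟨A ^ ⌈A ^ 2⌉₊, one_le_pow₀ hA1, ?_⟩
  intro r N hr hN
  have hpr : ∀ p ∈ r.primeFactors, p.Prime := fun p hp => Nat.prime_of_mem_primeFactors hp
  have h1 : ∀ p ∈ r.primeFactors, C₀ * gN N p ≤
      (p : ℝ) ^ (-(1 / 2) : ℝ) * (if p < ⌈A ^ 2⌉₊ then A else 1) := by
    intro p hp
    have hp0 : (0 : ℝ) < p := by exact_mod_cast (hpr p hp).pos
    have hp1 : (1 : ℝ) ≤ p := by exact_mod_cast (hpr p hp).one_lt.le
    have h2 : C₀ * gN N p ≤ A / p := by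
      have := mul_le_mul_of_nonneg_left (RE_gN_facts N p hN (hpr p hp)).2.1 (by linarith : 0 ≤ C₀)
      calc _ ≤ _ := this
        _ = A / p := by rw [hA]; ring
    refine h2.trans ?_
    have h3 : A / p = (p : ℝ) ^ (-(1 / 2) : ℝ) * (A * (p : ℝ) ^ (-(1 / 2) : ℝ)) := by
      have h4 : (p : ℝ) ^ (-(1 / 2) : ℝ) * (p : ℝ) ^ (-(1 / 2) : ℝ) = (p : ℝ)⁻¹ := by
        rw [← Real.rpow_add hp0, ← Real.rpow_neg_one]
        norm_num
      calc A / p = A * (p : ℝ)⁻¹ := by ring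
        _ = A * ((p : ℝ) ^ (-(1 / 2) : ℝ) * (p : ℝ) ^ (-(1 / 2) : ℝ)) := by rw [h4]
        _ = _ := by ring
    rw [h3]
    refine mul_le_mul_of_nonneg_left ?_ (by positivity)
    split_ifs with h5
    · exact mul_le_of_le_one_right (by linarith) (Real.rpow_le_one_of_one_le_of_nonpos hp1 (by norm_num))
    · have h6 : A ^ 2 ≤ p := by
        have := Nat.le_ceil (A ^ 2)
        have h7 : ((⌈A ^ 2⌉₊ : ℕ) : ℝ) ≤ p := by exact_mod_cast not_lt.1 h5
        linarith
      have h7 : A ≤ (p : ℝ) ^ (1 / 2 : ℝ) := by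
        rw [← Real.sqrt_eq_rpow]
        exact Real.le_sqrt_of_sq_le h6
      rw [Real.rpow_neg hp0.le, ← div_eq_mul_inv, div_le_one (by positivity)]
      exact h7
  calc ∏ p ∈ r.primeFactors, (C₀ * gN N p) ≤
        ∏ p ∈ r.primeFactors, ((p : ℝ) ^ (-(1 / 2) : ℝ) * (if p < ⌈A ^ 2⌉₊ then A else 1)) :=
        Finset.prod_le_prod (fun p hp => mul_nonneg (by linarith)
          (RE_gN_facts N p hN (hpr p hp)).1) h1
    _ = (r : ℝ) ^ (-(1 / 2) : ℝ) * ∏ p ∈ r.primeFactors, (if p < ⌈A ^ 2⌉₊ then A else 1) := by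
        rw [Finset.prod_mul_distrib, Real.finsetProd_rpow _ _ (fun p _ => Nat.cast_nonneg p),
          ← Nat.cast_prod, Nat.prod_primeFactors_of_squarefree hr]
    _ ≤ (r : ℝ) ^ (-(1 / 2) : ℝ) * A ^ ⌈A ^ 2⌉₊ := by
        refine mul_le_mul_of_nonneg_left ?_ (by positivity)
        rw [← Finset.prod_filter, Finset.prod_const]
        refine pow_le_pow_right₀ hA1 ?_
        calc (r.primeFactors.filter fun p => p < ⌈A ^ 2⌉₊).card ≤ (range ⌈A ^ 2⌉₊).card :=
              Finset.card_le_card fun p hp => Finset.mem_range.2 (Finset.mem_filter.1 hp).2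
          _ = ⌈A ^ 2⌉₊ := Finset.card_range _
    _ = _ := by ring

theorem RE_dvd {z : ℝ} {S : Finset ℕ} (hS : S ⊆ PI 0 z) (r : ℕ) :
    r ∣ ∏ p ∈ S, p ↔ Squarefree r ∧ r.primeFactors ⊆ S := by
  have hSp : ∀ p ∈ S, p.Prime := fun p hp => (mem_PI.1 (hS hp)).1
  have hmem : ∀ q, q.Prime → q ∣ ∏ p ∈ S, p → q ∈ S := by
    intro q hq h
    obtain ⟨p, hp, hqp⟩ := (hq.prime.dvd_finsetProd_iff _).1 h
    rwa [(Nat.prime_dvd_prime_iff_eq hq (hSp p hp)).1 hqp]
  have hsq : Squarefree (∏ p ∈ S, p) := by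
    refine Finset.squarefree_prod_of_pairwise_isCoprime ?_ (fun p hp => (hSp p hp).squarefree)
    intro a ha b hb hab
    have := (Nat.coprime_primes (hSp a ha) (hSp b hb)).2 hab
    exact Nat.coprime_iff_isRelPrime.1 this
  constructor
  · intro h
    refine ⟨hsq.squarefree_of_dvd h, fun q hq => ?_⟩
    exact hmem q (Nat.prime_of_mem_primeFactors hq) ((Nat.dvd_of_mem_primeFactors hq).trans h)
  · rintro ⟨h1, h2⟩
    rw [← Nat.prod_primeFactors_of_squarefree h1]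
    exact Finset.prod_dvd_prod_of_subset _ _ _ h2

/-- **The coefficients.** (`C1_full`, `C1_tail`; `FL` for the trivial character; `FLr` with the set of the primes of `r`, and
`∏_{p ∣ r} C / (p - 1) ≤ C' r ^ (- 1 / 2)` for squarefree `r`. For `N` even `gN N 2 = 0`.) -/
theorem C1_bounds : ∃ C : ℝ, 1 ≤ C ∧ ∀ δ : ℝ, 0 < δ → δ ≤ 1 → ∃ Y₀ : ℝ, 3 ≤ Y₀ ∧ ∀ (Y z : ℝ) (b N : ℕ) (i : CC),
    Y₀ ≤ Y → 2 ≤ z → z ≤ Y → 1 ≤ b → Even N → 1 ≤ N → (N : ℝ) ≤ Y ^ 2 → i ∈ CR ⌊Y ^ δ⌋₊ →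
      |C1 z b ⌊Y ^ δ⌋₊ N i| ≤ C * VP (gN N) (PI 0 z) * (i.1 : ℝ) ^ (-(1 / 2) : ℝ) + Y ^ (-(δ / 2)) ∧
      (i = i0 → C1 z b ⌊Y ^ δ⌋₊ N i ≤ VP (gN N) (PI 0 z) * (1 + C * Real.exp (-b)) + Y ^ (-(δ / 2))) := by
  obtain ⟨CF, hCF, hFL⟩ := FL
  obtain ⟨CR', hCR, hFLr⟩ := FLr
  obtain ⟨Cp, hCp, hprod⟩ := RE_prod CR' hCR
  refine ⟨max CF (CR' * Cp), le_max_of_le_left hCF, ?_⟩
  intro δ hδ hδ1
  obtain ⟨Y₀, hY₀, htail⟩ := C1_tail δ hδ hδ1
  refine ⟨Y₀, hY₀, ?_⟩
  intro Y z b N i hY hz hzY hb hNe hN hNY hi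
  have hY3 : 3 ≤ Y := hY₀.trans hY
  have hY0 : 0 < Y := by linarith
  obtain ⟨hi1, _⟩ := Finset.mem_sigma.1 hi
  rw [Finset.mem_Icc] at hi1
  have hrY : (i.1 : ℝ) ≤ Y ^ δ := (Nat.le_floor_iff (by positivity)).1 hi1.2
  have hg : ∀ p, p.Prime → 0 ≤ gN N p ∧ gN N p ≤ 3 / 4 ∧ gN N p ≤ 4 / p := by
    intro p hp
    obtain ⟨h1, h2, h3⟩ := RE_gN_facts N p hNe hp
    refine ⟨h1, by linarith, h2.trans ?_⟩
    have hp0 : (0 : ℝ) < p := by exact_mod_cast hp.pos
    exact div_le_div_of_nonneg_right (by norm_num) hp0.le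
  have hVP : 0 < VP (gN N) (PI 0 z) := by
    refine Pool.Agent.Wb58c63.VP_pos fun p hp => ?_
    obtain ⟨h1, h2, h3⟩ := RE_gN_facts N p hNe (mem_PI.1 hp).1
    exact ⟨h1, by linarith⟩
  set P := ⌊Y ^ δ⌋₊ with hP
  set D := max P ⌈z ^ (4 * b + 5)⌉₊ with hD
  have hzD : z ^ (4 * b + 5) ≤ D := by
    have h1 := Nat.le_ceil (z ^ (4 * b + 5))
    have h2 : ((⌈z ^ (4 * b + 5)⌉₊ : ℕ) : ℝ) ≤ D := by exact_mod_cast le_max_right _ _
    linarith
  have hfull := C1_full z hz b D N i.1 hN hi1.1 hzD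
  have ht := htail Y z b N i.1 D hY hz hzY hN hNY hi1.1 hrY
  have hsplit : C1 z b P N i = ∑ q ∈ Icc 1 D, ct z b q * Gq i.1 N q -
      ∑ q ∈ Ioc P D, ct z b q * Gq i.1 N q := by
    unfold C1
    have e1 : ∀ n, Icc 1 n = Ioc 0 n := fun n => rfl
    rw [e1, e1, ← Finset.sum_Ioc_consecutive _ (Nat.zero_le P) (le_max_left _ _ : P ≤ D)]
    ring
  have htl : |∑ q ∈ Ioc P D, ct z b q * Gq i.1 N q| ≤ Y ^ (-(δ / 2)) :=
    (Finset.abs_sum_le_sum_abs _ _).trans ht
  have hr0 : (0 : ℝ) < i.1 := by exact_mod_cast hi1.1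
  constructor
  · rw [hsplit, hfull]
    refine (abs_sub _ _).trans (add_le_add ?_ htl)
    by_cases h : Squarefree i.1 ∧ i.1.primeFactors ⊆ PI 0 z
    · have e1 : (PI 0 z).powerset.filter (fun S => i.1 ∣ ∏ p ∈ S, p) =
          (PI 0 z).powerset.filter (fun S => i.1.primeFactors ⊆ S) := by
        refine Finset.filter_congr fun S hS => ?_
        rw [RE_dvd (Finset.mem_powerset.1 hS)]
        exact ⟨fun h => h.2, fun h2 => ⟨h.1, h2⟩⟩
      rw [e1]
      refine (hFLr z b (gN N) i.1.primeFactors hz hb hg h.2).trans ?_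
      calc CR' * VP (gN N) (PI 0 z) * ∏ p ∈ i.1.primeFactors, (CR' * gN N p) ≤
            CR' * VP (gN N) (PI 0 z) * (Cp * (i.1 : ℝ) ^ (-(1 / 2) : ℝ)) :=
            mul_le_mul_of_nonneg_left (hprod i.1 N h.1 hNe) (by positivity)
        _ = (CR' * Cp) * VP (gN N) (PI 0 z) * (i.1 : ℝ) ^ (-(1 / 2) : ℝ) := by ring
        _ ≤ _ := by
            refine mul_le_mul_of_nonneg_right (mul_le_mul_of_nonneg_right (le_max_right _ _) hVP.le)
              (by positivity)
    · have e1 : (PI 0 z).powerset.filter (fun S => i.1 ∣ ∏ p ∈ S, p) = ∅ := by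
        rw [Finset.filter_eq_empty_iff]
        intro S hS hd
        have hSs := Finset.mem_powerset.1 hS
        obtain ⟨h1, h2⟩ := (RE_dvd hSs i.1).1 hd
        exact h ⟨h1, h2.trans hSs⟩
      rw [e1, Finset.sum_empty, abs_zero]
      positivity
  · rintro rfl
    rw [hsplit, hfull]
    have e1 : (PI 0 z).powerset.filter (fun S => (i0 : CC).1 ∣ ∏ p ∈ S, p) = (PI 0 z).powerset := by
      refine Finset.filter_true_of_mem fun S _ => ?_
      exact one_dvd _
    rw [e1]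
    have h1 := (hFL z b (gN N) hz hb hg).2.1
    have h2 := (abs_le.1 htl).1
    have h3 : VP (gN N) (PI 0 z) * (1 + CF * Real.exp (-b)) ≤
        VP (gN N) (PI 0 z) * (1 + max CF (CR' * Cp) * Real.exp (-b)) := by
      refine mul_le_mul_of_nonneg_left ?_ hVP.le
      have := mul_le_mul_of_nonneg_right (le_max_left CF (CR' * Cp)) (Real.exp_pos (-(b : ℝ))).le
      linarith
    linarith

end Pool.Agent.M58
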