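import Pool.Agent.W_b58c63_m1.RA
import Pool.Agent.W_b58c63_m1.HFam
import Pool.Agent.W_b58c63_h68.GdA

/-!
# The character expansion of the Ramanujan kernel in two variables (helper68)
-/

set_option autoImplicit false

noncomputable section

open Finset

namespace Pool.Agent.M58

/-- The density of the solutions of `x + y ≡ N (mod d)` in units, twisted. -/
def rhoN (N d : ℕ) (i j : CC) : ℂ := (1 / (d.totient : ℂ) ^ 2) *
  ∑ x ∈ (range d).filter (fun x : ℕ => x.Coprime d ∧ ((N : ℤ) - x).natAbs.Coprime d),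
    (starRingEnd ℂ) (i.2 (x : ZMod i.1)) * (starRingEnd ℂ) (j.2 (((N : ℤ) - x : ℤ) : ZMod j.1))

/-- The coefficient of the pair `(i, j)`. -/
def Kc (P N : ℕ) (i j : CC) : ℂ :=
  ∑ q ∈ Icc 1 P, ∑ d ∈ q.divisors.filter (fun d => i.1 ∣ d ∧ j.1 ∣ d),
    (ArithmeticFunction.moebius (q / d) : ℂ) * d * rhoN N d i j

theorem RF_orth {d : ℕ} [NeZero d] {a : ZMod d} (ha : IsUnit a) (b : ZMod d) :
    ∑ χ : DirichletCharacter ℂ d, (starRingEnd ℂ) (χ a) * χ b =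
      if a = b then (d.totient : ℂ) else 0 := by
  rw [← DirichletCharacter.sum_char_inv_mul_char_eq ℂ ha b]
  refine Finset.sum_congr rfl fun χ _ => ?_
  congr 1
  have h2 : χ a⁻¹ * χ a = 1 := by
    rw [← map_mul, ZMod.inv_mul_of_unit _ ha, map_one]
  have h3 : ‖χ a‖ = 1 := by
    have := χ.unit_norm_eq_one ha.unit
    simpa using this
  have h4 : (starRingEnd ℂ) (χ a) * χ a = 1 := by
    rw [mul_comm, Complex.mul_conj, Complex.normSq_eq_norm_sq, h3]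
    simp
  have h5 : χ a ≠ 0 := by
    intro h
    rw [h, norm_zero] at h3
    exact zero_ne_one h3
  exact mul_right_cancel₀ h5 (h4.trans h2.symm)

theorem RF_prim (d : ℕ) (hd : 1 ≤ d) (a b : ℤ) (ha : IsCoprime a (d : ℤ))
    (hb : IsCoprime b (d : ℤ)) :
    ∑ i ∈ d.divisors.sigma (fun r => prim r),
      (starRingEnd ℂ) (i.2 (a : ZMod i.1)) * i.2 (b : ZMod i.1) =
      if (a : ZMod d) = (b : ZMod d) then (d.totient : ℂ) else 0 := by
  have : NeZero d := ⟨by omega⟩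
  have hu : IsUnit (a : ZMod d) := (ZMod.coe_int_isUnit_iff_isCoprime a d).2 ha.symm
  rw [Finset.sum_sigma, ← RF_orth hu, Pool.Agent.Wb58c63.sum_chars d hd,
    ← Finset.sum_attach (s := d.divisors)]
  refine Finset.sum_congr rfl fun r _ => Finset.sum_congr rfl fun χ _ => ?_
  rw [DirichletCharacter.changeLevel_eq_cast_of_dvd' χ (Nat.dvd_of_mem_divisors r.2) ha,
    DirichletCharacter.changeLevel_eq_cast_of_dvd' χ (Nat.dvd_of_mem_divisors r.2) hb]

theorem RF_fac {ι κ : Type*} (I : Finset ι) (X : Finset κ) (A B : ι → κ → ℂ) (c : ℂ) :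
    ∑ i ∈ I, ∑ j ∈ I, c * ∑ x ∈ X, A i x * B j x =
      c * ∑ x ∈ X, (∑ i ∈ I, A i x) * ∑ j ∈ I, B j x := by
  simp only [← Finset.mul_sum]
  congr 1
  calc ∑ i ∈ I, ∑ j ∈ I, ∑ x ∈ X, A i x * B j x
      = ∑ i ∈ I, ∑ x ∈ X, ∑ j ∈ I, A i x * B j x :=
        Finset.sum_congr rfl fun i _ => Finset.sum_comm
    _ = ∑ x ∈ X, ∑ i ∈ I, ∑ j ∈ I, A i x * B j x := Finset.sum_comm
    _ = ∑ x ∈ X, (∑ i ∈ I, A i x) * ∑ j ∈ I, B j x :=
        Finset.sum_congr rfl fun x _ => (Finset.sum_mul_sum _ _ _ _).symm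

theorem RF_comm {ι κ η μ : Type*} (I : Finset ι) (J : Finset κ) (Q : Finset η) (D : η → Finset μ)
    (F : ι → κ → η → μ → ℂ) :
    ∑ i ∈ I, ∑ j ∈ J, ∑ q ∈ Q, ∑ d ∈ D q, F i j q d =
      ∑ q ∈ Q, ∑ d ∈ D q, ∑ i ∈ I, ∑ j ∈ J, F i j q d := by
  calc ∑ i ∈ I, ∑ j ∈ J, ∑ q ∈ Q, ∑ d ∈ D q, F i j q d
      = ∑ i ∈ I, ∑ q ∈ Q, ∑ j ∈ J, ∑ d ∈ D q, F i j q d :=
        Finset.sum_congr rfl fun i _ => Finset.sum_comm
    _ = ∑ q ∈ Q, ∑ i ∈ I, ∑ j ∈ J, ∑ d ∈ D q, F i j q d := Finset.sum_comm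
    _ = ∑ q ∈ Q, ∑ i ∈ I, ∑ d ∈ D q, ∑ j ∈ J, F i j q d :=
        Finset.sum_congr rfl fun q _ => Finset.sum_congr rfl fun i _ => Finset.sum_comm
    _ = ∑ q ∈ Q, ∑ d ∈ D q, ∑ i ∈ I, ∑ j ∈ J, F i j q d :=
        Finset.sum_congr rfl fun q _ => Finset.sum_comm

theorem RF_one (N d m n : ℕ) (hd : 1 ≤ d) (hm : m.Coprime d) (hn : n.Coprime d) :
    ∑ i ∈ d.divisors.sigma (fun r => prim r), ∑ j ∈ d.divisors.sigma (fun r => prim r),
      rhoN N d i j * i.2 (m : ZMod i.1) * j.2 (n : ZMod j.1) =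
      if (d : ℤ) ∣ (N : ℤ) - m - n then (1 : ℂ) else 0 := by
  have : NeZero d := ⟨by omega⟩
  have hφ : (d.totient : ℂ) ≠ 0 := by
    exact_mod_cast (Nat.totient_pos.2 (by omega : 0 < d)).ne'
  obtain ⟨I, hI⟩ : ∃ I : Finset CC, I = d.divisors.sigma (fun r => prim r) := ⟨_, rfl⟩
  obtain ⟨X, hX⟩ : ∃ X : Finset ℕ, X = (range d).filter
    (fun x : ℕ => x.Coprime d ∧ ((N : ℤ) - x).natAbs.Coprime d) := ⟨_, rfl⟩
  have h1 : ∀ i j : CC, rhoN N d i j * i.2 (m : ZMod i.1) * j.2 (n : ZMod j.1) =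
      (1 / (d.totient : ℂ) ^ 2) * ∑ x ∈ X,
        ((starRingEnd ℂ) (i.2 ((x : ℤ) : ZMod i.1)) * i.2 ((m : ℤ) : ZMod i.1)) *
        ((starRingEnd ℂ) (j.2 (((N : ℤ) - x : ℤ) : ZMod j.1)) * j.2 ((n : ℤ) : ZMod j.1)) := by
    intro i j
    unfold rhoN
    rw [← hX, mul_assoc, mul_assoc, Finset.sum_mul]
    congr 1
    refine Finset.sum_congr rfl fun x _ => ?_
    rw [Int.cast_natCast, Int.cast_natCast, Int.cast_natCast]
    ring
  simp only [h1]
  rw [← hI, RF_fac]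
  have hcop : ∀ k : ℕ, k.Coprime d → IsCoprime (k : ℤ) (d : ℤ) := fun k hk =>
    Nat.isCoprime_iff_coprime.2 hk
  have h2 : ∀ x ∈ X, (∑ i ∈ I, (starRingEnd ℂ) (i.2 ((x : ℤ) : ZMod i.1)) *
      i.2 ((m : ℤ) : ZMod i.1)) * (∑ j ∈ I, (starRingEnd ℂ)
      (j.2 (((N : ℤ) - x : ℤ) : ZMod j.1)) * j.2 ((n : ℤ) : ZMod j.1)) =
      (if (((x : ℤ)) : ZMod d) = ((m : ℤ) : ZMod d) then (d.totient : ℂ) else 0) *
      (if (((N : ℤ) - x : ℤ) : ZMod d) = ((n : ℤ) : ZMod d) then (d.totient : ℂ) else 0) := by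
    intro x hx
    rw [hX, Finset.mem_filter] at hx
    have e1 : IsCoprime ((N : ℤ) - x) (d : ℤ) := by
      rw [Int.isCoprime_iff_gcd_eq_one]
      have := hx.2.2
      rw [Int.gcd_eq_natAbs, Int.natAbs_natCast]
      exact this
    rw [hI, RF_prim d hd _ _ (hcop x hx.2.1) (hcop m hm), RF_prim d hd _ _ e1 (hcop n hn)]
  rw [Finset.sum_congr rfl h2]
  have hz : ∀ x : ℕ, (((x : ℤ)) : ZMod d) = ((m : ℤ) : ZMod d) ↔ x % d = m % d := by
    intro x
    rw [Int.cast_natCast, Int.cast_natCast, ZMod.natCast_eq_natCast_iff']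
  have hz2 : ∀ x : ℕ, (((x : ℤ)) : ZMod d) = ((m : ℤ) : ZMod d) →
      ((((N : ℤ) - x : ℤ) : ZMod d) = ((n : ℤ) : ZMod d) ↔ (d : ℤ) ∣ (N : ℤ) - m - n) := by
    intro x hx
    rw [Int.cast_sub, hx, ← Int.cast_sub, ← sub_eq_zero, ← Int.cast_sub,
      ZMod.intCast_zmod_eq_zero_iff_dvd]
  by_cases hdv : (d : ℤ) ∣ (N : ℤ) - m - n
  · rw [if_pos hdv]
    have hmx : m % d % d = m % d := Nat.mod_mod _ _
    have hmd : m % d < d := Nat.mod_lt _ (by omega)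
    have e0 := (hz (m % d)).2 hmx
    have e1 := (hz2 (m % d) e0).2 hdv
    have hmem : m % d ∈ X := by
      rw [hX, Finset.mem_filter, Finset.mem_range]
      refine ⟨hmd, ?_, ?_⟩
      · have : Nat.gcd (m % d) d = 1 := by
          rw [← Nat.gcd_rec, Nat.gcd_comm]
          exact hm
        exact this
      · have h3 : IsUnit (((N : ℤ) - (m % d : ℕ) : ℤ) : ZMod d) := by
          rw [e1]
          exact (ZMod.coe_int_isUnit_iff_isCoprime (n : ℤ) d).2 (hcop n hn).symm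
        have h4 := (ZMod.coe_int_isUnit_iff_isCoprime _ d).1 h3
        rw [Int.isCoprime_iff_gcd_eq_one, Int.gcd_comm, Int.gcd_eq_natAbs, Int.natAbs_natCast] at h4
        exact h4
    rw [Finset.sum_eq_single (m % d)]
    · rw [if_pos e0, if_pos e1]
      field_simp
    · intro x hx hne
      rw [if_neg, zero_mul]
      intro h3
      apply hne
      rw [hX, Finset.mem_filter, Finset.mem_range] at hx
      have h4 := (hz x).1 h3
      rwa [Nat.mod_eq_of_lt hx.1] at h4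
    · intro h3
      exact absurd hmem h3
  · rw [if_neg hdv, Finset.sum_eq_zero, mul_zero]
    intro x _
    by_cases h3 : (((x : ℤ)) : ZMod d) = ((m : ℤ) : ZMod d)
    · rw [if_neg (fun h4 => hdv ((hz2 x h3).1 h4)), mul_zero]
    · rw [if_neg h3, zero_mul]

theorem RF_filter (P d : ℕ) (hd1 : 1 ≤ d) (hdP : d ≤ P) :
    (CR P).filter (fun i : CC => i.1 ∣ d) = d.divisors.sigma (fun r => prim r) := by
  ext ⟨r, χ⟩
  unfold CR
  simp only [Finset.mem_filter, Finset.mem_sigma, Finset.mem_Icc, Nat.mem_divisors]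
  constructor
  · rintro ⟨⟨_, h1⟩, h2⟩
    exact ⟨⟨h2, by omega⟩, h1⟩
  · rintro ⟨⟨h1, _⟩, h2⟩
    have h3 := Nat.le_of_dvd (by omega) h1
    have h4 := Nat.pos_of_dvd_of_pos h1 (by omega)
    exact ⟨⟨⟨by omega, by omega⟩, h2⟩, h1⟩

/-- **The expansion.**

Proof. `cq q (N - m - n) = ∑_{d ∣ q} μ (q / d) d [m + n ≡ N mod d]`, and for `m`, `n` prime to `d` by orthogonality in both variables
`[m + n ≡ N mod d] = ∑_{χ₁, χ₂ mod d} (φ(d) ^ (- 2) ∑_{x, y units, x + y ≡ N} conj χ₁(x) conj χ₂(y)) χ₁(m) χ₂(n)`; sort by primitive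
characters (`Wb58c63.sum_chars` twice). -/
theorem exp2 (P N m n : ℕ) (hm : ∀ d ∈ Icc 1 P, m.Coprime d) (hn : ∀ d ∈ Icc 1 P, n.Coprime d) :
    ((∑ q ∈ Icc 1 P, cq q ((N : ℤ) - m - n) : ℝ) : ℂ) =
      ∑ i ∈ CR P, ∑ j ∈ CR P, Kc P N i j * i.2 (m : ZMod i.1) * j.2 (n : ZMod j.1) := by
  have key : ∀ q ∈ Icc 1 P, ∀ d ∈ q.divisors, ∑ i ∈ CR P, ∑ j ∈ CR P,
      (if i.1 ∣ d ∧ j.1 ∣ d then (ArithmeticFunction.moebius (q / d) : ℂ) * d * rhoN N d i j *
        i.2 (m : ZMod i.1) * j.2 (n : ZMod j.1) else 0) =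
      if (d : ℤ) ∣ (N : ℤ) - m - n then (ArithmeticFunction.moebius (q / d) : ℂ) * d else 0 := by
    intro q hq d hdq
    rw [Finset.mem_Icc] at hq
    rw [Nat.mem_divisors] at hdq
    have hd1 : 1 ≤ d := Nat.pos_of_dvd_of_pos hdq.1 (by omega)
    have hdP : d ≤ P := (Nat.le_of_dvd (by omega) hdq.1).trans hq.2
    have hmem : d ∈ Icc 1 P := Finset.mem_Icc.2 ⟨hd1, hdP⟩
    have h1 := RF_one N d m n hd1 (hm d hmem) (hn d hmem)
    rw [← RF_filter P d hd1 hdP, Finset.sum_filter] at h1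
    have h2 : ∑ i ∈ CR P, ∑ j ∈ CR P,
        (if i.1 ∣ d ∧ j.1 ∣ d then (ArithmeticFunction.moebius (q / d) : ℂ) * d * rhoN N d i j *
          i.2 (m : ZMod i.1) * j.2 (n : ZMod j.1) else 0) =
        (ArithmeticFunction.moebius (q / d) : ℂ) * d * ∑ i ∈ CR P, (if i.1 ∣ d then
          ∑ j ∈ (CR P).filter (fun i : CC => i.1 ∣ d),
            rhoN N d i j * i.2 (m : ZMod i.1) * j.2 (n : ZMod j.1) else 0) := by
      rw [Finset.mul_sum]
      refine Finset.sum_congr rfl fun i _ => ?_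
      by_cases h3 : i.1 ∣ d
      · rw [if_pos h3, Finset.sum_filter, Finset.mul_sum]
        refine Finset.sum_congr rfl fun j _ => ?_
        by_cases h4 : j.1 ∣ d
        · rw [if_pos ⟨h3, h4⟩, if_pos h4]
          ring
        · rw [if_neg (fun h => h4 h.2), if_neg h4, mul_zero]
      · rw [if_neg h3, mul_zero, Finset.sum_eq_zero]
        intro j _
        rw [if_neg (fun h => h3 h.1)]
    rw [h2, h1]
    split_ifs
    · rw [mul_one]
    · rw [mul_zero]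
  calc ((∑ q ∈ Icc 1 P, cq q ((N : ℤ) - m - n) : ℝ) : ℂ)
      = ∑ q ∈ Icc 1 P, ∑ d ∈ q.divisors, (if (d : ℤ) ∣ (N : ℤ) - m - n then
          (ArithmeticFunction.moebius (q / d) : ℂ) * d else 0) := by
        rw [Complex.ofReal_sum]
        refine Finset.sum_congr rfl fun q _ => ?_
        unfold cq
        rw [Finset.sum_filter, Complex.ofReal_sum]
        refine Finset.sum_congr rfl fun d _ => ?_
        split_ifs
        · push_cast
          rfl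
        · rw [Complex.ofReal_zero]
    _ = ∑ q ∈ Icc 1 P, ∑ d ∈ q.divisors, ∑ i ∈ CR P, ∑ j ∈ CR P,
          (if i.1 ∣ d ∧ j.1 ∣ d then (ArithmeticFunction.moebius (q / d) : ℂ) * d * rhoN N d i j *
            i.2 (m : ZMod i.1) * j.2 (n : ZMod j.1) else 0) :=
        Finset.sum_congr rfl fun q hq => Finset.sum_congr rfl fun d hd => (key q hq d hd).symm
    _ = ∑ i ∈ CR P, ∑ j ∈ CR P, ∑ q ∈ Icc 1 P, ∑ d ∈ q.divisors,
          (if i.1 ∣ d ∧ j.1 ∣ d then (ArithmeticFunction.moebius (q / d) : ℂ) * d * rhoN N d i j *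
            i.2 (m : ZMod i.1) * j.2 (n : ZMod j.1) else 0) :=
        (RF_comm (CR P) (CR P) (Icc 1 P) (fun q => q.divisors) _).symm
    _ = ∑ i ∈ CR P, ∑ j ∈ CR P, Kc P N i j * i.2 (m : ZMod i.1) * j.2 (n : ZMod j.1) := by
        refine Finset.sum_congr rfl fun i _ => Finset.sum_congr rfl fun j _ => ?_
        unfold Kc
        rw [Finset.sum_mul, Finset.sum_mul]
        refine Finset.sum_congr rfl fun q _ => ?_
        rw [Finset.sum_filter, Finset.sum_mul, Finset.sum_mul]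
        refine Finset.sum_congr rfl fun d _ => ?_
        split_ifs
        · rfl
        · rw [zero_mul, zero_mul]

end Pool.Agent.M58
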