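import Pool.Agent.W_b58c63_m1.RF

/-!
# The coefficients of the Ramanujan kernel: formula (helper68)
-/

set_option autoImplicit false

noncomputable section

open Finset

namespace Pool.Agent.M58

/-- The local factor of the singular series. -/
def sg (N p : ℕ) : ℝ := if p ∣ N then p / ((p : ℝ) - 1) else 1 - 1 / ((p : ℝ) - 1) ^ 2

/-- The twisted summand. -/
def RG_F (N : ℕ) (i j : CC) (x : ℕ) : ℂ :=
  (starRingEnd ℂ) (i.2 (x : ZMod i.1)) * (starRingEnd ℂ) (j.2 (((N : ℤ) - x : ℤ) : ZMod j.1))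

/-- The coprimality conditions. -/
def RG_P (N d x : ℕ) : Prop := x.Coprime d ∧ ((N : ℤ) - x).natAbs.Coprime d

theorem RG_P_per (N d x : ℕ) : RG_P N d (x + d) ↔ RG_P N d x := by
  unfold RG_P
  have h1 : (x + d).Coprime d ↔ x.Coprime d := by
    rw [Nat.coprime_add_self_left]
  have h2 : ∀ a : ℤ, a.natAbs.Coprime d ↔ IsUnit ((a : ℤ) : ZMod d) := by
    intro a
    rw [ZMod.coe_int_isUnit_iff_isCoprime, Int.isCoprime_iff_gcd_eq_one, Int.gcd_comm]
    rfl
  rw [h1, h2, h2]
  have h3 : ((((N : ℤ) - ((x + d : ℕ) : ℤ)) : ℤ) : ZMod d) = (((N : ℤ) - x : ℤ) : ZMod d) := by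
    push_cast
    simp
  rw [h3]

open Classical in
/-- The summand with the conditions. -/
def RG_g (N d : ℕ) (i j : CC) (x : ℕ) : ℂ := if RG_P N d x then RG_F N i j x else 0

theorem RG_F_per (N D : ℕ) (i j : CC) (hi : i.1 ∣ D) (hj : j.1 ∣ D) (x : ℕ) : RG_F N i j (x + D) = RG_F N i j x := by
  unfold RG_F
  have h1 : ((x + D : ℕ) : ZMod i.1) = (x : ZMod i.1) := by
    have : ((D : ℕ) : ZMod i.1) = 0 := (ZMod.natCast_eq_zero_iff D i.1).mpr hi
    push_cast
    rw [this, add_zero]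
  have h2 : ((((N : ℤ) - ((x + D : ℕ) : ℤ)) : ℤ) : ZMod j.1) = (((N : ℤ) - x : ℤ) : ZMod j.1) := by
    have : ((D : ℕ) : ZMod j.1) = 0 := (ZMod.natCast_eq_zero_iff D j.1).mpr hj
    push_cast
    rw [this, add_zero]
  rw [h1, h2]

theorem RG_g_per (N D : ℕ) (i j : CC) (hi : i.1 ∣ D) (hj : j.1 ∣ D) (x : ℕ) :
    RG_g N D i j (x + D) = RG_g N D i j x := by
  classical
  unfold RG_g
  rw [RG_F_per N D i j hi hj x]
  by_cases h : RG_P N D x
  · rw [if_pos h, if_pos ((RG_P_per N D x).mpr h)]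
  · rw [if_neg h, if_neg (fun h2 => h ((RG_P_per N D x).mp h2))]

theorem RG_rhoN (N d : ℕ) (i j : CC) : rhoN N d i j = (1 / (d.totient : ℂ) ^ 2) * ∑ x ∈ range d, RG_g N d i j x := by
  classical
  unfold rhoN RG_g
  rw [Finset.sum_filter]
  congr 1
  refine Finset.sum_congr rfl fun x _ => ?_
  by_cases h : RG_P N d x
  · rw [if_pos (show x.Coprime d ∧ ((N : ℤ) - x).natAbs.Coprime d from h), if_pos h]
    rfl
  · rw [if_neg (show ¬ (x.Coprime d ∧ ((N : ℤ) - x).natAbs.Coprime d) from h), if_neg h]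

theorem RG_sum_per (f : ℕ → ℂ) (D k : ℕ) (h : ∀ x, f (x + D) = f x) :
    ∑ x ∈ range (D * k), f x = k * ∑ x ∈ range D, f x := by
  have h2 : ∀ k x, f (D * k + x) = f x := by
    intro k
    induction k with
    | zero => intro x; simp
    | succ k ih =>
      intro x
      have : D * (k + 1) + x = (D * k + x) + D := by ring
      rw [this, h, ih]
  induction k with
  | zero => simp
  | succ k ih =>
    rw [Nat.mul_succ, Finset.sum_range_add, ih]
    simp_rw [h2]
    push_cast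
    ring

theorem RG_mod (f : ℕ → ℂ) (D : ℕ) (h : ∀ x, f (x + D) = f x) (x : ℕ) : f (x % D) = f x := by
  have h2 : ∀ k x, f (x + D * k) = f x := by
    intro k
    induction k with
    | zero => intro x; simp
    | succ k ih =>
      intro x
      have : x + D * (k + 1) = (x + D * k) + D := by ring
      rw [this, h, ih]
  conv_rhs => rw [← Nat.mod_add_div x D]
  rw [h2]

theorem RG_crt (f g : ℕ → ℂ) (D p : ℕ) (hD : 1 ≤ D) (hp : 1 ≤ p) (hc : D.Coprime p) (hf : ∀ x, f (x + D) = f x)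
    (hg : ∀ x, g (x + p) = g x) :
    ∑ x ∈ range (D * p), f x * g x = (∑ x ∈ range D, f x) * ∑ x ∈ range p, g x := by
  rw [Finset.sum_mul_sum, ← Finset.sum_product']
  refine Finset.sum_nbij' (fun x => (x % D, x % p)) (fun z => (Nat.chineseRemainder hc z.1 z.2 : ℕ)) ?_ ?_ ?_ ?_ ?_
  · intro x _
    rw [Finset.mem_product, Finset.mem_range, Finset.mem_range]
    exact ⟨Nat.mod_lt _ (by omega), Nat.mod_lt _ (by omega)⟩
  · intro z _
    rw [Finset.mem_range]
    exact Nat.chineseRemainder_lt_mul hc z.1 z.2 (by omega) (by omega)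
  · intro x hx
    have h1 : x ≡ Nat.chineseRemainder hc (x % D) (x % p) [MOD D * p] :=
      Nat.chineseRemainder_modEq_unique hc (Nat.mod_modEq x D).symm (Nat.mod_modEq x p).symm
    exact (Nat.ModEq.eq_of_lt_of_lt h1 (Finset.mem_range.mp hx)
      (Nat.chineseRemainder_lt_mul hc _ _ (by omega) (by omega))).symm
  · intro z hz
    rw [Finset.mem_product, Finset.mem_range, Finset.mem_range] at hz
    have h1 := (Nat.chineseRemainder hc z.1 z.2).2
    refine Prod.ext ?_ ?_
    · change (Nat.chineseRemainder hc z.1 z.2 : ℕ) % D = z.1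
      rw [h1.1]
      exact Nat.mod_eq_of_lt hz.1
    · change (Nat.chineseRemainder hc z.1 z.2 : ℕ) % p = z.2
      rw [h1.2]
      exact Nat.mod_eq_of_lt hz.2
  · intro x _
    rw [RG_mod f D hf, RG_mod g p hg]

open Classical in
theorem RG_count (N p : ℕ) (hp : p.Prime) :
    ∑ x ∈ range p, (if RG_P N p x then (1 : ℂ) else 0) = if p ∣ N then (p : ℂ) - 1 else (p : ℂ) - 2 := by
  have hp2 := hp.two_le
  have h1 : (range p).filter (fun x => RG_P N p x) = range p \ {0, N % p} := by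
    ext x
    rw [Finset.mem_filter, Finset.mem_sdiff, Finset.mem_insert, Finset.mem_singleton, not_or, Finset.mem_range]
    refine and_congr_right fun hx => ?_
    unfold RG_P
    have e1 : x.Coprime p ↔ x ≠ 0 := by
      rw [Nat.coprime_comm, hp.coprime_iff_not_dvd]
      constructor
      · rintro h rfl
        exact h (dvd_zero p)
      · intro h hd
        exact absurd (Nat.le_of_dvd (by omega) hd) (by omega)
    have e2 : ((N : ℤ) - x).natAbs.Coprime p ↔ x ≠ N % p := by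
      rw [Nat.coprime_comm, hp.coprime_iff_not_dvd, ← Int.natCast_dvd]
      refine not_congr ?_
      rw [← Int.modEq_iff_dvd, Int.natCast_modEq_iff]
      unfold Nat.ModEq
      rw [Nat.mod_eq_of_lt hx]
    rw [e1, e2]
  rw [← Finset.sum_filter, h1, Finset.sum_const, nsmul_eq_mul, mul_one]
  have hsub : ({0, N % p} : Finset ℕ) ⊆ range p := by
    intro x hx
    rw [Finset.mem_insert, Finset.mem_singleton] at hx
    rw [Finset.mem_range]
    rcases hx with rfl | rfl
    · omega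
    · exact Nat.mod_lt _ (by omega)
  rw [Finset.card_sdiff_of_subset hsub, Finset.card_range]
  split_ifs with h
  · rw [Nat.mod_eq_zero_of_dvd h, Finset.pair_eq_singleton, Finset.card_singleton, Nat.cast_sub (by omega)]
    simp
  · have h2 : (0 : ℕ) ≠ N % p := fun h0 => h (Nat.dvd_of_mod_eq_zero h0.symm)
    rw [Finset.card_pair h2, Nat.cast_sub hp2]
    simp

theorem RG_P_mul (N D p x : ℕ) : RG_P N (D * p) x ↔ RG_P N D x ∧ RG_P N p x := by
  unfold RG_P
  rw [Nat.coprime_mul_iff_right, Nat.coprime_mul_iff_right]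
  tauto

/-- Two steps: multiplication of the modulus by a prime. `D` is divisible by both conductors.

Proof. The summand depends only on `x mod D` apart from the coprimality conditions. (a) `p ∣ D`: the conditions modulo `D p` and modulo
`D` are the same, the range is `p` times as long, `φ(D p) = p φ(D)`. (b) `p ∤ D`: by the Chinese remainder theorem the sum is the sum
modulo `D` times the number of `x mod p` with `p ∤ x`, `p ∤ N - x`, which is `p - 1` or `p - 2`. -/
theorem rhoN_step (N D p : ℕ) (i j : CC) (hD : 1 ≤ D) (hp : p.Prime) (hi : i.1 ∣ D) (hj : j.1 ∣ D) :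
    (p ∣ D → ((D * p : ℕ) : ℂ) * rhoN N (D * p) i j = (D : ℂ) * rhoN N D i j) ∧
    (¬ p ∣ D → ((D * p : ℕ) : ℂ) * rhoN N (D * p) i j = (D : ℂ) * rhoN N D i j * (sg N p : ℂ)) := by
  classical
  have hD0 : (D : ℂ) ≠ 0 := by exact_mod_cast (by omega : D ≠ 0)
  have hp0 : (p : ℂ) ≠ 0 := by exact_mod_cast hp.ne_zero
  have hφ : (D.totient : ℂ) ≠ 0 := by
    exact_mod_cast (Nat.totient_pos.mpr (by omega)).ne'
  have hp1 : (p : ℂ) - 1 ≠ 0 := by
    rw [sub_ne_zero]
    exact_mod_cast hp.one_lt.ne'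
  rw [RG_rhoN, RG_rhoN]
  refine ⟨fun hpD => ?_, fun hpD => ?_⟩
  · have h1 : ∀ x, RG_g N (D * p) i j x = RG_g N D i j x := by
      intro x
      unfold RG_g
      have h2 : RG_P N (D * p) x ↔ RG_P N D x := by
        rw [RG_P_mul]
        refine ⟨fun h => h.1, fun h => ⟨h, ?_, ?_⟩⟩
        · exact Nat.Coprime.coprime_dvd_right hpD h.1
        · exact Nat.Coprime.coprime_dvd_right hpD h.2
      by_cases h : RG_P N D x
      · rw [if_pos h, if_pos (h2.mpr h)]
      · rw [if_neg h, if_neg (fun h3 => h (h2.mp h3))]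
    simp_rw [h1]
    rw [RG_sum_per _ D p (RG_g_per N D i j hi hj), mul_comm D p, Nat.totient_mul_of_prime_of_dvd hp hpD]
    push_cast
    field_simp
  · have hc : D.Coprime p := (Nat.coprime_comm.mp ((hp.coprime_iff_not_dvd).mpr hpD))
    have h1 : ∀ x, RG_g N (D * p) i j x = RG_g N D i j x * (if RG_P N p x then 1 else 0) := by
      intro x
      unfold RG_g
      have h2 := RG_P_mul N D p x
      by_cases h : RG_P N D x
      · by_cases h3 : RG_P N p x
        · rw [if_pos h, if_pos h3, if_pos (h2.mpr ⟨h, h3⟩), mul_one]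
        · rw [if_neg h3, if_neg (fun h4 => h3 (h2.mp h4).2), mul_zero]
      · rw [if_neg h, if_neg (fun h4 => h (h2.mp h4).1), zero_mul]
    simp_rw [h1]
    rw [RG_crt (RG_g N D i j) (fun x => if RG_P N p x then (1 : ℂ) else 0) D p hD hp.one_le hc
      (RG_g_per N D i j hi hj) (fun x => by
        by_cases h : RG_P N p x
        · rw [if_pos h, if_pos ((RG_P_per N p x).mpr h)]
        · rw [if_neg h, if_neg (fun h2 => h ((RG_P_per N p x).mp h2))]),
      RG_count N p hp, mul_comm D p, Nat.totient_mul_of_prime_of_not_dvd hp hpD]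
    have h5 : (((p - 1 : ℕ)) : ℂ) = (p : ℂ) - 1 := by
      rw [Nat.cast_sub hp.one_le, Nat.cast_one]
    unfold sg
    split_ifs with hN
    · push_cast
      rw [h5]
      field_simp
    · push_cast
      rw [h5]
      field_simp
      ring

/-- (Induction with `rhoN_step`.) -/
theorem rhoN_eq (N R d : ℕ) (i j : CC) (hR : 1 ≤ R) (hd : 1 ≤ d) (hi : i.1 ∣ R) (hj : j.1 ∣ R) (hRd : R ∣ d) :
    (d : ℂ) * rhoN N d i j = (R : ℂ) * rhoN N R i j *
      ((∏ p ∈ d.primeFactors.filter (fun p => ¬ p ∣ R), sg N p : ℝ) : ℂ) := by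
  obtain ⟨k, rfl⟩ := hRd
  revert hd
  induction k using induction_on_primes with
  | zero => intro h; omega
  | one =>
    intro _
    have h1 : R.primeFactors.filter (fun p => ¬ p ∣ R) = ∅ := by
      rw [Finset.filter_eq_empty_iff]
      intro p hp h
      exact h (Nat.dvd_of_mem_primeFactors hp)
    rw [mul_one, h1, Finset.prod_empty, Complex.ofReal_one, mul_one]
  | prime_mul p k hp ih =>
    intro hd
    have hk : k ≠ 0 := by
      rintro rfl
      simp at hd
    have hRk : 1 ≤ R * k := Nat.mul_pos hR (by omega)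
    have e1 : R * (p * k) = R * k * p := by ring
    have hstep := rhoN_step N (R * k) p i j hRk hp (hi.mul_right k) (hj.mul_right k)
    have hpf : (R * k * p).primeFactors = insert p (R * k).primeFactors := by
      rw [Nat.primeFactors_mul (by omega) hp.ne_zero, hp.primeFactors, Finset.union_comm]
      rfl
    rw [e1]
    by_cases hpd : p ∣ R * k
    · rw [hstep.1 hpd, ih hRk]
      have h2 : insert p (R * k).primeFactors = (R * k).primeFactors :=
        Finset.insert_eq_of_mem (Nat.mem_primeFactors.mpr ⟨hp, hpd, by omega⟩)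
      rw [hpf, h2]
    · rw [hstep.2 hpd, ih hRk, hpf, Finset.filter_insert, if_pos (fun h => hpd (h.mul_right k)),
        Finset.prod_insert (fun h => hpd (Nat.dvd_of_mem_primeFactors (Finset.mem_filter.mp h).1))]
      push_cast
      ring

theorem RG_sqf (S : Finset ℕ) (hS : ∀ p ∈ S, p.Prime) : Squarefree (∏ p ∈ S, p) := by
  induction S using Finset.induction_on with
  | empty => simp
  | insert p S hp ih =>
    rw [Finset.prod_insert hp, Nat.squarefree_mul]
    · exact ⟨(hS p (Finset.mem_insert_self p S)).squarefree, ih fun q hq => hS q (Finset.mem_insert_of_mem hq)⟩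
    · refine Nat.Coprime.prod_right fun q hq => ?_
      refine (Nat.coprime_primes (hS p (Finset.mem_insert_self p S)) (hS q (Finset.mem_insert_of_mem hq))).mpr ?_
      rintro rfl
      exact hp hq

theorem RG_div (s : ℕ → ℝ) (R n : ℕ) (hn : 0 < n) :
    ∑ e ∈ n.divisors, (if Squarefree e ∧ e.Coprime R then ∏ p ∈ e.primeFactors, (s p - 1) else 0) =
      ∏ p ∈ n.primeFactors.filter (fun p => ¬ p ∣ R), s p := by
  have h1 : ∏ p ∈ n.primeFactors.filter (fun p => ¬ p ∣ R), s p =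
      ∑ S ∈ (n.primeFactors.filter (fun p => ¬ p ∣ R)).powerset, ∏ p ∈ S, (s p - 1) := by
    rw [← Finset.prod_one_add]
    refine Finset.prod_congr rfl fun p _ => ?_
    ring
  rw [h1, ← Finset.sum_filter]
  have hpr : ∀ S ∈ (n.primeFactors.filter (fun p => ¬ p ∣ R)).powerset, ∀ p ∈ S, p.Prime ∧ p ∣ n ∧ ¬ p ∣ R := by
    intro S hS p hp
    have h2 := Finset.mem_filter.mp (Finset.mem_powerset.mp hS hp)
    exact ⟨Nat.prime_of_mem_primeFactors h2.1, Nat.dvd_of_mem_primeFactors h2.1, h2.2⟩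
  refine Finset.sum_nbij' (fun e => e.primeFactors) (fun S => ∏ p ∈ S, p) ?_ ?_ ?_ ?_ ?_
  · intro e he
    obtain ⟨h2, h3, h4⟩ := Finset.mem_filter.mp he
    rw [Finset.mem_powerset]
    intro p hp
    have hpp := Nat.prime_of_mem_primeFactors hp
    have hpe := Nat.dvd_of_mem_primeFactors hp
    rw [Finset.mem_filter, Nat.mem_primeFactors]
    refine ⟨⟨hpp, hpe.trans (Nat.dvd_of_mem_divisors h2), hn.ne'⟩, fun hR => ?_⟩
    exact (Nat.Prime.not_coprime_iff_dvd.mpr ⟨p, hpp, hpe, hR⟩) h4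
  · intro S hS
    have h2 := hpr S hS
    rw [Finset.mem_filter, Nat.mem_divisors]
    refine ⟨⟨?_, hn.ne'⟩, RG_sqf S fun p hp => (h2 p hp).1, ?_⟩
    · exact Finset.prod_primes_dvd n (fun p hp => (h2 p hp).1.prime) fun p hp => (h2 p hp).2.1
    · exact Nat.Coprime.prod_left fun p hp => ((h2 p hp).1.coprime_iff_not_dvd).mpr (h2 p hp).2.2
  · intro e he
    exact Nat.prod_primeFactors_of_squarefree (Finset.mem_filter.mp he).2.1
  · intro S hS
    exact Nat.primeFactors_prod fun p hp => (hpr S hS p hp).1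
  · intro e he
    rfl

theorem RG_moeb (s : ℕ → ℝ) (R n : ℕ) (hn : 0 < n) :
    ∑ e ∈ n.divisors, (ArithmeticFunction.moebius (n / e) : ℝ) *
      ∏ p ∈ e.primeFactors.filter (fun p => ¬ p ∣ R), s p =
      if Squarefree n ∧ n.Coprime R then ∏ p ∈ n.primeFactors, (s p - 1) else 0 := by
  have h1 := (ArithmeticFunction.sum_eq_iff_sum_mul_moebius_eq (R := ℝ)
    (f := fun e => if Squarefree e ∧ e.Coprime R then ∏ p ∈ e.primeFactors, (s p - 1) else 0)
    (g := fun e => ∏ p ∈ e.primeFactors.filter (fun p => ¬ p ∣ R), s p)).mp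
    (fun n hn => RG_div s R n hn) n hn
  rw [Nat.sum_divisorsAntidiagonal' (fun a b => (ArithmeticFunction.moebius a : ℝ) *
    ∏ p ∈ b.primeFactors.filter (fun p => ¬ p ∣ R), s p)] at h1
  exact h1

theorem RG_inner (N R k : ℕ) (i j : CC) (hR : 1 ≤ R) (hk : 1 ≤ k) (hi : i.1 ∣ R) (hj : j.1 ∣ R)
    (hl : ∀ d, R ∣ d ↔ (i.1 ∣ d ∧ j.1 ∣ d)) :
    ∑ d ∈ (R * k).divisors.filter (fun d => i.1 ∣ d ∧ j.1 ∣ d),
      (ArithmeticFunction.moebius (R * k / d) : ℂ) * d * rhoN N d i j =
      (R : ℂ) * rhoN N R i j * ((if Squarefree k ∧ k.Coprime R then ∏ p ∈ k.primeFactors, (sg N p - 1) else 0 : ℝ) : ℂ) := by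
  rw [← RG_moeb (sg N) R k hk]
  push_cast
  rw [Finset.mul_sum]
  have hRk : R * k ≠ 0 := (Nat.mul_pos hR hk).ne'
  refine Finset.sum_nbij' (fun d => d / R) (fun e => R * e) ?_ ?_ ?_ ?_ ?_
  · intro d hd
    obtain ⟨h1, h2⟩ := Finset.mem_filter.mp hd
    obtain ⟨e, rfl⟩ := (hl d).mpr h2
    rw [Nat.mul_div_cancel_left e hR, Nat.mem_divisors]
    exact ⟨(Nat.mul_dvd_mul_iff_left hR).mp (Nat.dvd_of_mem_divisors h1), by omega⟩
  · intro e he
    rw [Finset.mem_filter, Nat.mem_divisors]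
    exact ⟨⟨Nat.mul_dvd_mul_left R (Nat.dvd_of_mem_divisors he), hRk⟩, (hl _).mp (dvd_mul_right R e)⟩
  · intro d hd
    obtain ⟨h1, h2⟩ := Finset.mem_filter.mp hd
    exact Nat.mul_div_cancel' ((hl d).mpr h2)
  · intro e he
    exact Nat.mul_div_cancel_left e hR
  · intro d hd
    obtain ⟨h1, h2⟩ := Finset.mem_filter.mp hd
    obtain ⟨e, rfl⟩ := (hl d).mpr h2
    have he : e ≠ 0 := by
      rintro rfl
      have := Nat.pos_of_mem_divisors h1
      simp at this
    rw [Nat.mul_div_cancel_left e hR, Nat.mul_div_mul_left _ _ hR]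
    have h3 := rhoN_eq N R (R * e) i j hR (Nat.mul_pos hR (by omega)) hi hj (dvd_mul_right R e)
    have h4 : (R * e).primeFactors.filter (fun p => ¬ p ∣ R) = e.primeFactors.filter (fun p => ¬ p ∣ R) := by
      rw [Nat.primeFactors_mul (by omega) he, Finset.filter_union]
      have h5 : R.primeFactors.filter (fun p => ¬ p ∣ R) = ∅ := by
        rw [Finset.filter_eq_empty_iff]
        intro p hp h
        exact h (Nat.dvd_of_mem_primeFactors hp)
      rw [h5, Finset.empty_union]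
    rw [h4] at h3
    rw [mul_assoc, h3]
    push_cast
    ring

/-- **The formula.** (`rhoN_eq`; with `q = R k` the inner sum is `∑_{e ∣ k} μ (k / e) f (e)`, `f (e) = ∏_{p ∣ e, p ∤ R} sg N p`, which is
`∏_{p ∣ k} (sg N p - 1)` if `k` is squarefree and prime to `R` and `0` otherwise.) -/
theorem Kc_eq (P N : ℕ) (i j : CC) (hi : 1 ≤ i.1) (hj : 1 ≤ j.1) :
    Kc P N i j = (Nat.lcm i.1 j.1 : ℂ) * rhoN N (Nat.lcm i.1 j.1) i j *
      ((∑ k ∈ (Icc 1 (P / Nat.lcm i.1 j.1)).filter (fun k => Squarefree k ∧ k.Coprime (Nat.lcm i.1 j.1)),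
        ∏ p ∈ k.primeFactors, (sg N p - 1) : ℝ) : ℂ) := by
  obtain ⟨R, hR⟩ : ∃ R, R = Nat.lcm i.1 j.1 := ⟨_, rfl⟩
  rw [← hR]
  have hR1 : 1 ≤ R := by
    rw [hR]
    exact Nat.lcm_pos hi hj
  have hiR : i.1 ∣ R := hR ▸ Nat.dvd_lcm_left _ _
  have hjR : j.1 ∣ R := hR ▸ Nat.dvd_lcm_right _ _
  have hl : ∀ d, R ∣ d ↔ (i.1 ∣ d ∧ j.1 ∣ d) := by
    intro d
    rw [hR]
    exact Nat.lcm_dvd_iff
  unfold Kc
  have h1 : ∑ q ∈ Icc 1 P, ∑ d ∈ q.divisors.filter (fun d => i.1 ∣ d ∧ j.1 ∣ d),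
      (ArithmeticFunction.moebius (q / d) : ℂ) * d * rhoN N d i j =
      ∑ q ∈ (Icc 1 P).filter (fun q => R ∣ q), ∑ d ∈ q.divisors.filter (fun d => i.1 ∣ d ∧ j.1 ∣ d),
      (ArithmeticFunction.moebius (q / d) : ℂ) * d * rhoN N d i j := by
    symm
    refine Finset.sum_subset (Finset.filter_subset _ _) fun q hq hq2 => ?_
    refine Finset.sum_eq_zero fun d hd => ?_
    obtain ⟨h2, h3⟩ := Finset.mem_filter.mp hd
    exact absurd (Finset.mem_filter.mpr ⟨hq, ((hl d).mpr h3).trans (Nat.dvd_of_mem_divisors h2)⟩) hq2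
  rw [h1]
  have h2 : ∑ q ∈ (Icc 1 P).filter (fun q => R ∣ q), ∑ d ∈ q.divisors.filter (fun d => i.1 ∣ d ∧ j.1 ∣ d),
      (ArithmeticFunction.moebius (q / d) : ℂ) * d * rhoN N d i j =
      ∑ k ∈ Icc 1 (P / R), ∑ d ∈ (R * k).divisors.filter (fun d => i.1 ∣ d ∧ j.1 ∣ d),
      (ArithmeticFunction.moebius (R * k / d) : ℂ) * d * rhoN N d i j := by
    refine Finset.sum_nbij' (fun q => q / R) (fun k => R * k) ?_ ?_ ?_ ?_ ?_
    · intro q hq
      obtain ⟨h3, k, rfl⟩ := Finset.mem_filter.mp hq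
      rw [Finset.mem_Icc] at h3
      rw [Nat.mul_div_cancel_left k hR1, Finset.mem_Icc]
      refine ⟨?_, (Nat.le_div_iff_mul_le hR1).mpr (by rw [mul_comm]; exact h3.2)⟩
      by_contra hk
      have : k = 0 := by omega
      rw [this] at h3
      omega
    · intro k hk
      rw [Finset.mem_Icc] at hk
      rw [Finset.mem_filter, Finset.mem_Icc]
      refine ⟨⟨Nat.mul_pos hR1 hk.1, ?_⟩, dvd_mul_right R k⟩
      rw [mul_comm]
      exact (Nat.le_div_iff_mul_le hR1).mp hk.2
    · intro q hq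
      exact Nat.mul_div_cancel' (Finset.mem_filter.mp hq).2
    · intro k hk
      exact Nat.mul_div_cancel_left k hR1
    · intro q hq
      rw [Nat.mul_div_cancel' (Finset.mem_filter.mp hq).2]
  rw [h2]
  have h3 : ∀ k ∈ Icc 1 (P / R), ∑ d ∈ (R * k).divisors.filter (fun d => i.1 ∣ d ∧ j.1 ∣ d),
      (ArithmeticFunction.moebius (R * k / d) : ℂ) * d * rhoN N d i j = (R : ℂ) * rhoN N R i j *
        ((if Squarefree k ∧ k.Coprime R then ∏ p ∈ k.primeFactors, (sg N p - 1) else 0 : ℝ) : ℂ) := fun k hk =>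
    RG_inner N R k i j hR1 (Finset.mem_Icc.mp hk).1 hiR hjR hl
  rw [Finset.sum_congr rfl h3, ← Finset.mul_sum, ← Complex.ofReal_sum, ← Finset.sum_filter]

end Pool.Agent.M58
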