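import Pool.Agent.W_b58c63_m1.RG
import Pool.Agent.W_fd120a_h34.Div

/-!
# The twisted density of a real character (helper68)
-/

set_option autoImplicit false

noncomputable section

open Finset

namespace Pool.Agent.M58

/-- The unit pairs modulo `r`. -/
def upr (N r : ℕ) : Finset ℕ := (range r).filter (fun x : ℕ => x.Coprime r ∧ ((N : ℤ) - x).natAbs.Coprime r)

/-- The mean of `χ (x) χ (N - x)` over the unit pairs. -/
def kap (N : ℕ) (i : CC) : ℝ :=
  (∑ x ∈ upr N i.1, (i.2 (x : ZMod i.1) * i.2 (((N : ℤ) - x : ℤ) : ZMod i.1)).re) / (upr N i.1).card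

/-- The number of the unit pairs. (`rhoN_eq` for the trivial characters and `R = 1`.) -/
theorem upr_card (N r : ℕ) (hr : 1 ≤ r) :
    (r : ℝ) * ((upr N r).card : ℝ) / (r.totient : ℝ) ^ 2 = ∏ p ∈ r.primeFactors, sg N p := by
  have hone : ∀ z : ZMod i0.1, i0.2 z = 1 := by
    intro z
    have h1 : Subsingleton (ZMod i0.1) := inferInstanceAs (Subsingleton (ZMod 1))
    exact MulChar.one_apply (isUnit_of_subsingleton z)
  have hrho : ∀ d : ℕ, rhoN N d i0 i0 = (1 / (d.totient : ℂ) ^ 2) * ((upr N d).card : ℂ) := by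
    intro d
    unfold rhoN upr
    congr 1
    rw [card_eq_sum_ones, Nat.cast_sum]
    apply sum_congr rfl
    intro x _
    rw [hone, hone, map_one]
    norm_num
  have h := rhoN_eq N 1 r i0 i0 le_rfl hr (one_dvd _) (one_dvd _) (one_dvd _)
  have hcard1 : (upr N 1).card = 1 := by
    unfold upr
    simp
  have hfil : r.primeFactors.filter (fun p => ¬ p ∣ 1) = r.primeFactors := by
    apply filter_true_of_mem
    intro p hp h1
    exact (Nat.prime_of_mem_primeFactors hp).one_lt.ne' (Nat.dvd_one.1 h1)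
  rw [hrho, hrho, hcard1, hfil] at h
  simp only [Nat.totient_one, Nat.cast_one, one_pow, div_one, mul_one, one_mul] at h
  have h2 : (((r : ℝ) * ((upr N r).card : ℝ) / (r.totient : ℝ) ^ 2 : ℝ) : ℂ) =
      ((∏ p ∈ r.primeFactors, sg N p : ℝ) : ℂ) := by
    rw [← h]
    push_cast
    ring
  exact_mod_cast h2

/-! ### Real characters -/

/-- `χ` is trivial on the integers `≡ 1 (mod d)` which are prime to the modulus. -/
def RK_triv {r : ℕ} (χ : DirichletCharacter ℂ r) (d : ℕ) : Prop :=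
  ∀ n : ℕ, n.Coprime r → n ≡ 1 [MOD d] → χ (n : ZMod r) = 1

theorem RK_prim {r : ℕ} (hr : 1 ≤ r) (χ : DirichletCharacter ℂ r) (hχ : χ.IsPrimitive) {d : ℕ}
    (hd : d ∣ r) (hdr : d < r) : ¬ RK_triv χ d := by
  intro h
  have : NeZero r := ⟨by omega⟩
  have h1 : χ.FactorsThrough d := by
    rw [DirichletCharacter.factorsThrough_iff_ker_unitsMap hd]
    intro u hu
    rw [MonoidHom.mem_ker] at hu ⊢
    have h2 : ((u : ZMod r).val).Coprime r := ZMod.val_coe_unit_coprime u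
    have h3 : (((u : ZMod r).val : ℕ) : ZMod d) = 1 := by
      have h3 := congrArg Units.val hu
      rw [ZMod.unitsMap_val, Units.val_one] at h3
      rw [← h3]
      exact ZMod.natCast_val _
    have h4 : (u : ZMod r).val ≡ 1 [MOD d] := by
      rw [← ZMod.natCast_eq_natCast_iff]
      simpa using h3
    have h5 := h _ h2 h4
    rw [ZMod.natCast_zmod_val] at h5
    apply Units.ext
    rw [MulChar.coe_toUnitHom]
    exact h5
  have h6 : χ.conductor ∣ d := DirichletCharacter.conductor_dvd_of_mem_conductorSet χ h1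
  rw [(DirichletCharacter.isPrimitive_def χ).1 hχ] at h6
  have h7 : 0 < d := Nat.pos_of_dvd_of_pos hd (by omega)
  have := Nat.le_of_dvd h7 h6
  omega

theorem RK_sq {r : ℕ} (χ : DirichletCharacter ℂ r) (hre : ∀ n : ℕ, (χ (n : ZMod r)).im = 0) {n : ℕ}
    (hn : n.Coprime r) : χ (n : ZMod r) ^ 2 = 1 := by
  have hu : IsUnit (n : ZMod r) := (ZMod.isUnit_iff_coprime n r).2 hn
  have h1 : ‖χ (n : ZMod r)‖ = 1 := by
    have := χ.unit_norm_eq_one hu.unit
    simpa using this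
  obtain ⟨t, ht⟩ : ∃ t : ℝ, χ (n : ZMod r) = t :=
    ⟨(χ (n : ZMod r)).re, Complex.ext (by simp) (by simp [hre n])⟩
  rw [ht, Complex.norm_real, Real.norm_eq_abs] at h1
  rw [ht]
  norm_cast
  rw [← sq_abs, h1, one_pow]

theorem RK_oddp {r : ℕ} (χ : DirichletCharacter ℂ r) (hre : ∀ n : ℕ, (χ (n : ZMod r)).im = 0)
    {p : ℕ} (hp : p.Prime) (hp2 : p ≠ 2) (h : p * p ∣ r) : RK_triv χ (r / p) := by
  intro n hn h1
  obtain ⟨t, ht⟩ := h
  have hrp : r / p = p * t := by rw [ht, mul_assoc, Nat.mul_div_cancel_left _ hp.pos]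
  rw [hrp] at h1
  have h4 : ((p * t : ℕ) : ℤ) ∣ (n : ℤ) - 1 := by
    have := Nat.modEq_iff_dvd.1 h1.symm
    simpa using this
  have hn1 : ((n : ℤ) : ZMod p) = 1 := by
    have h5 : (p : ℤ) ∣ (n : ℤ) - 1 := by
      refine dvd_trans ?_ h4
      push_cast
      exact dvd_mul_right _ _
    have h6 := (ZMod.intCast_zmod_eq_zero_iff_dvd _ p).2 h5
    push_cast at h6 ⊢
    exact sub_eq_zero.1 h6
  have h5 : (p : ℤ) ∣ ∑ i ∈ range p, (n : ℤ) ^ i := by
    rw [← ZMod.intCast_zmod_eq_zero_iff_dvd]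
    rw [Int.cast_sum]
    simp only [Int.cast_pow, hn1, one_pow, sum_const, card_range, nsmul_eq_mul, mul_one]
    exact ZMod.natCast_self p
  have h3 : (r : ℤ) ∣ (n : ℤ) ^ p - 1 := by
    rw [← geom_sum_mul]
    have h7 := mul_dvd_mul h5 h4
    have h8 : (p : ℤ) * ((p * t : ℕ) : ℤ) = (r : ℤ) := by
      rw [ht]
      push_cast
      ring
    rwa [h8] at h7
  have h9 : (n : ZMod r) ^ p = 1 := by
    have h10 := (ZMod.intCast_zmod_eq_zero_iff_dvd _ r).2 h3
    push_cast at h10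
    exact sub_eq_zero.1 h10
  have h11 : χ (n : ZMod r) ^ p = 1 := by
    rw [← map_pow, h9, map_one]
  obtain ⟨k, hk⟩ := hp.odd_of_ne_two hp2
  have h12 := RK_sq χ hre hn
  rw [hk, pow_succ, pow_mul, h12, one_pow, one_mul] at h11
  exact h11

theorem RK_two {r : ℕ} (hr : 1 ≤ r) (χ : DirichletCharacter ℂ r)
    (hre : ∀ n : ℕ, (χ (n : ZMod r)).im = 0) (h : 16 ∣ r) : RK_triv χ (r / 2) := by
  intro n hn h1
  obtain ⟨t, ht⟩ := h
  have ht0 : 0 < t := by
    rcases Nat.eq_zero_or_pos t with h0 | h0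
    · rw [ht, h0] at hr
      omega
    · exact h0
  have hrp : r / 2 = 8 * t := by omega
  rw [hrp] at h1
  have h2 : n % (8 * t) = 1 := by
    have h3 : n % (8 * t) = 1 % (8 * t) := h1
    rw [h3]
    exact Nat.mod_eq_of_lt (by omega)
  have h3 : n = 8 * t * (n / (8 * t)) + 1 := by
    have := Nat.div_add_mod n (8 * t)
    rw [h2] at this
    exact this.symm
  set y := n / (8 * t) with hy
  have h4 : (4 * t * y + 1).Coprime (4 * t) := by
    have h5 : (4 * t * y + 1).Coprime (4 * t) ↔ (1 + 4 * t * y).Coprime (4 * t) := by rw [add_comm]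
    rw [h5]
    simp
  have h6 : (4 * t * y + 1).Coprime r := by
    have h7 : r = 4 * (4 * t) := by omega
    rw [h7]
    exact Nat.Coprime.mul_right (Nat.Coprime.coprime_dvd_right (dvd_mul_right 4 t) h4) h4
  have h8 : ((n : ℕ) : ZMod r) = ((4 * t * y + 1 : ℕ) : ZMod r) ^ 2 := by
    have h9 : (4 * t * y + 1) ^ 2 = r * (t * y ^ 2) + n := by
      rw [h3, ht]
      ring_nf
    rw [← Nat.cast_pow, h9]
    push_cast
    rw [ZMod.natCast_self]
    ring
  rw [h8, map_pow]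
  exact RK_sq χ hre h6

/-- **The conductor of a real primitive character** is `2 ^ a s` with `a ≤ 3` and `s` odd and squarefree.

Proof. Let `r = p ^ e s`, `p ∤ s`. Elements `x ≡ 1 (mod s)`, `x ≡ 1 (mod p)`, `p` odd, have odd order in the unit group modulo `r`
(a power of `p`), so `χ (x) = 1` for real `χ`; so `χ` is trivial on the units `≡ 1 (mod p s)`, and the conductor divides `p s`. For
`p = 2`: the elements `≡ 1 (mod 8 s)` are squares of elements `≡ 1 (mod 2 s)`, so `χ = 1` on them. -/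
theorem real_cond (i : CC) (hi : i.2.IsPrimitive) (hr : 1 ≤ i.1) (hre : ∀ n : ℕ, (i.2 (n : ZMod i.1)).im = 0) :
    ∃ a s : ℕ, a ≤ 3 ∧ i.1 = 2 ^ a * s ∧ Squarefree s ∧ ¬ 2 ∣ s := by
  have hodd : ∀ p : ℕ, p.Prime → p ≠ 2 → ¬ p * p ∣ i.1 := by
    intro p hp hp2 h
    have h1 : p ∣ i.1 := dvd_trans (dvd_mul_right p p) h
    exact RK_prim hr i.2 hi (Nat.div_dvd_of_dvd h1) (Nat.div_lt_self (by omega) hp.one_lt)
      (RK_oddp i.2 hre hp hp2 h)
  have h16 : ¬ 16 ∣ i.1 := by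
    intro h
    have h1 : 2 ∣ i.1 := dvd_trans (by norm_num) h
    exact RK_prim hr i.2 hi (Nat.div_dvd_of_dvd h1) (Nat.div_lt_self (by omega) (by norm_num))
      (RK_two hr i.2 hre h)
  obtain ⟨k, m, hm, hkm⟩ := Nat.exists_eq_two_pow_mul_odd (show i.1 ≠ 0 by omega)
  refine ⟨k, m, ?_, hkm, ?_, ?_⟩
  · by_contra h
    apply h16
    rw [hkm]
    exact dvd_mul_of_dvd_left (by
      have : (16 : ℕ) = 2 ^ 4 := by norm_num
      rw [this]
      exact pow_dvd_pow 2 (by omega)) m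
  · rw [Nat.squarefree_iff_prime_squarefree]
    intro p hp h
    by_cases hp2 : p = 2
    · rw [hp2] at h
      have h1 : 2 ∣ m := dvd_trans (dvd_mul_right 2 2) h
      exact (Nat.not_even_iff_odd.2 hm) (even_iff_two_dvd.2 h1)
    · exact hodd p hp hp2 (by rw [hkm]; exact dvd_mul_of_dvd_right h _)
  · intro h
    exact (Nat.not_even_iff_odd.2 hm) (even_iff_two_dvd.2 h)

/-! ### Factorisation of the sums -/

theorem RK_range (r : ℕ) [NeZero r] (f : ZMod r → ℂ) :
    ∑ z : ZMod r, f z = ∑ x ∈ range r, f (x : ZMod r) := by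
  symm
  refine Finset.sum_bij' (fun x _ => (x : ZMod r)) (fun z _ => z.val) (fun _ _ => mem_univ _)
    (fun z _ => mem_range.2 (ZMod.val_lt z)) (fun x hx => ?_) (fun z _ => ?_) (fun _ _ => rfl)
  · rw [ZMod.val_natCast, Nat.mod_eq_of_lt (mem_range.1 hx)]
  · exact ZMod.natCast_zmod_val z

theorem RK_sum (N r : ℕ) [NeZero r] (χ : DirichletCharacter ℂ r) :
    ∑ x ∈ upr N r, χ (x : ZMod r) * χ (((N : ℤ) - x : ℤ) : ZMod r) =
      ∑ z : ZMod r, χ z * χ ((N : ZMod r) - z) := by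
  rw [RK_range]
  unfold upr
  rw [sum_filter]
  apply sum_congr rfl
  intro x _
  split_ifs with h
  · push_cast
    rfl
  · by_cases h2 : x.Coprime r
    · have h3 : ¬ ((N : ℤ) - x).natAbs.Coprime r := fun h3 => h ⟨h2, h3⟩
      have h4 : ¬ IsUnit ((N : ZMod r) - (x : ZMod r)) := by
        intro h5
        apply h3
        have h6 : IsUnit (((N : ℤ) - x : ℤ) : ZMod r) := by
          push_cast
          exact h5
        have h7 := (ZMod.coe_int_isUnit_iff_isCoprime _ _).1 h6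
        have h8 := Int.isCoprime_iff_nat_coprime.1 h7
        exact (by simpa using h8 : r.Coprime ((N : ℤ) - x).natAbs).symm
      rw [χ.map_nonunit h4, mul_zero]
    · have h4 : ¬ IsUnit (x : ZMod r) := fun h5 => h2 ((ZMod.isUnit_iff_coprime x r).1 h5)
      rw [χ.map_nonunit h4, zero_mul]

theorem RK_triv_bound (N r : ℕ) (χ : DirichletCharacter ℂ r) :
    ‖∑ x ∈ upr N r, χ (x : ZMod r) * χ (((N : ℤ) - x : ℤ) : ZMod r)‖ ≤ (upr N r).card := by
  refine (norm_sum_le _ _).trans ?_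
  have h : ∀ x ∈ upr N r, ‖χ (x : ZMod r) * χ (((N : ℤ) - x : ℤ) : ZMod r)‖ ≤ 1 := by
    intro x _
    rw [norm_mul]
    exact mul_le_one₀ (χ.norm_le_one _) (norm_nonneg _) (χ.norm_le_one _)
  refine (sum_le_sum h).trans ?_
  rw [sum_const, nsmul_eq_mul, mul_one]

/-- The first component of a character modulo `p m`. -/
def RK_fst {p m : ℕ} (h : p.Coprime m) (χ : DirichletCharacter ℂ (p * m)) : DirichletCharacter ℂ p where
  toFun x := χ ((ZMod.chineseRemainder h).symm (x, 1))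
  map_one' := by
    have h1 : (((1 : ZMod p), (1 : ZMod m)) : ZMod p × ZMod m) = 1 := rfl
    rw [h1, map_one, map_one]
  map_mul' x y := by
    have h1 : ((x * y, (1 : ZMod m)) : ZMod p × ZMod m) = (x, 1) * (y, 1) := by simp
    rw [h1, map_mul, map_mul]
  map_nonunit' x hx := by
    apply χ.map_nonunit
    intro hu
    apply hx
    have h1 := hu.map (ZMod.chineseRemainder h)
    rw [RingEquiv.apply_symm_apply] at h1
    exact (Prod.isUnit_iff.1 h1).1

/-- The second component of a character modulo `p m`. -/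
def RK_snd {p m : ℕ} (h : p.Coprime m) (χ : DirichletCharacter ℂ (p * m)) : DirichletCharacter ℂ m where
  toFun x := χ ((ZMod.chineseRemainder h).symm (1, x))
  map_one' := by
    have h1 : (((1 : ZMod p), (1 : ZMod m)) : ZMod p × ZMod m) = 1 := rfl
    rw [h1, map_one, map_one]
  map_mul' x y := by
    have h1 : (((1 : ZMod p), x * y) : ZMod p × ZMod m) = (1, x) * (1, y) := by simp
    rw [h1, map_mul, map_mul]
  map_nonunit' x hx := by
    apply χ.map_nonunit
    intro hu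
    apply hx
    have h1 := hu.map (ZMod.chineseRemainder h)
    rw [RingEquiv.apply_symm_apply] at h1
    exact (Prod.isUnit_iff.1 h1).2

theorem RK_mul {p m : ℕ} (h : p.Coprime m) (χ : DirichletCharacter ℂ (p * m)) (x : ZMod p) (y : ZMod m) :
    χ ((ZMod.chineseRemainder h).symm (x, y)) = RK_fst h χ x * RK_snd h χ y := by
  have h1 : ((x, y) : ZMod p × ZMod m) = (x, 1) * (1, y) := by simp
  rw [h1, map_mul, map_mul]
  rfl

theorem RK_nat {p m : ℕ} (h : p.Coprime m) (χ : DirichletCharacter ℂ (p * m)) (n : ℕ) :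
    χ (n : ZMod (p * m)) = RK_fst h χ (n : ZMod p) * RK_snd h χ (n : ZMod m) := by
  rw [← RK_mul]
  congr 1
  have h1 : (((n : ZMod p), (n : ZMod m)) : ZMod p × ZMod m) = ((n : ℕ) : ZMod p × ZMod m) := rfl
  rw [h1, map_natCast]

theorem RK_fst_eq {p m : ℕ} (h : p.Coprime m) (χ : DirichletCharacter ℂ (p * m)) (x : ZMod p) :
    RK_fst h χ x = χ ((ZMod.chineseRemainder h).symm (x, 1)) := rfl

theorem RK_snd_eq {p m : ℕ} (h : p.Coprime m) (χ : DirichletCharacter ℂ (p * m)) (x : ZMod m) :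
    RK_snd h χ x = χ ((ZMod.chineseRemainder h).symm (1, x)) := rfl

theorem RK_prod {p m : ℕ} [NeZero p] [NeZero m] (h : p.Coprime m) (χ : DirichletCharacter ℂ (p * m))
    (N : ℕ) :
    ∑ z : ZMod (p * m), χ z * χ ((N : ZMod (p * m)) - z) =
      (∑ x : ZMod p, RK_fst h χ x * RK_fst h χ ((N : ZMod p) - x)) *
        ∑ y : ZMod m, RK_snd h χ y * RK_snd h χ ((N : ZMod m) - y) := by
  have h1 : ∑ z : ZMod (p * m), χ z * χ ((N : ZMod (p * m)) - z) =
      ∑ w : ZMod p × ZMod m, χ ((ZMod.chineseRemainder h).symm w) *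
        χ ((N : ZMod (p * m)) - (ZMod.chineseRemainder h).symm w) :=
    (Equiv.sum_comp (ZMod.chineseRemainder h).symm.toEquiv
      (fun z => χ z * χ ((N : ZMod (p * m)) - z))).symm
  rw [h1, Fintype.sum_prod_type, sum_mul_sum]
  apply sum_congr rfl
  intro x _
  apply sum_congr rfl
  intro y _
  have h2 : (N : ZMod (p * m)) - (ZMod.chineseRemainder h).symm (x, y) =
      (ZMod.chineseRemainder h).symm ((N : ZMod p) - x, (N : ZMod m) - y) := by
    have h3 : (((N : ZMod p) - x, (N : ZMod m) - y) : ZMod p × ZMod m) =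
        ((N : ℕ) : ZMod p × ZMod m) - (x, y) := rfl
    rw [h3, map_sub, map_natCast]
  rw [h2, RK_mul, RK_mul]
  ring

/-- The sum modulo a prime. -/
theorem RK_jac {p : ℕ} (hp : p.Prime) (ψ : DirichletCharacter ℂ p) (hψ : ψ ^ 2 = 1) (h1 : ψ ≠ 1)
    (N : ZMod p) (hN : N ≠ 0) [NeZero p] : ‖∑ x : ZMod p, ψ x * ψ (N - x)‖ ≤ 1 := by
  have hF : Fact p.Prime := ⟨hp⟩
  have h2 : ∑ x : ZMod p, ψ x * ψ (N - x) = ψ N ^ 2 * jacobiSum ψ ψ⁻¹ := by
    have h3 : ψ⁻¹ = ψ := by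
      rw [inv_eq_iff_mul_eq_one, ← pow_two]
      exact hψ
    rw [h3]
    have h4 : ∑ x : ZMod p, ψ x * ψ (N - x) = ∑ t : ZMod p, ψ (N * t) * ψ (N - N * t) :=
      (Equiv.sum_comp (Equiv.mulLeft₀ N hN) (fun x => ψ x * ψ (N - x))).symm
    rw [h4, jacobiSum, mul_sum]
    apply sum_congr rfl
    intro t _
    have h5 : N - N * t = N * (1 - t) := by ring
    rw [h5, map_mul, map_mul]
    ring
  rw [h2, jacobiSum_nontrivial_inv h1, norm_mul, norm_pow, norm_neg]
  have h6 := ψ.norm_le_one N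
  have h7 := ψ.norm_le_one (-1)
  have h8 : ‖ψ N‖ ^ 2 ≤ 1 := pow_le_one₀ (norm_nonneg _) h6
  exact mul_le_one₀ h8 (norm_nonneg _) h7

theorem RK_card (N p m : ℕ) (hp : p.Prime) (hm : 1 ≤ m) (hpm : ¬ p ∣ m) (hpN : ¬ p ∣ N) :
    ((upr N (p * m)).card : ℝ) = ((p : ℝ) - 2) * (upr N m).card := by
  have h1 := upr_card N (p * m) (Nat.mul_pos hp.pos hm)
  have h2 := upr_card N m hm
  have hcop : p.Coprime m := (Nat.Prime.coprime_iff_not_dvd hp).2 hpm
  have h3 : (p * m).primeFactors = insert p m.primeFactors := by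
    rw [Nat.primeFactors_mul hp.ne_zero (by omega), hp.primeFactors]
    rfl
  have h4 : p ∉ m.primeFactors := fun h => hpm (Nat.dvd_of_mem_primeFactors h)
  rw [h3, prod_insert h4, ← h2, Nat.totient_mul hcop, Nat.totient_prime hp] at h1
  have h5 : sg N p = 1 - 1 / ((p : ℝ) - 1) ^ 2 := by
    unfold sg
    rw [if_neg hpN]
  rw [h5] at h1
  have hp2 : (2 : ℝ) ≤ p := by exact_mod_cast hp.two_le
  have hp1 : (p : ℝ) - 1 ≠ 0 := by
    have : (0 : ℝ) < p - 1 := by linarith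
    exact this.ne'
  have hm0 : (m : ℝ) ≠ 0 := by
    have : m ≠ 0 := by omega
    exact_mod_cast this
  have hp0 : (p : ℝ) ≠ 0 := by linarith
  have hφ : (m.totient : ℝ) ≠ 0 := by
    have : 0 < m.totient := Nat.totient_pos.2 hm
    exact_mod_cast this.ne'
  push_cast [Nat.cast_sub hp.one_le] at h1
  field_simp at h1
  have h6 : (p : ℝ) * m * ((upr N (p * m)).card - ((p : ℝ) - 2) * (upr N m).card) = 0 := by
    nlinarith [h1]
  have h7 : ((upr N (p * m)).card : ℝ) - ((p : ℝ) - 2) * (upr N m).card = 0 := by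
    rcases mul_eq_zero.1 h6 with h | h
    · exact absurd h (mul_ne_zero hp0 hm0)
    · exact h
  linarith

/-- Real valued characters. -/
theorem RK_pow_two {r : ℕ} [NeZero r] (χ : DirichletCharacter ℂ r)
    (hre : ∀ n : ℕ, (χ (n : ZMod r)).im = 0) : χ ^ 2 = 1 := by
  apply MulChar.ext
  intro a
  rw [MulChar.one_apply_coe, MulChar.pow_apply_coe]
  have h1 := RK_sq χ hre (ZMod.val_coe_unit_coprime a)
  rw [ZMod.natCast_zmod_val] at h1
  exact h1

/-- **The induction.** -/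
theorem RK_ind (N : ℕ) (P : Finset ℕ) : ∀ r : ℕ, 1 ≤ r → ∀ χ : DirichletCharacter ℂ r,
    (∀ n : ℕ, (χ (n : ZMod r)).im = 0) →
    (∀ p ∈ P, p.Prime ∧ p ≠ 2 ∧ ¬ p ∣ N ∧ p ∣ r ∧ ¬ p * p ∣ r ∧ ¬ RK_triv χ (r / p)) →
    ‖∑ x ∈ upr N r, χ (x : ZMod r) * χ (((N : ℤ) - x : ℤ) : ZMod r)‖ ≤
      (upr N r).card * ∏ p ∈ P, 1 / ((p : ℝ) - 2) := by
  induction P using Finset.induction_on with
  | empty =>
    intro r _ χ _ _
    rw [prod_empty, mul_one]
    exact RK_triv_bound N r χ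
  | insert p P hpP ih =>
    intro r hr χ hre hP
    obtain ⟨hp, hp2, hpN, hpr, hppr, htriv⟩ := hP p (mem_insert_self _ _)
    obtain ⟨m, rfl⟩ := hpr
    have hm : 1 ≤ m := by
      rcases Nat.eq_zero_or_pos m with h | h
      · rw [h] at hr
        omega
      · exact h
    have hpm : ¬ p ∣ m := fun h => hppr (Nat.mul_dvd_mul_left p h)
    have hcop : p.Coprime m := (Nat.Prime.coprime_iff_not_dvd hp).2 hpm
    have : NeZero p := ⟨hp.ne_zero⟩
    have : NeZero m := ⟨by omega⟩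
    have : NeZero (p * m) := ⟨by omega⟩
    rw [Nat.mul_div_cancel_left _ hp.pos] at htriv
    -- real values of the components
    have hχim : ∀ z : ZMod (p * m), (χ z).im = 0 := by
      intro z
      have := hre z.val
      rwa [ZMod.natCast_zmod_val] at this
    have hre1 : ∀ n : ℕ, (RK_fst hcop χ (n : ZMod p)).im = 0 := fun n => hχim _
    have hre2 : ∀ n : ℕ, (RK_snd hcop χ (n : ZMod m)).im = 0 := fun n => hχim _
    have hne : RK_fst hcop χ ≠ 1 := by
      intro h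
      apply htriv
      intro n hn h1
      rw [RK_nat hcop, h]
      have h2 : ((n : ℕ) : ZMod m) = 1 := by
        have := (ZMod.natCast_eq_natCast_iff n 1 m).2 h1
        simpa using this
      have h3 : IsUnit ((n : ℕ) : ZMod p) :=
        (ZMod.isUnit_iff_coprime n p).2 (Nat.Coprime.coprime_dvd_right (dvd_mul_right p m) hn)
      rw [h2, map_one, mul_one, MulChar.one_apply h3]
    have hNp : (N : ZMod p) ≠ 0 := by
      intro h
      exact hpN ((ZMod.natCast_eq_zero_iff N p).1 h)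
    have hj := RK_jac hp (RK_fst hcop χ) (RK_pow_two _ hre1) hne (N : ZMod p) hNp
    have hih := ih m hm (RK_snd hcop χ) hre2 (by
      intro q hq
      obtain ⟨hq1, hq2, hqN, hqr, hqqr, hqt⟩ := hP q (mem_insert_of_mem hq)
      have hqp : q ≠ p := fun h => hpP (h ▸ hq)
      have hqcop : q.Coprime p := (Nat.coprime_primes hq1 hp).2 hqp
      have hqm : q ∣ m := hqcop.dvd_of_dvd_mul_left hqr
      refine ⟨hq1, hq2, hqN, hqm, fun h => hqqr (Dvd.dvd.mul_left h p), fun ht => hqt ?_⟩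
      intro n hn h1
      have h2 : p * m / q = p * (m / q) := Nat.mul_div_assoc p hqm
      rw [h2] at h1
      have h3 : n ≡ 1 [MOD p] := h1.of_dvd (dvd_mul_right _ _)
      have h4 : n ≡ 1 [MOD (m / q)] := h1.of_dvd (dvd_mul_left _ _)
      have h5 : ((n : ℕ) : ZMod p) = 1 := by
        have := (ZMod.natCast_eq_natCast_iff n 1 p).2 h3
        simpa using this
      rw [RK_nat hcop, h5, map_one, one_mul]
      exact ht n (Nat.Coprime.coprime_dvd_right (dvd_mul_left m p) hn) h4)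
    rw [RK_sum] at hih ⊢
    rw [RK_prod hcop, norm_mul, prod_insert hpP, RK_card N p m hp hm hpm hpN]
    have h3 : (3 : ℝ) ≤ p := by
      have : 2 < p := lt_of_le_of_ne hp.two_le (Ne.symm hp2)
      exact_mod_cast this
    have h4 : ((p : ℝ) - 2) * (upr N m).card * (1 / ((p : ℝ) - 2) * ∏ q ∈ P, 1 / ((q : ℝ) - 2)) =
        (upr N m).card * ∏ q ∈ P, 1 / ((q : ℝ) - 2) := by
      have : (p : ℝ) - 2 ≠ 0 := by linarith
      field_simp
    rw [h4]
    refine le_trans ?_ hih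
    exact mul_le_of_le_one_left (norm_nonneg _) hj

/-- **The bound for the twisted density.**

Proof. Let `p` be odd, `p ∣ r`, `p ∤ N`; `r = p r'` with `p ∤ r'` (`real_cond`). `χ = χ_p χ'` (Chinese remainder theorem) with real
primitive characters, and the sum over the unit pairs factorises; the factor of `p` is `∑_x χ_p (x) χ_p (N - x) = - χ_p (- 1)`, and the
number of unit pairs modulo `p` is `p - 2`. Induction over these primes; in the end use `|kap| ≤ 1`. -/
theorem kap_le (N : ℕ) (i : CC) (hN : Even N) (hi : i.2.IsPrimitive) (hr : 1 ≤ i.1)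
    (hre : ∀ n : ℕ, (i.2 (n : ZMod i.1)).im = 0) :
    |kap N i| ≤ ∏ p ∈ i.1.primeFactors.filter (fun p => p ≠ 2 ∧ ¬ p ∣ N), 1 / ((p : ℝ) - 2) := by
  have : NeZero i.1 := ⟨by omega⟩
  have h := RK_ind N (i.1.primeFactors.filter (fun p => p ≠ 2 ∧ ¬ p ∣ N)) i.1 hr i.2 hre (by
    intro p hp
    rw [mem_filter, Nat.mem_primeFactors] at hp
    obtain ⟨⟨hp1, hp2, _⟩, hp3, hp4⟩ := hp
    have hd := Nat.div_dvd_of_dvd hp2
    have hl : i.1 / p < i.1 := Nat.div_lt_self (by omega) hp1.one_lt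
    exact ⟨hp1, hp3, hp4, hp2, fun h => RK_prim hr i.2 hi hd hl (RK_oddp i.2 hre hp1 hp3 h),
      RK_prim hr i.2 hi hd hl⟩)
  unfold kap
  rw [← Complex.re_sum, abs_div, Nat.abs_cast]
  rcases Nat.eq_zero_or_pos (upr N i.1).card with h0 | h0
  · rw [h0, Nat.cast_zero, div_zero]
    apply prod_nonneg
    intro p hp
    have hp' := (mem_filter.1 hp)
    have h2 : 2 ≤ p := (Nat.prime_of_mem_primeFactors hp'.1).two_le
    have h3 : (2 : ℝ) ≤ p := by exact_mod_cast h2
    exact div_nonneg zero_le_one (by linarith)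
  · rw [div_le_iff₀ (by exact_mod_cast h0)]
    refine (Complex.abs_re_le_norm _).trans (h.trans_eq (mul_comm _ _))

/-- (`kap_le`, `real_cond`: a prime `p ≥ 5` divides `r` but not `N`.) -/
theorem kap_third (N : ℕ) (i : CC) (hN : Even N) (hi : i.2.IsPrimitive) (hr : 1 ≤ i.1)
    (hre : ∀ n : ℕ, (i.2 (n : ZMod i.1)).im = 0) (h : ¬ i.1 ∣ 24 * N) : |kap N i| ≤ 1 / 3 := by
  obtain ⟨a, s, ha, hrs, hs, hs2⟩ := real_cond i hi hr hre
  have hex : ∃ p : ℕ, p.Prime ∧ p ∣ i.1 ∧ 5 ≤ p ∧ ¬ p ∣ N := by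
    by_contra hno
    push Not at hno
    apply h
    have h1 : s ∣ 3 * N := by
      rw [← Nat.prod_primeFactors_of_squarefree hs]
      apply Finset.prod_primes_dvd
      · intro p hp
        exact (Nat.prime_of_mem_primeFactors hp).prime
      · intro p hp
        have hp1 := Nat.prime_of_mem_primeFactors hp
        have hp2 := Nat.dvd_of_mem_primeFactors hp
        by_cases hp3 : p = 3
        · rw [hp3]
          exact dvd_mul_right 3 N
        · have hp4 : p ≠ 2 := fun h => hs2 (h ▸ hp2)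
          have hp5 : 5 ≤ p := by
            have h2 := hp1.two_le
            have h4 : p ≠ 4 := by
              intro h
              rw [h] at hp1
              exact absurd hp1 (by norm_num)
            omega
          exact dvd_mul_of_dvd_right (hno p hp1 (by rw [hrs]; exact dvd_mul_of_dvd_right hp2 _) hp5) 3
    have h2 : 2 ^ a ∣ 8 := by
      have : (8 : ℕ) = 2 ^ 3 := by norm_num
      rw [this]
      exact pow_dvd_pow 2 ha
    have h3 : 24 * N = 8 * (3 * N) := by ring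
    rw [hrs, h3]
    exact mul_dvd_mul h2 h1
  obtain ⟨p, hp, hpr, hp5, hpN⟩ := hex
  refine (kap_le N i hN hi hr hre).trans ?_
  have hmem : p ∈ i.1.primeFactors.filter (fun p => p ≠ 2 ∧ ¬ p ∣ N) := by
    rw [mem_filter, Nat.mem_primeFactors]
    exact ⟨⟨hp, hpr, by omega⟩, by omega, hpN⟩
  rw [← mul_prod_erase _ _ hmem]
  have hfac : ∀ q ∈ (i.1.primeFactors.filter (fun p => p ≠ 2 ∧ ¬ p ∣ N)).erase p,
      0 ≤ 1 / ((q : ℝ) - 2) ∧ 1 / ((q : ℝ) - 2) ≤ 1 := by
    intro q hq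
    have hq' := mem_filter.1 (mem_of_mem_erase hq)
    have h1 : 2 ≤ q := (Nat.prime_of_mem_primeFactors hq'.1).two_le
    have h2 : 3 ≤ q := by
      have := hq'.2.1
      omega
    have h3 : (3 : ℝ) ≤ q := by exact_mod_cast h2
    constructor
    · exact div_nonneg zero_le_one (by linarith)
    · rw [div_le_one (by linarith)]
      linarith
  have h1 : ∏ q ∈ (i.1.primeFactors.filter (fun p => p ≠ 2 ∧ ¬ p ∣ N)).erase p, 1 / ((q : ℝ) - 2) ≤ 1 :=
    prod_le_one (fun q hq => (hfac q hq).1) (fun q hq => (hfac q hq).2)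
  have h2 : 0 ≤ ∏ q ∈ (i.1.primeFactors.filter (fun p => p ≠ 2 ∧ ¬ p ∣ N)).erase p, 1 / ((q : ℝ) - 2) :=
    prod_nonneg (fun q hq => (hfac q hq).1)
  have hp5' : (5 : ℝ) ≤ p := by exact_mod_cast hp5
  have h3 : 1 / ((p : ℝ) - 2) ≤ 1 / 3 := one_div_le_one_div_of_le (by norm_num) (by linarith)
  have h4 : 0 ≤ 1 / ((p : ℝ) - 2) := div_nonneg zero_le_one (by linarith)
  nlinarith

/-- (`kap_le`: the product of the primes `p ∣ s`, `p ∤ N` is at least `√r / 8`, and `p - 2 ≥ c √p`.) -/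
theorem kap_small : ∃ C : ℝ, 1 ≤ C ∧ ∀ (N : ℕ) (i : CC), Even N → i.2.IsPrimitive → 1 ≤ i.1 →
    (∀ n : ℕ, (i.2 (n : ZMod i.1)).im = 0) → ((Nat.gcd i.1 N : ℕ) : ℝ) ≤ Real.sqrt i.1 →
      |kap N i| ≤ C * (i.1 : ℝ) ^ (-(1 / 5) : ℝ) := by
  refine ⟨6, by norm_num, fun N i hN hi hr hre hg => ?_⟩
  obtain ⟨a, s, ha, hrs, hs, hs2⟩ := real_cond i hi hr hre
  refine (kap_le N i hN hi hr hre).trans ?_
  set P := i.1.primeFactors.filter (fun p => p ≠ 2 ∧ ¬ p ∣ N) with hP
  have hr0 : (1 : ℝ) ≤ i.1 := by exact_mod_cast hr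
  have hsr : 0 < Real.sqrt i.1 := Real.sqrt_pos.2 (by linarith)
  have hs0 : s ≠ 0 := fun h => hs2 (h ▸ dvd_zero 2)
  -- the set `P`
  have hPs : P = s.primeFactors.filter (fun p => ¬ p ∣ N) := by
    ext p
    rw [hP, mem_filter, mem_filter, Nat.mem_primeFactors, Nat.mem_primeFactors]
    constructor
    · rintro ⟨⟨h1, h2, h3⟩, h4, h5⟩
      refine ⟨⟨h1, ?_, hs0⟩, h5⟩
      rw [hrs] at h2
      rcases (Nat.Prime.dvd_mul h1).1 h2 with h6 | h6
      · exact absurd ((Nat.prime_dvd_prime_iff_eq h1 Nat.prime_two).1 (h1.dvd_of_dvd_pow h6)) h4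
      · exact h6
    · rintro ⟨⟨h1, h2, h3⟩, h5⟩
      refine ⟨⟨h1, ?_, by omega⟩, ?_, h5⟩
      · rw [hrs]
        exact dvd_mul_of_dvd_right h2 _
      · intro h6
        exact hs2 (h6 ▸ h2)
  -- the product of the primes
  set Q : ℕ := ∏ p ∈ P, p with hQ
  have hQ8 : Real.sqrt i.1 / 8 ≤ (Q : ℝ) := by
    have h1 : s = (∏ p ∈ s.primeFactors.filter (fun p => p ∣ N), p) * Q := by
      rw [hQ, hPs, prod_filter_mul_prod_filter_not, Nat.prod_primeFactors_of_squarefree hs]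
    have h2 : (∏ p ∈ s.primeFactors.filter (fun p => p ∣ N), p) ∣ Nat.gcd i.1 N := by
      apply Finset.prod_primes_dvd
      · intro p hp
        exact (Nat.prime_of_mem_primeFactors (mem_filter.1 hp).1).prime
      · intro p hp
        apply Nat.dvd_gcd
        · rw [hrs]
          exact dvd_mul_of_dvd_right (Nat.dvd_of_mem_primeFactors (mem_filter.1 hp).1) _
        · exact (mem_filter.1 hp).2
    have h3 : 0 < Nat.gcd i.1 N := Nat.gcd_pos_of_pos_left _ (by omega)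
    have h4 := Nat.le_of_dvd h3 h2
    have h5 : ((∏ p ∈ s.primeFactors.filter (fun p => p ∣ N), p : ℕ) : ℝ) ≤ Real.sqrt i.1 :=
      le_trans (by exact_mod_cast h4) hg
    have h6 : (s : ℝ) ≤ Real.sqrt i.1 * Q := by
      have h7 : (s : ℝ) = ((∏ p ∈ s.primeFactors.filter (fun p => p ∣ N), p : ℕ) : ℝ) * (Q : ℝ) := by
        exact_mod_cast h1
      rw [h7]
      exact mul_le_mul_of_nonneg_right h5 (Nat.cast_nonneg _)
    have h7 : (i.1 : ℝ) ≤ 8 * s := by
      have h8 : (2 : ℝ) ^ a ≤ 8 := by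
        have : (8 : ℝ) = 2 ^ 3 := by norm_num
        rw [this]
        exact pow_le_pow_right₀ (by norm_num) ha
      have h9 : (i.1 : ℝ) = (2 : ℝ) ^ a * s := by exact_mod_cast hrs
      rw [h9]
      exact mul_le_mul_of_nonneg_right h8 (Nat.cast_nonneg _)
    have h8 : Real.sqrt i.1 * Real.sqrt i.1 = (i.1 : ℝ) := Real.mul_self_sqrt (by linarith)
    have h9 : Real.sqrt i.1 * Real.sqrt i.1 ≤ Real.sqrt i.1 * (8 * Q) := by
      rw [h8]
      linarith
    have h10 := le_of_mul_le_mul_left h9 hsr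
    linarith
  -- the factors
  have hfac : ∀ p ∈ P, 0 ≤ 1 / ((p : ℝ) - 2) ∧
      1 / ((p : ℝ) - 2) ≤ (if p = 3 then 2 else 1) * (p : ℝ) ^ (-(1 / 2) : ℝ) := by
    intro p hp
    rw [hPs, mem_filter] at hp
    have h1 := Nat.prime_of_mem_primeFactors hp.1
    have h2 := Nat.dvd_of_mem_primeFactors hp.1
    have h3 : p ≠ 2 := fun h => hs2 (h ▸ h2)
    have h4 : p ≠ 4 := by
      intro h
      rw [h] at h1
      exact absurd h1 (by norm_num)
    have h5 := h1.two_le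
    by_cases hp3 : p = 3
    · rw [if_pos hp3, hp3]
      constructor
      · norm_num
      · rw [Real.rpow_neg (by norm_num), ← Real.sqrt_eq_rpow]
        have h6 : √((3 : ℕ) : ℝ) ≤ 2 := by
          rw [Real.sqrt_le_left (by norm_num)]
          norm_num
        have h7 : 0 < √((3 : ℕ) : ℝ) := Real.sqrt_pos.2 (by norm_num)
        have h8 : (1 : ℝ) / (((3 : ℕ) : ℝ) - 2) = 1 := by norm_num
        rw [h8, ← div_eq_mul_inv, le_div_iff₀ h7]
        linarith
    · rw [if_neg hp3, one_mul]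
      have h6 : (5 : ℝ) ≤ p := by
        have : 5 ≤ p := by omega
        exact_mod_cast this
      constructor
      · exact div_nonneg zero_le_one (by linarith)
      · rw [Real.rpow_neg (by linarith), ← Real.sqrt_eq_rpow, ← one_div]
        apply one_div_le_one_div_of_le (Real.sqrt_pos.2 (by linarith))
        rw [Real.sqrt_le_left (by linarith)]
        nlinarith
  have h1 : ∏ p ∈ P, 1 / ((p : ℝ) - 2) ≤
      ∏ p ∈ P, ((if p = 3 then (2 : ℝ) else 1) * (p : ℝ) ^ (-(1 / 2) : ℝ)) :=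
    prod_le_prod (fun p hp => (hfac p hp).1) (fun p hp => (hfac p hp).2)
  refine h1.trans ?_
  rw [prod_mul_distrib, prod_ite_eq', Real.finsetProd_rpow _ _ (fun p _ => Nat.cast_nonneg p)]
  have h2 : (if 3 ∈ P then (2 : ℝ) else 1) ≤ 2 := by split_ifs <;> norm_num
  have h3 : (∏ p ∈ P, (p : ℝ)) ^ (-(1 / 2) : ℝ) ≤ (Real.sqrt i.1 / 8) ^ (-(1 / 2) : ℝ) := by
    apply Real.rpow_le_rpow_of_nonpos (by positivity) _ (by norm_num)
    refine hQ8.trans_eq ?_
    rw [hQ]
    push_cast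
    rfl
  have h4 : (Real.sqrt i.1 / 8) ^ (-(1 / 2) : ℝ) ≤ 3 * (i.1 : ℝ) ^ (-(1 / 5) : ℝ) := by
    rw [Real.div_rpow hsr.le (by norm_num), Real.sqrt_eq_rpow, ← Real.rpow_mul (by linarith)]
    have h5 : (8 : ℝ) ^ (-(1 / 2) : ℝ) = (Real.sqrt 8)⁻¹ := by
      rw [Real.rpow_neg (by norm_num), Real.sqrt_eq_rpow]
    have h6 : Real.sqrt 8 ≤ 3 := by
      rw [Real.sqrt_le_left (by norm_num)]
      norm_num
    rw [h5, div_inv_eq_mul, mul_comm]
    have h7 : (i.1 : ℝ) ^ ((1 / 2 : ℝ) * (-(1 / 2) : ℝ)) ≤ (i.1 : ℝ) ^ (-(1 / 5) : ℝ) :=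
      Real.rpow_le_rpow_of_exponent_le hr0 (by norm_num)
    exact mul_le_mul h6 h7 (by positivity) (by norm_num)
  have h5 : 0 ≤ (∏ p ∈ P, (p : ℝ)) ^ (-(1 / 2) : ℝ) :=
    Real.rpow_nonneg (prod_nonneg fun p _ => Nat.cast_nonneg p) _
  calc (if 3 ∈ P then (2 : ℝ) else 1) * (∏ p ∈ P, (p : ℝ)) ^ (-(1 / 2) : ℝ)
      ≤ 2 * (∏ p ∈ P, (p : ℝ)) ^ (-(1 / 2) : ℝ) := mul_le_mul_of_nonneg_right h2 h5
    _ ≤ 6 * (i.1 : ℝ) ^ (-(1 / 5) : ℝ) := by linarith

/-- Few `N` have a large common divisor with `r`. (`∑_{g ∣ r, g > √r} X / g`, `FD120.divisor_bound`.) -/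
theorem gcd_count : ∃ C : ℝ, 1 ≤ C ∧ ∀ X r : ℕ, 1 ≤ r →
    ((((Icc 1 X).filter fun N => Real.sqrt r < (Nat.gcd r N : ℝ)).card : ℕ) : ℝ) ≤ C * X * (r : ℝ) ^ (-(1 / 3) : ℝ) := by
  obtain ⟨C, hC, hdiv⟩ := FD120.divisor_bound (1 / 6) (by norm_num)
  refine ⟨max C 1, le_max_right _ _, fun X r hr => ?_⟩
  have hr0 : (1 : ℝ) ≤ r := by exact_mod_cast hr
  have hsr : 0 < Real.sqrt r := Real.sqrt_pos.2 (by linarith)
  have hsub : ((Icc 1 X).filter fun N => Real.sqrt r < (Nat.gcd r N : ℝ)) ⊆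
      (r.divisors.filter fun g : ℕ => Real.sqrt r < (g : ℝ)).biUnion
        fun g => (Ioc 0 X).filter fun N => g ∣ N := by
    intro N hN
    rw [mem_filter, mem_Icc] at hN
    rw [mem_biUnion]
    refine ⟨Nat.gcd r N, ?_, ?_⟩
    · rw [mem_filter, Nat.mem_divisors]
      exact ⟨⟨Nat.gcd_dvd_left r N, by omega⟩, hN.2⟩
    · rw [mem_filter, mem_Ioc]
      exact ⟨⟨by omega, hN.1.2⟩, Nat.gcd_dvd_right r N⟩
  have h1 : (((Icc 1 X).filter fun N => Real.sqrt r < (Nat.gcd r N : ℝ)).card : ℝ) ≤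
      ∑ g ∈ r.divisors.filter (fun g : ℕ => Real.sqrt r < (g : ℝ)),
        (((Ioc 0 X).filter fun N => g ∣ N).card : ℝ) := by
    have := (card_le_card hsub).trans card_biUnion_le
    exact_mod_cast this
  have h2 : ∀ g ∈ r.divisors.filter (fun g : ℕ => Real.sqrt r < (g : ℝ)),
      (((Ioc 0 X).filter fun N => g ∣ N).card : ℝ) ≤ X / Real.sqrt r := by
    intro g hg
    rw [Nat.Ioc_filter_dvd_card_eq_div]
    have h3 := (mem_filter.1 hg).2
    refine Nat.cast_div_le.trans ?_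
    exact div_le_div_of_nonneg_left (Nat.cast_nonneg _) hsr h3.le
  have h3 : ((r.divisors.filter (fun g : ℕ => Real.sqrt r < (g : ℝ))).card : ℝ) ≤ C * (r : ℝ) ^ (1 / 6 : ℝ) := by
    refine le_trans ?_ (hdiv r (by omega))
    exact_mod_cast card_filter_le _ _
  refine (h1.trans (sum_le_sum h2)).trans ?_
  rw [sum_const, nsmul_eq_mul]
  have h4 : (X : ℝ) / Real.sqrt r = X * (r : ℝ) ^ (-(1 / 2) : ℝ) := by
    rw [Real.rpow_neg (by linarith), ← Real.sqrt_eq_rpow, div_eq_mul_inv]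
  rw [h4]
  have h5 : C * (r : ℝ) ^ (1 / 6 : ℝ) * ((X : ℝ) * (r : ℝ) ^ (-(1 / 2) : ℝ)) =
      C * X * (r : ℝ) ^ (-(1 / 3) : ℝ) := by
    have h6 : (r : ℝ) ^ (-(1 / 3) : ℝ) = (r : ℝ) ^ (1 / 6 : ℝ) * (r : ℝ) ^ (-(1 / 2) : ℝ) := by
      rw [← Real.rpow_add (by linarith)]
      norm_num
    rw [h6]
    ring
  refine (mul_le_mul_of_nonneg_right h3 (by positivity)).trans ?_
  rw [h5]
  have h7 : C ≤ max C 1 := le_max_left _ _
  have h8 : 0 ≤ (X : ℝ) * (r : ℝ) ^ (-(1 / 3) : ℝ) := by positivity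
  nlinarith

end Pool.Agent.M58
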