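import Pool.Agent.W_b58c63_m1.RG
import Pool.Agent.W_b58c63_m1.RK
import Pool.Agent.W_b58c63_m1.RE

/-!
# The coefficients of the Ramanujan kernel: bounds (helper68)
-/

set_option autoImplicit false

noncomputable section

open Finset

namespace Pool.Agent.M58

/-- The cut singular series. -/
def SS (z : ℝ) (N : ℕ) : ℝ := ∏ p ∈ PI 0 z, sg N p

/-- (`1 - gN N p = (1 - 1 / p) sg N p`.) -/
theorem VP_gN (z : ℝ) (N : ℕ) : VP (gN N) (PI 0 z) = VP (fun p => 1 / (p : ℝ)) (PI 0 z) * SS z N := by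
  unfold Wb58c63.VP SS
  rw [← Finset.prod_mul_distrib]
  refine Finset.prod_congr rfl fun p hp => ?_
  have h2 : (2 : ℝ) ≤ p := by exact_mod_cast (mem_PI.1 hp).1.two_le
  have h0 : (p : ℝ) ≠ 0 := by linarith
  have h1 : (p : ℝ) - 1 ≠ 0 := by linarith
  unfold gN sg
  split_ifs
  · field_simp
    ring
  · field_simp
    ring

/-- the local lower bound -/
def RH_h (p : ℕ) : ℝ := if p = 2 then 1 else 1 - 1 / ((p : ℝ) - 1) ^ 2

theorem RH_h_range {p : ℕ} (hp : p.Prime) : 3 / 4 ≤ RH_h p ∧ RH_h p ≤ 1 := by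
  unfold RH_h
  split_ifs with h
  · norm_num
  · have h3 : (3 : ℝ) ≤ p := by
      have h4 := hp.two_le
      have h5 : 3 ≤ p := by omega
      exact_mod_cast h5
    have h4 : (4 : ℝ) ≤ ((p : ℝ) - 1) ^ 2 := by nlinarith
    have h5 : 1 / ((p : ℝ) - 1) ^ 2 ≤ 1 / 4 := one_div_le_one_div_of_le (by norm_num) h4
    have h6 : 0 ≤ 1 / ((p : ℝ) - 1) ^ 2 := by positivity
    constructor <;> linarith

theorem RH_tele (M : ℕ) (hM : 2 ≤ M) :
    ∏ n ∈ Icc 3 M, (1 - 1 / ((n : ℝ) - 1) ^ 2) = M / (2 * ((M : ℝ) - 1)) := by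
  induction M, hM using Nat.le_induction with
  | base =>
    norm_num
  | succ M hM ih =>
    have hM2 : (2 : ℝ) ≤ M := by exact_mod_cast hM
    rw [Finset.prod_Icc_succ_top (by omega), ih]
    push_cast
    have h1 : (M : ℝ) ≠ 0 := by linarith
    have h2 : (M : ℝ) - 1 ≠ 0 := by linarith
    have h3 : (M : ℝ) + 1 - 1 = M := by ring
    rw [h3]
    field_simp
    ring

theorem RH_h_prod (F : Finset ℕ) (hF : ∀ p ∈ F, p.Prime) : 1 / 2 ≤ ∏ p ∈ F, RH_h p := by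
  classical
  obtain ⟨M, hM2, hM⟩ : ∃ M : ℕ, 2 ≤ M ∧ ∀ p ∈ F, p ≤ M :=
    ⟨F.sup id + 2, by omega, fun p hp => by
      have := Finset.le_sup (f := id) hp
      simp only [id] at this
      omega⟩
  have h1 : ∏ p ∈ F, RH_h p = ∏ p ∈ F.filter (fun p => p ≠ 2), (1 - 1 / ((p : ℝ) - 1) ^ 2) := by
    rw [Finset.prod_filter]
    refine Finset.prod_congr rfl fun p _ => ?_
    unfold RH_h
    by_cases h : p = 2
    · rw [if_pos h, if_neg (not_not.2 h)]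
    · rw [if_neg h, if_pos h]
  have h2 : ∏ n ∈ Icc 3 M, (1 - 1 / ((n : ℝ) - 1) ^ 2) ≤
      ∏ p ∈ F.filter (fun p => p ≠ 2), (1 - 1 / ((p : ℝ) - 1) ^ 2) := by
    apply SSmB_prod_sub
    · intro p hp
      rw [Finset.mem_filter] at hp
      have h3 := (hF p hp.1).two_le
      have h4 := hp.2
      rw [Finset.mem_Icc]
      exact ⟨by omega, hM p hp.1⟩
    · intro n hn
      rw [Finset.mem_Icc] at hn
      have h3 : (3 : ℝ) ≤ n := by exact_mod_cast hn.1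
      have h4 : (4 : ℝ) ≤ ((n : ℝ) - 1) ^ 2 := by nlinarith
      have h5 : 1 / ((n : ℝ) - 1) ^ 2 ≤ 1 / 4 := one_div_le_one_div_of_le (by norm_num) h4
      have h6 : 0 ≤ 1 / ((n : ℝ) - 1) ^ 2 := by positivity
      constructor <;> linarith
  rw [RH_tele M hM2] at h2
  rw [h1]
  refine le_trans ?_ h2
  have h3 : (2 : ℝ) ≤ M := by exact_mod_cast hM2
  rw [div_le_div_iff₀ (by norm_num) (by linarith)]
  linarith

theorem RH_not_dvd {N p : ℕ} (hN : Even N) (hp : p.Prime) (h : ¬ p ∣ N) : p ≠ 2 ∧ (3 : ℝ) ≤ p := by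
  have h1 : p ≠ 2 := by
    rintro rfl
    exact h hN.two_dvd
  have h2 := hp.two_le
  have h3 : 3 ≤ p := by omega
  exact ⟨h1, by exact_mod_cast h3⟩

theorem RH_sg_dvd {N p : ℕ} (hp : p.Prime) (h : p ∣ N) : sg N p = 1 + 1 / ((p : ℝ) - 1) := by
  have h2 : (2 : ℝ) ≤ p := by exact_mod_cast hp.two_le
  have h1 : (p : ℝ) - 1 ≠ 0 := by linarith
  unfold sg
  rw [if_pos h]
  field_simp
  ring

theorem RH_sg_ndvd {N p : ℕ} (hN : Even N) (hp : p.Prime) (h : ¬ p ∣ N) : sg N p = RH_h p := by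
  unfold sg RH_h
  rw [if_neg h, if_neg (RH_not_dvd hN hp h).1]

theorem RH_h_le {N p : ℕ} (hN : Even N) (hp : p.Prime) : RH_h p ≤ sg N p := by
  by_cases h : p ∣ N
  · rw [RH_sg_dvd hp h]
    have h2 : (2 : ℝ) ≤ p := by exact_mod_cast hp.two_le
    have h3 : 0 ≤ 1 / ((p : ℝ) - 1) := by
      apply div_nonneg zero_le_one
      linarith
    have := (RH_h_range hp).2
    linarith
  · rw [RH_sg_ndvd hN hp h]

theorem RH_sg_pos {N p : ℕ} (hN : Even N) (hp : p.Prime) : 0 < sg N p := by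
  have h1 := RH_h_le hN hp
  have h2 := (RH_h_range hp).1
  linarith

theorem RH_sg_le {N p : ℕ} (hp : p.Prime) : sg N p ≤ 1 + 1 / ((p : ℝ) - 1) := by
  by_cases h : p ∣ N
  · rw [RH_sg_dvd hp h]
  · have h2 : (2 : ℝ) ≤ p := by exact_mod_cast hp.two_le
    have h3 : 0 ≤ 1 / ((p : ℝ) - 1) := by
      apply div_nonneg zero_le_one
      linarith
    unfold sg
    rw [if_neg h]
    have h4 : 0 ≤ 1 / ((p : ℝ) - 1) ^ 2 := by positivity
    linarith

theorem RH_lower (F : Finset ℕ) (hF : ∀ p ∈ F, p.Prime) (N : ℕ) (hN : Even N) :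
    1 / 2 ≤ ∏ p ∈ F, sg N p := by
  refine (RH_h_prod F hF).trans (Finset.prod_le_prod (fun p hp => ?_) fun p hp => RH_h_le hN (hF p hp))
  have := (RH_h_range (hF p hp)).1
  linarith

theorem RH_abs (F : Finset ℕ) (hF : ∀ p ∈ F, p.Prime) (N : ℕ) (hN : Even N) :
    ∏ p ∈ F, (1 + |sg N p - 1|) ≤ 4 * ∏ p ∈ F, sg N p := by
  have h1 : ∀ p ∈ F, (1 + |sg N p - 1|) * RH_h p ^ 2 ≤ sg N p := by
    intro p hp
    have hr := RH_h_range (hF p hp)
    by_cases h : p ∣ N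
    · have h2 : (2 : ℝ) ≤ p := by exact_mod_cast (hF p hp).two_le
      have h3 : 0 ≤ 1 / ((p : ℝ) - 1) := by
        apply div_nonneg zero_le_one
        linarith
      have h4 := RH_sg_dvd (hF p hp) h
      have h5 : |sg N p - 1| = sg N p - 1 := abs_of_nonneg (by rw [h4]; linarith)
      rw [h5]
      have h6 := RH_sg_pos hN (hF p hp)
      have h7 : RH_h p ^ 2 ≤ 1 := pow_le_one₀ (by linarith [hr.1]) hr.2
      have h8 := mul_le_mul_of_nonneg_left h7 h6.le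
      linarith
    · rw [RH_sg_ndvd hN (hF p hp) h]
      have h5 : |RH_h p - 1| = 1 - RH_h p := by
        rw [abs_sub_comm]
        exact abs_of_nonneg (by linarith [hr.2])
      rw [h5]
      have h6 : (1 + (1 - RH_h p)) * RH_h p ≤ 1 := by nlinarith [sq_nonneg (RH_h p - 1)]
      have h7 : 0 < RH_h p := by linarith [hr.1]
      nlinarith
  have h2 : (∏ p ∈ F, (1 + |sg N p - 1|)) * (∏ p ∈ F, RH_h p) ^ 2 ≤ ∏ p ∈ F, sg N p := by
    rw [← Finset.prod_pow, ← Finset.prod_mul_distrib]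
    exact Finset.prod_le_prod (fun p _ => by positivity) h1
  have h3 := RH_h_prod F hF
  have h4 : 0 ≤ ∏ p ∈ F, (1 + |sg N p - 1|) := Finset.prod_nonneg fun p _ => by positivity
  nlinarith [mul_le_mul h3 h3 (by norm_num) (by linarith)]

theorem RH_upper : ∃ C : ℝ, 1 ≤ C ∧ ∀ (z : ℝ) (N : ℕ) (F : Finset ℕ), 2 ≤ z → F ⊆ PI 0 z → Even N →
    ∏ p ∈ F, sg N p ≤ C * Real.log z ∧ ∏ p ∈ F, (1 + 1 / ((p : ℝ) - 1)) ≤ C * Real.log z := by
  obtain ⟨C, hC, H⟩ := Pool.Agent.Wb58c63.mertens_two'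
  have hl2 : 0 < Real.log 2 := Real.log_pos (by norm_num)
  have hl2' : Real.log 2 ≤ 1 := by
    have := Real.log_two_lt_d9
    linarith
  refine ⟨Real.exp (C / Real.log 2) / Real.log 2, ?_, fun z N F hz hF hN => ?_⟩
  · rw [le_div_iff₀ hl2, one_mul]
    have h1 : 0 ≤ C / Real.log 2 := by positivity
    have h2 := Real.one_le_exp h1
    linarith
  have hlz : 0 < Real.log z := Real.log_pos (by linarith)
  have key : ∏ p ∈ F, (1 + 1 / ((p : ℝ) - 1)) ≤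
      Real.exp (C / Real.log 2) / Real.log 2 * Real.log z := by
    have h0 : ∀ p ∈ PI 0 z, 0 ≤ 1 / ((p : ℝ) - 1) := by
      intro p hp
      have h2 : (2 : ℝ) ≤ p := by exact_mod_cast (mem_PI.1 hp).1.two_le
      apply div_nonneg zero_le_one
      linarith
    have h1 : PI 0 z = PI 2 z := by
      ext p
      rw [mem_PI, mem_PI]
      constructor
      · rintro ⟨a, -, c⟩
        exact ⟨a, by exact_mod_cast a.two_le, c⟩
      · rintro ⟨a, -, c⟩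
        exact ⟨a, by positivity, c⟩
    have h3 : ∏ p ∈ F, (1 + 1 / ((p : ℝ) - 1)) ≤ Real.exp (∑ p ∈ F, 1 / ((p : ℝ) - 1)) := by
      rw [Real.exp_sum]
      refine Finset.prod_le_prod (fun p hp => ?_) (fun p _ => ?_)
      · have := h0 p (hF hp)
        linarith
      · have := Real.add_one_le_exp (1 / ((p : ℝ) - 1))
        linarith
    have h4 : ∑ p ∈ F, 1 / ((p : ℝ) - 1) ≤ ∑ p ∈ PI 2 z, 1 / ((p : ℝ) - 1) := by
      rw [← h1]
      exact Finset.sum_le_sum_of_subset_of_nonneg hF fun p hp _ => h0 p hp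
    have h5 := H 2 z le_rfl hz
    refine h3.trans ((Real.exp_le_exp.2 (h4.trans h5)).trans (le_of_eq ?_))
    rw [Real.exp_add, Real.exp_log (by positivity)]
    ring
  refine ⟨le_trans (Finset.prod_le_prod (fun p hp => (RH_sg_pos hN (mem_PI.1 (hF hp)).1).le)
    fun p hp => RH_sg_le (mem_PI.1 (hF hp)).1) key, key⟩

/-- (`∏ (1 - 1 / (p - 1) ^ 2) ≥ c` over `p ≥ 3`; for the upper bound `∏_{p ∣ N} p / (p - 1) ≤ C log Y`.) -/
theorem SS_bounds : ∃ c C : ℝ, 0 < c ∧ 1 ≤ C ∧ ∀ (z Y : ℝ) (N : ℕ), 3 ≤ Y → 2 ≤ z → z ≤ Y → Even N → 1 ≤ N →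
    (N : ℝ) ≤ Y ^ 2 → c ≤ SS z N ∧ SS z N ≤ C * Real.log Y := by
  obtain ⟨C, hC, H⟩ := RH_upper
  refine ⟨1 / 2, C, by norm_num, hC, fun z Y N hY hz hzY hN _ _ => ⟨?_, ?_⟩⟩
  · exact RH_lower _ (fun p hp => (mem_PI.1 hp).1) N hN
  · refine (H z N (PI 0 z) hz subset_rfl hN).1.trans ?_
    have h1 : Real.log z ≤ Real.log Y := Real.log_le_log (by linarith) hzY
    exact mul_le_mul_of_nonneg_left h1 (by linarith)

/-- squarefree integers as sets of primes -/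
theorem RH_bij (P R : ℕ) (z : ℝ) (hP : (P : ℝ) < z) (f : ℕ → ℝ) :
    ∑ k ∈ (Icc 1 P).filter (fun k => Squarefree k ∧ k.Coprime R), ∏ p ∈ k.primeFactors, f p =
      ∑ S ∈ ((PI 0 z).filter (fun p => ¬ p ∣ R)).powerset.filter (fun S => ∏ p ∈ S, p ≤ P),
        ∏ p ∈ S, f p := by
  refine Finset.sum_bij' (fun k _ => k.primeFactors) (fun S _ => ∏ p ∈ S, p) ?_ ?_ ?_ ?_ ?_
  · intro k hk
    rw [Finset.mem_filter, Finset.mem_Icc] at hk
    obtain ⟨⟨hk1, hkP⟩, hsq, hco⟩ := hk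
    rw [Finset.mem_filter, Finset.mem_powerset, Nat.prod_primeFactors_of_squarefree hsq]
    refine ⟨fun p hp => ?_, hkP⟩
    have hpp := Nat.prime_of_mem_primeFactors hp
    have hpk := Nat.dvd_of_mem_primeFactors hp
    rw [Finset.mem_filter, mem_PI]
    refine ⟨⟨hpp, Nat.cast_nonneg _, ?_⟩, fun hpR => ?_⟩
    · have h1 : p ≤ P := (Nat.le_of_dvd (by omega) hpk).trans hkP
      have h2 : (p : ℝ) ≤ P := by exact_mod_cast h1
      linarith
    · have h1 := Nat.Coprime.eq_one_of_dvd (Nat.Coprime.coprime_dvd_left hpk hco) hpR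
      exact hpp.one_lt.ne' h1
  · intro S hS
    rw [Finset.mem_filter, Finset.mem_powerset] at hS
    obtain ⟨hS1, hS2⟩ := hS
    have hpr : ∀ p ∈ S, p.Prime := fun p hp => (mem_PI.1 (Finset.mem_filter.1 (hS1 hp)).1).1
    rw [Finset.mem_filter, Finset.mem_Icc]
    refine ⟨⟨Nat.one_le_iff_ne_zero.2 (Finset.prod_ne_zero_iff.2 fun p hp => (hpr p hp).ne_zero), hS2⟩,
      ?_, ?_⟩
    · refine Finset.squarefree_prod_of_pairwise_isCoprime ?_ fun p hp => (hpr p hp).squarefree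
      intro p hp q hq hpq
      exact (Nat.coprime_iff_isRelPrime.1 ((Nat.coprime_primes (hpr p hp) (hpr q hq)).2 hpq))
    · refine Nat.Coprime.prod_left fun p hp => ?_
      exact (Nat.Prime.coprime_iff_not_dvd (hpr p hp)).2 (Finset.mem_filter.1 (hS1 hp)).2
  · intro k hk
    rw [Finset.mem_filter] at hk
    exact Nat.prod_primeFactors_of_squarefree hk.2.1
  · intro S hS
    rw [Finset.mem_filter, Finset.mem_powerset] at hS
    exact Nat.primeFactors_prod fun p hp => (mem_PI.1 (Finset.mem_filter.1 (hS.1 hp)).1).1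
  · intro k _
    rfl

theorem RH_omega (N : ℕ) (Y : ℝ) (hY : 3 ≤ Y) (hN : 1 ≤ N) (hNY : (N : ℝ) ≤ Y ^ 2) :
    (N.primeFactors.card : ℝ) ≤ 3 * Real.log Y := by
  have h1 : ∏ p ∈ N.primeFactors, 2 ≤ ∏ p ∈ N.primeFactors, p :=
    Finset.prod_le_prod (fun _ _ => by norm_num) fun p hp => (Nat.prime_of_mem_primeFactors hp).two_le
  rw [Finset.prod_const] at h1
  have h2 : ∏ p ∈ N.primeFactors, p ≤ N := Nat.le_of_dvd (by omega) (Nat.prod_primeFactors_dvd N)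
  have h3 : ((2 : ℝ)) ^ N.primeFactors.card ≤ Y ^ 2 := by
    have h4 : ((2 ^ N.primeFactors.card : ℕ) : ℝ) ≤ N := by exact_mod_cast h1.trans h2
    push_cast at h4
    exact h4.trans hNY
  have h5 := Real.log_le_log (by positivity) h3
  rw [Real.log_pow, Real.log_pow] at h5
  push_cast at h5
  have h6 := Real.log_two_gt_d9
  have h7 : 0 < Real.log Y := Real.log_pos (by linarith)
  have h8 : (N.primeFactors.card : ℝ) * 0.6931 ≤ N.primeFactors.card * Real.log 2 :=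
    mul_le_mul_of_nonneg_left (by linarith) (Nat.cast_nonneg _)
  nlinarith

theorem RH_sqrt_sum (N T : ℕ) (Y : ℝ) (hY : 3 ≤ Y) (hN : 1 ≤ N) (hNY : (N : ℝ) ≤ Y ^ 2) (hT : 1 ≤ T) :
    ∑ p ∈ N.primeFactors, 2 / √(p : ℝ) ≤ 2 * T + 6 * Real.log Y / √(T : ℝ) := by
  have hT0 : (0 : ℝ) < √(T : ℝ) := Real.sqrt_pos.2 (by exact_mod_cast hT)
  rw [← Finset.sum_filter_add_sum_filter_not N.primeFactors (fun p => p ≤ T)]
  have h1 : ∑ p ∈ N.primeFactors.filter (fun p => p ≤ T), 2 / √(p : ℝ) ≤ 2 * T := by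
    have h2 : ∀ p ∈ N.primeFactors.filter (fun p => p ≤ T), 2 / √(p : ℝ) ≤ 2 := by
      intro p hp
      have h3 := (Nat.prime_of_mem_primeFactors (Finset.mem_filter.1 hp).1).two_le
      have h4 : (1 : ℝ) ≤ √(p : ℝ) := by
        rw [Real.one_le_sqrt]
        exact_mod_cast (by omega : 1 ≤ p)
      rw [div_le_iff₀ (by linarith)]
      linarith
    refine (Finset.sum_le_card_nsmul _ _ _ h2).trans ?_
    have h5 : (N.primeFactors.filter (fun p => p ≤ T)).card ≤ T := by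
      have h6 : N.primeFactors.filter (fun p => p ≤ T) ⊆ Icc 1 T := by
        intro p hp
        rw [Finset.mem_filter] at hp
        rw [Finset.mem_Icc]
        exact ⟨(Nat.prime_of_mem_primeFactors hp.1).one_lt.le, hp.2⟩
      have := Finset.card_le_card h6
      rwa [Nat.card_Icc, Nat.add_sub_cancel] at this
    have h6 : ((N.primeFactors.filter (fun p => p ≤ T)).card : ℝ) ≤ T := by exact_mod_cast h5
    rw [nsmul_eq_mul]
    linarith
  have h2 : ∑ p ∈ N.primeFactors.filter (fun p => ¬ p ≤ T), 2 / √(p : ℝ) ≤ 6 * Real.log Y / √(T : ℝ) := by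
    have h2 : ∀ p ∈ N.primeFactors.filter (fun p => ¬ p ≤ T), 2 / √(p : ℝ) ≤ 2 / √(T : ℝ) := by
      intro p hp
      have h3 : (T : ℝ) ≤ p := by
        have := (Finset.mem_filter.1 hp).2
        exact_mod_cast (by omega : T ≤ p)
      exact div_le_div_of_nonneg_left (by norm_num) hT0 (Real.sqrt_le_sqrt h3)
    refine (Finset.sum_le_card_nsmul _ _ _ h2).trans ?_
    have h5 : ((N.primeFactors.filter (fun p => ¬ p ≤ T)).card : ℝ) ≤ 3 * Real.log Y := by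
      refine le_trans ?_ (RH_omega N Y hY hN hNY)
      exact_mod_cast Finset.card_le_card (Finset.filter_subset _ _)
    rw [nsmul_eq_mul, mul_div_assoc']
    exact div_le_div_of_nonneg_right (by linarith) hT0.le
  linarith

/-- the Rankin product -/
theorem RH_rankin : ∃ Z : ℝ, 0 ≤ Z ∧ ∀ (N T : ℕ) (Y : ℝ) (F : Finset ℕ), (∀ p ∈ F, p.Prime) → Even N →
    3 ≤ Y → 1 ≤ N → (N : ℝ) ≤ Y ^ 2 → 1 ≤ T →
      ∏ p ∈ F, (1 + √(p : ℝ) * |sg N p - 1|) ≤
        Real.exp (Z + 2 * T + 6 * Real.log Y / √(T : ℝ)) := by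
  have hsum : Summable (fun n : ℕ => 4 * (1 / (n : ℝ) ^ (3 / 2 : ℝ))) :=
    (Real.summable_one_div_nat_rpow.2 (by norm_num)).mul_left 4
  refine ⟨∑' n : ℕ, 4 * (1 / (n : ℝ) ^ (3 / 2 : ℝ)), tsum_nonneg fun n => by positivity, ?_⟩
  intro N T Y F hF hN hY hN1 hNY hT
  have h1 : ∏ p ∈ F, (1 + √(p : ℝ) * |sg N p - 1|) ≤
      Real.exp (∑ p ∈ F, √(p : ℝ) * |sg N p - 1|) := by
    rw [Real.exp_sum]
    refine Finset.prod_le_prod (fun p _ => by positivity) (fun p _ => ?_)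
    have := Real.add_one_le_exp (√(p : ℝ) * |sg N p - 1|)
    linarith
  refine h1.trans (Real.exp_le_exp.2 ?_)
  have h2 : ∀ p ∈ F, √(p : ℝ) * |sg N p - 1| ≤
      4 * (1 / (p : ℝ) ^ (3 / 2 : ℝ)) + (if p ∣ N then 2 / √(p : ℝ) else 0) := by
    intro p hp
    have hpp := hF p hp
    have h2 : (2 : ℝ) ≤ p := by exact_mod_cast hpp.two_le
    have hs : 0 < √(p : ℝ) := Real.sqrt_pos.2 (by linarith)
    have hss : √(p : ℝ) * √(p : ℝ) = p := Real.mul_self_sqrt (by linarith)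
    split_ifs with h
    · rw [RH_sg_dvd hpp h]
      have h3 : 0 ≤ 1 / ((p : ℝ) - 1) := div_nonneg zero_le_one (by linarith)
      have h4 : |1 + 1 / ((p : ℝ) - 1) - 1| = 1 / ((p : ℝ) - 1) := by
        rw [add_sub_cancel_left]
        exact abs_of_nonneg h3
      rw [h4]
      have h5 : √(p : ℝ) * (1 / ((p : ℝ) - 1)) ≤ 2 / √(p : ℝ) := by
        rw [mul_one_div, div_le_div_iff₀ (by linarith) hs, hss]
        linarith
      have h6 : 0 ≤ 4 * (1 / (p : ℝ) ^ (3 / 2 : ℝ)) := by positivity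
      linarith
    · have h3 := RH_not_dvd hN hpp h
      have h4 : |sg N p - 1| = 1 / ((p : ℝ) - 1) ^ 2 := by
        unfold sg
        rw [if_neg h]
        have h5 : 1 - 1 / ((p : ℝ) - 1) ^ 2 - 1 = -(1 / ((p : ℝ) - 1) ^ 2) := by ring
        rw [h5, abs_neg]
        exact abs_of_nonneg (by positivity)
      have h5 : (p : ℝ) ^ (3 / 2 : ℝ) = p * √(p : ℝ) := by
        rw [Real.sqrt_eq_rpow]
        nth_rewrite 2 [← Real.rpow_one (p : ℝ)]
        rw [← Real.rpow_add (by linarith)]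
        norm_num
      rw [h4, h5, add_zero, mul_one_div, mul_one_div, div_le_div_iff₀ (by nlinarith [h3.2]) (by positivity)]
      have h6 : √(p : ℝ) * (p * √(p : ℝ)) = (p : ℝ) ^ 2 := by
        calc √(p : ℝ) * (p * √(p : ℝ)) = p * (√(p : ℝ) * √(p : ℝ)) := by ring
          _ = (p : ℝ) ^ 2 := by rw [hss]; ring
      rw [h6]
      nlinarith
  refine (Finset.sum_le_sum h2).trans ?_
  rw [Finset.sum_add_distrib]
  have h3 : ∑ p ∈ F, 4 * (1 / (p : ℝ) ^ (3 / 2 : ℝ)) ≤ ∑' n : ℕ, 4 * (1 / (n : ℝ) ^ (3 / 2 : ℝ)) :=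
    hsum.sum_le_tsum F fun n _ => by positivity
  have h4 : ∑ p ∈ F, (if p ∣ N then 2 / √(p : ℝ) else 0) ≤ ∑ p ∈ N.primeFactors, 2 / √(p : ℝ) := by
    rw [← Finset.sum_filter]
    refine Finset.sum_le_sum_of_subset_of_nonneg (fun p hp => ?_) fun p _ _ => by positivity
    rw [Finset.mem_filter] at hp
    exact Nat.mem_primeFactors.2 ⟨hF p hp.1, hp.2, by omega⟩
  have h5 := RH_sqrt_sum N T Y hY hN1 hNY hT
  linarith

/-- The tail of the singular series (Rankin).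

Proof. `∑_{k > x} ∏ |sg N p - 1| ≤ x ^ (- 1 / 2) ∏_{p < z} (1 + √p |sg N p - 1|)`, where `|sg N p - 1| ≤ 2 / p` for `p ∣ N` and `≤ 4 / p ^ 2` otherwise
(`p ≥ 3`), and `∑_{p ∣ N} 2 / √p ≤ 2 T + 3 log Y / √T` for every `T`, since `N ≤ Y ^ 2` has at most `3 log Y` prime factors. -/
theorem SS_tail (δ : ℝ) (hδ : 0 < δ) (hδ1 : δ ≤ 1) : ∃ Y₀ : ℝ, 3 ≤ Y₀ ∧ ∀ (Y z : ℝ) (N R P : ℕ), Y₀ ≤ Y → 2 ≤ z →
    z ≤ Y → Even N → 1 ≤ N → (N : ℝ) ≤ Y ^ 2 → 1 ≤ R → Y ^ (δ / 2) ≤ P → (P : ℝ) < z →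
      |∑ k ∈ (Icc 1 P).filter (fun k => Squarefree k ∧ k.Coprime R), ∏ p ∈ k.primeFactors, (sg N p - 1) -
        ∏ p ∈ (PI 0 z).filter (fun p => ¬ p ∣ R), sg N p| ≤ Y ^ (-(δ / 5)) := by
  obtain ⟨Z, hZ, HZ⟩ := RH_rankin
  obtain ⟨T, hT⟩ := exists_nat_ge ((240 / δ) ^ 2 + 1)
  have hT1 : 1 ≤ T := by
    have h1 : (1 : ℝ) ≤ T := by nlinarith [sq_nonneg (240 / δ)]
    exact_mod_cast h1
  refine ⟨max 3 (Real.exp (40 * (Z + 2 * T) / δ)), le_max_left _ _, ?_⟩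
  intro Y z N R P hY hz hzY hN hN1 hNY hR hP hPz
  have hY3 : 3 ≤ Y := (le_max_left _ _).trans hY
  have hYe : Real.exp (40 * (Z + 2 * T) / δ) ≤ Y := (le_max_right _ _).trans hY
  have hY0 : 0 < Y := by linarith
  have hlY : 0 < Real.log Y := Real.log_pos (by linarith)
  rw [RH_bij P R z hPz]
  set A := (PI 0 z).filter (fun p => ¬ p ∣ R) with hA
  have hApr : ∀ p ∈ A, p.Prime := fun p hp => (mem_PI.1 (Finset.mem_filter.1 hp).1).1
  have h1 : ∏ p ∈ A, sg N p = ∑ S ∈ A.powerset, ∏ p ∈ S, (sg N p - 1) := by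
    rw [← Finset.prod_one_add]
    exact Finset.prod_congr rfl fun p _ => by ring
  have h2 : ∑ S ∈ A.powerset.filter (fun S => ∏ p ∈ S, p ≤ P), ∏ p ∈ S, (sg N p - 1) -
      ∏ p ∈ A, sg N p = -∑ S ∈ A.powerset.filter (fun S => ¬ ∏ p ∈ S, p ≤ P), ∏ p ∈ S, (sg N p - 1) := by
    rw [h1, ← Finset.sum_filter_add_sum_filter_not A.powerset (fun S => ∏ p ∈ S, p ≤ P)]
    ring
  have hYp : 0 < Y ^ (δ / 2) := Real.rpow_pos_of_pos hY0 _
  have hP0 : (0 : ℝ) < P := lt_of_lt_of_le hYp hP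
  have hsP : 0 < √(P : ℝ) := Real.sqrt_pos.2 hP0
  rw [h2, abs_neg]
  have h3 : |∑ S ∈ A.powerset.filter (fun S => ¬ ∏ p ∈ S, p ≤ P), ∏ p ∈ S, (sg N p - 1)| ≤
      (1 / √(P : ℝ)) * ∏ p ∈ A, (1 + √(p : ℝ) * |sg N p - 1|) := by
    refine (Finset.abs_sum_le_sum_abs _ _).trans ?_
    rw [Finset.prod_one_add, Finset.mul_sum]
    refine le_trans (Finset.sum_le_sum fun S hS => ?_)
      (Finset.sum_le_sum_of_subset_of_nonneg (Finset.filter_subset _ _) fun S _ _ => by positivity)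
    rw [Finset.mem_filter, Finset.mem_powerset, not_le] at hS
    rw [Finset.abs_prod, Finset.prod_mul_distrib, ← mul_assoc]
    have h4 : 1 ≤ 1 / √(P : ℝ) * ∏ p ∈ S, √(p : ℝ) := by
      have h5 : ∏ p ∈ S, √(p : ℝ) = √((∏ p ∈ S, p : ℕ) : ℝ) := by
        rw [Nat.cast_prod]
        clear hS
        induction S using Finset.induction_on with
        | empty => simp
        | insert a s ha ih =>
          rw [Finset.prod_insert ha, Finset.prod_insert ha, ih, Real.sqrt_mul (Nat.cast_nonneg _)]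
      rw [h5, one_div, ← div_eq_inv_mul, le_div_iff₀ hsP, one_mul]
      apply Real.sqrt_le_sqrt
      exact_mod_cast hS.2.le
    have h6 : 0 ≤ ∏ p ∈ S, |sg N p - 1| := Finset.prod_nonneg fun p _ => abs_nonneg _
    calc ∏ p ∈ S, |sg N p - 1| = 1 * ∏ p ∈ S, |sg N p - 1| := (one_mul _).symm
      _ ≤ _ := mul_le_mul_of_nonneg_right h4 h6
  have h4 := HZ N T Y A hApr hN hY3 hN1 hNY hT1
  have h5 : 1 / √(P : ℝ) ≤ Y ^ (-(δ / 4)) := by
    have h6 : √(Y ^ (δ / 2)) ≤ √(P : ℝ) := Real.sqrt_le_sqrt hP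
    have h7 : √(Y ^ (δ / 2)) = Y ^ (δ / 4) := by
      rw [Real.sqrt_eq_rpow, ← Real.rpow_mul hY0.le]
      congr 1
      ring
    rw [h7] at h6
    rw [Real.rpow_neg hY0.le, one_div]
    exact inv_anti₀ (Real.rpow_pos_of_pos hY0 _) h6
  have hsT : 240 / δ ≤ √(T : ℝ) := by
    apply Real.le_sqrt_of_sq_le
    linarith
  have hδ240 : 0 < 240 / δ := by positivity
  have hsT0 : 0 < √(T : ℝ) := by linarith
  have h6 : 6 * Real.log Y / √(T : ℝ) ≤ δ / 40 * Real.log Y := by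
    rw [div_le_iff₀ hsT0]
    have h7 : 6 ≤ δ / 40 * √(T : ℝ) := by
      have h8 : δ / 40 * (240 / δ) = 6 := by
        field_simp
        norm_num
      rw [← h8]
      exact mul_le_mul_of_nonneg_left hsT (by positivity)
    calc 6 * Real.log Y ≤ (δ / 40 * √(T : ℝ)) * Real.log Y := mul_le_mul_of_nonneg_right h7 hlY.le
      _ = δ / 40 * Real.log Y * √(T : ℝ) := by ring
  have h7 : Z + 2 * T ≤ δ / 40 * Real.log Y := by
    have h8 := (Real.le_log_iff_exp_le hY0).2 hYe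
    rw [div_le_iff₀ hδ] at h8
    linarith
  have h8 : ∏ p ∈ A, (1 + √(p : ℝ) * |sg N p - 1|) ≤ Y ^ (δ / 20) := by
    refine h4.trans ?_
    rw [Real.rpow_def_of_pos hY0]
    apply Real.exp_le_exp.2
    linarith
  refine h3.trans ?_
  have h9 : 0 ≤ ∏ p ∈ A, (1 + √(p : ℝ) * |sg N p - 1|) := Finset.prod_nonneg fun p _ => by positivity
  calc 1 / √(P : ℝ) * ∏ p ∈ A, (1 + √(p : ℝ) * |sg N p - 1|) ≤ Y ^ (-(δ / 4)) * Y ^ (δ / 20) :=
        mul_le_mul h5 h8 h9 (Real.rpow_pos_of_pos hY0 _).le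
    _ = Y ^ (-(δ / 5)) := by
        rw [← Real.rpow_add hY0]
        congr 1
        ring

theorem RH_split (z : ℝ) (N R : ℕ) (hR : 1 ≤ R) (h : ∀ p ∈ R.primeFactors, (p : ℝ) < z) :
    SS z N = (∏ p ∈ R.primeFactors, sg N p) * ∏ p ∈ (PI 0 z).filter (fun p => ¬ p ∣ R), sg N p := by
  unfold SS
  rw [← Finset.prod_filter_mul_prod_filter_not (PI 0 z) (fun p => p ∣ R) (fun p => sg N p)]
  congr 1
  refine Finset.prod_congr ?_ fun _ _ => rfl
  ext p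
  rw [Finset.mem_filter, mem_PI, Nat.mem_primeFactors]
  constructor
  · rintro ⟨⟨h1, -, -⟩, h2⟩
    exact ⟨h1, h2, by omega⟩
  · rintro ⟨h1, h2, h3⟩
    exact ⟨⟨h1, Nat.cast_nonneg _, h p (Nat.mem_primeFactors.2 ⟨h1, h2, h3⟩)⟩, h2⟩

theorem RH_Ksum (z : ℝ) (N R P : ℕ) (hN : Even N) (hP : (P : ℝ) < z) :
    |∑ k ∈ (Icc 1 P).filter (fun k => Squarefree k ∧ k.Coprime R), ∏ p ∈ k.primeFactors, (sg N p - 1)| ≤
      4 * ∏ p ∈ (PI 0 z).filter (fun p => ¬ p ∣ R), sg N p := by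
  rw [RH_bij P R z hP]
  set A := (PI 0 z).filter (fun p => ¬ p ∣ R) with hA
  have hApr : ∀ p ∈ A, p.Prime := fun p hp => (mem_PI.1 (Finset.mem_filter.1 hp).1).1
  refine le_trans ?_ (RH_abs A hApr N hN)
  refine (Finset.abs_sum_le_sum_abs _ _).trans ?_
  rw [Finset.prod_one_add]
  refine le_trans (Finset.sum_le_sum fun S _ => le_of_eq (Finset.abs_prod _ _))
    (Finset.sum_le_sum_of_subset_of_nonneg (Finset.filter_subset _ _) fun S _ _ =>
      Finset.prod_nonneg fun p _ => abs_nonneg _)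

theorem RH_norm (N R : ℕ) (i j : CC) (hR : 1 ≤ R) :
    ‖(R : ℂ) * rhoN N R i j‖ ≤ ∏ p ∈ R.primeFactors, sg N p := by
  rw [← upr_card N R hR]
  unfold rhoN
  rw [norm_mul, norm_mul, Complex.norm_natCast, norm_div, norm_one, norm_pow, Complex.norm_natCast]
  have h1 : ‖∑ x ∈ (range R).filter (fun x : ℕ => x.Coprime R ∧ ((N : ℤ) - x).natAbs.Coprime R),
      (starRingEnd ℂ) (i.2 (x : ZMod i.1)) * (starRingEnd ℂ) (j.2 (((N : ℤ) - x : ℤ) : ZMod j.1))‖ ≤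
      ((upr N R).card : ℝ) := by
    refine (norm_sum_le _ _).trans ?_
    unfold upr
    refine (Finset.sum_le_card_nsmul _ _ 1 fun x _ => ?_).trans (le_of_eq (by rw [nsmul_eq_mul, mul_one]))
    rw [norm_mul, RCLike.norm_conj, RCLike.norm_conj]
    have h2 := DirichletCharacter.norm_le_one i.2 (x : ZMod i.1)
    have h3 := DirichletCharacter.norm_le_one j.2 (((N : ℤ) - x : ℤ) : ZMod j.1)
    calc _ ≤ (1 : ℝ) * 1 := mul_le_mul h2 h3 (norm_nonneg _) zero_le_one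
      _ = 1 := one_mul 1
  have h2 : (R : ℝ) * (1 / (R.totient : ℝ) ^ 2 *
      ‖∑ x ∈ (range R).filter (fun x : ℕ => x.Coprime R ∧ ((N : ℤ) - x).natAbs.Coprime R),
      (starRingEnd ℂ) (i.2 (x : ZMod i.1)) * (starRingEnd ℂ) (j.2 (((N : ℤ) - x : ℤ) : ZMod j.1))‖) =
      (R : ℝ) * ‖∑ x ∈ (range R).filter (fun x : ℕ => x.Coprime R ∧ ((N : ℤ) - x).natAbs.Coprime R),
      (starRingEnd ℂ) (i.2 (x : ZMod i.1)) * (starRingEnd ℂ) (j.2 (((N : ℤ) - x : ℤ) : ZMod j.1))‖ /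
        (R.totient : ℝ) ^ 2 := by ring
  rw [h2]
  exact div_le_div_of_nonneg_right (mul_le_mul_of_nonneg_left h1 (Nat.cast_nonneg _)) (by positivity)

theorem RH_CR {P : ℕ} {i : CC} (hi : i ∈ CR P) : 1 ≤ i.1 ∧ i.1 ≤ P ∧ i.2.IsPrimitive := by
  classical
  unfold CR at hi
  rw [Finset.mem_sigma, Finset.mem_Icc] at hi
  refine ⟨hi.1.1, hi.1.2, ?_⟩
  have h1 := hi.2
  unfold Pool.Agent.Wb58c63.prim at h1
  exact (Finset.mem_filter.1 h1).2

theorem RH_floor {Y z δ : ℝ} (hY : 0 < Y) (h : Y ^ δ < z) : ((⌊Y ^ δ⌋₊ : ℕ) : ℝ) < z :=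
  lt_of_le_of_lt (Nat.floor_le (Real.rpow_pos_of_pos hY _).le) h

/-- the bound with the factor of the density -/
theorem RH_Kc (z : ℝ) (P N : ℕ) (i j : CC) (hN : Even N) (hP : (P : ℝ) < z) (hi : i ∈ CR P)
    (hj : j ∈ CR P) :
    ‖Kc P N i j‖ ≤ ‖(Nat.lcm i.1 j.1 : ℂ) * rhoN N (Nat.lcm i.1 j.1) i j‖ *
      (4 * ∏ p ∈ (PI 0 z).filter (fun p => ¬ p ∣ Nat.lcm i.1 j.1), sg N p) := by
  obtain ⟨hi1, hi2, -⟩ := RH_CR hi
  obtain ⟨hj1, hj2, -⟩ := RH_CR hj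
  rw [Kc_eq P N i j hi1 hj1, norm_mul, Complex.norm_real, Real.norm_eq_abs]
  refine mul_le_mul_of_nonneg_left (RH_Ksum z N _ _ hN ?_) (norm_nonneg _)
  have h1 : P / Nat.lcm i.1 j.1 ≤ P := Nat.div_le_self _ _
  have h2 : ((P / Nat.lcm i.1 j.1 : ℕ) : ℝ) ≤ P := by exact_mod_cast h1
  linarith

theorem RH_lcm_lt (z : ℝ) (P : ℕ) (i j : CC) (hP : (P : ℝ) < z) (hi : i ∈ CR P)
    (hj : j ∈ CR P) : 1 ≤ Nat.lcm i.1 j.1 ∧ ∀ p ∈ (Nat.lcm i.1 j.1).primeFactors, (p : ℝ) < z := by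
  obtain ⟨hi1, hi2, -⟩ := RH_CR hi
  obtain ⟨hj1, hj2, -⟩ := RH_CR hj
  refine ⟨Nat.lcm_pos (by omega) (by omega), fun p hp => ?_⟩
  have hpp := Nat.prime_of_mem_primeFactors hp
  have h1 : p ∣ i.1 * j.1 := (Nat.dvd_of_mem_primeFactors hp).trans (Nat.lcm_dvd_mul _ _)
  have h2 : p ≤ P := by
    rcases (Nat.Prime.dvd_mul hpp).1 h1 with h | h
    · exact (Nat.le_of_dvd (by omega) h).trans hi2
    · exact (Nat.le_of_dvd (by omega) h).trans hj2
  have h3 : (p : ℝ) ≤ P := by exact_mod_cast h2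
  linarith

theorem RH_rho_i0 (N : ℕ) : ((Nat.lcm i0.1 i0.1 : ℕ) : ℂ) * rhoN N (Nat.lcm i0.1 i0.1) i0 i0 = 1 := by
  have h1 : Nat.lcm i0.1 i0.1 = 1 := rfl
  rw [h1]
  unfold rhoN
  have h2 : (range 1).filter (fun x : ℕ => x.Coprime 1 ∧ ((N : ℤ) - x).natAbs.Coprime 1) = {0} := by
    ext x
    rw [Finset.mem_filter, Finset.mem_range, Finset.mem_singleton]
    constructor
    · rintro ⟨h, -⟩
      omega
    · rintro rfl
      exact ⟨by norm_num, Nat.coprime_one_right _, Nat.coprime_one_right _⟩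
  rw [h2, Finset.sum_singleton]
  have h3 : ∀ x : ZMod i0.1, i0.2 x = 1 := by
    intro x
    have h4 : x = 1 := Subsingleton.elim (α := ZMod 1) x 1
    rw [h4, map_one]
  rw [h3, h3, map_one, Nat.totient_one]
  norm_num

/-- large `Y` -/
theorem RH_large (δ : ℝ) (hδ : 0 < δ) : ∃ Y₀ : ℝ, 3 ≤ Y₀ ∧ ∀ Y : ℝ, Y₀ ≤ Y → 4 ≤ Y ^ (δ / 4) := by
  refine ⟨max 3 ((4 : ℝ) ^ (4 / δ)), le_max_left _ _, fun Y hY => ?_⟩
  have h1 : (4 : ℝ) ^ (4 / δ) ≤ Y := (le_max_right _ _).trans hY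
  have h2 := Real.rpow_le_rpow (by positivity) h1 (by positivity : 0 ≤ δ / 4)
  rw [← Real.rpow_mul (by norm_num)] at h2
  have h3 : 4 / δ * (δ / 4) = 1 := by field_simp
  rwa [h3, Real.rpow_one] at h2

/-- **The general bound and the trivial pair.** (`Kc_eq`; `|R rhoN N R i j| ≤ ∏_{p ∣ R} sg N p` by `upr_card`, and
`∑ ∏ |sg N p - 1| ≤ ∏_{p < z, p ∤ R} (1 + |sg N p - 1|) ≤ C ∏_{p < z, p ∤ R} sg N p`; `SS_tail` with `R = 1`.) -/
theorem Kc_gen : ∃ C : ℝ, 1 ≤ C ∧ ∀ δ : ℝ, 0 < δ → δ ≤ 1 → ∃ Y₀ : ℝ, 3 ≤ Y₀ ∧ ∀ (Y z : ℝ) (N : ℕ) (i j : CC),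
    Y₀ ≤ Y → Y ^ δ < z → z ≤ Y → Even N → 1 ≤ N → (N : ℝ) ≤ Y ^ 2 → i ∈ CR ⌊Y ^ δ⌋₊ → j ∈ CR ⌊Y ^ δ⌋₊ →
      ‖Kc ⌊Y ^ δ⌋₊ N i j‖ ≤ C * SS z N ∧ ‖Kc ⌊Y ^ δ⌋₊ N i0 i0 - (SS z N : ℂ)‖ ≤ Y ^ (-(δ / 8)) := by
  refine ⟨4, by norm_num, fun δ hδ hδ1 => ?_⟩
  obtain ⟨Y₁, hY₁, H₁⟩ := SS_tail δ hδ hδ1
  obtain ⟨Y₂, hY₂, H₂⟩ := RH_large δ hδ
  refine ⟨max Y₁ Y₂, hY₁.trans (le_max_left _ _), ?_⟩
  intro Y z N i j hY hz hzY hN hN1 hNY hi hj
  have hY1 : Y₁ ≤ Y := (le_max_left _ _).trans hY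
  have hY2 : Y₂ ≤ Y := (le_max_right _ _).trans hY
  have hY0 : 0 < Y := by linarith
  have hPz := RH_floor hY0 hz
  have h4 := H₂ Y hY2
  have hYδ : Y ^ (δ / 4) ≤ Y ^ δ := Real.rpow_le_rpow_of_exponent_le (by linarith) (by linarith)
  constructor
  · obtain ⟨hR, hRp⟩ := RH_lcm_lt z _ i j hPz hi hj
    refine (RH_Kc z _ N i j hN hPz hi hj).trans ?_
    rw [RH_split z N _ hR hRp]
    have h5 := RH_norm N (Nat.lcm i.1 j.1) i j hR
    have h6 : 0 ≤ ∏ p ∈ (PI 0 z).filter (fun p => ¬ p ∣ Nat.lcm i.1 j.1), sg N p :=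
      Finset.prod_nonneg fun p hp => (RH_sg_pos hN (mem_PI.1 (Finset.mem_filter.1 hp).1).1).le
    calc _ ≤ (∏ p ∈ (Nat.lcm i.1 j.1).primeFactors, sg N p) *
          (4 * ∏ p ∈ (PI 0 z).filter (fun p => ¬ p ∣ Nat.lcm i.1 j.1), sg N p) :=
          mul_le_mul_of_nonneg_right h5 (by positivity)
      _ = _ := by ring
  · rw [Kc_eq _ N i0 i0 le_rfl le_rfl, RH_rho_i0, one_mul]
    have h1 : Nat.lcm i0.1 i0.1 = 1 := rfl
    rw [h1, Nat.div_one, ← Complex.ofReal_sub, Complex.norm_real, Real.norm_eq_abs]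
    have h2 : Y ^ (δ / 2) ≤ ((⌊Y ^ δ⌋₊ : ℕ) : ℝ) := by
      have h5 : Y ^ δ = Y ^ (δ / 2) * Y ^ (δ / 2) := by
        rw [← Real.rpow_add hY0]
        congr 1
        ring
      have h6 : Y ^ (δ / 2) = Y ^ (δ / 4) * Y ^ (δ / 4) := by
        rw [← Real.rpow_add hY0]
        congr 1
        ring
      have h7 := Nat.sub_one_lt_floor (Y ^ δ)
      have h8 : 16 ≤ Y ^ (δ / 2) := by
        rw [h6]
        calc (16 : ℝ) = 4 * 4 := by norm_num
          _ ≤ _ := mul_le_mul h4 h4 (by norm_num) (by linarith)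
      have h9 : 16 * Y ^ (δ / 2) ≤ Y ^ (δ / 2) * Y ^ (δ / 2) :=
        mul_le_mul_of_nonneg_right h8 (by linarith)
      linarith
    have h3 := H₁ Y z N 1 ⌊Y ^ δ⌋₊ hY1 (by linarith) hzY hN hN1 hNY le_rfl h2 hPz
    have h5 : (PI 0 z).filter (fun p => ¬ p ∣ 1) = PI 0 z := by
      refine Finset.filter_true_of_mem fun p hp h => ?_
      exact (mem_PI.1 hp).1.one_lt.ne' (Nat.dvd_one.1 h)
    rw [h5] at h3
    refine h3.trans (Real.rpow_le_rpow_of_exponent_le (by linarith) (by linarith))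


theorem RH_moeb (n r : ℕ) (hr : 1 ≤ r) : (if n.Coprime r then (1 : ℂ) else 0) =
    ∑ e ∈ r.divisors, if e ∣ n then ((ArithmeticFunction.moebius e : ℤ) : ℂ) else 0 := by
  rw [← Finset.sum_filter]
  have h1 : r.divisors.filter (fun e => e ∣ n) = (Nat.gcd n r).divisors := by
    ext e
    rw [Finset.mem_filter, Nat.mem_divisors, Nat.mem_divisors, Nat.dvd_gcd_iff]
    constructor
    · rintro ⟨⟨h1, h2⟩, h3⟩
      exact ⟨⟨h3, h1⟩, Nat.gcd_ne_zero_right h2⟩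
    · rintro ⟨⟨h1, h2⟩, -⟩
      exact ⟨⟨h2, by omega⟩, h1⟩
  rw [h1]
  have h2 : ∑ e ∈ (Nat.gcd n r).divisors, (ArithmeticFunction.moebius e : ℤ) =
      if Nat.gcd n r = 1 then 1 else 0 := by
    rw [← ArithmeticFunction.coe_mul_zeta_apply, ArithmeticFunction.moebius_mul_coe_zeta,
      ArithmeticFunction.one_apply]
  have h3 : ∑ e ∈ (Nat.gcd n r).divisors, ((ArithmeticFunction.moebius e : ℤ) : ℂ) =
      ((∑ e ∈ (Nat.gcd n r).divisors, (ArithmeticFunction.moebius e : ℤ) : ℤ) : ℂ) := by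
    rw [Int.cast_sum]
  rw [h3, h2]
  unfold Nat.Coprime
  split_ifs <;> norm_num

/-- the sum of a primitive character over a proper residue class vanishes -/
theorem RH_class {r : ℕ} [NeZero r] (χ : DirichletCharacter ℂ r) (hχ : χ.IsPrimitive) (c : ZMod r)
    (e : ℕ) (he : e ∣ r) (her : e < r) : ∑ x : ZMod r, (if e ∣ (c - x).val then χ x else 0) = 0 := by
  classical
  have h1 : ¬ DirichletCharacter.FactorsThrough χ e := by
    intro h
    have h2 : χ.conductor ≤ e := Nat.sInf_le ((DirichletCharacter.mem_conductorSet_iff χ).2 h)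
    have h3 : χ.conductor = r := (DirichletCharacter.isPrimitive_def χ).1 hχ
    omega
  rw [DirichletCharacter.factorsThrough_iff_ker_unitsMap he, SetLike.not_le_iff_exists] at h1
  obtain ⟨u, hu1, hu2⟩ := h1
  rw [MonoidHom.mem_ker] at hu1 hu2
  have hu3 : ZMod.castHom he (ZMod e) (u : ZMod r) = 1 := by
    have h2 : ((ZMod.unitsMap he u : (ZMod e)ˣ) : ZMod e) = 1 := by rw [hu1, Units.val_one]
    rw [ZMod.castHom_apply]
    exact h2
  have hu4 : χ (u : ZMod r) ≠ 1 := by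
    intro h
    apply hu2
    ext
    rw [MulChar.coe_toUnitHom, h, Units.val_one]
  have hcond : ∀ x : ZMod r, e ∣ (c - x).val ↔
      ZMod.castHom he (ZMod e) x = ZMod.castHom he (ZMod e) c := by
    intro x
    rw [← ZMod.natCast_eq_zero_iff]
    have h2 : (((c - x).val : ℕ) : ZMod e) = ZMod.castHom he (ZMod e) (c - x) := by
      rw [ZMod.castHom_apply, ZMod.natCast_val]
    rw [h2, map_sub, sub_eq_zero]
    exact eq_comm
  set S := ∑ x : ZMod r, (if e ∣ (c - x).val then χ x else 0) with hS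
  have h2 : χ (u : ZMod r) * S = S := by
    rw [hS, Finset.mul_sum]
    refine Fintype.sum_equiv (Units.mulLeft u) _ _ fun x => ?_
    have h3 : (Units.mulLeft u) x = (u : ZMod r) * x := rfl
    rw [h3]
    have h4 : (e ∣ (c - (u : ZMod r) * x).val) ↔ (e ∣ (c - x).val) := by
      rw [hcond, hcond, map_mul, hu3, one_mul]
    by_cases h : e ∣ (c - x).val
    · rw [if_pos h, if_pos (h4.2 h), map_mul]
    · rw [if_neg h, if_neg (fun h5 => h (h4.1 h5)), mul_zero]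
  have h3 : (χ (u : ZMod r) - 1) * S = 0 := by
    rw [sub_mul, h2, one_mul, sub_self]
  rcases mul_eq_zero.1 h3 with h | h
  · exact absurd (sub_eq_zero.1 h) hu4
  · exact h

theorem RH_unit {r : ℕ} [NeZero r] (x : ZMod r) : IsUnit x ↔ x.val.Coprime r := by
  rw [← ZMod.isUnit_iff_coprime, ZMod.natCast_zmod_val]

open Classical in
theorem RH_prim {r : ℕ} [NeZero r] (χ : DirichletCharacter ℂ r) (hχ : χ.IsPrimitive) (c : ZMod r) :
    ‖∑ x : ZMod r, (if IsUnit (c - x) then χ x else 0)‖ ≤ 1 := by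
  have hr : 1 ≤ r := Nat.pos_of_ne_zero (NeZero.ne r)
  have h1 : ∑ x : ZMod r, (if IsUnit (c - x) then χ x else 0) =
      ∑ e ∈ r.divisors, ((ArithmeticFunction.moebius e : ℤ) : ℂ) *
        ∑ x : ZMod r, (if e ∣ (c - x).val then χ x else 0) := by
    have h2 : ∀ x : ZMod r, (if IsUnit (c - x) then χ x else 0) =
        ∑ e ∈ r.divisors, ((ArithmeticFunction.moebius e : ℤ) : ℂ) *
          (if e ∣ (c - x).val then χ x else 0) := by
      intro x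
      have h3 : (if IsUnit (c - x) then χ x else 0) =
          (if (c - x).val.Coprime r then (1 : ℂ) else 0) * χ x := by
        by_cases h : IsUnit (c - x)
        · rw [if_pos h, if_pos ((RH_unit _).1 h), one_mul]
        · rw [if_neg h, if_neg (fun h5 => h ((RH_unit _).2 h5)), zero_mul]
      rw [h3, RH_moeb _ r hr, Finset.sum_mul]
      refine Finset.sum_congr rfl fun e _ => ?_
      split_ifs
      · rfl
      · rw [zero_mul, mul_zero]
    rw [Finset.sum_congr rfl fun x _ => h2 x, Finset.sum_comm]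
    exact Finset.sum_congr rfl fun e _ => (Finset.mul_sum _ _ _).symm
  rw [h1, Finset.sum_eq_single_of_mem r (Nat.mem_divisors_self r (by omega))]
  · have h2 : ∑ x : ZMod r, (if r ∣ (c - x).val then χ x else 0) = χ c := by
      rw [Finset.sum_eq_single c]
      · rw [sub_self, ZMod.val_zero, if_pos (dvd_zero r)]
      · intro x _ hx
        rw [if_neg]
        intro h
        have h3 : (c - x).val = 0 := Nat.eq_zero_of_dvd_of_lt h (ZMod.val_lt _)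
        rw [ZMod.val_eq_zero, sub_eq_zero] at h3
        exact hx h3.symm
      · intro h
        exact absurd (Finset.mem_univ c) h
    rw [h2, norm_mul]
    have h3 : ‖((ArithmeticFunction.moebius r : ℤ) : ℂ)‖ ≤ 1 := by
      rw [Complex.norm_intCast]
      have := ArithmeticFunction.abs_moebius_le_one (n := r)
      exact_mod_cast this
    have h4 := DirichletCharacter.norm_le_one χ c
    calc _ ≤ (1 : ℝ) * 1 := mul_le_mul h3 h4 (norm_nonneg _) zero_le_one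
      _ = 1 := one_mul 1
  · intro e he her
    have h2 := Nat.divisor_le he
    rw [RH_class χ hχ c e (Nat.dvd_of_mem_divisors he) (by omega), mul_zero]

theorem RH_toZ {r : ℕ} [NeZero r] (f : ZMod r → ℂ) : ∑ x ∈ range r, f (x : ZMod r) = ∑ a : ZMod r, f a := by
  have h := Pool.Agent.Wb58c63.CharSum_bij f 0
  rw [zero_add] at h
  rw [← h, Finset.range_eq_Ico]

theorem RH_cop {r : ℕ} [NeZero r] (M : ℤ) : M.natAbs.Coprime r ↔ IsUnit ((M : ℤ) : ZMod r) := by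
  rw [ZMod.coe_int_isUnit_iff_isCoprime, Int.isCoprime_iff_gcd_eq_one, Int.gcd_comm]
  unfold Nat.Coprime Int.gcd
  rw [Int.natAbs_natCast]

theorem RH_i0 (x : ZMod i0.1) : i0.2 x = 1 := by
  have h4 : x = 1 := Subsingleton.elim (α := ZMod 1) x 1
  rw [h4, map_one]

/-- the two sums with one trivial character -/
theorem RH_one_sum (N : ℕ) (i : CC) (hi : i.2.IsPrimitive) (h1 : 1 ≤ i.1) :
    ‖rhoN N i.1 i0 i‖ ≤ 1 / (i.1.totient : ℝ) ^ 2 ∧ ‖rhoN N i.1 i i0‖ ≤ 1 / (i.1.totient : ℝ) ^ 2 := by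
  classical
  obtain ⟨r, χ⟩ := i
  simp only at hi h1 ⊢
  have : NeZero r := ⟨by omega⟩
  have hc : ∀ x : ℕ, (x.Coprime r ∧ ((N : ℤ) - x).natAbs.Coprime r) ↔
      (IsUnit (x : ZMod r) ∧ IsUnit ((N : ZMod r) - x)) := by
    intro x
    rw [RH_cop, ZMod.isUnit_iff_coprime]
    push_cast
    exact Iff.rfl
  have key : ∀ (i j : CC) (T : ℂ), ∑ x ∈ (range r).filter (fun x : ℕ => x.Coprime r ∧
      ((N : ℤ) - x).natAbs.Coprime r), (starRingEnd ℂ) (i.2 (x : ZMod i.1)) *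
        (starRingEnd ℂ) (j.2 (((N : ℤ) - x : ℤ) : ZMod j.1)) = T → ‖T‖ ≤ 1 →
      ‖rhoN N r i j‖ ≤ 1 / (r.totient : ℝ) ^ 2 := by
    intro i j T hT hT1
    unfold rhoN
    rw [hT, norm_mul, norm_div, norm_one, norm_pow, Complex.norm_natCast]
    calc 1 / (r.totient : ℝ) ^ 2 * ‖T‖ ≤ 1 / (r.totient : ℝ) ^ 2 * 1 :=
          mul_le_mul_of_nonneg_left hT1 (by positivity)
      _ = _ := mul_one _
  constructor
  · refine key _ _ ((starRingEnd ℂ) (∑ x : ZMod r, (if IsUnit ((N : ZMod r) - x) then χ x else 0)))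
      ?_ (le_trans (le_of_eq (RCLike.norm_conj _)) (RH_prim χ hi (N : ZMod r)))
    · rw [Finset.sum_filter, map_sum]
      have h2 : ∀ x ∈ range r, (if (x.Coprime r ∧ ((N : ℤ) - x).natAbs.Coprime r) then
          (starRingEnd ℂ) (i0.2 (x : ZMod i0.1)) *
            (starRingEnd ℂ) (χ (((N : ℤ) - x : ℤ) : ZMod r)) else 0) =
          (fun y : ZMod r => if IsUnit y then (starRingEnd ℂ) (χ ((N : ZMod r) - y)) else 0)
            (x : ZMod r) := by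
        intro x _
        simp only
        rw [RH_i0, map_one, one_mul]
        have e : (((N : ℤ) - x : ℤ) : ZMod r) = (N : ZMod r) - x := by push_cast; ring
        rw [e]
        by_cases hx : IsUnit (x : ZMod r)
        · by_cases hy : IsUnit ((N : ZMod r) - x)
          · rw [if_pos ((hc x).2 ⟨hx, hy⟩), if_pos hx]
          · rw [if_neg (fun h => hy ((hc x).1 h).2), if_pos hx, χ.map_nonunit hy, map_zero]
        · rw [if_neg (fun h => hx ((hc x).1 h).1), if_neg hx]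
      refine (Finset.sum_congr rfl h2).trans ((RH_toZ (fun y : ZMod r =>
        if IsUnit y then (starRingEnd ℂ) (χ ((N : ZMod r) - y)) else 0)).trans ?_)
      refine Fintype.sum_equiv (Equiv.subLeft (N : ZMod r)) _ _ fun y => ?_
      rw [Equiv.subLeft_apply, sub_sub_cancel]
      split_ifs
      · rfl
      · rw [map_zero]
  · refine key _ _ ((starRingEnd ℂ) (∑ x : ZMod r, (if IsUnit ((N : ZMod r) - x) then χ x else 0)))
      ?_ (le_trans (le_of_eq (RCLike.norm_conj _)) (RH_prim χ hi (N : ZMod r)))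
    · rw [Finset.sum_filter, map_sum]
      have h2 : ∀ x ∈ range r, (if (x.Coprime r ∧ ((N : ℤ) - x).natAbs.Coprime r) then
          (starRingEnd ℂ) (χ (x : ZMod r)) *
            (starRingEnd ℂ) (i0.2 (((N : ℤ) - x : ℤ) : ZMod i0.1)) else 0) =
          (fun y : ZMod r => (starRingEnd ℂ) (if IsUnit ((N : ZMod r) - y) then χ y else 0))
            (x : ZMod r) := by
        intro x _
        simp only
        rw [RH_i0, map_one, mul_one]
        by_cases hy : IsUnit ((N : ZMod r) - x)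
        · by_cases hx : IsUnit (x : ZMod r)
          · rw [if_pos ((hc x).2 ⟨hx, hy⟩), if_pos hy]
          · rw [if_neg (fun h => hx ((hc x).1 h).1), if_pos hy, χ.map_nonunit hx, map_zero]
        · rw [if_neg (fun h => hy ((hc x).1 h).2), if_neg hy, map_zero]
      exact (Finset.sum_congr rfl h2).trans (RH_toZ (fun y : ZMod r =>
        (starRingEnd ℂ) (if IsUnit ((N : ZMod r) - y) then χ y else 0)))


theorem RH_big (c ε : ℝ) (hε : 0 < ε) : ∃ Y₀ : ℝ, 3 ≤ Y₀ ∧ ∀ Y : ℝ, Y₀ ≤ Y → c ≤ Y ^ ε := by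
  refine ⟨max 3 ((max c 1) ^ (1 / ε)), le_max_left _ _, fun Y hY => ?_⟩
  have h1 : (max c 1) ^ (1 / ε) ≤ Y := (le_max_right _ _).trans hY
  have hc : 0 < max c 1 := lt_of_lt_of_le one_pos (le_max_right _ _)
  have h2 := Real.rpow_le_rpow (Real.rpow_pos_of_pos hc _).le h1 hε.le
  rw [← Real.rpow_mul hc.le] at h2
  have h3 : 1 / ε * ε = 1 := by field_simp
  rw [h3, Real.rpow_one] at h2
  exact (le_max_left _ _).trans h2

theorem RH_phi : ∃ C : ℝ, 1 ≤ C ∧ ∀ r : ℕ, 1 ≤ r →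
    (r : ℝ) * (1 / (r.totient : ℝ) ^ 2) ≤ C * (r : ℝ) ^ (-(1 / 2) : ℝ) := by
  obtain ⟨C, hC, H⟩ := RH_upper
  refine ⟨64 * C ^ 2, by nlinarith, fun r hr => ?_⟩
  have hr1 : (1 : ℝ) ≤ r := by exact_mod_cast hr
  have hr0 : (0 : ℝ) < r := by linarith
  have hφ : (0 : ℝ) < r.totient := by exact_mod_cast Nat.totient_pos.2 (by omega)
  have h1 : (r : ℝ) / r.totient = ∏ p ∈ r.primeFactors, (1 + 1 / ((p : ℝ) - 1)) := by
    have h2 := SSmB_phi r hr
    have h3 : (∏ p ∈ r.primeFactors, (1 + 1 / ((p : ℝ) - 1))) *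
        ∏ p ∈ r.primeFactors, (1 - 1 / (p : ℝ)) = 1 := by
      rw [← Finset.prod_mul_distrib]
      refine Finset.prod_eq_one fun p hp => ?_
      have h2 : (2 : ℝ) ≤ p := by exact_mod_cast (Nat.prime_of_mem_primeFactors hp).two_le
      have h0 : (p : ℝ) ≠ 0 := by linarith
      have h1 : (p : ℝ) - 1 ≠ 0 := by linarith
      field_simp
      ring
    rw [← h2] at h3
    rw [div_eq_iff hφ.ne']
    have h4 : (r.totient / r : ℝ) * r = r.totient := by field_simp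
    calc (r : ℝ) = ((∏ p ∈ r.primeFactors, (1 + 1 / ((p : ℝ) - 1))) * (r.totient / r : ℝ)) * r := by
          rw [h3, one_mul]
      _ = (∏ p ∈ r.primeFactors, (1 + 1 / ((p : ℝ) - 1))) * ((r.totient / r : ℝ) * r) := by ring
      _ = _ := by rw [h4]
  have h2 : (r : ℝ) / r.totient ≤ C * Real.log (r + 1) := by
    rw [h1]
    refine (H ((r : ℝ) + 1) 0 r.primeFactors (by linarith) ?_ (by decide)).2
    intro p hp
    rw [mem_PI]
    refine ⟨Nat.prime_of_mem_primeFactors hp, Nat.cast_nonneg _, ?_⟩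
    have h3 : p ≤ r := Nat.le_of_dvd (by omega) (Nat.dvd_of_mem_primeFactors hp)
    have h4 : (p : ℝ) ≤ r := by exact_mod_cast h3
    linarith
  have h3 : Real.log (r + 1) ≤ 8 * (r : ℝ) ^ (1 / 4 : ℝ) := by
    have h4 := Real.log_le_rpow_div (x := (r : ℝ) + 1) (ε := 1 / 4) (by linarith) (by norm_num)
    have h5 : ((r : ℝ) + 1) ^ (1 / 4 : ℝ) ≤ (16 * (r : ℝ)) ^ (1 / 4 : ℝ) :=
      Real.rpow_le_rpow (by linarith) (by linarith) (by norm_num)
    have h6 : (16 * (r : ℝ)) ^ (1 / 4 : ℝ) = 2 * (r : ℝ) ^ (1 / 4 : ℝ) := by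
      rw [Real.mul_rpow (by norm_num) hr0.le]
      congr 1
      have h7 : (16 : ℝ) = 2 ^ (4 : ℝ) := by norm_num
      rw [h7, ← Real.rpow_mul (by norm_num)]
      norm_num
    rw [h6] at h5
    have h7 : ((r : ℝ) + 1) ^ (1 / 4 : ℝ) / (1 / 4) = 4 * ((r : ℝ) + 1) ^ (1 / 4 : ℝ) := by ring
    rw [h7] at h4
    linarith
  have h4 : (r : ℝ) / r.totient ≤ 8 * C * (r : ℝ) ^ (1 / 4 : ℝ) := by
    refine h2.trans ?_
    calc C * Real.log (r + 1) ≤ C * (8 * (r : ℝ) ^ (1 / 4 : ℝ)) :=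
          mul_le_mul_of_nonneg_left h3 (by linarith)
      _ = _ := by ring
  have h5 : (r : ℝ) * (1 / (r.totient : ℝ) ^ 2) = ((r : ℝ) / r.totient) ^ 2 * (1 / r) := by
    field_simp
  have h6 : ((r : ℝ) / r.totient) ^ 2 ≤ (8 * C * (r : ℝ) ^ (1 / 4 : ℝ)) ^ 2 :=
    pow_le_pow_left₀ (by positivity) h4 2
  have h7 : ((r : ℝ) ^ (1 / 4 : ℝ)) ^ 2 * (1 / r) = (r : ℝ) ^ (-(1 / 2) : ℝ) := by
    have e1 : (1 : ℝ) / r = (r : ℝ) ^ (-1 : ℝ) := by rw [Real.rpow_neg_one, one_div]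
    rw [e1, ← Real.rpow_natCast, ← Real.rpow_mul hr0.le, ← Real.rpow_add hr0]
    norm_num
  rw [h5]
  calc ((r : ℝ) / r.totient) ^ 2 * (1 / r) ≤ (8 * C * (r : ℝ) ^ (1 / 4 : ℝ)) ^ 2 * (1 / r) :=
        mul_le_mul_of_nonneg_right h6 (by positivity)
    _ = 64 * C ^ 2 * (((r : ℝ) ^ (1 / 4 : ℝ)) ^ 2 * (1 / r)) := by ring
    _ = _ := by rw [h7]

/-- **One trivial character.** (For `j ≠ i0` primitive modulo `r` the sum in `rhoN N r i0 j` is `μ (r) conj χ (N)`: insert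
`∑_{e ∣ (x, r)} μ (e)`; the sum of a primitive character over `y ≡ N (mod e)`, `e` a proper divisor of `r`, vanishes. So
`|r rhoN| ≤ r / φ(r) ^ 2 ≤ C r ^ (- 1 / 2)`.) -/
theorem Kc_one : ∃ C : ℝ, 1 ≤ C ∧ ∀ δ : ℝ, 0 < δ → δ ≤ 1 → ∃ Y₀ : ℝ, 3 ≤ Y₀ ∧ ∀ (Y z : ℝ) (N : ℕ) (i : CC),
    Y₀ ≤ Y → Y ^ δ < z → z ≤ Y → Even N → 1 ≤ N → (N : ℝ) ≤ Y ^ 2 → i ∈ CR ⌊Y ^ δ⌋₊ → i ≠ i0 →
      ‖Kc ⌊Y ^ δ⌋₊ N i0 i‖ ≤ C * SS z N * (i.1 : ℝ) ^ (-(1 / 2) : ℝ) ∧
      ‖Kc ⌊Y ^ δ⌋₊ N i i0‖ ≤ C * SS z N * (i.1 : ℝ) ^ (-(1 / 2) : ℝ) := by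
  obtain ⟨C, hC, H⟩ := RH_phi
  refine ⟨8 * C, by linarith, fun δ hδ hδ1 => ⟨3, le_rfl, ?_⟩⟩
  intro Y z N i hY hz hzY hN hN1 hNY hi _
  have hY0 : 0 < Y := by linarith
  have hPz := RH_floor hY0 hz
  obtain ⟨h1, h2, h3⟩ := RH_CR hi
  have hi0 : i0 ∈ CR ⌊Y ^ δ⌋₊ := i0_mem _ (h1.trans h2)
  obtain ⟨hs1, hs2⟩ := RH_one_sum N i h3 h1
  have hr := H i.1 h1
  have hr1 : (1 : ℝ) ≤ i.1 := by exact_mod_cast h1
  have hpw : 0 < (i.1 : ℝ) ^ (-(1 / 2) : ℝ) := Real.rpow_pos_of_pos (by linarith) _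
  have key : ∀ W : ℂ, ‖W‖ ≤ 1 / (i.1.totient : ℝ) ^ 2 →
      ‖(i.1 : ℂ) * W‖ * (4 * ∏ p ∈ (PI 0 z).filter (fun p => ¬ p ∣ i.1), sg N p) ≤
        8 * C * SS z N * (i.1 : ℝ) ^ (-(1 / 2) : ℝ) := by
    intro W hW
    have h4 : ‖(i.1 : ℂ) * W‖ ≤ C * (i.1 : ℝ) ^ (-(1 / 2) : ℝ) := by
      rw [norm_mul, Complex.norm_natCast]
      exact (mul_le_mul_of_nonneg_left hW (Nat.cast_nonneg _)).trans hr
    have h5 := RH_split z N i.1 h1 (fun p hp => by
      have h6 : p ≤ i.1 := Nat.le_of_dvd (by omega) (Nat.dvd_of_mem_primeFactors hp)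
      have h7 : (p : ℝ) ≤ ((⌊Y ^ δ⌋₊ : ℕ) : ℝ) := by exact_mod_cast h6.trans h2
      linarith)
    have h6 := RH_lower i.1.primeFactors (fun p hp => Nat.prime_of_mem_primeFactors hp) N hN
    have h7 : 0 ≤ ∏ p ∈ (PI 0 z).filter (fun p => ¬ p ∣ i.1), sg N p :=
      Finset.prod_nonneg fun p hp => (RH_sg_pos hN (mem_PI.1 (Finset.mem_filter.1 hp).1).1).le
    have h8 : ∏ p ∈ (PI 0 z).filter (fun p => ¬ p ∣ i.1), sg N p ≤ 2 * SS z N := by
      rw [h5]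
      nlinarith
    calc ‖(i.1 : ℂ) * W‖ * (4 * ∏ p ∈ (PI 0 z).filter (fun p => ¬ p ∣ i.1), sg N p)
        ≤ (C * (i.1 : ℝ) ^ (-(1 / 2) : ℝ)) * (4 * (2 * SS z N)) :=
          mul_le_mul h4 (by linarith) (by positivity) (by positivity)
      _ = _ := by ring
  constructor
  · have h4 := RH_Kc z _ N i0 i hN hPz hi0 hi
    have h5 : Nat.lcm i0.1 i.1 = i.1 := Nat.lcm_one_left _
    rw [h5] at h4
    exact h4.trans (key _ hs1)
  · have h4 := RH_Kc z _ N i i0 hN hPz hi hi0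
    have h5 : Nat.lcm i.1 i0.1 = i.1 := Nat.lcm_one_right _
    rw [h5] at h4
    exact h4.trans (key _ hs2)

theorem RH_kap (N : ℕ) (i : CC) (h1 : 1 ≤ i.1) (hre : ∀ n : ℕ, (i.2 (n : ZMod i.1)).im = 0) :
    (i.1 : ℂ) * rhoN N i.1 i i = (((∏ p ∈ i.1.primeFactors, sg N p) * kap N i : ℝ) : ℂ) ∧
      |kap N i| ≤ 1 := by
  have : NeZero i.1 := ⟨by omega⟩
  have hre' : ∀ a : ZMod i.1, (i.2 a).im = 0 := by
    intro a
    have h2 := hre a.val
    rwa [ZMod.natCast_zmod_val] at h2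
  have hconj : ∀ a : ZMod i.1, (starRingEnd ℂ) (i.2 a) = i.2 a := fun a =>
    Complex.conj_eq_iff_im.2 (hre' a)
  have hmul : ∀ a b : ZMod i.1, (((i.2 a * i.2 b).re : ℝ) : ℂ) = i.2 a * i.2 b := by
    intro a b
    refine Complex.ext ?_ ?_
    · rw [Complex.ofReal_re]
    · rw [Complex.ofReal_im, Complex.mul_im, hre', hre', mul_zero, zero_mul, add_zero]
  have hsum : ((∑ x ∈ upr N i.1, (i.2 (x : ZMod i.1) * i.2 (((N : ℤ) - x : ℤ) : ZMod i.1)).re : ℝ)) =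
      kap N i * (upr N i.1).card := by
    unfold kap
    by_cases h : (upr N i.1).card = 0
    · rw [h, Finset.card_eq_zero.1 h]
      simp
    · rw [div_mul_cancel₀]
      exact_mod_cast h
  constructor
  · rw [← upr_card N i.1 h1]
    unfold rhoN
    have h2 : ∑ x ∈ (range i.1).filter (fun x : ℕ => x.Coprime i.1 ∧ ((N : ℤ) - x).natAbs.Coprime i.1),
        (starRingEnd ℂ) (i.2 (x : ZMod i.1)) * (starRingEnd ℂ) (i.2 (((N : ℤ) - x : ℤ) : ZMod i.1)) =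
        ((kap N i * (upr N i.1).card : ℝ) : ℂ) := by
      rw [← hsum, Complex.ofReal_sum]
      refine Finset.sum_congr rfl fun x _ => ?_
      rw [hmul, hconj, hconj]
    rw [h2]
    push_cast
    ring
  · unfold kap
    rw [abs_div, Nat.abs_cast]
    have h2 : |∑ x ∈ upr N i.1, (i.2 (x : ZMod i.1) * i.2 (((N : ℤ) - x : ℤ) : ZMod i.1)).re| ≤
        (upr N i.1).card := by
      refine (Finset.abs_sum_le_sum_abs _ _).trans ?_
      refine (Finset.sum_le_card_nsmul _ _ 1 fun x _ => ?_).trans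
        (le_of_eq (by rw [nsmul_eq_mul, mul_one]))
      refine (Complex.abs_re_le_norm _).trans ?_
      rw [norm_mul]
      calc _ ≤ (1 : ℝ) * 1 := mul_le_mul (DirichletCharacter.norm_le_one i.2 _)
            (DirichletCharacter.norm_le_one i.2 _) (norm_nonneg _) zero_le_one
        _ = 1 := one_mul 1
    exact div_le_one_of_le₀ h2 (Nat.cast_nonneg _)

/-- **A real character twice.** (`r rhoN N r i i = kap N i ∏_{p ∣ r} sg N p` by `upr_card`; for small `r` `SS_tail` with `R = r`, `P` replaced by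
`⌊Y ^ δ⌋ / r`.) -/
theorem Kc_two : ∃ C : ℝ, 1 ≤ C ∧ ∀ δ : ℝ, 0 < δ → δ ≤ 1 → ∃ Y₀ : ℝ, 3 ≤ Y₀ ∧ ∀ (Y z : ℝ) (N : ℕ) (i : CC),
    Y₀ ≤ Y → Y ^ δ < z → z ≤ Y → Even N → 1 ≤ N → (N : ℝ) ≤ Y ^ 2 → i ∈ CR ⌊Y ^ δ⌋₊ →
    (∀ n : ℕ, (i.2 (n : ZMod i.1)).im = 0) →
      ‖Kc ⌊Y ^ δ⌋₊ N i i‖ ≤ C * SS z N * |kap N i| ∧
      ((i.1 : ℝ) ≤ Y ^ (δ / 4) → ‖Kc ⌊Y ^ δ⌋₊ N i i - (kap N i * SS z N : ℝ)‖ ≤ Y ^ (-(δ / 8))) := by
  obtain ⟨C, hC, H⟩ := RH_upper
  refine ⟨4, by norm_num, fun δ hδ hδ1 => ?_⟩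
  obtain ⟨Y₁, hY₁, H₁⟩ := SS_tail δ hδ hδ1
  obtain ⟨Y₂, hY₂, H₂⟩ := RH_large δ hδ
  obtain ⟨Y₃, hY₃, H₃⟩ := RH_big (C * (80 / (3 * δ))) (3 * δ / 80) (by positivity)
  refine ⟨max Y₁ (max Y₂ Y₃), hY₁.trans (le_max_left _ _), ?_⟩
  intro Y z N i hY hz hzY hN hN1 hNY hi hre
  have hY1 : Y₁ ≤ Y := (le_max_left _ _).trans hY
  have hY2 : Y₂ ≤ Y := ((le_max_left _ _).trans (le_max_right _ _)).trans hY
  have hY3 : Y₃ ≤ Y := ((le_max_right _ _).trans (le_max_right _ _)).trans hY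
  have hY0 : 0 < Y := by linarith
  have hPz := RH_floor hY0 hz
  have h4 := H₂ Y hY2
  have hYδ : Y ^ (δ / 4) ≤ Y ^ δ := Real.rpow_le_rpow_of_exponent_le (by linarith) (by linarith)
  have hz2 : 2 ≤ z := by linarith
  obtain ⟨h1, h2, h3⟩ := RH_CR hi
  obtain ⟨hk, hk1⟩ := RH_kap N i h1 hre
  have hpf : ∀ p ∈ i.1.primeFactors, (p : ℝ) < z := by
    intro p hp
    have h6 : p ≤ i.1 := Nat.le_of_dvd (by omega) (Nat.dvd_of_mem_primeFactors hp)
    have h7 : (p : ℝ) ≤ ((⌊Y ^ δ⌋₊ : ℕ) : ℝ) := by exact_mod_cast h6.trans h2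
    linarith
  have hsp := RH_split z N i.1 h1 hpf
  have hp0 : 0 ≤ ∏ p ∈ i.1.primeFactors, sg N p :=
    Finset.prod_nonneg fun p hp => (RH_sg_pos hN (Nat.prime_of_mem_primeFactors hp)).le
  have hlcm : Nat.lcm i.1 i.1 = i.1 := Nat.lcm_self _
  constructor
  · have h5 := RH_Kc z _ N i i hN hPz hi hi
    rw [hlcm, hk, Complex.norm_real, Real.norm_eq_abs, abs_mul, abs_of_nonneg hp0] at h5
    refine h5.trans (le_of_eq ?_)
    rw [hsp]
    ring
  · intro hr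
    rw [Kc_eq _ N i i h1 h1, hlcm, hk, hsp, ← Complex.ofReal_mul, ← Complex.ofReal_sub,
      Complex.norm_real, Real.norm_eq_abs]
    set q := ⌊Y ^ δ⌋₊ / i.1 with hq
    have hqz : (q : ℝ) < z := by
      have h5 : q ≤ ⌊Y ^ δ⌋₊ := Nat.div_le_self _ _
      have h6 : (q : ℝ) ≤ ((⌊Y ^ δ⌋₊ : ℕ) : ℝ) := by exact_mod_cast h5
      linarith
    have hyq : Y ^ (δ / 2) ≤ (q : ℝ) := by
      set y := Y ^ (δ / 4) with hy
      have h5 : Y ^ δ = y ^ 4 := by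
        rw [hy, ← Real.rpow_natCast, ← Real.rpow_mul hY0.le]
        congr 1
        push_cast
        ring
      have h6 : Y ^ (δ / 2) = y ^ 2 := by
        rw [hy, ← Real.rpow_natCast, ← Real.rpow_mul hY0.le]
        congr 1
        push_cast
        ring
      have h7 := Nat.sub_one_lt_floor (Y ^ δ)
      have h8 : ⌊Y ^ δ⌋₊ < i.1 * (q + 1) := by
        have h9 := Nat.div_add_mod ⌊Y ^ δ⌋₊ i.1
        have h10 := Nat.mod_lt ⌊Y ^ δ⌋₊ (by omega : 0 < i.1)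
        rw [← hq] at h9
        rw [Nat.mul_add, Nat.mul_one]
        omega
      have h9 : ((⌊Y ^ δ⌋₊ : ℕ) : ℝ) < (i.1 : ℝ) * ((q : ℝ) + 1) := by exact_mod_cast h8
      have h10 : (i.1 : ℝ) * ((q : ℝ) + 1) ≤ y * ((q : ℝ) + 1) :=
        mul_le_mul_of_nonneg_right hr (by positivity)
      rw [h5] at h7
      rw [h6]
      rw [h5] at h9
      by_contra hcon
      push Not at hcon
      have h11 : y * ((q : ℝ) + 1) < y * (y ^ 2 + 1) := mul_lt_mul_of_pos_left (by linarith) (by linarith)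
      have h12 : y ^ 4 - 1 < y * (y ^ 2 + 1) := by linarith
      have h13 : 16 ≤ y ^ 2 := by
        calc (16 : ℝ) = 4 ^ 2 := by norm_num
          _ ≤ _ := pow_le_pow_left₀ (by norm_num) h4 2
      have h14 : 16 * y ≤ y ^ 3 := by
        calc 16 * y ≤ y ^ 2 * y := mul_le_mul_of_nonneg_right h13 (by linarith)
          _ = y ^ 3 := by ring
      have h15 : 4 * y ^ 3 ≤ y ^ 4 := by
        have h16 : 0 ≤ y ^ 3 := pow_nonneg (by linarith) 3
        calc 4 * y ^ 3 ≤ y * y ^ 3 := mul_le_mul_of_nonneg_right h4 h16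
          _ = y ^ 4 := by ring
      have h16 : y * (y ^ 2 + 1) = y ^ 3 + y := by ring
      linarith
    have h5 := H₁ Y z N i.1 q hY1 hz2 hzY hN hN1 hNY h1 hyq hqz
    have h6 : (∏ p ∈ i.1.primeFactors, sg N p) ≤ C * Real.log Y := by
      refine ((H z N i.1.primeFactors hz2 (fun p hp => ?_) hN).1).trans ?_
      · rw [mem_PI]
        exact ⟨Nat.prime_of_mem_primeFactors hp, Nat.cast_nonneg _, hpf p hp⟩
      · exact mul_le_mul_of_nonneg_left (Real.log_le_log (by linarith) hzY) (by linarith)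
    have h7 : C * Real.log Y ≤ Y ^ (3 * δ / 40) := by
      have h8 := Real.log_le_rpow_div (x := Y) (ε := 3 * δ / 80) hY0.le (by positivity)
      have h9 := H₃ Y hY3
      have h10 : Y ^ (3 * δ / 40) = Y ^ (3 * δ / 80) * Y ^ (3 * δ / 80) := by
        rw [← Real.rpow_add hY0]
        congr 1
        ring
      have hpos : 0 < Y ^ (3 * δ / 80) := Real.rpow_pos_of_pos hY0 _
      calc C * Real.log Y ≤ C * (Y ^ (3 * δ / 80) / (3 * δ / 80)) :=
            mul_le_mul_of_nonneg_left h8 (by linarith)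
        _ = (C * (80 / (3 * δ))) * Y ^ (3 * δ / 80) := by
            field_simp
        _ ≤ Y ^ (3 * δ / 80) * Y ^ (3 * δ / 80) := mul_le_mul_of_nonneg_right h9 hpos.le
        _ = _ := h10.symm
    have e : ∀ a k s t : ℝ, a * k * s - k * (a * t) = a * k * (s - t) := fun a k s t => by ring
    rw [e, abs_mul, abs_mul, abs_of_nonneg hp0]
    have hpos : 0 < Y ^ (3 * δ / 40) := Real.rpow_pos_of_pos hY0 _
    calc (∏ p ∈ i.1.primeFactors, sg N p) * |kap N i| * _ ≤ (Y ^ (3 * δ / 40) * 1) * Y ^ (-(δ / 5)) := by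
          refine mul_le_mul (mul_le_mul (h6.trans h7) hk1 (abs_nonneg _) hpos.le) h5 (abs_nonneg _) ?_
          positivity
      _ = Y ^ (-(δ / 8)) := by
          rw [mul_one, ← Real.rpow_add hY0]
          congr 1
          ring

end Pool.Agent.M58
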