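import Pool.Agent.W_b58c63_m1.Defs

/-!
# The sieve of Brun and Hooley: combinatorics (helper68)

The primes are divided into blocks `P 0, …, P (J - 1)`; in block `j` the Möbius function is cut at `b j` prime factors.
-/

set_option autoImplicit false

noncomputable section

open Finset

namespace Pool.Agent.M58

/-- The indicator that no element of `P` divides `n`. -/
def ind (P : Finset ℕ) (n : ℕ) : ℝ := open Classical in if ∀ p ∈ P, ¬ p ∣ n then 1 else 0

/-- `∑ (- 1) ^ |S|` over the sets `S ⊆ P` of at most `b` divisors of `n`. -/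
def th1 (P : Finset ℕ) (b n : ℕ) : ℝ :=
  ∑ S ∈ (P.filter (· ∣ n)).powerset.filter (fun S => S.card ≤ b), (-1 : ℝ) ^ S.card

/-- The number of the sets `S ⊆ P` of exactly `b + 1` divisors of `n`. -/
def ex1 (P : Finset ℕ) (b n : ℕ) : ℝ :=
  (((P.filter (· ∣ n)).powerset.filter (fun S => S.card = b + 1)).card : ℝ)

theorem SHo_th1_sum (P : Finset ℕ) (b n : ℕ) : th1 P b n =
    ∑ i ∈ range (b + 1), (-1 : ℝ) ^ i * (((P.filter (· ∣ n)).card.choose i : ℕ) : ℝ) := by
  classical
  unfold th1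
  rw [← Finset.sum_fiberwise_of_maps_to (t := range (b + 1)) (g := fun S : Finset ℕ => S.card)]
  · refine Finset.sum_congr rfl fun i hi => ?_
    have h1 : ∀ S ∈ ((P.filter (· ∣ n)).powerset.filter (fun S => S.card ≤ b)).filter
        (fun S => S.card = i), (-1 : ℝ) ^ S.card = (-1 : ℝ) ^ i := by
      intro S hS
      rw [(Finset.mem_filter.1 hS).2]
    rw [Finset.sum_congr rfl h1, Finset.sum_const, nsmul_eq_mul, mul_comm]
    congr 2
    rw [← Finset.card_powersetCard]
    congr 1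
    ext S
    rw [Finset.mem_filter, Finset.mem_filter, Finset.mem_powerset, Finset.mem_powersetCard]
    rw [Finset.mem_range] at hi
    constructor
    · rintro ⟨⟨h2, _⟩, h3⟩
      exact ⟨h2, h3⟩
    · rintro ⟨h2, h3⟩
      exact ⟨⟨h2, by omega⟩, h3⟩
  · intro S hS
    rw [Finset.mem_range]
    have h2 := (Finset.mem_filter.1 hS).2
    omega

theorem SHo_ex1 (P : Finset ℕ) (b n : ℕ) :
    ex1 P b n = (((P.filter (· ∣ n)).card.choose (b + 1) : ℕ) : ℝ) := by
  unfold ex1
  congr 1
  rw [← Finset.card_powersetCard]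
  congr 1
  ext S
  rw [Finset.mem_filter, Finset.mem_powerset, Finset.mem_powersetCard]

theorem SHo_alt (k b : ℕ) : ∑ i ∈ range (b + 1), (-1 : ℝ) ^ i * (((k + 1).choose i : ℕ) : ℝ) =
    (-1) ^ b * ((k.choose b : ℕ) : ℝ) := by
  induction b with
  | zero => simp
  | succ b ih =>
    rw [Finset.sum_range_succ, ih, Nat.choose_succ_succ, Nat.cast_add, pow_succ]
    ring

/-- `ind ≤ th1 ≤ ind + ex1` for even `b`.

Proof. With `k` elements of `P` dividing `n`: for `k = 0` both are `1` and `ex1 = 0`; for `k ≥ 1`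
`th1 = ∑_{i ≤ b} (- 1) ^ i C(k, i) = C (k - 1, b)` (`Int.alternating_sum_range_choose_eq_choose` or induction), and
`0 ≤ C (k - 1, b) ≤ C (k, b + 1)`. -/
theorem th1_ge (P : Finset ℕ) (b n : ℕ) (hb : Even b) : ind P n ≤ th1 P b n ∧ 0 ≤ th1 P b n ∧
    th1 P b n ≤ ind P n + ex1 P b n := by
  classical
  rw [SHo_th1_sum, SHo_ex1]
  rcases Nat.eq_zero_or_pos (P.filter (· ∣ n)).card with hk | hk
  · have h1 : ind P n = 1 := by
      unfold ind
      rw [if_pos]
      intro p hp hpn
      rw [Finset.card_eq_zero] at hk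
      have h2 : p ∈ P.filter (· ∣ n) := Finset.mem_filter.2 ⟨hp, hpn⟩
      rw [hk] at h2
      exact absurd h2 (Finset.notMem_empty p)
    have h2 : ∑ i ∈ range (b + 1), (-1 : ℝ) ^ i *
        (((P.filter (· ∣ n)).card.choose i : ℕ) : ℝ) = 1 := by
      rw [hk, Finset.sum_range_succ']
      simp
    rw [h1, h2, hk]
    simp
  · have h1 : ind P n = 0 := by
      unfold ind
      rw [if_neg]
      intro h
      obtain ⟨p, hp⟩ := Finset.card_pos.1 hk
      rw [Finset.mem_filter] at hp
      exact h p hp.1 hp.2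
    obtain ⟨k, hk1⟩ : ∃ k, (P.filter (· ∣ n)).card = k + 1 :=
      ⟨(P.filter (· ∣ n)).card - 1, by omega⟩
    rw [h1, hk1, SHo_alt, hb.neg_one_pow, one_mul, zero_add]
    refine ⟨Nat.cast_nonneg _, Nat.cast_nonneg _, ?_⟩
    rw [Nat.choose_succ_succ]
    exact_mod_cast Nat.le_add_right _ _

/-- The upper bound sieve. -/
def thp (P : ℕ → Finset ℕ) (b : ℕ → ℕ) (J n : ℕ) : ℝ := ∏ j ∈ range J, th1 (P j) (b j) n

/-- The lower bound sieve. -/
def thm (P : ℕ → Finset ℕ) (b : ℕ → ℕ) (J n : ℕ) : ℝ :=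
  thp P b J n - ∑ j ∈ range J, ex1 (P j) (b j) n * ∏ i ∈ (range J).erase j, th1 (P i) (b i) n

/-- The union of the blocks. -/
def blk (P : ℕ → Finset ℕ) (J : ℕ) : Finset ℕ := (range J).biUnion P

theorem SHo_ex1_nonneg (P : Finset ℕ) (b n : ℕ) : 0 ≤ ex1 P b n := Nat.cast_nonneg _

theorem SHo_ind_blk (P : ℕ → Finset ℕ) (J n : ℕ) :
    ind (blk P J) n = ∏ j ∈ range J, ind (P j) n := by
  classical
  by_cases h : ∀ p ∈ blk P J, ¬ p ∣ n
  · have h1 : ind (blk P J) n = 1 := by
      unfold ind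
      rw [if_pos h]
    rw [h1]
    symm
    refine Finset.prod_eq_one fun j hj => ?_
    unfold ind
    rw [if_pos]
    intro p hp
    exact h p (Finset.mem_biUnion.2 ⟨j, hj, hp⟩)
  · have h1 : ind (blk P J) n = 0 := by
      unfold ind
      rw [if_neg h]
    rw [h1]
    symm
    push Not at h
    obtain ⟨p, hp, hpn⟩ := h
    obtain ⟨j, hj, hpj⟩ := Finset.mem_biUnion.1 hp
    refine Finset.prod_eq_zero hj ?_
    unfold ind
    rw [if_neg]
    intro h2
    exact h2 p hpj hpn

theorem SHo_ind_nonneg (P : Finset ℕ) (n : ℕ) : 0 ≤ ind P n := by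
  unfold ind
  split_ifs
  · exact zero_le_one
  · exact le_rfl

theorem SHo_ineq (s : Finset ℕ) (a t e : ℕ → ℝ) (ha : ∀ j ∈ s, 0 ≤ a j) (h1 : ∀ j ∈ s, a j ≤ t j)
    (h2 : ∀ j ∈ s, t j ≤ a j + e j) (he : ∀ j ∈ s, 0 ≤ e j) :
    ∏ j ∈ s, t j - ∑ j ∈ s, e j * ∏ i ∈ s.erase j, t i ≤ ∏ j ∈ s, a j ∧
      ∏ j ∈ s, a j ≤ ∏ j ∈ s, t j ∧ 0 ≤ ∏ j ∈ s, a j := by
  classical
  induction s using Finset.induction_on with
  | empty => simp
  | insert x s hx ih =>
    obtain ⟨i1, i2, i3⟩ := ih (fun j hj => ha j (Finset.mem_insert_of_mem hj))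
      (fun j hj => h1 j (Finset.mem_insert_of_mem hj))
      (fun j hj => h2 j (Finset.mem_insert_of_mem hj))
      (fun j hj => he j (Finset.mem_insert_of_mem hj))
    have a1 := ha x (Finset.mem_insert_self x s)
    have a2 := h1 x (Finset.mem_insert_self x s)
    have a3 := h2 x (Finset.mem_insert_self x s)
    have a4 := he x (Finset.mem_insert_self x s)
    have hsum : ∑ j ∈ s, e j * ∏ i ∈ (insert x s).erase j, t i =
        t x * ∑ j ∈ s, e j * ∏ i ∈ s.erase j, t i := by
      rw [Finset.mul_sum]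
      refine Finset.sum_congr rfl fun j hj => ?_
      have hxj : x ≠ j := by
        rintro rfl
        exact hx hj
      rw [Finset.erase_insert_of_ne hxj, Finset.prod_insert]
      · ring
      · intro h
        exact hx (Finset.mem_of_mem_erase h)
    rw [Finset.prod_insert hx, Finset.prod_insert hx, Finset.sum_insert hx,
      Finset.erase_insert hx, hsum]
    set T := ∏ j ∈ s, t j
    set A := ∏ j ∈ s, a j
    set W := ∑ j ∈ s, e j * ∏ i ∈ s.erase j, t i
    refine ⟨?_, ?_, by positivity⟩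
    · have b1 : t x * (T - W) ≤ t x * A := mul_le_mul_of_nonneg_left i1 (by linarith)
      have b2 : (t x - a x) * A ≤ e x * A := mul_le_mul_of_nonneg_right (by linarith) i3
      have b3 : e x * A ≤ e x * T := mul_le_mul_of_nonneg_left i2 a4
      nlinarith
    · exact mul_le_mul a2 i2 i3 (by linarith)

/-- **The inequalities of Brun and Hooley.**

Proof. `ind (blk P J) = ∏ ind (P j)`. `∏ th1 - ∏ ind = ∑_j (∏_{i < j} ind) (th1_j - ind_j) (∏_{i > j} th1)`
(telescoping), `0 ≤ th1_j - ind_j ≤ ex1_j`, `ind_i ≤ th1_i`. -/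
theorem th_ineq (P : ℕ → Finset ℕ) (b : ℕ → ℕ) (J n : ℕ) (hb : ∀ j < J, Even (b j)) :
    thm P b J n ≤ ind (blk P J) n ∧ ind (blk P J) n ≤ thp P b J n ∧ 0 ≤ thp P b J n := by
  obtain ⟨h1, h2, h3⟩ := SHo_ineq (range J) (fun j => ind (P j) n) (fun j => th1 (P j) (b j) n)
    (fun j => ex1 (P j) (b j) n) (fun j _ => SHo_ind_nonneg _ _)
    (fun j hj => (th1_ge (P j) (b j) n (hb j (Finset.mem_range.1 hj))).1)
    (fun j hj => (th1_ge (P j) (b j) n (hb j (Finset.mem_range.1 hj))).2.2)
    (fun j _ => SHo_ex1_nonneg _ _ _)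
  rw [SHo_ind_blk]
  exact ⟨h1, h2, h3.trans h2⟩

/-- The coefficients of the upper bound sieve. -/
def lap (P : ℕ → Finset ℕ) (b : ℕ → ℕ) (J : ℕ) (S : Finset ℕ) : ℝ :=
  open Classical in if ∀ j < J, (S ∩ P j).card ≤ b j then (-1 : ℝ) ^ S.card else 0

/-- The coefficients of the lower bound sieve. -/
def lam (P : ℕ → Finset ℕ) (b : ℕ → ℕ) (J : ℕ) (S : Finset ℕ) : ℝ :=
  lap P b J S - ∑ j ∈ range J, (open Classical in if (S ∩ P j).card = b j + 1 ∧
    ∀ i < J, i ≠ j → (S ∩ P i).card ≤ b i then (-1 : ℝ) ^ (S \ P j).card else 0)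

theorem abs_lap_le (P : ℕ → Finset ℕ) (b : ℕ → ℕ) (J : ℕ) (S : Finset ℕ) : |lap P b J S| ≤ 1 := by
  unfold lap
  split_ifs
  · rw [abs_pow, abs_neg, abs_one, one_pow]
  · rw [abs_zero]
    exact zero_le_one

theorem abs_lam_le (P : ℕ → Finset ℕ) (b : ℕ → ℕ) (J : ℕ) (S : Finset ℕ) :
    |lam P b J S| ≤ J + 1 := by
  classical
  unfold lam
  refine (abs_sub _ _).trans ?_
  rw [add_comm (J : ℝ) 1]
  refine add_le_add (abs_lap_le P b J S) ?_
  refine (Finset.abs_sum_le_sum_abs _ _).trans ?_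
  have h1 : ∑ _j ∈ range J, (1 : ℝ) = J := by simp
  rw [← h1]
  refine Finset.sum_le_sum fun j _ => ?_
  split_ifs
  · rw [abs_pow, abs_neg, abs_one, one_pow]
  · rw [abs_zero]
    exact zero_le_one

theorem SHo_prod (P : ℕ → Finset ℕ) (f : ℕ → Finset ℕ → ℝ) (J n : ℕ)
    (hP : ∀ i < J, ∀ j < J, i ≠ j → Disjoint (P i) (P j)) :
    ∏ j ∈ range J, ∑ S ∈ ((P j).filter (· ∣ n)).powerset, f j S =
      ∑ S ∈ ((blk P J).filter (· ∣ n)).powerset, ∏ j ∈ range J, f j (S ∩ P j) := by
  classical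
  induction J with
  | zero => simp [blk]
  | succ J ih =>
    rw [Finset.prod_range_succ, ih fun i hi j hj => hP i (by omega) j (by omega),
      Finset.sum_mul_sum, ← Finset.sum_product']
    have hblk : blk P (J + 1) = P J ∪ blk P J := by
      unfold blk
      rw [Finset.range_add_one, Finset.biUnion_insert]
    have hdis : Disjoint (blk P J) (P J) := by
      unfold blk
      rw [Finset.disjoint_biUnion_left]
      intro i hi
      rw [Finset.mem_range] at hi
      exact hP i (by omega) J (by omega) (by omega)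
    refine Finset.sum_bij' (fun x _ => x.1 ∪ x.2) (fun S _ => (S ∩ blk P J, S ∩ P J)) ?_ ?_ ?_ ?_ ?_
    · rintro ⟨S, T⟩ hx
      rw [Finset.mem_product, Finset.mem_powerset, Finset.mem_powerset] at hx
      rw [Finset.mem_powerset, hblk]
      refine Finset.union_subset (hx.1.trans ?_) (hx.2.trans ?_)
      · exact Finset.filter_subset_filter _ Finset.subset_union_right
      · exact Finset.filter_subset_filter _ Finset.subset_union_left
    · intro S hS
      rw [Finset.mem_powerset] at hS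
      rw [Finset.mem_product, Finset.mem_powerset, Finset.mem_powerset]
      constructor
      · intro x hx
        rw [Finset.mem_inter] at hx
        exact Finset.mem_filter.2 ⟨hx.2, (Finset.mem_filter.1 (hS hx.1)).2⟩
      · intro x hx
        rw [Finset.mem_inter] at hx
        exact Finset.mem_filter.2 ⟨hx.2, (Finset.mem_filter.1 (hS hx.1)).2⟩
    · rintro ⟨S, T⟩ hx
      rw [Finset.mem_product, Finset.mem_powerset, Finset.mem_powerset] at hx
      have hS : S ⊆ blk P J := hx.1.trans (Finset.filter_subset _ _)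
      have hT : T ⊆ P J := hx.2.trans (Finset.filter_subset _ _)
      have h1 : (S ∪ T) ∩ blk P J = S := by
        rw [Finset.union_inter_distrib_right, Finset.inter_eq_left.2 hS,
          Finset.disjoint_iff_inter_eq_empty.1 (hdis.symm.mono_left hT), Finset.union_empty]
      have h2 : (S ∪ T) ∩ P J = T := by
        rw [Finset.union_inter_distrib_right, Finset.inter_eq_left.2 hT,
          Finset.disjoint_iff_inter_eq_empty.1 (hdis.mono_left hS), Finset.empty_union]
      exact Prod.ext h1 h2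
    · intro S hS
      rw [Finset.mem_powerset] at hS
      change (S ∩ blk P J) ∪ (S ∩ P J) = S
      rw [← Finset.inter_union_distrib_left, Finset.inter_eq_left, Finset.union_comm, ← hblk]
      exact hS.trans (Finset.filter_subset _ _)
    · rintro ⟨S, T⟩ hx
      rw [Finset.mem_product, Finset.mem_powerset, Finset.mem_powerset] at hx
      have hS : S ⊆ blk P J := hx.1.trans (Finset.filter_subset _ _)
      have hT : T ⊆ P J := hx.2.trans (Finset.filter_subset _ _)
      have h2 : (S ∪ T) ∩ P J = T := by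
        rw [Finset.union_inter_distrib_right, Finset.inter_eq_left.2 hT,
          Finset.disjoint_iff_inter_eq_empty.1 (hdis.mono_left hS), Finset.empty_union]
      change (∏ j ∈ range J, f j (S ∩ P j)) * f J T = ∏ j ∈ range (J + 1), f j ((S ∪ T) ∩ P j)
      rw [Finset.prod_range_succ, h2]
      congr 1
      refine Finset.prod_congr rfl fun j hj => ?_
      rw [Finset.mem_range] at hj
      have h3 : T ∩ P j = ∅ := Finset.disjoint_iff_inter_eq_empty.1
        ((hP J (by omega) j (by omega) (by omega)).mono_left hT)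
      rw [Finset.union_inter_distrib_right, h3, Finset.union_empty]

theorem SHo_card (P : ℕ → Finset ℕ) (J : ℕ)
    (hP : ∀ i < J, ∀ j < J, i ≠ j → Disjoint (P i) (P j)) (S : Finset ℕ) (hS : S ⊆ blk P J) :
    S.card = ∑ j ∈ range J, (S ∩ P j).card := by
  classical
  rw [← Finset.card_biUnion]
  · congr 1
    ext x
    rw [Finset.mem_biUnion]
    constructor
    · intro hx
      obtain ⟨j, hj, hxj⟩ := Finset.mem_biUnion.1 (hS hx)
      exact ⟨j, hj, Finset.mem_inter.2 ⟨hx, hxj⟩⟩
    · rintro ⟨j, _, hxj⟩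
      exact (Finset.mem_inter.1 hxj).1
  · intro i hi j hj hij
    exact (hP i (Finset.mem_range.1 hi) j (Finset.mem_range.1 hj) hij).mono
      Finset.inter_subset_right Finset.inter_subset_right

theorem SHo_th1_filter (P : Finset ℕ) (b n : ℕ) : th1 P b n =
    ∑ S ∈ (P.filter (· ∣ n)).powerset, (if S.card ≤ b then (-1 : ℝ) ^ S.card else 0) := by
  unfold th1
  rw [Finset.sum_filter]

theorem SHo_ex1_filter (P : Finset ℕ) (b n : ℕ) : ex1 P b n =
    ∑ S ∈ (P.filter (· ∣ n)).powerset, (if S.card = b + 1 then (1 : ℝ) else 0) := by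
  unfold ex1
  rw [Finset.sum_ite, Finset.sum_const_zero, add_zero, Finset.sum_const, nsmul_eq_mul, mul_one]

theorem SHo_prod_ite (s : Finset ℕ) (c : ℕ → Prop) [DecidablePred c] (v : ℕ → ℝ) :
    ∏ j ∈ s, (if c j then v j else 0) = if ∀ j ∈ s, c j then ∏ j ∈ s, v j else 0 := by
  classical
  split_ifs with h
  · exact Finset.prod_congr rfl fun j hj => by rw [if_pos (h j hj)]
  · push Not at h
    obtain ⟨j, hj, hc⟩ := h
    exact Finset.prod_eq_zero hj (by rw [if_neg hc])

/-- The expansions. (A set `S ⊆ blk P J` is the disjoint union of the `S ∩ P j`; products over `range J` of sums over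
powersets, `Finset.prod_add` / `Finset.sum_prod_piFinset` or induction on `J`.) -/
theorem thp_eq (P : ℕ → Finset ℕ) (b : ℕ → ℕ) (J n : ℕ)
    (hP : ∀ i < J, ∀ j < J, i ≠ j → Disjoint (P i) (P j)) :
    thp P b J n = ∑ S ∈ ((blk P J).filter (· ∣ n)).powerset, lap P b J S := by
  classical
  unfold thp
  simp only [SHo_th1_filter]
  rw [SHo_prod P (fun j S => if S.card ≤ b j then (-1 : ℝ) ^ S.card else 0) J n hP]
  refine Finset.sum_congr rfl fun S hS => ?_
  rw [Finset.mem_powerset] at hS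
  rw [SHo_prod_ite (range J) (fun j => (S ∩ P j).card ≤ b j) (fun j => (-1 : ℝ) ^ (S ∩ P j).card),
    Finset.prod_pow_eq_pow_sum, ← SHo_card P J hP S (hS.trans (Finset.filter_subset _ _))]
  unfold lap
  simp only [Finset.mem_range]

theorem SHo_ex_eq (P : ℕ → Finset ℕ) (b : ℕ → ℕ) (J n j : ℕ) (hj : j ∈ range J)
    (hP : ∀ i < J, ∀ j < J, i ≠ j → Disjoint (P i) (P j)) :
    ex1 (P j) (b j) n * ∏ i ∈ (range J).erase j, th1 (P i) (b i) n =
      ∑ S ∈ ((blk P J).filter (· ∣ n)).powerset, (open Classical in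
        if (S ∩ P j).card = b j + 1 ∧ ∀ i < J, i ≠ j → (S ∩ P i).card ≤ b i then
          (-1 : ℝ) ^ (S \ P j).card else 0) := by
  classical
  set g : ℕ → Finset ℕ → ℝ := fun i S => if i = j then (if S.card = b j + 1 then (1 : ℝ) else 0)
    else (if S.card ≤ b i then (-1 : ℝ) ^ S.card else 0) with hg
  have h1 : ex1 (P j) (b j) n * ∏ i ∈ (range J).erase j, th1 (P i) (b i) n =
      ∏ i ∈ range J, ∑ S ∈ ((P i).filter (· ∣ n)).powerset, g i S := by
    rw [← Finset.mul_prod_erase (range J) _ hj]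
    congr 1
    · rw [SHo_ex1_filter]
      refine Finset.sum_congr rfl fun S _ => ?_
      simp only [hg, if_pos]
    · refine Finset.prod_congr rfl fun i hi => ?_
      rw [SHo_th1_filter]
      refine Finset.sum_congr rfl fun S _ => ?_
      simp only [hg, if_neg (Finset.ne_of_mem_erase hi)]
  rw [h1, SHo_prod P g J n hP]
  refine Finset.sum_congr rfl fun S hS => ?_
  rw [Finset.mem_powerset] at hS
  have hcard := SHo_card P J hP S (hS.trans (Finset.filter_subset _ _))
  rw [← Finset.add_sum_erase (range J) _ hj] at hcard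
  have hcard2 : (S \ P j).card = ∑ i ∈ (range J).erase j, (S ∩ P i).card := by
    have h3 := Finset.card_sdiff_add_card_inter S (P j)
    omega
  rw [← Finset.mul_prod_erase (range J) _ hj]
  have h2 : ∏ i ∈ (range J).erase j, g i (S ∩ P i) =
      ∏ i ∈ (range J).erase j, (if (S ∩ P i).card ≤ b i then (-1 : ℝ) ^ (S ∩ P i).card else 0) := by
    refine Finset.prod_congr rfl fun i hi => ?_
    simp only [hg, if_neg (Finset.ne_of_mem_erase hi)]
  have h3 : g j (S ∩ P j) = if (S ∩ P j).card = b j + 1 then (1 : ℝ) else 0 := by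
    simp only [hg, if_pos]
  rw [h2, h3, SHo_prod_ite ((range J).erase j) (fun i => (S ∩ P i).card ≤ b i)
    (fun i => (-1 : ℝ) ^ (S ∩ P i).card), Finset.prod_pow_eq_pow_sum, ← hcard2]
  have h4 : (∀ i ∈ (range J).erase j, (S ∩ P i).card ≤ b i) ↔
      ∀ i < J, i ≠ j → (S ∩ P i).card ≤ b i := by
    constructor
    · intro h i hi hij
      exact h i (Finset.mem_erase.2 ⟨hij, Finset.mem_range.2 hi⟩)
    · intro h i hi
      rw [Finset.mem_erase, Finset.mem_range] at hi
      exact h i hi.2 hi.1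
  by_cases c1 : (S ∩ P j).card = b j + 1
  · by_cases c2 : ∀ i < J, i ≠ j → (S ∩ P i).card ≤ b i
    · rw [if_pos c1, if_pos (h4.2 c2), if_pos ⟨c1, c2⟩, one_mul]
    · have c3 : ¬ ((S ∩ P j).card = b j + 1 ∧ ∀ i < J, i ≠ j → (S ∩ P i).card ≤ b i) :=
        fun h => c2 h.2
      rw [if_neg fun h => c2 (h4.1 h), if_neg c3, mul_zero]
  · have c3 : ¬ ((S ∩ P j).card = b j + 1 ∧ ∀ i < J, i ≠ j → (S ∩ P i).card ≤ b i) :=
      fun h => c1 h.1
    rw [if_neg c1, if_neg c3, zero_mul]

theorem thm_eq (P : ℕ → Finset ℕ) (b : ℕ → ℕ) (J n : ℕ)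
    (hP : ∀ i < J, ∀ j < J, i ≠ j → Disjoint (P i) (P j)) :
    thm P b J n = ∑ S ∈ ((blk P J).filter (· ∣ n)).powerset, lam P b J S := by
  classical
  unfold thm lam
  rw [thp_eq P b J n hP, Finset.sum_sub_distrib, Finset.sum_comm]
  congr 1
  exact Finset.sum_congr rfl fun j hj => SHo_ex_eq P b J n j hj hP

end Pool.Agent.M58
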