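import Pool.Agent.W_b58c63_m1.SHo

/-!
# The sieve of Brun and Hooley with halving blocks (helper68)

For `z ≥ 2` the block `j` consists of the primes in `[z ^ (2 ^ (- j - 1)), z ^ (2 ^ (- j)))`, with at most `2 (b + j)` primes.
-/

set_option autoImplicit false

noncomputable section

open Finset

namespace Pool.Agent.M58

/-- The blocks. -/
def Pz (z : ℝ) (j : ℕ) : Finset ℕ := PI (z ^ ((1 / 2 : ℝ) ^ (j + 1))) (z ^ ((1 / 2 : ℝ) ^ j))

/-- The number of blocks: `log₂ z ≤ 2 ^ J`. -/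
def Jz (z : ℝ) : ℕ := ⌈Real.logb 2 (Real.logb 2 z)⌉₊ + 1

/-- The numbers of primes. -/
def bz (b j : ℕ) : ℕ := 2 * (b + j)

/-- The sieve functions and their coefficients. -/
def tp' (z : ℝ) (b n : ℕ) : ℝ := thp (Pz z) (bz b) (Jz z) n

def tm' (z : ℝ) (b n : ℕ) : ℝ := thm (Pz z) (bz b) (Jz z) n

def lp' (z : ℝ) (b : ℕ) (S : Finset ℕ) : ℝ := lap (Pz z) (bz b) (Jz z) S

def lm' (z : ℝ) (b : ℕ) (S : Finset ℕ) : ℝ := lam (Pz z) (bz b) (Jz z) S

theorem SPl_mono (z : ℝ) (hz : 2 ≤ z) {i j : ℕ} (h : i ≤ j) :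
    z ^ ((1 / 2 : ℝ) ^ j) ≤ z ^ ((1 / 2 : ℝ) ^ i) := by
  apply Real.rpow_le_rpow_of_exponent_le (by linarith)
  exact pow_le_pow_of_le_one (by norm_num) (by norm_num) h

theorem SPl_lt (z : ℝ) (hz : 2 ≤ z) {i j : ℕ} (h : i < j) : Disjoint (Pz z i) (Pz z j) := by
  rw [Finset.disjoint_left]
  intro p hp hq
  rw [Pz, mem_PI] at hp hq
  have h1 := SPl_mono z hz (show i + 1 ≤ j from h)
  linarith [hp.2.1, hq.2.2]

/-- The blocks are disjoint and their union is the set of the primes below `z`. -/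
theorem Pz_disj (z : ℝ) (hz : 2 ≤ z) (i j : ℕ) (h : i ≠ j) : Disjoint (Pz z i) (Pz z j) := by
  rcases lt_or_gt_of_ne h with h | h
  · exact SPl_lt z hz h
  · exact (SPl_lt z hz h).symm

theorem SPl_blk (z : ℝ) (hz : 2 ≤ z) (J : ℕ) :
    blk (Pz z) J = PI (z ^ ((1 / 2 : ℝ) ^ J)) z := by
  induction J with
  | zero =>
    ext p
    simp only [blk, range_zero, biUnion_empty, notMem_empty, false_iff, mem_PI, pow_zero,
      Real.rpow_one, not_and, not_lt]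
    intro _ h
    exact h
  | succ J ih =>
    have h1 : blk (Pz z) (J + 1) = blk (Pz z) J ∪ Pz z J := by
      ext p
      simp only [blk, mem_biUnion, mem_range, mem_union]
      constructor
      · rintro ⟨j, hj, hp⟩
        rcases Nat.lt_succ_iff_lt_or_eq.1 hj with h | h
        · exact Or.inl ⟨j, h, hp⟩
        · rw [h] at hp
          exact Or.inr hp
      · rintro (⟨j, hj, hp⟩ | hp)
        · exact ⟨j, by omega, hp⟩
        · exact ⟨J, by omega, hp⟩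
    rw [h1, ih]
    ext p
    rw [mem_union, Pz, mem_PI, mem_PI, mem_PI]
    have h2 := SPl_mono z hz (show J ≤ J + 1 by omega)
    have h3 := SPl_mono z hz (Nat.zero_le J)
    rw [pow_zero, Real.rpow_one] at h3
    constructor
    · rintro (⟨h4, h5, h6⟩ | ⟨h4, h5, h6⟩)
      · exact ⟨h4, by linarith, h6⟩
      · exact ⟨h4, h5, by linarith⟩
    · rintro ⟨h4, h5, h6⟩
      rcases le_or_gt (z ^ ((1 / 2 : ℝ) ^ J)) (p : ℝ) with h | h
      · exact Or.inl ⟨h4, h, h6⟩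
      · exact Or.inr ⟨h4, h5, h⟩

theorem SPl_two (z : ℝ) (hz : 2 ≤ z) : z ^ ((1 / 2 : ℝ) ^ Jz z) ≤ 2 := by
  have hz0 : 0 < z := by linarith
  have hl : 1 ≤ Real.logb 2 z := by
    rw [Real.le_logb_iff_rpow_le (by norm_num) hz0, Real.rpow_one]
    exact hz
  have h1 : Real.logb 2 (Real.logb 2 z) ≤ (Jz z : ℕ) := by
    have h2 := Nat.le_ceil (Real.logb 2 (Real.logb 2 z))
    rw [Jz]
    push_cast
    linarith
  rw [Real.logb_le_iff_le_rpow (by norm_num) (by linarith), Real.rpow_natCast] at h1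
  have h3 : z = 2 ^ Real.logb 2 z := (Real.rpow_logb (by norm_num) (by norm_num) hz0).symm
  have h4 : z ^ ((1 / 2 : ℝ) ^ Jz z) = 2 ^ (Real.logb 2 z * (1 / 2 : ℝ) ^ Jz z) := by
    rw [Real.rpow_mul (by norm_num), ← h3]
  rw [h4]
  have h5 : Real.logb 2 z * (1 / 2 : ℝ) ^ Jz z ≤ 1 := by
    calc Real.logb 2 z * (1 / 2 : ℝ) ^ Jz z ≤ 2 ^ Jz z * (1 / 2 : ℝ) ^ Jz z :=
          mul_le_mul_of_nonneg_right h1 (by positivity)
      _ = 1 := by rw [← mul_pow]; norm_num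
  calc (2 : ℝ) ^ (Real.logb 2 z * (1 / 2 : ℝ) ^ Jz z) ≤ 2 ^ (1 : ℝ) :=
        Real.rpow_le_rpow_of_exponent_le (by norm_num) h5
    _ = 2 := Real.rpow_one 2

theorem blk_Pz (z : ℝ) (hz : 2 ≤ z) : blk (Pz z) (Jz z) = PI 0 z := by
  rw [SPl_blk z hz]
  ext p
  rw [mem_PI, mem_PI]
  constructor
  · rintro ⟨h1, h2, h3⟩
    exact ⟨h1, Nat.cast_nonneg p, h3⟩
  · rintro ⟨h1, h2, h3⟩
    have h4 : (2 : ℝ) ≤ p := by exact_mod_cast h1.two_le
    exact ⟨h1, (SPl_two z hz).trans h4, h3⟩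

theorem SPl_rh (z : ℝ) (hz : 2 ≤ z) (n : ℕ) (hn : 1 ≤ n) :
    rh z n = ind (blk (Pz z) (Jz z)) n := by
  rw [rh, ind, blk_Pz z hz]
  congr 1
  apply propext
  constructor
  · rintro ⟨_, h⟩ p hp hd
    rw [mem_PI] at hp
    have h1 := h p (Nat.mem_primeFactors.2 ⟨hp.1, hd, by omega⟩)
    linarith [hp.2.2]
  · intro h
    refine ⟨by omega, fun p hp => ?_⟩
    have hp' := Nat.mem_primeFactors.1 hp
    by_contra hlt
    exact h p ((mem_PI).2 ⟨hp'.1, Nat.cast_nonneg p, not_le.1 hlt⟩) hp'.2.1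

/-- `tm' ≤ rh ≤ tp'`, for `n ≥ 1`. -/
theorem rh_bounds (z : ℝ) (hz : 2 ≤ z) (b n : ℕ) (hn : 1 ≤ n) :
    tm' z b n ≤ rh z n ∧ rh z n ≤ tp' z b n ∧ 0 ≤ tp' z b n := by
  rw [SPl_rh z hz n hn]
  exact th_ineq (Pz z) (bz b) (Jz z) n fun j _ => ⟨b + j, by rw [bz]; ring⟩

theorem tp_eq (z : ℝ) (hz : 2 ≤ z) (b n : ℕ) :
    tp' z b n = ∑ S ∈ ((PI 0 z).filter (· ∣ n)).powerset, lp' z b S := by
  rw [← blk_Pz z hz]
  exact thp_eq (Pz z) (bz b) (Jz z) n fun i _ j _ h => Pz_disj z hz i j h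

theorem tm_eq (z : ℝ) (hz : 2 ≤ z) (b n : ℕ) :
    tm' z b n = ∑ S ∈ ((PI 0 z).filter (· ∣ n)).powerset, lm' z b S := by
  rw [← blk_Pz z hz]
  exact thm_eq (Pz z) (bz b) (Jz z) n fun i _ j _ h => Pz_disj z hz i j h

theorem SPl_sum (b J : ℕ) : ∑ j ∈ range J, (1 / 2 : ℝ) ^ j * (bz b j : ℕ) =
    4 * b + 4 - (1 / 2 : ℝ) ^ J * (4 * b + 4 * J + 4) := by
  induction J with
  | zero => simp
  | succ J ih =>
    rw [sum_range_succ, ih, bz, pow_succ]
    push_cast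
    ring

theorem SPl_sum_le (b J : ℕ) : ∑ j ∈ range J, (1 / 2 : ℝ) ^ j * (bz b j : ℕ) ≤ 4 * b + 4 := by
  rw [SPl_sum]
  have : 0 ≤ (1 / 2 : ℝ) ^ J * (4 * b + 4 * J + 4) := by positivity
  linarith

theorem SPl_prod (z : ℝ) (hz : 2 ≤ z) (S : Finset ℕ) (hS : S ⊆ PI 0 z) (c : ℕ → ℕ)
    (hc : ∀ j < Jz z, (S ∩ Pz z j).card ≤ c j) :
    ((∏ p ∈ S, p : ℕ) : ℝ) ≤ z ^ (∑ j ∈ range (Jz z), (1 / 2 : ℝ) ^ j * (c j : ℕ)) := by
  have hz0 : 0 < z := by linarith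
  have h1 : S = (range (Jz z)).biUnion fun j => S ∩ Pz z j := by
    rw [← inter_biUnion]
    have h2 : (range (Jz z)).biUnion (Pz z) = PI 0 z := blk_Pz z hz
    rw [h2]
    exact (inter_eq_left.2 hS).symm
  have h2 : ∏ p ∈ S, (p : ℝ) = ∏ j ∈ range (Jz z), ∏ p ∈ S ∩ Pz z j, (p : ℝ) := by
    conv_lhs => rw [h1]
    refine prod_biUnion ?_
    intro i _ j _ hij
    exact (Pz_disj z hz i j hij).mono inter_subset_right inter_subset_right
  push_cast
  rw [h2, Real.rpow_sum_of_pos hz0]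
  refine prod_le_prod (fun j _ => prod_nonneg fun p _ => Nat.cast_nonneg p) fun j hj => ?_
  have h3 : ∏ p ∈ S ∩ Pz z j, (p : ℝ) ≤ ∏ _p ∈ S ∩ Pz z j, z ^ ((1 / 2 : ℝ) ^ j) := by
    refine prod_le_prod (fun p _ => Nat.cast_nonneg p) fun p hp => ?_
    have h4 := (mem_inter.1 hp).2
    rw [Pz, mem_PI] at h4
    exact h4.2.2.le
  refine h3.trans ?_
  rw [prod_const, Real.rpow_mul hz0.le, Real.rpow_natCast]
  refine pow_le_pow_right₀ ?_ (hc j (mem_range.1 hj))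
  exact Real.one_le_rpow (by linarith) (by positivity)

theorem SPl_fin (z : ℝ) (hz : 2 ≤ z) (b : ℕ) {t : ℝ} (ht : t ≤ 4 * b + 5) :
    z ^ t ≤ z ^ (4 * b + 5) := by
  have h : z ^ (4 * b + 5) = z ^ ((4 * b + 5 : ℝ)) := by
    rw [← Real.rpow_natCast]
    congr 1
    push_cast
    ring
  rw [h]
  exact Real.rpow_le_rpow_of_exponent_le (by linarith) ht

/-- The supports: the product of `S` is at most `z ^ (4 b + 5)`.

Proof. The primes of block `j` are below `z ^ (2 ^ (- j))`, there are at most `2 (b + j)` of them (and one more in at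
most one block for `lm'`): the exponent is at most `∑_j 2 ^ (- j) 2 (b + j) + 1 = 4 b + 4 + 1`. -/
theorem lp_supp (z : ℝ) (hz : 2 ≤ z) (b : ℕ) (S : Finset ℕ) (hS : S ⊆ PI 0 z) (h : lp' z b S ≠ 0) :
    ((∏ p ∈ S, p : ℕ) : ℝ) ≤ z ^ (4 * b + 5) := by
  have hc : ∀ j < Jz z, (S ∩ Pz z j).card ≤ bz b j := by
    by_contra hcon
    apply h
    rw [lp', lap, if_neg hcon]
  refine (SPl_prod z hz S hS (bz b) hc).trans (SPl_fin z hz b ?_)
  have := SPl_sum_le b (Jz z)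
  linarith

theorem lm_supp (z : ℝ) (hz : 2 ≤ z) (b : ℕ) (S : Finset ℕ) (hS : S ⊆ PI 0 z) (h : lm' z b S ≠ 0) :
    ((∏ p ∈ S, p : ℕ) : ℝ) ≤ z ^ (4 * b + 5) := by
  by_cases hl : lp' z b S = 0
  · have h1 : ∃ j ∈ range (Jz z), (open Classical in if (S ∩ Pz z j).card = bz b j + 1 ∧
        ∀ i < Jz z, i ≠ j → (S ∩ Pz z i).card ≤ bz b i then (-1 : ℝ) ^ (S \ Pz z j).card else 0) ≠
        0 := by
      apply exists_ne_zero_of_sum_ne_zero
      intro h2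
      apply h
      rw [lm', lam]
      have h3 : lap (Pz z) (bz b) (Jz z) S = 0 := hl
      rw [h3, h2, sub_zero]
    obtain ⟨j, hj, h2⟩ := h1
    rw [mem_range] at hj
    have h3 : (S ∩ Pz z j).card = bz b j + 1 ∧
        ∀ i < Jz z, i ≠ j → (S ∩ Pz z i).card ≤ bz b i := by
      by_contra hcon
      exact h2 (if_neg hcon)
    refine (SPl_prod z hz S hS (fun i => bz b i + if i = j then 1 else 0) ?_).trans
      (SPl_fin z hz b ?_)
    · intro i hi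
      by_cases hij : i = j
      · rw [hij, if_pos rfl, h3.1]
      · rw [if_neg hij, add_zero]
        exact h3.2 i hi hij
    · have h4 : ∑ i ∈ range (Jz z), (1 / 2 : ℝ) ^ i * ((bz b i + if i = j then 1 else 0 : ℕ) : ℝ) =
          ∑ i ∈ range (Jz z), (1 / 2 : ℝ) ^ i * (bz b i : ℕ) + (1 / 2 : ℝ) ^ j := by
        have h5 : ∀ i ∈ range (Jz z), (1 / 2 : ℝ) ^ i * ((bz b i + if i = j then 1 else 0 : ℕ) : ℝ) =
            (1 / 2 : ℝ) ^ i * (bz b i : ℕ) + if i = j then (1 / 2 : ℝ) ^ i else 0 := by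
          intro i _
          push_cast
          split_ifs <;> ring
        rw [sum_congr rfl h5, sum_add_distrib, sum_ite_eq', if_pos (mem_range.2 hj)]
      rw [h4]
      have h5 := SPl_sum_le b (Jz z)
      have h6 : (1 / 2 : ℝ) ^ j ≤ 1 := pow_le_one₀ (by norm_num) (by norm_num)
      linarith
  · exact lp_supp z hz b S hS hl

/-- `|lm'| ≤ C log z`. (`abs_lam_le`, `Jz z ≤ C log z`.) -/
theorem lm_bound : ∃ C : ℝ, 1 ≤ C ∧ ∀ (z : ℝ) (b : ℕ) (S : Finset ℕ), 2 ≤ z →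
    |lp' z b S| ≤ 1 ∧ |lm' z b S| ≤ C * Real.log z := by
  have hl2 : 0 < Real.log 2 := Real.log_pos (by norm_num)
  have hl2' : Real.log 2 ≤ 1 := by
    have := Real.log_le_sub_one_of_pos (show (0 : ℝ) < 2 by norm_num)
    linarith
  have hl3 : 1 / 2 ≤ Real.log 2 := by
    have := Real.log_two_gt_d9
    linarith
  refine ⟨5 / Real.log 2, ?_, ?_⟩
  · rw [le_div_iff₀ hl2]
    linarith
  intro z b S hz
  refine ⟨abs_lap_le _ _ _ _, (abs_lam_le _ _ _ _).trans ?_⟩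
  have hz0 : 0 < z := by linarith
  set x := Real.logb 2 z with hx
  have hx1 : 1 ≤ x := by
    rw [hx, Real.le_logb_iff_rpow_le (by norm_num) hz0, Real.rpow_one]
    exact hz
  have h1 : Real.logb 2 x ≤ 2 * x := by
    rw [Real.logb, div_le_iff₀ hl2]
    have h2 := Real.log_le_sub_one_of_pos (show 0 < x by linarith)
    nlinarith
  have h0 : 0 ≤ Real.logb 2 x := Real.logb_nonneg (by norm_num) hx1
  have h2 : ((Jz z : ℕ) : ℝ) ≤ 2 * x + 2 := by
    rw [Jz]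
    push_cast
    have := (Nat.ceil_lt_add_one h0).le
    linarith
  have h3 : 5 / Real.log 2 * Real.log z = 5 * x := by
    rw [hx, Real.logb]
    ring
  rw [h3]
  linarith

end Pool.Agent.M58
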