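import Pool.Agent.W_b58c63_m1.SPl
import Pool.Agent.W_b58c63_m1.EChar

/-!
# Smooth sums over sieve weights (helper68)
-/

set_option autoImplicit false

noncomputable section

open Finset MeasureTheory

namespace Pool.Agent.M58

/-- The main factors of the upper and of the lower bound sieve for integers prime to `q`. -/
def Mp (z : ℝ) (b q : ℕ) : ℝ := (q.totient / q : ℝ) *
  ∑ S ∈ (PI 0 z).powerset, lp' z b S * ∏ p ∈ S, (if p ∣ q then 0 else 1 / (p : ℝ))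

def Mm (z : ℝ) (b q : ℕ) : ℝ := (q.totient / q : ℝ) *
  ∑ S ∈ (PI 0 z).powerset, lm' z b S * ∏ p ∈ S, (if p ∣ q then 0 else 1 / (p : ℝ))

/-! ### Auxiliary facts -/

theorem SSm_dvd {z : ℝ} {S : Finset ℕ} (hS : S ⊆ PI 0 z) (n : ℕ) :
    (∏ p ∈ S, p) ∣ n ↔ ∀ p ∈ S, p ∣ n := by
  constructor
  · intro h q hq
    exact (Finset.dvd_prod_of_mem _ hq).trans h
  · intro h
    exact Finset.prod_primes_dvd n (fun q hq => (mem_PI.1 (hS hq)).1.prime) h

theorem SSm_pos {z : ℝ} {S : Finset ℕ} (hS : S ⊆ PI 0 z) : 1 ≤ ∏ p ∈ S, p :=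
  Finset.prod_pos fun p hp => (mem_PI.1 (hS hp)).1.pos

theorem SSm_sum (g : ℕ → ℂ) (N d : ℕ) (hd : 1 ≤ d) (hg : ∀ n, N < n → g n = 0) :
    ∑ n ∈ (Icc 1 N).filter (d ∣ ·), g n = ∑ l ∈ Icc 1 N, g (d * l) := by
  have h1 : ∑ n ∈ (Icc 1 N).image (fun l => d * l), g n = ∑ l ∈ Icc 1 N, g (d * l) :=
    Finset.sum_image fun a _ b _ h => Nat.eq_of_mul_eq_mul_left (by omega) h
  rw [← h1]
  refine Finset.sum_subset ?_ ?_
  · intro n hn
    rw [mem_filter, mem_Icc] at hn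
    obtain ⟨⟨h2, h3⟩, l, rfl⟩ := hn
    rw [mem_image]
    refine ⟨l, ?_, rfl⟩
    rw [mem_Icc]
    have h4 : 0 < l := Nat.pos_of_mul_pos_left h2
    exact ⟨h4, (Nat.le_mul_of_pos_left l (by omega)).trans h3⟩
  · intro n hn hn2
    rw [mem_image] at hn
    obtain ⟨l, hl, rfl⟩ := hn
    refine hg _ ?_
    by_contra hc
    push Not at hc
    apply hn2
    rw [mem_filter, mem_Icc]
    rw [mem_Icc] at hl
    exact ⟨⟨Nat.mul_pos hd hl.1, hc⟩, dvd_mul_right _ _⟩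

theorem SSm_nit_mul (d l : ℕ) (u : ℝ) : nit (d * l) u = nit d u * nit l u := by
  unfold nit
  rw [Nat.cast_mul, Complex.natCast_mul_natCast_cpow]

theorem SSm_nit_norm (d : ℕ) (hd : 1 ≤ d) (u : ℝ) : ‖nit d u‖ = 1 := by
  unfold nit
  rw [Complex.norm_natCast_cpow_of_pos (by omega)]
  simp

theorem SSm_nit_exp (d : ℕ) (hd : 1 ≤ d) (u : ℝ) :
    nit d u * Complex.exp (((u * Real.log d : ℝ) : ℂ) * Complex.I) = 1 := by
  unfold nit
  have h0 : (d : ℂ) ≠ 0 := by exact_mod_cast (by omega : d ≠ 0)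
  rw [Complex.cpow_def_of_ne_zero h0, ← Complex.exp_add]
  have h1 : Complex.log (d : ℂ) * -((u : ℂ) * Complex.I) +
      ((u * Real.log d : ℝ) : ℂ) * Complex.I = 0 := by
    rw [← Complex.natCast_log]
    push_cast
    ring
  rw [h1, Complex.exp_zero]

theorem SSm_shift (h : ℝ → ℝ) (c u : ℝ) :
    ∫ v : ℝ, ((h (v + c) : ℝ) : ℂ) * Complex.exp (-(u * v : ℝ) * Complex.I) =
      Complex.exp (((u * c : ℝ) : ℂ) * Complex.I) * osc h u := by
  unfold osc
  rw [← integral_add_right_eq_self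
    (fun v : ℝ => ((h v : ℝ) : ℂ) * Complex.exp (-(u * v : ℝ) * Complex.I)) c,
    ← integral_const_mul]
  refine integral_congr_ae (Filter.Eventually.of_forall fun v => ?_)
  have h1 : Complex.exp (-(u * v : ℝ) * Complex.I) =
      Complex.exp (((u * c : ℝ) : ℂ) * Complex.I) *
        Complex.exp (-(u * (v + c) : ℝ) * Complex.I) := by
    rw [← Complex.exp_add]
    congr 1
    push_cast
    ring
  show ((h (v + c) : ℝ) : ℂ) * Complex.exp (-(u * v : ℝ) * Complex.I) = _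
  rw [h1]
  ring

theorem SSm_chi (q : ℕ) (z : ℝ) {S : Finset ℕ} (hS : S ⊆ PI 0 z) :
    (1 : DirichletCharacter ℂ q) ((∏ p ∈ S, p : ℕ) : ZMod q) / ((∏ p ∈ S, p : ℕ) : ℂ) =
      ((∏ p ∈ S, (if p ∣ q then 0 else 1 / (p : ℝ)) : ℝ) : ℂ) := by
  rw [Nat.cast_prod, map_prod, Nat.cast_prod, ← Finset.prod_div_distrib, Complex.ofReal_prod]
  refine Finset.prod_congr rfl fun p hp => ?_
  have hpp := (mem_PI.1 (hS hp)).1
  by_cases h : p ∣ q
  · have h1 : ¬ IsUnit ((p : ℕ) : ZMod q) := by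
      rw [ZMod.isUnit_iff_coprime]
      intro h2
      have := Nat.Coprime.eq_one_of_dvd h2 h
      exact hpp.one_lt.ne' this
    rw [MulChar.map_nonunit _ h1, if_pos h]
    simp
  · have h1 : IsUnit ((p : ℕ) : ZMod q) := by
      rw [ZMod.isUnit_iff_coprime]
      exact (Nat.Prime.coprime_iff_not_dvd hpp).2 h
    rw [MulChar.one_apply h1, if_neg h]
    push_cast
    rfl

theorem SSm_inv : ∃ C : ℝ, 0 < C ∧ ∀ z : ℝ, 2 ≤ z →
    ∑ S ∈ (PI 0 z).powerset, 1 / ((∏ p ∈ S, p : ℕ) : ℝ) ≤ C * Real.log z := by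
  obtain ⟨C, hC, H⟩ := Pool.Agent.Wb58c63.mertens_two
  have hl2 : 0 < Real.log 2 := Real.log_pos (by norm_num)
  refine ⟨Real.exp (C / Real.log 2) / Real.log 2, by positivity, fun z hz => ?_⟩
  have h1 : PI 0 z = PI 2 z := by
    ext p
    rw [mem_PI, mem_PI]
    constructor
    · rintro ⟨a, -, c⟩
      exact ⟨a, by exact_mod_cast a.two_le, c⟩
    · rintro ⟨a, -, c⟩
      exact ⟨a, by positivity, c⟩
  have h2 : ∑ S ∈ (PI 0 z).powerset, 1 / ((∏ p ∈ S, p : ℕ) : ℝ) =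
      ∏ p ∈ PI 0 z, (1 + 1 / (p : ℝ)) := by
    rw [Finset.prod_one_add]
    refine Finset.sum_congr rfl fun S _ => ?_
    rw [Nat.cast_prod, Finset.prod_div_distrib, Finset.prod_const_one]
  have h3 : ∏ p ∈ PI 0 z, (1 + 1 / (p : ℝ)) ≤ Real.exp (∑ p ∈ PI 0 z, 1 / (p : ℝ)) := by
    rw [Real.exp_sum]
    refine Finset.prod_le_prod (fun p _ => by positivity) (fun p _ => ?_)
    have := Real.add_one_le_exp (1 / (p : ℝ))
    linarith
  have hlz : 0 < Real.log z := Real.log_pos (by linarith)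
  have h4 := H 2 z le_rfl hz
  rw [h2]
  refine h3.trans ?_
  rw [h1]
  refine (Real.exp_le_exp.2 h4).trans (le_of_eq ?_)
  rw [Real.exp_add, Real.exp_log (by positivity)]
  ring

/-- The main factor. -/
def SSm_M (lam : Finset ℕ → ℝ) (z : ℝ) (q : ℕ) : ℝ := (q.totient / q : ℝ) *
  ∑ S ∈ (PI 0 z).powerset, lam S * ∏ p ∈ S, (if p ∣ q then 0 else 1 / (p : ℝ))

theorem SSm_exp {κ A : ℝ} (hκ : 0 < κ) (hA : 0 ≤ A) :
    A ^ 2 * Real.exp (-(2 * κ) * A) ≤ 2 / κ ^ 2 * Real.exp (-κ * A) := by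
  have h1 := Real.quadratic_le_exp_of_nonneg (mul_nonneg hκ.le hA)
  have h2 : A ^ 2 ≤ 2 / κ ^ 2 * Real.exp (κ * A) := by
    rw [div_mul_eq_mul_div, le_div_iff₀ (by positivity)]
    nlinarith [mul_nonneg hκ.le hA]
  have h3 : Real.exp (-(2 * κ) * A) = Real.exp (-κ * A) * Real.exp (-κ * A) := by
    rw [← Real.exp_add]
    congr 1
    ring
  have h4 : Real.exp (κ * A) * Real.exp (-κ * A) = 1 := by
    rw [← Real.exp_add]
    simp
  calc A ^ 2 * Real.exp (-(2 * κ) * A)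
      ≤ (2 / κ ^ 2 * Real.exp (κ * A)) * Real.exp (-(2 * κ) * A) :=
        mul_le_mul_of_nonneg_right h2 (Real.exp_pos _).le
    _ = 2 / κ ^ 2 * (Real.exp (κ * A) * Real.exp (-κ * A)) * Real.exp (-κ * A) := by
        rw [h3]; ring
    _ = _ := by rw [h4]; ring

/-- The expansion over the sets of primes. -/
theorem SSm_expand (z : ℝ) (q N : ℕ) (ψ : DirichletCharacter ℂ q) (u : ℝ) (h : ℝ → ℝ)
    (T : ℕ → ℝ) (lam : Finset ℕ → ℝ)
    (hT : ∀ n, T n = ∑ S ∈ ((PI 0 z).filter (· ∣ n)).powerset, lam S)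
    (hN : ∀ v, Real.log N ≤ v → h v = 0) (hN1 : 1 ≤ N) :
    DP N (fun n => T n * h (Real.log n)) ψ u =
      ∑ S ∈ (PI 0 z).powerset, ((lam S / ((∏ p ∈ S, p : ℕ) : ℝ) : ℝ) : ℂ) *
        ψ ((∏ p ∈ S, p : ℕ) : ZMod q) * nit (∏ p ∈ S, p) u *
        ∑ l ∈ Icc 1 N, ((h (Real.log l + Real.log ((∏ p ∈ S, p : ℕ) : ℝ)) / l : ℝ) : ℂ) *
          ψ (l : ZMod q) * nit l u := by
  classical
  unfold DP
  have h1 : ∀ n ∈ Icc 1 N, (((T n * h (Real.log n)) / n : ℝ) : ℂ) * ψ (n : ZMod q) * nit n u =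
      ∑ S ∈ (PI 0 z).powerset, if (∏ p ∈ S, p) ∣ n then
        (lam S : ℂ) * (((h (Real.log n) / n : ℝ) : ℂ) * ψ (n : ZMod q) * nit n u) else 0 := by
    intro n hn
    have h2 : T n = ∑ S ∈ (PI 0 z).powerset, if (∏ p ∈ S, p) ∣ n then lam S else 0 := by
      rw [hT, ← Finset.sum_filter]
      refine Finset.sum_congr ?_ fun _ _ => rfl
      ext S
      rw [mem_powerset, mem_filter, mem_powerset]
      constructor
      · intro hS
        have hS2 : S ⊆ PI 0 z := hS.trans (filter_subset _ _)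
        exact ⟨hS2, (SSm_dvd hS2 n).2 fun p hp => (mem_filter.1 (hS hp)).2⟩
      · rintro ⟨hS, hd⟩ p hp
        exact mem_filter.2 ⟨hS hp, (SSm_dvd hS n).1 hd p hp⟩
    have h3 : (((T n * h (Real.log n)) / n : ℝ) : ℂ) =
        (T n : ℂ) * ((h (Real.log n) / n : ℝ) : ℂ) := by
      rw [← Complex.ofReal_mul]
      congr 1
      ring
    rw [h3, h2, Complex.ofReal_sum, Finset.sum_mul, Finset.sum_mul, Finset.sum_mul]
    refine Finset.sum_congr rfl fun S _ => ?_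
    split_ifs
    · ring
    · simp
  rw [Finset.sum_congr rfl h1, Finset.sum_comm]
  refine Finset.sum_congr rfl fun S hS => ?_
  rw [mem_powerset] at hS
  set d := ∏ p ∈ S, p with hd
  have hd1 : 1 ≤ d := SSm_pos hS
  have hdR : (0 : ℝ) < d := by exact_mod_cast hd1
  rw [← Finset.sum_filter, ← Finset.mul_sum,
    SSm_sum (fun n => ((h (Real.log n) / n : ℝ) : ℂ) * ψ (n : ZMod q) * nit n u) N d hd1 ?_,
    Finset.mul_sum, Finset.mul_sum]
  · refine Finset.sum_congr rfl fun l hl => ?_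
    rw [mem_Icc] at hl
    have hlR : (0 : ℝ) < l := by exact_mod_cast hl.1
    have e1 : Real.log ((d * l : ℕ) : ℝ) = Real.log l + Real.log d := by
      rw [Nat.cast_mul, Real.log_mul hdR.ne' hlR.ne', add_comm]
    have e2 : ψ ((d * l : ℕ) : ZMod q) = ψ (d : ZMod q) * ψ (l : ZMod q) := by
      rw [Nat.cast_mul, map_mul]
    rw [e1, e2, SSm_nit_mul]
    push_cast
    have h4 : (d : ℂ) ≠ 0 := by exact_mod_cast hdR.ne'
    have h5 : (l : ℂ) ≠ 0 := by exact_mod_cast hlR.ne'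
    field_simp
  · intro n hn
    have h4 : Real.log N ≤ Real.log n := by
      refine Real.log_le_log (by exact_mod_cast hN1) ?_
      exact_mod_cast hn.le
    rw [hN _ h4]
    simp

theorem SSm_core (B : ℝ) (hB : 0 < B) : ∃ κ C : ℝ, 0 < κ ∧ κ < 1 / 8 ∧ 0 < C ∧
    ∀ (K z : ℝ) (b q N : ℕ) (ψ : DirichletCharacter ℂ q) (A u h₀ h₁ : ℝ) (h : ℝ → ℝ)
      (T : ℕ → ℝ) (lam : Finset ℕ → ℝ), 0 ≤ K → 2 ≤ z → 1 ≤ b →
      z ^ (4 * b + 5) ≤ Real.exp (A / 2) → 1 ≤ q → 1 ≤ N → |u| ≤ Real.exp (B * A) →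
      (q : ℝ) ≤ Real.exp (κ * A) → (∀ v, |h v| ≤ h₀) → (∀ v w, |h v - h w| ≤ h₁ * |v - w|) →
      (∀ v, v ≤ A → h v = 0) → (∀ v, Real.log N ≤ v → h v = 0) →
      (∀ n, T n = ∑ S ∈ ((PI 0 z).filter (· ∣ n)).powerset, lam S) →
      (∀ S, S ⊆ PI 0 z → lam S ≠ 0 → ((∏ p ∈ S, p : ℕ) : ℝ) ≤ z ^ (4 * b + 5)) →
      (∀ S, |lam S| ≤ K * Real.log z) →
        ‖DP N (fun n => T n * h (Real.log n)) ψ u -
          (open Classical in if ψ = 1 then (SSm_M lam z q : ℂ) * osc h u else 0)‖ ≤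
            K * C * (h₀ + h₁) * Real.exp (-κ * A) := by
  classical
  obtain ⟨κ', C', hκ', hκ8, hC', H⟩ := chsmooth (2 * B) (by positivity)
  obtain ⟨C₂, hC₂, H₂⟩ := SSm_inv
  set κ := κ' / 4 with hκ
  have hκ0 : 0 < κ := by positivity
  refine ⟨κ, C₂ * C' * (2 / κ ^ 2), hκ0, by rw [hκ]; linarith, by positivity, ?_⟩
  intro K z b q N ψ A u h₀ h₁ h T lam hK hz hb hzA hq hN hu hqκ hh0 hh1 hhA hhN hT hsupp hlam
  have hlz : 0 < Real.log z := Real.log_pos (by linarith)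
  have hzb : (z : ℝ) ≤ z ^ (4 * b + 5) := by
    calc z = z ^ 1 := (pow_one z).symm
      _ ≤ z ^ (4 * b + 5) := pow_le_pow_right₀ (by linarith) (by omega)
  have hlzA : Real.log z ≤ A / 2 := by
    rw [Real.log_le_iff_le_exp (by linarith)]
    exact hzb.trans hzA
  have hA : 0 < A := by linarith
  have hh0' : 0 ≤ h₀ := (abs_nonneg _).trans (hh0 0)
  have hh1' : 0 ≤ h₁ := by
    have := (abs_nonneg _).trans (hh1 1 0)
    simpa using this
  rw [SSm_expand z q N ψ u h T lam hT hhN hN]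
  -- the main terms
  have hmain : (if ψ = 1 then (SSm_M lam z q : ℂ) * osc h u else 0) =
      ∑ S ∈ (PI 0 z).powerset, ((lam S / ((∏ p ∈ S, p : ℕ) : ℝ) : ℝ) : ℂ) *
        ψ ((∏ p ∈ S, p : ℕ) : ZMod q) * nit (∏ p ∈ S, p) u *
        (if ψ = 1 then ((q.totient / q : ℝ) : ℂ) *
            ∫ v : ℝ, ((h (v + Real.log ((∏ p ∈ S, p : ℕ) : ℝ)) : ℝ) : ℂ) *
              Complex.exp (-(u * v : ℝ) * Complex.I) else 0) := by
    by_cases hψ : ψ = 1
    · subst hψ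
      simp only [if_true]
      unfold SSm_M
      rw [Complex.ofReal_mul, Complex.ofReal_sum, Finset.mul_sum, Finset.sum_mul]
      refine Finset.sum_congr rfl fun S hS => ?_
      rw [mem_powerset] at hS
      have hd1 : 1 ≤ ∏ p ∈ S, p := SSm_pos hS
      rw [SSm_shift, Complex.ofReal_mul, ← SSm_chi q z hS]
      have h3 := SSm_nit_exp (∏ p ∈ S, p) hd1 u
      have e5 : ((lam S / ((∏ p ∈ S, p : ℕ) : ℝ) : ℝ) : ℂ) =
          (lam S : ℂ) / ((∏ p ∈ S, p : ℕ) : ℂ) := by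
        rw [Complex.ofReal_div, Complex.ofReal_natCast]
      rw [e5]
      calc _ = ((q.totient / q : ℝ) : ℂ) * ((lam S : ℂ) *
            ((1 : DirichletCharacter ℂ q) ((∏ p ∈ S, p : ℕ) : ZMod q) /
              ((∏ p ∈ S, p : ℕ) : ℂ))) * osc h u * 1 := by rw [mul_one]
        _ = _ := by
            rw [← h3]
            ring
    · simp only [if_neg hψ, mul_zero, Finset.sum_const_zero]
  rw [hmain, ← Finset.sum_sub_distrib]
  refine (norm_sum_le _ _).trans ?_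
  have hterm : ∀ S ∈ (PI 0 z).powerset,
      ‖((lam S / ((∏ p ∈ S, p : ℕ) : ℝ) : ℝ) : ℂ) *
        ψ ((∏ p ∈ S, p : ℕ) : ZMod q) * nit (∏ p ∈ S, p) u *
        ∑ l ∈ Icc 1 N, ((h (Real.log l + Real.log ((∏ p ∈ S, p : ℕ) : ℝ)) / l : ℝ) : ℂ) *
          ψ (l : ZMod q) * nit l u - ((lam S / ((∏ p ∈ S, p : ℕ) : ℝ) : ℝ) : ℂ) *
        ψ ((∏ p ∈ S, p : ℕ) : ZMod q) * nit (∏ p ∈ S, p) u *
        (if ψ = 1 then ((q.totient / q : ℝ) : ℂ) *
            ∫ v : ℝ, ((h (v + Real.log ((∏ p ∈ S, p : ℕ) : ℝ)) : ℝ) : ℂ) *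
              Complex.exp (-(u * v : ℝ) * Complex.I) else 0)‖ ≤
      K * Real.log z * (C' * (h₀ + h₁) * Real.exp (-(2 * κ) * A)) *
        (1 / ((∏ p ∈ S, p : ℕ) : ℝ)) := by
    intro S hS
    rw [mem_powerset] at hS
    set d := ∏ p ∈ S, p with hd
    have hd1 : 1 ≤ d := SSm_pos hS
    have hdR : (1 : ℝ) ≤ d := by exact_mod_cast hd1
    by_cases hl0 : lam S = 0
    · rw [hl0]
      simp only [zero_div, Complex.ofReal_zero, zero_mul, sub_self, norm_zero]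
      positivity
    have hds := hsupp S hS hl0
    rw [← hd] at hds
    have hld : Real.log d ≤ A / 2 := by
      rw [Real.log_le_iff_le_exp (by linarith)]
      exact hds.trans hzA
    have hld0 : 0 ≤ Real.log d := Real.log_nonneg hdR
    have key := H q N ψ (A - Real.log d) u h₀ h₁ (fun v => h (v + Real.log d)) hq (by linarith)
      hN (hu.trans (Real.exp_le_exp.2 (by nlinarith)))
      (hqκ.trans (Real.exp_le_exp.2 (by rw [hκ]; nlinarith))) (fun v => hh0 _)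
      (fun v w => by
        have := hh1 (v + Real.log d) (w + Real.log d)
        rwa [add_sub_add_right_eq_sub] at this)
      (fun v hv => hhA _ (by linarith)) (fun v hv => hhN _ (by linarith))
    rw [← mul_sub, norm_mul, norm_mul, norm_mul, SSm_nit_norm d hd1, mul_one, Complex.norm_real,
      Real.norm_eq_abs, abs_div, abs_of_pos (by linarith : (0 : ℝ) < d)]
    have hexp : Real.exp (-κ' * (A - Real.log d)) ≤ Real.exp (-(2 * κ) * A) := by
      rw [Real.exp_le_exp, hκ]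
      nlinarith
    have k2 : C' * (h₀ + h₁) * Real.exp (-κ' * (A - Real.log d)) ≤
        C' * (h₀ + h₁) * Real.exp (-(2 * κ) * A) :=
      mul_le_mul_of_nonneg_left hexp (by positivity)
    have hψ1 : ‖ψ (d : ZMod q)‖ ≤ 1 := DirichletCharacter.norm_le_one ψ _
    have k3 : |lam S| / d * ‖ψ (d : ZMod q)‖ ≤ K * Real.log z * (1 / d) := by
      calc |lam S| / d * ‖ψ (d : ZMod q)‖ ≤ |lam S| / d * 1 :=
            mul_le_mul_of_nonneg_left hψ1 (by positivity)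
        _ = |lam S| * (1 / d) := by ring
        _ ≤ K * Real.log z * (1 / d) :=
            mul_le_mul_of_nonneg_right (hlam S) (by positivity)
    calc _ ≤ (K * Real.log z * (1 / (d : ℝ))) *
          (C' * (h₀ + h₁) * Real.exp (-(2 * κ) * A)) := by
          refine mul_le_mul k3 (le_trans ?_ k2) (norm_nonneg _) (by positivity)
          exact key
      _ = _ := by ring
  refine (Finset.sum_le_sum hterm).trans ?_
  rw [← Finset.mul_sum]
  have h3 := H₂ z hz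
  have hX : 0 ≤ K * Real.log z * (C' * (h₀ + h₁) * Real.exp (-(2 * κ) * A)) := by positivity
  have h4 := SSm_exp hκ0 hA.le
  have h5 : Real.log z ^ 2 ≤ A ^ 2 := by
    refine pow_le_pow_left₀ hlz.le ?_ 2
    linarith
  calc K * Real.log z * (C' * (h₀ + h₁) * Real.exp (-(2 * κ) * A)) *
        ∑ S ∈ (PI 0 z).powerset, 1 / ((∏ p ∈ S, p : ℕ) : ℝ)
      ≤ K * Real.log z * (C' * (h₀ + h₁) * Real.exp (-(2 * κ) * A)) * (C₂ * Real.log z) :=
        mul_le_mul_of_nonneg_left h3 hX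
    _ = K * C₂ * C' * (h₀ + h₁) * (Real.log z ^ 2 * Real.exp (-(2 * κ) * A)) := by ring
    _ ≤ K * C₂ * C' * (h₀ + h₁) * (A ^ 2 * Real.exp (-(2 * κ) * A)) := by
        refine mul_le_mul_of_nonneg_left ?_ (by positivity)
        exact mul_le_mul_of_nonneg_right h5 (Real.exp_pos _).le
    _ ≤ K * C₂ * C' * (h₀ + h₁) * (2 / κ ^ 2 * Real.exp (-κ * A)) :=
        mul_le_mul_of_nonneg_left h4 (by positivity)
    _ = _ := by ring

/-- **Smooth sums over the sieve.** The level `z ^ (4 b + 5)` is at most `exp (A / 2)`.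

Proof. Insert `tp_eq`; the set `S` with product `d` contributes
`lp' (S) ψ (d) d ^ (- 1 - i u) ∑_l ψ (l) h (log d + log l) l ^ (- 1 - i u)`; `chsmooth` with the function
`v ↦ h (v + log d)`, which vanishes for `v ≤ A - log d`, and `A - log d ≥ A / 2` (`lp_supp`), constants for `2 B` and
`κ / 2`. `∫ h (v + log d) e ^ (- i u v) dv = d ^ (i u) osc h u`. The errors are
`∑_S |lp' (S)| / d · C (h₀ + h₁) exp (- κ A / 2)`, `∑_S 1 / d ≤ ∏_{p < z} (1 + 1 / p) ≤ C log z ≤ C A`. For `ψ = 1` the sets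
`S` with a prime dividing `q` vanish. The same with `lm'` (`lm_bound`). -/
theorem sieve_smooth (B : ℝ) (hB : 0 < B) : ∃ κ C : ℝ, 0 < κ ∧ κ < 1 / 8 ∧ 0 < C ∧
    ∀ (z : ℝ) (b q N : ℕ) (ψ : DirichletCharacter ℂ q) (A u h₀ h₁ : ℝ) (h : ℝ → ℝ), 2 ≤ z → 1 ≤ b →
      z ^ (4 * b + 5) ≤ Real.exp (A / 2) → 1 ≤ q → 1 ≤ N → |u| ≤ Real.exp (B * A) →
      (q : ℝ) ≤ Real.exp (κ * A) → (∀ v, |h v| ≤ h₀) → (∀ v w, |h v - h w| ≤ h₁ * |v - w|) →
      (∀ v, v ≤ A → h v = 0) → (∀ v, Real.log N ≤ v → h v = 0) →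
        ‖DP N (fun n => tp' z b n * h (Real.log n)) ψ u -
          (open Classical in if ψ = 1 then (Mp z b q : ℂ) * osc h u else 0)‖ ≤
            C * (h₀ + h₁) * Real.exp (-κ * A) ∧
        ‖DP N (fun n => tm' z b n * h (Real.log n)) ψ u -
          (open Classical in if ψ = 1 then (Mm z b q : ℂ) * osc h u else 0)‖ ≤
            C * (h₀ + h₁) * Real.exp (-κ * A) := by
  obtain ⟨κ, C, hκ, hκ8, hC, H⟩ := SSm_core B hB
  obtain ⟨C₁, hC₁, H₁⟩ := lm_bound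
  refine ⟨κ, 2 * C₁ * C, hκ, hκ8, by positivity, ?_⟩
  intro z b q N ψ A u h₀ h₁ h hz hb hzA hq hN hu hqκ hh0 hh1 hhA hhN
  have hl2 : (1 / 2 : ℝ) ≤ Real.log z := by
    have h1 : Real.log 2 ≤ Real.log z := Real.log_le_log (by norm_num) hz
    have h2 := Real.log_two_gt_d9
    linarith
  constructor
  · exact H (2 * C₁) z b q N ψ A u h₀ h₁ h (tp' z b) (lp' z b) (by positivity) hz hb hzA hq hN hu
      hqκ hh0 hh1 hhA hhN (fun n => tp_eq z hz b n) (fun S hS hl => lp_supp z hz b S hS hl)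
      (fun S => by
        have h1 := (H₁ z b S hz).1
        nlinarith)
  · exact H (2 * C₁) z b q N ψ A u h₀ h₁ h (tm' z b) (lm' z b) (by positivity) hz hb hzA hq hN hu
      hqκ hh0 hh1 hhA hhN (fun n => tm_eq z hz b n) (fun S hS hl => lm_supp z hz b S hS hl)
      (fun S => by
        have h1 := (H₁ z b S hz).2
        nlinarith)

end Pool.Agent.M58
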